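import Pool.Agent.Q106.PK.Stm

/-!
# Project PK (helper106), JOB LEAF: a connected set with at least two cells splits
-/

set_option autoImplicit false

namespace Pool.Agent.Q106.PK

theorem t_LEAF (h : S_COMP) : S_LEAF := by
  intro P hP h2
  obtain ⟨b, hb, q, hq, hne⟩ := Finset.one_lt_card.mp (show 1 < P.card by omega)
  obtain ⟨C, -, hsub, hC, hPC, ⟨c, hc, hcb⟩, -⟩ := h P b q hP hb hq (Ne.symm hne)
  refine ⟨C, P \ C, Finset.disjoint_sdiff, ?_, hC, hPC, c, hc, b, ?_, hcb⟩
  · exact Finset.union_sdiff_of_subset (hsub.trans (Finset.erase_subset _ _))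
  · rw [Finset.mem_sdiff]
    exact ⟨hb, fun hbC => (Finset.mem_erase.mp (hsub hbC)).1 rfl⟩

end Pool.Agent.Q106.PK
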