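import Pool.Agent.Q79.LD_Bas

/-! # Project LD, job CMP: at most `2 |S|` components after the deletion of `S` -/

set_option autoImplicit false

namespace Pool.Agent.Q79.LD

open Set Q109.LD

/-- the polyhedron of the inequalities in `S` and of one more inequality is bounded if the normals
in `S` span and the additional normal is the negative of their sum -/
theorem bdd_aux {n : ℕ} (u : Fin n → E 3) (h : Fin n → ℝ) (S : Finset (Fin n))
    (hspan : ∀ e : E 3, (∀ s ∈ S, inner ℝ (u s) e = 0) → e = 0) (M : ℝ) :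
    Bornology.IsBounded {x : E 3 | (∀ s ∈ S, inner ℝ (u s) x ≤ h s) ∧
      inner ℝ (-∑ s ∈ S, u s) x ≤ M} := by
  classical
  let f : E 3 →L[ℝ] (S → ℝ) := ContinuousLinearMap.pi fun s : S => innerSL ℝ (u s)
  have hf : LinearMap.ker (f : E 3 →ₗ[ℝ] (S → ℝ)) = ⊥ := by
    rw [LinearMap.ker_eq_bot']
    intro e he
    refine hspan e fun s hs => ?_
    exact congrFun he ⟨s, hs⟩
  obtain ⟨c, -, hc⟩ := (f : E 3 →ₗ[ℝ] (S → ℝ)).exists_antilipschitzWith hf
  set R : ℝ := |M| + ∑ s ∈ S, |h s| with hR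
  have hR0 : 0 ≤ R := by positivity
  refine (hc.isBounded_preimage (s := Metric.closedBall 0 R) Metric.isBounded_closedBall).subset ?_
  rintro x ⟨hx1, hx2⟩
  change f x ∈ Metric.closedBall 0 R
  rw [mem_closedBall_zero_iff, pi_norm_le_iff_of_nonneg hR0]
  rintro ⟨s, hs⟩
  change ‖inner ℝ (u s) x‖ ≤ R
  rw [Real.norm_eq_abs, abs_le]
  rw [inner_neg_left, sum_inner, ← Finset.add_sum_erase S _ hs] at hx2
  have h1 : ∑ t ∈ S.erase s, inner ℝ (u t) x ≤ ∑ t ∈ S.erase s, |h t| :=
    Finset.sum_le_sum fun t ht => (hx1 t (Finset.mem_of_mem_erase ht)).trans (le_abs_self _)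
  have h2 : ∑ s ∈ S, |h s| = |h s| + ∑ t ∈ S.erase s, |h t| :=
    (Finset.add_sum_erase S (fun s => |h s|) hs).symm
  have h3 : 0 ≤ ∑ t ∈ S.erase s, |h t| := Finset.sum_nonneg fun _ _ => abs_nonneg _
  have h4 := hx1 s hs
  have h5 := le_abs_self M
  have h6 := abs_nonneg M
  have h7 := abs_nonneg (h s)
  have h8 := le_abs_self (h s)
  constructor
  · rw [hR, h2]; linarith
  · rw [hR, h2]; linarith

theorem cmp : S_VIS → S_EXT → S_VB → S_CMP := by
  intro hV hE hVB n u h hI S hS K C hC1 hC2 hC3 hC4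
  classical
  -- (a')
  have hA : ∀ x : E 3, (∀ s ∈ S, inner ℝ (u s) x ≤ h s) → ∀ k, ∀ a ∈ C k, ∀ b, b ∉ C k →
      h a < inner ℝ (u a) x → h b < inner ℝ (u b) x → False := by
    intro x hx k a ha b hb h1 h2
    obtain ⟨a', ha', b', hb', h3, h4, h5⟩ := hV 3 n u h x a b (C k) (hI.nonempty a)
      (hI.nonempty b) h1 h2 ha hb
    refine hC4 k a' ha' b' hb' (fun hs => ?_) h5
    exact absurd (hx b' hs) (not_le.2 h4)
  -- (b)
  have hB : ∀ k, ∃ (p : E 3) (c : Fin n), c ∈ C k ∧ (∀ s ∈ S, inner ℝ (u s) p ≤ h s) ∧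
      h c < inner ℝ (u c) p := by
    intro k
    obtain ⟨c, hc⟩ := hC1 k
    obtain ⟨p, hp1, hp2⟩ := hI.beyond c
    refine ⟨p, c, hc, fun s hs => (hp2 s ?_).le, hp1⟩
    rintro rfl
    exact hC2 k _ hc hs
  choose p c hcC hpS hpc using hB
  obtain ⟨x0, hx0⟩ := hI.int
  have hS1 : 1 ≤ S.card := Finset.card_pos.2 hS
  by_cases hsp : ∃ e : E 3, e ≠ 0 ∧ ∀ s ∈ S, inner ℝ (u s) e = 0
  · -- Case 1
    obtain ⟨e, he0, heS⟩ := hsp
    obtain ⟨i, hi⟩ : ∃ i, 0 < inner ℝ (u i) e := by
      by_contra hcon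
      push Not at hcon
      exact he0 (dir_zero hI.bdd (x := x0) (fun i => (hx0 i).le) hcon)
    obtain ⟨i', hi'⟩ : ∃ i, 0 < inner ℝ (u i) (-e) := by
      by_contra hcon
      push Not at hcon
      exact (neg_ne_zero.2 he0) (dir_zero hI.bdd (x := x0) (fun i => (hx0 i).le) hcon)
    by_contra hK
    push Not at hK
    have hK3 : 3 ≤ K := by omega
    obtain ⟨k, hk1, hk2⟩ : ∃ k, i ∉ C k ∧ i' ∉ C k := by
      by_contra hcon
      push Not at hcon
      have h1 : (Finset.univ.filter fun k => i ∈ C k).card ≤ 1 := by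
        rw [Finset.card_le_one]
        intro k hk l hl
        rw [Finset.mem_filter] at hk hl
        by_contra hkl
        exact (Set.disjoint_left.1 (hC3 k l hkl)) hk.2 hl.2
      have h2 : (Finset.univ.filter fun k => i' ∈ C k).card ≤ 1 := by
        rw [Finset.card_le_one]
        intro k hk l hl
        rw [Finset.mem_filter] at hk hl
        by_contra hkl
        exact (Set.disjoint_left.1 (hC3 k l hkl)) hk.2 hl.2
      have h3 : (Finset.univ : Finset (Fin K)) ⊆ (Finset.univ.filter fun k => i ∈ C k) ∪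
          (Finset.univ.filter fun k => i' ∈ C k) := by
        intro k _
        rw [Finset.mem_union, Finset.mem_filter, Finset.mem_filter]
        by_cases hk : i ∈ C k
        · exact Or.inl ⟨Finset.mem_univ _, hk⟩
        · exact Or.inr ⟨Finset.mem_univ _, hcon k hk⟩
      have h4 := (Finset.card_le_card h3).trans (Finset.card_union_le _ _)
      rw [Finset.card_univ, Fintype.card_fin] at h4
      omega
    -- a far point
    have far : ∀ (v : E 3) (j : Fin n), (∀ s ∈ S, inner ℝ (u s) v = 0) → 0 < inner ℝ (u j) v →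
        0 ≤ inner ℝ (u (c k)) v → j ∉ C k → False := by
      intro v j hv hj hck hjk
      set t : ℝ := (|h j| + |inner ℝ (u j) (p k)| + 1) / inner ℝ (u j) v with ht
      have ht0 : 0 ≤ t := by positivity
      refine hA (p k + t • v) (fun s hs => ?_) k (c k) (hcC k) j hjk ?_ ?_
      · rw [inner_add_right, inner_smul_right, hv s hs, mul_zero, add_zero]
        exact hpS k s hs
      · rw [inner_add_right, inner_smul_right]
        have := mul_nonneg ht0 hck
        linarith [hpc k]
      · rw [inner_add_right, inner_smul_right, ht, div_mul_cancel₀ _ hj.ne']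
        linarith [le_abs_self (h j), neg_abs_le (inner ℝ (u j) (p k) : ℝ)]
    rcases le_total 0 (inner ℝ (u (c k)) e : ℝ) with h1 | h1
    · exact far e i heS hi h1 hk1
    · refine far (-e) i' (fun s hs => ?_) hi' ?_ hk2
      · rw [inner_neg_right, heS s hs, neg_zero]
      · rw [inner_neg_right]; linarith
  · -- Case 2
    push Not at hsp
    have hspan : ∀ e : E 3, (∀ s ∈ S, inner ℝ (u s) e = 0) → e = 0 := by
      intro e he
      by_contra h0
      obtain ⟨s, hs, h1⟩ := hsp e h0
      exact h1 (he s hs)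
    set g : E 3 := -∑ s ∈ S, u s with hg
    obtain ⟨M, hM1, hM2⟩ : ∃ M : ℝ, (∀ k, inner ℝ g (p k) ≤ M) ∧ inner ℝ g x0 < M := by
      refine ⟨(∑ k, |(inner ℝ g (p k) : ℝ)|) + |(inner ℝ g x0 : ℝ)| + 1, fun k => ?_, ?_⟩
      · have h1 := Finset.single_le_sum (f := fun k => |(inner ℝ g (p k) : ℝ)|)
          (fun _ _ => abs_nonneg _) (Finset.mem_univ k)
        have h2 := le_abs_self (inner ℝ g (p k) : ℝ)
        have h3 := abs_nonneg (inner ℝ g x0 : ℝ)
        linarith
      · have h1 : 0 ≤ ∑ k, |(inner ℝ g (p k) : ℝ)| := Finset.sum_nonneg fun _ _ => abs_nonneg _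
        have h2 := le_abs_self (inner ℝ g x0 : ℝ)
        linarith
    let φ : Fin S.card ≃ S := S.equivFin.symm
    let a' : Fin (S.card + 1) → E 3 := Fin.cons g fun i => u (φ i)
    let b' : Fin (S.card + 1) → ℝ := Fin.cons M fun i => h (φ i)
    have hmem : ∀ x, x ∈ poly a' b' ↔ (∀ s ∈ S, inner ℝ (u s) x ≤ h s) ∧ inner ℝ g x ≤ M := by
      intro x
      constructor
      · intro hx
        refine ⟨fun s hs => ?_, hx 0⟩
        have := hx (S.equivFin ⟨s, hs⟩).succ
        simp only [a', b', Fin.cons_succ, φ, Equiv.symm_apply_apply] at this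
        exact this
      · rintro ⟨h1, h2⟩ i
        refine Fin.cases h2 (fun j => ?_) i
        simp only [a', b', Fin.cons_succ]
        exact h1 _ (φ j).2
    have hbdd : Bornology.IsBounded (poly a' b') := by
      refine (bdd_aux u h S hspan M).subset fun x hx => ?_
      exact (hmem x).1 hx
    have hVB' := hVB (S.card + 1) a' b' hbdd ⟨x0, fun i => by
      refine Fin.cases hM2 (fun j => ?_) i
      simp only [a', b', Fin.cons_succ]
      exact hx0 _⟩
    have hExf : ((poly a' b').extremePoints ℝ).Finite := (hE 3 _ a' b').2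
    have hcomp := isCompact_poly hbdd
    have hpP : ∀ k, p k ∈ poly a' b' := fun k => (hmem _).2 ⟨hpS k, hM1 k⟩
    have hv : ∀ k, ∃ v ∈ (poly a' b').extremePoints ℝ, h (c k) < inner ℝ (u (c k)) v := by
      intro k
      obtain ⟨v, hv1, hv2⟩ := exists_ext_max hcomp ⟨p k, hpP k⟩ (u (c k))
      exact ⟨v, hv1, lt_of_lt_of_le (hpc k) (hv2 _ (hpP k))⟩
    choose v hv1 hv2 using hv
    have hinj : Function.Injective v := by
      intro k l hkl
      by_contra hne
      have h1 : v k ∈ poly a' b' := extremePoints_subset (hv1 k)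
      refine hA (v k) ((hmem _).1 h1).1 k (c k) (hcC k) (c l) (fun hc => ?_) (hv2 k) ?_
      · exact (Set.disjoint_left.1 (hC3 k l hne)) hc (hcC l)
      · rw [hkl]; exact hv2 l
    have h1 : K ≤ ((poly a' b').extremePoints ℝ).ncard := by
      have h2 : (Set.range v).ncard = K := by
        rw [Set.ncard_range_of_injective hinj, Nat.card_eq_fintype_card, Fintype.card_fin]
      rw [← h2]
      refine Set.ncard_le_ncard ?_ hExf
      rintro _ ⟨k, rfl⟩
      exact hv1 k
    omega

end Pool.Agent.Q79.LD
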