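import Pool.Agent.Q79.LD_Bas

/-! # Project LD, job CON: the facet graph is connected -/

set_option autoImplicit false

namespace Pool.Agent.Q79.LD

open Set Q109.LD

theorem pair (hV : S_VIS) {d n : ℕ} {u : Fin n → E d} {h : Fin n → ℝ} (hI : Irr u h)
    {A : Set (Fin n)} {i j : Fin n} (hi : i ∈ A) (hj : j ∉ A) (hne : u j ≠ -u i) :
    ∃ a ∈ A, ∃ b ∈ Aᶜ, (fc u h a ∩ fc u h b).Nonempty := by
  have h1 : -1 < inner ℝ (u i) (u j) := by
    have h2 : |inner ℝ (u i) (u j)| ≤ 1 := by
      have := abs_real_inner_le_norm (u i) (u j)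
      rwa [hI.unit, hI.unit, mul_one] at this
    rcases lt_or_eq_of_le (neg_le_of_abs_le h2) with h3 | h3
    · exact h3
    · exfalso
      have h4 := (inner_eq_neg_one_iff_of_norm_eq_one (𝕜 := ℝ) (hI.unit i) (hI.unit j)).1 h3.symm
      apply hne
      rw [h4, neg_neg]
  set p := inner ℝ (u i) (u j) with hp
  have hi1 : inner ℝ (u i) (u i) = (1 : ℝ) := by
    rw [real_inner_self_eq_norm_sq, hI.unit]; norm_num
  have hj1 : inner ℝ (u j) (u j) = (1 : ℝ) := by
    rw [real_inner_self_eq_norm_sq, hI.unit]; norm_num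
  have hp1 : 0 < 1 + p := by linarith
  set t : ℝ := (|h i| + |h j| + 1) / (1 + p) with ht
  have e1 : inner ℝ (u i) (t • (u i + u j)) = |h i| + |h j| + 1 := by
    rw [inner_smul_right, inner_add_right, hi1, ← hp, ht, div_mul_cancel₀ _ hp1.ne']
  have e2 : inner ℝ (u j) (t • (u i + u j)) = |h i| + |h j| + 1 := by
    rw [inner_smul_right, inner_add_right, hj1, real_inner_comm (u i) (u j), ← hp, ht,
      add_comm p 1, div_mul_cancel₀ _ hp1.ne']
  obtain ⟨a, ha, b, hb, -, -, hab⟩ := hV d n u h (t • (u i + u j)) i j A (hI.nonempty i)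
    (hI.nonempty j) (by rw [e1]; linarith [le_abs_self (h i), abs_nonneg (h j)])
    (by rw [e2]; linarith [le_abs_self (h j), abs_nonneg (h i)]) hi hj
  exact ⟨a, ha, b, hb, hab⟩

theorem con : S_VIS → S_CON := by
  intro hV d n hd u h hI A hA hAc
  obtain ⟨i, hi⟩ := hA
  obtain ⟨j, hj⟩ := hAc
  by_cases hij : u j = -u i
  · obtain ⟨k, hk1, hk2⟩ : ∃ k, u k ≠ u i ∧ u k ≠ -u i := by
      by_contra hcon
      push_neg at hcon
      obtain ⟨w, hw0, hw⟩ := exists_orth (m := 1) (d := d) (by omega) fun _ => u i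
      obtain ⟨x, hx⟩ := hI.int
      apply hw0
      refine dir_zero hI.bdd (x := x) (fun k => (hx k).le) fun k => ?_
      by_cases hk : u k = u i
      · rw [hk]; exact (hw 0).le
      · rw [hcon k hk, inner_neg_left, hw 0, neg_zero]
    by_cases hk : k ∈ A
    · refine pair hV hI hk hj ?_
      rw [hij]
      intro h1
      exact hk1 (neg_injective h1).symm
    · exact pair hV hI hi hk hk2
  · exact pair hV hI hi hj hij

end Pool.Agent.Q79.LD
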