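import Pool.Agent.Q79.LD_Bas

/-! # Project LD, job UP3: the ratio is at most `2/3` in dimension three -/

set_option autoImplicit false

namespace Pool.Agent.Q79.LD

open Set Q109.LD

theorem fc_frontier {d n : ℕ} {u : Fin n → E d} {h : Fin n → ℝ} {i : Fin n} (hu : ‖u i‖ = 1)
    {x : E d} (hx : x ∈ fc u h i) : x ∈ frontier (poly u h) := by
  rw [(isClosed_poly u h).frontier_eq]
  refine ⟨hx.1, fun hint => ?_⟩
  rw [mem_interior_iff_mem_nhds, Metric.mem_nhds_iff] at hint
  obtain ⟨ε, hε, hb⟩ := hint
  have h1 : x + (ε / 2) • u i ∈ Metric.ball x ε := by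
    rw [Metric.mem_ball, dist_eq_norm, add_sub_cancel_left, norm_smul, hu, mul_one,
      Real.norm_eq_abs, abs_of_pos (by positivity)]
    linarith
  have h2 := hb h1 i
  rw [inner_add_right, inner_smul_right, real_inner_self_eq_norm_sq, hu, hx.2] at h2
  linarith

theorem up3 : S_HREP → S_CON → S_CMP → S_TB → S_UP3 := by
  intro hH hCo hCm hT P hPp hPi
  classical
  obtain ⟨n, u, h, hP, hI, hinj, hfac⟩ := hH 3 (by norm_num) P hPp hPi
  have hn3 : 3 ≤ n := by
    by_contra hcon
    obtain ⟨w, hw0, hw⟩ := exists_orth (d := 3) (m := n) (by omega) u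
    obtain ⟨x, hx⟩ := hI.int
    exact hw0 (dir_zero hI.bdd (x := x) (fun i => (hx i).le) fun i => (hw i).le)
  have hcard : {F : Set (E 3) | IsFacet P F}.ncard = n := by
    rw [hfac, Set.ncard_range_of_injective hinj, Nat.card_eq_fintype_card, Fintype.card_fin]
  obtain ⟨r, e, he1, he2, hr⟩ := hT n (ig u h) (n / 3) (by
    intro S K C hodd hCS hCC hadj
    have hCne : ∀ k, (C k).Nonempty := by
      intro k
      rw [← Finset.card_pos]
      exact (hodd k).pos
    rcases S.eq_empty_or_nonempty with hS | hS
    · have hK : K ≤ 1 := by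
        by_contra hcon
        have h0 : (0 : ℕ) < K := by omega
        have h1 : (1 : ℕ) < K := by omega
        obtain ⟨a, ha, b, hb, hab⟩ := hCo 3 n (by norm_num) u h hI (C ⟨0, h0⟩ : Set (Fin n))
          (hCne _) (by
            obtain ⟨b, hb⟩ := hCne ⟨1, h1⟩
            refine ⟨b, fun hb' => ?_⟩
            exact Finset.disjoint_left.1 (hCC ⟨0, h0⟩ ⟨1, h1⟩ (by simp)) hb' hb)
        refine hadj ⟨0, h0⟩ a ha b hb (by rw [hS]; simp) ⟨?_, hab⟩
        rintro rfl
        exact hb ha
      rw [hS, Finset.card_empty]
      omega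
    · have h1 : K ≤ 2 * S.card := by
        refine hCm n u h hI S hS K (fun k => (C k : Set (Fin n))) (fun k => hCne k)
          (fun k i hi => Finset.disjoint_left.1 (hCS k) hi)
          (fun k l hkl => by exact_mod_cast hCC k l hkl) fun k a ha b hb hbS hab => ?_
        refine hadj k a ha b hb hbS ⟨?_, hab⟩
        rintro rfl
        exact hb ha
      choose c hc using hCne
      have h2 : K + S.card ≤ n := by
        have h3 : (Finset.univ.image c).card = K := by
          rw [Finset.card_image_of_injective, Finset.card_univ, Fintype.card_fin]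
          intro k l hkl
          by_contra hne
          exact Finset.disjoint_left.1 (hCC k l hne) (hc k) (hkl ▸ hc l)
        have h4 : Disjoint (Finset.univ.image c) S := by
          rw [Finset.disjoint_left]
          intro x hx
          rw [Finset.mem_image] at hx
          obtain ⟨k, -, rfl⟩ := hx
          exact Finset.disjoint_left.1 (hCS k) (hc k)
        have h5 := Finset.card_le_univ ((Finset.univ.image c) ∪ S)
        rw [Finset.card_union_of_disjoint h4, h3, Fintype.card_fin] at h5
        exact h5
      omega)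
  -- the points
  have hq : ∀ k, ∃ q : E 3, q ∈ fc u h (e k).1 ∧ q ∈ fc u h (e k).2 := by
    intro k
    obtain ⟨q, hq1, hq2⟩ := (he1 k).2
    exact ⟨q, hq1, hq2⟩
  choose q hq1 hq2 using hq
  choose z hz using hI.nonempty
  set Cov : Finset (Fin n) := (Finset.univ : Finset (Fin r × Bool)).image
    (fun p => if p.2 then (e p.1).1 else (e p.1).2) with hCov
  have hCovcard : Cov.card = 2 * r := by
    rw [hCov, Finset.card_image_of_injective, Finset.card_univ, Fintype.card_prod,
      Fintype.card_fin, Fintype.card_bool, mul_comm]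
    rintro ⟨k, s⟩ ⟨l, t⟩ hkl
    simp only at hkl
    by_cases hkl' : k = l
    · subst hkl'
      have h3 := (he1 k).1
      cases s <;> cases t
      · rfl
      · simp at hkl; exact absurd hkl.symm h3
      · simp at hkl; exact absurd hkl h3
      · rfl
    · exfalso
      obtain ⟨h4, h5, h6⟩ := he2 k l hkl'
      obtain ⟨-, h5', -⟩ := he2 l k (Ne.symm hkl')
      cases s <;> cases t
      · simp at hkl; exact h6 hkl
      · simp at hkl; exact h5' hkl.symm
      · simp at hkl; exact h5 hkl
      · simp at hkl; exact h4 hkl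
  set Kf : Finset (E 3) := Finset.univ.image q ∪ Covᶜ.image z with hKf
  have hKcard : Kf.card + r ≤ n := by
    have h3 : Kf.card ≤ r + (n - 2 * r) := by
      refine (Finset.card_union_le _ _).trans (add_le_add ?_ ?_)
      · refine Finset.card_image_le.trans ?_
        rw [Finset.card_univ, Fintype.card_fin]
      · refine Finset.card_image_le.trans ?_
        rw [Finset.card_compl, hCovcard, Fintype.card_fin]
    have h4 : 2 * r ≤ n := by
      have := Finset.card_le_univ Cov
      rwa [hCovcard, Fintype.card_fin] at this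
    omega
  have hrep : Represents P (Kf : Set (E 3)) := by
    refine ⟨Kf.finite_toSet, fun x hx => ?_, fun F hF => ?_⟩
    · rw [hP]
      rw [hKf, Finset.mem_coe, Finset.mem_union, Finset.mem_image, Finset.mem_image] at hx
      rcases hx with ⟨k, -, rfl⟩ | ⟨i, -, rfl⟩
      · exact fc_frontier (hI.unit _) (hq1 k)
      · exact fc_frontier (hI.unit _) (hz i)
    · have h3 : F ∈ {F : Set (E 3) | IsFacet P F} := hF
      rw [hfac] at h3
      obtain ⟨i, rfl⟩ := h3
      by_cases hi : i ∈ Cov
      · rw [hCov, Finset.mem_image] at hi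
        obtain ⟨⟨k, s⟩, -, hks⟩ := hi
        refine ⟨q k, ?_, ?_⟩
        · rw [hKf, Finset.mem_coe, Finset.mem_union]
          exact Or.inl (Finset.mem_image_of_mem _ (Finset.mem_univ _))
        · rw [← hks]
          cases s
          · exact hq2 k
          · exact hq1 k
      · refine ⟨z i, ?_, hz i⟩
        rw [hKf, Finset.mem_coe, Finset.mem_union]
        exact Or.inr (Finset.mem_image_of_mem _ (Finset.mem_compl.2 hi))
  have hmin : minRep P ≤ Kf.card := by
    refine Nat.sInf_le ⟨(Kf : Set (E 3)), hrep, ?_⟩
    rw [Set.ncard_coe_finset]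
  unfold ratio
  rw [hcard, div_le_iff₀ (by exact_mod_cast (by omega : 0 < n))]
  have h5 : 3 * minRep P ≤ 2 * n := by omega
  have h6 : (3 : ℝ) * minRep P ≤ 2 * n := by exact_mod_cast h5
  linarith

end Pool.Agent.Q79.LD
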