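import Pool.Agent.Q79.LD_Bas

/-! # Project LD, job VB: a polytope with `m` inequalities in dimension three has at most `2 m - 4`
vertices -/

set_option autoImplicit false

namespace Pool.Agent.Q79.LD

open Set Q109.LD

/-- the vectors orthogonal to two linearly independent ones -/
theorem exists_perp (x y : E 3) (h : LinearIndependent ℝ ![x, y]) : ∃ w : E 3, w ≠ 0 ∧
    ∀ w' : E 3, inner ℝ x w' = 0 → inner ℝ y w' = 0 → ∃ c : ℝ, w' = c • w := by
  set S : Submodule ℝ (E 3) := Submodule.span ℝ (Set.range ![x, y]) with hS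
  have h1 : Module.finrank ℝ S = 2 := by
    rw [hS, finrank_span_eq_card h, Fintype.card_fin]
  have h2 : Module.finrank ℝ Sᗮ = 1 := by
    have := Submodule.finrank_add_finrank_orthogonal S
    rw [h1, finrank_euclideanSpace_fin] at this
    omega
  obtain ⟨w, hw0, hw⟩ := finrank_eq_one_iff'.1 h2
  refine ⟨w, fun h0 => hw0 (Subtype.ext h0), fun w' hx hy => ?_⟩
  have h3 : w' ∈ Sᗮ := by
    rw [Submodule.mem_orthogonal]
    intro z hz
    rw [hS, Submodule.mem_span_range_iff_exists_fun] at hz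
    obtain ⟨c, rfl⟩ := hz
    rw [Fin.sum_univ_two, inner_add_left, inner_smul_left, inner_smul_left]
    simp [hx, hy]
  obtain ⟨c, hc⟩ := hw ⟨w', h3⟩
  exact ⟨c, (congrArg Subtype.val hc).symm⟩

theorem vb : S_GEN → S_EXT → S_SLOT → S_VB := by
  intro hG hE hS m a b hbd hint
  classical
  obtain ⟨x0, hx0⟩ := hint
  set Ex := (poly a b).extremePoints ℝ with hEx
  have hExf : Ex.Finite := (hE 3 m a b).2
  have hspan := (hE 3 m a b).1
  have hcomp : IsCompact (poly a b) := isCompact_poly hbd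
  have hne : (poly a b).Nonempty := ⟨x0, fun i => (hx0 i).le⟩
  have hw : ∀ p : Fin m × Fin m, ∃ w : E 3, w ≠ 0 ∧ (LinearIndependent ℝ ![a p.1, a p.2] →
      ∀ w' : E 3, inner ℝ (a p.1) w' = 0 → inner ℝ (a p.2) w' = 0 → ∃ c : ℝ, w' = c • w) := by
    intro p
    by_cases h : LinearIndependent ℝ ![a p.1, a p.2]
    · obtain ⟨w, h1, h2⟩ := exists_perp _ _ h
      exact ⟨w, h1, fun _ => h2⟩
    · refine ⟨EuclideanSpace.single 0 1, ?_, fun h1 => absurd h1 h⟩
      intro h0
      have := congrArg norm h0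
      simp at this
  choose w hw0 hwc using hw
  set W : Set (E 3) := (fun p : E 3 × E 3 => p.1 - p.2) '' {p | p ∈ Ex ×ˢ Ex ∧ p.1 ≠ p.2} ∪
    (Set.range w ∪ {EuclideanSpace.single 0 1}) with hW
  have hWf : W.Finite := by
    refine Set.Finite.union ?_ ((Set.finite_range w).union (Set.finite_singleton _))
    exact ((hExf.prod hExf).subset fun p hp => hp.1).image _
  obtain ⟨g, hg⟩ := hG 3 W hWf (by
    rintro z (⟨p, ⟨-, hp⟩, rfl⟩ | (⟨p, rfl⟩ | rfl))
    · exact sub_ne_zero.2 hp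
    · exact hw0 p
    · intro h0
      have := congrArg norm h0
      simp at this)
  have hg0 : g ≠ 0 := by
    rintro rfl
    exact hg _ (Or.inr (Or.inr rfl)) (inner_zero_left _)
  have hinj : ∀ v ∈ Ex, ∀ v' ∈ Ex, inner ℝ g v = inner ℝ g v' → v = v' := by
    intro v hv v' hv' h1
    by_contra h2
    refine hg (v - v') (Or.inl ⟨(v, v'), ⟨⟨hv, hv'⟩, h2⟩, rfl⟩) ?_
    rw [inner_sub_right, h1, sub_self]
  have hslot := hS m a b g (by
    intro i j hij w' hw'0 h1 h2
    obtain ⟨c, hc⟩ := hwc (i, j) hij w' h1 h2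
    rw [hc, inner_smul_right]
    have hc0 : c ≠ 0 := by
      rintro rfl
      rw [zero_smul] at hc
      exact hw'0 hc
    exact mul_ne_zero hc0 (hg _ (Or.inr (Or.inl ⟨(i, j), rfl⟩))))
  -- the slots
  let Good : E 3 → Fin m × Bool → Prop := fun v p => inner ℝ (a p.1) v = b p.1 ∧
    ((p.2 = true ∧ ∀ y ∈ fc a b p.1, inner ℝ g y ≤ inner ℝ g v) ∨
      (p.2 = false ∧ ∀ y ∈ fc a b p.1, inner ℝ g v ≤ inner ℝ g y))
  let Slot : E 3 → Finset (Fin m × Bool) := fun v => Finset.univ.filter fun p => Good v p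
  have hmem : ∀ v p, p ∈ Slot v ↔ Good v p := fun v p => by
    simp only [Slot, Finset.mem_filter, Finset.mem_univ, true_and]
  have hsub : ∀ v ∈ Ex, v ∈ poly a b := fun v hv => extremePoints_subset hv
  have hdisj : ∀ v ∈ Ex, ∀ v' ∈ Ex, v ≠ v' → Disjoint (Slot v) (Slot v') := by
    intro v hv v' hv' hvv
    rw [Finset.disjoint_left]
    intro p hp hp'
    rw [hmem] at hp hp'
    obtain ⟨h1, h2⟩ := hp
    obtain ⟨h1', h2'⟩ := hp'
    have hv1 : v ∈ fc a b p.1 := ⟨hsub v hv, h1⟩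
    have hv1' : v' ∈ fc a b p.1 := ⟨hsub v' hv', h1'⟩
    apply hvv
    apply hinj v hv v' hv'
    rcases h2 with ⟨h3, h4⟩ | ⟨h3, h4⟩ <;> rcases h2' with ⟨h3', h4'⟩ | ⟨h3', h4'⟩
    · exact le_antisymm (h4' v hv1) (h4 v' hv1')
    · rw [h3] at h3'; exact absurd h3' (by simp)
    · rw [h3] at h3'; exact absurd h3' (by simp)
    · exact le_antisymm (h4 v' hv1') (h4' v hv1)
  have hone : ∀ v ∈ Ex, 1 ≤ (Slot v).card := by
    intro v hv
    obtain ⟨i, hi, h1⟩ := hslot v hv
    rw [Nat.succ_le_iff, Finset.card_pos]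
    rcases h1 with h1 | h1
    · exact ⟨(i, true), (hmem _ _).2 ⟨hi, Or.inl ⟨rfl, h1⟩⟩⟩
    · exact ⟨(i, false), (hmem _ _).2 ⟨hi, Or.inr ⟨rfl, h1⟩⟩⟩
  -- at least three tight inequalities
  have hthree : ∀ v ∈ Ex, 3 ≤ (Finset.univ.filter fun i => inner ℝ (a i) v = b i).card := by
    intro v hv
    have h1 := hspan v hv
    have h2 : a '' {i | inner ℝ (a i) v = b i} =
        (((Finset.univ.filter fun i => inner ℝ (a i) v = b i).image a : Finset (E 3)) :
          Set (E 3)) := by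
      ext z
      simp
    rw [h2] at h1
    have h3 := finrank_span_finset_le_card (R := ℝ)
      ((Finset.univ.filter fun i => inner ℝ (a i) v = b i).image a)
    rw [Set.finrank, h1, finrank_top, finrank_euclideanSpace_fin] at h3
    exact h3.trans Finset.card_image_le
  obtain ⟨T, hT, hTmax⟩ := exists_ext_max hcomp hne g
  obtain ⟨B, hB, hBmax⟩ := exists_ext_max hcomp hne (-g)
  have hT3 : 3 ≤ (Slot T).card := by
    refine (hthree T hT).trans ?_
    refine Finset.card_le_card_of_injOn (fun i => (i, true)) ?_ ?_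
    · intro i hi
      rw [Finset.mem_coe, Finset.mem_filter] at hi
      rw [Finset.mem_coe, hmem]
      exact ⟨hi.2, Or.inl ⟨rfl, fun y hy => hTmax y hy.1⟩⟩
    · intro i _ j _ hij
      exact congrArg Prod.fst hij
  have hB3 : 3 ≤ (Slot B).card := by
    refine (hthree B hB).trans ?_
    refine Finset.card_le_card_of_injOn (fun i => (i, false)) ?_ ?_
    · intro i hi
      rw [Finset.mem_coe, Finset.mem_filter] at hi
      rw [Finset.mem_coe, hmem]
      refine ⟨hi.2, Or.inr ⟨rfl, fun y hy => ?_⟩⟩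
      have := hBmax y hy.1
      rw [inner_neg_left, inner_neg_left] at this
      linarith
    · intro i _ j _ hij
      exact congrArg Prod.fst hij
  have hTB : T ≠ B := by
    rintro rfl
    obtain ⟨ε, hε, h1⟩ := exists_eps hx0 g
    have h2 := hTmax _ (fun i => (h1 i).le : x0 + ε • g ∈ poly a b)
    have h3 := hBmax x0 fun i => (hx0 i).le
    rw [inner_neg_left, inner_neg_left] at h3
    rw [inner_add_right, inner_smul_right, real_inner_self_eq_norm_sq] at h2
    have h4 : 0 < ‖g‖ := norm_pos_iff.2 hg0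
    have h5 : 0 < ε * ‖g‖ ^ 2 := by positivity
    linarith
  -- the count
  set X := hExf.toFinset with hX
  have hXm : ∀ v, v ∈ X ↔ v ∈ Ex := fun v => by rw [hX, Set.Finite.mem_toFinset]
  have hcount : ∑ v ∈ X, (Slot v).card ≤ 2 * m := by
    rw [← Finset.card_biUnion (fun v hv v' hv' hvv =>
      hdisj v ((hXm v).1 hv) v' ((hXm v').1 hv') hvv)]
    refine (Finset.card_le_univ _).trans ?_
    rw [Fintype.card_prod, Fintype.card_fin, Fintype.card_bool, mul_comm]
  have hTX : T ∈ X := (hXm T).2 hT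
  have hBX : B ∈ X.erase T := Finset.mem_erase.2 ⟨hTB.symm, (hXm B).2 hB⟩
  rw [← Finset.add_sum_erase X _ hTX, ← Finset.add_sum_erase (X.erase T) _ hBX] at hcount
  have hrest : ((X.erase T).erase B).card ≤ ∑ v ∈ (X.erase T).erase B, (Slot v).card := by
    rw [Finset.card_eq_sum_ones]
    refine Finset.sum_le_sum fun v hv => hone v ?_
    exact (hXm v).1 (Finset.mem_of_mem_erase (Finset.mem_of_mem_erase hv))
  have hc1 := Finset.card_erase_of_mem hTX
  have hc2 := Finset.card_erase_of_mem hBX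
  have hc3 : 0 < X.card := Finset.card_pos.2 ⟨T, hTX⟩
  have hc4 : 0 < (X.erase T).card := Finset.card_pos.2 ⟨B, hBX⟩
  have hnc : Ex.ncard = X.card := Set.ncard_eq_toFinset_card Ex hExf
  omega

end Pool.Agent.Q79.LD
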