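import Pool.Agent.Q127.SM.Stm

set_option autoImplicit false

/-! JOB HKf of the project SM: the Hecke relation for the form. -/

open Complex Finset

namespace Pool.Agent.Q79.SM_HKf

open Pool.Agent.TH133.SH Pool.Agent.Q127.SM

/-- `e(kτ)` -/
noncomputable def ek (τ : ℂ) (k : ℕ) : ℂ :=
  Complex.exp (2 * (Real.pi : ℂ) * Complex.I * (k : ℂ) * τ)

lemma sum_ek (q : ℕ) (hq : q.Prime) (τ : ℂ) (k : ℕ) :
    ∑ u ∈ Finset.range q, ek ((τ + (u : ℂ)) / (q : ℂ)) k =
      ek (τ / q) k * (if q ∣ k then (q : ℂ) else 0) := by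
  have hq0 : (q : ℂ) ≠ 0 := by exact_mod_cast hq.ne_zero
  set ζ : ℂ := Complex.exp (2 * Real.pi * Complex.I / q) with hζ
  have hprim : IsPrimitiveRoot ζ q := Complex.isPrimitiveRoot_exp q hq.ne_zero
  have h1 : ∀ u : ℕ, ek ((τ + (u : ℂ)) / (q : ℂ)) k = ek (τ / q) k * (ζ ^ k) ^ u := by
    intro u
    rw [← pow_mul, hζ, ← Complex.exp_nat_mul]
    unfold ek
    rw [← Complex.exp_add]
    congr 1
    push_cast
    field_simp
  rw [Finset.sum_congr rfl (fun u _ => h1 u), ← Finset.mul_sum]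
  congr 1
  split_ifs with h
  · obtain ⟨c, rfl⟩ := h
    have h2 : ζ ^ (q * c) = 1 := by rw [pow_mul, hprim.pow_eq_one, one_pow]
    rw [h2]
    simp
  · have hco : Nat.Coprime k q := ((Nat.Prime.coprime_iff_not_dvd hq).2 h).symm
    exact (hprim.pow_of_coprime k hco).geom_sum_eq_zero hq.one_lt

lemma fser_eq (a : ℕ → ℤ) (τ : ℂ) : fser a τ = ∑' k : ℕ, (a k : ℂ) * ek τ k := rfl

theorem hkf : S_hkf := by
  intro a q hq ha0 hs hH τ hτ
  have hq0 : (q : ℂ) ≠ 0 := by exact_mod_cast hq.ne_zero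
  have hqr : (0 : ℝ) < q := by exact_mod_cast hq.pos
  have him : ∀ u : ℕ, 0 < ((τ + (u : ℂ)) / (q : ℂ)).im := by
    intro u
    rw [Complex.div_natCast_im, Complex.add_im, Complex.natCast_im, add_zero]
    exact div_pos hτ hqr
  have himq : 0 < (τ / (q : ℂ)).im := by
    rw [Complex.div_natCast_im]
    exact div_pos hτ hqr
  have himm : 0 < ((q : ℂ) * τ).im := by
    have : ((q : ℂ) * τ).im = q * τ.im := by simp
    rw [this]
    exact mul_pos hqr hτ
  have hinj : Function.Injective (fun m : ℕ => q * m) := fun m n h =>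
    Nat.eq_of_mul_eq_mul_left hq.pos h
  -- the first sum
  have hA : (1 / (q : ℂ)) * ∑ u ∈ Finset.range q, fser a ((τ + (u : ℂ)) / (q : ℂ)) =
      ∑' m : ℕ, (a (q * m) : ℂ) * ek τ m := by
    have h1 : ∑ u ∈ Finset.range q, fser a ((τ + (u : ℂ)) / (q : ℂ)) =
        ∑' k : ℕ, (a k : ℂ) * (ek (τ / q) k * (if q ∣ k then (q : ℂ) else 0)) := by
      calc ∑ u ∈ Finset.range q, fser a ((τ + (u : ℂ)) / (q : ℂ))
          = ∑ u ∈ Finset.range q, ∑' k : ℕ, (a k : ℂ) * ek ((τ + (u : ℂ)) / (q : ℂ)) k := rfl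
        _ = ∑' k : ℕ, ∑ u ∈ Finset.range q, (a k : ℂ) * ek ((τ + (u : ℂ)) / (q : ℂ)) k :=
            (Summable.tsum_finsetSum (fun u _ => hs _ (him u))).symm
        _ = _ := by
            congr 1
            ext k
            rw [← Finset.mul_sum, sum_ek q hq τ k]
    have h2 : ∑' k : ℕ, (a k : ℂ) * (ek (τ / q) k * (if q ∣ k then (q : ℂ) else 0)) =
        ∑' m : ℕ, (q : ℂ) * ((a (q * m) : ℂ) * ek τ m) := by
      rw [← Function.Injective.tsum_eq hinj]
      · congr 1
        ext m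
        rw [if_pos (Dvd.intro m rfl)]
        have h3 : ek (τ / q) (q * m) = ek τ m := by
          unfold ek
          congr 1
          push_cast
          field_simp
        rw [h3]
        ring
      · intro k hk
        by_contra hk2
        apply hk
        have : ¬ q ∣ k := fun ⟨m, hm⟩ => hk2 ⟨m, hm.symm⟩
        simp [this]
    rw [h1, h2, tsum_mul_left, ← mul_assoc, one_div, inv_mul_cancel₀ hq0, one_mul]
  -- the second sum
  have hterm : ∀ n : ℕ, (if q ∣ q * n then (q : ℂ) * (a (q * n / q) : ℂ) else 0) * ek τ (q * n) =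
      (q : ℂ) * ((a n : ℂ) * ek ((q : ℂ) * τ) n) := by
    intro n
    rw [if_pos (Dvd.intro n rfl), Nat.mul_div_cancel_left n hq.pos]
    have h3 : ek τ (q * n) = ek ((q : ℂ) * τ) n := by
      unfold ek
      congr 1
      push_cast
      ring
    rw [h3]
    ring
  have hzero : ∀ m ∉ Set.range (fun m : ℕ => q * m),
      (if q ∣ m then (q : ℂ) * (a (m / q) : ℂ) else 0) * ek τ m = 0 := by
    intro m hm
    have : ¬ q ∣ m := fun ⟨n, hn⟩ => hm ⟨n, hn.symm⟩
    rw [if_neg this, zero_mul]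
  have hB : (q : ℂ) * fser a ((q : ℂ) * τ) =
      ∑' m : ℕ, (if q ∣ m then (q : ℂ) * (a (m / q) : ℂ) else 0) * ek τ m := by
    have h5 := Function.Injective.tsum_eq (f := fun m : ℕ =>
      (if q ∣ m then (q : ℂ) * (a (m / q) : ℂ) else 0) * ek τ m) hinj (by
        intro m hm
        by_contra h
        exact hm (hzero m h))
    rw [fser_eq, ← tsum_mul_left, ← h5]
    congr 1
    ext n
    exact (hterm n).symm
  have hsA : Summable (fun m : ℕ => (a (q * m) : ℂ) * ek τ m) := by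
    have h1 := (hs (τ / q) himq).comp_injective hinj
    refine h1.congr fun m => ?_
    show (a (q * m) : ℂ) * ek (τ / q) (q * m) = _
    congr 1
    unfold ek
    congr 1
    push_cast
    field_simp
  have hsB : Summable (fun m : ℕ =>
      (if q ∣ m then (q : ℂ) * (a (m / q) : ℂ) else 0) * ek τ m) := by
    rw [← hinj.summable_iff hzero]
    refine ((hs _ himm).mul_left (q : ℂ)).congr fun n => ?_
    exact (hterm n).symm
  rw [hA, hB, ← hsA.tsum_add hsB, fser_eq, ← tsum_mul_left]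
  congr 1
  ext m
  have h1 : ((a (q * m) : ℂ)) + (if q ∣ m then (q : ℂ) * (a (m / q) : ℂ) else 0) =
      (a q : ℂ) * (a m : ℂ) := by
    have h2 := hH m
    have h3 : (((a (q * m) + (if q ∣ m then (q : ℤ) * a (m / q) else 0) : ℤ)) : ℂ) =
        ((a q * a m : ℤ) : ℂ) := by rw [h2]
    split_ifs at h3 ⊢ <;> push_cast at h3 <;> exact h3
  rw [← add_mul, h1]
  ring

end Pool.Agent.Q79.SM_HKf
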