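import Mathlib

set_option autoImplicit false

open Finset

namespace Pool.Agent.Q79.KV

/-! ### The state sum over a commutative ring -/

section ring

variable {R S : Type} [CommRing R] [CommRing S]

/-- `{k} = u^k - u^(-k)` -/
def brR (u : Rˣ) (k : ℤ) : R := ((u ^ k : Rˣ) : R) - ((u ^ (-k) : Rˣ) : R)

/-- symmetric Gaussian binomial coefficients -/
def gb (u : Rˣ) : ℕ → ℕ → R
  | _, 0 => 1
  | 0, _ + 1 => 0
  | n + 1, k + 1 => ((u ^ ((k : ℤ) + 1) : Rˣ) : R) * gb u n (k + 1) +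
      ((u ^ ((k : ℤ) - n) : Rˣ) : R) * gb u n k

/-- the positive crossing -/
def cP (N : ℕ) (u : Rˣ) : Matrix (Fin N × Fin N) (Fin N × Fin N) R :=
  fun p q => if (p.1 : ℕ) + p.2 = q.1 + q.2 ∧ (q.2 : ℕ) ≤ p.1 then
    ((u ^ (-((N : ℤ) - 1) * (1 + (q.1 : ℕ) + (q.2 : ℕ)) + 2 * (p.1 : ℕ) * (p.2 : ℕ)) : Rˣ) : R) *
      ((u ^ (((p.1 : ℕ) - q.2) * ((p.1 : ℕ) - q.2 - 1) / 2) : Rˣ) : R) *
      gb u p.1 q.2 *
      ∏ t ∈ range ((p.1 : ℕ) - q.2), brR u ((N : ℤ) - (q.1 : ℕ) + t)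
    else 0

/-- the negative crossing -/
def cN (N : ℕ) (u : Rˣ) : Matrix (Fin N × Fin N) (Fin N × Fin N) R :=
  fun p q => if (p.1 : ℕ) + p.2 = q.1 + q.2 ∧ (q.1 : ℕ) ≤ p.2 then
    (-1) ^ ((p.2 : ℕ) - q.1) *
      ((u ^ (((N : ℤ) - 1) * (1 + (q.1 : ℕ) + (q.2 : ℕ)) - 2 * (q.1 : ℕ) * (q.2 : ℕ)) : Rˣ) : R) *
      (((u ^ (((p.2 : ℕ) - q.1) * ((p.2 : ℕ) - q.1 - 1) / 2))⁻¹ : Rˣ) : R) *
      gb u p.2 q.1 *
      ∏ t ∈ range ((p.2 : ℕ) - q.1), brR u ((N : ℤ) - (q.2 : ℕ) + t)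
    else 0

/-- a generator of the braid group -/
def gn {ι : Type} [DecidableEq ι] (A : Matrix (ι × ι) (ι × ι) R) (n k : ℕ) :
    Matrix (Fin n → ι) (Fin n → ι) R :=
  fun s t => if h : k + 1 < n then
    (if ∀ j : Fin n, (j : ℕ) ≠ k → (j : ℕ) ≠ k + 1 → s j = t j then
      A (s ⟨k, by omega⟩, s ⟨k + 1, h⟩) (t ⟨k, by omega⟩, t ⟨k + 1, h⟩) else 0)
    else (if s = t then 1 else 0)

/-- the operator of a braid word -/
def rp {ι : Type} [Fintype ι] [DecidableEq ι] (P Q : Matrix (ι × ι) (ι × ι) R) (n : ℕ)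
    (w : List (ℕ × Bool)) : Matrix (Fin n → ι) (Fin n → ι) R :=
  (w.map fun g => gn (if g.2 then P else Q) n g.1).prod

/-- the coloured Jones polynomial over a ring -/
def cj (N n : ℕ) (w : List (ℕ × Bool)) (u : Rˣ) : R :=
  if h : 0 < N then
    ∑ s : Fin n → Fin N, (∏ x, ((u ^ ((N : ℤ) - 1 - 2 * (s x : ℕ)) : Rˣ) : R)) *
      rp (cP N u) (cN N u) (n + 1) w (Fin.cons ⟨0, h⟩ s) (Fin.cons ⟨0, h⟩ s)
  else 0

theorem map_zpow_unit (f : R →+* S) (u : Rˣ) (k : ℤ) :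
    f ((u ^ k : Rˣ) : R) = ((Units.map (f : R →* S) u ^ k : Sˣ) : S) := by
  rw [← map_zpow]; rfl

theorem map_pow_unit (f : R →+* S) (u : Rˣ) (k : ℕ) :
    f ((u ^ k : Rˣ) : R) = ((Units.map (f : R →* S) u ^ k : Sˣ) : S) := by
  rw [← map_pow]; rfl

theorem map_pow_inv_unit (f : R →+* S) (u : Rˣ) (k : ℕ) :
    f (((u ^ k)⁻¹ : Rˣ) : R) = (((Units.map (f : R →* S) u ^ k)⁻¹ : Sˣ) : S) := by
  rw [← map_pow, ← map_inv]; rfl

theorem map_brR (f : R →+* S) (u : Rˣ) (k : ℤ) :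
    f (brR u k) = brR (Units.map (f : R →* S) u) k := by
  unfold brR
  rw [map_sub, map_zpow_unit, map_zpow_unit]

theorem map_gb (f : R →+* S) (u : Rˣ) (n k : ℕ) :
    f (gb u n k) = gb (Units.map (f : R →* S) u) n k := by
  induction n generalizing k with
  | zero => cases k <;> simp [gb]
  | succ n ih =>
    cases k with
    | zero => simp [gb]
    | succ k => simp only [gb, map_add, map_mul, map_zpow_unit, ih]

theorem map_cP (f : R →+* S) (u : Rˣ) (N : ℕ) :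
    f.mapMatrix (cP N u) = cP N (Units.map (f : R →* S) u) := by
  ext p q
  rw [RingHom.mapMatrix_apply, Matrix.map_apply]
  unfold cP
  split_ifs
  · rw [map_mul, map_mul, map_mul, map_zpow_unit, map_pow_unit, map_gb, map_prod]
    simp only [map_brR]
  · exact map_zero f

theorem map_cN (f : R →+* S) (u : Rˣ) (N : ℕ) :
    f.mapMatrix (cN N u) = cN N (Units.map (f : R →* S) u) := by
  ext p q
  rw [RingHom.mapMatrix_apply, Matrix.map_apply]
  unfold cN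
  split_ifs
  · rw [map_mul, map_mul, map_mul, map_mul, map_zpow_unit, map_pow_inv_unit, map_gb, map_prod,
      map_pow, map_neg, map_one]
    simp only [map_brR]
  · exact map_zero f

theorem map_gn {ι : Type} [Fintype ι] [DecidableEq ι] (f : R →+* S)
    (A : Matrix (ι × ι) (ι × ι) R) (n k : ℕ) :
    f.mapMatrix (gn A n k) = gn (f.mapMatrix A) n k := by
  ext s t
  rw [RingHom.mapMatrix_apply, Matrix.map_apply]
  unfold gn
  split_ifs <;> simp

theorem map_rp {ι : Type} [Fintype ι] [DecidableEq ι] (f : R →+* S)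
    (P Q : Matrix (ι × ι) (ι × ι) R) (n : ℕ) (w : List (ℕ × Bool)) :
    f.mapMatrix (rp P Q n w) = rp (f.mapMatrix P) (f.mapMatrix Q) n w := by
  unfold rp
  rw [map_list_prod, List.map_map]
  congr 1
  apply List.map_congr_left
  intro g _
  simp only [Function.comp_apply]
  rw [map_gn]
  split_ifs <;> rfl

theorem map_cj (f : R →+* S) (u : Rˣ) (N n : ℕ) (w : List (ℕ × Bool)) :
    f (cj N n w u) = cj N n w (Units.map (f : R →* S) u) := by
  unfold cj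
  split_ifs with h
  · rw [map_sum]
    apply Finset.sum_congr rfl
    intro s _
    rw [map_mul, map_prod]
    have h1 := congrFun (congrFun (map_rp f (cP N u) (cN N u) (n + 1) w)
      (Fin.cons ⟨0, h⟩ s)) (Fin.cons ⟨0, h⟩ s)
    rw [RingHom.mapMatrix_apply, Matrix.map_apply, map_cP, map_cN] at h1
    rw [h1]
    simp only [map_zpow_unit]
  · exact map_zero f

end ring

end Pool.Agent.Q79.KV
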