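import Mathlib
import Pool.Agent.Q79.KvA

set_option autoImplicit false

open Finset

namespace Pool.Agent.Q79.KV

/-! ### The state sum over the complex numbers -/

/-- `{n} = v^n - v^{-n}` -/
noncomputable def br (v : ℂ) (n : ℤ) : ℂ := v ^ n - v ^ (-n)

/-- `{n}! = {1} {2} ⋯ {n}` -/
noncomputable def brf (v : ℂ) (n : ℕ) : ℂ := ∏ j ∈ range n, br v ((j : ℤ) + 1)

noncomputable def crossP (N : ℕ) (v : ℂ) : Matrix (Fin N × Fin N) (Fin N × Fin N) ℂ :=
  fun p q => if (p.1 : ℕ) + p.2 = q.1 + q.2 ∧ (q.2 : ℕ) ≤ p.1 then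
    v ^ (-((N : ℤ) - 1) * (1 + (q.1 : ℕ) + (q.2 : ℕ)) + 2 * (p.1 : ℕ) * (p.2 : ℕ)) *
      v ^ (((p.1 : ℕ) - q.2) * ((p.1 : ℕ) - q.2 - 1) / 2) *
      (brf v p.1 / (brf v q.2 * brf v ((p.1 : ℕ) - q.2))) *
      ∏ t ∈ range ((p.1 : ℕ) - q.2), br v ((N : ℤ) - (q.1 : ℕ) + t)
    else 0

noncomputable def crossN (N : ℕ) (v : ℂ) : Matrix (Fin N × Fin N) (Fin N × Fin N) ℂ :=
  fun p q => if (p.1 : ℕ) + p.2 = q.1 + q.2 ∧ (q.1 : ℕ) ≤ p.2 then
    (-1) ^ ((p.2 : ℕ) - q.1) *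
      v ^ (((N : ℤ) - 1) * (1 + (q.1 : ℕ) + (q.2 : ℕ)) - 2 * (q.1 : ℕ) * (q.2 : ℕ)) /
      v ^ (((p.2 : ℕ) - q.1) * ((p.2 : ℕ) - q.1 - 1) / 2) *
      (brf v p.2 / (brf v q.1 * brf v ((p.2 : ℕ) - q.1))) *
      ∏ t ∈ range ((p.2 : ℕ) - q.1), br v ((N : ℤ) - (q.2 : ℕ) + t)
    else 0

def gen {ι : Type} [DecidableEq ι] (A : Matrix (ι × ι) (ι × ι) ℂ) (n k : ℕ) :
    Matrix (Fin n → ι) (Fin n → ι) ℂ :=
  fun s t => if h : k + 1 < n then
    (if ∀ j : Fin n, (j : ℕ) ≠ k → (j : ℕ) ≠ k + 1 → s j = t j then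
      A (s ⟨k, by omega⟩, s ⟨k + 1, h⟩) (t ⟨k, by omega⟩, t ⟨k + 1, h⟩) else 0)
    else (if s = t then 1 else 0)

def rep {ι : Type} [Fintype ι] [DecidableEq ι] (P Q : Matrix (ι × ι) (ι × ι) ℂ) (n : ℕ)
    (w : List (ℕ × Bool)) : Matrix (Fin n → ι) (Fin n → ι) ℂ :=
  (w.map fun g => gen (if g.2 then P else Q) n g.1).prod

def tail {ι : Type} [Fintype ι] (k : ι → ℂ) (n : ℕ)
    (A : Matrix (Fin (n + 1) → ι) (Fin (n + 1) → ι) ℂ) : Matrix ι ι ℂ :=
  fun i j => ∑ s : Fin n → ι, (∏ x, k (s x)) * A (Fin.cons i s) (Fin.cons j s)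

noncomputable def cjones (N n : ℕ) (w : List (ℕ × Bool)) (v : ℂ) : ℂ :=
  if h : 0 < N then
    tail (fun x : Fin N => v ^ ((N : ℤ) - 1 - 2 * (x : ℕ))) n
      (rep (crossP N v) (crossN N v) (n + 1) w) ⟨0, h⟩ ⟨0, h⟩ else 0

theorem brf_succ (v : ℂ) (n : ℕ) : brf v (n + 1) = brf v n * br v ((n : ℤ) + 1) := by
  unfold brf
  rw [Finset.prod_range_succ]

theorem brR_eq {v : ℂ} (hv : v ≠ 0) (k : ℤ) : brR (Units.mk0 v hv) k = br v k := by
  unfold brR br
  rw [Units.val_zpow_eq_zpow_val, Units.val_zpow_eq_zpow_val, Units.val_mk0]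

theorem gb_of_lt {R : Type} [CommRing R] (u : Rˣ) : ∀ a b : ℕ, a < b → gb u a b = 0 := by
  intro a
  induction a with
  | zero =>
    intro b hb
    obtain ⟨c, rfl⟩ : ∃ c, b = c + 1 := ⟨b - 1, by omega⟩
    simp [gb]
  | succ a ih =>
    intro b hb
    obtain ⟨c, rfl⟩ : ∃ c, b = c + 1 := ⟨b - 1, by omega⟩
    rw [gb, ih c (by omega), ih (c + 1) (by omega)]
    ring

theorem gb_zero {R : Type} [CommRing R] (u : Rˣ) (a : ℕ) : gb u a 0 = 1 := by
  cases a <;> simp [gb]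

theorem gb_self {R : Type} [CommRing R] (u : Rˣ) (a : ℕ) : gb u a a = 1 := by
  induction a with
  | zero => simp [gb]
  | succ a ih =>
    rw [gb, gb_of_lt u a (a + 1) (by omega), ih]
    simp

theorem gb_mul {v : ℂ} (hv : v ≠ 0) : ∀ a b : ℕ, b ≤ a →
    gb (Units.mk0 v hv) a b * (brf v b * brf v (a - b)) = brf v a := by
  intro a
  induction a with
  | zero =>
    intro b hb
    have : b = 0 := by omega
    subst this
    simp [gb, brf]
  | succ a ih =>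
    intro b hb
    rcases Nat.eq_zero_or_pos b with h0 | h0
    · subst h0
      rw [gb_zero]
      simp [brf]
    · obtain ⟨c, rfl⟩ : ∃ c, b = c + 1 := ⟨b - 1, by omega⟩
      have h1 : a + 1 - (c + 1) = a - c := by omega
      have ih1 := ih c (by omega)
      rw [gb, h1, brf_succ v c, brf_succ v a, Units.val_zpow_eq_zpow_val,
        Units.val_zpow_eq_zpow_val, Units.val_mk0]
      have hid : v ^ ((c : ℤ) - a) * br v ((c : ℤ) + 1) + v ^ ((c : ℤ) + 1) * br v ((a : ℤ) - c)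
          = br v ((a : ℤ) + 1) := by
        unfold br
        rw [mul_sub, mul_sub, ← zpow_add₀ hv, ← zpow_add₀ hv, ← zpow_add₀ hv, ← zpow_add₀ hv]
        have e1 : (c : ℤ) - a + ((c : ℤ) + 1) = (c : ℤ) + 1 + -((a : ℤ) - c) := by ring
        have e2 : (c : ℤ) - a + -((c : ℤ) + 1) = -((a : ℤ) + 1) := by ring
        have e3 : (c : ℤ) + 1 + ((a : ℤ) - c) = (a : ℤ) + 1 := by ring
        rw [e1, e2, e3]
        ring
      by_cases hca : c < a
      · have ih2 := ih (c + 1) (by omega)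
        have h2 : a - c = (a - (c + 1)) + 1 := by omega
        have h3 : brf v (a - c) = brf v (a - (c + 1)) * br v ((a : ℤ) - c) := by
          rw [h2, brf_succ]
          congr 2
          push_cast [Nat.cast_sub (show c + 1 ≤ a by omega)]
          ring
        rw [brf_succ v c] at ih2
        rw [← hid]
        linear_combination (v ^ ((c : ℤ) - a) * br v ((c : ℤ) + 1)) * ih1 +
          (v ^ ((c : ℤ) + 1) * br v ((a : ℤ) - c)) * ih2 +
          (v ^ ((c : ℤ) + 1) * gb (Units.mk0 v hv) a (c + 1) *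
            (brf v c * br v ((c : ℤ) + 1))) * h3
      · have hca' : c = a := by omega
        subst hca'
        rw [gb_of_lt _ c (c + 1) (by omega)]
        have h4 : c - c = 0 := by omega
        rw [h4] at ih1 ⊢
        have h5 : (c : ℤ) - c = 0 := by ring
        rw [h5, zpow_zero]
        linear_combination (br v ((c : ℤ) + 1)) * ih1

theorem brf_ne {N : ℕ} {v : ℂ} (hN : ∀ k : ℕ, 0 < k → k < N → br v k ≠ 0) {m : ℕ} (hm : m < N) :
    brf v m ≠ 0 := by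
  unfold brf
  rw [Finset.prod_ne_zero_iff]
  intro j hj
  rw [Finset.mem_range] at hj
  have := hN (j + 1) (by omega) (by omega)
  push_cast at this
  exact this

theorem cP_eq {N : ℕ} {v : ℂ} (hv : v ≠ 0) (hN : ∀ k : ℕ, 0 < k → k < N → br v k ≠ 0) :
    cP N (Units.mk0 v hv) = crossP N v := by
  ext p q
  unfold cP crossP
  by_cases h : (p.1 : ℕ) + p.2 = q.1 + q.2 ∧ (q.2 : ℕ) ≤ p.1
  · rw [if_pos h, if_pos h]
    have h1 := gb_mul hv p.1 q.2 h.2
    have h2 := brf_ne hN q.2.2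
    have h3 := brf_ne hN (show (p.1 : ℕ) - q.2 < N by have := p.1.2; omega)
    have h4 : gb (Units.mk0 v hv) p.1 q.2 = brf v p.1 / (brf v q.2 * brf v ((p.1 : ℕ) - q.2)) := by
      rw [eq_div_iff (mul_ne_zero h2 h3)]
      exact h1
    rw [h4, Units.val_zpow_eq_zpow_val, Units.val_pow_eq_pow_val, Units.val_mk0]
    simp only [brR_eq]
  · rw [if_neg h, if_neg h]

theorem cN_eq {N : ℕ} {v : ℂ} (hv : v ≠ 0) (hN : ∀ k : ℕ, 0 < k → k < N → br v k ≠ 0) :
    cN N (Units.mk0 v hv) = crossN N v := by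
  ext p q
  unfold cN crossN
  by_cases h : (p.1 : ℕ) + p.2 = q.1 + q.2 ∧ (q.1 : ℕ) ≤ p.2
  · rw [if_pos h, if_pos h]
    have h1 := gb_mul hv p.2 q.1 h.2
    have h2 := brf_ne hN q.1.2
    have h3 := brf_ne hN (show (p.2 : ℕ) - q.1 < N by have := p.2.2; omega)
    have h4 : gb (Units.mk0 v hv) p.2 q.1 = brf v p.2 / (brf v q.1 * brf v ((p.2 : ℕ) - q.1)) := by
      rw [eq_div_iff (mul_ne_zero h2 h3)]
      exact h1
    rw [h4, Units.val_zpow_eq_zpow_val, Units.val_inv_eq_inv_val, Units.val_pow_eq_pow_val,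
      Units.val_mk0]
    simp only [brR_eq]
    rw [div_eq_mul_inv (_ * _) (v ^ _)]
  · rw [if_neg h, if_neg h]

theorem cj_eq {N : ℕ} {v : ℂ} (hv : v ≠ 0) (hN : ∀ k : ℕ, 0 < k → k < N → br v k ≠ 0)
    (n : ℕ) (w : List (ℕ × Bool)) : cj N n w (Units.mk0 v hv) = cjones N n w v := by
  unfold cj cjones
  by_cases h : 0 < N
  · rw [dif_pos h, dif_pos h]
    unfold tail
    apply Finset.sum_congr rfl
    intro s _
    rw [cP_eq hv hN, cN_eq hv hN]
    simp only [Units.val_zpow_eq_zpow_val, Units.val_mk0]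
    rfl
  · rw [dif_neg h, dif_neg h]

end Pool.Agent.Q79.KV
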