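import Mathlib
import Pool.Agent.Q79.KvB

set_option autoImplicit false

open Finset

namespace Pool.Agent.Q79.KV

/-! ### The value at `u^2 = 1` -/

/-- The permutation of a braid word on `n` strands. -/
def permOf (n : ℕ) (w : List (ℕ × Bool)) : Equiv.Perm (Fin n) :=
  (w.map fun g => if h : g.1 + 1 < n then
    Equiv.swap (⟨g.1, by omega⟩ : Fin n) ⟨g.1 + 1, h⟩ else 1).prod

/-- the closure of the braid word is a knot -/
def IsKnot (n : ℕ) (w : List (ℕ × Bool)) : Prop :=
  (∀ g ∈ w, g.1 < n) ∧ ∀ x : Fin (n + 1), ∃ k : ℕ, (permOf (n + 1) w ^ k) 0 = x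

section ring

variable {R : Type} [CommRing R]

theorem brR_zero {u : Rˣ} (hu : u ^ 2 = 1) (k : ℤ) : brR u k = 0 := by
  unfold brR
  have h : u ^ k = u ^ (-k) := by
    have h1 : u ^ k = u ^ (-k) * (u ^ 2) ^ k := by
      rw [← zpow_natCast u 2, ← zpow_mul, ← zpow_add]
      congr 1
      push_cast
      ring
    rw [h1, hu, one_zpow, mul_one]
  rw [h, sub_self]

/-- the matrix is supported on the flips -/
def Flip {ι : Type} (A : Matrix (ι × ι) (ι × ι) R) : Prop :=
  ∀ p q, A p q ≠ 0 → p.1 = q.2 ∧ p.2 = q.1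

theorem flip_cP {u : Rˣ} (hu : u ^ 2 = 1) (N : ℕ) : Flip (cP N u) := by
  intro p q h
  unfold cP at h
  split_ifs at h with hc
  · by_contra hcon
    have h1 : 0 < (p.1 : ℕ) - q.2 := by
      by_contra h2
      apply hcon
      refine ⟨Fin.ext (by omega), Fin.ext (by omega)⟩
    apply h
    rw [Finset.prod_eq_zero (i := 0) (Finset.mem_range.2 h1) (brR_zero hu _), mul_zero]
  · exact absurd rfl h

theorem flip_cN {u : Rˣ} (hu : u ^ 2 = 1) (N : ℕ) : Flip (cN N u) := by
  intro p q h
  unfold cN at h
  split_ifs at h with hc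
  · by_contra hcon
    have h1 : 0 < (p.2 : ℕ) - q.1 := by
      by_contra h2
      apply hcon
      refine ⟨Fin.ext (by omega), Fin.ext (by omega)⟩
    apply h
    rw [Finset.prod_eq_zero (i := 0) (Finset.mem_range.2 h1) (brR_zero hu _), mul_zero]
  · exact absurd rfl h

/-- the permutation of one letter -/
def sw (n k : ℕ) : Equiv.Perm (Fin n) :=
  if h : k + 1 < n then Equiv.swap (⟨k, by omega⟩ : Fin n) ⟨k + 1, h⟩ else 1

theorem permOf_cons (n : ℕ) (g : ℕ × Bool) (w : List (ℕ × Bool)) :
    permOf n (g :: w) = sw n g.1 * permOf n w := by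
  simp only [permOf, List.map_cons, List.prod_cons, sw]

theorem gn_supp {ι : Type} [DecidableEq ι] {A : Matrix (ι × ι) (ι × ι) R} (hA : Flip A)
    {n k : ℕ} {s t : Fin n → ι} (h : gn A n k s t ≠ 0) (x : Fin n) : s (sw n k x) = t x := by
  unfold gn at h
  unfold sw
  by_cases hk : k + 1 < n
  · rw [dif_pos hk] at h ⊢
    split_ifs at h with hc
    · obtain ⟨h1, h2⟩ := hA _ _ h
      simp only at h1 h2
      by_cases hx1 : (x : ℕ) = k
      · have : x = ⟨k, by omega⟩ := Fin.ext hx1
        rw [this, Equiv.swap_apply_left]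
        exact h2
      · by_cases hx2 : (x : ℕ) = k + 1
        · have : x = ⟨k + 1, hk⟩ := Fin.ext hx2
          rw [this, Equiv.swap_apply_right]
          exact h1
        · rw [Equiv.swap_apply_of_ne_of_ne]
          · exact hc x hx1 hx2
          · intro h3; apply hx1; rw [h3]
          · intro h3; apply hx2; rw [h3]
    · exact absurd rfl h
  · rw [dif_neg hk] at h ⊢
    split_ifs at h with hc
    · rw [hc]; rfl
    · exact absurd rfl h

theorem rp_supp {ι : Type} [Fintype ι] [DecidableEq ι] {P Q : Matrix (ι × ι) (ι × ι) R}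
    (hP : Flip P) (hQ : Flip Q) {n : ℕ} (w : List (ℕ × Bool)) :
    ∀ {s t : Fin n → ι}, rp P Q n w s t ≠ 0 → ∀ x, s (permOf n w x) = t x := by
  induction w with
  | nil =>
    intro s t h x
    unfold rp at h
    rw [List.map_nil, List.prod_nil] at h
    have : s = t := by
      by_contra hne
      exact h (Matrix.one_apply_ne hne)
    rw [this]
    rfl
  | cons g w ih =>
    intro s t h x
    have e : rp P Q n (g :: w) = gn (if g.2 then P else Q) n g.1 * rp P Q n w := by
      unfold rp
      rw [List.map_cons, List.prod_cons]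
    rw [e, Matrix.mul_apply] at h
    obtain ⟨r, _, hr⟩ := Finset.exists_ne_zero_of_sum_ne_zero h
    have h1 : gn (if g.2 then P else Q) n g.1 s r ≠ 0 := left_ne_zero_of_mul hr
    have h2 : rp P Q n w r t ≠ 0 := right_ne_zero_of_mul hr
    have hF : Flip (if g.2 then P else Q) := by split_ifs <;> assumption
    rw [permOf_cons, Equiv.Perm.mul_apply, gn_supp hF h1, ih h2]

theorem gn_const {ι : Type} [DecidableEq ι] (A : Matrix (ι × ι) (ι × ι) R) (n k : ℕ) (i : ι)
    (hk : k + 1 < n) : gn A n k (fun _ => i) (fun _ => i) = A (i, i) (i, i) := by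
  unfold gn
  rw [dif_pos hk, if_pos]
  intro j _ _; rfl

theorem rp_const {ι : Type} [Fintype ι] [DecidableEq ι] {P Q : Matrix (ι × ι) (ι × ι) R}
    (hP : Flip P) (hQ : Flip Q) {n : ℕ} (i : ι) (w : List (ℕ × Bool))
    (hw : ∀ g ∈ w, g.1 + 1 < n) (h1 : IsUnit (P (i, i) (i, i))) (h2 : IsUnit (Q (i, i) (i, i))) :
    IsUnit (rp P Q n w (fun _ => i) (fun _ => i)) := by
  induction w with
  | nil =>
    unfold rp
    rw [List.map_nil, List.prod_nil, Matrix.one_apply_eq]
    exact isUnit_one
  | cons g w ih =>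
    have e : rp P Q n (g :: w) = gn (if g.2 then P else Q) n g.1 * rp P Q n w := by
      unfold rp
      rw [List.map_cons, List.prod_cons]
    have hF : Flip (if g.2 then P else Q) := by split_ifs <;> assumption
    rw [e, Matrix.mul_apply, Finset.sum_eq_single (fun _ => i)]
    · rw [gn_const _ _ _ _ (hw g (by simp))]
      apply IsUnit.mul
      · split_ifs <;> assumption
      · exact ih (fun g' hg' => hw g' (by simp [hg']))
    · intro r _ hr
      by_contra hne
      apply hr
      have h3 := gn_supp hF (left_ne_zero_of_mul hne)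
      funext x
      rw [← h3 x]
    · intro h; exact absurd (Finset.mem_univ _) h

/-- the value at `u^2 = 1` is a unit -/
theorem cj_unit {u : Rˣ} (hu : u ^ 2 = 1) {N n : ℕ} (hN : 0 < N) {w : List (ℕ × Bool)}
    (hw : IsKnot n w) : IsUnit (cj N n w u) := by
  unfold cj
  rw [dif_pos hN]
  have hP := flip_cP hu N
  have hQ := flip_cN hu N
  rw [Finset.sum_eq_single (fun _ => (⟨0, hN⟩ : Fin N))]
  · apply IsUnit.mul
    · exact Finset.prod_induction _ IsUnit (fun a b => IsUnit.mul) isUnit_one
        (fun x _ => Units.isUnit _)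
    · have e : (Fin.cons (⟨0, hN⟩ : Fin N) (fun _ => (⟨0, hN⟩ : Fin N)) :
          Fin (n + 1) → Fin N) = fun _ => ⟨0, hN⟩ := by
        funext x
        refine Fin.cases ?_ (fun i => ?_) x
        · rfl
        · rfl
      rw [e]
      apply rp_const hP hQ _ _ (fun g hg => by have := hw.1 g hg; omega)
      · unfold cP
        rw [if_pos (by simp)]
        simp only [gb_zero]
        simp
      · unfold cN
        rw [if_pos (by simp)]
        simp only [gb_zero]
        simp
  · intro s _ hs
    by_contra hne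
    apply hs
    have h1 := rp_supp hP hQ w (right_ne_zero_of_mul hne)
    set t : Fin (n + 1) → Fin N := Fin.cons ⟨0, hN⟩ s with ht
    have h2 : ∀ k : ℕ, t ((permOf (n + 1) w ^ k) 0) = ⟨0, hN⟩ := by
      intro k
      induction k with
      | zero => rfl
      | succ k ih =>
        rw [pow_succ', Equiv.Perm.mul_apply, h1, ih]
    funext x
    obtain ⟨k, hk⟩ := hw.2 x.succ
    have h3 := h2 k
    rw [hk] at h3
    exact h3
  · intro h; exact absurd (Finset.mem_univ _) h

end ring

end Pool.Agent.Q79.KV
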