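import Mathlib
import Pool.Agent.Q79.KvC

set_option autoImplicit false

open Finset Polynomial

namespace Pool.Agent.Q79.KV

/-! ### Values at roots of unity of prime power order -/

/-- the value at all roots of unity of order dividing `m` is given by one integral polynomial -/
theorem exists_poly (M n : ℕ) (w : List (ℕ × Bool)) {m : ℕ} (hm : 0 < m) :
    ∃ P : ℤ[X], ∀ (S : Type) [CommRing S] (u : Sˣ), u ^ m = 1 →
      cj M n w u = P.eval₂ (Int.castRingHom S) (u : S) := by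
  set A := AdjoinRoot ((X : ℤ[X]) ^ m - 1) with hA
  set r : A := AdjoinRoot.root ((X : ℤ[X]) ^ m - 1) with hr
  have hrm : r ^ m = 1 := by
    have h1 : AdjoinRoot.mk ((X : ℤ[X]) ^ m - 1) ((X : ℤ[X]) ^ m - 1) = 0 := AdjoinRoot.mk_self
    rw [map_sub, map_pow, AdjoinRoot.mk_X, map_one] at h1
    exact sub_eq_zero.1 h1
  set U : Aˣ := Units.ofPowEqOne r m hrm hm.ne' with hU
  have hUv : (U : A) = r := rfl
  obtain ⟨P, hP⟩ := AdjoinRoot.mk_surjective (cj M n w U)
  refine ⟨P, ?_⟩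
  intro S _ u hu
  have h0 : ((X : ℤ[X]) ^ m - 1).eval₂ (Int.castRingHom S) (u : S) = 0 := by
    rw [eval₂_sub, eval₂_pow, eval₂_X, eval₂_one]
    have : ((u : S)) ^ m = 1 := by
      rw [← Units.val_pow_eq_pow_val, hu, Units.val_one]
    rw [this, sub_self]
  set f : A →+* S := AdjoinRoot.lift (Int.castRingHom S) (u : S) h0 with hf
  have hfu : Units.map (f : A →* S) U = u := by
    apply Units.ext
    show f r = (u : S)
    rw [hf, hr, AdjoinRoot.lift_root]
  have h1 := map_cj f U M n w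
  rw [hfu, ← hP, hf, AdjoinRoot.lift_mk] at h1
  exact h1.symm

theorem cyc_root (p k : ℕ) [hp : Fact p.Prime] (hk : 0 < k) :
    (cyclotomic (2 * p ^ k) (ZMod p)).eval (-1) = 0 := by
  have hpp := hp.out
  by_cases h2 : p = 2
  · have h3 : 2 * p ^ k = p ^ (k + 1) * 1 := by
      rw [h2]; ring
    have hnd : ¬ p ∣ 1 := by
      intro h; exact hpp.one_lt.ne' (Nat.dvd_one.1 h)
    rw [h3, cyclotomic_mul_prime_pow_eq (ZMod p) hnd (by omega), eval_pow, cyclotomic_one,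
      eval_sub, eval_X, eval_one]
    have h4 : (-1 - 1 : ZMod p) = 0 := by
      have h5 : ((2 : ℕ) : ZMod p) = 0 := by
        rw [← h2]; exact ZMod.natCast_self p
      have : (-1 - 1 : ZMod p) = -((2 : ℕ) : ZMod p) := by push_cast; ring
      rw [this, h5, neg_zero]
    rw [h4, zero_pow]
    have h6 : p ^ (k + 1 - 1) < p ^ (k + 1) := Nat.pow_lt_pow_right hpp.one_lt (by omega)
    omega
  · have hnd : ¬ p ∣ 2 := by
      intro h
      exact h2 ((Nat.prime_dvd_prime_iff_eq hpp Nat.prime_two).1 h)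
    rw [mul_comm, cyclotomic_mul_prime_pow_eq (ZMod p) hnd hk, eval_pow, cyclotomic_two,
      eval_add, eval_X, eval_one]
    have h6 : p ^ (k - 1) < p ^ k := Nat.pow_lt_pow_right hpp.one_lt (by omega)
    rw [neg_add_cancel, zero_pow (by omega)]

/-- The polynomial does not vanish at the primitive roots. -/
theorem poly_ne {M n : ℕ} (hM : 0 < M) {w : List (ℕ × Bool)} (hw : IsKnot n w) {p k : ℕ}
    (hp : p.Prime) (hk : 0 < k) {P : ℤ[X]}
    (hP : ∀ (S : Type) [CommRing S] (u : Sˣ), u ^ (2 * p ^ k) = 1 →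
      cj M n w u = P.eval₂ (Int.castRingHom S) (u : S))
    {F : Type} [Field F] [CharZero F] {v : F} (hv : IsPrimitiveRoot v (2 * p ^ k)) :
    aeval v P ≠ 0 := by
  have i0 : Fact p.Prime := ⟨hp⟩
  have hpos : 0 < 2 * p ^ k := by have := pow_pos hp.pos k; omega
  intro h0
  have hint : IsIntegral ℤ v := hv.isIntegral hpos
  have h1 := minpoly.isIntegrallyClosed_dvd hint h0
  rw [← cyclotomic_eq_minpoly hv hpos] at h1
  obtain ⟨Q, hQ⟩ := h1
  have h2 := hP (ZMod p) (-1) (by rw [pow_mul]; simp)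
  have h3 : (P.eval₂ (Int.castRingHom (ZMod p)) (((-1 : (ZMod p)ˣ)) : ZMod p)) = 0 := by
    rw [hQ, eval₂_mul, ← eval_map, map_cyclotomic]
    have : ((-1 : (ZMod p)ˣ) : ZMod p) = -1 := by simp
    rw [this, cyc_root p k hk, zero_mul]
  rw [h3] at h2
  have h4 : IsUnit (cj M n w (-1 : (ZMod p)ˣ)) := cj_unit (by simp) hM hw
  rw [h2] at h4
  exact not_isUnit_zero h4

theorem prod_norm {M n : ℕ} (hM : 0 < M) {w : List (ℕ × Bool)} (hw : IsKnot n w) {p k : ℕ}
    (hp : p.Prime) (hk : 0 < k) {P : ℤ[X]}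
    (hP : ∀ (S : Type) [CommRing S] (u : Sˣ), u ^ (2 * p ^ k) = 1 →
      cj M n w u = P.eval₂ (Int.castRingHom S) (u : S)) :
    1 ≤ ∏ v ∈ primitiveRoots (2 * p ^ k) ℂ, ‖aeval v P‖ := by
  have hpos : 0 < 2 * p ^ k := by have := pow_pos hp.pos k; omega
  have i1 : NeZero (2 * p ^ k) := ⟨hpos.ne'⟩
  have i2 : NeZero (((2 * p ^ k : ℕ)) : ℚ) := ⟨by exact_mod_cast hpos.ne'⟩
  have i3 : IsCyclotomicExtension {2 * p ^ k} ℚ (CyclotomicField (2 * p ^ k) ℚ) :=
    CyclotomicField.isCyclotomicExtension _ _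
  let K := CyclotomicField (2 * p ^ k) ℚ
  have i4 : IsCyclotomicExtension {2 * p ^ k} ℚ K := i3
  set ζ : K := IsCyclotomicExtension.zeta (2 * p ^ k) ℚ K with hζ
  have hζp : IsPrimitiveRoot ζ (2 * p ^ k) := IsCyclotomicExtension.zeta_spec _ ℚ K
  set y : K := aeval ζ P with hy
  have hirr : Irreducible (cyclotomic (2 * p ^ k) ℚ) := cyclotomic.irreducible_rat hpos
  have hyint : IsIntegral ℤ y := by
    have h1 : IsIntegral ℤ ζ := hζp.isIntegral hpos
    exact IsIntegral.of_mem_of_fg (Algebra.adjoin ℤ {ζ}) h1.fg_adjoin_singleton y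
      (aeval_mem_adjoin_singleton ℤ ζ)
  have hy0 : y ≠ 0 := poly_ne hM hw hp hk hP hζp
  have hnorm : Algebra.norm ℚ y ≠ 0 := by
    rw [Ne, Algebra.norm_eq_zero_iff]
    exact hy0
  have hnint : IsIntegral ℤ (Algebra.norm ℚ y) := Algebra.isIntegral_norm ℚ hyint
  obtain ⟨z, hz⟩ := IsIntegrallyClosed.isIntegral_iff.1 hnint
  have hz0 : z ≠ 0 := by
    intro h
    apply hnorm
    rw [← hz, h]
    simp
  have hprod := Algebra.norm_eq_prod_embeddings ℚ ℂ y
  have h2 : ∏ σ : K →ₐ[ℚ] ℂ, σ y = ∏ v ∈ primitiveRoots (2 * p ^ k) ℂ, aeval v P := by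
    rw [← Finset.prod_coe_sort (primitiveRoots (2 * p ^ k) ℂ) (fun v => aeval v P)]
    apply Fintype.prod_equiv (hζp.embeddingsEquivPrimitiveRoots ℂ hirr)
    intro σ
    rw [hζp.embeddingsEquivPrimitiveRoots_apply_coe ℂ hirr, hy]
    rw [aeval_def, aeval_def]
    have h3 := Polynomial.hom_eval₂ P (algebraMap ℤ K) (σ : K →+* ℂ) ζ
    have h4 : (σ : K →+* ℂ).comp (algebraMap ℤ K) = algebraMap ℤ ℂ := RingHom.ext_int _ _
    rw [h4] at h3
    exact h3
  rw [← norm_prod, ← h2, ← hprod, ← hz]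
  have h4 : ((algebraMap ℚ ℂ) ((algebraMap ℤ ℚ) z)) = ((z : ℤ) : ℂ) := by
    simp
  rw [h4, Complex.norm_intCast]
  exact_mod_cast Int.one_le_abs hz0

end Pool.Agent.Q79.KV
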