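import Mathlib
import Pool.Agent.Q79.KvC

set_option autoImplicit false

open Finset

namespace Pool.Agent.Q79.KV

/-! ### An upper bound for the state sum -/

theorem sum_le_of_unique {ι : Type} [Fintype ι] {f : ι → ℝ} {β : ℝ} (hβ : 0 ≤ β)
    (h : ∀ i, f i ≤ β) (hu : ∀ i j, f i ≠ 0 → f j ≠ 0 → i = j) : ∑ i, f i ≤ β := by
  by_cases hz : ∀ i, f i = 0
  · rw [Finset.sum_eq_zero (fun i _ => hz i)]; exact hβ
  · push Not at hz
    obtain ⟨i, hi⟩ := hz
    rw [Finset.sum_eq_single i]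
    · exact h i
    · intro j _ hj
      by_contra hne
      exact hj (hu j i hne hi)
    · intro h'; exact absurd (Finset.mem_univ _) h'

theorem brf_add (v : ℂ) (a m : ℕ) :
    brf v (a + m) = brf v a * ∏ t ∈ range m, br v ((a : ℤ) + 1 + t) := by
  unfold brf
  rw [Finset.prod_range_add]
  congr 1
  apply Finset.prod_congr rfl
  intro t _
  congr 1
  push_cast
  ring

/-- the bounds of the quantum factorials -/
def Fac (N : ℕ) (v : ℂ) (D : ℝ) : Prop :=
  ‖v‖ = 1 ∧ ∀ m < N, Real.exp (-D) ≤ ‖brf v m‖ ∧ ‖brf v m‖ ≤ Real.exp D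

theorem norm_zpow_one {v : ℂ} (hv : ‖v‖ = 1) (k : ℤ) : ‖v ^ k‖ = 1 := by
  rw [norm_zpow, hv, one_zpow]

theorem norm_pow_one {v : ℂ} (hv : ‖v‖ = 1) (k : ℕ) : ‖v ^ k‖ = 1 := by
  rw [norm_pow, hv, one_pow]

theorem Fac.inv {N : ℕ} {v : ℂ} {D : ℝ} (h : Fac N v D) {m : ℕ} (hm : m < N) :
    ‖brf v m‖⁻¹ ≤ Real.exp D := by
  have h1 := (h.2 m hm).1
  rw [Real.exp_neg] at h1
  have h2 := Real.exp_pos D
  calc ‖brf v m‖⁻¹ ≤ ((Real.exp D)⁻¹)⁻¹ := by
        apply inv_anti₀ (by positivity) h1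
    _ = Real.exp D := inv_inv _

theorem Fac.binom {N : ℕ} {v : ℂ} {D : ℝ} (h : Fac N v D) {a b c : ℕ} (ha : a < N) (hb : b < N)
    (hc : c < N) : ‖brf v a / (brf v b * brf v c)‖ ≤ Real.exp (3 * D) := by
  rw [norm_div, norm_mul, div_eq_mul_inv, mul_inv]
  have h1 := (h.2 a ha).2
  have h2 := h.inv hb
  have h3 := h.inv hc
  have e : Real.exp (3 * D) = Real.exp D * (Real.exp D * Real.exp D) := by
    rw [← Real.exp_add, ← Real.exp_add]; congr 1; ring
  rw [e]
  gcongr

theorem Fac.prod {N M : ℕ} {v : ℂ} {D : ℝ} (h : Fac N v D) (hM : M ≤ N) {q m : ℕ} (hq : q < M)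
    (hm : m ≤ q) : ‖∏ t ∈ range m, br v ((M : ℤ) - q + t)‖ ≤ Real.exp (2 * D) := by
  have h1 := brf_add v (M - q - 1) m
  have e1 : (((M - q - 1 : ℕ) : ℤ) + 1) = (M : ℤ) - q := by omega
  simp only [e1] at h1
  have h2 := h.2 (M - q - 1 + m) (by omega)
  have h3 := h.inv (show M - q - 1 < N by omega)
  have h0 : ‖brf v (M - q - 1)‖ ≠ 0 := by
    have := (h.2 (M - q - 1) (by omega)).1
    have h5 := Real.exp_pos (-D)
    intro h6
    rw [h6] at this
    linarith
  have h4 : ‖∏ t ∈ range m, br v ((M : ℤ) - q + t)‖ =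
      ‖brf v (M - q - 1)‖⁻¹ * ‖brf v (M - q - 1 + m)‖ := by
    rw [h1, norm_mul, inv_mul_cancel_left₀ h0]
  rw [h4]
  have e : Real.exp (2 * D) = Real.exp D * Real.exp D := by
    rw [← Real.exp_add]; congr 1; ring
  rw [e]
  exact mul_le_mul h3 h2.2 (norm_nonneg _) (Real.exp_pos _).le

theorem Fac.crossP_le {N M : ℕ} {v : ℂ} {D : ℝ} (h : Fac N v D) (hM : M ≤ N)
    (p q : Fin M × Fin M) : ‖crossP M v p q‖ ≤ Real.exp (5 * D) := by
  unfold crossP
  split_ifs with hc
  · rw [norm_mul, norm_mul, norm_mul, norm_zpow_one h.1, norm_pow_one h.1, one_mul, one_mul]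
    have h1 := h.binom (a := p.1) (b := q.2) (c := (p.1 : ℕ) - q.2) (by omega) (by omega)
      (by omega)
    have h2 := h.prod hM (q := q.1) (m := (p.1 : ℕ) - q.2) q.1.2 (by omega)
    have e : Real.exp (5 * D) = Real.exp (3 * D) * Real.exp (2 * D) := by
      rw [← Real.exp_add]; congr 1; ring
    rw [e]
    exact mul_le_mul h1 h2 (norm_nonneg _) (Real.exp_pos _).le
  · rw [norm_zero]; exact (Real.exp_pos _).le

theorem Fac.crossN_le {N M : ℕ} {v : ℂ} {D : ℝ} (h : Fac N v D) (hM : M ≤ N)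
    (p q : Fin M × Fin M) : ‖crossN M v p q‖ ≤ Real.exp (5 * D) := by
  unfold crossN
  split_ifs with hc
  · rw [norm_mul, norm_mul, norm_div, norm_mul, norm_pow, norm_neg, norm_one, one_pow,
      norm_zpow_one h.1, norm_pow_one h.1, one_mul, div_one, one_mul]
    have h1 := h.binom (a := p.2) (b := q.1) (c := (p.2 : ℕ) - q.1) (by omega) (by omega)
      (by omega)
    have h2 := h.prod hM (q := q.2) (m := (p.2 : ℕ) - q.1) q.2.2 (by omega)
    have e : Real.exp (5 * D) = Real.exp (3 * D) * Real.exp (2 * D) := by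
      rw [← Real.exp_add]; congr 1; ring
    rw [e]
    exact mul_le_mul h1 h2 (norm_nonneg _) (Real.exp_pos _).le
  · rw [norm_zero]; exact (Real.exp_pos _).le

/-- conservation of weight and a bound of the entries -/
structure Ent (M : ℕ) (A : Matrix (Fin M × Fin M) (Fin M × Fin M) ℂ) (β : ℝ) : Prop where
  supp : ∀ p q, A p q ≠ 0 → (p.1 : ℕ) + p.2 = q.1 + q.2
  le : ∀ p q, ‖A p q‖ ≤ β
  nn : 0 ≤ β

theorem Ent.row {M : ℕ} {A : Matrix (Fin M × Fin M) (Fin M × Fin M) ℂ} {β : ℝ} (h : Ent M A β)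
    (p : Fin M × Fin M) : ∑ q, ‖A p q‖ ≤ M * β := by
  rw [Fintype.sum_prod_type]
  calc ∑ x : Fin M, ∑ y : Fin M, ‖A p (x, y)‖ ≤ ∑ x : Fin M, β := by
        apply Finset.sum_le_sum
        intro x _
        apply sum_le_of_unique h.nn (fun y => h.le _ _)
        intro y y' h1 h2
        have h3 := h.supp _ _ (norm_ne_zero_iff.1 h1)
        have h4 := h.supp _ _ (norm_ne_zero_iff.1 h2)
        simp only at h3 h4
        exact Fin.ext (by omega)
    _ = M * β := by
        rw [Finset.sum_const, Finset.card_univ, Fintype.card_fin, nsmul_eq_mul]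

theorem gen_row {M : ℕ} {A : Matrix (Fin M × Fin M) (Fin M × Fin M) ℂ} {B : ℝ} (hB : 1 ≤ B)
    (hA : ∀ p, ∑ q, ‖A p q‖ ≤ B) (n k : ℕ) (s : Fin n → Fin M) :
    ∑ t, ‖gen A n k s t‖ ≤ B := by
  classical
  unfold gen
  by_cases hk : k + 1 < n
  · simp only [dif_pos hk]
    have h1 : ∀ t : Fin n → Fin M, ‖(if ∀ j : Fin n, (j : ℕ) ≠ k → (j : ℕ) ≠ k + 1 → s j = t j then
        A (s ⟨k, by omega⟩, s ⟨k + 1, hk⟩) (t ⟨k, by omega⟩, t ⟨k + 1, hk⟩) else 0)‖ =
        if ∀ j : Fin n, (j : ℕ) ≠ k → (j : ℕ) ≠ k + 1 → s j = t j then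
        ‖A (s ⟨k, by omega⟩, s ⟨k + 1, hk⟩) (t ⟨k, by omega⟩, t ⟨k + 1, hk⟩)‖ else 0 := by
      intro t
      split_ifs
      · rfl
      · exact norm_zero
    simp only [h1]
    rw [← Finset.sum_filter]
    set T := Finset.univ.filter fun t : Fin n → Fin M =>
      ∀ j : Fin n, (j : ℕ) ≠ k → (j : ℕ) ≠ k + 1 → s j = t j with hT
    set φ : (Fin n → Fin M) → Fin M × Fin M := fun t => (t ⟨k, by omega⟩, t ⟨k + 1, hk⟩) with hφ
    have hinj : Set.InjOn φ T := by
      intro t ht t' ht' he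
      rw [hT, Finset.coe_filter, Set.mem_ofPred_eq] at ht ht'
      have e1 : t ⟨k, by omega⟩ = t' ⟨k, by omega⟩ := congrArg Prod.fst he
      have e2 : t ⟨k + 1, hk⟩ = t' ⟨k + 1, hk⟩ := congrArg Prod.snd he
      funext j
      by_cases h2 : (j : ℕ) = k
      · have : j = ⟨k, by omega⟩ := Fin.ext h2
        rw [this]; exact e1
      · by_cases h3 : (j : ℕ) = k + 1
        · have : j = ⟨k + 1, hk⟩ := Fin.ext h3
          rw [this]; exact e2
        · rw [← ht.2 j h2 h3, ← ht'.2 j h2 h3]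
    calc ∑ t ∈ T, ‖A (s ⟨k, by omega⟩, s ⟨k + 1, hk⟩) (φ t)‖ =
          ∑ q ∈ T.image φ, ‖A (s ⟨k, by omega⟩, s ⟨k + 1, hk⟩) q‖ := by
          rw [Finset.sum_image hinj]
      _ ≤ ∑ q, ‖A (s ⟨k, by omega⟩, s ⟨k + 1, hk⟩) q‖ := by
          apply Finset.sum_le_sum_of_subset_of_nonneg (Finset.subset_univ _)
          intro _ _ _; exact norm_nonneg _
      _ ≤ B := hA _
  · simp only [dif_neg hk]
    apply sum_le_of_unique (by linarith)
    · intro t
      split_ifs
      · rw [norm_one]; exact hB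
      · rw [norm_zero]; linarith
    · intro t t' h1 h2
      have e1 : s = t := by
        by_contra hne
        rw [if_neg hne, norm_zero] at h1
        exact h1 rfl
      have e2 : s = t' := by
        by_contra hne
        rw [if_neg hne, norm_zero] at h2
        exact h2 rfl
      rw [← e1, ← e2]

theorem rep_row {M : ℕ} {P Q : Matrix (Fin M × Fin M) (Fin M × Fin M) ℂ} {B : ℝ} (hB : 1 ≤ B)
    (hP : ∀ p, ∑ q, ‖P p q‖ ≤ B) (hQ : ∀ p, ∑ q, ‖Q p q‖ ≤ B) (n : ℕ) (w : List (ℕ × Bool)) :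
    ∀ s : Fin n → Fin M, ∑ t, ‖rep P Q n w s t‖ ≤ B ^ w.length := by
  classical
  induction w with
  | nil =>
    intro s
    unfold rep
    rw [List.map_nil, List.prod_nil, List.length_nil, pow_zero]
    apply sum_le_of_unique (by norm_num)
    · intro t
      rw [Matrix.one_apply]
      split_ifs
      · rw [norm_one]
      · rw [norm_zero]; norm_num
    · intro t t' h1 h2
      have e1 : s = t := by
        by_contra hne
        rw [Matrix.one_apply_ne hne, norm_zero] at h1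
        exact h1 rfl
      have e2 : s = t' := by
        by_contra hne
        rw [Matrix.one_apply_ne hne, norm_zero] at h2
        exact h2 rfl
      rw [← e1, ← e2]
  | cons g w ih =>
    intro s
    have e : rep P Q n (g :: w) = gen (if g.2 then P else Q) n g.1 * rep P Q n w := by
      unfold rep
      rw [List.map_cons, List.prod_cons]
    have hA : ∀ p, ∑ q, ‖(if g.2 then P else Q) p q‖ ≤ B := by split_ifs <;> assumption
    have hg := gen_row hB hA n g.1 s
    calc ∑ t, ‖rep P Q n (g :: w) s t‖ ≤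
          ∑ t, ∑ r, ‖gen (if g.2 then P else Q) n g.1 s r‖ * ‖rep P Q n w r t‖ := by
          apply Finset.sum_le_sum
          intro t _
          rw [e, Matrix.mul_apply]
          refine (norm_sum_le _ _).trans (Finset.sum_le_sum fun r _ => ?_)
          rw [norm_mul]
      _ = ∑ r, ‖gen (if g.2 then P else Q) n g.1 s r‖ * ∑ t, ‖rep P Q n w r t‖ := by
          rw [Finset.sum_comm]
          apply Finset.sum_congr rfl
          intro r _
          rw [Finset.mul_sum]
      _ ≤ ∑ r, ‖gen (if g.2 then P else Q) n g.1 s r‖ * B ^ w.length := by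
          apply Finset.sum_le_sum
          intro r _
          exact mul_le_mul_of_nonneg_left (ih r) (norm_nonneg _)
      _ = (∑ r, ‖gen (if g.2 then P else Q) n g.1 s r‖) * B ^ w.length := by
          rw [Finset.sum_mul]
      _ ≤ B * B ^ w.length := by
          apply mul_le_mul_of_nonneg_right hg
          have : 0 ≤ B := by linarith
          positivity
      _ = B ^ (g :: w).length := by rw [List.length_cons, pow_succ']

/-- the bound -/
theorem cjones_le {N M : ℕ} {v : ℂ} {D : ℝ} (hD : 0 ≤ D) (h : Fac N v D) (hM0 : 0 < M)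
    (hM : M ≤ N) (n : ℕ) (w : List (ℕ × Bool)) :
    ‖cjones M n w v‖ ≤ (M : ℝ) ^ (n + w.length) * Real.exp (5 * D * w.length) := by
  have hMr : (1 : ℝ) ≤ M := by exact_mod_cast hM0
  have hEP : Ent M (crossP M v) (Real.exp (5 * D)) :=
    ⟨fun p q hne => by
      unfold crossP at hne
      split_ifs at hne with hc
      · exact hc.1
      · exact absurd rfl hne, fun p q => h.crossP_le hM p q, (Real.exp_pos _).le⟩
  have hEN : Ent M (crossN M v) (Real.exp (5 * D)) :=
    ⟨fun p q hne => by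
      unfold crossN at hne
      split_ifs at hne with hc
      · exact hc.1
      · exact absurd rfl hne, fun p q => h.crossN_le hM p q, (Real.exp_pos _).le⟩
  set B : ℝ := M * Real.exp (5 * D) with hB
  have hexp : 1 ≤ Real.exp (5 * D) := Real.one_le_exp (by positivity)
  have hB1 : 1 ≤ B := by
    rw [hB]
    nlinarith
  unfold cjones
  rw [dif_pos hM0]
  unfold tail
  refine (norm_sum_le _ _).trans ?_
  calc ∑ s : Fin n → Fin M, ‖(∏ x, v ^ ((M : ℤ) - 1 - 2 * (s x : ℕ))) *
        rep (crossP M v) (crossN M v) (n + 1) w (Fin.cons ⟨0, hM0⟩ s) (Fin.cons ⟨0, hM0⟩ s)‖ ≤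
        ∑ s : Fin n → Fin M, B ^ w.length := by
        apply Finset.sum_le_sum
        intro s _
        rw [norm_mul, norm_prod]
        simp only [norm_zpow_one h.1]
        rw [Finset.prod_const_one, one_mul]
        refine le_trans ?_ (rep_row hB1 hEP.row hEN.row (n + 1) w (Fin.cons ⟨0, hM0⟩ s))
        exact Finset.single_le_sum (f := fun t => ‖rep (crossP M v) (crossN M v) (n + 1) w
          (Fin.cons ⟨0, hM0⟩ s) t‖) (fun t _ => norm_nonneg _) (Finset.mem_univ _)
    _ = (M : ℝ) ^ (n + w.length) * Real.exp (5 * D * w.length) := by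
        rw [Finset.sum_const, Finset.card_univ, Fintype.card_fun, Fintype.card_fin,
          Fintype.card_fin, nsmul_eq_mul, hB, mul_pow, pow_add, ← Real.exp_nat_mul]
        push_cast
        ring_nf

end Pool.Agent.Q79.KV
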