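import Mathlib

set_option autoImplicit false

open Finset

namespace Pool.Agent.Q79.KV

/-! ### Sums over roots of unity -/

theorem norm_one_sub_exp (θ : ℝ) :
    ‖(1 : ℂ) - Complex.exp ((2 * θ : ℝ) * Complex.I)‖ = 2 * |Real.sin θ| := by
  have h1 : (1 : ℂ) - Complex.exp ((2 * θ : ℝ) * Complex.I) =
      -(Complex.exp (θ * Complex.I) * (Complex.exp (θ * Complex.I) - Complex.exp (-θ * Complex.I))) := by
    rw [mul_sub, ← Complex.exp_add, ← Complex.exp_add]
    have e1 : (θ : ℂ) * Complex.I + θ * Complex.I = (2 * θ : ℝ) * Complex.I := by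
      push_cast; ring
    have e2 : (θ : ℂ) * Complex.I + -θ * Complex.I = 0 := by ring
    rw [e1, e2, Complex.exp_zero]
    ring
  have h2 : Complex.exp (θ * Complex.I) - Complex.exp (-θ * Complex.I) =
      2 * Complex.I * (Real.sin θ : ℝ) := by
    rw [Complex.ofReal_sin, Complex.sin]
    have : Complex.I * Complex.I = -1 := Complex.I_mul_I
    linear_combination (-(Complex.exp (-(θ:ℂ) * Complex.I) - Complex.exp ((θ:ℂ) * Complex.I))) * this
  rw [h1, norm_neg, norm_mul, Complex.norm_exp_ofReal_mul_I, one_mul, h2, norm_mul, norm_mul,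
    Complex.norm_I, Complex.norm_real, Complex.norm_two]
  simp

theorem sin_ge {x : ℝ} (h0 : 0 ≤ x) (h1 : x ≤ Real.pi / 2) : 2 / Real.pi * x ≤ Real.sin x :=
  Real.mul_le_sin h0 h1

theorem inv_le_aux {n b : ℕ} (hb : 0 < b) (hbn : b < n) :
    ‖(1 : ℂ) - Complex.exp ((2 * (Real.pi * (b / n)) : ℝ) * Complex.I)‖⁻¹ ≤
      n / 4 * (1 / b + 1 / (n - b)) := by
  have hn : (0 : ℝ) < n := by exact_mod_cast (hb.trans hbn)
  have hb0 : (0 : ℝ) < b := by exact_mod_cast hb
  have hbn' : (b : ℝ) < n := by exact_mod_cast hbn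
  have hπ := Real.pi_pos
  rw [norm_one_sub_exp]
  have hx0 : 0 < Real.pi * ((b : ℝ) / n) := by positivity
  have hx1 : Real.pi * ((b : ℝ) / n) < Real.pi := by
    have : (b : ℝ) / n < 1 := by rw [div_lt_one hn]; exact hbn'
    nlinarith
  have hs : 0 < Real.sin (Real.pi * ((b : ℝ) / n)) := Real.sin_pos_of_pos_of_lt_pi hx0 hx1
  rw [abs_of_pos hs]
  rcases le_total (Real.pi * ((b : ℝ) / n)) (Real.pi / 2) with h | h
  · have h1 := sin_ge hx0.le h
    have h2 : 2 / Real.pi * (Real.pi * ((b : ℝ) / n)) = 2 * (b / n) := by field_simp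
    rw [h2] at h1
    have h3 : 0 < 2 * (2 * ((b : ℝ) / n)) := by positivity
    calc (2 * Real.sin (Real.pi * ((b : ℝ) / n)))⁻¹ ≤ (2 * (2 * ((b : ℝ) / n)))⁻¹ := by
          apply inv_anti₀ h3; linarith
      _ = n / 4 * (1 / b) := by field_simp; norm_num
      _ ≤ n / 4 * (1 / b + 1 / (n - b)) := by
          have h4 : 0 ≤ 1 / ((n : ℝ) - b) := by
            apply div_nonneg zero_le_one; linarith
          apply mul_le_mul_of_nonneg_left _ (by positivity)
          linarith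
  · have e : Real.sin (Real.pi * ((b : ℝ) / n)) = Real.sin (Real.pi - Real.pi * ((b : ℝ) / n)) :=
      (Real.sin_pi_sub _).symm
    have h1 := sin_ge (x := Real.pi - Real.pi * ((b : ℝ) / n)) (by linarith) (by linarith)
    have h2 : 2 / Real.pi * (Real.pi - Real.pi * ((b : ℝ) / n)) = 2 * ((n - b) / n) := by
      field_simp
    rw [h2, ← e] at h1
    have h0 : (0 : ℝ) < n - b := by linarith
    have h3 : 0 < 2 * (2 * (((n : ℝ) - b) / n)) := by positivity
    calc (2 * Real.sin (Real.pi * ((b : ℝ) / n)))⁻¹ ≤ (2 * (2 * (((n : ℝ) - b) / n)))⁻¹ := by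
          apply inv_anti₀ h3; linarith
      _ = n / 4 * (1 / (n - b)) := by field_simp; norm_num
      _ ≤ n / 4 * (1 / b + 1 / (n - b)) := by
          have h4 : 0 ≤ 1 / (b : ℝ) := by positivity
          apply mul_le_mul_of_nonneg_left _ (by positivity)
          linarith

theorem exp_pow_eq (n b : ℕ) :
    Complex.exp (2 * Real.pi * Complex.I / n) ^ b =
      Complex.exp ((2 * (Real.pi * (b / n)) : ℝ) * Complex.I) := by
  rw [← Complex.exp_nat_mul]
  congr 1
  push_cast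
  ring

theorem harm_le (n : ℕ) (hn : 1 ≤ n) : ∑ b ∈ Ico 1 n, (1 : ℝ) / b ≤ 1 + Real.log n := by
  have h1 := harmonic_le_one_add_log (n - 1)
  have h2 : ((harmonic (n - 1) : ℚ) : ℝ) = ∑ b ∈ Ico 1 n, (1 : ℝ) / b := by
    rw [harmonic]
    push_cast
    rw [Finset.sum_Ico_eq_sum_range]
    apply Finset.sum_congr rfl
    intro i _
    push_cast
    rw [one_div, add_comm]
  rw [h2] at h1
  refine h1.trans ?_
  rcases Nat.lt_or_ge 1 n with h | h
  · have : Real.log ((n - 1 : ℕ) : ℝ) ≤ Real.log n := by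
      apply Real.log_le_log
      · exact_mod_cast (by omega : 0 < n - 1)
      · exact_mod_cast (Nat.sub_le _ _)
    linarith
  · have : n = 1 := by omega
    subst this
    simp

theorem std_sum {n : ℕ} (hn : 1 ≤ n) :
    ∑ b ∈ range n, ‖(1 : ℂ) - Complex.exp (2 * Real.pi * Complex.I / n) ^ b‖⁻¹ ≤
      n / 2 * (1 + Real.log n) := by
  have hn0 : (0 : ℝ) < n := by exact_mod_cast hn
  rw [Finset.range_eq_Ico, Finset.sum_eq_sum_Ico_succ_bot (by omega)]
  rw [pow_zero, sub_self, norm_zero, inv_zero, zero_add, zero_add]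
  calc ∑ b ∈ Ico 1 n, ‖(1 : ℂ) - Complex.exp (2 * Real.pi * Complex.I / n) ^ b‖⁻¹
      ≤ ∑ b ∈ Ico 1 n, ((n : ℝ) / 4 * (1 / b + 1 / (n - b))) := by
        apply Finset.sum_le_sum
        intro b hb
        rw [Finset.mem_Ico] at hb
        rw [exp_pow_eq]
        exact inv_le_aux (by omega) hb.2
    _ = n / 4 * (∑ b ∈ Ico 1 n, (1 : ℝ) / b + ∑ b ∈ Ico 1 n, 1 / ((n : ℝ) - b)) := by
        rw [← Finset.mul_sum, Finset.sum_add_distrib]
    _ = n / 4 * (∑ b ∈ Ico 1 n, (1 : ℝ) / b + ∑ b ∈ Ico 1 n, (1 : ℝ) / b) := by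
        congr 2
        apply Finset.sum_nbij' (fun b => n - b) (fun b => n - b)
        · intro b hb; rw [Finset.mem_Ico] at hb ⊢; omega
        · intro b hb; rw [Finset.mem_Ico] at hb ⊢; omega
        · intro b hb; rw [Finset.mem_Ico] at hb; omega
        · intro b hb; rw [Finset.mem_Ico] at hb; omega
        · intro b hb
          rw [Finset.mem_Ico] at hb
          rw [Nat.cast_sub (by omega)]
    _ ≤ n / 4 * ((1 + Real.log n) + (1 + Real.log n)) := by
        have := harm_le n hn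
        gcongr
    _ = n / 2 * (1 + Real.log n) := by ring

/-- the sum over the powers of a primitive root does not depend on the root -/
theorem sum_prim {n : ℕ} (hn : 1 ≤ n) {ξ : ℂ} (hξ : IsPrimitiveRoot ξ n) (G : ℂ → ℝ) :
    ∑ b ∈ range n, G (ξ ^ b) = ∑ x ∈ Polynomial.nthRootsFinset n (1 : ℂ), G x := by
  classical
  have hinj : Set.InjOn (fun b : ℕ => ξ ^ b) (range n) := by
    intro a ha b hb hab
    rw [Finset.coe_range, Set.mem_Iio] at ha hb
    exact hξ.pow_inj ha hb hab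
  have himg : (range n).image (fun b : ℕ => ξ ^ b) = Polynomial.nthRootsFinset n (1 : ℂ) := by
    apply Finset.eq_of_subset_of_card_le
    · intro x hx
      rw [Finset.mem_image] at hx
      obtain ⟨b, _, rfl⟩ := hx
      rw [Polynomial.mem_nthRootsFinset (by omega)]
      rw [← pow_mul, mul_comm, pow_mul, hξ.pow_eq_one, one_pow]
    · rw [Finset.card_image_of_injOn hinj, Finset.card_range, hξ.card_nthRootsFinset]
  rw [← himg, Finset.sum_image hinj]

theorem prim_sum {n : ℕ} (hn : 1 ≤ n) {ξ : ℂ} (hξ : IsPrimitiveRoot ξ n) :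
    ∑ b ∈ range n, ‖(1 : ℂ) - ξ ^ b‖⁻¹ ≤ n / 2 * (1 + Real.log n) := by
  rw [sum_prim hn hξ (fun x => ‖(1 : ℂ) - x‖⁻¹),
    ← sum_prim hn (Complex.isPrimitiveRoot_exp n (by omega)) (fun x => ‖(1 : ℂ) - x‖⁻¹)]
  exact std_sum hn

theorem sum_periodic (G : ℕ → ℝ) (m : ℕ) (hG : ∀ i, G (i + m) = G i) (d : ℕ) :
    ∑ i ∈ range (d * m), G i = d * ∑ i ∈ range m, G i := by
  have hG2 : ∀ k i, G (i + k * m) = G i := by
    intro k
    induction k with
    | zero => intro i; simp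
    | succ k ih =>
      intro i
      rw [Nat.succ_mul, ← add_assoc, hG, ih]
  induction d with
  | zero => simp
  | succ d ih =>
    rw [Nat.succ_mul, Finset.sum_range_add, ih]
    push_cast
    rw [add_mul, one_mul]
    congr 1
    apply Finset.sum_congr rfl
    intro i _
    rw [add_comm, hG2]

/-- the sum over all primitive roots -/
theorem sum_over_prim {m e : ℕ} (hm : 1 ≤ m) :
    ∑ v ∈ primitiveRoots m ℂ, ‖(1 : ℂ) - v ^ e‖⁻¹ ≤ m / 2 * (1 + Real.log m) := by
  have hζ := Complex.isPrimitiveRoot_exp m (by omega)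
  set ζ := Complex.exp (2 * Real.pi * Complex.I / m) with hζd
  have h1 : ∑ v ∈ primitiveRoots m ℂ, ‖(1 : ℂ) - v ^ e‖⁻¹ ≤
      ∑ x ∈ Polynomial.nthRootsFinset m (1 : ℂ), ‖(1 : ℂ) - x ^ e‖⁻¹ := by
    apply Finset.sum_le_sum_of_subset_of_nonneg
    · intro v hv
      rw [mem_primitiveRoots (by omega)] at hv
      rw [Polynomial.mem_nthRootsFinset (by omega)]
      exact hv.pow_eq_one
    · intro _ _ _; positivity
  refine h1.trans ?_
  rw [← sum_prim hm hζ (fun x => ‖(1 : ℂ) - x ^ e‖⁻¹)]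
  set ξ := ζ ^ e with hξ
  have hξm : ξ ^ m = 1 := by
    rw [hξ, ← pow_mul, mul_comm, pow_mul, hζ.pow_eq_one, one_pow]
  have hdvd : orderOf ξ ∣ m := orderOf_dvd_of_pow_eq_one hξm
  have hord : 0 < orderOf ξ := Nat.pos_of_dvd_of_pos hdvd hm
  obtain ⟨d, hd⟩ := hdvd
  have hprim : IsPrimitiveRoot ξ (orderOf ξ) := IsPrimitiveRoot.orderOf ξ
  have h2 : ∀ b, ‖(1 : ℂ) - (ζ ^ b) ^ e‖⁻¹ = ‖(1 : ℂ) - ξ ^ b‖⁻¹ := by
    intro b
    rw [hξ, ← pow_mul, ← pow_mul, mul_comm]
  simp only [h2]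
  have h3 : ∑ b ∈ range m, ‖(1 : ℂ) - ξ ^ b‖⁻¹ = d * ∑ b ∈ range (orderOf ξ), ‖(1 : ℂ) - ξ ^ b‖⁻¹ := by
    have := sum_periodic (fun b => ‖(1 : ℂ) - ξ ^ b‖⁻¹) (orderOf ξ)
      (fun i => by simp only [pow_add, pow_orderOf_eq_one, mul_one]) d
    rw [← this]
    congr 2
    rw [mul_comm]; exact hd
  rw [h3]
  have h4 := prim_sum hord hprim
  have hmr : (m : ℝ) = (orderOf ξ : ℝ) * d := by exact_mod_cast hd
  have hlog : Real.log (orderOf ξ : ℝ) ≤ Real.log m := by
    apply Real.log_le_log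
    · exact_mod_cast hord
    · exact_mod_cast Nat.le_of_dvd hm ⟨d, hd⟩
  calc (d : ℝ) * ∑ b ∈ range (orderOf ξ), ‖(1 : ℂ) - ξ ^ b‖⁻¹ ≤
        d * ((orderOf ξ : ℝ) / 2 * (1 + Real.log (orderOf ξ : ℝ))) := by gcongr
    _ ≤ d * ((orderOf ξ : ℝ) / 2 * (1 + Real.log m)) := by gcongr
    _ = m / 2 * (1 + Real.log m) := by rw [hmr]; ring

end Pool.Agent.Q79.KV
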