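import Mathlib
import Pool.Agent.Q79.KvE
import Pool.Agent.Q79.KvF

set_option autoImplicit false

open Finset

namespace Pool.Agent.Q79.KV

/-! ### The size of the quantum factorials at every primitive root of unity -/

theorem norm_br {v : ℂ} (hv : ‖v‖ = 1) (k : ℕ) : ‖br v ((k : ℤ))‖ = ‖(1 : ℂ) - (v ^ 2) ^ k‖ := by
  have hv0 : v ≠ 0 := by
    intro h; rw [h, norm_zero] at hv; exact zero_ne_one hv
  have h1 : br v (k : ℤ) = -(v ^ (-(k : ℤ)) * (1 - (v ^ 2) ^ k)) := by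
    unfold br
    rw [zpow_neg, zpow_natCast, mul_sub, mul_one, ← pow_mul]
    have : (v ^ k)⁻¹ * v ^ (2 * k) = v ^ k := by
      rw [two_mul, pow_add]; field_simp
    rw [this]; ring
  rw [h1, norm_neg, norm_mul, norm_zpow_one hv, one_mul]

theorem norm_brf {v : ℂ} (hv : ‖v‖ = 1) (m : ℕ) :
    ‖brf v m‖ = ∏ j ∈ range m, ‖(1 : ℂ) - (v ^ 2) ^ (j + 1)‖ := by
  unfold brf
  rw [norm_prod]
  apply Finset.prod_congr rfl
  intro j _
  have := norm_br hv (j + 1)
  push_cast at this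
  exact this

/-- moving a point inside the disc -/
theorem log_move {z : ℂ} (hz : ‖z‖ = 1) {s : ℝ} (hs0 : 0 ≤ s)
    (h2 : 2 * s ≤ ‖(1 : ℂ) - z‖) (hpos : 0 < ‖(1 : ℂ) - z‖) :
    |Real.log ‖(1 : ℂ) - z‖ - Real.log ‖(1 : ℂ) - ((1 - s : ℝ) : ℂ) * z‖| ≤
      2 * s * ‖(1 : ℂ) - z‖⁻¹ := by
  set A := ‖(1 : ℂ) - z‖ with hA
  set B := ‖(1 : ℂ) - ((1 - s : ℝ) : ℂ) * z‖ with hB
  have hd : |A - B| ≤ s := by
    have h1 := abs_norm_sub_norm_le ((1 : ℂ) - z) ((1 : ℂ) - ((1 - s : ℝ) : ℂ) * z)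
    have h3 : ((1 : ℂ) - z) - ((1 : ℂ) - ((1 - s : ℝ) : ℂ) * z) = -((s : ℝ) : ℂ) * z := by
      push_cast; ring
    rw [h3, norm_mul, norm_neg, Complex.norm_real, hz, mul_one, Real.norm_eq_abs,
      abs_of_nonneg hs0] at h1
    exact h1
  have hBlow : A / 2 ≤ B := by
    have := (abs_le.1 hd).2
    linarith
  have hBpos : 0 < B := by linarith
  rw [abs_le]
  constructor
  · -- log B - log A ≤ 2 s/A
    have h1 : Real.log (B / A) ≤ B / A - 1 := Real.log_le_sub_one_of_pos (by positivity)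
    rw [Real.log_div hBpos.ne' hpos.ne'] at h1
    have h3 : B / A - 1 ≤ s * A⁻¹ := by
      rw [div_eq_mul_inv]
      have : B * A⁻¹ - 1 = (B - A) * A⁻¹ := by field_simp
      rw [this]
      apply mul_le_mul_of_nonneg_right _ (by positivity)
      have := (abs_le.1 hd).1
      linarith
    have h4 : 0 ≤ s * A⁻¹ := by positivity
    linarith
  · have h1 : Real.log (A / B) ≤ A / B - 1 := Real.log_le_sub_one_of_pos (by positivity)
    rw [Real.log_div hpos.ne' hBpos.ne'] at h1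
    have h3 : A / B - 1 ≤ 2 * s * A⁻¹ := by
      have e : A / B - 1 = (A - B) * B⁻¹ := by field_simp
      rw [e]
      have h5 : B⁻¹ ≤ 2 * A⁻¹ := by
        calc B⁻¹ ≤ (A / 2)⁻¹ := inv_anti₀ (by positivity) hBlow
          _ = 2 * A⁻¹ := by field_simp
      calc (A - B) * B⁻¹ ≤ s * B⁻¹ := by
            apply mul_le_mul_of_nonneg_right _ (by positivity)
            exact (abs_le.1 hd).2
        _ ≤ s * (2 * A⁻¹) := mul_le_mul_of_nonneg_left h5 hs0
        _ = 2 * s * A⁻¹ := by ring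
    linarith

/-- the off-diagonal sum -/
noncomputable def EE (N : ℕ) (q : ℂ) : ℝ := ∑ h ∈ range N, 2 / (h : ℝ) * ‖(1 : ℂ) - q ^ h‖⁻¹

noncomputable def DD (N : ℕ) (q : ℂ) : ℝ :=
  1 + EE N q + (2 + Real.log N) * Real.log (2 * N)

theorem EE_nonneg (N : ℕ) (q : ℂ) : 0 ≤ EE N q :=
  Finset.sum_nonneg (fun _ _ => by positivity)

/-- the bound of the character sums -/
noncomputable def bb (N : ℕ) (q : ℂ) (h : ℕ) : ℝ :=
  (if q ^ h = 1 then (N : ℝ) else 0) + 2 * ‖(1 : ℂ) - q ^ h‖⁻¹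

theorem bb_nonneg (N : ℕ) (q : ℂ) (h : ℕ) : 0 ≤ bb N q h := by
  unfold bb
  split_ifs <;> positivity

theorem char_sum {N : ℕ} {q : ℂ} (hq : ‖q‖ = 1) {m : ℕ} (hm : m ≤ N) (h : ℕ) :
    ‖∑ j ∈ range m, (q ^ (j + 1)) ^ h‖ ≤ bb N q h := by
  unfold bb
  have hmN : (m : ℝ) ≤ N := by exact_mod_cast hm
  split_ifs with h1
  · have e : ∀ j ∈ range m, (q ^ (j + 1)) ^ h = 1 := by
      intro j _
      rw [← pow_mul, mul_comm, pow_mul, h1, one_pow]
    rw [Finset.sum_congr rfl e]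
    simp only [sum_const, card_range, nsmul_eq_mul, mul_one, Complex.norm_natCast]
    have : 0 ≤ 2 * ‖(1 : ℂ) - q ^ h‖⁻¹ := by positivity
    linarith
  · have e : ∑ j ∈ range m, (q ^ (j + 1)) ^ h = q ^ h * ∑ j ∈ range m, (q ^ h) ^ j := by
      rw [Finset.mul_sum]
      apply Finset.sum_congr rfl
      intro j _
      rw [← pow_mul, ← pow_mul, ← pow_add]
      congr 1; ring
    have h2 : q ^ h - 1 ≠ 0 := sub_ne_zero.2 h1
    rw [e, norm_mul, norm_pow, hq, one_pow, one_mul, geom_sum_eq h1, norm_div, zero_add,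
      norm_sub_rev (q ^ h) 1, div_eq_mul_inv]
    apply mul_le_mul_of_nonneg_right _ (by positivity)
    calc ‖(q ^ h) ^ m - 1‖ ≤ ‖(q ^ h) ^ m‖ + ‖(1 : ℂ)‖ := norm_sub_le _ _
      _ = 2 := by rw [norm_pow, norm_pow, hq, one_pow, one_pow, norm_one]; norm_num

/-- partial sums of a periodic weight against the logarithmic series -/
theorem block_sum {N : ℕ} (hN : 0 < N) {r : ℝ} (hr0 : 0 ≤ r) (hr1 : r ≤ 1) {b : ℕ → ℝ}
    (hb0 : ∀ i, 0 ≤ b i) (hb : ∀ i j, b (j * N + i) = b i) (K : ℕ) :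
    ∑ h ∈ range ((K + 1) * N), r ^ h / h * b h ≤
      ∑ h ∈ range N, r ^ h / h * b h +
        (∑ i ∈ range N, b i) / N * ∑ j ∈ range (K + 1), (r ^ N) ^ j / j := by
  have hN0 : (0 : ℝ) < N := by exact_mod_cast hN
  induction K with
  | zero => simp
  | succ K ih =>
    have e : (K + 1 + 1) * N = (K + 1) * N + N := by ring
    rw [e, Finset.sum_range_add, Finset.sum_range_succ _ (K + 1)]
    have h1 : ∑ x ∈ range N, r ^ ((K + 1) * N + x) / (((K + 1) * N + x : ℕ) : ℝ) *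
        b ((K + 1) * N + x) ≤
        (∑ i ∈ range N, b i) / N * ((r ^ N) ^ (K + 1) / ((K + 1 : ℕ) : ℝ)) := by
      rw [div_mul_eq_mul_div, Finset.sum_mul, Finset.sum_div]
      apply Finset.sum_le_sum
      intro i _
      rw [hb i (K + 1)]
      have h2 : r ^ ((K + 1) * N + i) ≤ (r ^ N) ^ (K + 1) := by
        rw [← pow_mul, mul_comm N (K + 1)]
        exact pow_le_pow_of_le_one hr0 hr1 (by omega)
      have h3 : (0 : ℝ) < ((K + 1 : ℕ) : ℝ) * N := by positivity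
      have h4 : ((K + 1 : ℕ) : ℝ) * N ≤ (((K + 1) * N + i : ℕ) : ℝ) := by
        push_cast
        have : (0 : ℝ) ≤ i := Nat.cast_nonneg i
        linarith
      calc r ^ ((K + 1) * N + i) / (((K + 1) * N + i : ℕ) : ℝ) * b i
          ≤ ((r ^ N) ^ (K + 1) / (((K + 1 : ℕ) : ℝ) * N)) * b i := by
            apply mul_le_mul_of_nonneg_right _ (hb0 i)
            exact div_le_div₀ (by positivity) h2 h3 h4
        _ = b i * ((r ^ N) ^ (K + 1) / ((K + 1 : ℕ) : ℝ)) / N := by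
            field_simp
    calc _ ≤ _ := add_le_add ih h1
      _ = _ := by ring

theorem log_series_le {x : ℝ} (hx0 : 0 ≤ x) (hx1 : x < 1) (K : ℕ) :
    ∑ j ∈ range (K + 1), x ^ j / (j : ℝ) ≤ -Real.log (1 - x) := by
  have h := Real.hasSum_pow_div_log_of_abs_lt_one (x := x) (by rw [abs_of_nonneg hx0]; exact hx1)
  rw [Finset.sum_range_succ']
  simp only [Nat.cast_zero, div_zero, add_zero]
  push_cast
  exact sum_le_hasSum (range K) (fun i _ => by positivity) h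

theorem pow_gap {N : ℕ} (hN : 1 ≤ N) :
    (1 - 1 / (N : ℝ) ^ 2) ^ N < 1 ∧ 1 / (2 * (N : ℝ)) ≤ 1 - (1 - 1 / (N : ℝ) ^ 2) ^ N := by
  have hN0 : (1 : ℝ) ≤ N := by exact_mod_cast hN
  have hx : 0 ≤ 1 / (N : ℝ) ^ 2 := by positivity
  have hx1 : 1 / (N : ℝ) ^ 2 ≤ 1 := by
    rw [div_le_one (by positivity)]; nlinarith
  have h1 : 1 + (N : ℝ) * (1 / (N : ℝ) ^ 2) ≤ (1 + 1 / (N : ℝ) ^ 2) ^ N :=
    one_add_mul_le_pow (by linarith) N
  have h2 : (N : ℝ) * (1 / (N : ℝ) ^ 2) = 1 / N := by field_simp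
  rw [h2] at h1
  have h3 : (1 - 1 / (N : ℝ) ^ 2) ^ N * (1 + 1 / (N : ℝ) ^ 2) ^ N ≤ 1 := by
    rw [← mul_pow]
    apply pow_le_one₀ (mul_nonneg (by linarith) (by linarith))
    nlinarith
  have hpos : 0 ≤ (1 - 1 / (N : ℝ) ^ 2) ^ N := pow_nonneg (by linarith) N
  have h4 : (1 - 1 / (N : ℝ) ^ 2) ^ N * (1 + 1 / N) ≤ 1 :=
    (mul_le_mul_of_nonneg_left h1 hpos).trans h3
  have h5 : (1 - 1 / (N : ℝ) ^ 2) ^ N ≤ 1 - 1 / (2 * N) := by
    have h6 : (0 : ℝ) < 1 + 1 / N := by positivity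
    have h7 : (1 - 1 / (N : ℝ) ^ 2) ^ N ≤ 1 / (1 + 1 / N) := by
      rw [le_div_iff₀ h6]; exact h4
    refine h7.trans ?_
    rw [div_le_iff₀ h6]
    have : (1 - 1 / (2 * (N : ℝ))) * (1 + 1 / N) = 1 + (N - 1) / (2 * N ^ 2) := by
      field_simp; ring
    rw [this]
    have : 0 ≤ ((N : ℝ) - 1) / (2 * N ^ 2) := div_nonneg (by linarith) (by positivity)
    linarith
  refine ⟨?_, by linarith⟩
  have : 0 < 1 / (2 * (N : ℝ)) := by positivity
  linarith

/-- The logarithm of a partial product of roots of unity. -/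
theorem log_fac {N : ℕ} (hN : 2 ≤ N) {q : ℂ} (hq : IsPrimitiveRoot q N) {m : ℕ} (hm : m < N) :
    |∑ j ∈ range m, Real.log ‖(1 : ℂ) - q ^ (j + 1)‖| ≤ DD N q := by
  have hN1 : (2 : ℝ) ≤ N := by exact_mod_cast hN
  have hN0 : (0 : ℝ) < N := by linarith
  have hqn : ‖q‖ = 1 := hq.norm'_eq_one (by omega)
  have hps := prim_sum (by omega : 1 ≤ N) hq
  set s : ℝ := 1 / (N : ℝ) ^ 2 with hs
  have hs0 : 0 < s := by positivity
  have hs1 : s ≤ 1 := by rw [hs, div_le_one (by positivity)]; nlinarith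
  have hlogN : Real.log N ≤ N - 1 := Real.log_le_sub_one_of_pos hN0
  have hlog0 : 0 ≤ Real.log N := Real.log_nonneg (by linarith)
  have hne : ∀ j, 0 < j → j < N → q ^ j ≠ 1 := fun j h1 h2 => hq.pow_ne_one_of_pos_of_lt h1.ne' h2
  have hpos : ∀ j, 0 < j → j < N → 0 < ‖(1 : ℂ) - q ^ j‖ := by
    intro j h1 h2
    rw [norm_pos_iff]
    exact sub_ne_zero.2 (hne j h1 h2).symm
  have hinv : ∀ j < N, ‖(1 : ℂ) - q ^ j‖⁻¹ ≤ N ^ 2 / 2 := by
    intro j hj
    have h1 : ‖(1 : ℂ) - q ^ j‖⁻¹ ≤ ∑ b ∈ range N, ‖(1 : ℂ) - q ^ b‖⁻¹ :=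
      Finset.single_le_sum (f := fun b => ‖(1 : ℂ) - q ^ b‖⁻¹) (fun b _ => by positivity)
        (Finset.mem_range.2 hj)
    have h2 : (N : ℝ) / 2 * (1 + Real.log N) ≤ N / 2 * N := by
      apply mul_le_mul_of_nonneg_left _ (by positivity)
      linarith
    calc _ ≤ _ := h1
      _ ≤ _ := hps
      _ ≤ _ := h2
      _ = _ := by ring
  have hlow : ∀ j, 0 < j → j < N → 2 * s ≤ ‖(1 : ℂ) - q ^ j‖ := by
    intro j h1 h2
    have h3 := hinv j h2
    have h4 := hpos j h1 h2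
    have h5 : (N ^ 2 / 2 : ℝ)⁻¹ ≤ (‖(1 : ℂ) - q ^ j‖⁻¹)⁻¹ := inv_anti₀ (by positivity) h3
    rw [inv_inv] at h5
    have h6 : (N ^ 2 / 2 : ℝ)⁻¹ = 2 * s := by rw [hs]; field_simp
    linarith
  -- first step: move to radius r
  have hstep1 : |∑ j ∈ range m, Real.log ‖(1 : ℂ) - q ^ (j + 1)‖ -
      ∑ j ∈ range m, Real.log ‖(1 : ℂ) - ((1 - s : ℝ) : ℂ) * q ^ (j + 1)‖| ≤ 1 := by
    rw [← Finset.sum_sub_distrib]
    refine (Finset.abs_sum_le_sum_abs _ _).trans ?_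
    have h1 : ∀ j ∈ range m, |Real.log ‖(1 : ℂ) - q ^ (j + 1)‖ -
        Real.log ‖(1 : ℂ) - ((1 - s : ℝ) : ℂ) * q ^ (j + 1)‖| ≤
        2 * s * ‖(1 : ℂ) - q ^ (j + 1)‖⁻¹ := by
      intro j hj
      rw [Finset.mem_range] at hj
      exact log_move (by rw [norm_pow, hqn, one_pow]) hs0.le
        (hlow (j + 1) (by omega) (by omega)) (hpos (j + 1) (by omega) (by omega))
    refine (Finset.sum_le_sum h1).trans ?_
    rw [← Finset.mul_sum]
    have h2 : ∑ j ∈ range m, ‖(1 : ℂ) - q ^ (j + 1)‖⁻¹ ≤ ∑ b ∈ range N, ‖(1 : ℂ) - q ^ b‖⁻¹ := by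
      have e : ∑ j ∈ range m, ‖(1 : ℂ) - q ^ (j + 1)‖⁻¹ = ∑ b ∈ Ico 1 (m + 1), ‖(1 : ℂ) - q ^ b‖⁻¹ := by
        rw [Finset.sum_Ico_eq_sum_range]
        simp only [Nat.add_sub_cancel, add_comm 1]
      rw [e]
      apply Finset.sum_le_sum_of_subset_of_nonneg
      · intro b hb
        rw [Finset.mem_Ico] at hb
        rw [Finset.mem_range]
        omega
      · intro b _ _
        positivity
    calc 2 * s * ∑ j ∈ range m, ‖(1 : ℂ) - q ^ (j + 1)‖⁻¹
        ≤ 2 * s * (N / 2 * (1 + Real.log N)) := by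
          apply mul_le_mul_of_nonneg_left (h2.trans hps) (by positivity)
      _ ≤ 2 * s * (N / 2 * N) := by
          apply mul_le_mul_of_nonneg_left _ (by positivity)
          apply mul_le_mul_of_nonneg_left _ (by positivity)
          linarith
      _ = 1 := by rw [hs]; field_simp
  -- second step: the series
  have hr0 : (0 : ℝ) ≤ 1 - s := by linarith
  have hr1 : (1 - s : ℝ) < 1 := by linarith
  have hgap := pow_gap (by omega : 1 ≤ N)
  have hx0 : (0 : ℝ) ≤ (1 - s) ^ N := pow_nonneg hr0 N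
  have hlogx : -Real.log (1 - (1 - s) ^ N) ≤ Real.log (2 * N) := by
    have h1 : Real.log (1 / (2 * (N : ℝ))) ≤ Real.log (1 - (1 - s) ^ N) :=
      Real.log_le_log (by positivity) hgap.2
    rw [one_div, Real.log_inv] at h1
    linarith
  have hbper : ∀ i j, bb N q (j * N + i) = bb N q i := by
    intro i j
    unfold bb
    have : q ^ (j * N + i) = q ^ i := by
      rw [pow_add, mul_comm j N, pow_mul, hq.pow_eq_one, one_pow, one_mul]
    rw [this]
  have hbsum : (∑ i ∈ range N, bb N q i) / N ≤ 2 + Real.log N := by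
    rw [div_le_iff₀ hN0]
    unfold bb
    rw [Finset.sum_add_distrib, ← Finset.mul_sum]
    have h1 : ∑ i ∈ range N, (if q ^ i = 1 then (N : ℝ) else 0) = N := by
      rw [Finset.sum_eq_single 0]
      · simp
      · intro b hb hb0
        rw [Finset.mem_range] at hb
        rw [if_neg (hne b (Nat.pos_of_ne_zero hb0) hb)]
      · intro h
        exact absurd (Finset.mem_range.2 (by omega)) h
    rw [h1]
    nlinarith
  have hfirst : ∑ h ∈ range N, (1 - s) ^ h / h * bb N q h ≤ EE N q := by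
    unfold EE
    apply Finset.sum_le_sum
    intro h hh
    rw [Finset.mem_range] at hh
    rcases Nat.eq_zero_or_pos h with h0 | h0
    · subst h0; simp
    · unfold bb
      rw [if_neg (hne h h0 hh), zero_add]
      have h3 : (1 - s) ^ h ≤ 1 := pow_le_one₀ hr0 hr1.le
      have h4 : (0 : ℝ) < h := by exact_mod_cast h0
      calc (1 - s) ^ h / (h : ℝ) * (2 * ‖(1 : ℂ) - q ^ h‖⁻¹) ≤ 1 / h * (2 * ‖(1 : ℂ) - q ^ h‖⁻¹) := by
            apply mul_le_mul_of_nonneg_right _ (by positivity)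
            apply div_le_div_of_nonneg_right h3 h4.le
        _ = 2 / (h : ℝ) * ‖(1 : ℂ) - q ^ h‖⁻¹ := by ring
  have hpart : ∀ n : ℕ, ∑ h ∈ range n, (1 - s) ^ h / h * bb N q h ≤
      EE N q + (2 + Real.log N) * Real.log (2 * N) := by
    intro n
    have h1 : ∑ h ∈ range n, (1 - s) ^ h / h * bb N q h ≤
        ∑ h ∈ range ((n + 1) * N), (1 - s) ^ h / h * bb N q h := by
      apply Finset.sum_le_sum_of_subset_of_nonneg
      · intro x hx
        rw [Finset.mem_range] at hx ⊢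
        nlinarith
      · intro i _ _
        exact mul_nonneg (div_nonneg (pow_nonneg hr0 _) (Nat.cast_nonneg _)) (bb_nonneg _ _ _)
    refine h1.trans ((block_sum (by omega) hr0 hr1.le (bb_nonneg N q) hbper n).trans ?_)
    apply add_le_add hfirst
    have h2 := log_series_le hx0 hgap.1 n
    calc (∑ i ∈ range N, bb N q i) / N * ∑ j ∈ range (n + 1), ((1 - s) ^ N) ^ j / (j : ℝ)
        ≤ (2 + Real.log N) * ∑ j ∈ range (n + 1), ((1 - s) ^ N) ^ j / (j : ℝ) := by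
          apply mul_le_mul_of_nonneg_right hbsum
          exact Finset.sum_nonneg (fun j _ => by positivity)
      _ ≤ (2 + Real.log N) * Real.log (2 * N) := by
          apply mul_le_mul_of_nonneg_left _ (by linarith)
          exact h2.trans hlogx
  have hstep2 : |∑ j ∈ range m, Real.log ‖(1 : ℂ) - ((1 - s : ℝ) : ℂ) * q ^ (j + 1)‖| ≤
      EE N q + (2 + Real.log N) * Real.log (2 * N) := by
    have hz : ∀ j ∈ range m, HasSum (fun h : ℕ => (((1 - s : ℝ) : ℂ) * q ^ (j + 1)) ^ h / h)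
        (-Complex.log (1 - ((1 - s : ℝ) : ℂ) * q ^ (j + 1))) := by
      intro j _
      apply Complex.hasSum_taylorSeries_neg_log
      rw [norm_mul, norm_pow, hqn, one_pow, mul_one, Complex.norm_real, Real.norm_eq_abs,
        abs_of_nonneg hr0]
      exact hr1
    have hsum := hasSum_sum hz
    have hre : |∑ j ∈ range m, Real.log ‖(1 : ℂ) - ((1 - s : ℝ) : ℂ) * q ^ (j + 1)‖| ≤
        ‖∑ j ∈ range m, (-Complex.log (1 - ((1 - s : ℝ) : ℂ) * q ^ (j + 1)))‖ := by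
      refine le_trans (le_of_eq ?_) (Complex.abs_re_le_norm _)
      rw [Complex.re_sum]
      simp only [Complex.neg_re, Complex.log_re]
      rw [Finset.sum_neg_distrib, abs_neg]
    refine hre.trans ?_
    have htend := (hsum.tendsto_sum_nat).norm
    refine le_of_tendsto htend (Filter.Eventually.of_forall fun n => ?_)
    refine le_trans ?_ (hpart n)
    refine (norm_sum_le _ _).trans ?_
    apply Finset.sum_le_sum
    intro h _
    have e : ∑ i ∈ range m, (((1 - s : ℝ) : ℂ) * q ^ (i + 1)) ^ h / (h : ℂ) =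
        (((1 - s : ℝ) : ℂ) ^ h / h) * ∑ i ∈ range m, (q ^ (i + 1)) ^ h := by
      rw [Finset.mul_sum]
      apply Finset.sum_congr rfl
      intro i _
      rw [mul_pow]; ring
    rw [e, norm_mul, norm_div, norm_pow, Complex.norm_real, Real.norm_eq_abs,
      abs_of_nonneg hr0, Complex.norm_natCast]
    apply mul_le_mul_of_nonneg_left (char_sum hqn hm.le h)
    exact div_nonneg (pow_nonneg hr0 _) (Nat.cast_nonneg _)
  have h1 := abs_le.1 hstep1
  have h2 := abs_le.1 hstep2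
  unfold DD
  rw [abs_le]
  constructor <;> linarith [h1.1, h1.2, h2.1, h2.2]

theorem fac_DD {N : ℕ} (hN : 2 ≤ N) {v : ℂ} (hv : IsPrimitiveRoot v (2 * N)) :
    Fac N v (DD N (v ^ 2)) := by
  have hvn : ‖v‖ = 1 := hv.norm'_eq_one (by omega)
  have hq : IsPrimitiveRoot (v ^ 2) N := hv.pow (by omega) rfl
  refine ⟨hvn, fun m hm => ?_⟩
  have hpos : 0 < ‖brf v m‖ := by
    rw [norm_brf hvn]
    apply Finset.prod_pos
    intro j hj
    rw [Finset.mem_range] at hj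
    rw [norm_pos_iff]
    exact sub_ne_zero.2 (hq.pow_ne_one_of_pos_of_lt (by omega) (by omega)).symm
  have hlog : Real.log ‖brf v m‖ = ∑ j ∈ range m, Real.log ‖(1 : ℂ) - (v ^ 2) ^ (j + 1)‖ := by
    rw [norm_brf hvn, Real.log_prod]
    intro j hj
    rw [Finset.mem_range] at hj
    rw [Ne, norm_eq_zero]
    exact sub_ne_zero.2 (hq.pow_ne_one_of_pos_of_lt (by omega) (by omega)).symm
  have h1 := abs_le.1 (log_fac hN hq hm)
  rw [← hlog] at h1
  constructor
  · rw [← Real.le_log_iff_exp_le hpos]; exact h1.1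
  · rw [← Real.log_le_iff_le_exp hpos]; exact h1.2

end Pool.Agent.Q79.KV
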