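import Mathlib
import Pool.Agent.Q79.KvD
import Pool.Agent.Q79.KvG

set_option autoImplicit false

open Finset

namespace Pool.Agent.Q79.KV

/-! ### Summation over the Galois conjugates -/

theorem totient_two_mul_le (N : ℕ) : Nat.totient (2 * N) ≤ N := by
  induction N using Nat.strong_induction_on with
  | _ N ih =>
    rcases Nat.even_or_odd N with h | h
    · rcases Nat.eq_zero_or_pos N with h0 | h0
      · subst h0; simp
      · obtain ⟨m, hm⟩ := h
        rw [Nat.totient_two_mul_of_even ⟨m, hm⟩]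
        have e : N = 2 * m := by omega
        have := ih m (by omega)
        rw [e]
        omega
    · rw [Nat.totient_two_mul_of_odd h]
      exact Nat.totient_le N

theorem sum_EE {N : ℕ} (hN : 2 ≤ N) :
    ∑ v ∈ primitiveRoots (2 * N) ℂ, EE N (v ^ 2) ≤
      2 * N * (1 + Real.log (2 * N)) * (1 + Real.log N) := by
  have hN0 : (0 : ℝ) < N := by exact_mod_cast (by omega : 0 < N)
  unfold EE
  rw [Finset.sum_comm]
  have h1 : ∀ h ∈ range N, ∑ v ∈ primitiveRoots (2 * N) ℂ, 2 / (h : ℝ) * ‖(1 : ℂ) - (v ^ 2) ^ h‖⁻¹ ≤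
      2 / (h : ℝ) * (N * (1 + Real.log (2 * N))) := by
    intro h _
    rw [← Finset.mul_sum]
    apply mul_le_mul_of_nonneg_left _ (by positivity)
    have h2 := sum_over_prim (m := 2 * N) (e := 2 * h) (by omega)
    simp only [pow_mul] at h2
    refine h2.trans (le_of_eq ?_)
    push_cast
    ring
  refine (Finset.sum_le_sum h1).trans ?_
  rw [← Finset.sum_mul]
  have h3 : ∑ i ∈ range N, 2 / (i : ℝ) ≤ 2 * (1 + Real.log N) := by
    rw [Finset.range_eq_Ico, Finset.sum_eq_sum_Ico_succ_bot (by omega)]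
    have h4 := harm_le N (by omega)
    have h5 : ∑ k ∈ Ico (0 + 1) N, 2 / (k : ℝ) = 2 * ∑ b ∈ Ico 1 N, (1 : ℝ) / b := by
      rw [Finset.mul_sum]
      apply Finset.sum_congr rfl
      intro i _
      ring
    rw [h5]
    simp only [Nat.cast_zero, div_zero, zero_add]
    linarith
  have h6 : 0 ≤ (N : ℝ) * (1 + Real.log (2 * N)) := by
    have : 0 ≤ Real.log (2 * N) := Real.log_nonneg (by
      have : (2 : ℝ) ≤ N := by exact_mod_cast hN
      linarith)
    positivity
  calc _ ≤ 2 * (1 + Real.log N) * (N * (1 + Real.log (2 * N))) := mul_le_mul_of_nonneg_right h3 h6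
    _ = _ := by ring

theorem log_ge {N : ℕ} (hN : 2 ≤ N) : (0.693 : ℝ) ≤ Real.log N := by
  have h1 : Real.log 2 ≤ Real.log N := Real.log_le_log (by norm_num) (by exact_mod_cast hN)
  have h2 := Real.log_two_gt_d9
  linarith

theorem sum_DD {N : ℕ} (hN : 2 ≤ N) :
    ∑ v ∈ primitiveRoots (2 * N) ℂ, DD N (v ^ 2) ≤ 27 * N * (Real.log N) ^ 2 := by
  have hN0 : (0 : ℝ) < N := by exact_mod_cast (by omega : 0 < N)
  have hL := log_ge hN
  set L := Real.log N with hLd
  have h2L : Real.log (2 * N) ≤ 2 * L := by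
    have h1 : Real.log 2 ≤ L := by
      rw [hLd]
      exact Real.log_le_log (by norm_num) (by exact_mod_cast hN)
    rw [Real.log_mul (by norm_num) hN0.ne']
    linarith
  have h0 : 0 ≤ Real.log (2 * N) := Real.log_nonneg (by
      have : (2 : ℝ) ≤ N := by exact_mod_cast hN
      linarith)
  have hE := sum_EE hN
  have hc : ((primitiveRoots (2 * N) ℂ).card : ℝ) ≤ N := by
    rw [Complex.card_primitiveRoots]
    exact_mod_cast totient_two_mul_le N
  have e : ∑ v ∈ primitiveRoots (2 * N) ℂ, DD N (v ^ 2) =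
      (primitiveRoots (2 * N) ℂ).card * (1 + (2 + L) * Real.log (2 * N)) +
        ∑ v ∈ primitiveRoots (2 * N) ℂ, EE N (v ^ 2) := by
    unfold DD
    rw [Finset.sum_add_distrib, Finset.sum_add_distrib, Finset.sum_const, Finset.sum_const]
    simp only [nsmul_eq_mul]
    ring
  rw [e]
  have h1 : ((primitiveRoots (2 * N) ℂ).card : ℝ) * (1 + (2 + L) * Real.log (2 * N)) ≤
      N * (1 + (2 + L) * (2 * L)) := by
    apply mul_le_mul hc _ (by positivity) hN0.le
    have : (2 + L) * Real.log (2 * N) ≤ (2 + L) * (2 * L) :=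
      mul_le_mul_of_nonneg_left h2L (by linarith)
    linarith
  have h2 : 2 * N * (1 + Real.log (2 * N)) * (1 + L) ≤ 2 * N * (1 + 2 * L) * (1 + L) := by
    apply mul_le_mul_of_nonneg_right _ (by linarith)
    apply mul_le_mul_of_nonneg_left _ (by positivity)
    linarith
  have h3 : 1 + (2 + L) * (2 * L) + 2 * (1 + 2 * L) * (1 + L) ≤ 27 * L ^ 2 := by nlinarith
  calc _ ≤ N * (1 + (2 + L) * (2 * L)) + 2 * N * (1 + 2 * L) * (1 + L) :=
        add_le_add h1 (hE.trans h2)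
    _ = N * (1 + (2 + L) * (2 * L) + 2 * (1 + 2 * L) * (1 + L)) := by ring
    _ ≤ N * (27 * L ^ 2) := mul_le_mul_of_nonneg_left h3 hN0.le
    _ = _ := by ring

theorem DD_nonneg {N : ℕ} (hN : 2 ≤ N) (q : ℂ) : 0 ≤ DD N q := by
  have hL := log_ge hN
  have h0 : 0 ≤ Real.log (2 * N) := Real.log_nonneg (by
      have : (2 : ℝ) ≤ N := by exact_mod_cast hN
      linarith)
  have := EE_nonneg N q
  unfold DD
  have h1 : 0 ≤ (2 + Real.log N) * Real.log (2 * N) := mul_nonneg (by linarith) h0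
  linarith

theorem max_log_le {x B : ℝ} (hx : 0 ≤ x) (hB : 0 ≤ B) (h : x ≤ Real.exp B) :
    max 0 (Real.log x) ≤ B := by
  rcases hx.eq_or_lt with h0 | h0
  · rw [← h0]; simpa using hB
  · exact max_le hB ((Real.log_le_iff_le_exp h0).2 h)

/-- The sum of the positive parts. -/
theorem sum_plus {N M : ℕ} (hN : 2 ≤ N) (hM0 : 0 < M) (hM : M ≤ N) (n : ℕ)
    (w : List (ℕ × Bool)) :
    ∑ v ∈ primitiveRoots (2 * N) ℂ, max 0 (Real.log ‖cjones M n w v‖) ≤
      137 * (n + w.length) * N * (Real.log N) ^ 2 := by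
  have hN0 : (0 : ℝ) < N := by exact_mod_cast (by omega : 0 < N)
  have hL := log_ge hN
  have hM1 : (1 : ℝ) ≤ M := by exact_mod_cast hM0
  have hMN : (M : ℝ) ≤ N := by exact_mod_cast hM
  have hlogM : Real.log M ≤ Real.log N := Real.log_le_log (by linarith) hMN
  have hc : ((primitiveRoots (2 * N) ℂ).card : ℝ) ≤ N := by
    rw [Complex.card_primitiveRoots]
    exact_mod_cast totient_two_mul_le N
  have h1 : ∀ v ∈ primitiveRoots (2 * N) ℂ, max 0 (Real.log ‖cjones M n w v‖) ≤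
      (n + w.length) * Real.log N + 5 * w.length * DD N (v ^ 2) := by
    intro v hv
    rw [mem_primitiveRoots (by omega)] at hv
    have hD := DD_nonneg hN (v ^ 2)
    have h2 := cjones_le hD (fac_DD hN hv) hM0 hM n w
    apply max_log_le (norm_nonneg _) (by positivity)
    refine h2.trans ?_
    rw [Real.exp_add]
    apply mul_le_mul _ (le_of_eq (by congr 1; ring)) (Real.exp_pos _).le (Real.exp_pos _).le
    have h3 : (M : ℝ) ^ (n + w.length) = Real.exp (((n + w.length : ℕ) : ℝ) * Real.log M) := by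
      rw [Real.exp_nat_mul, Real.exp_log (by linarith)]
    rw [h3]
    apply Real.exp_le_exp.2
    push_cast
    apply mul_le_mul_of_nonneg_left hlogM (by positivity)
  refine (Finset.sum_le_sum h1).trans ?_
  rw [Finset.sum_add_distrib, Finset.sum_const, ← Finset.mul_sum, nsmul_eq_mul]
  have h4 := sum_DD hN
  set L := Real.log N with hLd
  have h5 : ((primitiveRoots (2 * N) ℂ).card : ℝ) * ((n + w.length) * L) ≤
      N * ((n + w.length) * (2 * L ^ 2)) := by
    apply mul_le_mul hc _ (by positivity) hN0.le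
    apply mul_le_mul_of_nonneg_left _ (by positivity)
    nlinarith
  have h6 : 5 * (w.length : ℝ) * ∑ v ∈ primitiveRoots (2 * N) ℂ, DD N (v ^ 2) ≤
      5 * w.length * (27 * N * L ^ 2) := mul_le_mul_of_nonneg_left h4 (by positivity)
  have h7 : 5 * (w.length : ℝ) * (27 * N * L ^ 2) ≤ 5 * (n + w.length) * (27 * N * L ^ 2) := by
    apply mul_le_mul_of_nonneg_right _ (by positivity)
    have : (0 : ℝ) ≤ n := Nat.cast_nonneg n
    linarith
  calc _ ≤ N * ((n + w.length) * (2 * L ^ 2)) + 5 * (n + w.length) * (27 * N * L ^ 2) :=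
        add_le_add h5 (h6.trans h7)
    _ = _ := by ring

theorem br_ne {N : ℕ} {v : ℂ} (hv : IsPrimitiveRoot v (2 * N)) (hN : 0 < N) {k : ℕ} (hk : 0 < k)
    (hkN : k < N) : br v k ≠ 0 := by
  have hvn : ‖v‖ = 1 := hv.norm'_eq_one (by omega)
  have hq : IsPrimitiveRoot (v ^ 2) N := hv.pow (by omega) rfl
  rw [← norm_ne_zero_iff, norm_br hvn, norm_ne_zero_iff]
  exact sub_ne_zero.2 (hq.pow_ne_one_of_pos_of_lt hk.ne' hkN).symm

theorem cjones_eq_aeval {N M n : ℕ} (hN : 0 < N) (hM : M ≤ N) {w : List (ℕ × Bool)}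
    {P : Polynomial ℤ} (hP : ∀ (S : Type) [CommRing S] (u : Sˣ), u ^ (2 * N) = 1 →
      cj M n w u = P.eval₂ (Int.castRingHom S) (u : S))
    {v : ℂ} (hv : IsPrimitiveRoot v (2 * N)) :
    cjones M n w v = Polynomial.aeval v P := by
  have hv0 : v ≠ 0 := hv.ne_zero (by omega)
  rw [← cj_eq hv0 (fun k h1 h2 => br_ne hv hN h1 (by omega)) n w]
  rw [hP ℂ (Units.mk0 v hv0) (by
    ext
    rw [Units.val_pow_eq_pow_val, Units.val_mk0, hv.pow_eq_one, Units.val_one])]
  rfl

/-- Prime powers: non-vanishing and the product over the conjugates. -/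
theorem prime_power {M n : ℕ} (hM0 : 0 < M) {w : List (ℕ × Bool)} (hw : IsKnot n w) {p k : ℕ}
    (hp : p.Prime) (hk : 0 < k) (hM : M ≤ p ^ k) :
    (∀ v ∈ primitiveRoots (2 * p ^ k) ℂ, cjones M n w v ≠ 0) ∧
      0 ≤ ∑ v ∈ primitiveRoots (2 * p ^ k) ℂ, Real.log ‖cjones M n w v‖ := by
  have hpos : 0 < p ^ k := pow_pos hp.pos k
  obtain ⟨P, hP⟩ := exists_poly M n w (m := 2 * p ^ k) (by omega)
  have hne : ∀ v ∈ primitiveRoots (2 * p ^ k) ℂ, cjones M n w v ≠ 0 := by
    intro v hv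
    rw [mem_primitiveRoots (by omega)] at hv
    rw [cjones_eq_aeval hpos hM hP hv]
    exact poly_ne hM0 hw hp hk hP hv
  refine ⟨hne, ?_⟩
  have h1 := prod_norm hM0 hw hp hk hP
  have h2 : ∏ v ∈ primitiveRoots (2 * p ^ k) ℂ, ‖Polynomial.aeval v P‖ =
      ∏ v ∈ primitiveRoots (2 * p ^ k) ℂ, ‖cjones M n w v‖ := by
    apply Finset.prod_congr rfl
    intro v hv
    rw [mem_primitiveRoots (by omega)] at hv
    rw [cjones_eq_aeval hpos hM hP hv]
  rw [h2] at h1
  rw [← Real.log_prod (fun v hv => norm_ne_zero_iff.2 (hne v hv))]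
  exact Real.log_nonneg h1

theorem abs_log_eq (x : ℝ) : |x| = 2 * max 0 x - x := by
  rcases le_total 0 x with h | h
  · rw [abs_of_nonneg h, max_eq_right h]; ring
  · rw [abs_of_nonpos h, max_eq_left h]; ring

/-- Prime powers: the mean of the absolute value of the logarithm. -/
theorem prime_power_sum {M n : ℕ} (hM0 : 0 < M) {w : List (ℕ × Bool)} (hw : IsKnot n w) {p k : ℕ}
    (hp : p.Prime) (hk : 0 < k) (hM : M ≤ p ^ k) :
    ∑ v ∈ primitiveRoots (2 * p ^ k) ℂ, |Real.log ‖cjones M n w v‖| ≤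
      274 * (n + w.length) * (p ^ k : ℕ) * (Real.log (p ^ k : ℕ)) ^ 2 := by
  have hN : 2 ≤ p ^ k := le_trans hp.two_le (Nat.le_self_pow hk.ne' p)
  have h1 := sum_plus hN hM0 hM n w
  have h2 := (prime_power hM0 hw hp hk hM).2
  simp only [abs_log_eq]
  rw [Finset.sum_sub_distrib, ← Finset.mul_sum]
  linarith

theorem prime_power_low {M n : ℕ} (hM0 : 0 < M) {w : List (ℕ × Bool)} (hw : IsKnot n w) {p k : ℕ}
    (hp : p.Prime) (hk : 0 < k) (hM : M ≤ p ^ k) {v : ℂ} (hv : IsPrimitiveRoot v (2 * p ^ k)) :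
    Real.exp (-(137 * (n + w.length) * (p ^ k : ℕ) * (Real.log (p ^ k : ℕ)) ^ 2)) ≤
      ‖cjones M n w v‖ := by
  have hN : 2 ≤ p ^ k := le_trans hp.two_le (Nat.le_self_pow hk.ne' p)
  have hv' : v ∈ primitiveRoots (2 * p ^ k) ℂ := by
    rw [mem_primitiveRoots (by omega)]; exact hv
  have h0 := (prime_power hM0 hw hp hk hM).1 v hv'
  have h1 := sum_plus hN hM0 hM n w
  have h2 := (prime_power hM0 hw hp hk hM).2
  have hpos : 0 < ‖cjones M n w v‖ := norm_pos_iff.2 h0
  rw [← Real.le_log_iff_exp_le hpos]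
  -- log = max - (max - log)
  have h3 : max 0 (Real.log ‖cjones M n w v‖) - Real.log ‖cjones M n w v‖ ≤
      ∑ u ∈ primitiveRoots (2 * p ^ k) ℂ,
        (max 0 (Real.log ‖cjones M n w u‖) - Real.log ‖cjones M n w u‖) :=
    Finset.single_le_sum (f := fun u => max 0 (Real.log ‖cjones M n w u‖) -
      Real.log ‖cjones M n w u‖) (fun u _ => sub_nonneg.2 (le_max_right _ _)) hv'
  rw [Finset.sum_sub_distrib] at h3
  have h4 : 0 ≤ max 0 (Real.log ‖cjones M n w v‖) := le_max_left _ _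
  linarith

/-- The number of exceptional conjugates. -/
theorem prime_power_count {M n : ℕ} (hM0 : 0 < M) {w : List (ℕ × Bool)} (hw : IsKnot n w)
    {p k : ℕ} (hp : p.Prime) (hk : 0 < k) (hM : M ≤ p ^ k) {ε : ℝ} (hε : 0 < ε) :
    (Nat.card {v : ℂ // IsPrimitiveRoot v (2 * p ^ k) ∧
      ε * (p ^ k : ℕ) ≤ |Real.log ‖cjones M n w v‖|} : ℝ) ≤
      274 * (n + w.length) * (Real.log (p ^ k : ℕ)) ^ 2 / ε := by
  classical
  have hpos : 0 < p ^ k := pow_pos hp.pos k
  have hN0 : (0 : ℝ) < (p ^ k : ℕ) := by exact_mod_cast hpos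
  set T := (primitiveRoots (2 * p ^ k) ℂ).filter
    (fun v => ε * (p ^ k : ℕ) ≤ |Real.log ‖cjones M n w v‖|) with hT
  have hcard : Nat.card {v : ℂ // IsPrimitiveRoot v (2 * p ^ k) ∧
      ε * (p ^ k : ℕ) ≤ |Real.log ‖cjones M n w v‖|} = T.card := by
    apply Nat.subtype_card
    intro v
    rw [hT, Finset.mem_filter, mem_primitiveRoots (by omega)]
  rw [hcard, le_div_iff₀ hε]
  have h1 := prime_power_sum hM0 hw hp hk hM
  have h2 : (T.card : ℝ) * (ε * (p ^ k : ℕ)) ≤ ∑ v ∈ T, |Real.log ‖cjones M n w v‖| := by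
    rw [← nsmul_eq_mul]
    apply Finset.card_nsmul_le_sum
    intro v hv
    rw [hT, Finset.mem_filter] at hv
    exact hv.2
  have h3 : ∑ v ∈ T, |Real.log ‖cjones M n w v‖| ≤
      ∑ v ∈ primitiveRoots (2 * p ^ k) ℂ, |Real.log ‖cjones M n w v‖| :=
    Finset.sum_le_sum_of_subset_of_nonneg (Finset.filter_subset _ _) (fun _ _ _ => abs_nonneg _)
  have h4 := (h2.trans h3).trans h1
  have h5 : (T.card : ℝ) * ε * (p ^ k : ℕ) ≤
      (274 * (n + w.length) * (Real.log (p ^ k : ℕ)) ^ 2) * (p ^ k : ℕ) := by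
    calc _ = (T.card : ℝ) * (ε * (p ^ k : ℕ)) := by ring
      _ ≤ _ := h4
      _ = _ := by ring
  exact le_of_mul_le_mul_right h5 hN0

theorem half_le {p k : ℕ} (hp : p.Prime) (hk : 0 < k) :
    ((p ^ k : ℕ) : ℝ) / 2 ≤ (primitiveRoots (2 * p ^ k) ℂ).card := by
  rw [Complex.card_primitiveRoots]
  have h1 : p ^ k ≤ 2 * Nat.totient (2 * p ^ k) := by
    obtain ⟨m, rfl⟩ : ∃ m, k = m + 1 := ⟨k - 1, by omega⟩
    have h2 : p ^ (m + 1) ≤ 2 * Nat.totient (p ^ (m + 1)) := by
      rw [Nat.totient_prime_pow hp (by omega), Nat.add_sub_cancel, pow_succ, mul_comm 2, mul_assoc]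
      apply Nat.mul_le_mul_left
      have := hp.two_le
      omega
    refine h2.trans (Nat.mul_le_mul_left 2 ?_)
    rcases Nat.even_or_odd (p ^ (m + 1)) with h | h
    · rw [Nat.totient_two_mul_of_even h]; omega
    · rw [Nat.totient_two_mul_of_odd h]
  have h3 : ((p ^ k : ℕ) : ℝ) ≤ 2 * (Nat.totient (2 * p ^ k) : ℝ) := by exact_mod_cast h1
  linarith

end Pool.Agent.Q79.KV
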