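import Mathlib
import Pool.Agent.Q79.KvH

set_option autoImplicit false

open Finset Polynomial

namespace Pool.Agent.Q79.KV

/-! ### The product over the conjugates for an arbitrary order -/

theorem all_ne {m : ℕ} (hm : 0 < m) {P : ℤ[X]} {v0 : ℂ} (hv0 : IsPrimitiveRoot v0 m)
    (h0 : aeval v0 P ≠ 0) {F : Type} [Field F] [CharZero F] {v : F} (hv : IsPrimitiveRoot v m) :
    aeval v P ≠ 0 := by
  intro h
  have hint : IsIntegral ℤ v := hv.isIntegral hm
  have h1 := minpoly.isIntegrallyClosed_dvd hint h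
  rw [← cyclotomic_eq_minpoly hv hm] at h1
  obtain ⟨Q, hQ⟩ := h1
  apply h0
  rw [hQ, map_mul]
  have i1 : NeZero ((m : ℕ) : ℂ) := ⟨by exact_mod_cast hm.ne'⟩
  have h2 : aeval v0 (cyclotomic m ℤ) = 0 := by
    rw [aeval_def, ← eval_map, algebraMap_int_eq, map_cyclotomic]
    exact (isRoot_cyclotomic_iff (R := ℂ)).2 hv0
  rw [h2, zero_mul]

theorem prod_norm_gen {m : ℕ} (hpos : 0 < m) {P : ℤ[X]} {v0 : ℂ} (hv0 : IsPrimitiveRoot v0 m)
    (h0 : aeval v0 P ≠ 0) :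
    1 ≤ ∏ v ∈ primitiveRoots m ℂ, ‖aeval v P‖ := by
  have i1 : NeZero m := ⟨hpos.ne'⟩
  have i2 : NeZero ((m : ℕ) : ℚ) := ⟨by exact_mod_cast hpos.ne'⟩
  have i3 : IsCyclotomicExtension {m} ℚ (CyclotomicField m ℚ) :=
    CyclotomicField.isCyclotomicExtension _ _
  let K := CyclotomicField m ℚ
  have i4 : IsCyclotomicExtension {m} ℚ K := i3
  set ζ : K := IsCyclotomicExtension.zeta m ℚ K with hζ
  have hζp : IsPrimitiveRoot ζ m := IsCyclotomicExtension.zeta_spec _ ℚ K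
  set y : K := aeval ζ P with hy
  have hirr : Irreducible (cyclotomic m ℚ) := cyclotomic.irreducible_rat hpos
  have hyint : IsIntegral ℤ y := by
    have h1 : IsIntegral ℤ ζ := hζp.isIntegral hpos
    exact IsIntegral.of_mem_of_fg (Algebra.adjoin ℤ {ζ}) h1.fg_adjoin_singleton y
      (aeval_mem_adjoin_singleton ℤ ζ)
  have hy0 : y ≠ 0 := all_ne hpos hv0 h0 hζp
  have hnorm : Algebra.norm ℚ y ≠ 0 := by
    rw [Ne, Algebra.norm_eq_zero_iff]
    exact hy0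
  have hnint : IsIntegral ℤ (Algebra.norm ℚ y) := Algebra.isIntegral_norm ℚ hyint
  obtain ⟨z, hz⟩ := IsIntegrallyClosed.isIntegral_iff.1 hnint
  have hz0 : z ≠ 0 := by
    intro h
    apply hnorm
    rw [← hz, h]
    simp
  have hprod := Algebra.norm_eq_prod_embeddings ℚ ℂ y
  have h2 : ∏ σ : K →ₐ[ℚ] ℂ, σ y = ∏ v ∈ primitiveRoots m ℂ, aeval v P := by
    rw [← Finset.prod_coe_sort (primitiveRoots m ℂ) (fun v => aeval v P)]
    apply Fintype.prod_equiv (hζp.embeddingsEquivPrimitiveRoots ℂ hirr)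
    intro σ
    rw [hζp.embeddingsEquivPrimitiveRoots_apply_coe ℂ hirr, hy]
    rw [aeval_def, aeval_def]
    have h3 := Polynomial.hom_eval₂ P (algebraMap ℤ K) (σ : K →+* ℂ) ζ
    have h4 : (σ : K →+* ℂ).comp (algebraMap ℤ K) = algebraMap ℤ ℂ := RingHom.ext_int _ _
    rw [h4] at h3
    exact h3
  rw [← norm_prod, ← h2, ← hprod, ← hz]
  have h4 : ((algebraMap ℚ ℂ) ((algebraMap ℤ ℚ) z)) = ((z : ℤ) : ℂ) := by
    simp
  rw [h4, Complex.norm_intCast]
  exact_mod_cast Int.one_le_abs hz0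

/-! ### The distances of the roots of unity to one -/

theorem norm_ge {N b : ℕ} (hb : 0 < b) (hbN : b < N) :
    2 * (min b (N - b) : ℕ) / (N : ℝ) ≤
      ‖(1 : ℂ) - Complex.exp (2 * Real.pi * Complex.I / N) ^ b‖ := by
  rw [exp_pow_eq]
  have hN : (0 : ℝ) < N := by exact_mod_cast (hb.trans hbN)
  have h := inv_le_aux hb hbN
  set x := ‖(1 : ℂ) - Complex.exp ((2 * (Real.pi * (b / N)) : ℝ) * Complex.I)‖ with hx
  set k := min b (N - b) with hk
  have hk0 : 0 < k := by rw [hk]; apply lt_min hb; omega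
  have hkr : (0 : ℝ) < k := by exact_mod_cast hk0
  have h1 : 1 / (b : ℝ) ≤ 1 / k := by
    apply one_div_le_one_div_of_le hkr
    exact_mod_cast (min_le_left _ _)
  have h2 : 1 / ((N : ℝ) - b) ≤ 1 / k := by
    apply one_div_le_one_div_of_le hkr
    have : ((N - b : ℕ) : ℝ) = (N : ℝ) - b := Nat.cast_sub hbN.le
    rw [← this]
    exact_mod_cast (min_le_right _ _)
  have h3 : x⁻¹ ≤ N / (2 * k) := by
    calc x⁻¹ ≤ (N : ℝ) / 4 * (1 / b + 1 / (N - b)) := h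
      _ ≤ (N : ℝ) / 4 * (1 / k + 1 / k) := by
          apply mul_le_mul_of_nonneg_left (add_le_add h1 h2) (by positivity)
      _ = N / (2 * k) := by field_simp; norm_num
  have hxpos : 0 < x := by
    rw [hx, norm_one_sub_exp]
    have hx0 : 0 < Real.pi * ((b : ℝ) / N) := by
      have : (0 : ℝ) < b := by exact_mod_cast hb
      have := Real.pi_pos
      positivity
    have hx1 : Real.pi * ((b : ℝ) / N) < Real.pi := by
      have : (b : ℝ) / N < 1 := by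
        rw [div_lt_one hN]; exact_mod_cast hbN
      have := Real.pi_pos
      nlinarith
    have hs := Real.sin_pos_of_pos_of_lt_pi hx0 hx1
    rw [abs_of_pos hs]
    linarith
  have h4 := inv_anti₀ (inv_pos.2 hxpos) h3
  rw [inv_inv] at h4
  refine le_trans (le_of_eq ?_) h4
  rw [inv_div]

theorem std_sum_sq {N : ℕ} (hN : 1 ≤ N) :
    ∑ b ∈ range N, (‖(1 : ℂ) - Complex.exp (2 * Real.pi * Complex.I / N) ^ b‖⁻¹) ^ 2 ≤
      (N : ℝ) ^ 2 / 2 := by
  have hN0 : (0 : ℝ) < N := by exact_mod_cast hN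
  have hinvsq : ∑ b ∈ Ico 1 N, (1 / (b : ℝ)) ^ 2 ≤ 2 := by
    rcases Nat.lt_or_ge 1 N with h | h
    · rw [Finset.sum_eq_sum_Ico_succ_bot h]
      have h1 := sum_Ioc_inv_sq_le_sub (α := ℝ) (k := 1) (n := N - 1) one_ne_zero (by omega)
      have h2 : Ioc 1 (N - 1) = Ico (1 + 1) N := by
        ext x; rw [Finset.mem_Ioc, Finset.mem_Ico]; omega
      rw [h2] at h1
      have h3 : ∑ i ∈ Ico (1 + 1) N, ((i : ℝ) ^ 2)⁻¹ = ∑ i ∈ Ico (1 + 1) N, (1 / (i : ℝ)) ^ 2 := by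
        apply Finset.sum_congr rfl
        intro i _
        rw [one_div, inv_pow]
      rw [h3] at h1
      have h4 : (0 : ℝ) ≤ ((N - 1 : ℕ) : ℝ)⁻¹ := by positivity
      have h5 : ((1 : ℕ) : ℝ)⁻¹ = 1 := by norm_num
      rw [h5] at h1
      norm_num
      norm_num at h1
      linarith
    · rw [Finset.Ico_eq_empty (by omega)]
      norm_num
  rw [Finset.range_eq_Ico, Finset.sum_eq_sum_Ico_succ_bot (by omega)]
  rw [pow_zero, sub_self, norm_zero, inv_zero, zero_add]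
  have h0 : ((0 : ℝ)) ^ 2 = 0 := by norm_num
  rw [h0, zero_add]
  calc ∑ b ∈ Ico 1 N, (‖(1 : ℂ) - Complex.exp (2 * Real.pi * Complex.I / N) ^ b‖⁻¹) ^ 2
      ≤ ∑ b ∈ Ico 1 N, ((N : ℝ) ^ 2 / 8 * ((1 / (b : ℝ)) ^ 2 + (1 / ((N : ℝ) - b)) ^ 2)) := by
        apply Finset.sum_le_sum
        intro b hb
        rw [Finset.mem_Ico] at hb
        rw [exp_pow_eq]
        have h1 := inv_le_aux (b := b) (n := N) (by omega) hb.2
        have h2 : (‖(1 : ℂ) - Complex.exp ((2 * (Real.pi * (b / N)) : ℝ) * Complex.I)‖⁻¹) ^ 2 ≤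
            ((N : ℝ) / 4 * (1 / b + 1 / (N - b))) ^ 2 :=
          pow_le_pow_left₀ (by positivity) h1 2
        refine h2.trans ?_
        nlinarith [mul_nonneg (sq_nonneg (N : ℝ)) (sq_nonneg (1 / (b : ℝ) - 1 / ((N : ℝ) - b)))]
    _ = (N : ℝ) ^ 2 / 8 * (∑ b ∈ Ico 1 N, (1 / (b : ℝ)) ^ 2 +
          ∑ b ∈ Ico 1 N, (1 / ((N : ℝ) - b)) ^ 2) := by
        rw [← Finset.mul_sum, Finset.sum_add_distrib]
    _ = (N : ℝ) ^ 2 / 8 * (∑ b ∈ Ico 1 N, (1 / (b : ℝ)) ^ 2 + ∑ b ∈ Ico 1 N, (1 / (b : ℝ)) ^ 2) := by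
        congr 2
        apply Finset.sum_nbij' (fun b => N - b) (fun b => N - b)
        · intro b hb; rw [Finset.mem_Ico] at hb ⊢; omega
        · intro b hb; rw [Finset.mem_Ico] at hb ⊢; omega
        · intro b hb; rw [Finset.mem_Ico] at hb; omega
        · intro b hb; rw [Finset.mem_Ico] at hb; omega
        · intro b hb
          rw [Finset.mem_Ico] at hb
          rw [Nat.cast_sub (by omega)]
    _ ≤ (N : ℝ) ^ 2 / 8 * (2 + 2) := by gcongr
    _ = (N : ℝ) ^ 2 / 2 := by ring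

theorem prim_sum_sq {N : ℕ} (hN : 1 ≤ N) {ξ : ℂ} (hξ : IsPrimitiveRoot ξ N) :
    ∑ b ∈ range N, (‖(1 : ℂ) - ξ ^ b‖⁻¹) ^ 2 ≤ (N : ℝ) ^ 2 / 2 := by
  rw [sum_prim hN hξ (fun x => (‖(1 : ℂ) - x‖⁻¹) ^ 2),
    ← sum_prim hN (Complex.isPrimitiveRoot_exp N (by omega)) (fun x => (‖(1 : ℂ) - x‖⁻¹) ^ 2)]
  exact std_sum_sq hN

theorem one_add_log_le {x : ℝ} (hx : 1 ≤ x) : 1 + Real.log x ≤ 1.25 * Real.sqrt x := by
  have h0 : 0 < Real.sqrt x := Real.sqrt_pos.2 (by linarith)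
  have h1 : Real.log x = 2 * Real.log (Real.sqrt x) := by
    rw [Real.log_sqrt (by linarith)]; ring
  have h2 : Real.log (Real.sqrt x / (8 / 5)) ≤ Real.sqrt x / (8 / 5) - 1 :=
    Real.log_le_sub_one_of_pos (by positivity)
  rw [Real.log_div h0.ne' (by norm_num)] at h2
  have h3 : Real.log (8 / 5) ≤ 1 / 2 := by
    rw [Real.log_le_iff_le_exp (by norm_num)]
    have h4 : (8 / 5 : ℝ) ^ 2 ≤ Real.exp (1 / 2) ^ 2 := by
      rw [← Real.exp_nat_mul]
      have : ((2 : ℕ) : ℝ) * (1 / 2) = 1 := by norm_num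
      rw [this]
      have := Real.exp_one_gt_d9
      linarith
    exact le_of_sq_le_sq h4 (Real.exp_pos _).le
  rw [h1]
  have e : (1.25 : ℝ) * Real.sqrt x = 2 * (Real.sqrt x / (8 / 5)) := by ring
  rw [e]
  linarith

/-- The off-diagonal sum far from the roots of unity of small order. -/
theorem EE_le {N : ℕ} (hN : 2 ≤ N) {q : ℂ} (hq : IsPrimitiveRoot q N) {S : ℕ} (hS : 1 ≤ S)
    (hfar : ∀ s : ℕ, 1 ≤ s → s ≤ S → (S : ℝ) / N < ‖(1 : ℂ) - q ^ s‖) :
    EE N q ≤ 4 * N / Real.sqrt S := by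
  have hN0 : (0 : ℝ) < N := by exact_mod_cast (by omega : 0 < N)
  have hS0 : (0 : ℝ) < S := by exact_mod_cast hS
  have hS1 : (1 : ℝ) ≤ S := by exact_mod_cast hS
  have hSN : S < N := by
    by_contra h
    have h1 := hfar N (by omega) (by omega)
    rw [hq.pow_eq_one, sub_self, norm_zero] at h1
    have : (0 : ℝ) < S / N := by positivity
    linarith
  have hsq : 0 < Real.sqrt S := Real.sqrt_pos.2 hS0
  have hss : Real.sqrt S * Real.sqrt S = S := Real.mul_self_sqrt hS0.le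
  unfold EE
  have hsplit : range N = Ico 0 (S + 1) ∪ Ico (S + 1) N := by
    rw [Finset.range_eq_Ico, Finset.Ico_union_Ico_eq_Ico (by omega) (by omega)]
  rw [hsplit, Finset.sum_union (Finset.Ico_disjoint_Ico_consecutive 0 (S + 1) N)]
  have hA : ∑ h ∈ Ico 0 (S + 1), 2 / (h : ℝ) * ‖(1 : ℂ) - q ^ h‖⁻¹ ≤
      2.5 * N / Real.sqrt S := by
    rw [Finset.sum_eq_sum_Ico_succ_bot (by omega)]
    simp only [Nat.cast_zero, div_zero, zero_mul, zero_add]
    have h1 : ∀ h ∈ Ico 1 (S + 1), 2 / (h : ℝ) * ‖(1 : ℂ) - q ^ h‖⁻¹ ≤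
        (2 * (N / S)) * (1 / (h : ℝ)) := by
      intro h hh
      rw [Finset.mem_Ico] at hh
      have h2 := hfar h hh.1 (by omega)
      have h3 : ‖(1 : ℂ) - q ^ h‖⁻¹ ≤ N / S := by
        have h4 : (0 : ℝ) < S / N := by positivity
        calc ‖(1 : ℂ) - q ^ h‖⁻¹ ≤ ((S : ℝ) / N)⁻¹ := inv_anti₀ h4 h2.le
          _ = N / S := inv_div _ _
      calc 2 / (h : ℝ) * ‖(1 : ℂ) - q ^ h‖⁻¹ ≤ 2 / (h : ℝ) * (N / S) :=
            mul_le_mul_of_nonneg_left h3 (by positivity)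
        _ = _ := by ring
    refine (Finset.sum_le_sum h1).trans ?_
    rw [← Finset.mul_sum]
    have h5 : ∑ b ∈ Ico 1 (S + 1), (1 : ℝ) / b ≤ 1 + Real.log S := by
      have h6 := harmonic_le_one_add_log S
      have h7 : ((harmonic S : ℚ) : ℝ) = ∑ b ∈ Ico 1 (S + 1), (1 : ℝ) / b := by
        rw [harmonic]
        push_cast
        rw [Finset.sum_Ico_eq_sum_range]
        apply Finset.sum_congr rfl
        intro i _
        push_cast
        rw [one_div, add_comm]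
      rw [h7] at h6
      exact h6
    have h8 := one_add_log_le hS1
    calc 2 * ((N : ℝ) / S) * ∑ i ∈ Ico 1 (S + 1), 1 / (i : ℝ)
        ≤ 2 * ((N : ℝ) / S) * (1.25 * Real.sqrt S) := by
          apply mul_le_mul_of_nonneg_left (h5.trans h8) (by positivity)
      _ = 2.5 * N * (Real.sqrt S / S) := by ring
      _ = 2.5 * N * (1 / Real.sqrt S) := by
          congr 1
          rw [div_eq_div_iff hS0.ne' hsq.ne']
          linarith
      _ = _ := by ring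
  have hB : ∑ h ∈ Ico (S + 1) N, 2 / (h : ℝ) * ‖(1 : ℂ) - q ^ h‖⁻¹ ≤
      1.5 * N / Real.sqrt S := by
    have e : ∑ h ∈ Ico (S + 1) N, 2 / (h : ℝ) * ‖(1 : ℂ) - q ^ h‖⁻¹ =
        2 * ∑ h ∈ Ico (S + 1) N, 1 / (h : ℝ) * ‖(1 : ℂ) - q ^ h‖⁻¹ := by
      rw [Finset.mul_sum]
      apply Finset.sum_congr rfl
      intro i _
      ring
    rw [e]
    have hcs := Finset.sum_mul_sq_le_sq_mul_sq (Ico (S + 1) N) (fun h => 1 / (h : ℝ))
      (fun h => ‖(1 : ℂ) - q ^ h‖⁻¹)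
    have h1 : ∑ h ∈ Ico (S + 1) N, (1 / (h : ℝ)) ^ 2 ≤ 1 / (S : ℝ) := by
      have h2 := sum_Ioc_inv_sq_le_sub (α := ℝ) (k := S) (n := N - 1) (by omega) (by omega)
      have h3 : Ioc S (N - 1) = Ico (S + 1) N := by
        ext x; rw [Finset.mem_Ioc, Finset.mem_Ico]; omega
      rw [h3] at h2
      have h4 : ∑ i ∈ Ico (S + 1) N, ((i : ℝ) ^ 2)⁻¹ = ∑ i ∈ Ico (S + 1) N, (1 / (i : ℝ)) ^ 2 := by
        apply Finset.sum_congr rfl
        intro i _
        rw [one_div, inv_pow]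
      rw [h4] at h2
      have h5 : (0 : ℝ) ≤ ((N - 1 : ℕ) : ℝ)⁻¹ := by positivity
      rw [one_div]
      linarith
    have h2 : ∑ h ∈ Ico (S + 1) N, (‖(1 : ℂ) - q ^ h‖⁻¹) ^ 2 ≤ (N : ℝ) ^ 2 / 2 := by
      refine le_trans ?_ (prim_sum_sq (by omega) hq)
      apply Finset.sum_le_sum_of_subset_of_nonneg
      · intro x hx
        rw [Finset.mem_Ico] at hx
        rw [Finset.mem_range]
        omega
      · intro i _ _; positivity
    set T := ∑ h ∈ Ico (S + 1) N, 1 / (h : ℝ) * ‖(1 : ℂ) - q ^ h‖⁻¹ with hT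
    have hT0 : 0 ≤ T := Finset.sum_nonneg (fun _ _ => by positivity)
    have h3 : T ^ 2 ≤ (1 / (S : ℝ)) * ((N : ℝ) ^ 2 / 2) := by
      refine hcs.trans ?_
      apply mul_le_mul h1 h2 (Finset.sum_nonneg (fun _ _ => by positivity)) (by positivity)
    have h4 : (2 * T) ^ 2 ≤ (1.5 * N / Real.sqrt S) ^ 2 := by
      have : (1.5 * (N : ℝ) / Real.sqrt S) ^ 2 = 2.25 * N ^ 2 / S := by
        rw [div_pow, mul_pow, Real.sq_sqrt hS0.le]; norm_num
      rw [this]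
      calc (2 * T) ^ 2 = 4 * T ^ 2 := by ring
        _ ≤ 4 * ((1 / (S : ℝ)) * ((N : ℝ) ^ 2 / 2)) := by linarith
        _ = 2 * N ^ 2 / S := by ring
        _ ≤ 2.25 * N ^ 2 / S := by gcongr; norm_num
    exact le_of_sq_le_sq h4 (by positivity)
  calc _ ≤ _ := add_le_add hA hB
    _ = _ := by ring

/-- The bound of the coloured Jones polynomial far from the roots of unity of small order. -/
theorem far_bound {N M : ℕ} (hN : 2 ≤ N) (hM0 : 0 < M) (hM : M ≤ N) (n : ℕ)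
    (w : List (ℕ × Bool)) {v : ℂ} (hv : IsPrimitiveRoot v (2 * N)) {S : ℕ} (hS : 1 ≤ S)
    (hfar : ∀ s : ℕ, 1 ≤ s → s ≤ S → (S : ℝ) / N < ‖(1 : ℂ) - v ^ (2 * s)‖) :
    ‖cjones M n w v‖ ≤
      Real.exp ((n + w.length) * (20 * N / Real.sqrt S + 52 * (Real.log N) ^ 2)) := by
  have hN0 : (0 : ℝ) < N := by exact_mod_cast (by omega : 0 < N)
  have hL := log_ge hN
  have hM1 : (1 : ℝ) ≤ M := by exact_mod_cast hM0
  have hMN : (M : ℝ) ≤ N := by exact_mod_cast hM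
  have hlogM : Real.log M ≤ Real.log N := Real.log_le_log (by linarith) hMN
  have hq : IsPrimitiveRoot (v ^ 2) N := hv.pow (by omega) rfl
  have hD := DD_nonneg hN (v ^ 2)
  have h1 := cjones_le hD (fac_DD hN hv) hM0 hM n w
  refine h1.trans ?_
  have h2 := EE_le hN hq hS (fun s h3 h4 => by rw [← pow_mul]; exact hfar s h3 h4)
  have h2L : Real.log (2 * N) ≤ 2 * Real.log N := by
    have h1 : Real.log 2 ≤ Real.log N := Real.log_le_log (by norm_num) (by exact_mod_cast hN)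
    rw [Real.log_mul (by norm_num) hN0.ne']
    linarith
  have h3 : (M : ℝ) ^ (n + w.length) = Real.exp (((n + w.length : ℕ) : ℝ) * Real.log M) := by
    rw [Real.exp_nat_mul, Real.exp_log (by linarith)]
  rw [h3, ← Real.exp_add]
  apply Real.exp_le_exp.2
  set L := Real.log N with hLd
  set X := 4 * (N : ℝ) / Real.sqrt S with hX
  have hX0 : 0 ≤ X := by positivity
  have hDle : DD N (v ^ 2) ≤ X + 10 * L ^ 2 := by
    unfold DD
    have : (2 + L) * Real.log (2 * N) ≤ (2 + L) * (2 * L) :=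
      mul_le_mul_of_nonneg_left h2L (by linarith)
    nlinarith
  have hn0 : (0 : ℝ) ≤ n := Nat.cast_nonneg n
  have hl0 : (0 : ℝ) ≤ w.length := Nat.cast_nonneg _
  have e : 20 * (N : ℝ) / Real.sqrt S = 5 * X := by rw [hX]; ring
  rw [e]
  push_cast
  have h4 : ((n : ℝ) + w.length) * Real.log M ≤ ((n : ℝ) + w.length) * (2 * L ^ 2) := by
    apply mul_le_mul_of_nonneg_left _ (by positivity)
    nlinarith
  have h5 : 5 * DD N (v ^ 2) * (w.length : ℝ) ≤ 5 * (X + 10 * L ^ 2) * ((n : ℝ) + w.length) := by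
    calc 5 * DD N (v ^ 2) * (w.length : ℝ) ≤ 5 * (X + 10 * L ^ 2) * (w.length : ℝ) := by
          apply mul_le_mul_of_nonneg_right _ hl0
          linarith
      _ ≤ 5 * (X + 10 * L ^ 2) * ((n : ℝ) + w.length) := by
          apply mul_le_mul_of_nonneg_left _ (by positivity)
          linarith
  calc _ ≤ ((n : ℝ) + w.length) * (2 * L ^ 2) + 5 * (X + 10 * L ^ 2) * ((n : ℝ) + w.length) :=
        add_le_add h4 h5
    _ = _ := by ring

end Pool.Agent.Q79.KV
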