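import Mathlib
import Pool.Agent.Q79.KvC

set_option autoImplicit false

open Finset

namespace Pool.Agent.Q79.KU

open Pool.Agent.Q79.KV

/-! ### Coloured `SU(n)` state sums over a commutative ring, `n = r + 1` -/

/-- multi-indices of degree `N` in `r + 1` variables: the basis of the `N`-th symmetric power -/
abbrev St (r N : ℕ) : Type := {α : Fin (r + 1) → Fin (N + 1) // ∑ i, (α i : ℕ) = N}

/-- the exponents of a multi-index -/
def ct {r N : ℕ} (s : St r N) : Fin (r + 1) → ℕ := fun i => (s.1 i : ℕ)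

theorem ct_sum {r N : ℕ} (s : St r N) : ∑ i, ct s i = N := s.2

theorem ct_le {r N : ℕ} (s : St r N) (i : Fin (r + 1)) : ct s i ≤ N := by
  have := (s.1 i).2
  unfold ct
  omega

theorem ct_inj {r N : ℕ} {s t : St r N} (h : ∀ i, ct s i = ct t i) : s = t := by
  apply Subtype.ext
  funext i
  exact Fin.ext (h i)

/-- the highest weight vector -/
def top (r N : ℕ) : St r N :=
  ⟨fun i => if i = 0 then ⟨N, by omega⟩ else ⟨0, by omega⟩, by
    rw [Finset.sum_eq_single 0]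
    · simp
    · intro b _ hb; simp [hb]
    · intro h; exact absurd (Finset.mem_univ _) h⟩

section ring

variable {R S : Type} [CommRing R] [CommRing S]

/-- Gaussian binomial coefficients -/
def ga (t : R) : ℕ → ℕ → R
  | _, 0 => 1
  | 0, _ + 1 => 0
  | a + 1, b + 1 => ga t a b + t ^ (b + 1) * ga t a (b + 1)

/-- the exponent -/
def ex (r N : ℕ) (ε : ℤ) (α β γ κ : Fin (r + 1) → ℕ) : ℤ :=
  ((∑ i, (κ i : ℤ)) * (∑ i, (κ i : ℤ) + ε) - ∑ i, ((γ i : ℤ) - α i) ^ 2) / 2
    + (∑ i, (κ i : ℤ)) * N - ∑ i, ((κ i : ℤ) * α i + ((α i : ℤ) + κ i - γ i) * β i)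
    - ∑ i, ∑ j ∈ Ioi i, ((κ j : ℤ) * β i + ((α j : ℤ) + κ j) * ((α i : ℤ) + κ i - γ i))

/-- one summand of an entry of the crossing matrix -/
def sd (r N : ℕ) (ε : ℤ) (u : Rˣ) (α β γ δ κ : Fin (r + 1) → ℕ) : R :=
  if ∀ i, κ i ≤ β i ∧ γ i ≤ α i + κ i then
    (-1) ^ (∑ i, κ i) * (((u ^ 2) ^ ex r N ε α β γ κ : Rˣ) : R) *
      ∏ i, (ga ((u ^ 2 : Rˣ) : R) (α i + κ i) (κ i) *
        ga ((u ^ 2 : Rˣ) : R) (δ i) (α i + κ i - γ i))
  else 0

/-- the crossing matrices: positive for `ε = 1`, negative for `ε = -1` -/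
def xg (r N : ℕ) (ε : ℤ) (u : Rˣ) : Matrix (St r N × St r N) (St r N × St r N) R :=
  fun p q => if ∀ i, ct p.1 i + ct p.2 i = ct q.1 i + ct q.2 i then
    (-1) ^ N * ((u ^ (-(ε * (N * (N + r + 1)))) : Rˣ) : R) *
      ∑ κ : Fin (r + 1) → Fin (N + 1),
        sd r N ε u (ct q.1) (ct q.2) (ct p.1) (ct p.2) (fun i => (κ i : ℕ))
    else 0

/-- the coloured `SU(r + 1)` invariant over a ring -/
def sj (r N b : ℕ) (w : List (ℕ × Bool)) (u : Rˣ) : R :=
  ∑ s : Fin b → St r N,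
    (∏ x, ((u ^ (∑ i : Fin (r + 1), (2 * (i : ℤ) - r) * (ct (s x) i : ℤ)) : Rˣ) : R)) *
      rp (xg r N 1 u) (xg r N (-1) u) (b + 1) w (Fin.cons (top r N) s) (Fin.cons (top r N) s)

theorem map_ga (f : R →+* S) (t : R) (a b : ℕ) : f (ga t a b) = ga (f t) a b := by
  induction a generalizing b with
  | zero => cases b <;> simp [ga]
  | succ a ih =>
    cases b with
    | zero => simp [ga]
    | succ b => simp only [ga, map_add, map_mul, map_pow, ih]

theorem map_sd (f : R →+* S) (u : Rˣ) (r N : ℕ) (ε : ℤ) (α β γ δ κ : Fin (r + 1) → ℕ) :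
    f (sd r N ε u α β γ δ κ) = sd r N ε (Units.map (f : R →* S) u) α β γ δ κ := by
  unfold sd
  split_ifs
  · rw [map_mul, map_mul, map_pow, map_neg, map_one, map_zpow_unit, map_prod, map_pow]
    congr 1
    apply Finset.prod_congr rfl
    intro i _
    have e : f ((u ^ 2 : Rˣ) : R) = ((Units.map (f : R →* S) u ^ 2 : Sˣ) : S) := map_pow_unit f u 2
    rw [map_mul, map_ga, map_ga, e]
  · exact map_zero f

theorem map_xg (f : R →+* S) (u : Rˣ) (r N : ℕ) (ε : ℤ) :
    f.mapMatrix (xg r N ε u) = xg r N ε (Units.map (f : R →* S) u) := by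
  ext p q
  rw [RingHom.mapMatrix_apply, Matrix.map_apply]
  unfold xg
  split_ifs
  · rw [map_mul, map_mul, map_pow, map_neg, map_one, map_zpow_unit, map_sum]
    simp only [map_sd]
  · exact map_zero f

theorem map_sj (f : R →+* S) (u : Rˣ) (r N b : ℕ) (w : List (ℕ × Bool)) :
    f (sj r N b w u) = sj r N b w (Units.map (f : R →* S) u) := by
  unfold sj
  rw [map_sum]
  apply Finset.sum_congr rfl
  intro s _
  rw [map_mul, map_prod]
  have h1 := congrFun (congrFun (map_rp f (xg r N 1 u) (xg r N (-1) u) (b + 1) w)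
    (Fin.cons (top r N) s)) (Fin.cons (top r N) s)
  rw [RingHom.mapMatrix_apply, Matrix.map_apply, map_xg, map_xg] at h1
  rw [h1]
  simp only [map_zpow_unit]

end ring

end Pool.Agent.Q79.KU
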