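import Mathlib
import Pool.Agent.Q79.KuA

set_option autoImplicit false

open Finset

namespace Pool.Agent.Q79.KU

open Pool.Agent.Q79.KV

/-! ### The value at `u^2 = 1` -/

theorem vander (α : ℕ) : ∀ δ β : ℕ, δ ≤ α + β →
    ∑ k ∈ range (β + 1), (-1 : ℤ) ^ k * ((α + k).choose k) * (δ.choose (β - k)) =
      (-1) ^ β * ((α + β - δ).choose β) := by
  intro δ
  induction δ with
  | zero =>
    intro β _
    rw [Finset.sum_range_succ, Finset.sum_eq_zero]
    · simp
    · intro k hk
      rw [Finset.mem_range] at hk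
      have : Nat.choose 0 (β - k) = 0 := Nat.choose_eq_zero_of_lt (by omega)
      rw [this]
      simp
  | succ δ ih =>
    intro β hβ
    rcases Nat.eq_zero_or_pos β with h0 | h0
    · subst h0
      simp
    · obtain ⟨b, rfl⟩ : ∃ b, β = b + 1 := ⟨β - 1, by omega⟩
      have h1 := ih (b + 1) (by omega)
      have h2 := ih b (by omega)
      have hsplit : ∑ k ∈ range (b + 1 + 1), (-1 : ℤ) ^ k * ((α + k).choose k) *
          ((δ + 1).choose (b + 1 - k)) =
          ∑ k ∈ range (b + 1 + 1), (-1 : ℤ) ^ k * ((α + k).choose k) * (δ.choose (b + 1 - k)) +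
          ∑ k ∈ range (b + 1), (-1 : ℤ) ^ k * ((α + k).choose k) * (δ.choose (b - k)) := by
        rw [Finset.sum_range_succ, Finset.sum_range_succ (n := b + 1), add_right_comm,
          ← Finset.sum_add_distrib]
        congr 1
        · apply Finset.sum_congr rfl
          intro k hk
          rw [Finset.mem_range] at hk
          have e : b + 1 - k = (b - k) + 1 := by omega
          rw [e, Nat.choose_succ_succ]
          push_cast
          ring
        · simp
      rw [hsplit, h1, h2]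
      have e1 : α + (b + 1) - δ = (α + b - δ) + 1 := by omega
      have e2 : α + (b + 1) - (δ + 1) = α + b - δ := by omega
      rw [e1, e2, Nat.choose_succ_succ]
      push_cast
      ring

theorem key (α β γ N : ℕ) (h : γ ≤ α + β) (hβ : β ≤ N) :
    ∑ k : Fin (N + 1), (if (k : ℕ) ≤ β ∧ γ ≤ α + k then
      (-1 : ℤ) ^ (k : ℕ) * (((α + k).choose k) * ((α + β - γ).choose (α + k - γ))) else 0) =
      (-1) ^ β * (γ.choose β) := by
  rw [Fin.sum_univ_eq_sum_range (fun k => if k ≤ β ∧ γ ≤ α + k then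
      (-1 : ℤ) ^ k * (((α + k).choose k) * ((α + β - γ).choose (α + k - γ))) else 0) (N + 1)]
  have h1 := vander α (α + β - γ) β (by omega)
  have e1 : α + β - (α + β - γ) = γ := by omega
  rw [e1] at h1
  rw [← h1]
  have hsub : range (β + 1) ⊆ range (N + 1) := by
    intro k hk
    rw [Finset.mem_range] at hk ⊢
    omega
  rw [← Finset.sum_subset hsub]
  · apply Finset.sum_congr rfl
    intro k hk
    rw [Finset.mem_range] at hk
    by_cases hc : γ ≤ α + k
    · rw [if_pos ⟨by omega, hc⟩]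
      have e : (α + β - γ).choose (α + k - γ) = (α + β - γ).choose (β - k) := by
        rw [← Nat.choose_symm (show α + k - γ ≤ α + β - γ by omega)]
        congr 1
        omega
      rw [e]
      ring
    · rw [if_neg (fun h2 => hc h2.2), Nat.choose_eq_zero_of_lt (show α + β - γ < β - k by omega)]
      simp
  · intro k _ hk2
    rw [Finset.mem_range] at hk2
    rw [if_neg]
    intro h2
    omega

section ring

variable {R : Type} [CommRing R]

theorem ga_one (a b : ℕ) : ga (1 : R) a b = ((a.choose b : ℕ) : R) := by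
  induction a generalizing b with
  | zero => cases b <;> simp [ga]
  | succ a ih =>
    cases b with
    | zero => simp [ga]
    | succ b =>
      rw [ga, ih, ih, Nat.choose_succ_succ]
      push_cast
      ring

theorem sd_one {u : Rˣ} (hu : u ^ 2 = 1) (r N : ℕ) (ε : ℤ) (α β γ δ κ : Fin (r + 1) → ℕ)
    (hδ : ∀ i, δ i = α i + β i - γ i) :
    sd r N ε u α β γ δ κ = ((∏ i, (if κ i ≤ β i ∧ γ i ≤ α i + κ i then
      (-1 : ℤ) ^ (κ i) * (((α i + κ i).choose (κ i)) *
        ((α i + β i - γ i).choose (α i + κ i - γ i))) else 0 : ℤ) : ℤ) : R) := by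
  unfold sd
  by_cases h : ∀ i, κ i ≤ β i ∧ γ i ≤ α i + κ i
  · rw [if_pos h, hu, one_zpow, Units.val_one]
    push_cast
    rw [mul_one, ← Finset.prod_pow_eq_pow_sum, ← Finset.prod_mul_distrib]
    apply Finset.prod_congr rfl
    intro i _
    rw [if_pos (h i), ga_one, ga_one, hδ]
  · rw [if_neg h]
    push Not at h
    obtain ⟨i, hi⟩ := h
    rw [Finset.prod_eq_zero (Finset.mem_univ i)]
    · simp
    · rw [if_neg]
      intro h2
      have := hi h2.1
      omega

/-- the crossing at `u^2 = 1` -/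
theorem xg_one {u : Rˣ} (hu : u ^ 2 = 1) (r N : ℕ) (ε : ℤ) (p q : St r N × St r N)
    (h : ∀ i, ct p.1 i + ct p.2 i = ct q.1 i + ct q.2 i) :
    xg r N ε u p q = (-1) ^ N * ((u ^ (-(ε * (N * (N + r + 1)))) : Rˣ) : R) *
      (((-1) ^ N * ∏ i, ((ct p.1 i).choose (ct q.2 i) : ℤ) : ℤ) : R) := by
  unfold xg
  rw [if_pos h]
  congr 1
  have h1 : ∀ κ : Fin (r + 1) → Fin (N + 1),
      sd r N ε u (ct q.1) (ct q.2) (ct p.1) (ct p.2) (fun i => (κ i : ℕ)) =
      ((∏ i, (fun (i : Fin (r + 1)) (k : Fin (N + 1)) =>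
        (if (k : ℕ) ≤ ct q.2 i ∧ ct p.1 i ≤ ct q.1 i + k then
      (-1 : ℤ) ^ (k : ℕ) * (((ct q.1 i + k).choose k) *
        ((ct q.1 i + ct q.2 i - ct p.1 i).choose (ct q.1 i + k - ct p.1 i))) else 0 : ℤ)) i (κ i) :
          ℤ) : R) := by
    intro κ
    rw [sd_one hu]
    intro i
    have := h i
    omega
  simp only [h1]
  rw [← Int.cast_sum]
  congr 1
  have h2 := Finset.prod_univ_sum (fun _ : Fin (r + 1) => (Finset.univ : Finset (Fin (N + 1))))
    (fun (i : Fin (r + 1)) (k : Fin (N + 1)) =>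
        (if (k : ℕ) ≤ ct q.2 i ∧ ct p.1 i ≤ ct q.1 i + k then
      (-1 : ℤ) ^ (k : ℕ) * (((ct q.1 i + k).choose k) *
        ((ct q.1 i + ct q.2 i - ct p.1 i).choose (ct q.1 i + k - ct p.1 i))) else 0 : ℤ))
  rw [Fintype.piFinset_univ] at h2
  rw [← h2]
  have h3 : ∀ i : Fin (r + 1), ∑ k : Fin (N + 1),
      (if (k : ℕ) ≤ ct q.2 i ∧ ct p.1 i ≤ ct q.1 i + k then
      (-1 : ℤ) ^ (k : ℕ) * (((ct q.1 i + k).choose k) *
        ((ct q.1 i + ct q.2 i - ct p.1 i).choose (ct q.1 i + k - ct p.1 i))) else 0 : ℤ) =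
      (-1) ^ (ct q.2 i) * ((ct p.1 i).choose (ct q.2 i)) := by
    intro i
    apply key
    · have := h i; omega
    · exact ct_le _ _
  rw [Finset.prod_congr rfl (fun i _ => h3 i), Finset.prod_mul_distrib,
    Finset.prod_pow_eq_pow_sum, ct_sum]

theorem flip_xg {u : Rˣ} (hu : u ^ 2 = 1) (r N : ℕ) (ε : ℤ) : Flip (xg r N ε u) := by
  intro p q hne
  by_cases h : ∀ i, ct p.1 i + ct p.2 i = ct q.1 i + ct q.2 i
  · rw [xg_one hu r N ε p q h] at hne
    have h1 : ∀ i, ct q.2 i ≤ ct p.1 i := by
      intro i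
      by_contra hlt
      apply hne
      rw [Finset.prod_eq_zero (Finset.mem_univ i)]
      · simp
      · rw [Nat.choose_eq_zero_of_lt (by omega)]
        simp
    have h2 : ∀ i, ct q.2 i = ct p.1 i := by
      have hs : ∑ i, ct q.2 i = ∑ i, ct p.1 i := by rw [ct_sum, ct_sum]
      intro i
      exact (Finset.sum_eq_sum_iff_of_le (fun i _ => h1 i)).1 hs i (Finset.mem_univ i)
    constructor
    · exact ct_inj (fun i => (h2 i).symm)
    · apply ct_inj
      intro i
      have := h i
      have := h2 i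
      omega
  · exfalso
    apply hne
    unfold xg
    rw [if_neg h]

theorem xg_top {u : Rˣ} (hu : u ^ 2 = 1) (r N : ℕ) (ε : ℤ) (s : St r N) :
    IsUnit (xg r N ε u (s, s) (s, s)) := by
  rw [xg_one hu r N ε (s, s) (s, s) (fun i => rfl)]
  have h1 : ∏ i : Fin (r + 1), ((((ct s i).choose (ct s i) : ℕ) : ℤ)) = 1 := by
    apply Finset.prod_eq_one
    intro i _
    simp
  simp only [h1, mul_one]
  have h2 : IsUnit ((-1 : R) ^ N) := (isUnit_one.neg).pow N
  apply IsUnit.mul (IsUnit.mul h2 (Units.isUnit _))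
  push_cast
  exact h2

/-- the value at `u^2 = 1` is a unit -/
theorem sj_unit {u : Rˣ} (hu : u ^ 2 = 1) (r N : ℕ) {b : ℕ} {w : List (ℕ × Bool)}
    (hw : IsKnot b w) : IsUnit (sj r N b w u) := by
  unfold sj
  have hP : Flip (xg r N 1 u) := flip_xg hu r N 1
  have hQ : Flip (xg r N (-1) u) := flip_xg hu r N (-1)
  rw [Finset.sum_eq_single (fun _ => top r N)]
  · apply IsUnit.mul
    · exact Finset.prod_induction _ IsUnit (fun a b => IsUnit.mul) isUnit_one
        (fun x _ => Units.isUnit _)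
    · have e : (Fin.cons (top r N) (fun _ => top r N) : Fin (b + 1) → St r N) =
          fun _ => top r N := by
        funext x
        refine Fin.cases ?_ (fun i => ?_) x
        · rfl
        · rfl
      rw [e]
      exact rp_const hP hQ _ _ (fun g hg => by have := hw.1 g hg; omega)
        (xg_top hu r N 1 _) (xg_top hu r N (-1) _)
  · intro s _ hs
    by_contra hne
    apply hs
    have h1 := rp_supp hP hQ w (right_ne_zero_of_mul hne)
    set t : Fin (b + 1) → St r N := Fin.cons (top r N) s with ht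
    have h2 : ∀ k : ℕ, t ((permOf (b + 1) w ^ k) 0) = top r N := by
      intro k
      induction k with
      | zero => rfl
      | succ k ih =>
        rw [pow_succ', Equiv.Perm.mul_apply, h1, ih]
    funext x
    obtain ⟨k, hk⟩ := hw.2 x.succ
    have h3 := h2 k
    rw [hk] at h3
    exact h3
  · intro h; exact absurd (Finset.mem_univ _) h

end ring

end Pool.Agent.Q79.KU
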