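import Mathlib
import Pool.Agent.Q79.KuB
import Pool.Agent.Q79.KvI

set_option autoImplicit false

open Finset Polynomial

namespace Pool.Agent.Q79.KU

open Pool.Agent.Q79.KV

/-! ### Integral polynomials and values at roots of unity of prime power order -/

/-- the value at all roots of unity of order dividing `m` is given by one integral polynomial -/
theorem exists_poly_sj (r N b : ℕ) (w : List (ℕ × Bool)) {m : ℕ} (hm : 0 < m) :
    ∃ P : ℤ[X], ∀ (S : Type) [CommRing S] (u : Sˣ), u ^ m = 1 →
      sj r N b w u = P.eval₂ (Int.castRingHom S) (u : S) := by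
  set A := AdjoinRoot ((X : ℤ[X]) ^ m - 1) with hA
  set ρ : A := AdjoinRoot.root ((X : ℤ[X]) ^ m - 1) with hr
  have hrm : ρ ^ m = 1 := by
    have h1 : AdjoinRoot.mk ((X : ℤ[X]) ^ m - 1) ((X : ℤ[X]) ^ m - 1) = 0 := AdjoinRoot.mk_self
    rw [map_sub, map_pow, AdjoinRoot.mk_X, map_one] at h1
    exact sub_eq_zero.1 h1
  set U : Aˣ := Units.ofPowEqOne ρ m hrm hm.ne' with hU
  have hUv : (U : A) = ρ := rfl
  obtain ⟨P, hP⟩ := AdjoinRoot.mk_surjective (sj r N b w U)
  refine ⟨P, ?_⟩
  intro S _ u hu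
  have h0 : ((X : ℤ[X]) ^ m - 1).eval₂ (Int.castRingHom S) (u : S) = 0 := by
    rw [eval₂_sub, eval₂_pow, eval₂_X, eval₂_one]
    have : ((u : S)) ^ m = 1 := by
      rw [← Units.val_pow_eq_pow_val, hu, Units.val_one]
    rw [this, sub_self]
  set f : A →+* S := AdjoinRoot.lift (Int.castRingHom S) (u : S) h0 with hf
  have hfu : Units.map (f : A →* S) U = u := by
    apply Units.ext
    show f ρ = (u : S)
    rw [hf, hr, AdjoinRoot.lift_root]
  have h1 := map_sj f U r N b w
  rw [hfu, ← hP, hf, AdjoinRoot.lift_mk] at h1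
  exact h1.symm

/-- The polynomial does not vanish at the primitive roots. -/
theorem poly_ne_sj {r N b : ℕ} {w : List (ℕ × Bool)} (hw : IsKnot b w) {p k : ℕ}
    (hp : p.Prime) (hk : 0 < k) {P : ℤ[X]}
    (hP : ∀ (S : Type) [CommRing S] (u : Sˣ), u ^ (2 * p ^ k) = 1 →
      sj r N b w u = P.eval₂ (Int.castRingHom S) (u : S))
    {F : Type} [Field F] [CharZero F] {v : F} (hv : IsPrimitiveRoot v (2 * p ^ k)) :
    aeval v P ≠ 0 := by
  have i0 : Fact p.Prime := ⟨hp⟩
  have hpos : 0 < 2 * p ^ k := by have := pow_pos hp.pos k; omega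
  intro h0
  have hint : IsIntegral ℤ v := hv.isIntegral hpos
  have h1 := minpoly.isIntegrallyClosed_dvd hint h0
  rw [← cyclotomic_eq_minpoly hv hpos] at h1
  obtain ⟨Q, hQ⟩ := h1
  have h2 := hP (ZMod p) (-1) (by rw [pow_mul]; simp)
  have h3 : (P.eval₂ (Int.castRingHom (ZMod p)) (((-1 : (ZMod p)ˣ)) : ZMod p)) = 0 := by
    rw [hQ, eval₂_mul, ← eval_map, map_cyclotomic]
    have : ((-1 : (ZMod p)ˣ) : ZMod p) = -1 := by simp
    rw [this, cyc_root p k hk, zero_mul]
  rw [h3] at h2
  have h4 : IsUnit (sj r N b w (-1 : (ZMod p)ˣ)) := sj_unit (by simp) r N hw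
  rw [h2] at h4
  exact not_isUnit_zero h4

/-! ### The Gaussian binomial coefficients and the symmetric ones -/

theorem ga_gb {R : Type} [CommRing R] (u : Rˣ) : ∀ a b : ℕ,
    ga ((u ^ 2 : Rˣ) : R) a b = ((u ^ ((b : ℤ) * (a - b)) : Rˣ) : R) * gb u a b := by
  intro a
  induction a with
  | zero =>
    intro b
    cases b <;> simp [ga, gb]
  | succ a ih =>
    intro b
    cases b with
    | zero => simp [ga, gb]
    | succ b =>
      rw [ga, gb, ih b, ih (b + 1), mul_add, ← mul_assoc, ← mul_assoc, ← mul_assoc,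
        ← Units.val_mul, ← Units.val_mul, ← Units.val_pow_eq_pow_val, ← Units.val_mul,
        ← zpow_add, ← zpow_add, ← pow_mul, ← zpow_natCast u (2 * (b + 1)), ← zpow_add, add_comm]
      congr 3
      · congr 1; push_cast; ring
      · congr 1; push_cast; ring

theorem ga_of_lt {R : Type} [CommRing R] (t : R) : ∀ a b : ℕ, a < b → ga t a b = 0 := by
  intro a
  induction a with
  | zero =>
    intro b hb
    obtain ⟨c, rfl⟩ : ∃ c, b = c + 1 := ⟨b - 1, by omega⟩
    simp [ga]
  | succ a ih =>
    intro b hb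
    obtain ⟨c, rfl⟩ : ∃ c, b = c + 1 := ⟨b - 1, by omega⟩
    rw [ga, ih c (by omega), ih (c + 1) (by omega)]
    ring

theorem ga_zero {R : Type} [CommRing R] (t : R) (a : ℕ) : ga t a 0 = 1 := by
  cases a <;> simp [ga]

theorem ga_self {R : Type} [CommRing R] (t : R) (a : ℕ) : ga t a a = 1 := by
  induction a with
  | zero => simp [ga]
  | succ a ih =>
    rw [ga, ga_of_lt t a (a + 1) (by omega), ih]
    simp

/-- shift by the order of `t` -/
theorem ga_shift {R : Type} [CommRing R] {t : R} {m : ℕ} (ht : t ^ m = 1)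
    (h0 : ∀ b, 0 < b → b < m → ga t m b = 0) (hm : 0 < m) (x : ℕ) : ∀ b : ℕ,
    ga t (m + x) b = ga t x b + (if m ≤ b then ga t x (b - m) else 0) := by
  induction x with
  | zero =>
    intro b
    rw [add_zero]
    rcases Nat.eq_zero_or_pos b with hb | hb
    · subst hb
      rw [ga_zero, ga_zero, if_neg (by omega), add_zero]
    · rw [ga_of_lt t 0 b hb, zero_add]
      rcases Nat.lt_trichotomy b m with h | h | h
      · rw [h0 b hb h, if_neg (by omega)]
      · subst h
        rw [ga_self, if_pos le_rfl, Nat.sub_self, ga_zero]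
      · rw [ga_of_lt t m b h, if_pos h.le, ga_of_lt t 0 (b - m) (by omega)]
  | succ x ih =>
    intro b
    cases b with
    | zero => rw [ga_zero, ga_zero, if_neg (by omega), add_zero]
    | succ b =>
      rw [← add_assoc, ga, ga, ih b, ih (b + 1)]
      by_cases h1 : m ≤ b
      · rw [if_pos h1, if_pos (by omega), if_pos (by omega)]
        have e1 : b + 1 - m = (b - m) + 1 := by omega
        have e2 : t ^ (b + 1) = t ^ ((b - m) + 1) := by
          have : b + 1 = m + ((b - m) + 1) := by omega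
          conv_lhs => rw [this]
          rw [pow_add, ht, one_mul]
        rw [e1, ga, e2]
        ring
      · rw [if_neg h1]
        by_cases h2 : m ≤ b + 1
        · have h3 : b + 1 = m := by omega
          rw [if_pos h2, if_pos h2, h3, Nat.sub_self, ga_zero, ga_zero, ht]
          ring
        · rw [if_neg h2, if_neg h2]
          ring

end Pool.Agent.Q79.KU
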