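import Mathlib
import Pool.Agent.Q79.KvI

set_option autoImplicit false

open Finset Filter

namespace Pool.Agent.Q79.KV

/-! ### The number of exceptional conjugates; the dichotomy -/

theorem near_one_card {N : ℕ} (hN : 2 ≤ N) (S : ℕ) :
    ((Polynomial.nthRootsFinset N (1 : ℂ)).filter (fun x => ‖(1 : ℂ) - x‖ ≤ (S : ℝ) / N)).card ≤
      S + 1 := by
  classical
  have hN0 : (0 : ℝ) < N := by exact_mod_cast (by omega : 0 < N)
  set ζ := Complex.exp (2 * Real.pi * Complex.I / N) with hζd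
  have hζ : IsPrimitiveRoot ζ N := Complex.isPrimitiveRoot_exp N (by omega)
  have hsub : (Polynomial.nthRootsFinset N (1 : ℂ)).filter (fun x => ‖(1 : ℂ) - x‖ ≤ (S : ℝ) / N) ⊆
      (range (S / 2 + 1) ∪ Ico (N - S / 2) N).image (fun b => ζ ^ b) := by
    intro x hx
    rw [Finset.mem_filter, Polynomial.mem_nthRootsFinset (by omega)] at hx
    have : NeZero N := ⟨by omega⟩
    obtain ⟨b, hb, rfl⟩ := hζ.eq_pow_of_pow_eq_one hx.1
    rw [Finset.mem_image]
    refine ⟨b, ?_, rfl⟩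
    rw [Finset.mem_union, Finset.mem_range, Finset.mem_Ico]
    rcases Nat.eq_zero_or_pos b with h0 | h0
    · left; omega
    · have h1 := (norm_ge h0 hb).trans hx.2
      have h2 : 2 * ((min b (N - b) : ℕ) : ℝ) ≤ S := by
        rwa [div_le_div_iff_of_pos_right hN0] at h1
      have h3 : 2 * min b (N - b) ≤ S := by exact_mod_cast h2
      rcases le_total b (N - b) with h4 | h4
      · rw [min_eq_left h4] at h3
        left; omega
      · rw [min_eq_right h4] at h3
        right; omega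
  calc _ ≤ _ := Finset.card_le_card hsub
    _ ≤ (range (S / 2 + 1) ∪ Ico (N - S / 2) N).card := Finset.card_image_le
    _ ≤ (range (S / 2 + 1)).card + (Ico (N - S / 2) N).card := Finset.card_union_le _ _
    _ ≤ S + 1 := by
        rw [Finset.card_range, Nat.card_Ico]; omega

/-- close to a root of unity of order at most `S` -/
def Near (N S : ℕ) (v : ℂ) : Prop := ∃ s : ℕ, 1 ≤ s ∧ s ≤ S ∧ ‖(1 : ℂ) - v ^ (2 * s)‖ ≤ (S : ℝ) / N

theorem near_card {N : ℕ} (hN : 2 ≤ N) (S : ℕ) (A : Finset ℂ)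
    (hA : ∀ v ∈ A, IsPrimitiveRoot v (2 * N) ∧ Near N S v) :
    A.card ≤ 2 * S ^ 2 * (S + 1) := by
  classical
  set T : ℕ → Finset ℂ := fun s => A.filter (fun v => ‖(1 : ℂ) - v ^ (2 * s)‖ ≤ (S : ℝ) / N) with hT
  have hsub : A ⊆ (Icc 1 S).biUnion T := by
    intro v hv
    obtain ⟨s, h1, h2, h3⟩ := (hA v hv).2
    rw [Finset.mem_biUnion]
    exact ⟨s, Finset.mem_Icc.2 ⟨h1, h2⟩, by rw [hT]; exact Finset.mem_filter.2 ⟨hv, h3⟩⟩
  have hTs : ∀ s ∈ Icc 1 S, (T s).card ≤ 2 * S * (S + 1) := by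
    intro s hs
    rw [Finset.mem_Icc] at hs
    have himg : (T s).image (fun v => v ^ (2 * s)) ⊆
        (Polynomial.nthRootsFinset N (1 : ℂ)).filter (fun x => ‖(1 : ℂ) - x‖ ≤ (S : ℝ) / N) := by
      intro x hx
      rw [Finset.mem_image] at hx
      obtain ⟨v, hv, rfl⟩ := hx
      rw [hT] at hv
      rw [Finset.mem_filter] at hv
      rw [Finset.mem_filter, Polynomial.mem_nthRootsFinset (by omega)]
      refine ⟨?_, hv.2⟩
      have h1 := ((hA v hv.1).1).pow_eq_one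
      calc (v ^ (2 * s)) ^ N = (v ^ (2 * N)) ^ s := by
            rw [← pow_mul, ← pow_mul]; congr 1; ring
        _ = 1 := by rw [h1, one_pow]
    have hfib : ∀ b ∈ (T s).image (fun v => v ^ (2 * s)),
        ((T s).filter (fun v => v ^ (2 * s) = b)).card ≤ 2 * s := by
      intro b _
      have h1 : (T s).filter (fun v => v ^ (2 * s) = b) ⊆ (Polynomial.nthRoots (2 * s) b).toFinset := by
        intro v hv
        rw [Finset.mem_filter] at hv
        rw [Multiset.mem_toFinset, Polynomial.mem_nthRoots (by omega)]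
        exact hv.2
      calc _ ≤ _ := Finset.card_le_card h1
        _ ≤ (Polynomial.nthRoots (2 * s) b).card := Multiset.toFinset_card_le _
        _ ≤ 2 * s := Polynomial.card_nthRoots _ _
    have h2 := Finset.card_le_mul_card_image (T s) (2 * s) hfib
    calc (T s).card ≤ 2 * s * ((T s).image (fun v => v ^ (2 * s))).card := h2
      _ ≤ 2 * S * (S + 1) := by
          apply Nat.mul_le_mul (by omega)
          exact (Finset.card_le_card himg).trans (near_one_card hN S)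
  calc A.card ≤ ((Icc 1 S).biUnion T).card := Finset.card_le_card hsub
    _ ≤ ∑ s ∈ Icc 1 S, (T s).card := Finset.card_biUnion_le
    _ ≤ ∑ s ∈ Icc 1 S, 2 * S * (S + 1) := Finset.sum_le_sum hTs
    _ = 2 * S ^ 2 * (S + 1) := by
        rw [Finset.sum_const, Nat.card_Icc, smul_eq_mul]
        simp only [Nat.add_sub_cancel]
        ring

theorem natcard_le {P : ℂ → Prop} {m B : ℕ} (hm : 0 < m) (h : ∀ A : Finset ℂ,
    (∀ v ∈ A, IsPrimitiveRoot v m ∧ P v) → A.card ≤ B) :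
    Nat.card {v : ℂ // IsPrimitiveRoot v m ∧ P v} ≤ B := by
  classical
  have h1 : Nat.card {v : ℂ // IsPrimitiveRoot v m ∧ P v} =
      ((primitiveRoots m ℂ).filter P).card := by
    apply Nat.subtype_card
    intro v
    rw [Finset.mem_filter, mem_primitiveRoots hm]
  rw [h1]
  apply h
  intro v hv
  rw [Finset.mem_filter, mem_primitiveRoots hm] at hv
  exact hv

theorem near_or {N M : ℕ} (hN : 2 ≤ N) (hM0 : 0 < M) (hM : M ≤ N) (n : ℕ)
    (w : List (ℕ × Bool)) {v : ℂ} (hv : IsPrimitiveRoot v (2 * N)) {S : ℕ} (hS : 1 ≤ S) :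
    Near N S v ∨ ‖cjones M n w v‖ ≤
      Real.exp ((n + w.length) * (20 * N / Real.sqrt S + 52 * (Real.log N) ^ 2)) := by
  by_cases h : Near N S v
  · exact Or.inl h
  · right
    apply far_bound hN hM0 hM n w hv hS
    intro s h1 h2
    by_contra h3
    exact h ⟨s, h1, h2, not_lt.1 h3⟩

theorem eps_version (n : ℕ) (w : List (ℕ × Bool)) {ε : ℝ} (hε : 0 < ε) :
    ∃ S : ℕ, 1 ≤ S ∧ ∀ᶠ N : ℕ in atTop, ∀ M : ℕ, 1 ≤ M → M ≤ N →
      ∀ v : ℂ, IsPrimitiveRoot v (2 * N) → Real.exp (ε * N) ≤ ‖cjones M n w v‖ → Near N S v := by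
  set c : ℝ := n + w.length with hc
  have hc0 : 0 ≤ c := by positivity
  obtain ⟨S, hS⟩ := exists_nat_gt ((60 * (c + 1) / ε) ^ 2)
  have hSpos : (0 : ℝ) < S := lt_of_le_of_lt (by positivity) hS
  have hS1 : 1 ≤ S := by
    have : 0 < S := by exact_mod_cast hSpos
    omega
  have hsq : 60 * (c + 1) / ε < Real.sqrt S := Real.lt_sqrt_of_sq_lt hS
  have hsq0 : 0 < Real.sqrt S := Real.sqrt_pos.2 hSpos
  refine ⟨S, hS1, ?_⟩
  have ho := (Real.isLittleO_pow_log_id_atTop (n := 2)).def (c := ε / (3 * 52 * (c + 1))) (by positivity)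
  have hoN := tendsto_natCast_atTop_atTop.eventually ho
  filter_upwards [hoN, Filter.eventually_ge_atTop 2] with N h1 hN M hM0 hM v hv hlow
  by_contra hnear
  have hN0 : (0 : ℝ) < N := by exact_mod_cast (by omega : 0 < N)
  have h2 := (near_or hN hM0 hM n w hv hS1).resolve_left hnear
  have h3 := hlow.trans h2
  rw [Real.exp_le_exp, ← hc] at h3
  rw [Real.norm_eq_abs, Real.norm_eq_abs, abs_of_nonneg (by positivity)] at h1
  simp only [id] at h1
  rw [abs_of_pos hN0] at h1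
  have h4 : c * (20 * N / Real.sqrt S) ≤ ε / 3 * N := by
    have h5 : c * (20 * N / Real.sqrt S) = (20 * c / Real.sqrt S) * N := by ring
    rw [h5]
    apply mul_le_mul_of_nonneg_right _ hN0.le
    rw [div_le_iff₀ hsq0]
    have h6 : 60 * (c + 1) < ε * Real.sqrt S := by
      rw [div_lt_iff₀ hε] at hsq
      linarith
    nlinarith
  have h5 : c * (52 * Real.log N ^ 2) ≤ ε / 3 * N := by
    calc c * (52 * Real.log N ^ 2) ≤ (c + 1) * (52 * Real.log N ^ 2) := by
          apply mul_le_mul_of_nonneg_right (by linarith) (by positivity)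
      _ ≤ (c + 1) * (52 * (ε / (3 * 52 * (c + 1)) * N)) := by
          apply mul_le_mul_of_nonneg_left _ (by positivity)
          linarith
      _ = ε / 3 * N := by field_simp
  have h6 : 0 < ε * N := by positivity
  have h7 : c * (20 * N / Real.sqrt S + 52 * Real.log N ^ 2) =
      c * (20 * N / Real.sqrt S) + c * (52 * Real.log N ^ 2) := by ring
  rw [h7] at h3
  linarith

/-- The dichotomy. -/
theorem dichotomy {N M : ℕ} (hN : 2 ≤ N) (_hM0 : 0 < M) (hM : M ≤ N) (n : ℕ)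
    (w : List (ℕ × Bool)) :
    (∀ v : ℂ, IsPrimitiveRoot v (2 * N) → cjones M n w v = 0) ∨
    ((∀ v : ℂ, IsPrimitiveRoot v (2 * N) → cjones M n w v ≠ 0) ∧
      0 ≤ ∑ v ∈ primitiveRoots (2 * N) ℂ, Real.log ‖cjones M n w v‖) := by
  by_cases hall : ∀ v : ℂ, IsPrimitiveRoot v (2 * N) → cjones M n w v = 0
  · exact Or.inl hall
  right
  push Not at hall
  obtain ⟨v0, hv0, hne⟩ := hall
  have h2N : 0 < 2 * N := by omega
  obtain ⟨P, hP⟩ := exists_poly M n w (m := 2 * N) h2N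
  have h0 : Polynomial.aeval v0 P ≠ 0 := by
    rw [← cjones_eq_aeval (by omega) hM hP hv0]; exact hne
  have hall : ∀ v : ℂ, IsPrimitiveRoot v (2 * N) → cjones M n w v ≠ 0 := by
    intro v hv
    rw [cjones_eq_aeval (by omega) hM hP hv]
    exact all_ne h2N hv0 h0 hv
  refine ⟨hall, ?_⟩
  have h1 := prod_norm_gen h2N hv0 h0
  have h2 : ∏ v ∈ primitiveRoots (2 * N) ℂ, ‖Polynomial.aeval v P‖ =
      ∏ v ∈ primitiveRoots (2 * N) ℂ, ‖cjones M n w v‖ := by
    apply Finset.prod_congr rfl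
    intro v hv
    rw [mem_primitiveRoots h2N] at hv
    rw [cjones_eq_aeval (by omega) hM hP hv]
  rw [h2] at h1
  rw [← Real.log_prod (fun v hv => norm_ne_zero_iff.2 (hall v ((mem_primitiveRoots h2N).1 hv)))]
  exact Real.log_nonneg h1

/-- consequences of a nonnegative sum of logarithms -/
theorem sum_minus {N M : ℕ} (hN : 2 ≤ N) (hM0 : 0 < M) (hM : M ≤ N) (n : ℕ)
    (w : List (ℕ × Bool))
    (h2 : 0 ≤ ∑ v ∈ primitiveRoots (2 * N) ℂ, Real.log ‖cjones M n w v‖) :
    ∑ v ∈ primitiveRoots (2 * N) ℂ,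
      (max 0 (Real.log ‖cjones M n w v‖) - Real.log ‖cjones M n w v‖) ≤
      137 * (n + w.length) * N * (Real.log N) ^ 2 := by
  have h1 := sum_plus hN hM0 hM n w
  rw [Finset.sum_sub_distrib]
  linarith

theorem low_of {N M : ℕ} (hN : 2 ≤ N) (hM0 : 0 < M) (hM : M ≤ N) (n : ℕ)
    (w : List (ℕ × Bool))
    (h2 : 0 ≤ ∑ v ∈ primitiveRoots (2 * N) ℂ, Real.log ‖cjones M n w v‖)
    {v : ℂ} (hv : IsPrimitiveRoot v (2 * N)) (h0 : cjones M n w v ≠ 0) :
    Real.exp (-(137 * (n + w.length) * N * (Real.log N) ^ 2)) ≤ ‖cjones M n w v‖ := by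
  have h1 := sum_minus hN hM0 hM n w h2
  have hv' : v ∈ primitiveRoots (2 * N) ℂ := (mem_primitiveRoots (by omega)).2 hv
  rw [← Real.le_log_iff_exp_le (norm_pos_iff.2 h0)]
  have h3 : max 0 (Real.log ‖cjones M n w v‖) - Real.log ‖cjones M n w v‖ ≤
      ∑ u ∈ primitiveRoots (2 * N) ℂ,
        (max 0 (Real.log ‖cjones M n w u‖) - Real.log ‖cjones M n w u‖) :=
    Finset.single_le_sum (f := fun u => max 0 (Real.log ‖cjones M n w u‖) -
      Real.log ‖cjones M n w u‖) (fun u _ => sub_nonneg.2 (le_max_right _ _)) hv'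
  have h4 : 0 ≤ max 0 (Real.log ‖cjones M n w v‖) := le_max_left _ _
  linarith

theorem sum_abs_of {N M : ℕ} (hN : 2 ≤ N) (hM0 : 0 < M) (hM : M ≤ N) (n : ℕ)
    (w : List (ℕ × Bool))
    (h2 : 0 ≤ ∑ v ∈ primitiveRoots (2 * N) ℂ, Real.log ‖cjones M n w v‖) :
    ∑ v ∈ primitiveRoots (2 * N) ℂ, |Real.log ‖cjones M n w v‖| ≤
      274 * (n + w.length) * N * (Real.log N) ^ 2 := by
  have h1 := sum_plus hN hM0 hM n w
  simp only [abs_log_eq]
  rw [Finset.sum_sub_distrib, ← Finset.mul_sum]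
  linarith

theorem count_low {N M : ℕ} (hN : 2 ≤ N) (hM0 : 0 < M) (hM : M ≤ N) (n : ℕ)
    (w : List (ℕ × Bool)) (hne : ∀ v : ℂ, IsPrimitiveRoot v (2 * N) → cjones M n w v ≠ 0)
    (h2 : 0 ≤ ∑ v ∈ primitiveRoots (2 * N) ℂ, Real.log ‖cjones M n w v‖) {ε : ℝ} (hε : 0 < ε) :
    (Nat.card {v : ℂ // IsPrimitiveRoot v (2 * N) ∧
      ‖cjones M n w v‖ ≤ Real.exp (-(ε * N))} : ℝ) ≤
      137 * (n + w.length) * (Real.log N) ^ 2 / ε := by
  classical
  have hN0 : (0 : ℝ) < N := by exact_mod_cast (by omega : 0 < N)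
  have hcard : Nat.card {v : ℂ // IsPrimitiveRoot v (2 * N) ∧
      ‖cjones M n w v‖ ≤ Real.exp (-(ε * N))} =
      ((primitiveRoots (2 * N) ℂ).filter (fun v => ‖cjones M n w v‖ ≤ Real.exp (-(ε * N)))).card := by
    apply Nat.subtype_card
    intro v
    rw [Finset.mem_filter, mem_primitiveRoots (by omega)]
  set T := (primitiveRoots (2 * N) ℂ).filter (fun v => ‖cjones M n w v‖ ≤ Real.exp (-(ε * N)))
    with hT
  rw [hcard, le_div_iff₀ hε]
  have h1 := sum_minus hN hM0 hM n w h2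
  have h3 : (T.card : ℝ) * (ε * N) ≤
      ∑ v ∈ T, (max 0 (Real.log ‖cjones M n w v‖) - Real.log ‖cjones M n w v‖) := by
    rw [← nsmul_eq_mul]
    apply Finset.card_nsmul_le_sum
    intro v hv
    rw [hT, Finset.mem_filter, mem_primitiveRoots (by omega)] at hv
    have h4 : Real.log ‖cjones M n w v‖ ≤ -(ε * N) := by
      rw [Real.log_le_iff_le_exp (norm_pos_iff.2 (hne v hv.1))]
      exact hv.2
    have h5 : 0 ≤ max 0 (Real.log ‖cjones M n w v‖) := le_max_left _ _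
    linarith
  have h4 : ∑ v ∈ T, (max 0 (Real.log ‖cjones M n w v‖) - Real.log ‖cjones M n w v‖) ≤
      ∑ v ∈ primitiveRoots (2 * N) ℂ,
        (max 0 (Real.log ‖cjones M n w v‖) - Real.log ‖cjones M n w v‖) :=
    Finset.sum_le_sum_of_subset_of_nonneg (Finset.filter_subset _ _)
      (fun v _ _ => sub_nonneg.2 (le_max_right _ _))
  have h5 : (T.card : ℝ) * ε * N ≤ (137 * (n + w.length) * (Real.log N) ^ 2) * N := by
    calc _ = (T.card : ℝ) * (ε * N) := by ring
      _ ≤ _ := (h3.trans h4).trans h1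
      _ = _ := by ring
  exact le_of_mul_le_mul_right h5 hN0

end Pool.Agent.Q79.KV
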