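import Mathlib
import Pool.Agent.Q79.KvC

set_option autoImplicit false

open Finset

namespace Pool.Agent.Q79.KV

/-! ### The state sum for the colour `m l` at a root of unity of order `m` -/

section digits

variable {F : Type} [Field F]

theorem brR_eq_zero_iff {u : Fˣ} {m : ℕ} (hu : IsPrimitiveRoot (u ^ 2) m) (k : ℤ) :
    brR u k = 0 ↔ (m : ℤ) ∣ k := by
  unfold brR
  rw [sub_eq_zero, Units.val_inj]
  have h1 : u ^ k = u ^ (-k) ↔ (u ^ 2) ^ k = 1 := by
    constructor
    · intro h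
      have h2 : (u ^ 2) ^ k = u ^ k * u ^ k := by
        rw [← zpow_natCast u 2, ← zpow_mul, ← zpow_add]; congr 1; push_cast; ring
      rw [h2]
      nth_rewrite 1 [h]
      rw [← zpow_add, neg_add_cancel, zpow_zero]
    · intro h
      have h2 : u ^ k = u ^ (-k) * (u ^ 2) ^ k := by
        rw [← zpow_natCast u 2, ← zpow_mul, ← zpow_add]; congr 1; push_cast; ring
      rw [h2, h, mul_one]
  rw [h1, hu.zpow_eq_one_iff_dvd]

/-- the product formula for the Gaussian binomials -/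
theorem gb_prod (u : Fˣ) (j : ℕ) : ∀ n : ℕ,
    gb u (j + n) j * ∏ t ∈ range n, brR u ((t : ℤ) + 1) = ∏ t ∈ range n, brR u ((j : ℤ) + 1 + t) := by
  induction j with
  | zero =>
    intro n
    rw [gb_zero, one_mul]
    apply Finset.prod_congr rfl
    intro t _
    congr 1
    push_cast
    ring
  | succ j ihj =>
    intro n
    induction n with
    | zero => simp [gb_self]
    | succ n ihn =>
      have e : j + 1 + (n + 1) = (j + 1 + n) + 1 := by ring
      rw [e, gb]
      have e2 : j + 1 + n = j + (n + 1) := by ring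
      have h1 := ihj (n + 1)
      rw [← e2] at h1
      -- `gb (j+1+n) (j+1)` from ihn, `gb (j+1+n) j` from h1
      have hA : gb u (j + 1 + n) (j + 1) * ∏ t ∈ range (n + 1), brR u ((t : ℤ) + 1) =
          (∏ t ∈ range n, brR u (((j + 1 : ℕ) : ℤ) + 1 + t)) * brR u ((n : ℤ) + 1) := by
        rw [Finset.prod_range_succ, ← mul_assoc, ihn]
      have hB : ∏ t ∈ range (n + 1), brR u ((j : ℤ) + 1 + t) =
          brR u ((j : ℤ) + 1) * ∏ t ∈ range n, brR u (((j + 1 : ℕ) : ℤ) + 1 + t) := by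
        rw [Finset.prod_range_succ', mul_comm]
        have hB1 : ∏ t ∈ range n, brR u ((j : ℤ) + 1 + ((t + 1 : ℕ) : ℤ)) =
            ∏ t ∈ range n, brR u (((j + 1 : ℕ) : ℤ) + 1 + t) := by
          apply Finset.prod_congr rfl
          intro t _
          congr 1
          push_cast
          ring
        rw [hB1, Nat.cast_zero, add_zero]
      have hC : ∏ t ∈ range (n + 1), brR u (((j + 1 : ℕ) : ℤ) + 1 + t) =
          (∏ t ∈ range n, brR u (((j + 1 : ℕ) : ℤ) + 1 + t)) *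
            brR u (((j + 1 : ℕ) : ℤ) + 1 + n) := Finset.prod_range_succ _ _
      rw [hC, add_mul, mul_assoc, mul_assoc, hA, h1, hB]
      have hid : ((u ^ ((j : ℤ) + 1) : Fˣ) : F) * brR u ((n : ℤ) + 1) +
          ((u ^ ((j : ℤ) - (j + 1 + n : ℕ)) : Fˣ) : F) * brR u ((j : ℤ) + 1) =
          brR u (((j + 1 : ℕ) : ℤ) + 1 + n) := by
        unfold brR
        rw [mul_sub, mul_sub, ← Units.val_mul, ← Units.val_mul, ← Units.val_mul, ← Units.val_mul,
          ← zpow_add, ← zpow_add, ← zpow_add, ← zpow_add]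
        have e1 : (j : ℤ) + 1 + ((n : ℤ) + 1) = ((j + 1 : ℕ) : ℤ) + 1 + n := by push_cast; ring
        have e2 : (j : ℤ) + 1 + -((n : ℤ) + 1) = (j : ℤ) - (j + 1 + n : ℕ) + ((j : ℤ) + 1) := by
          push_cast; ring
        have e3 : (j : ℤ) - (j + 1 + n : ℕ) + -((j : ℤ) + 1) = -(((j + 1 : ℕ) : ℤ) + 1 + n) := by
          push_cast; ring
        rw [e1, e2, e3]
        ring
      linear_combination (∏ t ∈ range n, brR u (((j + 1 : ℕ) : ℤ) + 1 + t)) * hid

/-- the support condition with digits -/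
def FlipD {ι : Type} (d : ι → ℕ) (A : Matrix (ι × ι) (ι × ι) F) : Prop :=
  ∀ p q, A p q ≠ 0 → d p.1 = d q.2 ∧ d p.2 = d q.1

/-- the key computation -/
theorem digit_key {u : Fˣ} {m : ℕ} (hm : 0 < m) (hu : IsPrimitiveRoot (u ^ 2) m) {M l i j n : ℕ}
    (hM : M = m * l) (hg : gb u (j + n) j ≠ 0)
    (hp : ∏ t ∈ range n, brR u ((M : ℤ) - (i : ℕ) + t) ≠ 0) (hi : n ≤ i) :
    (j + n) / m = j / m ∧ (i - n) / m = i / m := by
  rw [Finset.prod_ne_zero_iff] at hp
  have hn : n ≤ i % m := by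
    by_contra h
    have h1 := hp (i % m) (Finset.mem_range.2 (by omega))
    apply h1
    rw [brR_eq_zero_iff hu]
    refine ⟨(l : ℤ) - (i / m : ℕ), ?_⟩
    have h2 : ((i : ℕ) : ℤ) = (m : ℤ) * ((i / m : ℕ) : ℤ) + ((i % m : ℕ) : ℤ) := by
      exact_mod_cast (Nat.div_add_mod i m).symm
    rw [hM]
    push_cast
    push_cast at h2
    linear_combination -h2
  have him : i % m < m := Nat.mod_lt _ hm
  constructor
  · have hj : j % m + n < m := by
      by_contra h
      apply hg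
      have h1 := gb_prod u j n
      have h2 : ∏ t ∈ range n, brR u ((j : ℤ) + 1 + t) = 0 := by
        rw [Finset.prod_eq_zero_iff]
        have hjm : j % m < m := Nat.mod_lt _ hm
        refine ⟨m - 1 - j % m, Finset.mem_range.2 (by omega), ?_⟩
        rw [brR_eq_zero_iff hu]
        refine ⟨((j / m : ℕ) : ℤ) + 1, ?_⟩
        have h3 : ((j : ℕ) : ℤ) = (m : ℤ) * ((j / m : ℕ) : ℤ) + ((j % m : ℕ) : ℤ) := by
          exact_mod_cast (Nat.div_add_mod j m).symm
        have h4 : ((m - 1 - j % m : ℕ) : ℤ) = (m : ℤ) - 1 - ((j % m : ℕ) : ℤ) := by omega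
        rw [h4]
        linear_combination h3
      rw [h2] at h1
      rcases mul_eq_zero.1 h1 with h3 | h3
      · exact h3
      · exfalso
        rw [Finset.prod_eq_zero_iff] at h3
        obtain ⟨t, ht, h0⟩ := h3
        rw [Finset.mem_range] at ht
        rw [brR_eq_zero_iff hu] at h0
        have h5 : m ∣ t + 1 := by exact_mod_cast h0
        have := Nat.le_of_dvd (by omega) h5
        omega
    have h6 : j + n = m * (j / m) + (j % m + n) := by
      have := Nat.div_add_mod j m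
      omega
    rw [h6, Nat.mul_add_div hm, Nat.div_eq_of_lt hj, add_zero]
  · have h6 : i - n = m * (i / m) + (i % m - n) := by
      have := Nat.div_add_mod i m
      omega
    have h7 : i % m - n < m := lt_of_le_of_lt (Nat.sub_le _ _) him
    rw [h6, Nat.mul_add_div hm, Nat.div_eq_of_lt h7, add_zero]

theorem flipD_cP {u : Fˣ} {m : ℕ} (hm : 0 < m) (hu : IsPrimitiveRoot (u ^ 2) m) {M l : ℕ}
    (hM : M = m * l) : FlipD (fun x : Fin M => (x : ℕ) / m) (cP M u) := by
  intro p q h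
  unfold cP at h
  split_ifs at h with hc
  · have hg : gb u (p.1 : ℕ) (q.2 : ℕ) ≠ 0 := by
      intro h0; apply h; rw [h0]; ring
    have hp : ∏ t ∈ range ((p.1 : ℕ) - q.2), brR u ((M : ℤ) - (q.1 : ℕ) + t) ≠ 0 :=
      right_ne_zero_of_mul h
    obtain ⟨n, hn⟩ : ∃ n, (p.1 : ℕ) = q.2 + n := ⟨(p.1 : ℕ) - q.2, by omega⟩
    have e1 : (p.1 : ℕ) - q.2 = n := by omega
    have e2 : (p.2 : ℕ) = q.1 - n := by omega
    rw [hn] at hg
    rw [e1] at hp
    have := digit_key hm hu hM hg hp (by omega)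
    simp only
    rw [hn, e2]
    exact this
  · exact absurd rfl h

theorem flipD_cN {u : Fˣ} {m : ℕ} (hm : 0 < m) (hu : IsPrimitiveRoot (u ^ 2) m) {M l : ℕ}
    (hM : M = m * l) : FlipD (fun x : Fin M => (x : ℕ) / m) (cN M u) := by
  intro p q h
  unfold cN at h
  split_ifs at h with hc
  · have hg : gb u (p.2 : ℕ) (q.1 : ℕ) ≠ 0 := by
      intro h0; apply h; rw [h0]; ring
    have hp : ∏ t ∈ range ((p.2 : ℕ) - q.1), brR u ((M : ℤ) - (q.2 : ℕ) + t) ≠ 0 :=
      right_ne_zero_of_mul h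
    obtain ⟨n, hn⟩ : ∃ n, (p.2 : ℕ) = q.1 + n := ⟨(p.2 : ℕ) - q.1, by omega⟩
    have e1 : (p.2 : ℕ) - q.1 = n := by omega
    have e2 : (p.1 : ℕ) = q.2 - n := by omega
    rw [hn] at hg
    rw [e1] at hp
    have := digit_key hm hu hM hg hp (by omega)
    simp only
    rw [hn, e2]
    exact ⟨this.2, this.1⟩
  · exact absurd rfl h

theorem gn_suppD {ι : Type} [DecidableEq ι] {d : ι → ℕ} {A : Matrix (ι × ι) (ι × ι) F}
    (hA : FlipD d A) {n k : ℕ} {s t : Fin n → ι} (h : gn A n k s t ≠ 0) (x : Fin n) :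
    d (s (sw n k x)) = d (t x) := by
  unfold gn at h
  unfold sw
  by_cases hk : k + 1 < n
  · rw [dif_pos hk] at h ⊢
    split_ifs at h with hc
    · obtain ⟨h1, h2⟩ := hA _ _ h
      simp only at h1 h2
      by_cases hx1 : (x : ℕ) = k
      · have : x = ⟨k, by omega⟩ := Fin.ext hx1
        rw [this, Equiv.swap_apply_left]
        exact h2
      · by_cases hx2 : (x : ℕ) = k + 1
        · have : x = ⟨k + 1, hk⟩ := Fin.ext hx2
          rw [this, Equiv.swap_apply_right]
          exact h1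
        · rw [Equiv.swap_apply_of_ne_of_ne]
          · rw [hc x hx1 hx2]
          · intro h3; apply hx1; rw [h3]
          · intro h3; apply hx2; rw [h3]
    · exact absurd rfl h
  · rw [dif_neg hk] at h ⊢
    split_ifs at h with hc
    · rw [hc]; rfl
    · exact absurd rfl h

theorem rp_cons {ι : Type} [Fintype ι] [DecidableEq ι] (P Q : Matrix (ι × ι) (ι × ι) F) (n : ℕ)
    (g : ℕ × Bool) (w : List (ℕ × Bool)) :
    rp P Q n (g :: w) = gn (if g.2 then P else Q) n g.1 * rp P Q n w := by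
  unfold rp
  rw [List.map_cons, List.prod_cons]

theorem rp_suppD {ι : Type} [Fintype ι] [DecidableEq ι] {d : ι → ℕ}
    {P Q : Matrix (ι × ι) (ι × ι) F} (hP : FlipD d P) (hQ : FlipD d Q) {n : ℕ}
    (w : List (ℕ × Bool)) :
    ∀ {s t : Fin n → ι}, rp P Q n w s t ≠ 0 → ∀ x, d (s (permOf n w x)) = d (t x) := by
  induction w with
  | nil =>
    intro s t h x
    unfold rp at h
    rw [List.map_nil, List.prod_nil] at h
    have : s = t := by
      by_contra hne
      exact h (Matrix.one_apply_ne hne)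
    rw [this]
    rfl
  | cons g w ih =>
    intro s t h x
    rw [rp_cons, Matrix.mul_apply] at h
    obtain ⟨r, _, hr⟩ := Finset.exists_ne_zero_of_sum_ne_zero h
    have h1 : gn (if g.2 then P else Q) n g.1 s r ≠ 0 := left_ne_zero_of_mul hr
    have h2 : rp P Q n w r t ≠ 0 := right_ne_zero_of_mul hr
    have hF : FlipD d (if g.2 then P else Q) := by split_ifs <;> assumption
    rw [permOf_cons, Equiv.Perm.mul_apply, gn_suppD hF h1, ih h2]

theorem gn_emb {ι κ : Type} [DecidableEq ι] [DecidableEq κ] {e : ι → κ}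
    (he : Function.Injective e) {A : Matrix (κ × κ) (κ × κ) F} {B : Matrix (ι × ι) (ι × ι) F}
    (hAB : ∀ p q : ι × ι, A (e p.1, e p.2) (e q.1, e q.2) = B p q) (n k : ℕ) (s t : Fin n → ι) :
    gn A n k (e ∘ s) (e ∘ t) = gn B n k s t := by
  unfold gn
  by_cases hk : k + 1 < n
  · rw [dif_pos hk, dif_pos hk]
    by_cases hc : ∀ j : Fin n, (j : ℕ) ≠ k → (j : ℕ) ≠ k + 1 → s j = t j
    · rw [if_pos hc, if_pos (fun j h1 h2 => by simp only [Function.comp_apply]; rw [hc j h1 h2])]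
      exact hAB (s ⟨k, by omega⟩, s ⟨k + 1, hk⟩) (t ⟨k, by omega⟩, t ⟨k + 1, hk⟩)
    · rw [if_neg hc, if_neg]
      intro h
      exact hc (fun j h1 h2 => he (h j h1 h2))
  · rw [dif_neg hk, dif_neg hk]
    by_cases hc : s = t
    · rw [if_pos hc, if_pos (by rw [hc])]
    · rw [if_neg hc, if_neg (fun h => hc (he.comp_left h))]

theorem rp_emb {ι κ : Type} [Fintype ι] [DecidableEq ι] [Fintype κ] [DecidableEq κ] {e : ι → κ}
    (he : Function.Injective e) {d : κ → ℕ} (hd : ∀ x, d x = 0 ↔ x ∈ Set.range e)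
    {P Q : Matrix (κ × κ) (κ × κ) F} {P' Q' : Matrix (ι × ι) (ι × ι) F}
    (hP : FlipD d P) (hQ : FlipD d Q)
    (hPP : ∀ p q : ι × ι, P (e p.1, e p.2) (e q.1, e q.2) = P' p q)
    (hQQ : ∀ p q : ι × ι, Q (e p.1, e p.2) (e q.1, e q.2) = Q' p q)
    (n : ℕ) (w : List (ℕ × Bool)) :
    ∀ s t : Fin n → ι, rp P Q n w (e ∘ s) (e ∘ t) = rp P' Q' n w s t := by
  induction w with
  | nil =>
    intro s t
    unfold rp
    rw [List.map_nil, List.map_nil, List.prod_nil, List.prod_nil]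
    by_cases hc : s = t
    · rw [hc, Matrix.one_apply_eq, Matrix.one_apply_eq]
    · rw [Matrix.one_apply_ne hc, Matrix.one_apply_ne (fun h => hc (he.comp_left h))]
  | cons g w ih =>
    intro s t
    rw [rp_cons, rp_cons, Matrix.mul_apply, Matrix.mul_apply]
    symm
    apply Fintype.sum_of_injective (fun r : Fin n → ι => e ∘ r) he.comp_left
    · intro r hr
      by_contra hne
      apply hr
      have h1 : gn (if g.2 then P else Q) n g.1 (e ∘ s) r ≠ 0 := left_ne_zero_of_mul hne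
      have hF : FlipD d (if g.2 then P else Q) := by split_ifs <;> assumption
      have h2 : ∀ x, r x ∈ Set.range e := by
        intro x
        rw [← hd, ← gn_suppD hF h1 x, hd]
        exact ⟨_, rfl⟩
      choose r' hr' using h2
      exact ⟨r', funext hr'⟩
    · intro r
      rw [ih r t]
      congr 1
      symm
      apply gn_emb he
      split_ifs
      · exact hPP
      · exact hQQ

/-- **Periodicity.** The colour `m l` and the colour `m` have the same value at a root of unity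
of order `m`, for knots. -/
theorem cj_period {u : Fˣ} {m l n : ℕ} (hm : 0 < m) (hl : 0 < l) (hu : IsPrimitiveRoot (u ^ 2) m)
    (hul : u ^ (m * (l - 1)) = 1) {w : List (ℕ × Bool)} (hw : IsKnot n w) :
    cj (m * l) n w u = cj m n w u := by
  set M := m * l with hM
  have hM0 : 0 < M := Nat.mul_pos hm hl
  have hmM : m ≤ M := Nat.le_mul_of_pos_right m hl
  have hz : ∀ k : ℤ, u ^ ((M : ℤ) * k) = u ^ ((m : ℤ) * k) := by
    intro k
    have e : (M : ℤ) * k = (m : ℤ) * k + ((m * (l - 1) : ℕ) : ℤ) * k := by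
      have : (M : ℤ) = m + ((m * (l - 1) : ℕ) : ℤ) := by
        have h1 : M = m + m * (l - 1) := by
          obtain ⟨l', rfl⟩ : ∃ l', l = l' + 1 := ⟨l - 1, by omega⟩
          rw [hM, Nat.add_sub_cancel]; ring
        exact_mod_cast h1
      rw [this]; ring
    rw [e, zpow_add, zpow_mul u ((m * (l - 1) : ℕ) : ℤ) k, zpow_natCast, hul, one_zpow, mul_one]
  have hz2 : ∀ k c : ℤ, u ^ ((M : ℤ) * k + c) = u ^ ((m : ℤ) * k + c) := by
    intro k c
    rw [zpow_add, zpow_add, hz]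
  have hz1 : ∀ k : ℤ, u ^ ((M : ℤ) + k) = u ^ ((m : ℤ) + k) := by
    intro k
    have := hz 1
    rw [mul_one, mul_one] at this
    rw [zpow_add, zpow_add, this]
  have hbr : ∀ k : ℤ, brR u ((M : ℤ) + k) = brR u ((m : ℤ) + k) := by
    intro k
    unfold brR
    rw [zpow_neg, zpow_neg, hz1]
  set e : Fin m → Fin M := Fin.castLE hmM with he
  have hinj : Function.Injective e := Fin.castLE_injective hmM
  have heq : ∀ x : Fin m, ((e x : Fin M) : ℕ) = (x : ℕ) := fun x => rfl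
  have hd : ∀ x : Fin M, (x : ℕ) / m = 0 ↔ x ∈ Set.range e := by
    intro x
    rw [Nat.div_eq_zero_iff]
    constructor
    · intro h
      have h1 : (x : ℕ) < m := by omega
      exact ⟨⟨x, h1⟩, Fin.ext rfl⟩
    · rintro ⟨y, rfl⟩
      right
      rw [heq]
      exact y.2
  have hPP : ∀ p q : Fin m × Fin m, cP M u (e p.1, e p.2) (e q.1, e q.2) = cP m u p q := by
    intro p q
    unfold cP
    simp only [heq]
    by_cases hc : (p.1 : ℕ) + p.2 = q.1 + q.2 ∧ (q.2 : ℕ) ≤ p.1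
    · rw [if_pos hc, if_pos hc]
      congr 1
      · congr 2
        congr 1
        have e1 : -((M : ℤ) - 1) * (1 + (q.1 : ℕ) + (q.2 : ℕ)) + 2 * (p.1 : ℕ) * (p.2 : ℕ) =
            (M : ℤ) * (-(1 + (q.1 : ℕ) + (q.2 : ℕ))) +
              ((1 + (q.1 : ℕ) + (q.2 : ℕ)) + 2 * (p.1 : ℕ) * (p.2 : ℕ)) := by ring
        have e2 : -((m : ℤ) - 1) * (1 + (q.1 : ℕ) + (q.2 : ℕ)) + 2 * (p.1 : ℕ) * (p.2 : ℕ) =
            (m : ℤ) * (-(1 + (q.1 : ℕ) + (q.2 : ℕ))) +
              ((1 + (q.1 : ℕ) + (q.2 : ℕ)) + 2 * (p.1 : ℕ) * (p.2 : ℕ)) := by ring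
        rw [e1, e2, hz2]
      · apply Finset.prod_congr rfl
        intro t _
        have e1 : (M : ℤ) - (q.1 : ℕ) + t = (M : ℤ) + (-(q.1 : ℕ) + t) := by ring
        have e2 : (m : ℤ) - (q.1 : ℕ) + t = (m : ℤ) + (-(q.1 : ℕ) + t) := by ring
        rw [e1, e2, hbr]
    · rw [if_neg hc, if_neg hc]
  have hQQ : ∀ p q : Fin m × Fin m, cN M u (e p.1, e p.2) (e q.1, e q.2) = cN m u p q := by
    intro p q
    unfold cN
    simp only [heq]
    by_cases hc : (p.1 : ℕ) + p.2 = q.1 + q.2 ∧ (q.1 : ℕ) ≤ p.2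
    · rw [if_pos hc, if_pos hc]
      congr 1
      · congr 3
        congr 1
        have e1 : ((M : ℤ) - 1) * (1 + (q.1 : ℕ) + (q.2 : ℕ)) - 2 * (q.1 : ℕ) * (q.2 : ℕ) =
            (M : ℤ) * (1 + (q.1 : ℕ) + (q.2 : ℕ)) +
              (-(1 + (q.1 : ℕ) + (q.2 : ℕ)) - 2 * (q.1 : ℕ) * (q.2 : ℕ)) := by ring
        have e2 : ((m : ℤ) - 1) * (1 + (q.1 : ℕ) + (q.2 : ℕ)) - 2 * (q.1 : ℕ) * (q.2 : ℕ) =
            (m : ℤ) * (1 + (q.1 : ℕ) + (q.2 : ℕ)) +
              (-(1 + (q.1 : ℕ) + (q.2 : ℕ)) - 2 * (q.1 : ℕ) * (q.2 : ℕ)) := by ring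
        rw [e1, e2, hz2]
      · apply Finset.prod_congr rfl
        intro t _
        have e1 : (M : ℤ) - (q.2 : ℕ) + t = (M : ℤ) + (-(q.2 : ℕ) + t) := by ring
        have e2 : (m : ℤ) - (q.2 : ℕ) + t = (m : ℤ) + (-(q.2 : ℕ) + t) := by ring
        rw [e1, e2, hbr]
    · rw [if_neg hc, if_neg hc]
  have hFP := flipD_cP hm hu hM
  have hFQ := flipD_cN hm hu hM
  have hrp := rp_emb hinj (d := fun x : Fin M => (x : ℕ) / m) hd hFP hFQ hPP hQQ (n + 1) w
  have hcons : ∀ s : Fin n → Fin m, (Fin.cons (⟨0, hM0⟩ : Fin M) (e ∘ s) : Fin (n + 1) → Fin M) =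
      e ∘ (Fin.cons (⟨0, hm⟩ : Fin m) s : Fin (n + 1) → Fin m) := by
    intro s
    funext x
    refine Fin.cases ?_ (fun i => ?_) x
    · rfl
    · rfl
  unfold cj
  rw [dif_pos hM0, dif_pos hm]
  symm
  apply Fintype.sum_of_injective (fun s : Fin n → Fin m => e ∘ s) hinj.comp_left
  · intro s hs
    by_contra hne
    apply hs
    have h1 := rp_suppD hFP hFQ w (right_ne_zero_of_mul hne)
    set t : Fin (n + 1) → Fin M := Fin.cons ⟨0, hM0⟩ s with ht
    have h2 : ∀ k : ℕ, ((t ((permOf (n + 1) w ^ k) 0) : Fin M) : ℕ) / m = 0 := by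
      intro k
      induction k with
      | zero =>
        rw [pow_zero, Equiv.Perm.one_apply]
        show (0 : ℕ) / m = 0
        exact Nat.zero_div m
      | succ k ih =>
        rw [pow_succ', Equiv.Perm.mul_apply]
        rw [h1]
        exact ih
    have h3 : ∀ x, s x ∈ Set.range e := by
      intro x
      rw [← hd]
      obtain ⟨k, hk⟩ := hw.2 x.succ
      have h4 := h2 k
      rw [hk] at h4
      exact h4
    choose r hr using h3
    exact ⟨r, funext hr⟩
  · intro s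
    rw [hcons, hrp]
    congr 1
    apply Finset.prod_congr rfl
    intro x _
    simp only [Function.comp_apply, heq]
    have e1 : (M : ℤ) - 1 - 2 * (s x : ℕ) = (M : ℤ) + (-1 - 2 * (s x : ℕ)) := by ring
    have e2 : (m : ℤ) - 1 - 2 * (s x : ℕ) = (m : ℤ) + (-1 - 2 * (s x : ℕ)) := by ring
    rw [e1, e2, hz1]

end digits

end Pool.Agent.Q79.KV
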