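import Mathlib
import Pool.Agent.Q79.KvJ
import Pool.Agent.Q79.KvK

set_option autoImplicit false

open Finset Polynomial

namespace Pool.Agent.Q79.KV

/-! ### Composite levels -/

theorem common_root_aux {p m k : ℕ} (hp : p.Prime) (hm : 0 < m) (hpm : ¬ p ∣ m) (hk : 0 < k)
    (F : Type) [Field F] [CharP F p] [IsAlgClosed F] :
    ∃ (u : Fˣ),
      IsPrimitiveRoot (u ^ 2) m ∧ u ^ (2 * m) = 1 ∧ u ^ (m * (p ^ k - 1)) = 1 ∧
      (cyclotomic (2 * (m * p ^ k)) F).eval (u : F) = 0 ∧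
      (cyclotomic (2 * m) F).eval (u : F) = 0 := by
  have i0 : Fact p.Prime := ⟨hp⟩
  have hmF : ((m : ℕ) : F) ≠ 0 := by
    intro h
    exact hpm ((CharP.cast_eq_zero_iff F p m).1 h)
  have hroot : ∀ r : ℕ, 0 < r → ((r : ℕ) : F) ≠ 0 → ∃ u : Fˣ, IsPrimitiveRoot u r := by
    intro r hr hrF
    have i1 : NeZero ((r : ℕ) : F) := ⟨hrF⟩
    have hdeg : (cyclotomic r F).degree ≠ 0 := by
      rw [degree_cyclotomic]
      have := Nat.totient_pos.2 hr
      exact_mod_cast this.ne'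
    obtain ⟨x, hx⟩ := IsAlgClosed.exists_root (cyclotomic r F) hdeg
    have h1 : IsPrimitiveRoot x r := isRoot_cyclotomic_iff.1 hx
    have h2 : IsUnit x := h1.isUnit hr.ne'
    obtain ⟨u, rfl⟩ := h2
    exact ⟨u, IsPrimitiveRoot.coe_units_iff.1 h1⟩
  by_cases h2 : p = 2
  · subst h2
    obtain ⟨u, hu⟩ := hroot m hm hmF
    have hcop : Nat.Coprime 2 m := (Nat.Prime.coprime_iff_not_dvd Nat.prime_two).2 hpm
    have hu0 : (cyclotomic m F).eval (u : F) = 0 := by
      have i1 : NeZero ((m : ℕ) : F) := ⟨hmF⟩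
      exact isRoot_cyclotomic_iff.2 (IsPrimitiveRoot.coe_units_iff.2 hu)
    refine ⟨u, hu.pow_of_coprime 2 hcop, ?_, ?_, ?_, ?_⟩
    · rw [mul_comm, pow_mul, hu.pow_eq_one, one_pow]
    · rw [pow_mul, hu.pow_eq_one, one_pow]
    · have e : 2 * (m * 2 ^ k) = 2 ^ (k + 1) * m := by ring
      rw [e, cyclotomic_mul_prime_pow_eq F hpm (by omega), eval_pow, hu0, zero_pow]
      have h6 : 2 ^ (k + 1 - 1) < 2 ^ (k + 1) := Nat.pow_lt_pow_right (by norm_num) (by omega)
      omega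
    · have e : 2 * m = 2 ^ 1 * m := by ring
      rw [e, cyclotomic_mul_prime_pow_eq F hpm (by omega), eval_pow, hu0, zero_pow]
      norm_num
  · have hnd : ¬ p ∣ 2 * m := by
      intro h
      rcases (Nat.Prime.dvd_mul hp).1 h with h3 | h3
      · exact h2 ((Nat.prime_dvd_prime_iff_eq hp Nat.prime_two).1 h3)
      · exact hpm h3
    have h2mF : ((2 * m : ℕ) : F) ≠ 0 := by
      intro h
      exact hnd ((CharP.cast_eq_zero_iff F p (2 * m)).1 h)
    obtain ⟨u, hu⟩ := hroot (2 * m) (by omega) h2mF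
    have hu0 : (cyclotomic (2 * m) F).eval (u : F) = 0 := by
      have i1 : NeZero ((2 * m : ℕ) : F) := ⟨h2mF⟩
      exact isRoot_cyclotomic_iff.2 (IsPrimitiveRoot.coe_units_iff.2 hu)
    refine ⟨u, ?_, hu.pow_eq_one, ?_, ?_, hu0⟩
    · exact hu.pow (by omega) rfl
    · have hodd : Odd (p ^ k) := (hp.odd_of_ne_two h2).pow
      obtain ⟨t, ht⟩ := hodd
      have e : m * (p ^ k - 1) = (2 * m) * t := by
        rw [ht, Nat.add_sub_cancel]; ring
      rw [e, pow_mul, hu.pow_eq_one, one_pow]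
    · have e : 2 * (m * p ^ k) = p ^ k * (2 * m) := by ring
      rw [e, cyclotomic_mul_prime_pow_eq F hnd hk, eval_pow, hu0, zero_pow]
      have h6 : p ^ (k - 1) < p ^ k := Nat.pow_lt_pow_right hp.one_lt (by omega)
      omega

/-- a root of unity of characteristic `p` which is a common root of the two cyclotomic
polynomials -/
theorem exists_common_root {p m k : ℕ} (hp : p.Prime) (hm : 0 < m) (hpm : ¬ p ∣ m) (hk : 0 < k) :
    ∃ (F : Type) (_ : Field F) (_ : CharP F p) (u : Fˣ),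
      IsPrimitiveRoot (u ^ 2) m ∧ u ^ (2 * m) = 1 ∧ u ^ (m * (p ^ k - 1)) = 1 ∧
      (cyclotomic (2 * (m * p ^ k)) F).eval (u : F) = 0 ∧
      (cyclotomic (2 * m) F).eval (u : F) = 0 := by
  have i0 : Fact p.Prime := ⟨hp⟩
  have i1 : CharP (AlgebraicClosure (ZMod p)) p :=
    charP_of_injective_algebraMap (algebraMap (ZMod p) (AlgebraicClosure (ZMod p))).injective p
  exact ⟨AlgebraicClosure (ZMod p), inferInstance, i1, common_root_aux hp hm hpm hk _⟩

theorem cyc_dvd {m : ℕ} (hm : 0 < m) {v : ℂ} (hv : IsPrimitiveRoot v m) {P : ℤ[X]}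
    (h : aeval v P = 0) : cyclotomic m ℤ ∣ P := by
  have hint : IsIntegral ℤ v := hv.isIntegral hm
  have h1 := minpoly.isIntegrallyClosed_dvd hint h
  rwa [← cyclotomic_eq_minpoly hv hm] at h1

/-- The product over the conjugates is an integer. -/
theorem prod_int {m : ℕ} (hpos : 0 < m) (P : ℤ[X]) :
    ∃ z : ℤ, ((z : ℤ) : ℂ) = ∏ v ∈ primitiveRoots m ℂ, aeval v P := by
  have i1 : NeZero m := ⟨hpos.ne'⟩
  have i2 : NeZero ((m : ℕ) : ℚ) := ⟨by exact_mod_cast hpos.ne'⟩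
  have i3 : IsCyclotomicExtension {m} ℚ (CyclotomicField m ℚ) :=
    CyclotomicField.isCyclotomicExtension _ _
  let K := CyclotomicField m ℚ
  have i4 : IsCyclotomicExtension {m} ℚ K := i3
  set ζ : K := IsCyclotomicExtension.zeta m ℚ K with hζ
  have hζp : IsPrimitiveRoot ζ m := IsCyclotomicExtension.zeta_spec _ ℚ K
  set y : K := aeval ζ P with hy
  have hirr : Irreducible (cyclotomic m ℚ) := cyclotomic.irreducible_rat hpos
  have hyint : IsIntegral ℤ y := by
    have h1 : IsIntegral ℤ ζ := hζp.isIntegral hpos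
    exact IsIntegral.of_mem_of_fg (Algebra.adjoin ℤ {ζ}) h1.fg_adjoin_singleton y
      (aeval_mem_adjoin_singleton ℤ ζ)
  have hnint : IsIntegral ℤ (Algebra.norm ℚ y) := Algebra.isIntegral_norm ℚ hyint
  obtain ⟨z, hz⟩ := IsIntegrallyClosed.isIntegral_iff.1 hnint
  have hprod := Algebra.norm_eq_prod_embeddings ℚ ℂ y
  have h2 : ∏ σ : K →ₐ[ℚ] ℂ, σ y = ∏ v ∈ primitiveRoots m ℂ, aeval v P := by
    rw [← Finset.prod_coe_sort (primitiveRoots m ℂ) (fun v => aeval v P)]
    apply Fintype.prod_equiv (hζp.embeddingsEquivPrimitiveRoots ℂ hirr)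
    intro σ
    rw [hζp.embeddingsEquivPrimitiveRoots_apply_coe ℂ hirr, hy]
    rw [aeval_def, aeval_def]
    have h3 := Polynomial.hom_eval₂ P (algebraMap ℤ K) (σ : K →+* ℂ) ζ
    have h4 : (σ : K →+* ℂ).comp (algebraMap ℤ K) = algebraMap ℤ ℂ := RingHom.ext_int _ _
    rw [h4] at h3
    exact h3
  refine ⟨z, ?_⟩
  rw [← h2, ← hprod, ← hz]
  simp

/-- If the reduction of `P` has a zero at a root of the cyclotomic polynomial in characteristic
`p`, then `p` divides the norm. -/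
theorem dvd_norm {m p : ℕ} (hm : 2 ≤ m) {P : ℤ[X]} {z : ℤ}
    (hz : ((z : ℤ) : ℂ) = ∏ v ∈ primitiveRoots m ℂ, aeval v P)
    {F : Type} [Field F] [CharP F p] {u : F} (hu : (cyclotomic m F).eval u = 0)
    (h0 : P.eval₂ (Int.castRingHom F) u = 0) : (p : ℤ) ∣ z := by
  have hm0 : 0 < m := by omega
  have i1 : NeZero m := ⟨hm0.ne'⟩
  set v0 : ℂ := Complex.exp (2 * Real.pi * Complex.I / m) with hv0d
  have hv0 : IsPrimitiveRoot v0 m := Complex.isPrimitiveRoot_exp m hm0.ne'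
  set J : Finset ℕ := (range m).filter (fun a => a.Coprime m) with hJ
  set Q : ℤ[X] := ∏ a ∈ J, P.comp (X ^ a) with hQ
  have hQv : aeval v0 Q = ((z : ℤ) : ℂ) := by
    rw [hz, hQ, map_prod]
    apply Finset.prod_bij (fun a _ => v0 ^ a)
    · intro a ha
      rw [hJ, Finset.mem_filter] at ha
      rw [mem_primitiveRoots hm0]
      exact hv0.pow_of_coprime a ha.2
    · intro a ha b hb hab
      rw [hJ, Finset.mem_filter, Finset.mem_range] at ha hb
      exact hv0.pow_inj ha.1 hb.1 hab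
    · intro v hv
      rw [mem_primitiveRoots hm0] at hv
      obtain ⟨a, ha, rfl⟩ := hv0.eq_pow_of_pow_eq_one hv.pow_eq_one
      refine ⟨a, ?_, rfl⟩
      rw [hJ, Finset.mem_filter, Finset.mem_range]
      exact ⟨ha, (hv0.pow_iff_coprime hm0 a).1 hv⟩
    · intro a _
      rw [aeval_comp, map_pow, aeval_X]
  have h1 : aeval v0 (Q - C z) = 0 := by
    rw [map_sub, hQv, aeval_C]
    simp
  obtain ⟨R, hR⟩ := cyc_dvd hm0 hv0 h1
  have h2 : (Q - C z).eval₂ (Int.castRingHom F) u = 0 := by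
    rw [hR, eval₂_mul, ← eval_map (Int.castRingHom F) u (p := cyclotomic m ℤ), map_cyclotomic, hu,
      zero_mul]
  rw [eval₂_sub, eval₂_C] at h2
  have h3 : Q.eval₂ (Int.castRingHom F) u = 0 := by
    rw [hQ, eval₂_finsetProd]
    apply Finset.prod_eq_zero (i := 1)
    · rw [hJ, Finset.mem_filter, Finset.mem_range]
      exact ⟨by omega, Nat.coprime_one_left m⟩
    · rw [pow_one, comp_X]
      exact h0
  rw [h3, zero_sub, neg_eq_zero] at h2
  exact (CharP.intCast_eq_zero_iff F p z).1 h2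

/-- **The step.** -/
theorem step {m p k n : ℕ} (hp : p.Prime) (hm : 0 < m) (hpm : ¬ p ∣ m) (hk : 0 < k)
    {w : List (ℕ × Bool)} (hw : IsKnot n w) {z : ℤ}
    (hz : ((z : ℤ) : ℂ) = ∏ v ∈ primitiveRoots (2 * m) ℂ, cjones m n w v)
    (hpz : ¬ (p : ℤ) ∣ z) {v : ℂ} (hv : IsPrimitiveRoot v (2 * (m * p ^ k))) :
    cjones (m * p ^ k) n w v ≠ 0 := by
  have hpk : 0 < p ^ k := pow_pos hp.pos k
  have hN : 0 < m * p ^ k := Nat.mul_pos hm hpk
  intro h0
  obtain ⟨P, hP⟩ := exists_poly (m * p ^ k) n w (m := 2 * (m * p ^ k)) (by omega)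
  obtain ⟨P', hP'⟩ := exists_poly m n w (m := 2 * m) (by omega)
  rw [cjones_eq_aeval hN le_rfl hP hv] at h0
  obtain ⟨R, hR⟩ := cyc_dvd (by omega) hv h0
  obtain ⟨F, iF, iC, u, h1, h2, h3, h4, h5⟩ := exists_common_root hp hm hpm hk
  have h6 : u ^ (2 * (m * p ^ k)) = 1 := by
    rw [← mul_assoc, pow_mul, h2, one_pow]
  have h7 := hP F u h6
  have h8 := hP' F u h2
  rw [hR, eval₂_mul, ← eval_map (Int.castRingHom F) (u : F) (p := cyclotomic _ ℤ), map_cyclotomic,
    h4, zero_mul, cj_period hm hpk h1 h3 hw, h8] at h7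
  apply hpz
  apply dvd_norm (m := 2 * m) (by omega) (P := P') _ h5 h7
  rw [hz]
  apply Finset.prod_congr rfl
  intro v hv
  rw [mem_primitiveRoots (by omega)] at hv
  exact cjones_eq_aeval hm le_rfl hP' hv

/-- the level one -/
theorem level_one {n : ℕ} {w : List (ℕ × Bool)} (hw : IsKnot n w) {v : ℂ}
    (hv : IsPrimitiveRoot v (2 * 1)) : ‖cjones 1 n w v‖ = 1 := by
  have hv1 : v = -1 := by
    rw [mul_one] at hv
    exact hv.eq_neg_one_of_two_right
  have h1 : IsUnit (cj 1 n w (-1 : ℤˣ)) := cj_unit (by simp) one_pos hw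
  have hv0 : v ≠ 0 := hv.ne_zero (by omega)
  have h2 := cj_eq hv0 (N := 1) (fun k h1 h2 => by omega) n w
  have h3 := map_cj (Int.castRingHom ℂ) (-1 : ℤˣ) 1 n w
  have h4 : Units.map (Int.castRingHom ℂ : ℤ →* ℂ) (-1 : ℤˣ) = Units.mk0 v hv0 := by
    ext
    rw [Units.val_mk0, hv1]
    simp
  rw [h4, h2] at h3
  rw [← h3]
  rcases Int.isUnit_iff.1 h1 with h5 | h5
  · rw [h5]; simp
  · rw [h5]; simp

theorem prod_level_one {n : ℕ} {w : List (ℕ × Bool)} (hw : IsKnot n w) :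
    ∏ v ∈ primitiveRoots (2 * 1) ℂ, ‖cjones 1 n w v‖ = 1 := by
  apply Finset.prod_eq_one
  intro v hv
  rw [mem_primitiveRoots (by omega)] at hv
  exact level_one hw hv

/-- The absolute value of the norm is a natural number. -/
theorem norm_nat {m : ℕ} (hm : 0 < m) (n : ℕ) (w : List (ℕ × Bool)) :
    ∃ z : ℤ, ((z : ℤ) : ℂ) = ∏ v ∈ primitiveRoots (2 * m) ℂ, cjones m n w v ∧
      ((z.natAbs : ℕ) : ℝ) = ∏ v ∈ primitiveRoots (2 * m) ℂ, ‖cjones m n w v‖ := by
  obtain ⟨P, hP⟩ := exists_poly m n w (m := 2 * m) (by omega)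
  obtain ⟨z, hz⟩ := prod_int (m := 2 * m) (by omega) P
  have h1 : ((z : ℤ) : ℂ) = ∏ v ∈ primitiveRoots (2 * m) ℂ, cjones m n w v := by
    rw [hz]
    apply Finset.prod_congr rfl
    intro v hv
    rw [mem_primitiveRoots (by omega)] at hv
    exact (cjones_eq_aeval hm le_rfl hP hv).symm
  refine ⟨z, h1, ?_⟩
  rw [← norm_prod, ← h1, Complex.norm_intCast]
  exact_mod_cast Nat.cast_natAbs (α := ℝ) z

theorem prod_le {m : ℕ} (hm : 0 < m) {n : ℕ} {w : List (ℕ × Bool)} (hw : IsKnot n w) :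
    ∏ v ∈ primitiveRoots (2 * m) ℂ, ‖cjones m n w v‖ ≤
      Real.exp (137 * (n + w.length) * m * (Real.log m) ^ 2) := by
  rcases Nat.lt_or_ge m 2 with h | h
  · have h1 : m = 1 := by omega
    subst h1
    rw [prod_level_one hw]
    apply Real.one_le_exp
    positivity
  · by_cases h0 : ∏ v ∈ primitiveRoots (2 * m) ℂ, ‖cjones m n w v‖ = 0
    · rw [h0]; positivity
    · have hpos : 0 < ∏ v ∈ primitiveRoots (2 * m) ℂ, ‖cjones m n w v‖ :=
        lt_of_le_of_ne (Finset.prod_nonneg (fun _ _ => norm_nonneg _)) (Ne.symm h0)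
      rw [← Real.log_le_iff_le_exp hpos, Real.log_prod (fun v hv => by
        intro h2; exact h0 (Finset.prod_eq_zero hv h2))]
      refine le_trans ?_ (sum_plus h hm le_rfl n w)
      exact Finset.sum_le_sum (fun v _ => le_max_right _ _)

theorem card_primeFactors_le (z : ℕ) {B : ℝ} (hB : 0 ≤ B) (hz : (z : ℝ) ≤ Real.exp B) :
    (z.primeFactors.card : ℝ) ≤ B / Real.log 2 := by
  rcases Nat.eq_zero_or_pos z with h | h
  · subst h
    rw [Nat.primeFactors_zero, Finset.card_empty, Nat.cast_zero]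
    have := Real.log_pos (x := 2) (by norm_num)
    positivity
  · have hl2 := Real.log_pos (x := 2) (by norm_num)
    rw [le_div_iff₀ hl2]
    have h1 : 2 ^ z.primeFactors.card ≤ z := by
      calc 2 ^ z.primeFactors.card = ∏ _p ∈ z.primeFactors, 2 := by rw [Finset.prod_const]
        _ ≤ ∏ p ∈ z.primeFactors, p :=
            Finset.prod_le_prod' (fun p hp => (Nat.prime_of_mem_primeFactors hp).two_le)
        _ ≤ z := Nat.le_of_dvd h (Nat.prod_primeFactors_dvd z)
    have h2 : (2 : ℝ) ^ z.primeFactors.card ≤ Real.exp B := by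
      refine le_trans ?_ hz
      exact_mod_cast h1
    have h3 := Real.log_le_log (by positivity) h2
    rwa [Real.log_exp, Real.log_pow] at h3

theorem count_abs {N M : ℕ} (hN : 2 ≤ N) (hM0 : 0 < M) (hM : M ≤ N) (n : ℕ)
    (w : List (ℕ × Bool))
    (h2 : 0 ≤ ∑ v ∈ primitiveRoots (2 * N) ℂ, Real.log ‖cjones M n w v‖) {ε : ℝ} (hε : 0 < ε) :
    (Nat.card {v : ℂ // IsPrimitiveRoot v (2 * N) ∧
      ε * N ≤ |Real.log ‖cjones M n w v‖|} : ℝ) ≤
      274 * (n + w.length) * (Real.log N) ^ 2 / ε := by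
  classical
  have hN0 : (0 : ℝ) < N := by exact_mod_cast (by omega : 0 < N)
  set T := (primitiveRoots (2 * N) ℂ).filter
    (fun v => ε * N ≤ |Real.log ‖cjones M n w v‖|) with hT
  have hcard : Nat.card {v : ℂ // IsPrimitiveRoot v (2 * N) ∧
      ε * N ≤ |Real.log ‖cjones M n w v‖|} = T.card := by
    apply Nat.subtype_card
    intro v
    rw [hT, Finset.mem_filter, mem_primitiveRoots (by omega)]
  rw [hcard, le_div_iff₀ hε]
  have h1 := sum_abs_of hN hM0 hM n w h2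
  have h2 : (T.card : ℝ) * (ε * N) ≤ ∑ v ∈ T, |Real.log ‖cjones M n w v‖| := by
    rw [← nsmul_eq_mul]
    apply Finset.card_nsmul_le_sum
    intro v hv
    rw [hT, Finset.mem_filter] at hv
    exact hv.2
  have h3 : ∑ v ∈ T, |Real.log ‖cjones M n w v‖| ≤
      ∑ v ∈ primitiveRoots (2 * N) ℂ, |Real.log ‖cjones M n w v‖| :=
    Finset.sum_le_sum_of_subset_of_nonneg (Finset.filter_subset _ _) (fun _ _ _ => abs_nonneg _)
  have h4 := (h2.trans h3).trans h1
  have h5 : (T.card : ℝ) * ε * N ≤ (274 * (n + w.length) * (Real.log N) ^ 2) * N := by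
    calc _ = (T.card : ℝ) * (ε * N) := by ring
      _ ≤ _ := h4
      _ = _ := by ring
  exact le_of_mul_le_mul_right h5 hN0

/-- the natural number of the level `m` -/
theorem exists_level {m : ℕ} (hm : 0 < m) {n : ℕ} {w : List (ℕ × Bool)} (hw : IsKnot n w) :
    ∃ z : ℕ, (z : ℝ) = ∏ v ∈ primitiveRoots (2 * m) ℂ, ‖cjones m n w v‖ ∧
      ∀ p k : ℕ, p.Prime → 0 < k → ¬ p ∣ m * z →
        ∀ v : ℂ, IsPrimitiveRoot v (2 * (m * p ^ k)) → cjones (m * p ^ k) n w v ≠ 0 := by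
  obtain ⟨z, h1, h2⟩ := norm_nat hm n w
  refine ⟨z.natAbs, h2, fun p k hp hk hpz v hv => ?_⟩
  rw [hp.dvd_mul, not_or] at hpz
  exact step hp hm hpz.1 hk hw h1 (fun h => hpz.2 (Int.natCast_dvd.1 h)) hv

/-- Infinitely many levels with a given number of prime factors. -/
theorem infinite_levels {n : ℕ} {w : List (ℕ × Bool)} (hw : IsKnot n w) (r : ℕ) :
    (∃ m : ℕ, Squarefree m ∧ m.primeFactors.card = r ∧
      ∃ v, IsPrimitiveRoot v (2 * m) ∧ cjones m n w v ≠ 0) ∧
    {N : ℕ | Squarefree N ∧ N.primeFactors.card = r + 1 ∧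
      ∀ v, IsPrimitiveRoot v (2 * N) → cjones N n w v ≠ 0}.Infinite := by
  have key : ∀ r : ℕ, (∃ m : ℕ, Squarefree m ∧ m.primeFactors.card = r ∧
      ∃ v, IsPrimitiveRoot v (2 * m) ∧ cjones m n w v ≠ 0) →
      {N : ℕ | Squarefree N ∧ N.primeFactors.card = r + 1 ∧
      ∀ v, IsPrimitiveRoot v (2 * N) → cjones N n w v ≠ 0}.Infinite := by
    rintro r ⟨m, hsq, hc, v0, hv0, hne⟩
    have hm : 0 < m := Nat.pos_of_ne_zero hsq.ne_zero
    obtain ⟨z, hz, hst⟩ := exists_level hm hw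
    have hz0 : z ≠ 0 := by
      rintro rfl
      rw [Nat.cast_zero, eq_comm, Finset.prod_eq_zero_iff] at hz
      obtain ⟨v, hv, h0⟩ := hz
      rw [mem_primitiveRoots (by omega)] at hv
      rw [norm_eq_zero] at h0
      -- all vanish
      obtain ⟨P, hP⟩ := exists_poly m n w (m := 2 * m) (by omega)
      rw [cjones_eq_aeval hm le_rfl hP hv] at h0
      rw [cjones_eq_aeval hm le_rfl hP hv0] at hne
      exact all_ne (by omega) hv0 hne hv h0
    apply Set.infinite_of_not_bddAbove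
    rintro ⟨B, hB⟩
    obtain ⟨p, hp1, hp2⟩ := Nat.exists_infinite_primes (B + m * z + 1)
    have hmz : 0 < m * z := Nat.mul_pos hm (Nat.pos_of_ne_zero hz0)
    have hnd : ¬ p ∣ m * z := fun h => by
      have := Nat.le_of_dvd hmz h
      omega
    have hpm : ¬ p ∣ m := fun h => hnd (Dvd.dvd.mul_right h z)
    have hmem : m * p ^ 1 ∈ {N : ℕ | Squarefree N ∧ N.primeFactors.card = r + 1 ∧
        ∀ v, IsPrimitiveRoot v (2 * N) → cjones N n w v ≠ 0} := by
      refine ⟨?_, ?_, fun v hv => hst p 1 hp2 one_pos hnd v hv⟩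
      · rw [pow_one, Nat.squarefree_mul (((Nat.Prime.coprime_iff_not_dvd hp2).2 hpm).symm)]
        exact ⟨hsq, hp2.squarefree⟩
      · rw [pow_one, Nat.Coprime.primeFactors_mul ((Nat.Prime.coprime_iff_not_dvd hp2).2 hpm).symm,
          Finset.card_union_of_disjoint, hc, hp2.primeFactors, Finset.card_singleton]
        rw [hp2.primeFactors, Finset.disjoint_singleton_right]
        intro h
        exact hpm (Nat.dvd_of_mem_primeFactors h)
    have h1 := hB hmem
    rw [pow_one] at h1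
    have : p ≤ m * p := Nat.le_mul_of_pos_left p hm
    omega
  have hex : ∀ r : ℕ, ∃ m : ℕ, Squarefree m ∧ m.primeFactors.card = r ∧
      ∃ v, IsPrimitiveRoot v (2 * m) ∧ cjones m n w v ≠ 0 := by
    intro r
    induction r with
    | zero =>
      refine ⟨1, squarefree_one, by simp, -1, ?_, ?_⟩
      · exact IsPrimitiveRoot.neg_one 0 (by norm_num)
      · have h1 := level_one hw (v := -1) (IsPrimitiveRoot.neg_one 0 (by norm_num))
        intro h
        rw [h, norm_zero] at h1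
        exact zero_ne_one h1
    | succ r ih =>
      obtain ⟨N, hN1, hN2, hN3⟩ := (key r ih).nonempty
      have hN : 0 < N := Nat.pos_of_ne_zero hN1.ne_zero
      exact ⟨N, hN1, hN2, _, Complex.isPrimitiveRoot_exp (2 * N) (by omega),
        hN3 _ (Complex.isPrimitiveRoot_exp (2 * N) (by omega))⟩
  exact ⟨hex r, key r (hex r)⟩

end Pool.Agent.Q79.KV
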