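import Mathlib
import Pool.Agent.Q79.KuC
import Pool.Agent.Q79.KvK

set_option autoImplicit false

open Finset

namespace Pool.Agent.Q79.KW

open Pool.Agent.Q79.KV Pool.Agent.Q79.KU

/-! ### Gaussian binomials at roots of unity: the theorem of Lucas -/

section field

variable {F : Type} [Field F]

theorem ga_m_zero {u : Fˣ} {m : ℕ} (hu : IsPrimitiveRoot (u ^ 2) m) {b : ℕ} (h1 : 0 < b)
    (h2 : b < m) : ga ((u ^ 2 : Fˣ) : F) m b = 0 := by
  rw [ga_gb]
  have h := gb_prod u b (m - b)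
  have e : b + (m - b) = m := by omega
  rw [e] at h
  have hR : ∏ t ∈ range (m - b), brR u ((b : ℤ) + 1 + t) = 0 := by
    apply Finset.prod_eq_zero (Finset.mem_range.2 (show m - b - 1 < m - b by omega))
    rw [brR_eq_zero_iff hu]
    refine ⟨1, ?_⟩
    have : ((m - b - 1 : ℕ) : ℤ) = (m : ℤ) - b - 1 := by omega
    rw [this]; ring
  rw [hR] at h
  rcases mul_eq_zero.1 h with h3 | h3
  · rw [h3, mul_zero]
  · exfalso
    rw [Finset.prod_eq_zero_iff] at h3
    obtain ⟨t, ht, h0⟩ := h3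
    rw [Finset.mem_range] at ht
    rw [brR_eq_zero_iff hu] at h0
    have h5 : m ∣ t + 1 := by exact_mod_cast h0
    have := Nat.le_of_dvd (by omega) h5
    omega

theorem lucas' {t : F} {m : ℕ} (hm : 0 < m) (ht : t ^ m = 1)
    (h0 : ∀ b, 0 < b → b < m → ga t m b = 0) (a : ℕ) :
    ∀ b, ga t a b = ga t (a % m) (b % m) * (((a / m).choose (b / m) : ℕ) : F) := by
  induction a using Nat.strong_induction_on with
  | _ a ih =>
    intro b
    by_cases ha : a < m
    · rw [Nat.mod_eq_of_lt ha, Nat.div_eq_of_lt ha]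
      by_cases hb : b < m
      · rw [Nat.mod_eq_of_lt hb, Nat.div_eq_of_lt hb]
        simp
      · rw [ga_of_lt t a b (by omega), Nat.choose_eq_zero_of_lt (Nat.div_pos (by omega) hm)]
        simp
    · obtain ⟨x, rfl⟩ : ∃ x, a = m + x := ⟨a - m, by omega⟩
      rw [ga_shift ht h0 hm x b, Nat.add_mod_left, Nat.add_div_left x hm, ih x (by omega) b]
      by_cases hb : m ≤ b
      · obtain ⟨y, rfl⟩ : ∃ y, b = m + y := ⟨b - m, by omega⟩
        rw [if_pos hb, Nat.add_sub_cancel_left, ih x (by omega) y, Nat.add_mod_left,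
          Nat.add_div_left y hm, Nat.choose_succ_succ]
        push_cast
        ring
      · rw [if_neg hb, Nat.div_eq_of_lt (show b < m by omega)]
        simp

theorem pow_m {u : Fˣ} {m : ℕ} (hu : IsPrimitiveRoot (u ^ 2) m) :
    ((u ^ 2 : Fˣ) : F) ^ m = 1 := by
  rw [← Units.val_pow_eq_pow_val, hu.pow_eq_one, Units.val_one]

theorem lucas {u : Fˣ} {m : ℕ} (hm : 0 < m) (hu : IsPrimitiveRoot (u ^ 2) m) (a b : ℕ) :
    ga ((u ^ 2 : Fˣ) : F) a b =
      ga ((u ^ 2 : Fˣ) : F) (a % m) (b % m) * (((a / m).choose (b / m) : ℕ) : F) :=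
  lucas' hm (pow_m hu) (fun _ h1 h2 => ga_m_zero hu h1 h2) a b

theorem mod_le_of_ne {u : Fˣ} {m : ℕ} (hm : 0 < m) (hu : IsPrimitiveRoot (u ^ 2) m) {a b : ℕ}
    (h : ga ((u ^ 2 : Fˣ) : F) a b ≠ 0) : b % m ≤ a % m := by
  by_contra h1
  apply h
  rw [lucas hm hu, ga_of_lt _ _ _ (not_le.1 h1), zero_mul]

end field

theorem add_mod_le (m a b : ℕ) : (a + b) % m ≤ a % m + b % m := by
  rw [Nat.add_mod]
  exact Nat.mod_le _ _

theorem nocarry {m b y : ℕ} (hm : 0 < m) (h : b % m ≤ (b + y) % m) :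
    (b + y) % m = b % m + y % m := by
  have h1 := Nat.mod_lt b hm
  have h2 := Nat.mod_lt y hm
  rw [Nat.add_mod] at h ⊢
  by_cases h3 : b % m + y % m < m
  · exact Nat.mod_eq_of_lt h3
  · exfalso
    have h4 : (b % m + y % m) % m = b % m + y % m - m := by
      rw [Nat.mod_eq_sub_mod (by omega), Nat.mod_eq_of_lt (by omega)]
    omega

theorem div_of_mod {m b y : ℕ} (hm : 0 < m) (h : (b + y) % m = b % m + y % m) :
    (b + y) / m = b / m + y / m := by
  have h1 := Nat.div_add_mod b m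
  have h2 := Nat.div_add_mod y m
  have h3 := Nat.div_add_mod (b + y) m
  have h4 : m * ((b + y) / m) = m * (b / m + y / m) := by
    rw [mul_add]; omega
  exact Nat.eq_of_mul_eq_mul_left hm h4

/-! ### One coordinate of an entry -/

section ring

variable {R : Type} [CommRing R]

/-- the factor of one coordinate of an entry of the crossing matrix -/
def phi (t : Rˣ) (ε h : ℤ) (α β γ δ : ℕ) : R :=
  ∑ k ∈ range (β + 1), if γ ≤ α + k then
    (-1) ^ k * ((t ^ (((k : ℤ) * (k + ε)) / 2 + k * h) : Rˣ) : R) *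
      (ga (t : R) (α + k) k * ga (t : R) δ (α + k - γ)) else 0

end ring

end Pool.Agent.Q79.KW
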