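import Mathlib
import Pool.Agent.Q2.PM.Stm

set_option autoImplicit false

/-! JOB C11 of the project PM. -/

namespace Q79.PM_C11

open Subgroup Q2.PM
open Q2.TN (IsPNil IsSyl IsChief Nm)

lemma idx2 {G : Type} [Group G] [Finite G] (A L : Subgroup G) (h : A ≤ L)
    (hc : Nat.card L = 2 * Nat.card A) {a b : G} (ha : a ∈ L) (hb : b ∈ L) (ha' : a ∉ A)
    (hb' : b ∉ A) : a * b ∈ A := by
  have h1 : Nat.card (A.subgroupOf L) = Nat.card A :=
    Nat.card_congr (Subgroup.subgroupOfEquivOfLe h).toEquiv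
  have h2 : (A.subgroupOf L).index = 2 := by
    have h3 := Subgroup.card_mul_index (A.subgroupOf L)
    rw [h1, hc, mul_comm 2] at h3
    exact Nat.eq_of_mul_eq_mul_left Nat.card_pos h3
  have h4 := (Subgroup.mul_mem_iff_of_index_two h2 (a := ⟨a, ha⟩) (b := ⟨b, hb⟩)).2 (by
    rw [Subgroup.mem_subgroupOf, Subgroup.mem_subgroupOf]
    exact ⟨fun h => absurd h ha', fun h => absurd h hb'⟩)
  rw [Subgroup.mem_subgroupOf] at h4
  exact h4

/-- the subgroup `A ∪ x A` -/
lemma ext2 {G : Type} [Group G] [Finite G] (A : Subgroup G) (x : G)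
    (hn : ∀ a ∈ A, x * a * x⁻¹ ∈ A) (h2 : x * x ∈ A) (hx : x ∉ A) :
    ∃ H : Subgroup G, (∀ g, g ∈ H ↔ g ∈ A ∨ x⁻¹ * g ∈ A) ∧ Nat.card H = 2 * Nat.card A := by
  have hn' : ∀ a ∈ A, x⁻¹ * a * x ∈ A := by
    intro a ha
    have e : x⁻¹ * a * x = (x * x)⁻¹ * (x * a * x⁻¹) * (x * x) := by group
    rw [e]
    exact A.mul_mem (A.mul_mem (A.inv_mem h2) (hn a ha)) h2
  let H : Subgroup G :=
    { carrier := {g | g ∈ A ∨ x⁻¹ * g ∈ A}
      one_mem' := Or.inl A.one_mem
      mul_mem' := by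
        rintro g h (hg | hg) (hh | hh)
        · exact Or.inl (A.mul_mem hg hh)
        · right
          have e : x⁻¹ * (g * h) = (x⁻¹ * g * x) * (x⁻¹ * h) := by group
          rw [e]
          exact A.mul_mem (hn' g hg) hh
        · right
          have e : x⁻¹ * (g * h) = (x⁻¹ * g) * h := by group
          rw [e]
          exact A.mul_mem hg hh
        · left
          have e : g * h = (x * (x⁻¹ * g) * x⁻¹) * (x * x) * (x⁻¹ * h) := by group
          rw [e]
          exact A.mul_mem (A.mul_mem (hn _ hg) h2) hh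
      inv_mem' := by
        rintro g (hg | hg)
        · exact Or.inl (A.inv_mem hg)
        · right
          have e : x⁻¹ * g⁻¹ = (x⁻¹ * (x⁻¹ * g)⁻¹ * x) * (x * x)⁻¹ := by group
          rw [e]
          exact A.mul_mem (hn' _ (A.inv_mem hg)) (A.inv_mem h2) }
  refine ⟨H, fun g => Iff.rfl, ?_⟩
  have e1 : (H : Set G) = (A : Set G) ∪ (fun g => x * g) '' (A : Set G) := by
    ext g
    constructor
    · rintro (hg | hg)
      · exact Or.inl hg
      · exact Or.inr ⟨x⁻¹ * g, hg, by group⟩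
    · rintro (hg | ⟨a, ha, rfl⟩)
      · exact Or.inl hg
      · right
        show x⁻¹ * (x * a) ∈ A
        rw [inv_mul_cancel_left]
        exact ha
  have hd : Disjoint (A : Set G) ((fun g => x * g) '' (A : Set G)) := by
    rw [Set.disjoint_left]
    rintro g hg ⟨a, ha, rfl⟩
    apply hx
    have := A.mul_mem hg (A.inv_mem ha)
    simpa using this
  have e2 : (H : Set G).ncard = 2 * (A : Set G).ncard := by
    rw [e1, Set.ncard_union_eq hd, Set.ncard_image_of_injective _ (mul_right_injective x)]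
    ring
  exact e2

theorem c11 (h1 : S_B1) (h2 : S_B2) (c10 : S_C10) : S_C11 := by
  intro k G _ _ P T L U env hT hk hcT hL hTL hcL hab hex hU hU2 hLU
  have hTn : T.Normal := hT.1
  obtain ⟨-, hTb, hTp, hmin⟩ := hT
  have hT' : Q2.PM.IsMin T := ⟨hTn, hTb, hTp, hmin⟩
  have hTU : T ≤ U := hTL.trans hLU
  -- `T` is central in `U`
  have hch : IsChief (⊥ : Subgroup G) T :=
    ⟨inferInstance, hTn, bot_lt_iff_ne_bot.2 hTb, fun K hK _ hKT => hmin K hK hKT⟩
  have hcent : ∀ x ∈ T, ∀ y ∈ U, x * y = y * x := by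
    intro x hx y hy
    have := (h1 G ⊥ T U hch hTp hU hU2).2 x hx y hy
    rw [Subgroup.mem_bot] at this
    have e : x * y = (x * y * x⁻¹ * y⁻¹) * (y * x) := by group
    rw [e, this, one_mul]
  have hcard : Nat.card L = 2 * Nat.card T := by
    rw [hcL, hcT, ← pow_succ']
    congr 1
    omega
  -- an element `c`
  obtain ⟨c, hcL', hcT'⟩ : ∃ c ∈ L, c ∉ T := by
    by_contra hcon
    push Not at hcon
    have : L = T := le_antisymm hcon hTL
    rw [this] at hcard
    have := Nat.card_pos (α := T)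
    omega
  have hcinv : c⁻¹ ∉ T := fun h => hcT' (by simpa using T.inv_mem h)
  have hsplit : ∀ y ∈ L, y ∉ T → c⁻¹ * y ∈ T := fun y hy hy' =>
    idx2 T L hTL hcard (L.inv_mem hcL') hy hcinv hy'
  -- elements of `U` commuting with `c` are in `L`
  have key : ∀ x ∈ U, x * c = c * x → x ∈ L := by
    intro x hx hxc
    have hxL : ∀ y ∈ L, x * y = y * x := by
      intro y hy
      by_cases hyT : y ∈ T
      · exact (hcent y hyT x hx).symm
      · have h3 := hcent _ (hsplit y hy hyT) x hx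
        have e : y = c * (c⁻¹ * y) := by group
        rw [e]
        calc x * (c * (c⁻¹ * y)) = (x * c) * (c⁻¹ * y) := by group
          _ = c * (x * (c⁻¹ * y)) := by rw [hxc]; group
          _ = c * ((c⁻¹ * y) * x) := by rw [h3]
          _ = _ := by group
    have hWn : (U ⊓ centralizer (L : Set G)).Normal := by
      have : (centralizer (L : Set G)).Normal := inferInstance
      infer_instance
    have hW := c10 k G P T L (U ⊓ centralizer (L : Set G)) env hT' hk hcT hL hTL hcL hab hex hWn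
      (hU2.to_le inf_le_left) (le_inf hLU fun y hy => by
        rw [Subgroup.mem_centralizer_iff]
        intro z hz
        exact hab z hz y hy) (fun z hz y hy => by
        have := (Subgroup.mem_centralizer_iff.1 hz.2) y hy
        exact this.symm)
    rw [← hW]
    exact Subgroup.mem_inf.2 ⟨hx, Subgroup.mem_centralizer_iff.2 fun y hy => (hxL y hy).symm⟩
  -- the commutator with `c`
  have htau : ∀ x : G, c⁻¹ * (x⁻¹ * c * x) ∈ T := by
    intro x
    have m1 : x⁻¹ * c * x ∈ L := by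
      have := hL.conj_mem c hcL' x⁻¹
      rwa [inv_inv] at this
    refine hsplit _ m1 fun h => hcT' ?_
    have := hTn.conj_mem _ h x
    have e : x * (x⁻¹ * c * x) * x⁻¹ = c := by group
    rwa [e] at this
  -- squares
  have hsq : ∀ x ∈ U, x ∉ L → x * x ∈ T := by
    intro x hx hxL
    have ht := htau x
    set t := c⁻¹ * (x⁻¹ * c * x) with htd
    have hct : x⁻¹ * c * x = c * t := by rw [htd]; group
    have ht2 : t * t = 1 := hex t (hTL ht)
    have htx : t * x = x * t := hcent t ht x hx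
    -- `x * x` commutes with `c`
    have hxx : x * x * c = c * (x * x) := by
      have a1 : c * x = x * (c * t) := by rw [← hct]; group
      calc x * x * c = x * x * (c * (t * t)) := by rw [ht2, mul_one]
        _ = x * (x * (c * t)) * t := by group
        _ = x * (c * x) * t := by rw [← a1]
        _ = (x * c) * (x * t) := by group
        _ = (x * c) * (t * x) := by rw [htx]
        _ = (x * (c * t)) * x := by group
        _ = (c * x) * x := by rw [← a1]
        _ = _ := by group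
    have m := key (x * x) (U.mul_mem hx hx) hxx
    by_contra hxT
    have h3 := hsplit _ m hxT
    apply hxL
    apply key x hx
    -- `c = x² s`
    set r := c⁻¹ * (x * x) with hr
    have hrx : r * x = x * r := hcent r h3 x hx
    have hc1 : c = x * x * r⁻¹ := by rw [hr]; group
    have hrx' : r⁻¹ * x = x * r⁻¹ := by
      calc r⁻¹ * x = r⁻¹ * (x * r) * r⁻¹ := by group
        _ = r⁻¹ * (r * x) * r⁻¹ := by rw [hrx]
        _ = _ := by group
    calc x * c = x * (x * x * r⁻¹) := by rw [← hc1]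
      _ = x * x * (x * r⁻¹) := by group
      _ = x * x * (r⁻¹ * x) := by rw [hrx']
      _ = (x * x * r⁻¹) * x := by group
      _ = c * x := by rw [← hc1]
  by_contra hne
  have hlt : L < U := lt_of_le_of_ne hLU (Ne.symm hne)
  obtain ⟨x, hxU, hxL, hxx, hxP⟩ := h2 G L U P hL hU hlt hU2 env.syl.1
  have hxT : x ∉ T := fun h => hxL (hTL h)
  have hxxT := hsq x hxU hxL
  obtain ⟨H, hH, hHc⟩ := ext2 T x (fun a ha => hTn.conj_mem a ha x) hxxT hxT
  obtain ⟨V, hV, -⟩ := ext2 L x (fun a ha => hL.conj_mem a ha x) hxx hxL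
  have hLV : L ≤ V := fun y hy => (hV y).2 (Or.inl hy)
  have hxV : x ∈ V := (hV x).2 (Or.inr (by rw [inv_mul_cancel]; exact L.one_mem))
  have hxH : x ∈ H := (hH x).2 (Or.inr (by rw [inv_mul_cancel]; exact T.one_mem))
  have hHV : H ≤ V := by
    intro y hy
    rcases (hH y).1 hy with h | h
    · exact hLV (hTL h)
    · exact (hV y).2 (Or.inr (hTL h))
  have hHU : H ≤ U := by
    intro y hy
    rcases (hH y).1 hy with h | h
    · exact hTU h
    · have e : y = x * (x⁻¹ * y) := by group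
      rw [e]
      exact U.mul_mem hxU (hTU h)
  have hUP : U ≤ P := by
    have : Fact (Nat.Prime 2) := ⟨Nat.prime_two⟩
    have h3 : IsPGroup 2 (P ⊔ U : Subgroup G) := IsPGroup.to_sup_of_normal_right env.syl.1 hU2
    have h4 := (env.syl.1.toSylow env.syl.2).is_maximal' h3 (by
      show P ≤ P ⊔ U
      exact le_sup_left)
    have h5 : P ⊔ U = P := h4
    exact le_sup_right.trans h5.le
  have hHk : Nat.card H = 2 ^ k := by
    rw [hHc, hcT, ← pow_succ']
    congr 1
    omega
  -- membership in the normalizer of `V`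
  have hnorm : ∀ g : G, g * x * g⁻¹ ∈ V → g⁻¹ * x * g ∈ V → g ∈ Nm V := by
    intro g hg hg'
    have hin : ∀ g : G, g * x * g⁻¹ ∈ V → ∀ v ∈ V, g * v * g⁻¹ ∈ V := by
      intro g hg v hv
      rcases (hV v).1 hv with h | h
      · exact hLV (hL.conj_mem v h g)
      · have e : g * v * g⁻¹ = (g * x * g⁻¹) * (g * (x⁻¹ * v) * g⁻¹) := by group
        rw [e]
        exact V.mul_mem hg (hLV (hL.conj_mem _ h g))
    rw [Subgroup.mem_normalizer_iff]
    intro v
    refine ⟨hin g hg v, fun h => ?_⟩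
    have := hin g⁻¹ (by rwa [inv_inv]) _ h
    have e : g⁻¹ * (g * v * g⁻¹) * g⁻¹⁻¹ = v := by group
    rwa [e] at this
  have hPS : P ≤ Nm V := by
    intro y hy
    have hy1 : ∀ y ∈ P, y * x * y⁻¹ ∈ V := by
      intro y hy
      have h3 := hxP y hy
      have e : y * x * y⁻¹ = (y * x * y⁻¹ * x⁻¹) * x := by group
      rw [e]
      exact V.mul_mem (hLV h3) hxV
    refine hnorm y (hy1 y hy) ?_
    have := hy1 y⁻¹ (P.inv_mem hy)
    rwa [inv_inv] at this
  have hHS : Nm (H ⊓ U) ≤ Nm V := by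
    rw [inf_eq_left.2 hHU]
    intro g hg
    have h3 : ∀ g ∈ Nm H, g * x * g⁻¹ ∈ V := by
      intro g hg
      exact hHV ((Subgroup.mem_normalizer_iff.1 hg x).1 hxH)
    refine hnorm g (h3 g hg) ?_
    have := h3 g⁻¹ (Subgroup.inv_mem _ hg)
    rwa [inv_inv] at this
  have hS := env.gen H U (Nm V) (hHU.trans hUP) hHk hU hU2 hPS hHS
  have hVn : V.Normal := Subgroup.normalizer_eq_top_iff.1 hS
  -- the central element
  have ht := htau x
  have hzc : ∀ g : G, g⁻¹ * (c⁻¹ * (x⁻¹ * c * x)) * g = c⁻¹ * (x⁻¹ * c * x) := by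
    intro g
    -- `g⁻¹ x g = x l`
    have m1 : g⁻¹ * x * g ∈ V := by
      have := hVn.conj_mem x hxV g⁻¹
      rwa [inv_inv] at this
    have m2 : x⁻¹ * (g⁻¹ * x * g) ∈ L := by
      rcases (hV _).1 m1 with h | h
      · exfalso
        apply hxL
        have := hL.conj_mem _ h g
        have e : g * (g⁻¹ * x * g) * g⁻¹ = x := by group
        rwa [e] at this
      · exact h
    have m3 := htau g
    obtain ⟨l, hl⟩ : ∃ l, l = x⁻¹ * (g⁻¹ * x * g) := ⟨_, rfl⟩
    obtain ⟨t, ht'⟩ : ∃ t, t = c⁻¹ * (g⁻¹ * c * g) := ⟨_, rfl⟩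
    rw [← hl] at m2
    rw [← ht'] at m3
    have e1 : g⁻¹ * x * g = x * l := by rw [hl]; group
    have e2 : g⁻¹ * c * g = c * t := by rw [ht']; group
    have e3 : g⁻¹ * (c⁻¹ * (x⁻¹ * c * x)) * g =
        (g⁻¹ * c * g)⁻¹ * ((g⁻¹ * x * g)⁻¹ * (g⁻¹ * c * g) * (g⁻¹ * x * g)) := by group
    rw [e3, e1, e2]
    -- commutation
    have tx : t * x = x * t := hcent t m3 x hxU
    have tl : t * l = l * t := hab t (hTL m3) l m2
    have m4 : x⁻¹ * c * x ∈ L := by
      have := hL.conj_mem c hcL' x⁻¹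
      rwa [inv_inv] at this
    have lw : (x⁻¹ * c * x) * l = l * (x⁻¹ * c * x) := hab _ m4 l m2
    have hw : (x * l)⁻¹ * c * (x * l) = x⁻¹ * c * x := by
      calc (x * l)⁻¹ * c * (x * l) = l⁻¹ * ((x⁻¹ * c * x) * l) := by group
        _ = l⁻¹ * (l * (x⁻¹ * c * x)) := by rw [lw]
        _ = _ := by group
    have ht3 : t * (x * l) = (x * l) * t := by
      calc t * (x * l) = (t * x) * l := by group
        _ = x * (t * l) := by rw [tx]; group
        _ = x * (l * t) := by rw [tl]
        _ = _ := by group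
    have tw : t⁻¹ * (c⁻¹ * (x⁻¹ * c * x)) = (c⁻¹ * (x⁻¹ * c * x)) * t⁻¹ := by
      have h5 := hab t⁻¹ (L.inv_mem (hTL m3)) _ (hTL ht)
      exact h5
    calc (c * t)⁻¹ * ((x * l)⁻¹ * (c * t) * (x * l))
        = t⁻¹ * c⁻¹ * ((x * l)⁻¹ * c * (t * (x * l))) := by group
      _ = t⁻¹ * c⁻¹ * (((x * l)⁻¹ * c * (x * l)) * t) := by rw [ht3]; group
      _ = (t⁻¹ * (c⁻¹ * (x⁻¹ * c * x))) * t := by rw [hw]; group
      _ = _ := by rw [tw]; group
  obtain ⟨z, hz⟩ : ∃ z, z = c⁻¹ * (x⁻¹ * c * x) := ⟨_, rfl⟩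
  rw [← hz] at ht hzc
  have hz1 : z ≠ 1 := by
    intro h
    apply hxL
    apply key x hxU
    have e : c * x = x * c * z := by rw [hz]; group
    rw [e, h, mul_one]
  have hz2 : z ^ 2 = 1 := by rw [pow_two]; exact hex z (hTL ht)
  have hzn : (zpowers z).Normal := by
    refine ⟨fun a ha g => ?_⟩
    obtain ⟨m, rfl⟩ := Subgroup.mem_zpowers_iff.1 ha
    have h3 : g * z * g⁻¹ = z := by
      have := hzc g
      calc g * z * g⁻¹ = g * (g⁻¹ * z * g) * g⁻¹ := by rw [this]
        _ = z := by group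
    have h4 : g * z ^ m * g⁻¹ = z ^ m := by
      rw [← conj_zpow, h3]
    rw [h4]
    exact ha
  have hzT : zpowers z ≤ T := by
    rw [Subgroup.zpowers_le]
    exact ht
  rcases hmin (zpowers z) hzn hzT with h | h
  · exact hz1 (Subgroup.zpowers_eq_bot.1 h)
  · have h3 : Nat.card T ≤ 2 := by
      rw [← h, Nat.card_zpowers]
      exact orderOf_le_of_pow_eq_one (by norm_num) hz2
    have h4 : 2 ^ 2 ≤ 2 ^ (k - 1) := Nat.pow_le_pow_right (by norm_num) (by omega)
    rw [← hcT] at h4
    omega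

end Q79.PM_C11
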