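import Pool.Agent.Q201.AR.Stm

/-!
Project AR (helper201), JOB PAD: computability of a padded predicate.
-/

set_option autoImplicit false

namespace Q79.AR_PAD

open Q201.AR

theorem t_PAD : S_PAD := by
  intro n k h P hP
  have hc : Primrec (Fin.castLE h) := Primrec.dom_finite _
  have hg : Primrec (fun (t : Fin k → ℕ) (l : Fin n) => t (Fin.castLE h l)) :=
    Primrec.fin_curry.2 (Primrec.fin_app.comp Primrec.fst (hc.comp Primrec.snd))
  obtain ⟨hd, hP'⟩ := hP
  refine ⟨fun t => hd _, ?_⟩
  exact hP'.comp hg.to_comp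

end Q79.AR_PAD
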