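import Pool.Agent.Q61.MH.Stm

/-!
# Project MH, job LOC2 (MP_499f6d_pr): `S_loc2`
-/

set_option autoImplicit false

open Real Set

noncomputable section

namespace Pool.Agent.Q79.MH_LOC2

open Pool.Agent.Q61.MH

/-- nonnegativity from a zero at `0` and a nonnegative derivative -/
theorem step (f f' : ℝ → ℝ) (h0 : f 0 = 0)
    (hd : ∀ s ∈ Icc (0 : ℝ) (1 / 2), HasDerivAt f (f' s) s)
    (h : ∀ s ∈ Icc (0 : ℝ) (1 / 2), 0 ≤ f' s) :
    ∀ s ∈ Icc (0 : ℝ) (1 / 2), 0 ≤ f s := by
  intro s hs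
  have hm : MonotoneOn f (Icc (0 : ℝ) (1 / 2)) := by
    apply monotoneOn_of_deriv_nonneg (convex_Icc _ _)
    · exact fun t ht => (hd t ht).continuousAt.continuousWithinAt
    · intro t ht
      rw [interior_Icc] at ht
      exact (hd t (Ioo_subset_Icc_self ht)).differentiableAt.differentiableWithinAt
    · intro t ht
      rw [interior_Icc] at ht
      rw [(hd t (Ioo_subset_Icc_self ht)).deriv]
      exact h t (Ioo_subset_Icc_self ht)
  have := hm (left_mem_Icc.mpr (by norm_num)) hs hs.1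
  rwa [h0] at this

/-- derivative of `(x+s)^a` -/
theorem dplus (x a s : ℝ) (h : 0 < x + s) :
    HasDerivAt (fun s : ℝ => (x + s) ^ a) (a * (x + s) ^ (a - 1)) s := by
  have h1 : HasDerivAt (fun s : ℝ => x + s) 1 s := (hasDerivAt_id s).const_add x
  exact (h1.rpow_const (p := a) (Or.inl h.ne')).congr_deriv (by ring)

/-- derivative of `(x-s)^a` -/
theorem dminus (x a s : ℝ) (h : 0 < x - s) :
    HasDerivAt (fun s : ℝ => (x - s) ^ a) (-(a * (x - s) ^ (a - 1))) s := by
  have h1 : HasDerivAt (fun s : ℝ => x - s) (-1) s := (hasDerivAt_id s).const_sub x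
  exact (h1.rpow_const (p := a) (Or.inl h.ne')).congr_deriv (by ring)

/-- concavity of `t^p`, `0 ≤ p ≤ 1` -/
theorem conc (x s p : ℝ) (hx : 0 ≤ x - s) (hx' : 0 ≤ x + s) (hp : 0 ≤ p) (hp' : p ≤ 1) :
    (x + s) ^ p + (x - s) ^ p ≤ 2 * x ^ p := by
  have hc := (Real.concaveOn_rpow hp hp').2
  have h := @hc (x + s) hx' (x - s) hx (1 / 2) (1 / 2) (by norm_num) (by norm_num) (by norm_num)
  simp only [smul_eq_mul] at h
  have he : 1 / 2 * (x + s) + 1 / 2 * (x - s) = x := by ring
  rw [he] at h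
  linarith

/-- **JOB LOC2** -/
theorem loc2 : S_loc2 := by
  intro r x hr2 hr3 hx
  have hpos : ∀ s ∈ Icc (0 : ℝ) (1 / 2), 0 < x + s ∧ 0 < x - s := by
    intro s hs
    constructor <;> linarith [hs.1, hs.2]
  -- the three functions
  have h3 : ∀ s ∈ Icc (0 : ℝ) (1 / 2),
      0 ≤ 2 * (r * (r - 1)) * x ^ (r - 2) - r * (r - 1) * ((x + s) ^ (r - 2) + (x - s) ^ (r - 2)) := by
    intro s hs
    have := conc x s (r - 2) (hpos s hs).2.le (hpos s hs).1.le (by linarith) (by linarith)
    have hrr : 0 ≤ r * (r - 1) := by nlinarith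
    nlinarith
  have h2 := step (fun s => 2 * s * (r * (r - 1)) * x ^ (r - 2) - r * ((x + s) ^ (r - 1) - (x - s) ^ (r - 1)))
    (fun s => 2 * (r * (r - 1)) * x ^ (r - 2) - r * (r - 1) * ((x + s) ^ (r - 2) + (x - s) ^ (r - 2)))
    (by simp) (by
      intro s hs
      have e1 := dplus x (r - 1) s (hpos s hs).1
      have e2 := dminus x (r - 1) s (hpos s hs).2
      have e3 : HasDerivAt (fun s : ℝ => 2 * s * (r * (r - 1)) * x ^ (r - 2))
          (2 * (r * (r - 1)) * x ^ (r - 2)) s := by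
        have := ((((hasDerivAt_id s).const_mul 2).mul_const (r * (r - 1))).mul_const (x ^ (r - 2)))
        exact this.congr_deriv (by ring)
      have e := e3.sub ((e1.sub e2).const_mul r)
      refine e.congr_deriv ?_
      rw [show r - 1 - 1 = r - 2 by ring]
      ring) h3
  have h1 := step (fun s => 2 * x ^ r + s ^ 2 * (r * (r - 1)) * x ^ (r - 2) - (x + s) ^ r - (x - s) ^ r)
    (fun s => 2 * s * (r * (r - 1)) * x ^ (r - 2) - r * ((x + s) ^ (r - 1) - (x - s) ^ (r - 1)))
    (by simp; ring) (by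
      intro s hs
      have e1 := dplus x r s (hpos s hs).1
      have e2 := dminus x r s (hpos s hs).2
      have e3 : HasDerivAt (fun s : ℝ => 2 * x ^ r + s ^ 2 * (r * (r - 1)) * x ^ (r - 2))
          (2 * s * (r * (r - 1)) * x ^ (r - 2)) s := by
        have := ((((hasDerivAt_pow 2 s).mul_const (r * (r - 1))).mul_const (x ^ (r - 2))).const_add
          (2 * x ^ r))
        exact this.congr_deriv (by norm_num)
      have e := (e3.sub e1).sub e2
      exact e.congr_deriv (by ring)) h2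
  have h0 := step (fun s => 2 * s * x ^ r + s ^ 3 / 3 * (r * (r - 1)) * x ^ (r - 2) -
      ((x + s) ^ (r + 1) - (x - s) ^ (r + 1)) / (r + 1))
    (fun s => 2 * x ^ r + s ^ 2 * (r * (r - 1)) * x ^ (r - 2) - (x + s) ^ r - (x - s) ^ r)
    (by simp) (by
      intro s hs
      have e1 := dplus x (r + 1) s (hpos s hs).1
      have e2 := dminus x (r + 1) s (hpos s hs).2
      have e3 : HasDerivAt (fun s : ℝ => 2 * s * x ^ r + s ^ 3 / 3 * (r * (r - 1)) * x ^ (r - 2))
          (2 * x ^ r + s ^ 2 * (r * (r - 1)) * x ^ (r - 2)) s := by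
        have a1 := ((hasDerivAt_id s).const_mul 2).mul_const (x ^ r)
        have a2 := ((((hasDerivAt_pow 3 s).div_const 3).mul_const (r * (r - 1))).mul_const (x ^ (r - 2)))
        exact (a1.add a2).congr_deriv (by norm_num)
      have e := e3.sub ((e1.sub e2).div_const (r + 1))
      refine e.congr_deriv ?_
      have hr1 : r + 1 ≠ 0 := by linarith
      rw [show r + 1 - 1 = r by ring]
      field_simp
      ring) h1
  have := h0 (1 / 2) (right_mem_Icc.mpr (by norm_num))
  nlinarith [this]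

end Pool.Agent.Q79.MH_LOC2
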