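import Mathlib
import Pool.Agent.H749R2.Area4

set_option autoImplicit false

open MeasureTheory Set Real Filter Topology
open scoped ENNReal

namespace Pool.Agent.Q79.AA

open Pool.Agent.H749R2.Area

theorem periodic_int {F : ℝ → ℝ} (hF : Function.Periodic F (2 * π))
    (hint : ∀ a b : ℝ, IntervalIntegrable F volume a b) {N : ℕ} (hN : 1 ≤ N) :
    ∫ φ in (-π)..π, F (N * φ) = ∫ φ in (-π)..π, F φ := by
  have hN0 : (N:ℝ) ≠ 0 := by positivity
  rw [intervalIntegral.integral_comp_mul_left (fun x => F x) hN0]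
  have h1 := hF.intervalIntegral_add_zsmul_eq (n := (N:ℤ)) (t := (N:ℝ) * -π) hint
  have e1 : (N:ℝ) * -π + (N:ℤ) • (2 * π) = N * π := by
    rw [zsmul_eq_mul]; push_cast; ring
  rw [e1] at h1
  rw [h1, hF.intervalIntegral_add_eq _ (-π)]
  have e2 : -π + 2 * π = π := by ring
  rw [e2, zsmul_eq_mul, smul_eq_mul]
  push_cast
  field_simp

theorem vol_cos {κ : ℝ} (h1 : -1 ≤ κ) (h2 : κ ≤ 1) :
    ∫ φ in (-π)..π, ({φ : ℝ | Real.cos φ ≤ κ}.indicator (fun _ => (1:ℝ)) φ) =
      2 * (π - Real.arccos κ) := by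
  have hπ := Real.pi_pos
  have ha0 := Real.arccos_nonneg κ
  have ha1 := Real.arccos_le_pi κ
  set a := Real.arccos κ with ha
  have hca : Real.cos a = κ := Real.cos_arccos h1 h2
  have hmeas : MeasurableSet {φ : ℝ | Real.cos φ ≤ κ} :=
    measurableSet_le (by fun_prop) measurable_const
  have hii : ∀ x y : ℝ, IntervalIntegrable
      ({φ : ℝ | Real.cos φ ≤ κ}.indicator (fun _ => (1:ℝ))) volume x y := by
    intro x y
    rw [intervalIntegrable_iff]
    exact (integrableOn_const (by simp)).indicator hmeas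
  have key : ∀ φ : ℝ, 0 ≤ φ → φ ≤ π → (Real.cos φ ≤ κ ↔ a ≤ φ) := by
    intro φ h0 hφ
    rw [← hca]
    constructor
    · intro h
      by_contra hcon
      push Not at hcon
      exact absurd (Real.cos_lt_cos_of_nonneg_of_le_pi h0 ha1 hcon) (not_lt.mpr h)
    · intro h
      exact Real.cos_le_cos_of_nonneg_of_le_pi ha0 hφ h
  have hI1 : ∫ φ in (0:ℝ)..π, ({φ : ℝ | Real.cos φ ≤ κ}.indicator (fun _ => (1:ℝ)) φ) = π - a := by
    rw [← intervalIntegral.integral_add_adjacent_intervals (hii 0 a) (hii a π)]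
    have e1 : ∫ φ in (0:ℝ)..a, ({φ : ℝ | Real.cos φ ≤ κ}.indicator (fun _ => (1:ℝ)) φ) = 0 := by
      have : ∫ φ in (0:ℝ)..a, ({φ : ℝ | Real.cos φ ≤ κ}.indicator (fun _ => (1:ℝ)) φ) =
          ∫ φ in (0:ℝ)..a, (0:ℝ) := by
        apply intervalIntegral.integral_congr_ae
        have hne : ∀ᵐ x : ℝ, x ≠ a := by
          rw [ae_iff]; simp
        filter_upwards [hne] with x hxa hx
        rw [uIoc_of_le ha0] at hx
        rw [indicator_of_notMem]
        rw [Set.mem_ofPred_eq, key x hx.1.le (hx.2.trans ha1)]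
        intro h
        exact hxa (le_antisymm hx.2 h)
      rw [this]; simp
    have e2 : ∫ φ in a..π, ({φ : ℝ | Real.cos φ ≤ κ}.indicator (fun _ => (1:ℝ)) φ) = π - a := by
      have : ∫ φ in a..π, ({φ : ℝ | Real.cos φ ≤ κ}.indicator (fun _ => (1:ℝ)) φ) =
          ∫ φ in a..π, (1:ℝ) := by
        apply intervalIntegral.integral_congr
        intro x hx
        rw [uIcc_of_le ha1] at hx
        simp only
        rw [indicator_of_mem]
        rw [Set.mem_ofPred_eq, key x (ha0.trans hx.1) hx.2]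
        exact hx.1
      rw [this]; simp
    rw [e1, e2, zero_add]
  have hI2 : ∫ φ in (-π)..0, ({φ : ℝ | Real.cos φ ≤ κ}.indicator (fun _ => (1:ℝ)) φ) = π - a := by
    rw [← hI1]
    have h3 := intervalIntegral.integral_comp_neg (a := (0:ℝ)) (b := π)
      (f := fun φ => {φ : ℝ | Real.cos φ ≤ κ}.indicator (fun _ => (1:ℝ)) φ)
    rw [neg_zero] at h3
    rw [← h3]
    apply intervalIntegral.integral_congr
    intro x _
    simp only [indicator, Set.mem_ofPred_eq, Real.cos_neg]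
  rw [← intervalIntegral.integral_add_adjacent_intervals (hii (-π) 0) (hii 0 π), hI1, hI2]
  ring

/-- the measure of the angles with `cos (N φ) ≤ κ` -/
theorem cosvol {N : ℕ} (hN : 1 ≤ N) {κ : ℝ} (h1 : -1 ≤ κ) (h2 : κ ≤ 1) :
    volume ({φ : ℝ | Real.cos (N * φ) ≤ κ} ∩ Ioo (-π) π) =
      ENNReal.ofReal (2 * (π - Real.arccos κ)) := by
  have hπ := Real.pi_pos
  have hmeas : MeasurableSet {φ : ℝ | Real.cos (N * φ) ≤ κ} :=
    measurableSet_le (by fun_prop) measurable_const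
  have hmeas0 : MeasurableSet {φ : ℝ | Real.cos φ ≤ κ} :=
    measurableSet_le (by fun_prop) measurable_const
  have hper : Function.Periodic ({φ : ℝ | Real.cos φ ≤ κ}.indicator (fun _ => (1:ℝ))) (2 * π) := by
    intro x
    simp only [indicator, Set.mem_ofPred_eq, Real.cos_add_two_pi]
  have h3 := periodic_int hper (by
    intro x y
    rw [intervalIntegrable_iff]
    exact (integrableOn_const (by simp)).indicator hmeas0) hN
  rw [vol_cos h1 h2] at h3
  have h4 : ∫ φ in (-π)..π, ({φ : ℝ | Real.cos φ ≤ κ}.indicator (fun _ => (1:ℝ)) (N * φ)) =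
      (volume ({φ : ℝ | Real.cos (N * φ) ≤ κ} ∩ Ioc (-π) π)).toReal := by
    have e1 : ∀ φ : ℝ, {φ : ℝ | Real.cos φ ≤ κ}.indicator (fun _ => (1:ℝ)) (N * φ) =
        {φ : ℝ | Real.cos (N * φ) ≤ κ}.indicator (fun _ => (1:ℝ)) φ := by
      intro φ
      simp only [indicator, Set.mem_ofPred_eq]
    simp only [e1]
    rw [intervalIntegral.integral_of_le (by linarith), setIntegral_indicator hmeas,
      setIntegral_const, smul_eq_mul, mul_one, inter_comm]
    rfl
  have hfin : volume ({φ : ℝ | Real.cos (N * φ) ≤ κ} ∩ Ioc (-π) π) ≠ ⊤ :=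
    ((measure_mono inter_subset_right).trans_lt (by simp)).ne
  have heq : volume ({φ : ℝ | Real.cos (N * φ) ≤ κ} ∩ Ioo (-π) π) =
      volume ({φ : ℝ | Real.cos (N * φ) ≤ κ} ∩ Ioc (-π) π) := by
    apply measure_congr
    exact (ae_eq_refl _).inter Ioo_ae_eq_Ioc
  rw [heq, ← h3, h4, ENNReal.ofReal_toReal hfin]

theorem arcsin_le {x : ℝ} (h0 : 0 ≤ x) (h1 : x ≤ 1) : Real.arcsin x ≤ π / 2 * x := by
  have hπ := Real.pi_pos
  have h2 := Real.mul_le_sin (Real.arcsin_nonneg.mpr h0) (Real.arcsin_le_pi_div_two x)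
  rw [Real.sin_arcsin (by linarith) h1] at h2
  have h3 : Real.arcsin x = π / 2 * (2 / π * Real.arcsin x) := by field_simp
  rw [h3]
  exact mul_le_mul_of_nonneg_left h2 (by positivity)

theorem cosvol_le {N : ℕ} (hN : 1 ≤ N) {κ : ℝ} (h1 : 0 ≤ κ) :
    volume ({φ : ℝ | Real.cos (N * φ) ≤ κ} ∩ Ioo (-π) π) ≤ ENNReal.ofReal (π + π * κ) := by
  have hπ := Real.pi_pos
  rcases le_or_gt κ 1 with h2 | h2
  · rw [cosvol hN (by linarith) h2]
    apply ENNReal.ofReal_le_ofReal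
    rw [Real.arccos_eq_pi_div_two_sub_arcsin]
    have := arcsin_le h1 h2
    linarith
  · refine (measure_mono inter_subset_right).trans ?_
    rw [Real.volume_Ioo]
    apply ENNReal.ofReal_le_ofReal
    nlinarith

theorem cosvol_ge {N : ℕ} (hN : 1 ≤ N) {κ : ℝ} (h1 : 0 ≤ κ) (h2 : κ ≤ 1) :
    ENNReal.ofReal (π - π * κ) ≤ volume ({φ : ℝ | Real.cos (N * φ) ≤ -κ} ∩ Ioo (-π) π) := by
  have hπ := Real.pi_pos
  rw [cosvol hN (by linarith) (by linarith)]
  apply ENNReal.ofReal_le_ofReal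
  rw [Real.arccos_neg, Real.arccos_eq_pi_div_two_sub_arcsin]
  have := arcsin_le h1 h2
  linarith

/-- the region containing the parameters outside the main component -/
def W (N : ℕ) (τ η : ℝ) : Set ℂ :=
  {c | τ ≤ ‖c‖ ^ N ∧ ‖c‖ ^ N ≤ 2 ∧ 2 * (c ^ N).re + (‖c‖ ^ N) ^ 2 ≤ η}

theorem measurableSet_W (N : ℕ) (τ η : ℝ) : MeasurableSet (W N τ η) := by
  have h1 : MeasurableSet {c : ℂ | τ ≤ ‖c‖ ^ N} :=
    measurableSet_le measurable_const (by fun_prop)
  have h2 : MeasurableSet {c : ℂ | ‖c‖ ^ N ≤ 2} :=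
    measurableSet_le (by fun_prop) measurable_const
  have h3 : MeasurableSet {c : ℂ | 2 * (c ^ N).re + (‖c‖ ^ N) ^ 2 ≤ η} := by
    apply measurableSet_le _ measurable_const
    have : Continuous fun c : ℂ => 2 * (c ^ N).re + (‖c‖ ^ N) ^ 2 := by fun_prop
    exact this.measurable
  exact h1.inter (h2.inter h3)

theorem der_G (M : ℕ) (η : ℝ) {x : ℝ} (hx : 0 < x) :
    HasDerivAt (fun x : ℝ => π * (x ^ 2 / 2 - η / (2 * (((M:ℝ) + 1) * x ^ (M + 1)))))
      (x * (π + π * (η / (2 * x ^ (M + 3))))) x := by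
  have e1 : HasDerivAt (fun x : ℝ => x ^ 2) (((2 : ℕ) : ℝ) * x ^ 1) x := by
    simpa using hasDerivAt_pow 2 x
  have e2 : HasDerivAt (fun x : ℝ => x ^ (M + 1)) (((M + 1 : ℕ) : ℝ) * x ^ M) x := by
    simpa using hasDerivAt_pow (M + 1) x
  have hM : ((M:ℝ) + 1) ≠ 0 := by positivity
  have e3 : HasDerivAt (fun x : ℝ => π * (x ^ 2 / 2
      - η / (2 * (((M:ℝ) + 1) * x ^ (M + 1))))) _ x :=
    ((e1.div_const 2).fun_sub ((hasDerivAt_const x η).fun_div
      ((e2.const_mul ((M:ℝ) + 1)).const_mul 2)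
      (mul_ne_zero two_ne_zero (mul_ne_zero hM (pow_ne_zero _ hx.ne'))))).const_mul π
  refine e3.congr_deriv ?_
  push_cast
  field_simp
  ring

theorem area_W {N : ℕ} (hN : 3 ≤ N) {τ η : ℝ} (hτ : 0 < τ) (hτη : τ ≤ η) (hη : η ≤ 1) :
    volume (W N τ η) ≤ ENNReal.ofReal (π * ((rt N η) ^ 2 - (rt N τ) ^ 2) +
      (π / 2 * ((rt N 2) ^ 2 - (rt N η) ^ 2) + π / (2 * (N - 2)))) := by
  have hπ := Real.pi_pos
  have hN' : (3:ℝ) ≤ N := by exact_mod_cast hN
  have hN0 : (0:ℝ) < N := by linarith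
  have hη0 : 0 < η := lt_of_lt_of_le hτ hτη
  have hN1 : 1 ≤ N := by omega
  set x0 := rt N τ with hx0
  set xe := rt N η with hxe
  set x1 := rt N 2 with hx1
  have h0e : x0 ≤ xe := rt_mono hτ hτη
  have he1 : xe ≤ x1 := rt_mono hη0 (by linarith)
  have hx0p : 0 < x0 := rt_pos _ _
  have hxep : 0 < xe := rt_pos _ _
  have hx1p : 0 < x1 := rt_pos _ _
  set f1 : ℝ → ℝ := fun x => 2 * π * x with hf1
  set f2 : ℝ → ℝ := fun x => x * (π + π * (η / (2 * x ^ N))) with hf2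
  rw [vol_polar (measurableSet_W N τ η)]
  have hslice : ∀ x ∈ Ioi (0:ℝ), ENNReal.ofReal x * volume ({φ | pt x φ ∈ W N τ η} ∩ Ioo (-π) π)
      ≤ (Icc x0 xe).indicator (fun x => ENNReal.ofReal (f1 x)) x
        + (Icc xe x1).indicator (fun x => ENNReal.ofReal (f2 x)) x := by
    intro x hx
    have hx' : 0 < x := hx
    by_cases hx01 : x ∈ Icc x0 x1
    · rcases le_total x xe with hxe' | hxe'
      · have hmem : x ∈ Icc x0 xe := ⟨hx01.1, hxe'⟩
        rw [indicator_of_mem hmem]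
        refine le_trans ?_ le_self_add
        have h1 : volume ({φ | pt x φ ∈ W N τ η} ∩ Ioo (-π) π) ≤ ENNReal.ofReal (2 * π) := by
          refine (measure_mono inter_subset_right).trans (le_of_eq ?_)
          rw [Real.volume_Ioo]; congr 1; ring
        calc _ ≤ ENNReal.ofReal x * ENNReal.ofReal (2 * π) := by gcongr
          _ = ENNReal.ofReal (f1 x) := by
            rw [← ENNReal.ofReal_mul hx'.le]; congr 1; rw [hf1]; ring
      · have hmem : x ∈ Icc xe x1 := ⟨hxe', hx01.2⟩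
        rw [indicator_of_mem hmem]
        refine le_trans ?_ le_add_self
        have hκ : 0 ≤ η / (2 * x ^ N) := by positivity
        have h1 : volume ({φ | pt x φ ∈ W N τ η} ∩ Ioo (-π) π)
            ≤ ENNReal.ofReal (π + π * (η / (2 * x ^ N))) := by
          refine (measure_mono ?_).trans (cosvol_le hN1 hκ)
          rintro φ ⟨h2, h3⟩
          refine ⟨?_, h3⟩
          obtain ⟨-, -, h4⟩ := h2
          rw [pt_pow, re_pt, norm_pt hx'.le] at h4
          have ht : 0 < x ^ N := by positivity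
          show Real.cos (N * φ) ≤ η / (2 * x ^ N)
          rw [le_div_iff₀ (by positivity)]
          nlinarith [sq_nonneg (x ^ N)]
        calc _ ≤ ENNReal.ofReal x * ENNReal.ofReal (π + π * (η / (2 * x ^ N))) := by gcongr
          _ = ENNReal.ofReal (f2 x) := by
            rw [← ENNReal.ofReal_mul hx'.le]
    · have hemp : {φ | pt x φ ∈ W N τ η} ∩ Ioo (-π) π = ∅ := by
        rw [eq_empty_iff_forall_notMem]
        rintro φ ⟨⟨h1, h2, -⟩, -⟩
        rw [norm_pt hx'.le] at h1 h2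
        exact hx01 ⟨rt_le hN1 hx'.le hτ h1, le_rt hN1 (by norm_num) h2⟩
      rw [hemp, measure_empty, mul_zero]
      simp
  refine (setLIntegral_mono' measurableSet_Ioi hslice).trans ?_
  refine (lintegral_mono' Measure.restrict_le_self le_rfl).trans ?_
  rw [lintegral_add_left (by
    apply Measurable.indicator _ measurableSet_Icc
    rw [hf1]; fun_prop), lintegral_indicator measurableSet_Icc, lintegral_indicator measurableSet_Icc]
  have hf1c : ContinuousOn f1 (Icc x0 xe) := by rw [hf1]; fun_prop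
  have hf2c : ContinuousOn f2 (Icc xe x1) := by
    rw [hf2]
    apply ContinuousOn.mul continuousOn_id
    apply ContinuousOn.add continuousOn_const
    apply ContinuousOn.mul continuousOn_const
    apply ContinuousOn.div continuousOn_const (by fun_prop)
    intro x hx
    have : 0 < x := lt_of_lt_of_le hxep hx.1
    positivity
  rw [lint_Icc h0e hf1c (fun x hx => by
      have : 0 < x := lt_of_lt_of_le hx0p hx.1
      rw [hf1]; positivity),
    lint_Icc he1 hf2c (fun x hx => by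
      have : 0 < x := lt_of_lt_of_le hxep hx.1
      rw [hf2]; positivity)]
  have hI1 : ∫ x in x0..xe, f1 x = π * (xe ^ 2 - x0 ^ 2) := by
    rw [hf1, intervalIntegral.integral_const_mul, integral_id]; ring
  have hI2 : ∫ x in xe..x1, f2 x
      = π * (x1 ^ 2 / 2 - η / (2 * ((N - 2) * x1 ^ (N - 2))))
        - π * (xe ^ 2 / 2 - η / (2 * ((N - 2) * xe ^ (N - 2)))) := by
    have hd : ∀ x ∈ uIcc xe x1, HasDerivAt (fun x : ℝ =>
        π * (x ^ 2 / 2 - η / (2 * ((N - 2) * x ^ (N - 2))))) (f2 x) x := by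
      intro x hx
      rw [uIcc_of_le he1] at hx
      have hxp : 0 < x := lt_of_lt_of_le hxep hx.1
      obtain ⟨M, hM⟩ : ∃ M, N = M + 3 := ⟨N - 3, by omega⟩
      have hMr : (N:ℝ) = M + 3 := by rw [hM]; push_cast; ring
      have h5 := der_G M η hxp
      rw [hf2]
      simp only
      have a2 : N - 2 = M + 1 := by omega
      have a4 : (N:ℝ) - 2 = M + 1 := by rw [hMr]; ring
      rw [a2, a4, hM]
      exact h5
    have hint : IntervalIntegrable f2 volume xe x1 :=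
      (hf2c.mono (by rw [uIcc_of_le he1])).intervalIntegrable
    rw [intervalIntegral.integral_eq_sub_of_hasDerivAt hd hint]
  have hsq : x0 ^ 2 ≤ xe ^ 2 := by gcongr
  rw [← ENNReal.ofReal_add (by rw [hI1]; exact mul_nonneg hπ.le (by linarith)) (by
    apply intervalIntegral.integral_nonneg he1
    intro x hx
    have : 0 < x := lt_of_lt_of_le hxep hx.1
    rw [hf2]; positivity)]
  apply ENNReal.ofReal_le_ofReal
  rw [hI1, hI2]
  have hxe1 : xe ≤ 1 := rt_le_one hη0 hη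
  have h3 : η / xe ^ (N - 2) ≤ 1 := by
    have : xe ^ N = xe ^ (N - 2) * xe ^ 2 := by rw [← pow_add]; congr 1; omega
    have h4 : η = xe ^ (N - 2) * xe ^ 2 := by rw [← this, hxe, rt_pow hN1 hη0]
    rw [div_le_one (by positivity)]
    have h6 : xe ^ 2 ≤ 1 := pow_le_one₀ hxep.le hxe1
    nlinarith [pow_pos hxep (N - 2)]
  have hN2 : 0 < (N:ℝ) - 2 := by linarith
  have h5 : η / (2 * ((N - 2) * xe ^ (N - 2))) ≤ 1 / (2 * (N - 2)) := by
    have : η / (2 * ((N - 2) * xe ^ (N - 2))) = (η / xe ^ (N - 2)) / (2 * (N - 2)) := by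
      field_simp
    rw [this]
    gcongr
  have h6 : 0 ≤ η / (2 * ((N - 2) * x1 ^ (N - 2))) := by positivity
  have e1 : π * (xe ^ 2 - x0 ^ 2) + (π / 2 * (x1 ^ 2 - xe ^ 2) + π / (2 * (N - 2)))
    = π * (xe ^ 2 - x0 ^ 2 + x1 ^ 2 / 2 - xe ^ 2 / 2 + 1 / (2 * (N - 2))) := by ring
  rw [e1]
  have e2 : π * (xe ^ 2 - x0 ^ 2) +
      (π * (x1 ^ 2 / 2 - η / (2 * ((N - 2) * x1 ^ (N - 2))))
        - π * (xe ^ 2 / 2 - η / (2 * ((N - 2) * xe ^ (N - 2)))))
      = π * ((xe ^ 2 - x0 ^ 2) + x1 ^ 2 / 2 - η / (2 * ((N - 2) * x1 ^ (N - 2)))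
        - xe ^ 2 / 2 + η / (2 * ((N - 2) * xe ^ (N - 2)))) := by ring
  rw [e2]
  apply mul_le_mul_of_nonneg_left _ hπ.le
  linarith

/-- a region of parameters with an attracting cycle of period 2 -/
def V (N : ℕ) (τ ε : ℝ) : Set ℂ :=
  {c | τ ≤ ‖c‖ ^ N ∧ ‖c‖ ^ N ≤ ε ∧ (c ^ N).re ≤ -ε * ‖c‖ ^ N}

theorem measurableSet_V (N : ℕ) (τ ε : ℝ) : MeasurableSet (V N τ ε) := by
  have h1 : MeasurableSet {c : ℂ | τ ≤ ‖c‖ ^ N} :=
    measurableSet_le measurable_const (by fun_prop)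
  have h2 : MeasurableSet {c : ℂ | ‖c‖ ^ N ≤ ε} :=
    measurableSet_le (by fun_prop) measurable_const
  have h3 : MeasurableSet {c : ℂ | (c ^ N).re ≤ -ε * ‖c‖ ^ N} := by
    apply measurableSet_le
    · have : Continuous fun c : ℂ => (c ^ N).re := by fun_prop
      exact this.measurable
    · fun_prop
  exact h1.inter (h2.inter h3)

theorem area_V {N : ℕ} (hN : 1 ≤ N) {τ ε : ℝ} (hτ : 0 < τ) (hτ' : τ ≤ ε) (hε : ε ≤ 1) :
    ENNReal.ofReal ((π - π * ε) / 2 * ((rt N ε) ^ 2 - (rt N τ) ^ 2)) ≤ volume (V N τ ε) := by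
  have hπ := Real.pi_pos
  have hε0 : 0 < ε := lt_of_lt_of_le hτ hτ'
  set a := rt N τ with ha
  set b := rt N ε with hb
  have hab : a ≤ b := rt_mono hτ hτ'
  have ha0 : 0 < a := rt_pos _ _
  have hfac : 0 ≤ π - π * ε := by nlinarith
  rw [vol_polar (measurableSet_V N τ ε)]
  have hint : ∫ x in a..b, x * (π - π * ε) = (π - π * ε) / 2 * (b ^ 2 - a ^ 2) := by
    rw [intervalIntegral.integral_mul_const, integral_id]; ring
  rw [← hint, ← lint_Icc hab (by fun_prop) (fun x hx => by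
    have : 0 < x := lt_of_lt_of_le ha0 hx.1
    positivity)]
  have hsub : Icc a b ⊆ Ioi (0:ℝ) := fun x hx => lt_of_lt_of_le ha0 hx.1
  refine le_trans ?_ (lintegral_mono_set hsub)
  refine setLIntegral_mono' measurableSet_Icc ?_
  intro x hx
  have hx0 : 0 < x := lt_of_lt_of_le ha0 hx.1
  rw [ENNReal.ofReal_mul hx0.le]
  gcongr
  refine (cosvol_ge hN hε0.le hε).trans (measure_mono ?_)
  rintro φ ⟨h1, h2⟩
  refine ⟨?_, h2⟩
  have h1' : Real.cos (N * φ) ≤ -ε := h1
  have hxN : 0 < x ^ N := by positivity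
  refine ⟨?_, ?_, ?_⟩
  · rw [norm_pt hx0.le, ← rt_pow hN hτ]
    exact pow_le_pow_left₀ ha0.le hx.1 N
  · rw [norm_pt hx0.le]
    rw [← rt_pow hN hε0]
    exact pow_le_pow_left₀ hx0.le hx.2 N
  · rw [norm_pt hx0.le, pt_pow, re_pt]
    nlinarith

end Pool.Agent.Q79.AA
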