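import Mathlib

set_option autoImplicit false

open MeasureTheory Set Filter Topology Complex

namespace Pool.Agent.Q79.PA

/-- the integral of `2 ∂ F` vanishes for a compactly supported differentiable function -/
theorem int_dbar_zero {F : ℂ → ℂ} (hF : Differentiable ℝ F) {R B : ℝ}
    (hsupp : ∀ c, R ≤ ‖c‖ → F c = 0) (hB : ∀ c, ‖fderiv ℝ F c‖ ≤ B) :
    Integrable (fun c => fderiv ℝ F c 1) ∧ Integrable (fun c => fderiv ℝ F c I) ∧
    ∫ c, (fderiv ℝ F c 1 - I * fderiv ℝ F c I) = 0 := by
  have hcs : HasCompactSupport F := by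
    apply HasCompactSupport.intro (isCompact_closedBall (0:ℂ) R)
    intro x hx
    apply hsupp
    rw [Metric.mem_closedBall, dist_zero_right] at hx
    linarith
  have hFint : Integrable F := hF.continuous.integrable_of_hasCompactSupport hcs
  have hcs' : HasCompactSupport (fderiv ℝ F) := hcs.fderiv (𝕜 := ℝ)
  have hint : ∀ v : ℂ, Integrable (fun c => fderiv ℝ F c v) := by
    intro v
    have hm : Measurable (fun c => fderiv ℝ F c v) := measurable_fderiv_apply_const ℝ F v
    have hK : IsCompact (tsupport (fderiv ℝ F)) := hcs'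
    have h1 : IntegrableOn (fun c => fderiv ℝ F c v) (tsupport (fderiv ℝ F)) := by
      apply Measure.integrableOn_of_bounded (M := B * ‖v‖) hK.measure_lt_top.ne
        hm.aestronglyMeasurable
      filter_upwards with c
      exact ((fderiv ℝ F c).le_opNorm v).trans
        (mul_le_mul_of_nonneg_right (hB c) (norm_nonneg v))
    rw [integrableOn_iff_integrable_of_support_subset] at h1
    · exact h1
    · intro c hc
      apply subset_tsupport
      rw [Function.mem_support] at hc ⊢
      intro h0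
      apply hc
      rw [h0]; rfl
  have hz : ∀ v : ℂ, ∫ c, fderiv ℝ F c v = 0 := by
    intro v
    have := integral_mul_fderiv_eq_neg_fderiv_mul_of_integrable (μ := (volume : Measure ℂ))
      (𝕜 := ℂ) (f := fun _ : ℂ => (1:ℂ)) (g := F) (v := v) (by simp)
      (by simpa using hint v) (by simpa using hFint) (fun x _ => by simp) (fun x _ => hF x)
    simpa using this
  refine ⟨hint 1, hint I, ?_⟩
  rw [integral_sub (hint 1) ((hint I).const_mul I), integral_const_mul, hz, hz]
  simp

/-- composition of a periodic function with the argument -/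
theorem hasFDerivAt_arg_comp {γ g : ℝ → ℝ} (hγ : ∀ t, HasDerivAt γ (g t) t)
    (hper : ∀ t, γ (t + 2 * Real.pi) = γ t) {z : ℂ} (hz : z ≠ 0) :
    HasFDerivAt (fun w : ℂ => γ w.arg)
      (g z.arg • (Complex.imCLM.comp ((z⁻¹ : ℂ) • (ContinuousLinearMap.id ℝ ℂ)))) z := by
  have hgper : ∀ t, g (t + 2 * Real.pi) = g t := by
    intro t
    have h1 : HasDerivAt (fun t => γ (t + 2 * Real.pi)) (g (t + 2 * Real.pi)) t := by
      have := (hγ (t + 2 * Real.pi)).comp_add_const t (2 * Real.pi)
      exact this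
    have h2 : HasDerivAt (fun t => γ (t + 2 * Real.pi)) (g t) t := by
      have : (fun t => γ (t + 2 * Real.pi)) = γ := by funext t; exact hper t
      rw [this]; exact hγ t
    exact h1.unique h2
  have hslit : ∀ w : ℂ, w ∈ slitPlane → HasFDerivAt (fun w : ℂ => w.arg)
      (Complex.imCLM.comp ((w⁻¹ : ℂ) • (ContinuousLinearMap.id ℝ ℂ))) w := by
    intro w hw
    have h1 : HasFDerivAt Complex.log ((w⁻¹ : ℂ) • (ContinuousLinearMap.id ℝ ℂ)) w := by
      have h2 := (Complex.hasDerivAt_log hw).hasFDerivAt.restrictScalars ℝ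
      refine h2.congr_fderiv ?_
      ext v
      simp [mul_comm]
    have h3 := Complex.imCLM.hasFDerivAt.comp w h1
    refine h3.congr_of_eventuallyEq ?_
    filter_upwards with w
    simp [Complex.log_im]
  by_cases hz1 : z ∈ slitPlane
  · exact (hγ z.arg).comp_hasFDerivAt z (hslit z hz1)
  · have hz2 : -z ∈ slitPlane := by
      rw [Complex.mem_slitPlane_iff] at hz1 ⊢
      push Not at hz1
      left
      have h1 : z.re ≠ 0 := by
        intro h
        apply hz
        exact Complex.ext h hz1.2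
      have : z.re < 0 := lt_of_le_of_ne hz1.1 h1
      simpa using this
    -- `γ (arg w) = γ (arg (-w) + π)`
    have hint : ∀ (f : ℝ → ℝ), (∀ t, f (t + 2 * Real.pi) = f t) → ∀ (k : ℤ) (t : ℝ),
        f (t + k * (2 * Real.pi)) = f t := by
      intro f hf k t
      have hp : Function.Periodic f (2 * Real.pi) := hf
      have := hp.int_mul k t
      exact this
    have hkey : ∀ (f : ℝ → ℝ), (∀ t, f (t + 2 * Real.pi) = f t) → ∀ w : ℂ, w ≠ 0 →
        f w.arg = f ((-w).arg + Real.pi) := by
      intro f hf w hw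
      have h1 := Complex.arg_neg_coe_angle hw
      have h2 : ((w.arg : ℝ) : Real.Angle) = (((-w).arg + Real.pi : ℝ) : Real.Angle) := by
        rw [Real.Angle.coe_add, h1, add_assoc, Real.Angle.coe_pi_add_coe_pi, add_zero]
      rw [Real.Angle.angle_eq_iff_two_pi_dvd_sub] at h2
      obtain ⟨k, hk⟩ := h2
      have h3 : w.arg = ((-w).arg + Real.pi) + k * (2 * Real.pi) := by linarith
      rw [h3, hint f hf]
    have h4 : HasFDerivAt (fun w : ℂ => γ ((-w).arg + Real.pi))
        (g ((-z).arg + Real.pi) • ((Complex.imCLM.comp (((-z)⁻¹ : ℂ) •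
          (ContinuousLinearMap.id ℝ ℂ))).comp (-(ContinuousLinearMap.id ℝ ℂ)))) z := by
      have h5 : HasFDerivAt (fun w : ℂ => (-w).arg + Real.pi)
          ((Complex.imCLM.comp (((-z)⁻¹ : ℂ) •
          (ContinuousLinearMap.id ℝ ℂ))).comp (-(ContinuousLinearMap.id ℝ ℂ))) z := by
        have h6 : HasFDerivAt (fun w : ℂ => -w) (-(ContinuousLinearMap.id ℝ ℂ)) z :=
          (hasFDerivAt_id z).neg
        exact ((hslit (-z) hz2).comp z h6).add_const Real.pi
      exact (hγ _).comp_hasFDerivAt z h5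
    have h7 : (fun w : ℂ => γ w.arg) =ᶠ[𝓝 z] (fun w : ℂ => γ ((-w).arg + Real.pi)) := by
      filter_upwards [isOpen_ne.mem_nhds hz] with w hw
      exact hkey γ hper w hw
    refine (h4.congr_of_eventuallyEq h7).congr_fderiv ?_
    rw [← hkey g hgper z hz]
    ext v
    simp [inv_neg]
    ring

/-- the chain rule for `γ (arg (X c))` when `X' = X ℓ` -/
theorem hasFDerivAt_arg_X {γ g : ℝ → ℝ} (hγ : ∀ t, HasDerivAt γ (g t) t)
    (hper : ∀ t, γ (t + 2 * Real.pi) = γ t) {X : ℂ → ℂ} {ℓ c : ℂ} (hX : X c ≠ 0)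
    (hd : HasDerivAt X (X c * ℓ) c) :
    HasFDerivAt (fun w : ℂ => γ (X w).arg)
      (g (X c).arg • (Complex.imCLM.comp ((ℓ : ℂ) • (ContinuousLinearMap.id ℝ ℂ)))) c := by
  have h1 : HasFDerivAt X (((X c * ℓ : ℂ)) • (ContinuousLinearMap.id ℝ ℂ)) c := by
    refine (hd.hasFDerivAt.restrictScalars ℝ).congr_fderiv ?_
    ext v
    simp [mul_comm]
  have h2 := (hasFDerivAt_arg_comp hγ hper hX).comp c h1
  refine h2.congr_fderiv ?_
  have e1 : (X c)⁻¹ * (X c * ℓ) = ℓ := by field_simp
  ext v
  have e2 : (X c)⁻¹ * (X c * ℓ * v) = ℓ * v := by rw [← mul_assoc, e1]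
  simp only [ContinuousLinearMap.comp_apply, _root_.smul_apply,
      ContinuousLinearMap.id_apply, smul_eq_mul, Complex.imCLM_apply]
  rw [e2]

end Pool.Agent.Q79.PA
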