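import Mathlib
import Pool.Agent.Q79.PerAreaA

set_option autoImplicit false

open MeasureTheory Set Filter Topology Complex

namespace Pool.Agent.Q79.PA

/-- the logarithm of the modulus -/
theorem hasFDerivAt_lognorm_X {X : ℂ → ℂ} {ℓ c : ℂ} (hX : X c ≠ 0)
    (hd : HasDerivAt X (X c * ℓ) c) :
    HasFDerivAt (fun w : ℂ => Real.log ‖X w‖)
      (Complex.reCLM.comp ((ℓ : ℂ) • (ContinuousLinearMap.id ℝ ℂ))) c := by
  have hmain : ∀ Z : ℂ → ℂ, Z c ∈ slitPlane → HasDerivAt Z (Z c * ℓ) c →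
      HasFDerivAt (fun w : ℂ => Real.log ‖Z w‖)
      (Complex.reCLM.comp ((ℓ : ℂ) • (ContinuousLinearMap.id ℝ ℂ))) c := by
    intro Z hZ hZd
    have h1 : HasDerivAt (fun w => Complex.log (Z w)) (Z c * ℓ / Z c) c := hZd.clog hZ
    have hZ0 : Z c ≠ 0 := Complex.slitPlane_ne_zero hZ
    have h2 : Z c * ℓ / Z c = ℓ := by field_simp
    rw [h2] at h1
    have h3 : HasFDerivAt (fun w => Complex.log (Z w)) (ℓ • (ContinuousLinearMap.id ℝ ℂ)) c := by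
      refine (h1.hasFDerivAt.restrictScalars ℝ).congr_fderiv ?_
      ext v
      simp [mul_comm]
    have h4 := Complex.reCLM.hasFDerivAt.comp c h3
    refine h4.congr_of_eventuallyEq ?_
    filter_upwards with w
    simp [Complex.log_re]
  by_cases hz1 : X c ∈ slitPlane
  · exact hmain X hz1 hd
  · have hz2 : -X c ∈ slitPlane := by
      rw [Complex.mem_slitPlane_iff] at hz1 ⊢
      push Not at hz1
      left
      have h1 : (X c).re ≠ 0 := by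
        intro h
        apply hX
        exact Complex.ext h hz1.2
      have : (X c).re < 0 := lt_of_le_of_ne hz1.1 h1
      simpa using this
    have h5 := hmain (fun w => -X w) hz2 (by
      have := hd.fun_neg
      rwa [← neg_mul] at this)
    simpa using h5

/-- the product rule at a point -/
theorem point_deriv {Γf χf : ℂ → ℝ} {Lf : ℂ → ℂ} {c : ℂ} {g : ℝ} {M : ℂ}
    {Dχ : ℂ →L[ℝ] ℝ}
    (h1 : HasFDerivAt Γf (g • (Complex.imCLM.comp ((Lf c) • (ContinuousLinearMap.id ℝ ℂ)))) c)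
    (h2 : HasFDerivAt χf Dχ c) (h3 : HasDerivAt Lf M c) (hl0 : Lf c ≠ 0) :
    ∃ D : ℂ →L[ℝ] ℂ, HasFDerivAt (fun w => ((Γf w * χf w : ℝ) : ℂ) * (Lf w)⁻¹) D c ∧
      ‖D‖ ≤ |g| * |χf c| + |Γf c| * ‖Dχ‖ / ‖Lf c‖ + |Γf c| * |χf c| * ‖M‖ / ‖Lf c‖ ^ 2 ∧
      ‖D 1 - I * D I + I * ((g * χf c : ℝ) : ℂ)‖ ≤
        2 * |Γf c| * ‖Dχ‖ / ‖Lf c‖ + 2 * |Γf c| * |χf c| * ‖M‖ / ‖Lf c‖ ^ 2 := by
  set l := Lf c with hl
  have hlpos : 0 < ‖l‖ := norm_pos_iff.mpr hl0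
  have h4 := h1.mul h2
  have h5 : HasFDerivAt (fun w => ((Γf w * χf w : ℝ) : ℂ)) (Complex.ofRealCLM.comp
      (Γf c • Dχ + χf c • (g • (Complex.imCLM.comp (l • (ContinuousLinearMap.id ℝ ℂ)))))) c :=
    Complex.ofRealCLM.hasFDerivAt.comp c h4
  have h6 : HasFDerivAt (fun w => (Lf w)⁻¹) ((-M / l ^ 2) • (ContinuousLinearMap.id ℝ ℂ)) c := by
    have := (h3.inv hl0).hasFDerivAt.restrictScalars ℝ
    refine this.congr_fderiv ?_
    ext v
    simp [mul_comm, ← hl]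
  have h7 := h5.mul h6
  refine ⟨_, h7, ?_, ?_⟩
  · apply ContinuousLinearMap.opNorm_le_bound _ (by positivity)
    intro v
    simp only [_root_.add_apply, _root_.smul_apply,
      ContinuousLinearMap.comp_apply, ContinuousLinearMap.id_apply, smul_eq_mul,
      Complex.ofRealCLM_apply, Complex.imCLM_apply]
    have hDv : |Dχ v| ≤ ‖Dχ‖ * ‖v‖ := by
      have := Dχ.le_opNorm v
      rwa [Real.norm_eq_abs] at this
    have hIm : |(l * v).im| ≤ ‖l‖ * ‖v‖ := by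
      have := Complex.abs_im_le_norm (l * v)
      rwa [norm_mul] at this
    rw [← hl]
    refine (norm_add_le _ _).trans ?_
    rw [norm_mul, norm_mul, norm_mul, Complex.norm_real, Complex.norm_real, norm_div,
      norm_neg, norm_pow, norm_inv, Real.norm_eq_abs, Real.norm_eq_abs, abs_mul]
    have e1 : |Γf c * Dχ v + χf c * (g * (l * v).im)| ≤
        |Γf c| * (‖Dχ‖ * ‖v‖) + |χf c| * (|g| * (‖l‖ * ‖v‖)) := by
      refine (abs_add_le _ _).trans (add_le_add ?_ ?_)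
      · rw [abs_mul]; exact mul_le_mul_of_nonneg_left hDv (abs_nonneg _)
      · rw [abs_mul, abs_mul]
        exact mul_le_mul_of_nonneg_left (mul_le_mul_of_nonneg_left hIm (abs_nonneg _))
          (abs_nonneg _)
    have e2 : ‖l‖⁻¹ * |Γf c * Dχ v + χf c * (g * (l * v).im)| ≤
        ‖l‖⁻¹ * (|Γf c| * (‖Dχ‖ * ‖v‖) + |χf c| * (|g| * (‖l‖ * ‖v‖))) :=
      mul_le_mul_of_nonneg_left e1 (by positivity)
    have e3 : (|g| * |χf c| + |Γf c| * ‖Dχ‖ / ‖l‖ + |Γf c| * |χf c| * ‖M‖ / ‖l‖ ^ 2) * ‖v‖ =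
        |Γf c| * |χf c| * (‖M‖ / ‖l‖ ^ 2 * ‖v‖) +
        ‖l‖⁻¹ * (|Γf c| * (‖Dχ‖ * ‖v‖) + |χf c| * (|g| * (‖l‖ * ‖v‖))) := by
      field_simp
      ring
    rw [e3]
    exact add_le_add le_rfl e2
  · simp only [_root_.add_apply, _root_.smul_apply,
      ContinuousLinearMap.comp_apply, ContinuousLinearMap.id_apply, smul_eq_mul,
      Complex.ofRealCLM_apply, Complex.imCLM_apply, mul_one]
    have hIm : ((l * I).im : ℂ) = l.re := by simp
    have hl' : l = l.re + l.im * I := (Complex.re_add_im l).symm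
    have key : (((Γf c * χf c : ℝ) : ℂ) * (-M / l ^ 2) +
        l⁻¹ * ((Γf c * Dχ 1 + χf c * (g * l.im) : ℝ) : ℂ) -
        I * (((Γf c * χf c : ℝ) : ℂ) * (-M / l ^ 2 * I) +
        l⁻¹ * ((Γf c * Dχ I + χf c * (g * (l * I).im) : ℝ) : ℂ)) +
        I * ((g * χf c : ℝ) : ℂ)) =
        l⁻¹ * ((Γf c : ℂ) * ((Dχ 1 : ℝ) - I * (Dχ I : ℝ))) -
          2 * ((Γf c : ℂ) * (χf c : ℂ)) * (M / l ^ 2) := by
      have e0 : (l.im : ℂ) - I * (l.re : ℂ) = -I * l := by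
        nth_rewrite 3 [hl']
        ring_nf
        rw [Complex.I_sq]
        ring
      have e1 : l⁻¹ * l = 1 := inv_mul_cancel₀ hl0
      push_cast
      rw [hIm]
      have e2 : l⁻¹ * ((χf c : ℂ) * ((g : ℂ) * (l.im : ℂ))) -
          I * (l⁻¹ * ((χf c : ℂ) * ((g : ℂ) * (l.re : ℂ)))) = -I * ((g : ℂ) * (χf c : ℂ)) := by
        calc l⁻¹ * ((χf c : ℂ) * ((g : ℂ) * (l.im : ℂ))) -
          I * (l⁻¹ * ((χf c : ℂ) * ((g : ℂ) * (l.re : ℂ)))) =
            l⁻¹ * ((χf c : ℂ) * (g : ℂ)) * ((l.im : ℂ) - I * (l.re : ℂ)) := by ring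
          _ = (l⁻¹ * l) * (-I * ((g : ℂ) * (χf c : ℂ))) := by rw [e0]; ring
          _ = _ := by rw [e1, one_mul]
      have e3 : I * (((Γf c : ℂ) * (χf c : ℂ)) * (-M / l ^ 2 * I)) =
          ((Γf c : ℂ) * (χf c : ℂ)) * (M / l ^ 2) := by
        have : I * (((Γf c : ℂ) * (χf c : ℂ)) * (-M / l ^ 2 * I)) =
          -(I ^ 2) * (((Γf c : ℂ) * (χf c : ℂ)) * (M / l ^ 2)) := by ring
        rw [this, Complex.I_sq]; ring
      linear_combination e2 - e3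
    rw [key]
    refine (norm_sub_le _ _).trans ?_
    rw [norm_mul, norm_mul, norm_mul, norm_mul, norm_mul, norm_div, norm_pow, norm_inv,
      Complex.norm_real, Complex.norm_real, Real.norm_eq_abs, Real.norm_eq_abs]
    have e4 : ‖((Dχ 1 : ℝ) : ℂ) - I * ((Dχ I : ℝ) : ℂ)‖ ≤ 2 * ‖Dχ‖ := by
      refine (norm_sub_le _ _).trans ?_
      rw [norm_mul, Complex.norm_I, one_mul, Complex.norm_real, Complex.norm_real]
      have a1 := Dχ.le_opNorm 1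
      have a2 := Dχ.le_opNorm I
      rw [norm_one, mul_one] at a1
      rw [Complex.norm_I, mul_one] at a2
      linarith
    have e5 : ‖l‖⁻¹ * (|Γf c| * ‖((Dχ 1 : ℝ) : ℂ) - I * ((Dχ I : ℝ) : ℂ)‖) ≤
        ‖l‖⁻¹ * (|Γf c| * (2 * ‖Dχ‖)) := by gcongr
    have e6 : 2 * |Γf c| * ‖Dχ‖ / ‖l‖ + 2 * |Γf c| * |χf c| * ‖M‖ / ‖l‖ ^ 2 =
        ‖l‖⁻¹ * (|Γf c| * (2 * ‖Dχ‖)) + 2 * (|Γf c| * |χf c|) * (‖M‖ / ‖l‖ ^ 2) := by
      field_simp
    rw [e6]
    have e7 : ‖(2:ℂ)‖ = 2 := by simp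
    rw [e7]
    exact add_le_add e5 le_rfl

end Pool.Agent.Q79.PA
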