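import Mathlib
import Pool.Agent.Q79.PerAreaB

set_option autoImplicit false

open MeasureTheory Set Filter Topology

namespace Pool.Agent.Q79.PA

/-- test functions on the circle -/
structure Ang (δ m C : ℝ) (η η' Γ : ℝ → ℝ) : Prop where
  d : ∀ t, HasDerivAt η (η' t) t
  dG : ∀ t, HasDerivAt Γ (η t - m) t
  p : ∀ t, η (t + 2 * Real.pi) = η t
  pG : ∀ t, Γ (t + 2 * Real.pi) = Γ t
  n0 : ∀ t, 0 ≤ η t
  n1 : ∀ t, η t ≤ 1
  z : ∀ t, Real.cos t < δ → η t = 0
  b : ∀ t, |η' t| ≤ C
  bG : ∀ t, |Γ t| ≤ C
  m0 : 0 ≤ m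
  m1 : m ≤ 1
  C0 : 0 ≤ C

theorem exists_ang {δ : ℝ} (h0 : 0 < δ) (h1 : δ ≤ 1 / 4) :
    ∃ (m C : ℝ) (η η' Γ : ℝ → ℝ), Ang δ m C η η' Γ ∧ 1 / 2 - δ ≤ m := by
  have hπ := Real.pi_pos
  set s : ℝ → ℝ := fun t => (Real.cos t - δ) / δ with hs
  set η : ℝ → ℝ := fun t => Real.smoothTransition (s t) with hη
  have hcd : ContDiff ℝ 1 η := by
    have h2 : ContDiff ℝ 1 Real.smoothTransition := Real.smoothTransition.contDiff (n := 1)
    have h3 : ContDiff ℝ 1 s := by
      rw [hs]
      exact (Real.contDiff_cos.sub contDiff_const).div_const δ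
    exact h2.comp h3
  have hd : ∀ t, HasDerivAt η (deriv η t) t := fun t =>
    ((hcd.differentiable (by norm_num)) t).hasDerivAt
  have hdc : Continuous (deriv η) := hcd.continuous_deriv (by norm_num)
  have hc : Continuous η := hcd.continuous
  have hp : ∀ t, η (t + 2 * Real.pi) = η t := by
    intro t; simp only [hη, hs, Real.cos_add_two_pi]
  have hpd : Function.Periodic (deriv η) (2 * Real.pi) := by
    intro t
    have h2 : HasDerivAt (fun t => η (t + 2 * Real.pi)) (deriv η (t + 2 * Real.pi)) t :=
      (hd (t + 2 * Real.pi)).comp_add_const t (2 * Real.pi)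
    have h3 : (fun t => η (t + 2 * Real.pi)) = η := by funext t; exact hp t
    rw [h3] at h2
    exact h2.unique (hd t)
  set m : ℝ := (∫ t in (-Real.pi)..Real.pi, η t) / (2 * Real.pi) with hm
  have hii : ∀ a b : ℝ, IntervalIntegrable (fun t => η t - m) volume a b := fun a b =>
    (hc.sub continuous_const).intervalIntegrable a b
  have hii' : ∀ a b : ℝ, IntervalIntegrable η volume a b := fun a b => hc.intervalIntegrable a b
  set Γ : ℝ → ℝ := fun t => ∫ x in (0:ℝ)..t, (η x - m) with hΓ
  have hdΓ : ∀ t, HasDerivAt Γ (η t - m) t := by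
    intro t
    exact intervalIntegral.integral_hasDerivAt_right (hii 0 t)
      ((hc.sub continuous_const).stronglyMeasurableAtFilter _ _)
      (hc.sub continuous_const).continuousAt
  have hper : Function.Periodic (fun t => η t - m) (2 * Real.pi) := by
    intro t; simp only [hp]
  have hzero : ∫ t in (-Real.pi)..Real.pi, (η t - m) = 0 := by
    rw [intervalIntegral.integral_sub (hii' _ _) (by simp), intervalIntegral.integral_const, hm]
    simp only [sub_neg_eq_add, smul_eq_mul]
    field_simp
    ring
  have hpΓ : ∀ t, Γ (t + 2 * Real.pi) = Γ t := by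
    intro t
    have h2 : Γ (t + 2 * Real.pi) = Γ t + ∫ x in t..(t + 2 * Real.pi), (η x - m) := by
      rw [hΓ]
      simp only
      rw [intervalIntegral.integral_add_adjacent_intervals (hii 0 t) (hii t _)]
    rw [h2, hper.intervalIntegral_add_eq t (-Real.pi)]
    have h3 : -Real.pi + 2 * Real.pi = Real.pi := by ring
    rw [h3, hzero, add_zero]
  have hcΓ : Continuous Γ := by
    rw [continuous_iff_continuousAt]
    intro t; exact (hdΓ t).continuousAt
  obtain ⟨C1, hC1⟩ := (hpd.isBounded_of_continuous (by positivity) hdc).exists_norm_le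
  have hpΓ' : Function.Periodic Γ (2 * Real.pi) := hpΓ
  obtain ⟨C2, hC2⟩ := (hpΓ'.isBounded_of_continuous (by positivity) hcΓ).exists_norm_le
  have hn0 : ∀ t, 0 ≤ η t := fun t => Real.smoothTransition.nonneg _
  have hn1 : ∀ t, η t ≤ 1 := fun t => Real.smoothTransition.le_one _
  have hm0 : 0 ≤ m := by
    rw [hm]
    apply div_nonneg _ (by positivity)
    exact intervalIntegral.integral_nonneg (by linarith) (fun t _ => hn0 t)
  have hm1 : m ≤ 1 := by
    rw [hm, div_le_one (by positivity)]
    have h2 : ∫ t in (-Real.pi)..Real.pi, η t ≤ ∫ t in (-Real.pi)..Real.pi, (1:ℝ) :=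
      intervalIntegral.integral_mono_on (by linarith) (hii' _ _) (by simp) (fun t _ => hn1 t)
    rw [intervalIntegral.integral_const] at h2
    simp only [sub_neg_eq_add, smul_eq_mul, mul_one] at h2
    linarith
  refine ⟨m, max C1 C2, η, deriv η, Γ, ⟨hd, hdΓ, hp, hpΓ, hn0, hn1, ?_, ?_, ?_, hm0, hm1, ?_⟩, ?_⟩
  · intro t ht
    apply Real.smoothTransition.zero_of_nonpos
    apply div_nonpos_of_nonpos_of_nonneg _ h0.le
    linarith
  · intro t
    have := hC1 _ (mem_range_self t)
    rw [Real.norm_eq_abs] at this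
    exact this.trans (le_max_left _ _)
  · intro t
    have := hC2 _ (mem_range_self t)
    rw [Real.norm_eq_abs] at this
    exact this.trans (le_max_right _ _)
  · have := hC1 _ (mem_range_self 0)
    exact ((norm_nonneg _).trans this).trans (le_max_left _ _)
  · -- lower bound of the mean
    set a := Real.arccos (2 * δ) with ha
    have ha0 : 0 ≤ a := Real.arccos_nonneg _
    have haπ : a ≤ Real.pi := Real.arccos_le_pi _
    have hca : Real.cos a = 2 * δ := Real.cos_arccos (by linarith) (by linarith)
    have hone : ∀ t ∈ Icc (-a) a, η t = 1 := by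
      intro t ht
      apply Real.smoothTransition.one_of_one_le
      rw [hs]
      simp only
      rw [le_div_iff₀ h0, one_mul]
      have h2 : Real.cos a ≤ Real.cos t := by
        rw [← Real.cos_abs t]
        exact Real.cos_le_cos_of_nonneg_of_le_pi (abs_nonneg t) haπ (abs_le.mpr ht)
      linarith
    have h3 : ∫ t in (-a)..a, η t = 2 * a := by
      have : ∫ t in (-a)..a, η t = ∫ t in (-a)..a, (1:ℝ) := by
        apply intervalIntegral.integral_congr
        intro t ht
        rw [uIcc_of_le (by linarith)] at ht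
        exact hone t ht
      rw [this, intervalIntegral.integral_const]
      simp only [sub_neg_eq_add, smul_eq_mul, mul_one]
      ring
    have h4 : 2 * a ≤ ∫ t in (-Real.pi)..Real.pi, η t := by
      rw [← h3, ← intervalIntegral.integral_add_adjacent_intervals (hii' (-Real.pi) (-a))
        (hii' (-a) Real.pi), ← intervalIntegral.integral_add_adjacent_intervals (hii' (-a) a)
        (hii' a Real.pi)]
      have e1 : 0 ≤ ∫ t in (-Real.pi)..(-a), η t :=
        intervalIntegral.integral_nonneg (by linarith) (fun t _ => hn0 t)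
      have e2 : 0 ≤ ∫ t in a..Real.pi, η t :=
        intervalIntegral.integral_nonneg haπ (fun t _ => hn0 t)
      linarith
    have h5 : Real.pi / 2 - Real.pi * δ ≤ a := by
      rw [ha, Real.arccos_eq_pi_div_two_sub_arcsin]
      have h6 := Real.mul_le_sin (Real.arcsin_nonneg.mpr (by linarith : 0 ≤ 2 * δ))
        (Real.arcsin_le_pi_div_two (2 * δ))
      rw [Real.sin_arcsin (by linarith) (by linarith)] at h6
      have h7 : Real.arcsin (2 * δ) = Real.pi / 2 * (2 / Real.pi * Real.arcsin (2 * δ)) := by
        field_simp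
      have h8 : Real.pi / 2 * (2 / Real.pi * Real.arcsin (2 * δ)) ≤ Real.pi / 2 * (2 * δ) :=
        mul_le_mul_of_nonneg_left h6 (by positivity)
      linarith
    rw [hm, le_div_iff₀ (by positivity)]
    nlinarith

/-- the radial cutoff -/
structure Cut (α β C : ℝ) (ψ ψ' : ℝ → ℝ) : Prop where
  d : ∀ t, HasDerivAt ψ (ψ' t) t
  n0 : ∀ t, 0 ≤ ψ t
  n1 : ∀ t, ψ t ≤ 1
  z1 : ∀ t, t ≤ α → ψ t = 0
  z2 : ∀ t, β ≤ t → ψ t = 0
  o : ∀ t, α + 1 ≤ t → t ≤ β - 1 → ψ t = 1
  b : ∀ t, |ψ' t| ≤ C
  bz : ∀ t, α + 1 < t → t < β - 1 → ψ' t = 0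

theorem exists_cut : ∃ C : ℝ, 0 ≤ C ∧ ∀ α β : ℝ, α + 2 ≤ β →
    ∃ ψ ψ' : ℝ → ℝ, Cut α β C ψ ψ' := by
  have hcd : ContDiff ℝ 1 Real.smoothTransition := Real.smoothTransition.contDiff (n := 1)
  have hd : ∀ t, HasDerivAt Real.smoothTransition (deriv Real.smoothTransition t) t := fun t =>
    ((hcd.differentiable (by norm_num)) t).hasDerivAt
  have hdc : Continuous (deriv Real.smoothTransition) := hcd.continuous_deriv (by norm_num)
  have hz1 : ∀ t : ℝ, t < 0 → deriv Real.smoothTransition t = 0 := by
    intro t ht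
    have : Real.smoothTransition =ᶠ[𝓝 t] fun _ => (0:ℝ) := by
      filter_upwards [gt_mem_nhds ht] with u hu
      exact Real.smoothTransition.zero_of_nonpos hu.le
    rw [this.deriv_eq, deriv_const]
  have hz2 : ∀ t : ℝ, 1 < t → deriv Real.smoothTransition t = 0 := by
    intro t ht
    have : Real.smoothTransition =ᶠ[𝓝 t] fun _ => (1:ℝ) := by
      filter_upwards [lt_mem_nhds ht] with u hu
      exact Real.smoothTransition.one_of_one_le hu.le
    rw [this.deriv_eq, deriv_const]
  obtain ⟨C, hC⟩ := (isCompact_Icc (a := (0:ℝ)) (b := 1)).exists_bound_of_continuousOn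
    hdc.continuousOn
  have hC0 : 0 ≤ C := (norm_nonneg _).trans (hC 0 ⟨le_rfl, by norm_num⟩)
  have hb : ∀ t, |deriv Real.smoothTransition t| ≤ C := by
    intro t
    rcases lt_or_ge t 0 with h | h
    · rw [hz1 t h, abs_zero]; exact hC0
    rcases lt_or_ge 1 t with h' | h'
    · rw [hz2 t h', abs_zero]; exact hC0
    have := hC t ⟨h, h'⟩
    rwa [Real.norm_eq_abs] at this
  refine ⟨2 * C, by linarith, ?_⟩
  intro α β hαβ
  refine ⟨fun t => Real.smoothTransition (t - α) * Real.smoothTransition (β - t),
    fun t => deriv Real.smoothTransition (t - α) * Real.smoothTransition (β - t) +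
      Real.smoothTransition (t - α) * -(deriv Real.smoothTransition (β - t)), ?_, ?_, ?_, ?_,
      ?_, ?_, ?_, ?_⟩
  · intro t
    have h1 : HasDerivAt (fun t => Real.smoothTransition (t - α))
        (deriv Real.smoothTransition (t - α)) t := (hd (t - α)).comp_sub_const t α
    have h2 : HasDerivAt (fun t => Real.smoothTransition (β - t))
        (-(deriv Real.smoothTransition (β - t))) t := (hd (β - t)).comp_const_sub β t
    exact h1.mul h2
  · intro t
    exact mul_nonneg (Real.smoothTransition.nonneg _) (Real.smoothTransition.nonneg _)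
  · intro t
    exact mul_le_one₀ (Real.smoothTransition.le_one _) (Real.smoothTransition.nonneg _)
      (Real.smoothTransition.le_one _)
  · intro t ht
    show Real.smoothTransition (t - α) * Real.smoothTransition (β - t) = 0
    rw [Real.smoothTransition.zero_of_nonpos (by linarith), zero_mul]
  · intro t ht
    show Real.smoothTransition (t - α) * Real.smoothTransition (β - t) = 0
    rw [Real.smoothTransition.zero_of_nonpos (x := β - t) (by linarith), mul_zero]
  · intro t h1 h2
    show Real.smoothTransition (t - α) * Real.smoothTransition (β - t) = 1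
    rw [Real.smoothTransition.one_of_one_le (by linarith),
      Real.smoothTransition.one_of_one_le (by linarith), mul_one]
  · intro t
    have a1 := Real.smoothTransition.nonneg (t - α)
    have a2 := Real.smoothTransition.le_one (t - α)
    have a3 := Real.smoothTransition.nonneg (β - t)
    have a4 := Real.smoothTransition.le_one (β - t)
    refine (abs_add_le _ _).trans ?_
    rw [abs_mul, abs_mul, abs_neg, abs_of_nonneg a1, abs_of_nonneg a3]
    have b1 := hb (t - α)
    have b2 := hb (β - t)
    have c1 : |deriv Real.smoothTransition (t - α)| * Real.smoothTransition (β - t) ≤ C * 1 :=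
      mul_le_mul b1 a4 a3 hC0
    have c2 : Real.smoothTransition (t - α) * |deriv Real.smoothTransition (β - t)| ≤ 1 * C :=
      mul_le_mul a2 b2 (abs_nonneg _) (by norm_num)
    linarith
  · intro t h1 h2
    show deriv Real.smoothTransition (t - α) * Real.smoothTransition (β - t) +
      Real.smoothTransition (t - α) * -(deriv Real.smoothTransition (β - t)) = 0
    rw [hz2 (t - α) (by linarith), hz2 (β - t) (by linarith)]
    ring

end Pool.Agent.Q79.PA
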