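import Mathlib
import Pool.Agent.W747.MB.Defs
import Pool.Agent.W366.MB.Der
import Pool.Agent.W216.MB.BAS
import Pool.Agent.W12.MB.Low
import Pool.Agent.Q79.PerAreaC

set_option autoImplicit false

open MeasureTheory Set Filter Topology

namespace Pool.Agent.Q79.PA

open Pool.Agent.W747.MB

theorem Y_pos_ne {n : ℕ} (hn : 2 ≤ n) {c : ℂ} (hY : 20 ≤ Y n c) : c ≠ 0 := by
  rintro rfl
  unfold Y at hY
  rw [norm_zero, zero_pow (by omega), mul_zero] at hY
  norm_num at hY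

theorem norm_X1 (n : ℕ) (c : ℂ) : ‖X n c 1‖ = Y n c := by
  rw [Pool.Agent.W216.MB.BAS.X1, norm_mul, norm_pow, Complex.norm_natCast]; rfl

theorem norm_L1 {n : ℕ} (hn : 2 ≤ n) (c : ℂ) : ‖L n c 1‖ = ((n:ℝ) - 1) / ‖c‖ := by
  rw [Pool.Agent.W216.MB.BAS.L1, norm_div, Pool.Agent.W216.MB.BAS.nm1 hn]

/-- one step of the geometry -/
theorem geo_step {n : ℕ} (hn : 2 ≤ n) {c : ℂ} (hY : 20 ≤ Y n c) (hYn : Y n c ≤ n) {i : ℕ}
    (h1 : Y n c ≤ ‖X n c i‖) (h2 : 0 < ‖L n c i‖) (h3 : ‖L n c 1‖ ≤ ‖L n c i‖)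
    (h4 : ‖M n c i‖ ≤ 16 / Y n c * ‖L n c i‖ ^ 2) (h5 : 0 ≤ (X n c i).re)
    (h6 : ‖X n c i‖ ≤ n / 10) :
    Y n c ≤ ‖X n c (i + 1)‖ ∧ 0 < ‖L n c (i + 1)‖ ∧ ‖L n c 1‖ ≤ ‖L n c (i + 1)‖ ∧
    ‖M n c (i + 1)‖ ≤ 16 / Y n c * ‖L n c (i + 1)‖ ^ 2 ∧
    Y n c / 2 * ‖L n c i‖ ≤ ‖L n c (i + 1)‖ := by
  have hnr : (2:ℝ) ≤ n := by exact_mod_cast hn
  have hn0 : (0:ℝ) < n := by linarith
  have hY0 : 0 < Y n c := by linarith
  have hA1 : 1 ≤ ‖A n c i‖ := by
    have e1 : (A n c i).re = 1 + (X n c i).re / n := by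
      unfold A
      rw [Complex.add_re, Complex.one_re, Complex.div_natCast_re]
    have e2 := Complex.re_le_norm (A n c i)
    have e3 : 0 ≤ (X n c i).re / n := div_nonneg h5 hn0.le
    linarith
  have hA2 : ‖A n c i‖ ≤ 11 / 10 := by
    unfold A
    refine (norm_add_le _ _).trans ?_
    rw [norm_one, norm_div, Complex.norm_natCast]
    have : ‖X n c i‖ / n ≤ 1 / 10 := by rw [div_le_iff₀ hn0]; linarith
    linarith
  have hA0 : 0 < ‖A n c i‖ := by linarith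
  set x := ‖X n c i‖ with hx
  set l := ‖L n c i‖ with hl
  have hx20 : 20 ≤ x := hY.trans h1
  have hX1 : Y n c ≤ ‖X n c (i + 1)‖ := by
    rw [Pool.Agent.W12.MB.norm_X]
    nlinarith [one_le_pow₀ hA1 (n := n)]
  have hLdef : L n c (i + 1) = L n c 1 + X n c i * L n c i / A n c i := by
    rw [Pool.Agent.W216.MB.BAS.L1]; rfl
  have hq : ‖X n c i * L n c i / A n c i‖ = x * l / ‖A n c i‖ := by
    rw [norm_div, norm_mul]
  have hq1 : 10 / 11 * (x * l) ≤ ‖X n c i * L n c i / A n c i‖ := by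
    rw [hq, le_div_iff₀ hA0]
    have : 0 ≤ x * l := by positivity
    nlinarith
  have hq2 : ‖X n c i * L n c i / A n c i‖ ≤ x * l := by
    rw [hq]
    exact div_le_self (by positivity) hA1
  have hLlow : x * l / 2 ≤ ‖L n c (i + 1)‖ := by
    have e1 : ‖X n c i * L n c i / A n c i‖ ≤ ‖L n c (i + 1)‖ + ‖L n c 1‖ := by
      have e2 : X n c i * L n c i / A n c i = L n c (i + 1) - L n c 1 := by rw [hLdef]; ring
      rw [e2]
      exact norm_sub_le _ _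
    nlinarith
  have hLpos : 0 < ‖L n c (i + 1)‖ := lt_of_lt_of_le (by positivity) hLlow
  have hLmono : Y n c / 2 * l ≤ ‖L n c (i + 1)‖ := by
    refine le_trans ?_ hLlow
    nlinarith
  refine ⟨hX1, hLpos, ?_, ?_, hLmono⟩
  · nlinarith
  · -- the second derivative
    have hMdef : M n c (i + 1) = -((n - 1) / c ^ 2) +
        X n c i * (L n c i ^ 2 + M n c i) / A n c i
        - (X n c i * L n c i / A n c i) ^ 2 / n := rfl
    have hM1 : ‖-(((n:ℂ) - 1) / c ^ 2)‖ ≤ l ^ 2 := by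
      rw [norm_neg, norm_div, norm_pow, Pool.Agent.W216.MB.BAS.nm1 hn]
      have e1 : ((n:ℝ) - 1) / ‖c‖ ^ 2 ≤ ‖L n c 1‖ ^ 2 := by
        rw [norm_L1 hn, div_pow]
        apply div_le_div_of_nonneg_right _ (by positivity)
        nlinarith
      exact e1.trans (pow_le_pow_left₀ (norm_nonneg _) h3 2)
    have h4' : ‖M n c i‖ ≤ l ^ 2 := by
      refine h4.trans ?_
      have : 16 / Y n c ≤ 1 := by rw [div_le_one hY0]; linarith
      nlinarith [sq_nonneg l]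
    have hM2 : ‖X n c i * (L n c i ^ 2 + M n c i) / A n c i‖ ≤ x * (2 * l ^ 2) := by
      rw [norm_div, norm_mul]
      refine (div_le_self (by positivity) hA1).trans ?_
      apply mul_le_mul_of_nonneg_left _ (norm_nonneg _)
      refine (norm_add_le _ _).trans ?_
      rw [norm_pow]
      linarith
    have hM3 : ‖(X n c i * L n c i / A n c i) ^ 2 / n‖ ≤ (x * l) ^ 2 / n := by
      rw [norm_div, norm_pow, Complex.norm_natCast]
      apply div_le_div_of_nonneg_right _ hn0.le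
      exact pow_le_pow_left₀ (norm_nonneg _) hq2 2
    have hM : ‖M n c (i + 1)‖ ≤ l ^ 2 + x * (2 * l ^ 2) + (x * l) ^ 2 / n := by
      rw [hMdef]
      refine (norm_sub_le _ _).trans (add_le_add ((norm_add_le _ _).trans
        (add_le_add hM1 hM2)) hM3)
    have hr : 16 / Y n c * (x * l / 2) ^ 2 ≤ 16 / Y n c * ‖L n c (i + 1)‖ ^ 2 := by
      apply mul_le_mul_of_nonneg_left _ (by positivity)
      exact pow_le_pow_left₀ (by positivity) hLlow 2
    refine hM.trans (le_trans ?_ hr)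
    have e1 : 16 / Y n c * (x * l / 2) ^ 2 = 4 * (x ^ 2 / Y n c) * l ^ 2 := by
      field_simp
      norm_num
    have e2 : x ≤ x ^ 2 / Y n c := by
      rw [le_div_iff₀ hY0]; nlinarith
    have e3 : (x * l) ^ 2 / n ≤ (x ^ 2 / Y n c) * l ^ 2 := by
      rw [mul_pow, div_mul_eq_mul_div]
      exact div_le_div_of_nonneg_left (by positivity) hY0 hYn
    rw [e1]
    have hl2 : 0 ≤ l ^ 2 := sq_nonneg l
    have e4 : x * (2 * l ^ 2) ≤ 2 * (x ^ 2 / Y n c) * l ^ 2 := by nlinarith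
    have e5 : l ^ 2 ≤ (x ^ 2 / Y n c) * l ^ 2 := by
      have : 1 ≤ x ^ 2 / Y n c := by linarith
      nlinarith
    linarith

/-- the geometry up to level `j + 1` when the levels up to `j` are in the right half plane -/
theorem geo_all {n : ℕ} (hn : 2 ≤ n) {c : ℂ} (hY : 20 ≤ Y n c) (hYn : Y n c ≤ n) (j : ℕ)
    (h : ∀ i, 1 ≤ i → i ≤ j → 0 ≤ (X n c i).re ∧ ‖X n c i‖ ≤ n / 10) :
    ∀ i, 1 ≤ i → i ≤ j + 1 → Y n c ≤ ‖X n c i‖ ∧ 0 < ‖L n c i‖ ∧ ‖L n c 1‖ ≤ ‖L n c i‖ ∧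
      ‖M n c i‖ ≤ 16 / Y n c * ‖L n c i‖ ^ 2 ∧
      ∀ i', 1 ≤ i' → i' < i → Y n c / 2 * ‖L n c i'‖ ≤ ‖L n c i‖ := by
  have hnr : (2:ℝ) ≤ n := by exact_mod_cast hn
  have hY0 : 0 < Y n c := by linarith
  have hc : 0 < ‖c‖ := norm_pos_iff.mpr (Y_pos_ne hn hY)
  intro i hi1
  induction i, hi1 using Nat.le_induction with
  | base =>
    intro _
    refine ⟨(norm_X1 n c).ge, ?_, le_rfl, ?_, fun i' h1 h2 => by omega⟩
    · rw [norm_L1 hn]
      apply div_pos (by linarith) hc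
    · rw [Pool.Agent.W216.MB.BAS.M1, norm_neg, norm_div, norm_pow,
        Pool.Agent.W216.MB.BAS.nm1 hn, norm_L1 hn, div_pow, ← mul_div_assoc]
      apply div_le_div_of_nonneg_right _ (by positivity)
      rw [div_mul_eq_mul_div, le_div_iff₀ hY0]
      nlinarith
  | succ i hi ih =>
    intro hij
    obtain ⟨a1, a2, a3, a4, a5⟩ := ih (by omega)
    obtain ⟨b1, b2⟩ := h i hi (by omega)
    obtain ⟨d1, d2, d3, d4, d5⟩ := geo_step hn hY hYn a1 a2 a3 a4 b1 b2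
    refine ⟨d1, d2, d3, d4, ?_⟩
    intro i' hi1' hi2'
    rcases Nat.lt_succ_iff_lt_or_eq.1 hi2' with h1 | h1
    · have h2 := a5 i' hi1' h1
      have h3 : ‖L n c i‖ ≤ ‖L n c (i + 1)‖ := by
        refine le_trans ?_ d5
        nlinarith
      exact h2.trans h3
    · rw [h1]; exact d5

end Pool.Agent.Q79.PA
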