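import Mathlib
import Pool.Agent.W747.MB.Defs
import Pool.Agent.W216.MB.ANN
import Pool.Agent.Q79.PerAreaD

set_option autoImplicit false

open MeasureTheory Set Filter Topology

namespace Pool.Agent.Q79.PA

open Pool.Agent.W747.MB

/-- the product of the test functions -/
noncomputable def chi (n : ℕ) (ψ η : ℝ → ℝ) (j : ℕ) (c : ℂ) : ℝ :=
  ψ (Real.log (Y n c)) * ∏ i ∈ Finset.range j, η (X n c (i + 1)).arg

theorem chi_succ (n : ℕ) (ψ η : ℝ → ℝ) (j : ℕ) (c : ℂ) :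
    chi n ψ η (j + 1) c = chi n ψ η j c * η (X n c (j + 1)).arg := by
  unfold chi
  rw [Finset.prod_range_succ, mul_assoc]

theorem chi_nonneg {n : ℕ} {ψ η : ℝ → ℝ} (h1 : ∀ t, 0 ≤ ψ t) (h2 : ∀ t, 0 ≤ η t) (j : ℕ) (c : ℂ) :
    0 ≤ chi n ψ η j c :=
  mul_nonneg (h1 _) (Finset.prod_nonneg fun _ _ => h2 _)

theorem chi_le_one {n : ℕ} {ψ η : ℝ → ℝ} (_h1 : ∀ t, 0 ≤ ψ t) (h1' : ∀ t, ψ t ≤ 1)
    (h2 : ∀ t, 0 ≤ η t) (h2' : ∀ t, η t ≤ 1) (j : ℕ) (c : ℂ) :
    chi n ψ η j c ≤ 1 := by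
  unfold chi
  have h3 : ∏ i ∈ Finset.range j, η (X n c (i + 1)).arg ≤ 1 :=
    Finset.prod_le_one (fun _ _ => h2 _) (fun _ _ => h2' _)
  have h4 : 0 ≤ ∏ i ∈ Finset.range j, η (X n c (i + 1)).arg :=
    Finset.prod_nonneg fun _ _ => h2 _
  calc _ ≤ 1 * 1 := mul_le_mul (h1' _) h3 h4 (by norm_num)
    _ = 1 := by norm_num

theorem X_continuous (n i : ℕ) : Continuous fun c => X n c i := by
  induction i with
  | zero => simpa [X] using continuous_const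
  | succ i ih =>
    simp only [X]
    fun_prop

theorem Y_continuous (n : ℕ) : Continuous fun c => Y n c := by
  unfold Y; fun_prop

theorem chi_measurable {n : ℕ} {ψ η : ℝ → ℝ} (h1 : Continuous ψ) (h2 : Continuous η) (j : ℕ) :
    Measurable (chi n ψ η j) := by
  unfold chi
  apply Measurable.mul
  · exact h1.measurable.comp (Real.measurable_log.comp (Y_continuous n).measurable)
  · apply Finset.measurable_prod
    intro i _
    exact h2.measurable.comp (Complex.measurable_arg.comp (X_continuous n (i + 1)).measurable)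

theorem norm_re_comp_le (l : ℂ) :
    ‖(Complex.reCLM.comp ((l : ℂ) • (ContinuousLinearMap.id ℝ ℂ)))‖ ≤ ‖l‖ := by
  apply ContinuousLinearMap.opNorm_le_bound _ (norm_nonneg _)
  intro v
  simp only [ContinuousLinearMap.comp_apply, _root_.smul_apply,
      ContinuousLinearMap.id_apply, smul_eq_mul, Complex.reCLM_apply]
  rw [Real.norm_eq_abs, ← norm_mul]
  exact Complex.abs_re_le_norm _

theorem norm_im_comp_le (l : ℂ) :
    ‖(Complex.imCLM.comp ((l : ℂ) • (ContinuousLinearMap.id ℝ ℂ)))‖ ≤ ‖l‖ := by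
  apply ContinuousLinearMap.opNorm_le_bound _ (norm_nonneg _)
  intro v
  simp only [ContinuousLinearMap.comp_apply, _root_.smul_apply,
      ContinuousLinearMap.id_apply, smul_eq_mul, Complex.imCLM_apply]
  rw [Real.norm_eq_abs, ← norm_mul]
  exact Complex.abs_im_le_norm _

/-- non-vanishing at a point of the annulus -/
theorem nz_of_tower {n : ℕ} (hn : 2 ≤ n) {c : ℂ} (hY : 20 ≤ Y n c) {k : ℕ}
    (ht : ∀ i ≤ k, ‖X n c i‖ ≤ n / 10) :
    (∀ i ≤ k, A n c i ≠ 0) ∧ (∀ i, 1 ≤ i → i ≤ k + 1 → X n c i ≠ 0) := by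
  have hnr : (2:ℝ) ≤ n := by exact_mod_cast hn
  have hn0 : (0:ℝ) < n := by linarith
  have hA : ∀ i ≤ k, A n c i ≠ 0 := by
    intro i hi h0
    have h1 : X n c i = -(n:ℂ) := by
      unfold A at h0
      have h2 : X n c i / n = -1 := by linear_combination h0
      have h3 : (n:ℂ) ≠ 0 := by exact_mod_cast hn0.ne'
      field_simp at h2
      exact h2
    have h2 := ht i hi
    rw [h1, norm_neg, Complex.norm_natCast] at h2
    linarith
  refine ⟨hA, ?_⟩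
  intro i hi1 hi2
  obtain ⟨j, rfl⟩ : ∃ j, i = j + 1 := ⟨i - 1, by omega⟩
  rw [← norm_pos_iff, Pool.Agent.W12.MB.norm_X]
  have := norm_pos_iff.mpr (hA j (by omega))
  have : 0 < Y n c := by linarith
  positivity

/-- the derivative of `chi` -/
theorem chi_deriv {n : ℕ} (hn : 2 ≤ n) {c : ℂ} (hY : 20 ≤ Y n c) {k : ℕ}
    (ht : ∀ i ≤ k, ‖X n c i‖ ≤ n / 10) {ψ ψ' η η' : ℝ → ℝ} {C : ℝ}
    (hψ : ∀ t, HasDerivAt ψ (ψ' t) t) (hψ0 : ∀ t, 0 ≤ ψ t) (hψ1 : ∀ t, ψ t ≤ 1)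
    (hη : ∀ t, HasDerivAt η (η' t) t) (hp : ∀ t, η (t + 2 * Real.pi) = η t)
    (hη0 : ∀ t, 0 ≤ η t) (hη1 : ∀ t, η t ≤ 1) (hC : ∀ t, |η' t| ≤ C) (j : ℕ) (hj : j ≤ k) :
    ∃ D : ℂ →L[ℝ] ℝ, HasFDerivAt (chi n ψ η j) D c ∧
      ‖D‖ ≤ |ψ' (Real.log (Y n c))| * ‖L n c 1‖ + C * ∑ i ∈ Finset.range j, ‖L n c (i + 1)‖ := by
  obtain ⟨hA, hX⟩ := nz_of_tower hn hY ht
  have hc := Y_pos_ne hn hY
  have hder : ∀ i, i ≤ k + 1 → HasDerivAt (fun c => X n c i) (X n c i * L n c i) c := fun i hi =>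
    (Pool.Agent.W366.MB.main n hn c i hc (fun i' hi' => hA i' (by omega))).1
  induction j with
  | zero =>
    have h1 := hasFDerivAt_lognorm_X (X := fun c => X n c 1) (hX 1 le_rfl (by omega))
      (hder 1 (by omega))
    have h2 := (hψ _).comp_hasFDerivAt c h1
    refine ⟨_, h2.congr_of_eventuallyEq ?_, ?_⟩
    · filter_upwards with w
      unfold chi
      simp [norm_X1]
    · rw [norm_smul, norm_X1]
      simp only [Finset.range_zero, Finset.sum_empty, mul_zero, add_zero]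
      exact mul_le_mul_of_nonneg_left (norm_re_comp_le _) (abs_nonneg _)
  | succ j ih =>
    obtain ⟨D, hD, hDn⟩ := ih (by omega)
    have h1 := hasFDerivAt_arg_X hη hp (X := fun c => X n c (j + 1))
      (hX (j + 1) (by omega) (by omega)) (hder (j + 1) (by omega))
    have h2 := hD.mul h1
    refine ⟨_, h2.congr_of_eventuallyEq ?_, ?_⟩
    · filter_upwards with w
      rw [chi_succ]; rfl
    · have hχ0 := chi_nonneg (n := n) hψ0 hη0 j c
      have hχ1 := chi_le_one (n := n) hψ0 hψ1 hη0 hη1 j c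
      have hC0 : 0 ≤ C := (abs_nonneg _).trans (hC 0)
      refine (norm_add_le _ _).trans ?_
      rw [norm_smul, norm_smul, norm_smul, Finset.sum_range_succ, Real.norm_eq_abs,
        Real.norm_eq_abs, Real.norm_eq_abs, abs_of_nonneg hχ0, abs_of_nonneg (hη0 _)]
      have e1 : chi n ψ η j c * (|η' (X n c (j + 1)).arg| *
          ‖(Complex.imCLM.comp ((L n c (j + 1) : ℂ) • (ContinuousLinearMap.id ℝ ℂ)))‖) ≤
          1 * (C * ‖L n c (j + 1)‖) :=
        mul_le_mul hχ1 (mul_le_mul (hC _) (norm_im_comp_le _) (norm_nonneg _) hC0)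
          (by positivity) (by norm_num)
      have e2 : η (X n c (j + 1)).arg * ‖D‖ ≤ 1 * ‖D‖ :=
        mul_le_mul_of_nonneg_right (hη1 _) (norm_nonneg _)
      have e3 : C * (∑ i ∈ Finset.range j, ‖L n c (i + 1)‖ + ‖L n c (j + 1)‖) =
        C * ∑ i ∈ Finset.range j, ‖L n c (i + 1)‖ + C * ‖L n c (j + 1)‖ := by ring
      rw [e3]
      linarith

/-- the function whose divergence is used -/
noncomputable def FF (n : ℕ) (ψ η Γ : ℝ → ℝ) (j : ℕ) (c : ℂ) : ℂ :=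
  ((Γ (X n c (j + 1)).arg * chi n ψ η j c : ℝ) : ℂ) * (L n c (j + 1))⁻¹

theorem re_nonneg_of_cos {z : ℂ} {δ : ℝ} (hδ : 0 < δ) (h : δ ≤ Real.cos z.arg) : 0 ≤ z.re := by
  have h1 : z.re = ‖z‖ * Real.cos z.arg := by
    rw [Complex.norm_mul_cos_arg]
  rw [h1]
  exact mul_nonneg (norm_nonneg _) (by linarith)

/-- the pointwise estimate on the support -/
theorem FF_point {n : ℕ} (hn : 2 ≤ n) {c : ℂ} (hY : 20 ≤ Y n c) (hYn : Y n c ≤ n) {j : ℕ}
    (ht : ∀ i ≤ j, ‖X n c i‖ ≤ n / 10) {ψ ψ' η η' κ Γ : ℝ → ℝ} {C δ m : ℝ}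
    (hδ : 0 < δ)
    (hψ : ∀ t, HasDerivAt ψ (ψ' t) t) (hψ0 : ∀ t, 0 ≤ ψ t) (hψ1 : ∀ t, ψ t ≤ 1)
    (hη : ∀ t, HasDerivAt η (η' t) t) (hp : ∀ t, η (t + 2 * Real.pi) = η t)
    (hη0 : ∀ t, 0 ≤ η t) (hη1 : ∀ t, η t ≤ 1) (hC : ∀ t, |η' t| ≤ C)
    (hΓ : ∀ t, HasDerivAt Γ (κ t - m) t) (hpΓ : ∀ t, Γ (t + 2 * Real.pi) = Γ t)
    (hΓC : ∀ t, |Γ t| ≤ C)
    (hcos : ∀ i < j, δ ≤ Real.cos (X n c (i + 1)).arg) :
    ∃ D : ℂ →L[ℝ] ℂ, HasFDerivAt (FF n ψ η Γ j) D c ∧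
      ‖D‖ ≤ |κ (X n c (j + 1)).arg - m| + C * (|ψ' (Real.log (Y n c))| + C * j) + C ∧
      ‖D 1 - Complex.I * D Complex.I +
        Complex.I * (((κ (X n c (j + 1)).arg - m) * chi n ψ η j c : ℝ) : ℂ)‖ ≤
        2 * C * (|ψ' (Real.log (Y n c))| + (2 * C * j + 16) / Y n c) := by
  have hY0 : 0 < Y n c := by linarith
  have hC0 : 0 ≤ C := (abs_nonneg _).trans (hC 0)
  obtain ⟨hA, hX⟩ := nz_of_tower hn hY ht
  have hc := Y_pos_ne hn hY
  have hder : HasDerivAt (fun c => X n c (j + 1)) (X n c (j + 1) * L n c (j + 1)) c :=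
    (Pool.Agent.W366.MB.main n hn c (j + 1) hc (fun i' hi' => hA i' (by omega))).1
  have hderL : HasDerivAt (fun c => L n c (j + 1)) (M n c (j + 1)) c :=
    (Pool.Agent.W366.MB.main n hn c (j + 1) hc (fun i' hi' => hA i' (by omega))).2
  have hgeo := geo_all hn hY hYn j (fun i hi1 hi2 => by
    obtain ⟨i', rfl⟩ : ∃ i', i = i' + 1 := ⟨i - 1, by omega⟩
    exact ⟨re_nonneg_of_cos hδ (hcos i' (by omega)), ht _ hi2⟩)
  obtain ⟨g1, g2, g3, g4, g5⟩ := hgeo (j + 1) (by omega) le_rfl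
  obtain ⟨Dχ, hDχ, hDχn⟩ := chi_deriv hn hY ht hψ hψ0 hψ1 hη hp hη0 hη1 hC j le_rfl
  have h1 := hasFDerivAt_arg_X hΓ hpΓ (X := fun c => X n c (j + 1)) (hX (j + 1) (by omega) le_rfl)
    hder
  obtain ⟨D, hD, hD1, hD2⟩ := point_deriv (Lf := fun c => L n c (j + 1)) h1 hDχ hderL
    (norm_pos_iff.mp g2)
  set l := ‖L n c (j + 1)‖ with hl
  have hχ0 := chi_nonneg (n := n) hψ0 hη0 j c
  have hχ1 := chi_le_one (n := n) hψ0 hψ1 hη0 hη1 j c
  -- the two quotients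
  have hq1 : ‖Dχ‖ / l ≤ |ψ' (Real.log (Y n c))| + 2 * C * j / Y n c := by
    rw [div_le_iff₀ g2]
    refine hDχn.trans ?_
    have e1 : |ψ' (Real.log (Y n c))| * ‖L n c 1‖ ≤ |ψ' (Real.log (Y n c))| * l :=
      mul_le_mul_of_nonneg_left g3 (abs_nonneg _)
    have e2 : ∑ i ∈ Finset.range j, ‖L n c (i + 1)‖ ≤ j * (2 / Y n c * l) := by
      have : ∀ i ∈ Finset.range j, ‖L n c (i + 1)‖ ≤ 2 / Y n c * l := by
        intro i hi
        rw [Finset.mem_range] at hi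
        have := g5 (i + 1) (by omega) (by omega)
        rw [div_mul_eq_mul_div, le_div_iff₀ hY0]
        linarith
      have h2 := Finset.sum_le_card_nsmul _ _ _ this
      rw [Finset.card_range, nsmul_eq_mul] at h2
      exact h2
    have e3 : C * ∑ i ∈ Finset.range j, ‖L n c (i + 1)‖ ≤ C * (j * (2 / Y n c * l)) :=
      mul_le_mul_of_nonneg_left e2 hC0
    have e4 : (|ψ' (Real.log (Y n c))| + 2 * C * j / Y n c) * l =
      |ψ' (Real.log (Y n c))| * l + C * (j * (2 / Y n c * l)) := by ring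
    rw [e4]
    exact add_le_add e1 e3
  have hq2 : ‖M n c (j + 1)‖ / l ^ 2 ≤ 16 / Y n c := by
    rw [div_le_iff₀ (by positivity)]
    exact g4
  have hΓc := hΓC (X n c (j + 1)).arg
  refine ⟨D, hD, hD1.trans ?_, hD2.trans ?_⟩
  · rw [abs_of_nonneg hχ0]
    have e1 : |κ (X n c (j + 1)).arg - m| * chi n ψ η j c ≤ |κ (X n c (j + 1)).arg - m| * 1 :=
      mul_le_mul_of_nonneg_left hχ1 (abs_nonneg _)
    have e2 : |Γ (X n c (j + 1)).arg| * ‖Dχ‖ / l ≤ C * (|ψ' (Real.log (Y n c))| + C * j) := by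
      rw [mul_div_assoc]
      apply mul_le_mul hΓc (hq1.trans _) (by positivity) hC0
      have : 2 * C * j / Y n c ≤ C * j := by
        rw [div_le_iff₀ hY0]
        have : 0 ≤ C * j := by positivity
        nlinarith
      linarith
    have e3 : |Γ (X n c (j + 1)).arg| * chi n ψ η j c * ‖M n c (j + 1)‖ / l ^ 2 ≤ C := by
      rw [mul_div_assoc]
      have f1 : |Γ (X n c (j + 1)).arg| * chi n ψ η j c ≤ C * 1 :=
        mul_le_mul hΓc hχ1 hχ0 hC0
      have f2 : ‖M n c (j + 1)‖ / l ^ 2 ≤ 1 := by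
        refine hq2.trans ?_
        rw [div_le_one hY0]; linarith
      calc _ ≤ (C * 1) * 1 := mul_le_mul f1 f2 (by positivity) (by linarith)
        _ = C := by ring
    linarith
  · rw [abs_of_nonneg hχ0]
    have e2 : 2 * |Γ (X n c (j + 1)).arg| * ‖Dχ‖ / l ≤
        2 * C * (|ψ' (Real.log (Y n c))| + 2 * C * j / Y n c) := by
      rw [mul_div_assoc]
      exact mul_le_mul (by linarith) hq1 (by positivity) (by linarith)
    have e3 : 2 * |Γ (X n c (j + 1)).arg| * chi n ψ η j c * ‖M n c (j + 1)‖ / l ^ 2 ≤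
        2 * C * (16 / Y n c) := by
      rw [mul_div_assoc]
      have f1 : 2 * |Γ (X n c (j + 1)).arg| * chi n ψ η j c ≤ 2 * C * 1 :=
        mul_le_mul (by linarith) hχ1 hχ0 (by linarith)
      rw [mul_one] at f1
      exact mul_le_mul f1 hq2 (by positivity) (by linarith)
    have e4 : 2 * C * (|ψ' (Real.log (Y n c))| + (2 * C * j + 16) / Y n c) =
      2 * C * (|ψ' (Real.log (Y n c))| + 2 * C * j / Y n c) + 2 * C * (16 / Y n c) := by ring
    rw [e4]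
    exact add_le_add e2 e3

end Pool.Agent.Q79.PA
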