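import Mathlib
import Pool.Agent.Q79.PerAreaE

set_option autoImplicit false

open MeasureTheory Set Filter Topology

namespace Pool.Agent.Q79.PA

open Pool.Agent.W747.MB

/-- the annulus, and control of the first levels -/
structure Tow (n k : ℕ) (a b : ℝ) : Prop where
  hn : 2 ≤ n
  ha : 20 ≤ a
  hab : a * Real.exp 2 ≤ b
  hbn : b ≤ n
  t : ∀ c, Y n c ≤ b → ∀ i ≤ k, ‖X n c i‖ ≤ n / 10

/-- the annulus -/
def Ann (n : ℕ) (a b : ℝ) : Set ℂ := {c | a ≤ Y n c ∧ Y n c ≤ b}

theorem Ann_meas (n : ℕ) (a b : ℝ) : MeasurableSet (Ann n a b) :=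
  (measurableSet_le measurable_const (Y_continuous n).measurable).inter
    (measurableSet_le (Y_continuous n).measurable measurable_const)

theorem Tow.b0 {n k : ℕ} {a b : ℝ} (h : Tow n k a b) : 20 ≤ b ∧ a ≤ b := by
  have h1 := h.hab
  have h2 := h.ha
  have h3 := Real.add_one_le_exp (2:ℝ)
  constructor
  · nlinarith
  · nlinarith

theorem Tow.log {n k : ℕ} {a b : ℝ} (h : Tow n k a b) : Real.log a + 2 ≤ Real.log b := by
  have h2 := h.ha
  have h1 := Real.log_le_log (by positivity) h.hab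
  rwa [Real.log_mul (by linarith) (Real.exp_pos _).ne', Real.log_exp] at h1

theorem Y_nonneg (n : ℕ) (c : ℂ) : 0 ≤ Y n c := by unfold Y; positivity

/-- points with `Y ≤ n` lie in the unit disc -/
theorem norm_le_one_of_Y {n : ℕ} (hn : 2 ≤ n) {c : ℂ} (h : Y n c ≤ n) : ‖c‖ ≤ 1 := by
  by_contra hcon
  push Not at hcon
  have hn0 : (0:ℝ) < n := by
    have : 0 < n := by omega
    exact_mod_cast this
  have h1 : 1 < ‖c‖ ^ (n - 1) := one_lt_pow₀ hcon (by omega)
  unfold Y at h
  nlinarith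

/-- the function `ψ (log Y)` vanishes outside of the annulus -/
theorem psi_zero {n : ℕ} {a b : ℝ} (ha : 20 ≤ a) (hb : 20 ≤ b) {ψ : ℝ → ℝ}
    (z1 : ∀ t, t ≤ Real.log a → ψ t = 0) (z2 : ∀ t, Real.log b ≤ t → ψ t = 0) {c : ℂ}
    (hc : Y n c < a ∨ b < Y n c) : ψ (Real.log (Y n c)) = 0 := by
  rcases hc with h | h
  · apply z1
    rcases (Y_nonneg n c).eq_or_lt with h0 | h0
    · rw [← h0, Real.log_zero]; exact Real.log_nonneg (by linarith)
    · exact Real.log_le_log h0 h.le
  · apply z2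
    exact Real.log_le_log (by linarith) h.le

/-- the pointwise estimate everywhere -/
theorem FF_all {n j : ℕ} {a b : ℝ} (T : Tow n j a b) {ψ ψ' η η' κ Γ : ℝ → ℝ} {C Cψ δ m : ℝ}
    (hδ : 0 < δ) (hψ : Cut (Real.log a) (Real.log b) Cψ ψ ψ')
    (hη : ∀ t, HasDerivAt η (η' t) t) (hp : ∀ t, η (t + 2 * Real.pi) = η t)
    (hη0 : ∀ t, 0 ≤ η t) (hη1 : ∀ t, η t ≤ 1) (hC : ∀ t, |η' t| ≤ C)
    (hηz : ∀ t, Real.cos t < δ → η t = 0)
    (hΓ : ∀ t, HasDerivAt Γ (κ t - m) t) (hpΓ : ∀ t, Γ (t + 2 * Real.pi) = Γ t)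
    (hΓC : ∀ t, |Γ t| ≤ C) (hκ0 : ∀ t, 0 ≤ κ t) (hκ1 : ∀ t, κ t ≤ 1) (hm0 : 0 ≤ m) (hm1 : m ≤ 1)
    (c : ℂ) :
    ∃ D : ℂ →L[ℝ] ℂ, HasFDerivAt (FF n ψ η Γ j) D c ∧
      ‖D‖ ≤ 1 + C * (Cψ + C * j) + C ∧
      ‖D 1 - Complex.I * D Complex.I +
        Complex.I * (((κ (X n c (j + 1)).arg - m) * chi n ψ η j c : ℝ) : ℂ)‖ ≤
        (Ann n a b).indicator (fun c => 2 * C * (|ψ' (Real.log (Y n c))| + (2 * C * j + 16) / a)) c := by
  have hC0 : 0 ≤ C := (abs_nonneg _).trans (hC 0)
  have hCψ : 0 ≤ Cψ := (abs_nonneg _).trans (hψ.b 0)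
  have hB : 0 ≤ 1 + C * (Cψ + C * j) + C := by positivity
  have ha := T.ha
  have hb := T.b0
  have hYc : Continuous fun c => Y n c := Y_continuous n
  -- outside of the annulus
  by_cases hout : Y n c < a ∨ b < Y n c
  · refine ⟨0, ?_, by simpa using hB, ?_⟩
    · have hev : ∀ᶠ w in 𝓝 c, Y n w < a ∨ b < Y n w := by
        rcases hout with h | h
        · filter_upwards [hYc.continuousAt.eventually_lt_const h] with w hw using Or.inl hw
        · filter_upwards [hYc.continuousAt.eventually_const_lt h] with w hw using Or.inr hw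
      have h1 : (FF n ψ η Γ j) =ᶠ[𝓝 c] fun _ => (0:ℂ) := by
        filter_upwards [hev] with w hw
        unfold FF chi
        rw [psi_zero ha hb.1 hψ.z1 hψ.z2 hw]
        simp
      exact (hasFDerivAt_const (0:ℂ) c).congr_of_eventuallyEq h1
    · have h1 : c ∉ Ann n a b := by
        rintro ⟨h1, h2⟩
        rcases hout with h | h <;> linarith
      rw [indicator_of_notMem h1]
      unfold chi
      rw [psi_zero ha hb.1 hψ.z1 hψ.z2 hout]
      simp
  push Not at hout
  obtain ⟨hY1, hY2⟩ := hout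
  have hmem : c ∈ Ann n a b := ⟨hY1, hY2⟩
  have hY20 : 20 ≤ Y n c := by linarith
  have ht := T.t c hY2
  obtain ⟨hA, hX⟩ := nz_of_tower T.hn hY20 ht
  have hc := Y_pos_ne T.hn hY20
  rw [indicator_of_mem hmem]
  have he0 : 0 ≤ 2 * C * (|ψ' (Real.log (Y n c))| + (2 * C * j + 16) / a) := by positivity
  by_cases hcos : ∀ i < j, δ ≤ Real.cos (X n c (i + 1)).arg
  · obtain ⟨D, hD, hD1, hD2⟩ := FF_point T.hn hY20 (hY2.trans T.hbn) ht hδ hψ.d hψ.n0 hψ.n1 hη hp
      hη0 hη1 hC hΓ hpΓ hΓC hcos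
    refine ⟨D, hD, hD1.trans ?_, hD2.trans ?_⟩
    · have h1 : |κ (X n c (j + 1)).arg - m| ≤ 1 := by
        rw [abs_le]
        constructor
        · linarith [hκ0 (X n c (j + 1)).arg]
        · linarith [hκ1 (X n c (j + 1)).arg]
      have h2 : C * (|ψ' (Real.log (Y n c))| + C * j) ≤ C * (Cψ + C * j) :=
        mul_le_mul_of_nonneg_left (by linarith [hψ.b (Real.log (Y n c))]) hC0
      linarith
    · apply mul_le_mul_of_nonneg_left _ (by positivity)
      have : (2 * C * j + 16) / Y n c ≤ (2 * C * j + 16) / a :=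
        div_le_div_of_nonneg_left (by positivity) (by linarith) hY1
      linarith
  · push Not at hcos
    obtain ⟨i, hij, hi⟩ := hcos
    have hder : HasDerivAt (fun c => X n c (i + 1)) (X n c (i + 1) * L n c (i + 1)) c :=
      (Pool.Agent.W366.MB.main n T.hn c (i + 1) hc (fun i' hi' => hA i' (by omega))).1
    have hcont : ContinuousAt (fun w => Real.cos (X n w (i + 1)).arg) c :=
      (hasFDerivAt_arg_X (γ := Real.cos) (g := fun t => -Real.sin t) Real.hasDerivAt_cos
        Real.cos_add_two_pi (X := fun c => X n c (i + 1)) (hX (i + 1) (by omega) (by omega))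
        hder).continuousAt
    have hchi : ∀ w : ℂ, Real.cos (X n w (i + 1)).arg < δ → chi n ψ η j w = 0 := by
      intro w hw
      unfold chi
      rw [Finset.prod_eq_zero (Finset.mem_range.mpr hij) (hηz _ hw), mul_zero]
    refine ⟨0, ?_, by simpa using hB, ?_⟩
    · have h1 : (FF n ψ η Γ j) =ᶠ[𝓝 c] fun _ => (0:ℂ) := by
        filter_upwards [hcont.eventually_lt_const hi] with w hw
        unfold FF
        rw [hchi w hw]
        simp
      exact (hasFDerivAt_const (0:ℂ) c).congr_of_eventuallyEq h1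
    · rw [hchi c hi]
      simpa using he0

theorem vol_Ann_le {n : ℕ} (hn : 2 ≤ n) {α β : ℝ} (h0 : 0 < α) (h1 : α ≤ β) (h2 : β ≤ n) :
    volume (Ann n α β) ≤ ENNReal.ofReal (2000 * Real.log (β / α) / n) := by
  have hnr : (2:ℝ) ≤ n := by exact_mod_cast hn
  exact Pool.Agent.W216.MB.ANN.main n hn α β h0 h1 (by linarith)

theorem real_Ann_le {n : ℕ} (hn : 2 ≤ n) {α β : ℝ} (h0 : 0 < α) (h1 : α ≤ β) (h2 : β ≤ n) :
    (volume (Ann n α β)).toReal ≤ 2000 * Real.log (β / α) / n := by
  have hl : 0 ≤ Real.log (β / α) := Real.log_nonneg (by rw [le_div_iff₀ h0]; linarith)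
  exact ENNReal.toReal_le_of_le_ofReal (by positivity) (vol_Ann_le hn h0 h1 h2)

theorem Ann_ne_top {n : ℕ} (hn : 2 ≤ n) {α β : ℝ} (h2 : β ≤ n) : volume (Ann n α β) ≠ ⊤ := by
  have h3 : Ann n α β ⊆ Metric.closedBall 0 1 := by
    rintro c ⟨_, hc⟩
    rw [mem_closedBall_zero_iff]
    exact norm_le_one_of_Y hn (hc.trans h2)
  exact ((measure_mono h3).trans_lt measure_closedBall_lt_top).ne

theorem integrable_of_ann {n : ℕ} (hn : 2 ≤ n) {a b : ℝ} (h2 : b ≤ n) {g : ℂ → ℝ} {B : ℝ}
    (hg : Measurable g) (hb : ∀ c, |g c| ≤ B) (hz : ∀ c, c ∉ Ann n a b → g c = 0) :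
    Integrable g := by
  have h1 : IntegrableOn g (Ann n a b) := by
    apply Measure.integrableOn_of_bounded (M := B) (Ann_ne_top hn h2) hg.aestronglyMeasurable
    filter_upwards with c
    rw [Real.norm_eq_abs]; exact hb c
  rw [integrableOn_iff_integrable_of_support_subset] at h1
  · exact h1
  · intro c hc
    by_contra hcon
    exact hc (hz c hcon)

theorem chi_integrable {n : ℕ} (hn : 2 ≤ n) {a b : ℝ} (ha : 20 ≤ a) (hb : 20 ≤ b)
    (h2 : b ≤ n) {ψ ψ' η : ℝ → ℝ} {Cψ : ℝ}
    (hψ : Cut (Real.log a) (Real.log b) Cψ ψ ψ') (hη : Continuous η)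
    (hη0 : ∀ t, 0 ≤ η t) (hη1 : ∀ t, η t ≤ 1) (j : ℕ) {u : ℂ → ℝ} (hu : Measurable u)
    (hu1 : ∀ c, |u c| ≤ 1) :
    Integrable (fun c => u c * chi n ψ η j c) := by
  have hψc : Continuous ψ := by
    rw [continuous_iff_continuousAt]; intro t; exact (hψ.d t).continuousAt
  have hmeas : Measurable (fun c => u c * chi n ψ η j c) := hu.mul (chi_measurable hψc hη j)
  refine integrable_of_ann hn (a := a) (b := b) h2 (B := 1) hmeas ?_ ?_
  · intro c
    rw [abs_mul, abs_of_nonneg (chi_nonneg hψ.n0 hη0 j c)]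
    exact mul_le_one₀ (hu1 c) (chi_nonneg hψ.n0 hη0 j c) (chi_le_one hψ.n0 hψ.n1 hη0 hη1 j c)
  · intro c hc
    have : Y n c < a ∨ b < Y n c := by
      by_contra hcon
      push Not at hcon
      exact hc ⟨hcon.1, hcon.2⟩
    unfold chi
    rw [psi_zero ha hb hψ.z1 hψ.z2 this]
    simp

/-- the integration by parts -/
theorem ibp {n j : ℕ} {a b : ℝ} (T : Tow n j a b) {ψ ψ' η η' κ Γ : ℝ → ℝ} {C Cψ δ m : ℝ}
    (hδ : 0 < δ) (hψ : Cut (Real.log a) (Real.log b) Cψ ψ ψ')
    (hη : ∀ t, HasDerivAt η (η' t) t) (hp : ∀ t, η (t + 2 * Real.pi) = η t)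
    (hη0 : ∀ t, 0 ≤ η t) (hη1 : ∀ t, η t ≤ 1) (hC : ∀ t, |η' t| ≤ C)
    (hηz : ∀ t, Real.cos t < δ → η t = 0)
    (hκ : Continuous κ)
    (hΓ : ∀ t, HasDerivAt Γ (κ t - m) t) (hpΓ : ∀ t, Γ (t + 2 * Real.pi) = Γ t)
    (hΓC : ∀ t, |Γ t| ≤ C) (hκ0 : ∀ t, 0 ≤ κ t) (hκ1 : ∀ t, κ t ≤ 1) (hm0 : 0 ≤ m) (hm1 : m ≤ 1) :
    |(∫ c, κ (X n c (j + 1)).arg * chi n ψ η j c) - m * ∫ c, chi n ψ η j c| ≤
      4000 * C * (2 * Cψ + (2 * C * j + 16) * Real.log (b / a) / a) / n := by
  have hC0 : 0 ≤ C := (abs_nonneg _).trans (hC 0)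
  have hCψ : 0 ≤ Cψ := (abs_nonneg _).trans (hψ.b 0)
  have ha := T.ha
  have hb := T.b0
  have hn := T.hn
  have hbn := T.hbn
  have hnr : (2:ℝ) ≤ n := by exact_mod_cast hn
  have hn0 : (0:ℝ) < n := by linarith
  have hηc : Continuous η := by
    rw [continuous_iff_continuousAt]; intro t; exact (hη t).continuousAt
  have hall := FF_all T hδ hψ hη hp hη0 hη1 hC hηz hΓ hpΓ hΓC hκ0 hκ1 hm0 hm1
  set B := 1 + C * (Cψ + C * j) + C with hBdef
  have hdiff : Differentiable ℝ (FF n ψ η Γ j) := fun c => by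
    obtain ⟨D, hD, _⟩ := hall c
    exact hD.differentiableAt
  have hfd : ∀ c, ‖fderiv ℝ (FF n ψ η Γ j) c‖ ≤ B := by
    intro c
    obtain ⟨D, hD, hD1, _⟩ := hall c
    rw [hD.fderiv]; exact hD1
  have hsupp : ∀ c : ℂ, 2 ≤ ‖c‖ → FF n ψ η Γ j c = 0 := by
    intro c hc
    have h1 : Y n c < a ∨ b < Y n c := by
      right
      by_contra hcon
      push Not at hcon
      have := norm_le_one_of_Y hn (hcon.trans hbn)
      linarith
    unfold FF chi
    rw [psi_zero ha hb.1 hψ.z1 hψ.z2 h1]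
    simp
  obtain ⟨i1, i2, i3⟩ := int_dbar_zero hdiff hsupp hfd
  set F' : ℂ → ℂ := fun c => fderiv ℝ (FF n ψ η Γ j) c 1 -
    Complex.I * fderiv ℝ (FF n ψ η Γ j) c Complex.I with hF'
  have hF'int : Integrable F' := i1.sub (i2.const_mul _)
  set f : ℂ → ℝ := fun c => (κ (X n c (j + 1)).arg - m) * chi n ψ η j c with hf
  have harg : Measurable fun c => κ (X n c (j + 1)).arg :=
    hκ.measurable.comp (Complex.measurable_arg.comp (X_continuous n (j + 1)).measurable)
  have hargm : Measurable fun c => κ (X n c (j + 1)).arg - m := harg.sub measurable_const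
  have hfint : Integrable f := by
    apply chi_integrable hn ha hb.1 hbn hψ hηc hη0 hη1 j hargm
    intro c
    rw [abs_le]
    constructor
    · linarith [hκ0 (X n c (j + 1)).arg]
    · linarith [hκ1 (X n c (j + 1)).arg]
  set A1 : Set ℂ := Ann n a (a * Real.exp 1) with hA1
  set A2 : Set ℂ := Ann n (b / Real.exp 1) b with hA2
  have he1 : (2:ℝ) ≤ Real.exp 1 := by have := Real.add_one_le_exp (1:ℝ); linarith
  have hee : Real.exp 2 = Real.exp 1 * Real.exp 1 := by rw [← Real.exp_add]; norm_num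
  have ha0 : 0 < a := by linarith
  have hb0 : 0 < b := by linarith [hb.1]
  set E : ℂ → ℝ := fun c => 2 * C * (Cψ * (A1.indicator (fun _ => (1:ℝ)) c +
    A2.indicator (fun _ => (1:ℝ)) c) + (2 * C * j + 16) / a *
    (Ann n a b).indicator (fun _ => (1:ℝ)) c) with hE
  have hind : ∀ α β : ℝ, β ≤ n → Integrable ((Ann n α β).indicator (fun _ => (1:ℝ))) := by
    intro α β hβ
    rw [integrable_indicator_iff (Ann_meas n α β)]
    exact integrableOn_const (Ann_ne_top hn hβ)
  have ha1 : a * Real.exp 1 ≤ n := by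
    refine le_trans ?_ (T.hab.trans hbn)
    apply mul_le_mul_of_nonneg_left _ ha0.le
    exact Real.exp_le_exp.mpr (by norm_num)
  have hEint : Integrable E :=
    ((((hind a _ ha1).add (hind _ b hbn)).const_mul Cψ).add
      ((hind a b hbn).const_mul _)).const_mul _
  have hbound : ∀ c, ‖F' c + Complex.I * ((f c : ℝ) : ℂ)‖ ≤ E c := by
    intro c
    obtain ⟨D, hD, _, hD2⟩ := hall c
    have h1 : F' c = D 1 - Complex.I * D Complex.I := by rw [hF']; simp only; rw [hD.fderiv]
    rw [h1]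
    refine hD2.trans ?_
    rw [hE]
    simp only
    by_cases hc : c ∈ Ann n a b
    · rw [indicator_of_mem hc, indicator_of_mem hc, mul_one]
      apply mul_le_mul_of_nonneg_left _ (by positivity)
      have h2 : |ψ' (Real.log (Y n c))| ≤ Cψ * (A1.indicator (fun _ => (1:ℝ)) c +
          A2.indicator (fun _ => (1:ℝ)) c) := by
        have hi1 : 0 ≤ A1.indicator (fun _ => (1:ℝ)) c :=
          indicator_nonneg (fun _ _ => by norm_num) _
        have hi2 : 0 ≤ A2.indicator (fun _ => (1:ℝ)) c :=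
          indicator_nonneg (fun _ _ => by norm_num) _
        have hY0 : 0 < Y n c := by linarith [hc.1]
        rcases le_or_gt (Y n c) (a * Real.exp 1) with h3 | h3
        · rw [indicator_of_mem (show c ∈ A1 from ⟨hc.1, h3⟩)]
          have := hψ.b (Real.log (Y n c))
          nlinarith
        · rcases le_or_gt (b / Real.exp 1) (Y n c) with h4 | h4
          · rw [indicator_of_mem (show c ∈ A2 from ⟨h4, hc.2⟩)]
            have := hψ.b (Real.log (Y n c))
            nlinarith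
          · rw [hψ.bz]
            · rw [abs_zero]; positivity
            · have := Real.log_lt_log (by positivity) h3
              rw [Real.log_mul ha0.ne' (Real.exp_pos _).ne', Real.log_exp] at this
              exact this
            · have := Real.log_lt_log hY0 h4
              rw [Real.log_div hb0.ne' (Real.exp_pos _).ne', Real.log_exp] at this
              exact this
      linarith
    · rw [indicator_of_notMem hc]
      have hi1 : 0 ≤ A1.indicator (fun _ => (1:ℝ)) c :=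
        indicator_nonneg (fun _ _ => by norm_num) _
      have hi2 : 0 ≤ A2.indicator (fun _ => (1:ℝ)) c :=
        indicator_nonneg (fun _ _ => by norm_num) _
      have hi3 : 0 ≤ (Ann n a b).indicator (fun _ => (1:ℝ)) c :=
        indicator_nonneg (fun _ _ => by norm_num) _
      positivity
  have hIf : Integrable fun c => Complex.I * ((f c : ℝ) : ℂ) := hfint.ofReal.const_mul _
  have hkey : ‖∫ c, (F' c + Complex.I * ((f c : ℝ) : ℂ))‖ ≤ ∫ c, E c :=
    norm_integral_le_of_norm_le hEint (Eventually.of_forall hbound)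
  rw [integral_add hF'int hIf, i3, zero_add, integral_const_mul, norm_mul, Complex.norm_I,
    one_mul, integral_complex_ofReal, Complex.norm_real, Real.norm_eq_abs] at hkey
  have hfsplit : ∫ c, f c = (∫ c, κ (X n c (j + 1)).arg * chi n ψ η j c) -
      m * ∫ c, chi n ψ η j c := by
    have g1 : Integrable fun c => κ (X n c (j + 1)).arg * chi n ψ η j c := by
      apply chi_integrable hn ha hb.1 hbn hψ hηc hη0 hη1 j harg
      intro c
      rw [abs_of_nonneg (hκ0 _)]; exact hκ1 _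
    have g2 : Integrable fun c => m * chi n ψ η j c := by
      apply chi_integrable hn ha hb.1 hbn hψ hηc hη0 hη1 j measurable_const
      intro c
      rw [abs_of_nonneg hm0]; exact hm1
    rw [← integral_const_mul, ← integral_sub g1 g2]
    congr 1
    funext c
    rw [hf]; ring
  rw [hfsplit] at hkey
  refine hkey.trans ?_
  have hv1 := real_Ann_le hn ha0 (show a ≤ a * Real.exp 1 by nlinarith) ha1
  have hv2 := real_Ann_le hn (show 0 < b / Real.exp 1 by positivity)
    (show b / Real.exp 1 ≤ b from div_le_self hb0.le (by linarith)) hbn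
  have hv3 := real_Ann_le hn ha0 hb.2 hbn
  have hl1 : Real.log (a * Real.exp 1 / a) = 1 := by
    rw [mul_div_cancel_left₀ _ ha0.ne', Real.log_exp]
  have hl2 : Real.log (b / (b / Real.exp 1)) = 1 := by
    have : b / (b / Real.exp 1) = Real.exp 1 := by field_simp
    rw [this, Real.log_exp]
  rw [hl1] at hv1
  rw [hl2] at hv2
  have hintE : ∫ c, E c = 2 * C * (Cψ * ((volume A1).toReal + (volume A2).toReal) +
      (2 * C * j + 16) / a * (volume (Ann n a b)).toReal) := by
    rw [hE, integral_const_mul, integral_add, integral_const_mul, integral_const_mul,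
      integral_add (hind a _ ha1) (hind _ b hbn)]
    · rw [integral_indicator_const _ (Ann_meas n _ _), integral_indicator_const _ (Ann_meas n _ _),
        integral_indicator_const _ (Ann_meas n _ _)]
      simp only [smul_eq_mul, mul_one, measureReal_def]
      rfl
    · exact ((hind a _ ha1).add (hind _ b hbn)).const_mul Cψ
    · exact (hind a b hbn).const_mul _
  rw [hintE]
  have e1 : 4000 * C * (2 * Cψ + (2 * C * j + 16) * Real.log (b / a) / a) / n =
      2 * C * (Cψ * (2000 * 1 / n + 2000 * 1 / n) +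
      (2 * C * j + 16) / a * (2000 * Real.log (b / a) / n)) := by ring
  rw [e1]
  apply mul_le_mul_of_nonneg_left _ (by positivity)
  apply add_le_add
  · exact mul_le_mul_of_nonneg_left (add_le_add hv1 hv2) hCψ
  · exact mul_le_mul_of_nonneg_left hv3 (by positivity)

end Pool.Agent.Q79.PA
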