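import Mathlib
import Pool.Agent.TH363.CD.Upper3
import Pool.Agent.Q79.PerAreaF

set_option autoImplicit false

open MeasureTheory Set Filter Topology

namespace Pool.Agent.Q79.PA

open Pool.Agent.W747.MB Pool.Agent.TH363.CD

/-- upper bound of the levels -/
theorem tower_bound {n : ℕ} (hn : 2 ≤ n) {c : ℂ} {b : ℝ} (_hb : 1 ≤ b) (hY : Y n c ≤ b) (i : ℕ) :
    ‖X n c (i + 1)‖ ≤ E2^[i] b := by
  have hnr : (2:ℝ) ≤ n := by exact_mod_cast hn
  have hn0 : (0:ℝ) < n := by linarith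
  induction i with
  | zero => rw [norm_X1]; exact hY
  | succ i ih =>
    rw [Function.iterate_succ_apply', Pool.Agent.W12.MB.norm_X]
    set T := E2^[i] b with hT
    have hbT : b ≤ T := le_iter i b
    have h1 : ‖A n c (i + 1)‖ ≤ Real.exp (T / n) := by
      have h2 := Real.add_one_le_exp (T / n)
      have h3 : ‖A n c (i + 1)‖ ≤ 1 + ‖X n c (i + 1)‖ / n := by
        unfold A
        refine (norm_add_le _ _).trans ?_
        rw [norm_one, norm_div, Complex.norm_natCast]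
      have h4 : ‖X n c (i + 1)‖ / n ≤ T / n := by gcongr
      linarith
    have h2 : ‖A n c (i + 1)‖ ^ n ≤ Real.exp T := by
      calc ‖A n c (i + 1)‖ ^ n ≤ Real.exp (T / n) ^ n :=
            pow_le_pow_left₀ (norm_nonneg _) h1 _
        _ = Real.exp T := by
            rw [← Real.exp_nat_mul]
            congr 1
            field_simp
    have h3 : T ≤ Real.exp T := by have := Real.add_one_le_exp T; linarith
    unfold E2
    calc Y n c * ‖A n c (i + 1)‖ ^ n ≤ Real.exp T * Real.exp T := by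
          apply mul_le_mul (by linarith) h2 (by positivity) (Real.exp_pos _).le
      _ = Real.exp (2 * T) := by rw [← Real.exp_add]; ring_nf

theorem tower_mono {b : ℝ} {i j : ℕ} (hij : i ≤ j) : E2^[i] b ≤ E2^[j] b := by
  obtain ⟨d, rfl⟩ := Nat.exists_eq_add_of_le hij
  rw [add_comm, Function.iterate_add_apply]
  exact le_iter d _

theorem E2_log' {ε s : ℝ} (hε0 : 0 < ε) (hε : ε ≤ 1 / 4) (hs : 1 / ε ^ 2 ≤ s) :
    E2 (ε * Real.log s) ≤ ε * s := by
  have h1 : 1 ≤ s := by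
    refine le_trans ?_ hs
    rw [le_div_iff₀ (by positivity)]
    nlinarith
  have hs0 : 0 < s := by linarith
  have hl : 0 ≤ Real.log s := Real.log_nonneg h1
  unfold E2
  have h2 : Real.exp (2 * (ε * Real.log s)) ≤ Real.exp (Real.log s / 2) := by
    apply Real.exp_le_exp.2
    nlinarith
  refine h2.trans ?_
  have h3 : Real.exp (Real.log s / 2) ^ 2 = s := by
    rw [← Real.exp_nat_mul]
    push_cast
    rw [mul_div_cancel₀ _ (by norm_num : (2:ℝ) ≠ 0), Real.exp_log hs0]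
  set w := Real.exp (Real.log s / 2) with hw
  have hw0 : 0 < w := Real.exp_pos _
  have h4 : 1 / ε ≤ w := by
    by_contra hcon
    push Not at hcon
    have h5 : w ^ 2 < (1 / ε) ^ 2 := pow_lt_pow_left₀ hcon hw0.le (by norm_num)
    rw [h3, div_pow, one_pow] at h5
    linarith
  rw [div_le_iff₀ hε0] at h4
  rw [← h3]
  nlinarith

theorem iter_bound' {ε : ℝ} (hε0 : 0 < ε) (hε : ε ≤ 1 / 4) (k : ℕ) :
    ∀ᶠ n : ℕ in atTop, E2^[k] (ε * Real.log^[k] (n:ℝ)) ≤ ε * n := by
  induction k with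
  | zero => simp
  | succ k ih =>
    filter_upwards [ih, (tendsto_iterlog k).eventually_ge_atTop (1 / ε ^ 2)] with n h1 h2
    rw [Function.iterate_succ_apply, Function.iterate_succ_apply' Real.log]
    exact (E2_mono.iterate k (E2_log' hε0 hε h2)).trans h1

/-- growth in the right half plane -/
theorem grow {n : ℕ} (hn : 2 ≤ n) {c : ℂ} {i : ℕ} {δ : ℝ} (hδ : 0 < δ) (hδ1 : δ ≤ 1)
    (hX : ‖X n c i‖ ≤ n / 10) (hcos : δ ≤ Real.cos (X n c i).arg) :
    Y n c * Real.exp (δ * ‖X n c i‖ / 2) ≤ ‖X n c (i + 1)‖ := by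
  have hnr : (2:ℝ) ≤ n := by exact_mod_cast hn
  have hn0 : (0:ℝ) < n := by linarith
  set x := ‖X n c i‖ with hx
  have hx0 : 0 ≤ x := norm_nonneg _
  have hre : δ * x ≤ (X n c i).re := by
    have : (X n c i).re = x * Real.cos (X n c i).arg := by rw [hx, Complex.norm_mul_cos_arg]
    rw [this, mul_comm]
    exact mul_le_mul_of_nonneg_left hcos hx0
  have hA : 1 + δ * x / n ≤ ‖A n c i‖ := by
    have e1 : (A n c i).re = 1 + (X n c i).re / n := by
      unfold A
      rw [Complex.add_re, Complex.one_re, Complex.div_natCast_re]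
    have e2 := Complex.re_le_norm (A n c i)
    have e3 : δ * x / n ≤ (X n c i).re / n := by gcongr
    linarith
  have hv : δ * x / n ≤ 1 / 10 := by
    rw [div_le_iff₀ hn0]
    nlinarith
  have hv0 : 0 ≤ δ * x / n := by positivity
  have h1 : Real.exp (δ * x / 2 / n) ≤ 1 + δ * x / n := by
    have h2 : Real.exp (δ * x / 2 / n) ≤ 1 / (1 - δ * x / 2 / n) := by
      have h3 := Real.add_one_le_exp (-(δ * x / 2 / n))
      have h5 : δ * x / 2 / n = (δ * x / n) / 2 := by ring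
      rw [le_div_iff₀ (by rw [h5]; linarith)]
      have h4 := Real.exp_pos (δ * x / 2 / n)
      calc Real.exp (δ * x / 2 / n) * (1 - δ * x / 2 / n)
          ≤ Real.exp (δ * x / 2 / n) * Real.exp (-(δ * x / 2 / n)) := by
            apply mul_le_mul_of_nonneg_left _ h4.le
            linarith
        _ = 1 := by rw [← Real.exp_add]; simp
    have h5 : δ * x / 2 / n = (δ * x / n) / 2 := by ring
    rw [h5] at h2 ⊢
    refine h2.trans ?_
    rw [div_le_iff₀ (by linarith)]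
    nlinarith
  have h2 : Real.exp (δ * x / 2) ≤ ‖A n c i‖ ^ n := by
    calc Real.exp (δ * x / 2) = Real.exp (δ * x / 2 / n) ^ n := by
          rw [← Real.exp_nat_mul]
          congr 1
          field_simp
      _ ≤ _ := pow_le_pow_left₀ (Real.exp_pos _).le (h1.trans hA) _
  rw [Pool.Agent.W12.MB.norm_X]
  exact mul_le_mul_of_nonneg_left h2 (Y_nonneg n c)

/-- the largeness of the starting point -/
def Big (δ T : ℝ) : Prop := 1000 ≤ T ∧ 1 ≤ δ * T ∧ ∀ t, T ≤ t →
  3 / 2 * t ^ 2 ≤ Real.exp (δ * t / 2) ∧ 40 * t ^ 3 ≤ Real.exp (δ * t / 8)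

theorem exists_big {δ : ℝ} (hδ : 0 < δ) : ∃ T, Big δ T := by
  have h1 : ∀ (e : ℝ), 0 < e → ∀ k : ℕ, ∀ᶠ t : ℝ in atTop, 100 * t ^ k ≤ Real.exp (e * t) := by
    intro e he k
    have h2 := Real.tendsto_exp_div_pow_atTop k
    have h3 : Tendsto (fun t : ℝ => e * t) atTop atTop := tendsto_id.const_mul_atTop he
    have h4 := (h2.comp h3).eventually_ge_atTop (100 / e ^ k)
    filter_upwards [h4, eventually_gt_atTop 0] with t ht ht0
    simp only [Function.comp] at ht
    rw [div_le_div_iff₀ (by positivity) (by positivity), mul_pow] at ht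
    have h5 : 0 < e ^ k := by positivity
    have h6 : 100 * t ^ k * e ^ k ≤ Real.exp (e * t) * e ^ k := by linarith
    exact le_of_mul_le_mul_right h6 h5
  obtain ⟨T, hT⟩ := eventually_atTop.mp (((h1 (δ / 2) (by positivity) 2).and
    (h1 (δ / 8) (by positivity) 3)).and ((eventually_ge_atTop (1 / δ)).and
    (eventually_ge_atTop 1000)))
  refine ⟨T, (hT T le_rfl).2.2, ?_, ?_⟩
  · have := (hT T le_rfl).2.1
    rw [div_le_iff₀ hδ] at this
    linarith
  · intro t ht
    obtain ⟨⟨a1, a2⟩, a3, a4⟩ := hT t ht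
    have ht0 : 0 ≤ t := by linarith
    constructor
    · have e1 : δ / 2 * t = δ * t / 2 := by ring
      rw [e1] at a1
      have : 0 ≤ t ^ 2 := sq_nonneg t
      linarith
    · have e1 : δ / 8 * t = δ * t / 8 := by ring
      rw [e1] at a2
      have : 0 ≤ t ^ 3 := by positivity
      linarith

/-- control of the derivative along the levels -/
theorem phase {n : ℕ} (hn : 2 ≤ n) {c : ℂ} {δ T : ℝ} (hδ : 0 < δ) (hδ1 : δ ≤ 1) (hB : Big δ T)
    (hY : T ≤ Y n c) (j : ℕ) (ht : ∀ i ≤ j + 1, ‖X n c i‖ ≤ n / 10)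
    (hcos : ∀ i < j, δ ≤ Real.cos (X n c (i + 1)).arg) :
    Y n c ≤ ‖X n c (j + 1)‖ ∧ ∃ D : ℝ, 1 ≤ D ∧ D ≤ ‖X n c (j + 1)‖ ^ 2 ∧
      (∀ i, 1 ≤ i → i ≤ j + 1 → PhAt n c i D) ∧ (∀ i, 1 ≤ i → i ≤ j + 1 → 1 ≤ ‖X n c i‖) := by
  obtain ⟨hT1, hT2, hT3⟩ := hB
  have hY0 : 1000 ≤ Y n c := by linarith
  have hc := Y_pos_ne hn (by linarith : (20:ℝ) ≤ Y n c)
  induction j with
  | zero =>
    obtain ⟨cfg, -, hX⟩ := Pool.Agent.W216.MB.BAS.main n hn c (by linarith)
    refine ⟨by rw [hX], 2 * Y n c, by linarith, ?_, ?_, ?_⟩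
    · rw [hX]; nlinarith
    · intro i hi1 hi2
      obtain rfl : i = 1 := by omega
      apply cfg.ph c
      unfold DD
      exact Metric.mem_closedBall_self (by positivity)
    · intro i hi1 hi2
      obtain rfl : i = 1 := by omega
      rw [hX]; linarith
  | succ j ih =>
    obtain ⟨h1, D, hD1, hD2, hD3, hD4⟩ := ih (fun i hi => ht i (by omega))
      (fun i hi => hcos i (by omega))
    have hcj := hcos j (by omega)
    have hg := grow hn hδ hδ1 (ht (j + 1) (by omega)) hcj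
    set x := ‖X n c (j + 1)‖ with hx
    obtain ⟨b1, b2⟩ := hT3 x (by linarith)
    have hx2 : 3 / 2 * x ^ 2 ≤ ‖X n c (j + 2)‖ := by
      refine le_trans ?_ hg
      have := Real.exp_pos (δ * x / 2)
      nlinarith
    have hx1 : x ≤ ‖X n c (j + 2)‖ := by nlinarith
    have hA : 4 / 5 ≤ ‖A n c (j + 1)‖ := by
      have hnr : (2:ℝ) ≤ n := by exact_mod_cast hn
      have hn0 : (0:ℝ) < n := by linarith
      have e1 : (1:ℝ) ≤ ‖A n c (j + 1)‖ + ‖X n c (j + 1)‖ / n := by
        have : (1:ℂ) = A n c (j + 1) - X n c (j + 1) / n := by unfold A; ring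
        calc (1:ℝ) = ‖(1:ℂ)‖ := by simp
          _ = ‖A n c (j + 1) - X n c (j + 1) / n‖ := by rw [← this]
          _ ≤ _ := by
            refine (norm_sub_le _ _).trans ?_
            rw [norm_div, Complex.norm_natCast]
      have e2 : ‖X n c (j + 1)‖ / n ≤ 1 / 10 := by
        rw [div_le_iff₀ hn0]
        have := ht (j + 1) (by omega)
        linarith
      linarith
    have hx3 : 1 ≤ ‖X n c (j + 2)‖ := by linarith
    have hDD : D ≤ 3 / 2 * ‖X n c (j + 2)‖ * D := by nlinarith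
    refine ⟨h1.trans hx1, 3 / 2 * ‖X n c (j + 2)‖ * D, hD1.trans hDD, ?_, ?_, ?_⟩
    · have e1 : 3 / 2 * ‖X n c (j + 2)‖ * D ≤ 3 / 2 * ‖X n c (j + 2)‖ * x ^ 2 :=
        mul_le_mul_of_nonneg_left hD2 (by positivity)
      have e2 : ‖X n c (j + 2)‖ * (3 / 2 * x ^ 2) ≤ ‖X n c (j + 2)‖ * ‖X n c (j + 2)‖ :=
        mul_le_mul_of_nonneg_left hx2 (by positivity)
      calc _ ≤ ‖X n c (j + 2)‖ * (3 / 2 * x ^ 2) := by linarith
        _ ≤ _ := e2.trans (le_of_eq (by ring))
    · intro i hi1 hi2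
      rcases Nat.lt_or_ge (j + 1) i with h | h
      · obtain rfl : i = j + 2 := by omega
        exact hPhs n hn c (j + 1) D _ hc hD1 hDD (hD3 (j + 1) (by omega) le_rfl) hA le_rfl
      · exact PhAt.mono (by omega) (hD3 i hi1 h) (by linarith) hDD
    · intro i hi1 hi2
      rcases Nat.lt_or_ge (j + 1) i with h | h
      · obtain rfl : i = j + 2 := by omega
        exact hx3
      · exact hD4 i hi1 h

/-- an attracting cycle of exact period `j + 2` -/
theorem attracted {n : ℕ} (hn : 2 ≤ n) {c : ℂ} {δ T : ℝ} (hδ : 0 < δ) (hδ1 : δ ≤ 1 / 10)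
    (hB : Big δ T) (hY : T ≤ Y n c) (j : ℕ) (ht : ∀ i ≤ j + 1, ‖X n c i‖ ≤ δ * n)
    (hcos : ∀ i < j, δ ≤ Real.cos (X n c (i + 1)).arg)
    (hneg : Real.cos (X n c (j + 1)).arg ≤ -δ) : c ∈ Ex n (j + 2) := by
  have hnr : (2:ℝ) ≤ n := by exact_mod_cast hn
  have hn0 : (0:ℝ) < n := by linarith
  obtain ⟨h1, D, hD1, hD2, hD3, hD4⟩ := phase hn hδ (by linarith) hB hY j
    (fun i hi => (ht i hi).trans (by nlinarith)) hcos
  obtain ⟨hT1, hT2, hT3⟩ := hB
  set x := ‖X n c (j + 1)‖ with hx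
  have hxT : T ≤ x := hY.trans h1
  obtain ⟨b1, b2⟩ := hT3 x hxT
  have hx0 : 0 < x := by linarith
  refine att_exact hn (by omega) (by linarith) hD1 hD3 hD4 ?_
  have hxn := ht (j + 1) le_rfl
  rw [← hx] at hxn
  -- `‖A‖ ≤ 1 - δ x / (2 n)`
  have hA : ‖A n c (j + 1)‖ ≤ 1 - δ * x / (2 * n) := by
    have e1 : ‖A n c (j + 1)‖ ^ 2 = 1 + 2 * (X n c (j + 1)).re / n + x ^ 2 / n ^ 2 := by
      have h2 : (A n c (j + 1)).re = 1 + (X n c (j + 1)).re / n := by
        unfold A
        rw [Complex.add_re, Complex.one_re, Complex.div_natCast_re]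
      have h3 : (A n c (j + 1)).im = (X n c (j + 1)).im / n := by
        unfold A
        rw [Complex.add_im, Complex.one_im, Complex.div_natCast_im, zero_add]
      rw [hx, Complex.sq_norm, Complex.sq_norm, Complex.normSq_apply, Complex.normSq_apply,
        h2, h3]
      field_simp
      ring
    have e2 : (X n c (j + 1)).re ≤ -(δ * x) := by
      have : (X n c (j + 1)).re = x * Real.cos (X n c (j + 1)).arg := by
        rw [hx, Complex.norm_mul_cos_arg]
      rw [this]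
      nlinarith
    have e3 : 2 * (X n c (j + 1)).re / n ≤ -(2 * (δ * x / n)) := by
      rw [div_le_iff₀ hn0]
      have : -(2 * (δ * x / n)) * n = -(2 * (δ * x)) := by field_simp
      rw [this]; linarith
    have e4 : x ^ 2 / n ^ 2 ≤ δ * x / n := by
      rw [div_le_div_iff₀ (by positivity) hn0]
      have h2 : x * x ≤ x * (δ * n) := mul_le_mul_of_nonneg_left hxn hx0.le
      have : x ^ 2 * n ≤ x * (δ * n) * n := by
        apply mul_le_mul_of_nonneg_right _ hn0.le
        rw [pow_two]; exact h2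
      nlinarith
    have hu : δ * x / n ≤ 1 := by
      rw [div_le_one hn0]
      nlinarith
    have hu0 : 0 ≤ δ * x / n := by positivity
    have e5 : ‖A n c (j + 1)‖ ^ 2 ≤ (1 - δ * x / (2 * n)) ^ 2 := by
      have e6 : δ * x / (2 * n) = (δ * x / n) / 2 := by field_simp
      rw [e1, e6]
      nlinarith [sq_nonneg (δ * x / n)]
    have e7 : δ * x / (2 * n) = (δ * x / n) / 2 := by field_simp
    exact le_of_sq_le_sq e5 (by rw [e7]; linarith)
  have hbase : ‖A n c (j + 1)‖ + 1 / (10 * n) ≤ 1 - δ * x / (4 * n) := by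
    have e1 : 1 / (10 * (n:ℝ)) ≤ δ * x / (4 * n) := by
      rw [div_le_div_iff₀ (by positivity) (by positivity)]
      have : 1 ≤ δ * x := hT2.trans (mul_le_mul_of_nonneg_left hxT hδ.le)
      nlinarith
    have e2 : δ * x / (2 * n) = δ * x / (4 * n) + δ * x / (4 * n) := by field_simp; norm_num
    linarith
  have hcast : ((n - 1 : ℕ) : ℝ) = n - 1 := by
    rw [Nat.cast_sub (by omega)]; simp
  have hpow : (‖A n c (j + 1)‖ + 1 / (10 * n)) ^ (n - 1) ≤ Real.exp (-(δ * x / 8)) := by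
    have h0 : 0 ≤ ‖A n c (j + 1)‖ + 1 / (10 * (n:ℝ)) := by positivity
    have h2 := Real.add_one_le_exp (-(δ * x / (4 * n)))
    calc (‖A n c (j + 1)‖ + 1 / (10 * n)) ^ (n - 1) ≤ (Real.exp (-(δ * x / (4 * n)))) ^ (n - 1) :=
          pow_le_pow_left₀ h0 (by linarith) _
      _ = Real.exp (((n:ℝ) - 1) * -(δ * x / (4 * n))) := by
          rw [← Real.exp_nat_mul, hcast]
      _ ≤ Real.exp (-(δ * x / 8)) := by
          apply Real.exp_le_exp.2
          have e1 : ((n:ℝ) - 1) * -(δ * x / (4 * n)) = -(((n:ℝ) - 1) / n * (δ * x / 4)) := by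
            field_simp
          have e2 : 1 / 2 ≤ ((n:ℝ) - 1) / n := by
            rw [le_div_iff₀ hn0]; linarith
          have e3 : 0 ≤ δ * x / 4 := by positivity
          rw [e1]
          nlinarith
  rw [le_div_iff₀ (by linarith)]
  calc Y n c * (‖A n c (j + 1)‖ + 1 / (10 * n)) ^ (n - 1) * (40 * D)
      ≤ x * Real.exp (-(δ * x / 8)) * (40 * x ^ 2) := by gcongr
    _ = 40 * x ^ 3 * Real.exp (-(δ * x / 8)) := by ring
    _ ≤ Real.exp (δ * x / 8) * Real.exp (-(δ * x / 8)) := by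
        apply mul_le_mul_of_nonneg_right b2 (Real.exp_pos _).le
    _ = 1 := by rw [← Real.exp_add]; simp

/-- escape -/
theorem escaping {n : ℕ} (hn : 2 ≤ n) {c : ℂ} {δ : ℝ} (hδ : 0 < δ) (hδ1 : δ ≤ 1) {k : ℕ}
    (hk : ∀ i, 1 ≤ i → i ≤ k → 4 / δ ≤ Real.log^[i] (n:ℝ))
    (hY : (Real.log^[k] (n:ℝ)) ^ 2 ≤ Y n c) (ht : ∀ i ≤ k, ‖X n c i‖ ≤ n / 10)
    (hcos : ∀ i < k, δ ≤ Real.cos (X n c (i + 1)).arg) (j : ℕ) (hj : j ≤ k) :
    (Real.log^[k - j] (n:ℝ)) ^ 2 ≤ ‖X n c (j + 1)‖ := by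
  have hY0 : 0 ≤ Y n c := Y_nonneg n c
  induction j with
  | zero => rw [norm_X1]; exact hY
  | succ j ih =>
    have h1 := ih (by omega)
    have hg := grow hn hδ hδ1 (ht (j + 1) (by omega)) (hcos j (by omega))
    have hx := hk (k - j) (by omega) (by omega)
    have e0 : k - j = (k - (j + 1)) + 1 := by omega
    rw [e0, Function.iterate_succ_apply'] at h1 hx
    set s := Real.log^[k - (j + 1)] (n:ℝ) with hs
    have hls : 0 < Real.log s := lt_of_lt_of_le (by positivity) hx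
    have hs0 : 0 < |s| := by
      rcases eq_or_ne s 0 with h | h
      · rw [h, Real.log_zero] at hls; exact absurd hls (lt_irrefl _)
      · exact abs_pos.mpr h
    have hY1 : 1 ≤ Y n c := by
      refine le_trans ?_ hY
      have h2 : 4 / δ ≤ Real.log^[k] (n:ℝ) := hk k (by omega) le_rfl
      have h3 : 1 ≤ 4 / δ := by rw [le_div_iff₀ hδ]; linarith
      nlinarith
    refine le_trans ?_ hg
    have h4 : s ^ 2 = Real.exp (2 * Real.log s) := by
      rw [← sq_abs, ← Real.log_abs, two_mul, Real.exp_add, Real.exp_log hs0, pow_two]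
    rw [h4]
    have h5 : Real.exp (2 * Real.log s) ≤ Real.exp (δ * ‖X n c (j + 1)‖ / 2) := by
      apply Real.exp_le_exp.2
      rw [div_le_iff₀ hδ] at hx
      have : δ * (Real.log s) ^ 2 ≤ δ * ‖X n c (j + 1)‖ := mul_le_mul_of_nonneg_left h1 hδ.le
      nlinarith
    calc _ ≤ Real.exp (δ * ‖X n c (j + 1)‖ / 2) := h5
      _ ≤ _ := by
        have := Real.exp_pos (δ * ‖X n c (j + 1)‖ / 2)
        nlinarith

end Pool.Agent.Q79.PA
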