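import Mathlib
import Pool.Agent.Q79.PerAreaG

set_option autoImplicit false

open MeasureTheory Set Filter Topology

namespace Pool.Agent.Q79.PA

open Pool.Agent.W747.MB Pool.Agent.TH363.CD

/-- the area of the annulus -/
theorem vol_Ann {n : ℕ} (hn : 2 ≤ n) {a b : ℝ} (ha : 0 < a) (hab : a ≤ b) :
    volume (Ann n a b) = ENNReal.ofReal (Real.pi *
      (((b / n) ^ (1 / ((n:ℝ) - 1))) ^ 2 - ((a / n) ^ (1 / ((n:ℝ) - 1))) ^ 2)) := by
  have hnr : (2:ℝ) ≤ n := by exact_mod_cast hn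
  have hn0 : (0 : ℝ) < n := by linarith
  have hn1 : (0 : ℝ) < (n : ℝ) - 1 := by linarith
  have hcast : ((n - 1 : ℕ) : ℝ) = (n : ℝ) - 1 := by
    rw [Nat.cast_sub (by omega), Nat.cast_one]
  have hb0 : 0 < b := by linarith
  set e : ℝ := 1 / ((n : ℝ) - 1) with he
  have he0 : 0 < e := by positivity
  set R : ℝ := (b / n) ^ e with hR
  set r : ℝ := (a / n) ^ e with hr
  have hR0 : 0 < R := Real.rpow_pos_of_pos (by positivity) _
  have hr0 : 0 < r := Real.rpow_pos_of_pos (by positivity) _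
  have hRpow : R ^ (n - 1) = b / n := by
    rw [hR, ← Real.rpow_natCast, ← Real.rpow_mul (by positivity), hcast, he,
      one_div_mul_cancel hn1.ne', Real.rpow_one]
  have hrpow : r ^ (n - 1) = a / n := by
    rw [hr, ← Real.rpow_natCast, ← Real.rpow_mul (by positivity), hcast, he,
      one_div_mul_cancel hn1.ne', Real.rpow_one]
  have hrR : r ≤ R := by
    rw [hr, hR]
    apply Real.rpow_le_rpow (by positivity) _ he0.le
    exact div_le_div_of_nonneg_right hab hn0.le
  have hnn : n - 1 ≠ 0 := by omega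
  have hset : Ann n a b = Metric.closedBall (0:ℂ) R \ Metric.ball 0 r := by
    ext c
    simp only [Ann, Set.mem_ofPred_eq, Set.mem_sdiff, Metric.mem_closedBall, Metric.mem_ball,
      dist_zero_right, not_lt, Y]
    have h1 : a ≤ n * ‖c‖ ^ (n - 1) ↔ r ≤ ‖c‖ := by
      rw [← pow_le_pow_iff_left₀ hr0.le (norm_nonneg c) hnn, hrpow, div_le_iff₀ hn0, mul_comm]
    have h2 : n * ‖c‖ ^ (n - 1) ≤ b ↔ ‖c‖ ≤ R := by
      rw [← pow_le_pow_iff_left₀ (norm_nonneg c) hR0.le hnn, hRpow, le_div_iff₀ hn0, mul_comm]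
    rw [h1, h2]
    exact and_comm
  have hbsub : Metric.ball (0 : ℂ) r ⊆ Metric.closedBall 0 R :=
    Metric.ball_subset_closedBall.trans (Metric.closedBall_subset_closedBall hrR)
  rw [hset, measure_sdiff hbsub measurableSet_ball.nullMeasurableSet measure_ball_lt_top.ne,
    Complex.volume_closedBall, Complex.volume_ball]
  have hpi : ((NNReal.pi : NNReal) : ENNReal) = ENNReal.ofReal Real.pi := by
    rw [← NNReal.coe_real_pi, ENNReal.ofReal_coe_nnreal]
  rw [hpi, ← ENNReal.ofReal_pow hR0.le, ← ENNReal.ofReal_pow hr0.le,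
    ← ENNReal.ofReal_mul (by positivity), ← ENNReal.ofReal_mul (by positivity),
    ← ENNReal.ofReal_sub _ (by positivity)]
  congr 1
  ring

theorem vol_Ann_bounds {n : ℕ} (hn : 2 ≤ n) {a b : ℝ} (ha : 1 ≤ a) (hab : a ≤ b) (hbn : b ≤ n) :
    volume (Ann n a b) ≤ ENNReal.ofReal (2 * Real.pi * Real.log (b / a) / (n - 1)) ∧
    ENNReal.ofReal (2 * Real.pi * Real.log (b / a) / (n - 1) *
      Real.exp (-(2 * Real.log n / (n - 1)))) ≤ volume (Ann n a b) := by
  have hnr : (2:ℝ) ≤ n := by exact_mod_cast hn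
  have hn0 : (0 : ℝ) < n := by linarith
  have hn1 : (0 : ℝ) < (n : ℝ) - 1 := by linarith
  have ha0 : 0 < a := by linarith
  have hb0 : 0 < b := by linarith
  rw [vol_Ann hn ha0 hab]
  set e : ℝ := 1 / ((n : ℝ) - 1) with he
  have he0 : 0 < e := by positivity
  set R : ℝ := (b / n) ^ e with hR
  set r : ℝ := (a / n) ^ e with hr
  have hR0 : 0 < R := Real.rpow_pos_of_pos (by positivity) _
  have hr0 : 0 < r := Real.rpow_pos_of_pos (by positivity) _
  set ℓ : ℝ := Real.log (b / a) with hℓ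
  have hℓ0 : 0 ≤ ℓ := Real.log_nonneg (by rw [le_div_iff₀ ha0]; linarith)
  have hπ := Real.pi_pos
  have hRr : R = r * Real.exp (e * ℓ) := by
    rw [hr, hR, hℓ, mul_comm e, Real.exp_mul, Real.exp_log (by positivity),
      ← Real.mul_rpow (by positivity) (by positivity)]
    congr 1
    field_simp
  have hR1 : R ≤ 1 := by
    rw [hR]
    apply Real.rpow_le_one (by positivity) _ he0.le
    rw [div_le_one hn0]; exact hbn
  constructor
  · apply ENNReal.ofReal_le_ofReal
    have h1 : R ^ 2 - r ^ 2 ≤ 2 * (e * ℓ) := by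
      have h2 : r ^ 2 = R ^ 2 * Real.exp (-(2 * (e * ℓ))) := by
        have h3 : r = R * Real.exp (-(e * ℓ)) := by
          rw [hRr, mul_assoc, ← Real.exp_add, add_neg_cancel, Real.exp_zero, mul_one]
        rw [h3, mul_pow, ← Real.exp_nat_mul]
        congr 2
        push_cast; ring
      have h3 := Real.add_one_le_exp (-(2 * (e * ℓ)))
      have h4 : R ^ 2 ≤ 1 := pow_le_one₀ hR0.le hR1
      have h5 : 0 ≤ e * ℓ := by positivity
      rw [h2]
      have h6 : R ^ 2 - R ^ 2 * Real.exp (-(2 * (e * ℓ))) =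
        R ^ 2 * (1 - Real.exp (-(2 * (e * ℓ)))) := by ring
      rw [h6]
      calc R ^ 2 * (1 - Real.exp (-(2 * (e * ℓ)))) ≤ R ^ 2 * (2 * (e * ℓ)) := by
            apply mul_le_mul_of_nonneg_left _ (by positivity)
            linarith
        _ ≤ 1 * (2 * (e * ℓ)) := mul_le_mul_of_nonneg_right h4 (by positivity)
        _ = _ := one_mul _
    have h2 : 2 * Real.pi * ℓ / (n - 1) = Real.pi * (2 * (e * ℓ)) := by
      rw [he]; ring
    rw [h2]
    exact mul_le_mul_of_nonneg_left h1 hπ.le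
  · apply ENNReal.ofReal_le_ofReal
    have h1 : r ^ 2 * (2 * (e * ℓ)) ≤ R ^ 2 - r ^ 2 := by
      have h2 : R ^ 2 = r ^ 2 * Real.exp (2 * (e * ℓ)) := by
        rw [hRr, mul_pow, ← Real.exp_nat_mul]
        push_cast
        rfl
      have h3 := Real.add_one_le_exp (2 * (e * ℓ))
      rw [h2]
      have : 0 ≤ r ^ 2 := sq_nonneg r
      nlinarith
    have h2 : Real.exp (-(2 * Real.log n / (n - 1))) ≤ r ^ 2 := by
      have h3 : r ^ 2 = Real.exp (2 * (e * Real.log (a / n))) := by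
        rw [hr, Real.rpow_def_of_pos (by positivity), ← Real.exp_nat_mul]
        congr 1
        push_cast; ring
      rw [h3]
      apply Real.exp_le_exp.2
      rw [Real.log_div ha0.ne' hn0.ne', he]
      have h4 : 0 ≤ Real.log a := Real.log_nonneg ha
      have h5 : 0 ≤ 1 / ((n:ℝ) - 1) * Real.log a := by positivity
      have h6 : 2 * (1 / ((n:ℝ) - 1) * (Real.log a - Real.log n)) =
        2 * (1 / ((n:ℝ) - 1) * Real.log a) - 2 * Real.log n / (n - 1) := by ring
      rw [h6]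
      linarith
    have h3 : 2 * Real.pi * ℓ / (n - 1) * Real.exp (-(2 * Real.log n / (n - 1))) =
        Real.pi * ((2 * (e * ℓ)) * Real.exp (-(2 * Real.log n / (n - 1)))) := by
      rw [he]; ring
    rw [h3]
    apply mul_le_mul_of_nonneg_left _ hπ.le
    refine le_trans ?_ h1
    rw [mul_comm (r ^ 2)]
    exact mul_le_mul_of_nonneg_left h2 (by positivity)

/-- lower bound of a volume by an integral -/
theorem vol_ge {g : ℂ → ℝ} (hg : Measurable g) (hi : Integrable g) (h0 : ∀ c, 0 ≤ g c)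
    (h1 : ∀ c, g c ≤ 1) {S : Set ℂ} (hS : ∀ c, g c ≠ 0 → c ∈ S) :
    ENNReal.ofReal (∫ c, g c) ≤ volume S := by
  rw [ofReal_integral_eq_lintegral_ofReal hi (Eventually.of_forall h0)]
  have hm : MeasurableSet {c | g c ≠ 0} := (measurableSet_eq_fun hg measurable_const).compl
  calc ∫⁻ c, ENNReal.ofReal (g c) ≤ ∫⁻ c, {c | g c ≠ 0}.indicator (fun _ => (1:ENNReal)) c := by
        apply lintegral_mono
        intro c
        by_cases hc : g c = 0
        · simp [hc]
        · rw [indicator_of_mem (show c ∈ {c | g c ≠ 0} from hc)]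
          exact ENNReal.ofReal_le_one.2 (h1 c)
    _ = volume {c | g c ≠ 0} := by rw [lintegral_indicator hm]; simp
    _ ≤ volume S := measure_mono (fun c hc => hS c hc)

/-- upper bound of a volume by an integral -/
theorem vol_le {g : ℂ → ℝ} (hg : Measurable g) (hi : Integrable g) (h0 : ∀ c, 0 ≤ g c)
    (h1 : ∀ c, g c ≤ 1) {S A : Set ℂ} (_hA : MeasurableSet A) (hSA : S ⊆ A)
    (hS : ∀ c ∈ S, g c = 0) (hz : ∀ c, g c ≠ 0 → c ∈ A) {V : ℝ}
    (hV : volume A ≤ ENNReal.ofReal V) :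
    volume S ≤ ENNReal.ofReal (V - ∫ c, g c) := by
  have hm : MeasurableSet {c | g c ≠ 0} := (measurableSet_eq_fun hg measurable_const).compl
  have h2 : ENNReal.ofReal (∫ c, g c) ≤ volume {c | g c ≠ 0} := vol_ge hg hi h0 h1 (fun c hc => hc)
  have h3 : S ⊆ A \ {c | g c ≠ 0} := by
    intro c hc
    refine ⟨hSA hc, ?_⟩
    simp only [Set.mem_ofPred_eq, not_not]
    exact hS c hc
  have hfin : volume {c | g c ≠ 0} ≠ ⊤ :=
    ((measure_mono (fun c hc => hz c hc)).trans_lt (hV.trans_lt ENNReal.ofReal_lt_top)).ne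
  calc volume S ≤ volume (A \ {c | g c ≠ 0}) := measure_mono h3
    _ = volume A - volume {c | g c ≠ 0} :=
        measure_sdiff (fun c hc => hz c hc) hm.nullMeasurableSet hfin
    _ ≤ ENNReal.ofReal V - ENNReal.ofReal (∫ c, g c) := tsub_le_tsub hV h2
    _ = _ := (ENNReal.ofReal_sub _ (integral_nonneg h0)).symm

/-- hypotheses for the combination -/
structure Dat (n k : ℕ) (a b δ T m C Cψ : ℝ) (η η' Γ ψ ψ' : ℝ → ℝ) : Prop where
  tow : Tow n k a b
  δ0 : 0 < δ
  δ1 : δ ≤ 1 / 10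
  ang : Ang δ m C η η' Γ
  cut : Cut (Real.log a) (Real.log b) Cψ ψ ψ'
  big : Big δ T
  Ta : T ≤ a
  t : ∀ c, Y n c ≤ b → ∀ i ≤ k, ‖X n c i‖ ≤ δ * n

/-- the error -/
noncomputable def err (n k : ℕ) (a b C Cψ : ℝ) : ℝ :=
  4000 * C * (2 * Cψ + (2 * C * k + 16) * Real.log (b / a) / a) / n

section

variable {n k : ℕ} {a b δ T m C Cψ : ℝ} {η η' Γ ψ ψ' : ℝ → ℝ}

theorem Dat.ηc (h : Dat n k a b δ T m C Cψ η η' Γ ψ ψ') : Continuous η := by
  rw [continuous_iff_continuousAt]; intro t; exact (h.ang.d t).continuousAt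

theorem Dat.ψc (h : Dat n k a b δ T m C Cψ η η' Γ ψ ψ') : Continuous ψ := by
  rw [continuous_iff_continuousAt]; intro t; exact (h.cut.d t).continuousAt

theorem Dat.logba (h : Dat n k a b δ T m C Cψ η η' Γ ψ ψ') : 0 ≤ Real.log (b / a) := by
  have ha := h.tow.ha
  have hb := h.tow.b0
  exact Real.log_nonneg (by rw [le_div_iff₀ (by linarith)]; linarith [hb.2])

theorem err_mono (hC : 0 ≤ C) (ha : 0 < a) (hl : 0 ≤ Real.log (b / a)) {j : ℕ} (hj : j ≤ k) :
    err n j a b C Cψ ≤ err n k a b C Cψ := by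
  unfold err
  have hjk : (j:ℝ) ≤ k := by exact_mod_cast hj
  have hn0 : (0:ℝ) ≤ n := Nat.cast_nonneg n
  gcongr

theorem Dat.C0 (h : Dat n k a b δ T m C Cψ η η' Γ ψ ψ') : 0 ≤ C := h.ang.C0

theorem Dat.Cψ0 (h : Dat n k a b δ T m C Cψ η η' Γ ψ ψ') : 0 ≤ Cψ :=
  (abs_nonneg _).trans (h.cut.b 0)

theorem Dat.err0 (h : Dat n k a b δ T m C Cψ η η' Γ ψ ψ') : 0 ≤ err n k a b C Cψ := by
  unfold err
  have := h.C0
  have := h.Cψ0
  have := h.logba
  have ha := h.tow.ha
  have : 0 < a := by linarith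
  positivity

theorem Tow.mono {j : ℕ} (h : Tow n k a b) (hj : j ≤ k) : Tow n j a b :=
  ⟨h.hn, h.ha, h.hab, h.hbn, fun c hc i hi => h.t c hc i (by omega)⟩

/-- the two instances of the integration by parts -/
theorem Dat.step (h : Dat n k a b δ T m C Cψ η η' Γ ψ ψ') {j : ℕ} (hj : j ≤ k) :
    |(∫ c, η (X n c (j + 1)).arg * chi n ψ η j c) - m * ∫ c, chi n ψ η j c| ≤ err n k a b C Cψ ∧
    |(∫ c, η ((X n c (j + 1)).arg + Real.pi) * chi n ψ η j c) - m * ∫ c, chi n ψ η j c| ≤
      err n k a b C Cψ := by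
  have ha := h.tow.ha
  have hm := err_mono (n := n) (Cψ := Cψ) h.C0 (show 0 < a by linarith) h.logba hj
  have hang := h.ang
  constructor
  · refine le_trans ?_ hm
    exact ibp (h.tow.mono hj) h.δ0 h.cut hang.d hang.p hang.n0 hang.n1 hang.b hang.z h.ηc hang.dG
      hang.pG hang.bG hang.n0 hang.n1 hang.m0 hang.m1
  · refine le_trans ?_ hm
    refine ibp (h.tow.mono hj) h.δ0 h.cut hang.d hang.p hang.n0 hang.n1 hang.b hang.z
      (κ := fun t => η (t + Real.pi)) (Γ := fun t => Γ (t + Real.pi))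
      (h.ηc.comp (continuous_id.add continuous_const)) (fun t => ?_) (fun t => ?_)
      (fun t => hang.bG _) (fun t => hang.n0 _) (fun t => hang.n1 _) hang.m0 hang.m1
    · exact (hang.dG (t + Real.pi)).comp_add_const t Real.pi
    · have : t + 2 * Real.pi + Real.pi = (t + Real.pi) + 2 * Real.pi := by ring
      simp only [this, hang.pG]

theorem Dat.I_succ (j : ℕ) :
    ∫ c, chi n ψ η (j + 1) c = ∫ c, η (X n c (j + 1)).arg * chi n ψ η j c := by
  congr 1
  funext c
  rw [chi_succ, mul_comm]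

theorem Dat.I_ge (h : Dat n k a b δ T m C Cψ η η' Γ ψ ψ') (j : ℕ) (hj : j ≤ k + 1) :
    m ^ j * (∫ c, chi n ψ η 0 c) - j * err n k a b C Cψ ≤ ∫ c, chi n ψ η j c := by
  induction j with
  | zero => simp
  | succ j ih =>
    have h1 := ih (by omega)
    have h2 := (h.step (j := j) (by omega)).1
    rw [← Dat.I_succ (n := n) (ψ := ψ) (η := η) j] at h2
    rw [abs_le] at h2
    have hm0 := h.ang.m0
    have hm1 := h.ang.m1
    have he := h.err0
    have h3 := mul_le_mul_of_nonneg_left h1 hm0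
    have h4 : m * (j * err n k a b C Cψ) ≤ 1 * (j * err n k a b C Cψ) :=
      mul_le_mul_of_nonneg_right hm1 (by positivity)
    push_cast
    rw [pow_succ]
    nlinarith [h2.1]

theorem Dat.J_ge (h : Dat n k a b δ T m C Cψ η η' Γ ψ ψ') (j : ℕ) (hj : j ≤ k) :
    m ^ (j + 1) * (∫ c, chi n ψ η 0 c) - (j + 1) * err n k a b C Cψ ≤
      ∫ c, η ((X n c (j + 1)).arg + Real.pi) * chi n ψ η j c := by
  have h1 := h.I_ge j (by omega)
  have h2 := (h.step (j := j) hj).2
  rw [abs_le] at h2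
  have hm0 := h.ang.m0
  have hm1 := h.ang.m1
  have he := h.err0
  have h3 := mul_le_mul_of_nonneg_left h1 hm0
  have h4 : m * (j * err n k a b C Cψ) ≤ 1 * (j * err n k a b C Cψ) :=
    mul_le_mul_of_nonneg_right hm1 (by positivity)
  rw [pow_succ]
  nlinarith [h2.1]

theorem Dat.I_zero (h : Dat n k a b δ T m C Cψ η η' Γ ψ ψ') :
    (volume (Ann n (a * Real.exp 1) (b / Real.exp 1))).toReal ≤ ∫ c, chi n ψ η 0 c := by
  have ha := h.tow.ha
  have hb := h.tow.b0
  have hn := h.tow.hn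
  have hbn := h.tow.hbn
  have he1 : (2:ℝ) ≤ Real.exp 1 := by have := Real.add_one_le_exp (1:ℝ); linarith
  have ha0 : 0 < a := by linarith
  have hb0 : 0 < b := by linarith [hb.1]
  have hbn' : b / Real.exp 1 ≤ n := (div_le_self hb0.le (by linarith)).trans hbn
  have hint : Integrable (fun c => chi n ψ η 0 c) := by
    have := chi_integrable hn ha hb.1 hbn h.cut h.ηc h.ang.n0 h.ang.n1 0
      (u := fun _ => (1:ℝ)) measurable_const (fun c => by simp)
    simpa using this
  have hind : Integrable ((Ann n (a * Real.exp 1) (b / Real.exp 1)).indicator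
      (fun _ => (1:ℝ))) := by
    rw [integrable_indicator_iff (Ann_meas n _ _)]
    exact integrableOn_const (Ann_ne_top hn hbn')
  have h1 : ∫ c, (Ann n (a * Real.exp 1) (b / Real.exp 1)).indicator (fun _ => (1:ℝ)) c ≤
      ∫ c, chi n ψ η 0 c := by
    apply integral_mono hind hint
    intro c
    simp only
    by_cases hc : c ∈ Ann n (a * Real.exp 1) (b / Real.exp 1)
    · rw [indicator_of_mem hc]
      unfold chi
      obtain ⟨c1, c2⟩ := hc
      have hY0 : 0 < Y n c := lt_of_lt_of_le (by positivity) c1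
      rw [h.cut.o]
      · simp
      · have := Real.log_le_log (by positivity) c1
        rwa [Real.log_mul ha0.ne' (Real.exp_pos _).ne', Real.log_exp] at this
      · have := Real.log_le_log hY0 c2
        rwa [Real.log_div hb0.ne' (Real.exp_pos _).ne', Real.log_exp] at this
    · rw [indicator_of_notMem hc]
      exact chi_nonneg h.cut.n0 h.ang.n0 0 c
  rw [integral_indicator_const _ (Ann_meas n _ _)] at h1
  simpa [measureReal_def] using h1

theorem Dat.mem_of_ne (h : Dat n k a b δ T m C Cψ η η' Γ ψ ψ') {j : ℕ} {c : ℂ}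
    (hc : chi n ψ η j c ≠ 0) :
    c ∈ Ann n a b ∧ ∀ i < j, δ ≤ Real.cos (X n c (i + 1)).arg := by
  have ha := h.tow.ha
  have hb := h.tow.b0
  constructor
  · by_contra hcon
    apply hc
    have : Y n c < a ∨ b < Y n c := by
      by_contra h2
      push Not at h2
      exact hcon ⟨h2.1, h2.2⟩
    unfold chi
    rw [psi_zero ha hb.1 h.cut.z1 h.cut.z2 this, zero_mul]
  · intro i hi
    by_contra hcon
    push Not at hcon
    apply hc
    unfold chi
    rw [Finset.prod_eq_zero (Finset.mem_range.mpr hi) (h.ang.z _ hcon), mul_zero]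

/-- the parameters with an attracting cycle of exact period `j + 2` -/
theorem Dat.mem_Ex (h : Dat n k a b δ T m C Cψ η η' Γ ψ ψ') {j : ℕ} (hj : j + 1 ≤ k) {c : ℂ}
    (hc : η ((X n c (j + 1)).arg + Real.pi) * chi n ψ η j c ≠ 0) :
    c ∈ Ex n (j + 2) := by
  obtain ⟨h1, h2⟩ := h.mem_of_ne (right_ne_zero_of_mul hc)
  have h3 : η ((X n c (j + 1)).arg + Real.pi) ≠ 0 := left_ne_zero_of_mul hc
  apply attracted h.tow.hn h.δ0 h.δ1 h.big (h.Ta.trans h1.1) j
    (fun i hi => h.t c h1.2 i (by omega)) h2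
  by_contra hcon
  push Not at hcon
  apply h3
  apply h.ang.z
  rw [Real.cos_add_pi]
  linarith

/-- lower bound for the area of the parameters of exact period `j + 2` -/
theorem Dat.lower (h : Dat n k a b δ T m C Cψ η η' Γ ψ ψ') {j : ℕ} (hj : j + 1 ≤ k) :
    ENNReal.ofReal (m ^ (j + 1) * (∫ c, chi n ψ η 0 c) - (j + 1) * err n k a b C Cψ) ≤
      volume (Ex n (j + 2)) := by
  have ha := h.tow.ha
  have hb := h.tow.b0
  have hn := h.tow.hn
  have hbn := h.tow.hbn
  refine (ENNReal.ofReal_le_ofReal (h.J_ge j (by omega))).trans ?_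
  have hu : Measurable fun c => η ((X n c (j + 1)).arg + Real.pi) :=
    h.ηc.measurable.comp ((Complex.measurable_arg.comp
      (X_continuous n (j + 1)).measurable).add_const _)
  apply vol_ge (hu.mul (chi_measurable h.ψc h.ηc j))
  · apply chi_integrable hn ha hb.1 hbn h.cut h.ηc h.ang.n0 h.ang.n1 j hu
    intro c
    rw [abs_of_nonneg (h.ang.n0 _)]; exact h.ang.n1 _
  · intro c
    exact mul_nonneg (h.ang.n0 _) (chi_nonneg h.cut.n0 h.ang.n0 j c)
  · intro c
    exact mul_le_one₀ (h.ang.n1 _) (chi_nonneg h.cut.n0 h.ang.n0 j c)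
      (chi_le_one h.cut.n0 h.cut.n1 h.ang.n0 h.ang.n1 j c)
  · intro c hc
    exact h.mem_Ex hj hc

/-- the function for the upper bound -/
noncomputable def Phi (n : ℕ) (ψ η : ℝ → ℝ) (K : ℕ) (c : ℂ) : ℝ :=
  ∑ j ∈ Finset.range K, η ((X n c (j + 1)).arg + Real.pi) * chi n ψ η j c + chi n ψ η (K + 1) c

theorem Ang.disj (h : Ang δ m C η η' Γ) (hδ : 0 < δ) (t : ℝ) : η (t + Real.pi) + η t ≤ 1 := by
  rcases lt_or_ge (Real.cos t) δ with h1 | h1
  · rw [h.z t h1, add_zero]; exact h.n1 _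
  · rw [h.z (t + Real.pi) (by rw [Real.cos_add_pi]; linarith), zero_add]; exact h.n1 _

theorem Dat.Phi_le (h : Dat n k a b δ T m C Cψ η η' Γ ψ ψ') (K : ℕ) (c : ℂ) :
    Phi n ψ η K c ≤ chi n ψ η 0 c := by
  have key : ∀ K, ∑ j ∈ Finset.range K, η ((X n c (j + 1)).arg + Real.pi) * chi n ψ η j c +
      chi n ψ η K c ≤ chi n ψ η 0 c := by
    intro K
    induction K with
    | zero => simp
    | succ K ih =>
      rw [Finset.sum_range_succ, chi_succ]
      have h1 := h.ang.disj h.δ0 (X n c (K + 1)).arg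
      have h2 := chi_nonneg (n := n) h.cut.n0 h.ang.n0 K c
      nlinarith
  have h1 := key K
  have h2 : chi n ψ η (K + 1) c ≤ chi n ψ η K c := by
    rw [chi_succ]
    exact mul_le_of_le_one_right (chi_nonneg h.cut.n0 h.ang.n0 K c) (h.ang.n1 _)
  unfold Phi
  linarith

/-- upper bound for the part of `NN` in the annulus -/
theorem Dat.upper {K : ℕ} (h : Dat n (K + 1) a b δ T m C Cψ η η' Γ ψ ψ')
    (hk : ∀ i, 1 ≤ i → i ≤ K + 1 → 4 / δ ≤ Real.log^[i] (n:ℝ))
    (haL : (Real.log^[K + 1] (n:ℝ)) ^ 2 ≤ a) (hn6 : 10 ^ 6 ≤ n) :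
    volume (NN n (K + 1) ∩ Ann n a b) ≤ ENNReal.ofReal
      (2 * Real.pi * Real.log (b / a) / (n - 1) -
        ((∑ j ∈ Finset.range K, m ^ (j + 1) + m ^ (K + 1)) * (∫ c, chi n ψ η 0 c) -
          ((K:ℝ) + 1) ^ 2 * err n (K + 1) a b C Cψ)) := by
  have ha := h.tow.ha
  have hb := h.tow.b0
  have hn := h.tow.hn
  have hbn := h.tow.hbn
  have hnr : (10:ℝ) ^ 6 ≤ n := by exact_mod_cast hn6
  have hu : ∀ j, Measurable fun c => η ((X n c (j + 1)).arg + Real.pi) := fun j =>
    h.ηc.measurable.comp ((Complex.measurable_arg.comp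
      (X_continuous n (j + 1)).measurable).add_const _)
  have hi : ∀ j, Integrable fun c => η ((X n c (j + 1)).arg + Real.pi) * chi n ψ η j c := by
    intro j
    apply chi_integrable hn ha hb.1 hbn h.cut h.ηc h.ang.n0 h.ang.n1 j (hu j)
    intro c
    rw [abs_of_nonneg (h.ang.n0 _)]; exact h.ang.n1 _
  have hi0 : ∀ j, Integrable fun c => chi n ψ η j c := by
    intro j
    have := chi_integrable hn ha hb.1 hbn h.cut h.ηc h.ang.n0 h.ang.n1 j
      (u := fun _ => (1:ℝ)) measurable_const (fun c => by simp)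
    simpa using this
  have hterm0 : ∀ j c, 0 ≤ η ((X n c (j + 1)).arg + Real.pi) * chi n ψ η j c := fun j c =>
    mul_nonneg (h.ang.n0 _) (chi_nonneg h.cut.n0 h.ang.n0 j c)
  have hPm : Measurable (Phi n ψ η K) := by
    unfold Phi
    apply Measurable.add _ (chi_measurable h.ψc h.ηc _)
    apply Finset.measurable_sum
    intro j _
    exact (hu j).mul (chi_measurable h.ψc h.ηc j)
  have hPi : Integrable (Phi n ψ η K) := by
    unfold Phi
    exact (integrable_finsetSum _ fun j _ => hi j).add (hi0 _)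
  have hP0 : ∀ c, 0 ≤ Phi n ψ η K c := fun c =>
    add_nonneg (Finset.sum_nonneg fun j _ => hterm0 j c) (chi_nonneg h.cut.n0 h.ang.n0 _ c)
  have hP1 : ∀ c, Phi n ψ η K c ≤ 1 := fun c =>
    (h.Phi_le K c).trans (chi_le_one h.cut.n0 h.cut.n1 h.ang.n0 h.ang.n1 0 c)
  have hV := (vol_Ann_bounds hn (by linarith) hb.2 hbn).1
  have hzero : ∀ c ∈ NN n (K + 1) ∩ Ann n a b, Phi n ψ η K c = 0 := by
    rintro c ⟨hcN, hcA⟩
    unfold Phi
    have h1 : ∑ j ∈ Finset.range K, η ((X n c (j + 1)).arg + Real.pi) * chi n ψ η j c = 0 := by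
      apply Finset.sum_eq_zero
      intro j hj
      rw [Finset.mem_range] at hj
      by_contra hne
      obtain ⟨z, hz, _⟩ := h.mem_Ex (j := j) (by omega) hne
      exact hcN.2 (j + 2) (by omega) (by omega) ⟨z, hz⟩
    have h2 : chi n ψ η (K + 1) c = 0 := by
      by_contra hne
      obtain ⟨-, h3⟩ := h.mem_of_ne hne
      have hcY := (show Y n c ≤ b from hcA.2)
      have h4 := escaping hn h.δ0 (by linarith [h.δ1]) hk (haL.trans hcA.1)
        (fun i hi => h.tow.t c hcY i hi) h3 (K + 1) le_rfl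
      rw [Nat.sub_self, Function.iterate_zero, id] at h4
      have h5 := (alv' hn6 hcN.1 (hcN.2 1 le_rfl (by omega))).2.2 (K + 1 + 1)
      nlinarith
    rw [h1, h2, add_zero]
  have key := vol_le hPm hPi hP0 hP1 (Ann_meas n a b) (inter_subset_right) hzero
    (fun c hc => by
      by_contra hcon
      apply hc
      have hle := h.Phi_le K c
      have : chi n ψ η 0 c = 0 := by
        by_contra hne
        exact hcon (h.mem_of_ne hne).1
      rw [this] at hle
      exact le_antisymm hle (hP0 c)) hV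
  refine key.trans (ENNReal.ofReal_le_ofReal ?_)
  -- the integral of Phi
  have hint : ∫ c, Phi n ψ η K c =
      ∑ j ∈ Finset.range K, (∫ c, η ((X n c (j + 1)).arg + Real.pi) * chi n ψ η j c) +
      ∫ c, chi n ψ η (K + 1) c := by
    unfold Phi
    rw [integral_add (integrable_finsetSum _ fun j _ => hi j) (hi0 _),
      integral_finsetSum _ fun j _ => hi j]
  have he := h.err0
  have hsum : ∑ j ∈ Finset.range K, (m ^ (j + 1) * (∫ c, chi n ψ η 0 c) -
      ((K:ℝ) + 1) * err n (K + 1) a b C Cψ) ≤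
      ∑ j ∈ Finset.range K, (∫ c, η ((X n c (j + 1)).arg + Real.pi) * chi n ψ η j c) := by
    apply Finset.sum_le_sum
    intro j hj
    rw [Finset.mem_range] at hj
    have h1 := h.J_ge j (by omega)
    have h2 : ((j:ℝ) + 1) * err n (K + 1) a b C Cψ ≤
        ((K:ℝ) + 1) * err n (K + 1) a b C Cψ := by
      apply mul_le_mul_of_nonneg_right _ he
      have : (j:ℝ) ≤ K := by exact_mod_cast hj.le
      linarith
    linarith
  rw [Finset.sum_sub_distrib, ← Finset.sum_mul, Finset.sum_const, Finset.card_range,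
    nsmul_eq_mul] at hsum
  have hI := h.I_ge (K + 1) (by omega)
  push_cast at hI
  rw [hint]
  have e1 : (∑ j ∈ Finset.range K, m ^ (j + 1) + m ^ (K + 1)) * (∫ c, chi n ψ η 0 c) -
      ((K:ℝ) + 1) ^ 2 * err n (K + 1) a b C Cψ =
      ((∑ j ∈ Finset.range K, m ^ (j + 1)) * (∫ c, chi n ψ η 0 c) -
        K * (((K:ℝ) + 1) * err n (K + 1) a b C Cψ)) +
      (m ^ (K + 1) * (∫ c, chi n ψ η 0 c) - ((K:ℝ) + 1) * err n (K + 1) a b C Cψ) := by ring
  rw [e1]
  linarith

end

end Pool.Agent.Q79.PA
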