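import Mathlib
import Pool.Agent.Q79.PerAreaH

set_option autoImplicit false

open MeasureTheory Set Filter Topology

namespace Pool.Agent.Q79.PA

open Pool.Agent.W747.MB Pool.Agent.TH363.CD

/-- the data exist for large `n` -/
theorem dat_eventually (K : ℕ) {δ : ℝ} (h0 : 0 < δ) (h1 : δ ≤ 1 / 10) :
    ∃ (m C Cψ T : ℝ), 1 / 2 - δ ≤ m ∧ m ≤ 1 ∧ 0 ≤ C ∧ 0 ≤ Cψ ∧ ∀ᶠ n : ℕ in atTop,
      ∃ η η' Γ ψ ψ' : ℝ → ℝ, Dat n (K + 1) ((Real.log^[K + 1] (n:ℝ)) ^ 2)
        (δ * Real.log^[K] (n:ℝ)) δ T m C Cψ η η' Γ ψ ψ' := by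
  obtain ⟨m, C, η, η', Γ, hA, hm⟩ := exists_ang h0 (by linarith : δ ≤ 1 / 4)
  obtain ⟨Cψ, hCψ, hcut⟩ := exists_cut
  obtain ⟨T, hT⟩ := exists_big h0
  refine ⟨m, C, Cψ, T, hm, hA.m1, hA.C0, hCψ, ?_⟩
  have hL := tendsto_iterlog (K + 1)
  -- `L² e² ≤ δ exp L`
  have hexp : ∀ᶠ t : ℝ in atTop, t ^ 2 * Real.exp 2 ≤ δ * Real.exp t := by
    have h2 := Real.tendsto_exp_div_pow_atTop 2
    filter_upwards [h2.eventually_ge_atTop (Real.exp 2 / δ), eventually_gt_atTop 0] with t ht ht0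
    rw [div_le_div_iff₀ h0 (by positivity)] at ht
    linarith
  filter_upwards [iter_bound' h0 (by linarith : δ ≤ 1 / 4) K, hL.eventually hexp,
    hL.eventually_ge_atTop 20, hL.eventually_ge_atTop T, hL.eventually_ge_atTop 1,
    (tendsto_iterlog K).eventually_ge_atTop 1, eventually_ge_atTop 2] with n a1 a2 a3 a4 a5 a6 a7
  set L := Real.log^[K + 1] (n:ℝ) with hLdef
  set s := Real.log^[K] (n:ℝ) with hs
  have hLs : L = Real.log s := by rw [hLdef, hs, Function.iterate_succ_apply']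
  have hs0 : 0 < s := by linarith
  have hexpL : Real.exp L = s := by rw [hLs, Real.exp_log hs0]
  rw [hexpL] at a2
  have hL2 : L ≤ L ^ 2 := by nlinarith
  have hbs : δ * s ≤ δ * n := (le_iter K _).trans a1
  have hnr : (2:ℝ) ≤ n := by exact_mod_cast a7
  have hlevel : ∀ c, Y n c ≤ δ * s → ∀ i ≤ K + 1, ‖X n c i‖ ≤ δ * n := by
    intro c hc i hi
    rcases Nat.eq_zero_or_pos i with h | h
    · subst h
      simp only [X, norm_zero]
      positivity
    · obtain ⟨j, rfl⟩ : ∃ j, i = j + 1 := ⟨i - 1, by omega⟩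
      have hb1 : 1 ≤ δ * s := by
        have : 1 ≤ L ^ 2 * Real.exp 2 := by
          have := Real.add_one_le_exp (2:ℝ)
          nlinarith
        linarith
      exact (tower_bound a7 hb1 hc j).trans ((tower_mono (by omega)).trans a1)
  have tow : Tow n (K + 1) (L ^ 2) (δ * s) := by
    refine ⟨a7, by linarith, a2, by nlinarith, ?_⟩
    intro c hc i hi
    refine (hlevel c hc i hi).trans ?_
    nlinarith
  have hlog := tow.log
  obtain ⟨ψ, ψ', hψ⟩ := hcut (Real.log (L ^ 2)) (Real.log (δ * s)) hlog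
  exact ⟨η, η', Γ, ψ, ψ', tow, h0, h1, hA, hψ, hT, by linarith, hlevel⟩

theorem log_div_tendsto (K : ℕ) :
    Tendsto (fun n : ℕ => Real.log (Real.log^[K + 1] (n:ℝ)) / Real.log^[K + 1] (n:ℝ)) atTop
      (𝓝 0) := by
  have h1 : Tendsto (fun x : ℝ => Real.log x / x) atTop (𝓝 0) := by
    have := Real.isLittleO_log_id_atTop.tendsto_div_nhds_zero
    simpa using this
  exact h1.comp (tendsto_iterlog (K + 1))

theorem log_n_tendsto : Tendsto (fun n : ℕ => Real.log (n:ℝ) / ((n:ℝ) - 1)) atTop (𝓝 0) := by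
  have h1 : Tendsto (fun x : ℝ => Real.log x / x) atTop (𝓝 0) := by
    have := Real.isLittleO_log_id_atTop.tendsto_div_nhds_zero
    simpa using this
  have h2 := (h1.comp (tendsto_natCast_atTop_atTop (R := ℝ))).const_mul 2
  rw [mul_zero] at h2
  refine squeeze_zero' ?_ ?_ h2
  · filter_upwards [eventually_ge_atTop 2] with n hn
    have hnr : (2:ℝ) ≤ n := by exact_mod_cast hn
    have := Real.log_nonneg (by linarith : (1:ℝ) ≤ n)
    have : (0:ℝ) < n - 1 := by linarith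
    positivity
  · filter_upwards [eventually_ge_atTop 2] with n hn
    have hnr : (2:ℝ) ≤ n := by exact_mod_cast hn
    have h3 := Real.log_nonneg (by linarith : (1:ℝ) ≤ n)
    simp only [Function.comp]
    rw [← mul_div_assoc, div_le_div_iff₀ (by linarith) (by linarith)]
    nlinarith

/-- the main factor -/
noncomputable def G (K : ℕ) (δ : ℝ) (n : ℕ) : ℝ :=
  (1 - 2 * (Real.log (Real.log^[K + 1] (n:ℝ)) / Real.log^[K + 1] (n:ℝ)) +
    (Real.log δ - 2) / Real.log^[K + 1] (n:ℝ)) * Real.exp (-(2 * (Real.log n / ((n:ℝ) - 1))))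

theorem G_tendsto (K : ℕ) (δ : ℝ) : Tendsto (G K δ) atTop (𝓝 1) := by
  unfold G
  have h1 := ((log_div_tendsto K).const_mul 2).const_sub 1
  have h2 : Tendsto (fun n : ℕ => (Real.log δ - 2) / Real.log^[K + 1] (n:ℝ)) atTop (𝓝 0) :=
    (tendsto_iterlog (K + 1)).const_div_atTop _
  have h3 : Tendsto (fun n : ℕ => Real.exp (-(2 * (Real.log n / ((n:ℝ) - 1))))) atTop
      (𝓝 (Real.exp (-(2 * 0)))) :=
    ((Real.continuous_exp.tendsto _).comp ((log_n_tendsto.const_mul 2).neg))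
  have h4 := (h1.add h2).mul h3
  simpa using h4

/-- consequences of the data -/
theorem Dat.bounds {n K : ℕ} {δ T m C Cψ : ℝ} {η η' Γ ψ ψ' : ℝ → ℝ}
    (h : Dat n (K + 1) ((Real.log^[K + 1] (n:ℝ)) ^ 2) (δ * Real.log^[K] (n:ℝ)) δ T m C Cψ
      η η' Γ ψ ψ') (hL : 1 ≤ Real.log^[K + 1] (n:ℝ)) (hs : 1 ≤ Real.log^[K] (n:ℝ)) :
    Real.log (δ * Real.log^[K] (n:ℝ) / (Real.log^[K + 1] (n:ℝ)) ^ 2) ≤ Real.log^[K + 1] (n:ℝ) ∧
    n * err n (K + 1) ((Real.log^[K + 1] (n:ℝ)) ^ 2) (δ * Real.log^[K] (n:ℝ)) C Cψ ≤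
      4000 * C * (2 * Cψ + (2 * C * (K + 1) + 16)) ∧
    2 * Real.pi * G K δ n * Real.log^[K + 1] (n:ℝ) ≤ n * ∫ c, chi n ψ η 0 c := by
  set L := Real.log^[K + 1] (n:ℝ) with hLdef
  set s := Real.log^[K] (n:ℝ) with hsdef
  have hLs : L = Real.log s := by rw [hLdef, hsdef, Function.iterate_succ_apply']
  have hs0 : 0 < s := by linarith
  have hL0 : 0 < L := by linarith
  have hδ0 := h.δ0
  have hδ1 := h.δ1
  have hn := h.tow.hn
  have hnr : (2:ℝ) ≤ n := by exact_mod_cast hn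
  have hn0 : (0:ℝ) < n := by linarith
  have hC := h.C0
  have hCψ := h.Cψ0
  have hπ := Real.pi_pos
  have hlog : Real.log (δ * s / L ^ 2) = Real.log δ + L - 2 * Real.log L := by
    rw [Real.log_div (by positivity) (by positivity), Real.log_mul hδ0.ne' hs0.ne',
      Real.log_pow, ← hLs]
    push_cast; ring
  have hlogL : 0 ≤ Real.log L := Real.log_nonneg hL
  have hlδ : Real.log δ ≤ 0 := Real.log_nonpos hδ0.le (by linarith)
  have hup : Real.log (δ * s / L ^ 2) ≤ L := by rw [hlog]; linarith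
  refine ⟨hup, ?_, ?_⟩
  · unfold err
    rw [mul_div_cancel₀ _ hn0.ne']
    apply mul_le_mul_of_nonneg_left _ (by positivity)
    have h1 : (2 * C * ((K + 1 : ℕ) : ℝ) + 16) * Real.log (δ * s / L ^ 2) / L ^ 2 ≤
        (2 * C * ((K:ℝ) + 1) + 16) := by
      rw [div_le_iff₀ (by positivity)]
      push_cast
      apply mul_le_mul_of_nonneg_left _ (by positivity)
      nlinarith
    linarith
  · have hI := h.I_zero
    have ha := h.tow.ha
    have hb := h.tow.b0
    have hab := h.tow.hab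
    have he0 := Real.exp_pos 1
    have he1 : (2:ℝ) ≤ Real.exp 1 := by have := Real.add_one_le_exp (1:ℝ); linarith
    have hee : Real.exp 2 = Real.exp 1 * Real.exp 1 := by rw [← Real.exp_add]; norm_num
    have h1 : L ^ 2 * Real.exp 1 ≤ δ * s / Real.exp 1 := by
      rw [le_div_iff₀ he0]
      calc L ^ 2 * Real.exp 1 * Real.exp 1 = L ^ 2 * Real.exp 2 := by rw [hee]; ring
        _ ≤ _ := hab
    have h2 := (vol_Ann_bounds hn (show 1 ≤ L ^ 2 * Real.exp 1 by nlinarith) h1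
      ((div_le_self (by positivity) (by linarith)).trans h.tow.hbn)).2
    have h3 : Real.log (δ * s / Real.exp 1 / (L ^ 2 * Real.exp 1)) =
        Real.log δ + L - 2 * Real.log L - 2 := by
      have : δ * s / Real.exp 1 / (L ^ 2 * Real.exp 1) = (δ * s / L ^ 2) / Real.exp 2 := by
        rw [hee]; field_simp
      rw [this, Real.log_div (by positivity) (Real.exp_pos _).ne', Real.log_exp, hlog]
    rw [h3] at h2
    have h4 : 2 * Real.pi * (Real.log δ + L - 2 * Real.log L - 2) / (n - 1) *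
        Real.exp (-(2 * Real.log n / (n - 1))) ≤
        (volume (Ann n (L ^ 2 * Real.exp 1) (δ * s / Real.exp 1))).toReal := by
      have hfin := Ann_ne_top hn (α := L ^ 2 * Real.exp 1) (β := δ * s / Real.exp 1)
        ((div_le_self (by positivity) (by linarith)).trans h.tow.hbn)
      exact (ENNReal.ofReal_le_iff_le_toReal hfin).1 h2
    have h5 : 2 * Real.pi * G K δ n * L = 2 * Real.pi * (Real.log δ + L - 2 * Real.log L - 2) *
        Real.exp (-(2 * Real.log n / (n - 1))) := by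
      unfold G
      rw [← hLdef]
      have : -(2 * (Real.log n / ((n:ℝ) - 1))) = -(2 * Real.log n / (n - 1)) := by ring
      rw [this]
      field_simp
      ring
    have hn1 : (0:ℝ) < n - 1 := by linarith
    have hlogpos : 0 ≤ Real.log δ + L - 2 * Real.log L - 2 := by
      have := h.tow.log
      rw [Real.log_pow, Real.log_mul hδ0.ne' hs0.ne', ← hLs] at this
      push_cast at this
      linarith
    rw [h5]
    have h6 : 2 * Real.pi * (Real.log δ + L - 2 * Real.log L - 2) *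
        Real.exp (-(2 * Real.log n / (n - 1))) ≤
        n * (2 * Real.pi * (Real.log δ + L - 2 * Real.log L - 2) / (n - 1) *
        Real.exp (-(2 * Real.log n / (n - 1)))) := by
      have h7 : n * (2 * Real.pi * (Real.log δ + L - 2 * Real.log L - 2) / (n - 1) *
        Real.exp (-(2 * Real.log n / (n - 1)))) = (n / (n - 1)) *
        (2 * Real.pi * (Real.log δ + L - 2 * Real.log L - 2) *
        Real.exp (-(2 * Real.log n / (n - 1)))) := by ring
      rw [h7]
      have h8 : 1 ≤ (n:ℝ) / (n - 1) := by rw [le_div_iff₀ hn1]; linarith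
      have h9 : 0 ≤ 2 * Real.pi * (Real.log δ + L - 2 * Real.log L - 2) *
        Real.exp (-(2 * Real.log n / (n - 1))) := by
        have := Real.exp_pos (-(2 * Real.log n / ((n:ℝ) - 1)))
        positivity
      nlinarith
    refine h6.trans ?_
    exact mul_le_mul_of_nonneg_left (h4.trans hI) hn0.le

theorem NN_finite {n : ℕ} (hn : 2 ≤ n) (k : ℕ) : volume (NN n k) ≠ ⊤ := by
  have h : NN n k ⊆ Metric.closedBall 0 2 := by
    rintro c ⟨hc, -⟩
    rw [mem_closedBall_zero_iff]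
    by_contra hcon
    push Not at hcon
    have h1 := Pool.Agent.H749R2.Hyp.t_le_two hn hc
    have h2 : ‖c‖ ≤ ‖c‖ ^ (n - 1) := le_self_pow₀ (by linarith) (by omega)
    linarith
  exact ((measure_mono h).trans_lt measure_closedBall_lt_top).ne

/-- the limit constant for the lower bound -/
theorem exists_delta (K : ℕ) {ε : ℝ} (hε : 0 < ε) : ∃ δ : ℝ, 0 < δ ∧ δ ≤ 1 / 10 ∧
    2 * Real.pi / 2 ^ (K + 1) - ε < 2 * Real.pi * (1 / 2 - δ) ^ (K + 1) ∧
    2 * Real.pi * (1 - (∑ j ∈ Finset.range K, (1 / 2 - δ) ^ (j + 1) + (1 / 2 - δ) ^ (K + 1))) <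
      2 * Real.pi / 2 ^ (K + 1) + ε := by
  have c1 : Tendsto (fun δ : ℝ => 2 * Real.pi * (1 / 2 - δ) ^ (K + 1)) (𝓝[>] 0)
      (𝓝 (2 * Real.pi * (1 / 2 - 0) ^ (K + 1))) := by
    apply Tendsto.mono_left _ nhdsWithin_le_nhds
    apply Continuous.tendsto
    fun_prop
  have c2 : Tendsto (fun δ : ℝ => 2 * Real.pi *
      (1 - (∑ j ∈ Finset.range K, (1 / 2 - δ) ^ (j + 1) + (1 / 2 - δ) ^ (K + 1)))) (𝓝[>] 0)
      (𝓝 (2 * Real.pi *
      (1 - (∑ j ∈ Finset.range K, (1 / 2 - 0 : ℝ) ^ (j + 1) + (1 / 2 - 0) ^ (K + 1))))) := by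
    apply Tendsto.mono_left _ nhdsWithin_le_nhds
    apply Continuous.tendsto (f := fun δ : ℝ => 2 * Real.pi *
      (1 - (∑ j ∈ Finset.range K, (1 / 2 - δ) ^ (j + 1) + (1 / 2 - δ) ^ (K + 1))))
    fun_prop
  have e1 : 2 * Real.pi * (1 / 2 - 0 : ℝ) ^ (K + 1) = 2 * Real.pi / 2 ^ (K + 1) := by
    rw [sub_zero, div_pow, one_pow]; ring
  have e3 : ∀ K : ℕ, ∑ j ∈ Finset.range K, (1 / 2 : ℝ) ^ (j + 1) = 1 - (1 / 2) ^ K := by
    intro K
    induction K with
    | zero => simp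
    | succ K ih => rw [Finset.sum_range_succ, ih, pow_succ]; ring
  have e2 : 2 * Real.pi *
      (1 - (∑ j ∈ Finset.range K, (1 / 2 - 0 : ℝ) ^ (j + 1) + (1 / 2 - 0) ^ (K + 1))) =
      2 * Real.pi / 2 ^ (K + 1) := by
    simp only [sub_zero]
    rw [e3, pow_succ, div_pow, one_pow, pow_succ]
    field_simp
    ring
  rw [e1] at c1
  rw [e2] at c2
  have h1 := c1.eventually_const_lt (show 2 * Real.pi / 2 ^ (K + 1) - ε <
    2 * Real.pi / 2 ^ (K + 1) by linarith)
  have h2 := c2.eventually_lt_const (show 2 * Real.pi / 2 ^ (K + 1) <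
    2 * Real.pi / 2 ^ (K + 1) + ε by linarith)
  have h3 : ∀ᶠ δ : ℝ in 𝓝[>] 0, δ < 1 / 10 :=
    (eventually_lt_nhds (by norm_num : (0:ℝ) < 1 / 10)).filter_mono nhdsWithin_le_nhds
  obtain ⟨δ, ⟨⟨a1, a2⟩, a3⟩, a4⟩ := (((h1.and h2).and h3).and
    (self_mem_nhdsWithin : ∀ᶠ δ : ℝ in 𝓝[>] 0, δ ∈ Ioi (0:ℝ))).exists
  exact ⟨δ, a4, a3.le, a1, a2⟩

/-- the lower bound -/
theorem lower_lim (K : ℕ) {ε : ℝ} (hε : 0 < ε) : ∀ᶠ n : ℕ in atTop,
    (2 * Real.pi / 2 ^ (K + 1) - ε) * Real.log^[K + 1] (n:ℝ) ≤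
      n * (volume (Ex n (K + 2))).toReal := by
  have hπ := Real.pi_pos
  obtain ⟨δ, h0, h1, hδ, -⟩ := exists_delta K hε
  obtain ⟨m, C, Cψ, T, hm, hm1, hC, hCψ, hdat⟩ := dat_eventually K h0 h1
  set q := (1 / 2 - δ) ^ (K + 1) with hq
  have hq0 : 0 ≤ q := by rw [hq]; apply pow_nonneg; linarith
  have hmq : q ≤ m ^ (K + 1) := pow_le_pow_left₀ (by linarith) hm _
  set K1 := ((K:ℝ) + 1) * (4000 * C * (2 * Cψ + (2 * C * (K + 1) + 16))) with hK1
  have hlim : Tendsto (fun n : ℕ => q * (2 * Real.pi * G K δ n) -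
      K1 / Real.log^[K + 1] (n:ℝ)) atTop (𝓝 (q * (2 * Real.pi * 1) - 0)) :=
    (((G_tendsto K δ).const_mul _).const_mul q).sub
      ((tendsto_iterlog (K + 1)).const_div_atTop _)
  have hev := hlim.eventually_const_lt (show 2 * Real.pi / 2 ^ (K + 1) - ε <
    q * (2 * Real.pi * 1) - 0 by
      have : q * (2 * Real.pi * 1) - 0 = 2 * Real.pi * q := by ring
      rw [this]; exact hδ)
  filter_upwards [hdat, hev, (tendsto_iterlog (K + 1)).eventually_ge_atTop 1,
    (tendsto_iterlog K).eventually_ge_atTop 1, (G_tendsto K δ).eventually_const_lt one_pos,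
    eventually_ge_atTop 2] with n a1 a2 a3 a4 a5 a6
  obtain ⟨η, η', Γ, ψ, ψ', hd⟩ := a1
  obtain ⟨b1, b2, b3⟩ := hd.bounds a3 a4
  set L := Real.log^[K + 1] (n:ℝ) with hL
  have hnr : (2:ℝ) ≤ n := by exact_mod_cast a6
  have hlow := hd.lower (j := K) le_rfl
  have hfin : volume (Ex n (K + 2)) ≠ ⊤ :=
    ((measure_mono (Ex_sub_NN a6 (K + 1))).trans_lt (NN_finite a6 (K + 1)).lt_top).ne
  have hlow' := (ENNReal.ofReal_le_iff_le_toReal hfin).1 hlow
  have h2 := mul_le_mul_of_nonneg_left hlow' (by linarith : (0:ℝ) ≤ n)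
  refine le_trans ?_ h2
  set I0 := ∫ c, chi n ψ η 0 c with hI0
  set e := err n (K + 1) (L ^ 2) (δ * Real.log^[K] (n:ℝ)) C Cψ with he
  have h3 : (2 * Real.pi / 2 ^ (K + 1) - ε) * L ≤ q * (2 * Real.pi * G K δ n) * L - K1 := by
    have h4 := mul_le_mul_of_nonneg_right a2.le (by linarith : (0:ℝ) ≤ L)
    have h5 : (q * (2 * Real.pi * G K δ n) - K1 / L) * L =
        q * (2 * Real.pi * G K δ n) * L - K1 := by
      have : L ≠ 0 := by linarith
      field_simp
    rw [h5] at h4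
    exact h4
  have hG : 0 ≤ 2 * Real.pi * G K δ n * L := by positivity
  have h4 : q * (2 * Real.pi * G K δ n) * L ≤ m ^ (K + 1) * (n * I0) := by
    calc q * (2 * Real.pi * G K δ n) * L = q * (2 * Real.pi * G K δ n * L) := by ring
      _ ≤ m ^ (K + 1) * (2 * Real.pi * G K δ n * L) := mul_le_mul_of_nonneg_right hmq hG
      _ ≤ m ^ (K + 1) * (n * I0) :=
        mul_le_mul_of_nonneg_left b3 (pow_nonneg (by linarith) _)
  have h5 : ((K:ℝ) + 1) * (n * e) ≤ K1 := mul_le_mul_of_nonneg_left b2 (by positivity)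
  have h6 : n * (m ^ (K + 1) * I0 - ((K:ℝ) + 1) * e) =
      m ^ (K + 1) * (n * I0) - ((K:ℝ) + 1) * (n * e) := by ring
  rw [h6]
  linarith

/-- the upper bound -/
theorem upper_lim (K : ℕ) {ε : ℝ} (hε : 0 < ε) : ∀ᶠ n : ℕ in atTop,
    n * (volume (NN n (K + 1))).toReal ≤
      (2 * Real.pi / 2 ^ (K + 1) + ε) * Real.log^[K + 1] (n:ℝ) := by
  have hπ := Real.pi_pos
  obtain ⟨δ, h0, h1, -, hδ⟩ := exists_delta K hε
  obtain ⟨m, C, Cψ, T, hm, hm1, hC, hCψ, hdat⟩ := dat_eventually K h0 h1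
  obtain ⟨CU, hCU, hU⟩ := UU_all K
  obtain ⟨CL, hCL, hLam⟩ := Lam_le K
  set σ := ∑ j ∈ Finset.range K, (1 / 2 - δ) ^ (j + 1) + (1 / 2 - δ) ^ (K + 1) with hσ
  set S := ∑ j ∈ Finset.range K, m ^ (j + 1) + m ^ (K + 1) with hS
  have hσS : σ ≤ S := by
    rw [hσ, hS]
    apply add_le_add
    · apply Finset.sum_le_sum
      intro j _
      exact pow_le_pow_left₀ (by linarith) hm _
    · exact pow_le_pow_left₀ (by linarith) hm _
  have hm0 : 0 ≤ m := by linarith
  have hS0 : 0 ≤ S := by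
    rw [hS]
    exact add_nonneg (Finset.sum_nonneg fun j _ => pow_nonneg hm0 _) (pow_nonneg hm0 _)
  set K1 := ((K:ℝ) + 1) ^ 2 * (4000 * C * (2 * Cψ + (2 * C * (K + 1) + 16))) with hK1
  set K2 := 600000 * CU * (CL / δ + 3) with hK2
  have hK2' : 0 ≤ K2 := by positivity
  have hK1' : 0 ≤ K1 := by positivity
  have hnn : Tendsto (fun n : ℕ => (n:ℝ) / ((n:ℝ) - 1)) atTop (𝓝 1) := by
    have h2 : Tendsto (fun n : ℕ => 1 + 1 / ((n:ℝ) - 1)) atTop (𝓝 (1 + 0)) := by
      apply Tendsto.const_add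
      apply Tendsto.const_div_atTop
      exact tendsto_atTop_add_const_right _ _ tendsto_natCast_atTop_atTop
    rw [add_zero] at h2
    refine h2.congr' ?_
    filter_upwards [eventually_ge_atTop 2] with n hn
    have hnr : (2:ℝ) ≤ n := by exact_mod_cast hn
    have : (n:ℝ) - 1 ≠ 0 := by linarith
    field_simp
    ring
  have hsmall : Tendsto (fun n : ℕ => 4000 * (Real.log (Real.log^[K + 1] (n:ℝ)) /
      Real.log^[K + 1] (n:ℝ)) + (2000 * Real.log 3 + K2 + K1) / Real.log^[K + 1] (n:ℝ)) atTop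
      (𝓝 (4000 * 0 + 0)) :=
    ((log_div_tendsto K).const_mul 4000).add ((tendsto_iterlog (K + 1)).const_div_atTop _)
  rw [mul_zero, add_zero] at hsmall
  have hlim := ((hnn.const_mul (2 * Real.pi)).sub (((G_tendsto K δ).const_mul
    (2 * Real.pi)).const_mul σ)).add hsmall
  have hev := hlim.eventually_lt_const (show 2 * Real.pi * 1 - σ * (2 * Real.pi * 1) + 0 <
    2 * Real.pi / 2 ^ (K + 1) + ε by
      have : 2 * Real.pi * 1 - σ * (2 * Real.pi * 1) + 0 = 2 * Real.pi * (1 - σ) := by ring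
      rw [this]; exact hδ)
  have hev2 := hsmall.eventually_lt_const (show (0:ℝ) < 2 * Real.pi / 2 ^ (K + 1) + ε by
    positivity)
  have hall : ∀ᶠ n : ℕ in atTop, ∀ i ∈ Finset.range (K + 2), 4 / δ ≤ Real.log^[i] (n:ℝ) := by
    rw [Filter.eventually_all_finset]
    intro i _
    exact (tendsto_iterlog i).eventually_ge_atTop _
  filter_upwards [hdat, hev, (tendsto_iterlog (K + 1)).eventually_ge_atTop 1,
    (tendsto_iterlog K).eventually_ge_atTop (10 ^ 20 / δ),
    (G_tendsto K δ).eventually_const_lt one_pos,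
    eventually_ge_atTop (10 ^ 6), hall, hLam, hev2] with n a1 a2 a3 a4 a5 a6 a7 a8 a9
  obtain ⟨η, η', Γ, ψ, ψ', hd⟩ := a1
  have hs20 : 10 ^ 20 ≤ δ * Real.log^[K] (n:ℝ) := by
    rw [div_le_iff₀ h0] at a4; linarith
  have hs1 : 1 ≤ Real.log^[K] (n:ℝ) := by
    refine le_trans ?_ a4
    rw [le_div_iff₀ h0]
    nlinarith
  obtain ⟨b1, b2, b3⟩ := hd.bounds a3 hs1
  have hup := hd.upper (fun i _ hi => a7 i (Finset.mem_range.2 (by omega))) le_rfl a6
  have hn2 : 2 ≤ n := by omega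
  have hnr : (10:ℝ) ^ 6 ≤ n := by exact_mod_cast a6
  have hn0 : (0:ℝ) < n := by linarith
  set L := Real.log^[K + 1] (n:ℝ) with hL
  set s := Real.log^[K] (n:ℝ) with hs
  set b := δ * s with hb
  set I0 := ∫ c, chi n ψ η 0 c with hI0
  set e := err n (K + 1) (L ^ 2) b C Cψ with he
  have hL0 : 0 < L := by linarith
  have hlogL : 0 ≤ Real.log L := Real.log_nonneg a3
  -- the three parts
  have hbn : b ≤ n := hd.tow.hbn
  have hab := hd.tow.b0
  have hlow := vol_Ann_le hn2 (show (0:ℝ) < 1 / 3 by norm_num) (show 1 / 3 ≤ L ^ 2 by nlinarith)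
    (hab.2.trans hbn)
  obtain ⟨K', hK'⟩ : ∃ K' : ℕ, 2 * (n : ℝ) < 2 ^ K' * b := by
    obtain ⟨K', hK'⟩ := pow_unbounded_of_one_lt (2 * (n : ℝ) / b) (show (1 : ℝ) < 2 by norm_num)
    exact ⟨K', by rwa [div_lt_iff₀ (by linarith)] at hK'⟩
  have htail := tailN hCU hU a6 K' b hs20 hK'
  have hsub : NN n (K + 1) ⊆ (Ann n (1 / 3) (L ^ 2) ∪ (NN n (K + 1) ∩ Ann n (L ^ 2) b)) ∪
      (NN n (K + 1) ∩ {c | b ≤ Y n c}) := by
    intro c hc
    obtain ⟨g1, -, -⟩ := alv' a6 hc.1 (hc.2 1 le_rfl (by omega))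
    rcases le_total b (Y n c) with h3 | h3
    · exact Or.inr ⟨hc, h3⟩
    · rcases le_total (Y n c) (L ^ 2) with h4 | h4
      · exact Or.inl (Or.inl ⟨g1, h4⟩)
      · exact Or.inl (Or.inr ⟨hc, h4, h3⟩)
  set x1 := 2000 * Real.log (L ^ 2 / (1 / 3)) / n with hx1
  set x2 := 2 * Real.pi * Real.log (b / L ^ 2) / (n - 1) -
        (S * I0 - ((K:ℝ) + 1) ^ 2 * e) with hx2
  set x3 := 600000 * CU * (Lam K n + 2 + Real.log b) / (n * b) with hx3
  have hb0 : 0 < b := by linarith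
  have hx1' : n * x1 = 2000 * Real.log 3 + 4000 * Real.log L := by
    have : L ^ 2 / (1 / 3) = 3 * L ^ 2 := by ring
    rw [hx1, this, mul_div_cancel₀ _ hn0.ne', Real.log_mul (by norm_num) (by positivity),
      Real.log_pow]
    push_cast; ring
  have hx10 : 0 ≤ x1 := by
    have h3 : 0 ≤ n * x1 := by
      rw [hx1']
      have := Real.log_nonneg (by norm_num : (1:ℝ) ≤ 3)
      positivity
    exact nonneg_of_mul_nonneg_right h3 hn0
  have hLam1 : 1 ≤ Lam K n := one_le_Lam (by linarith) K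
  have hlogb : 0 ≤ Real.log b := Real.log_nonneg (by linarith)
  have hx30 : 0 ≤ x3 := by positivity
  have hx3' : n * x3 ≤ K2 := by
    have h3 : n * x3 = 600000 * CU * ((Lam K n + 2 + Real.log b) / b) := by
      rw [hx3]; field_simp
    rw [h3, hK2]
    apply mul_le_mul_of_nonneg_left _ (by positivity)
    rw [div_le_iff₀ hb0]
    have h4 : Real.log b ≤ b := by
      have := Real.log_le_sub_one_of_pos hb0; linarith
    have h5 : (CL / δ + 3) * b = CL * s + 3 * b := by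
      rw [hb]; field_simp
    rw [h5]
    linarith
  -- the middle part
  have hx2' : n * x2 ≤ (2 * Real.pi * ((n:ℝ) / (n - 1)) - σ * (2 * Real.pi * G K δ n)) * L +
      K1 := by
    have h3 : n * x2 = (n / (n - 1)) * (2 * Real.pi * Real.log (b / L ^ 2)) - S * (n * I0) +
        ((K:ℝ) + 1) ^ 2 * (n * e) := by rw [hx2]; ring
    rw [h3]
    have hn1 : (0:ℝ) < n - 1 := by linarith
    have h4 : (n / ((n:ℝ) - 1)) * (2 * Real.pi * Real.log (b / L ^ 2)) ≤
        (n / ((n:ℝ) - 1)) * (2 * Real.pi * L) := by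
      apply mul_le_mul_of_nonneg_left _ (by positivity)
      exact mul_le_mul_of_nonneg_left b1 (by positivity)
    have hG : 0 ≤ 2 * Real.pi * G K δ n * L := by positivity
    have h5 : σ * (2 * Real.pi * G K δ n * L) ≤ S * (n * I0) :=
      (mul_le_mul_of_nonneg_right hσS hG).trans (mul_le_mul_of_nonneg_left b3 hS0)
    have h6 : ((K:ℝ) + 1) ^ 2 * (n * e) ≤ K1 := mul_le_mul_of_nonneg_left b2 (by positivity)
    nlinarith
  have hvol : volume (NN n (K + 1)) ≤ ENNReal.ofReal (x1 + max x2 0 + x3) := by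
    refine (measure_mono hsub).trans ((measure_union_le _ _).trans
      ((add_le_add ((measure_union_le _ _).trans (add_le_add hlow
        (hup.trans (ENNReal.ofReal_le_ofReal (le_max_left x2 0))))) htail).trans ?_))
    rw [← ENNReal.ofReal_add hx10 (le_max_right _ _),
      ← ENNReal.ofReal_add (by positivity) hx30]
  have hreal : (volume (NN n (K + 1))).toReal ≤ x1 + max x2 0 + x3 :=
    ENNReal.toReal_le_of_le_ofReal (by positivity) hvol
  have h3 := mul_le_mul_of_nonneg_left hreal hn0.le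
  refine h3.trans ?_
  have h4 := mul_le_mul_of_nonneg_right a2.le hL0.le
  have h5 := mul_le_mul_of_nonneg_right a9.le hL0.le
  have e1 : (4000 * (Real.log L / L) + (2000 * Real.log 3 + K2 + K1) / L) * L =
      4000 * Real.log L + (2000 * Real.log 3 + K2 + K1) := by field_simp
  rw [e1] at h5
  have e2 : (2 * Real.pi * ((n:ℝ) / (n - 1)) - σ * (2 * Real.pi * G K δ n) +
      (4000 * (Real.log L / L) + (2000 * Real.log 3 + K2 + K1) / L)) * L =
      (2 * Real.pi * ((n:ℝ) / (n - 1)) - σ * (2 * Real.pi * G K δ n)) * L +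
      (4000 * Real.log L + (2000 * Real.log 3 + K2 + K1)) := by rw [add_mul, e1]
  rw [e2] at h4
  rcases le_total x2 0 with h6 | h6
  · rw [max_eq_right h6]
    have : n * (x1 + 0 + x3) = n * x1 + n * x3 := by ring
    rw [this, hx1']
    linarith
  · rw [max_eq_left h6]
    have : n * (x1 + x2 + x3) = n * x1 + n * x2 + n * x3 := by ring
    rw [this, hx1']
    linarith

/-- the main theorem -/
theorem main (K : ℕ) :
    Tendsto (fun n : ℕ => n * (volume (NN n (K + 1))).toReal / Real.log^[K + 1] (n:ℝ)) atTop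
      (𝓝 (2 * Real.pi / 2 ^ (K + 1))) ∧
    Tendsto (fun n : ℕ => n * (volume (Ex n (K + 2))).toReal / Real.log^[K + 1] (n:ℝ)) atTop
      (𝓝 (2 * Real.pi / 2 ^ (K + 1))) := by
  have hle : ∀ n : ℕ, 2 ≤ n → (volume (Ex n (K + 2))).toReal ≤
      (volume (NN n (K + 1))).toReal := fun n hn =>
    ENNReal.toReal_mono (NN_finite hn (K + 1)) (measure_mono (Ex_sub_NN hn (K + 1)))
  have hkey : ∀ ε : ℝ, 0 < ε → ∀ᶠ n : ℕ in atTop,
      2 * Real.pi / 2 ^ (K + 1) - ε ≤ n * (volume (Ex n (K + 2))).toReal /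
        Real.log^[K + 1] (n:ℝ) ∧
      n * (volume (Ex n (K + 2))).toReal / Real.log^[K + 1] (n:ℝ) ≤
        n * (volume (NN n (K + 1))).toReal / Real.log^[K + 1] (n:ℝ) ∧
      n * (volume (NN n (K + 1))).toReal / Real.log^[K + 1] (n:ℝ) ≤
        2 * Real.pi / 2 ^ (K + 1) + ε := by
    intro ε hε
    filter_upwards [lower_lim K hε, upper_lim K hε,
      (tendsto_iterlog (K + 1)).eventually_ge_atTop 1, eventually_ge_atTop 2] with n a1 a2 a3 a4
    have hL0 : 0 < Real.log^[K + 1] (n:ℝ) := by linarith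
    refine ⟨?_, ?_, ?_⟩
    · rw [le_div_iff₀ hL0]; exact a1
    · apply div_le_div_of_nonneg_right _ hL0.le
      exact mul_le_mul_of_nonneg_left (hle n a4) (Nat.cast_nonneg n)
    · rw [div_le_iff₀ hL0]; exact a2
  constructor
  · rw [Metric.tendsto_nhds]
    intro ε hε
    filter_upwards [hkey (ε / 2) (by positivity)] with n hn
    rw [Real.dist_eq, abs_lt]
    constructor <;> linarith [hn.1, hn.2.1, hn.2.2]
  · rw [Metric.tendsto_nhds]
    intro ε hε
    filter_upwards [hkey (ε / 2) (by positivity)] with n hn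
    rw [Real.dist_eq, abs_lt]
    constructor <;> linarith [hn.1, hn.2.1, hn.2.2]

end Pool.Agent.Q79.PA
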