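import Mathlib
import Pool.Agent.Q79.PerAreaH

set_option autoImplicit false

open MeasureTheory Set Filter Topology

namespace Pool.Agent.Q79.PL

open Pool.Agent.W747.MB Pool.Agent.TH363.CD Pool.Agent.Q79.PA

/-- the annulus, and control of the first levels -/
structure Tow2 (n k : ℕ) (a b : ℝ) : Prop where
  hn : 2 ≤ n
  ha : 20 ≤ a
  hab : a ≤ b
  hbn : b ≤ n
  t : ∀ c, Y n c ≤ b → ∀ i ≤ k, ‖X n c i‖ ≤ n / 10

/-- the radial cutoff -/
structure Cut2 (α β τ C : ℝ) (ψ ψ' : ℝ → ℝ) : Prop where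
  d : ∀ t, HasDerivAt ψ (ψ' t) t
  n0 : ∀ t, 0 ≤ ψ t
  n1 : ∀ t, ψ t ≤ 1
  z1 : ∀ t, t ≤ α → ψ t = 0
  z2 : ∀ t, β ≤ t → ψ t = 0
  o : ∀ t, α + τ ≤ t → t ≤ β - τ → ψ t = 1
  b : ∀ t, |ψ' t| ≤ C

theorem exists_cut2 {τ : ℝ} (hτ : 0 < τ) : ∃ C : ℝ, 0 ≤ C ∧ ∀ α β : ℝ,
    ∃ ψ ψ' : ℝ → ℝ, Cut2 α β τ C ψ ψ' := by
  have hcd : ContDiff ℝ 1 Real.smoothTransition := Real.smoothTransition.contDiff (n := 1)
  have hd : ∀ t, HasDerivAt Real.smoothTransition (deriv Real.smoothTransition t) t := fun t =>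
    ((hcd.differentiable (by norm_num)) t).hasDerivAt
  have hdc : Continuous (deriv Real.smoothTransition) := hcd.continuous_deriv (by norm_num)
  have hz1 : ∀ t : ℝ, t < 0 → deriv Real.smoothTransition t = 0 := by
    intro t ht
    have : Real.smoothTransition =ᶠ[𝓝 t] fun _ => (0:ℝ) := by
      filter_upwards [gt_mem_nhds ht] with u hu
      exact Real.smoothTransition.zero_of_nonpos hu.le
    rw [this.deriv_eq, deriv_const]
  have hz2 : ∀ t : ℝ, 1 < t → deriv Real.smoothTransition t = 0 := by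
    intro t ht
    have : Real.smoothTransition =ᶠ[𝓝 t] fun _ => (1:ℝ) := by
      filter_upwards [lt_mem_nhds ht] with u hu
      exact Real.smoothTransition.one_of_one_le hu.le
    rw [this.deriv_eq, deriv_const]
  obtain ⟨C, hC⟩ := (isCompact_Icc (a := (0:ℝ)) (b := 1)).exists_bound_of_continuousOn
    hdc.continuousOn
  have hC0 : 0 ≤ C := (norm_nonneg _).trans (hC 0 ⟨le_rfl, by norm_num⟩)
  have hb : ∀ t, |deriv Real.smoothTransition t| ≤ C := by
    intro t
    rcases lt_or_ge t 0 with h | h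
    · rw [hz1 t h, abs_zero]; exact hC0
    rcases lt_or_ge 1 t with h' | h'
    · rw [hz2 t h', abs_zero]; exact hC0
    have := hC t ⟨h, h'⟩
    rwa [Real.norm_eq_abs] at this
  refine ⟨2 * (C / τ), by positivity, ?_⟩
  intro α β
  refine ⟨fun t => Real.smoothTransition ((t - α) / τ) * Real.smoothTransition ((β - t) / τ),
    fun t => (deriv Real.smoothTransition ((t - α) / τ) * (1 / τ)) *
      Real.smoothTransition ((β - t) / τ) +
      Real.smoothTransition ((t - α) / τ) *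
        (deriv Real.smoothTransition ((β - t) / τ) * (-1 / τ)), ?_, ?_, ?_, ?_, ?_, ?_, ?_⟩
  · intro t
    have e1 : HasDerivAt (fun t : ℝ => (t - α) / τ) (1 / τ) t :=
      ((hasDerivAt_id t).sub_const α).div_const τ
    have e2 : HasDerivAt (fun t : ℝ => (β - t) / τ) (-1 / τ) t :=
      ((hasDerivAt_id t).const_sub β).div_const τ
    have h1 : HasDerivAt (fun t => Real.smoothTransition ((t - α) / τ))
        (deriv Real.smoothTransition ((t - α) / τ) * (1 / τ)) t := (hd _).comp t e1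
    have h2 : HasDerivAt (fun t => Real.smoothTransition ((β - t) / τ))
        (deriv Real.smoothTransition ((β - t) / τ) * (-1 / τ)) t := (hd _).comp t e2
    exact h1.mul h2
  · intro t
    exact mul_nonneg (Real.smoothTransition.nonneg _) (Real.smoothTransition.nonneg _)
  · intro t
    exact mul_le_one₀ (Real.smoothTransition.le_one _) (Real.smoothTransition.nonneg _)
      (Real.smoothTransition.le_one _)
  · intro t ht
    show Real.smoothTransition ((t - α) / τ) * Real.smoothTransition ((β - t) / τ) = 0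
    rw [Real.smoothTransition.zero_of_nonpos
      (div_nonpos_of_nonpos_of_nonneg (by linarith) hτ.le), zero_mul]
  · intro t ht
    show Real.smoothTransition ((t - α) / τ) * Real.smoothTransition ((β - t) / τ) = 0
    rw [Real.smoothTransition.zero_of_nonpos (x := (β - t) / τ)
      (div_nonpos_of_nonpos_of_nonneg (by linarith) hτ.le), mul_zero]
  · intro t h1 h2
    show Real.smoothTransition ((t - α) / τ) * Real.smoothTransition ((β - t) / τ) = 1
    rw [Real.smoothTransition.one_of_one_le (by rw [le_div_iff₀ hτ]; linarith),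
      Real.smoothTransition.one_of_one_le (by rw [le_div_iff₀ hτ]; linarith), mul_one]
  · intro t
    have a1 := Real.smoothTransition.nonneg ((t - α) / τ)
    have a2 := Real.smoothTransition.le_one ((t - α) / τ)
    have a3 := Real.smoothTransition.nonneg ((β - t) / τ)
    have a4 := Real.smoothTransition.le_one ((β - t) / τ)
    refine (abs_add_le _ _).trans ?_
    rw [abs_mul, abs_mul, abs_mul, abs_mul, abs_of_nonneg a1, abs_of_nonneg a3]
    have b1 := hb ((t - α) / τ)
    have b2 := hb ((β - t) / τ)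
    have e1 : |1 / τ| = 1 / τ := abs_of_pos (by positivity)
    have e2 : |-1 / τ| = 1 / τ := by rw [neg_div, abs_neg, e1]
    rw [e1, e2]
    have f1 : |deriv Real.smoothTransition ((t - α) / τ)| * (1 / τ) ≤ C / τ := by
      rw [mul_one_div]; exact div_le_div_of_nonneg_right b1 hτ.le
    have f2 : |deriv Real.smoothTransition ((β - t) / τ)| * (1 / τ) ≤ C / τ := by
      rw [mul_one_div]; exact div_le_div_of_nonneg_right b2 hτ.le
    have hCτ : 0 ≤ C / τ := by positivity
    have c1 : |deriv Real.smoothTransition ((t - α) / τ)| * (1 / τ) *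
        Real.smoothTransition ((β - t) / τ) ≤ C / τ * 1 := mul_le_mul f1 a4 a3 hCτ
    have c2 : Real.smoothTransition ((t - α) / τ) *
        (|deriv Real.smoothTransition ((β - t) / τ)| * (1 / τ)) ≤ 1 * (C / τ) :=
      mul_le_mul a2 f2 (by positivity) (by norm_num)
    linarith

/-- the pointwise estimate on the support, for `j ≥ 1` -/
theorem FF_point2 {n : ℕ} (hn : 2 ≤ n) {c : ℂ} (hY : 20 ≤ Y n c) (hYn : Y n c ≤ n) {j : ℕ}
    (hj : 1 ≤ j)
    (ht : ∀ i ≤ j, ‖X n c i‖ ≤ n / 10) {ψ ψ' η η' κ Γ : ℝ → ℝ} {C δ m : ℝ}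
    (hδ : 0 < δ)
    (hψ : ∀ t, HasDerivAt ψ (ψ' t) t) (hψ0 : ∀ t, 0 ≤ ψ t) (hψ1 : ∀ t, ψ t ≤ 1)
    (hη : ∀ t, HasDerivAt η (η' t) t) (hp : ∀ t, η (t + 2 * Real.pi) = η t)
    (hη0 : ∀ t, 0 ≤ η t) (hη1 : ∀ t, η t ≤ 1) (hC : ∀ t, |η' t| ≤ C)
    (hΓ : ∀ t, HasDerivAt Γ (κ t - m) t) (hpΓ : ∀ t, Γ (t + 2 * Real.pi) = Γ t)
    (hΓC : ∀ t, |Γ t| ≤ C)
    (hcos : ∀ i < j, δ ≤ Real.cos (X n c (i + 1)).arg) :
    ∃ D : ℂ →L[ℝ] ℂ, HasFDerivAt (FF n ψ η Γ j) D c ∧
      ‖D‖ ≤ |κ (X n c (j + 1)).arg - m| + C * (|ψ' (Real.log (Y n c))| + C * j) + C ∧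
      ‖D 1 - Complex.I * D Complex.I +
        Complex.I * (((κ (X n c (j + 1)).arg - m) * chi n ψ η j c : ℝ) : ℂ)‖ ≤
        2 * C * ((2 * |ψ' (Real.log (Y n c))| + 2 * C * j + 16) / Y n c) := by
  have hY0 : 0 < Y n c := by linarith
  have hC0 : 0 ≤ C := (abs_nonneg _).trans (hC 0)
  obtain ⟨hA, hX⟩ := nz_of_tower hn hY ht
  have hc := Y_pos_ne hn hY
  have hder : HasDerivAt (fun c => X n c (j + 1)) (X n c (j + 1) * L n c (j + 1)) c :=
    (Pool.Agent.W366.MB.main n hn c (j + 1) hc (fun i' hi' => hA i' (by omega))).1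
  have hderL : HasDerivAt (fun c => L n c (j + 1)) (M n c (j + 1)) c :=
    (Pool.Agent.W366.MB.main n hn c (j + 1) hc (fun i' hi' => hA i' (by omega))).2
  have hgeo := geo_all hn hY hYn j (fun i hi1 hi2 => by
    obtain ⟨i', rfl⟩ : ∃ i', i = i' + 1 := ⟨i - 1, by omega⟩
    exact ⟨re_nonneg_of_cos hδ (hcos i' (by omega)), ht _ hi2⟩)
  obtain ⟨g1, g2, g3, g4, g5⟩ := hgeo (j + 1) (by omega) le_rfl
  obtain ⟨Dχ, hDχ, hDχn⟩ := chi_deriv hn hY ht hψ hψ0 hψ1 hη hp hη0 hη1 hC j le_rfl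
  have h1 := hasFDerivAt_arg_X hΓ hpΓ (X := fun c => X n c (j + 1)) (hX (j + 1) (by omega) le_rfl)
    hder
  obtain ⟨D, hD, hD1, hD2⟩ := point_deriv (Lf := fun c => L n c (j + 1)) h1 hDχ hderL
    (norm_pos_iff.mp g2)
  set l := ‖L n c (j + 1)‖ with hl
  have hχ0 := chi_nonneg (n := n) hψ0 hη0 j c
  have hχ1 := chi_le_one (n := n) hψ0 hψ1 hη0 hη1 j c
  -- the two quotients
  have hq1 : ‖Dχ‖ / l ≤ (2 * |ψ' (Real.log (Y n c))| + 2 * C * j) / Y n c := by
    rw [div_le_iff₀ g2]
    refine hDχn.trans ?_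
    have e1 : |ψ' (Real.log (Y n c))| * ‖L n c 1‖ ≤ |ψ' (Real.log (Y n c))| * (2 / Y n c * l) := by
      apply mul_le_mul_of_nonneg_left _ (abs_nonneg _)
      have := g5 1 le_rfl (by omega)
      rw [div_mul_eq_mul_div, le_div_iff₀ hY0]
      linarith
    have e2 : ∑ i ∈ Finset.range j, ‖L n c (i + 1)‖ ≤ j * (2 / Y n c * l) := by
      have : ∀ i ∈ Finset.range j, ‖L n c (i + 1)‖ ≤ 2 / Y n c * l := by
        intro i hi
        rw [Finset.mem_range] at hi
        have := g5 (i + 1) (by omega) (by omega)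
        rw [div_mul_eq_mul_div, le_div_iff₀ hY0]
        linarith
      have h2 := Finset.sum_le_card_nsmul _ _ _ this
      rw [Finset.card_range, nsmul_eq_mul] at h2
      exact h2
    have e3 : C * ∑ i ∈ Finset.range j, ‖L n c (i + 1)‖ ≤ C * (j * (2 / Y n c * l)) :=
      mul_le_mul_of_nonneg_left e2 hC0
    have e4 : (2 * |ψ' (Real.log (Y n c))| + 2 * C * j) / Y n c * l =
      |ψ' (Real.log (Y n c))| * (2 / Y n c * l) + C * (j * (2 / Y n c * l)) := by ring
    rw [e4]
    exact add_le_add e1 e3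
  have hq2 : ‖M n c (j + 1)‖ / l ^ 2 ≤ 16 / Y n c := by
    rw [div_le_iff₀ (by positivity)]
    exact g4
  have hΓc := hΓC (X n c (j + 1)).arg
  refine ⟨D, hD, hD1.trans ?_, hD2.trans ?_⟩
  · rw [abs_of_nonneg hχ0]
    have e1 : |κ (X n c (j + 1)).arg - m| * chi n ψ η j c ≤ |κ (X n c (j + 1)).arg - m| * 1 :=
      mul_le_mul_of_nonneg_left hχ1 (abs_nonneg _)
    have e2 : |Γ (X n c (j + 1)).arg| * ‖Dχ‖ / l ≤ C * (|ψ' (Real.log (Y n c))| + C * j) := by
      rw [mul_div_assoc]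
      apply mul_le_mul hΓc (hq1.trans _) (by positivity) hC0
      rw [div_le_iff₀ hY0]
      have : 0 ≤ C * j := by positivity
      have := abs_nonneg (ψ' (Real.log (Y n c)))
      nlinarith
    have e3 : |Γ (X n c (j + 1)).arg| * chi n ψ η j c * ‖M n c (j + 1)‖ / l ^ 2 ≤ C := by
      rw [mul_div_assoc]
      have f1 : |Γ (X n c (j + 1)).arg| * chi n ψ η j c ≤ C * 1 :=
        mul_le_mul hΓc hχ1 hχ0 hC0
      have f2 : ‖M n c (j + 1)‖ / l ^ 2 ≤ 1 := by
        refine hq2.trans ?_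
        rw [div_le_one hY0]; linarith
      calc _ ≤ (C * 1) * 1 := mul_le_mul f1 f2 (by positivity) (by linarith)
        _ = C := by ring
    linarith
  · rw [abs_of_nonneg hχ0]
    have e2 : 2 * |Γ (X n c (j + 1)).arg| * ‖Dχ‖ / l ≤
        2 * C * ((2 * |ψ' (Real.log (Y n c))| + 2 * C * j) / Y n c) := by
      rw [mul_div_assoc]
      exact mul_le_mul (by linarith) hq1 (by positivity) (by linarith)
    have e3 : 2 * |Γ (X n c (j + 1)).arg| * chi n ψ η j c * ‖M n c (j + 1)‖ / l ^ 2 ≤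
        2 * C * (16 / Y n c) := by
      rw [mul_div_assoc]
      have f1 : 2 * |Γ (X n c (j + 1)).arg| * chi n ψ η j c ≤ 2 * C * 1 :=
        mul_le_mul (by linarith) hχ1 hχ0 (by linarith)
      rw [mul_one] at f1
      exact mul_le_mul f1 hq2 (by positivity) (by linarith)
    have e4 : 2 * C * ((2 * |ψ' (Real.log (Y n c))| + 2 * C * j + 16) / Y n c) =
      2 * C * ((2 * |ψ' (Real.log (Y n c))| + 2 * C * j) / Y n c) + 2 * C * (16 / Y n c) := by
      ring
    rw [e4]
    exact add_le_add e2 e3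

/-- the pointwise estimate everywhere -/
theorem FF_all2 {n j : ℕ} (hj : 1 ≤ j) {a b : ℝ} (T : Tow2 n j a b)
    {ψ ψ' η η' κ Γ : ℝ → ℝ} {C Cψ δ τ m : ℝ}
    (hδ : 0 < δ) (hψ : Cut2 (Real.log a) (Real.log b) τ Cψ ψ ψ')
    (hη : ∀ t, HasDerivAt η (η' t) t) (hp : ∀ t, η (t + 2 * Real.pi) = η t)
    (hη0 : ∀ t, 0 ≤ η t) (hη1 : ∀ t, η t ≤ 1) (hC : ∀ t, |η' t| ≤ C)
    (hηz : ∀ t, Real.cos t < δ → η t = 0)
    (hΓ : ∀ t, HasDerivAt Γ (κ t - m) t) (hpΓ : ∀ t, Γ (t + 2 * Real.pi) = Γ t)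
    (hΓC : ∀ t, |Γ t| ≤ C) (hκ0 : ∀ t, 0 ≤ κ t) (hκ1 : ∀ t, κ t ≤ 1) (hm0 : 0 ≤ m) (hm1 : m ≤ 1)
    (c : ℂ) :
    ∃ D : ℂ →L[ℝ] ℂ, HasFDerivAt (FF n ψ η Γ j) D c ∧
      ‖D‖ ≤ 1 + C * (Cψ + C * j) + C ∧
      ‖D 1 - Complex.I * D Complex.I +
        Complex.I * (((κ (X n c (j + 1)).arg - m) * chi n ψ η j c : ℝ) : ℂ)‖ ≤
        (Ann n a b).indicator (fun _ => 2 * C * ((2 * Cψ + 2 * C * j + 16) / a)) c := by
  have hC0 : 0 ≤ C := (abs_nonneg _).trans (hC 0)
  have hCψ : 0 ≤ Cψ := (abs_nonneg _).trans (hψ.b 0)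
  have hB : 0 ≤ 1 + C * (Cψ + C * j) + C := by positivity
  have ha := T.ha
  have hb : 20 ≤ b := ha.trans T.hab
  have hYc : Continuous fun c => Y n c := Y_continuous n
  by_cases hout : Y n c < a ∨ b < Y n c
  · refine ⟨0, ?_, by simpa using hB, ?_⟩
    · have hev : ∀ᶠ w in 𝓝 c, Y n w < a ∨ b < Y n w := by
        rcases hout with h | h
        · filter_upwards [hYc.continuousAt.eventually_lt_const h] with w hw using Or.inl hw
        · filter_upwards [hYc.continuousAt.eventually_const_lt h] with w hw using Or.inr hw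
      have h1 : (FF n ψ η Γ j) =ᶠ[𝓝 c] fun _ => (0:ℂ) := by
        filter_upwards [hev] with w hw
        unfold FF chi
        rw [psi_zero ha hb hψ.z1 hψ.z2 hw]
        simp
      exact (hasFDerivAt_const (0:ℂ) c).congr_of_eventuallyEq h1
    · have h1 : c ∉ Ann n a b := by
        rintro ⟨h1, h2⟩
        rcases hout with h | h <;> linarith
      rw [indicator_of_notMem h1]
      unfold chi
      rw [psi_zero ha hb hψ.z1 hψ.z2 hout]
      simp
  push Not at hout
  obtain ⟨hY1, hY2⟩ := hout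
  have hmem : c ∈ Ann n a b := ⟨hY1, hY2⟩
  have hY20 : 20 ≤ Y n c := by linarith
  have ht := T.t c hY2
  obtain ⟨hA, hX⟩ := nz_of_tower T.hn hY20 ht
  have hc := Y_pos_ne T.hn hY20
  rw [indicator_of_mem hmem]
  have he0 : 0 ≤ 2 * C * ((2 * Cψ + 2 * C * j + 16) / a) := by positivity
  by_cases hcos : ∀ i < j, δ ≤ Real.cos (X n c (i + 1)).arg
  · obtain ⟨D, hD, hD1, hD2⟩ := FF_point2 T.hn hY20 (hY2.trans T.hbn) hj ht hδ hψ.d hψ.n0 hψ.n1
      hη hp hη0 hη1 hC hΓ hpΓ hΓC hcos
    refine ⟨D, hD, hD1.trans ?_, hD2.trans ?_⟩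
    · have h1 : |κ (X n c (j + 1)).arg - m| ≤ 1 := by
        rw [abs_le]
        constructor
        · linarith [hκ0 (X n c (j + 1)).arg]
        · linarith [hκ1 (X n c (j + 1)).arg]
      have h2 : C * (|ψ' (Real.log (Y n c))| + C * j) ≤ C * (Cψ + C * j) :=
        mul_le_mul_of_nonneg_left (by linarith [hψ.b (Real.log (Y n c))]) hC0
      linarith
    · apply mul_le_mul_of_nonneg_left _ (by positivity)
      apply div_le_div₀ (by positivity) (by linarith [hψ.b (Real.log (Y n c))]) (by linarith) hY1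
  · push Not at hcos
    obtain ⟨i, hij, hi⟩ := hcos
    have hder : HasDerivAt (fun c => X n c (i + 1)) (X n c (i + 1) * L n c (i + 1)) c :=
      (Pool.Agent.W366.MB.main n T.hn c (i + 1) hc (fun i' hi' => hA i' (by omega))).1
    have hcont : ContinuousAt (fun w => Real.cos (X n w (i + 1)).arg) c :=
      (hasFDerivAt_arg_X (γ := Real.cos) (g := fun t => -Real.sin t) Real.hasDerivAt_cos
        Real.cos_add_two_pi (X := fun c => X n c (i + 1)) (hX (i + 1) (by omega) (by omega))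
        hder).continuousAt
    have hchi : ∀ w : ℂ, Real.cos (X n w (i + 1)).arg < δ → chi n ψ η j w = 0 := by
      intro w hw
      unfold chi
      rw [Finset.prod_eq_zero (Finset.mem_range.mpr hij) (hηz _ hw), mul_zero]
    refine ⟨0, ?_, by simpa using hB, ?_⟩
    · have h1 : (FF n ψ η Γ j) =ᶠ[𝓝 c] fun _ => (0:ℂ) := by
        filter_upwards [hcont.eventually_lt_const hi] with w hw
        unfold FF
        rw [hchi w hw]
        simp
      exact (hasFDerivAt_const (0:ℂ) c).congr_of_eventuallyEq h1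
    · rw [hchi c hi]
      simpa using he0

theorem chi_integrable2 {n : ℕ} (hn : 2 ≤ n) {a b τ : ℝ} (ha : 20 ≤ a) (hb : 20 ≤ b)
    (h2 : b ≤ n) {ψ ψ' η : ℝ → ℝ} {Cψ : ℝ}
    (hψ : Cut2 (Real.log a) (Real.log b) τ Cψ ψ ψ') (hη : Continuous η)
    (hη0 : ∀ t, 0 ≤ η t) (hη1 : ∀ t, η t ≤ 1) (j : ℕ) {u : ℂ → ℝ} (hu : Measurable u)
    (hu1 : ∀ c, |u c| ≤ 1) :
    Integrable (fun c => u c * chi n ψ η j c) := by
  have hψc : Continuous ψ := by
    rw [continuous_iff_continuousAt]; intro t; exact (hψ.d t).continuousAt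
  have hmeas : Measurable (fun c => u c * chi n ψ η j c) := hu.mul (chi_measurable hψc hη j)
  refine integrable_of_ann hn (a := a) (b := b) h2 (B := 1) hmeas ?_ ?_
  · intro c
    rw [abs_mul, abs_of_nonneg (chi_nonneg hψ.n0 hη0 j c)]
    exact mul_le_one₀ (hu1 c) (chi_nonneg hψ.n0 hη0 j c) (chi_le_one hψ.n0 hψ.n1 hη0 hη1 j c)
  · intro c hc
    have : Y n c < a ∨ b < Y n c := by
      by_contra hcon
      push Not at hcon
      exact hc ⟨hcon.1, hcon.2⟩
    unfold chi
    rw [psi_zero ha hb hψ.z1 hψ.z2 this]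
    simp

theorem split_int {f : ℂ → ℝ} {g : ℂ → ℝ} {m : ℝ} (h1 : Integrable fun c => f c * g c)
    (h2 : Integrable g) :
    ∫ c, (f c - m) * g c = (∫ c, f c * g c) - m * ∫ c, g c := by
  rw [← integral_const_mul, ← integral_sub h1 (h2.const_mul m)]
  congr 1
  funext c
  ring

/-- the integration by parts, for `j ≥ 1` -/
theorem ibp2 {n j : ℕ} (hj : 1 ≤ j) {a b : ℝ} (T : Tow2 n j a b) {ψ ψ' η η' κ Γ : ℝ → ℝ}
    {C Cψ δ τ m : ℝ}
    (hδ : 0 < δ) (hψ : Cut2 (Real.log a) (Real.log b) τ Cψ ψ ψ')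
    (hη : ∀ t, HasDerivAt η (η' t) t) (hp : ∀ t, η (t + 2 * Real.pi) = η t)
    (hη0 : ∀ t, 0 ≤ η t) (hη1 : ∀ t, η t ≤ 1) (hC : ∀ t, |η' t| ≤ C)
    (hηz : ∀ t, Real.cos t < δ → η t = 0)
    (hκ : Continuous κ)
    (hΓ : ∀ t, HasDerivAt Γ (κ t - m) t) (hpΓ : ∀ t, Γ (t + 2 * Real.pi) = Γ t)
    (hΓC : ∀ t, |Γ t| ≤ C) (hκ0 : ∀ t, 0 ≤ κ t) (hκ1 : ∀ t, κ t ≤ 1) (hm0 : 0 ≤ m) (hm1 : m ≤ 1) :
    |(∫ c, κ (X n c (j + 1)).arg * chi n ψ η j c) - m * ∫ c, chi n ψ η j c| ≤
      2 * C * ((2 * Cψ + 2 * C * j + 16) / a) * (volume (Ann n a b)).toReal := by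
  have ha := T.ha
  have hb : 20 ≤ b := ha.trans T.hab
  have hn := T.hn
  have hbn := T.hbn
  have hηc : Continuous η := by
    rw [continuous_iff_continuousAt]; intro t; exact (hη t).continuousAt
  have hall := FF_all2 hj T hδ hψ hη hp hη0 hη1 hC hηz hΓ hpΓ hΓC hκ0 hκ1 hm0 hm1
  set B := 1 + C * (Cψ + C * j) + C with hBdef
  have hdiff : Differentiable ℝ (FF n ψ η Γ j) := fun c => by
    obtain ⟨D, hD, _⟩ := hall c
    exact hD.differentiableAt
  have hfd : ∀ c, ‖fderiv ℝ (FF n ψ η Γ j) c‖ ≤ B := by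
    intro c
    obtain ⟨D, hD, hD1, _⟩ := hall c
    rw [hD.fderiv]; exact hD1
  have hsupp : ∀ c : ℂ, 2 ≤ ‖c‖ → FF n ψ η Γ j c = 0 := by
    intro c hc
    have h1 : Y n c < a ∨ b < Y n c := by
      right
      by_contra hcon
      push Not at hcon
      have := norm_le_one_of_Y hn (hcon.trans hbn)
      linarith
    unfold FF chi
    rw [psi_zero ha hb hψ.z1 hψ.z2 h1]
    simp
  obtain ⟨i1, i2, i3⟩ := int_dbar_zero hdiff hsupp hfd
  set F' : ℂ → ℂ := fun c => fderiv ℝ (FF n ψ η Γ j) c 1 -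
    Complex.I * fderiv ℝ (FF n ψ η Γ j) c Complex.I with hF'
  have hF'int : Integrable F' := i1.sub (i2.const_mul _)
  set f : ℂ → ℝ := fun c => (κ (X n c (j + 1)).arg - m) * chi n ψ η j c with hf
  have harg : Measurable fun c => κ (X n c (j + 1)).arg :=
    hκ.measurable.comp (Complex.measurable_arg.comp (X_continuous n (j + 1)).measurable)
  have hargm : Measurable fun c => κ (X n c (j + 1)).arg - m := harg.sub measurable_const
  have hfint : Integrable f := by
    apply chi_integrable2 hn ha hb hbn hψ hηc hη0 hη1 j hargm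
    intro c
    rw [abs_le]
    constructor
    · linarith [hκ0 (X n c (j + 1)).arg]
    · linarith [hκ1 (X n c (j + 1)).arg]
  set e := 2 * C * ((2 * Cψ + 2 * C * j + 16) / a) with he
  have hEint : Integrable ((Ann n a b).indicator (fun _ => e)) := by
    rw [integrable_indicator_iff (Ann_meas n _ _)]
    exact integrableOn_const (Ann_ne_top hn hbn)
  have hbound : ∀ c, ‖F' c + Complex.I * ((f c : ℝ) : ℂ)‖ ≤
      (Ann n a b).indicator (fun _ => e) c := by
    intro c
    obtain ⟨D, hD, _, hD2⟩ := hall c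
    have h1 : F' c = D 1 - Complex.I * D Complex.I := by rw [hF']; simp only; rw [hD.fderiv]
    rw [h1]
    exact hD2
  have hIf : Integrable fun c => Complex.I * ((f c : ℝ) : ℂ) := hfint.ofReal.const_mul _
  have hkey : ‖∫ c, (F' c + Complex.I * ((f c : ℝ) : ℂ))‖ ≤
      ∫ c, (Ann n a b).indicator (fun _ => e) c :=
    norm_integral_le_of_norm_le hEint (Eventually.of_forall hbound)
  rw [integral_add hF'int hIf, i3, zero_add, integral_const_mul, norm_mul, Complex.norm_I,
    one_mul, integral_complex_ofReal, Complex.norm_real, Real.norm_eq_abs] at hkey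
  have g1 : Integrable fun c => κ (X n c (j + 1)).arg * chi n ψ η j c := by
    apply chi_integrable2 hn ha hb hbn hψ hηc hη0 hη1 j harg
    intro c
    rw [abs_of_nonneg (hκ0 _)]; exact hκ1 _
  have g2 : Integrable fun c => chi n ψ η j c := by
    have := chi_integrable2 hn ha hb hbn hψ hηc hη0 hη1 j
      (u := fun _ => (1:ℝ)) measurable_const (fun c => by simp)
    simpa using this
  have hs : ∫ c, f c = _ := split_int (m := m) g1 g2
  rw [hs] at hkey
  refine hkey.trans (le_of_eq ?_)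
  rw [integral_indicator_const _ (Ann_meas n _ _), smul_eq_mul, mul_comm, measureReal_def]

/-- the angular integration by parts: the first level is exactly equidistributed -/
theorem rot_zero {F : ℂ → ℝ} (hF : Differentiable ℝ F) {R B : ℝ}
    (hsupp : ∀ c, R ≤ ‖c‖ → F c = 0) (hB : ∀ c, ‖fderiv ℝ F c‖ ≤ B) :
    ∫ c, (c.re * fderiv ℝ F c Complex.I - c.im * fderiv ℝ F c 1) = 0 := by
  have hcs : HasCompactSupport F := by
    apply HasCompactSupport.intro (isCompact_closedBall (0:ℂ) R)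
    intro x hx
    apply hsupp
    rw [Metric.mem_closedBall, dist_zero_right] at hx
    linarith
  have hcs' : HasCompactSupport (fderiv ℝ F) := hcs.fderiv (𝕜 := ℝ)
  have hK : IsCompact (tsupport (fderiv ℝ F)) := hcs'
  obtain ⟨R', hR'⟩ := hK.isBounded.exists_norm_le
  have hint : ∀ (v : ℂ) (u : ℂ →L[ℝ] ℝ), Integrable (fun c => u c * fderiv ℝ F c v) := by
    intro v u
    have hm : Measurable (fun c => u c * fderiv ℝ F c v) :=
      u.continuous.measurable.mul (measurable_fderiv_apply_const ℝ F v)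
    have h1 : IntegrableOn (fun c => u c * fderiv ℝ F c v) (tsupport (fderiv ℝ F)) := by
      apply Measure.integrableOn_of_bounded (M := ‖u‖ * R' * (B * ‖v‖)) hK.measure_lt_top.ne
        hm.aestronglyMeasurable
      have hms : MeasurableSet (tsupport (fderiv ℝ F)) := (isClosed_tsupport _).measurableSet
      filter_upwards [ae_restrict_mem hms] with c hc
      rw [norm_mul]
      have e1 : ‖u c‖ ≤ ‖u‖ * R' := (u.le_opNorm c).trans
        (mul_le_mul_of_nonneg_left (hR' c hc) (norm_nonneg _))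
      have e2 : ‖fderiv ℝ F c v‖ ≤ B * ‖v‖ := ((fderiv ℝ F c).le_opNorm v).trans
        (mul_le_mul_of_nonneg_right (hB c) (norm_nonneg v))
      exact mul_le_mul e1 e2 (norm_nonneg _) ((norm_nonneg _).trans e1)
    rw [integrableOn_iff_integrable_of_support_subset] at h1
    · exact h1
    · intro c hc
      apply subset_tsupport
      rw [Function.mem_support] at hc ⊢
      intro h0
      apply hc
      rw [h0]; simp
  have hFc : Continuous F := hF.continuous
  have hz : ∀ (v : ℂ) (u : ℂ →L[ℝ] ℝ), u v = 0 → ∫ c, u c * fderiv ℝ F c v = 0 := by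
    intro v u huv
    have h1 := integral_mul_fderiv_eq_neg_fderiv_mul_of_integrable (μ := (volume : Measure ℂ))
      (𝕜 := ℝ) (f := fun c : ℂ => u c) (g := F) (v := v)
      (by simp [huv])
      (hint v u)
      ((u.continuous.mul hFc).integrable_of_hasCompactSupport hcs.mul_left)
      (fun x _ => u.differentiableAt) (fun x _ => hF x)
    rw [h1]
    simp [huv]
  have h0 := integral_sub (hint Complex.I Complex.reCLM) (hint 1 Complex.imCLM)
  simp only [Complex.reCLM_apply, Complex.imCLM_apply] at h0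
  rw [h0]
  have e1 := hz Complex.I Complex.reCLM (by simp)
  have e2 := hz 1 Complex.imCLM (by simp)
  simp only [Complex.reCLM_apply, Complex.imCLM_apply] at e1 e2
  rw [e1, e2, sub_zero]

theorem rot0 {n : ℕ} {a b : ℝ} (T : Tow2 n 0 a b) {ψ ψ' η κ Γ : ℝ → ℝ}
    {C Cψ τ m : ℝ} (hψ : Cut2 (Real.log a) (Real.log b) τ Cψ ψ ψ')
    (hη : Continuous η) (hη0 : ∀ t, 0 ≤ η t) (hη1 : ∀ t, η t ≤ 1)
    (hκ : Continuous κ)
    (hΓ : ∀ t, HasDerivAt Γ (κ t - m) t) (hpΓ : ∀ t, Γ (t + 2 * Real.pi) = Γ t)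
    (hΓC : ∀ t, |Γ t| ≤ C) (hκ0 : ∀ t, 0 ≤ κ t) (hκ1 : ∀ t, κ t ≤ 1) (hm0 : 0 ≤ m) (hm1 : m ≤ 1) :
    ∫ c, κ (X n c 1).arg * chi n ψ η 0 c = m * ∫ c, chi n ψ η 0 c := by
  have ha := T.ha
  have hb : 20 ≤ b := ha.trans T.hab
  have hn := T.hn
  have hbn := T.hbn
  have hnr : (2:ℝ) ≤ n := by exact_mod_cast hn
  have hC0 : 0 ≤ C := (abs_nonneg _).trans (hΓC 0)
  have hCψ : 0 ≤ Cψ := (abs_nonneg _).trans (hψ.b 0)
  have hYc : Continuous fun c => Y n c := Y_continuous n
  set F : ℂ → ℝ := fun c => Γ (X n c 1).arg * ψ (Real.log (Y n c)) with hF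
  -- derivative
  have hall : ∀ c : ℂ, ∃ D : ℂ →L[ℝ] ℝ, HasFDerivAt F D c ∧ ‖D‖ ≤ (1 + C * Cψ) * (n / (20 / n)) ∧
      c.re * D Complex.I - c.im * D 1 =
        ((n:ℝ) - 1) * ((κ (X n c 1).arg - m) * ψ (Real.log (Y n c))) := by
    intro c
    by_cases hout : Y n c < a ∨ b < Y n c
    · refine ⟨0, ?_, ?_, ?_⟩
      · have hev : ∀ᶠ w in 𝓝 c, Y n w < a ∨ b < Y n w := by
          rcases hout with h | h
          · filter_upwards [hYc.continuousAt.eventually_lt_const h] with w hw using Or.inl hw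
          · filter_upwards [hYc.continuousAt.eventually_const_lt h] with w hw using Or.inr hw
        have h1 : F =ᶠ[𝓝 c] fun _ => (0:ℝ) := by
          filter_upwards [hev] with w hw
          rw [hF]
          simp only
          rw [psi_zero ha hb hψ.z1 hψ.z2 hw, mul_zero]
        exact (hasFDerivAt_const (0:ℝ) c).congr_of_eventuallyEq h1
      · rw [norm_zero]; positivity
      · rw [psi_zero ha hb hψ.z1 hψ.z2 hout]; simp
    · push Not at hout
      have hY20 : 20 ≤ Y n c := by linarith [hout.1]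
      have hc := Y_pos_ne hn hY20
      have hX : X n c 1 ≠ 0 := by
        rw [← norm_pos_iff, norm_X1]; linarith
      have hder : HasDerivAt (fun c => X n c 1) (X n c 1 * L n c 1) c :=
        (Pool.Agent.W366.MB.main n hn c 1 hc (fun i hi => by
          obtain rfl : i = 0 := by omega
          simp [A, X])).1
      have h1 := hasFDerivAt_arg_X hΓ hpΓ (X := fun c => X n c 1) hX hder
      have h2 := hasFDerivAt_lognorm_X (X := fun c => X n c 1) hX hder
      have h3 := (hψ.d _).comp_hasFDerivAt c h2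
      have h4 : HasFDerivAt (fun c => ψ (Real.log (Y n c)))
          (ψ' (Real.log ‖X n c 1‖) • (Complex.reCLM.comp ((L n c 1 : ℂ) •
            (ContinuousLinearMap.id ℝ ℂ)))) c := by
        refine h3.congr_of_eventuallyEq ?_
        filter_upwards with w
        simp [norm_X1]
      have h5 := h1.mul h4
      refine ⟨_, h5, ?_, ?_⟩
      · -- norm bound
        have hL : ‖L n c 1‖ ≤ n / (20 / n) := by
          rw [norm_L1 hn]
          have hc1 : 20 / n ≤ ‖c‖ := by
            have hn0 : (0:ℝ) < n := by linarith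
            rw [div_le_iff₀ hn0]
            have hle1 : ‖c‖ ≤ 1 := norm_le_one_of_Y hn (hout.2.trans hbn)
            have : ‖c‖ ^ (n - 1) ≤ ‖c‖ := by
              calc ‖c‖ ^ (n - 1) ≤ ‖c‖ ^ 1 :=
                    pow_le_pow_of_le_one (norm_nonneg _) hle1 (by omega)
                _ = ‖c‖ := pow_one _
            unfold Y at hY20
            nlinarith
          have hn0 : (0:ℝ) < n := by linarith
          apply div_le_div₀ hn0.le (by linarith) (by positivity) hc1
        have hk : |κ (X n c 1).arg - m| ≤ 1 := by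
          rw [abs_le]
          constructor
          · linarith [hκ0 (X n c 1).arg]
          · linarith [hκ1 (X n c 1).arg]
        refine (norm_add_le _ _).trans ?_
        rw [norm_smul, norm_smul, norm_smul, norm_smul, Real.norm_eq_abs, Real.norm_eq_abs,
          Real.norm_eq_abs, Real.norm_eq_abs, abs_of_nonneg (hψ.n0 _)]
        have e1 : |Γ (X n c 1).arg| * (|ψ' (Real.log ‖X n c 1‖)| *
            ‖(Complex.reCLM.comp ((L n c 1 : ℂ) • (ContinuousLinearMap.id ℝ ℂ)))‖) ≤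
            C * (Cψ * (n / (20 / n))) :=
          mul_le_mul (hΓC _) (mul_le_mul (hψ.b _) ((norm_re_comp_le _).trans hL)
            (norm_nonneg _) hCψ) (by positivity) hC0
        have e2 : ψ (Real.log (Y n c)) * (|κ (X n c 1).arg - m| *
            ‖(Complex.imCLM.comp ((L n c 1 : ℂ) • (ContinuousLinearMap.id ℝ ℂ)))‖) ≤
            1 * (1 * (n / (20 / n))) :=
          mul_le_mul (hψ.n1 _) (mul_le_mul hk ((norm_im_comp_le _).trans hL)
            (norm_nonneg _) (by norm_num)) (by positivity) (by norm_num)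
        have e3 : (1 + C * Cψ) * ((n:ℝ) / (20 / n)) = C * (Cψ * (n / (20 / n))) +
          1 * (1 * (n / (20 / n))) := by ring
        rw [e3]
        exact add_le_add e1 e2
      · simp only [_root_.add_apply, _root_.smul_apply,
          ContinuousLinearMap.comp_apply, ContinuousLinearMap.id_apply, smul_eq_mul,
          Complex.imCLM_apply, Complex.reCLM_apply, mul_one]
        have hLc : L n c 1 * c = (n:ℂ) - 1 := by
          rw [Pool.Agent.W216.MB.BAS.L1]; field_simp
        have r1 : (L n c 1).re * c.re - (L n c 1).im * c.im = (n:ℝ) - 1 := by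
          have := congrArg Complex.re hLc
          simpa [Complex.mul_re] using this
        have r2 : (L n c 1).re * c.im + (L n c 1).im * c.re = 0 := by
          have := congrArg Complex.im hLc
          simpa [Complex.mul_im] using this
        have s1 : (L n c 1 * Complex.I).re = -(L n c 1).im := by simp
        have s2 : (L n c 1 * Complex.I).im = (L n c 1).re := by simp
        rw [s1, s2]
        linear_combination ((κ (X n c 1).arg - m) * ψ (Real.log (Y n c))) * r1 -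
          (Γ (X n c 1).arg * ψ' (Real.log ‖X n c 1‖)) * r2
  have hdiff : Differentiable ℝ F := fun c => by
    obtain ⟨D, hD, _⟩ := hall c
    exact hD.differentiableAt
  have hfd : ∀ c, ‖fderiv ℝ F c‖ ≤ (1 + C * Cψ) * (n / (20 / n)) := by
    intro c
    obtain ⟨D, hD, hD1, _⟩ := hall c
    rw [hD.fderiv]; exact hD1
  have hsupp : ∀ c : ℂ, 2 ≤ ‖c‖ → F c = 0 := by
    intro c hc
    have h1 : Y n c < a ∨ b < Y n c := by
      right
      by_contra hcon
      push Not at hcon
      have := norm_le_one_of_Y hn (hcon.trans hbn)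
      linarith
    rw [hF]
    simp only
    rw [psi_zero ha hb hψ.z1 hψ.z2 h1, mul_zero]
  have key := rot_zero hdiff hsupp hfd
  have hfun : (fun c : ℂ => c.re * fderiv ℝ F c Complex.I - c.im * fderiv ℝ F c 1) =
      fun c => ((n:ℝ) - 1) * ((κ (X n c 1).arg - m) * chi n ψ η 0 c) := by
    funext c
    obtain ⟨D, hD, _, hD2⟩ := hall c
    rw [hD.fderiv, hD2]
    unfold chi
    simp
  rw [hfun, integral_const_mul] at key
  have hn1 : (n:ℝ) - 1 ≠ 0 := by linarith
  have key2 := (mul_eq_zero.1 key).resolve_left hn1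
  have harg : Measurable fun c => κ (X n c 1).arg :=
    hκ.measurable.comp (Complex.measurable_arg.comp (X_continuous n 1).measurable)
  have g1 : Integrable fun c => κ (X n c 1).arg * chi n ψ η 0 c := by
    apply chi_integrable2 hn ha hb hbn hψ hη hη0 hη1 0 harg
    intro c
    rw [abs_of_nonneg (hκ0 _)]; exact hκ1 _
  have g2 : Integrable fun c => chi n ψ η 0 c := by
    have := chi_integrable2 hn ha hb hbn hψ hη hη0 hη1 0
      (u := fun _ => (1:ℝ)) measurable_const (fun c => by simp)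
    simpa using this
  rw [split_int g1 g2] at key2
  linarith

end Pool.Agent.Q79.PL
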