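import Mathlib
import Pool.Agent.Q79.PerLawA

set_option autoImplicit false

open MeasureTheory Set Filter Topology

namespace Pool.Agent.Q79.PL

open Pool.Agent.W747.MB Pool.Agent.TH363.CD Pool.Agent.Q79.PA

/-- hypotheses for the combination -/
structure Dat2 (n k : ℕ) (a b δ T m C Cψ τ : ℝ) (η η' Γ ψ ψ' : ℝ → ℝ) : Prop where
  tow : Tow2 n k a b
  δ0 : 0 < δ
  δ1 : δ ≤ 1 / 10
  ang : Ang δ m C η η' Γ
  cut : Cut2 (Real.log a) (Real.log b) τ Cψ ψ ψ'
  big : Big δ T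
  Ta : T ≤ a
  t : ∀ c, Y n c ≤ b → ∀ i ≤ k, ‖X n c i‖ ≤ δ * n

/-- the error -/
noncomputable def err2 (n k : ℕ) (a b C Cψ : ℝ) : ℝ :=
  2 * C * ((2 * Cψ + 2 * C * k + 16) / a) * (volume (Ann n a b)).toReal

section

variable {n k : ℕ} {a b δ T m C Cψ τ : ℝ} {η η' Γ ψ ψ' : ℝ → ℝ}

theorem Dat2.ηc (h : Dat2 n k a b δ T m C Cψ τ η η' Γ ψ ψ') : Continuous η := by
  rw [continuous_iff_continuousAt]; intro t; exact (h.ang.d t).continuousAt

theorem Dat2.ψc (h : Dat2 n k a b δ T m C Cψ τ η η' Γ ψ ψ') : Continuous ψ := by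
  rw [continuous_iff_continuousAt]; intro t; exact (h.cut.d t).continuousAt

theorem Dat2.a0 (h : Dat2 n k a b δ T m C Cψ τ η η' Γ ψ ψ') : 0 < a := by
  have := h.tow.ha; linarith

theorem Dat2.b20 (h : Dat2 n k a b δ T m C Cψ τ η η' Γ ψ ψ') : 20 ≤ b :=
  h.tow.ha.trans h.tow.hab

theorem Dat2.Cψ0 (h : Dat2 n k a b δ T m C Cψ τ η η' Γ ψ ψ') : 0 ≤ Cψ :=
  (abs_nonneg _).trans (h.cut.b 0)

theorem err2_mono (hC : 0 ≤ C) (ha : 0 < a) {j : ℕ} (hj : j ≤ k) :
    err2 n j a b C Cψ ≤ err2 n k a b C Cψ := by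
  unfold err2
  have hjk : (j:ℝ) ≤ k := by exact_mod_cast hj
  have h0 : 0 ≤ (volume (Ann n a b)).toReal := ENNReal.toReal_nonneg
  gcongr

theorem Dat2.err0 (h : Dat2 n k a b δ T m C Cψ τ η η' Γ ψ ψ') : 0 ≤ err2 n k a b C Cψ := by
  unfold err2
  have := h.ang.C0
  have := h.Cψ0
  have := h.a0
  have h0 : 0 ≤ (volume (Ann n a b)).toReal := ENNReal.toReal_nonneg
  positivity

theorem Tow2.mono {j : ℕ} (h : Tow2 n k a b) (hj : j ≤ k) : Tow2 n j a b :=
  ⟨h.hn, h.ha, h.hab, h.hbn, fun c hc i hi => h.t c hc i (by omega)⟩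

/-- the two instances of the integration by parts -/
theorem Dat2.step (h : Dat2 n k a b δ T m C Cψ τ η η' Γ ψ ψ') {j : ℕ} (hj : j ≤ k) :
    |(∫ c, η (X n c (j + 1)).arg * chi n ψ η j c) - m * ∫ c, chi n ψ η j c| ≤
      err2 n k a b C Cψ ∧
    |(∫ c, η ((X n c (j + 1)).arg + Real.pi) * chi n ψ η j c) - m * ∫ c, chi n ψ η j c| ≤
      err2 n k a b C Cψ := by
  have hm := err2_mono (n := n) (b := b) (Cψ := Cψ) h.ang.C0 h.a0 hj
  have hang := h.ang
  have hGd : ∀ t, HasDerivAt (fun t => Γ (t + Real.pi)) (η (t + Real.pi) - m) t := fun t =>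
    (hang.dG (t + Real.pi)).comp_add_const t Real.pi
  have hGp : ∀ t, (fun t => Γ (t + Real.pi)) (t + 2 * Real.pi) = (fun t => Γ (t + Real.pi)) t := by
    intro t
    have : t + 2 * Real.pi + Real.pi = (t + Real.pi) + 2 * Real.pi := by ring
    simp only [this, hang.pG]
  have hκc : Continuous fun t => η (t + Real.pi) := h.ηc.comp (continuous_id.add continuous_const)
  rcases Nat.eq_zero_or_pos j with h0 | h0
  · subst h0
    have T0 := h.tow.mono (Nat.zero_le k)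
    constructor
    · rw [rot0 T0 h.cut h.ηc hang.n0 hang.n1 h.ηc hang.dG hang.pG hang.bG hang.n0 hang.n1
        hang.m0 hang.m1, sub_self, abs_zero]
      exact h.err0
    · rw [rot0 T0 h.cut h.ηc hang.n0 hang.n1 (κ := fun t => η (t + Real.pi))
        (Γ := fun t => Γ (t + Real.pi)) hκc hGd hGp (fun t => hang.bG _) (fun t => hang.n0 _)
        (fun t => hang.n1 _) hang.m0 hang.m1, sub_self, abs_zero]
      exact h.err0
  · constructor
    · refine le_trans ?_ hm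
      exact ibp2 h0 (h.tow.mono hj) h.δ0 h.cut hang.d hang.p hang.n0 hang.n1 hang.b hang.z h.ηc
        hang.dG hang.pG hang.bG hang.n0 hang.n1 hang.m0 hang.m1
    · refine le_trans ?_ hm
      exact ibp2 h0 (h.tow.mono hj) h.δ0 h.cut hang.d hang.p hang.n0 hang.n1 hang.b hang.z
        (κ := fun t => η (t + Real.pi)) (Γ := fun t => Γ (t + Real.pi)) hκc hGd hGp
        (fun t => hang.bG _) (fun t => hang.n0 _) (fun t => hang.n1 _) hang.m0 hang.m1

theorem Dat2.I_ge (h : Dat2 n k a b δ T m C Cψ τ η η' Γ ψ ψ') (j : ℕ) (hj : j ≤ k + 1) :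
    m ^ j * (∫ c, chi n ψ η 0 c) - j * err2 n k a b C Cψ ≤ ∫ c, chi n ψ η j c := by
  induction j with
  | zero => simp
  | succ j ih =>
    have h1 := ih (by omega)
    have h2 := (h.step (j := j) (by omega)).1
    rw [← Dat.I_succ (n := n) (ψ := ψ) (η := η) j] at h2
    rw [abs_le] at h2
    have hm0 := h.ang.m0
    have hm1 := h.ang.m1
    have he := h.err0
    have h3 := mul_le_mul_of_nonneg_left h1 hm0
    have h4 : m * (j * err2 n k a b C Cψ) ≤ 1 * (j * err2 n k a b C Cψ) :=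
      mul_le_mul_of_nonneg_right hm1 (by positivity)
    push_cast
    rw [pow_succ]
    nlinarith [h2.1]

theorem Dat2.J_ge (h : Dat2 n k a b δ T m C Cψ τ η η' Γ ψ ψ') (j : ℕ) (hj : j ≤ k) :
    m ^ (j + 1) * (∫ c, chi n ψ η 0 c) - (j + 1) * err2 n k a b C Cψ ≤
      ∫ c, η ((X n c (j + 1)).arg + Real.pi) * chi n ψ η j c := by
  have h1 := h.I_ge j (by omega)
  have h2 := (h.step (j := j) hj).2
  rw [abs_le] at h2
  have hm0 := h.ang.m0
  have hm1 := h.ang.m1
  have he := h.err0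
  have h3 := mul_le_mul_of_nonneg_left h1 hm0
  have h4 : m * (j * err2 n k a b C Cψ) ≤ 1 * (j * err2 n k a b C Cψ) :=
    mul_le_mul_of_nonneg_right hm1 (by positivity)
  rw [pow_succ]
  nlinarith [h2.1]

theorem Dat2.I_zero (h : Dat2 n k a b δ T m C Cψ τ η η' Γ ψ ψ') (hτ : 0 ≤ τ) :
    (volume (Ann n (a * Real.exp τ) (b / Real.exp τ))).toReal ≤ ∫ c, chi n ψ η 0 c := by
  have ha := h.tow.ha
  have hb := h.b20
  have hn := h.tow.hn
  have hbn := h.tow.hbn
  have he1 : (1:ℝ) ≤ Real.exp τ := Real.one_le_exp hτ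
  have ha0 : 0 < a := by linarith
  have hb0 : 0 < b := by linarith
  have hbn' : b / Real.exp τ ≤ n := (div_le_self hb0.le he1).trans hbn
  have hint : Integrable (fun c => chi n ψ η 0 c) := by
    have := chi_integrable2 hn ha hb hbn h.cut h.ηc h.ang.n0 h.ang.n1 0
      (u := fun _ => (1:ℝ)) measurable_const (fun c => by simp)
    simpa using this
  have hind : Integrable ((Ann n (a * Real.exp τ) (b / Real.exp τ)).indicator
      (fun _ => (1:ℝ))) := by
    rw [integrable_indicator_iff (Ann_meas n _ _)]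
    exact integrableOn_const (Ann_ne_top hn hbn')
  have h1 : ∫ c, (Ann n (a * Real.exp τ) (b / Real.exp τ)).indicator (fun _ => (1:ℝ)) c ≤
      ∫ c, chi n ψ η 0 c := by
    apply integral_mono hind hint
    intro c
    simp only
    by_cases hc : c ∈ Ann n (a * Real.exp τ) (b / Real.exp τ)
    · rw [indicator_of_mem hc]
      unfold chi
      obtain ⟨c1, c2⟩ := hc
      have hY0 : 0 < Y n c := lt_of_lt_of_le (by positivity) c1
      rw [h.cut.o]
      · simp
      · have := Real.log_le_log (by positivity) c1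
        rwa [Real.log_mul ha0.ne' (Real.exp_pos _).ne', Real.log_exp] at this
      · have := Real.log_le_log hY0 c2
        rwa [Real.log_div hb0.ne' (Real.exp_pos _).ne', Real.log_exp] at this
    · rw [indicator_of_notMem hc]
      exact chi_nonneg h.cut.n0 h.ang.n0 0 c
  rw [integral_indicator_const _ (Ann_meas n _ _)] at h1
  simpa [measureReal_def] using h1

theorem Dat2.mem_of_ne (h : Dat2 n k a b δ T m C Cψ τ η η' Γ ψ ψ') {j : ℕ} {c : ℂ}
    (hc : chi n ψ η j c ≠ 0) :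
    c ∈ Ann n a b ∧ ∀ i < j, δ ≤ Real.cos (X n c (i + 1)).arg := by
  have ha := h.tow.ha
  have hb := h.b20
  constructor
  · by_contra hcon
    apply hc
    have : Y n c < a ∨ b < Y n c := by
      by_contra h2
      push Not at h2
      exact hcon ⟨h2.1, h2.2⟩
    unfold chi
    rw [psi_zero ha hb h.cut.z1 h.cut.z2 this, zero_mul]
  · intro i hi
    by_contra hcon
    push Not at hcon
    apply hc
    unfold chi
    rw [Finset.prod_eq_zero (Finset.mem_range.mpr hi) (h.ang.z _ hcon), mul_zero]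

/-- the parameters with an attracting cycle of exact period `j + 2` -/
theorem Dat2.mem_Ex (h : Dat2 n k a b δ T m C Cψ τ η η' Γ ψ ψ') {j : ℕ} (hj : j + 1 ≤ k) {c : ℂ}
    (hc : η ((X n c (j + 1)).arg + Real.pi) * chi n ψ η j c ≠ 0) :
    c ∈ Ex n (j + 2) := by
  obtain ⟨h1, h2⟩ := h.mem_of_ne (right_ne_zero_of_mul hc)
  have h3 : η ((X n c (j + 1)).arg + Real.pi) ≠ 0 := left_ne_zero_of_mul hc
  apply attracted h.tow.hn h.δ0 h.δ1 h.big (h.Ta.trans h1.1) j
    (fun i hi => h.t c h1.2 i (by omega)) h2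
  by_contra hcon
  push Not at hcon
  apply h3
  apply h.ang.z
  rw [Real.cos_add_pi]
  linarith

/-- the sum of the disjoint pieces -/
noncomputable def PF (n : ℕ) (ψ η : ℝ → ℝ) (F : Finset ℕ) (c : ℂ) : ℝ :=
  ∑ j ∈ F, η ((X n c (j + 1)).arg + Real.pi) * chi n ψ η j c

theorem Dat2.PF_le (h : Dat2 n k a b δ T m C Cψ τ η η' Γ ψ ψ') {K : ℕ} {F : Finset ℕ}
    (hF : F ⊆ Finset.range K) (c : ℂ) :
    PF n ψ η F c ≤ chi n ψ η 0 c := by
  have key : ∀ K, ∑ j ∈ Finset.range K, η ((X n c (j + 1)).arg + Real.pi) * chi n ψ η j c +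
      chi n ψ η K c ≤ chi n ψ η 0 c := by
    intro K
    induction K with
    | zero => simp
    | succ K ih =>
      rw [Finset.sum_range_succ, chi_succ]
      have h1 := h.ang.disj h.δ0 (X n c (K + 1)).arg
      have h2 := chi_nonneg (n := n) h.cut.n0 h.ang.n0 K c
      nlinarith
  have h1 := key K
  have h2 := chi_nonneg (n := n) h.cut.n0 h.ang.n0 K c
  have h3 : PF n ψ η F c ≤
      ∑ j ∈ Finset.range K, η ((X n c (j + 1)).arg + Real.pi) * chi n ψ η j c := by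
    unfold PF
    apply Finset.sum_le_sum_of_subset_of_nonneg hF
    intro j _ _
    exact mul_nonneg (h.ang.n0 _) (chi_nonneg h.cut.n0 h.ang.n0 j c)
  linarith

theorem Dat2.PF_nonneg (h : Dat2 n k a b δ T m C Cψ τ η η' Γ ψ ψ') (F : Finset ℕ) (c : ℂ) :
    0 ≤ PF n ψ η F c :=
  Finset.sum_nonneg fun j _ => mul_nonneg (h.ang.n0 _) (chi_nonneg h.cut.n0 h.ang.n0 j c)

theorem Dat2.PF_term_int (h : Dat2 n k a b δ T m C Cψ τ η η' Γ ψ ψ') (j : ℕ) :
    Integrable fun c => η ((X n c (j + 1)).arg + Real.pi) * chi n ψ η j c := by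
  have hu : Measurable fun c => η ((X n c (j + 1)).arg + Real.pi) :=
    h.ηc.measurable.comp ((Complex.measurable_arg.comp
      (X_continuous n (j + 1)).measurable).add_const _)
  apply chi_integrable2 h.tow.hn h.tow.ha h.b20 h.tow.hbn h.cut h.ηc h.ang.n0 h.ang.n1 j hu
  intro c
  rw [abs_of_nonneg (h.ang.n0 _)]; exact h.ang.n1 _

theorem Dat2.PF_int (h : Dat2 n k a b δ T m C Cψ τ η η' Γ ψ ψ') (F : Finset ℕ) :
    Integrable (PF n ψ η F) := by
  unfold PF
  exact integrable_finsetSum _ fun j _ => h.PF_term_int j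

theorem Dat2.PF_meas (h : Dat2 n k a b δ T m C Cψ τ η η' Γ ψ ψ') (F : Finset ℕ) :
    Measurable (PF n ψ η F) := by
  unfold PF
  apply Finset.measurable_sum
  intro j _
  exact (h.ηc.measurable.comp ((Complex.measurable_arg.comp
      (X_continuous n (j + 1)).measurable).add_const _)).mul (chi_measurable h.ψc h.ηc j)

/-- the integral of the pieces -/
theorem Dat2.PF_ge (h : Dat2 n k a b δ T m C Cψ τ η η' Γ ψ ψ') {F : Finset ℕ}
    (hF : F ⊆ Finset.range k) :
    (∑ j ∈ F, m ^ (j + 1)) * (∫ c, chi n ψ η 0 c) - (k:ℝ) ^ 2 * err2 n k a b C Cψ ≤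
      ∫ c, PF n ψ η F c := by
  have he := h.err0
  have hint : ∫ c, PF n ψ η F c =
      ∑ j ∈ F, (∫ c, η ((X n c (j + 1)).arg + Real.pi) * chi n ψ η j c) := by
    unfold PF
    rw [integral_finsetSum _ fun j _ => h.PF_term_int j]
  have hsum : ∑ j ∈ F, (m ^ (j + 1) * (∫ c, chi n ψ η 0 c) -
      (k:ℝ) * err2 n k a b C Cψ) ≤
      ∑ j ∈ F, (∫ c, η ((X n c (j + 1)).arg + Real.pi) * chi n ψ η j c) := by
    apply Finset.sum_le_sum
    intro j hj
    have hj' := Finset.mem_range.1 (hF hj)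
    have h1 := h.J_ge j (by omega)
    have h2 : ((j:ℝ) + 1) * err2 n k a b C Cψ ≤ (k:ℝ) * err2 n k a b C Cψ := by
      apply mul_le_mul_of_nonneg_right _ he
      have : (j:ℝ) + 1 ≤ k := by exact_mod_cast hj'
      linarith
    linarith
  rw [Finset.sum_sub_distrib, ← Finset.sum_mul, Finset.sum_const, nsmul_eq_mul] at hsum
  have hcard : (F.card : ℝ) ≤ k := by
    have := Finset.card_le_card hF
    rw [Finset.card_range] at this
    exact_mod_cast this
  have h3 : (F.card : ℝ) * ((k:ℝ) * err2 n k a b C Cψ) ≤ k * ((k:ℝ) * err2 n k a b C Cψ) :=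
    mul_le_mul_of_nonneg_right hcard (by positivity)
  rw [hint]
  have e1 : (k:ℝ) ^ 2 * err2 n k a b C Cψ = k * ((k:ℝ) * err2 n k a b C Cψ) := by ring
  rw [e1]
  linarith

/-- lower bound -/
theorem Dat2.low (h : Dat2 n k a b δ T m C Cψ τ η η' Γ ψ ψ') {F : Finset ℕ}
    (hF : F ⊆ Finset.range k) {S : Set ℂ} (hS : ∀ j ∈ F, Ex n (j + 2) ∩ Ann n a b ⊆ S) :
    ENNReal.ofReal (∫ c, PF n ψ η F c) ≤ volume S := by
  apply vol_ge (h.PF_meas F) (h.PF_int F) (h.PF_nonneg F)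
  · intro c
    exact (h.PF_le hF c).trans (chi_le_one h.cut.n0 h.cut.n1 h.ang.n0 h.ang.n1 0 c)
  · intro c hc
    obtain ⟨j, hj, hjc⟩ := Finset.exists_ne_zero_of_sum_ne_zero hc
    have hj' := Finset.mem_range.1 (hF hj)
    exact hS j hj ⟨h.mem_Ex (by omega) hjc, (h.mem_of_ne (right_ne_zero_of_mul hjc)).1⟩

/-- upper bound -/
theorem Dat2.up (h : Dat2 n k a b δ T m C Cψ τ η η' Γ ψ ψ') {F : Finset ℕ}
    (hF : F ⊆ Finset.range k) {S : Set ℂ} (hSA : S ⊆ Ann n a b)
    (hS : ∀ j ∈ F, ∀ c ∈ S, c ∉ Ex n (j + 2)) :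
    volume S ≤ ENNReal.ofReal ((volume (Ann n a b)).toReal - ∫ c, PF n ψ η F c) := by
  apply vol_le (h.PF_meas F) (h.PF_int F) (h.PF_nonneg F) _ (Ann_meas n a b) hSA
  · intro c hc
    apply Finset.sum_eq_zero
    intro j hj
    by_contra hne
    have hj' := Finset.mem_range.1 (hF hj)
    exact hS j hj c hc (h.mem_Ex (by omega) hne)
  · intro c hc
    obtain ⟨j, hj, hjc⟩ := Finset.exists_ne_zero_of_sum_ne_zero hc
    exact (h.mem_of_ne (right_ne_zero_of_mul hjc)).1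
  · rw [ENNReal.ofReal_toReal (Ann_ne_top h.tow.hn h.tow.hbn)]
  · intro c
    exact (h.PF_le hF c).trans (chi_le_one h.cut.n0 h.cut.n1 h.ang.n0 h.ang.n1 0 c)

end

end Pool.Agent.Q79.PL
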