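import Mathlib
import Pool.Agent.Q79.PerLawB
import Pool.Agent.Q79.PerAreaI

set_option autoImplicit false

open MeasureTheory Set Filter Topology

namespace Pool.Agent.Q79.PL

open Pool.Agent.W747.MB Pool.Agent.TH363.CD Pool.Agent.Q79.PA

theorem exists_delta2 (K : ℕ) {ε : ℝ} (hε : 0 < ε) : ∃ δ : ℝ, 0 < δ ∧ δ ≤ 1 / 10 ∧
    ∀ F ⊆ Finset.range K, ∑ j ∈ F, (1 / 2 : ℝ) ^ (j + 1) - ε ≤ ∑ j ∈ F, (1 / 2 - δ) ^ (j + 1) := by
  have c1 : Tendsto (fun δ : ℝ => ∑ j ∈ Finset.range K, ((1 / 2 : ℝ) ^ (j + 1) -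
      (1 / 2 - δ) ^ (j + 1))) (𝓝[>] 0)
      (𝓝 (∑ j ∈ Finset.range K, ((1 / 2 : ℝ) ^ (j + 1) - (1 / 2 - 0) ^ (j + 1)))) := by
    apply Tendsto.mono_left _ nhdsWithin_le_nhds
    apply Continuous.tendsto (f := fun δ : ℝ => ∑ j ∈ Finset.range K, ((1 / 2 : ℝ) ^ (j + 1) -
      (1 / 2 - δ) ^ (j + 1)))
    fun_prop
  simp only [sub_zero, sub_self, Finset.sum_const_zero] at c1
  have h1 := c1.eventually_lt_const hε
  have h3 : ∀ᶠ δ : ℝ in 𝓝[>] 0, δ < 1 / 10 :=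
    (eventually_lt_nhds (by norm_num : (0:ℝ) < 1 / 10)).filter_mono nhdsWithin_le_nhds
  obtain ⟨δ, ⟨a1, a2⟩, a3⟩ := ((h1.and h3).and
    (self_mem_nhdsWithin : ∀ᶠ δ : ℝ in 𝓝[>] 0, δ ∈ Ioi (0:ℝ))).exists
  have a3' : 0 < δ := a3
  refine ⟨δ, a3', a2.le, ?_⟩
  intro F hF
  have h4 : ∑ j ∈ F, ((1 / 2 : ℝ) ^ (j + 1) - (1 / 2 - δ) ^ (j + 1)) ≤
      ∑ j ∈ Finset.range K, ((1 / 2 : ℝ) ^ (j + 1) - (1 / 2 - δ) ^ (j + 1)) := by
    apply Finset.sum_le_sum_of_subset_of_nonneg hF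
    intro j _ _
    have := pow_le_pow_left₀ (by linarith : (0:ℝ) ≤ 1 / 2 - δ) (by linarith : 1 / 2 - δ ≤ 1 / 2)
      (j + 1)
    linarith
  rw [Finset.sum_sub_distrib] at h4
  linarith

/-- the data exist for large `n` -/
theorem dat2_eventually (K : ℕ) {δ τ lam : ℝ} (h0 : 0 < δ) (h1 : δ ≤ 1 / 10) (hτ : 0 < τ)
    (hl : 1 < lam) :
    ∃ (m C Cψ T : ℝ), 1 / 2 - δ ≤ m ∧ m ≤ 1 ∧ 0 ≤ C ∧ 0 ≤ Cψ ∧ ∀ᶠ n : ℕ in atTop,
      ∀ Y : ℝ, T ≤ Y → lam * Y ≤ δ * Real.log^[K] (n:ℝ) →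
      ∃ η η' Γ ψ ψ' : ℝ → ℝ, Dat2 n (K + 1) Y (lam * Y) δ T m C Cψ τ η η' Γ ψ ψ' := by
  obtain ⟨m, C, η, η', Γ, hA, hm⟩ := exists_ang h0 (by linarith : δ ≤ 1 / 4)
  obtain ⟨Cψ, hCψ, hcut⟩ := exists_cut2 hτ
  obtain ⟨T, hT⟩ := exists_big h0
  refine ⟨m, C, Cψ, T, hm, hA.m1, hA.C0, hCψ, ?_⟩
  filter_upwards [iter_bound' h0 (by linarith : δ ≤ 1 / 4) K, eventually_ge_atTop 2]
    with n a1 a7
  intro Y hTY hY
  have hT1 := hT.1
  have hY1 : 1000 ≤ Y := hT1.trans hTY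
  set s := Real.log^[K] (n:ℝ) with hs
  have hbs : δ * s ≤ δ * n := (le_iter K _).trans a1
  have hnr : (2:ℝ) ≤ n := by exact_mod_cast a7
  have hYl : Y ≤ lam * Y := by nlinarith
  have hlevel : ∀ c, Pool.Agent.W747.MB.Y n c ≤ lam * Y → ∀ i ≤ K + 1, ‖X n c i‖ ≤ δ * n := by
    intro c hc i hi
    rcases Nat.eq_zero_or_pos i with h | h
    · subst h
      simp only [X, norm_zero]
      positivity
    · obtain ⟨j, rfl⟩ : ∃ j, i = j + 1 := ⟨i - 1, by omega⟩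
      have hb1 : 1 ≤ δ * s := by linarith
      exact (tower_bound a7 hb1 (hc.trans hY) j).trans ((tower_mono (by omega)).trans a1)
  have tow : Tow2 n (K + 1) Y (lam * Y) := by
    refine ⟨a7, by linarith, hYl, by nlinarith, ?_⟩
    intro c hc i hi
    refine (hlevel c hc i hi).trans ?_
    nlinarith
  obtain ⟨ψ, ψ', hψ⟩ := hcut (Real.log Y) (Real.log (lam * Y))
  exact ⟨η, η', Γ, ψ, ψ', tow, h0, h1, hA, hψ, hT, hTY, hlevel⟩

/-- the estimate of the pieces -/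
theorem pieces (K : ℕ) {ε lam : ℝ} (hε : 0 < ε) (hl : 1 < lam) :
    ∃ (δ Y0 : ℝ), 0 < δ ∧ ∀ᶠ n : ℕ in atTop, ∀ Y : ℝ, Y0 ≤ Y → lam * Y ≤ δ * Real.log^[K] (n:ℝ) →
      ∃ (T m C Cψ τ : ℝ) (η η' Γ ψ ψ' : ℝ → ℝ), Dat2 n (K + 1) Y (lam * Y) δ T m C Cψ τ η η' Γ ψ ψ' ∧
      ∀ F ⊆ Finset.range (K + 1), (∑ j ∈ F, (1 / 2 : ℝ) ^ (j + 1) - ε) *
        (volume (Ann n Y (lam * Y))).toReal ≤ ∫ c, PF n ψ η F c := by
  have hπ := Real.pi_pos
  obtain ⟨δ, h0, h1, hδ⟩ := exists_delta2 (K + 1) (ε := ε / 4) (by positivity)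
  have hll : 0 < Real.log lam := Real.log_pos hl
  set ε' := min (ε / 4) (1 / 2) with hε'
  have hε'0 : 0 < ε' := lt_min (by positivity) (by norm_num)
  have hε'1 : ε' ≤ ε / 4 := min_le_left _ _
  have hε'2 : ε' ≤ 1 / 2 := min_le_right _ _
  set τ := ε' * Real.log lam / 2 with hτd
  have hτ : 0 < τ := by positivity
  obtain ⟨m, C, Cψ, T, hm, hm1, hC, hCψ, hdat⟩ := dat2_eventually K h0 h1 hτ hl
  set R := ((K:ℝ) + 1) ^ 2 * (2 * C * (2 * Cψ + 2 * C * (K + 1) + 16)) with hR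
  have hR0 : 0 ≤ R := by positivity
  refine ⟨δ, max T (max 1 (R / (ε / 4))), h0, ?_⟩
  have hexp : Tendsto (fun n : ℕ => Real.exp (-(2 * (Real.log n / ((n:ℝ) - 1))))) atTop
      (𝓝 (Real.exp (-(2 * 0)))) :=
    (Real.continuous_exp.tendsto _).comp ((log_n_tendsto.const_mul 2).neg)
  have hev := hexp.eventually_const_lt (show 1 - ε / 4 < Real.exp (-(2 * 0)) by
    rw [mul_zero, neg_zero, Real.exp_zero]; linarith)
  filter_upwards [hdat, hev, eventually_ge_atTop 2] with n a1 a2 a3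
  intro Y hY hYn
  have hYT : T ≤ Y := (le_max_left _ _).trans hY
  have hY1 : 1 ≤ Y := ((le_max_left _ _).trans (le_max_right _ _)).trans hY
  have hYR : R / (ε / 4) ≤ Y := ((le_max_right _ _).trans (le_max_right _ _)).trans hY
  obtain ⟨η, η', Γ, ψ, ψ', hd⟩ := a1 Y hYT hYn
  refine ⟨T, m, C, Cψ, τ, η, η', Γ, ψ, ψ', hd, ?_⟩
  intro F hF
  have hnr : (2:ℝ) ≤ n := by exact_mod_cast a3
  have hn1 : (0:ℝ) < (n:ℝ) - 1 := by linarith
  have hY0 : 0 < Y := by linarith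
  have hbn := hd.tow.hbn
  set V := (volume (Ann n Y (lam * Y))).toReal with hV
  have hV0 : 0 ≤ V := ENNReal.toReal_nonneg
  -- upper bound of `V`
  have hV1 : V ≤ 2 * Real.pi * Real.log lam / (n - 1) := by
    have h2 := (vol_Ann_bounds a3 hY1 hd.tow.hab hbn).1
    have h3 : lam * Y / Y = lam := by field_simp
    rw [h3] at h2
    exact ENNReal.toReal_le_of_le_ofReal (by positivity) h2
  -- lower bound of `I0`
  set I0 := ∫ c, chi n ψ η 0 c with hI0
  have hI : (1 - ε / 4) * (1 - ε / 4) * V ≤ I0 ∨ ε / 4 ≥ 1 := by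
    by_cases hε4 : ε / 4 ≥ 1
    · exact Or.inr hε4
    left
    push Not at hε4
    refine le_trans ?_ (hd.I_zero hτ.le)
    have e0 : 1 ≤ Real.exp τ := Real.one_le_exp hτ.le
    have hτ2 : 2 * τ ≤ Real.log lam := by
      rw [hτd]
      have : 2 * (ε' * Real.log lam / 2) = ε' * Real.log lam := by ring
      rw [this]
      nlinarith
    have e1 : Y * Real.exp τ ≤ lam * Y / Real.exp τ := by
      rw [le_div_iff₀ (Real.exp_pos _), mul_assoc, ← Real.exp_add, ← two_mul, mul_comm lam]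
      apply mul_le_mul_of_nonneg_left _ hY0.le
      rw [← Real.exp_log (by linarith : 0 < lam)]
      exact Real.exp_le_exp.2 hτ2
    have e2 : lam * Y / Real.exp τ ≤ n := (div_le_self (by positivity) e0).trans hbn
    have h2 := (vol_Ann_bounds a3 (show 1 ≤ Y * Real.exp τ by nlinarith) e1 e2).2
    have hfin : volume (Ann n (Y * Real.exp τ) (lam * Y / Real.exp τ)) ≠ ⊤ := Ann_ne_top a3 e2
    have h3 := (ENNReal.ofReal_le_iff_le_toReal hfin).1 h2
    refine le_trans ?_ h3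
    have e3 : Real.log (lam * Y / Real.exp τ / (Y * Real.exp τ)) = Real.log lam - 2 * τ := by
      have : lam * Y / Real.exp τ / (Y * Real.exp τ) = lam / (Real.exp τ * Real.exp τ) := by
        field_simp
      rw [this, Real.log_div (by linarith) (by positivity), ← Real.exp_add, Real.log_exp]
      ring
    have e4 : -(2 * Real.log n / ((n:ℝ) - 1)) = -(2 * (Real.log n / ((n:ℝ) - 1))) := by ring
    rw [e3, e4]
    have e5 : (1 - ε / 4) * Real.log lam ≤ Real.log lam - 2 * τ := by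
      have : 2 * τ = ε' * Real.log lam := by rw [hτd]; ring
      rw [this]
      nlinarith
    calc (1 - ε / 4) * (1 - ε / 4) * V ≤
        (1 - ε / 4) * (1 - ε / 4) * (2 * Real.pi * Real.log lam / (n - 1)) := by
          apply mul_le_mul_of_nonneg_left hV1
          have : 0 ≤ 1 - ε / 4 := by linarith
          positivity
      _ = 2 * Real.pi * ((1 - ε / 4) * Real.log lam) / (n - 1) * (1 - ε / 4) := by ring
      _ ≤ 2 * Real.pi * (Real.log lam - 2 * τ) / (n - 1) *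
          Real.exp (-(2 * (Real.log n / ((n:ℝ) - 1)))) := by
          have h4 : 0 ≤ Real.log lam - 2 * τ := by linarith
          apply mul_le_mul _ a2.le (by linarith) (by positivity)
          apply div_le_div_of_nonneg_right _ hn1.le
          exact mul_le_mul_of_nonneg_left e5 (by positivity)
  have hmain := hd.PF_ge hF
  refine le_trans ?_ hmain
  -- the error
  have herr : (((K + 1 : ℕ) : ℝ)) ^ 2 * err2 n (K + 1) Y (lam * Y) C Cψ ≤ ε / 4 * V := by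
    unfold err2
    push_cast
    rw [← hV]
    have e1 : ((K:ℝ) + 1) ^ 2 * (2 * C * ((2 * Cψ + 2 * C * (K + 1) + 16) / Y) * V) =
      R / Y * V := by rw [hR]; ring
    rw [e1]
    apply mul_le_mul_of_nonneg_right _ hV0
    rw [div_le_iff₀ hY0]
    rw [div_le_iff₀ (by positivity)] at hYR
    linarith
  -- the sum
  set p := ∑ j ∈ F, (1 / 2 : ℝ) ^ (j + 1) with hp
  have hp0 : 0 ≤ p := Finset.sum_nonneg fun j _ => by positivity
  have hp1 : p ≤ 1 := by
    have h2 : p ≤ ∑ j ∈ Finset.range (K + 1), (1 / 2 : ℝ) ^ (j + 1) :=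
      Finset.sum_le_sum_of_subset_of_nonneg hF fun j _ _ => by positivity
    have e3 : ∀ K : ℕ, ∑ j ∈ Finset.range K, (1 / 2 : ℝ) ^ (j + 1) = 1 - (1 / 2) ^ K := by
      intro K
      induction K with
      | zero => simp
      | succ K ih => rw [Finset.sum_range_succ, ih, pow_succ]; ring
    rw [e3] at h2
    have : (0:ℝ) ≤ (1 / 2) ^ (K + 1) := by positivity
    linarith
  have hq : p - ε / 4 ≤ ∑ j ∈ F, m ^ (j + 1) := by
    refine (hδ F hF).trans (Finset.sum_le_sum fun j _ => ?_)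
    exact pow_le_pow_left₀ (by linarith) hm _
  have hq0 : 0 ≤ ∑ j ∈ F, m ^ (j + 1) :=
    Finset.sum_nonneg fun j _ => pow_nonneg (by linarith) _
  have hI00 : 0 ≤ I0 := integral_nonneg fun c => chi_nonneg hd.cut.n0 hd.ang.n0 0 c
  have key : (p - ε / 4 * 3) * V ≤ (∑ j ∈ F, m ^ (j + 1)) * I0 := by
    rcases le_or_gt (p - ε / 4 * 3) 0 with hneg | hpos
    · calc (p - ε / 4 * 3) * V ≤ 0 := mul_nonpos_of_nonpos_of_nonneg hneg hV0
        _ ≤ _ := mul_nonneg hq0 hI00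
    · rcases hI with hI | hI
      · have h5 : (p - ε / 4) * ((1 - ε / 4) * (1 - ε / 4) * V) ≤
            (∑ j ∈ F, m ^ (j + 1)) * I0 :=
          mul_le_mul hq hI (mul_nonneg (mul_self_nonneg _) hV0) hq0
        refine le_trans ?_ h5
        have h6 : p - ε / 4 * 3 ≤ (p - ε / 4) * ((1 - ε / 4) * (1 - ε / 4)) := by
          have h7 : 1 - 2 * (ε / 4) ≤ (1 - ε / 4) * (1 - ε / 4) := by nlinarith
          have h8 : 0 ≤ p - ε / 4 := by linarith
          have h9 := mul_le_mul_of_nonneg_left h7 h8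
          nlinarith
        calc (p - ε / 4 * 3) * V ≤ (p - ε / 4) * ((1 - ε / 4) * (1 - ε / 4)) * V :=
              mul_le_mul_of_nonneg_right h6 hV0
          _ = _ := by ring
      · exfalso; linarith
  have e1 : (p - ε) * V = (p - ε / 4 * 3) * V - ε / 4 * V := by ring
  rw [e1]
  linarith

open Classical in
theorem geo_bounds (S : Set ℕ) (K : ℕ) :
    ∑ j ∈ (Finset.range K).filter (fun j => j + 2 ∈ S), (1 / 2 : ℝ) ^ (j + 1) ≤
      (∑' j : ℕ, if j + 2 ∈ S then (1 / 2 : ℝ) ^ (j + 1) else 0) ∧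
    (∑' j : ℕ, if j + 2 ∈ S then (1 / 2 : ℝ) ^ (j + 1) else 0) ≤
      ∑ j ∈ (Finset.range K).filter (fun j => j + 2 ∈ S), (1 / 2 : ℝ) ^ (j + 1) + (1 / 2) ^ K := by
  have hg : Summable fun j : ℕ => (1 / 2 : ℝ) ^ (j + 1) := by
    have := summable_geometric_of_lt_one (by norm_num : (0:ℝ) ≤ 1 / 2) (by norm_num)
    exact (summable_nat_add_iff 1).2 this
  have hs : Summable fun j : ℕ => if j + 2 ∈ S then (1 / 2 : ℝ) ^ (j + 1) else 0 := by
    apply Summable.of_nonneg_of_le _ _ hg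
    · intro j; split_ifs <;> positivity
    · intro j; split_ifs
      · exact le_rfl
      · positivity
  have h1 := hs.sum_add_tsum_nat_add K
  rw [← h1, Finset.sum_filter]
  have h2 : 0 ≤ ∑' i : ℕ, (if i + K + 2 ∈ S then (1 / 2 : ℝ) ^ (i + K + 1) else 0) :=
    tsum_nonneg fun i => by split_ifs <;> positivity
  have h3 : ∑' i : ℕ, (if i + K + 2 ∈ S then (1 / 2 : ℝ) ^ (i + K + 1) else 0) ≤ (1 / 2) ^ K := by
    have h4 : ∑' i : ℕ, (1 / 2 : ℝ) ^ (i + K + 1) = (1 / 2) ^ K := by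
      have : (fun i : ℕ => (1 / 2 : ℝ) ^ (i + K + 1)) =
          fun i : ℕ => (1 / 2) ^ (K + 1) * (1 / 2) ^ i := by
        funext i; rw [← pow_add]; congr 1; ring
      rw [this, tsum_mul_left, tsum_geometric_of_lt_one (by norm_num) (by norm_num), pow_succ]
      norm_num
      ring
    rw [← h4]
    apply Summable.tsum_le_tsum
    · intro i
      split_ifs
      · exact le_rfl
      · positivity
    · exact (summable_nat_add_iff K).2 hs
    · exact (summable_nat_add_iff K).2 hg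
  constructor <;> linarith

theorem vol_Ann_pos {n : ℕ} (hn : 2 ≤ n) {a b : ℝ} (ha : 1 ≤ a) (hab : a < b) (hbn : b ≤ n) :
    0 < (volume (Ann n a b)).toReal := by
  have hnr : (2:ℝ) ≤ n := by exact_mod_cast hn
  have hn1 : (0 : ℝ) < (n : ℝ) - 1 := by linarith
  have h2 := (vol_Ann_bounds hn ha hab.le hbn).2
  have h3 := (ENNReal.ofReal_le_iff_le_toReal (Ann_ne_top hn hbn)).1 h2
  refine lt_of_lt_of_le ?_ h3
  have h4 : 0 < Real.log (b / a) := Real.log_pos (by rw [lt_div_iff₀ (by linarith)]; linarith)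
  have := Real.pi_pos
  positivity

open Classical in
/-- the law of the period -/
theorem law {lam ε : ℝ} (hl : 1 < lam) (hε : 0 < ε) : ∃ (K : ℕ) (Y0 : ℝ),
    ∀ᶠ n : ℕ in atTop, ∀ Y : ℝ, Y0 ≤ Y → Y ≤ Real.log^[K] (n:ℝ) → ∀ S : Set ℕ,
      0 < (volume (Ann n Y (lam * Y))).toReal ∧
      |(volume ({c | ∃ m ∈ S, c ∈ Ex n m} ∩ Ann n Y (lam * Y))).toReal -
        (∑' j : ℕ, if j + 2 ∈ S then (1 / 2 : ℝ) ^ (j + 1) else 0) *
          (volume (Ann n Y (lam * Y))).toReal| ≤ ε * (volume (Ann n Y (lam * Y))).toReal := by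
  obtain ⟨K, hK⟩ := exists_pow_lt_of_lt_one (show 0 < ε / 2 by positivity)
    (show (1 / 2 : ℝ) < 1 by norm_num)
  have hK1 : (1 / 2 : ℝ) ^ (K + 1) ≤ ε / 2 := by
    refine le_trans ?_ hK.le
    exact pow_le_pow_of_le_one (by norm_num) (by norm_num) (by omega)
  obtain ⟨δ, Y0, hδ0, hp⟩ := pieces K (show 0 < ε / 2 by positivity) hl
  refine ⟨K + 1, Y0, ?_⟩
  have hlog : ∀ᶠ t : ℝ in atTop, lam * Real.log t ≤ δ * t := by
    have h2 : Tendsto (fun t : ℝ => Real.log t / t) atTop (𝓝 0) := by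
      have := Real.isLittleO_log_id_atTop.tendsto_div_nhds_zero
      simpa using this
    filter_upwards [h2.eventually_lt_const (show 0 < δ / lam by positivity),
      eventually_gt_atTop 0] with t h3 h4
    rw [div_lt_div_iff₀ h4 (by linarith)] at h3
    linarith
  filter_upwards [hp, (tendsto_iterlog K).eventually hlog, eventually_ge_atTop 2] with n a1 a2 a3
  intro Y hY0 hYn S
  have hYn' : lam * Y ≤ δ * Real.log^[K] (n:ℝ) := by
    rw [Function.iterate_succ_apply'] at hYn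
    exact (mul_le_mul_of_nonneg_left hYn (by linarith)).trans a2
  obtain ⟨T, m, C, Cψ, τ, η, η', Γ, ψ, ψ', hd, hPF⟩ := a1 Y hY0 hYn'
  set A := Ann n Y (lam * Y) with hA
  set V := (volume A).toReal with hV
  have hV0 : 0 ≤ V := ENNReal.toReal_nonneg
  have hfinA : volume A ≠ ⊤ := Ann_ne_top a3 hd.tow.hbn
  set Q : Set ℂ := {c | ∃ m ∈ S, c ∈ Ex n m} ∩ A with hQ
  have hfinQ : volume Q ≠ ⊤ := ((measure_mono inter_subset_right).trans_lt hfinA.lt_top).ne
  set F := (Finset.range (K + 1)).filter (fun j => j + 2 ∈ S) with hF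
  set F' := (Finset.range (K + 1)).filter (fun j => ¬ (j + 2 ∈ S)) with hF'
  have hFs : F ⊆ Finset.range (K + 1) := Finset.filter_subset _ _
  have hFs' : F' ⊆ Finset.range (K + 1) := Finset.filter_subset _ _
  obtain ⟨g1, g2⟩ := geo_bounds S (K + 1)
  rw [← hF] at g1 g2
  set P := (∑' j : ℕ, if j + 2 ∈ S then (1 / 2 : ℝ) ^ (j + 1) else 0) with hP
  have hsplit : ∑ j ∈ F, (1 / 2 : ℝ) ^ (j + 1) + ∑ j ∈ F', (1 / 2 : ℝ) ^ (j + 1) =
      1 - (1 / 2) ^ (K + 1) := by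
    rw [hF, hF', Finset.sum_filter_add_sum_filter_not]
    have e3 : ∀ K : ℕ, ∑ j ∈ Finset.range K, (1 / 2 : ℝ) ^ (j + 1) = 1 - (1 / 2) ^ K := by
      intro K
      induction K with
      | zero => simp
      | succ K ih => rw [Finset.sum_range_succ, ih, pow_succ]; ring
    exact e3 _
  -- lower bound
  have hlow := hd.low hFs (S := Q) (by
    intro j hj c hc
    rw [hF, Finset.mem_filter] at hj
    exact ⟨⟨j + 2, hj.2, hc.1⟩, hc.2⟩)
  have hlow' := (ENNReal.ofReal_le_iff_le_toReal hfinQ).1 hlow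
  have h1 := hPF F hFs
  -- upper bound
  have hup := hd.up hFs' (S := Q) inter_subset_right (by
    intro j hj c hc hcE
    rw [hF', Finset.mem_filter] at hj
    obtain ⟨⟨m', hm', z, hz, hper⟩, -⟩ := hc
    obtain ⟨z', hz', hper'⟩ := hcE
    have h2 := period_unique a3 hz hz'
    rw [hper, hper'] at h2
    apply hj.2
    rw [h2]; exact hm')
  have h2 := hPF F' hFs'
  have hPFle : ∫ c, PF n ψ η F' c ≤ V := by
    have h3 := vol_ge (hd.PF_meas F') (hd.PF_int F') (hd.PF_nonneg F')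
      (fun c => (hd.PF_le hFs' c).trans (chi_le_one hd.cut.n0 hd.cut.n1 hd.ang.n0 hd.ang.n1 0 c))
      (S := A) (fun c hc => by
        obtain ⟨j, hj, hjc⟩ := Finset.exists_ne_zero_of_sum_ne_zero hc
        exact (hd.mem_of_ne (right_ne_zero_of_mul hjc)).1)
    exact (ENNReal.ofReal_le_iff_le_toReal hfinA).1 h3
  have hup' := ENNReal.toReal_le_of_le_ofReal (by linarith) hup
  refine ⟨vol_Ann_pos a3 (by have := hd.tow.ha; linarith) (by
    have := hd.tow.ha; nlinarith) hd.tow.hbn, ?_⟩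
  rw [abs_le]
  constructor
  · have : (P - ε) * V ≤ (∑ j ∈ F, (1 / 2 : ℝ) ^ (j + 1) - ε / 2) * V := by
      apply mul_le_mul_of_nonneg_right _ hV0
      linarith
    nlinarith
  · have : V - (∑ j ∈ F', (1 / 2 : ℝ) ^ (j + 1) - ε / 2) * V ≤ (P + ε) * V := by
      have e1 : V - (∑ j ∈ F', (1 / 2 : ℝ) ^ (j + 1) - ε / 2) * V =
        (1 - (∑ j ∈ F', (1 / 2 : ℝ) ^ (j + 1) - ε / 2)) * V := by ring
      rw [e1]
      apply mul_le_mul_of_nonneg_right _ hV0
      linarith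
    nlinarith

end Pool.Agent.Q79.PL
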