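import Mathlib
import Pool.Agent.Q79.AreaAsyA

set_option autoImplicit false

open MeasureTheory Set Real Filter Topology
open scoped ENNReal
open N62a1eb23 Pool.Agent.H749R2.Hyp Pool.Agent.H749R2.Area

namespace Pool.Agent.Q79.AA

theorem low1' {n : ℕ} (hn : 2 ≤ n) {c : ℂ} (hno : c ∉ main n) :
    1 < Real.exp 1 * (n * ‖c‖ ^ (n - 1)) := by
  by_contra h
  push Not at h
  exact hno (P1 hn h)

/-- the parameters without attracting fixed point lie in the region `W` -/
theorem mem_W {n : ℕ} (hn : 64 ≤ n) {c : ℂ} (hc : c ∈ multibrotSet n) (hno : c ∉ main n) :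
    c ∈ W (n - 1) (1 / (Real.exp 1 * n)) (24 * Real.log n / n) := by
  have hn' : (64:ℝ) ≤ n := by exact_mod_cast hn
  have hn0 : (0:ℝ) < n := by linarith
  have hn1 : (0:ℝ) < n - 1 := by linarith
  have h1 := low1' (by omega) hno
  have h3 := t_le_two (by omega) hc
  have h4 := z2_le (by omega) hc
  have hlog2 : 0.6931471803 < Real.log 2 := Real.log_two_gt_d9
  have hlog2' : Real.log 2 < 0.6931471808 := Real.log_two_lt_d9
  have hlogn : 6 * Real.log 2 ≤ Real.log n := by
    have h5 := Real.log_le_log (by norm_num) hn'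
    have h6 : Real.log 64 = 6 * Real.log 2 := by
      rw [show (64:ℝ) = 2 ^ 6 by norm_num, Real.log_pow]; norm_num
    linarith
  set t := ‖c‖ ^ (n - 1) with ht
  set ζ := ‖1 + c ^ (n - 1)‖ with hζ
  have hζ0 : 0 ≤ ζ := norm_nonneg _
  have ht0 : 0 < t := by
    have := Real.exp_pos 1
    by_contra hcon
    push Not at hcon
    have : Real.exp 1 * (n * t) ≤ 0 := by
      apply mul_nonpos_of_nonneg_of_nonpos (by positivity)
      exact mul_nonpos_of_nonneg_of_nonpos hn0.le hcon
    linarith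
  set η := 24 * Real.log n / n with hη
  have hη0 : 0 ≤ η := by
    rw [hη]
    have : 0 ≤ Real.log n := by linarith
    positivity
  have hz2 : ζ ^ 2 = 1 + 2 * (c ^ (n - 1)).re + t ^ 2 := by
    rw [hζ, norm_one_add_sq, norm_pow]
  have hmain : ζ ^ 2 ≤ 1 + η := by
    rcases hζ0.lt_or_eq with hζpos | h0
    swap
    · rw [← h0]; nlinarith
    have hN1 : ((n - 1 : ℕ) : ℝ) = n - 1 := by rw [Nat.cast_sub (by omega)]; simp
    -- upper bound for log ζ
    have hup : ((n:ℝ) - 1) * Real.log ζ ≤ 3 * Real.log n := by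
      have h5 : ζ ^ (n - 1) ≤ 2 * (Real.exp 1 * n) := by
        have h6 : 1 ≤ (Real.exp 1 * n) * t := by
          have : (Real.exp 1 * n) * t = Real.exp 1 * (n * t) := by ring
          linarith
        calc ζ ^ (n - 1) = 1 * ζ ^ (n - 1) := (one_mul _).symm
          _ ≤ ((Real.exp 1 * n) * t) * ζ ^ (n - 1) := by gcongr
          _ = (Real.exp 1 * n) * (t * ζ ^ (n - 1)) := by ring
          _ ≤ (Real.exp 1 * n) * 2 := by gcongr
          _ = _ := by ring
      have h6 := Real.log_le_log (by positivity) h5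
      rw [Real.log_pow, hN1, Real.log_mul (by norm_num) (by positivity),
        Real.log_mul (Real.exp_pos 1).ne' hn0.ne', Real.log_exp] at h6
      linarith
    have hratio : Real.log n / n ≤ 6 * 0.6931471808 / 64 := by
      have h5 : Real.log (n / 64) ≤ n / 64 - 1 := Real.log_le_sub_one_of_pos (by positivity)
      rw [Real.log_div hn0.ne' (by norm_num)] at h5
      have h6 : Real.log 64 = 6 * Real.log 2 := by
        rw [show (64:ℝ) = 2 ^ 6 by norm_num, Real.log_pow]; norm_num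
      rw [div_le_div_iff₀ hn0 (by norm_num)]
      rw [h6] at h5
      nlinarith
    have hL2 : Real.log (ζ ^ 2) ≤ η / 3 := by
      rw [Real.log_pow]
      push_cast
      have h6 : Real.log ζ ≤ 4 * Real.log n / n := by
        rw [le_div_iff₀ hn0]
        rcases le_or_gt (Real.log ζ) 0 with h7 | h7
        · nlinarith
        · nlinarith
      have : η / 3 = 2 * (4 * Real.log n / n) := by rw [hη]; ring
      rw [this]; linarith
    have hη1 : η ≤ 24 * (6 * 0.6931471808 / 64) := by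
      rw [hη, mul_div_assoc]; gcongr
    have hζ2pos : 0 < ζ ^ 2 := by positivity
    have h6 : ζ ^ 2 ≤ Real.exp (η / 3) := by
      rw [← Real.log_le_iff_le_exp hζ2pos]; exact hL2
    have h7 := Real.abs_exp_sub_one_le (x := η / 3) (by
      rw [abs_of_nonneg (by positivity)]; linarith)
    rw [abs_of_nonneg (by positivity : 0 ≤ η / 3)] at h7
    have h8 := le_abs_self (Real.exp (η / 3) - 1)
    linarith
  refine ⟨?_, h3, ?_⟩
  · rw [div_le_iff₀ (by positivity)]
    have : t * (Real.exp 1 * n) = Real.exp 1 * (n * t) := by ring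
    rw [this]; exact h1.le
  · linarith

/-- a parameter with an attracting fixed point has `n |c| ^ (n - 1) ≤ e` -/
theorem main_le {n : ℕ} (hn : 2 ≤ n) {c : ℂ} (h : c ∈ main n) :
    n * ‖c‖ ^ (n - 1) ≤ Real.exp 1 := by
  have hn' : (2:ℝ) ≤ n := by exact_mod_cast hn
  have hn0 : (0:ℝ) < n := by linarith
  obtain ⟨z, -, hper, -, hder⟩ := h
  have hz : z ^ n + c = z := by
    have := hper
    rw [Function.IsPeriodicPt, Function.IsFixedPt] at this
    simpa using this
  have hd : ‖(n:ℂ) * z ^ (n - 1)‖ < 1 := by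
    have h5 : deriv (fun z : ℂ => z ^ n + c)^[1] z = n * z ^ (n - 1) := by
      rw [Function.iterate_one]; exact deriv_f n c z
    rw [h5] at hder
    exact hder
  rw [norm_mul, Complex.norm_natCast, norm_pow] at hd
  have hcz : c = z * (1 - z ^ (n - 1)) := by
    have h6 : z ^ n = z ^ (n - 1) * z := by
      rw [← pow_succ]; congr 1; omega
    linear_combination hz - h6
  have hy : ‖z‖ ^ (n - 1) ≤ 1 / n := by
    rw [le_div_iff₀ hn0]; linarith
  have h7 : ‖c‖ ^ (n - 1) ≤ 1 / n * Real.exp 1 := by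
    rw [hcz, norm_mul, mul_pow]
    gcongr
    calc ‖1 - z ^ (n - 1)‖ ^ (n - 1) ≤ (1 + 1 / (n:ℝ)) ^ (n - 1) := by
          gcongr
          refine (norm_sub_le _ _).trans ?_
          rw [norm_one, norm_pow]
          linarith
      _ ≤ Real.exp 1 := one_add_div_pow_le (by omega) (by norm_num) (by omega)
  calc n * ‖c‖ ^ (n - 1) ≤ n * (1 / n * Real.exp 1) := by gcongr
    _ = Real.exp 1 := by field_simp

/-- the parameters of the region `V` have an attracting cycle of period 2 -/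
theorem V_sub' {n : ℕ} (hn : 64 ≤ n) {ε : ℝ} (hε : 0 < ε) (hε1 : ε ≤ 1 / 4) :
    V (n - 1) (10 ^ 6 / ε ^ 3 / n) ε ⊆
      {c | c ∈ multibrotSet n ∧ (∃ z, IsAttractingCycle (fun z => z ^ n + c) 2 z) ∧
        c ∉ main n} := by
  rintro c ⟨h1, h2, h3⟩
  have hn' : (64:ℝ) ≤ n := by exact_mod_cast hn
  have hn0 : (0:ℝ) < n := by linarith
  have hN1 : ((n - 1 : ℕ) : ℝ) = n - 1 := by rw [Nat.cast_sub (by omega)]; simp
  set t := ‖c‖ ^ (n - 1) with ht
  set ζ := ‖1 + c ^ (n - 1)‖ with hζ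
  have hs : 10 ^ 6 / ε ^ 3 ≤ n * t := by
    rw [div_le_iff₀ hn0] at h1; linarith
  have hε3 : ε ^ 3 ≤ 1 := by
    apply pow_le_one₀ hε.le (by linarith)
  have hs1 : (10:ℝ) ^ 6 ≤ n * t := by
    refine le_trans ?_ hs
    rw [le_div_iff₀ (by positivity)]
    nlinarith
  have ht0 : 0 < t := by
    by_contra hcon
    push Not at hcon
    have : (n:ℝ) * t ≤ 0 := mul_nonpos_of_nonneg_of_nonpos hn0.le hcon
    linarith
  have he : Real.exp 1 < 2.7182818286 := Real.exp_one_lt_d9
  have he' : 2.7182818283 < Real.exp 1 := Real.exp_one_gt_d9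
  have hA : 1 ≤ Real.exp 1 * (n * ‖c‖ ^ (n - 1)) := by rw [← ht]; nlinarith
  have hB : (n * ‖c‖ ^ (n - 1)) ^ 2 * (‖1 + c ^ (n - 1)‖ + 2 / n) ^ (n - 1) < 1 / 8 := by
    rw [← ht, ← hζ]
    have hζ0 : 0 ≤ ζ := norm_nonneg _
    have hz2 : ζ ^ 2 ≤ 1 - ε * t := by
      rw [hζ, norm_one_add_sq, norm_pow, ← ht]
      nlinarith
    have hζlow : 3 / 4 ≤ ζ := by
      have h5 := norm_sub_le (1 + c ^ (n - 1)) (c ^ (n - 1))
      rw [add_sub_cancel_right, norm_one, norm_pow, ← ht, ← hζ] at h5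
      linarith
    have hζe : ζ ≤ Real.exp (-(ε * t / 2)) := by
      have h6 : ζ ^ 2 ≤ (Real.exp (-(ε * t / 2))) ^ 2 := by
        rw [← Real.exp_nat_mul]
        have h7 := Real.add_one_le_exp ((2:ℕ) * -(ε * t / 2))
        push_cast at h7 ⊢
        linarith
      exact le_of_sq_le_sq h6 (Real.exp_pos _).le
    have hsum : ζ + 2 / n ≤ ζ * (1 + 3 / n) := by
      have : 2 / (n:ℝ) ≤ ζ * (3 / n) := by
        calc 2 / (n:ℝ) ≤ 3 / 4 * (3 / n) := by
              rw [← mul_div_assoc]; gcongr; norm_num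
          _ ≤ ζ * (3 / n) := by gcongr
      linarith
    set s := n * t with hs'
    have hpow : (ζ + 2 / n) ^ (n - 1) ≤ Real.exp (-(ε * s / 4)) * Real.exp 3 := by
      calc (ζ + 2 / n) ^ (n - 1) ≤ (ζ * (1 + 3 / n)) ^ (n - 1) := by gcongr
        _ = ζ ^ (n - 1) * (1 + 3 / (n:ℝ)) ^ (n - 1) := mul_pow _ _ _
        _ ≤ (Real.exp (-(ε * t / 2))) ^ (n - 1) * Real.exp 3 := by
          gcongr
          exact one_add_div_pow_le (by omega) (by norm_num) (by omega)
        _ ≤ Real.exp (-(ε * s / 4)) * Real.exp 3 := by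
          gcongr
          rw [← Real.exp_nat_mul, hN1]
          apply Real.exp_le_exp.mpr
          have : 0 < ε * t := by positivity
          nlinarith
    have hs0 : 0 < s := by linarith
    have hx : (ε * s / 4) ^ 3 / 6 ≤ Real.exp (ε * s / 4) := by
      have := Real.pow_div_factorial_le_exp (x := ε * s / 4) (by positivity) 3
      simpa [Nat.factorial] using this
    have h15 : Real.exp 3 ≤ 21 := by
      have h14 : Real.exp 3 = (Real.exp 1) ^ 3 := by
        rw [← Real.exp_nat_mul]; norm_num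
      rw [h14]
      calc (Real.exp 1) ^ 3 ≤ 2.7182818286 ^ 3 := by gcongr
        _ ≤ 21 := by norm_num
    have hεs : 10 ^ 6 ≤ ε ^ 3 * s := by
      rw [div_le_iff₀ (by positivity)] at hs
      linarith
    calc s ^ 2 * (ζ + 2 / n) ^ (n - 1) ≤ s ^ 2 * (Real.exp (-(ε * s / 4)) * Real.exp 3) := by gcongr
      _ = s ^ 2 * Real.exp 3 / Real.exp (ε * s / 4) := by
        rw [Real.exp_neg]; field_simp
      _ < 1 / 8 := by
        rw [div_lt_iff₀ (Real.exp_pos _)]
        have e1 : s ^ 2 * Real.exp 3 ≤ s ^ 2 * 21 := by gcongr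
        have e2 : (ε * s / 4) ^ 3 / 6 = s ^ 2 * (ε ^ 3 * s) / 384 := by ring
        have e3 : s ^ 2 * 10 ^ 6 / 384 ≤ s ^ 2 * (ε ^ 3 * s) / 384 := by gcongr
        have e4 : 0 < s ^ 2 := by positivity
        nlinarith
  refine ⟨mem_multibrot_of_P2 (by omega) hA hB, P2 (by omega) hA hB, ?_⟩
  intro hm
  have := main_le (by omega) hm
  rw [← ht] at this
  linarith

end Pool.Agent.Q79.AA
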