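import Mathlib
import Pool.Agent.Q79.AreaAsyB

set_option autoImplicit false

open MeasureTheory Set Real Filter Topology
open scoped ENNReal
open N62a1eb23 Pool.Agent.H749R2.Hyp Pool.Agent.H749R2.Area

namespace Pool.Agent.Q79.AA

/-! ### The limits -/

theorem tendsto_log : Tendsto (fun n : ℕ => Real.log (n:ℝ)) atTop atTop :=
  Real.tendsto_log_atTop.comp (tendsto_natCast_atTop_atTop (R := ℝ))

theorem tendsto_log_div : Tendsto (fun n : ℕ => Real.log (n:ℝ) / n) atTop (𝓝 0) := by
  have h1 : Tendsto (fun x : ℝ => Real.log x / x) atTop (𝓝 0) := by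
    have := Real.isLittleO_log_id_atTop.tendsto_div_nhds_zero
    simpa using this
  exact h1.comp (tendsto_natCast_atTop_atTop (R := ℝ))

theorem tendsto_loglog_div :
    Tendsto (fun n : ℕ => Real.log (Real.log (n:ℝ)) / Real.log n) atTop (𝓝 0) := by
  have h1 : Tendsto (fun x : ℝ => Real.log x / x) atTop (𝓝 0) := by
    have := Real.isLittleO_log_id_atTop.tendsto_div_nhds_zero
    simpa using this
  exact h1.comp tendsto_log

theorem tendsto_n_div : Tendsto (fun n : ℕ => (n:ℝ) / ((n:ℝ) - 1)) atTop (𝓝 1) := by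
  have h1 : Tendsto (fun n : ℕ => 1 / (n:ℝ)) atTop (𝓝 0) := tendsto_one_div_atTop_nhds_zero_nat
  have h2 : Tendsto (fun n : ℕ => 1 / (1 - 1 / (n:ℝ))) atTop (𝓝 (1 / (1 - 0))) :=
    (tendsto_const_nhds).div (tendsto_const_nhds.sub h1) (by norm_num)
  rw [sub_zero, div_one] at h2
  refine h2.congr' ?_
  filter_upwards [eventually_ge_atTop 2] with n hn
  have : (2:ℝ) ≤ n := by exact_mod_cast hn
  have h3 : (n:ℝ) - 1 ≠ 0 := by linarith
  field_simp

/-- the factor `n / log n` -/
noncomputable def sc (n : ℕ) : ℝ := n / Real.log n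

theorem tendsto_x {y : ℕ → ℝ} {b : ℝ}
    (hy : Tendsto (fun n : ℕ => Real.log (y n) / Real.log n) atTop (𝓝 b)) :
    Tendsto (fun n : ℕ => 2 * (Real.log (y n) / ((n - 1 : ℕ) : ℝ)) * sc n) atTop (𝓝 (2 * b)) := by
  have h1 := (hy.mul tendsto_n_div).const_mul 2
  rw [mul_one] at h1
  refine h1.congr' ?_
  filter_upwards [eventually_ge_atTop 2] with n hn
  have h2 : (2:ℝ) ≤ n := by exact_mod_cast hn
  have h3 : (n:ℝ) - 1 ≠ 0 := by linarith
  have h4 : 0 < Real.log n := Real.log_pos (by linarith)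
  unfold sc
  rw [Nat.cast_sub (by omega)]
  push_cast
  field_simp

theorem tendsto_exp {x : ℕ → ℝ} {a : ℝ} (hx : Tendsto (fun n => x n * sc n) atTop (𝓝 a)) :
    Tendsto (fun n => (Real.exp (x n) - 1) * sc n) atTop (𝓝 a) := by
  have hx0 : Tendsto x atTop (𝓝 0) := by
    have h1 := hx.mul tendsto_log_div
    rw [mul_zero] at h1
    refine h1.congr' ?_
    filter_upwards [eventually_ge_atTop 2] with n hn
    have h2 : (2:ℝ) ≤ n := by exact_mod_cast hn
    have h4 : 0 < Real.log n := Real.log_pos (by linarith)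
    unfold sc
    field_simp
  have h2 : Tendsto (fun n => (Real.exp (x n) - 1 - x n) * sc n) atTop (𝓝 0) := by
    have h3 : Tendsto (fun n => |x n| * |x n * sc n|) atTop (𝓝 0) := by
      have := hx0.abs.mul hx.abs
      rwa [abs_zero, zero_mul] at this
    apply squeeze_zero_norm' _ h3
    have h4 : ∀ᶠ n in atTop, |x n| < 1 := by
      have := hx0.abs
      rw [abs_zero] at this
      exact this.eventually_lt_const (by norm_num)
    filter_upwards [h4] with n hn
    have h5 := Real.abs_exp_sub_one_sub_id_le (x := x n) hn.le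
    rw [norm_mul, Real.norm_eq_abs, Real.norm_eq_abs, abs_mul]
    calc |Real.exp (x n) - 1 - x n| * |sc n| ≤ (x n) ^ 2 * |sc n| :=
          mul_le_mul_of_nonneg_right h5 (abs_nonneg _)
      _ = _ := by rw [← sq_abs]; ring
  have h6 := h2.add hx
  rw [zero_add] at h6
  refine h6.congr (fun n => ?_)
  ring

theorem tendsto_rt {y : ℕ → ℝ} {b : ℝ}
    (hy : Tendsto (fun n : ℕ => Real.log (y n) / Real.log n) atTop (𝓝 b)) :
    Tendsto (fun n : ℕ => ((rt (n - 1) (y n)) ^ 2 - 1) * sc n) atTop (𝓝 (2 * b)) := by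
  refine (tendsto_exp (tendsto_x hy)).congr (fun n => ?_)
  rw [rt, ← Real.exp_nat_mul]
  push_cast
  rfl

theorem log_const_div (K : ℝ) : Tendsto (fun n : ℕ => K / Real.log n) atTop (𝓝 0) :=
  tendsto_const_nhds.div_atTop tendsto_log

theorem tendsto_const (K : ℝ) :
    Tendsto (fun n : ℕ => ((rt (n - 1) K) ^ 2 - 1) * sc n) atTop (𝓝 0) := by
  have := tendsto_rt (y := fun _ => K) (b := 0) (log_const_div _)
  rwa [mul_zero] at this

theorem log_Kn {K : ℝ} (hK : 0 < K) :
    Tendsto (fun n : ℕ => Real.log (K / n) / Real.log n) atTop (𝓝 (-1)) := by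
  have h1 := (log_const_div (Real.log K)).sub_const 1
  rw [zero_sub] at h1
  refine h1.congr' ?_
  filter_upwards [eventually_ge_atTop 2] with n hn
  have h2 : (2:ℝ) ≤ n := by exact_mod_cast hn
  have h4 : 0 < Real.log n := Real.log_pos (by linarith)
  rw [Real.log_div hK.ne' (by linarith)]
  field_simp

theorem tendsto_Kn {K : ℝ} (hK : 0 < K) :
    Tendsto (fun n : ℕ => ((rt (n - 1) (K / n)) ^ 2 - 1) * sc n) atTop (𝓝 (-2)) := by
  have := tendsto_rt (log_Kn hK)
  rwa [mul_neg_one] at this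

theorem log_eta :
    Tendsto (fun n : ℕ => Real.log (24 * Real.log n / n) / Real.log n) atTop (𝓝 (-1)) := by
  have h1 := ((log_const_div (Real.log 24)).add tendsto_loglog_div).sub_const 1
  rw [zero_add, zero_sub] at h1
  refine h1.congr' ?_
  filter_upwards [eventually_ge_atTop 2] with n hn
  have h2 : (2:ℝ) ≤ n := by exact_mod_cast hn
  have h4 : 0 < Real.log n := Real.log_pos (by linarith)
  rw [Real.log_div (by positivity) (by linarith), Real.log_mul (by norm_num) h4.ne']
  field_simp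

theorem tendsto_eta :
    Tendsto (fun n : ℕ => ((rt (n - 1) (24 * Real.log n / n)) ^ 2 - 1) * sc n) atTop (𝓝 (-2)) := by
  have := tendsto_rt log_eta
  rwa [mul_neg_one] at this

/-! ### The bounds -/

/-- the upper bound for the area of the part without attracting fixed point -/
noncomputable def up (n : ℕ) : ℝ :=
  π * ((rt (n - 1) (24 * Real.log n / n)) ^ 2 - (rt (n - 1) (1 / (Real.exp 1 * n))) ^ 2) +
      (π / 2 * ((rt (n - 1) 2) ^ 2 - (rt (n - 1) (24 * Real.log n / n)) ^ 2) +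
        π / (2 * (((n - 1 : ℕ) : ℝ) - 2)))

theorem tendsto_up : Tendsto (fun n => up n * sc n) atTop (𝓝 π) := by
  have h1 : Tendsto (fun n : ℕ => ((rt (n - 1) (1 / (Real.exp 1 * n))) ^ 2 - 1) * sc n)
      atTop (𝓝 (-2)) := by
    have := tendsto_Kn (K := 1 / Real.exp 1) (by positivity)
    refine this.congr (fun n => ?_)
    rw [div_div]
  have h2 : Tendsto (fun n : ℕ => π / (2 * (((n - 1 : ℕ) : ℝ) - 2)) * sc n) atTop (𝓝 0) := by
    have h3 : Tendsto (fun n : ℕ => (n:ℝ) / ((n:ℝ) - 3)) atTop (𝓝 1) := by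
      have h1 : Tendsto (fun n : ℕ => 3 / (n:ℝ)) atTop (𝓝 0) :=
        tendsto_const_div_atTop_nhds_zero_nat 3
      have h2 : Tendsto (fun n : ℕ => 1 / (1 - 3 / (n:ℝ))) atTop (𝓝 (1 / (1 - 0))) :=
        (tendsto_const_nhds).div (tendsto_const_nhds.sub h1) (by norm_num)
      rw [sub_zero, div_one] at h2
      refine h2.congr' ?_
      filter_upwards [eventually_ge_atTop 4] with n hn
      have : (4:ℝ) ≤ n := by exact_mod_cast hn
      have h3 : (n:ℝ) - 3 ≠ 0 := by linarith
      field_simp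
    have h4 := (h3.mul (log_const_div (π / 2)))
    rw [mul_zero] at h4
    refine h4.congr' ?_
    filter_upwards [eventually_ge_atTop 4] with n hn
    have h5 : (4:ℝ) ≤ n := by exact_mod_cast hn
    have h6 : (n:ℝ) - 3 ≠ 0 := by linarith
    have h7 : 0 < Real.log n := Real.log_pos (by linarith)
    unfold sc
    rw [Nat.cast_sub (by omega)]
    push_cast
    have h8 : (n:ℝ) - 1 - 2 = n - 3 := by ring
    rw [h8]
    field_simp
  have h3 := ((tendsto_eta.sub h1).const_mul π).add
    ((((tendsto_const 2).sub tendsto_eta).const_mul (π / 2)).add h2)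
  have e : π * (-2 - -2) + (π / 2 * (0 - -2) + 0) = π := by ring
  rw [e] at h3
  refine h3.congr (fun n => ?_)
  unfold up
  ring

theorem vol_le_up : ∀ᶠ n : ℕ in atTop, volume (multibrotSet n \ main n) ≤ ENNReal.ofReal (up n) := by
  have h1 : ∀ᶠ n : ℕ in atTop, 24 * Real.log n / n ≤ 1 := by
    have := tendsto_log_div.const_mul 24
    rw [mul_zero] at this
    filter_upwards [this.eventually_le_const (show (0:ℝ) < 1 by norm_num)] with n hn
    rw [mul_div_assoc]; exact hn
  filter_upwards [h1, eventually_ge_atTop 64] with n hn1 hn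
  have h64 : (64:ℝ) ≤ n := by exact_mod_cast hn
  have hlog : 1 ≤ Real.log n := by
    have h5 := Real.log_le_log (by norm_num) h64
    have h6 : Real.log 64 = 6 * Real.log 2 := by
      rw [show (64:ℝ) = 2 ^ 6 by norm_num, Real.log_pow]; norm_num
    have := Real.log_two_gt_d9
    linarith
  have hsub : multibrotSet n \ main n ⊆ W (n - 1) (1 / (Real.exp 1 * n)) (24 * Real.log n / n) :=
    fun c hc => mem_W hn hc.1 hc.2
  refine (measure_mono hsub).trans ?_
  have h3 := area_W (N := n - 1) (by omega) (τ := 1 / (Real.exp 1 * n)) (η := 24 * Real.log n / n)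
    (by positivity) (by
      rw [div_le_div_iff₀ (by positivity) (by linarith)]
      have he := Real.exp_one_gt_d9
      have h5 : 1 ≤ 24 * Real.log n * Real.exp 1 := by nlinarith
      calc 1 * (n:ℝ) ≤ (24 * Real.log n * Real.exp 1) * n := by gcongr
        _ = _ := by ring) hn1
  exact h3

/-- the lower bound for the area of the part with an attracting 2-cycle -/
noncomputable def lo (ε : ℝ) (n : ℕ) : ℝ :=
  (π - π * ε) / 2 * ((rt (n - 1) ε) ^ 2 - (rt (n - 1) (10 ^ 6 / ε ^ 3 / n)) ^ 2)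

theorem tendsto_lo {ε : ℝ} (hε : 0 < ε) : Tendsto (fun n => lo ε n * sc n) atTop (𝓝 (π - π * ε)) := by
  have h1 := ((tendsto_const ε).sub (tendsto_Kn (K := 10 ^ 6 / ε ^ 3) (by positivity))).const_mul
    ((π - π * ε) / 2)
  have e : (π - π * ε) / 2 * (0 - -2) = π - π * ε := by ring
  rw [e] at h1
  refine h1.congr (fun n => ?_)
  unfold lo
  ring

theorem lo_le_vol {ε : ℝ} (hε : 0 < ε) (hε1 : ε ≤ 1 / 4) :
    ∀ᶠ n : ℕ in atTop, ENNReal.ofReal (lo ε n) ≤ volume (V (n - 1) (10 ^ 6 / ε ^ 3 / n) ε) := by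
  have h1 : Tendsto (fun n : ℕ => 10 ^ 6 / ε ^ 3 / (n:ℝ)) atTop (𝓝 0) :=
    tendsto_const_div_atTop_nhds_zero_nat _
  filter_upwards [h1.eventually_le_const hε, eventually_ge_atTop 64] with n hn1 hn
  have h64 : (64:ℝ) ≤ n := by exact_mod_cast hn
  exact area_V (by omega) (by positivity) hn1 (by linarith)

theorem disc_vol {N : ℕ} (hN : 1 ≤ N) {y : ℝ} (hy : 0 < y) :
    volume {c : ℂ | ‖c‖ ^ N ≤ y} = ENNReal.ofReal (π * (rt N y) ^ 2) := by
  have h1 : {c : ℂ | ‖c‖ ^ N ≤ y} = Metric.closedBall 0 (rt N y) := by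
    ext c
    rw [mem_closedBall_zero_iff]
    constructor
    · intro h; exact le_rt hN hy h
    · intro h
      have := pow_le_pow_left₀ (norm_nonneg c) h N
      rwa [rt_pow hN hy] at this
  rw [h1, Complex.volume_closedBall]
  rw [← ENNReal.ofReal_pow (rt_pos _ _).le]
  have h2 : (NNReal.pi : ℝ≥0∞) = ENNReal.ofReal π := by
    rw [← NNReal.coe_real_pi, ENNReal.ofReal_coe_nnreal]
  rw [h2, ← ENNReal.ofReal_mul (by positivity), mul_comm]

end Pool.Agent.Q79.AA
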