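import Mathlib
import Pool.Agent.Q79.AreaAsyC
import Pool.Agent.TH363.CD.Uniq

set_option autoImplicit false

open MeasureTheory Set Real Filter Topology
open scoped ENNReal
open N62a1eb23 Pool.Agent.H749R2.Hyp Pool.Agent.H749R2.Area

namespace Pool.Agent.Q79.AA

/-- The parameters with an attracting cycle of exact period `m`. -/
def Exact (n m : ℕ) : Set ℂ :=
  {c | ∃ z, IsAttractingCycle (fun z => z ^ n + c) m z ∧
    Function.minimalPeriod (fun z => z ^ n + c) z = m}

theorem exact_one (n : ℕ) : Exact n 1 = main n := by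
  ext c
  constructor
  · rintro ⟨z, hz, -⟩; exact ⟨z, hz⟩
  · rintro ⟨z, hz⟩
    refine ⟨z, hz, ?_⟩
    rw [Function.minimalPeriod_eq_one_iff_isFixedPt]
    have := hz.2.1
    rwa [Function.IsPeriodicPt, Function.iterate_one] at this

theorem exact_two_of {n : ℕ} {c : ℂ}
    (h : ∃ z, IsAttractingCycle (fun z => z ^ n + c) 2 z) (hno : c ∉ main n) : c ∈ Exact n 2 := by
  obtain ⟨z, hz⟩ := h
  refine ⟨z, hz, ?_⟩
  set g : ℂ → ℂ := fun z => z ^ n + c with hg
  obtain ⟨hpos, hper, hd, hlt⟩ := hz
  have hdiv : Function.minimalPeriod g z ∣ 2 := Function.IsPeriodicPt.minimalPeriod_dvd hper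
  rcases (Nat.dvd_prime Nat.prime_two).mp hdiv with h1 | h1
  · exfalso
    apply hno
    have hfix : Function.IsFixedPt g z := Function.minimalPeriod_eq_one_iff_isFixedPt.mp h1
    have hdiff : Differentiable ℂ g := by rw [hg]; fun_prop
    refine ⟨z, one_pos, ?_, ?_, ?_⟩
    · exact hfix
    · rw [Function.iterate_one]; exact hdiff z
    · rw [Function.iterate_one]
      have h6 : HasDerivAt g^[2] (deriv g z ^ 2) z :=
        HasDerivAt.iterate z ((hdiff z).hasDerivAt) hfix 2
      rw [h6.deriv, norm_pow] at hlt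
      by_contra h7
      rw [not_lt] at h7
      exact absurd hlt (not_lt.2 (one_le_pow₀ h7))
  · exact h1

theorem exact_two_sub {n : ℕ} (hn : 2 ≤ n) : Exact n 2 ⊆ multibrotSet n \ main n := by
  rintro c ⟨z, hz, hper⟩
  have hz' : IsAttractingCycle (Pool.Agent.W747.MB.f n c) 2 z := hz
  refine ⟨Pool.Agent.TH363.CD.mem_multibrot hn hz', ?_⟩
  rintro ⟨z', hz''⟩
  have h1 := Pool.Agent.TH363.CD.period_unique hn hz'
    (show IsAttractingCycle (Pool.Agent.W747.MB.f n c) 1 z' from hz'')
  have h2 : Function.minimalPeriod (Pool.Agent.W747.MB.f n c) z = 2 := hper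
  have h3 : Function.minimalPeriod (Pool.Agent.W747.MB.f n c) z' = 1 := by
    rw [Function.minimalPeriod_eq_one_iff_isFixedPt]
    have := hz''.2.1
    rwa [Function.IsPeriodicPt, Function.iterate_one] at this
  omega

theorem main_sub {n : ℕ} (hn : 2 ≤ n) : main n ⊆ multibrotSet n := by
  rintro c ⟨z, hz⟩
  exact Pool.Agent.TH363.CD.mem_multibrot hn
    (show IsAttractingCycle (Pool.Agent.W747.MB.f n c) 1 z from hz)

theorem vol_fin {n : ℕ} (hn : 2 ≤ n) {S : Set ℂ} (hS : S ⊆ multibrotSet n) : volume S ≠ ⊤ := by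
  have h1 : S ⊆ Metric.closedBall 0 2 := by
    intro c hc
    rw [mem_closedBall_zero_iff]
    exact x_le_two hn (hS hc)
  exact ((measure_mono h1).trans_lt measure_closedBall_lt_top).ne

theorem sc_pos {n : ℕ} (hn : 2 ≤ n) : 0 < sc n := by
  have h2 : (2:ℝ) ≤ n := by exact_mod_cast hn
  have h4 : 0 < Real.log n := Real.log_pos (by linarith)
  unfold sc; positivity

theorem squeeze_eps {g : ℕ → ℝ} {a : ℝ}
    (hlo : ∀ ε : ℝ, 0 < ε → ε ≤ 1 / 4 → ∃ (l : ℕ → ℝ) (b : ℝ), a - π * ε ≤ b ∧
      Tendsto l atTop (𝓝 b) ∧ ∀ᶠ n in atTop, l n ≤ g n)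
    (hup : ∀ ε : ℝ, 0 < ε → ε ≤ 1 / 4 → ∃ (u : ℕ → ℝ) (b : ℝ), b ≤ a + π * ε ∧
      Tendsto u atTop (𝓝 b) ∧ ∀ᶠ n in atTop, g n ≤ u n) : Tendsto g atTop (𝓝 a) := by
  have hπ := Real.pi_pos
  rw [tendsto_order]
  constructor
  · intro a' ha'
    have h1 : 0 < min (1 / 4) ((a - a') / (2 * π)) := by
      apply lt_min (by norm_num); apply div_pos (by linarith) (by positivity)
    obtain ⟨l, b, hb, hl, hlg⟩ := hlo _ h1 (min_le_left _ _)
    have h2 : π * min (1 / 4) ((a - a') / (2 * π)) ≤ (a - a') / 2 := by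
      calc π * min (1 / 4) ((a - a') / (2 * π)) ≤ π * ((a - a') / (2 * π)) :=
            mul_le_mul_of_nonneg_left (min_le_right _ _) hπ.le
        _ = (a - a') / 2 := by field_simp
    filter_upwards [hl.eventually_const_lt (show a' < b by linarith), hlg] with n h3 h4
    linarith
  · intro a' ha'
    have h1 : 0 < min (1 / 4) ((a' - a) / (2 * π)) := by
      apply lt_min (by norm_num); apply div_pos (by linarith) (by positivity)
    obtain ⟨u, b, hb, hu, hug⟩ := hup _ h1 (min_le_left _ _)
    have h2 : π * min (1 / 4) ((a' - a) / (2 * π)) ≤ (a' - a) / 2 := by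
      calc π * min (1 / 4) ((a' - a) / (2 * π)) ≤ π * ((a' - a) / (2 * π)) :=
            mul_le_mul_of_nonneg_left (min_le_right _ _) hπ.le
        _ = (a' - a) / 2 := by field_simp
    filter_upwards [hu.eventually_lt_const (show b < a' by linarith), hug] with n h3 h4
    linarith

theorem up_nonneg : ∀ᶠ n : ℕ in atTop, 0 ≤ up n := by
  filter_upwards [tendsto_up.eventually_const_le (show (0:ℝ) < π from Real.pi_pos),
    eventually_ge_atTop 2] with n h1 h2
  have := sc_pos h2
  by_contra hcon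
  push Not at hcon
  nlinarith

theorem lo_nonneg {ε : ℝ} (hε : 0 < ε) (hε1 : ε ≤ 1 / 4) : ∀ᶠ n : ℕ in atTop, 0 ≤ lo ε n := by
  have hπ := Real.pi_pos
  filter_upwards [(tendsto_lo hε).eventually_const_le (show (0:ℝ) < π - π * ε by nlinarith),
    eventually_ge_atTop 2] with n h1 h2
  have := sc_pos h2
  by_contra hcon
  push Not at hcon
  nlinarith

/-- real form of the upper bound -/
theorem R_up : ∀ᶠ n : ℕ in atTop, (volume (multibrotSet n \ main n)).toReal ≤ up n := by
  filter_upwards [vol_le_up, up_nonneg] with n h1 h2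
  exact ENNReal.toReal_le_of_le_ofReal h2 h1

theorem R_lo {ε : ℝ} (hε : 0 < ε) (hε1 : ε ≤ 1 / 4) : ∀ᶠ n : ℕ in atTop,
    lo ε n ≤ (volume (V (n - 1) (10 ^ 6 / ε ^ 3 / n) ε)).toReal := by
  filter_upwards [lo_le_vol hε hε1, lo_nonneg hε hε1, eventually_ge_atTop 64] with n h1 h2 hn
  have h3 : V (n - 1) (10 ^ 6 / ε ^ 3 / n) ε ⊆ multibrotSet n :=
    fun c hc => (V_sub' hn hε hε1 hc).1
  exact (ENNReal.ofReal_le_iff_le_toReal (vol_fin (by omega) h3)).mp h1

theorem V_exact {n : ℕ} (hn : 64 ≤ n) {ε : ℝ} (hε : 0 < ε) (hε1 : ε ≤ 1 / 4) :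
    V (n - 1) (10 ^ 6 / ε ^ 3 / n) ε ⊆ Exact n 2 := by
  intro c hc
  obtain ⟨-, h2, h3⟩ := V_sub' hn hε hε1 hc
  exact exact_two_of h2 h3

theorem lim_two :
    Tendsto (fun n : ℕ => (volume (Exact n 2)).toReal * sc n) atTop (𝓝 π) := by
  have hπ := Real.pi_pos
  apply squeeze_eps
  · intro ε hε hε1
    refine ⟨fun n => lo ε n * sc n, π - π * ε, le_rfl, tendsto_lo hε, ?_⟩
    filter_upwards [R_lo hε hε1, eventually_ge_atTop 64] with n h1 hn
    apply mul_le_mul_of_nonneg_right _ (sc_pos (by omega)).le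
    refine h1.trans ?_
    exact ENNReal.toReal_mono (vol_fin (by omega) fun c hc => (exact_two_sub (by omega) hc).1)
      (measure_mono (V_exact hn hε hε1))
  · intro ε hε hε1
    refine ⟨fun n => up n * sc n, π, by nlinarith, tendsto_up, ?_⟩
    filter_upwards [R_up, eventually_ge_atTop 64] with n h1 hn
    apply mul_le_mul_of_nonneg_right _ (sc_pos (by omega)).le
    refine le_trans ?_ h1
    exact ENNReal.toReal_mono (vol_fin (by omega) sdiff_subset)
      (measure_mono (exact_two_sub (by omega)))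

/-- bounds for the area of the main component -/
theorem main_bounds {n : ℕ} (hn : 2 ≤ n) :
    π * (rt (n - 1) (1 / Real.exp 1 / n)) ^ 2 ≤ (volume (main n)).toReal ∧
    (volume (main n)).toReal ≤ π * (rt (n - 1) (Real.exp 1 / n)) ^ 2 := by
  have hn' : (2:ℝ) ≤ n := by exact_mod_cast hn
  have hn0 : (0:ℝ) < n := by linarith
  have hπ := Real.pi_pos
  have he := Real.exp_pos 1
  constructor
  · have h1 := disc_vol (N := n - 1) (by omega) (y := 1 / Real.exp 1 / n) (by positivity)
    have h2 : {c : ℂ | ‖c‖ ^ (n - 1) ≤ 1 / Real.exp 1 / n} ⊆ main n := by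
      intro c hc
      have hc' : ‖c‖ ^ (n - 1) ≤ 1 / Real.exp 1 / n := hc
      refine P1 hn ?_
      rw [div_div, le_div_iff₀ (by positivity)] at hc'
      linarith
    have h3 := measure_mono (μ := volume) h2
    rw [h1] at h3
    exact (ENNReal.ofReal_le_iff_le_toReal (vol_fin hn (main_sub hn))).mp h3
  · have h1 := disc_vol (N := n - 1) (by omega) (y := Real.exp 1 / n) (by positivity)
    have h2 : main n ⊆ {c : ℂ | ‖c‖ ^ (n - 1) ≤ Real.exp 1 / n} := by
      intro c hc
      have := main_le hn hc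
      show ‖c‖ ^ (n - 1) ≤ Real.exp 1 / n
      rw [le_div_iff₀ hn0]; linarith
    have h3 := measure_mono (μ := volume) h2
    rw [h1] at h3
    exact ENNReal.toReal_le_of_le_ofReal (by positivity) h3

theorem lim_main :
    Tendsto (fun n : ℕ => (π - (volume (main n)).toReal) * sc n) atTop (𝓝 (2 * π)) := by
  have hπ := Real.pi_pos
  have h1 := (tendsto_Kn (K := 1 / Real.exp 1) (by positivity)).const_mul (-π)
  have h2 := (tendsto_Kn (K := Real.exp 1) (by positivity)).const_mul (-π)
  have e : -π * -2 = 2 * π := by ring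
  rw [e] at h1 h2
  refine tendsto_of_tendsto_of_tendsto_of_le_of_le' h2 h1 ?_ ?_
  · filter_upwards [eventually_ge_atTop 2] with n hn
    have h3 := (main_bounds hn).2
    have h4 := sc_pos hn
    have e1 : -π * ((rt (n - 1) (Real.exp 1 / n) ^ 2 - 1) * sc n) =
        (π - π * rt (n - 1) (Real.exp 1 / n) ^ 2) * sc n := by ring
    rw [e1]
    apply mul_le_mul_of_nonneg_right _ h4.le
    linarith
  · filter_upwards [eventually_ge_atTop 2] with n hn
    have h3 := (main_bounds hn).1
    have h4 := sc_pos hn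
    have e1 : -π * ((rt (n - 1) (1 / Real.exp 1 / n) ^ 2 - 1) * sc n) =
        (π - π * rt (n - 1) (1 / Real.exp 1 / n) ^ 2) * sc n := by ring
    rw [e1]
    apply mul_le_mul_of_nonneg_right _ h4.le
    linarith

theorem lim_total :
    Tendsto (fun n : ℕ => (π - (volume (multibrotSet n)).toReal) * sc n) atTop (𝓝 π) := by
  have hπ := Real.pi_pos
  apply squeeze_eps
  · intro ε hε hε1
    have h1 := (lim_main).sub tendsto_up
    refine ⟨_, _, ?_, h1, ?_⟩
    · nlinarith
    · filter_upwards [R_up, eventually_ge_atTop 2] with n h2 hn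
      have h3 : volume (multibrotSet n) ≤ volume (main n) + volume (multibrotSet n \ main n) := by
        refine le_trans (measure_mono ?_) (measure_union_le _ _)
        intro c hc
        by_cases h : c ∈ main n
        · exact Or.inl h
        · exact Or.inr ⟨hc, h⟩
      have f1 := vol_fin hn (main_sub hn)
      have f2 := vol_fin hn (S := multibrotSet n \ main n) sdiff_subset
      have h4 := ENNReal.toReal_mono (ENNReal.add_ne_top.mpr ⟨f1, f2⟩) h3
      rw [ENNReal.toReal_add f1 f2] at h4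
      have h5 := sc_pos hn
      have e1 : (π - (volume (main n)).toReal) * sc n - up n * sc n =
        (π - (volume (main n)).toReal - up n) * sc n := by ring
      rw [e1]
      apply mul_le_mul_of_nonneg_right _ h5.le
      linarith
  · intro ε hε hε1
    have h0 := (tendsto_Kn (K := 1 / Real.exp 1) (by positivity)).const_mul (-π)
    have h1 := h0.sub (tendsto_lo hε)
    refine ⟨_, _, ?_, h1, ?_⟩
    · linarith
    · have hlt : ∀ᶠ n : ℕ in atTop, 64 ≤ n := eventually_ge_atTop 64
      filter_upwards [R_lo hε hε1, hlt] with n h2 hn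
      have hn' : (64:ℝ) ≤ n := by exact_mod_cast hn
      have hn0 : (0:ℝ) < n := by linarith
      have he := Real.exp_pos 1
      set D : Set ℂ := {c : ℂ | ‖c‖ ^ (n - 1) ≤ 1 / Real.exp 1 / n} with hD
      set VV := V (n - 1) (10 ^ 6 / ε ^ 3 / n) ε with hVV
      have hd := disc_vol (N := n - 1) (by omega) (y := 1 / Real.exp 1 / n) (by positivity)
      have hDm : D ⊆ main n := by
        intro c hc
        have hc' : ‖c‖ ^ (n - 1) ≤ 1 / Real.exp 1 / n := hc
        refine P1 (by omega) ?_
        rw [div_div, le_div_iff₀ (by positivity)] at hc'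
        linarith
      have hdisj : Disjoint D VV := by
        rw [Set.disjoint_left]
        intro c hc hv
        exact (V_sub' hn hε hε1 hv).2.2 (hDm hc)
      have hVM : VV ⊆ multibrotSet n := fun c hc => (V_sub' hn hε hε1 hc).1
      have hsub : D ∪ VV ⊆ multibrotSet n :=
        union_subset (hDm.trans (main_sub (by omega))) hVM
      have h3 := measure_mono (μ := volume) hsub
      rw [measure_union hdisj (measurableSet_V _ _ _)] at h3
      have fM := vol_fin (n := n) (by omega) (S := multibrotSet n) subset_rfl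
      have fV := vol_fin (by omega) hVM
      have fD := vol_fin (by omega) (hDm.trans (main_sub (n := n) (by omega)))
      have h4 := ENNReal.toReal_mono fM h3
      rw [ENNReal.toReal_add fD fV] at h4
      have h5 : (volume D).toReal = π * (rt (n - 1) (1 / Real.exp 1 / n)) ^ 2 := by
        rw [hD, hd, ENNReal.toReal_ofReal (by positivity)]
      rw [h5] at h4
      have h6 := sc_pos (show 2 ≤ n by omega)
      have e1 : -π * ((rt (n - 1) (1 / Real.exp 1 / n) ^ 2 - 1) * sc n) - lo ε n * sc n =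
          (π - π * rt (n - 1) (1 / Real.exp 1 / n) ^ 2 - lo ε n) * sc n := by ring
      rw [e1]
      apply mul_le_mul_of_nonneg_right _ h6.le
      linarith

theorem lim_rest :
    Tendsto (fun n : ℕ => (volume (multibrotSet n \ (Exact n 1 ∪ Exact n 2))).toReal * sc n)
      atTop (𝓝 0) := by
  have hπ := Real.pi_pos
  apply squeeze_eps
  · intro ε hε hε1
    refine ⟨fun _ => 0, 0, by nlinarith, tendsto_const_nhds, ?_⟩
    filter_upwards [eventually_ge_atTop 2] with n hn
    exact mul_nonneg ENNReal.toReal_nonneg (sc_pos hn).le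
  · intro ε hε hε1
    have h1 := tendsto_up.sub (tendsto_lo hε)
    refine ⟨_, _, by linarith, h1, ?_⟩
    have hlt : ∀ᶠ n : ℕ in atTop, 64 ≤ n := eventually_ge_atTop 64
    filter_upwards [R_lo hε hε1, R_up, hlt] with n h2 h2' hn
    set VV := V (n - 1) (10 ^ 6 / ε ^ 3 / n) ε with hVV
    have hVs : VV ⊆ multibrotSet n \ main n := fun c hc =>
      ⟨(V_sub' hn hε hε1 hc).1, (V_sub' hn hε hε1 hc).2.2⟩
    have fM := vol_fin (n := n) (by omega) (S := multibrotSet n \ main n) sdiff_subset
    have fV := vol_fin (n := n) (by omega) (hVs.trans sdiff_subset)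
    have hsub : multibrotSet n \ (Exact n 1 ∪ Exact n 2) ⊆ (multibrotSet n \ main n) \ VV := by
      rintro c ⟨hc, hno⟩
      rw [exact_one] at hno
      exact ⟨⟨hc, fun h => hno (Or.inl h)⟩, fun h => hno (Or.inr (V_exact hn hε hε1 h))⟩
    have h3 := measure_mono (μ := volume) hsub
    rw [measure_sdiff hVs (measurableSet_V _ _ _).nullMeasurableSet fV] at h3
    have h4 := ENNReal.toReal_mono (ne_top_of_le_ne_top fM tsub_le_self) h3
    rw [ENNReal.toReal_sub_of_le (measure_mono hVs) fM] at h4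
    have h6 := sc_pos (show 2 ≤ n by omega)
    rw [← sub_mul]
    apply mul_le_mul_of_nonneg_right _ h6.le
    linarith

theorem areas :
    Tendsto (fun n : ℕ => (π - (volume (multibrotSet n)).toReal) / (Real.log n / n))
      atTop (𝓝 π) ∧
    Tendsto (fun n : ℕ => (π - (volume (Exact n 1)).toReal) / (Real.log n / n))
      atTop (𝓝 (2 * π)) ∧
    Tendsto (fun n : ℕ => (volume (Exact n 2)).toReal / (Real.log n / n)) atTop (𝓝 π) ∧
    Tendsto (fun n : ℕ => (volume (multibrotSet n \ (Exact n 1 ∪ Exact n 2))).toReal /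
      (Real.log n / n)) atTop (𝓝 0) := by
  have e : ∀ (n : ℕ) (x : ℝ), x / (Real.log n / n) = x * sc n := by
    intro n x
    unfold sc
    rw [div_div_eq_mul_div, mul_div_assoc]
  simp only [e]
  refine ⟨lim_total, ?_, lim_two, lim_rest⟩
  simp only [exact_one]
  exact lim_main

end Pool.Agent.Q79.AA
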