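import Pool.Agent.Q82.BB.Stm

/-!
# Project BB (helper82), job BB-WJ: bounds of the time derivatives
-/

set_option autoImplicit false

open MeasureTheory Filter Topology Set

namespace Pool.Agent.Q82.BB

theorem wj_aux {x A C : ℝ} (hA : 1 ≤ A) (hx : 0 ≤ x) {e f g : ℕ} (h : x * A ^ e ≤ C * A ^ f)
    (hle : g + f ≤ e) : x * A ^ g ≤ C := by
  have hA0 : 0 < A := by linarith
  have h1 : x * A ^ g * A ^ f ≤ C * A ^ f := by
    rw [mul_assoc, ← pow_add]
    exact (mul_le_mul_of_nonneg_left (pow_le_pow_right₀ hA hle) hx).trans h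
  exact le_of_mul_le_mul_right h1 (pow_pos hA0 f)

theorem wj_tri (ξ η : ℝ) : 1 + |ξ| ≤ (1 + |η|) * (1 + |ξ - η|) := by
  have h1 : |ξ| ≤ |η| + |ξ - η| := by
    have h2 := abs_add_le η (ξ - η)
    rw [add_sub_cancel] at h2
    exact h2
  have h3 : 0 ≤ |η| * |ξ - η| := by positivity
  nlinarith

theorem wj_conv (n : ℕ) (f g : ℝ → ℂ) (A B : ℝ) (hA : 0 ≤ A) (_hB : 0 ≤ B)
    (hf : ∀ η, ‖f η‖ * (1 + |η|) ^ (n + 2) ≤ A) (hg : ∀ η, ‖g η‖ * (1 + |η|) ^ (n + 2) ≤ B)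
    (ξ : ℝ) : ‖∫ η, f η * g (ξ - η)‖ * (1 + |ξ|) ^ n ≤ A * B * Real.pi := by
  have hX : 0 < (1 + |ξ|) ^ n := by positivity
  have hint : Integrable (fun η : ℝ => A * B / (1 + |ξ|) ^ n * (1 + η ^ 2)⁻¹) :=
    integrable_inv_one_add_sq.const_mul _
  have hb : ∀ η : ℝ, ‖f η * g (ξ - η)‖ ≤ A * B / (1 + |ξ|) ^ n * (1 + η ^ 2)⁻¹ := by
    intro η
    have hP : 0 < (1 + |η|) ^ (n + 2) := by positivity
    have hQ : 0 < (1 + |ξ - η|) ^ (n + 2) := by positivity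
    have h1 : ‖f η * g (ξ - η)‖ * ((1 + |η|) ^ (n + 2) * (1 + |ξ - η|) ^ (n + 2)) ≤ A * B := by
      rw [norm_mul]
      calc ‖f η‖ * ‖g (ξ - η)‖ * ((1 + |η|) ^ (n + 2) * (1 + |ξ - η|) ^ (n + 2))
          = (‖f η‖ * (1 + |η|) ^ (n + 2)) * (‖g (ξ - η)‖ * (1 + |ξ - η|) ^ (n + 2)) := by ring
        _ ≤ A * B := mul_le_mul (hf η) (hg _) (by positivity) hA
    have h2 : (1 + |ξ|) ^ n * (1 + η ^ 2) ≤ (1 + |η|) ^ (n + 2) * (1 + |ξ - η|) ^ (n + 2) := by
      rw [← mul_pow, pow_add]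
      have h3 : 1 + |ξ| ≤ (1 + |η|) * (1 + |ξ - η|) := wj_tri ξ η
      have h4 : 1 + η ^ 2 ≤ ((1 + |η|) * (1 + |ξ - η|)) ^ 2 := by
        have h5 : 1 + |η| ≤ (1 + |η|) * (1 + |ξ - η|) := by
          have : 0 ≤ |ξ - η| := abs_nonneg _
          have h6 : 0 ≤ (1 + |η|) * |ξ - η| := by positivity
          linarith
        have h7 : (1 + |η|) ^ 2 ≤ ((1 + |η|) * (1 + |ξ - η|)) ^ 2 :=
          pow_le_pow_left₀ (by positivity) h5 2
        have h8 : 1 + η ^ 2 ≤ (1 + |η|) ^ 2 := by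
          have h9 : 0 ≤ |η| := abs_nonneg _
          nlinarith [sq_abs η]
        linarith
      exact mul_le_mul (pow_le_pow_left₀ (by positivity) h3 n) h4 (by positivity) (by positivity)
    have h5 : ‖f η * g (ξ - η)‖ * ((1 + |ξ|) ^ n * (1 + η ^ 2)) ≤ A * B :=
      (mul_le_mul_of_nonneg_left h2 (norm_nonneg _)).trans h1
    rw [div_mul_eq_mul_div, ← div_eq_mul_inv, div_div, le_div_iff₀ (by positivity)]
    rw [mul_comm ((1 : ℝ) + η ^ 2)]
    exact h5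
  have h6 := norm_integral_le_of_norm_le hint (Eventually.of_forall hb)
  rw [integral_const_mul, integral_univ_inv_one_add_sq] at h6
  calc ‖∫ η, f η * g (ξ - η)‖ * (1 + |ξ|) ^ n
      ≤ (A * B / (1 + |ξ|) ^ n * Real.pi) * (1 + |ξ|) ^ n :=
        mul_le_mul_of_nonneg_right h6 hX.le
    _ = A * B * Real.pi := by field_simp

theorem wj_mu (ξ : ℝ) : |mu ξ| ≤ (1 + |ξ|) ^ 4 := by
  unfold mu
  have h0 : 0 ≤ |ξ| := abs_nonneg ξ
  have h2 : ξ ^ 2 = |ξ| ^ 2 := (sq_abs ξ).symm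
  have h4 : ξ ^ 4 = |ξ| ^ 4 := by
    have : ξ ^ 4 = (ξ ^ 2) ^ 2 := by ring
    rw [this, h2]
    ring
  rw [h2, h4, abs_le]
  constructor <;> nlinarith [pow_nonneg h0 2, pow_nonneg h0 3, pow_nonneg h0 4]

theorem wj : S_WJ := by
  intro T p W hT hW h0 h1 j
  induction j using Nat.strong_induction_on with
  | _ j ih =>
    match j, ih with
    | 0, _ =>
      intro _
      obtain ⟨C, hC⟩ := h0
      exact ⟨C, fun ξ τ hτ => by simpa using hC ξ τ hτ⟩
    | 1, _ =>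
      intro _
      obtain ⟨C, hC⟩ := h1
      exact ⟨C, fun ξ τ hτ => by simpa using hC ξ τ hτ⟩
    | j + 2, ih =>
      intro hj
      obtain ⟨n, rfl⟩ : ∃ n, p = n + 1 + 2 * j := ⟨p - 1 - 2 * j, by omega⟩
      have key : ∀ i : ℕ, ∃ C : ℝ, 0 ≤ C ∧ (i ≤ j → ∀ ξ : ℝ, ∀ τ ∈ Ioo 0 T,
          ‖W i ξ τ‖ * (1 + |ξ|) ^ (n + 2) ≤ C) := by
        intro i
        by_cases hi : i ≤ j
        · obtain ⟨C, hC⟩ := ih i (by omega) (by omega)
          refine ⟨max C 0, le_max_right _ _, fun _ ξ τ hτ => ?_⟩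
          have hX : 1 ≤ 1 + |ξ| := by
            have := abs_nonneg ξ
            linarith
          exact (wj_aux hX (norm_nonneg _) (hC ξ τ hτ) (by omega)).trans (le_max_left _ _)
        · exact ⟨0, le_refl _, fun h => absurd h hi⟩
      choose D hD0 hD using key
      refine ⟨D j + ∑ i ∈ Finset.range (j + 1), (j.choose i : ℝ) * (D i * D (j - i) * Real.pi),
        fun ξ τ hτ => ?_⟩
      have hX0 : 0 ≤ |ξ| := abs_nonneg ξ
      have hX1 : 1 ≤ 1 + |ξ| := by linarith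
      have hXp : 0 < 1 + |ξ| := by linarith
      have hcv : ∀ i ∈ Finset.range (j + 1),
          ‖cv (W i) (W (j - i)) ξ τ‖ * (1 + |ξ|) ^ n ≤ D i * D (j - i) * Real.pi := by
        intro i hi
        have hij : i ≤ j := Nat.lt_succ_iff.mp (Finset.mem_range.mp hi)
        exact wj_conv n (fun η => W i η τ) (fun η => W (j - i) η τ) _ _ (hD0 _) (hD0 _)
          (fun η => hD i hij η τ hτ) (fun η => hD (j - i) (Nat.sub_le _ _) η τ hτ) ξ
      have hrec := hW.2.2 j ξ τ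
      have hn1 : ‖W (j + 2) ξ τ‖ ≤ |mu ξ| * ‖W j ξ τ‖ + ξ ^ 2 *
          ∑ i ∈ Finset.range (j + 1), (j.choose i : ℝ) * ‖cv (W i) (W (j - i)) ξ τ‖ := by
        rw [hrec]
        refine (norm_sub_le _ _).trans (add_le_add ?_ ?_)
        · rw [norm_mul, Complex.norm_real, Real.norm_eq_abs]
        · rw [norm_mul, norm_pow, Complex.norm_real, Real.norm_eq_abs, sq_abs]
          refine mul_le_mul_of_nonneg_left ?_ (sq_nonneg ξ)
          refine (norm_sum_le _ _).trans (le_of_eq ?_)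
          refine Finset.sum_congr rfl fun i _ => ?_
          rw [norm_mul, Complex.norm_natCast]
      have hA : |mu ξ| * ‖W j ξ τ‖ * (1 + |ξ|) ^ (n + 1 + 2 * j + 1) ≤
          D j * (1 + |ξ|) ^ (2 * (j + 2)) := by
        calc |mu ξ| * ‖W j ξ τ‖ * (1 + |ξ|) ^ (n + 1 + 2 * j + 1)
            = (|mu ξ| * (1 + |ξ|) ^ (2 * j)) * (‖W j ξ τ‖ * (1 + |ξ|) ^ (n + 2)) := by ring
          _ ≤ ((1 + |ξ|) ^ 4 * (1 + |ξ|) ^ (2 * j)) * D j := by
              refine mul_le_mul (mul_le_mul_of_nonneg_right (wj_mu ξ) (by positivity))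
                (hD j le_rfl ξ τ hτ) (by positivity) (by positivity)
          _ = D j * (1 + |ξ|) ^ (2 * (j + 2)) := by ring
      have hB : ξ ^ 2 * (∑ i ∈ Finset.range (j + 1),
          (j.choose i : ℝ) * ‖cv (W i) (W (j - i)) ξ τ‖) * (1 + |ξ|) ^ (n + 1 + 2 * j + 1) ≤
          (∑ i ∈ Finset.range (j + 1), (j.choose i : ℝ) * (D i * D (j - i) * Real.pi)) *
            (1 + |ξ|) ^ (2 * (j + 2)) := by
        have hS : (∑ i ∈ Finset.range (j + 1), (j.choose i : ℝ) * ‖cv (W i) (W (j - i)) ξ τ‖) *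
            (1 + |ξ|) ^ n ≤
            ∑ i ∈ Finset.range (j + 1), (j.choose i : ℝ) * (D i * D (j - i) * Real.pi) := by
          rw [Finset.sum_mul]
          refine Finset.sum_le_sum fun i hi => ?_
          rw [mul_assoc]
          exact mul_le_mul_of_nonneg_left (hcv i hi) (Nat.cast_nonneg _)
        have hS0 : 0 ≤ ∑ i ∈ Finset.range (j + 1), (j.choose i : ℝ) * (D i * D (j - i) * Real.pi) :=
          Finset.sum_nonneg fun i _ => mul_nonneg (Nat.cast_nonneg _)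
            (mul_nonneg (mul_nonneg (hD0 _) (hD0 _)) Real.pi_pos.le)
        have hxi : ξ ^ 2 ≤ (1 + |ξ|) ^ 2 := by
          rw [← sq_abs ξ]
          exact pow_le_pow_left₀ hX0 (by linarith) 2
        calc ξ ^ 2 * (∑ i ∈ Finset.range (j + 1),
            (j.choose i : ℝ) * ‖cv (W i) (W (j - i)) ξ τ‖) * (1 + |ξ|) ^ (n + 1 + 2 * j + 1)
            = (ξ ^ 2 * (1 + |ξ|) ^ (2 * j + 2)) * ((∑ i ∈ Finset.range (j + 1),
              (j.choose i : ℝ) * ‖cv (W i) (W (j - i)) ξ τ‖) * (1 + |ξ|) ^ n) := by ring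
          _ ≤ ((1 + |ξ|) ^ 2 * (1 + |ξ|) ^ (2 * j + 2)) *
              (∑ i ∈ Finset.range (j + 1), (j.choose i : ℝ) * (D i * D (j - i) * Real.pi)) := by
              refine mul_le_mul (mul_le_mul_of_nonneg_right hxi (by positivity)) hS ?_
                (by positivity)
              exact mul_nonneg (Finset.sum_nonneg fun i _ => by positivity) (by positivity)
          _ = _ := by ring
      calc ‖W (j + 2) ξ τ‖ * (1 + |ξ|) ^ (n + 1 + 2 * j + 1)
          ≤ (|mu ξ| * ‖W j ξ τ‖ + ξ ^ 2 *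
            ∑ i ∈ Finset.range (j + 1), (j.choose i : ℝ) * ‖cv (W i) (W (j - i)) ξ τ‖) *
              (1 + |ξ|) ^ (n + 1 + 2 * j + 1) := mul_le_mul_of_nonneg_right hn1 (by positivity)
        _ = |mu ξ| * ‖W j ξ τ‖ * (1 + |ξ|) ^ (n + 1 + 2 * j + 1) + ξ ^ 2 *
            (∑ i ∈ Finset.range (j + 1), (j.choose i : ℝ) * ‖cv (W i) (W (j - i)) ξ τ‖) *
              (1 + |ξ|) ^ (n + 1 + 2 * j + 1) := by ring
        _ ≤ _ := by
          rw [add_mul]
          exact add_le_add hA hB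

end Pool.Agent.Q82.BB
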