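import Mathlib

/-!
Series expansions for the biharmonic Poisson kernel.
-/

open Complex ComplexConjugate

namespace Q79.Biharm

/-- Harmonic numbers. -/
noncomputable def H (n : ℕ) : ℝ := ∑ k ∈ Finset.range n, 1 / ((k : ℝ) + 1)

/-- `∑_{k ≥ 1} x^k / (k + n)`. -/
noncomputable def E (x : ℝ) (n : ℕ) : ℝ := ∑' k : ℕ, x ^ (k + 1) / ((k : ℝ) + 1 + n)

/-- `d_n(r)` with `x = r²`. -/
noncomputable def d (x : ℝ) (n : ℕ) : ℝ := H n + E x n

lemma H_zero : H 0 = 0 := by simp [H]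

lemma H_succ (n : ℕ) : H (n + 1) = H n + 1 / ((n : ℝ) + 1) := by
  simp [H, Finset.sum_range_succ]

lemma H_nonneg (n : ℕ) : 0 ≤ H n := by
  unfold H; positivity

lemma H_le (n : ℕ) : H n ≤ n := by
  induction n with
  | zero => simp [H]
  | succ n ih =>
    rw [H_succ]
    have : 1 / ((n : ℝ) + 1) ≤ 1 := by
      rw [div_le_one (by positivity)]; linarith [(Nat.cast_nonneg n : (0 : ℝ) ≤ n)]
    push_cast; linarith

lemma E_term_le {x : ℝ} (hx0 : 0 ≤ x) (n k : ℕ) :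
    x ^ (k + 1) / ((k : ℝ) + 1 + n) ≤ x ^ (k + 1) / ((k : ℝ) + 1) := by
  apply div_le_div_of_nonneg_left (by positivity) (by positivity)
  linarith [(Nat.cast_nonneg n : (0 : ℝ) ≤ n)]

lemma E0_hasSum {x : ℝ} (hx0 : 0 ≤ x) (hx1 : x < 1) :
    HasSum (fun k : ℕ => x ^ (k + 1) / ((k : ℝ) + 1)) (-Real.log (1 - x)) :=
  Real.hasSum_pow_div_log_of_abs_lt_one (by rw [abs_of_nonneg hx0]; exact hx1)

lemma E_summable {x : ℝ} (hx0 : 0 ≤ x) (hx1 : x < 1) (n : ℕ) :
    Summable (fun k : ℕ => x ^ (k + 1) / ((k : ℝ) + 1 + n)) :=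
  Summable.of_nonneg_of_le (fun k => by positivity) (fun k => E_term_le hx0 n k)
    (E0_hasSum hx0 hx1).summable

lemma E_zero {x : ℝ} (hx0 : 0 ≤ x) (hx1 : x < 1) : E x 0 = -Real.log (1 - x) := by
  unfold E
  simpa using (E0_hasSum hx0 hx1).tsum_eq

lemma E_nonneg {x : ℝ} (hx0 : 0 ≤ x) (n : ℕ) : 0 ≤ E x n :=
  tsum_nonneg (fun k => by positivity)

lemma E_le {x : ℝ} (hx0 : 0 ≤ x) (hx1 : x < 1) (n : ℕ) : E x n ≤ -Real.log (1 - x) := by
  rw [← (E0_hasSum hx0 hx1).tsum_eq]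
  exact (E_summable hx0 hx1 n).tsum_le_tsum (fun k => E_term_le hx0 n k)
    (E0_hasSum hx0 hx1).summable

lemma E_rec {x : ℝ} (hx0 : 0 ≤ x) (hx1 : x < 1) (n : ℕ) :
    E x n = x / ((n : ℝ) + 1) + x * E x (n + 1) := by
  unfold E
  rw [(E_summable hx0 hx1 n).tsum_eq_zero_add, ← tsum_mul_left]
  congr 1
  · simp only [zero_add, pow_one, Nat.cast_zero]
    rw [add_comm]
  · apply tsum_congr
    intro k
    push_cast
    rw [pow_succ x (k + 1)]
    rw [show (k : ℝ) + 1 + 1 + n = (k : ℝ) + 1 + (n + 1) by ring]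
    ring

lemma log_shift {w : ℂ} (hw : ‖w‖ < 1) :
    HasSum (fun n : ℕ => w ^ (n + 1) / ((n : ℂ) + 1)) (-Complex.log (1 - w)) := by
  have h := Complex.hasSum_taylorSeries_neg_log hw
  rw [← hasSum_nat_add_iff' 1] at h
  simpa using h

lemma H_gen_summable {w : ℂ} (hw : ‖w‖ < 1) : Summable (fun n : ℕ => (H n : ℂ) * w ^ n) := by
  have h1 : Summable (fun n : ℕ => (n : ℝ) ^ 1 * ‖w‖ ^ n) :=
    summable_pow_mul_geometric_of_norm_lt_one 1 (by rwa [norm_norm])
  apply Summable.of_norm_bounded h1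
  intro n
  rw [norm_mul, norm_pow, Complex.norm_real, Real.norm_of_nonneg (H_nonneg n), pow_one]
  exact mul_le_mul_of_nonneg_right (H_le n) (by positivity)

lemma H_gen {w : ℂ} (hw : ‖w‖ < 1) :
    HasSum (fun n : ℕ => (H n : ℂ) * w ^ n) (-Complex.log (1 - w) / (1 - w)) := by
  have hs := H_gen_summable hw
  have h1 : ∑' n : ℕ, (H n : ℂ) * w ^ n =
      w * ∑' n : ℕ, (H n : ℂ) * w ^ n + -Complex.log (1 - w) := by
    conv_lhs => rw [hs.tsum_eq_zero_add]
    rw [← (log_shift hw).tsum_eq, ← tsum_mul_left, ← (hs.mul_left w).tsum_add (log_shift hw).summable]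
    simp only [H_zero, ofReal_zero, zero_mul, zero_add]
    apply tsum_congr
    intro n
    rw [H_succ]
    push_cast
    ring
  have hne : 1 - w ≠ 0 := by
    intro h
    have : w = 1 := by linear_combination -h
    rw [this] at hw
    simp at hw
  have h2 : ∑' n : ℕ, (H n : ℂ) * w ^ n = -Complex.log (1 - w) / (1 - w) := by
    rw [eq_div_iff hne]
    linear_combination h1
  rw [← h2]
  exact hs.hasSum

lemma E_gen_summable {w : ℂ} (hw : ‖w‖ < 1) {x : ℝ} (hx0 : 0 ≤ x) (hx1 : x < 1) :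
    Summable (fun n : ℕ => (E x n : ℂ) * w ^ n) := by
  have h1 : Summable (fun n : ℕ => (-Real.log (1 - x)) * ‖w‖ ^ n) :=
    (summable_geometric_of_lt_one (norm_nonneg _) hw).mul_left _
  apply Summable.of_norm_bounded h1
  intro n
  rw [norm_mul, norm_pow, Complex.norm_real, Real.norm_of_nonneg (E_nonneg hx0 n)]
  exact mul_le_mul_of_nonneg_right (E_le hx0 hx1 n) (by positivity)

lemma normSq_lt {w : ℂ} (hw : ‖w‖ < 1) : ‖w‖ ^ 2 < 1 := by
  have := norm_nonneg w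
  nlinarith

lemma one_sub_ne {w : ℂ} (hw : ‖w‖ < 1) : 1 - w ≠ 0 := by
  intro h
  have : w = 1 := by linear_combination -h
  rw [this] at hw
  simp at hw

lemma E_gen {w : ℂ} (hw : ‖w‖ < 1) :
    HasSum (fun n : ℕ => (E (‖w‖ ^ 2) n : ℂ) * w ^ n)
      (conj w / (1 - conj w) * (-Complex.log (1 - w) - (-Real.log (1 - ‖w‖ ^ 2) : ℝ))) := by
  set x : ℝ := ‖w‖ ^ 2 with hx
  have hx0 : 0 ≤ x := by positivity
  have hx1 : x < 1 := normSq_lt hw
  have hs := E_gen_summable hw hx0 hx1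
  have hxw : (x : ℂ) = w * conj w := by
    rw [Complex.mul_conj, hx, Complex.normSq_eq_norm_sq]
  have hcne : 1 - conj w ≠ 0 := one_sub_ne (by rwa [Complex.norm_conj])
  set S : ℂ := ∑' n : ℕ, (E x n : ℂ) * w ^ n with hS
  have h1 : w * S = x * (-Complex.log (1 - w)) + x * (S - (-Real.log (1 - x) : ℝ)) := by
    have e1 : S - (-Real.log (1 - x) : ℝ) = ∑' n : ℕ, (E x (n + 1) : ℂ) * w ^ (n + 1) := by
      rw [hS, hs.tsum_eq_zero_add, E_zero hx0 hx1]
      simp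
    rw [e1, ← (log_shift hw).tsum_eq, hS, ← tsum_mul_left, ← tsum_mul_left, ← tsum_mul_left]
    have hs1 : Summable (fun n : ℕ => (E x (n + 1) : ℂ) * w ^ (n + 1)) :=
      (summable_nat_add_iff 1).mpr hs
    rw [← ((log_shift hw).summable.mul_left (x : ℂ)).tsum_add (hs1.mul_left (x : ℂ))]
    apply tsum_congr
    intro n
    rw [E_rec hx0 hx1 n]
    push_cast
    ring
  have h2 : S = conj w / (1 - conj w) * (-Complex.log (1 - w) - (-Real.log (1 - x) : ℝ)) := by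
    rcases eq_or_ne w 0 with h0 | h0
    · have hx00 : x = 0 := by rw [hx, h0]; simp
      rw [hS, hx00, h0]
      have : ∀ n : ℕ, (E 0 n : ℂ) * (0 : ℂ) ^ n = 0 := by
        intro n
        have : E 0 n = 0 := by
          unfold E
          simp
        rw [this]; simp
      simp [this]
    · have h3 : w * ((1 - conj w) * S) =
          w * (conj w * (-Complex.log (1 - w) - (-Real.log (1 - x) : ℝ))) := by
        rw [hxw] at h1
        linear_combination h1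
      have h4 := mul_left_cancel₀ h0 h3
      field_simp
      linear_combination h4
  rw [← h2]
  exact hs.hasSum

lemma d_gen {w : ℂ} (hw : ‖w‖ < 1) :
    HasSum (fun n : ℕ => (d (‖w‖ ^ 2) n : ℂ) * w ^ n)
      (-Complex.log (1 - w) / (1 - w) +
        conj w / (1 - conj w) * (-Complex.log (1 - w) - (-Real.log (1 - ‖w‖ ^ 2) : ℝ))) := by
  have h := (H_gen hw).add (E_gen hw)
  refine h.congr_fun ?_ |> fun h => h
  intro n
  unfold d
  push_cast
  ring

/-- The expansion of `P log P` for `P = (1 - |w|²)/|1 - w|²`. -/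
lemma PlogP {w : ℂ} (hw : ‖w‖ < 1) :
    (((1 - ‖w‖ ^ 2) / ‖1 - w‖ ^ 2 * Real.log ((1 - ‖w‖ ^ 2) / ‖1 - w‖ ^ 2) : ℝ) : ℂ) =
      (-Complex.log (1 - w) / (1 - w) +
        conj w / (1 - conj w) * (-Complex.log (1 - w) - (-Real.log (1 - ‖w‖ ^ 2) : ℝ))) +
      conj (-Complex.log (1 - w) / (1 - w) +
        conj w / (1 - conj w) * (-Complex.log (1 - w) - (-Real.log (1 - ‖w‖ ^ 2) : ℝ))) -
      ((-Real.log (1 - ‖w‖ ^ 2) : ℝ) : ℂ) := by
  have hne : 1 - w ≠ 0 := one_sub_ne hw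
  have hcne : 1 - conj w ≠ 0 := one_sub_ne (by rwa [Complex.norm_conj])
  have hx1 : ‖w‖ ^ 2 < 1 := normSq_lt hw
  have hn : 0 < ‖1 - w‖ := norm_pos_iff.mpr hne
  have hlog : Real.log ((1 - ‖w‖ ^ 2) / ‖1 - w‖ ^ 2) =
      Real.log (1 - ‖w‖ ^ 2) - 2 * Real.log ‖1 - w‖ := by
    rw [Real.log_div (by linarith) (by positivity), Real.log_pow]
    push_cast; ring
  have hre : (Complex.log (1 - w)) + conj (Complex.log (1 - w)) =
      ((2 * Real.log ‖1 - w‖ : ℝ) : ℂ) := by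
    rw [Complex.add_conj, Complex.log_re]
  have hnn : ((‖1 - w‖ ^ 2 : ℝ) : ℂ) = (1 - w) * (1 - conj w) := by
    rw [← Complex.normSq_eq_norm_sq, ← Complex.mul_conj]
    simp
  have hxw : ((‖w‖ ^ 2 : ℝ) : ℂ) = w * conj w := by
    rw [Complex.mul_conj, Complex.normSq_eq_norm_sq]
  rw [hlog]
  have hc : conj (Complex.log (1 - w)) = ((2 * Real.log ‖1 - w‖ : ℝ) : ℂ) - Complex.log (1 - w) := by
    rw [← hre]; ring
  simp only [map_add, map_mul, map_div₀, map_sub, map_neg, map_one, Complex.conj_conj,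
    Complex.conj_ofReal, hc]
  push_cast at hnn hxw ⊢
  rw [hnn, hxw]
  field_simp
  ring

end Q79.Biharm
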