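import Mathlib
import Pool.Agent.Q79.BiharmA

/-!
Analytic functionals on the circle and their action on Laurent series.
-/

open Complex Filter Topology

namespace Q79.Biharm

/-- The annulus `1/ρ < |ξ| < ρ`. -/
def Annulus (ρ : ℝ) : Set ℂ := {ξ | ρ⁻¹ < ‖ξ‖ ∧ ‖ξ‖ < ρ}

/-- Real-analytic functions on the circle: restrictions of functions holomorphic on an annulus. -/
def IsRealAnalytic (g : Circle → ℂ) : Prop :=
  ∃ ρ : ℝ, 1 < ρ ∧ ∃ G : ℂ → ℂ, DifferentiableOn ℂ G (Annulus ρ) ∧ ∀ ξ : Circle, G ξ = g ξ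

/-- Continuous linear functionals on the space of real-analytic functions on the circle. -/
structure IsAnalyticFunctional (ν : (Circle → ℂ) → ℂ) : Prop where
  map_add : ∀ g h, IsRealAnalytic g → IsRealAnalytic h → ν (g + h) = ν g + ν h
  map_smul : ∀ (c : ℂ) g, IsRealAnalytic g → ν (c • g) = c * ν g
  bound : ∀ ρ : ℝ, 1 < ρ → ∃ C : ℝ, ∀ G : ℂ → ℂ, DifferentiableOn ℂ G (Annulus ρ) →
    ∀ M : ℝ, (∀ ξ ∈ Annulus ρ, ‖G ξ‖ ≤ M) → ‖ν (fun ξ => G ξ)‖ ≤ C * M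

lemma isOpen_annulus (ρ : ℝ) : IsOpen (Annulus ρ) :=
  (isOpen_lt continuous_const continuous_norm).inter (isOpen_lt continuous_norm continuous_const)

lemma circle_mem_annulus {ρ : ℝ} (hρ : 1 < ρ) (ξ : Circle) : (ξ : ℂ) ∈ Annulus ρ := by
  constructor
  · rw [Circle.norm_coe]; exact inv_lt_one_of_one_lt₀ hρ
  · rw [Circle.norm_coe]; exact hρ

/-- The monomials `ξ ↦ ξ^n`. -/
noncomputable def mono (n : ℤ) : Circle → ℂ := fun ξ => (ξ : ℂ) ^ n

lemma zpow_norm_le {ρ : ℝ} (hρ : 1 < ρ) (n : ℤ) {ξ : ℂ} (hξ : ξ ∈ Annulus ρ) :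
    ‖ξ ^ n‖ ≤ ρ ^ n.natAbs := by
  have h0 : 0 < ρ := by linarith
  have hξ0 : 0 < ‖ξ‖ := (inv_pos.mpr h0).trans hξ.1
  rw [norm_zpow]
  rcases Int.natAbs_eq n with h | h
  · rw [h]
    simp only [Int.natAbs_natCast, Int.natAbs_abs, zpow_natCast]
    exact pow_le_pow_left₀ hξ0.le hξ.2.le _
  · rw [h]
    simp only [Int.natAbs_neg, Int.natAbs_natCast, Int.natAbs_abs, zpow_neg, zpow_natCast]
    rw [← inv_pow]
    apply pow_le_pow_left₀ (inv_nonneg.mpr hξ0.le)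
    rw [inv_le_comm₀ hξ0 h0]
    exact hξ.1.le

lemma zpow_differentiableOn {ρ : ℝ} (hρ : 1 < ρ) (n : ℤ) :
    DifferentiableOn ℂ (fun ξ : ℂ => ξ ^ n) (Annulus ρ) := by
  have h0 : 0 < ρ := by linarith
  intro ξ hξ
  apply DifferentiableAt.differentiableWithinAt
  apply differentiableAt_zpow.mpr
  left
  intro h
  rw [h] at hξ
  have := (inv_pos.mpr h0).trans hξ.1
  simp at this

lemma mono_analytic (n : ℤ) : IsRealAnalytic (mono n) :=
  ⟨2, by norm_num, fun ξ => ξ ^ n, zpow_differentiableOn (by norm_num) n, fun _ => rfl⟩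

lemma annulus_mono {ρ σ : ℝ} (hρ : 1 < ρ) (h : ρ ≤ σ) : Annulus ρ ⊆ Annulus σ := by
  intro ξ hξ
  refine ⟨lt_of_le_of_lt ?_ hξ.1, hξ.2.trans_le h⟩
  exact inv_anti₀ (by linarith) h

lemma IsRealAnalytic.add {g h : Circle → ℂ} (hg : IsRealAnalytic g) (hh : IsRealAnalytic h) :
    IsRealAnalytic (g + h) := by
  obtain ⟨ρ, hρ, G, hG, hGg⟩ := hg
  obtain ⟨σ, hσ, K, hK, hKh⟩ := hh
  refine ⟨min ρ σ, lt_min hρ hσ, G + K, ?_, fun ξ => by simp [hGg, hKh]⟩
  exact (hG.mono (annulus_mono (lt_min hρ hσ) (min_le_left _ _))).add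
    (hK.mono (annulus_mono (lt_min hρ hσ) (min_le_right _ _)))

lemma IsRealAnalytic.smul {g : Circle → ℂ} (c : ℂ) (hg : IsRealAnalytic g) :
    IsRealAnalytic (c • g) := by
  obtain ⟨ρ, hρ, G, hG, hGg⟩ := hg
  exact ⟨ρ, hρ, c • G, hG.const_smul c, fun ξ => by simp [hGg]⟩

lemma IsRealAnalytic.zero : IsRealAnalytic (0 : Circle → ℂ) :=
  ⟨2, by norm_num, fun _ => 0, differentiableOn_const 0, fun _ => rfl⟩

lemma IsRealAnalytic.sum {ι : Type*} (s : Finset ι) (g : ι → Circle → ℂ)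
    (hg : ∀ i ∈ s, IsRealAnalytic (g i)) : IsRealAnalytic (∑ i ∈ s, g i) := by
  classical
  induction s using Finset.induction_on with
  | empty => simpa using IsRealAnalytic.zero
  | insert a s ha ih =>
    rw [Finset.sum_insert ha]
    exact (hg a (Finset.mem_insert_self a s)).add
      (ih (fun i hi => hg i (Finset.mem_insert_of_mem hi)))

variable {ν : (Circle → ℂ) → ℂ}

lemma IsAnalyticFunctional.map_zero (hν : IsAnalyticFunctional ν) : ν 0 = 0 := by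
  have := hν.map_smul 0 0 IsRealAnalytic.zero
  simpa using this

lemma IsAnalyticFunctional.map_sum (hν : IsAnalyticFunctional ν) (s : Finset ℤ) (c : ℤ → ℂ) :
    ν (∑ n ∈ s, c n • mono n) = ∑ n ∈ s, c n * ν (mono n) := by
  classical
  induction s using Finset.induction_on with
  | empty => simpa using hν.map_zero
  | insert a s ha ih =>
    rw [Finset.sum_insert ha, Finset.sum_insert ha, hν.map_add _ _ ((mono_analytic a).smul _)
      (IsRealAnalytic.sum s _ (fun i _ => (mono_analytic i).smul _)), ih,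
      hν.map_smul _ _ (mono_analytic a)]

/-- An analytic functional acts termwise on Laurent series. -/
lemma IsAnalyticFunctional.hasSum (hν : IsAnalyticFunctional ν) {ρ : ℝ} (hρ : 1 < ρ) (c : ℤ → ℂ)
    (hc : Summable (fun n : ℤ => ‖c n‖ * ρ ^ n.natAbs)) :
    HasSum (fun n : ℤ => c n * ν (mono n)) (ν (fun ξ => ∑' n : ℤ, c n * (ξ : ℂ) ^ n)) := by
  classical
  obtain ⟨C, hC⟩ := hν.bound ρ hρ
  set t : ℤ → ℝ := fun n => ‖c n‖ * ρ ^ n.natAbs with ht
  set G : ℂ → ℂ := fun ξ => ∑' n : ℤ, c n * ξ ^ n with hG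
  have hterm : ∀ (n : ℤ) (ξ : ℂ), ξ ∈ Annulus ρ → ‖c n * ξ ^ n‖ ≤ t n := by
    intro n ξ hξ
    rw [norm_mul]
    exact mul_le_mul_of_nonneg_left (zpow_norm_le hρ n hξ) (norm_nonneg _)
  have hGd : DifferentiableOn ℂ G (Annulus ρ) :=
    differentiableOn_tsum_of_summable_norm hc
      (fun n => (zpow_differentiableOn hρ n).const_mul (c n)) (isOpen_annulus ρ) hterm
  have hsum : ∀ ξ ∈ Annulus ρ, Summable (fun n : ℤ => c n * ξ ^ n) := fun ξ hξ =>
    Summable.of_norm_bounded hc (fun n => hterm n ξ hξ)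
  have hkey : ∀ s : Finset ℤ, ‖ν (fun ξ : Circle => G ξ) - ∑ n ∈ s, c n * ν (mono n)‖ ≤
      C * (∑' n : ℤ, t n - ∑ n ∈ s, t n) := by
    intro s
    set Gs : ℂ → ℂ := fun ξ => G ξ - ∑ n ∈ s, c n * ξ ^ n with hGs
    have hGsd : DifferentiableOn ℂ Gs (Annulus ρ) := by
      apply hGd.sub
      exact DifferentiableOn.fun_sum fun n _ => (zpow_differentiableOn hρ n).const_mul (c n)
    have hGsb : ∀ ξ ∈ Annulus ρ, ‖Gs ξ‖ ≤ ∑' n : ℤ, t n - ∑ n ∈ s, t n := by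
      intro ξ hξ
      have h1 : Gs ξ = ∑' n : ((s : Set ℤ)ᶜ : Set ℤ), c n * ξ ^ (n : ℤ) := by
        rw [hGs]
        simp only [hG]
        rw [← (hsum ξ hξ).sum_add_tsum_compl (s := s)]
        ring
      have h2 : ∑' n : ℤ, t n - ∑ n ∈ s, t n = ∑' n : ((s : Set ℤ)ᶜ : Set ℤ), t n := by
        rw [← hc.sum_add_tsum_compl (s := s)]
        ring
      rw [h1, h2]
      exact tsum_of_norm_bounded (hc.subtype _).hasSum (fun n => hterm n ξ hξ)
    have h3 := hC Gs hGsd _ hGsb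
    have h4 : (fun ξ : Circle => G ξ) = (∑ n ∈ s, c n • mono n) + (fun ξ : Circle => Gs ξ) := by
      funext ξ
      simp only [hGs, Pi.add_apply, Finset.sum_apply, Pi.smul_apply, smul_eq_mul, mono]
      ring
    rw [h4, hν.map_add _ _ (IsRealAnalytic.sum s _ (fun i _ => (mono_analytic i).smul _))
      ⟨ρ, hρ, Gs, hGsd, fun _ => rfl⟩, hν.map_sum, add_sub_cancel_left]
    exact h3
  have htend : Tendsto (fun s : Finset ℤ => C * (∑' n : ℤ, t n - ∑ n ∈ s, t n)) atTop (𝓝 0) := by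
    have h1 : Tendsto (fun s : Finset ℤ => ∑' n : ℤ, t n - ∑ n ∈ s, t n) atTop
        (𝓝 (∑' n : ℤ, t n - ∑' n : ℤ, t n)) := tendsto_const_nhds.sub hc.hasSum
    rw [sub_self] at h1
    simpa using h1.const_mul C
  rw [HasSum]
  have h5 : Tendsto (fun s : Finset ℤ => ν (fun ξ : Circle => G ξ) - ∑ n ∈ s, c n * ν (mono n))
      atTop (𝓝 0) := squeeze_zero_norm hkey htend
  have h6 := (tendsto_const_nhds (x := ν (fun ξ : Circle => G ξ))).sub h5
  simpa using h6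

/-- Growth of the coefficients. -/
lemma IsAnalyticFunctional.coeff_bound (hν : IsAnalyticFunctional ν) {ρ : ℝ} (hρ : 1 < ρ) :
    ∃ C : ℝ, 0 ≤ C ∧ ∀ n : ℤ, ‖ν (mono n)‖ ≤ C * ρ ^ n.natAbs := by
  obtain ⟨C, hC⟩ := hν.bound ρ hρ
  have h1 : ∀ n : ℤ, ‖ν (mono n)‖ ≤ C * ρ ^ n.natAbs := fun n =>
    hC (fun ξ => ξ ^ n) (zpow_differentiableOn hρ n) _ (fun ξ hξ => zpow_norm_le hρ n hξ)
  refine ⟨C, ?_, h1⟩
  have := (norm_nonneg _).trans (h1 0)
  simpa using this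

end Q79.Biharm
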