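import Mathlib
import Pool.Agent.Q79.BiharmA

/-!
The core inequality: if `∑ t^n x_n ≤ ∑ x_n` for `t ∈ [0,1]` then `L ∑ x_n ≤ ∑ d_n x_n`.
-/

open Filter Topology MeasureTheory

namespace Q79.Biharm

lemma telescope (n : ℕ) :
    HasSum (fun k : ℕ => 1 / ((k : ℝ) + 1 + n) - 1 / ((k : ℝ) + 1 + (n + 1))) (1 / ((n : ℝ) + 1)) := by
  have hnn : ∀ k : ℕ, 0 ≤ 1 / ((k : ℝ) + 1 + n) - 1 / ((k : ℝ) + 1 + (n + 1)) := by
    intro k
    rw [sub_nonneg]
    apply one_div_le_one_div_of_le (by positivity)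
    linarith
  rw [hasSum_iff_tendsto_nat_of_nonneg hnn]
  have hpart : ∀ N : ℕ, ∑ k ∈ Finset.range N,
      (1 / ((k : ℝ) + 1 + n) - 1 / ((k : ℝ) + 1 + (n + 1))) =
      1 / ((n : ℝ) + 1) - 1 / ((N : ℝ) + (n + 1)) := by
    intro N
    induction N with
    | zero => simp
    | succ N ih =>
      rw [Finset.sum_range_succ, ih]
      push_cast
      rw [show (N : ℝ) + 1 + n = N + (n + 1) by ring]
      ring
  simp_rw [hpart]
  have h1 : Tendsto (fun N : ℕ => 1 / ((N : ℝ) + (n + 1))) atTop (𝓝 0) := by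
    have h2 : Tendsto (fun N : ℕ => (N : ℝ) + (n + 1)) atTop atTop :=
      tendsto_atTop_add_const_right _ _ tendsto_natCast_atTop_atTop
    have h3 := h2.inv_tendsto_atTop
    refine h3.congr (fun N => ?_)
    simp [one_div]
  simpa using (tendsto_const_nhds (x := 1 / ((n : ℝ) + 1))).sub h1

lemma H_hasSum (n : ℕ) :
    HasSum (fun k : ℕ => 1 / ((k : ℝ) + 1) - 1 / ((k : ℝ) + 1 + n)) (H n) := by
  induction n with
  | zero => simp [H_zero]
  | succ n ih =>
    rw [H_succ]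
    have := ih.add (telescope n)
    refine this.congr_fun ?_ |> fun h => h
    intro k
    push_cast
    ring

/-- `d_n - L` as a series. -/
lemma d_sub {x : ℝ} (hx0 : 0 ≤ x) (hx1 : x < 1) (n : ℕ) :
    HasSum (fun k : ℕ => (1 - x ^ (k + 1)) * (1 / ((k : ℝ) + 1) - 1 / ((k : ℝ) + 1 + n)))
      (d x n - (-Real.log (1 - x))) := by
  have h1 := ((H_hasSum n).add (E_summable hx0 hx1 n).hasSum).sub (E0_hasSum hx0 hx1)
  refine h1.congr_fun ?_ |> fun h => h
  intro k
  ring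

lemma weight_nonneg (n k : ℕ) : 0 ≤ 1 / ((k : ℝ) + 1) - 1 / ((k : ℝ) + 1 + n) := by
  rw [sub_nonneg]
  apply one_div_le_one_div_of_le (by positivity)
  linarith [(Nat.cast_nonneg n : (0 : ℝ) ≤ n)]

lemma weight_le (n k : ℕ) : 1 / ((k : ℝ) + 1) - 1 / ((k : ℝ) + 1 + n) ≤
    (n : ℝ) * (1 / ((k : ℝ) + 1) ^ 2) := by
  have h1 : 1 / ((k : ℝ) + 1) - 1 / ((k : ℝ) + 1 + n) =
      n / (((k : ℝ) + 1) * ((k : ℝ) + 1 + n)) := by
    field_simp
    ring
  rw [h1, mul_one_div]
  apply div_le_div_of_nonneg_left (by positivity) (by positivity)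
  rw [pow_two]
  apply mul_le_mul_of_nonneg_left _ (by positivity)
  linarith [(Nat.cast_nonneg n : (0 : ℝ) ≤ n)]

/-- Each moment inequality. -/
lemma moment_nonneg {x : ℕ → ℝ} (hx : Summable (fun n => |x n|))
    (ht : ∀ t : ℝ, 0 ≤ t → t ≤ 1 → ∑' n, t ^ n * x n ≤ ∑' n, x n) (k : ℕ) :
    0 ≤ ∑' n : ℕ, x n * (1 / ((k : ℝ) + 1) - 1 / ((k : ℝ) + 1 + n)) := by
  have hxs : Summable x := hx.of_abs
  set F : ℕ → ℝ → ℝ := fun n t => x n * (t ^ k - t ^ (k + n)) with hF
  have hFint : ∀ n, ∫ t in (0 : ℝ)..1, F n t =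
      x n * (1 / ((k : ℝ) + 1) - 1 / ((k : ℝ) + 1 + n)) := by
    intro n
    simp only [hF]
    rw [intervalIntegral.integral_const_mul, intervalIntegral.integral_sub
      ((continuous_pow k).intervalIntegrable _ _) ((continuous_pow (k + n)).intervalIntegrable _ _)]
    simp only [integral_pow]
    push_cast
    norm_num
    left
    ring
  have hbound : ∀ n t, t ∈ Set.uIoc (0 : ℝ) 1 → ‖F n t‖ ≤ |x n| := by
    intro n t ht'
    rw [Set.uIoc_of_le zero_le_one] at ht'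
    simp only [hF]
    rw [norm_mul, Real.norm_eq_abs]
    have h1 : 0 ≤ t ^ (k + n) := pow_nonneg ht'.1.le _
    have h2 : t ^ (k + n) ≤ t ^ k := pow_le_pow_of_le_one ht'.1.le ht'.2 (by omega)
    have h3 : t ^ k ≤ 1 := pow_le_one₀ ht'.1.le ht'.2
    have h4 : ‖t ^ k - t ^ (k + n)‖ ≤ 1 := by
      rw [Real.norm_of_nonneg (by linarith)]
      linarith
    calc |x n| * ‖t ^ k - t ^ (k + n)‖ ≤ |x n| * 1 :=
          mul_le_mul_of_nonneg_left h4 (abs_nonneg _)
      _ = |x n| := mul_one _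
  have hlim : ∀ t ∈ Set.uIoc (0 : ℝ) 1,
      HasSum (fun n => F n t) (t ^ k * (∑' n, x n - ∑' n, t ^ n * x n)) := by
    intro t ht'
    rw [Set.uIoc_of_le zero_le_one] at ht'
    have hs : Summable (fun n => t ^ n * x n) := by
      apply Summable.of_norm_bounded hx
      intro n
      rw [norm_mul, Real.norm_eq_abs, Real.norm_eq_abs, abs_of_nonneg (pow_nonneg ht'.1.le _)]
      calc t ^ n * |x n| ≤ 1 * |x n| :=
            mul_le_mul_of_nonneg_right (pow_le_one₀ ht'.1.le ht'.2) (abs_nonneg _)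
        _ = |x n| := one_mul _
    have h := (hxs.hasSum.sub hs.hasSum).mul_left (t ^ k)
    refine h.congr_fun ?_ |> fun h => h
    intro n
    simp only [hF, pow_add]
    ring
  have hsum : HasSum (fun n => ∫ t in (0 : ℝ)..1, F n t)
      (∫ t in (0 : ℝ)..1, t ^ k * (∑' n, x n - ∑' n, t ^ n * x n)) := by
    refine intervalIntegral.hasSum_integral_of_dominated_convergence (fun n _ => |x n|)
      (fun n => ?_) (fun n => ?_) ?_ ?_ ?_
    · apply Continuous.aestronglyMeasurable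
      simp only [hF]
      fun_prop
    · exact Eventually.of_forall (fun t ht' => hbound n t ht')
    · exact Eventually.of_forall (fun t _ => hx)
    · exact intervalIntegrable_const
    · exact Eventually.of_forall (fun t ht' => hlim t ht')
  have h1 : ∑' n : ℕ, x n * (1 / ((k : ℝ) + 1) - 1 / ((k : ℝ) + 1 + n)) =
      ∫ t in (0 : ℝ)..1, t ^ k * (∑' n, x n - ∑' n, t ^ n * x n) := by
    rw [← hsum.tsum_eq]
    exact tsum_congr (fun n => (hFint n).symm)
  rw [h1]
  apply intervalIntegral.integral_nonneg zero_le_one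
  intro t ht'
  exact mul_nonneg (pow_nonneg ht'.1 _) (sub_nonneg.mpr (ht t ht'.1 ht'.2))

/-- The core inequality. -/
lemma core {x : ℕ → ℝ} (hx : Summable (fun n : ℕ => |x n| * ((n : ℝ) + 1)))
    (ht : ∀ t : ℝ, 0 ≤ t → t ≤ 1 → ∑' n, t ^ n * x n ≤ ∑' n, x n) {y : ℝ} (hy0 : 0 ≤ y)
    (hy1 : y < 1) (hd : Summable (fun n => d y n * x n)) :
    (-Real.log (1 - y)) * ∑' n, x n ≤ ∑' n, d y n * x n := by
  have hx1 : Summable (fun n => |x n|) := by
    refine Summable.of_nonneg_of_le (fun n => abs_nonneg _) (fun n => ?_) hx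
    nlinarith [abs_nonneg (x n), (Nat.cast_nonneg n : (0 : ℝ) ≤ n),
      mul_nonneg (abs_nonneg (x n)) (Nat.cast_nonneg n : (0 : ℝ) ≤ n)]
  have hxs : Summable x := hx1.of_abs
  set w : ℕ → ℕ → ℝ := fun n k =>
    (1 - y ^ (k + 1)) * (1 / ((k : ℝ) + 1) - 1 / ((k : ℝ) + 1 + n)) with hw
  have hw0 : ∀ n k, 0 ≤ w n k := by
    intro n k
    apply mul_nonneg _ (weight_nonneg n k)
    have : y ^ (k + 1) ≤ 1 := pow_le_one₀ hy0 hy1.le
    linarith
  have hw1 : ∀ n k, w n k ≤ (n : ℝ) * (1 / ((k : ℝ) + 1) ^ 2) := by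
    intro n k
    refine le_trans ?_ (weight_le n k)
    simp only [hw]
    have h1 : 1 - y ^ (k + 1) ≤ 1 := by
      have : 0 ≤ y ^ (k + 1) := pow_nonneg hy0 _
      linarith
    calc _ ≤ 1 * (1 / ((k : ℝ) + 1) - 1 / ((k : ℝ) + 1 + n)) :=
          mul_le_mul_of_nonneg_right h1 (weight_nonneg n k)
      _ = _ := one_mul _
  -- summability on the product
  have hzeta : Summable (fun k : ℕ => 1 / ((k : ℝ) + 1) ^ 2) := by
    have h1 : Summable (fun k : ℕ => 1 / (k : ℝ) ^ 2) :=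
      Real.summable_one_div_nat_pow.mpr (by norm_num)
    have h2 := (summable_nat_add_iff 1).mpr h1
    simpa using h2
  have hprod : Summable (fun p : ℕ × ℕ => x p.1 * w p.1 p.2) := by
    have h1 : Summable (fun p : ℕ × ℕ => (|x p.1| * ((p.1 : ℝ) + 1)) * (1 / ((p.2 : ℝ) + 1) ^ 2)) :=
      hx.mul_of_nonneg hzeta (fun n => by positivity) (fun k => by positivity)
    apply Summable.of_norm_bounded h1
    rintro ⟨n, k⟩
    rw [norm_mul, Real.norm_eq_abs, Real.norm_of_nonneg (hw0 n k), mul_assoc]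
    apply mul_le_mul_of_nonneg_left _ (abs_nonneg _)
    refine (hw1 n k).trans ?_
    apply mul_le_mul_of_nonneg_right _ (by positivity)
    simp
  have hdiff : ∑' n, d y n * x n - (-Real.log (1 - y)) * ∑' n, x n =
      ∑' n, ∑' k, x n * w n k := by
    rw [← tsum_mul_left, ← hd.tsum_sub (hxs.mul_left _)]
    apply tsum_congr
    intro n
    rw [tsum_mul_left, (d_sub hy0 hy1 n).tsum_eq]
    ring
  have hcomm : ∑' n, ∑' k, x n * w n k = ∑' k, ∑' n, x n * w n k :=
    (hprod.tsum_comm (f := fun n k => x n * w n k)).symm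
  have hnn : 0 ≤ ∑' k, ∑' n, x n * w n k := by
    apply tsum_nonneg
    intro k
    have h1 : ∑' n, x n * w n k = (1 - y ^ (k + 1)) *
        ∑' n : ℕ, x n * (1 / ((k : ℝ) + 1) - 1 / ((k : ℝ) + 1 + n)) := by
      rw [← tsum_mul_left]
      apply tsum_congr
      intro n
      simp only [hw]
      ring
    rw [h1]
    apply mul_nonneg _ (moment_nonneg hx1 ht k)
    have : y ^ (k + 1) ≤ 1 := pow_le_one₀ hy0 hy1.le
    linarith
  rw [← hcomm, ← hdiff] at hnn
  linarith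

end Q79.Biharm
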