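import Mathlib
import Pool.Agent.Q79.BiharmB
import Pool.Agent.Q79.BiharmC

/-!
The Poisson and biharmonic Poisson transforms of an analytic functional, as series, and the
bound of the former by the latter.
-/

open Complex Filter Topology ComplexConjugate

namespace Q79.Biharm

/-- The coefficients `r^{|n|} e^{-inα}`. -/
noncomputable def kap (z : ℂ) (n : ℤ) : ℂ := if 0 ≤ n then conj z ^ n.natAbs else z ^ n.natAbs

lemma norm_kap (z : ℂ) (n : ℤ) : ‖kap z n‖ = ‖z‖ ^ n.natAbs := by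
  unfold kap
  split_ifs
  · rw [norm_pow, Complex.norm_conj]
  · rw [norm_pow]

/-- Subexponential growth. -/
def Growth (b : ℤ → ℂ) : Prop := ∀ ρ : ℝ, 1 < ρ → ∃ C : ℝ, 0 ≤ C ∧ ∀ n : ℤ, ‖b n‖ ≤ C * ρ ^ n.natAbs

lemma summable_int {q : ℝ} (hq0 : 0 ≤ q) (hq1 : q < 1) :
    Summable (fun n : ℤ => ((n.natAbs : ℝ) + 1) * q ^ n.natAbs) := by
  have h0 : Summable (fun n : ℕ => ((n : ℝ) + 1) * q ^ n) := by
    have h1 : Summable (fun n : ℕ => (n : ℝ) ^ 1 * q ^ n) :=
      summable_pow_mul_geometric_of_norm_lt_one 1 (by rwa [Real.norm_of_nonneg hq0])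
    have h2 : Summable (fun n : ℕ => q ^ n) := summable_geometric_of_lt_one hq0 hq1
    refine (h1.add h2).congr (fun n => ?_)
    ring
  apply Summable.of_nat_of_neg
  · simpa using h0
  · simpa using h0

/-- The basic summability. -/
lemma summable_basic {b : ℤ → ℂ} (hb : Growth b) {r : ℝ} (hr0 : 0 ≤ r) (hr1 : r < 1) :
    Summable (fun n : ℤ => ((n.natAbs : ℝ) + 1) * r ^ n.natAbs * ‖b n‖) := by
  have hρ : 1 < 2 / (1 + r) := by rw [lt_div_iff₀ (by linarith)]; linarith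
  obtain ⟨C, hC0, hC⟩ := hb _ hρ
  set q : ℝ := 2 / (1 + r) * r with hq
  have hq0 : 0 ≤ q := by positivity
  have hq1 : q < 1 := by
    rw [hq, div_mul_eq_mul_div, div_lt_one (by linarith)]; linarith
  have h1 := (summable_int hq0 hq1).mul_left C
  refine Summable.of_nonneg_of_le (fun n => by positivity) (fun n => ?_) h1
  calc ((n.natAbs : ℝ) + 1) * r ^ n.natAbs * ‖b n‖
      ≤ ((n.natAbs : ℝ) + 1) * r ^ n.natAbs * (C * (2 / (1 + r)) ^ n.natAbs) :=
        mul_le_mul_of_nonneg_left (hC n) (by positivity)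
    _ = C * (((n.natAbs : ℝ) + 1) * q ^ n.natAbs) := by
        rw [hq, mul_pow]; ring

/-- The Poisson transform as a series. -/
noncomputable def hfun (b : ℤ → ℂ) (z : ℂ) : ℂ := ∑' n : ℤ, kap z n * b n

/-- The biharmonic Poisson transform as a series. -/
noncomputable def ffun (b : ℤ → ℂ) (z : ℂ) : ℂ :=
  ∑' n : ℤ, (d (‖z‖ ^ 2) n.natAbs : ℂ) * kap z n * b n

/-- The one-sided coefficients. -/
noncomputable def bet (b : ℤ → ℂ) (c : ℂ) (n : ℕ) : ℂ :=
  c * conj (b n) + if n = 0 then 0 else conj c * b (-(n : ℤ))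

lemma natAbs_neg_succ (n : ℕ) : (-((n : ℤ) + 1)).natAbs = n + 1 := by omega

lemma re_sum {b : ℤ → ℂ} (c z : ℂ) (e : ℕ → ℝ)
    (hs : Summable (fun n : ℤ => |e n.natAbs| * ‖z‖ ^ n.natAbs * ‖b n‖)) :
    HasSum (fun n : ℕ => e n * (bet b c n * z ^ n).re)
      (conj c * ∑' n : ℤ, (e n.natAbs : ℂ) * kap z n * b n).re := by
  set F : ℤ → ℂ := fun n => conj c * ((e n.natAbs : ℂ) * kap z n * b n) with hF
  have hFs : Summable F := by
    apply Summable.mul_left
    apply Summable.of_norm_bounded hs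
    intro n
    rw [norm_mul, norm_mul, norm_kap, Complex.norm_real, Real.norm_eq_abs]
  have hFre : Summable (fun n : ℤ => (F n).re) := (Complex.hasSum_re hFs.hasSum).summable
  have h1 : (conj c * ∑' n : ℤ, (e n.natAbs : ℂ) * kap z n * b n).re = ∑' n : ℤ, (F n).re := by
    rw [← tsum_mul_left, Complex.re_tsum hFs]
  rw [h1]
  have hpos : Summable (fun n : ℕ => (F n).re) := hFre.comp_injective Nat.cast_injective
  have hneg : Summable (fun n : ℕ => (F (-((n : ℤ) + 1))).re) :=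
    hFre.comp_injective (i := fun n : ℕ => -((n : ℤ) + 1)) (fun a b h => by simpa using h)
  have h2 : ∑' n : ℤ, (F n).re = ∑' n : ℕ, (F n).re + ∑' n : ℕ, (F (-((n : ℤ) + 1))).re :=
    tsum_of_nat_of_neg_add_one hpos hneg
  rw [h2]
  have e1 : ∀ n : ℕ, (F n).re = e n * (c * conj (b n) * z ^ n).re := by
    intro n
    have : F n = (e n : ℂ) * conj (c * conj (b n) * z ^ n) := by
      simp only [hF, kap, Int.natAbs_natCast, Nat.cast_nonneg, if_true, map_mul, map_pow,
        Complex.conj_conj]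
      ring
    rw [this, Complex.re_ofReal_mul, Complex.conj_re]
  have e2 : ∀ n : ℕ, (F (-((n : ℤ) + 1))).re =
      e (n + 1) * (conj c * b (-((n : ℤ) + 1)) * z ^ (n + 1)).re := by
    intro n
    have : F (-((n : ℤ) + 1)) = (e (n + 1) : ℂ) * (conj c * b (-((n : ℤ) + 1)) * z ^ (n + 1)) := by
      simp only [hF, kap, natAbs_neg_succ]
      rw [if_neg (by omega)]
      ring
    rw [this, Complex.re_ofReal_mul]
  -- the shifted second series
  set G : ℕ → ℝ := fun n => e n * (if n = 0 then 0 else (conj c * b (-(n : ℤ)) * z ^ n).re) with hG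
  have hGs : HasSum G (∑' n : ℕ, (F (-((n : ℤ) + 1))).re) := by
    rw [← hasSum_nat_add_iff' 1]
    simp only [Finset.sum_range_one]
    have hG0 : G 0 = 0 := by simp [hG]
    rw [hG0, sub_zero]
    refine hneg.hasSum.congr_fun ?_ |> fun h => h
    intro n
    rw [e2]
    simp only [hG]
    rw [if_neg (by omega)]
    push_cast
    rfl
  have h3 := hpos.hasSum.add hGs
  refine h3.congr_fun ?_ |> fun h => h
  intro n
  rw [e1]
  simp only [hG, bet]
  rcases Nat.eq_zero_or_pos n with h | h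
  · subst h; simp
  · rw [if_neg (by omega), if_neg (by omega), add_mul, Complex.add_re]
    ring

lemma d_nonneg {x : ℝ} (hx0 : 0 ≤ x) (n : ℕ) : 0 ≤ d x n := add_nonneg (H_nonneg n) (E_nonneg hx0 n)

lemma d_le {x : ℝ} (hx0 : 0 ≤ x) (hx1 : x < 1) (n : ℕ) :
    d x n ≤ (1 + -Real.log (1 - x)) * ((n : ℝ) + 1) := by
  unfold d
  have h1 := H_le n
  have h2 := E_le hx0 hx1 n
  have h3 := (E_nonneg hx0 0).trans (E_le hx0 hx1 0)
  have h4 : (0 : ℝ) ≤ n := Nat.cast_nonneg n
  nlinarith [mul_nonneg h3 h4]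

lemma summable_d {b : ℤ → ℂ} (hb : Growth b) {r : ℝ} (hr0 : 0 ≤ r) (hr1 : r < 1) :
    Summable (fun n : ℤ => |d (r ^ 2) n.natAbs| * r ^ n.natAbs * ‖b n‖) := by
  have hx0 : 0 ≤ r ^ 2 := by positivity
  have hx1 : r ^ 2 < 1 := by nlinarith
  refine Summable.of_nonneg_of_le (fun n => by positivity) (fun n => ?_)
    ((summable_basic hb hr0 hr1).mul_left (1 + -Real.log (1 - r ^ 2)))
  rw [abs_of_nonneg (d_nonneg hx0 _)]
  have h1 := d_le hx0 hx1 n.natAbs
  have h2 : 0 ≤ r ^ n.natAbs * ‖b n‖ := by positivity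
  calc d (r ^ 2) n.natAbs * r ^ n.natAbs * ‖b n‖ = d (r ^ 2) n.natAbs * (r ^ n.natAbs * ‖b n‖) := by
        ring
    _ ≤ ((1 + -Real.log (1 - r ^ 2)) * ((n.natAbs : ℝ) + 1)) * (r ^ n.natAbs * ‖b n‖) :=
        mul_le_mul_of_nonneg_right h1 h2
    _ = _ := by ring

lemma summable_one {b : ℤ → ℂ} (hb : Growth b) {r : ℝ} (hr0 : 0 ≤ r) (hr1 : r < 1) :
    Summable (fun n : ℤ => r ^ n.natAbs * ‖b n‖) := by
  refine Summable.of_nonneg_of_le (fun n => by positivity) (fun n => ?_)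
    (summable_basic hb hr0 hr1)
  have h2 : 0 ≤ r ^ n.natAbs * ‖b n‖ := by positivity
  have h3 : (0 : ℝ) ≤ n.natAbs := Nat.cast_nonneg _
  nlinarith [mul_nonneg h3 h2]

lemma bet_norm_le (b : ℤ → ℂ) (c : ℂ) (n : ℕ) :
    ‖bet b c n‖ ≤ ‖c‖ * ‖b n‖ + ‖c‖ * ‖b (-(n : ℤ))‖ := by
  unfold bet
  refine (norm_add_le _ _).trans ?_
  apply add_le_add
  · rw [norm_mul, Complex.norm_conj]
  · split_ifs
    · rw [norm_zero]; positivity
    · rw [norm_mul, Complex.norm_conj]

lemma bet_summable {b : ℤ → ℂ} (hb : Growth b) (c : ℂ) {r : ℝ} (hr0 : 0 ≤ r) (hr1 : r < 1) :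
    Summable (fun n : ℕ => ((n : ℝ) + 1) * r ^ n * ‖bet b c n‖) := by
  have h0 := summable_basic hb hr0 hr1
  have h1 : Summable (fun n : ℕ => ((n : ℝ) + 1) * r ^ n * ‖b n‖) := by
    have := h0.comp_injective (i := fun n : ℕ => (n : ℤ)) Nat.cast_injective
    simpa [Function.comp_def] using this
  have h2 : Summable (fun n : ℕ => ((n : ℝ) + 1) * r ^ n * ‖b (-(n : ℤ))‖) := by
    have := h0.comp_injective (i := fun n : ℕ => -(n : ℤ)) (fun a b h => by simpa using h)
    simpa [Function.comp_def] using this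
  refine Summable.of_nonneg_of_le (fun n => by positivity) (fun n => ?_)
    ((h1.mul_left ‖c‖).add (h2.mul_left ‖c‖))
  have := mul_le_mul_of_nonneg_left (bet_norm_le b c n)
    (show 0 ≤ ((n : ℝ) + 1) * r ^ n by positivity)
  linarith

/-- The holomorphic function whose real part is `Re (conj c * h)`. -/
noncomputable def Phi (b : ℤ → ℂ) (c : ℂ) (w : ℂ) : ℂ := ∑' n : ℕ, bet b c n * w ^ n

lemma Phi_re {b : ℤ → ℂ} (hb : Growth b) (c : ℂ) {w : ℂ} (hw : ‖w‖ < 1) :
    HasSum (fun n : ℕ => (bet b c n * w ^ n).re) (conj c * hfun b w).re := by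
  have h := re_sum (b := b) c w (fun _ => 1) (by
    simpa using summable_one hb (norm_nonneg w) hw)
  simpa [hfun] using h

lemma Phi_summable {b : ℤ → ℂ} (hb : Growth b) (c : ℂ) {r : ℝ} (hr0 : 0 ≤ r) (hr1 : r < 1) :
    Summable (fun n : ℕ => ‖bet b c n‖ * r ^ n) := by
  refine Summable.of_nonneg_of_le (fun n => by positivity) (fun n => ?_)
    (bet_summable hb c hr0 hr1)
  have h2 : 0 ≤ r ^ n * ‖bet b c n‖ := by positivity
  have h3 : (0 : ℝ) ≤ n := Nat.cast_nonneg _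
  nlinarith [mul_nonneg h3 h2]

lemma Phi_eq_re {b : ℤ → ℂ} (hb : Growth b) (c : ℂ) {w : ℂ} (hw : ‖w‖ < 1) :
    (Phi b c w).re = (conj c * hfun b w).re := by
  have hs : Summable (fun n : ℕ => bet b c n * w ^ n) := by
    apply Summable.of_norm_bounded (Phi_summable hb c (norm_nonneg w) hw)
    intro n
    rw [norm_mul, norm_pow]
  rw [← (Phi_re hb c hw).tsum_eq]
  exact Complex.re_tsum hs

lemma Phi_diff {b : ℤ → ℂ} (hb : Growth b) (c : ℂ) {r : ℝ} (hr0 : 0 ≤ r) (hr1 : r < 1) :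
    DifferentiableOn ℂ (Phi b c) (Metric.ball 0 r) := by
  apply differentiableOn_tsum_of_summable_norm (Phi_summable hb c hr0 hr1)
  · intro n
    fun_prop
  · exact Metric.isOpen_ball
  · intro n w hw
    rw [norm_mul, norm_pow]
    apply mul_le_mul_of_nonneg_left _ (norm_nonneg _)
    apply pow_le_pow_left₀ (norm_nonneg _)
    rw [mem_ball_zero_iff] at hw
    exact hw.le

lemma kap_continuous (n : ℤ) : Continuous (fun z => kap z n) := by
  unfold kap
  split_ifs
  · exact (Complex.continuous_conj).pow _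
  · exact continuous_pow _

lemma hfun_continuousOn {b : ℤ → ℂ} (hb : Growth b) {r : ℝ} (hr0 : 0 ≤ r) (hr1 : r < 1) :
    ContinuousOn (hfun b) (Metric.closedBall 0 r) := by
  apply continuousOn_tsum (fun n => ((kap_continuous n).mul continuous_const).continuousOn)
    (summable_one hb hr0 hr1)
  intro n z hz
  show ‖kap z n * b n‖ ≤ _
  rw [norm_mul, norm_kap]
  apply mul_le_mul_of_nonneg_right _ (norm_nonneg _)
  apply pow_le_pow_left₀ (norm_nonneg _)
  rwa [mem_closedBall_zero_iff] at hz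

/-- The maximum principle for `Re (conj c * h)`. -/
lemma max_principle {b : ℤ → ℂ} (hb : Growth b) (c : ℂ) {r : ℝ} (hr0 : 0 < r) (hr1 : r < 1) {M : ℝ}
    (hM : ∀ w : ℂ, ‖w‖ = r → (conj c * hfun b w).re ≤ M) {w : ℂ} (hw : ‖w‖ ≤ r) :
    (conj c * hfun b w).re ≤ M := by
  obtain ⟨r', hr', hr'1⟩ := exists_between hr1
  have hd : DifferentiableOn ℂ (fun w => Complex.exp (Phi b c w)) (Metric.ball 0 r') :=
    (Phi_diff hb c (hr0.trans hr').le hr'1).cexp
  have hdc : DiffContOnCl ℂ (fun w => Complex.exp (Phi b c w)) (Metric.ball 0 r) := by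
    apply hd.diffContOnCl_ball
    exact Metric.closedBall_subset_ball hr'
  have h1 := Complex.norm_le_of_forall_mem_frontier_norm_le Metric.isBounded_ball hdc
    (C := Real.exp M) (by
      intro z hz
      rw [frontier_ball (0 : ℂ) hr0.ne', mem_sphere_zero_iff_norm] at hz
      rw [Complex.norm_exp, Phi_eq_re hb c (by rw [hz]; exact hr1)]
      exact Real.exp_le_exp.mpr (hM z hz)) (z := w) (by
      rw [closure_ball (0 : ℂ) hr0.ne']
      exact mem_closedBall_zero_iff.mpr hw)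
  rw [Complex.norm_exp, Phi_eq_re hb c (hw.trans_lt hr1)] at h1
  exact Real.exp_le_exp.mp h1

/-- **Main estimate.** `log (1/(1-r²)) max_{|z|=r} |h| ≤ max_{|z|=r} |f|`. -/
theorem main_estimate {b : ℤ → ℂ} (hb : Growth b) {r : ℝ} (hr0 : 0 < r) (hr1 : r < 1) {S : ℝ}
    (hS : ∀ w : ℂ, ‖w‖ = r → ‖ffun b w‖ ≤ S) {w : ℂ} (hw : ‖w‖ = r) :
    (-Real.log (1 - r ^ 2)) * ‖hfun b w‖ ≤ S := by
  have hx0 : 0 ≤ r ^ 2 := by positivity
  have hx1 : r ^ 2 < 1 := by nlinarith
  have hL : 0 ≤ -Real.log (1 - r ^ 2) := (E_nonneg hx0 0).trans (E_le hx0 hx1 0)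
  obtain ⟨z0, hz0, hmax⟩ := (isCompact_sphere (0 : ℂ) r).exists_isMaxOn
    ⟨(r : ℂ), by simp [abs_of_pos hr0]⟩
    (((hfun_continuousOn hb hr0.le hr1).mono Metric.sphere_subset_closedBall).norm)
  rw [mem_sphere_zero_iff_norm] at hz0
  have hmax' : ∀ u : ℂ, ‖u‖ = r → ‖hfun b u‖ ≤ ‖hfun b z0‖ := fun u hu =>
    hmax (mem_sphere_zero_iff_norm.mpr hu)
  refine (mul_le_mul_of_nonneg_left (hmax' w hw) hL).trans ?_
  rcases eq_or_ne (hfun b z0) 0 with h0 | h0
  · rw [h0, norm_zero, mul_zero]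
    exact (norm_nonneg _).trans (hS w hw)
  set M : ℝ := ‖hfun b z0‖ with hMdef
  have hMpos : 0 < M := norm_pos_iff.mpr h0
  set c : ℂ := hfun b z0 / M with hc
  have hMne : (M : ℂ) ≠ 0 := by exact_mod_cast hMpos.ne'
  have hcn : ‖c‖ = 1 := by
    rw [hc, norm_div, Complex.norm_real, Real.norm_of_nonneg hMpos.le, div_self hMpos.ne']
  have hch : conj c * hfun b z0 = (M : ℂ) := by
    have h1 : hfun b z0 = c * M := by rw [hc]; field_simp
    have h2 : conj c * c = 1 := by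
      rw [mul_comm, Complex.mul_conj, Complex.normSq_eq_norm_sq, hcn]; simp
    calc conj c * hfun b z0 = (conj c * c) * M := by rw [h1]; ring
      _ = M := by rw [h2, one_mul]
  have hreM : ∀ u : ℂ, ‖u‖ = r → (conj c * hfun b u).re ≤ M := by
    intro u hu
    refine (Complex.re_le_norm _).trans ?_
    rw [norm_mul, Complex.norm_conj, hcn, one_mul]
    exact hmax' u hu
  set x : ℕ → ℝ := fun n => (bet b c n * z0 ^ n).re with hx
  have hxsum : HasSum x (conj c * hfun b z0).re := Phi_re hb c (by rw [hz0]; exact hr1)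
  have hxM : ∑' n, x n = M := by rw [hxsum.tsum_eq, hch, Complex.ofReal_re]
  have hxs : Summable (fun n : ℕ => |x n| * ((n : ℝ) + 1)) := by
    refine Summable.of_nonneg_of_le (fun n => by positivity) (fun n => ?_)
      (bet_summable hb c hr0.le hr1)
    have h1 : |x n| ≤ ‖bet b c n‖ * r ^ n := by
      refine (Complex.abs_re_le_norm _).trans ?_
      rw [norm_mul, norm_pow, hz0]
    calc |x n| * ((n : ℝ) + 1) ≤ (‖bet b c n‖ * r ^ n) * ((n : ℝ) + 1) :=
          mul_le_mul_of_nonneg_right h1 (by positivity)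
      _ = _ := by ring
  have ht : ∀ t : ℝ, 0 ≤ t → t ≤ 1 → ∑' n, t ^ n * x n ≤ ∑' n, x n := by
    intro t ht0 ht1
    rw [hxM]
    have hnorm : ‖(t : ℂ) * z0‖ ≤ r := by
      rw [norm_mul, Complex.norm_real, Real.norm_of_nonneg ht0, hz0]
      calc t * r ≤ 1 * r := mul_le_mul_of_nonneg_right ht1 hr0.le
        _ = r := one_mul r
    have h1 := max_principle hb c hr0 hr1 hreM hnorm
    rw [← (Phi_re hb c (hnorm.trans_lt hr1)).tsum_eq] at h1
    refine le_trans (le_of_eq ?_) h1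
    apply tsum_congr
    intro n
    simp only [hx]
    rw [mul_pow, ← Complex.re_ofReal_mul]
    congr 1
    push_cast
    ring
  have hdsum := re_sum (b := b) c z0 (d (r ^ 2)) (by rw [hz0]; exact summable_d hb hr0.le hr1)
  have hcore := core hxs ht hx0 hx1 hdsum.summable
  rw [hxM, hdsum.tsum_eq] at hcore
  refine hcore.trans ((Complex.re_le_norm _).trans ?_)
  rw [norm_mul, Complex.norm_conj, hcn, one_mul]
  have := hS z0 hz0
  unfold ffun at this
  rw [hz0] at this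
  exact this

end Q79.Biharm
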