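import Mathlib
import Pool.Agent.Q79.BiharmD

/-!
A bounded Poisson transform has a bounded boundary density.
-/

open Complex Filter Topology ComplexConjugate MeasureTheory AddCircle

namespace Q79.Biharm

variable {T : ℝ} [hT : Fact (0 < T)]

/-- The dilates of the Poisson transform as continuous functions on the circle. -/
noncomputable def dil (T : ℝ) (a : ℤ → ℂ) (r : ℝ) : C(AddCircle T, ℂ) :=
  ∑' n : ℤ, (((r ^ n.natAbs : ℝ) : ℂ) * a n) • (fourier n : C(AddCircle T, ℂ))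

lemma growth_neg {b : ℤ → ℂ} (hb : Growth b) : Growth (fun n => b (-n)) := by
  intro ρ hρ
  obtain ⟨C, hC0, hC⟩ := hb ρ hρ
  refine ⟨C, hC0, fun n => ?_⟩
  have := hC (-n)
  rwa [Int.natAbs_neg] at this

lemma dil_hasSum {a : ℤ → ℂ} (ha : Growth a) {r : ℝ} (hr0 : 0 ≤ r) (hr1 : r < 1) :
    HasSum (fun n : ℤ => (((r ^ n.natAbs : ℝ) : ℂ) * a n) • (fourier n : C(AddCircle T, ℂ)))
      (dil T a r) := by
  apply Summable.hasSum
  apply Summable.of_norm_bounded (summable_one ha hr0 hr1)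
  intro n
  rw [norm_smul, fourier_norm, mul_one, norm_mul, Complex.norm_real,
    Real.norm_of_nonneg (by positivity)]

lemma dil_apply {b : ℤ → ℂ} (hb : Growth b) {r : ℝ} (hr0 : 0 ≤ r) (hr1 : r < 1)
    (t : AddCircle T) :
    dil T (fun n => b (-n)) r t = hfun b ((r : ℂ) * (toCircle t : ℂ)) := by
  have h1 := dil_hasSum (T := T) (growth_neg hb) hr0 hr1
  have h2 := (ContinuousMap.evalCLM ℂ t).hasSum h1
  simp only [ContinuousMap.evalCLM_apply] at h2
  rw [← h2.tsum_eq]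
  unfold hfun
  rw [← (Equiv.neg ℤ).tsum_eq]
  apply tsum_congr
  intro n
  simp only [Equiv.neg_apply, neg_neg, Int.natAbs_neg, ContinuousMap.smul_apply, smul_eq_mul,
    fourier_apply]
  have hk : kap ((r : ℂ) * (toCircle t : ℂ)) n =
      ((r ^ n.natAbs : ℝ) : ℂ) * ((toCircle (-n • t) : Circle) : ℂ) := by
    unfold kap
    have hcj : conj ((toCircle t : Circle) : ℂ) = ((toCircle t)⁻¹ : Circle) := by
      rw [Circle.coe_inv_eq_conj]
    rw [toCircle_zsmul]
    split_ifs with h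
    · obtain ⟨m, rfl⟩ := Int.eq_ofNat_of_zero_le h
      simp only [Int.natAbs_natCast, map_mul, Complex.conj_ofReal, mul_pow, hcj, zpow_neg,
        zpow_natCast]
      push_cast
      rw [inv_pow]
    · obtain ⟨m, rfl⟩ : ∃ m : ℕ, n = -(m : ℤ) := ⟨n.natAbs, by omega⟩
      simp only [Int.natAbs_neg, Int.natAbs_natCast, neg_neg, zpow_natCast, mul_pow]
      push_cast
      rfl
  rw [hk]
  ring

lemma dil_repr {a : ℤ → ℂ} (ha : Growth a) {r : ℝ} (hr0 : 0 ≤ r) (hr1 : r < 1) (n : ℤ) :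
    fourierBasis.repr (ContinuousMap.toLp (E := ℂ) 2 haarAddCircle ℂ (dil T a r)) n =
      ((r ^ n.natAbs : ℝ) : ℂ) * a n := by
  have h1 := dil_hasSum (T := T) ha hr0 hr1
  have h2 := (ContinuousMap.toLp (E := ℂ) 2 (haarAddCircle (T := T)) ℂ).hasSum h1
  have h3 := (innerSL ℂ (fourierBasis (T := T) n)).hasSum h2
  rw [HilbertBasis.repr_apply_apply]
  have h4 : (innerSL ℂ (fourierBasis (T := T) n))
      ((ContinuousMap.toLp (E := ℂ) 2 (haarAddCircle (T := T)) ℂ) (dil T a r)) =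
      inner ℂ (fourierBasis (T := T) n)
        ((ContinuousMap.toLp (E := ℂ) 2 (haarAddCircle (T := T)) ℂ) (dil T a r)) := rfl
  rw [← h4, ← h3.tsum_eq]
  rw [tsum_eq_single n]
  · simp only [map_smul, innerSL_apply_apply, smul_eq_mul]
    have : (ContinuousMap.toLp (E := ℂ) 2 (haarAddCircle (T := T)) ℂ) (fourier n)
        = fourierBasis (T := T) n := by
      rw [coe_fourierBasis]
    rw [this, inner_self_eq_norm_sq_to_K, fourierBasis.orthonormal.1]
    simp
  · intro m hm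
    simp only [map_smul, innerSL_apply_apply, smul_eq_mul]
    have : (ContinuousMap.toLp (E := ℂ) 2 (haarAddCircle (T := T)) ℂ) (fourier m)
        = fourierBasis (T := T) m := by
      rw [coe_fourierBasis]
    rw [this, fourierBasis.orthonormal.2 (Ne.symm hm), mul_zero]

/-- A bounded Poisson transform has an `L^∞` density. -/
theorem exists_density {b : ℤ → ℂ} (hb : Growth b) {M : ℝ} (hM0 : 0 ≤ M)
    (hM : ∀ z : ℂ, 1 / 2 ≤ ‖z‖ → ‖z‖ < 1 → ‖hfun b z‖ ≤ M) :
    ∃ φ : AddCircle T → ℂ, MemLp φ ⊤ (haarAddCircle (T := T)) ∧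
      ∀ n : ℤ, fourierCoeff φ n = b (-n) := by
  set a : ℤ → ℂ := fun n => b (-n) with ha
  have hag : Growth a := growth_neg hb
  set U : ℝ → Lp ℂ 2 (haarAddCircle (T := T)) := fun r =>
    ContinuousMap.toLp (E := ℂ) 2 haarAddCircle ℂ (dil T a r) with hU
  have hdil : ∀ r : ℝ, 1 / 2 ≤ r → r < 1 → ‖dil T a r‖ ≤ M := by
    intro r hr0 hr1
    rw [ContinuousMap.norm_le _ hM0]
    intro t
    rw [ha, dil_apply hb (by linarith) hr1]
    have hn : ‖(r : ℂ) * (toCircle t : ℂ)‖ = r := by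
      rw [norm_mul, Circle.norm_coe, mul_one, Complex.norm_real, Real.norm_of_nonneg (by linarith)]
    exact hM _ (by rw [hn]; exact hr0) (by rw [hn]; exact hr1)
  have hop : ‖(ContinuousMap.toLp (E := ℂ) 2 (haarAddCircle (T := T)) ℂ :
      C(AddCircle T, ℂ) →L[ℂ] Lp ℂ 2 (haarAddCircle (T := T)))‖ ≤ 1 := by
    refine (ContinuousMap.toLp_norm_le _).trans ?_
    simp [measureUnivNNReal]
  have hUn : ∀ r : ℝ, 1 / 2 ≤ r → r < 1 → ‖U r‖ ≤ M := by
    intro r hr0 hr1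
    calc ‖U r‖ ≤ ‖(ContinuousMap.toLp (E := ℂ) 2 (haarAddCircle (T := T)) ℂ :
          C(AddCircle T, ℂ) →L[ℂ] Lp ℂ 2 (haarAddCircle (T := T)))‖ * ‖dil T a r‖ :=
          ContinuousLinearMap.le_opNorm _ _
      _ ≤ 1 * M := mul_le_mul hop (hdil r hr0 hr1) (norm_nonneg _) zero_le_one
      _ = M := one_mul M
  have hrepr : ∀ r : ℝ, 0 ≤ r → r < 1 → ∀ n : ℤ,
      fourierBasis.repr (U r) n = ((r ^ n.natAbs : ℝ) : ℂ) * a n := fun r h0 h1 n =>
    dil_repr hag h0 h1 n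
  -- the sequence of radii
  set ρ : ℕ → ℝ := fun k => 1 - 1 / ((k : ℝ) + 2) with hρ
  have hρ0 : ∀ k, 1 / 2 ≤ ρ k := by
    intro k
    have : 1 / ((k : ℝ) + 2) ≤ 1 / 2 := by
      apply one_div_le_one_div_of_le (by norm_num)
      linarith [(Nat.cast_nonneg k : (0 : ℝ) ≤ k)]
    simp only [hρ]; linarith
  have hρ1 : ∀ k, ρ k < 1 := by
    intro k
    have : 0 < 1 / ((k : ℝ) + 2) := by positivity
    simp only [hρ]; linarith
  have hρlim : Tendsto ρ atTop (𝓝 1) := by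
    have h1 : Tendsto (fun k : ℕ => 1 / ((k : ℝ) + 2)) atTop (𝓝 0) := by
      have h2 : Tendsto (fun k : ℕ => (k : ℝ) + 2) atTop atTop :=
        tendsto_atTop_add_const_right _ _ tendsto_natCast_atTop_atTop
      refine h2.inv_tendsto_atTop.congr (fun N => ?_)
      simp [one_div]
    have h9 := (tendsto_const_nhds (x := (1 : ℝ))).sub h1
    rw [sub_zero] at h9
    exact h9
  -- square summability
  have hsq : ∀ r : ℝ, 1 / 2 ≤ r → r < 1 → ∀ s : Finset ℤ,
      ∑ n ∈ s, ‖((r ^ n.natAbs : ℝ) : ℂ) * a n‖ ^ 2 ≤ M ^ 2 := by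
    intro r hr0 hr1 s
    have h1 : HasSum (fun n : ℤ => ‖fourierBasis.repr (U r) n‖ ^ 2)
        (‖fourierBasis.repr (U r)‖ ^ 2) := by
      apply_mod_cast lp.hasSum_norm ?_ (fourierBasis.repr (U r))
      simp
    have h2 : ‖fourierBasis.repr (U r)‖ ^ 2 ≤ M ^ 2 := by
      rw [LinearIsometryEquiv.norm_map]
      exact pow_le_pow_left₀ (norm_nonneg _) (hUn r hr0 hr1) 2
    refine le_trans ?_ h2
    rw [← h1.tsum_eq]
    have h3 := h1.summable.sum_le_tsum s (fun n _ => by positivity)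
    refine le_trans (le_of_eq ?_) h3
    apply Finset.sum_congr rfl
    intro n _
    rw [hrepr r (by linarith) hr1]
  have hsum : ∀ s : Finset ℤ, ∑ n ∈ s, ‖a n‖ ^ 2 ≤ M ^ 2 := by
    intro s
    have h1 : Tendsto (fun k => ∑ n ∈ s, ‖((ρ k ^ n.natAbs : ℝ) : ℂ) * a n‖ ^ 2) atTop
        (𝓝 (∑ n ∈ s, ‖((1 ^ n.natAbs : ℝ) : ℂ) * a n‖ ^ 2)) := by
      apply tendsto_finsetSum
      intro n _
      have h2 : Tendsto (fun k => ((ρ k ^ n.natAbs : ℝ) : ℂ)) atTop
          (𝓝 (((1 : ℝ) ^ n.natAbs : ℝ) : ℂ)) :=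
        (Complex.continuous_ofReal.tendsto _).comp (hρlim.pow _)
      exact ((h2.mul_const (a n)).norm).pow 2
    have h3 := le_of_tendsto' h1 (fun k => hsq (ρ k) (hρ0 k) (hρ1 k) s)
    simpa using h3
  have hasum : Summable (fun n : ℤ => ‖a n‖ ^ 2) :=
    summable_of_sum_le (fun n => by positivity) hsum
  have hamem : Memℓp a 2 := by
    apply memℓp_gen
    simpa using hasum
  set ψ : Lp ℂ 2 (haarAddCircle (T := T)) := fourierBasis.repr.symm ⟨a, hamem⟩ with hψ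
  have hψr : ∀ n : ℤ, fourierBasis.repr ψ n = a n := by
    intro n
    rw [hψ, LinearIsometryEquiv.apply_symm_apply]
  -- convergence of the dilates
  have hconv : Tendsto (fun k => U (ρ k)) atTop (𝓝 ψ) := by
    rw [tendsto_iff_norm_sub_tendsto_zero]
    have h1 : ∀ k, ‖U (ρ k) - ψ‖ ^ 2 =
        ∑' n : ℤ, ‖(((ρ k ^ n.natAbs : ℝ) : ℂ) - 1) * a n‖ ^ 2 := by
      intro k
      rw [← LinearIsometryEquiv.norm_map fourierBasis.repr (U (ρ k) - ψ)]
      have h2 : HasSum (fun n : ℤ => ‖fourierBasis.repr (U (ρ k) - ψ) n‖ ^ 2)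
          (‖fourierBasis.repr (U (ρ k) - ψ)‖ ^ 2) := by
        apply_mod_cast lp.hasSum_norm ?_ (fourierBasis.repr (U (ρ k) - ψ))
        simp
      rw [← h2.tsum_eq]
      apply tsum_congr
      intro n
      rw [map_sub, lp.coeFn_sub, Pi.sub_apply, hrepr _ (by linarith [hρ0 k]) (hρ1 k), hψr]
      congr 2
      ring
    have h3 : Tendsto (fun k => ∑' n : ℤ, ‖(((ρ k ^ n.natAbs : ℝ) : ℂ) - 1) * a n‖ ^ 2) atTop
        (𝓝 (∑' n : ℤ, (0 : ℝ))) := by
      apply tendsto_tsum_of_dominated_convergence hasum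
      · intro n
        have h4 : Tendsto (fun k => ((ρ k ^ n.natAbs : ℝ) : ℂ)) atTop
            (𝓝 (((1 : ℝ) ^ n.natAbs : ℝ) : ℂ)) :=
          (Complex.continuous_ofReal.tendsto _).comp (hρlim.pow _)
        have h5 := (((h4.sub_const 1).mul_const (a n)).norm).pow 2
        simpa using h5
      · apply Eventually.of_forall
        intro k n
        rw [Real.norm_of_nonneg (by positivity), norm_mul, mul_pow]
        have h6 : ‖((ρ k ^ n.natAbs : ℝ) : ℂ) - 1‖ ≤ 1 := by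
          rw [← Complex.ofReal_one, ← Complex.ofReal_sub, Complex.norm_real, Real.norm_eq_abs,
            abs_sub_comm, abs_of_nonneg]
          · have : 0 ≤ ρ k ^ n.natAbs := pow_nonneg (by linarith [hρ0 k]) _
            linarith
          · have : ρ k ^ n.natAbs ≤ 1 := pow_le_one₀ (by linarith [hρ0 k]) (hρ1 k).le
            linarith
        calc ‖((ρ k ^ n.natAbs : ℝ) : ℂ) - 1‖ ^ 2 * ‖a n‖ ^ 2 ≤ 1 ^ 2 * ‖a n‖ ^ 2 := by
              apply mul_le_mul_of_nonneg_right _ (by positivity)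
              exact pow_le_pow_left₀ (norm_nonneg _) h6 2
          _ = ‖a n‖ ^ 2 := by ring
    rw [tsum_zero] at h3
    have h7 : Tendsto (fun k => ‖U (ρ k) - ψ‖ ^ 2) atTop (𝓝 0) :=
      h3.congr (fun k => (h1 k).symm)
    have h8 := (Real.continuous_sqrt.tendsto 0).comp h7
    rw [Real.sqrt_zero] at h8
    refine h8.congr (fun k => ?_)
    exact Real.sqrt_sq (norm_nonneg _)
  obtain ⟨ns, _, hns⟩ := (tendstoInMeasure_of_tendsto_Lp hconv).exists_seq_tendsto_ae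
  have hae : ∀ k : ℕ, ∀ᵐ t ∂(haarAddCircle (T := T)), ‖(U (ρ k) : AddCircle T → ℂ) t‖ ≤ M := by
    intro k
    filter_upwards [ContinuousMap.coeFn_toLp (haarAddCircle (T := T)) (p := 2) (𝕜 := ℂ)
      (dil T a (ρ k))] with t ht
    rw [ht]
    exact (ContinuousMap.norm_coe_le_norm _ t).trans (hdil _ (hρ0 k) (hρ1 k))
  have hψM : ∀ᵐ t ∂(haarAddCircle (T := T)), ‖(ψ : AddCircle T → ℂ) t‖ ≤ M := by
    filter_upwards [hns, ae_all_iff.mpr hae] with t ht1 ht2
    exact le_of_tendsto' ht1.norm (fun k => ht2 (ns k))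
  refine ⟨ψ, memLp_top_of_bound (Lp.aestronglyMeasurable ψ) M hψM, ?_⟩
  intro n
  rw [← fourierBasis_repr, hψr]

end Q79.Biharm
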