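import Mathlib
import Pool.Agent.Q79.BiharmE

/-!
The biharmonic Poisson transform of an analytic functional, Fourier coefficients of real-analytic
functions, and the final theorem.
-/

open Complex Filter Topology ComplexConjugate MeasureTheory AddCircle

namespace Q79.Biharm

/-- The Poisson kernel. -/
noncomputable def P (z : ℂ) (ξ : Circle) : ℝ := (1 - ‖z‖ ^ 2) / ‖(ξ : ℂ) - z‖ ^ 2

/-- The biharmonic Poisson kernel. -/
noncomputable def P1 (z : ℂ) (ξ : Circle) : ℝ := P z ξ * Real.log (P z ξ)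

lemma P1_expansion {z : ℂ} (hz : ‖z‖ < 1) (ξ : Circle) :
    HasSum (fun n : ℤ => ((d (‖z‖ ^ 2) n.natAbs : ℂ) * kap z n) * (ξ : ℂ) ^ n)
      ((P1 z ξ : ℝ) : ℂ) := by
  have hξ0 : (ξ : ℂ) ≠ 0 := Circle.coe_ne_zero ξ
  set w : ℂ := conj z * ξ with hw
  have hwn : ‖w‖ = ‖z‖ := by rw [hw, norm_mul, Circle.norm_coe, mul_one, Complex.norm_conj]
  have hw1 : ‖w‖ < 1 := by rw [hwn]; exact hz
  have hcξ : conj (ξ : ℂ) = (ξ : ℂ)⁻¹ := by
    rw [← Circle.coe_inv_eq_conj, Circle.coe_inv]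
  have hcw : conj w = z * (ξ : ℂ)⁻¹ := by
    rw [hw, map_mul, Complex.conj_conj, hcξ]
  have hdist : ‖(ξ : ℂ) - z‖ = ‖1 - w‖ := by
    have h1 : (ξ : ℂ) - z = ξ * conj (1 - w) := by
      rw [map_sub, map_one, hcw]
      field_simp
    rw [h1, norm_mul, Circle.norm_coe, one_mul, Complex.norm_conj]
  have hP : ((P1 z ξ : ℝ) : ℂ) =
      (((1 - ‖w‖ ^ 2) / ‖1 - w‖ ^ 2 * Real.log ((1 - ‖w‖ ^ 2) / ‖1 - w‖ ^ 2) : ℝ) : ℂ) := by
    unfold P1 P
    rw [hdist, hwn]
  have hD := d_gen hw1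
  rw [hwn] at hD
  rw [hP, PlogP hw1, hwn]
  set D : ℂ := -Complex.log (1 - w) / (1 - w) +
    conj w / (1 - conj w) * (-Complex.log (1 - w) - (-Real.log (1 - ‖z‖ ^ 2) : ℝ)) with hDdef
  have hDc : HasSum (fun n : ℕ => (d (‖z‖ ^ 2) n : ℂ) * conj w ^ n) (conj D) := by
    have h1 := hD.map (starRingEnd ℂ) Complex.continuous_conj
    refine h1.congr_fun ?_ |> fun h => h
    intro n
    simp
  have hx0 : 0 ≤ ‖z‖ ^ 2 := by positivity
  have hx1 : ‖z‖ ^ 2 < 1 := normSq_lt hz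
  have hshift : HasSum (fun n : ℕ => (d (‖z‖ ^ 2) (n + 1) : ℂ) * conj w ^ (n + 1))
      (conj D - ((-Real.log (1 - ‖z‖ ^ 2) : ℝ) : ℂ)) := by
    have h1 := (hasSum_nat_add_iff' 1).mpr hDc
    rw [Finset.sum_range_one, pow_zero, mul_one] at h1
    have h2 : d (‖z‖ ^ 2) 0 = -Real.log (1 - ‖z‖ ^ 2) := by
      unfold d
      rw [H_zero, E_zero hx0 hx1, zero_add]
    rw [h2] at h1
    exact h1
  have hposs : HasSum (fun n : ℕ =>
      ((d (‖z‖ ^ 2) ((n : ℤ)).natAbs : ℂ) * kap z n) * (ξ : ℂ) ^ (n : ℤ)) D := by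
    refine hD.congr_fun ?_ |> fun h => h
    intro n
    simp only [kap, Int.natAbs_natCast, Nat.cast_nonneg, if_true, zpow_natCast, hw, mul_pow]
    ring
  have hnegs : HasSum (fun n : ℕ =>
      ((d (‖z‖ ^ 2) (-((n : ℤ) + 1)).natAbs : ℂ) * kap z (-((n : ℤ) + 1))) *
        (ξ : ℂ) ^ (-((n : ℤ) + 1)))
      (conj D - ((-Real.log (1 - ‖z‖ ^ 2) : ℝ) : ℂ)) := by
    refine hshift.congr_fun ?_ |> fun h => h
    intro n
    simp only [kap, natAbs_neg_succ]
    rw [if_neg (by omega), hcw, mul_pow, zpow_neg]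
    have : (ξ : ℂ) ^ ((n : ℤ) + 1) = (ξ : ℂ) ^ (n + 1) := by
      rw [← zpow_natCast]; push_cast; rfl
    rw [this, inv_pow]
    ring
  have h := HasSum.of_nat_of_neg_add_one (f := fun n : ℤ =>
    ((d (‖z‖ ^ 2) n.natAbs : ℂ) * kap z n) * (ξ : ℂ) ^ n) hposs hnegs
  convert h using 1
  ring

/-- The transform of an analytic functional as a series. -/
lemma transform_eq {ν : (Circle → ℂ) → ℂ} (hν : IsAnalyticFunctional ν) {z : ℂ} (hz : ‖z‖ < 1) :
    ν (fun ξ => ((P1 z ξ : ℝ) : ℂ)) = ffun (fun n => ν (mono n)) z := by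
  have hr0 : 0 ≤ ‖z‖ := norm_nonneg z
  have hρ : 1 < 2 / (1 + ‖z‖) := by rw [lt_div_iff₀ (by linarith)]; linarith
  have hx0 : 0 ≤ ‖z‖ ^ 2 := by positivity
  have hx1 : ‖z‖ ^ 2 < 1 := normSq_lt hz
  set q : ℝ := 2 / (1 + ‖z‖) * ‖z‖ with hq
  have hq0 : 0 ≤ q := by positivity
  have hq1 : q < 1 := by
    rw [hq, div_mul_eq_mul_div, div_lt_one (by linarith)]; linarith
  have hsum : Summable (fun n : ℤ => ‖(d (‖z‖ ^ 2) n.natAbs : ℂ) * kap z n‖ *
      (2 / (1 + ‖z‖)) ^ n.natAbs) := by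
    refine Summable.of_nonneg_of_le (fun n => by positivity) (fun n => ?_)
      ((summable_int hq0 hq1).mul_left (1 + -Real.log (1 - ‖z‖ ^ 2)))
    rw [norm_mul, norm_kap, Complex.norm_real, Real.norm_of_nonneg (d_nonneg hx0 _)]
    calc d (‖z‖ ^ 2) n.natAbs * ‖z‖ ^ n.natAbs * (2 / (1 + ‖z‖)) ^ n.natAbs
        = d (‖z‖ ^ 2) n.natAbs * q ^ n.natAbs := by rw [hq, mul_pow]; ring
      _ ≤ ((1 + -Real.log (1 - ‖z‖ ^ 2)) * ((n.natAbs : ℝ) + 1)) * q ^ n.natAbs :=
          mul_le_mul_of_nonneg_right (d_le hx0 hx1 _) (by positivity)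
      _ = _ := by ring
  have h := hν.hasSum hρ _ hsum
  have h1 : (fun ξ : Circle => ∑' n : ℤ, ((d (‖z‖ ^ 2) n.natAbs : ℂ) * kap z n) * (ξ : ℂ) ^ n) =
      fun ξ => ((P1 z ξ : ℝ) : ℂ) := by
    funext ξ
    exact (P1_expansion hz ξ).tsum_eq
  rw [h1] at h
  rw [← h.tsum_eq]
  rfl

lemma growth_of {ν : (Circle → ℂ) → ℂ} (hν : IsAnalyticFunctional ν) :
    Growth (fun n => ν (mono n)) := fun _ hρ => hν.coeff_bound hρ

/-- Comparison of `1 + R` and `L`. -/
lemma compare {r : ℝ} (hr0 : 1 / 2 ≤ r) (hr1 : r < 1) :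
    1 + Real.log ((1 + r) / (1 - r)) ≤
      (1 + (1 + 2 * Real.log 2) / Real.log (4 / 3)) * (-Real.log (1 - r ^ 2)) := by
  have h43 : 0 < Real.log (4 / 3) := Real.log_pos (by norm_num)
  have h2 : 0 < Real.log 2 := Real.log_pos (by norm_num)
  have h1 : 0 < 1 - r := by linarith
  have hL : Real.log (4 / 3) ≤ -Real.log (1 - r ^ 2) := by
    rw [← Real.log_inv]
    apply Real.log_le_log (by norm_num)
    rw [le_inv_comm₀ (by norm_num) (by nlinarith)]
    nlinarith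
  have hR : Real.log ((1 + r) / (1 - r)) ≤ -Real.log (1 - r ^ 2) + 2 * Real.log 2 := by
    have e1 : (1 + r) / (1 - r) = (1 + r) ^ 2 / (1 - r ^ 2) := by
      rw [div_eq_div_iff h1.ne' (by nlinarith)]
      ring
    rw [e1, Real.log_div (by positivity) (by nlinarith), Real.log_pow]
    have : Real.log (1 + r) ≤ Real.log 2 := Real.log_le_log (by linarith) (by linarith)
    push_cast
    linarith
  have h3 : 1 + 2 * Real.log 2 ≤ (1 + 2 * Real.log 2) / Real.log (4 / 3) *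
      (-Real.log (1 - r ^ 2)) := by
    rw [div_mul_eq_mul_div, le_div_iff₀ h43]
    exact mul_le_mul_of_nonneg_left hL (by linarith)
  linarith

lemma circle_coe_continuous : Continuous (fun ξ : Circle => (ξ : ℂ)) := by fun_prop

section TwoPi

local instance instTwoPiPos : Fact (0 < 2 * Real.pi) := ⟨Real.two_pi_pos⟩

/-- The Fourier coefficients of a real-analytic function as a circle integral. -/
lemma fourierCoeff_circle {g : Circle → ℂ} {G : ℂ → ℂ} (hG : ∀ ξ : Circle, G ξ = g ξ) (n : ℤ) :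
    fourierCoeff (fun t : AddCircle (2 * Real.pi) => g (toCircle t)) n =
      (2 * Real.pi * I)⁻¹ * ∮ z in C(0, 1), (z - 0)⁻¹ • (z ^ (-n) * G z) := by
  rw [fourierCoeff_eq_intervalIntegral _ n 0, zero_add, circleIntegral]
  have h1 : ∀ θ : ℝ, deriv (circleMap 0 1) θ • ((circleMap 0 1 θ - 0)⁻¹ •
      (circleMap 0 1 θ ^ (-n) * G (circleMap 0 1 θ))) =
      I * ((@fourier (2 * Real.pi) (-n)) (θ : AddCircle (2 * Real.pi)) •
        g (toCircle (θ : AddCircle (2 * Real.pi)))) := by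
    intro θ
    have hc : circleMap 0 1 θ = ((Circle.exp θ : Circle) : ℂ) := by
      simp [circleMap, Circle.coe_exp]
    have ht : toCircle (θ : AddCircle (2 * Real.pi)) = Circle.exp θ := by
      rw [toCircle_apply_mk]
      congr 1
      field_simp
    rw [deriv_circleMap, sub_zero, hc, hG, ht, fourier_apply, toCircle_zsmul, ht]
    have hne : ((Circle.exp θ : Circle) : ℂ) ≠ 0 := Circle.coe_ne_zero _
    simp only [smul_eq_mul]
    push_cast
    field_simp
  rw [intervalIntegral.integral_congr (g := fun θ : ℝ =>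
      I * ((@fourier (2 * Real.pi) (-n)) (θ : AddCircle (2 * Real.pi)) •
        g (toCircle (θ : AddCircle (2 * Real.pi))))) (fun θ _ => h1 θ),
    intervalIntegral.integral_const_mul]
  rw [Complex.real_smul]
  push_cast
  have : (2 * (Real.pi : ℂ) * I) ≠ 0 := by
    simp [Real.pi_ne_zero]
  field_simp

lemma circle_bound {ρ σ : ℝ} (hσ1 : 1 < σ) (hσρ : σ < ρ) {G : ℂ → ℂ}
    (hG : DifferentiableOn ℂ G (Annulus ρ)) : ∃ K : ℝ, 0 ≤ K ∧
      ∀ z : ℂ, σ⁻¹ ≤ ‖z‖ → ‖z‖ ≤ σ → ‖G z‖ ≤ K := by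
  have hσ0 : 0 < σ := by linarith
  have hcomp : IsCompact {z : ℂ | σ⁻¹ ≤ ‖z‖ ∧ ‖z‖ ≤ σ} := by
    have h1 : {z : ℂ | σ⁻¹ ≤ ‖z‖ ∧ ‖z‖ ≤ σ} = Metric.closedBall (0 : ℂ) σ ∩ {z | σ⁻¹ ≤ ‖z‖} := by
      ext z; simp [and_comm]
    rw [h1]
    exact (isCompact_closedBall (0 : ℂ) σ).inter_right (isClosed_le continuous_const continuous_norm)
  have hsub : {z : ℂ | σ⁻¹ ≤ ‖z‖ ∧ ‖z‖ ≤ σ} ⊆ Annulus ρ := by
    intro z hz
    refine ⟨lt_of_lt_of_le ?_ hz.1, hz.2.trans_lt hσρ⟩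
    exact inv_strictAnti₀ hσ0 hσρ
  obtain ⟨K, hK⟩ := hcomp.exists_bound_of_continuousOn (hG.continuousOn.mono hsub)
  refine ⟨max K 0, le_max_right _ _, fun z h1 h2 => (hK z ⟨h1, h2⟩).trans (le_max_left _ _)⟩

/-- Exponential decay of the Fourier coefficients of a real-analytic function. -/
lemma coeff_decay {g : Circle → ℂ} (hg : IsRealAnalytic g) : ∃ σ : ℝ, 1 < σ ∧ ∃ K : ℝ, 0 ≤ K ∧
    ∀ n : ℤ, ‖fourierCoeff (fun t : AddCircle (2 * Real.pi) => g (toCircle t)) n‖ ≤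
      K * (σ⁻¹) ^ n.natAbs := by
  obtain ⟨ρ, hρ, G, hG, hGg⟩ := hg
  obtain ⟨σ, hσ1, hσρ⟩ := exists_between hρ
  have hσ0 : 0 < σ := by linarith
  have hσi : σ⁻¹ < 1 := inv_lt_one_of_one_lt₀ hσ1
  have hσi0 : 0 < σ⁻¹ := inv_pos.mpr hσ0
  obtain ⟨K, hK0, hK⟩ := circle_bound hσ1 hσρ hG
  refine ⟨σ, hσ1, K, hK0, fun n => ?_⟩
  rw [fourierCoeff_circle hGg]
  -- the integrand is holomorphic in the annulus
  have hdiff : DifferentiableOn ℂ (fun z => z ^ (-n) * G z) (Annulus ρ) :=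
    (zpow_differentiableOn hρ (-n)).mul hG
  have hann : ∀ z : ℂ, σ⁻¹ ≤ ‖z‖ → ‖z‖ ≤ σ → z ∈ Annulus ρ := by
    intro z h1 h2
    refine ⟨lt_of_lt_of_le ?_ h1, h2.trans_lt hσρ⟩
    exact inv_strictAnti₀ hσ0 hσρ
  have hshift : ∀ a b : ℝ, σ⁻¹ ≤ a → a ≤ b → b ≤ σ →
      (∮ z in C(0, b), (z - 0)⁻¹ • (z ^ (-n) * G z)) =
      ∮ z in C(0, a), (z - 0)⁻¹ • (z ^ (-n) * G z) := by
    intro a b ha hab hb
    apply Complex.circleIntegral_sub_center_inv_smul_eq_of_differentiable_on_annulus_off_countable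
      (s := ∅) (hσi0.trans_le ha) hab Set.countable_empty
    · apply hdiff.continuousOn.mono
      rintro z ⟨h1, h2⟩
      rw [mem_closedBall_zero_iff] at h1
      rw [Metric.mem_ball, dist_zero_right, not_lt] at h2
      exact hann z (ha.trans h2) (h1.trans hb)
    · rintro z ⟨⟨h1, h2⟩, _⟩
      rw [Metric.mem_ball, dist_zero_right] at h1
      rw [Metric.mem_closedBall, dist_zero_right, not_le] at h2
      exact hdiff.differentiableAt ((isOpen_annulus ρ).mem_nhds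
        (hann z (ha.trans h2.le) (h1.le.trans hb)))
  have hpi : 0 < 2 * Real.pi := Real.two_pi_pos
  have hfinal : ∀ s : ℝ, σ⁻¹ ≤ s → s ≤ σ → (∮ z in C(0, 1), (z - 0)⁻¹ • (z ^ (-n) * G z)) =
      (∮ z in C(0, s), (z - 0)⁻¹ • (z ^ (-n) * G z)) →
      ‖(2 * Real.pi * I)⁻¹ * ∮ z in C(0, 1), (z - 0)⁻¹ • (z ^ (-n) * G z)‖ ≤ K * s ^ (-n) := by
    intro s hs1 hs2 heq
    have hs0 : 0 < s := hσi0.trans_le hs1
    rw [heq]
    have h1 : ‖∮ z in C(0, s), (z - 0)⁻¹ • (z ^ (-n) * G z)‖ ≤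
        2 * Real.pi * s * (s⁻¹ * (s ^ (-n) * K)) := by
      apply circleIntegral.norm_integral_le_of_norm_le_const hs0.le
      intro z hz
      rw [mem_sphere_zero_iff_norm] at hz
      rw [norm_smul, norm_inv, sub_zero, norm_mul, norm_zpow, hz]
      apply mul_le_mul_of_nonneg_left _ (inv_nonneg.mpr hs0.le)
      apply mul_le_mul_of_nonneg_left _ (by positivity)
      exact hK z (by rw [hz]; exact hs1) (by rw [hz]; exact hs2)
    rw [norm_mul, norm_inv]
    have h2 : ‖(2 * Real.pi * I : ℂ)‖ = 2 * Real.pi := by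
      rw [norm_mul, Complex.norm_I, mul_one, norm_mul, Complex.norm_real,
        Real.norm_of_nonneg Real.pi_pos.le]
      simp
    rw [h2, inv_mul_le_iff₀ hpi]
    refine h1.trans (le_of_eq ?_)
    field_simp
  rcases le_or_gt 0 n with hn | hn
  · have h1 := hfinal σ (hσi.le.trans hσ1.le) le_rfl (hshift 1 σ hσi.le hσ1.le le_rfl).symm
    refine h1.trans (le_of_eq ?_)
    obtain ⟨m, rfl⟩ := Int.eq_ofNat_of_zero_le hn
    simp only [Int.natAbs_natCast, zpow_neg, zpow_natCast, inv_pow]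
  · have h1 := hfinal σ⁻¹ le_rfl (hσi.le.trans hσ1.le) (hshift σ⁻¹ 1 le_rfl hσi.le hσ1.le)
    refine h1.trans (le_of_eq ?_)
    obtain ⟨m, rfl⟩ : ∃ m : ℕ, n = -(m : ℤ) := ⟨n.natAbs, by omega⟩
    simp only [neg_neg, zpow_natCast, Int.natAbs_neg, Int.natAbs_natCast]

/-- **Final theorem.** -/
theorem final {ν : (Circle → ℂ) → ℂ} (hν : IsAnalyticFunctional ν) {C : ℝ}
    (hC : ∀ z : ℂ, ‖z‖ < 1 →
      ‖ν (fun ξ => ((P1 z ξ : ℝ) : ℂ))‖ ≤ C * (1 + Real.log ((1 + ‖z‖) / (1 - ‖z‖)))) :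
    ∃ φ : AddCircle (2 * Real.pi) → ℂ,
      MemLp φ ⊤ (haarAddCircle (T := 2 * Real.pi)) ∧
      ∀ g : Circle → ℂ, IsRealAnalytic g →
        ν g = ∫ t : AddCircle (2 * Real.pi), g (toCircle t) * φ t ∂haarAddCircle := by
  set b : ℤ → ℂ := fun n => ν (mono n) with hb
  have hbg : Growth b := growth_of hν
  have h43 : 0 < Real.log (4 / 3) := Real.log_pos (by norm_num)
  have h2 : 0 < Real.log 2 := Real.log_pos (by norm_num)
  have hC0 : 0 ≤ C := by
    have := (norm_nonneg _).trans (hC 0 (by simp))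
    simpa using this
  set A : ℝ := 1 + (1 + 2 * Real.log 2) / Real.log (4 / 3) with hA
  have hA0 : 0 ≤ A := by positivity
  have hbound : ∀ z : ℂ, 1 / 2 ≤ ‖z‖ → ‖z‖ < 1 → ‖hfun b z‖ ≤ C * A := by
    intro z hz0 hz1
    have hr0 : 0 < ‖z‖ := by linarith
    have hL : 0 < -Real.log (1 - ‖z‖ ^ 2) := by
      have := Real.log_neg (x := 1 - ‖z‖ ^ 2) (by nlinarith) (by nlinarith)
      linarith
    have h1 := main_estimate hbg hr0 hz1 (S := C * (1 + Real.log ((1 + ‖z‖) / (1 - ‖z‖)))) (by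
      intro w hw
      have h3 := hC w (by rw [hw]; exact hz1)
      rw [transform_eq hν (by rw [hw]; exact hz1), hw] at h3
      exact h3) (w := z) rfl
    have h3 := mul_le_mul_of_nonneg_left (compare hz0 hz1) hC0
    have h4 : (-Real.log (1 - ‖z‖ ^ 2)) * ‖hfun b z‖ ≤ (-Real.log (1 - ‖z‖ ^ 2)) * (C * A) := by
      refine (h1.trans h3).trans (le_of_eq ?_)
      rw [hA]; ring
    exact le_of_mul_le_mul_left h4 hL
  obtain ⟨φ, hφ, hφc⟩ := exists_density (T := 2 * Real.pi) hbg (mul_nonneg hC0 hA0) hbound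
  refine ⟨φ, hφ, ?_⟩
  intro g hg
  obtain ⟨σ, hσ1, K, hK0, hK⟩ := coeff_decay hg
  have hσ0 : 0 < σ := by linarith
  set c : ℤ → ℂ := fourierCoeff (fun t : AddCircle (2 * Real.pi) => g (toCircle t)) with hc
  -- continuity of `g` on the circle
  have hgcont : Continuous (fun t : AddCircle (2 * Real.pi) => g (toCircle t)) := by
    obtain ⟨ρ, hρ, G, hG, hGg⟩ := hg
    have h1 : (fun t : AddCircle (2 * Real.pi) => g (toCircle t)) =
        fun t => G ((toCircle t : Circle) : ℂ) := by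
      funext t; rw [hGg]
    rw [h1]
    apply hG.continuousOn.comp_continuous
    · exact circle_coe_continuous.comp continuous_toCircle
    · intro t; exact circle_mem_annulus hρ _
  -- the intermediate radius
  set ρ : ℝ := (1 + σ) / 2 with hρ
  have hρ1 : 1 < ρ := by rw [hρ]; linarith
  have hρσ : ρ * σ⁻¹ < 1 := by
    rw [mul_inv_lt_iff₀ hσ0]; rw [hρ]; linarith
  have hq0 : 0 ≤ ρ * σ⁻¹ := by positivity
  have hcs : Summable (fun n : ℤ => ‖c n‖ * ρ ^ n.natAbs) := by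
    refine Summable.of_nonneg_of_le (fun n => by positivity) (fun n => ?_)
      ((summable_int hq0 hρσ).mul_left K)
    calc ‖c n‖ * ρ ^ n.natAbs ≤ (K * (σ⁻¹) ^ n.natAbs) * ρ ^ n.natAbs :=
          mul_le_mul_of_nonneg_right (hK n) (by positivity)
      _ = K * (1 * (ρ * σ⁻¹) ^ n.natAbs) := by rw [mul_pow]; ring
      _ ≤ K * (((n.natAbs : ℝ) + 1) * (ρ * σ⁻¹) ^ n.natAbs) := by
          apply mul_le_mul_of_nonneg_left _ hK0
          apply mul_le_mul_of_nonneg_right _ (by positivity)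
          linarith [(Nat.cast_nonneg n.natAbs : (0 : ℝ) ≤ n.natAbs)]
  have hcs1 : Summable (fun n : ℤ => ‖c n‖) := by
    refine Summable.of_nonneg_of_le (fun n => by positivity) (fun n => ?_) hcs
    have : (1 : ℝ) ≤ ρ ^ n.natAbs := one_le_pow₀ hρ1.le
    nlinarith [norm_nonneg (c n)]
  -- the Fourier series
  set gC : C(AddCircle (2 * Real.pi), ℂ) := ⟨fun t => g (toCircle t), hgcont⟩ with hgC
  have hcsum : Summable (fourierCoeff gC) := hcs1.of_norm
  have hpt : ∀ t : AddCircle (2 * Real.pi), HasSum (fun n : ℤ => c n * ((toCircle t : Circle) : ℂ) ^ n)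
      (g (toCircle t)) := by
    intro t
    have h1 := has_pointwise_sum_fourier_series_of_summable hcsum t
    refine h1.congr_fun ?_ |> fun h => h
    intro n
    rw [smul_eq_mul, fourier_apply, toCircle_zsmul]
    rfl
  have hgeq : g = fun ξ : Circle => ∑' n : ℤ, c n * (ξ : ℂ) ^ n := by
    funext ξ
    obtain ⟨t, rfl⟩ : ∃ t : AddCircle (2 * Real.pi), toCircle t = ξ :=
      ⟨(AddCircle.homeomorphCircle (Real.two_pi_pos.ne')).symm ξ,
        by rw [← AddCircle.homeomorphCircle_apply (Real.two_pi_pos.ne'),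
          Homeomorph.apply_symm_apply]⟩
    exact (hpt t).tsum_eq.symm
  have hν1 : HasSum (fun n : ℤ => c n * b n) (ν g) := by
    have h1 := hν.hasSum hρ1 c hcs
    rw [← hgeq] at h1
    exact h1
  -- the integral
  have hφ1 : Integrable φ (haarAddCircle (T := 2 * Real.pi)) := hφ.integrable le_top
  have hint : HasSum (fun n : ℤ => ∫ t : AddCircle (2 * Real.pi),
      (c n * ((toCircle t : Circle) : ℂ) ^ n) * φ t ∂haarAddCircle)
      (∫ t : AddCircle (2 * Real.pi), g (toCircle t) * φ t ∂haarAddCircle) := by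
    have h1 : ∀ n : ℤ, Continuous (fun t : AddCircle (2 * Real.pi) =>
        c n * ((toCircle t : Circle) : ℂ) ^ n) := by
      intro n
      apply continuous_const.mul
      exact (circle_coe_continuous.comp continuous_toCircle).zpow₀ n
        (fun t => Or.inl (Circle.coe_ne_zero _))
    have hnorm : ∀ n : ℤ, ∀ t : AddCircle (2 * Real.pi),
        ‖(c n * ((toCircle t : Circle) : ℂ) ^ n) * φ t‖ = ‖c n‖ * ‖φ t‖ := by
      intro n t
      rw [norm_mul, norm_mul, norm_zpow, Circle.norm_coe, one_zpow, mul_one]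
    have hF : ∀ n : ℤ, Integrable (fun t : AddCircle (2 * Real.pi) =>
        (c n * ((toCircle t : Circle) : ℂ) ^ n) * φ t) haarAddCircle := by
      intro n
      apply hφ1.bdd_mul (h1 n).aestronglyMeasurable (c := ‖c n‖)
      apply Eventually.of_forall
      intro t
      rw [norm_mul, norm_zpow, Circle.norm_coe, one_zpow, mul_one]
    have h2 := hasSum_integral_of_summable_integral_norm hF (by
      have h3 : ∀ n : ℤ, ∫ t : AddCircle (2 * Real.pi),
          ‖(c n * ((toCircle t : Circle) : ℂ) ^ n) * φ t‖ ∂haarAddCircle =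
          ‖c n‖ * ∫ t : AddCircle (2 * Real.pi), ‖φ t‖ ∂haarAddCircle := by
        intro n
        rw [← integral_const_mul]
        exact integral_congr_ae (Eventually.of_forall (fun t => hnorm n t))
      simp_rw [h3]
      exact hcs1.mul_right _)
    have h5 : (∫ t : AddCircle (2 * Real.pi), g (toCircle t) * φ t ∂haarAddCircle) =
        ∫ t : AddCircle (2 * Real.pi), ∑' n : ℤ, (c n * ((toCircle t : Circle) : ℂ) ^ n) * φ t
          ∂haarAddCircle := by
      apply integral_congr_ae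
      apply Eventually.of_forall
      intro t
      simp only
      rw [tsum_mul_right, (hpt t).tsum_eq]
    rw [h5]
    exact h2
  have hterm : ∀ n : ℤ, ∫ t : AddCircle (2 * Real.pi),
      (c n * ((toCircle t : Circle) : ℂ) ^ n) * φ t ∂haarAddCircle = c n * b n := by
    intro n
    have h1 : b n = fourierCoeff φ (-n) := by rw [hφc, neg_neg]
    rw [h1]
    unfold fourierCoeff
    rw [← integral_const_mul]
    apply integral_congr_ae
    apply Eventually.of_forall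
    intro t
    simp only [neg_neg, smul_eq_mul, fourier_apply, toCircle_zsmul]
    push_cast
    ring
  simp_rw [hterm] at hint
  exact hν1.unique hint

end TwoPi

end Q79.Biharm
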