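import Pool.Agent.Q82.CW.Stm

/-!
# Project CW, job CW-BUMP (MP_96e154_an): `S_BUMP`
-/

set_option autoImplicit false

open MeasureTheory Filter Topology Set
open scoped ContDiff

namespace Pool.Agent.Q82.CW

/-- an even bump, equal to `1` on `[-7, 7]` -/
noncomputable def bump_f : ContDiffBump (0 : ℝ) := ⟨7, 8, by norm_num, by norm_num⟩

/-- the first component: `-1` on `[-7, 7]` -/
noncomputable def bump_a (x : ℝ) : ℝ := -(bump_f x)

/-- the set `5 ≤ |x| ≤ 6` -/
def bump_s : Set ℝ := {x | 5 ≤ |x| ∧ |x| ≤ 6}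

/-- the third component: the indicator of `5 ≤ |x| ≤ 6` -/
noncomputable def bump_c : ℝ → ℝ := bump_s.indicator fun _ => 1

theorem bump_a_cd : ContDiff ℝ ∞ bump_a := bump_f.contDiff.neg

theorem bump_a_cs : HasCompactSupport bump_a := by
  have h : bump_a = -(bump_f : ℝ → ℝ) := rfl
  rw [h]
  exact bump_f.hasCompactSupport.neg

theorem bump_a_mem : MemLp bump_a 2 (volume : Measure ℝ) :=
  bump_a_cd.continuous.memLp_of_hasCompactSupport bump_a_cs

theorem bump_d_cont : Continuous (deriv bump_a) := bump_a_cd.continuous_deriv (by simp)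

theorem bump_d_mem : MemLp (deriv bump_a) 2 (volume : Measure ℝ) :=
  bump_d_cont.memLp_of_hasCompactSupport bump_a_cs.deriv

theorem bump_s_meas : MeasurableSet bump_s :=
  (measurableSet_le measurable_const measurable_norm).inter
    (measurableSet_le measurable_norm measurable_const)

theorem bump_s_fin : (volume : Measure ℝ) bump_s ≠ ⊤ := by
  have h : bump_s ⊆ Icc (-6) 6 := fun x hx => abs_le.mp hx.2
  exact ((measure_mono h).trans_lt isCompact_Icc.measure_lt_top).ne

theorem bump_c_mem : MemLp bump_c 2 (volume : Measure ℝ) :=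
  memLp_indicator_const 2 bump_s_meas 1 (Or.inr bump_s_fin)

theorem bump_a_even (x : ℝ) : bump_a (-x) = bump_a x := by
  unfold bump_a
  rw [bump_f.neg]

theorem bump_c_even (x : ℝ) : bump_c (-x) = bump_c x := by
  unfold bump_c bump_s
  simp only [Set.indicator, Set.mem_ofPred_eq, abs_neg]

theorem bump_toLp_even {f : ℝ → ℝ} (hf : MemLp f 2 (volume : Measure ℝ)) (h : ∀ x, f (-x) = f x) :
    EvenL2 hf.toLp := by
  filter_upwards [hf.coeFn_toLp, neg_ae hf.coeFn_toLp] with x h1 h2
  rw [h1, h2, h]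

theorem bump_weak : WeakDeriv bump_a_mem.toLp bump_d_mem.toLp := by
  intro φ hφ hc
  have hd : Continuous (deriv φ) := hφ.continuous_deriv (by simp)
  have e1 : ∫ x, (bump_a_mem.toLp : L2) x * deriv φ x = ∫ x, bump_a x * deriv φ x := by
    apply integral_congr_ae
    filter_upwards [bump_a_mem.coeFn_toLp] with x hx
    rw [hx]
  have e2 : ∫ x, (bump_d_mem.toLp : L2) x * φ x = ∫ x, deriv bump_a x * φ x := by
    apply integral_congr_ae
    filter_upwards [bump_d_mem.coeFn_toLp] with x hx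
    rw [hx]
  rw [e1, e2]
  have ha : ∀ x, HasDerivAt bump_a (deriv bump_a x) x := fun x =>
    (bump_a_cd.differentiable (by simp) x).hasDerivAt
  have hp : ∀ x, HasDerivAt φ (deriv φ x) x := fun x =>
    (hφ.differentiable (by simp) x).hasDerivAt
  refine integral_mul_deriv_eq_deriv_mul_of_integrable (fun x _ => ha x) (fun x _ => hp x) ?_ ?_ ?_
  · exact (bump_a_cd.continuous.mul hd).integrable_of_hasCompactSupport (hc.deriv.mul_left)
  · exact (bump_d_cont.mul hφ.continuous).integrable_of_hasCompactSupport hc.mul_left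
  · exact (bump_a_cd.continuous.mul hφ.continuous).integrable_of_hasCompactSupport hc.mul_left

/-- the element with `δ = κ = 1` -/
noncomputable def bump_x : X :=
  ⟨(bump_a_mem.toLp, bump_d_mem.toLp, bump_c_mem.toLp),
    bump_toLp_even bump_a_mem bump_a_even, bump_weak, bump_toLp_even bump_c_mem bump_c_even⟩

/-- **JOB CW-BUMP** -/
theorem bump1 : S_BUMP := by
  intro ρ hρ
  obtain ⟨ε, hε, hε'⟩ : ∃ ε : ℝ, 0 < ε ∧ ε * ‖bump_x‖ < ρ := by
    refine ⟨ρ / (2 * (‖bump_x‖ + 1)), by positivity, ?_⟩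
    rw [div_mul_eq_mul_div, div_lt_iff₀ (by positivity)]
    nlinarith [norm_nonneg bump_x]
  refine ⟨ε • bump_x, ε, ε, ?_, hε, hε, ?_, ?_⟩
  · rw [norm_smul, Real.norm_of_nonneg hε.le]
    exact hε'
  · have h1 : ((ε • bump_x : X) : L2 × L2 × L2).1 = ε • bump_a_mem.toLp := rfl
    rw [h1]
    filter_upwards [Lp.coeFn_smul ε bump_a_mem.toLp, bump_a_mem.coeFn_toLp] with x h2 h3 hx
    rw [h2, Pi.smul_apply, h3, smul_eq_mul]
    have : bump_f x = 1 := by
      apply bump_f.one_of_mem_closedBall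
      rw [Metric.mem_closedBall, Real.dist_eq, sub_zero]
      have : bump_f.rIn = 7 := rfl
      rw [this, abs_le]
      constructor <;> linarith [hx.1, hx.2]
    unfold bump_a
    rw [this]
    ring
  · have h1 : ((ε • bump_x : X) : L2 × L2 × L2).2.2 = ε • bump_c_mem.toLp := rfl
    rw [h1]
    filter_upwards [Lp.coeFn_smul ε bump_c_mem.toLp, bump_c_mem.coeFn_toLp] with x h2 h3 hx
    rw [h2, Pi.smul_apply, h3, smul_eq_mul]
    have hx0 : |x| = x := abs_of_nonneg (by linarith [hx.1])
    unfold bump_c bump_s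
    rw [Set.indicator_apply]
    simp only [Set.mem_ofPred_eq, hx0]
    by_cases h5 : 5 ≤ x
    · rw [if_pos ⟨h5, hx.2⟩, if_pos h5, mul_one]
    · rw [if_neg (fun h => h5 h.1), if_neg h5, mul_zero]

end Pool.Agent.Q82.CW
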