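import Mathlib

set_option autoImplicit false

open MeasureTheory Set Filter Topology Metric

namespace Pool.Agent.Q79.PW

theorem det_restrict (c : ℂ) :
    |((ContinuousLinearMap.toSpanSingleton ℂ c).restrictScalars ℝ).det| = ‖c‖ ^ 2 := by
  simp [ContinuousLinearMap.det, LinearMap.det_restrictScalars, Algebra.norm_complex_eq,
    Complex.normSq_eq_norm_sq]

/-- area formula, inequality for holomorphic maps -/
theorem vol_image_le (φ : ℂ → ℂ) (U S : Set ℂ) (hU : IsOpen U) (hφ : DifferentiableOn ℂ φ U)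
    (hS : MeasurableSet S) (hSU : S ⊆ U) :
    volume (φ '' S) ≤ ∫⁻ z in S, ENNReal.ofReal (‖deriv φ z‖ ^ 2) := by
  have h := addHaar_image_le_lintegral_abs_det_fderiv (f := φ) volume hS
    (f' := fun x => (ContinuousLinearMap.toSpanSingleton ℂ (deriv φ x)).restrictScalars ℝ)
    (fun x hx => (((hφ.differentiableAt (hU.mem_nhds (hSU hx))).hasDerivAt).hasFDerivAt.restrictScalars
      ℝ).hasFDerivWithinAt)
  simpa only [det_restrict] using h

/-- area formula, equality for injective holomorphic maps -/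
theorem vol_image_eq (φ : ℂ → ℂ) (U S : Set ℂ) (hU : IsOpen U) (hφ : DifferentiableOn ℂ φ U)
    (hS : MeasurableSet S) (hSU : S ⊆ U) (hi : InjOn φ S) :
    ∫⁻ z in S, ENNReal.ofReal (‖deriv φ z‖ ^ 2) = volume (φ '' S) := by
  have h := lintegral_abs_det_fderiv_eq_addHaar_image (f := φ) volume hS
    (f' := fun x => (ContinuousLinearMap.toSpanSingleton ℂ (deriv φ x)).restrictScalars ℝ)
    (fun x hx => (((hφ.differentiableAt (hU.mem_nhds (hSU hx))).hasDerivAt).hasFDerivAt.restrictScalars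
      ℝ).hasFDerivWithinAt) hi
  simpa only [det_restrict] using h

/-- A map which is close to a similarity on a disc. -/
structure Sim (F : ℂ → ℂ) (t₀ a : ℂ) (ρ : ℝ) : Prop where
  ρ0 : 0 < ρ
  a0 : a ≠ 0
  d : DifferentiableOn ℂ F (ball t₀ ρ)
  b : ∀ t ∈ ball t₀ ρ, ‖deriv F t - a‖ ≤ ‖a‖ / 2

variable {F : ℂ → ℂ} {t₀ a : ℂ} {ρ : ℝ}

theorem Sim.apos (h : Sim F t₀ a ρ) : 0 < ‖a‖ := norm_pos_iff.2 h.a0

theorem Sim.diffAt (h : Sim F t₀ a ρ) {t : ℂ} (ht : t ∈ ball t₀ ρ) : DifferentiableAt ℂ F t :=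
  h.d.differentiableAt (isOpen_ball.mem_nhds ht)

theorem Sim.approx (h : Sim F t₀ a ρ) {t t' : ℂ} (ht : t ∈ ball t₀ ρ) (ht' : t' ∈ ball t₀ ρ) :
    ‖(F t - F t') - a * (t - t')‖ ≤ ‖a‖ / 2 * ‖t - t'‖ := by
  have hd : ∀ x ∈ ball t₀ ρ, HasDerivWithinAt (fun t => F t - a * t) (deriv F x - a)
      (ball t₀ ρ) x := by
    intro x hx
    have h1 := (h.diffAt hx).hasDerivAt
    have h2 : HasDerivAt (fun t : ℂ => a * t) a x := by
      simpa using (hasDerivAt_id x).const_mul a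
    exact (h1.sub h2).hasDerivWithinAt
  have h1 := (convex_ball t₀ ρ).norm_image_sub_le_of_norm_hasDerivWithin_le hd h.b ht' ht
  have e1 : (F t - F t') - a * (t - t') = (F t - a * t) - (F t' - a * t') := by ring
  rw [e1]
  exact h1

theorem Sim.lower (h : Sim F t₀ a ρ) {t t' : ℂ} (ht : t ∈ ball t₀ ρ) (ht' : t' ∈ ball t₀ ρ) :
    ‖a‖ / 2 * ‖t - t'‖ ≤ ‖F t - F t'‖ := by
  have h1 := h.approx ht ht'
  have h2 : ‖a * (t - t')‖ ≤ ‖F t - F t'‖ + ‖(F t - F t') - a * (t - t')‖ := by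
    have e : a * (t - t') = (F t - F t') - ((F t - F t') - a * (t - t')) := by ring
    calc ‖a * (t - t')‖ = ‖(F t - F t') - ((F t - F t') - a * (t - t'))‖ := by rw [← e]
      _ ≤ _ := norm_sub_le _ _
  rw [norm_mul] at h2
  linarith

theorem Sim.upper (h : Sim F t₀ a ρ) {t t' : ℂ} (ht : t ∈ ball t₀ ρ) (ht' : t' ∈ ball t₀ ρ) :
    ‖F t - F t'‖ ≤ 3 / 2 * ‖a‖ * ‖t - t'‖ := by
  have h1 := h.approx ht ht'
  have h2 : ‖F t - F t'‖ ≤ ‖a * (t - t')‖ + ‖(F t - F t') - a * (t - t')‖ := by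
    have e : (F t - F t') = a * (t - t') + ((F t - F t') - a * (t - t')) := by ring
    calc ‖F t - F t'‖ = ‖a * (t - t') + ((F t - F t') - a * (t - t'))‖ := by rw [← e]
      _ ≤ _ := norm_add_le _ _
  rw [norm_mul] at h2
  linarith

theorem Sim.inj (h : Sim F t₀ a ρ) : InjOn F (ball t₀ ρ) := by
  intro t ht t' ht' he
  have h1 := h.lower ht ht'
  rw [he, sub_self, norm_zero] at h1
  have h2 := h.apos
  have h3 : ‖t - t'‖ ≤ 0 := by
    by_contra hcon
    push Not at hcon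
    have : 0 < ‖a‖ / 2 * ‖t - t'‖ := by positivity
    linarith
  exact sub_eq_zero.1 (norm_le_zero_iff.1 h3)

theorem Sim.image (h : Sim F t₀ a ρ) : ball (F t₀) (‖a‖ * ρ / 8) ⊆ F '' closedBall t₀ (ρ / 2) := by
  have hρ := h.ρ0
  have ha := h.apos
  have hsub : closedBall t₀ (ρ / 2) ⊆ ball t₀ ρ := closedBall_subset_ball (by linarith)
  have hdc : DiffContOnCl ℂ F (ball t₀ (ρ / 2)) := by
    apply DifferentiableOn.diffContOnCl
    rw [closure_ball _ (by linarith : ρ / 2 ≠ 0)]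
    exact h.d.mono hsub
  have h0 : t₀ ∈ ball t₀ ρ := mem_ball_self hρ
  have h1 := hdc.ball_subset_image_closedBall (ε := ‖a‖ * ρ / 4) (by linarith) (by
    intro z hz
    rw [mem_sphere, dist_eq_norm] at hz
    have hz' : z ∈ ball t₀ ρ := hsub (by rw [mem_closedBall, dist_eq_norm]; exact hz.le)
    have := h.lower hz' h0
    rw [hz] at this
    linarith) (by
    apply Filter.Eventually.frequently (f := 𝓝[≠] t₀) _ |>.filter_mono nhdsWithin_le_nhds
    filter_upwards [self_mem_nhdsWithin, mem_nhdsWithin_of_mem_nhds (isOpen_ball.mem_nhds h0)]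
      with z hz hz2 he
    exact hz (h.inj hz2 h0 he))
  have e : ‖a‖ * ρ / 4 / 2 = ‖a‖ * ρ / 8 := by ring
  rwa [e] at h1

/-- the inverse -/
theorem Sim.inverse (h : Sim F t₀ a ρ) : ∃ Φ : ℂ → ℂ,
    (∀ y ∈ ball (F t₀) (‖a‖ * ρ / 8), Φ y ∈ ball t₀ ρ ∧ F (Φ y) = y ∧ DifferentiableAt ℂ Φ y ∧
      ‖deriv Φ y‖ ≤ 2 / ‖a‖) ∧
    (∀ t ∈ ball t₀ ρ, F t ∈ ball (F t₀) (‖a‖ * ρ / 8) → Φ (F t) = t) := by
  classical
  have hρ := h.ρ0
  have ha := h.apos
  have him : ∀ y ∈ ball (F t₀) (‖a‖ * ρ / 8), ∃ t, t ∈ closedBall t₀ (ρ / 2) ∧ F t = y :=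
    fun y hy => h.image hy
  have hsub : closedBall t₀ (ρ / 2) ⊆ ball t₀ ρ := closedBall_subset_ball (by linarith)
  choose! Φ hΦ1 hΦ2 using him
  have hmem : ∀ y ∈ ball (F t₀) (‖a‖ * ρ / 8), Φ y ∈ ball t₀ ρ := fun y hy => hsub (hΦ1 y hy)
  refine ⟨Φ, ?_, ?_⟩
  · intro y hy
    have hnh : ball (F t₀) (‖a‖ * ρ / 8) ∈ 𝓝 y := isOpen_ball.mem_nhds hy
    have hcont : ContinuousAt Φ y := by
      rw [Metric.continuousAt_iff]
      intro ε hε
      obtain ⟨η, hη, hη2⟩ := Metric.mem_nhds_iff.1 hnh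
      refine ⟨min η (‖a‖ / 2 * ε), lt_min hη (by positivity), ?_⟩
      intro x hx
      have hx1 : x ∈ ball (F t₀) (‖a‖ * ρ / 8) := hη2 (lt_of_lt_of_le hx (min_le_left _ _))
      have h1 := h.lower (hmem x hx1) (hmem y hy)
      rw [hΦ2 x hx1, hΦ2 y hy] at h1
      have h2 : ‖x - y‖ < ‖a‖ / 2 * ε := by
        rw [← dist_eq_norm]; exact lt_of_lt_of_le hx (min_le_right _ _)
      rw [dist_eq_norm]
      exact lt_of_mul_lt_mul_left (h1.trans_lt h2) (by positivity)
    have hda := (h.diffAt (hmem y hy)).hasDerivAt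
    have hb := h.b _ (hmem y hy)
    have hdl : ‖a‖ / 2 ≤ ‖deriv F (Φ y)‖ := by
      have h2 : ‖a‖ ≤ ‖deriv F (Φ y)‖ + ‖deriv F (Φ y) - a‖ := by
        calc ‖a‖ = ‖deriv F (Φ y) - (deriv F (Φ y) - a)‖ := by congr 1; ring
          _ ≤ _ := norm_sub_le _ _
      linarith
    have hne : deriv F (Φ y) ≠ 0 := by
      intro h0
      rw [h0, norm_zero] at hdl
      linarith
    have hder : HasDerivAt Φ (deriv F (Φ y))⁻¹ y :=
      HasDerivAt.of_local_left_inverse hcont hda hne (by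
        filter_upwards [hnh] with x hx using hΦ2 x hx)
    refine ⟨hmem y hy, hΦ2 y hy, hder.differentiableAt, ?_⟩
    rw [hder.deriv, norm_inv, inv_le_comm₀ (by linarith) (by positivity), inv_div]
    exact hdl
  · intro t ht hFt
    exact h.inj (hmem _ hFt) ht (hΦ2 _ hFt)

/-- areas -/
theorem Sim.vol (h : Sim F t₀ a ρ) {E : Set ℂ} (hE : E ⊆ ball t₀ ρ) :
    volume E ≤ ENNReal.ofReal (4 / ‖a‖ ^ 2) * volume (F '' E) := by
  have ha := h.apos
  set U := toMeasurable volume (F '' E) with hU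
  set E₁ := ball t₀ ρ ∩ F ⁻¹' U with hE₁
  have hE₁m : MeasurableSet E₁ := by
    have hUm : MeasurableSet U := measurableSet_toMeasurable _ _
    classical
    have hc : ContinuousOn F (ball t₀ ρ) := h.d.continuousOn
    have hg : Measurable ((ball t₀ ρ).piecewise F fun _ => (0:ℂ)) :=
      hc.measurable_piecewise continuousOn_const measurableSet_ball
    have e : E₁ = ball t₀ ρ ∩ ((ball t₀ ρ).piecewise F fun _ => (0:ℂ)) ⁻¹' U := by
      ext z
      simp only [hE₁, mem_inter_iff, mem_preimage]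
      constructor
      · rintro ⟨h1, h2⟩
        refine ⟨h1, ?_⟩
        rw [piecewise_eq_of_mem _ _ _ h1]; exact h2
      · rintro ⟨h1, h2⟩
        refine ⟨h1, ?_⟩
        rw [piecewise_eq_of_mem _ _ _ h1] at h2; exact h2
    rw [e]
    exact measurableSet_ball.inter (hg hUm)
  have hEE : E ⊆ E₁ := fun t ht => ⟨hE ht, subset_toMeasurable _ _ ⟨t, ht, rfl⟩⟩
  have h1 := vol_image_eq F (ball t₀ ρ) E₁ isOpen_ball h.d hE₁m inter_subset_left
    (h.inj.mono inter_subset_left)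
  have h2 : volume (F '' E₁) ≤ volume (F '' E) := by
    rw [← measure_toMeasurable (F '' E)]
    apply measure_mono
    rintro _ ⟨t, ht, rfl⟩
    exact ht.2
  have h3 : ENNReal.ofReal (‖a‖ ^ 2 / 4) * volume E₁ ≤
      ∫⁻ z in E₁, ENNReal.ofReal (‖deriv F z‖ ^ 2) := by
    rw [← setLIntegral_const]
    apply setLIntegral_mono' hE₁m
    intro z hz
    apply ENNReal.ofReal_le_ofReal
    have hb := h.b z hz.1
    have h4 : ‖a‖ ≤ ‖deriv F z‖ + ‖deriv F z - a‖ := by
      calc ‖a‖ = ‖deriv F z - (deriv F z - a)‖ := by congr 1; ring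
        _ ≤ _ := norm_sub_le _ _
    nlinarith [norm_nonneg (deriv F z)]
  have h4 : ENNReal.ofReal (‖a‖ ^ 2 / 4) * volume E ≤ volume (F '' E) :=
    (mul_le_mul_right (measure_mono hEE) _).trans (h3.trans (h1.le.trans h2))
  calc volume E = ENNReal.ofReal (4 / ‖a‖ ^ 2) * (ENNReal.ofReal (‖a‖ ^ 2 / 4) * volume E) := by
        rw [← mul_assoc, ← ENNReal.ofReal_mul (by positivity)]
        have : 4 / ‖a‖ ^ 2 * (‖a‖ ^ 2 / 4) = 1 := by field_simp
        rw [this, ENNReal.ofReal_one, one_mul]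
    _ ≤ _ := mul_le_mul_right h4 _

/-- the number of small squares -/
theorem cover {E : Set ℂ} {x₀ y₀ w h r : ℝ} (hr : 0 < r) (hw : 0 ≤ w) (hh : 0 ≤ h)
    (hE : ∀ z ∈ E, |z.re - x₀| ≤ w ∧ |z.im - y₀| ≤ h) {B : ENNReal}
    (hB : ∀ z ∈ E, volume (E ∩ ball z r) ≤ B) :
    volume E ≤ ENNReal.ofReal ((4 * w / r + 1) * (4 * h / r + 1)) * B := by
  set m := ⌊4 * w / r⌋₊ + 1 with hm
  set m' := ⌊4 * h / r⌋₊ + 1 with hm'
  set Q : ℕ × ℕ → Set ℂ := fun p => {z ∈ E | ⌊(z.re - (x₀ - w)) / (r / 2)⌋₊ = p.1 ∧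
    ⌊(z.im - (y₀ - h)) / (r / 2)⌋₊ = p.2} with hQ
  have hcov : E ⊆ ⋃ p ∈ Finset.range m ×ˢ Finset.range m', Q p := by
    intro z hz
    obtain ⟨h1, h2⟩ := hE z hz
    rw [abs_le] at h1 h2
    simp only [mem_iUnion]
    refine ⟨(⌊(z.re - (x₀ - w)) / (r / 2)⌋₊, ⌊(z.im - (y₀ - h)) / (r / 2)⌋₊), ?_, hz, rfl, rfl⟩
    rw [Finset.mem_product, Finset.mem_range, Finset.mem_range]
    constructor
    · apply Nat.lt_succ_of_le
      apply Nat.floor_le_floor
      rw [div_le_div_iff₀ (by positivity) hr]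
      nlinarith
    · apply Nat.lt_succ_of_le
      apply Nat.floor_le_floor
      rw [div_le_div_iff₀ (by positivity) hr]
      nlinarith
  have hQB : ∀ p, volume (Q p) ≤ B := by
    intro p
    rcases (Q p).eq_empty_or_nonempty with h0 | ⟨z, hz⟩
    · rw [h0, measure_empty]; exact zero_le
    · refine le_trans (measure_mono ?_) (hB z hz.1)
      intro y hy
      refine ⟨hy.1, ?_⟩
      have key : ∀ u v : ℝ, 0 ≤ u → 0 ≤ v → ⌊u / (r / 2)⌋₊ = ⌊v / (r / 2)⌋₊ → |u - v| < r / 2 := by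
        intro u v hu hv huv
        have a1 := Nat.floor_le (div_nonneg hu (by positivity : 0 ≤ r / 2))
        have a2 := Nat.lt_floor_add_one (u / (r / 2))
        have b1 := Nat.floor_le (div_nonneg hv (by positivity : 0 ≤ r / 2))
        have b2 := Nat.lt_floor_add_one (v / (r / 2))
        rw [huv] at a1 a2
        have hr2 : 0 < r / 2 := by positivity
        have c1 : u / (r / 2) - v / (r / 2) < 1 := by linarith
        have c2 : v / (r / 2) - u / (r / 2) < 1 := by linarith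
        rw [← sub_div, div_lt_one hr2] at c1 c2
        rw [abs_lt]
        constructor <;> linarith
      obtain ⟨hy1, hy2, hy3⟩ := hy
      obtain ⟨hz1, hz2, hz3⟩ := hz
      have e1 := hE y hy1
      have e2 := hE z hz1
      have e1a := abs_le.1 e1.1
      have e1b := abs_le.1 e1.2
      have e2a := abs_le.1 e2.1
      have e2b := abs_le.1 e2.2
      have k1 := key _ _ (by linarith) (by linarith) (hy2.trans hz2.symm)
      have k2 := key _ _ (by linarith) (by linarith) (hy3.trans hz3.symm)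
      have k1' : |(y - z).re| < r / 2 := by
        have : (y - z).re = (y.re - (x₀ - w)) - (z.re - (x₀ - w)) := by
          rw [Complex.sub_re]; ring
        rw [this]; exact k1
      have k2' : |(y - z).im| < r / 2 := by
        have : (y - z).im = (y.im - (y₀ - h)) - (z.im - (y₀ - h)) := by
          rw [Complex.sub_im]; ring
        rw [this]; exact k2
      rw [mem_ball, dist_eq_norm]
      have := Complex.norm_le_abs_re_add_abs_im (y - z)
      linarith
  calc volume E ≤ volume (⋃ p ∈ Finset.range m ×ˢ Finset.range m', Q p) := measure_mono hcov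
    _ ≤ ∑ p ∈ Finset.range m ×ˢ Finset.range m', volume (Q p) :=
        measure_biUnion_finset_le _ _
    _ ≤ ∑ p ∈ Finset.range m ×ˢ Finset.range m', B := Finset.sum_le_sum fun p _ => hQB p
    _ = ((m * m' : ℕ) : ENNReal) * B := by
        rw [Finset.sum_const, Finset.card_product, Finset.card_range, Finset.card_range,
          nsmul_eq_mul]
    _ ≤ _ := by
        apply mul_le_mul_left
        rw [← ENNReal.ofReal_natCast]
        apply ENNReal.ofReal_le_ofReal
        push_cast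
        have h1 : (m:ℝ) ≤ 4 * w / r + 1 := by
          rw [hm]; push_cast
          have := Nat.floor_le (show 0 ≤ 4 * w / r by positivity)
          linarith
        have h2 : (m':ℝ) ≤ 4 * h / r + 1 := by
          rw [hm']; push_cast
          have := Nat.floor_le (show 0 ≤ 4 * h / r by positivity)
          linarith
        exact mul_le_mul h1 h2 (by positivity) (by positivity)

end Pool.Agent.Q79.PW
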