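import Mathlib
import Pool.Agent.Q79.PowA

/-!
# Orbits along slow curves: an inequality for the supremum of areas
-/

set_option autoImplicit false

open MeasureTheory Set Filter Topology Metric

namespace Pool.Agent.Q79.MN

open Pool.Agent.Q79.PW (Sim cover)

variable (T : ℂ → ℂ → ℂ)

/-- the orbit stays in the annulus -/
def Non (M : ℝ) (S X : ℂ) : Prop :=
  ∀ j : ℕ, Real.exp (-M) ≤ ‖(T S)^[j] X‖ ∧ ‖(T S)^[j] X‖ ≤ Real.exp M

/-- slow curves -/
structure Slow (s : ℂ → ℂ) (x : ℂ) (r : ℝ) : Prop where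
  d : DifferentiableOn ℂ s (ball x (2 * r))
  b : ∀ t ∈ ball x (2 * r), ‖deriv s t‖ ≤ 1

/-- the parameters of a slow curve whose orbit stays in the annulus -/
def NS (M : ℝ) (s : ℂ → ℂ) (x : ℂ) (r : ℝ) : Set ℂ :=
  {t | t ∈ ball x r ∧ Non T M (Complex.exp (s t)) (Complex.exp t)}

/-- the supremum of the areas -/
noncomputable def Sup (M r₀ : ℝ) : ENNReal :=
  ⨆ (x : ℂ) (r : ℝ) (s : ℂ → ℂ) (_ : 0 < r ∧ r ≤ r₀ ∧ Slow s x r), volume (NS T M s x r)

/-- the next iterate is close to a similarity -/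
def HasSim (s : ℂ → ℂ) (t₀ a : ℂ) (ρ : ℝ) : Prop :=
  ∃ F : ℂ → ℂ, Sim F t₀ a ρ ∧
    ∀ t ∈ ball t₀ ρ, Complex.exp (F t) = T (Complex.exp (s t)) (Complex.exp t)

variable {T}

theorem le_Sup {M r₀ : ℝ} {x : ℂ} {r : ℝ} {s : ℂ → ℂ} (h0 : 0 < r) (h1 : r ≤ r₀)
    (h : Slow s x r) : volume (NS T M s x r) ≤ Sup T M r₀ := by
  unfold Sup
  exact le_iSup_of_le x (le_iSup_of_le r (le_iSup_of_le s (le_iSup_of_le ⟨h0, h1, h⟩ le_rfl)))

theorem Sup_ne_top (M r₀ : ℝ) : Sup T M r₀ ≠ ⊤ := by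
  have : Sup T M r₀ ≤ ENNReal.ofReal r₀ ^ 2 * NNReal.pi := by
    unfold Sup
    refine iSup_le fun x => iSup_le fun r => iSup_le fun s => iSup_le fun h => ?_
    calc volume (NS T M s x r) ≤ volume (ball x r) := measure_mono fun t ht => ht.1
      _ = ENNReal.ofReal r ^ 2 * NNReal.pi := Complex.volume_ball x r
      _ ≤ _ := by
        gcongr
        exact h.2.1
  exact ne_top_of_le_ne_top (by finiteness) this

theorem NS_re {M : ℝ} {s : ℂ → ℂ} {x : ℂ} {r : ℝ} {t : ℂ} (ht : t ∈ NS T M s x r) :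
    |t.re| ≤ M := by
  have h0 := ht.2 0
  simp only [Function.iterate_zero, id] at h0
  rw [Complex.norm_exp, Real.exp_le_exp, Real.exp_le_exp] at h0
  exact abs_le.2 h0

/-- the constant of the key estimate -/
noncomputable def C0 (M r₀ : ℝ) : ℝ := 4 * (169 * (4 * M / r₀ + 1) * (1 + 1 / r₀))

theorem C0_pos {M r₀ : ℝ} (hM : 0 ≤ M) (hr₀ : 0 < r₀) : 0 < C0 M r₀ := by
  unfold C0; positivity

/-- the key estimate -/
theorem key {M r₀ : ℝ} (hr₀ : 0 < r₀) (hM : 0 ≤ M) {s : ℂ → ℂ} {x : ℂ}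
    {r : ℝ} (hs : Slow s x r) {t₀ : ℂ} (ht₀ : t₀ ∈ NS T M s x r)
    {a : ℂ} {ρ b δ : ℝ} (hρr : ρ ≤ r) (hρδ : ρ ≤ δ) (hb : 4 ≤ b) (hab : b ≤ ‖a‖)
    (hF : HasSim T s t₀ a ρ) :
    volume (NS T M s x r ∩ ball t₀ (ρ / 32)) ≤
      ENNReal.ofReal (C0 M r₀ * (1 / b ^ 2 + δ / b)) * Sup T M r₀ := by
  obtain ⟨F, hF, hFe⟩ := hF
  have hρ0 : 0 < ρ := hF.ρ0
  have ha4 : 4 ≤ ‖a‖ := hb.trans hab
  obtain ⟨Φ, hΦ1, hΦ2⟩ := hF.inverse
  set E := NS T M s x r ∩ ball t₀ (ρ / 32) with hE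
  have hEsub : E ⊆ ball t₀ ρ := fun t ht => ball_subset_ball (by linarith) ht.2
  have ht₀ρ : t₀ ∈ ball t₀ ρ := mem_ball_self hρ0
  have hFE : ∀ t ∈ E, ‖F t - F t₀‖ ≤ 3 / 64 * ‖a‖ * ρ := by
    intro t ht
    have h1 := hF.upper (hEsub ht) ht₀ρ
    have h2 : ‖t - t₀‖ ≤ ρ / 32 := by
      have := ht.2
      rw [mem_ball, dist_eq_norm] at this
      exact this.le
    have h3 : 3 / 2 * ‖a‖ * ‖t - t₀‖ ≤ 3 / 2 * ‖a‖ * (ρ / 32) :=
      mul_le_mul_of_nonneg_left h2 (by positivity)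
    linarith
  have hFre : ∀ t ∈ E, |(F t).re| ≤ M := by
    intro t ht
    have h1 := ht.1.2 1
    simp only [Function.iterate_one] at h1
    rw [← hFe t (hEsub ht), Complex.norm_exp, Real.exp_le_exp, Real.exp_le_exp] at h1
    exact abs_le.2 h1
  set r' := min r₀ (‖a‖ * ρ / 64) with hr'
  have hr'0 : 0 < r' := lt_min hr₀ (by have := hF.apos; positivity)
  set h : ℝ := 3 / 64 * ‖a‖ * ρ with hh
  have hh0 : 0 ≤ h := by positivity
  -- areas of the pieces of the image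
  have hpiece : ∀ y ∈ F '' E, volume (F '' E ∩ ball y r') ≤ Sup T M r₀ := by
    rintro _ ⟨t₁, ht₁, rfl⟩
    have hball : ball (F t₁) (2 * r') ⊆ ball (F t₀) (‖a‖ * ρ / 8) := by
      apply ball_subset_ball'
      rw [dist_eq_norm]
      have h1 := hFE t₁ ht₁
      have h2 : r' ≤ ‖a‖ * ρ / 64 := min_le_right _ _
      have h3 : 0 < ‖a‖ * ρ := by have := hF.apos; positivity
      nlinarith
    have hslow : Slow (s ∘ Φ) (F t₁) r' := by
      have hsmem : ∀ t ∈ ball t₀ ρ, t ∈ ball x (2 * r) := by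
        intro t ht
        have h1 := ht₀.1
        rw [mem_ball, dist_eq_norm] at *
        calc ‖t - x‖ = ‖(t - t₀) + (t₀ - x)‖ := by congr 1; ring
          _ ≤ _ := norm_add_le _ _
          _ < 2 * r := by linarith
      constructor
      · intro y hy
        obtain ⟨h1, -, h3, -⟩ := hΦ1 y (hball hy)
        have h4 : DifferentiableAt ℂ s (Φ y) :=
          hs.d.differentiableAt (isOpen_ball.mem_nhds (hsmem _ h1))
        exact (h4.comp y h3).differentiableWithinAt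
      · intro y hy
        obtain ⟨h1, -, h3, h4⟩ := hΦ1 y (hball hy)
        have h5 : DifferentiableAt ℂ s (Φ y) :=
          hs.d.differentiableAt (isOpen_ball.mem_nhds (hsmem _ h1))
        rw [deriv_comp y h5 h3, norm_mul]
        have h6 := hs.b _ (hsmem _ h1)
        have h7 : 2 / ‖a‖ ≤ 1 := by
          rw [div_le_one (by linarith)]; linarith
        exact mul_le_one₀ h6 (norm_nonneg _) (h4.trans h7)
    refine le_trans (measure_mono ?_) (le_Sup hr'0 (min_le_left _ _) hslow)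
    rintro _ ⟨⟨t₂, ht₂, rfl⟩, hy2⟩
    have hΦF : Φ (F t₂) = t₂ := by
      apply hΦ2 t₂ (hEsub ht₂)
      exact hball (ball_subset_ball (by linarith) hy2)
    refine ⟨hy2, ?_⟩
    rw [Function.comp_apply, hΦF]
    intro j
    have h1 := ht₂.1.2 (j + 1)
    rw [Function.iterate_succ_apply, ← hFe t₂ (hEsub ht₂)] at h1
    exact h1
  have hcount : volume (F '' E) ≤ ENNReal.ofReal (169 * (4 * M / r₀ + 1) * (1 + 1 / r₀) *
      (1 + ‖a‖ * ρ)) * Sup T M r₀ := by
    have hρa : 0 < ‖a‖ * ρ := by have := hF.apos; positivity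
    have hfac : 0 ≤ 4 * M / r₀ := by positivity
    have hfac2 : 0 ≤ 1 / r₀ := by positivity
    rcases min_choice r₀ (‖a‖ * ρ / 64) with hcase | hcase
    · have h1 := cover (x₀ := 0) (y₀ := (F t₀).im) hr'0 hM hh0 (E := F '' E) (by
        rintro _ ⟨t, ht, rfl⟩
        refine ⟨by rw [sub_zero]; exact hFre t ht, ?_⟩
        rw [← Complex.sub_im]
        exact (Complex.abs_im_le_norm _).trans (hFE t ht)) hpiece
      refine h1.trans (mul_le_mul_left (ENNReal.ofReal_le_ofReal ?_) _)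
      rw [hr', hcase]
      have e1 : 4 * h / r₀ + 1 ≤ (1 + 1 / r₀) * (1 + ‖a‖ * ρ) := by
        have : 4 * h / r₀ = 3 / 16 * (1 / r₀ * (‖a‖ * ρ)) := by rw [hh]; ring
        rw [this]
        have : 0 ≤ 1 / r₀ * (‖a‖ * ρ) := by positivity
        nlinarith
      calc (4 * M / r₀ + 1) * (4 * h / r₀ + 1) ≤
          (4 * M / r₀ + 1) * ((1 + 1 / r₀) * (1 + ‖a‖ * ρ)) :=
            mul_le_mul_of_nonneg_left e1 (by positivity)
        _ = 1 * ((4 * M / r₀ + 1) * (1 + 1 / r₀) * (1 + ‖a‖ * ρ)) := by ring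
        _ ≤ 169 * ((4 * M / r₀ + 1) * (1 + 1 / r₀) * (1 + ‖a‖ * ρ)) := by
            apply mul_le_mul_of_nonneg_right (by norm_num) (by positivity)
        _ = _ := by ring
    · have h1 := cover (x₀ := (F t₀).re) (y₀ := (F t₀).im) hr'0 hh0 hh0 (E := F '' E) (by
        rintro _ ⟨t, ht, rfl⟩
        constructor
        · rw [← Complex.sub_re]
          exact (Complex.abs_re_le_norm _).trans (hFE t ht)
        · rw [← Complex.sub_im]
          exact (Complex.abs_im_le_norm _).trans (hFE t ht)) hpiece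
      refine h1.trans (mul_le_mul_left (ENNReal.ofReal_le_ofReal ?_) _)
      rw [hr', hcase]
      have e1 : 4 * h / (‖a‖ * ρ / 64) + 1 = 13 := by
        rw [hh]; field_simp; norm_num
      rw [e1]
      have e2 : 1 ≤ (4 * M / r₀ + 1) * (1 + 1 / r₀) * (1 + ‖a‖ * ρ) := by
        have f1 : 1 ≤ (4 * M / r₀ + 1) := by linarith
        have f2 : 1 ≤ (1 + 1 / r₀) := by linarith
        have f3 : 1 ≤ (1 + ‖a‖ * ρ) := by linarith
        exact one_le_mul_of_one_le_of_one_le (one_le_mul_of_one_le_of_one_le f1 f2) f3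
      nlinarith
  have hvol := hF.vol hEsub
  refine hvol.trans ?_
  calc ENNReal.ofReal (4 / ‖a‖ ^ 2) * volume (F '' E) ≤ ENNReal.ofReal (4 / ‖a‖ ^ 2) *
      (ENNReal.ofReal (169 * (4 * M / r₀ + 1) * (1 + 1 / r₀) *
      (1 + ‖a‖ * ρ)) * Sup T M r₀) := mul_le_mul_right hcount _
    _ = ENNReal.ofReal (4 / ‖a‖ ^ 2 * (169 * (4 * M / r₀ + 1) * (1 + 1 / r₀) *
      (1 + ‖a‖ * ρ))) * Sup T M r₀ := by
        rw [← mul_assoc, ← ENNReal.ofReal_mul (by positivity)]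
    _ ≤ _ := by
        apply mul_le_mul_left
        apply ENNReal.ofReal_le_ofReal
        unfold C0
        set C₀ := 169 * (4 * M / r₀ + 1) * (1 + 1 / r₀) with hC₀
        have hC₀0 : 0 ≤ C₀ := by positivity
        have e1 : 4 / ‖a‖ ^ 2 * (C₀ * (1 + ‖a‖ * ρ)) =
            4 * C₀ * (1 / ‖a‖ ^ 2 + ρ / ‖a‖) := by
          have : ‖a‖ ≠ 0 := by linarith
          field_simp
        rw [e1]
        apply mul_le_mul_of_nonneg_left _ (by positivity)
        have hb0 : 0 < b := by linarith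
        apply add_le_add
        · apply one_div_le_one_div_of_le (by positivity)
          exact pow_le_pow_left₀ hb0.le hab 2
        · exact div_le_div₀ (hρ0.le.trans hρδ) hρδ hb0 hab

/-- the constant -/
noncomputable def C1 (ε A M r₀ : ℝ) : ℝ := (128 * (A / ε + 1) + 1) ^ 2 * C0 M r₀

theorem C1_pos {ε A M r₀ : ℝ} (hε : 0 < ε) (hA : 0 ≤ A) (hM : 0 ≤ M) (hr₀ : 0 < r₀) :
    0 < C1 ε A M r₀ := by
  have := C0_pos hM hr₀
  unfold C1; positivity

/-- areas of the pieces -/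
theorem piece {M r₀ : ℝ} (hr₀ : 0 < r₀) (hM : 0 ≤ M) {s : ℂ → ℂ} {x : ℂ} {r : ℝ} (hr : 0 < r)
    (hs : Slow s x r) {E : Set ℂ} (hE : E ⊆ NS T M s x r) {ε A b δ : ℝ} (hε : 0 < ε)
    (hε1 : ε ≤ 1) (hA : 0 ≤ A) (hδ : 0 < δ) (hb : 4 ≤ b)
    (hF : ∀ t ∈ E, ∃ a : ℂ, b ≤ ‖a‖ ∧ HasSim T s t a (min (ε * δ) r))
    {q : ℂ} (hEq : ∀ t ∈ E, ‖t - q‖ ≤ A * δ) :
    volume E ≤ ENNReal.ofReal (C1 ε A M r₀ * (1 / b ^ 2 + δ / b)) * Sup T M r₀ := by
  set ρ := min (ε * δ) r with hρ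
  have hρ0 : 0 < ρ := lt_min (by positivity) hr
  have hb0 : 0 < b := by linarith
  have hC0 := C0_pos hM hr₀
  -- general form
  have main : ∀ (c : ℂ) (W : ℝ), 0 ≤ W → (∀ t ∈ E, ‖t - c‖ ≤ W) → W / ρ ≤ A / ε + 1 →
      volume E ≤ ENNReal.ofReal (C1 ε A M r₀ * (1 / b ^ 2 + δ / b)) * Sup T M r₀ := by
    intro c W hW hc hWρ
    have h1 := cover (E := E) (x₀ := c.re) (y₀ := c.im) (w := W) (h := W) (r := ρ / 32)
      (by positivity) hW hW (by
        intro t ht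
        have h2 := hc t ht
        constructor
        · rw [← Complex.sub_re]; exact (Complex.abs_re_le_norm _).trans h2
        · rw [← Complex.sub_im]; exact (Complex.abs_im_le_norm _).trans h2)
      (B := ENNReal.ofReal (C0 M r₀ * (1 / b ^ 2 + δ / b)) * Sup T M r₀) (by
        intro t ht
        obtain ⟨a, ha, hsim⟩ := hF t ht
        refine le_trans (measure_mono ?_) (key hr₀ hM hs (hE ht) (min_le_right _ _)
          (ρ := ρ) (δ := δ) ?_ hb ha hsim)
        · exact inter_subset_inter_left _ hE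
        · exact (min_le_left _ _).trans (by nlinarith))
    refine h1.trans ?_
    rw [← mul_assoc, ← ENNReal.ofReal_mul (by positivity)]
    apply mul_le_mul_left
    apply ENNReal.ofReal_le_ofReal
    have hcount : 4 * W / (ρ / 32) + 1 ≤ 128 * (A / ε + 1) + 1 := by
      have h2 : 4 * W / (ρ / 32) = 128 * (W / ρ) := by ring
      rw [h2]; linarith
    unfold C1
    have hc0 : 0 ≤ 4 * W / (ρ / 32) + 1 := by positivity
    have h5 : (4 * W / (ρ / 32) + 1) * (4 * W / (ρ / 32) + 1) ≤ (128 * (A / ε + 1) + 1) ^ 2 := by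
      rw [← pow_two]; exact pow_le_pow_left₀ hc0 hcount 2
    calc _ ≤ (128 * (A / ε + 1) + 1) ^ 2 * (C0 M r₀ * (1 / b ^ 2 + δ / b)) :=
          mul_le_mul_of_nonneg_right h5 (by positivity)
      _ = _ := by ring
  have hAε : 0 ≤ A / ε := by positivity
  rcases min_choice (ε * δ) r with hcase | hcase
  · refine main q (A * δ) (by positivity) hEq ?_
    rw [hρ, hcase]
    have : A * δ / (ε * δ) = A / ε := by
      rw [mul_div_mul_right _ _ hδ.ne']
    rw [this]; linarith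
  · refine main x r hr.le (fun t ht => ?_) ?_
    · have := (hE ht).1
      rw [mem_ball, dist_eq_norm] at this
      exact this.le
    · rw [hρ, hcase, div_self hr.ne']; linarith

end Pool.Agent.Q79.MN
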