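import Mathlib
import Pool.Agent.H762R2.RtD
import Pool.Agent.Q79.PowA

set_option autoImplicit false

open MeasureTheory Set Filter Topology Metric

namespace Pool.Agent.Q79.PW

open Pool.Agent.H762R2.Rt (wro)

variable (P Q : Polynomial ℂ)

/-- `P / Q` in the logarithmic coordinate -/
noncomputable def H (t : ℂ) : ℂ := P.eval (Complex.exp t) / Q.eval (Complex.exp t)

/-- its logarithmic derivative -/
noncomputable def G (t : ℂ) : ℂ := Complex.exp t * (wro P Q).eval (Complex.exp t) /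
  (P.eval (Complex.exp t) * Q.eval (Complex.exp t))

variable {P Q}

theorem H_hasDerivAt {t : ℂ} (hP : P.eval (Complex.exp t) ≠ 0) (hQ : Q.eval (Complex.exp t) ≠ 0) :
    HasDerivAt (H P Q) (H P Q t * G P Q t) t := by
  have h1 : HasDerivAt (fun t => P.eval (Complex.exp t))
      (P.derivative.eval (Complex.exp t) * Complex.exp t) t :=
    (P.hasDerivAt _).comp t (Complex.hasDerivAt_exp t)
  have h2 : HasDerivAt (fun t => Q.eval (Complex.exp t))
      (Q.derivative.eval (Complex.exp t) * Complex.exp t) t :=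
    (Q.hasDerivAt _).comp t (Complex.hasDerivAt_exp t)
  have h3 := h1.div h2 hQ
  refine h3.congr_deriv ?_
  unfold H G wro
  rw [Polynomial.eval_sub, Polynomial.eval_mul, Polynomial.eval_mul]
  field_simp

theorem periodic_H (t : ℂ) (j : ℤ) : H P Q (t + 2 * Real.pi * Complex.I * j) = H P Q t := by
  unfold H
  have : Complex.exp (t + 2 * Real.pi * Complex.I * j) = Complex.exp t := by
    rw [Complex.exp_add]
    have e : Complex.exp (2 * Real.pi * Complex.I * j) = 1 := by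
      rw [mul_comm, Complex.exp_int_mul_two_pi_mul_I]
    rw [e, mul_one]
  rw [this]

theorem exp_shift (t : ℂ) (j : ℤ) :
    Complex.exp (t + 2 * Real.pi * Complex.I * j) = Complex.exp t := by
  rw [Complex.exp_add]
  have e : Complex.exp (2 * Real.pi * Complex.I * j) = 1 := by
    rw [mul_comm, Complex.exp_int_mul_two_pi_mul_I]
  rw [e, mul_one]

theorem periodic_G (t : ℂ) (j : ℤ) : G P Q (t + 2 * Real.pi * Complex.I * j) = G P Q t := by
  unfold G
  rw [exp_shift]

variable (P Q) in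
/-- the local analysis -/
structure Loc (k : ℕ) (ε : ℝ) (p : ℂ) (r c : ℝ) : Prop where
  nz : ∀ t ∈ ball p r, P.eval (Complex.exp t) ≠ 0 ∧ Q.eval (Complex.exp t) ≠ 0
  lg : ∀ t ∈ ball p r, ∀ t' ∈ ball p r, ‖H P Q t / H P Q t' - 1‖ < 1
  var : ∀ t₀ ∈ ball p (r / 2), ∀ δ : ℝ, 0 ≤ δ → δ ≤ r / 2 →
    ((wro P Q).eval (Complex.exp p) = 0 → δ ≤ ‖t₀ - p‖) →
    ∀ t ∈ ball t₀ (ε * δ), ‖G P Q t - G P Q t₀‖ ≤ ‖G P Q t₀‖ / 4
  low : ∀ t₀ ∈ ball p (r / 2), ∀ δ : ℝ, 0 ≤ δ → δ ≤ r / 2 →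
    ((wro P Q).eval (Complex.exp p) = 0 → δ ≤ ‖t₀ - p‖) → c * δ ^ k ≤ ‖G P Q t₀‖
  iso : ∀ q ∈ ball p r, (wro P Q).eval (Complex.exp q) = 0 → q = p

theorem Loc.shift {k : ℕ} {ε : ℝ} {p : ℂ} {r c : ℝ} (h : Loc P Q k ε p r c) (j : ℤ) :
    Loc P Q k ε (p - 2 * Real.pi * Complex.I * j) r c := by
  set τ : ℂ := 2 * Real.pi * Complex.I * j with hτ
  have hb : ∀ (t : ℂ) (r : ℝ), t ∈ ball (p - τ) r → t + τ ∈ ball p r := by
    intro t r ht
    rw [mem_ball, dist_eq_norm] at ht ⊢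
    have : t + τ - p = t - (p - τ) := by ring
    rwa [this]
  have hexp : ∀ t, Complex.exp (t + τ) = Complex.exp t := fun t => exp_shift t j
  have hH : ∀ t, H P Q (t + τ) = H P Q t := fun t => periodic_H t j
  have hG : ∀ t, G P Q (t + τ) = G P Q t := fun t => periodic_G t j
  have hexpp : Complex.exp (p - τ) = Complex.exp p := by
    have := hexp (p - τ)
    rw [sub_add_cancel] at this
    exact this.symm
  have hn : ∀ t : ℂ, t + τ - p = t - (p - τ) := fun t => by ring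
  refine ⟨?_, ?_, ?_, ?_, ?_⟩
  · intro t ht
    have := h.nz _ (hb t r ht)
    rwa [hexp] at this
  · intro t ht t' ht'
    have := h.lg _ (hb t r ht) _ (hb t' r ht')
    rwa [hH, hH] at this
  · intro t₀ ht₀ δ h0 h1 h2 t ht
    have := h.var _ (hb t₀ _ ht₀) δ h0 h1 (by
      intro h3
      rw [hn]
      exact h2 (by rw [hexpp]; exact h3)) (t + τ) (by
      rw [mem_ball, dist_eq_norm] at ht ⊢
      have : t + τ - (t₀ + τ) = t - t₀ := by ring
      rwa [this])
    rwa [hG, hG] at this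
  · intro t₀ ht₀ δ h0 h1 h2
    have := h.low _ (hb t₀ _ ht₀) δ h0 h1 (by
      intro h3
      rw [hn]
      exact h2 (by rw [hexpp]; exact h3))
    rwa [hG] at this
  · intro q hq h0
    have := h.iso _ (hb q r hq) (by rwa [hexp])
    rw [← this]; ring

theorem pow_sub_one_le {z : ℂ} {k j : ℕ} (hj : j ≤ k) (hz : ‖z‖ ≤ 1 / (16 * (k + 1))) :
    ‖(1 + z) ^ j - 1‖ ≤ 1 / 15 := by
  have hk : (0:ℝ) < 16 * (k + 1) := by positivity
  have h1 : ‖(1 + z) ^ j - 1‖ ≤ (1 + ‖z‖) ^ j - 1 := by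
    have h := Commute.geom_sum₂_mul (Commute.all (1 + z) 1) j
    simp only [one_pow, mul_one, add_sub_cancel_left] at h
    rw [← h, norm_mul]
    have h' := Commute.geom_sum₂_mul (Commute.all (1 + ‖z‖) 1) j
    simp only [one_pow, mul_one, add_sub_cancel_left] at h'
    rw [← h']
    apply mul_le_mul_of_nonneg_right _ (norm_nonneg z)
    refine (norm_sum_le _ _).trans (Finset.sum_le_sum fun i _ => ?_)
    rw [norm_pow]
    apply pow_le_pow_left₀ (norm_nonneg _)
    refine (norm_add_le _ _).trans ?_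
    rw [norm_one]
  refine h1.trans ?_
  have h2 : (1 + ‖z‖) ^ j ≤ Real.exp (1 / 16) := by
    calc (1 + ‖z‖) ^ j ≤ (Real.exp ‖z‖) ^ j := by
          apply pow_le_pow_left₀ (by positivity)
          have := Real.add_one_le_exp ‖z‖; linarith
      _ = Real.exp (j * ‖z‖) := by rw [← Real.exp_nat_mul]
      _ ≤ Real.exp (1 / 16) := by
          apply Real.exp_le_exp.2
          have hjk : (j:ℝ) ≤ k := by exact_mod_cast hj
          rw [le_div_iff₀ hk] at hz
          have := norm_nonneg z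
          have h4 : (j:ℝ) * ‖z‖ ≤ (k + 1) * ‖z‖ := mul_le_mul_of_nonneg_right (by linarith) this
          linarith
  have h3 : Real.exp (1 / 16) ≤ 16 / 15 := by
    have h4 := Real.add_one_le_exp (-(1 / 16 : ℝ))
    have h5 := Real.exp_pos (1 / 16 : ℝ)
    have h6 : Real.exp (1 / 16) * Real.exp (-(1 / 16)) = 1 := by rw [← Real.exp_add]; simp
    nlinarith
  linarith

/-- existence of the local data -/
theorem exists_loc (hw : wro P Q ≠ 0) {k : ℕ} {p : ℂ} (hP : P.eval (Complex.exp p) ≠ 0)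
    (hQ : Q.eval (Complex.exp p) ≠ 0) (hk : (wro P Q).rootMultiplicity (Complex.exp p) ≤ k) :
    ∃ r c : ℝ, 0 < r ∧ r ≤ 1 ∧ 0 < c ∧ Loc P Q k (1 / (16 * (k + 1))) p r c := by
  set y := Complex.exp p with hy
  set kp := (wro P Q).rootMultiplicity y with hkp
  obtain ⟨V, hV, hV0⟩ := (wro P Q).exists_eq_pow_rootMultiplicity_mul_and_not_dvd hw y
  rw [← hkp] at hV
  have hVy : V.eval y ≠ 0 := by
    intro h0
    exact hV0 (Polynomial.dvd_iff_isRoot.2 h0)
  set E := dslope Complex.exp p with hE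
  have hEc : ContinuousAt E p := continuousAt_dslope_same.2 Complex.differentiableAt_exp
  have hEp : E p = y := by rw [hE, dslope_same, Complex.deriv_exp]
  have hfac : ∀ t, Complex.exp t - y = (t - p) * E t := by
    intro t
    have := sub_smul_dslope Complex.exp p t
    rw [smul_eq_mul] at this
    exact this.symm
  set g : ℂ → ℂ := fun t => Complex.exp t * (E t ^ kp * V.eval (Complex.exp t)) /
    (P.eval (Complex.exp t) * Q.eval (Complex.exp t)) with hg
  have hGg : ∀ t, G P Q t = (t - p) ^ kp * g t := by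
    intro t
    unfold G
    rw [hg]
    simp only
    rw [hV, Polynomial.eval_mul, Polynomial.eval_pow, Polynomial.eval_sub, Polynomial.eval_X,
      Polynomial.eval_C, hfac, mul_pow]
    ring
  have hwE : ∀ t, (wro P Q).eval (Complex.exp t) = (t - p) ^ kp * (E t ^ kp * V.eval (Complex.exp t)) := by
    intro t
    rw [hV, Polynomial.eval_mul, Polynomial.eval_pow, Polynomial.eval_sub, Polynomial.eval_X,
      Polynomial.eval_C, hfac, mul_pow]
    ring
  have hy0 : y ≠ 0 := Complex.exp_ne_zero _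
  have hcexp : ContinuousAt Complex.exp p := Complex.continuous_exp.continuousAt
  have hcP : ContinuousAt (fun t => P.eval (Complex.exp t)) p :=
    (P.continuous.comp Complex.continuous_exp).continuousAt
  have hcQ : ContinuousAt (fun t => Q.eval (Complex.exp t)) p :=
    (Q.continuous.comp Complex.continuous_exp).continuousAt
  have hcV : ContinuousAt (fun t => V.eval (Complex.exp t)) p :=
    (V.continuous.comp Complex.continuous_exp).continuousAt
  have hcEV : ContinuousAt (fun t => E t ^ kp * V.eval (Complex.exp t)) p := (hEc.pow kp).mul hcV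
  have hgc : ContinuousAt g p :=
    (hcexp.mul hcEV).div (hcP.mul hcQ) (mul_ne_zero hP hQ)
  have hgp : g p ≠ 0 := by
    rw [hg]
    simp only
    rw [hEp, ← hy]
    exact div_ne_zero (mul_ne_zero hy0 (mul_ne_zero (pow_ne_zero _ hy0) hVy)) (mul_ne_zero hP hQ)
  have hEVp : E p ^ kp * V.eval (Complex.exp p) ≠ 0 := by
    rw [hEp, ← hy]; exact mul_ne_zero (pow_ne_zero _ hy0) hVy
  have hHc : ContinuousAt (H P Q) p := hcP.div hcQ hQ
  have hHp : H P Q p ≠ 0 := div_ne_zero hP hQ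
  have hev : ∀ᶠ t in 𝓝 p, (P.eval (Complex.exp t) ≠ 0 ∧ Q.eval (Complex.exp t) ≠ 0) ∧
      (E t ^ kp * V.eval (Complex.exp t) ≠ 0) ∧ (‖g t - g p‖ < ‖g p‖ / 64) ∧
      (‖H P Q t - H P Q p‖ < ‖H P Q p‖ / 4) := by
    have e1 := hcP.eventually_ne hP
    have e2 := hcQ.eventually_ne hQ
    have e3 := hcEV.eventually_ne hEVp
    have e4 : ∀ᶠ t in 𝓝 p, ‖g t - g p‖ < ‖g p‖ / 64 := by
      have := hgc.eventually (Metric.ball_mem_nhds (g p)
        (show 0 < ‖g p‖ / 64 by have := norm_pos_iff.2 hgp; positivity))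
      filter_upwards [this] with t ht
      rwa [dist_eq_norm] at ht
    have e5 : ∀ᶠ t in 𝓝 p, ‖H P Q t - H P Q p‖ < ‖H P Q p‖ / 4 := by
      have := hHc.eventually (Metric.ball_mem_nhds (H P Q p)
        (show 0 < ‖H P Q p‖ / 4 by have := norm_pos_iff.2 hHp; positivity))
      filter_upwards [this] with t ht
      rwa [dist_eq_norm] at ht
    filter_upwards [e1, e2, e3, e4, e5] with t a1 a2 a3 a4 a5
    exact ⟨⟨a1, a2⟩, a3, a4, a5⟩
  obtain ⟨r₁, hr₁, hball⟩ := Metric.eventually_nhds_iff_ball.1 hev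
  set r := min r₁ 1 with hr
  have hr0 : 0 < r := lt_min hr₁ one_pos
  have hr1 : r ≤ 1 := min_le_right _ _
  have hb : ∀ t ∈ ball p r, _ := fun t ht =>
    hball t (ball_subset_ball (min_le_left _ _) ht)
  have hgpos := norm_pos_iff.2 hgp
  have hHpos := norm_pos_iff.2 hHp
  have hglow : ∀ t ∈ ball p r, ‖g p‖ / 2 ≤ ‖g t‖ := by
    intro t ht
    have h1 := (hb t ht).2.2.1
    have h2 : ‖g p‖ ≤ ‖g t‖ + ‖g t - g p‖ := by
      calc ‖g p‖ = ‖g t - (g t - g p)‖ := by congr 1; ring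
        _ ≤ _ := norm_sub_le _ _
    linarith
  refine ⟨r, ‖g p‖ / 2, hr0, hr1, by positivity, ⟨?_, ?_, ?_, ?_, ?_⟩⟩
  · exact fun t ht => (hb t ht).1
  · intro t ht t' ht'
    have h1 := (hb t ht).2.2.2
    have h2 := (hb t' ht').2.2.2
    have h3 : 3 / 4 * ‖H P Q p‖ < ‖H P Q t'‖ := by
      have : ‖H P Q p‖ ≤ ‖H P Q t'‖ + ‖H P Q t' - H P Q p‖ := by
        calc ‖H P Q p‖ = ‖H P Q t' - (H P Q t' - H P Q p)‖ := by congr 1; ring
          _ ≤ _ := norm_sub_le _ _
      linarith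
    have h4 : H P Q t' ≠ 0 := by
      intro h0
      rw [h0, norm_zero] at h3
      linarith
    have h5 : H P Q t / H P Q t' - 1 = (H P Q t - H P Q t') / H P Q t' := by
      field_simp
    rw [h5, norm_div, div_lt_one (by linarith)]
    calc ‖H P Q t - H P Q t'‖ = ‖(H P Q t - H P Q p) - (H P Q t' - H P Q p)‖ := by congr 1; ring
      _ ≤ _ := norm_sub_le _ _
      _ < ‖H P Q t'‖ := by linarith
  · intro t₀ ht₀ δ hδ0 hδr hδp t ht
    have ht₀' : t₀ ∈ ball p r := ball_subset_ball (by linarith) ht₀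
    have hk1 : (0:ℝ) < 16 * (k + 1) := by positivity
    have hεδ : 1 / (16 * ((k:ℝ) + 1)) * δ ≤ r / 2 := by
      have : 1 / (16 * ((k:ℝ) + 1)) ≤ 1 := by
        rw [div_le_one hk1]
        have : (0:ℝ) ≤ k := Nat.cast_nonneg k
        linarith
      nlinarith
    have ht' : t ∈ ball p r := by
      rw [mem_ball, dist_eq_norm] at *
      calc ‖t - p‖ = ‖(t - t₀) + (t₀ - p)‖ := by congr 1; ring
        _ ≤ _ := norm_add_le _ _
        _ < r := by linarith
    -- the power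
    have hpow : ‖(t - p) ^ kp - (t₀ - p) ^ kp‖ ≤ 1 / 15 * ‖(t₀ - p) ^ kp‖ := by
      rcases Nat.eq_zero_or_pos kp with h0 | h0
      · rw [h0]; simp
      · have hroot : (wro P Q).eval (Complex.exp p) = 0 := by
          rw [← hy]
          exact (Polynomial.rootMultiplicity_pos hw).1 h0
        have h1 := hδp hroot
        by_cases h2 : t₀ - p = 0
        · have h3 : δ ≤ 0 := by rw [h2, norm_zero] at h1; exact h1
          have h4 : ball t₀ (1 / (16 * ((k:ℝ) + 1)) * δ) = ∅ := by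
            apply ball_eq_empty.2
            exact mul_nonpos_of_nonneg_of_nonpos (by positivity) h3
          rw [h4] at ht
          exact absurd ht (notMem_empty _)
        · have h3 : (t - p) = (t₀ - p) * (1 + (t - t₀) / (t₀ - p)) := by
            field_simp; ring
          have h4 : (t - p) ^ kp - (t₀ - p) ^ kp =
              (t₀ - p) ^ kp * ((1 + (t - t₀) / (t₀ - p)) ^ kp - 1) := by
            conv_lhs => rw [h3, mul_pow]
            ring
          have h5 : ‖(t - t₀) / (t₀ - p)‖ ≤ 1 / (16 * (k + 1)) := by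
            have h6 : 0 < ‖t₀ - p‖ := norm_pos_iff.2 h2
            rw [norm_div, div_le_iff₀ h6]
            rw [mem_ball, dist_eq_norm] at ht
            refine ht.le.trans ?_
            exact mul_le_mul_of_nonneg_left h1 (by positivity)
          rw [h4, norm_mul, mul_comm]
          exact mul_le_mul_of_nonneg_right (pow_sub_one_le hk h5) (norm_nonneg _)
    have hgt := (hb t ht').2.2.1
    have hgt₀ := (hb t₀ ht₀').2.2.1
    have hg1 : ‖g t - g t₀‖ ≤ 1 / 16 * ‖g t₀‖ := by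
      have h1 := hglow t₀ ht₀'
      calc ‖g t - g t₀‖ = ‖(g t - g p) - (g t₀ - g p)‖ := by congr 1; ring
        _ ≤ _ := norm_sub_le _ _
        _ ≤ 1 / 16 * ‖g t₀‖ := by linarith
    rw [hGg, hGg, norm_mul]
    have e : (t - p) ^ kp * g t - (t₀ - p) ^ kp * g t₀ =
        ((t - p) ^ kp - (t₀ - p) ^ kp) * g t + (t₀ - p) ^ kp * (g t - g t₀) := by ring
    rw [e]
    refine (norm_add_le _ _).trans ?_
    rw [norm_mul, norm_mul]
    have h6 : ‖g t‖ ≤ 17 / 16 * ‖g t₀‖ := by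
      calc ‖g t‖ = ‖(g t - g t₀) + g t₀‖ := by congr 1; ring
        _ ≤ _ := norm_add_le _ _
        _ ≤ _ := by linarith
    have h7 : ‖(t - p) ^ kp - (t₀ - p) ^ kp‖ * ‖g t‖ ≤
        (1 / 15 * ‖(t₀ - p) ^ kp‖) * (17 / 16 * ‖g t₀‖) :=
      mul_le_mul hpow h6 (norm_nonneg _) (by positivity)
    have h8 : ‖(t₀ - p) ^ kp‖ * ‖g t - g t₀‖ ≤ ‖(t₀ - p) ^ kp‖ * (1 / 16 * ‖g t₀‖) :=
      mul_le_mul_of_nonneg_left hg1 (norm_nonneg _)
    have h9 : 0 ≤ ‖(t₀ - p) ^ kp‖ * ‖g t₀‖ := by positivity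
    nlinarith
  · intro t₀ ht₀ δ hδ0 hδr hδp
    have ht₀' : t₀ ∈ ball p r := ball_subset_ball (by linarith) ht₀
    have h1 := hglow t₀ ht₀'
    rw [hGg, norm_mul, mul_comm]
    apply mul_le_mul _ h1 (by positivity) (norm_nonneg _)
    rw [norm_pow]
    rcases Nat.eq_zero_or_pos kp with h0 | h0
    · rw [h0, pow_zero]
      exact pow_le_one₀ hδ0 (by linarith)
    · have hroot : (wro P Q).eval (Complex.exp p) = 0 := by
        rw [← hy]
        exact (Polynomial.rootMultiplicity_pos hw).1 h0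
      have h2 := hδp hroot
      calc δ ^ k ≤ δ ^ kp := pow_le_pow_of_le_one hδ0 (by linarith) hk
        _ ≤ _ := pow_le_pow_left₀ hδ0 h2 _
  · intro q hq h0
    rw [hwE] at h0
    have h1 := (hb q hq).2.1
    have h2 := (mul_eq_zero.1 h0).resolve_right h1
    have h3 : q - p = 0 := by
      by_contra hcon
      exact (pow_ne_zero kp hcon) h2
    exact sub_eq_zero.1 h3

variable (P Q) in
/-- the band -/
def Band (κ L : ℝ) (t : ℂ) : Prop := |t.re| ≤ L ∧
  ‖P.eval (Complex.exp t)‖ ≤ Real.exp κ * ‖Q.eval (Complex.exp t)‖ ∧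
  ‖Q.eval (Complex.exp t)‖ ≤ Real.exp κ * ‖P.eval (Complex.exp t)‖

theorem Band.shift {κ L : ℝ} {t : ℂ} (h : Band P Q κ L t) (j : ℤ) :
    Band P Q κ L (t + 2 * Real.pi * Complex.I * j) := by
  unfold Band at *
  rw [exp_shift]
  have : (t + 2 * Real.pi * Complex.I * j).re = t.re := by
    simp
  rw [this]
  exact h

theorem Band.ne {κ L : ℝ} {t : ℂ} (hc : IsCoprime P Q) (h : Band P Q κ L t) :
    P.eval (Complex.exp t) ≠ 0 ∧ Q.eval (Complex.exp t) ≠ 0 := by
  obtain ⟨-, h1, h2⟩ := h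
  obtain ⟨a, b, hab⟩ := hc
  have h3 : ¬ (P.eval (Complex.exp t) = 0 ∧ Q.eval (Complex.exp t) = 0) := by
    rintro ⟨h4, h5⟩
    have := congrArg (Polynomial.eval (Complex.exp t)) hab
    rw [Polynomial.eval_add, Polynomial.eval_mul, Polynomial.eval_mul, h4, h5] at this
    simp at this
  constructor
  · intro h4
    rw [h4, norm_zero, mul_zero] at h2
    exact h3 ⟨h4, norm_le_zero_iff.1 h2⟩
  · intro h5
    rw [h5, norm_zero, mul_zero] at h1
    exact h3 ⟨norm_le_zero_iff.1 h1, h5⟩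

variable (P Q) in
/-- the critical points in the band -/
def Cr (κ L : ℝ) : Set ℂ := {p | Band P Q κ L p ∧ (wro P Q).eval (Complex.exp p) = 0}

variable (P Q) in
/-- the uniform local analysis -/
structure Unif (κ L : ℝ) (k : ℕ) (ε r c : ℝ) : Prop where
  nz : ∀ t₀, Band P Q κ L t₀ → ∀ t ∈ ball t₀ (2 * r),
    P.eval (Complex.exp t) ≠ 0 ∧ Q.eval (Complex.exp t) ≠ 0
  lg : ∀ t₀, Band P Q κ L t₀ → ∀ t ∈ ball t₀ (2 * r), ‖H P Q t / H P Q t₀ - 1‖ < 1
  var : ∀ t₀, Band P Q κ L t₀ → ∀ δ : ℝ, 0 ≤ δ → δ ≤ r → (∀ p ∈ Cr P Q κ L, δ ≤ ‖t₀ - p‖) →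
    ∀ t ∈ ball t₀ (ε * δ), ‖G P Q t - G P Q t₀‖ ≤ ‖G P Q t₀‖ / 4
  low : ∀ t₀, Band P Q κ L t₀ → ∀ δ : ℝ, 0 ≤ δ → δ ≤ r → (∀ p ∈ Cr P Q κ L, δ ≤ ‖t₀ - p‖) →
    c * δ ^ k ≤ ‖G P Q t₀‖
  sep : ∀ x, ∀ p ∈ Cr P Q κ L, ∀ p' ∈ Cr P Q κ L, ‖x - p‖ ≤ 2 * r → ‖x - p'‖ ≤ 2 * r → p = p'

theorem exists_unif (hc : IsCoprime P Q) (hw : wro P Q ≠ 0) {κ L : ℝ} {k : ℕ}
    (hk : ∀ p, Band P Q κ L p → (wro P Q).rootMultiplicity (Complex.exp p) ≤ k) :
    ∃ r c : ℝ, 0 < r ∧ r ≤ 1 ∧ 0 < c ∧ Unif P Q κ L k (1 / (16 * (k + 1))) r c := by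
  set K : Set ℂ := {t | Band P Q κ L t ∧ |t.im| ≤ Real.pi} with hK
  have hcompact : IsCompact K := by
    apply Metric.isCompact_of_isClosed_isBounded
    · have h1 : IsClosed {t : ℂ | |t.re| ≤ L} :=
        isClosed_le (continuous_abs.comp Complex.continuous_re) continuous_const
      have h2 : IsClosed {t : ℂ | |t.im| ≤ Real.pi} :=
        isClosed_le (continuous_abs.comp Complex.continuous_im) continuous_const
      have h3 : IsClosed {t : ℂ | ‖P.eval (Complex.exp t)‖ ≤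
          Real.exp κ * ‖Q.eval (Complex.exp t)‖} :=
        isClosed_le (P.continuous.comp Complex.continuous_exp).norm
          (continuous_const.mul (Q.continuous.comp Complex.continuous_exp).norm)
      have h4 : IsClosed {t : ℂ | ‖Q.eval (Complex.exp t)‖ ≤
          Real.exp κ * ‖P.eval (Complex.exp t)‖} :=
        isClosed_le (Q.continuous.comp Complex.continuous_exp).norm
          (continuous_const.mul (P.continuous.comp Complex.continuous_exp).norm)
      have : K = (({t : ℂ | |t.re| ≤ L} ∩ ({t : ℂ | ‖P.eval (Complex.exp t)‖ ≤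
          Real.exp κ * ‖Q.eval (Complex.exp t)‖} ∩ {t : ℂ | ‖Q.eval (Complex.exp t)‖ ≤
          Real.exp κ * ‖P.eval (Complex.exp t)‖})) ∩ {t : ℂ | |t.im| ≤ Real.pi}) := by
        ext t; rfl
      rw [this]
      exact (h1.inter (h3.inter h4)).inter h2
    · rw [isBounded_iff_forall_norm_le]
      refine ⟨|L| + Real.pi, ?_⟩
      rintro t ⟨⟨h1, -, -⟩, h2⟩
      have := Complex.norm_le_abs_re_add_abs_im t
      have := le_abs_self L
      linarith
  -- local data at each point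
  have hloc : ∀ p ∈ K, ∃ r c : ℝ, 0 < r ∧ r ≤ 1 ∧ 0 < c ∧
      Loc P Q k (1 / (16 * (k + 1))) p r c := by
    rintro p ⟨hp, -⟩
    obtain ⟨h1, h2⟩ := hp.ne hc
    exact exists_loc hw h1 h2 (hk p hp)
  choose! rr cc hrr0 hrr1 hcc0 hL using hloc
  obtain ⟨F, hFK, hFcov⟩ := hcompact.elim_nhds_subcover (fun p => ball p (rr p / 4))
    (fun p hp => ball_mem_nhds p (by have := hrr0 p hp; positivity))
  -- the constants
  obtain ⟨r, hr0, hr1, hrF⟩ : ∃ r : ℝ, 0 < r ∧ r ≤ 1 ∧ ∀ p ∈ F, 16 * r ≤ rr p := by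
    clear hFcov
    induction F using Finset.induction_on with
    | empty => exact ⟨1, one_pos, le_rfl, by simp⟩
    | insert a s _ ih =>
      obtain ⟨r, h1, h2, h3⟩ := ih (fun x hx => hFK x (Finset.mem_insert_of_mem hx))
      have h4 := hrr0 a (hFK a (Finset.mem_insert_self _ _))
      refine ⟨min r (rr a / 16), lt_min h1 (by positivity), (min_le_left _ _).trans h2, ?_⟩
      intro p hp
      rcases Finset.mem_insert.1 hp with rfl | hp
      · have := min_le_right r (rr p / 16); linarith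
      · have := min_le_left r (rr a / 16)
        have := h3 p hp
        linarith
  obtain ⟨c, hc0, hcF⟩ : ∃ c : ℝ, 0 < c ∧ ∀ p ∈ F, c ≤ cc p := by
    clear hFcov hrF
    induction F using Finset.induction_on with
    | empty => exact ⟨1, one_pos, by simp⟩
    | insert a s _ ih =>
      obtain ⟨c, h1, h3⟩ := ih (fun x hx => hFK x (Finset.mem_insert_of_mem hx))
      have h4 := hcc0 a (hFK a (Finset.mem_insert_self _ _))
      refine ⟨min c (cc a), lt_min h1 h4, ?_⟩
      intro p hp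
      rcases Finset.mem_insert.1 hp with rfl | hp
      · exact min_le_right _ _
      · exact (min_le_left _ _).trans (h3 p hp)
  -- each point of the band is near a shifted centre
  have key : ∀ t₀, Band P Q κ L t₀ → ∃ (p : ℂ) (r' c' : ℝ), Band P Q κ L p ∧ 16 * r ≤ r' ∧
      c ≤ c' ∧ Loc P Q k (1 / (16 * (k + 1))) p r' c' ∧ t₀ ∈ ball p (r' / 4) := by
    intro t₀ ht₀
    set j : ℤ := toIocDiv Real.two_pi_pos (-Real.pi) t₀.im with hj
    have h1 := sub_toIocDiv_zsmul_mem_Ioc Real.two_pi_pos (-Real.pi) t₀.im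
    rw [← hj] at h1
    have h2 : t₀ + 2 * Real.pi * Complex.I * ((-j : ℤ) : ℂ) ∈ K := by
      refine ⟨ht₀.shift (-j), ?_⟩
      have h3 : (t₀ + 2 * Real.pi * Complex.I * ((-j : ℤ) : ℂ)).im = t₀.im - j • (2 * Real.pi) := by
        simp
        ring
      rw [h3, abs_le]
      constructor
      · exact h1.1.le
      · have := h1.2; linarith
    have h3 := hFcov h2
    simp only [mem_iUnion] at h3
    obtain ⟨p, hp, hp2⟩ := h3
    refine ⟨p - 2 * Real.pi * Complex.I * ((-j : ℤ) : ℂ), rr p, cc p, ?_, hrF p hp, hcF p hp,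
      (hL p (hFK p hp)).shift (-j), ?_⟩
    · have h4 := (hFK p hp).1.shift j
      have e : p - 2 * Real.pi * Complex.I * ((-j : ℤ) : ℂ) =
        p + 2 * Real.pi * Complex.I * (j : ℂ) := by push_cast; ring
      rw [e]; exact h4
    · rw [mem_ball, dist_eq_norm] at hp2 ⊢
      have : t₀ - (p - 2 * Real.pi * Complex.I * ((-j : ℤ) : ℂ)) =
        t₀ + 2 * Real.pi * Complex.I * ((-j : ℤ) : ℂ) - p := by ring
      rwa [this]
  refine ⟨r, c, hr0, hr1, hc0, ⟨?_, ?_, ?_, ?_, ?_⟩⟩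
  · intro t₀ ht₀ t ht
    obtain ⟨p, r', c', hBp, hr', hc', hLoc, hmem⟩ := key t₀ ht₀
    apply hLoc.nz
    rw [mem_ball, dist_eq_norm] at *
    calc ‖t - p‖ = ‖(t - t₀) + (t₀ - p)‖ := by congr 1; ring
      _ ≤ _ := norm_add_le _ _
      _ < r' := by linarith
  · intro t₀ ht₀ t ht
    obtain ⟨p, r', c', hBp, hr', hc', hLoc, hmem⟩ := key t₀ ht₀
    apply hLoc.lg
    · rw [mem_ball, dist_eq_norm] at *
      calc ‖t - p‖ = ‖(t - t₀) + (t₀ - p)‖ := by congr 1; ring
        _ ≤ _ := norm_add_le _ _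
        _ < r' := by linarith
    · exact ball_subset_ball (by linarith) hmem
  · intro t₀ ht₀ δ h0 h1 h2 t ht
    obtain ⟨p, r', c', hBp, hr', hc', hLoc, hmem⟩ := key t₀ ht₀
    apply hLoc.var t₀ (ball_subset_ball (by linarith) hmem) δ h0 (by linarith) _ t ht
    intro h3
    exact h2 p ⟨hBp, h3⟩
  · intro t₀ ht₀ δ h0 h1 h2
    obtain ⟨p, r', c', hBp, hr', hc', hLoc, hmem⟩ := key t₀ ht₀
    have := hLoc.low t₀ (ball_subset_ball (by linarith) hmem) δ h0 (by linarith) (by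
      intro h3
      exact h2 p ⟨hBp, h3⟩)
    refine le_trans ?_ this
    exact mul_le_mul_of_nonneg_right hc' (by positivity)
  · intro x p hp p' hp' h1 h2
    obtain ⟨q, r', c', hBq, hr', hc', hLoc, hmem⟩ := key p hp.1
    have h3 : p = q := hLoc.iso p (ball_subset_ball (by linarith) hmem) hp.2
    have h4 : p' = q := by
      apply hLoc.iso p' _ hp'.2
      rw [← h3, mem_ball, dist_eq_norm]
      calc ‖p' - p‖ = ‖(x - p) - (x - p')‖ := by congr 1; ring
        _ ≤ _ := norm_sub_le _ _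
        _ < r' := by linarith
    rw [h3, h4]

end Pool.Agent.Q79.PW
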