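import Mathlib
import Pool.Agent.Q79.PowB
import Pool.Agent.Q79.MonA

/-!
# The families `a z ^ n R(z)` in the logarithmic coordinate: local analysis
-/

set_option autoImplicit false

open MeasureTheory Set Filter Topology Metric

namespace Pool.Agent.Q79.MN

open Pool.Agent.Q79.PW (Sim cover H G H_hasDerivAt exp_shift periodic_G)
open Pool.Agent.H762R2.Rt (wro)

variable {P Q : Polynomial ℂ}

/-- the family `a z ^ n P(z) / Q(z)` -/
noncomputable def fam (P Q : Polynomial ℂ) (n : ℕ) (S X : ℂ) : ℂ :=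
  S * X ^ n * (P.eval X / Q.eval X)

theorem G_diff {t : ℂ} (hP : P.eval (Complex.exp t) ≠ 0) (hQ : Q.eval (Complex.exp t) ≠ 0) :
    DifferentiableAt ℂ (G P Q) t := by
  unfold G
  have h1 : DifferentiableAt ℂ (fun t => (wro P Q).eval (Complex.exp t)) t :=
    (wro P Q).differentiable.differentiableAt.comp t Complex.differentiable_exp.differentiableAt
  have h2 : DifferentiableAt ℂ (fun t => P.eval (Complex.exp t)) t :=
    P.differentiable.differentiableAt.comp t Complex.differentiable_exp.differentiableAt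
  have h3 : DifferentiableAt ℂ (fun t => Q.eval (Complex.exp t)) t :=
    Q.differentiable.differentiableAt.comp t Complex.differentiable_exp.differentiableAt
  exact (Complex.differentiable_exp.differentiableAt.mul h1).div (h2.mul h3) (mul_ne_zero hP hQ)

/-- a logarithm of the family -/
theorem hasSim {n : ℕ} {s : ℂ → ℂ} {x : ℂ} {r : ℝ} (hs : Slow s x r) {t₀ : ℂ}
    (ht₀ : t₀ ∈ ball x r) {ρ : ℝ} (hρ0 : 0 < ρ) (hρr : ρ ≤ r)
    (hnz : ∀ t ∈ ball t₀ ρ, P.eval (Complex.exp t) ≠ 0 ∧ Q.eval (Complex.exp t) ≠ 0)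
    (hbig : 4 ≤ ‖(n:ℂ) + G P Q t₀‖)
    (hvar : ∀ t ∈ ball t₀ ρ, ‖G P Q t - G P Q t₀‖ ≤ ‖(n:ℂ) + G P Q t₀‖ / 4) :
    HasSim (fam P Q n) s t₀ (n + G P Q t₀) ρ := by
  have hGd : DifferentiableOn ℂ (G P Q) (ball t₀ ρ) := fun t ht =>
    (G_diff (hnz t ht).1 (hnz t ht).2).differentiableWithinAt
  obtain ⟨L, hL⟩ := hGd.isExactOn_ball
  have ht₀ρ : t₀ ∈ ball t₀ ρ := mem_ball_self hρ0
  have hH0 : H P Q t₀ ≠ 0 := div_ne_zero (hnz t₀ ht₀ρ).1 (hnz t₀ ht₀ρ).2
  have hHe : ∀ t ∈ ball t₀ ρ, H P Q t = Complex.exp (L t - L t₀) * H P Q t₀ := by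
    set u : ℂ → ℂ := fun t => H P Q t * Complex.exp (-(L t - L t₀)) with hu
    have hud : ∀ t ∈ ball t₀ ρ, HasDerivAt u 0 t := by
      intro t ht
      have h1 := H_hasDerivAt (hnz t ht).1 (hnz t ht).2
      have h2 := (((hL t ht).sub_const (L t₀)).neg).cexp
      refine (h1.mul h2).congr_deriv ?_
      ring
    have hconst : ∀ t ∈ ball t₀ ρ, u t = u t₀ := by
      intro t ht
      have hc := (convex_ball t₀ ρ).norm_image_sub_le_of_norm_hasDerivWithin_le (C := 0)
        (f := u) (f' := fun _ => 0) (fun y hy => (hud y hy).hasDerivWithinAt)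
        (fun y _ => by simp) ht₀ρ ht
      rw [zero_mul] at hc
      exact sub_eq_zero.1 (norm_le_zero_iff.1 hc)
    intro t ht
    have h1 := hconst t ht
    simp only [hu, sub_self, neg_zero, Complex.exp_zero, mul_one] at h1
    rw [← h1, mul_comm, mul_assoc, ← Complex.exp_add]
    simp
  have hsmem : ∀ t ∈ ball t₀ ρ, t ∈ ball x (2 * r) := by
    intro t ht
    rw [mem_ball, dist_eq_norm] at *
    calc ‖t - x‖ = ‖(t - t₀) + (t₀ - x)‖ := by congr 1; ring
      _ ≤ _ := norm_add_le _ _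
      _ < 2 * r := by linarith
  set F : ℂ → ℂ := fun t => s t + (n:ℂ) * t + (L t - L t₀) + Complex.log (H P Q t₀) with hF
  have hder : ∀ t ∈ ball t₀ ρ, HasDerivAt F (deriv s t + n + G P Q t) t := by
    intro t ht
    have h5 : HasDerivAt s (deriv s t) t :=
      (hs.d.differentiableAt (isOpen_ball.mem_nhds (hsmem t ht))).hasDerivAt
    have h6 := ((h5.add ((hasDerivAt_id t).const_mul (n:ℂ))).add
      ((hL t ht).sub_const (L t₀))).add_const (Complex.log (H P Q t₀))
    refine h6.congr_deriv ?_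
    ring
  refine ⟨F, ⟨hρ0, ?_, ?_, ?_⟩, ?_⟩
  · intro h0
    rw [h0, norm_zero] at hbig
    linarith
  · intro t ht
    exact (hder t ht).differentiableAt.differentiableWithinAt
  · intro t ht
    rw [(hder t ht).deriv]
    have h1 := hs.b t (hsmem t ht)
    have h2 := hvar t ht
    have e : deriv s t + n + G P Q t - (n + G P Q t₀) = deriv s t + (G P Q t - G P Q t₀) := by ring
    rw [e]
    refine (norm_add_le _ _).trans ?_
    linarith
  · intro t ht
    have h1 := hHe t ht
    simp only [hF]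
    rw [Complex.exp_add, Complex.exp_add, Complex.exp_add, Complex.exp_log hH0, mul_assoc,
      ← h1, Complex.exp_nat_mul]
    rfl

variable (P Q) in
/-- the local structure at a zero or pole -/
structure Near (σ μ : ℂ) (r : ℝ) : Prop where
  μ1 : 1 ≤ ‖μ‖
  zero : P.eval (Complex.exp σ) * Q.eval (Complex.exp σ) = 0
  nz : ∀ t ∈ ball σ r, t ≠ σ → P.eval (Complex.exp t) ≠ 0 ∧ Q.eval (Complex.exp t) ≠ 0
  q : ∀ t ∈ ball σ r, ∀ t' ∈ ball σ r,
    ‖μ * ((G P Q t)⁻¹ - (G P Q t')⁻¹) - (t - t')‖ ≤ ‖t - t'‖ / 4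

theorem Near.mono {σ μ : ℂ} {r r' : ℝ} (h : Near P Q σ μ r) (hr : r' ≤ r) : Near P Q σ μ r' :=
  ⟨h.μ1, h.zero, fun t ht => h.nz t (ball_subset_ball hr ht),
    fun t ht t' ht' => h.q t (ball_subset_ball hr ht) t' (ball_subset_ball hr ht')⟩

theorem Near.shift {σ μ : ℂ} {r : ℝ} (h : Near P Q σ μ r) (j : ℤ) :
    Near P Q (σ + 2 * Real.pi * Complex.I * j) μ r := by
  set τ : ℂ := 2 * Real.pi * Complex.I * j with hτ
  have hb : ∀ t : ℂ, t ∈ ball (σ + τ) r → t - τ ∈ ball σ r := by
    intro t ht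
    rw [mem_ball, dist_eq_norm] at ht ⊢
    have : t - τ - σ = t - (σ + τ) := by ring
    rwa [this]
  have hexp : ∀ t, Complex.exp (t - τ) = Complex.exp t := fun t => by
    have := exp_shift (t - τ) j
    rw [← hτ, sub_add_cancel] at this
    exact this.symm
  have hexp' : ∀ t, Complex.exp (t + τ) = Complex.exp t := fun t => exp_shift t j
  have hG : ∀ t, G P Q (t - τ) = G P Q t := fun t => by
    have := periodic_G (P := P) (Q := Q) (t - τ) j
    rw [← hτ, sub_add_cancel] at this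
    exact this.symm
  refine ⟨h.μ1, ?_, ?_, ?_⟩
  · rw [hexp']; exact h.zero
  · intro t ht hne
    have := h.nz _ (hb t ht) (by
      intro h1
      apply hne
      rw [← h1]; ring)
    rwa [hexp] at this
  · intro t ht t' ht'
    have := h.q _ (hb t ht) _ (hb t' ht')
    rw [hG, hG] at this
    have e : t - τ - (t' - τ) = t - t' := by ring
    rwa [e] at this

theorem exists_near (hc : IsCoprime P Q) (hP : P ≠ 0) (hQ : Q ≠ 0) {σ : ℂ}
    (h0 : P.eval (Complex.exp σ) * Q.eval (Complex.exp σ) = 0) :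
    ∃ (μ : ℂ) (r : ℝ), 0 < r ∧ Near P Q σ μ r := by
  classical
  set y := Complex.exp σ with hy
  have hy0 : y ≠ 0 := Complex.exp_ne_zero σ
  obtain ⟨P₁, hP1, hP1y⟩ := Polynomial.exists_eq_pow_rootMultiplicity_mul_and_not_dvd P hP y
  obtain ⟨Q₁, hQ1, hQ1y⟩ := Polynomial.exists_eq_pow_rootMultiplicity_mul_and_not_dvd Q hQ y
  rw [Polynomial.dvd_iff_isRoot, Polynomial.IsRoot.def] at hP1y hQ1y
  set m := P.rootMultiplicity y with hm
  set k := Q.rootMultiplicity y with hk
  set μ : ℂ := (m:ℂ) - k with hμ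
  have hμ1 : 1 ≤ ‖μ‖ := by
    have hmk : (m ≠ 0 ∧ k = 0) ∨ (m = 0 ∧ k ≠ 0) := by
      have hnot : ¬ (P.eval y = 0 ∧ Q.eval y = 0) := by
        rintro ⟨h1, h2⟩
        obtain ⟨u, v, huv⟩ := hc
        have := congrArg (Polynomial.eval y) huv
        rw [Polynomial.eval_add, Polynomial.eval_mul, Polynomial.eval_mul, h1, h2,
          Polynomial.eval_one] at this
        simp at this
      have hm0 : m = 0 ↔ ¬ P.eval y = 0 := by
        rw [hm, Polynomial.rootMultiplicity_eq_zero_iff]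
        constructor
        · intro h h1; exact hP (h h1)
        · intro h h1; exact absurd h1 h
      have hk0 : k = 0 ↔ ¬ Q.eval y = 0 := by
        rw [hk, Polynomial.rootMultiplicity_eq_zero_iff]
        constructor
        · intro h h1; exact hQ (h h1)
        · intro h h1; exact absurd h1 h
      rcases mul_eq_zero.1 h0 with h1 | h1
      · left
        exact ⟨fun h => (hm0.1 h) h1, hk0.2 fun h => hnot ⟨h1, h⟩⟩
      · right
        exact ⟨hm0.2 fun h => hnot ⟨h, h1⟩, fun h => (hk0.1 h) h1⟩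
    rcases hmk with ⟨h1, h2⟩ | ⟨h1, h2⟩
    · rw [hμ, h2, Nat.cast_zero, sub_zero, Complex.norm_natCast]
      exact_mod_cast Nat.one_le_iff_ne_zero.2 h1
    · rw [hμ, h1, Nat.cast_zero, zero_sub, norm_neg, Complex.norm_natCast]
      exact_mod_cast Nat.one_le_iff_ne_zero.2 h2
  have hμ0 : μ ≠ 0 := by
    intro h; rw [h, norm_zero] at hμ1; linarith
  set φ : ℂ → ℂ := fun t => 1 - Complex.exp (-(t - σ)) with hφ
  set g : ℂ → ℂ := fun t => G P₁ Q₁ t with hg
  have hφσ : φ σ = 0 := by simp [hφ]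
  have hgd : DifferentiableAt ℂ g σ := G_diff hP1y hQ1y
  -- analyticity
  have hphis : HasStrictDerivAt φ 1 σ := by
    have h1 : HasStrictDerivAt (fun t : ℂ => -(t - σ)) (-1) σ :=
      ((hasStrictDerivAt_id σ).sub_const σ).neg
    have h2 := h1.cexp.const_sub 1
    refine h2.congr_deriv ?_
    simp
  have hnear1 : ∀ᶠ t in 𝓝 σ, P₁.eval (Complex.exp t) ≠ 0 ∧ Q₁.eval (Complex.exp t) ≠ 0 := by
    have h1 : Continuous fun t => P₁.eval (Complex.exp t) :=
      P₁.continuous.comp Complex.continuous_exp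
    have h2 : Continuous fun t => Q₁.eval (Complex.exp t) :=
      Q₁.continuous.comp Complex.continuous_exp
    exact (h1.continuousAt.eventually_ne hP1y).and (h2.continuousAt.eventually_ne hQ1y)
  have hgs : HasStrictDerivAt g (deriv g σ) σ := by
    have han : AnalyticAt ℂ g σ := by
      rw [Complex.analyticAt_iff_eventually_differentiableAt]
      filter_upwards [hnear1] with t ht
      exact G_diff ht.1 ht.2
    exact han.hasStrictDerivAt
  set q : ℂ → ℂ := fun t => φ t / (μ + g t * φ t) with hq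
  have hqs : HasStrictDerivAt q (1 / μ) σ := by
    have h1 : HasStrictDerivAt (fun t => μ + g t * φ t)
        (deriv g σ * φ σ + g σ * 1) σ := (hgs.mul hphis).const_add μ
    have h2 := hphis.fun_div h1 (by rw [hφσ, mul_zero, add_zero]; exact hμ0)
    refine h2.congr_deriv ?_
    rw [hφσ, mul_zero, add_zero, zero_mul, sub_zero, one_mul]
    rw [pow_two, div_mul_cancel_left₀ hμ0, one_div]
  have hqs' : HasStrictDerivAt (fun t => μ * q t) 1 σ := by
    refine (hqs.const_mul μ).congr_deriv ?_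
    field_simp
  have hlit : ∀ᶠ p : ℂ × ℂ in 𝓝 (σ, σ), ‖μ * q p.1 - μ * q p.2 - (p.1 - p.2)‖ ≤
      1 / 4 * ‖p.1 - p.2‖ := by
    have h1 := hqs'.isLittleO.def (show (0:ℝ) < 1 / 4 by norm_num)
    filter_upwards [h1] with p hp
    simpa using hp
  have hφne : ∀ᶠ t in 𝓝 σ, t ≠ σ → φ t ≠ 0 := by
    have h1 := (hphis.hasDerivAt.eventually_ne (c := 0) one_ne_zero)
    rw [eventually_nhdsWithin_iff] at h1
    filter_upwards [h1] with t ht hne
    exact ht hne
  have hden : ∀ᶠ t in 𝓝 σ, μ + g t * φ t ≠ 0 := by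
    have h1 : ContinuousAt (fun t => μ + g t * φ t) σ :=
      ((hgs.mul hphis).const_add μ).hasDerivAt.continuousAt
    apply h1.eventually_ne
    rw [hφσ, mul_zero, add_zero]; exact hμ0
  -- evaluation
  have hφe : ∀ t, Complex.exp t - y = Complex.exp t * φ t := by
    intro t
    rw [hφ, mul_sub, mul_one, ← Complex.exp_add]
    have : t + -(t - σ) = σ := by ring
    rw [this]
  have hPe : ∀ t, P.eval (Complex.exp t) = (Complex.exp t - y) ^ m * P₁.eval (Complex.exp t) := by
    intro t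
    conv_lhs => rw [hP1]
    simp
  have hQe : ∀ t, Q.eval (Complex.exp t) = (Complex.exp t - y) ^ k * Q₁.eval (Complex.exp t) := by
    intro t
    conv_lhs => rw [hQ1]
    simp
  have hGe : ∀ t, φ t ≠ 0 → P₁.eval (Complex.exp t) ≠ 0 → Q₁.eval (Complex.exp t) ≠ 0 →
      G P Q t = μ / φ t + g t := by
    intro t h1 h2 h3
    have hX : Complex.exp t ≠ 0 := Complex.exp_ne_zero t
    have hXy : Complex.exp t - y ≠ 0 := by rw [hφe]; exact mul_ne_zero hX h1
    have hP' : (Polynomial.derivative P).eval (Complex.exp t) =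
        m * (Complex.exp t - y) ^ (m - 1) * P₁.eval (Complex.exp t) +
        (Complex.exp t - y) ^ m * (Polynomial.derivative P₁).eval (Complex.exp t) := by
      conv_lhs => rw [hP1]
      rw [Polynomial.derivative_mul, Polynomial.eval_add, Polynomial.eval_mul, Polynomial.eval_mul,
        Polynomial.derivative_X_sub_C_pow]
      simp
    have hQ' : (Polynomial.derivative Q).eval (Complex.exp t) =
        k * (Complex.exp t - y) ^ (k - 1) * Q₁.eval (Complex.exp t) +
        (Complex.exp t - y) ^ k * (Polynomial.derivative Q₁).eval (Complex.exp t) := by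
      conv_lhs => rw [hQ1]
      rw [Polynomial.derivative_mul, Polynomial.eval_add, Polynomial.eval_mul, Polynomial.eval_mul,
        Polynomial.derivative_X_sub_C_pow]
      simp
    have hpm : (m:ℂ) * (Complex.exp t - y) ^ (m - 1) =
        m * (Complex.exp t - y) ^ m / (Complex.exp t - y) := by
      rcases Nat.eq_zero_or_pos m with hm0 | hm0
      · rw [hm0]; simp
      · obtain ⟨i, hi⟩ : ∃ i, m = i + 1 := ⟨m - 1, by omega⟩
        rw [hi, Nat.add_sub_cancel, pow_succ]
        field_simp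
    have hpk : (k:ℂ) * (Complex.exp t - y) ^ (k - 1) =
        k * (Complex.exp t - y) ^ k / (Complex.exp t - y) := by
      rcases Nat.eq_zero_or_pos k with hk0 | hk0
      · rw [hk0]; simp
      · obtain ⟨i, hi⟩ : ∃ i, k = i + 1 := ⟨k - 1, by omega⟩
        rw [hi, Nat.add_sub_cancel, pow_succ]
        field_simp
    have hA : (Complex.exp t - y) ^ m ≠ 0 := pow_ne_zero _ hXy
    have hB : (Complex.exp t - y) ^ k ≠ 0 := pow_ne_zero _ hXy
    rw [hpm] at hP'
    rw [hpk] at hQ'
    have e1 : μ / φ t = μ * Complex.exp t / (Complex.exp t - y) := by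
      rw [hφe]; field_simp
    rw [e1]
    simp only [hg]
    unfold G wro
    rw [Polynomial.eval_sub, Polynomial.eval_mul, Polynomial.eval_mul, Polynomial.eval_sub,
      Polynomial.eval_mul, Polynomial.eval_mul, hP', hQ', hPe, hQe, hμ]
    field_simp
    ring
  have hGq : ∀ᶠ t in 𝓝 σ, (G P Q t)⁻¹ = q t := by
    filter_upwards [hnear1, hφne, hden] with t h1 h2 h3
    by_cases hts : t = σ
    · rw [hts]
      have : G P Q σ = 0 := by
        unfold G
        rw [← hy, h0, div_zero]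
      rw [this, hq]
      simp only
      rw [hφσ, inv_zero, zero_div]
    · have h4 := h2 hts
      rw [hGe t h4 h1.1 h1.2, hq]
      simp only
      rw [div_add' _ _ _ h4, inv_div]
  have hnz : ∀ᶠ t in 𝓝 σ, t ≠ σ → P.eval (Complex.exp t) ≠ 0 ∧ Q.eval (Complex.exp t) ≠ 0 := by
    filter_upwards [hnear1, hφne] with t h1 h2 hts
    have h3 : Complex.exp t - y ≠ 0 := by
      rw [hφe]; exact mul_ne_zero (Complex.exp_ne_zero t) (h2 hts)
    rw [hPe, hQe]
    exact ⟨mul_ne_zero (pow_ne_zero _ h3) h1.1, mul_ne_zero (pow_ne_zero _ h3) h1.2⟩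
  rw [nhds_prod_eq] at hlit
  obtain ⟨U, hU, hU2⟩ := (Filter.eventually_prod_self_iff (r := fun a b : ℂ =>
    ‖μ * q a - μ * q b - (a - b)‖ ≤ 1 / 4 * ‖a - b‖)).1 hlit
  obtain ⟨r, hr, hr2⟩ := Metric.mem_nhds_iff.1 (Filter.inter_mem hU (hGq.and hnz))
  refine ⟨μ, r, hr, hμ1, h0, fun t ht => (hr2 ht).2.2, ?_⟩
  intro t ht t' ht'
  obtain ⟨a1, a2, a3⟩ := hr2 ht
  obtain ⟨b1, b2, b3⟩ := hr2 ht'
  have := hU2 t a1 t' b1
  have a2' : (G P Q t)⁻¹ = q t := a2
  have b2' : (G P Q t')⁻¹ = q t' := b2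
  rw [a2', b2', mul_sub]
  linarith

end Pool.Agent.Q79.MN
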