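import Mathlib
import Pool.Agent.Q79.MonB

/-!
# Uniform local structure of the families `a z ^ n R(z)`
-/

set_option autoImplicit false

open MeasureTheory Set Filter Topology Metric

namespace Pool.Agent.Q79.MN

open Pool.Agent.Q79.PW (Sim cover H G H_hasDerivAt exp_shift periodic_G)
open Pool.Agent.H762R2.Rt (wro)

variable {P Q : Polynomial ℂ}

variable (P Q) in
/-- the logarithms of the zeros and poles -/
def Sg : Set ℂ := {σ | P.eval (Complex.exp σ) * Q.eval (Complex.exp σ) = 0}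

variable (P Q) in
/-- the uniform structure -/
structure MU (M r₀ B : ℝ) : Prop where
  near : ∀ σ ∈ Sg P Q, ∃ μ : ℂ, ‖μ‖ ≤ B ∧ Near P Q σ μ (4 * r₀)
  far : ∀ t₀ : ℂ, |t₀.re| ≤ M → (∀ σ ∈ Sg P Q, r₀ ≤ ‖t₀ - σ‖) →
    ∀ t ∈ ball t₀ (r₀ / 2), (P.eval (Complex.exp t) ≠ 0 ∧ Q.eval (Complex.exp t) ≠ 0) ∧
      ‖G P Q t‖ ≤ B

theorem Sg_shift {σ : ℂ} (h : σ ∈ Sg P Q) (j : ℤ) : σ + 2 * Real.pi * Complex.I * j ∈ Sg P Q := by
  unfold Sg at *
  simp only [mem_ofPred_eq] at *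
  rw [exp_shift]; exact h

theorem finset_unif {S : Finset ℂ} {Pr : ℂ → ℝ → ℝ → Prop}
    (hmono : ∀ y r r' B B', Pr y r B → r' ≤ r → B ≤ B' → Pr y r' B')
    (h : ∀ y ∈ S, ∃ r B : ℝ, 0 < r ∧ Pr y r B) :
    ∃ r B : ℝ, 0 < r ∧ ∀ y ∈ S, Pr y r B := by
  classical
  induction S using Finset.induction_on with
  | empty => exact ⟨1, 1, one_pos, by simp⟩
  | insert a S ha ih =>
    obtain ⟨r, B, hr, h1⟩ := ih fun y hy => h y (Finset.mem_insert_of_mem hy)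
    obtain ⟨r', B', hr', h2⟩ := h a (Finset.mem_insert_self a S)
    refine ⟨min r r', max B B', lt_min hr hr', fun y hy => ?_⟩
    rcases Finset.mem_insert.1 hy with rfl | hy
    · exact hmono _ _ _ _ _ h2 (min_le_right _ _) (le_max_right _ _)
    · exact hmono _ _ _ _ _ (h1 y hy) (min_le_left _ _) (le_max_left _ _)

theorem exists_MU (hc : IsCoprime P Q) (hP : P ≠ 0) (hQ : Q ≠ 0) (M : ℝ) :
    ∃ r₀ B : ℝ, 0 < r₀ ∧ r₀ ≤ 1 / 8 ∧ 1 ≤ B ∧ MU P Q M r₀ B := by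
  classical
  have hPQ : P * Q ≠ 0 := mul_ne_zero hP hQ
  obtain ⟨r₁, B₁, hr₁, h1⟩ := finset_unif (S := (P * Q).roots.toFinset)
    (Pr := fun y r B => y ≠ 0 → ∃ μ : ℂ, ‖μ‖ ≤ B ∧ Near P Q (Complex.log y) μ r)
    (by
      intro y r r' B B' h hr hB hy
      obtain ⟨μ, h1, h2⟩ := h hy
      exact ⟨μ, h1.trans hB, h2.mono hr⟩)
    (by
      intro y hy
      by_cases hy0 : y = 0
      · exact ⟨1, 1, one_pos, fun h => absurd hy0 h⟩
      rw [Multiset.mem_toFinset, Polynomial.mem_roots hPQ, Polynomial.IsRoot.def,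
        Polynomial.eval_mul] at hy
      obtain ⟨μ, r, hr, hN⟩ := exists_near hc hP hQ (σ := Complex.log y)
        (by rw [Complex.exp_log hy0]; exact hy)
      exact ⟨r, ‖μ‖, hr, fun _ => ⟨μ, le_rfl, hN⟩⟩)
  set r₀ : ℝ := min (r₁ / 4) (1 / 8) with hr₀
  have hr₀0 : 0 < r₀ := lt_min (by positivity) (by norm_num)
  have hr₀1 : 4 * r₀ ≤ r₁ := by
    have : r₀ ≤ r₁ / 4 := min_le_left _ _
    linarith
  have hr₀8 : r₀ ≤ 1 / 8 := min_le_right _ _
  set K : Set ℂ := {t : ℂ | |t.re| ≤ M + 1 ∧ |t.im| ≤ Real.pi ∧ ∀ σ ∈ Sg P Q, r₀ / 2 ≤ ‖t - σ‖}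
    with hK
  have hKc : IsCompact K := by
    have hclosed : IsClosed K := by
      have e : K = {t : ℂ | |t.re| ≤ M + 1} ∩ ({t : ℂ | |t.im| ≤ Real.pi} ∩
          ⋂ σ ∈ Sg P Q, {t : ℂ | r₀ / 2 ≤ ‖t - σ‖}) := by
        ext t
        simp only [hK, mem_ofPred_eq, mem_inter_iff, mem_iInter]
      rw [e]
      refine (isClosed_le (continuous_abs.comp Complex.continuous_re) continuous_const).inter
        ((isClosed_le (continuous_abs.comp Complex.continuous_im) continuous_const).inter ?_)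
      refine isClosed_biInter fun σ _ => isClosed_le continuous_const (by fun_prop)
    refine Metric.isCompact_of_isClosed_isBounded hclosed ?_
    rw [isBounded_iff_forall_norm_le]
    refine ⟨(M + 1) + Real.pi, fun t ht => ?_⟩
    have := Complex.norm_le_abs_re_add_abs_im t
    linarith [ht.1, ht.2.1]
  have hGc : ContinuousOn (G P Q) K := by
    intro t ht
    have h2 : ¬ (P.eval (Complex.exp t) * Q.eval (Complex.exp t) = 0) := by
      intro h3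
      have := ht.2.2 t h3
      rw [sub_self, norm_zero] at this
      linarith
    rw [mul_eq_zero, not_or] at h2
    exact (G_diff h2.1 h2.2).continuousAt.continuousWithinAt
  obtain ⟨B₂, hB₂⟩ := hKc.exists_bound_of_continuousOn hGc
  refine ⟨r₀, max 1 (max B₁ B₂), hr₀0, hr₀8, le_max_left _ _, ?_, ?_⟩
  · intro σ hσ
    set y := Complex.exp σ with hy
    have hy0 : y ≠ 0 := Complex.exp_ne_zero σ
    have hyr : y ∈ (P * Q).roots.toFinset := by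
      rw [Multiset.mem_toFinset, Polynomial.mem_roots hPQ, Polynomial.IsRoot.def,
        Polynomial.eval_mul]
      exact hσ
    obtain ⟨μ, h2, h3⟩ := h1 y hyr hy0
    have he : Complex.exp σ = Complex.exp (Complex.log y) := by rw [Complex.exp_log hy0]
    obtain ⟨j, hj⟩ := Complex.exp_eq_exp_iff_exists_int.1 he
    refine ⟨μ, h2.trans ((le_max_left _ _).trans (le_max_right _ _)), ?_⟩
    have h4 := (h3.mono hr₀1).shift j
    have e : Complex.log y + 2 * Real.pi * Complex.I * j = σ := by rw [hj]; ring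
    rwa [e] at h4
  · intro t₀ ht₀ hdist t ht
    rw [mem_ball, dist_eq_norm] at ht
    set t' := Complex.log (Complex.exp t) with ht'
    have he : Complex.exp t' = Complex.exp t := Complex.exp_log (Complex.exp_ne_zero t)
    obtain ⟨j, hj⟩ := Complex.exp_eq_exp_iff_exists_int.1 he
    have hre : t'.re = t.re := by
      rw [ht', Complex.log_re, Complex.norm_exp, Real.log_exp]
    have htre : |t.re| ≤ M + 1 := by
      have h5 : |(t - t₀).re| ≤ ‖t - t₀‖ := Complex.abs_re_le_norm _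
      rw [Complex.sub_re] at h5
      have h6 := abs_sub_abs_le_abs_sub t.re t₀.re
      linarith
    have hdt : ∀ σ ∈ Sg P Q, r₀ / 2 ≤ ‖t - σ‖ := by
      intro σ hσ
      have h5 := hdist σ hσ
      have h6 : ‖t₀ - σ‖ ≤ ‖t - t₀‖ + ‖t - σ‖ := by
        calc ‖t₀ - σ‖ = ‖(t - σ) - (t - t₀)‖ := by congr 1; ring
          _ ≤ _ := norm_sub_le _ _
          _ = _ := add_comm _ _
      linarith
    have hK' : t' ∈ K := by
      refine ⟨by rw [hre]; exact htre, ?_, fun σ hσ => ?_⟩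
      · rw [ht', Complex.log_im]; exact Complex.abs_arg_le_pi _
      · have h5 := hdt _ (Sg_shift hσ (-j))
        have e : t - (σ + 2 * Real.pi * Complex.I * ((-j : ℤ) : ℂ)) = t' - σ := by
          rw [hj]; push_cast; ring
        rwa [e] at h5
    have hG : G P Q t = G P Q t' := by
      unfold G; rw [he]
    refine ⟨?_, ?_⟩
    · have h2 : ¬ (P.eval (Complex.exp t) * Q.eval (Complex.exp t) = 0) := by
        intro h3
        have := hdt t h3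
        rw [sub_self, norm_zero] at this
        linarith
      rwa [mul_eq_zero, not_or] at h2
    · rw [hG]
      exact (hB₂ t' hK').trans ((le_max_right _ _).trans (le_max_right _ _))

/-! ### consequences of the local structure -/

theorem Near.lower {σ μ : ℂ} {r : ℝ} (h : Near P Q σ μ r) {t t' : ℂ} (ht : t ∈ ball σ r)
    (ht' : t' ∈ ball σ r) : 3 / 4 * ‖t - t'‖ ≤ ‖μ‖ * ‖(G P Q t)⁻¹ - (G P Q t')⁻¹‖ := by
  have h1 := h.q t ht t' ht'
  rw [← norm_mul]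
  have h2 : ‖t - t'‖ ≤ ‖μ * ((G P Q t)⁻¹ - (G P Q t')⁻¹)‖ +
      ‖μ * ((G P Q t)⁻¹ - (G P Q t')⁻¹) - (t - t')‖ := by
    calc ‖t - t'‖ = ‖μ * ((G P Q t)⁻¹ - (G P Q t')⁻¹) -
          (μ * ((G P Q t)⁻¹ - (G P Q t')⁻¹) - (t - t'))‖ := by congr 1; ring
      _ ≤ _ := norm_sub_le _ _
  linarith

theorem Near.upper {σ μ : ℂ} {r : ℝ} (h : Near P Q σ μ r) {t t' : ℂ} (ht : t ∈ ball σ r)
    (ht' : t' ∈ ball σ r) : ‖μ‖ * ‖(G P Q t)⁻¹ - (G P Q t')⁻¹‖ ≤ 5 / 4 * ‖t - t'‖ := by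
  have h1 := h.q t ht t' ht'
  rw [← norm_mul]
  have h2 : ‖μ * ((G P Q t)⁻¹ - (G P Q t')⁻¹)‖ ≤
      ‖μ * ((G P Q t)⁻¹ - (G P Q t')⁻¹) - (t - t')‖ + ‖t - t'‖ := by
    calc ‖μ * ((G P Q t)⁻¹ - (G P Q t')⁻¹)‖ = ‖(μ * ((G P Q t)⁻¹ - (G P Q t')⁻¹) -
          (t - t')) + (t - t')‖ := by congr 1; ring
      _ ≤ _ := norm_add_le _ _
  linarith

theorem Near.G_center {σ μ : ℂ} {r : ℝ} (h : Near P Q σ μ r) : (G P Q σ)⁻¹ = 0 := by
  unfold G
  rw [h.zero, div_zero, inv_zero]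

/-- variation of `G` -/
theorem G_var {x y : ℂ} (hx : x ≠ 0) (h : ‖x⁻¹ - y⁻¹‖ ≤ ‖y⁻¹‖ / 2) (hy : y ≠ 0) :
    ‖x - y‖ ≤ 2 * ‖x⁻¹ - y⁻¹‖ / ‖y⁻¹‖ ^ 2 := by
  have hy' : 0 < ‖y⁻¹‖ := norm_pos_iff.2 (inv_ne_zero hy)
  have hx' : 0 < ‖x⁻¹‖ := norm_pos_iff.2 (inv_ne_zero hx)
  have h1 : ‖y⁻¹‖ / 2 ≤ ‖x⁻¹‖ := by
    have : ‖y⁻¹‖ ≤ ‖x⁻¹‖ + ‖x⁻¹ - y⁻¹‖ := by
      calc ‖y⁻¹‖ = ‖x⁻¹ - (x⁻¹ - y⁻¹)‖ := by congr 1; ring
        _ ≤ _ := norm_sub_le _ _
    linarith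
  have e : x - y = -(x⁻¹ - y⁻¹) / (x⁻¹ * y⁻¹) := by
    field_simp
    ring
  rw [e, norm_div, norm_neg, norm_mul, div_le_div_iff₀ (by positivity) (by positivity)]
  have h2 := norm_nonneg (x⁻¹ - y⁻¹)
  have h3 : ‖y⁻¹‖ ^ 2 ≤ 2 * (‖x⁻¹‖ * ‖y⁻¹‖) := by nlinarith
  nlinarith

end Pool.Agent.Q79.MN
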