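import Mathlib
import Pool.Agent.Q79.MonC

/-!
# The supremum of the areas for the families `a z ^ n R(z)` is `O(n ^ -4)`
-/

set_option autoImplicit false

open MeasureTheory Set Filter Topology Metric

namespace Pool.Agent.Q79.MN

open Pool.Agent.Q79.PW (Sim cover H G H_hasDerivAt exp_shift periodic_G)
open Pool.Agent.H762R2.Rt (wro)

variable {P Q : Polynomial ℂ}

/-- the distance of `1 / G` to the critical value `-1 / n` -/
noncomputable def zz (P Q : Polynomial ℂ) (n : ℕ) (t : ℂ) : ℝ := ‖(G P Q t)⁻¹ + 1 / (n:ℂ)‖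

theorem zz_eq {n : ℕ} (hn : 1 ≤ n) {t : ℂ} (h : G P Q t ≠ 0) :
    ‖(n:ℂ) + G P Q t‖ = n * zz P Q n t / ‖(G P Q t)⁻¹‖ := by
  have hn0 : (n:ℂ) ≠ 0 := by exact_mod_cast (by omega : n ≠ 0)
  have e : (n:ℂ) + G P Q t = n * ((G P Q t)⁻¹ + 1 / (n:ℂ)) / (G P Q t)⁻¹ := by
    field_simp
  rw [e, norm_div, norm_mul, Complex.norm_natCast]
  rfl

theorem inv_n {n : ℕ} : ‖1 / (n:ℂ)‖ = 1 / (n:ℝ) := by
  rw [norm_div, norm_one, Complex.norm_natCast]

theorem zz_le {n : ℕ} {t : ℂ} : ‖(G P Q t)⁻¹‖ ≤ zz P Q n t + 1 / n := by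
  unfold zz
  calc ‖(G P Q t)⁻¹‖ = ‖((G P Q t)⁻¹ + 1 / (n:ℂ)) - 1 / (n:ℂ)‖ := by congr 1; ring
    _ ≤ ‖(G P Q t)⁻¹ + 1 / (n:ℂ)‖ + ‖1 / (n:ℂ)‖ := norm_sub_le _ _
    _ = _ := by rw [inv_n]

theorem zz_ge {n : ℕ} {t : ℂ} : 1 / (n:ℝ) - zz P Q n t ≤ ‖(G P Q t)⁻¹‖ := by
  unfold zz
  have : ‖1 / (n:ℂ)‖ ≤ ‖(G P Q t)⁻¹ + 1 / (n:ℂ)‖ + ‖(G P Q t)⁻¹‖ := by
    calc ‖1 / (n:ℂ)‖ = ‖((G P Q t)⁻¹ + 1 / (n:ℂ)) - (G P Q t)⁻¹‖ := by congr 1; ring
      _ ≤ _ := norm_sub_le _ _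
  rw [inv_n] at this
  linarith

/-- common part of the two regions near a zero or pole -/
theorem sim_near {σ μ : ℂ} {r₀ : ℝ} (hN : Near P Q σ μ (4 * r₀)) {n : ℕ}
    {s : ℂ → ℂ} {x : ℂ} {r : ℝ} (hr : 0 < r) (hrr : r ≤ r₀) (hs : Slow s x r) {t₀ : ℂ}
    (ht₀ : t₀ ∈ ball x r) (hσ : ‖t₀ - σ‖ < 3 * r₀) {ρ : ℝ} (hρ0 : 0 < ρ) (hρr : ρ ≤ r)
    (hG0 : G P Q t₀ ≠ 0) (hbig : 4 ≤ ‖(n:ℂ) + G P Q t₀‖)
    (h1 : 5 / 4 * ρ ≤ ‖μ‖ * (‖(G P Q t₀)⁻¹‖ / 2))
    (h2 : 10 * ρ ≤ ‖μ‖ * (‖(n:ℂ) + G P Q t₀‖ * ‖(G P Q t₀)⁻¹‖ ^ 2)) :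
    HasSim (fam P Q n) s t₀ (n + G P Q t₀) ρ := by
  have hμ := hN.μ1
  have hμ0 : 0 < ‖μ‖ := by linarith
  have hq0 : 0 < ‖(G P Q t₀)⁻¹‖ := norm_pos_iff.2 (inv_ne_zero hG0)
  have ht₀b : t₀ ∈ ball σ (4 * r₀) := by
    rw [mem_ball, dist_eq_norm]; linarith
  have hmem : ∀ t ∈ ball t₀ ρ, t ∈ ball σ (4 * r₀) := by
    intro t ht
    rw [mem_ball, dist_eq_norm] at *
    calc ‖t - σ‖ = ‖(t - t₀) + (t₀ - σ)‖ := by congr 1; ring
      _ ≤ _ := norm_add_le _ _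
      _ < 4 * r₀ := by linarith
  have hdq : ∀ t ∈ ball t₀ ρ, ‖μ‖ * ‖(G P Q t)⁻¹ - (G P Q t₀)⁻¹‖ < 5 / 4 * ρ := by
    intro t ht
    have h3 := hN.upper (hmem t ht) ht₀b
    rw [mem_ball, dist_eq_norm] at ht
    linarith
  have hdq2 : ∀ t ∈ ball t₀ ρ, ‖(G P Q t)⁻¹ - (G P Q t₀)⁻¹‖ < ‖(G P Q t₀)⁻¹‖ / 2 := by
    intro t ht
    have h3 := (hdq t ht).trans_le h1
    exact lt_of_mul_lt_mul_left h3 hμ0.le
  have hGt : ∀ t ∈ ball t₀ ρ, G P Q t ≠ 0 := by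
    intro t ht h0
    have h3 := hdq2 t ht
    rw [h0, inv_zero, zero_sub, norm_neg] at h3
    linarith
  refine hasSim hs ht₀ hρ0 hρr ?_ hbig ?_
  · intro t ht
    refine hN.nz t (hmem t ht) ?_
    intro h0
    have h3 := hN.G_center
    rw [← h0, inv_eq_zero] at h3
    exact hGt t ht h3
  · intro t ht
    refine (G_var (hGt t ht) (hdq2 t ht).le hG0).trans ?_
    rw [div_le_div_iff₀ (by positivity) (by norm_num)]
    have h3 := hdq t ht
    have h4 : ‖μ‖ * (8 * ‖(G P Q t)⁻¹ - (G P Q t₀)⁻¹‖) ≤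
        ‖μ‖ * (‖(n:ℂ) + G P Q t₀‖ * ‖(G P Q t₀)⁻¹‖ ^ 2) := by
      refine le_trans ?_ h2
      linarith
    have h5 := le_of_mul_le_mul_left h4 hμ0
    linarith

/-- near the critical point -/
theorem regB {σ μ : ℂ} {r₀ : ℝ} (hN : Near P Q σ μ (4 * r₀)) {n : ℕ} (hn : 1 ≤ n)
    {s : ℂ → ℂ} {x : ℂ} {r : ℝ} (hr : 0 < r) (hrr : r ≤ r₀) (hs : Slow s x r) {t₀ : ℂ}
    (ht₀ : t₀ ∈ ball x r) (hσ : ‖t₀ - σ‖ < 3 * r₀) {δ : ℝ} (hδ : 0 < δ)
    (hz1 : zz P Q n t₀ ≤ 1 / (2 * n)) (hz2 : δ ≤ zz P Q n t₀) (hb : 4 ≤ 2 / 3 * (n:ℝ) ^ 2 * δ) :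
    ∃ a : ℂ, 2 / 3 * (n:ℝ) ^ 2 * δ ≤ ‖a‖ ∧ HasSim (fam P Q n) s t₀ a (min (1 / 40 * δ) r) := by
  have hn0 : (0:ℝ) < n := by exact_mod_cast hn
  have hμ := hN.μ1
  have e2 : 1 / (2 * (n:ℝ)) = 1 / n / 2 := by field_simp
  have hin : 0 < 1 / (n:ℝ) := by positivity
  have hge := zz_ge (P := P) (Q := Q) (n := n) (t := t₀)
  have hle := zz_le (P := P) (Q := Q) (n := n) (t := t₀)
  set z := zz P Q n t₀ with hz
  set q := ‖(G P Q t₀)⁻¹‖ with hq
  have hq1 : 1 / n / 2 ≤ q := by linarith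
  have hq2 : q ≤ 3 / 2 * (1 / n) := by linarith
  have hq0 : 0 < q := by linarith
  have hG0 : G P Q t₀ ≠ 0 := by
    intro h0
    rw [hq, h0, inv_zero, norm_zero] at hq0
    exact lt_irrefl _ hq0
  have hae : ‖(n:ℂ) + G P Q t₀‖ = n * z / q := zz_eq hn hG0
  have hz0 : 0 < z := by linarith
  have hnq : n * q ≤ 3 / 2 := by
    have := mul_le_mul_of_nonneg_left hq2 hn0.le
    have e : (n:ℝ) * (3 / 2 * (1 / n)) = 3 / 2 := by field_simp
    linarith
  have hnq' : 1 / 2 ≤ n * q := by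
    have := mul_le_mul_of_nonneg_left hq1 hn0.le
    have e : (n:ℝ) * (1 / n / 2) = 1 / 2 := by field_simp
    linarith
  have ha : 2 / 3 * (n:ℝ) ^ 2 * δ ≤ ‖(n:ℂ) + G P Q t₀‖ := by
    rw [hae, le_div_iff₀ hq0]
    have h1 : 2 / 3 * (n:ℝ) ^ 2 * δ * q = 2 / 3 * (n * δ) * (n * q) := by ring
    rw [h1]
    have h2 : 2 / 3 * (n * δ) * (n * q) ≤ 2 / 3 * (n * δ) * (3 / 2) :=
      mul_le_mul_of_nonneg_left hnq (by positivity)
    have h3 : (n:ℝ) * δ ≤ n * z := mul_le_mul_of_nonneg_left hz2 hn0.le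
    linarith
  refine ⟨_, ha, ?_⟩
  have hρ1 : min (1 / 40 * δ) r ≤ 1 / 40 * δ := min_le_left _ _
  refine sim_near hN hr hrr hs ht₀ hσ (lt_min (by positivity) hr) (min_le_right _ _) hG0
    (hb.trans ha) ?_ ?_
  · have h1 : δ ≤ q := by linarith
    nlinarith
  · rw [hae]
    have h1 : n * z / q * q ^ 2 = z * (n * q) := by field_simp
    rw [← hq, h1]
    have h2 : z / 2 ≤ z * (n * q) := by nlinarith
    nlinarith

/-- between the critical point and the other zeros and poles -/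
theorem regC {σ μ : ℂ} {r₀ : ℝ} (hN : Near P Q σ μ (4 * r₀)) {n : ℕ} (hn : 12 ≤ n)
    {s : ℂ → ℂ} {x : ℂ} {r : ℝ} (hr : 0 < r) (hrr : r ≤ r₀) (hs : Slow s x r) {t₀ : ℂ}
    (ht₀ : t₀ ∈ ball x r) (hσ : ‖t₀ - σ‖ < 3 * r₀) {δ : ℝ} (hδ : 0 < δ)
    (hz1 : 1 / (2 * n) < zz P Q n t₀) (hδ1 : δ ≤ ‖t₀ - σ‖) (hδ2 : ‖t₀ - σ‖ ≤ 2 * δ) :
    ∃ a : ℂ, max ((n:ℝ) / 3) (1 / (5 * δ)) ≤ ‖a‖ ∧
      HasSim (fam P Q n) s t₀ a (min (1 / 40 * δ) r) := by
  have hn1 : 1 ≤ n := by omega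
  have hn0 : (0:ℝ) < n := by exact_mod_cast hn1
  have hn12 : (12:ℝ) ≤ n := by exact_mod_cast hn
  have hμ := hN.μ1
  have hμ0 : 0 < ‖μ‖ := by linarith
  have e2 : 1 / (2 * (n:ℝ)) = 1 / n / 2 := by field_simp
  have hin : 0 < 1 / (n:ℝ) := by positivity
  have hle := zz_le (P := P) (Q := Q) (n := n) (t := t₀)
  have hr0 : 0 < r₀ := by linarith
  have ht₀b : t₀ ∈ ball σ (4 * r₀) := by
    rw [mem_ball, dist_eq_norm]; linarith
  have hσb : σ ∈ ball σ (4 * r₀) := mem_ball_self (by positivity)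
  have hlow := hN.lower ht₀b hσb
  have hup := hN.upper ht₀b hσb
  rw [hN.G_center, sub_zero] at hlow hup
  set z := zz P Q n t₀ with hz
  set q := ‖(G P Q t₀)⁻¹‖ with hq
  have hq0 : 0 < q := by
    by_contra hcon
    push Not at hcon
    have h1 : q = 0 := le_antisymm hcon (norm_nonneg _)
    rw [h1, mul_zero] at hlow
    linarith
  have hG0 : G P Q t₀ ≠ 0 := by
    intro h0
    rw [hq, h0, inv_zero, norm_zero] at hq0
    exact lt_irrefl _ hq0
  have hae : ‖(n:ℂ) + G P Q t₀‖ = n * z / q := zz_eq hn1 hG0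
  have hz0 : 0 < z := by linarith
  have hq3 : q ≤ 3 * z := by linarith
  have hnz : 1 / 2 ≤ n * z := by
    have := mul_le_mul_of_nonneg_left hz1.le hn0.le
    have e : (n:ℝ) * (1 / (2 * n)) = 1 / 2 := by field_simp
    linarith
  have ha1 : n / 3 ≤ n * z / q := by
    rw [div_le_div_iff₀ (by norm_num) hq0]
    have := mul_le_mul_of_nonneg_left hq3 hn0.le
    linarith
  have ha2 : 1 / (2 * q) ≤ n * z / q := by
    rw [div_le_div_iff₀ (by positivity) hq0]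
    have := mul_le_mul_of_nonneg_right hnz hq0.le
    linarith
  have hq5 : q ≤ 5 / 2 * δ := by
    have h1 : q ≤ ‖μ‖ * q := by nlinarith
    linarith
  have ha3 : 1 / (5 * δ) ≤ 1 / (2 * q) := one_div_le_one_div_of_le (by positivity) (by linarith)
  rw [hae.symm] at ha1 ha2
  refine ⟨_, max_le ha1 (ha3.trans ha2), ?_⟩
  have hρ1 : min (1 / 40 * δ) r ≤ 1 / 40 * δ := min_le_left _ _
  refine sim_near hN hr hrr hs ht₀ hσ (lt_min (by positivity) hr) (min_le_right _ _) hG0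
    (by linarith) ?_ ?_
  · linarith
  · have h1 : 1 / (2 * q) * q ^ 2 ≤ ‖(n:ℂ) + G P Q t₀‖ * q ^ 2 :=
      mul_le_mul_of_nonneg_right ha2 (by positivity)
    have h2 : 1 / (2 * q) * q ^ 2 = q / 2 := by field_simp
    rw [h2] at h1
    have h3 : ‖μ‖ * (q / 2) ≤ ‖μ‖ * (‖(n:ℂ) + G P Q t₀‖ * q ^ 2) :=
      mul_le_mul_of_nonneg_left h1 hμ0.le
    linarith

/-- away from the zeros and poles -/
theorem regE {M r₀ B : ℝ} (U : MU P Q M r₀ B) (hr₀ : 0 < r₀) {n : ℕ} (hn : 8 ≤ n)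
    (hnB : 16 * B ≤ n) {s : ℂ → ℂ} {x : ℂ} {r : ℝ} (hr : 0 < r) (hs : Slow s x r) {t₀ : ℂ}
    (ht₀ : t₀ ∈ ball x r) (hre : |t₀.re| ≤ M) (hfar : ∀ σ ∈ Sg P Q, r₀ ≤ ‖t₀ - σ‖) :
    ∃ a : ℂ, (n:ℝ) / 2 ≤ ‖a‖ ∧ HasSim (fam P Q n) s t₀ a (min (1 / 40 * r₀) r) := by
  have hn8 : (8:ℝ) ≤ n := by exact_mod_cast hn
  have hU := U.far t₀ hre hfar
  have h0 := (hU t₀ (mem_ball_self (by positivity))).2
  have ha : (n:ℝ) / 2 ≤ ‖(n:ℂ) + G P Q t₀‖ := by
    have h1 : ‖(n:ℂ)‖ ≤ ‖(n:ℂ) + G P Q t₀‖ + ‖G P Q t₀‖ := by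
      calc ‖(n:ℂ)‖ = ‖((n:ℂ) + G P Q t₀) - G P Q t₀‖ := by congr 1; ring
        _ ≤ _ := norm_sub_le _ _
    rw [Complex.norm_natCast] at h1
    linarith
  refine ⟨_, ha, hasSim hs ht₀ (lt_min (by positivity) hr) (min_le_right _ _) ?_ (by linarith) ?_⟩
  · intro t ht
    refine (hU t (ball_subset_ball ?_ ht)).1
    exact (min_le_left _ _).trans (by linarith)
  · intro t ht
    have h1 := (hU t (ball_subset_ball ((min_le_left _ _).trans (by linarith)) ht)).2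
    have h2 := norm_sub_le (G P Q t) (G P Q t₀)
    linarith

theorem vol_cball (s : ℂ) {ρ : ℝ} (h : 0 ≤ ρ) :
    volume (closedBall s ρ) = ENNReal.ofReal (Real.pi * ρ ^ 2) := by
  rw [Complex.volume_closedBall, mul_comm Real.pi, ENNReal.ofReal_mul (by positivity),
    ENNReal.ofReal_pow h]
  congr 1
  rw [← NNReal.coe_real_pi, ENNReal.ofReal_coe_nnreal]

/-- the inequality for one slow curve -/
theorem ineq {M r₀ B : ℝ} (U : MU P Q M r₀ B) (hr₀ : 0 < r₀) (hr₁ : r₀ ≤ 1 / 8) (hB : 1 ≤ B)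
    (hM : 0 ≤ M) {n : ℕ} (hn : 12 ≤ n) (hnB : 16 * B ≤ n) {K : ℝ} (hK : 6 ≤ K)
    {s : ℂ → ℂ} {x : ℂ} {r : ℝ} (hr : 0 < r) (hrr : r ≤ r₀) (hs : Slow s x r) :
    volume (NS (fam P Q n) M s x r) ≤ ENNReal.ofReal (Real.pi * (3 * B * (K / (n:ℝ) ^ 2)) ^ 2) +
      ENNReal.ofReal (C1 (1 / 40) (6 * B) M r₀ * (3 / K ^ 2 + 10 / n)) *
        Sup (fam P Q n) M r₀ := by
  have hn0 : (0:ℝ) < n := by exact_mod_cast (by omega : 0 < n)
  have hn12 : (12:ℝ) ≤ n := by exact_mod_cast hn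
  have hK0 : 0 < K := by linarith
  have hC : 0 < C1 (1 / 40) (6 * B) M r₀ := C1_pos (by norm_num) (by positivity) hM hr₀
  set C := C1 (1 / 40) (6 * B) M r₀ with hCd
  set S := Sup (fam P Q n) M r₀ with hS
  -- the far part
  have hfar : ∀ E ⊆ NS (fam P Q n) M s x r, (∀ t ∈ E, ∀ σ ∈ Sg P Q, r₀ ≤ ‖t - σ‖) →
      volume E ≤ ENNReal.ofReal (C * (5 / n)) * S := by
    intro E hE hEf
    refine (piece hr₀ hM hr hs hE (ε := 1 / 40) (A := 6 * B) (b := n / 2) (δ := r₀) (by norm_num)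
      (by norm_num) (by positivity) hr₀ (by linarith) (fun t ht => ?_) (q := x) ?_).trans ?_
    · exact regE U hr₀ (by omega) hnB hr hs (hE ht).1 (NS_re (hE ht)) (hEf t ht)
    · intro t ht
      have := (hE ht).1
      rw [mem_ball, dist_eq_norm] at this
      nlinarith
    · apply mul_le_mul_left
      apply ENNReal.ofReal_le_ofReal
      apply mul_le_mul_of_nonneg_left _ hC.le
      have h1 : 1 / ((n:ℝ) / 2) ^ 2 ≤ 4 / n := by
        rw [div_le_div_iff₀ (by positivity) hn0]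
        nlinarith
      have h2 : r₀ / ((n:ℝ) / 2) ≤ 1 / n := by
        rw [div_le_div_iff₀ (by positivity) hn0]
        nlinarith
      have h3 : (5:ℝ) / n = 4 / n + 1 / n := by ring
      rw [h3]; exact add_le_add h1 h2
  by_cases hp : ∃ σ ∈ Sg P Q, ‖x - σ‖ ≤ 2 * r₀
  swap
  · push Not at hp
    refine (hfar _ Subset.rfl ?_).trans ?_
    · intro t ht σ hσ
      have h1 := hp σ hσ
      have h2 := ht.1
      rw [mem_ball, dist_eq_norm] at h2
      have h3 : ‖x - σ‖ ≤ ‖t - x‖ + ‖t - σ‖ := by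
        calc ‖x - σ‖ = ‖(t - σ) - (t - x)‖ := by congr 1; ring
          _ ≤ _ := norm_sub_le _ _
          _ = _ := add_comm _ _
      linarith
    · refine le_trans ?_ le_add_self
      apply mul_le_mul_left
      apply ENNReal.ofReal_le_ofReal
      apply mul_le_mul_of_nonneg_left _ hC.le
      have h1 : 0 < 3 / K ^ 2 := by positivity
      have h2 : (5:ℝ) / n ≤ 10 / n := div_le_div_of_nonneg_right (by norm_num) hn0.le
      linarith
  obtain ⟨σ, hσS, hσx⟩ := hp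
  obtain ⟨μ, hμB, hN⟩ := U.near σ hσS
  have hμ := hN.μ1
  have hμ0 : 0 < ‖μ‖ := by linarith
  have hσ3 : ∀ t ∈ NS (fam P Q n) M s x r, ‖t - σ‖ < 3 * r₀ := by
    intro t ht
    have h2 := ht.1
    rw [mem_ball, dist_eq_norm] at h2
    calc ‖t - σ‖ = ‖(t - x) + (x - σ)‖ := by congr 1; ring
      _ ≤ _ := norm_add_le _ _
      _ < 3 * r₀ := by linarith
  have hσ4 : ∀ t ∈ NS (fam P Q n) M s x r, t ∈ ball σ (4 * r₀) := by
    intro t ht
    rw [mem_ball, dist_eq_norm]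
    have := hσ3 t ht
    linarith
  have hother : ∀ t ∈ NS (fam P Q n) M s x r, ∀ σ' ∈ Sg P Q, σ' ≠ σ → r₀ ≤ ‖t - σ'‖ := by
    intro t ht σ' hσ' hne
    have h1 : ¬ σ' ∈ ball σ (4 * r₀) := by
      intro h2
      obtain ⟨h3, h4⟩ := hN.nz σ' h2 hne
      exact mul_ne_zero h3 h4 hσ'
    rw [mem_ball, dist_eq_norm, not_lt] at h1
    have h2 := hσ3 t ht
    have h3 : ‖σ' - σ‖ ≤ ‖t - σ‖ + ‖t - σ'‖ := by
      calc ‖σ' - σ‖ = ‖(t - σ) - (t - σ')‖ := by congr 1; ring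
        _ ≤ _ := norm_sub_le _ _
    linarith
  -- no point of the set is a zero or pole
  have hne : ∀ t ∈ NS (fam P Q n) M s x r, t ≠ σ := by
    intro t ht h0
    have h1 := (ht.2 1).1
    simp only [Function.iterate_one] at h1
    have h2 : fam P Q n (Complex.exp (s t)) (Complex.exp t) = 0 := by
      unfold fam
      rw [h0]
      rcases mul_eq_zero.1 hσS with h3 | h3
      · rw [h3, zero_div, mul_zero]
      · rw [h3, div_zero, mul_zero]
    rw [h2, norm_zero] at h1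
    exact absurd h1 (not_le.2 (Real.exp_pos _))
  set δ₀ : ℝ := K / (n:ℝ) ^ 2 with hδ₀
  have hδ₀0 : 0 < δ₀ := by positivity
  set ED : Set ℂ := {t | t ∈ NS (fam P Q n) M s x r ∧ zz P Q n t ≤ δ₀} with hED
  set EB : ℕ → Set ℂ := fun i => {t | t ∈ NS (fam P Q n) M s x r ∧ zz P Q n t ≤ 1 / (2 * n) ∧
    δ₀ * 2 ^ i ≤ zz P Q n t ∧ zz P Q n t ≤ 2 * (δ₀ * 2 ^ i)} with hEB
  set EC : ℕ → Set ℂ := fun i => {t | t ∈ NS (fam P Q n) M s x r ∧ 1 / (2 * n) < zz P Q n t ∧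
    r₀ * (1 / 2) ^ (i + 1) ≤ ‖t - σ‖ ∧ ‖t - σ‖ ≤ 2 * (r₀ * (1 / 2) ^ (i + 1))} with hEC
  set EF : Set ℂ := {t | t ∈ NS (fam P Q n) M s x r ∧ r₀ ≤ ‖t - σ‖} with hEF
  -- the number of scales
  have hex : ∃ I : ℕ, 1 / (2 * (n:ℝ)) ≤ δ₀ * 2 ^ I := by
    obtain ⟨I, hI⟩ := pow_unbounded_of_one_lt (1 / (2 * (n:ℝ)) / δ₀) (show (1:ℝ) < 2 by norm_num)
    refine ⟨I, ?_⟩
    rw [div_lt_iff₀ hδ₀0] at hI
    linarith
  classical
  set I := Nat.find hex with hI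
  have hI1 : 1 / (2 * (n:ℝ)) ≤ δ₀ * 2 ^ I := Nat.find_spec hex
  have hI2 : ∀ i < I, δ₀ * 2 ^ i < 1 / (2 * (n:ℝ)) := fun i hi => by
    have := Nat.find_min hex hi
    push Not at this
    exact this
  have hIn : (I:ℝ) ≤ n := by
    rcases Nat.eq_zero_or_pos I with h0 | h0
    · rw [h0]; simp
    · obtain ⟨i, hi⟩ : ∃ i, I = i + 1 := ⟨I - 1, by omega⟩
      have h1 := hI2 i (by omega)
      rw [hδ₀, div_mul_eq_mul_div, div_lt_div_iff₀ (by positivity) (by positivity)] at h1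
      have h2 : (2:ℝ) ^ i * 2 ≤ n := by
        have h3 : K * 2 ^ i * (2 * n) < n * n := by nlinarith
        have h4 : K * 2 ^ i * 2 < n := by
          have : K * 2 ^ i * 2 * n < n * n := by linarith
          exact lt_of_mul_lt_mul_right this hn0.le
        have h5 : (0:ℝ) < 2 ^ i := by positivity
        nlinarith
      have h6 : ((i + 1 : ℕ) : ℝ) ≤ 2 ^ (i + 1) := by
        exact_mod_cast (Nat.lt_two_pow_self (n := i + 1)).le
      rw [hi]
      calc ((i + 1 : ℕ) : ℝ) ≤ 2 ^ (i + 1) := h6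
        _ = 2 ^ i * 2 := pow_succ _ _
        _ ≤ n := h2
  have hcov : NS (fam P Q n) M s x r ⊆ ED ∪ ((⋃ i ∈ Finset.range I, EB i) ∪
      ((⋃ i, EC i) ∪ EF)) := by
    intro t ht
    by_cases h1 : zz P Q n t ≤ δ₀
    · left; exact ⟨ht, h1⟩
    right
    by_cases h2 : r₀ ≤ ‖t - σ‖
    · right; right; exact ⟨ht, h2⟩
    push Not at h1 h2
    by_cases h3 : zz P Q n t ≤ 1 / (2 * n)
    · left
      have hex2 : ∃ j : ℕ, zz P Q n t ≤ δ₀ * 2 ^ j := ⟨I, h3.trans hI1⟩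
      set j := Nat.find hex2 with hj
      have hj1 : zz P Q n t ≤ δ₀ * 2 ^ j := Nat.find_spec hex2
      have hjI : j ≤ I := Nat.find_min' hex2 (h3.trans hI1)
      have hj0 : j ≠ 0 := by
        intro h0
        rw [h0, pow_zero, mul_one] at hj1
        linarith
      obtain ⟨i, hi⟩ : ∃ i, j = i + 1 := ⟨j - 1, by omega⟩
      have hi2 : ¬ zz P Q n t ≤ δ₀ * 2 ^ i := Nat.find_min hex2 (by omega)
      push Not at hi2
      simp only [mem_iUnion]
      refine ⟨i, Finset.mem_range.2 (by omega), ht, h3, hi2.le, ?_⟩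
      rw [hi, pow_succ] at hj1
      linarith
    · right; left
      push Not at h3
      have h4 : 0 < ‖t - σ‖ := norm_pos_iff.2 (sub_ne_zero.2 (hne t ht))
      obtain ⟨i, hi1, hi2⟩ := exists_nat_pow_near_of_lt_one (x := ‖t - σ‖ / r₀) (y := 1 / 2)
        (by positivity) (by rw [div_le_one hr₀]; exact h2.le) (by norm_num) (by norm_num)
      rw [lt_div_iff₀ hr₀] at hi1
      rw [div_le_iff₀ hr₀] at hi2
      rw [mem_iUnion]
      refine ⟨i, ht, h3, by linarith, ?_⟩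
      rw [pow_succ]
      linarith
  -- the deep part
  have hvD : volume ED ≤ ENNReal.ofReal (Real.pi * (3 * B * δ₀) ^ 2) := by
    rcases ED.eq_empty_or_nonempty with h0 | ⟨t₁, ht₁⟩
    · rw [h0, measure_empty]; exact zero_le
    · have hsub : ED ⊆ closedBall t₁ (3 * B * δ₀) := by
        intro t ht
        rw [mem_closedBall, dist_eq_norm]
        have h1 := hN.lower (hσ4 t ht.1) (hσ4 t₁ ht₁.1)
        have h2 : ‖(G P Q t)⁻¹ - (G P Q t₁)⁻¹‖ ≤ 2 * δ₀ := by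
          calc ‖(G P Q t)⁻¹ - (G P Q t₁)⁻¹‖ =
              ‖((G P Q t)⁻¹ + 1 / (n:ℂ)) - ((G P Q t₁)⁻¹ + 1 / (n:ℂ))‖ := by congr 1; ring
            _ ≤ zz P Q n t + zz P Q n t₁ := norm_sub_le _ _
            _ ≤ 2 * δ₀ := by linarith [ht.2, ht₁.2]
        have h3 : ‖μ‖ * ‖(G P Q t)⁻¹ - (G P Q t₁)⁻¹‖ ≤ B * (2 * δ₀) :=
          mul_le_mul hμB h2 (norm_nonneg _) (by linarith)
        nlinarith
      exact (measure_mono hsub).trans (le_of_eq (vol_cball t₁ (by positivity)))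
  -- the pieces near the critical point
  have hvB : ∀ i ∈ Finset.range I, volume (EB i) ≤
      ENNReal.ofReal (C * (9 / 4 / K ^ 2 * (1 / 4) ^ i + 3 / 2 / (n:ℝ) ^ 2)) * S := by
    intro i _
    rcases (EB i).eq_empty_or_nonempty with h0 | ⟨t₁, ht₁⟩
    · rw [h0, measure_empty]; exact zero_le
    set δ := δ₀ * 2 ^ i with hδ
    have hδ0 : 0 < δ := by positivity
    have h2i : (1:ℝ) ≤ 2 ^ i := one_le_pow₀ (by norm_num)
    have hb : 2 / 3 * (n:ℝ) ^ 2 * δ = 2 / 3 * K * 2 ^ i := by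
      rw [hδ, hδ₀]; field_simp
    have hb4 : 4 ≤ 2 / 3 * (n:ℝ) ^ 2 * δ := by rw [hb]; nlinarith
    refine (piece hr₀ hM hr hs (E := EB i) (fun t ht => ht.1) (ε := 1 / 40) (A := 6 * B)
      (b := 2 / 3 * (n:ℝ) ^ 2 * δ) (δ := δ) (by norm_num)
      (by norm_num) (by positivity) hδ0 hb4 (fun t ht => ?_) (q := t₁) ?_).trans ?_
    · exact regB hN (by omega) hr hrr hs ht.1.1 (hσ3 t ht.1) hδ0 ht.2.1 ht.2.2.1 hb4
    · intro t ht
      have h1 := hN.lower (hσ4 t ht.1) (hσ4 t₁ ht₁.1)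
      have h2 : ‖(G P Q t)⁻¹ - (G P Q t₁)⁻¹‖ ≤ 4 * δ := by
        calc ‖(G P Q t)⁻¹ - (G P Q t₁)⁻¹‖ =
            ‖((G P Q t)⁻¹ + 1 / (n:ℂ)) - ((G P Q t₁)⁻¹ + 1 / (n:ℂ))‖ := by congr 1; ring
          _ ≤ zz P Q n t + zz P Q n t₁ := norm_sub_le _ _
          _ ≤ 4 * δ := by linarith [ht.2.2.2, ht₁.2.2.2]
      have h3 : ‖μ‖ * ‖(G P Q t)⁻¹ - (G P Q t₁)⁻¹‖ ≤ B * (4 * δ) :=
        mul_le_mul hμB h2 (norm_nonneg _) (by linarith)
      nlinarith
    · apply mul_le_mul_left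
      apply ENNReal.ofReal_le_ofReal
      apply mul_le_mul_of_nonneg_left _ hC.le
      apply add_le_add
      · rw [hb]
        apply le_of_eq
        have e : (2:ℝ) ^ i * 2 ^ i = 4 ^ i := by rw [← mul_pow]; norm_num
        have e2 : (1 / 4 : ℝ) ^ i = 1 / (2 ^ i * 2 ^ i) := by rw [e, one_div_pow]
        rw [e2]
        field_simp
        norm_num
      · apply le_of_eq
        field_simp
  have hsumB : ∑ i ∈ Finset.range I, volume (EB i) ≤
      ENNReal.ofReal (C * (3 / K ^ 2 + 3 / 2 / n)) * S := by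
    calc ∑ i ∈ Finset.range I, volume (EB i) ≤ ∑ i ∈ Finset.range I,
        ENNReal.ofReal (C * (9 / 4 / K ^ 2 * (1 / 4) ^ i + 3 / 2 / (n:ℝ) ^ 2)) * S :=
          Finset.sum_le_sum hvB
      _ = ENNReal.ofReal (∑ i ∈ Finset.range I,
          C * (9 / 4 / K ^ 2 * (1 / 4) ^ i + 3 / 2 / (n:ℝ) ^ 2)) * S := by
          rw [ENNReal.ofReal_sum_of_nonneg, Finset.sum_mul]
          intro i _
          positivity
      _ ≤ _ := by
          apply mul_le_mul_left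
          apply ENNReal.ofReal_le_ofReal
          rw [← Finset.mul_sum]
          apply mul_le_mul_of_nonneg_left _ hC.le
          rw [Finset.sum_add_distrib, ← Finset.mul_sum, Finset.sum_const, Finset.card_range,
            nsmul_eq_mul]
          have h1 : ∑ i ∈ Finset.range I, (1 / 4 : ℝ) ^ i ≤ 4 / 3 := by
            have : ∀ I : ℕ, ∑ i ∈ Finset.range I, (1 / 4 : ℝ) ^ i = 4 / 3 - 4 / 3 * (1 / 4) ^ I := by
              intro I
              induction I with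
              | zero => simp
              | succ I ih => rw [Finset.sum_range_succ, ih, pow_succ]; ring
            rw [this]
            have : (0:ℝ) ≤ (1 / 4) ^ I := by positivity
            linarith
          apply add_le_add
          · calc 9 / 4 / K ^ 2 * ∑ i ∈ Finset.range I, (1 / 4 : ℝ) ^ i ≤ 9 / 4 / K ^ 2 * (4 / 3) :=
                mul_le_mul_of_nonneg_left h1 (by positivity)
              _ = 3 / K ^ 2 := by ring
          · calc (I:ℝ) * (3 / 2 / (n:ℝ) ^ 2) ≤ n * (3 / 2 / (n:ℝ) ^ 2) :=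
                mul_le_mul_of_nonneg_right hIn (by positivity)
              _ = 3 / 2 / n := by field_simp
  -- the pieces around the zero or pole
  have hvC : ∀ i : ℕ, volume (EC i) ≤
      ENNReal.ofReal (C * (18 * r₀ / n * (1 / 2) ^ (i + 1))) * S := by
    intro i
    set δ := r₀ * (1 / 2) ^ (i + 1) with hδ
    have hδ0 : 0 < δ := by positivity
    have hb0 : (n:ℝ) / 3 ≤ max ((n:ℝ) / 3) (1 / (5 * δ)) := le_max_left _ _
    have hb1 : 1 / (5 * δ) ≤ max ((n:ℝ) / 3) (1 / (5 * δ)) := le_max_right _ _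
    refine (piece hr₀ hM hr hs (E := EC i) (fun t ht => ht.1) (ε := 1 / 40) (A := 6 * B)
      (b := max ((n:ℝ) / 3) (1 / (5 * δ))) (δ := δ) (by norm_num)
      (by norm_num) (by positivity) hδ0 (by linarith) (fun t ht => ?_) (q := σ) ?_).trans ?_
    · exact regC hN hn hr hrr hs ht.1.1 (hσ3 t ht.1) hδ0 ht.2.1 ht.2.2.1 ht.2.2.2
    · intro t ht
      have := ht.2.2.2
      nlinarith
    · apply mul_le_mul_left
      apply ENNReal.ofReal_le_ofReal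
      apply mul_le_mul_of_nonneg_left _ hC.le
      set b := max ((n:ℝ) / 3) (1 / (5 * δ)) with hb
      have h5 : 0 < 1 / (5 * δ) := by positivity
      have h1 : 1 / b ^ 2 ≤ 15 * δ / n := by
        have h2 : (n:ℝ) / 3 * (1 / (5 * δ)) ≤ b ^ 2 := by
          rw [pow_two]
          exact mul_le_mul hb0 hb1 h5.le (by linarith)
        calc 1 / b ^ 2 ≤ 1 / ((n:ℝ) / 3 * (1 / (5 * δ))) :=
              one_div_le_one_div_of_le (by positivity) h2
          _ = 15 * δ / n := by field_simp; norm_num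
      have h3 : δ / b ≤ 3 * δ / n := by
        rw [div_le_div_iff₀ (by linarith) hn0]
        nlinarith
      calc 1 / b ^ 2 + δ / b ≤ 15 * δ / n + 3 * δ / n := add_le_add h1 h3
        _ = 18 * r₀ / n * (1 / 2) ^ (i + 1) := by rw [hδ]; ring
  have hsumC : volume (⋃ i, EC i) ≤ ENNReal.ofReal (C * (18 * r₀ / n)) * S := by
    refine (measure_iUnion_le _).trans ?_
    calc ∑' i, volume (EC i) ≤ ∑' i : ℕ,
        ENNReal.ofReal (C * (18 * r₀ / n * (1 / 2) ^ (i + 1))) * S := ENNReal.tsum_le_tsum hvC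
      _ = (∑' i : ℕ, ENNReal.ofReal (C * (18 * r₀ / n * (1 / 2) ^ (i + 1)))) * S :=
          ENNReal.tsum_mul_right
      _ = _ := by
          congr 1
          have hsum : HasSum (fun i : ℕ => C * (18 * r₀ / n * (1 / 2) ^ (i + 1)))
              (C * (18 * r₀ / n)) := by
            have h1 := (hasSum_geometric_two).mul_left (C * (18 * r₀ / n) * (1 / 2))
            have e : C * (18 * r₀ / n) * (1 / 2) * 2 = C * (18 * r₀ / n) := by ring
            rw [e] at h1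
            have e2 : (fun i : ℕ => C * (18 * r₀ / n * (1 / 2) ^ (i + 1))) =
                fun i : ℕ => C * (18 * r₀ / n) * (1 / 2) * (1 / 2) ^ i := by
              funext i
              rw [pow_succ]
              ring
            rw [e2]
            exact h1
          rw [← hsum.tsum_eq, ENNReal.ofReal_tsum_of_nonneg (fun i => by positivity) hsum.summable]
  have hvF := hfar EF (fun t ht => ht.1) (by
    intro t ht q hq
    by_cases hqp : q = σ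
    · rw [hqp]; exact ht.2
    · exact hother t ht.1 q hq hqp)
  calc volume (NS (fam P Q n) M s x r) ≤ volume (ED ∪ ((⋃ i ∈ Finset.range I, EB i) ∪
        ((⋃ i, EC i) ∪ EF))) := measure_mono hcov
    _ ≤ volume ED + (volume (⋃ i ∈ Finset.range I, EB i) + (volume (⋃ i, EC i) + volume EF)) :=
        (measure_union_le _ _).trans (add_le_add le_rfl ((measure_union_le _ _).trans
          (add_le_add le_rfl (measure_union_le _ _))))
    _ ≤ volume ED + (∑ i ∈ Finset.range I, volume (EB i) + (volume (⋃ i, EC i) + volume EF)) := by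
        gcongr
        exact measure_biUnion_finset_le _ _
    _ ≤ ENNReal.ofReal (Real.pi * (3 * B * δ₀) ^ 2) + (ENNReal.ofReal (C * (3 / K ^ 2 + 3 / 2 / n)) * S
        + (ENNReal.ofReal (C * (18 * r₀ / n)) * S + ENNReal.ofReal (C * (5 / n)) * S)) :=
        add_le_add hvD (add_le_add hsumB (add_le_add hsumC hvF))
    _ ≤ _ := by
        rw [← add_mul, ← add_mul, ← ENNReal.ofReal_add (by positivity) (by positivity),
          ← ENNReal.ofReal_add (by positivity) (by positivity)]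
        apply add_le_add le_rfl
        apply mul_le_mul_left
        apply ENNReal.ofReal_le_ofReal
        rw [← mul_add, ← mul_add]
        apply mul_le_mul_of_nonneg_left _ hC.le
        have h1 : 18 * r₀ / n ≤ 3 / n := div_le_div_of_nonneg_right (by linarith) hn0.le
        have h2 : (10:ℝ) / n = 3 / 2 / n + 3 / n + 5 / n + 1 / 2 / n := by ring
        have h3 : 0 < 1 / 2 / (n:ℝ) := by positivity
        linarith

/-- the bound of the supremum -/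
theorem Sup_le {M r₀ B : ℝ} (U : MU P Q M r₀ B) (hr₀ : 0 < r₀) (hr₁ : r₀ ≤ 1 / 8) (hB : 1 ≤ B)
    (hM : 0 ≤ M) : ∃ (C : ℝ) (n₀ : ℕ), 0 < C ∧ ∀ n : ℕ, n₀ ≤ n →
      Sup (fam P Q n) M r₀ ≤ ENNReal.ofReal (C / (n:ℝ) ^ 4) := by
  have hC := C1_pos (ε := 1 / 40) (A := 6 * B) (by norm_num) (by positivity) hM hr₀
  set C := C1 (1 / 40) (6 * B) M r₀ with hCd
  set K := max 6 (12 * C) with hKd
  have hK6 : 6 ≤ K := le_max_left _ _
  have hKC : 12 * C ≤ K := le_max_right _ _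
  have hK0 : 0 < K := by linarith
  obtain ⟨n₁, hn₁⟩ := exists_nat_ge (40 * C)
  obtain ⟨n₂, hn₂⟩ := exists_nat_ge (16 * B)
  have hpi := Real.pi_pos
  refine ⟨2 * (Real.pi * (3 * B * K) ^ 2), max 12 (max n₁ n₂), by positivity, ?_⟩
  intro n hn
  have hn12 : 12 ≤ n := (le_max_left _ _).trans hn
  have hnn1 : n₁ ≤ n := ((le_max_left _ _).trans (le_max_right _ _)).trans hn
  have hnn2 : n₂ ≤ n := ((le_max_right _ _).trans (le_max_right _ _)).trans hn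
  have hn0 : (0:ℝ) < n := by exact_mod_cast (by omega : 0 < n)
  have h1 : 40 * C ≤ n := hn₁.trans (by exact_mod_cast hnn1)
  have h2 : 16 * B ≤ n := hn₂.trans (by exact_mod_cast hnn2)
  have hhalf : C * (3 / K ^ 2 + 10 / n) ≤ 1 / 2 := by
    have e1 : C * (3 / K ^ 2) ≤ 1 / 4 := by
      rw [mul_div_assoc', div_le_div_iff₀ (by positivity) (by norm_num)]
      nlinarith
    have e2 : C * (10 / n) ≤ 1 / 4 := by
      rw [mul_div_assoc', div_le_div_iff₀ hn0 (by norm_num)]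
      linarith
    rw [mul_add]; linarith
  have hineq : Sup (fam P Q n) M r₀ ≤ ENNReal.ofReal (Real.pi * (3 * B * (K / (n:ℝ) ^ 2)) ^ 2) +
      ENNReal.ofReal (1 / 2) * Sup (fam P Q n) M r₀ := by
    conv_lhs => unfold Sup
    refine iSup_le fun x => iSup_le fun r => iSup_le fun s => iSup_le fun h => ?_
    refine (ineq U hr₀ hr₁ hB hM hn12 h2 hK6 h.1 h.2.1 h.2.2).trans ?_
    gcongr
  have hfin := Sup_ne_top (T := fam P Q n) M r₀
  set A := Sup (fam P Q n) M r₀ with hA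
  have h3 : A ≤ ENNReal.ofReal (2 * (Real.pi * (3 * B * (K / (n:ℝ) ^ 2)) ^ 2)) := by
    rw [← ENNReal.ofReal_toReal hfin] at hineq ⊢
    rw [← ENNReal.ofReal_mul (by norm_num), ← ENNReal.ofReal_add (by positivity)
      (by positivity)] at hineq
    rw [ENNReal.ofReal_le_ofReal_iff (by positivity)] at hineq
    apply ENNReal.ofReal_le_ofReal
    linarith
  refine h3.trans (ENNReal.ofReal_le_ofReal (le_of_eq ?_))
  field_simp

end Pool.Agent.Q79.MN
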