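import Mathlib
import Pool.Agent.Q79.MonD

/-!
# The free critical points of `a z ^ n R(z)`
-/

set_option autoImplicit false

open MeasureTheory Set Filter Topology Metric

namespace Pool.Agent.Q79.MN

open Pool.Agent.Q79.PW (Sim cover H G H_hasDerivAt exp_shift periodic_G)
open Pool.Agent.H762R2.Rt (wro)

variable {P Q : Polynomial ℂ}

theorem prod_low (s : Multiset ℂ) {z : ℂ} {d : ℝ} (hd : 0 ≤ d) (h : ∀ y ∈ s, d ≤ ‖z - y‖) :
    d ^ (Multiset.card s) ≤ ‖(s.map (z - ·)).prod‖ := by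
  induction s using Multiset.induction_on with
  | empty => simp
  | cons a s ih =>
    rw [Multiset.card_cons, pow_succ', Multiset.map_cons, Multiset.prod_cons, norm_mul]
    exact mul_le_mul (h a (Multiset.mem_cons_self a s))
      (ih fun y hy => h y (Multiset.mem_cons_of_mem hy)) (by positivity) (norm_nonneg _)

theorem prod_up (s : Multiset ℂ) {z : ℂ} {d : ℝ} (hd : 0 ≤ d) (h : ∀ y ∈ s, ‖z - y‖ ≤ d) :
    ‖(s.map (z - ·)).prod‖ ≤ d ^ (Multiset.card s) := by
  induction s using Multiset.induction_on with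
  | empty => simp
  | cons a s ih =>
    rw [Multiset.card_cons, pow_succ', Multiset.map_cons, Multiset.prod_cons, norm_mul]
    exact mul_le_mul (h a (Multiset.mem_cons_self a s))
      (ih fun y hy => h y (Multiset.mem_cons_of_mem hy)) (norm_nonneg _) hd

theorem poly_low {z : ℂ} {d : ℝ} (hd : 0 ≤ d) (h : ∀ y ∈ P.roots, d ≤ ‖z - y‖) :
    ‖P.leadingCoeff‖ * d ^ P.natDegree ≤ ‖P.eval z‖ := by
  have hs := IsAlgClosed.splits P
  rw [hs.eval_eq_prod_roots, norm_mul, hs.natDegree_eq_card_roots]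
  exact mul_le_mul_of_nonneg_left (prod_low _ hd h) (norm_nonneg _)

theorem poly_up {z : ℂ} {d : ℝ} (hd : 0 ≤ d) (h : ∀ y ∈ P.roots, ‖z - y‖ ≤ d) :
    ‖P.eval z‖ ≤ ‖P.leadingCoeff‖ * d ^ P.natDegree := by
  have hs := IsAlgClosed.splits P
  rw [hs.eval_eq_prod_roots, norm_mul, hs.natDegree_eq_card_roots]
  exact mul_le_mul_of_nonneg_left (prod_up _ hd h) (norm_nonneg _)

theorem poly_der {z : ℂ} (hz : P.eval z ≠ 0) (h : ∀ y ∈ P.roots, ‖z‖ ≤ 2 * ‖z - y‖) :
    ‖z * (Polynomial.derivative P).eval z‖ ≤ 2 * P.natDegree * ‖P.eval z‖ := by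
  have hs := IsAlgClosed.splits P
  rw [hs.eval_derivative_eq_eval_mul_sum hz, hs.natDegree_eq_card_roots]
  have hsum : ∀ s : Multiset ℂ, (∀ y ∈ s, ‖z‖ ≤ 2 * ‖z - y‖ ∧ z ≠ y) →
      ‖z * (s.map fun y => 1 / (z - y)).sum‖ ≤ 2 * (Multiset.card s : ℝ) := by
    intro s
    induction s using Multiset.induction_on with
    | empty => simp
    | cons a s ih =>
      intro hs
      rw [Multiset.card_cons, Multiset.map_cons, Multiset.sum_cons, mul_add]
      have h1 := ih fun y hy => hs y (Multiset.mem_cons_of_mem hy)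
      obtain ⟨h2, h3⟩ := hs a (Multiset.mem_cons_self a s)
      have h4 : 0 < ‖z - a‖ := norm_pos_iff.2 (sub_ne_zero.2 h3)
      have h5 : ‖z * (1 / (z - a))‖ ≤ 2 := by
        rw [mul_one_div, norm_div, div_le_iff₀ h4]; exact h2
      refine (norm_add_le _ _).trans ?_
      push_cast
      linarith
  have h1 := hsum P.roots fun y hy => ⟨h y hy, by
    rintro rfl
    rw [Polynomial.mem_roots', Polynomial.IsRoot.def] at hy
    exact hz hy.2⟩
  have e : z * (P.eval z * (P.roots.map fun y => 1 / (z - y)).sum) =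
      P.eval z * (z * (P.roots.map fun y => 1 / (z - y)).sum) := by ring
  rw [e, norm_mul, mul_comm]
  exact mul_le_mul_of_nonneg_right h1 (norm_nonneg _)

/-- a bound for the moduli of the zeros and poles -/
theorem exists_m (hP : P.eval 0 ≠ 0) (hQ : Q.eval 0 ≠ 0) : ∃ m : ℝ, 1 ≤ m ∧
    ∀ y : ℂ, P.eval y * Q.eval y = 0 → 2 * ‖y‖ ≤ Real.exp m ∧ 2 * Real.exp (-m) ≤ ‖y‖ := by
  classical
  have hP0 : P ≠ 0 := by rintro rfl; simp at hP
  have hQ0 : Q ≠ 0 := by rintro rfl; simp at hQ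
  set S := (P * Q).roots.toFinset with hS
  refine ⟨1 + ∑ y ∈ S, (|Real.log ‖y‖| + 1), ?_, ?_⟩
  · have : 0 ≤ ∑ y ∈ S, (|Real.log ‖y‖| + 1) := Finset.sum_nonneg fun y _ => by positivity
    linarith
  · intro y hy
    have hy0 : y ≠ 0 := by
      rintro rfl
      exact mul_ne_zero hP hQ hy
    have hyS : y ∈ S := by
      rw [hS, Multiset.mem_toFinset, Polynomial.mem_roots (mul_ne_zero hP0 hQ0),
        Polynomial.IsRoot.def, Polynomial.eval_mul]
      exact hy
    have h1 : |Real.log ‖y‖| + 1 ≤ ∑ y ∈ S, (|Real.log ‖y‖| + 1) :=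
      Finset.single_le_sum (f := fun y : ℂ => |Real.log ‖y‖| + 1) (fun y _ => by positivity) hyS
    set m := 1 + ∑ y ∈ S, (|Real.log ‖y‖| + 1) with hm
    have hyp := norm_pos_iff.2 hy0
    have h2 : Real.log ‖y‖ + 1 ≤ m := by
      have := le_abs_self (Real.log ‖y‖); linarith
    have h3 : -m + 1 ≤ Real.log ‖y‖ := by
      have := neg_abs_le (Real.log ‖y‖); linarith
    have he : (2:ℝ) ≤ Real.exp 1 := by
      have := Real.add_one_le_exp (1:ℝ); linarith
    constructor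
    · calc 2 * ‖y‖ ≤ Real.exp 1 * ‖y‖ := mul_le_mul_of_nonneg_right he hyp.le
        _ = Real.exp (Real.log ‖y‖ + 1) := by rw [Real.exp_add, Real.exp_log hyp, mul_comm]
        _ ≤ _ := Real.exp_le_exp.2 h2
    · calc 2 * Real.exp (-m) ≤ Real.exp 1 * Real.exp (-m) :=
            mul_le_mul_of_nonneg_right he (Real.exp_pos _).le
        _ = Real.exp (-m + 1) := by rw [← Real.exp_add]; ring_nf
        _ ≤ Real.exp (Real.log ‖y‖) := Real.exp_le_exp.2 h3
        _ = ‖y‖ := Real.exp_log hyp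

variable (P Q) in
/-- all zeros and poles have moduli between `2 e ^ (-m)` and `e ^ m / 2` -/
structure Bd (m c : ℝ) : Prop where
  m1 : 1 ≤ m
  c1 : 1 ≤ c
  rt : ∀ y : ℂ, P.eval y * Q.eval y = 0 → 2 * ‖y‖ ≤ Real.exp m ∧ 2 * Real.exp (-m) ≤ ‖y‖
  out : ∀ z : ℂ, (‖z‖ ≤ Real.exp (-m) ∨ Real.exp m ≤ ‖z‖) → (P.eval z ≠ 0 ∧ Q.eval z ≠ 0) ∧
    ‖z * (wro P Q).eval z‖ ≤ c * ‖P.eval z * Q.eval z‖
  small : ∀ z : ℂ, ‖z‖ ≤ Real.exp (-m) → ‖P.eval z / Q.eval z‖ ≤ c
  large : ∀ z : ℂ, Real.exp m ≤ ‖z‖ → 1 ≤ c * (‖z‖ ^ Q.natDegree * ‖P.eval z / Q.eval z‖)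

theorem exists_Bd (hP : P.eval 0 ≠ 0) (hQ : Q.eval 0 ≠ 0) : ∃ m c : ℝ, Bd P Q m c := by
  have hP0 : P ≠ 0 := by rintro rfl; simp at hP
  have hQ0 : Q ≠ 0 := by rintro rfl; simp at hQ
  obtain ⟨m, hm1, hm⟩ := exists_m hP hQ
  have hrP : ∀ y ∈ P.roots, 2 * ‖y‖ ≤ Real.exp m ∧ 2 * Real.exp (-m) ≤ ‖y‖ := by
    intro y hy
    apply hm
    rw [Polynomial.mem_roots', Polynomial.IsRoot.def] at hy
    rw [hy.2, zero_mul]
  have hrQ : ∀ y ∈ Q.roots, 2 * ‖y‖ ≤ Real.exp m ∧ 2 * Real.exp (-m) ≤ ‖y‖ := by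
    intro y hy
    apply hm
    rw [Polynomial.mem_roots', Polynomial.IsRoot.def] at hy
    rw [hy.2, mul_zero]
  have hem := Real.exp_pos m
  have hem' := Real.exp_pos (-m)
  have hem2 : 2 ≤ Real.exp m := by
    have := Real.add_one_le_exp m; linarith
  -- distances to the roots
  have hout : ∀ z : ℂ, (‖z‖ ≤ Real.exp (-m) ∨ Real.exp m ≤ ‖z‖) →
      ∀ y : ℂ, (2 * ‖y‖ ≤ Real.exp m ∧ 2 * Real.exp (-m) ≤ ‖y‖) → ‖z‖ ≤ 2 * ‖z - y‖ ∧
        Real.exp (-m) ≤ ‖z - y‖ := by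
    intro z hz y hy
    have h1 := norm_sub_norm_le z y
    have h2 := norm_sub_norm_le y z
    rw [norm_sub_rev] at h2
    rcases hz with h | h
    · constructor <;> linarith [hy.2]
    · have h3 : Real.exp (-m) ≤ 1 := by rw [Real.exp_le_one_iff]; linarith
      constructor
      · linarith [hy.1]
      · linarith [hy.1]
  have hne : ∀ z : ℂ, (‖z‖ ≤ Real.exp (-m) ∨ Real.exp m ≤ ‖z‖) →
      P.eval z ≠ 0 ∧ Q.eval z ≠ 0 := by
    intro z hz
    constructor
    · intro h0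
      have h1 := hout z hz z (hm z (by rw [h0, zero_mul]))
      rw [sub_self, norm_zero] at h1
      linarith [h1.2]
    · intro h0
      have h1 := hout z hz z (hm z (by rw [h0, mul_zero]))
      rw [sub_self, norm_zero] at h1
      linarith [h1.2]
  have hlP : 0 < ‖P.leadingCoeff‖ := norm_pos_iff.2 (Polynomial.leadingCoeff_ne_zero.2 hP0)
  have hlQ : 0 < ‖Q.leadingCoeff‖ := norm_pos_iff.2 (Polynomial.leadingCoeff_ne_zero.2 hQ0)
  set c₂ : ℝ := 2 * P.natDegree + 2 * Q.natDegree with hc₂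
  set c₃ : ℝ := ‖P.leadingCoeff‖ * (Real.exp m) ^ P.natDegree /
    (‖Q.leadingCoeff‖ * (Real.exp (-m)) ^ Q.natDegree) with hc₃
  set c₄ : ℝ := ‖Q.leadingCoeff‖ * 2 ^ Q.natDegree / ‖P.leadingCoeff‖ with hc₄
  have hc₂0 : 0 ≤ c₂ := by positivity
  have hc₃0 : 0 ≤ c₃ := by positivity
  have hc₄0 : 0 ≤ c₄ := by positivity
  refine ⟨m, 1 + c₂ + c₃ + c₄, hm1, by linarith, hm, ?_, ?_, ?_⟩
  · intro z hz
    refine ⟨hne z hz, ?_⟩
    obtain ⟨h1, h2⟩ := hne z hz
    have h3 := poly_der h1 fun y hy => (hout z hz y (hrP y hy)).1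
    have h4 := poly_der h2 fun y hy => (hout z hz y (hrQ y hy)).1
    have e : z * (wro P Q).eval z = (z * (Polynomial.derivative P).eval z) * Q.eval z -
        P.eval z * (z * (Polynomial.derivative Q).eval z) := by
      unfold wro
      rw [Polynomial.eval_sub, Polynomial.eval_mul, Polynomial.eval_mul]
      ring
    rw [e]
    refine (norm_sub_le _ _).trans ?_
    rw [norm_mul, norm_mul (P.eval z) (z * (Polynomial.derivative Q).eval z),
      norm_mul (P.eval z) (Q.eval z)]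
    have h5 := mul_le_mul_of_nonneg_right h3 (norm_nonneg (Q.eval z))
    have h6 := mul_le_mul_of_nonneg_left h4 (norm_nonneg (P.eval z))
    have h7 : 0 ≤ ‖P.eval z‖ * ‖Q.eval z‖ := by positivity
    nlinarith
  · intro z hz
    have hz' : ‖z‖ ≤ Real.exp (-m) ∨ Real.exp m ≤ ‖z‖ := Or.inl hz
    have h1 := poly_up (P := P) (z := z) (d := Real.exp m) hem.le (by
      intro y hy
      have h3 := (hrP y hy).1
      have h4 : Real.exp (-m) ≤ 1 := by rw [Real.exp_le_one_iff]; linarith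
      have := norm_sub_le z y
      linarith)
    have h2 := poly_low (P := Q) (z := z) (d := Real.exp (-m)) hem'.le fun y hy =>
      (hout z hz' y (hrQ y hy)).2
    rw [norm_div]
    have h3 : ‖P.eval z‖ / ‖Q.eval z‖ ≤ c₃ :=
      div_le_div₀ (by positivity) h1 (by positivity) h2
    linarith
  · intro z hz
    have hz' : ‖z‖ ≤ Real.exp (-m) ∨ Real.exp m ≤ ‖z‖ := Or.inr hz
    have hz2 : 2 ≤ ‖z‖ := hem2.trans hz
    have h1 := poly_low (P := P) (z := z) (d := 1) zero_le_one (by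
      intro y hy
      have := (hout z hz' y (hrP y hy)).1
      linarith)
    rw [one_pow, mul_one] at h1
    have h2 := poly_up (P := Q) (z := z) (d := 2 * ‖z‖) (by positivity) (by
      intro y hy
      have h3 := (hrQ y hy).1
      have := norm_sub_le z y
      linarith)
    have hq := norm_pos_iff.2 (hne z hz').2
    rw [norm_div]
    have h3 : 1 ≤ c₄ * (‖z‖ ^ Q.natDegree * (‖P.eval z‖ / ‖Q.eval z‖)) := by
      have e : c₄ * (‖z‖ ^ Q.natDegree * (‖P.eval z‖ / ‖Q.eval z‖)) =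
          (‖Q.leadingCoeff‖ * (2 * ‖z‖) ^ Q.natDegree) * ‖P.eval z‖ /
            (‖P.leadingCoeff‖ * ‖Q.eval z‖) := by
        rw [hc₄, mul_pow]; field_simp
      rw [e, one_le_div (by positivity), mul_comm ‖P.leadingCoeff‖]
      exact mul_le_mul h2 h1 hlP.le (by positivity)
    refine h3.trans (mul_le_mul_of_nonneg_right (by linarith) (by positivity))

variable (P Q) in
/-- `c` is a critical point of `z ^ n P / Q` which is not a zero or pole -/
def FC (n : ℕ) (c : ℂ) : Prop :=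
  P.eval c ≠ 0 ∧ Q.eval c ≠ 0 ∧ n * (P.eval c * Q.eval c) + c * (wro P Q).eval c = 0

theorem FC.ne_zero {n : ℕ} (hn : 1 ≤ n) {c : ℂ} (h : FC P Q n c) : c ≠ 0 := by
  rintro rfl
  obtain ⟨h1, h2, h3⟩ := h
  rw [zero_mul, add_zero] at h3
  have hn0 : (n:ℂ) ≠ 0 := by exact_mod_cast (by omega : n ≠ 0)
  exact mul_ne_zero hn0 (mul_ne_zero h1 h2) h3

theorem FC.G_eq {n : ℕ} {c t : ℂ} (h : FC P Q n c) (ht : Complex.exp t = c) : G P Q t = -n := by
  obtain ⟨h1, h2, h3⟩ := h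
  unfold G
  rw [ht, div_eq_iff (mul_ne_zero h1 h2)]
  linear_combination h3

/-- the distance of the free critical points to the zeros and poles -/
theorem FC.dist {M r₀ B : ℝ} (U : MU P Q M r₀ B) {n : ℕ} (hn : 1 ≤ n)
    (hnr : 1 < 4 * r₀ * n) {c : ℂ} (h : FC P Q n c) {y : ℂ} (hy0 : y ≠ 0)
    (hy : P.eval y * Q.eval y = 0) : ‖y‖ / (2 * n) ≤ ‖c - y‖ := by
  by_contra hcon
  push Not at hcon
  have hn0 : (0:ℝ) < n := by exact_mod_cast hn
  have hn1 : (1:ℝ) ≤ n := by exact_mod_cast hn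
  have hyp := norm_pos_iff.2 hy0
  set w : ℂ := c / y - 1 with hw
  have hwn : ‖w‖ < 1 / (2 * n) := by
    have e : w = (c - y) / y := by rw [hw]; field_simp
    rw [e, norm_div, div_lt_iff₀ hyp]
    calc ‖c - y‖ < ‖y‖ / (2 * n) := hcon
      _ = _ := by ring
  have hw2 : ‖w‖ ≤ 1 / 2 := by
    have : 1 / (2 * (n:ℝ)) ≤ 1 / 2 := by
      apply one_div_le_one_div_of_le (by norm_num); linarith
    linarith
  have hlog := Complex.norm_log_one_add_half_le_self hw2
  set σ := Complex.log y with hσ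
  have hσe : Complex.exp σ = y := Complex.exp_log hy0
  set t := σ + Complex.log (1 + w) with ht
  have h1w : (1:ℂ) + w ≠ 0 := by
    intro h0
    have : w = -1 := by linear_combination h0
    rw [this, norm_neg, norm_one] at hw2
    norm_num at hw2
  have hte : Complex.exp t = c := by
    rw [ht, Complex.exp_add, hσe, Complex.exp_log h1w, hw]
    field_simp
    ring
  obtain ⟨μ, -, hN⟩ := U.near σ (by
    change P.eval (Complex.exp σ) * Q.eval (Complex.exp σ) = 0
    rw [hσe]; exact hy)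
  have hμ := hN.μ1
  have htσ : ‖t - σ‖ < 3 / (4 * n) := by
    have e : t - σ = Complex.log (1 + w) := by rw [ht]; ring
    rw [e]
    have e2 : 3 / (4 * (n:ℝ)) = 3 / 2 * (1 / (2 * n)) := by field_simp; norm_num
    rw [e2]
    linarith
  have hr₀ : 0 < r₀ := by
    by_contra hneg
    push Not at hneg
    have : 4 * r₀ * n ≤ 0 := mul_nonpos_of_nonpos_of_nonneg (by linarith) hn0.le
    linarith
  have htb : t ∈ ball σ (4 * r₀) := by
    rw [mem_ball, dist_eq_norm]
    refine htσ.trans_le ?_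
    rw [div_le_iff₀ (by positivity)]
    nlinarith
  have h1 := hN.upper htb (mem_ball_self (by positivity))
  rw [hN.G_center, sub_zero, h.G_eq hte, norm_inv, norm_neg, Complex.norm_natCast] at h1
  have h2 : 1 / (n:ℝ) ≤ ‖μ‖ * (n:ℝ)⁻¹ := by
    rw [one_div]
    nlinarith [inv_pos.2 hn0]
  have h3 : 5 / 4 * ‖t - σ‖ < 1 / n := by
    calc 5 / 4 * ‖t - σ‖ < 5 / 4 * (3 / (4 * n)) := by linarith
      _ = 15 / 16 * (1 / n) := by field_simp; norm_num
      _ < 1 / n := by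
        have : 0 < 1 / (n:ℝ) := by positivity
        linarith
  linarith

/-- the position of the free critical points -/
theorem FC.bounds {m c₁ : ℝ} (hB : Bd P Q m c₁) {M r₀ B : ℝ} (U : MU P Q M r₀ B) (hr₀ : 0 < r₀) :
    ∃ n₀ : ℕ, ∀ n : ℕ, n₀ ≤ n → ∀ c : ℂ, FC P Q n c →
      (Real.exp (-m) ≤ ‖c‖ ∧ ‖c‖ ≤ Real.exp m) ∧
      Real.exp (-(n * m / 2)) ≤ ‖P.eval c / Q.eval c‖ ∧
        ‖P.eval c / Q.eval c‖ ≤ Real.exp (n * m / 2) := by
  have hm := hB.m1
  have hP0 : P ≠ 0 := by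
    rintro rfl
    have := (hB.out 0 (Or.inl (by rw [norm_zero]; positivity))).1.1
    simp at this
  have hQ0 : Q ≠ 0 := by
    rintro rfl
    have := (hB.out 0 (Or.inl (by rw [norm_zero]; positivity))).1.2
    simp at this
  have hlP : 0 < ‖P.leadingCoeff‖ := norm_pos_iff.2 (Polynomial.leadingCoeff_ne_zero.2 hP0)
  have hlQ : 0 < ‖Q.leadingCoeff‖ := norm_pos_iff.2 (Polynomial.leadingCoeff_ne_zero.2 hQ0)
  have hem := Real.exp_pos m
  have hem' := Real.exp_pos (-m)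
  have hem2 : 1 ≤ Real.exp m := Real.one_le_exp (by linarith)
  -- growth
  have hgrow : ∀ (K : ℝ) (N : ℕ), ∀ᶠ n : ℕ in atTop, K * (n:ℝ) ^ N ≤ Real.exp (n * m / 2) := by
    intro K N
    have h1 : Tendsto (fun x : ℝ => x ^ N * Real.exp (-(m / 2) * x)) atTop (𝓝 0) := by
      have := Real.tendsto_pow_mul_exp_neg_atTop_nhds_zero N
      have h2 : Tendsto (fun x : ℝ => (m / 2) * x) atTop atTop :=
        tendsto_id.const_mul_atTop (by linarith)
      have h3 := (this.comp h2).const_mul ((2 / m) ^ N)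
      rw [mul_zero] at h3
      refine h3.congr fun x => ?_
      simp only [Function.comp_apply]
      have hm0 : m ≠ 0 := by linarith
      rw [mul_pow, ← mul_assoc, ← mul_assoc, ← mul_pow]
      have : 2 / m * (m / 2) = 1 := by field_simp
      rw [this, one_pow, one_mul]
      congr 2
      ring
    have h2 := (h1.comp tendsto_natCast_atTop_atTop).const_mul K
    rw [mul_zero] at h2
    filter_upwards [h2.eventually (gt_mem_nhds (show (0:ℝ) < 1 by norm_num))] with n hn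
    simp only [Function.comp_apply] at hn
    have e : Real.exp (n * m / 2) * Real.exp (-(m / 2) * n) = 1 := by
      rw [← Real.exp_add]
      have : (n:ℝ) * m / 2 + -(m / 2) * n = 0 := by ring
      rw [this, Real.exp_zero]
    have h3 := Real.exp_pos (-(m / 2) * n)
    have h4 : K * (n:ℝ) ^ N * Real.exp (-(m / 2) * n) ≤ Real.exp (n * m / 2) *
        Real.exp (-(m / 2) * n) := by
      rw [e]; linarith
    exact le_of_mul_le_mul_right h4 h3
  set KP : ℝ := ‖P.leadingCoeff‖ * (2 * Real.exp m) ^ P.natDegree /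
    (‖Q.leadingCoeff‖ * (Real.exp (-m)) ^ Q.natDegree) with hKP
  set KQ : ℝ := ‖Q.leadingCoeff‖ * (2 * Real.exp m) ^ Q.natDegree /
    (‖P.leadingCoeff‖ * (Real.exp (-m)) ^ P.natDegree) with hKQ
  obtain ⟨n₁, hn₁⟩ := eventually_atTop.1 (hgrow KP Q.natDegree)
  obtain ⟨n₂, hn₂⟩ := eventually_atTop.1 (hgrow KQ P.natDegree)
  obtain ⟨n₃, hn₃⟩ := exists_nat_gt c₁
  obtain ⟨n₄, hn₄⟩ := exists_nat_gt (1 / (4 * r₀))
  refine ⟨max 1 (max (max n₁ n₂) (max n₃ n₄)), ?_⟩
  intro n hn c hc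
  have hn1 : 1 ≤ n := (le_max_left _ _).trans hn
  have hn' := (le_max_right _ _).trans hn
  have hnn1 : n₁ ≤ n := ((le_max_left _ _).trans (le_max_left _ _)).trans hn'
  have hnn2 : n₂ ≤ n := ((le_max_right _ _).trans (le_max_left _ _)).trans hn'
  have hnn3 : n₃ ≤ n := ((le_max_left _ _).trans (le_max_right _ _)).trans hn'
  have hnn4 : n₄ ≤ n := ((le_max_right _ _).trans (le_max_right _ _)).trans hn'
  have hn0 : (0:ℝ) < n := by exact_mod_cast hn1
  have hnr1 : (1:ℝ) ≤ n := by exact_mod_cast hn1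
  have hcn : c₁ < n := hn₃.trans_le (by exact_mod_cast hnn3)
  have hnr : 1 < 4 * r₀ * n := by
    have : 1 / (4 * r₀) < n := hn₄.trans_le (by exact_mod_cast hnn4)
    rw [div_lt_iff₀ (by positivity)] at this
    linarith
  have hcr : Real.exp (-m) ≤ ‖c‖ ∧ ‖c‖ ≤ Real.exp m := by
    by_contra hcon
    have hz : ‖c‖ ≤ Real.exp (-m) ∨ Real.exp m ≤ ‖c‖ := by
      rw [not_and_or, not_le, not_le] at hcon
      exact hcon.imp le_of_lt le_of_lt
    obtain ⟨-, h2⟩ := hB.out c hz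
    have h3 : c * (wro P Q).eval c = -(n * (P.eval c * Q.eval c)) := by
      linear_combination hc.2.2
    rw [h3, norm_neg, norm_mul, Complex.norm_natCast] at h2
    have h4 : 0 < ‖P.eval c * Q.eval c‖ := norm_pos_iff.2 (mul_ne_zero hc.1 hc.2.1)
    have h5 := le_of_mul_le_mul_right h2 h4
    linarith
  refine ⟨hcr, ?_⟩
  have hy0 : ∀ y : ℂ, P.eval y * Q.eval y = 0 → y ≠ 0 := by
    rintro y hy rfl
    have := (hB.rt 0 hy).2
    rw [norm_zero] at this
    linarith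
  have hdist : ∀ y : ℂ, P.eval y * Q.eval y = 0 → Real.exp (-m) / n ≤ ‖c - y‖ ∧
      ‖c - y‖ ≤ 2 * Real.exp m := by
    intro y hy
    have h1 := FC.dist U hn1 hnr hc (hy0 y hy) hy
    obtain ⟨h2, h3⟩ := hB.rt y hy
    constructor
    · refine le_trans ?_ h1
      rw [div_le_div_iff₀ hn0 (by positivity)]
      nlinarith
    · have := norm_sub_le c y
      linarith [hcr.2]
  have hPr : ∀ y ∈ P.roots, P.eval y * Q.eval y = 0 := by
    intro y hy
    rw [Polynomial.mem_roots', Polynomial.IsRoot.def] at hy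
    rw [hy.2, zero_mul]
  have hQr : ∀ y ∈ Q.roots, P.eval y * Q.eval y = 0 := by
    intro y hy
    rw [Polynomial.mem_roots', Polynomial.IsRoot.def] at hy
    rw [hy.2, mul_zero]
  have hd0 : 0 ≤ Real.exp (-m) / n := by positivity
  have hPl := poly_low (P := P) (z := c) hd0 fun y hy => (hdist y (hPr y hy)).1
  have hQl := poly_low (P := Q) (z := c) hd0 fun y hy => (hdist y (hQr y hy)).1
  have hPu := poly_up (P := P) (z := c) (by positivity) fun y hy => (hdist y (hPr y hy)).2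
  have hQu := poly_up (P := Q) (z := c) (by positivity) fun y hy => (hdist y (hQr y hy)).2
  have hPc := norm_pos_iff.2 hc.1
  have hQc := norm_pos_iff.2 hc.2.1
  rw [norm_div]
  constructor
  · have h1 : ‖Q.eval c‖ / ‖P.eval c‖ ≤ KQ * (n:ℝ) ^ P.natDegree := by
      calc ‖Q.eval c‖ / ‖P.eval c‖ ≤ ‖Q.leadingCoeff‖ * (2 * Real.exp m) ^ Q.natDegree /
            (‖P.leadingCoeff‖ * (Real.exp (-m) / n) ^ P.natDegree) :=
              div_le_div₀ (by positivity) hQu (by positivity) hPl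
        _ = _ := by rw [hKQ, div_pow]; field_simp
    have h2 := h1.trans (hn₂ n hnn2)
    rw [div_le_iff₀ hPc] at h2
    rw [Real.exp_neg, le_div_iff₀ hQc, inv_mul_le_iff₀ (Real.exp_pos _)]
    exact h2
  · have h1 : ‖P.eval c‖ / ‖Q.eval c‖ ≤ KP * (n:ℝ) ^ Q.natDegree := by
      calc ‖P.eval c‖ / ‖Q.eval c‖ ≤ ‖P.leadingCoeff‖ * (2 * Real.exp m) ^ P.natDegree /
            (‖Q.leadingCoeff‖ * (Real.exp (-m) / n) ^ Q.natDegree) :=
              div_le_div₀ (by positivity) hPu (by positivity) hQl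
        _ = _ := by rw [hKP, div_pow]; field_simp
    exact h1.trans (hn₁ n hnn1)

end Pool.Agent.Q79.MN
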