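import Mathlib
import Pool.Agent.Q79.MonE

/-!
# The dynamics of `a z ^ n R(z)` on the sphere
-/

set_option autoImplicit false

open MeasureTheory Set Filter Topology Metric
open scoped OnePoint

namespace Pool.Agent.Q79.MN

open Pool.Agent.H762R2.Rt (wro Hyp Sinks injOn_of_deriv)
open Pool.Agent.Helper114.Herman Pool.Agent.Helper114.Konig

variable {P Q : Polynomial ℂ}

/-- `0` or `∞` is an attracting fixed point to which the orbit of `c` converges -/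
def To (f : OnePoint ℂ → OnePoint ℂ) (c : OnePoint ℂ) : Prop :=
  ∃ z : OnePoint ℂ, (z = ((0 : ℂ) : OnePoint ℂ) ∨ z = ∞) ∧ f z = z ∧
    (∃ U ∈ 𝓝 z, ∀ w ∈ U, Tendsto (fun k : ℕ => f^[k] w) atTop (𝓝 z)) ∧
    Tendsto (fun k : ℕ => f^[k] c) atTop (𝓝 z)

/-- all critical points converge to `0` or `∞` -/
def AllTo (P Q : Polynomial ℂ) : Prop :=
  IsCoprime P Q ∧ ∃ f : OnePoint ℂ → OnePoint ℂ, Continuous f ∧
    (∀ z : ℂ, Q.eval z ≠ 0 → f (z : OnePoint ℂ) = ((P.eval z / Q.eval z : ℂ) : OnePoint ℂ)) ∧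
    ∀ c : OnePoint ℂ, (¬ ∃ U ∈ 𝓝 c, Set.InjOn f U) → To f c

theorem AllTo.hyp (h : AllTo P Q) : Hyp P Q := by
  obtain ⟨hc, f, hf, hfe, hcr⟩ := h
  refine ⟨hc, f, hf, hfe, fun c hcc => ?_⟩
  obtain ⟨z, -, hz, ⟨U, hU, hUt⟩, ht⟩ := hcr c hcc
  refine ⟨z, 1, one_pos, hz, ⟨U, hU, fun w hw => ?_⟩, ?_⟩
  · simpa only [one_mul] using hUt w hw
  · simpa only [one_mul] using ht

theorem to_image {f : OnePoint ℂ → OnePoint ℂ} {c : OnePoint ℂ} (h : To f (f c)) : To f c := by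
  obtain ⟨z, h1, h2, h3, h4⟩ := h
  refine ⟨z, h1, h2, h3, ?_⟩
  rw [← tendsto_add_atTop_iff_nat 1]
  exact h4

theorem to_zero {f : OnePoint ℂ → OnePoint ℂ} {g : ℂ → ℂ} {ρ : ℝ} (hρ : 0 < ρ)
    (hf : ∀ z : ℂ, ‖z‖ ≤ ρ → f (z : OnePoint ℂ) = ((g z : ℂ) : OnePoint ℂ))
    (hg : ∀ z : ℂ, ‖z‖ ≤ ρ → ‖g z‖ ≤ ‖z‖ / 2) : ∀ z : ℂ, ‖z‖ ≤ ρ → To f (z : OnePoint ℂ) := by
  have hiter : ∀ (k : ℕ) (z : ℂ), ‖z‖ ≤ ρ → ‖g^[k] z‖ ≤ ‖z‖ * (1 / 2) ^ k ∧
      f^[k] (z : OnePoint ℂ) = ((g^[k] z : ℂ) : OnePoint ℂ) := by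
    intro k
    induction k with
    | zero => intro z _; simp
    | succ k ih =>
      intro z hz
      obtain ⟨h1, h2⟩ := ih z hz
      have h3 : ‖g^[k] z‖ ≤ ρ := by
        refine h1.trans (le_trans ?_ hz)
        have : (1 / 2 : ℝ) ^ k ≤ 1 := pow_le_one₀ (by norm_num) (by norm_num)
        nlinarith [norm_nonneg z]
      rw [Function.iterate_succ_apply', Function.iterate_succ_apply', h2, hf _ h3]
      refine ⟨?_, rfl⟩
      have := hg _ h3
      rw [pow_succ]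
      linarith
  have hconv : ∀ z : ℂ, ‖z‖ ≤ ρ →
      Tendsto (fun k : ℕ => f^[k] (z : OnePoint ℂ)) atTop (𝓝 ((0 : ℂ) : OnePoint ℂ)) := by
    intro z hz
    have h1 : Tendsto (fun k : ℕ => g^[k] z) atTop (𝓝 0) := by
      refine squeeze_zero_norm (fun k => (hiter k z hz).1) ?_
      have := (tendsto_pow_atTop_nhds_zero_of_lt_one (show (0:ℝ) ≤ 1 / 2 by norm_num)
        (by norm_num)).const_mul ‖z‖
      simpa using this
    have h2 := (OnePoint.continuous_coe (X := ℂ)).continuousAt.tendsto.comp h1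
    exact h2.congr fun k => ((hiter k z hz).2).symm
  intro z hz
  refine ⟨((0 : ℂ) : OnePoint ℂ), Or.inl rfl, ?_, ⟨(↑) '' ball (0 : ℂ) ρ, ?_, ?_⟩, hconv z hz⟩
  · have h1 : ‖(0:ℂ)‖ ≤ ρ := by rw [norm_zero]; exact hρ.le
    rw [hf 0 h1]
    have h2 := hg 0 h1
    rw [norm_zero, zero_div] at h2
    rw [norm_le_zero_iff.1 h2]
  · exact (OnePoint.isOpenEmbedding_coe (X := ℂ)).isOpenMap.image_mem_nhds (ball_mem_nhds 0 hρ)
  · rintro _ ⟨w, hw, rfl⟩
    rw [mem_ball_zero_iff] at hw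
    exact hconv w hw.le

theorem to_infty {f : OnePoint ℂ → OnePoint ℂ} {g : ℂ → ℂ} {R : ℝ} (hR : 0 < R)
    (hinf : f ∞ = ∞)
    (hf : ∀ z : ℂ, R ≤ ‖z‖ → f (z : OnePoint ℂ) = ((g z : ℂ) : OnePoint ℂ))
    (hg : ∀ z : ℂ, R ≤ ‖z‖ → 2 * ‖z‖ ≤ ‖g z‖) :
    To f ∞ ∧ ∀ z : ℂ, R ≤ ‖z‖ → To f (z : OnePoint ℂ) := by
  have hiter : ∀ (k : ℕ) (z : ℂ), R ≤ ‖z‖ → ‖z‖ * 2 ^ k ≤ ‖g^[k] z‖ ∧
      f^[k] (z : OnePoint ℂ) = ((g^[k] z : ℂ) : OnePoint ℂ) := by
    intro k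
    induction k with
    | zero => intro z _; simp
    | succ k ih =>
      intro z hz
      obtain ⟨h1, h2⟩ := ih z hz
      have h3 : R ≤ ‖g^[k] z‖ := by
        refine hz.trans (le_trans ?_ h1)
        have : (1 : ℝ) ≤ 2 ^ k := one_le_pow₀ (by norm_num)
        nlinarith [norm_nonneg z]
      rw [Function.iterate_succ_apply', Function.iterate_succ_apply', h2, hf _ h3]
      refine ⟨?_, rfl⟩
      have := hg _ h3
      rw [pow_succ]
      linarith
  have hconv : ∀ z : ℂ, R ≤ ‖z‖ →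
      Tendsto (fun k : ℕ => f^[k] (z : OnePoint ℂ)) atTop (𝓝 ∞) := by
    intro z hz
    have h1 : Tendsto (fun k : ℕ => ‖g^[k] z‖) atTop atTop := by
      refine tendsto_atTop_mono (fun k => (hiter k z hz).1) ?_
      exact (tendsto_pow_atTop_atTop_of_one_lt (by norm_num : (1:ℝ) < 2)).const_mul_atTop
        (by linarith)
    exact (tendsto_coe_nhds_infty_of_norm h1).congr fun k => ((hiter k z hz).2).symm
  have hfix : ∀ k : ℕ, f^[k] ∞ = ∞ := by
    intro k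
    induction k with
    | zero => rfl
    | succ k ih => rw [Function.iterate_succ_apply', ih, hinf]
  have hU : ((↑) '' closedBall (0 : ℂ) R : Set (OnePoint ℂ))ᶜ ∈ 𝓝 (∞ : OnePoint ℂ) := by
    refine IsOpen.mem_nhds ?_ ?_
    · rw [OnePoint.isOpen_compl_image_coe]
      exact ⟨isClosed_closedBall, isCompact_closedBall 0 R⟩
    · rintro ⟨w, -, hw⟩
      exact OnePoint.coe_ne_infty w hw
  have hUt : ∀ w ∈ ((↑) '' closedBall (0 : ℂ) R : Set (OnePoint ℂ))ᶜ,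
      Tendsto (fun k : ℕ => f^[k] w) atTop (𝓝 ∞) := by
    intro w hw
    induction w using OnePoint.rec with
    | infty =>
      simp only [hfix]
      exact tendsto_const_nhds
    | coe z =>
      apply hconv
      by_contra hcon
      push Not at hcon
      exact hw ⟨z, by rw [mem_closedBall_zero_iff]; exact hcon.le, rfl⟩
  refine ⟨⟨∞, Or.inr rfl, hinf, ⟨_, hU, hUt⟩, ?_⟩, fun z hz => ⟨∞, Or.inr rfl, hinf, ⟨_, hU, hUt⟩,
    hconv z hz⟩⟩
  simp only [hfix]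
  exact tendsto_const_nhds

/-- the derivative of the family -/
theorem fam_deriv {n : ℕ} (hn : 1 ≤ n) {a z : ℂ} (hQ : Q.eval z ≠ 0) :
    HasStrictDerivAt (fam P Q n a) (a * z ^ (n - 1) *
      (n * (P.eval z * Q.eval z) + z * (wro P Q).eval z) / Q.eval z ^ 2) z := by
  have h1 : HasStrictDerivAt (fun z : ℂ => a * z ^ n) (a * (n * z ^ (n - 1))) z :=
    (hasStrictDerivAt_pow n z).const_mul a
  have h2 : HasStrictDerivAt (fun z => P.eval z / Q.eval z)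
      ((P.derivative.eval z * Q.eval z - P.eval z * Q.derivative.eval z) / Q.eval z ^ 2) z :=
    (P.hasStrictDerivAt z).fun_div (Q.hasStrictDerivAt z) hQ
  refine (h1.mul h2).congr_deriv ?_
  obtain ⟨k, rfl⟩ : ∃ k, n = k + 1 := ⟨n - 1, by omega⟩
  unfold wro
  rw [Polynomial.eval_sub, Polynomial.eval_mul, Polynomial.eval_mul, Nat.add_sub_cancel, pow_succ]
  field_simp

/-- the facts on the sphere which hold for all parameters -/
structure Sph (P Q : Polynomial ℂ) (n : ℕ) (a : ℂ) (f : OnePoint ℂ → OnePoint ℂ) : Prop where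
  cont : Continuous f
  inf : f ∞ = ∞
  ev : ∀ z : ℂ, Q.eval z ≠ 0 → f (z : OnePoint ℂ) = ((fam P Q n a z : ℂ) : OnePoint ℂ)
  pole : ∀ z : ℂ, Q.eval z = 0 → f (z : OnePoint ℂ) = ∞

theorem exists_Sph (hc : IsCoprime P Q) (hP0 : P ≠ 0) (hQ0 : Q ≠ 0) (hQz : Q.eval 0 ≠ 0)
    {n : ℕ} (hn : Q.natDegree < n) {a : ℂ} (ha : a ≠ 0) :
    IsCoprime (Polynomial.C a * Polynomial.X ^ n * P) Q ∧
    ∃ f : OnePoint ℂ → OnePoint ℂ, Sph P Q n a f ∧ ∀ z : ℂ, Q.eval z ≠ 0 →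
      f (z : OnePoint ℂ) = (((Polynomial.C a * Polynomial.X ^ n * P).eval z / Q.eval z : ℂ) :
        OnePoint ℂ) := by
  have hcop : IsCoprime (Polynomial.C a * Polynomial.X ^ n * P) Q := by
    refine IsCoprime.mul_left (IsCoprime.mul_left ?_ ?_) hc
    · exact ⟨Polynomial.C a⁻¹, 0, by
        rw [zero_mul, add_zero, ← Polynomial.C_mul, inv_mul_cancel₀ ha, Polynomial.C_1]⟩
    · apply IsCoprime.pow_left
      rw [(Polynomial.irreducible_X).coprime_iff_not_dvd, Polynomial.X_dvd_iff,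
        Polynomial.coeff_zero_eq_eval_zero]
      exact hQz
  have hdeg : (Polynomial.C a * Polynomial.X ^ n * P).natDegree = n + P.natDegree := by
    rw [mul_assoc, Polynomial.natDegree_C_mul ha, Polynomial.natDegree_mul
      (pow_ne_zero _ Polynomial.X_ne_zero) hP0, Polynomial.natDegree_X_pow]
  obtain ⟨f, hf, hfi⟩ := exists_isRat hcop hQ0
  have hinf := hfi (by rw [hdeg]; omega)
  refine ⟨hcop, f, ⟨hf.cont, hinf, ?_, ?_⟩, hf.eval⟩
  · intro z hz
    rw [hf.eval z hz]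
    congr 1
    unfold fam
    rw [Polynomial.eval_mul, Polynomial.eval_mul, Polynomial.eval_C, Polynomial.eval_pow,
      Polynomial.eval_X, mul_div_assoc]
  · intro z hz
    have h1 := rat_formula hf (d := max (Polynomial.C a * Polynomial.X ^ n * P).natDegree
      Q.natDegree) rfl (by rw [hdeg]; omega) (u := z) (v := 1) (Or.inr one_ne_zero)
    rw [pr_one, hom_ne (P := Q) (le_max_right _ _) one_ne_zero, div_one, hz, mul_zero,
      pr_zero] at h1
    exact h1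

theorem Sph.basic {m c₁ : ℝ} (hB : Bd P Q m c₁) {n : ℕ} (hn : Q.natDegree + 2 ≤ n) {a : ℂ}
    (ha : a ≠ 0) {f : OnePoint ℂ → OnePoint ℂ} (hf : Sph P Q n a f) :
    To f ((0 : ℂ) : OnePoint ℂ) ∧ To f ∞ := by
  have hap := norm_pos_iff.2 ha
  have hc1 := hB.c1
  have hm := hB.m1
  have hem' := Real.exp_pos (-m)
  constructor
  · set ρ : ℝ := min (Real.exp (-m)) (1 / (2 * c₁ * ‖a‖)) with hρ
    have hρ0 : 0 < ρ := lt_min hem' (by positivity)
    refine to_zero (g := fam P Q n a) hρ0 (fun z hz => hf.ev z ?_) (fun z hz => ?_) 0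
      (by rw [norm_zero]; exact hρ0.le)
    · exact (hB.out z (Or.inl (hz.trans (min_le_left _ _)))).1.2
    · have h1 := hB.small z (hz.trans (min_le_left _ _))
      have h2 : ‖z‖ ≤ 1 / (2 * c₁ * ‖a‖) := hz.trans (min_le_right _ _)
      have h3 : ‖z‖ ≤ 1 := by
        refine (hz.trans (min_le_left _ _)).trans ?_
        rw [Real.exp_le_one_iff]; linarith
      obtain ⟨k, rfl⟩ : ∃ k, n = k + 2 := ⟨n - 2, by omega⟩
      unfold fam
      rw [norm_mul, norm_mul, norm_pow]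
      have h4 : ‖z‖ ^ (k + 2) ≤ ‖z‖ ^ 2 := pow_le_pow_of_le_one (norm_nonneg _) h3 (by omega)
      have h5 : ‖a‖ * ‖z‖ ^ (k + 2) * ‖P.eval z / Q.eval z‖ ≤ ‖a‖ * ‖z‖ ^ 2 * c₁ :=
        mul_le_mul (mul_le_mul_of_nonneg_left h4 hap.le) h1 (norm_nonneg _) (by positivity)
      rw [le_div_iff₀ (by positivity)] at h2
      have h6 : ‖a‖ * ‖z‖ ^ 2 * c₁ = (‖z‖ * (2 * c₁ * ‖a‖)) * ‖z‖ / 2 := by ring
      have h7 : (‖z‖ * (2 * c₁ * ‖a‖)) * ‖z‖ ≤ 1 * ‖z‖ :=
        mul_le_mul_of_nonneg_right h2 (norm_nonneg _)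
      linarith
  · set R : ℝ := max (Real.exp m) (2 * c₁ / ‖a‖) with hR
    have hR0 : 0 < R := lt_max_of_lt_left (Real.exp_pos _)
    refine (to_infty (g := fam P Q n a) hR0 hf.inf (fun z hz => hf.ev z ?_) (fun z hz => ?_)).1
    · exact (hB.out z (Or.inr ((le_max_left _ _).trans hz))).1.2
    · have h1 := hB.large z ((le_max_left _ _).trans hz)
      have h2 : 2 * c₁ / ‖a‖ ≤ ‖z‖ := (le_max_right _ _).trans hz
      have h3 : 1 ≤ ‖z‖ := (Real.one_le_exp (by linarith)).trans ((le_max_left _ _).trans hz)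
      obtain ⟨k, rfl⟩ : ∃ k, n = Q.natDegree + (k + 2) := ⟨n - Q.natDegree - 2, by omega⟩
      unfold fam
      rw [norm_mul, norm_mul, norm_pow, pow_add]
      rw [div_le_iff₀ hap] at h2
      have h4 : ‖z‖ ^ 2 ≤ ‖z‖ ^ (k + 2) := pow_le_pow_right₀ h3 (by omega)
      set X := ‖z‖ ^ Q.natDegree with hX
      set Y := ‖P.eval z / Q.eval z‖ with hY
      have hXY : 0 ≤ X * Y := by positivity
      have h5 : 2 * ‖z‖ * c₁ ≤ ‖a‖ * ‖z‖ ^ (k + 2) := by
        have : 2 * ‖z‖ * c₁ ≤ ‖a‖ * ‖z‖ ^ 2 := by nlinarith [norm_nonneg z]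
        exact this.trans (mul_le_mul_of_nonneg_left h4 hap.le)
      calc 2 * ‖z‖ ≤ 2 * ‖z‖ * (c₁ * (X * Y)) := by nlinarith [norm_nonneg z]
        _ = 2 * ‖z‖ * c₁ * (X * Y) := by ring
        _ ≤ ‖a‖ * ‖z‖ ^ (k + 2) * (X * Y) := mul_le_mul_of_nonneg_right h5 hXY
        _ = _ := by ring

/-- the quantitative form for the parameters which are not too large or small -/
theorem regions {m c₁ : ℝ} (hB : Bd P Q m c₁) : ∃ n₀ : ℕ, ∀ n : ℕ, n₀ ≤ n → ∀ a : ℂ,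
    ∀ f : OnePoint ℂ → OnePoint ℂ, Sph P Q n a f →
    (‖a‖ ≤ Real.exp (2 * n * m) → ∀ z : ℂ, ‖z‖ ≤ Real.exp (-(4 * m)) → To f (z : OnePoint ℂ)) ∧
    (Real.exp (-(2 * n * m)) ≤ ‖a‖ → ∀ z : ℂ, Real.exp (4 * m) ≤ ‖z‖ → To f (z : OnePoint ℂ)) := by
  have hc1 := hB.c1
  have hm := hB.m1
  set N := Q.natDegree with hN
  obtain ⟨k₀, hk₀⟩ := exists_nat_ge (2 * c₁)
  refine ⟨2 * N + 4 + k₀, fun n hn a f hf => ?_⟩
  have hnr : (2 * N + 4 + k₀ : ℝ) ≤ n := by exact_mod_cast hn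
  have hkey : ∀ x : ℝ, 2 * c₁ ≤ x → 2 * c₁ ≤ Real.exp x := fun x hx => by
    have := Real.add_one_le_exp x; linarith
  constructor
  · intro ha
    refine to_zero (g := fam P Q n a) (Real.exp_pos _) (fun z hz => hf.ev z ?_) (fun z hz => ?_)
    · refine (hB.out z (Or.inl (hz.trans ?_))).1.2
      rw [Real.exp_le_exp]; linarith
    · have h1 := hB.small z (hz.trans (by rw [Real.exp_le_exp]; linarith))
      obtain ⟨k, rfl⟩ : ∃ k, n = k + 1 := ⟨n - 1, by omega⟩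
      unfold fam
      rw [norm_mul, norm_mul, norm_pow]
      have h2 : ‖z‖ ^ k ≤ Real.exp (-(4 * m)) ^ k := pow_le_pow_left₀ (norm_nonneg _) hz k
      rw [← Real.exp_nat_mul] at h2
      have h3 : ‖a‖ * ‖z‖ ^ k * c₁ ≤ 1 / 2 := by
        have h4 : ‖a‖ * ‖z‖ ^ k ≤ Real.exp (2 * ((k + 1 : ℕ) : ℝ) * m) *
            Real.exp (k * -(4 * m)) := mul_le_mul ha h2 (by positivity) (Real.exp_pos _).le
        rw [← Real.exp_add] at h4
        set x : ℝ := 2 * ((k:ℝ) * m) - 2 * m with hx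
        have h5 : 2 * ((k + 1 : ℕ) : ℝ) * m + k * -(4 * m) = -x := by push_cast; ring
        rw [h5] at h4
        have h6 : 2 * c₁ ≤ Real.exp x := by
          apply hkey
          push_cast at hnr
          have hk1 : (2 * N + 3 + k₀ : ℝ) ≤ k := by linarith
          have hNn : (0:ℝ) ≤ N := Nat.cast_nonneg N
          have : x = 2 * m * (k - 1) := by rw [hx]; ring
          rw [this]
          nlinarith
        rw [Real.exp_neg] at h4
        have h7 : ‖a‖ * ‖z‖ ^ k * c₁ ≤ (Real.exp x)⁻¹ * c₁ :=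
          mul_le_mul_of_nonneg_right h4 (by linarith)
        refine h7.trans ?_
        rw [inv_mul_le_iff₀ (Real.exp_pos _)]
        linarith
      calc ‖a‖ * ‖z‖ ^ (k + 1) * ‖P.eval z / Q.eval z‖ ≤ ‖a‖ * ‖z‖ ^ (k + 1) * c₁ :=
            mul_le_mul_of_nonneg_left h1 (by positivity)
        _ = ‖a‖ * ‖z‖ ^ k * c₁ * ‖z‖ := by ring
        _ ≤ 1 / 2 * ‖z‖ := mul_le_mul_of_nonneg_right h3 (norm_nonneg _)
        _ = ‖z‖ / 2 := by ring
  · intro ha
    refine (to_infty (g := fam P Q n a) (Real.exp_pos _) hf.inf (fun z hz => hf.ev z ?_)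
      (fun z hz => ?_)).2
    · refine (hB.out z (Or.inr (le_trans ?_ hz))).1.2
      rw [Real.exp_le_exp]; linarith
    · have h1 := hB.large z (le_trans (by rw [Real.exp_le_exp]; linarith) hz)
      obtain ⟨k, rfl⟩ : ∃ k, n = N + (k + 1) := ⟨n - N - 1, by omega⟩
      unfold fam
      rw [norm_mul, norm_mul, norm_pow, pow_add]
      have h2 : Real.exp (4 * m) ^ k ≤ ‖z‖ ^ k := pow_le_pow_left₀ (Real.exp_pos _).le hz k
      rw [← Real.exp_nat_mul] at h2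
      have h3 : 2 * c₁ ≤ ‖a‖ * ‖z‖ ^ k := by
        have h4 : Real.exp (-(2 * ((N + (k + 1) : ℕ) : ℝ) * m)) * Real.exp (k * (4 * m)) ≤
            ‖a‖ * ‖z‖ ^ k := mul_le_mul ha h2 (Real.exp_pos _).le (norm_nonneg _)
        rw [← Real.exp_add] at h4
        refine le_trans (hkey _ ?_) h4
        push_cast at hnr ⊢
        have hk1 : (N + 3 + k₀ : ℝ) ≤ k := by linarith
        have : -(2 * ((N:ℝ) + (k + 1)) * m) + k * (4 * m) = 2 * m * (k - N - 1) := by ring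
        rw [this]
        nlinarith
      set X := ‖z‖ ^ N with hX
      set Y := ‖P.eval z / Q.eval z‖ with hY
      have hXY : 0 ≤ X * Y := by positivity
      calc 2 * ‖z‖ ≤ 2 * ‖z‖ * (c₁ * (X * Y)) := by nlinarith [norm_nonneg z]
        _ = 2 * c₁ * (‖z‖ * (X * Y)) := by ring
        _ ≤ ‖a‖ * ‖z‖ ^ k * (‖z‖ * (X * Y)) :=
            mul_le_mul_of_nonneg_right h3 (by positivity)
        _ = _ := by ring

/-- orbits which leave the annulus -/
theorem orb_to {M : ℝ} {n : ℕ} {a : ℂ} {f : OnePoint ℂ → OnePoint ℂ} (hf : Sph P Q n a f)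
    (hinf : To f ∞) (hgood : ∀ z : ℂ, (‖z‖ < Real.exp (-M) ∨ Real.exp M < ‖z‖) →
      To f (z : OnePoint ℂ)) :
    ∀ (j : ℕ) (z : ℂ), ¬ (Real.exp (-M) ≤ ‖(fam P Q n a)^[j] z‖ ∧
      ‖(fam P Q n a)^[j] z‖ ≤ Real.exp M) → To f (z : OnePoint ℂ) := by
  intro j
  induction j with
  | zero =>
    intro z hz
    rw [not_and_or, not_le, not_le] at hz
    exact hgood z hz
  | succ j ih =>
    intro z hz
    apply to_image
    by_cases hq : Q.eval z = 0
    · rw [hf.pole z hq]; exact hinf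
    · rw [hf.ev z hq]
      exact ih _ hz

/-- **The dynamics.** -/
theorem dyn (hc : IsCoprime P Q) {m c₁ : ℝ} (hB : Bd P Q m c₁) {M' r₀ B : ℝ}
    (U : MU P Q M' r₀ B) (hr₀ : 0 < r₀) : ∃ n₀ : ℕ, ∀ n : ℕ, n₀ ≤ n → ∀ a : ℂ, a ≠ 0 →
      (∀ c : ℂ, FC P Q n c → ¬ Non (fam P Q n) (4 * m) a (fam P Q n a c)) →
      AllTo (Polynomial.C a * Polynomial.X ^ n * P) Q := by
  have hm := hB.m1
  have h00 : P.eval 0 ≠ 0 ∧ Q.eval 0 ≠ 0 :=
    (hB.out 0 (Or.inl (by rw [norm_zero]; positivity))).1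
  have hP0 : P ≠ 0 := by
    rintro rfl
    simp at h00
  have hQ0 : Q ≠ 0 := by
    rintro rfl
    simp at h00
  obtain ⟨n₁, hn₁⟩ := FC.bounds hB U hr₀
  obtain ⟨n₂, hn₂⟩ := regions hB
  refine ⟨max (Q.natDegree + 8) (max n₁ n₂), fun n hn a ha hnon => ?_⟩
  have hn8 : Q.natDegree + 8 ≤ n := (le_max_left _ _).trans hn
  have hnn1 : n₁ ≤ n := ((le_max_left _ _).trans (le_max_right _ _)).trans hn
  have hnn2 : n₂ ≤ n := ((le_max_right _ _).trans (le_max_right _ _)).trans hn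
  have hn1 : 1 ≤ n := by omega
  have hnr : (8:ℝ) ≤ n := by exact_mod_cast (by omega : 8 ≤ n)
  obtain ⟨hcop, f, hf, hfe⟩ := exists_Sph hc hP0 hQ0 h00.2 (n := n) (by omega) ha
  obtain ⟨h0, hinf⟩ := hf.basic hB (by omega) ha
  obtain ⟨hr1, hr2⟩ := hn₂ n hnn2 a f hf
  refine ⟨hcop, f, hf.cont, hfe, fun c hcc => ?_⟩
  induction c using OnePoint.rec with
  | infty => exact hinf
  | coe z =>
    by_cases hz : z = 0
    · rw [hz]; exact h0
    by_cases hq : Q.eval z = 0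
    · apply to_image
      rw [hf.pole z hq]; exact hinf
    by_cases hp : P.eval z = 0
    · apply to_image
      rw [hf.ev z hq]
      have : fam P Q n a z = 0 := by
        unfold fam; rw [hp, zero_div, mul_zero]
      rw [this]; exact h0
    have hFC : FC P Q n z := by
      refine ⟨hp, hq, ?_⟩
      by_contra hcon
      apply hcc
      obtain ⟨V, hV, hVi⟩ := injOn_of_deriv (fam_deriv (P := P) (Q := Q) hn1 (a := a) (z := z) hq)
        (div_ne_zero (mul_ne_zero (mul_ne_zero ha (pow_ne_zero _ hz)) hcon) (pow_ne_zero _ hq))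
      have hW : V ∩ {w | Q.eval w ≠ 0} ∈ 𝓝 z :=
        Filter.inter_mem hV (Q.continuous.continuousAt.eventually_ne hq)
      refine ⟨(↑) '' (V ∩ {w | Q.eval w ≠ 0}), ?_, ?_⟩
      · exact (OnePoint.isOpenEmbedding_coe (X := ℂ)).isOpenMap.image_mem_nhds hW
      · rintro _ ⟨w₁, hw₁, rfl⟩ _ ⟨w₂, hw₂, rfl⟩ he
        rw [hf.ev w₁ hw₁.2, hf.ev w₂ hw₂.2, OnePoint.coe_eq_coe] at he
        rw [hVi hw₁.1 hw₂.1 he]
    obtain ⟨⟨hc1, hc2⟩, hR1, hR2⟩ := hn₁ n hnn1 z hFC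
    apply to_image
    rw [hf.ev z hq]
    have hv : ‖fam P Q n a z‖ = ‖a‖ * ‖z‖ ^ n * ‖P.eval z / Q.eval z‖ := by
      unfold fam
      rw [norm_mul, norm_mul, norm_pow]
    have hzn1 : Real.exp (-(n * m)) ≤ ‖z‖ ^ n := by
      have := pow_le_pow_left₀ (Real.exp_pos _).le hc1 n
      rw [← Real.exp_nat_mul] at this
      rwa [mul_neg] at this
    have hzn2 : ‖z‖ ^ n ≤ Real.exp (n * m) := by
      have := pow_le_pow_left₀ (norm_nonneg _) hc2 n
      rwa [← Real.exp_nat_mul] at this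
    by_cases ha1 : ‖a‖ < Real.exp (-(2 * n * m))
    · apply hr1 (ha1.le.trans (by rw [Real.exp_le_exp]; nlinarith))
      rw [hv]
      have h5 : ‖a‖ * ‖z‖ ^ n * ‖P.eval z / Q.eval z‖ ≤
          Real.exp (-(2 * n * m)) * Real.exp (n * m) * Real.exp (n * m / 2) :=
        mul_le_mul (mul_le_mul ha1.le hzn2 (by positivity) (Real.exp_pos _).le) hR2
          (norm_nonneg _) (by positivity)
      refine h5.trans ?_
      rw [← Real.exp_add, ← Real.exp_add, Real.exp_le_exp]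
      nlinarith
    push Not at ha1
    by_cases ha2 : Real.exp (2 * n * m) < ‖a‖
    · apply hr2 ha1
      rw [hv]
      have h5 : Real.exp (2 * n * m) * Real.exp (-(n * m)) * Real.exp (-(n * m / 2)) ≤
          ‖a‖ * ‖z‖ ^ n * ‖P.eval z / Q.eval z‖ :=
        mul_le_mul (mul_le_mul ha2.le hzn1 (Real.exp_pos _).le (norm_nonneg _)) hR1
          (Real.exp_pos _).le (by positivity)
      refine le_trans ?_ h5
      rw [← Real.exp_add, ← Real.exp_add, Real.exp_le_exp]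
      nlinarith
    push Not at ha2
    have hN := hnon z hFC
    unfold Non at hN
    push Not at hN
    obtain ⟨j, hj⟩ := hN
    refine orb_to (M := 4 * m) hf hinf ?_ j _ ?_
    · intro w hw
      rcases hw with h | h
      · exact hr1 ha2 w h.le
      · exact hr2 ha1 w h.le
    · rintro ⟨h6, h7⟩
      exact absurd (hj h6) (not_lt.2 h7)

end Pool.Agent.Q79.MN
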