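import Mathlib
import Pool.Agent.Q79.MonF

/-!
# Logarithmic areas
-/

set_option autoImplicit false

open MeasureTheory Set Filter Topology Metric

namespace Pool.Agent.Q79.MN

open Pool.Agent.Q79.PW (Sim cover H G det_restrict)
open Pool.Agent.H762R2.Rt (wro)

variable {P Q : Polynomial ℂ}

/-- the measure `dA(w) / |w| ^ 2` -/
noncomputable def logArea : Measure ℂ :=
  (volume : Measure ℂ).withDensity (fun w => ENNReal.ofReal ((‖w‖ ^ 2)⁻¹))

theorem fam_meas (n : ℕ) : Measurable fun p : ℂ × ℂ => fam P Q n p.1 p.2 := by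
  unfold fam
  have hP : Measurable fun p : ℂ × ℂ => P.eval p.2 := P.continuous.measurable.comp measurable_snd
  have hQ : Measurable fun p : ℂ × ℂ => Q.eval p.2 := Q.continuous.measurable.comp measurable_snd
  exact (measurable_fst.mul (measurable_snd.pow_const n)).mul (hP.div hQ)

theorem iter_meas (n j : ℕ) : Measurable fun p : ℂ × ℂ => (fam P Q n p.1)^[j] p.2 := by
  induction j with
  | zero => exact measurable_snd
  | succ j ih =>
    have : (fun p : ℂ × ℂ => (fam P Q n p.1)^[j + 1] p.2) =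
        (fun p : ℂ × ℂ => fam P Q n p.1 p.2) ∘ fun p : ℂ × ℂ => (p.1, (fam P Q n p.1)^[j] p.2) := by
      funext p
      simp only [Function.comp_apply]
      rw [Function.iterate_succ_apply']
    rw [this]
    exact (fam_meas n).comp (measurable_fst.prodMk ih)

theorem Non_meas (n : ℕ) (M : ℝ) : MeasurableSet {p : ℂ × ℂ | Non (fam P Q n) M p.1 p.2} := by
  have : {p : ℂ × ℂ | Non (fam P Q n) M p.1 p.2} = ⋂ j : ℕ,
      ({p : ℂ × ℂ | Real.exp (-M) ≤ ‖(fam P Q n p.1)^[j] p.2‖} ∩
        {p : ℂ × ℂ | ‖(fam P Q n p.1)^[j] p.2‖ ≤ Real.exp M}) := by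
    ext p
    simp only [Non, mem_ofPred_eq, mem_iInter, mem_inter_iff]
  rw [this]
  refine MeasurableSet.iInter fun j => ?_
  exact (measurableSet_le measurable_const (iter_meas n j).norm).inter
    (measurableSet_le (iter_meas n j).norm measurable_const)

/-- the exponential chart -/
theorem logArea_image {κ : ℂ} (hκ : κ ≠ 0) {E : Set ℂ} (hE : MeasurableSet E)
    (hE2 : ∀ u ∈ E, -Real.pi < u.im ∧ u.im ≤ Real.pi) :
    logArea ((fun u : ℂ => Complex.exp u / κ) '' E) = volume E := by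
  set φ : ℂ → ℂ := fun u => Complex.exp u / κ with hφ
  have hder : ∀ u, HasDerivAt φ (φ u) u := fun u => (Complex.hasDerivAt_exp u).div_const κ
  have hinj : InjOn φ E := by
    intro u hu v hv h
    have h1 : Complex.exp u = Complex.exp v := by
      have := congrArg (· * κ) h
      simpa [hφ, div_mul_cancel₀ _ hκ] using this
    rw [← Complex.log_exp (hE2 u hu).1 (hE2 u hu).2, h1, Complex.log_exp (hE2 v hv).1 (hE2 v hv).2]
  unfold logArea
  rw [withDensity_apply' _ (φ '' E)]
  have h := lintegral_image_eq_lintegral_abs_det_fderiv_mul (f := φ) volume hE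
    (f' := fun x => (ContinuousLinearMap.toSpanSingleton ℂ (φ x)).restrictScalars ℝ)
    (fun x _ => ((hder x).hasFDerivAt.restrictScalars ℝ).hasFDerivWithinAt) hinj
    (fun w => ENNReal.ofReal ((‖w‖ ^ 2)⁻¹))
  rw [h]
  simp only [det_restrict]
  have h2 : ∀ u : ℂ, ENNReal.ofReal (‖φ u‖ ^ 2) * ENNReal.ofReal ((‖φ u‖ ^ 2)⁻¹) = 1 := by
    intro u
    have h3 : 0 < ‖φ u‖ := norm_pos_iff.2 (div_ne_zero (Complex.exp_ne_zero u) hκ)
    rw [← ENNReal.ofReal_mul (by positivity), mul_inv_cancel₀ (by positivity), ENNReal.ofReal_one]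
  simp only [h2]
  rw [setLIntegral_one]

/-- the parameters for which a critical value stays in the annulus -/
theorem param_area {n : ℕ} {M r₀ : ℝ} (hM : 0 ≤ M) (hr₀ : 0 < r₀) {κ : ℂ} (hκ : κ ≠ 0) :
    logArea {a : ℂ | Non (fam P Q n) M a (a * κ)} ≤
      ENNReal.ofReal ((4 * M / r₀ + 1) * (4 * Real.pi / r₀ + 1)) * Sup (fam P Q n) M r₀ := by
  set E : Set ℂ := {u : ℂ | (-Real.pi < u.im ∧ u.im ≤ Real.pi) ∧
    Non (fam P Q n) M (Complex.exp u / κ) (Complex.exp u)} with hE
  have hEm : MeasurableSet E := by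
    have h1 : MeasurableSet {u : ℂ | -Real.pi < u.im ∧ u.im ≤ Real.pi} :=
      (measurableSet_lt measurable_const Complex.measurable_im).inter
        (measurableSet_le Complex.measurable_im measurable_const)
    have h2 : Measurable fun u : ℂ => (Complex.exp u / κ, Complex.exp u) :=
      (Complex.measurable_exp.div_const κ).prodMk Complex.measurable_exp
    exact h1.inter (h2 (Non_meas (P := P) (Q := Q) n M))
  have hsub : {a : ℂ | Non (fam P Q n) M a (a * κ)} ⊆
      (fun u : ℂ => Complex.exp u / κ) '' E := by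
    intro a ha
    have h0 := (ha 0).1
    simp only [Function.iterate_zero, id] at h0
    have hne : a * κ ≠ 0 := by
      intro h
      rw [h, norm_zero] at h0
      exact absurd h0 (not_le.2 (Real.exp_pos _))
    have e : Complex.exp (Complex.log (a * κ)) / κ = a := by
      rw [Complex.exp_log hne, mul_div_cancel_right₀ _ hκ]
    refine ⟨Complex.log (a * κ), ⟨⟨?_, ?_⟩, ?_⟩, e⟩
    · rw [Complex.log_im]; exact Complex.neg_pi_lt_arg _
    · rw [Complex.log_im]; exact Complex.arg_le_pi _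
    · rw [e, Complex.exp_log hne]; exact ha
  have hre : ∀ u ∈ E, |u.re| ≤ M := by
    intro u hu
    have h0 := hu.2 0
    simp only [Function.iterate_zero, id] at h0
    rw [Complex.norm_exp, Real.exp_le_exp, Real.exp_le_exp] at h0
    exact abs_le.2 h0
  refine (measure_mono hsub).trans ?_
  rw [logArea_image hκ hEm fun u hu => hu.1]
  apply cover (x₀ := 0) (y₀ := 0) hr₀ hM Real.pi_pos.le
  · intro u hu
    rw [sub_zero, sub_zero]
    exact ⟨hre u hu, abs_le.2 ⟨hu.1.1.le, hu.1.2⟩⟩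
  · intro u _
    have hslow : Slow (fun t => t - Complex.log κ) u r₀ := by
      constructor
      · exact (differentiable_id.sub_const _).differentiableOn
      · intro t _
        have : deriv (fun t : ℂ => t - Complex.log κ) t = 1 := by simp
        rw [this, norm_one]
    refine le_trans (measure_mono ?_) (le_Sup hr₀ le_rfl hslow)
    rintro t ⟨ht, ht2⟩
    refine ⟨ht2, ?_⟩
    rw [Complex.exp_sub, Complex.exp_log hκ]
    exact ht.2

theorem vol_oball (s : ℂ) {ρ : ℝ} (h : 0 ≤ ρ) :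
    volume (ball s ρ) = ENNReal.ofReal (Real.pi * ρ ^ 2) := by
  rw [Complex.volume_ball, mul_comm Real.pi, ENNReal.ofReal_mul (by positivity),
    ENNReal.ofReal_pow h]
  congr 1
  rw [← NNReal.coe_real_pi, ENNReal.ofReal_coe_nnreal]

theorem logArea_ball {a : ℂ} (ha : a ≠ 0) {ρ : ℝ} (hρ : 0 < ρ) (hρ1 : ρ ≤ 1 / 2) :
    ENNReal.ofReal (ρ ^ 2) ≤ logArea (ball a (ρ * ‖a‖)) := by
  have hap := norm_pos_iff.2 ha
  unfold logArea
  rw [withDensity_apply _ measurableSet_ball]
  have h1 : ∫⁻ _ in ball a (ρ * ‖a‖), ENNReal.ofReal (4 / (9 * ‖a‖ ^ 2)) ≤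
      ∫⁻ w in ball a (ρ * ‖a‖), ENNReal.ofReal ((‖w‖ ^ 2)⁻¹) := by
    apply setLIntegral_mono' measurableSet_ball
    intro w hw
    apply ENNReal.ofReal_le_ofReal
    rw [mem_ball, dist_eq_norm] at hw
    have h2 : ‖w‖ ≤ 3 / 2 * ‖a‖ := by
      have := norm_sub_norm_le w a
      nlinarith
    have h3 : 1 / 2 * ‖a‖ ≤ ‖w‖ := by
      have := norm_sub_norm_le a w
      rw [norm_sub_rev] at this
      nlinarith
    have hw0 : 0 < ‖w‖ := by linarith
    rw [inv_eq_one_div, div_le_div_iff₀ (by positivity) (by positivity)]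
    nlinarith
  refine le_trans ?_ h1
  rw [setLIntegral_const, vol_oball a (by positivity)]
  have hpi := Real.pi_gt_three
  rw [← ENNReal.ofReal_mul (by positivity)]
  apply ENNReal.ofReal_le_ofReal
  have e2 : 4 / (9 * ‖a‖ ^ 2) * (Real.pi * (ρ * ‖a‖) ^ 2) = 4 * Real.pi / 9 * ρ ^ 2 := by
    field_simp
  rw [e2]
  nlinarith [sq_nonneg ρ]

theorem logArea_zero : logArea {(0:ℂ)} = 0 :=
  (withDensity_absolutelyContinuous _ _) (measure_singleton 0)

/-- the polynomial of the free critical points -/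
noncomputable def cr (P Q : Polynomial ℂ) (n : ℕ) : Polynomial ℂ :=
  Polynomial.C (n:ℂ) * (P * Q) + Polynomial.X * wro P Q

theorem FC.mem {n : ℕ} (hn : 1 ≤ n) (h0 : P.eval 0 ≠ 0 ∧ Q.eval 0 ≠ 0) {c : ℂ}
    (h : FC P Q n c) : c ∈ (cr P Q n).roots.toFinset := by
  have hn0 : (n:ℂ) ≠ 0 := by exact_mod_cast (by omega : n ≠ 0)
  have hne : cr P Q n ≠ 0 := by
    intro h1
    have := congrArg (Polynomial.eval 0) h1
    unfold cr at this
    simp only [Polynomial.eval_add, Polynomial.eval_mul, Polynomial.eval_C, Polynomial.eval_X,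
      zero_mul, add_zero, Polynomial.eval_zero] at this
    exact mul_ne_zero hn0 (mul_ne_zero h0.1 h0.2) this
  rw [Multiset.mem_toFinset, Polynomial.mem_roots hne, Polynomial.IsRoot.def]
  unfold cr
  simp only [Polynomial.eval_add, Polynomial.eval_mul, Polynomial.eval_C, Polynomial.eval_X]
  exact h.2.2

theorem cr_card (n : ℕ) :
    (cr P Q n).roots.toFinset.card ≤ P.natDegree + Q.natDegree + 1 := by
  refine (Multiset.toFinset_card_le _).trans ((Polynomial.card_roots' _).trans ?_)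
  unfold cr wro
  refine (Polynomial.natDegree_add_le _ _).trans (max_le ?_ ?_)
  · refine (Polynomial.natDegree_C_mul_le _ _).trans (Polynomial.natDegree_mul_le.trans (by omega))
  · refine Polynomial.natDegree_mul_le.trans ?_
    rw [Polynomial.natDegree_X]
    have h1 : (Polynomial.derivative P * Q - P * Polynomial.derivative Q).natDegree ≤
        P.natDegree + Q.natDegree := by
      refine (Polynomial.natDegree_sub_le _ _).trans (max_le ?_ ?_)
      · refine Polynomial.natDegree_mul_le.trans ?_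
        have := Polynomial.natDegree_derivative_le P
        omega
      · refine Polynomial.natDegree_mul_le.trans ?_
        have := Polynomial.natDegree_derivative_le Q
        omega
    omega

/-- **Upper bound and density.** -/
theorem upper (hc : IsCoprime P Q) (hP : P.eval 0 ≠ 0) (hQ : Q.eval 0 ≠ 0) :
    ∃ (C : ℝ) (n₀ : ℕ), 0 < C ∧ ∀ n : ℕ, n₀ ≤ n →
      logArea {a : ℂ | ¬ AllTo (Polynomial.C a * Polynomial.X ^ n * P) Q} ≤
        ENNReal.ofReal (C / (n:ℝ) ^ 4) ∧
      ∀ a : ℂ, a ≠ 0 → ∃ a' : ℂ, ‖a' - a‖ < C / (n:ℝ) ^ 2 * ‖a‖ ∧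
        AllTo (Polynomial.C a' * Polynomial.X ^ n * P) Q := by
  classical
  have hP0 : P ≠ 0 := by rintro rfl; simp at hP
  have hQ0 : Q ≠ 0 := by rintro rfl; simp at hQ
  obtain ⟨m, c₁, hB⟩ := exists_Bd hP hQ
  have hm := hB.m1
  obtain ⟨r₀, B, hr₀, hr₁, hB1, U⟩ := exists_MU hc hP0 hQ0 (4 * m)
  obtain ⟨C₁, n₁, hC₁, hS⟩ := Sup_le U hr₀ hr₁ hB1 (by linarith)
  obtain ⟨n₂, hn₂⟩ := dyn hc hB U hr₀
  have hpi := Real.pi_pos
  set A : ℝ := (4 * (4 * m) / r₀ + 1) * (4 * Real.pi / r₀ + 1) with hA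
  have hA0 : 0 < A := by positivity
  set N : ℕ := P.natDegree + Q.natDegree + 1 with hN
  have hN0 : (0:ℝ) < N := by rw [hN]; positivity
  set C₂ : ℝ := N * (A * C₁) with hC₂
  have hC₂0 : 0 < C₂ := by positivity
  have harea : ∀ n : ℕ, max 1 (max n₁ n₂) ≤ n →
      logArea {a : ℂ | ¬ AllTo (Polynomial.C a * Polynomial.X ^ n * P) Q} ≤
        ENNReal.ofReal (C₂ / (n:ℝ) ^ 4) := by
    intro n hn
    have hn1 : 1 ≤ n := (le_max_left _ _).trans hn
    have hnn1 : n₁ ≤ n := ((le_max_left _ _).trans (le_max_right _ _)).trans hn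
    have hnn2 : n₂ ≤ n := ((le_max_right _ _).trans (le_max_right _ _)).trans hn
    set F := (cr P Q n).roots.toFinset.filter (fun c => FC P Q n c) with hF
    have hsub : {a : ℂ | ¬ AllTo (Polynomial.C a * Polynomial.X ^ n * P) Q} ⊆
        {0} ∪ ⋃ c ∈ F, {a : ℂ | Non (fam P Q n) (4 * m) a (a * (c ^ n * (P.eval c / Q.eval c)))} := by
      intro a ha
      by_cases ha0 : a = 0
      · left; exact ha0
      right
      by_contra hcon
      apply ha
      apply hn₂ n hnn2 a ha0
      intro c hFC hNon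
      apply hcon
      simp only [mem_iUnion]
      refine ⟨c, ?_, ?_⟩
      · rw [hF, Finset.mem_filter]
        exact ⟨hFC.mem hn1 ⟨hP, hQ⟩, hFC⟩
      · have e : fam P Q n a c = a * (c ^ n * (P.eval c / Q.eval c)) := by
          unfold fam; ring
        rw [e] at hNon
        exact hNon
    have hone : ∀ c ∈ F, logArea {a : ℂ | Non (fam P Q n) (4 * m) a
        (a * (c ^ n * (P.eval c / Q.eval c)))} ≤ ENNReal.ofReal (A * (C₁ / (n:ℝ) ^ 4)) := by
      intro c hcF
      have hFC := (Finset.mem_filter.1 hcF).2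
      refine (param_area (by linarith) hr₀ (mul_ne_zero (pow_ne_zero _ (hFC.ne_zero hn1))
        (div_ne_zero hFC.1 hFC.2.1))).trans ?_
      rw [ENNReal.ofReal_mul hA0.le]
      exact mul_le_mul_right (hS n hnn1) _
    calc logArea {a : ℂ | ¬ AllTo (Polynomial.C a * Polynomial.X ^ n * P) Q} ≤
        logArea ({0} ∪ ⋃ c ∈ F, {a : ℂ | Non (fam P Q n) (4 * m) a
          (a * (c ^ n * (P.eval c / Q.eval c)))}) := measure_mono hsub
      _ ≤ logArea {0} + logArea (⋃ c ∈ F, {a : ℂ | Non (fam P Q n) (4 * m) a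
          (a * (c ^ n * (P.eval c / Q.eval c)))}) := measure_union_le _ _
      _ ≤ 0 + ∑ c ∈ F, ENNReal.ofReal (A * (C₁ / (n:ℝ) ^ 4)) := by
          rw [logArea_zero]
          exact add_le_add le_rfl ((measure_biUnion_finset_le _ _).trans (Finset.sum_le_sum hone))
      _ = (F.card : ENNReal) * ENNReal.ofReal (A * (C₁ / (n:ℝ) ^ 4)) := by
          rw [zero_add, Finset.sum_const, nsmul_eq_mul]
      _ ≤ ENNReal.ofReal N * ENNReal.ofReal (A * (C₁ / (n:ℝ) ^ 4)) := by
          apply mul_le_mul_left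
          rw [ENNReal.ofReal_natCast]
          exact_mod_cast (Finset.card_filter_le _ _).trans (cr_card n)
      _ = ENNReal.ofReal (C₂ / (n:ℝ) ^ 4) := by
          rw [← ENNReal.ofReal_mul hN0.le]
          congr 1
          rw [hC₂]; ring
  obtain ⟨n₃, hn₃⟩ := exists_nat_ge (2 * (C₂ + 1))
  refine ⟨C₂ + 1, max (max 1 (max n₁ n₂)) n₃, by linarith, fun n hn => ?_⟩
  have hna := harea n ((le_max_left _ _).trans hn)
  have hn1 : 1 ≤ n := ((le_max_left _ _).trans (le_max_left _ _)).trans hn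
  have hn0 : (0:ℝ) < n := by exact_mod_cast hn1
  have hnr : (1:ℝ) ≤ n := by exact_mod_cast hn1
  have hn3 : 2 * (C₂ + 1) ≤ n := hn₃.trans (by exact_mod_cast (le_max_right _ _).trans hn)
  refine ⟨hna.trans (ENNReal.ofReal_le_ofReal (div_le_div_of_nonneg_right (by linarith)
    (by positivity))), fun a ha => ?_⟩
  by_contra hcon
  push Not at hcon
  set ρ : ℝ := (C₂ + 1) / (n:ℝ) ^ 2 with hρ
  have hρ0 : 0 < ρ := by positivity
  have hρ1 : ρ ≤ 1 / 2 := by
    rw [hρ, div_le_div_iff₀ (by positivity) (by norm_num)]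
    nlinarith
  have h1 : ball a (ρ * ‖a‖) ⊆ {a : ℂ | ¬ AllTo (Polynomial.C a * Polynomial.X ^ n * P) Q} := by
    intro a' ha'
    rw [mem_ball, dist_eq_norm] at ha'
    exact hcon a' ha'
  have h2 := (logArea_ball ha hρ0 hρ1).trans ((measure_mono h1).trans hna)
  rw [ENNReal.ofReal_le_ofReal_iff (by positivity), hρ, div_pow, ← pow_mul,
    div_le_div_iff_of_pos_right (by positivity)] at h2
  nlinarith

end Pool.Agent.Q79.MN
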