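import Mathlib
import Pool.Agent.Q79.MonG
import Pool.Agent.Helper405.ConvA

/-!
# The lower bound
-/

set_option autoImplicit false

open MeasureTheory Set Filter Topology Metric
open scoped OnePoint

namespace Pool.Agent.Q79.MN

open Pool.Agent.Q79.PW (Sim cover H G H_hasDerivAt exp_shift periodic_G)
open Pool.Agent.H762R2.Rt (wro)

variable {P Q : Polynomial ℂ}

/-- a local logarithm of `z ^ n R(z)` -/
theorem exists_log {n : ℕ} {t₀ : ℂ} {ρ : ℝ} (hρ : 0 < ρ)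
    (hnz : ∀ t ∈ ball t₀ ρ, P.eval (Complex.exp t) ≠ 0 ∧ Q.eval (Complex.exp t) ≠ 0) :
    ∃ Λ : ℂ → ℂ, Λ t₀ = 0 ∧ (∀ t ∈ ball t₀ ρ, HasDerivAt Λ (n + G P Q t) t) ∧
      ∀ t ∈ ball t₀ ρ, ∀ a : ℂ, fam P Q n a (Complex.exp t) =
        fam P Q n a (Complex.exp t₀) * Complex.exp (Λ t) := by
  have hGd : DifferentiableOn ℂ (G P Q) (ball t₀ ρ) := fun t ht =>
    (G_diff (hnz t ht).1 (hnz t ht).2).differentiableWithinAt
  obtain ⟨L, hL⟩ := hGd.isExactOn_ball
  have ht₀ρ : t₀ ∈ ball t₀ ρ := mem_ball_self hρ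
  set Λ : ℂ → ℂ := fun t => (n:ℂ) * (t - t₀) + (L t - L t₀) with hΛ
  have hΛd : ∀ t ∈ ball t₀ ρ, HasDerivAt Λ (n + G P Q t) t := by
    intro t ht
    have h1 := (((hasDerivAt_id t).sub_const t₀).const_mul (n:ℂ)).add
      ((hL t ht).sub_const (L t₀))
    refine h1.congr_deriv ?_
    ring
  refine ⟨Λ, by simp [hΛ], hΛd, ?_⟩
  intro t ht a
  set u : ℂ → ℂ := fun t => Complex.exp t ^ n * H P Q t * Complex.exp (-Λ t) with hu
  have hud : ∀ t ∈ ball t₀ ρ, HasDerivAt u 0 t := by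
    intro t ht
    have h1 := H_hasDerivAt (hnz t ht).1 (hnz t ht).2
    have h2 := ((hΛd t ht).neg).cexp
    have h3 : HasDerivAt (fun t => Complex.exp t ^ n) (n * Complex.exp t ^ n) t := by
      have h4 := (Complex.hasDerivAt_exp t).pow n
      refine h4.congr_deriv ?_
      rcases Nat.eq_zero_or_pos n with hn | hn
      · rw [hn]; simp
      · obtain ⟨k, rfl⟩ : ∃ k, n = k + 1 := ⟨n - 1, by omega⟩
        rw [Nat.add_sub_cancel, pow_succ]; ring
    refine ((h3.mul h1).mul h2).congr_deriv ?_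
    simp only [Pi.mul_apply, Pi.neg_apply]
    ring
  have hconst : u t = u t₀ := by
    have hc := (convex_ball t₀ ρ).norm_image_sub_le_of_norm_hasDerivWithin_le (C := 0)
      (f := u) (f' := fun _ => 0) (fun y hy => (hud y hy).hasDerivWithinAt)
      (fun y _ => by simp) ht₀ρ ht
    rw [zero_mul] at hc
    exact sub_eq_zero.1 (norm_le_zero_iff.1 hc)
  have h0 : Λ t₀ = 0 := by simp [hΛ]
  have hconst' : Complex.exp t ^ n * H P Q t * Complex.exp (-Λ t) =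
      Complex.exp t₀ ^ n * H P Q t₀ := by
    have := hconst
    simp only [hu, h0, neg_zero, Complex.exp_zero, mul_one] at this
    exact this
  have h5 : Complex.exp t ^ n * H P Q t = Complex.exp t₀ ^ n * H P Q t₀ * Complex.exp (Λ t) := by
    rw [← hconst', mul_assoc, ← Complex.exp_add]
    simp
  have e : ∀ t, fam P Q n a (Complex.exp t) = a * (Complex.exp t ^ n * H P Q t) := by
    intro t
    unfold fam H
    ring
  rw [e, e, h5]
  ring

/-- existence of a free critical point near a zero or pole -/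
theorem exists_crit {σ μ : ℂ} {r : ℝ} (hr : 0 < r) (hN : Near P Q σ μ r) :
    ∃ n₀ : ℕ, ∀ n : ℕ, n₀ ≤ n → ∃ t ∈ closedBall σ (r / 2), G P Q t = -n := by
  have hμ := hN.μ1
  have hμ0 : μ ≠ 0 := by
    intro h; rw [h, norm_zero] at hμ; linarith
  have happ : ApproximatesLinearOn (fun t => μ * (G P Q t)⁻¹) (ContinuousLinearMap.id ℂ ℂ)
      (ball σ r) (1 / 4 : NNReal) := by
    intro x hx y hy
    have h1 := hN.q x hx y hy
    simp only [ContinuousLinearMap.coe_id', id_eq]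
    rw [← mul_sub]
    have e : (((1 / 4 : NNReal) : NNReal) : ℝ) = 1 / 4 := by norm_num
    rw [e]
    linarith
  set inv : (ContinuousLinearMap.id ℂ ℂ).NonlinearRightInverse :=
    { toFun := id, nnnorm := 1, bound' := fun y => by simp, right_inv' := fun y => rfl } with hinv
  have hsurj := happ.surjOn_closedBall_of_nonlinearRightInverse inv (ε := r / 2) (b := σ)
    (by positivity) (closedBall_subset_ball (by linarith))
  simp only [hinv, hN.G_center, mul_zero] at hsurj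
  obtain ⟨n₀, hn₀⟩ := exists_nat_ge (‖μ‖ / (3 / 8 * r))
  refine ⟨max 1 n₀, fun n hn => ?_⟩
  have hn1 : 1 ≤ n := (le_max_left _ _).trans hn
  have hn0 : (0:ℝ) < n := by exact_mod_cast hn1
  have hnc : (n:ℂ) ≠ 0 := by exact_mod_cast (by omega : n ≠ 0)
  have h2 : ‖μ‖ / (3 / 8 * r) ≤ n := hn₀.trans (by exact_mod_cast (le_max_right _ _).trans hn)
  have hmem : -(μ / n) ∈ closedBall (0:ℂ) (((((1:NNReal) : NNReal) : ℝ)⁻¹ -
      ((1 / 4 : NNReal) : ℝ)) * (r / 2)) := by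
    rw [mem_closedBall_zero_iff, norm_neg, norm_div, Complex.norm_natCast]
    have e : ((((1:NNReal) : NNReal) : ℝ)⁻¹ - ((1 / 4 : NNReal) : ℝ)) * (r / 2) = 3 / 8 * r := by
      norm_num
      ring
    rw [e, div_le_iff₀ hn0]
    rw [div_le_iff₀ (by positivity)] at h2
    linarith
  obtain ⟨t, ht, hte⟩ := hsurj hmem
  refine ⟨t, ht, ?_⟩
  have h3 : (G P Q t)⁻¹ = -(1 / (n:ℂ)) := by
    have : μ * (G P Q t)⁻¹ = μ * (-(1 / (n:ℂ))) := by
      have h4 : μ * (G P Q t)⁻¹ = -(μ / n) := hte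
      rw [h4]; ring
    exact mul_left_cancel₀ hμ0 this
  rw [← inv_inv (G P Q t), h3, inv_neg, one_div, inv_inv]

/-- the orbit of the critical point stays near it -/
theorem stays {σ μ : ℂ} {r : ℝ} (hN : Near P Q σ μ r) {n : ℕ} (hn : 1 ≤ n)
    (hnr : 1 ≤ r * n) {τ : ℂ} (hτ : τ ∈ closedBall σ (r / 2)) (hG : G P Q τ = -n) {a a₀ : ℂ}
    (ha₀ : fam P Q n a₀ (Complex.exp τ) = Complex.exp τ) (ha : a₀ ≠ 0)
    (haa : ‖a - a₀‖ < 1 / 20 / (n:ℝ) ^ 2 * ‖a₀‖) :
    (∀ t ∈ ball τ (1 / 5 / (n:ℝ) ^ 2), P.eval (Complex.exp t) ≠ 0 ∧ Q.eval (Complex.exp t) ≠ 0) ∧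
    ∀ k : ℕ, ∃ t ∈ ball τ (1 / 5 / (n:ℝ) ^ 2), (fam P Q n a)^[k] (Complex.exp τ) =
      Complex.exp t := by
  have hn0 : (0:ℝ) < n := by exact_mod_cast hn
  have hn1 : (1:ℝ) ≤ n := by exact_mod_cast hn
  have hμ := hN.μ1
  have hμ0 : 0 < ‖μ‖ := by linarith
  set ρ : ℝ := 1 / 5 / (n:ℝ) ^ 2 with hρ
  have hρ0 : 0 < ρ := by positivity
  have hρn : n * ρ ≤ 1 / 5 / n := by
    rw [hρ]
    apply le_of_eq
    field_simp
  have hρn2 : ρ ≤ 1 / 5 / n := by
    have : ρ ≤ n * ρ := by nlinarith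
    linarith
  have hρr : ρ ≤ r / 5 := by
    refine hρn2.trans ?_
    rw [div_le_iff₀ hn0]
    linarith
  rw [mem_closedBall, dist_eq_norm] at hτ
  have hτb : τ ∈ ball σ r := by rw [mem_ball, dist_eq_norm]; linarith
  have hmem : ∀ t ∈ ball τ ρ, t ∈ ball σ r := by
    intro t ht
    rw [mem_ball, dist_eq_norm] at *
    calc ‖t - σ‖ = ‖(t - τ) + (τ - σ)‖ := by congr 1; ring
      _ ≤ _ := norm_add_le _ _
      _ < r := by linarith
  have hqτ : (G P Q τ)⁻¹ = -(1 / (n:ℂ)) := by rw [hG, inv_neg, one_div]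
  have hqτn : ‖(G P Q τ)⁻¹‖ = 1 / n := by rw [hqτ, norm_neg, inv_n]
  have hdq : ∀ t ∈ ball τ ρ, ‖(G P Q t)⁻¹ - (G P Q τ)⁻¹‖ ≤ 5 / 4 * ‖t - τ‖ := by
    intro t ht
    have h1 := hN.upper (hmem t ht) hτb
    nlinarith [norm_nonneg ((G P Q t)⁻¹ - (G P Q τ)⁻¹)]
  have hq : ∀ t ∈ ball τ ρ, 1 / (2 * n) ≤ ‖(G P Q t)⁻¹‖ := by
    intro t ht
    have h1 := hdq t ht
    rw [mem_ball, dist_eq_norm] at ht
    have h2 : ‖(G P Q τ)⁻¹‖ ≤ ‖(G P Q t)⁻¹‖ + ‖(G P Q t)⁻¹ - (G P Q τ)⁻¹‖ := by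
      calc ‖(G P Q τ)⁻¹‖ = ‖(G P Q t)⁻¹ - ((G P Q t)⁻¹ - (G P Q τ)⁻¹)‖ := by congr 1; ring
        _ ≤ _ := norm_sub_le _ _
    rw [hqτn] at h2
    have h3 : 5 / 4 * ‖t - τ‖ ≤ 1 / 4 * (1 / n) := by
      have : (1:ℝ) / 5 / n = 1 / 5 * (1 / n) := by ring
      linarith
    have h4 : 1 / (2 * (n:ℝ)) = 1 / 2 * (1 / n) := by field_simp
    have h5 : 0 < 1 / (n:ℝ) := by positivity
    rw [h4]; linarith
  have hG0 : ∀ t ∈ ball τ ρ, G P Q t ≠ 0 := by
    intro t ht h0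
    have := hq t ht
    rw [h0, inv_zero, norm_zero] at this
    have h4 : 0 < 1 / (2 * (n:ℝ)) := by positivity
    linarith
  have hnz : ∀ t ∈ ball τ ρ, P.eval (Complex.exp t) ≠ 0 ∧ Q.eval (Complex.exp t) ≠ 0 := by
    intro t ht
    refine hN.nz t (hmem t ht) ?_
    intro h0
    have h3 := hN.G_center
    rw [← h0, inv_eq_zero] at h3
    exact hG0 t ht h3
  have hD : ∀ t ∈ ball τ ρ, ‖(n:ℂ) + G P Q t‖ ≤ 1 / 2 := by
    intro t ht
    have h0 := hG0 t ht
    have h1 := hdq t ht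
    have h2 := hq t ht
    have hnc : (n:ℂ) ≠ 0 := by exact_mod_cast (by omega : n ≠ 0)
    have e : (n:ℂ) + G P Q t = n * ((G P Q t)⁻¹ - (G P Q τ)⁻¹) / (G P Q t)⁻¹ := by
      rw [hqτ]
      field_simp
      ring
    have hqp : 0 < ‖(G P Q t)⁻¹‖ := norm_pos_iff.2 (inv_ne_zero h0)
    rw [e, norm_div, norm_mul, Complex.norm_natCast, div_le_iff₀ hqp]
    rw [mem_ball, dist_eq_norm] at ht
    have h3 : n * ‖(G P Q t)⁻¹ - (G P Q τ)⁻¹‖ ≤ n * (5 / 4 * ρ) :=
      mul_le_mul_of_nonneg_left (h1.trans (by linarith)) hn0.le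
    have h4 : (n:ℝ) * (5 / 4 * ρ) ≤ 1 / 2 * (1 / (2 * n)) := by
      have e4 : (n:ℝ) * (5 / 4 * ρ) = 1 / 2 * (1 / (2 * n)) := by
        rw [hρ]; field_simp; norm_num
      exact e4.le
    have h5 : 1 / 2 * (1 / (2 * (n:ℝ))) ≤ 1 / 2 * ‖(G P Q t)⁻¹‖ := by linarith
    linarith
  obtain ⟨Λ, hΛ0, hΛd, hΛe⟩ := exists_log (P := P) (Q := Q) (n := n) hρ0 hnz
  have hΛn : ∀ t ∈ ball τ ρ, ‖Λ t‖ ≤ 1 / 2 * ‖t - τ‖ := by
    intro t ht
    have hc := (convex_ball τ ρ).norm_image_sub_le_of_norm_hasDerivWithin_le (C := 1 / 2)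
      (f := Λ) (fun y hy => (hΛd y hy).hasDerivWithinAt) hD (mem_ball_self hρ0) ht
    rwa [hΛ0, sub_zero] at hc
  -- the parameter
  set w : ℂ := a / a₀ - 1 with hw
  have hap := norm_pos_iff.2 ha
  have hwn : ‖w‖ < 1 / 20 / (n:ℝ) ^ 2 := by
    have e : w = (a - a₀) / a₀ := by rw [hw]; field_simp
    rw [e, norm_div, div_lt_iff₀ hap]
    exact haa
  have hw2 : ‖w‖ ≤ 1 / 2 := by
    have : 1 / 20 / (n:ℝ) ^ 2 ≤ 1 / 2 := by
      rw [div_le_iff₀ (by positivity)]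
      nlinarith
    linarith
  have hlog := Complex.norm_log_one_add_half_le_self hw2
  have h1w : (1:ℂ) + w ≠ 0 := by
    intro h0
    have : w = -1 := by linear_combination h0
    rw [this, norm_neg, norm_one] at hw2
    norm_num at hw2
  have haw : a = a₀ * (1 + w) := by rw [hw]; field_simp; ring
  have hlogρ : ‖Complex.log (1 + w)‖ < ρ / 2 := by
    have e : ρ / 2 = 3 / 2 * (1 / 15 / (n:ℝ) ^ 2) := by rw [hρ]; ring
    rw [e]
    have h3 : (1:ℝ) / 20 / (n:ℝ) ^ 2 ≤ 1 / 15 / (n:ℝ) ^ 2 :=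
      div_le_div_of_nonneg_right (by norm_num) (by positivity)
    linarith
  refine ⟨hnz, fun k => ?_⟩
  induction k with
  | zero => exact ⟨τ, mem_ball_self hρ0, rfl⟩
  | succ k ih =>
    obtain ⟨t, ht, hte⟩ := ih
    rw [Function.iterate_succ_apply', hte]
    refine ⟨τ + (Complex.log (1 + w) + Λ t), ?_, ?_⟩
    · rw [mem_ball, dist_eq_norm]
      have e : τ + (Complex.log (1 + w) + Λ t) - τ = Complex.log (1 + w) + Λ t := by ring
      rw [e]
      have h1 := hΛn t ht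
      rw [mem_ball, dist_eq_norm] at ht
      refine (norm_add_le _ _).trans_lt ?_
      linarith
    · rw [hΛe t ht a, Complex.exp_add, Complex.exp_add, Complex.exp_log h1w, haw]
      have e : fam P Q n (a₀ * (1 + w)) (Complex.exp τ) =
          (1 + w) * fam P Q n a₀ (Complex.exp τ) := by
        unfold fam; ring
      rw [e, ha₀]
      ring

/-- **Lower bound.** -/
theorem lower (hc : IsCoprime P Q) (hP : P.eval 0 ≠ 0) (hQ : Q.eval 0 ≠ 0)
    (hd : 0 < P.natDegree + Q.natDegree) :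
    ∃ n₀ : ℕ, ∀ n : ℕ, n₀ ≤ n → ENNReal.ofReal (1 / 400 / (n:ℝ) ^ 4) ≤
      logArea {a : ℂ | ¬ AllTo (Polynomial.C a * Polynomial.X ^ n * P) Q} := by
  have hP0 : P ≠ 0 := by rintro rfl; simp at hP
  have hQ0 : Q ≠ 0 := by rintro rfl; simp at hQ
  have hdPQ : (P * Q).degree ≠ 0 := by
    intro h0
    have h1 : (P * Q).natDegree = 0 := Polynomial.natDegree_eq_of_degree_eq_some (by rw [h0]; rfl)
    rw [Polynomial.natDegree_mul hP0 hQ0] at h1
    omega
  obtain ⟨y, hy⟩ := IsAlgClosed.exists_root (P * Q) hdPQ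
  rw [Polynomial.IsRoot.def, Polynomial.eval_mul] at hy
  have hy0 : y ≠ 0 := by
    rintro rfl
    exact mul_ne_zero hP hQ hy
  obtain ⟨μ, r, hr, hN⟩ := exists_near hc hP0 hQ0 (σ := Complex.log y)
    (by rw [Complex.exp_log hy0]; exact hy)
  obtain ⟨n₁, hn₁⟩ := exists_crit hr hN
  obtain ⟨n₂, hn₂⟩ := exists_nat_ge (1 / r)
  refine ⟨max 2 (max n₁ n₂), fun n hn => ?_⟩
  have hn2 : 2 ≤ n := (le_max_left _ _).trans hn
  have hnn1 : n₁ ≤ n := ((le_max_left _ _).trans (le_max_right _ _)).trans hn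
  have hnn2 : n₂ ≤ n := ((le_max_right _ _).trans (le_max_right _ _)).trans hn
  have hn1 : 1 ≤ n := by omega
  have hn0 : (0:ℝ) < n := by exact_mod_cast hn1
  have hn1r : (2:ℝ) ≤ n := by exact_mod_cast hn2
  have hnc : (n:ℂ) ≠ 0 := by exact_mod_cast (by omega : n ≠ 0)
  have hnr : 1 ≤ r * n := by
    have : 1 / r ≤ n := hn₂.trans (by exact_mod_cast hnn2)
    rw [div_le_iff₀ hr] at this
    linarith
  obtain ⟨τ, hτ, hG⟩ := hn₁ n hnn1
  have hτb : τ ∈ ball (Complex.log y) r := closedBall_subset_ball (by linarith) hτ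
  have hτσ : τ ≠ Complex.log y := by
    intro h
    have h3 := hN.G_center
    rw [← h, hG, inv_eq_zero, neg_eq_zero] at h3
    exact hnc h3
  obtain ⟨hPc, hQc⟩ := hN.nz τ hτb hτσ
  set c := Complex.exp τ with hcd
  have hc0 : c ≠ 0 := Complex.exp_ne_zero τ
  set κ : ℂ := c ^ n * (P.eval c / Q.eval c) with hκ
  have hκ0 : κ ≠ 0 := mul_ne_zero (pow_ne_zero _ hc0) (div_ne_zero hPc hQc)
  set a₀ : ℂ := c / κ with ha₀
  have ha₀0 : a₀ ≠ 0 := div_ne_zero hc0 hκ0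
  have hfix : fam P Q n a₀ c = c := by
    have e : fam P Q n a₀ c = a₀ * κ := by unfold fam; rw [hκ]; ring
    rw [e, ha₀, div_mul_cancel₀ _ hκ0]
  have hcrit : n * (P.eval c * Q.eval c) + c * (wro P Q).eval c = 0 := by
    have h1 : G P Q τ = c * (wro P Q).eval c / (P.eval c * Q.eval c) := rfl
    rw [hG, eq_div_iff (mul_ne_zero hPc hQc)] at h1
    linear_combination -h1
  have hsub : ball a₀ (1 / 20 / (n:ℝ) ^ 2 * ‖a₀‖) ⊆
      {a : ℂ | ¬ AllTo (Polynomial.C a * Polynomial.X ^ n * P) Q} := by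
    intro a ha hall
    rw [mem_ball, dist_eq_norm] at ha
    obtain ⟨hnz, hst⟩ := stays hN hn1 hnr hτ hG hfix ha₀0 ha
    obtain ⟨-, f, hfc, hfe, hcr⟩ := hall
    have hfe' : ∀ z : ℂ, Q.eval z ≠ 0 →
        f (z : OnePoint ℂ) = ((fam P Q n a z : ℂ) : OnePoint ℂ) := by
      intro z hz
      rw [hfe z hz]
      congr 1
      unfold fam
      rw [Polynomial.eval_mul, Polynomial.eval_mul, Polynomial.eval_C, Polynomial.eval_pow,
        Polynomial.eval_X, mul_div_assoc]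
    have hiter : ∀ k : ℕ, f^[k] (c : OnePoint ℂ) =
        (((fam P Q n a)^[k] c : ℂ) : OnePoint ℂ) := by
      intro k
      induction k with
      | zero => rfl
      | succ k ih =>
        rw [Function.iterate_succ_apply', Function.iterate_succ_apply', ih]
        apply hfe'
        obtain ⟨t, ht, hte⟩ := hst k
        rw [hte]
        exact (hnz t ht).2
    -- the critical point is critical
    have hci : ¬ ∃ U ∈ 𝓝 (c : OnePoint ℂ), Set.InjOn f U := by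
      rintro ⟨U, hU, hUi⟩
      have hV : (fun z : ℂ => (z : OnePoint ℂ)) ⁻¹' U ∩ {w | Q.eval w ≠ 0} ∈ 𝓝 c :=
        Filter.inter_mem ((OnePoint.continuous_coe (X := ℂ)).continuousAt.preimage_mem_nhds hU)
          (Q.continuous.continuousAt.eventually_ne hQc)
      obtain ⟨W, hW1, hW2, hW3⟩ := _root_.mem_nhds_iff.1 hV
      have hd : DifferentiableOn ℂ (fam P Q n a) W := fun w hw =>
        (fam_deriv hn1 (hW1 hw).2).hasDerivAt.differentiableAt.differentiableWithinAt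
      have hi : InjOn (fam P Q n a) W := by
        intro w₁ hw₁ w₂ hw₂ he
        have h1 : f (w₁ : OnePoint ℂ) = f (w₂ : OnePoint ℂ) := by
          rw [hfe' w₁ (hW1 hw₁).2, hfe' w₂ (hW1 hw₂).2, he]
        exact OnePoint.coe_injective (hUi (hW1 hw₁).1 (hW1 hw₂).1 h1)
      have h2 := Pool.Agent.Helper405.Conv.deriv_ne_zero_of_injOn hW2 hd hi hW3
      rw [(fam_deriv hn1 hQc).hasDerivAt.deriv, hcrit, mul_zero, zero_div] at h2
      exact h2 rfl
    obtain ⟨z, hz, -, -, ht⟩ := hcr c hci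
    simp only [hiter] at ht
    -- bounds for the orbit
    have hρ : 1 / 5 / (n:ℝ) ^ 2 ≤ 1 := by
      rw [div_le_iff₀ (by positivity)]
      nlinarith
    have hbd : ∀ k : ℕ, ‖c‖ * Real.exp (-1) ≤ ‖(fam P Q n a)^[k] c‖ ∧
        ‖(fam P Q n a)^[k] c‖ ≤ ‖c‖ * Real.exp 1 := by
      intro k
      obtain ⟨t, ht, hte⟩ := hst k
      rw [mem_ball, dist_eq_norm] at ht
      rw [hte, hcd, Complex.norm_exp, Complex.norm_exp, ← Real.exp_add, ← Real.exp_add,
        Real.exp_le_exp, Real.exp_le_exp]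
      have h1 := Complex.abs_re_le_norm (t - τ)
      rw [Complex.sub_re, abs_le] at h1
      constructor <;> linarith [h1.1, h1.2]
    have hcp := norm_pos_iff.2 hc0
    rcases hz with hz | hz
    · rw [hz] at ht
      have h1 : Tendsto (fun k : ℕ => (fam P Q n a)^[k] c) atTop (𝓝 0) :=
        ((OnePoint.isOpenEmbedding_coe (X := ℂ)).isInducing.tendsto_nhds_iff).2 ht
      have h2 := h1.norm
      rw [norm_zero] at h2
      have h3 := ge_of_tendsto' h2 fun k => (hbd k).1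
      have := Real.exp_pos (-1)
      nlinarith
    · rw [hz] at ht
      have hU : ((↑) '' closedBall (0 : ℂ) (‖c‖ * Real.exp 1) : Set (OnePoint ℂ))ᶜ ∈
          𝓝 (∞ : OnePoint ℂ) := by
        refine IsOpen.mem_nhds ?_ ?_
        · rw [OnePoint.isOpen_compl_image_coe]
          exact ⟨isClosed_closedBall, isCompact_closedBall 0 _⟩
        · rintro ⟨w, -, hw⟩
          exact OnePoint.coe_ne_infty w hw
      obtain ⟨k, hk⟩ := (ht.eventually hU).exists
      exact hk ⟨_, by rw [mem_closedBall_zero_iff]; exact (hbd k).2, rfl⟩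
  refine le_trans ?_ (measure_mono hsub)
  refine le_trans ?_ (logArea_ball ha₀0 (ρ := 1 / 20 / (n:ℝ) ^ 2) (by positivity) ?_)
  · apply ENNReal.ofReal_le_ofReal
    apply le_of_eq
    field_simp
    norm_num
  · rw [div_le_iff₀ (by positivity)]
    nlinarith

end Pool.Agent.Q79.MN
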