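import Mathlib

/-!
# The rescaled polynomials

With `c = n / (n + m)` the critical point of `a z ^ n (1 - z) ^ m` and `γ = 2 m / (n (n + m))`, the
map is conjugate by `z = c (1 - γ X)` to `X ↦ F C X`, which tends to `X ^ 2 + C`.
-/

set_option autoImplicit false

open Set Filter Topology Metric

namespace Pool.Agent.Q79.CM

/-- the scale -/
noncomputable def gam (m n : ℕ) : ℝ := 2 * m / (n * (n + m))

/-- the rescaled polynomial -/
noncomputable def F (m n : ℕ) (C X : ℂ) : ℂ :=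
  (1 - (1 - gam m n * C) * ((1 - gam m n * X) ^ n * (1 + 2 / (n + m) * X) ^ m)) / gam m n

/-- the quadratic polynomial -/
def Qd (C X : ℂ) : ℂ := X ^ 2 + C

theorem gam_pos {m n : ℕ} (hm : 1 ≤ m) (hn : 1 ≤ n) : 0 < gam m n := by
  unfold gam
  have h1 : (0:ℝ) < m := by exact_mod_cast hm
  have h2 : (0:ℝ) < n := by exact_mod_cast hn
  positivity

theorem n_gam {m n : ℕ} (hn : 1 ≤ n) : (n:ℝ) * gam m n = 2 * m / (n + m) := by
  unfold gam
  have h2 : (0:ℝ) < n := by exact_mod_cast hn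
  have h3 : (0:ℝ) ≤ m := Nat.cast_nonneg m
  field_simp

theorem F_zero {m n : ℕ} (hm : 1 ≤ m) (hn : 1 ≤ n) (C : ℂ) : F m n C 0 = C := by
  unfold F
  have hg : (gam m n : ℂ) ≠ 0 := by exact_mod_cast (gam_pos hm hn).ne'
  rw [mul_zero, mul_zero, sub_zero, add_zero, one_pow, one_pow]
  field_simp
  ring

theorem F_deriv {m n : ℕ} (hm : 1 ≤ m) (hn : 1 ≤ n) (C X : ℂ) :
    HasDerivAt (F m n C) (2 * X * ((1 - gam m n * C) *
      ((1 - gam m n * X) ^ (n - 1) * (1 + 2 / (n + m) * X) ^ (m - 1)))) X := by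
  obtain ⟨n', rfl⟩ : ∃ k, n = k + 1 := ⟨n - 1, by omega⟩
  obtain ⟨m', rfl⟩ : ∃ k, m = k + 1 := ⟨m - 1, by omega⟩
  have hg : (gam (m' + 1) (n' + 1) : ℂ) ≠ 0 := by exact_mod_cast (gam_pos hm hn).ne'
  set γ : ℂ := (gam (m' + 1) (n' + 1) : ℂ) with hγ
  have hnm : (((n' + 1 : ℕ) : ℂ) + ((m' + 1 : ℕ) : ℂ)) ≠ 0 := by
    exact_mod_cast (by omega : n' + 1 + (m' + 1) ≠ 0)
  have hn0 : ((n' + 1 : ℕ) : ℂ) ≠ 0 := by exact_mod_cast (by omega : n' + 1 ≠ 0)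
  have hγe : γ = 2 * ((m' + 1 : ℕ) : ℂ) / (((n' + 1 : ℕ) : ℂ) *
      (((n' + 1 : ℕ) : ℂ) + ((m' + 1 : ℕ) : ℂ))) := by
    rw [hγ]
    unfold gam
    push_cast
    ring
  have h1 : HasDerivAt (fun X : ℂ => (1 - γ * X) ^ (n' + 1))
      (((n' + 1 : ℕ) : ℂ) * (1 - γ * X) ^ n' * -γ) X := by
    have h := (((hasDerivAt_id X).const_mul γ).const_sub 1).pow (n' + 1)
    refine h.congr_deriv ?_
    simp only [id, Nat.add_sub_cancel, mul_one]
  have h2 : HasDerivAt (fun X : ℂ => (1 + 2 / (((n' + 1 : ℕ) : ℂ) + ((m' + 1 : ℕ) : ℂ)) * X) ^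
      (m' + 1)) (((m' + 1 : ℕ) : ℂ) *
        (1 + 2 / (((n' + 1 : ℕ) : ℂ) + ((m' + 1 : ℕ) : ℂ)) * X) ^ m' *
        (2 / (((n' + 1 : ℕ) : ℂ) + ((m' + 1 : ℕ) : ℂ)))) X := by
    have h := (((hasDerivAt_id X).const_mul
      (2 / (((n' + 1 : ℕ) : ℂ) + ((m' + 1 : ℕ) : ℂ)))).const_add 1).pow (m' + 1)
    refine h.congr_deriv ?_
    simp only [id, Nat.add_sub_cancel, mul_one]
  have h3 := (((h1.mul h2).const_mul (1 - γ * C)).const_sub 1).div_const γ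
  have h4 : HasDerivAt (F (m' + 1) (n' + 1) C) _ X := h3
  refine h4.congr_deriv ?_
  simp only [Nat.add_sub_cancel]
  rw [div_eq_iff hg]
  set A := (1 - γ * X) ^ n' with hA
  set B := (1 + 2 / (((n' + 1 : ℕ) : ℂ) + ((m' + 1 : ℕ) : ℂ)) * X) ^ m' with hB
  rw [pow_succ (1 - γ * X) n', pow_succ (1 + 2 / (((n' + 1 : ℕ) : ℂ) + ((m' + 1 : ℕ) : ℂ)) * X) m',
    ← hA, ← hB]
  have key : -(((n' + 1 : ℕ) : ℂ) * -γ * (1 + 2 / (((n' + 1 : ℕ) : ℂ) + ((m' + 1 : ℕ) : ℂ)) * X) +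
      (1 - γ * X) * (((m' + 1 : ℕ) : ℂ) * (2 / (((n' + 1 : ℕ) : ℂ) + ((m' + 1 : ℕ) : ℂ))))) =
      2 * X * γ := by
    rw [hγe]
    field_simp
    ring
  linear_combination (1 - γ * C) * A * B * key

theorem diff_F {m n : ℕ} (C : ℂ) : Differentiable ℂ (F m n C) := by
  unfold F; fun_prop

theorem diff_F' {m n : ℕ} {f : ℂ → ℂ} (hf : Differentiable ℂ f) :
    Differentiable ℂ (fun C => F m n C (f C)) := by
  unfold F; fun_prop

theorem pow_sub_one_le (y : ℂ) (k : ℕ) : ‖(1 + y) ^ k - 1‖ ≤ Real.exp (k * ‖y‖) - 1 := by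
  have h := Finset.norm_prod_one_add_sub_one_le (Finset.range k) (fun _ => y)
  rw [Finset.prod_const, Finset.sum_const, Finset.card_range, nsmul_eq_mul] at h
  exact h

theorem mul_sub_one_le {u v : ℂ} {a b : ℝ} (hu : ‖u - 1‖ ≤ Real.exp a - 1)
    (hv : ‖v - 1‖ ≤ Real.exp b - 1) : ‖u * v - 1‖ ≤ Real.exp (a + b) - 1 := by
  have e : u * v - 1 = (u - 1) * (v - 1) + (u - 1) + (v - 1) := by ring
  rw [e, Real.exp_add]
  have h1 : ‖(u - 1) * (v - 1) + (u - 1) + (v - 1)‖ ≤ ‖u - 1‖ * ‖v - 1‖ + ‖u - 1‖ + ‖v - 1‖ := by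
    refine (norm_add_le _ _).trans ?_
    refine add_le_add ((norm_add_le _ _).trans ?_) le_rfl
    rw [norm_mul]
  have h2 := norm_nonneg (u - 1)
  have h3 := norm_nonneg (v - 1)
  nlinarith

/-- the multiplicative error -/
theorem factor_le {m n : ℕ} (hm : 1 ≤ m) (hn : 1 ≤ n) {C X : ℂ} {R : ℝ} (hC : ‖C‖ ≤ R)
    (hX : ‖X‖ ≤ R) :
    ‖(1 - gam m n * C) * ((1 - gam m n * X) ^ (n - 1) * (1 + 2 / (n + m) * X) ^ (m - 1)) - 1‖ ≤
      Real.exp (4 * m * R / n) - 1 := by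
  have hg := gam_pos hm hn
  have hR : 0 ≤ R := (norm_nonneg _).trans hC
  have hn0 : (0:ℝ) < n := by exact_mod_cast hn
  have hm0 : (0:ℝ) < m := by exact_mod_cast hm
  have h1 : ‖(1 - (gam m n : ℂ) * C) - 1‖ ≤ Real.exp (gam m n * R) - 1 := by
    have e : (1 - (gam m n : ℂ) * C) - 1 = -(gam m n * C) := by ring
    rw [e, norm_neg, norm_mul, Complex.norm_real, Real.norm_of_nonneg hg.le]
    have := Real.add_one_le_exp (gam m n * R)
    have h2 : gam m n * ‖C‖ ≤ gam m n * R := mul_le_mul_of_nonneg_left hC hg.le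
    linarith
  have h2 : ‖(1 - (gam m n : ℂ) * X) ^ (n - 1) - 1‖ ≤
      Real.exp (((n - 1 : ℕ) : ℝ) * (gam m n * R)) - 1 := by
    have h := pow_sub_one_le (-(gam m n * X)) (n - 1)
    rw [← sub_eq_add_neg, norm_neg, norm_mul, Complex.norm_real, Real.norm_of_nonneg hg.le] at h
    refine h.trans (sub_le_sub_right (Real.exp_le_exp.2 ?_) 1)
    exact mul_le_mul_of_nonneg_left (mul_le_mul_of_nonneg_left hX hg.le) (Nat.cast_nonneg _)
  have h3 : ‖(1 + 2 / ((n:ℂ) + m) * X) ^ (m - 1) - 1‖ ≤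
      Real.exp (((m - 1 : ℕ) : ℝ) * (2 / (n + m) * R)) - 1 := by
    have h := pow_sub_one_le (2 / ((n:ℂ) + m) * X) (m - 1)
    have e : ‖2 / ((n:ℂ) + m) * X‖ = 2 / (n + m) * ‖X‖ := by
      rw [norm_mul, norm_div]
      congr 2
      · simp
      · have : ((n:ℂ) + m) = (((n:ℝ) + m : ℝ) : ℂ) := by push_cast; ring
        rw [this, Complex.norm_real, Real.norm_of_nonneg (by positivity)]
    rw [e] at h
    refine h.trans (sub_le_sub_right (Real.exp_le_exp.2 ?_) 1)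
    exact mul_le_mul_of_nonneg_left (mul_le_mul_of_nonneg_left hX (by positivity))
      (Nat.cast_nonneg _)
  refine (mul_sub_one_le h1 (mul_sub_one_le h2 h3)).trans
    (sub_le_sub_right (Real.exp_le_exp.2 ?_) 1)
  have h4 : ((n - 1 : ℕ) : ℝ) = n - 1 := by
    rw [Nat.cast_sub hn, Nat.cast_one]
  have h5 : ((m - 1 : ℕ) : ℝ) = m - 1 := by
    rw [Nat.cast_sub hm, Nat.cast_one]
  rw [h4, h5]
  have h6 := n_gam (m := m) hn
  have h7 : gam m n * R + ((n - 1) * (gam m n * R) + (m - 1) * (2 / (n + m) * R)) =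
      (n * gam m n) * R + (m - 1) * (2 / (n + m)) * R := by ring
  rw [h7, h6]
  have h8 : (m - 1 : ℝ) * (2 / (n + m)) ≤ 2 * m / (n + m) := by
    rw [mul_div_assoc', div_le_div_iff_of_pos_right (by positivity)]
    linarith
  have h9 : (2:ℝ) * m / (n + m) ≤ 2 * m / n := by
    apply div_le_div_of_nonneg_left (by positivity) hn0
    linarith
  calc 2 * (m:ℝ) / (n + m) * R + (m - 1) * (2 / (n + m)) * R ≤
        2 * m / (n + m) * R + 2 * m / (n + m) * R :=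
          add_le_add le_rfl (mul_le_mul_of_nonneg_right h8 hR)
    _ ≤ 2 * m / n * R + 2 * m / n * R :=
        add_le_add (mul_le_mul_of_nonneg_right h9 hR) (mul_le_mul_of_nonneg_right h9 hR)
    _ = 4 * m * R / n := by ring

/-- the distance to the quadratic polynomial -/
theorem F_sub_le {m n : ℕ} (hm : 1 ≤ m) (hn : 1 ≤ n) {C X : ℂ} {R : ℝ} (hC : ‖C‖ ≤ R)
    (hX : ‖X‖ ≤ R) : ‖F m n C X - Qd C X‖ ≤ 2 * R * (Real.exp (4 * m * R / n) - 1) * R := by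
  have hR : 0 ≤ R := (norm_nonneg _).trans hC
  have h := (convex_closedBall (0:ℂ) R).norm_image_sub_le_of_norm_hasDerivWithin_le
    (C := 2 * R * (Real.exp (4 * m * R / n) - 1))
    (f := fun X => F m n C X - Qd C X)
    (f' := fun X => 2 * X * ((1 - gam m n * C) *
      ((1 - gam m n * X) ^ (n - 1) * (1 + 2 / (n + m) * X) ^ (m - 1)) - 1))
    (fun y hy => ?_) (fun y hy => ?_) (mem_closedBall_self hR)
    (show X ∈ closedBall (0:ℂ) R by rwa [mem_closedBall_zero_iff])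
  · have e : F m n C X - Qd C X - (F m n C 0 - Qd C 0) = F m n C X - Qd C X := by
      rw [F_zero hm hn]; unfold Qd; ring
    simp only [sub_zero] at h
    rw [e] at h
    refine h.trans (mul_le_mul_of_nonneg_left hX ?_)
    have : 0 ≤ Real.exp (4 * m * R / n) - 1 := (norm_nonneg _).trans (factor_le hm hn hC hX)
    positivity
  · have h1 := F_deriv hm hn C y
    have h2 : HasDerivAt (Qd C) (2 * y) y := by
      unfold Qd
      have := ((hasDerivAt_id y).pow 2).add_const C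
      refine this.congr_deriv ?_
      simp
    refine ((h1.sub h2).congr_deriv ?_).hasDerivWithinAt
    ring
  · rw [mem_closedBall_zero_iff] at hy
    rw [norm_mul, norm_mul]
    have h1 := factor_le hm hn hC hy
    have h2 : ‖(2:ℂ)‖ = 2 := by simp
    rw [h2]
    exact mul_le_mul (mul_le_mul_of_nonneg_left hy (by norm_num)) h1 (norm_nonneg _) (by positivity)

theorem tendsto_F {m : ℕ} (hm : 1 ≤ m) (C X : ℂ) :
    Tendsto (fun p : (ℕ × ℂ) × ℂ => F m p.1.1 p.1.2 p.2) ((atTop ×ˢ 𝓝 C) ×ˢ 𝓝 X)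
      (𝓝 (Qd C X)) := by
  have h1 : Tendsto (fun p : (ℕ × ℂ) × ℂ => p.1.2) ((atTop ×ˢ 𝓝 C) ×ˢ 𝓝 X) (𝓝 C) :=
    tendsto_snd.comp tendsto_fst
  have h2 : Tendsto (fun p : (ℕ × ℂ) × ℂ => p.2) ((atTop ×ˢ 𝓝 C) ×ˢ 𝓝 X) (𝓝 X) := tendsto_snd
  have h0 : Tendsto (fun p : (ℕ × ℂ) × ℂ => p.1.1) ((atTop ×ˢ 𝓝 C) ×ˢ 𝓝 X) atTop :=
    tendsto_fst.comp tendsto_fst
  set R : ℝ := ‖C‖ + ‖X‖ + 1 with hR
  have hQ : Tendsto (fun p : (ℕ × ℂ) × ℂ => Qd p.1.2 p.2) ((atTop ×ˢ 𝓝 C) ×ˢ 𝓝 X)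
      (𝓝 (Qd C X)) := (h2.pow 2).add h1
  have hE : Tendsto (fun p : (ℕ × ℂ) × ℂ => 2 * R * (Real.exp (4 * m * R / p.1.1) - 1) * R)
      ((atTop ×ˢ 𝓝 C) ×ˢ 𝓝 X) (𝓝 0) := by
    have h3 : Tendsto (fun n : ℕ => 4 * m * R / (n:ℝ)) atTop (𝓝 0) :=
      tendsto_const_div_atTop_nhds_zero_nat _
    have h4 := (((Real.continuous_exp.tendsto 0).comp h3).sub_const 1).const_mul (2 * R)
    have h5 := h4.mul_const R
    simp only [Real.exp_zero, sub_self, mul_zero, zero_mul] at h5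
    exact h5.comp h0
  have hD : Tendsto (fun p : (ℕ × ℂ) × ℂ => F m p.1.1 p.1.2 p.2 - Qd p.1.2 p.2)
      ((atTop ×ˢ 𝓝 C) ×ˢ 𝓝 X) (𝓝 0) := by
    refine squeeze_zero_norm' ?_ hE
    have e1 : ∀ᶠ p : (ℕ × ℂ) × ℂ in ((atTop ×ˢ 𝓝 C) ×ˢ 𝓝 X), ‖p.1.2‖ < R :=
      h1.norm.eventually_lt_const (by rw [hR]; have := norm_nonneg X; linarith)
    have e2 : ∀ᶠ p : (ℕ × ℂ) × ℂ in ((atTop ×ˢ 𝓝 C) ×ˢ 𝓝 X), ‖p.2‖ < R :=
      h2.norm.eventually_lt_const (by rw [hR]; have := norm_nonneg C; linarith)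
    filter_upwards [e1, e2, h0.eventually_ge_atTop 1] with p h3 h4 h5
    exact F_sub_le hm h5 h3.le h4.le
  have := hD.add hQ
  rw [zero_add] at this
  refine this.congr fun p => ?_
  ring

theorem tendsto_iter {m : ℕ} (hm : 1 ≤ m) (C X : ℂ) (k : ℕ) :
    Tendsto (fun p : (ℕ × ℂ) × ℂ => (F m p.1.1 p.1.2)^[k] p.2) ((atTop ×ˢ 𝓝 C) ×ˢ 𝓝 X)
      (𝓝 ((Qd C)^[k] X)) := by
  induction k with
  | zero => exact tendsto_snd
  | succ k ih =>
    have h1 : Tendsto (fun p : (ℕ × ℂ) × ℂ => (p.1, (F m p.1.1 p.1.2)^[k] p.2))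
        ((atTop ×ˢ 𝓝 C) ×ˢ 𝓝 X) ((atTop ×ˢ 𝓝 C) ×ˢ 𝓝 ((Qd C)^[k] X)) :=
      tendsto_fst.prodMk ih
    have h2 := (tendsto_F hm C ((Qd C)^[k] X)).comp h1
    simp only [Function.iterate_succ_apply']
    exact h2

/-- **persistence of attraction** under continuous convergence of entire functions -/
theorem persist {ι : Type*} {l : Filter ι} {F : ι → ℂ → ℂ} {g : ℂ → ℂ}
    (hF : ∀ p, Differentiable ℂ (F p)) (hg : Differentiable ℂ g)
    (hcc : ∀ k w, Tendsto (fun y : ι × ℂ => (F y.1)^[k] y.2) (l ×ˢ 𝓝 w) (𝓝 (g^[k] w)))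
    {m : ℕ} {x₀ z : ℂ} (hper : g^[m] x₀ = x₀) (hlt : ‖deriv (g^[m]) x₀‖ < 1)
    (hz : Tendsto (fun k : ℕ => g^[m * k] z) atTop (𝓝 x₀)) :
    ∀ᶠ p in l, ∃ x : ℂ, ‖x - x₀‖ ≤ 1 ∧ (F p)^[m] x = x ∧ ‖deriv ((F p)^[m]) x‖ < 1 ∧
      Tendsto (fun k : ℕ => (F p)^[m * k] z) atTop (𝓝 x) := by
  set f : ℂ → ℂ := g^[m] with hf
  have hfd : Differentiable ℂ f := hg.iterate m
  obtain ⟨θ, hθ1, hθ2⟩ := exists_between hlt
  have hθ0 : 0 ≤ θ := (norm_nonneg _).trans hθ1.le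
  have hdc : Continuous (deriv f) := hfd.contDiff.continuous_deriv le_top
  have hnear : ∀ᶠ w in 𝓝 x₀, ‖deriv f w‖ < θ := hdc.norm.continuousAt.eventually_lt_const hθ1
  obtain ⟨ρ₁, hρ₁, hb₁⟩ := Metric.mem_nhds_iff.1 hnear
  set ρ := min (ρ₁ / 2) 1 with hρ
  have hρ0 : 0 < ρ := lt_min (by linarith) one_pos
  have hρρ : ρ < ρ₁ := (min_le_left _ _).trans_lt (by linarith)
  -- locally uniform convergence
  have hlu : TendstoLocallyUniformlyOn (fun p => (F p)^[m]) f l univ := by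
    rw [tendstoLocallyUniformlyOn_univ, tendstoLocallyUniformly_iff_forall_tendsto]
    intro w
    have h1 : Tendsto (fun y : ι × ℂ => f y.2) (l ×ˢ 𝓝 w) (𝓝 (f w)) :=
      (hfd.continuous.tendsto w).comp tendsto_snd
    have h2 := h1.prodMk_nhds (hcc m w)
    exact h2.mono_right (nhds_le_uniformity (f w))
  have hlud := hlu.deriv (Eventually.of_forall fun p => ((hF p).iterate m).differentiableOn)
    isOpen_univ
  obtain ⟨θ', hθ'1, hθ'2⟩ := exists_between hθ2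
  have hK : IsCompact (closedBall x₀ ρ) := isCompact_closedBall _ _
  have hu := (tendstoLocallyUniformlyOn_iff_forall_isCompact isOpen_univ).1 hlu _
    (subset_univ _) hK
  have hud := (tendstoLocallyUniformlyOn_iff_forall_isCompact isOpen_univ).1 hlud _
    (subset_univ _) hK
  rw [Metric.tendstoUniformlyOn_iff] at hu hud
  -- the orbit enters the disc
  obtain ⟨k₀, hk₀⟩ := (hz.eventually (ball_mem_nhds x₀ hρ0)).exists
  have hin : ∀ᶠ p in l, (F p)^[m * k₀] z ∈ ball x₀ ρ := by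
    have h1 : Tendsto (fun p : ι => (p, z)) l (l ×ˢ 𝓝 z) :=
      tendsto_id.prodMk tendsto_const_nhds
    have h2 := (hcc (m * k₀) z).comp h1
    exact h2.eventually (isOpen_ball.mem_nhds hk₀)
  filter_upwards [hu ((1 - θ') * ρ) (by nlinarith), hud (θ' - θ) (by linarith), hin]
    with p h1 h2 h3
  set fp : ℂ → ℂ := (F p)^[m] with hfp
  have hfpd : Differentiable ℂ fp := (hF p).iterate m
  have hder : ∀ w ∈ closedBall x₀ ρ, ‖deriv fp w‖ ≤ θ' := by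
    intro w hw
    have h4 : ‖deriv f w - deriv fp w‖ < θ' - θ := by
      have := h2 w hw
      rwa [dist_eq_norm] at this
    have h5 : ‖deriv f w‖ < θ := hb₁ (closedBall_subset_ball hρρ hw)
    calc ‖deriv fp w‖ = ‖deriv f w - (deriv f w - deriv fp w)‖ := by congr 1; ring
      _ ≤ ‖deriv f w‖ + ‖deriv f w - deriv fp w‖ := norm_sub_le _ _
      _ ≤ θ' := by linarith
  have hlip : ∀ w ∈ closedBall x₀ ρ, ∀ w' ∈ closedBall x₀ ρ, ‖fp w - fp w'‖ ≤ θ' * ‖w - w'‖ := by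
    intro w hw w' hw'
    exact (convex_closedBall x₀ ρ).norm_image_sub_le_of_norm_deriv_le
      (fun y _ => hfpd.differentiableAt) hder hw' hw
  have hx₀m : x₀ ∈ closedBall x₀ ρ := mem_closedBall_self hρ0.le
  have hmaps : MapsTo fp (closedBall x₀ ρ) (closedBall x₀ ρ) := by
    intro w hw
    have h4 := h1 x₀ hx₀m
    rw [dist_eq_norm, hper] at h4
    have h5 := hlip w hw x₀ hx₀m
    rw [mem_closedBall, dist_eq_norm] at *
    calc ‖fp w - x₀‖ = ‖(fp w - fp x₀) - (x₀ - fp x₀)‖ := by congr 1; ring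
      _ ≤ ‖fp w - fp x₀‖ + ‖x₀ - fp x₀‖ := norm_sub_le _ _
      _ ≤ θ' * ρ + (1 - θ') * ρ :=
        add_le_add (h5.trans (mul_le_mul_of_nonneg_left hw (by linarith))) h4.le
      _ = ρ := by ring
  have hθ'0 : 0 ≤ θ' := by linarith
  have hcw : ContractingWith ⟨θ', hθ'0⟩ (hmaps.restrict fp _ _) := by
    refine ⟨by exact_mod_cast hθ'2, LipschitzWith.of_dist_le_mul ?_⟩
    rintro ⟨w, hw⟩ ⟨w', hw'⟩
    rw [Subtype.dist_eq, Subtype.dist_eq, dist_eq_norm, dist_eq_norm]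
    exact hlip w hw w' hw'
  obtain ⟨x, hx, hxf, hxl, -⟩ := hcw.exists_fixedPoint' isClosed_closedBall.isComplete hmaps
    (ball_subset_closedBall h3) (edist_ne_top _ _)
  have hx' : x ∈ closedBall x₀ ρ := hx
  refine ⟨x, ?_, hxf, (hder x hx').trans_lt hθ'2, ?_⟩
  · rw [mem_closedBall, dist_eq_norm] at hx'
    exact hx'.trans (min_le_right _ _)
  · rw [← tendsto_add_atTop_iff_nat k₀]
    refine hxl.congr fun k => ?_
    rw [hfp, ← Function.iterate_mul, ← Function.iterate_add_apply, ← mul_add]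

end Pool.Agent.Q79.CM
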