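import Mathlib
import Pool.Agent.Q79.CmpA
import Pool.Agent.Q79.CmpB

/-!
# The family `a z ^ n (1 - z) ^ m`: the dynamics in the plane
-/

set_option autoImplicit false

open MeasureTheory Set Filter Topology Metric
open scoped OnePoint

namespace Pool.Agent.Q79.CM

open Pool.Agent.Q79.MN
open Pool.Agent.Q79.PW (G)
open Pool.Agent.H762R2.Rt (wro)

/-- the orbit escapes -/
def Esc (f : ℂ → ℂ) (z : ℂ) : Prop := Tendsto (fun k : ℕ => ‖f^[k] z‖) atTop atTop

/-- the orbit is attracted by a sink -/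
def Att (f : ℂ → ℂ) (z : ℂ) : Prop :=
  ∃ n : ℕ, 0 < n ∧ ∃ x : ℂ, f^[n] x = x ∧ ‖deriv (f^[n]) x‖ < 1 ∧
    Tendsto (fun k : ℕ => f^[n * k] z) atTop (𝓝 x)

/-- the factor `(1 - z) ^ m` -/
noncomputable def PP (m : ℕ) : Polynomial ℂ := (1 - Polynomial.X) ^ m

/-- the family -/
def T (m n : ℕ) (a : ℂ) (z : ℂ) : ℂ := a * z ^ n * (1 - z) ^ m

theorem PP_eval (m : ℕ) (z : ℂ) : (PP m).eval z = (1 - z) ^ m := by
  unfold PP; simp

theorem fam_eq (m n : ℕ) : fam (PP m) 1 n = T m n := by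
  funext a z
  unfold fam T
  rw [PP_eval, Polynomial.eval_one, div_one]

theorem PP_zero (m : ℕ) : (PP m).eval 0 ≠ 0 := by rw [PP_eval]; simp

theorem one_zero : (1 : Polynomial ℂ).eval 0 ≠ 0 := by simp

theorem PP_ne (m : ℕ) : PP m ≠ 0 := by
  intro h
  have := PP_zero m
  rw [h] at this
  simp at this

theorem PP_coprime (m : ℕ) : IsCoprime (PP m) (1 : Polynomial ℂ) := isCoprime_one_right

/-- the real number `n / (n + m)` -/
noncomputable def cc (m n : ℕ) : ℝ := n / (n + m)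

/-- the critical value is `a * kap` -/
noncomputable def kap (m n : ℕ) : ℝ := cc m n ^ n * (1 - cc m n) ^ m

/-- the centre parameter -/
noncomputable def a0 (m n : ℕ) : ℝ := cc m n / kap m n

theorem cc_pos {m n : ℕ} (hn : 1 ≤ n) : 0 < cc m n := by
  unfold cc
  have h2 : (0:ℝ) < n := by exact_mod_cast hn
  positivity

theorem cc_lt {m n : ℕ} (hm : 1 ≤ m) (hn : 1 ≤ n) : cc m n < 1 := by
  unfold cc
  have h1 : (0:ℝ) < m := by exact_mod_cast hm
  have h2 : (0:ℝ) < n := by exact_mod_cast hn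
  rw [div_lt_one (by positivity)]
  linarith

theorem one_sub_cc {m n : ℕ} (hn : 1 ≤ n) : 1 - cc m n = m / (n + m) := by
  unfold cc
  have h2 : (0:ℝ) < n := by exact_mod_cast hn
  have h3 : (n:ℝ) + m ≠ 0 := by positivity
  field_simp
  ring

theorem kap_pos {m n : ℕ} (hm : 1 ≤ m) (hn : 1 ≤ n) : 0 < kap m n := by
  unfold kap
  have h1 := cc_pos (m := m) hn
  have h2 := cc_lt hm hn
  have h3 : 0 < 1 - cc m n := by linarith
  positivity

theorem a0_pos {m n : ℕ} (hm : 1 ≤ m) (hn : 1 ≤ n) : 0 < a0 m n :=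
  div_pos (cc_pos hn) (kap_pos hm hn)

/-- the affine coordinate -/
noncomputable def ze (m n : ℕ) (X : ℂ) : ℂ := cc m n * (1 - gam m n * X)

/-- the parameter -/
noncomputable def aC (m n : ℕ) (C : ℂ) : ℂ := a0 m n * (1 - gam m n * C)

theorem T_crit {m n : ℕ} (a : ℂ) : T m n a (cc m n) = a * kap m n := by
  unfold T kap; push_cast; ring

theorem ze_zero (m n : ℕ) : ze m n 0 = cc m n := by unfold ze; simp

/-- the conjugacy -/
theorem conj {m n : ℕ} (hm : 1 ≤ m) (hn : 1 ≤ n) (C X : ℂ) :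
    T m n (aC m n C) (ze m n X) = ze m n (F m n C X) := by
  have hg : (gam m n : ℂ) ≠ 0 := by exact_mod_cast (gam_pos hm hn).ne'
  have hk : (kap m n : ℂ) ≠ 0 := by exact_mod_cast (kap_pos hm hn).ne'
  have e1 : (1 - ze m n X) = ((1 - cc m n : ℝ) : ℂ) * (1 + 2 / (n + m) * X) := by
    have h1 : (0:ℝ) < m := by exact_mod_cast hm
    have h2 : (0:ℝ) < n := by exact_mod_cast hn
    have h3 : cc m n * gam m n = (1 - cc m n) * (2 / (n + m)) := by
      rw [one_sub_cc hn]
      unfold cc gam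
      field_simp
    have h4 : (cc m n : ℂ) * gam m n = ((1 - cc m n : ℝ) : ℂ) * (2 / (n + m)) := by
      have := congrArg (fun x : ℝ => (x : ℂ)) h3
      push_cast at this ⊢
      exact this
    unfold ze
    have h5 : ((1 - cc m n : ℝ) : ℂ) = 1 - cc m n := by push_cast; ring
    linear_combination X * h4 - h5
  have e2 : ze m n (F m n C X) = cc m n * ((1 - gam m n * C) * ((1 - gam m n * X) ^ n *
      (1 + 2 / (n + m) * X) ^ m)) := by
    unfold ze F
    field_simp
    ring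
  have e3 : (kap m n : ℂ) = (cc m n : ℂ) ^ n * ((1 - cc m n : ℝ) : ℂ) ^ m := by
    unfold kap; push_cast; ring
  have e4 : aC m n C * kap m n = cc m n * (1 - gam m n * C) := by
    unfold aC a0
    push_cast
    field_simp
  rw [e2]
  unfold T
  rw [e1, mul_pow]
  unfold ze
  rw [mul_pow]
  have e5 : aC m n C * ((cc m n : ℂ) ^ n * (1 - gam m n * X) ^ n) *
      (((1 - cc m n : ℝ) : ℂ) ^ m * (1 + 2 / (n + m) * X) ^ m) =
      (aC m n C * kap m n) * ((1 - gam m n * X) ^ n * (1 + 2 / (n + m) * X) ^ m) := by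
    rw [e3]; ring
  rw [e5, e4]
  ring

theorem conj_iter {m n : ℕ} (hm : 1 ≤ m) (hn : 1 ≤ n) (C X : ℂ) (k : ℕ) :
    (T m n (aC m n C))^[k] (ze m n X) = ze m n ((F m n C)^[k] X) := by
  induction k with
  | zero => rfl
  | succ k ih => rw [Function.iterate_succ_apply', Function.iterate_succ_apply', ih, conj hm hn]

theorem ze_deriv (m n : ℕ) (X : ℂ) : HasDerivAt (ze m n) (-(cc m n * gam m n)) X := by
  unfold ze
  have h := (((hasDerivAt_id X).const_mul (gam m n : ℂ)).const_sub 1).const_mul (cc m n : ℂ)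
  refine h.congr_deriv ?_
  ring

theorem diff_T (m n : ℕ) (a : ℂ) : Differentiable ℂ (T m n a) := by
  unfold T; fun_prop

/-- attraction is preserved by the conjugacy; the limit is `ze x` -/
theorem att_conj {m n : ℕ} (hm : 1 ≤ m) (hn : 1 ≤ n) {C X x : ℂ} {k : ℕ}
    (h1 : (F m n C)^[k] x = x) (h2 : ‖deriv ((F m n C)^[k]) x‖ < 1)
    (h3 : Tendsto (fun j : ℕ => (F m n C)^[k * j] X) atTop (𝓝 x)) :
    (T m n (aC m n C))^[k] (ze m n x) = ze m n x ∧
    ‖deriv ((T m n (aC m n C))^[k]) (ze m n x)‖ < 1 ∧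
    Tendsto (fun j : ℕ => (T m n (aC m n C))^[k * j] (ze m n X)) atTop (𝓝 (ze m n x)) := by
  refine ⟨by rw [conj_iter hm hn, h1], ?_, ?_⟩
  · have hne : (-(cc m n * gam m n) : ℂ) ≠ 0 := by
      have h4 := cc_pos (m := m) hn
      have h5 := gam_pos hm hn
      rw [neg_ne_zero]
      exact_mod_cast (mul_pos h4 h5).ne'
    have hd1 : HasDerivAt (fun X => (T m n (aC m n C))^[k] (ze m n X))
        (deriv ((T m n (aC m n C))^[k]) (ze m n x) * (-(cc m n * gam m n))) x :=
      (((diff_T m n _).iterate k).differentiableAt.hasDerivAt).comp x (ze_deriv m n x)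
    have hd2 : HasDerivAt (fun X => ze m n ((F m n C)^[k] X))
        (-(cc m n * gam m n) * deriv ((F m n C)^[k]) x) x :=
      (ze_deriv m n _).comp x (((diff_F C).iterate k).differentiableAt.hasDerivAt)
    have e : (fun X => (T m n (aC m n C))^[k] (ze m n X)) =
        fun X => ze m n ((F m n C)^[k] X) := funext fun X => conj_iter hm hn C X k
    rw [e] at hd1
    have h6 := hd1.unique hd2
    rw [mul_comm] at h6
    have h7 := mul_left_cancel₀ hne h6
    rw [h7]; exact h2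
  · have h4 : Continuous (ze m n) := by unfold ze; fun_prop
    refine ((h4.tendsto x).comp h3).congr fun j => ?_
    rw [Function.comp_apply, conj_iter hm hn]

/-! ### the free critical point -/

theorem wro_PP (m : ℕ) (z : ℂ) :
    (wro (PP m) 1).eval z = -(m * (1 - z) ^ (m - 1)) := by
  unfold wro PP
  simp only [Polynomial.derivative_one, mul_zero, sub_zero, mul_one]
  rw [Polynomial.derivative_pow]
  simp

theorem FC_cc {m n : ℕ} (hm : 1 ≤ m) (hn : 1 ≤ n) : FC (PP m) 1 n (cc m n) := by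
  have hlt := cc_lt hm hn
  have h1 : (1 - (cc m n : ℂ)) ≠ 0 := by
    have : (1 - cc m n) ≠ 0 := by linarith
    exact_mod_cast this
  refine ⟨?_, by simp, ?_⟩
  · rw [PP_eval]; exact pow_ne_zero _ h1
  · rw [PP_eval, wro_PP m, Polynomial.eval_one]
    obtain ⟨m', rfl⟩ : ∃ k, m = k + 1 := ⟨m - 1, by omega⟩
    rw [Nat.add_sub_cancel, pow_succ]
    have h2 : (n:ℂ) * (1 - (cc (m' + 1) n : ℂ)) = cc (m' + 1) n * ((m' + 1 : ℕ) : ℂ) := by
      have h3 : (n:ℝ) * (1 - cc (m' + 1) n) = cc (m' + 1) n * ((m' + 1 : ℕ) : ℝ) := by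
        rw [one_sub_cc hn]
        unfold cc
        ring
      exact_mod_cast congrArg (fun x : ℝ => (x : ℂ)) h3
    linear_combination (1 - (cc (m' + 1) n : ℂ)) ^ m' * h2

/-- the critical points of the family -/
theorem crit_points {m n : ℕ} (hm : 1 ≤ m) (hn : 1 ≤ n) {a z : ℂ} (ha : a ≠ 0)
    (h : deriv (T m n a) z = 0) : z = 0 ∨ T m n a z = 0 ∨ z = cc m n := by
  have h1 : deriv (T m n a) z = a * z ^ (n - 1) * (1 - z) ^ (m - 1) * (n * (1 - z) - m * z) := by
    obtain ⟨n', rfl⟩ : ∃ k, n = k + 1 := ⟨n - 1, by omega⟩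
    obtain ⟨m', rfl⟩ : ∃ k, m = k + 1 := ⟨m - 1, by omega⟩
    have e1 : HasDerivAt (fun z : ℂ => a * z ^ (n' + 1)) (a * (((n' + 1 : ℕ) : ℂ) * z ^ n')) z := by
      have := (hasDerivAt_pow (n' + 1) z).const_mul a
      simpa only [Nat.add_sub_cancel] using this
    have e2 : HasDerivAt (fun z : ℂ => (1 - z) ^ (m' + 1)) (((m' + 1 : ℕ) : ℂ) * (1 - z) ^ m' * -1)
        z := by
      have := ((hasDerivAt_id' z).const_sub 1).fun_pow (m' + 1)
      simpa only [Nat.add_sub_cancel] using this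
    have e3 : HasDerivAt (T (m' + 1) (n' + 1) a) _ z := e1.mul e2
    rw [e3.deriv]
    simp only [Nat.add_sub_cancel]
    rw [pow_succ, pow_succ]
    ring
  rw [h1] at h
  by_cases hz : z = 0
  · exact Or.inl hz
  by_cases hz1 : 1 - z = 0
  · right; left
    unfold T
    rw [hz1, zero_pow (by omega), mul_zero]
  right; right
  have h2 : (n:ℂ) * (1 - z) - m * z = 0 := by
    rcases mul_eq_zero.1 h with h3 | h3
    · exact absurd h3 (mul_ne_zero (mul_ne_zero ha (pow_ne_zero _ hz)) (pow_ne_zero _ hz1))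
    · exact h3
  have hnm : ((n:ℂ) + m) ≠ 0 := by exact_mod_cast (by omega : n + m ≠ 0)
  have e : (cc m n : ℂ) = n / (n + m) := by unfold cc; push_cast; ring
  rw [e, eq_div_iff hnm]
  linear_combination -h2

/-- zero is superattracting -/
theorem att_zero {m n : ℕ} (hn : 2 ≤ n) (a : ℂ) : Att (T m n a) 0 := by
  have h0 : T m n a 0 = 0 := by
    unfold T; rw [zero_pow (by omega), mul_zero, zero_mul]
  refine ⟨1, one_pos, 0, by simpa using h0, ?_, ?_⟩
  · rw [Function.iterate_one]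
    have e1 : HasDerivAt (fun z : ℂ => a * z ^ n) (a * ((n:ℂ) * 0 ^ (n - 1))) 0 :=
      (hasDerivAt_pow n (0:ℂ)).const_mul a
    have e2 : DifferentiableAt ℂ (fun z : ℂ => (1 - z) ^ m) 0 := by fun_prop
    have e3 : HasDerivAt (T m n a) _ 0 := e1.mul e2.hasDerivAt
    rw [e3.deriv, zero_pow (by omega), zero_pow (by omega)]
    simp
  · have : ∀ k, (T m n a)^[k] 0 = 0 := fun k => Function.iterate_fixed h0 k
    simp only [one_mul, this]
    exact tendsto_const_nhds

theorem att_of_image {f : ℂ → ℂ} {z : ℂ} (h : f z = 0) (h0 : f 0 = 0)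
    (h1 : Att f 0) : Att f z := by
  obtain ⟨n, hn, x, hx1, hx2, hx3⟩ := h1
  refine ⟨n, hn, x, hx1, hx2, ?_⟩
  rw [← tendsto_add_atTop_iff_nat 1]
  rw [← tendsto_add_atTop_iff_nat 1] at hx3
  refine hx3.congr fun k => ?_
  have h2 : ∀ k, f^[k] 0 = 0 := fun k => Function.iterate_fixed h0 k
  have h3 : n * (k + 1) = (n * (k + 1) - 1) + 1 := by
    have : 1 ≤ n * (k + 1) := Nat.mul_pos hn (Nat.succ_pos k)
    omega
  rw [h2, h3, Function.iterate_succ_apply, h, h2]

/-- hyperbolicity is decided by the free critical point -/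
theorem hyp_of {m n : ℕ} (hm : 1 ≤ m) (hn : 2 ≤ n) {a : ℂ} (ha : a ≠ 0)
    (h : Esc (T m n a) (cc m n) ∨ Att (T m n a) (cc m n)) :
    ∀ z, deriv (T m n a) z = 0 → Esc (T m n a) z ∨ Att (T m n a) z := by
  intro z hz
  have h0 : T m n a 0 = 0 := by
    unfold T; rw [zero_pow (by omega), mul_zero, zero_mul]
  rcases crit_points hm (by omega) ha hz with h1 | h1 | h1
  · rw [h1]; exact Or.inr (att_zero hn a)
  · exact Or.inr (att_of_image h1 h0 (att_zero hn a))
  · rw [h1]; exact h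

/-- the orbit tends to `0` -/
def Zer (f : ℂ → ℂ) (z : ℂ) : Prop := Tendsto (fun k : ℕ => f^[k] z) atTop (𝓝 0)

theorem Zer.att {m n : ℕ} (hn : 2 ≤ n) {a z : ℂ} (h : Zer (T m n a) z) : Att (T m n a) z := by
  obtain ⟨k, hk, x, h1, h2, h3⟩ := att_zero (m := m) hn a
  have h0 : T m n a 0 = 0 := by
    unfold T; rw [zero_pow (by omega), mul_zero, zero_mul]
  have hx : x = 0 := by
    have h4 : ∀ j, (T m n a)^[j] 0 = 0 := fun j => Function.iterate_fixed h0 j
    simp only [h4] at h3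
    exact tendsto_nhds_unique h3 tendsto_const_nhds
  refine ⟨k, hk, x, h1, h2, ?_⟩
  rw [hx]
  exact h.comp (tendsto_id.const_mul_atTop' hk)

/-! ### orbits which leave the annulus -/

theorem To_iff {m n : ℕ} {a z : ℂ} {f : OnePoint ℂ → OnePoint ℂ} (hf : Sph (PP m) 1 n a f)
    (h : To f (z : OnePoint ℂ)) : Zer (T m n a) z ∨ Esc (T m n a) z := by
  have hit : ∀ k : ℕ, f^[k] (z : OnePoint ℂ) = (((T m n a)^[k] z : ℂ) : OnePoint ℂ) := by
    intro k
    induction k with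
    | zero => rfl
    | succ k ih =>
      rw [Function.iterate_succ_apply', Function.iterate_succ_apply', ih, hf.ev _ (by simp),
        fam_eq]
  obtain ⟨p, hp, -, -, ht⟩ := h
  simp only [hit] at ht
  rcases hp with rfl | rfl
  · left
    exact (OnePoint.isOpenEmbedding_coe.tendsto_nhds_iff).2 ht
  · right
    have h1 : Tendsto (fun k : ℕ => (T m n a)^[k] z) atTop (cocompact ℂ) := by
      rw [← Filter.coclosedCompact_eq_cocompact, ← OnePoint.comap_coe_nhds_infty, tendsto_comap_iff]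
      exact ht
    exact tendsto_norm_cocompact_atTop.comp h1

/-- the orbit of the critical value leaves the annulus only towards `0` or `∞` -/
theorem leave {m : ℕ} (hm : 1 ≤ m) {m' c₁ : ℝ} (hB : Bd (PP m) 1 m' c₁) {M' r₀ B : ℝ}
    (U : MU (PP m) 1 M' r₀ B) (hr₀ : 0 < r₀) : ∃ n₀ : ℕ, ∀ n : ℕ, n₀ ≤ n → ∀ a : ℂ, a ≠ 0 →
      ¬ Non (fam (PP m) 1 n) (4 * m') a (a * kap m n) →
      Zer (T m n a) (cc m n) ∨ Esc (T m n a) (cc m n) := by
  have hm' := hB.m1
  obtain ⟨n₁, hn₁⟩ := FC.bounds hB U hr₀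
  obtain ⟨n₂, hn₂⟩ := regions hB
  refine ⟨max 8 (max n₁ n₂), fun n hn a ha hnon => ?_⟩
  have hn8 : 8 ≤ n := (le_max_left _ _).trans hn
  have hnn1 : n₁ ≤ n := ((le_max_left _ _).trans (le_max_right _ _)).trans hn
  have hnn2 : n₂ ≤ n := ((le_max_right _ _).trans (le_max_right _ _)).trans hn
  have hn1 : 1 ≤ n := by omega
  have hnr : (8:ℝ) ≤ n := by exact_mod_cast hn8
  obtain ⟨hcop, f, hf, hfe⟩ := exists_Sph (PP_coprime m) (PP_ne m) one_ne_zero one_zero (n := n)
    (by rw [Polynomial.natDegree_one]; omega) ha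
  obtain ⟨h0, hinf⟩ := hf.basic hB (by rw [Polynomial.natDegree_one]; omega) ha
  obtain ⟨hr1, hr2⟩ := hn₂ n hnn2 a f hf
  apply To_iff hf
  set z : ℂ := (cc m n : ℂ) with hz
  have hFC : FC (PP m) 1 n z := FC_cc hm hn1
  obtain ⟨⟨hc1, hc2⟩, hR1, hR2⟩ := hn₁ n hnn1 z hFC
  apply to_image
  rw [hf.ev z (by simp)]
  have hv : ‖fam (PP m) 1 n a z‖ = ‖a‖ * ‖z‖ ^ n *
      ‖(PP m).eval z / (1 : Polynomial ℂ).eval z‖ := by
    unfold fam
    rw [norm_mul, norm_mul, norm_pow]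
  have hzn1 : Real.exp (-(n * m')) ≤ ‖z‖ ^ n := by
    have := pow_le_pow_left₀ (Real.exp_pos _).le hc1 n
    rw [← Real.exp_nat_mul] at this
    rwa [mul_neg] at this
  have hzn2 : ‖z‖ ^ n ≤ Real.exp (n * m') := by
    have := pow_le_pow_left₀ (norm_nonneg _) hc2 n
    rwa [← Real.exp_nat_mul] at this
  by_cases ha1 : ‖a‖ < Real.exp (-(2 * n * m'))
  · apply hr1 (ha1.le.trans (by rw [Real.exp_le_exp]; nlinarith))
    rw [hv]
    have h5 : ‖a‖ * ‖z‖ ^ n * ‖(PP m).eval z / (1 : Polynomial ℂ).eval z‖ ≤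
        Real.exp (-(2 * n * m')) * Real.exp (n * m') * Real.exp (n * m' / 2) :=
      mul_le_mul (mul_le_mul ha1.le hzn2 (by positivity) (Real.exp_pos _).le) hR2
        (norm_nonneg _) (by positivity)
    refine h5.trans ?_
    rw [← Real.exp_add, ← Real.exp_add, Real.exp_le_exp]
    nlinarith
  push Not at ha1
  by_cases ha2 : Real.exp (2 * n * m') < ‖a‖
  · apply hr2 ha1
    rw [hv]
    have h5 : Real.exp (2 * n * m') * Real.exp (-(n * m')) * Real.exp (-(n * m' / 2)) ≤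
        ‖a‖ * ‖z‖ ^ n * ‖(PP m).eval z / (1 : Polynomial ℂ).eval z‖ :=
      mul_le_mul (mul_le_mul ha2.le hzn1 (Real.exp_pos _).le (norm_nonneg _)) hR1
        (Real.exp_pos _).le (by positivity)
    refine le_trans ?_ h5
    rw [← Real.exp_add, ← Real.exp_add, Real.exp_le_exp]
    nlinarith
  push Not at ha2
  have e : fam (PP m) 1 n a z = a * kap m n := by rw [fam_eq, hz, T_crit]
  rw [← e] at hnon
  unfold Non at hnon
  push Not at hnon
  obtain ⟨j, hj⟩ := hnon
  refine orb_to (M := 4 * m') hf hinf ?_ j _ ?_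
  · intro w hw
    rcases hw with h | h
    · exact hr1 ha2 w h.le
    · exact hr2 ha1 w h.le
  · rintro ⟨h6, h7⟩
    exact absurd (hj h6) (not_lt.2 h7)

end Pool.Agent.Q79.CM
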