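import Mathlib
import Pool.Agent.H713R2.Ext1
import Pool.Agent.Q79.CmpB

/-!
# Distortion of the critical orbit of `X ^ 2 + C` outside the Mandelbrot set
-/

set_option autoImplicit false

open Set Filter Topology Metric

namespace Pool.Agent.Q79.CM

open Pool.Agent.H712R2 Pool.Agent.H713R2 Pool.Agent.Helper202.Univ

theorem P_eq (k : ℕ) (C : ℂ) : P 2 k C = (Qd C)^[k] 0 := rfl

/-- distortion of a power of a function with bounded derivative -/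
theorem dist_pow {ρ₀ A β : ℝ} (hρ₀ : 0 < ρ₀) (hA : 1 ≤ A) (hβ : 0 < β) (L : ℝ) :
    ∃ L₀ : ℝ, L ≤ L₀ ∧ ∀ (N : ℕ) (Ψ p : ℂ → ℂ) (C₁ : ℂ), 1 ≤ N →
      DifferentiableOn ℂ Ψ (ball C₁ (2 * ρ₀)) → (∀ C ∈ ball C₁ (2 * ρ₀), ‖Ψ C‖ ≤ A) →
      (∀ C ∈ ball C₁ (2 * ρ₀), Ψ C ^ N = p C) → 1 ≤ ‖Ψ C₁‖ → β ≤ ‖deriv Ψ C₁‖ → L₀ ≤ ‖p C₁‖ →
      L ≤ ‖deriv p C₁‖ ∧ 0 < ‖deriv p C₁‖ ∧
      ∀ C ∈ ball C₁ (2 / ‖deriv p C₁‖), ‖deriv p C - deriv p C₁‖ ≤ ‖deriv p C₁‖ / 8 := by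
  set α : ℝ := A / (ρ₀ / 2) with hα
  have hα0 : 0 < α := by positivity
  -- the size of `‖p C₁‖` required
  set X : ℝ := 1 + |L| * A / β + 4 * A / (β * ρ₀) + 40 * α * A / β + 160 * α * A / (β * β * ρ₀) with hX
  refine ⟨max L X, le_max_left _ _, fun N Ψ p C₁ hN hd hb hp h1 hβ' hL => ?_⟩
  have hX1 : X ≤ ‖p C₁‖ := (le_max_right _ _).trans hL
  have hterm1 : 0 ≤ |L| * A / β := by positivity
  have hterm2 : 0 ≤ 4 * A / (β * ρ₀) := by positivity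
  have hterm3 : 0 ≤ 40 * α * A / β := by positivity
  have hterm4 : 0 ≤ 160 * α * A / (β * β * ρ₀) := by positivity
  have hC₁ : C₁ ∈ ball C₁ (2 * ρ₀) := mem_ball_self (by linarith)
  have hpC : ‖p C₁‖ = ‖Ψ C₁‖ ^ N := by rw [← hp C₁ hC₁, norm_pow]
  have hp0 : 0 < ‖p C₁‖ := by linarith
  have hNr : (1:ℝ) ≤ N := by exact_mod_cast hN
  have hΨA : ‖Ψ C₁‖ ≤ A := hb C₁ hC₁
  obtain ⟨N', hN'⟩ : ∃ k, N = k + 1 := ⟨N - 1, by omega⟩
  -- the derivative of `p`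
  have hder : ∀ C ∈ ball C₁ (2 * ρ₀), deriv p C = N * Ψ C ^ (N - 1) * deriv Ψ C := by
    intro C hC
    have e1 : HasDerivAt Ψ (deriv Ψ C) C :=
      (hd.differentiableAt (isOpen_ball.mem_nhds hC)).hasDerivAt
    have e2 : HasDerivAt (fun C => Ψ C ^ N) (N * Ψ C ^ (N - 1) * deriv Ψ C) C := e1.fun_pow N
    have e3 : p =ᶠ[𝓝 C] fun C => Ψ C ^ N := by
      filter_upwards [isOpen_ball.mem_nhds hC] with y hy
      exact (hp y hy).symm
    exact (e2.congr_of_eventuallyEq e3).deriv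
  set D := deriv p C₁ with hD
  have hDe : D = N * Ψ C₁ ^ (N - 1) * deriv Ψ C₁ := hder C₁ hC₁
  have hDn : N * β * ‖p C₁‖ / A ≤ ‖D‖ := by
    rw [hDe, norm_mul, norm_mul, norm_pow, Complex.norm_natCast]
    have e1 : ‖p C₁‖ / A ≤ ‖Ψ C₁‖ ^ (N - 1) := by
      rw [div_le_iff₀ (by linarith), hpC, hN', Nat.add_sub_cancel, pow_succ]
      exact mul_le_mul_of_nonneg_left hΨA (by positivity)
    calc N * β * ‖p C₁‖ / A = N * (‖p C₁‖ / A) * β := by ring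
      _ ≤ N * ‖Ψ C₁‖ ^ (N - 1) * ‖deriv Ψ C₁‖ :=
          mul_le_mul (mul_le_mul_of_nonneg_left e1 (by positivity)) hβ' hβ.le (by positivity)
  have hDn' : β * ‖p C₁‖ / A ≤ ‖D‖ := by
    refine le_trans ?_ hDn
    rw [div_le_div_iff_of_pos_right (by linarith)]
    calc β * ‖p C₁‖ = 1 * (β * ‖p C₁‖) := by ring
      _ ≤ N * (β * ‖p C₁‖) := mul_le_mul_of_nonneg_right hNr (by positivity)
      _ = N * β * ‖p C₁‖ := by ring
  have hD0 : 0 < ‖D‖ := lt_of_lt_of_le (by positivity) hDn'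
  have hDL : ∀ y : ℝ, 0 ≤ y → y * A / β ≤ X → y ≤ ‖D‖ := by
    intro y hy hyX
    refine le_trans ?_ hDn'
    rw [le_div_iff₀ (by linarith)]
    have e1 : y * A / β ≤ ‖p C₁‖ := hyX.trans hX1
    rw [div_le_iff₀ hβ] at e1
    linarith
  refine ⟨?_, hD0, ?_⟩
  · refine (le_abs_self L).trans (hDL _ (abs_nonneg _) ?_)
    linarith
  -- the radius
  have hr : 2 / ‖D‖ ≤ ρ₀ / 2 := by
    have e1 : 4 / ρ₀ ≤ ‖D‖ := by
      apply hDL _ (by positivity)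
      have : 4 / ρ₀ * A / β = 4 * A / (β * ρ₀) := by field_simp
      rw [this]
      linarith
    rw [div_le_iff₀ hρ₀] at e1
    rw [div_le_iff₀ hD0]
    linarith
  -- bounds for the derivative
  have hΨ' : ∀ C ∈ ball C₁ ρ₀, ‖deriv Ψ C‖ ≤ α := by
    intro C hC
    rw [mem_ball, dist_eq_norm] at hC
    have hsub : closedBall C (ρ₀ / 2) ⊆ ball C₁ (2 * ρ₀) := by
      intro y hy
      rw [mem_closedBall, dist_eq_norm] at hy
      rw [mem_ball, dist_eq_norm]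
      calc ‖y - C₁‖ = ‖(y - C) + (C - C₁)‖ := by congr 1; ring
        _ ≤ _ := norm_add_le _ _
        _ < 2 * ρ₀ := by linarith
    apply Complex.norm_deriv_le_of_forall_mem_sphere_norm_le (by positivity)
    · exact hd.diffContOnCl_ball hsub
    · intro z hz
      exact hb z (hsub (sphere_subset_closedBall hz))
  have hdd : DifferentiableOn ℂ (deriv Ψ) (ball C₁ (2 * ρ₀)) := hd.deriv isOpen_ball
  have hΨ'' : ∀ C ∈ ball C₁ (ρ₀ / 2), ‖deriv (deriv Ψ) C‖ ≤ α / (ρ₀ / 4) := by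
    intro C hC
    rw [mem_ball, dist_eq_norm] at hC
    have hsub : closedBall C (ρ₀ / 4) ⊆ ball C₁ ρ₀ := by
      intro y hy
      rw [mem_closedBall, dist_eq_norm] at hy
      rw [mem_ball, dist_eq_norm]
      calc ‖y - C₁‖ = ‖(y - C) + (C - C₁)‖ := by congr 1; ring
        _ ≤ _ := norm_add_le _ _
        _ < ρ₀ := by linarith
    apply Complex.norm_deriv_le_of_forall_mem_sphere_norm_le (by positivity)
    · exact (hdd.mono (ball_subset_ball (by linarith))).diffContOnCl_ball hsub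
    · intro z hz
      exact hΨ' z (hsub (sphere_subset_closedBall hz))
  intro C hC
  rw [mem_ball, dist_eq_norm] at hC
  have hC2 : C ∈ ball C₁ (ρ₀ / 2) := by
    rw [mem_ball, dist_eq_norm]; linarith
  have hC3 : C ∈ ball C₁ (2 * ρ₀) := ball_subset_ball (by linarith) hC2
  have hC₁2 : C₁ ∈ ball C₁ (ρ₀ / 2) := mem_ball_self (by positivity)
  have hΨ0 : Ψ C₁ ≠ 0 := by
    intro h; rw [h, norm_zero] at h1; linarith
  have hΨ'0 : deriv Ψ C₁ ≠ 0 := by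
    intro h; rw [h, norm_zero] at hβ'; linarith
  have hdiffΨ : ‖Ψ C - Ψ C₁‖ ≤ α * ‖C - C₁‖ := by
    apply (convex_ball C₁ (ρ₀ / 2)).norm_image_sub_le_of_norm_deriv_le (𝕜 := ℂ) _ _ hC₁2 hC2
    · intro y hy
      exact hd.differentiableAt (isOpen_ball.mem_nhds (ball_subset_ball (by linarith) hy))
    · intro y hy
      exact hΨ' y (ball_subset_ball (by linarith) hy)
  have hdiffΨ' : ‖deriv Ψ C - deriv Ψ C₁‖ ≤ α / (ρ₀ / 4) * ‖C - C₁‖ := by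
    apply (convex_ball C₁ (ρ₀ / 2)).norm_image_sub_le_of_norm_deriv_le (𝕜 := ℂ) _ _ hC₁2 hC2
    · intro y hy
      exact hdd.differentiableAt (isOpen_ball.mem_nhds (ball_subset_ball (by linarith) hy))
    · exact hΨ''
  set y : ℂ := Ψ C / Ψ C₁ - 1 with hy
  set v : ℂ := deriv Ψ C / deriv Ψ C₁ with hv
  have hyn : ‖y‖ ≤ α * (2 / ‖D‖) := by
    have e1 : y = (Ψ C - Ψ C₁) / Ψ C₁ := by rw [hy]; field_simp
    rw [e1, norm_div]
    calc ‖Ψ C - Ψ C₁‖ / ‖Ψ C₁‖ ≤ ‖Ψ C - Ψ C₁‖ := div_le_self (norm_nonneg _) h1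
      _ ≤ α * ‖C - C₁‖ := hdiffΨ
      _ ≤ _ := mul_le_mul_of_nonneg_left hC.le hα0.le
  have hND : N / ‖D‖ ≤ A / (β * ‖p C₁‖) := by
    rw [div_le_div_iff₀ hD0 (by positivity)]
    have := hDn
    rw [div_le_iff₀ (by linarith)] at this
    linarith
  have hNy : ((N - 1 : ℕ) : ℝ) * ‖y‖ ≤ 1 / 20 := by
    have e1 : ((N - 1 : ℕ) : ℝ) ≤ N := by exact_mod_cast Nat.sub_le N 1
    calc ((N - 1 : ℕ) : ℝ) * ‖y‖ ≤ N * (α * (2 / ‖D‖)) :=
          mul_le_mul e1 hyn (norm_nonneg _) (by positivity)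
      _ = 2 * α * (N / ‖D‖) := by ring
      _ ≤ 2 * α * (A / (β * ‖p C₁‖)) := mul_le_mul_of_nonneg_left hND (by positivity)
      _ ≤ 1 / 20 := by
          rw [mul_div_assoc', div_le_div_iff₀ (by positivity) (by norm_num)]
          have e2 : 40 * α * A / β ≤ ‖p C₁‖ := by linarith
          rw [div_le_iff₀ hβ] at e2
          linarith
  have hv1 : ‖v - 1‖ ≤ 1 / 20 := by
    have e1 : v - 1 = (deriv Ψ C - deriv Ψ C₁) / deriv Ψ C₁ := by rw [hv]; field_simp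
    rw [e1, norm_div]
    calc ‖deriv Ψ C - deriv Ψ C₁‖ / ‖deriv Ψ C₁‖ ≤ (α / (ρ₀ / 4) * (2 / ‖D‖)) / β := by
          apply div_le_div₀ (by positivity) _ hβ hβ'
          exact hdiffΨ'.trans (mul_le_mul_of_nonneg_left hC.le (by positivity))
      _ = 8 * α / (ρ₀ * β) / ‖D‖ := by field_simp; ring
      _ ≤ 1 / 20 := by
          rw [div_le_div_iff₀ hD0 (by norm_num)]
          have e2 : 160 * α / (ρ₀ * β) ≤ ‖D‖ := by
            apply hDL _ (by positivity)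
            have : 160 * α / (ρ₀ * β) * A / β = 160 * α * A / (β * β * ρ₀) := by field_simp
            rw [this]
            linarith
          have e3 : 8 * α / (ρ₀ * β) * 20 = 160 * α / (ρ₀ * β) := by ring
          rw [e3, one_mul]
          exact e2
  have hu : ‖(1 + y) ^ (N - 1) - 1‖ ≤ Real.exp (1 / 20) - 1 :=
    (pow_sub_one_le y (N - 1)).trans (sub_le_sub_right (Real.exp_le_exp.2 hNy) 1)
  have hv2 : ‖v - 1‖ ≤ Real.exp (1 / 20) - 1 := by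
    have := Real.add_one_le_exp (1 / 20 : ℝ)
    linarith
  have huv := mul_sub_one_le hu hv2
  have hexp : Real.exp (1 / 20 + 1 / 20) ≤ 9 / 8 := by
    have h2 : Real.exp (1 / 20 + 1 / 20) = Real.exp (1 / 10) := by norm_num
    have h3 := Real.exp_bound_div_one_sub_of_interval' (x := 1 / 10) (by norm_num) (by norm_num)
    rw [h2]
    refine h3.le.trans ?_
    norm_num
  have hfin : deriv p C - D = D * ((1 + y) ^ (N - 1) * v - 1) := by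
    have e1 : 1 + y = Ψ C / Ψ C₁ := by rw [hy]; ring
    have e2 : deriv p C = N * Ψ C ^ (N - 1) * deriv Ψ C := hder C hC3
    rw [e1, e2, hDe, hv, div_pow]
    have e3 : Ψ C₁ ^ (N - 1) ≠ 0 := pow_ne_zero _ hΨ0
    field_simp
  rw [hfin, norm_mul]
  calc ‖D‖ * ‖(1 + y) ^ (N - 1) * v - 1‖ ≤ ‖D‖ * (1 / 8) :=
        mul_le_mul_of_nonneg_left (by linarith) hD0.le
    _ = ‖D‖ / 8 := by ring

/-- the roots of the critical orbit polynomials near a parameter outside the Mandelbrot set -/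
theorem psi_bounds {C₁ : ℂ} (hesc : Tendsto (fun k => ‖P 2 k C₁‖) atTop atTop) :
    ∃ ρ₀ A β : ℝ, 0 < ρ₀ ∧ 1 ≤ A ∧ 0 < β ∧ ∀ᶠ m in atTop, ∃ Ψ : ℂ → ℂ,
      DifferentiableOn ℂ Ψ (ball C₁ (2 * ρ₀)) ∧ (∀ C ∈ ball C₁ (2 * ρ₀), ‖Ψ C‖ ≤ A) ∧
      (∀ C ∈ ball C₁ (2 * ρ₀), Ψ C ^ (2 ^ m) = P 2 (m + 1) C) ∧ 1 ≤ ‖Ψ C₁‖ ∧
      β ≤ ‖deriv Ψ C₁‖ := by
  have h2 : (2:ℕ) ≤ 2 := le_rfl
  set R : ℝ := ‖C₁‖ + 3 with hR
  have hR3 : 3 ≤ R := by have := norm_nonneg C₁; linarith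
  obtain ⟨n₀, hn₀1, hn₀⟩ := ((eventually_ge_atTop 1).and (hesc.eventually_gt_atTop R)).exists
  -- a neighbourhood
  have hcont : Continuous (P 2 n₀) := continuous_P 2 n₀
  have hev : ∀ᶠ C in 𝓝 C₁, R < ‖P 2 n₀ C‖ := hcont.norm.continuousAt.eventually_const_lt hn₀
  obtain ⟨r, hr, hrb⟩ := Metric.mem_nhds_iff.1 hev
  set ρ₀ : ℝ := min (r / 2) (1 / 2) with hρ₀
  have hρ₀0 : 0 < ρ₀ := lt_min (by positivity) (by norm_num)
  have hρ₀r : 2 * ρ₀ ≤ r := by have : ρ₀ ≤ r / 2 := min_le_left _ _; linarith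
  have hρ₀1 : 2 * ρ₀ ≤ 1 := by have : ρ₀ ≤ 1 / 2 := min_le_right _ _; linarith
  have hCR : ∀ C ∈ ball C₁ (2 * ρ₀), ‖C‖ ≤ R := by
    intro C hC
    rw [mem_ball, dist_eq_norm] at hC
    calc ‖C‖ = ‖(C - C₁) + C₁‖ := by congr 1; ring
      _ ≤ _ := norm_add_le _ _
      _ ≤ R := by linarith
  obtain ⟨R₁, hR₁⟩ := (isCompact_closedBall C₁ (2 * ρ₀)).exists_bound_of_continuousOn
    hcont.continuousOn
  set R' : ℝ := max R R₁ with hR'
  have hRR' : R ≤ R' := le_max_left _ _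
  set A : ℝ := R' + 1 with hA
  have hA1 : 1 ≤ A := by linarith
  -- the lower bound
  set q : ℝ := (2:ℝ) ^ (((2 ^ (n₀ - 1) : ℕ) : ℝ)⁻¹) with hq
  have hqpow : q ^ (2 ^ (n₀ - 1)) = 2 :=
    Real.rpow_inv_natCast_pow (by norm_num) (pow_ne_zero _ (by norm_num))
  have hq1 : 1 < q := Real.one_lt_rpow (by norm_num) (by positivity)
  set η : ℝ := (q - 1) / 2 with hη
  have hη0 : 0 < η := by linarith
  set A₂ : ℝ := A + η + 1 with hA₂
  have hA₂0 : 0 < A₂ := by linarith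
  set β : ℝ := η / (2 * A₂) with hβ
  have hβ0 : 0 < β := by positivity
  have hev2 : ∀ᶠ m : ℕ in atTop, 2 < (1 + η) ^ (2 ^ m) := by
    have h1 : Tendsto (fun m : ℕ => (1 + η) ^ (2 ^ m)) atTop atTop :=
      (tendsto_pow_atTop_atTop_of_one_lt (by linarith)).comp
        (tendsto_pow_atTop_atTop_of_one_lt (by norm_num : 1 < 2))
    exact h1.eventually_gt_atTop 2
  refine ⟨ρ₀, A, β, hρ₀0, hA1, hβ0, ?_⟩
  filter_upwards [hev2, eventually_ge_atTop n₀] with m hm1 hm2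
  obtain ⟨j, hj⟩ : ∃ j, m + 1 = n₀ + j := ⟨m + 1 - n₀, by omega⟩
  have hNj : 2 ^ m = 2 ^ (n₀ - 1) * 2 ^ j := by rw [← pow_add]; congr 1; omega
  set N : ℕ := 2 ^ m with hN
  have hN0 : N ≠ 0 := pow_ne_zero _ (by norm_num)
  have hjN : 2 ^ j ≤ N := by
    rw [hNj]
    exact Nat.le_mul_of_pos_left _ (by positivity)
  obtain ⟨Ψ, hΨ⟩ := exists_Psi h2 m
  have hlow : ∀ C ∈ ball C₁ (2 * ρ₀), (R - 1) ^ (2 ^ j) + 1 ≤ ‖P 2 (m + 1) C‖ := by
    intro C hC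
    rw [hj]
    exact low_growth h2 (by linarith) (hCR C hC)
      ((hrb (ball_subset_ball hρ₀r hC) : R < ‖P 2 n₀ C‖).le) j
  have hup : ∀ C ∈ ball C₁ (2 * ρ₀), ‖P 2 (m + 1) C‖ ≤ (R' + 1) ^ (2 ^ j) - 1 := by
    intro C hC
    rw [hj]
    exact up_growth h2 (by linarith) ((hCR C hC).trans hRR')
      ((hR₁ C (ball_subset_closedBall hC)).trans (le_max_right _ _)) j
  have hOm : ∀ C ∈ ball C₁ (2 * ρ₀), C ∈ Om 2 m := by
    intro C hC
    have h3 := hlow C hC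
    have h4 : R - 1 ≤ (R - 1) ^ (2 ^ j) := le_self_pow₀ (by linarith) (by positivity)
    show 2 < ‖P 2 (m + 1) C‖
    linarith
  have hC₁ : C₁ ∈ ball C₁ (2 * ρ₀) := mem_ball_self (by linarith)
  have hpow : ∀ C ∈ ball C₁ (2 * ρ₀), ‖Ψ C‖ ^ N = ‖P 2 (m + 1) C‖ := by
    intro C hC
    rw [← norm_pow, hΨ.pow C (hOm C hC)]
  have hΨA : ∀ C ∈ ball C₁ (2 * ρ₀), ‖Ψ C‖ ≤ A := by
    intro C hC
    apply le_of_pow_le_pow_left₀ hN0 (by linarith)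
    rw [hpow C hC]
    have h3 : (R' + 1) ^ (2 ^ j) ≤ A ^ N := pow_le_pow_right₀ (by linarith) hjN
    linarith [hup C hC]
  have hΨq : q ≤ ‖Ψ C₁‖ := by
    apply le_of_pow_le_pow_left₀ hN0 (norm_nonneg _)
    rw [hpow C₁ hC₁, hNj, pow_mul, hqpow]
    have h3 : (2:ℝ) ^ (2 ^ j) ≤ (R - 1) ^ (2 ^ j) := pow_le_pow_left₀ (by norm_num) (by linarith) _
    linarith [hlow C₁ hC₁]
  -- the inverse
  have hdiff := Psi_diff h2 hΨ
  have hinj := Psi_injOn h2 hΨ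
  set Φ : ℂ → ℂ := Function.invFunOn Ψ (Om 2 m) with hΦ
  set w₁ : ℂ := Ψ C₁ with hw₁
  have him : ∀ w : ℂ, ‖w - w₁‖ < η → w ∈ Ψ '' (Om 2 m) := by
    intro w hw
    rw [mem_Psi_image h2 hΨ]
    have h3 : 1 + η ≤ ‖w‖ := by
      have h4 : ‖w₁‖ ≤ ‖w‖ + ‖w - w₁‖ := by
        calc ‖w₁‖ = ‖w - (w - w₁)‖ := by congr 1; ring
          _ ≤ _ := norm_sub_le _ _
      have h5 : q = 1 + 2 * η := by rw [hη]; ring
      linarith
    exact hm1.trans_le (pow_le_pow_left₀ (by linarith) h3 _)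
  have hΦd : ∀ w : ℂ, ‖w - w₁‖ < η → DifferentiableAt ℂ Φ w := fun w hw =>
    differentiableAt_inv (isOpen_Om 2 m) hdiff hinj (him w hw)
  have hΦb : ∀ w : ℂ, ‖w - w₁‖ < η → ‖Φ w‖ ≤ A₂ := by
    intro w hw
    by_contra hcon
    push Not at hcon
    have hmem : Φ w ∈ Om 2 m := invFunOn_mem (him w hw)
    have hval : Ψ (Φ w) = w := invFunOn_right (him w hw)
    have h3 := low_growth h2 (n := 1) (c := Φ w) (R := ‖Φ w‖) (by linarith) le_rfl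
      (by rw [P_one h2]) m
    rw [add_comm 1 m, ← hΨ.pow _ hmem, hval, norm_pow] at h3
    have h4 : ‖w‖ ≤ A + η := by
      have h5 : ‖w‖ ≤ ‖w - w₁‖ + ‖w₁‖ := by
        calc ‖w‖ = ‖(w - w₁) + w₁‖ := by congr 1; ring
          _ ≤ _ := norm_add_le _ _
      linarith [hΨA C₁ hC₁]
    have h5 : ‖w‖ ^ (2 ^ m) ≤ (‖Φ w‖ - 1) ^ (2 ^ m) :=
      pow_le_pow_left₀ (norm_nonneg _) (by linarith) _
    linarith
  have hΦ' : ‖deriv Φ w₁‖ ≤ A₂ / (η / 2) := by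
    apply Complex.norm_deriv_le_of_forall_mem_sphere_norm_le (by positivity)
    · have hdo : DifferentiableOn ℂ Φ (ball w₁ η) := by
        intro w hw
        rw [mem_ball, dist_eq_norm] at hw
        exact (hΦd w hw).differentiableWithinAt
      exact hdo.diffContOnCl_ball (closedBall_subset_ball (by linarith))
    · intro z hz
      rw [mem_sphere, dist_eq_norm] at hz
      exact hΦb z (by linarith)
  have hΨd : DifferentiableAt ℂ Ψ C₁ :=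
    hdiff.differentiableAt ((isOpen_Om 2 m).mem_nhds (hOm C₁ hC₁))
  have hchain : deriv Φ w₁ * deriv Ψ C₁ = 1 := by
    have h3 : HasDerivAt (Φ ∘ Ψ) (deriv Φ w₁ * deriv Ψ C₁) C₁ := by
      have h4 : DifferentiableAt ℂ Φ (Ψ C₁) := hΦd _ (by rw [sub_self, norm_zero]; exact hη0)
      exact h4.hasDerivAt.comp C₁ hΨd.hasDerivAt
    have h5 : (Φ ∘ Ψ) =ᶠ[𝓝 C₁] id := by
      filter_upwards [(isOpen_Om 2 m).mem_nhds (hOm C₁ hC₁)] with C hC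
      exact invFunOn_left hinj hC
    exact h3.unique ((hasDerivAt_id C₁).congr_of_eventuallyEq h5)
  refine ⟨Ψ, fun C hC => (hdiff.differentiableAt ((isOpen_Om 2 m).mem_nhds
    (hOm C hC))).differentiableWithinAt, hΨA, fun C hC => hΨ.pow C (hOm C hC), by linarith, ?_⟩
  have h3 : ‖deriv Φ w₁‖ * ‖deriv Ψ C₁‖ = 1 := by rw [← norm_mul, hchain, norm_one]
  rw [hβ, div_le_iff₀ (by positivity)]
  have h4 : A₂ / (η / 2) * ‖deriv Ψ C₁‖ ≥ 1 := by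
    rw [← h3]
    exact mul_le_mul_of_nonneg_right hΦ' (norm_nonneg _)
  rw [div_mul_eq_mul_div, ge_iff_le, le_div_iff₀ (by positivity)] at h4
  linarith

/-- **the critical orbit at a parameter outside the Mandelbrot set**: arbitrarily large values with
arbitrarily large derivatives and small distortion -/
theorem lemQ {C₁ : ℂ} (hesc : Tendsto (fun k => ‖P 2 k C₁‖) atTop atTop) (L : ℝ) :
    ∃ k : ℕ, 1 ≤ k ∧ L ≤ ‖deriv (P 2 k) C₁‖ ∧ 0 < ‖deriv (P 2 k) C₁‖ ∧ L ≤ ‖P 2 k C₁‖ ∧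
      ∀ C ∈ ball C₁ (2 / ‖deriv (P 2 k) C₁‖),
        ‖deriv (P 2 k) C - deriv (P 2 k) C₁‖ ≤ ‖deriv (P 2 k) C₁‖ / 8 := by
  obtain ⟨ρ₀, A, β, hρ₀, hA, hβ, hev⟩ := psi_bounds hesc
  obtain ⟨L₀, hLL₀, hL₀⟩ := dist_pow hρ₀ hA hβ L
  obtain ⟨m, ⟨Ψ, h1, h2, h3, h4, h5⟩, hm2⟩ :=
    (hev.and ((tendsto_add_atTop_iff_nat 1).2 hesc |>.eventually_ge_atTop L₀)).exists
  obtain ⟨h6, h7, h8⟩ := hL₀ (2 ^ m) Ψ (P 2 (m + 1)) C₁ Nat.one_le_two_pow h1 h2 h3 h4 h5 hm2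
  exact ⟨m + 1, by omega, h6, h7, hLL₀.trans hm2, h8⟩

end Pool.Agent.Q79.CM
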