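import Mathlib
import Pool.Agent.Q79.CmpC
import Pool.Agent.Q79.CmpD

/-!
# The family `a z ^ n (1 - z) ^ m`: parameters whose rescaled critical orbit escapes
-/

set_option autoImplicit false

open MeasureTheory Set Filter Topology Metric

namespace Pool.Agent.Q79.CM

open Pool.Agent.Q79.MN
open Pool.Agent.Q79.PW (G Sim)
open Pool.Agent.H762R2.Rt (wro)
open Pool.Agent.H712R2 (P)

/-- the constants -/
structure Cst (m : ℕ) (M r₀ B Cs : ℝ) (n₀ : ℕ) : Prop where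
  M0 : 0 ≤ M
  r0 : 0 < r₀
  r1 : r₀ ≤ 1 / 8
  B1 : 1 ≤ B
  U : MU (PP m) 1 M r₀ B
  C0 : 0 < Cs
  sup : ∀ n : ℕ, n₀ ≤ n → Sup (fam (PP m) 1 n) M r₀ ≤ ENNReal.ofReal (Cs / (n:ℝ) ^ 4)
  leave : ∀ n : ℕ, n₀ ≤ n → ∀ a : ℂ, a ≠ 0 → ¬ Non (fam (PP m) 1 n) M a (a * kap m n) →
    Zer (T m n a) (cc m n) ∨ Esc (T m n a) (cc m n)

theorem exists_Cst {m : ℕ} (hm : 1 ≤ m) : ∃ (M r₀ B Cs : ℝ) (n₀ : ℕ), Cst m M r₀ B Cs n₀ := by
  obtain ⟨m', c₁, hB⟩ := exists_Bd (PP_zero m) one_zero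
  have hm' := hB.m1
  obtain ⟨r₀, B, hr₀, hr₁, hB1, U⟩ := exists_MU (PP_coprime m) (PP_ne m) one_ne_zero (4 * m')
  obtain ⟨C₁, n₁, hC₁, hS⟩ := Sup_le U hr₀ hr₁ hB1 (by linarith)
  obtain ⟨n₂, hn₂⟩ := leave hm hB U hr₀
  exact ⟨4 * m', r₀, B, C₁, max n₁ n₂, by linarith, hr₀, hr₁, hB1, U, hC₁,
    fun n hn => hS n ((le_max_left _ _).trans hn), fun n hn => hn₂ n ((le_max_right _ _).trans hn)⟩

theorem G_inv {m : ℕ} (hm : 1 ≤ m) (t : ℂ) :
    (G (PP m) 1 t)⁻¹ = (Complex.exp t - 1) / (m * Complex.exp t) := by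
  unfold G
  rw [wro_PP, PP_eval, Polynomial.eval_one, mul_one]
  have he := Complex.exp_ne_zero t
  have hm0 : (m:ℂ) ≠ 0 := by exact_mod_cast (by omega : m ≠ 0)
  obtain ⟨m', rfl⟩ : ∃ k, m = k + 1 := ⟨m - 1, by omega⟩
  rw [Nat.add_sub_cancel, pow_succ]
  by_cases h : 1 - Complex.exp t = 0
  · have h1 : Complex.exp t - 1 = 0 := by linear_combination -h
    rw [h, h1]; simp
  · have h2 : (1 - Complex.exp t) ^ m' ≠ 0 := pow_ne_zero _ h
    rw [inv_div, div_eq_div_iff (mul_ne_zero he (neg_ne_zero.2 (mul_ne_zero hm0 h2)))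
      (mul_ne_zero hm0 he)]
    ring

theorem zz_ze {m n : ℕ} (hm : 1 ≤ m) (hn : 1 ≤ n) {t X : ℂ} (ht : Complex.exp t = ze m n X) :
    zz (PP m) 1 n t = 2 / (n:ℝ) ^ 2 * (‖X‖ / ‖1 - gam m n * X‖) := by
  unfold zz
  rw [G_inv hm, ht]
  have hz : ze m n X ≠ 0 := ht ▸ Complex.exp_ne_zero t
  have hc : (cc m n : ℂ) ≠ 0 := by exact_mod_cast (cc_pos (m := m) hn).ne'
  have h1 : (1 - gam m n * X : ℂ) ≠ 0 := by
    intro h
    apply hz
    unfold ze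
    rw [h, mul_zero]
  have hn0 : (n:ℂ) ≠ 0 := by exact_mod_cast (by omega : n ≠ 0)
  have hm0 : (m:ℂ) ≠ 0 := by exact_mod_cast (by omega : m ≠ 0)
  have hnm : ((n:ℂ) + m) ≠ 0 := by exact_mod_cast (by omega : n + m ≠ 0)
  have hce : (cc m n : ℂ) = n / (n + m) := by unfold cc; push_cast; ring
  have hge : (gam m n : ℂ) = 2 * m / (n * (n + m)) := by unfold gam; push_cast; ring
  have key : (ze m n X - 1) / (m * ze m n X) + 1 / n =
      -((2 / (n:ℂ) ^ 2) * (X / (1 - gam m n * X))) := by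
    rw [div_add_div _ _ (mul_ne_zero hm0 hz) hn0, ← neg_mul, ← mul_div_assoc, ← sub_eq_zero,
      div_sub_div _ _ (mul_ne_zero (mul_ne_zero hm0 hz) hn0) h1]
    rw [div_eq_zero_iff]
    left
    have hze : ze m n X = n / (n + m) * (1 - gam m n * X) := by unfold ze; rw [hce]
    set w : ℂ := 1 - gam m n * X with hw
    have hX : X = (1 - w) * (n * (n + m)) / (2 * m) := by
      rw [hw, hge]; field_simp; ring
    rw [hze, hX]
    field_simp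
    ring
  rw [key, norm_neg, norm_mul, norm_div, norm_div, norm_pow]
  simp

theorem gam_le {m n : ℕ} (hn : 1 ≤ n) : gam m n ≤ 2 * m / (n:ℝ) ^ 2 := by
  unfold gam
  have h2 : (0:ℝ) < n := by exact_mod_cast hn
  have h3 : (0:ℝ) ≤ m := Nat.cast_nonneg m
  apply div_le_div_of_nonneg_left (by positivity) (by positivity)
  nlinarith

theorem gam_ge {m n : ℕ} (hm : 1 ≤ m) (hn : m ≤ n) : 1 ≤ gam m n * (n:ℝ) ^ 2 := by
  have h1 : (1:ℝ) ≤ m := by exact_mod_cast hm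
  have h2 : (m:ℝ) ≤ n := by exact_mod_cast hn
  have h0 : (0:ℝ) < n := by linarith
  unfold gam
  rw [div_mul_eq_mul_div, le_div_iff₀ (by positivity)]
  nlinarith [mul_nonneg (by linarith : (0:ℝ) ≤ m - 1) (by positivity : (0:ℝ) ≤ (n:ℝ) * n),
    mul_nonneg (by linarith : (0:ℝ) ≤ (n:ℝ) - m) (by positivity : (0:ℝ) ≤ (n:ℝ))]

theorem tendsto_gam (m : ℕ) : Tendsto (fun n => gam m n) atTop (𝓝 0) := by
  have h1 : Tendsto (fun n : ℕ => 2 * (m:ℝ) / n) atTop (𝓝 0) := tendsto_const_div_atTop_nhds_zero_nat _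
  refine squeeze_zero' ?_ ?_ h1
  · exact Eventually.of_forall fun n => by unfold gam; positivity
  · filter_upwards [eventually_ge_atTop 1] with n hn
    refine (gam_le hn).trans ?_
    have h2 : (1:ℝ) ≤ n := by exact_mod_cast hn
    apply div_le_div_of_nonneg_left (by positivity) (by positivity)
    nlinarith

theorem tendsto_cc (m : ℕ) : Tendsto (fun n => cc m n) atTop (𝓝 1) := by
  have h1 : Tendsto (fun n : ℕ => (n:ℝ) / (n + m)) atTop (𝓝 1) :=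
    tendsto_natCast_div_add_atTop (m:ℝ)
  exact h1

theorem Non_iter {S : ℂ → ℂ → ℂ} {M : ℝ} {a X : ℂ} (h : Non S M a X) (k : ℕ) :
    Non S M a ((S a)^[k] X) := by
  intro j
  rw [← Function.iterate_add_apply]
  exact h _

theorem cc_iter {m n : ℕ} (hm : 1 ≤ m) (hn : 1 ≤ n) (C : ℂ) {k : ℕ} (hk : 1 ≤ k) :
    ze m n ((F m n C)^[k] 0) = (T m n (aC m n C))^[k - 1] (aC m n C * kap m n) := by
  obtain ⟨k', rfl⟩ : ∃ j, k = j + 1 := ⟨k - 1, by omega⟩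
  rw [← conj_iter hm hn, ze_zero, Function.iterate_succ_apply, T_crit, Nat.add_sub_cancel]

theorem diff_h (m n k : ℕ) : Differentiable ℂ fun C => (F m n C)^[k] 0 := by
  induction k with
  | zero => exact differentiable_const _
  | succ k ih =>
    have e : (fun C => (F m n C)^[k + 1] 0) = fun C => F m n C ((F m n C)^[k] 0) := by
      funext C; rw [Function.iterate_succ_apply']
    rw [e]
    exact diff_F' ih

/-- the parameters near `C` (rescaled coordinate) whose critical orbit stays in the annulus -/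
def NonC (m n : ℕ) (M : ℝ) : Set ℂ :=
  {C | Non (fam (PP m) 1 n) M (aC m n C) (aC m n C * kap m n)}

theorem dens_core {m n : ℕ} (hm : 1 ≤ m) {M r₀ B Cs : ℝ} {n₀ : ℕ} (K : Cst m M r₀ B Cs n₀)
    (hn₀ : n₀ ≤ n) {k : ℕ} (hk : 1 ≤ k) {C₁ X₁ D : ℂ} (hD : 8 ≤ ‖D‖) (hX8 : 8 ≤ ‖X₁‖)
    (hXm : (m:ℝ) ≤ ‖X₁‖)
    (hh : ∀ C ∈ ball C₁ (3 / (2 * ‖D‖)), ‖(F m n C)^[k] 0 - X₁‖ ≤ 3 ∧
      ‖deriv (fun C => (F m n C)^[k] 0) C - D‖ ≤ ‖D‖ / 4)
    (e1 : m ≤ n) (e2 : gam m n * (‖X₁‖ + 3) ≤ 1 / 16) (e3 : gam m n * (‖C₁‖ + 1) ≤ 1 / 16)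
    (e4 : gam m n ≤ r₀) (e5 : |Real.log (cc m n)| + 3 / 2 * (gam m n * (‖X₁‖ + 3)) < 3 * r₀)
    (e6 : 5 * (‖X₁‖ + 3) ≤ n) :
    volume (closedBall C₁ (1 / (32 * ‖D‖)) ∩ NonC m n M) ≤
      ENNReal.ofReal (4 * C1 (1 / 40) (6 * B) M r₀ * Cs / ‖D‖ ^ 2 *
        (9 / 4 / ‖X₁‖ ^ 2 + 3 / 2 / (n:ℝ) ^ 2)) := by
  have hn1 : 1 ≤ n := hm.trans e1
  have hn0 : (0:ℝ) < n := by exact_mod_cast hn1
  have hγ := gam_pos hm hn1
  set γ : ℝ := gam m n with hγd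
  set d : ℝ := ‖D‖ with hd
  have hd0 : 0 < d := by linarith
  set x₁ : ℝ := ‖X₁‖ with hx₁
  have hM := K.M0
  have hr₀ := K.r0
  have hB1 := K.B1
  have hCs := K.C0
  have hC1 : 0 < C1 (1 / 40) (6 * B) M r₀ := C1_pos (by norm_num) (by positivity) hM hr₀
  set h : ℂ → ℂ := fun C => (F m n C)^[k] 0 with hhd
  set ρ : ℝ := 3 / (2 * d) with hρ
  have hρ0 : 0 < ρ := by positivity
  have hρ1 : ρ ≤ 1 := by rw [hρ, div_le_one (by positivity)]; linarith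
  have hnγ : ∀ X : ℂ, ‖(γ:ℂ) * X‖ = γ * ‖X‖ := fun X => by
    rw [norm_mul, Complex.norm_real, Real.norm_of_nonneg hγ.le]
  -- the size of `h`
  have hhb : ∀ C ∈ ball C₁ ρ, x₁ - 3 ≤ ‖h C‖ ∧ ‖h C‖ ≤ x₁ + 3 := by
    intro C hC
    have h1 := (hh C hC).1
    constructor
    · have h2 : ‖X₁‖ ≤ ‖h C‖ + ‖h C - X₁‖ := by
        calc ‖X₁‖ = ‖h C - (h C - X₁)‖ := by congr 1; ring
          _ ≤ _ := norm_sub_le _ _
      linarith
    · calc ‖h C‖ = ‖(h C - X₁) + X₁‖ := by congr 1; ring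
        _ ≤ _ := norm_add_le _ _
        _ ≤ x₁ + 3 := by linarith
  have hγh : ∀ C ∈ ball C₁ ρ, ‖(γ:ℂ) * h C‖ ≤ 1 / 16 := by
    intro C hC
    rw [hnγ]
    exact (mul_le_mul_of_nonneg_left (hhb C hC).2 hγ.le).trans e2
  have hγC : ∀ C ∈ ball C₁ ρ, ‖(γ:ℂ) * C‖ ≤ 1 / 16 := by
    intro C hC
    rw [hnγ]
    rw [mem_ball, dist_eq_norm] at hC
    refine (mul_le_mul_of_nonneg_left ?_ hγ.le).trans e3
    calc ‖C‖ = ‖(C - C₁) + C₁‖ := by congr 1; ring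
      _ ≤ _ := norm_add_le _ _
      _ ≤ ‖C₁‖ + 1 := by linarith
  -- estimates for `1 - w`
  have hlow : ∀ w : ℂ, ‖w‖ ≤ 1 / 16 → 15 / 16 ≤ ‖1 - w‖ := by
    intro w hw
    have : ‖(1:ℂ)‖ ≤ ‖1 - w‖ + ‖w‖ := by
      calc ‖(1:ℂ)‖ = ‖(1 - w) + w‖ := by congr 1; ring
        _ ≤ _ := norm_add_le _ _
    rw [norm_one] at this
    linarith
  have hupp : ∀ w : ℂ, ‖w‖ ≤ 1 / 16 → ‖1 - w‖ ≤ 17 / 16 := by
    intro w hw
    have := norm_sub_le (1:ℂ) w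
    rw [norm_one] at this
    linarith
  have hslit : ∀ w : ℂ, ‖w‖ ≤ 1 / 16 → 1 - w ∈ Complex.slitPlane := by
    intro w hw
    rw [Complex.mem_slitPlane_iff]
    left
    have := Complex.re_le_norm w
    rw [Complex.sub_re, Complex.one_re]
    linarith
  have hcc := cc_pos (m := m) hn1
  have hccne : (cc m n : ℂ) ≠ 0 := by exact_mod_cast hcc.ne'
  set p : ℂ := Complex.log (cc m n) with hp
  have hpe : Complex.exp p = cc m n := Complex.exp_log hccne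
  set Θ : ℂ → ℂ := fun C => p + Complex.log (1 - γ * h C) with hΘ
  have hΘe : ∀ C ∈ ball C₁ ρ, Complex.exp (Θ C) = ze m n (h C) := by
    intro C hC
    have h1 : (1 - γ * h C : ℂ) ≠ 0 := Complex.slitPlane_ne_zero (hslit _ (hγh C hC))
    simp only [hΘ]
    rw [Complex.exp_add, hpe, Complex.exp_log h1]
    rfl
  have hder : ∀ C ∈ ball C₁ ρ, HasDerivAt Θ (-(γ * deriv h C) / (1 - γ * h C)) C := by
    intro C hC
    have h1 : HasDerivAt h (deriv h C) C := (diff_h m n k).differentiableAt.hasDerivAt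
    have h2 := (((h1.const_mul (γ:ℂ)).const_sub 1).clog (hslit _ (hγh C hC))).const_add p
    exact h2
  set aΘ : ℂ := -(γ * D) with haΘ
  have haΘn : ‖aΘ‖ = γ * d := by rw [haΘ, norm_neg, hnγ]
  have hsim : Sim Θ C₁ aΘ ρ := by
    refine ⟨hρ0, ?_, fun C hC => (hder C hC).differentiableAt.differentiableWithinAt, ?_⟩
    · rw [← norm_pos_iff, haΘn]; positivity
    · intro C hC
      rw [(hder C hC).deriv, haΘn]
      have h1 : (1 - γ * h C : ℂ) ≠ 0 := Complex.slitPlane_ne_zero (hslit _ (hγh C hC))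
      have e : -(γ * deriv h C) / (1 - γ * h C) - aΘ =
          -(γ * ((deriv h C - D) + (γ * h C) * D)) / (1 - γ * h C) := by
        rw [haΘ]; field_simp; ring
      rw [e, norm_div, norm_neg, hnγ]
      have h2 : ‖(deriv h C - D) + (γ * h C) * D‖ ≤ d / 4 + 1 / 16 * d := by
        refine (norm_add_le _ _).trans (add_le_add (hh C hC).2 ?_)
        rw [norm_mul]
        exact mul_le_mul_of_nonneg_right (hγh C hC) hd0.le
      rw [div_le_iff₀ (by linarith [hlow _ (hγh C hC)])]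
      have h3 := hlow _ (hγh C hC)
      have h4 : γ * ‖(deriv h C - D) + (γ * h C) * D‖ ≤ γ * (d / 4 + 1 / 16 * d) :=
        mul_le_mul_of_nonneg_left h2 hγ.le
      have h5 : γ * d / 2 * (15 / 16) ≤ γ * d / 2 * ‖1 - γ * h C‖ :=
        mul_le_mul_of_nonneg_left h3 (by positivity)
      have h6 : 0 < γ * d := by positivity
      linarith
  obtain ⟨Φ, hΦ1, hΦ2⟩ := hsim.inverse
  set x : ℂ := Θ C₁ with hx
  set r : ℝ := 3 * γ / 32 with hr
  have hr0 : 0 < r := by positivity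
  have hrr : r ≤ r₀ := by rw [hr]; linarith
  have h2r : ‖aΘ‖ * ρ / 8 = 2 * r := by
    rw [haΘn, hρ, hr]; field_simp; norm_num
  rw [h2r] at hΦ1 hΦ2
  have hC₁ρ : C₁ ∈ ball C₁ ρ := mem_ball_self hρ0
  set s : ℂ → ℂ := fun t => Complex.log (a0 m n) + Complex.log (1 - γ * Φ t) with hs
  have ha0 := a0_pos hm hn1
  have ha0ne : (a0 m n : ℂ) ≠ 0 := by exact_mod_cast ha0.ne'
  have hse : ∀ t ∈ ball x (2 * r), Complex.exp (s t) = aC m n (Φ t) := by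
    intro t ht
    have h1 : (1 - γ * Φ t : ℂ) ≠ 0 :=
      Complex.slitPlane_ne_zero (hslit _ (hγC _ (hΦ1 t ht).1))
    simp only [hs]
    rw [Complex.exp_add, Complex.exp_log ha0ne, Complex.exp_log h1]
    rfl
  have hsder : ∀ t ∈ ball x (2 * r), HasDerivAt s (-(γ * deriv Φ t) / (1 - γ * Φ t)) t := by
    intro t ht
    obtain ⟨h1, -, h3, -⟩ := hΦ1 t ht
    exact (((h3.hasDerivAt.const_mul (γ:ℂ)).const_sub 1).clog (hslit _ (hγC _ h1))).const_add _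
  have hslow : Slow s x r := by
    constructor
    · exact fun t ht => (hsder t ht).differentiableAt.differentiableWithinAt
    · intro t ht
      obtain ⟨h1, -, h3, h4⟩ := hΦ1 t ht
      rw [(hsder t ht).deriv, norm_div, norm_neg, hnγ]
      have h5 := hlow _ (hγC _ h1)
      rw [div_le_one (by linarith)]
      rw [haΘn] at h4
      have h6 : γ * ‖deriv Φ t‖ ≤ γ * (2 / (γ * d)) := mul_le_mul_of_nonneg_left h4 hγ.le
      have h7 : γ * (2 / (γ * d)) = 2 / d := by field_simp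
      have h8 : 2 / d ≤ 1 / 4 := by rw [div_le_div_iff₀ hd0 (by norm_num)]; linarith
      linarith
  set E₀ : Set ℂ := closedBall C₁ (1 / (32 * d)) ∩ NonC m n M with hE₀
  have hE₀ρ : E₀ ⊆ ball C₁ ρ := by
    intro C hC
    have h1 := hC.1
    rw [mem_closedBall] at h1
    rw [mem_ball]
    refine h1.trans_lt ?_
    rw [hρ, div_lt_div_iff₀ (by positivity) (by positivity)]
    linarith
  have hxr : ∀ C ∈ E₀, ‖Θ C - x‖ < r := by
    intro C hC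
    have h1 := hsim.upper (hE₀ρ hC) hC₁ρ
    have h2 := hC.1
    rw [mem_closedBall, dist_eq_norm] at h2
    rw [haΘn] at h1
    have h3 : 3 / 2 * (γ * d) * ‖C - C₁‖ ≤ 3 / 2 * (γ * d) * (1 / (32 * d)) :=
      mul_le_mul_of_nonneg_left h2 (by positivity)
    have h4 : 3 / 2 * (γ * d) * (1 / (32 * d)) = 3 * γ / 64 := by field_simp; norm_num
    rw [h4] at h3
    rw [hr]
    linarith
  set E : Set ℂ := Θ '' E₀ with hE
  have hENS : E ⊆ NS (fam (PP m) 1 n) M s x r := by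
    rintro _ ⟨C, hC, rfl⟩
    have h1 : Θ C ∈ ball x r := by rw [mem_ball, dist_eq_norm]; exact hxr C hC
    have h2 : Θ C ∈ ball x (2 * r) := ball_subset_ball (by linarith) h1
    refine ⟨h1, ?_⟩
    rw [hse _ h2, hΦ2 C (hE₀ρ hC) h2, hΘe C (hE₀ρ hC)]
    have h3 := Non_iter hC.2 (k - 1)
    rw [fam_eq, ← cc_iter hm hn1 C hk, ← fam_eq] at h3
    exact h3
  -- the zero `1`
  have hσ : (0:ℂ) ∈ Sg (PP m) 1 := by
    show (PP m).eval (Complex.exp 0) * (1 : Polynomial ℂ).eval (Complex.exp 0) = 0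
    rw [Complex.exp_zero, PP_eval, sub_self, zero_pow (by omega), zero_mul]
  obtain ⟨μ, hμB, hN⟩ := K.U.near 0 hσ
  set δ : ℝ := x₁ / (n:ℝ) ^ 2 with hδ
  have hδ0 : 0 < δ := by positivity
  have hb : 2 / 3 * (n:ℝ) ^ 2 * δ = 2 / 3 * x₁ := by rw [hδ]; field_simp
  have hvolE : volume E ≤ ENNReal.ofReal (C1 (1 / 40) (6 * B) M r₀ *
      (1 / (2 / 3 * (n:ℝ) ^ 2 * δ) ^ 2 + δ / (2 / 3 * (n:ℝ) ^ 2 * δ))) *
      Sup (fam (PP m) 1 n) M r₀ := by
    refine shell hr₀ hB1 hM hN hn1 hr0 hrr hslow hENS hδ0 (by rw [hb]; linarith) (q := x) ?_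
    rintro _ ⟨C, hC, rfl⟩
    have hCρ := hE₀ρ hC
    have hz := zz_ze hm hn1 (hΘe C hCρ)
    have hw := hγh C hCρ
    obtain ⟨hl, hu⟩ := hhb C hCρ
    have h1 := hlow _ hw
    have h2 := hupp _ hw
    have hpos : 0 < ‖1 - (γ:ℂ) * h C‖ := by linarith
    refine ⟨?_, ?_, ?_, ?_⟩
    · rw [sub_zero]
      have h3 : ‖p‖ = |Real.log (cc m n)| := by
        rw [hp, ← Complex.ofReal_log hcc.le, Complex.norm_real, Real.norm_eq_abs]
      have h4 : ‖Complex.log (1 - γ * h C)‖ ≤ 3 / 2 * ‖(γ:ℂ) * h C‖ := by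
        have := Complex.norm_log_one_add_half_le_self (z := -(γ * h C))
          (by rw [norm_neg]; linarith)
        rwa [norm_neg, ← sub_eq_add_neg] at this
      have h5 : ‖(γ:ℂ) * h C‖ ≤ γ * (x₁ + 3) := by
        rw [hnγ]; exact mul_le_mul_of_nonneg_left hu hγ.le
      calc ‖Θ C‖ ≤ ‖p‖ + ‖Complex.log (1 - γ * h C)‖ := norm_add_le _ _
        _ < 3 * r₀ := by rw [h3]; linarith
    · rw [hz]
      have h3 : ‖h C‖ / ‖1 - (γ:ℂ) * h C‖ ≤ n / 4 := by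
        rw [div_le_iff₀ hpos]
        nlinarith
      calc 2 / (n:ℝ) ^ 2 * (‖h C‖ / ‖1 - (γ:ℂ) * h C‖) ≤ 2 / (n:ℝ) ^ 2 * (n / 4) :=
            mul_le_mul_of_nonneg_left h3 (by positivity)
        _ = 1 / (2 * n) := by field_simp; norm_num
    · rw [hz, hδ]
      have h3 : x₁ / 2 ≤ ‖h C‖ / ‖1 - (γ:ℂ) * h C‖ := by
        rw [le_div_iff₀ hpos]
        have : x₁ / 2 * ‖1 - (γ:ℂ) * h C‖ ≤ x₁ / 2 * (17 / 16) :=
          mul_le_mul_of_nonneg_left h2 (by positivity)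
        linarith
      calc x₁ / (n:ℝ) ^ 2 = 2 / (n:ℝ) ^ 2 * (x₁ / 2) := by ring
        _ ≤ _ := mul_le_mul_of_nonneg_left h3 (by positivity)
    · refine (hxr C hC).le.trans ?_
      have h3 : γ ≤ 2 * m / (n:ℝ) ^ 2 := gam_le hn1
      have h4 : 3 * γ / 32 ≤ 6 * (x₁ / (n:ℝ) ^ 2) := by
        have h5 : 2 * (m:ℝ) / (n:ℝ) ^ 2 ≤ 2 * (x₁ / (n:ℝ) ^ 2) := by
          rw [mul_div_assoc]
          apply mul_le_mul_of_nonneg_left _ (by norm_num)
          exact div_le_div_of_nonneg_right hXm (by positivity)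
        have h6 : 0 ≤ x₁ / (n:ℝ) ^ 2 := by positivity
        linarith
      rw [hr, hδ]
      have h6 : 0 ≤ x₁ / (n:ℝ) ^ 2 := by positivity
      have h7 : 6 * (x₁ / (n:ℝ) ^ 2) ≤ 6 * B * (x₁ / (n:ℝ) ^ 2) := by
        apply mul_le_mul_of_nonneg_right _ h6
        linarith
      exact h4.trans h7
  have hfin := hsim.vol hE₀ρ
  refine hfin.trans ?_
  rw [haΘn]
  calc ENNReal.ofReal (4 / (γ * d) ^ 2) * volume (Θ '' E₀) ≤
      ENNReal.ofReal (4 / (γ * d) ^ 2) * (ENNReal.ofReal (C1 (1 / 40) (6 * B) M r₀ *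
      (1 / (2 / 3 * (n:ℝ) ^ 2 * δ) ^ 2 + δ / (2 / 3 * (n:ℝ) ^ 2 * δ))) *
      ENNReal.ofReal (Cs / (n:ℝ) ^ 4)) :=
        mul_le_mul_right (hvolE.trans (mul_le_mul_right (K.sup n hn₀) _)) _
    _ = ENNReal.ofReal (4 / (γ * d) ^ 2 * (C1 (1 / 40) (6 * B) M r₀ *
      (1 / (2 / 3 * (n:ℝ) ^ 2 * δ) ^ 2 + δ / (2 / 3 * (n:ℝ) ^ 2 * δ)) * (Cs / (n:ℝ) ^ 4))) := by
        rw [← ENNReal.ofReal_mul (by positivity), ← ENNReal.ofReal_mul (by positivity)]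
    _ ≤ _ := by
        apply ENNReal.ofReal_le_ofReal
        have h1 : 1 / (2 / 3 * (n:ℝ) ^ 2 * δ) ^ 2 + δ / (2 / 3 * (n:ℝ) ^ 2 * δ) =
            9 / 4 / x₁ ^ 2 + 3 / 2 / (n:ℝ) ^ 2 := by
          have h2 : δ / (2 / 3 * (n:ℝ) ^ 2 * δ) = 3 / 2 / (n:ℝ) ^ 2 := by field_simp
          rw [h2, hb]
          congr 1
          field_simp
          norm_num
        rw [h1]
        set Y : ℝ := 9 / 4 / x₁ ^ 2 + 3 / 2 / (n:ℝ) ^ 2 with hY
        have hY0 : 0 < Y := by positivity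
        have h2 : 1 ≤ (γ * (n:ℝ) ^ 2) ^ 2 := one_le_pow₀ (gam_ge hm e1)
        have h3 : 4 / (γ * d) ^ 2 * (C1 (1 / 40) (6 * B) M r₀ * Y * (Cs / (n:ℝ) ^ 4)) =
            (4 * C1 (1 / 40) (6 * B) M r₀ * Cs / d ^ 2 * Y) / (γ * (n:ℝ) ^ 2) ^ 2 := by
          field_simp
        rw [h3]
        exact div_le_self (by positivity) h2

end Pool.Agent.Q79.CM
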