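import Mathlib
import Pool.Agent.Q79.CmpE

/-!
# Outside the Mandelbrot set almost no parameters remain
-/

set_option autoImplicit false

open MeasureTheory Set Filter Topology Metric

namespace Pool.Agent.Q79.CM

open Pool.Agent.Q79.MN
open Pool.Agent.H712R2 (P)
open Pool.Agent.H713R2 (differentiable_P)

/-- locally uniform convergence of the rescaled critical orbit -/
theorem tendsto_h {m : ℕ} (hm : 1 ≤ m) (k : ℕ) :
    TendstoLocallyUniformlyOn (fun n C => (F m n C)^[k] 0) (P 2 k) atTop univ := by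
  rw [tendstoLocallyUniformlyOn_univ, tendstoLocallyUniformly_iff_forall_tendsto]
  intro C
  have h0 : Tendsto (fun y : ℕ × ℂ => (F m y.1 y.2)^[k] 0) (atTop ×ˢ 𝓝 C) (𝓝 (P 2 k C)) := by
    have h1 : Tendsto (fun y : ℕ × ℂ => (y, (0:ℂ))) (atTop ×ˢ 𝓝 C) ((atTop ×ˢ 𝓝 C) ×ˢ 𝓝 0) :=
      tendsto_id.prodMk tendsto_const_nhds
    have h2 := (tendsto_iter hm C 0 k).comp h1
    rw [P_eq]
    simpa only [Function.comp_def] using h2
  have h1 : Tendsto (fun y : ℕ × ℂ => P 2 k y.2) (atTop ×ˢ 𝓝 C) (𝓝 (P 2 k C)) :=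
    ((differentiable_P 2 k).continuous.tendsto C).comp tendsto_snd
  exact (h1.prodMk_nhds h0).mono_right (nhds_le_uniformity (P 2 k C))

/-- **density**: around a parameter outside the Mandelbrot set the remaining parameters have small
density at a small scale -/
theorem dens {m : ℕ} (hm : 1 ≤ m) {M r₀ B Cs : ℝ} {n₀ : ℕ} (K : Cst m M r₀ B Cs n₀) {C₁ : ℂ}
    (hesc : Tendsto (fun k => ‖P 2 k C₁‖) atTop atTop) {ε R : ℝ} (hε : 0 < ε) (hR : 0 < R) :
    ∃ ρ : ℝ, 0 < ρ ∧ ρ < R ∧ ∀ᶠ n in atTop, volume (closedBall C₁ ρ ∩ NonC m n M) ≤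
      ENNReal.ofReal ε * volume (closedBall C₁ ρ) := by
  have hM := K.M0
  have hr₀ := K.r0
  have hB1 := K.B1
  have hCs := K.C0
  have hpi := Real.pi_pos
  have hC1 : 0 < C1 (1 / 40) (6 * B) M r₀ := C1_pos (by norm_num) (by positivity) hM hr₀
  set A : ℝ := 4 * C1 (1 / 40) (6 * B) M r₀ * Cs with hA
  have hA0 : 0 < A := by positivity
  set Y : ℝ := ε * Real.pi / 1024 with hY
  have hY0 : 0 < Y := by positivity
  set L : ℝ := 8 + m + 1 / R + 5 * A / Y with hL
  have hL1 : 0 < 1 / R := by positivity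
  have hL2 : 0 < 5 * A / Y := by positivity
  have hm0 : (0:ℝ) ≤ m := Nat.cast_nonneg m
  obtain ⟨k, hk, hD, hD0, hX, hdist⟩ := lemQ hesc L
  set D : ℂ := deriv (P 2 k) C₁ with hDd
  set X₁ : ℂ := P 2 k C₁ with hX₁
  set d : ℝ := ‖D‖ with hd
  have hd8 : 8 ≤ d := by linarith
  set ρ : ℝ := 1 / (32 * d) with hρ
  have hρ0 : 0 < ρ := by positivity
  refine ⟨ρ, hρ0, ?_, ?_⟩
  · rw [hρ, div_lt_iff₀ (by positivity)]
    have h1 : 1 / R < d := by linarith
    rw [div_lt_iff₀ hR] at h1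
    nlinarith
  -- uniform convergence
  have hlu := tendsto_h hm k
  have hlud := hlu.deriv (Eventually.of_forall fun n => (diff_h m n k).differentiableOn) isOpen_univ
  have hKc : IsCompact (closedBall C₁ (3 / (2 * d))) := isCompact_closedBall _ _
  have hu := (tendstoLocallyUniformlyOn_iff_forall_isCompact isOpen_univ).1 hlu _
    (subset_univ _) hKc
  have hud := (tendstoLocallyUniformlyOn_iff_forall_isCompact isOpen_univ).1 hlud _
    (subset_univ _) hKc
  rw [Metric.tendstoUniformlyOn_iff] at hu hud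
  have hg := tendsto_gam m
  have hgc : ∀ c : ℝ, Tendsto (fun n => gam m n * c) atTop (𝓝 0) := fun c => by
    have := hg.mul_const c
    rwa [zero_mul] at this
  have hlog : Tendsto (fun n => |Real.log (cc m n)| + 3 / 2 * (gam m n * (‖X₁‖ + 3))) atTop
      (𝓝 0) := by
    have h1 : Tendsto (fun n => |Real.log (cc m n)|) atTop (𝓝 0) := by
      have h2 := ((Real.continuousAt_log (one_ne_zero)).tendsto.comp (tendsto_cc m)).abs
      rw [Real.log_one, abs_zero] at h2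
      exact h2
    have h3 := h1.add ((hgc (‖X₁‖ + 3)).const_mul (3 / 2))
    rwa [mul_zero, add_zero] at h3
  have hnn : Tendsto (fun n : ℕ => (n:ℝ)) atTop atTop := tendsto_natCast_atTop_atTop
  have hn2 : Tendsto (fun n : ℕ => A * (3 / 2 / (n:ℝ) ^ 2)) atTop (𝓝 0) := by
    have h1 : Tendsto (fun n : ℕ => 3 / 2 / (n:ℝ) ^ 2) atTop (𝓝 0) :=
      tendsto_const_nhds.div_atTop ((tendsto_pow_atTop (by norm_num)).comp hnn)
    have := h1.const_mul A
    rwa [mul_zero] at this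
  filter_upwards [hu 1 one_pos, hud (d / 8) (by linarith), eventually_ge_atTop n₀,
    eventually_ge_atTop m, (hgc (‖X₁‖ + 3)).eventually_le_const (show (0:ℝ) < 1 / 16 by norm_num),
    (hgc (‖C₁‖ + 1)).eventually_le_const (show (0:ℝ) < 1 / 16 by norm_num),
    hg.eventually_le_const hr₀, hlog.eventually_lt_const (show (0:ℝ) < 3 * r₀ by linarith),
    hnn.eventually_ge_atTop (5 * (‖X₁‖ + 3)),
    hn2.eventually_le_const (show (0:ℝ) < Y / 2 by positivity)]
    with n u1 u2 hn₀ e1 e2 e3 e4 e5 e6 e7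
  have hsub : ball C₁ (3 / (2 * d)) ⊆ ball C₁ (2 / d) := by
    apply ball_subset_ball
    rw [div_le_div_iff₀ (by positivity) (by positivity)]
    linarith
  have hh : ∀ C ∈ ball C₁ (3 / (2 * d)), ‖(F m n C)^[k] 0 - X₁‖ ≤ 3 ∧
      ‖deriv (fun C => (F m n C)^[k] 0) C - D‖ ≤ d / 4 := by
    intro C hC
    have hC' := ball_subset_closedBall hC
    have h1 : ‖P 2 k C - (F m n C)^[k] 0‖ < 1 := by
      have := u1 C hC'
      rwa [dist_eq_norm] at this
    have h2 : ‖deriv (P 2 k) C - deriv (fun C => (F m n C)^[k] 0) C‖ < d / 8 := by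
      have := u2 C hC'
      rwa [dist_eq_norm] at this
    have h3 := hdist C (hsub hC)
    have h4 : ‖P 2 k C - X₁‖ ≤ 9 / 8 * d * ‖C - C₁‖ := by
      apply (convex_ball C₁ (2 / d)).norm_image_sub_le_of_norm_deriv_le (𝕜 := ℂ) _ _
        (mem_ball_self (by positivity)) (hsub hC)
      · intro y _
        exact (differentiable_P 2 k).differentiableAt
      · intro y hy
        have h5 := hdist y hy
        calc ‖deriv (P 2 k) y‖ = ‖(deriv (P 2 k) y - D) + D‖ := by congr 1; ring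
          _ ≤ ‖deriv (P 2 k) y - D‖ + ‖D‖ := norm_add_le _ _
          _ ≤ 9 / 8 * d := by linarith
    have h6 : 9 / 8 * d * ‖C - C₁‖ ≤ 2 := by
      rw [mem_ball, dist_eq_norm, lt_div_iff₀ (by positivity)] at hC
      nlinarith
    constructor
    · calc ‖(F m n C)^[k] 0 - X₁‖ = ‖(P 2 k C - X₁) - (P 2 k C - (F m n C)^[k] 0)‖ := by
            congr 1; ring
        _ ≤ ‖P 2 k C - X₁‖ + ‖P 2 k C - (F m n C)^[k] 0‖ := norm_sub_le _ _
        _ ≤ 3 := by linarith
    · calc ‖deriv (fun C => (F m n C)^[k] 0) C - D‖ =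
            ‖(deriv (P 2 k) C - D) - (deriv (P 2 k) C - deriv (fun C => (F m n C)^[k] 0) C)‖ := by
            congr 1; ring
        _ ≤ ‖deriv (P 2 k) C - D‖ + ‖deriv (P 2 k) C - deriv (fun C => (F m n C)^[k] 0) C‖ :=
            norm_sub_le _ _
        _ ≤ d / 4 := by linarith
  have hXL : 8 ≤ ‖X₁‖ := by linarith
  have hmain := dens_core hm K hn₀ hk hd8 hXL (by linarith) hh e1 e2 e3 e4 e5 e6
  refine hmain.trans ?_
  rw [vol_cball _ hρ0.le, ← ENNReal.ofReal_mul hε.le]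
  apply ENNReal.ofReal_le_ofReal
  have h1 : A * (9 / 4 / ‖X₁‖ ^ 2) ≤ Y / 2 := by
    have h2 : 5 * A / Y ≤ ‖X₁‖ := by linarith
    rw [div_le_iff₀ hY0] at h2
    rw [mul_div_assoc', div_le_iff₀ (by positivity)]
    have h3 : ‖X₁‖ ≤ ‖X₁‖ ^ 2 := by nlinarith
    have h4 : ‖X₁‖ * Y ≤ ‖X₁‖ ^ 2 * Y := mul_le_mul_of_nonneg_right h3 hY0.le
    nlinarith
  have h5 : A / d ^ 2 * (9 / 4 / ‖X₁‖ ^ 2 + 3 / 2 / (n:ℝ) ^ 2) =
      (A * (9 / 4 / ‖X₁‖ ^ 2) + A * (3 / 2 / (n:ℝ) ^ 2)) / d ^ 2 := by ring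
  have h6 : ε * (Real.pi * ρ ^ 2) = Y / d ^ 2 := by
    rw [hρ, hY]; field_simp; norm_num
  rw [h5, h6]
  apply div_le_div_of_nonneg_right _ (by positivity)
  linarith

/-- covering -/
theorem cover_zero {W : Set ℂ} (hW : IsOpen W) (hfin : volume W ≠ ⊤) (N : ℕ → Set ℂ)
    (h : ∀ x ∈ W, ∀ ε : ℝ, 0 < ε → ∀ R : ℝ, 0 < R → ∃ ρ : ℝ, 0 < ρ ∧ ρ < R ∧
      ∀ᶠ n in atTop, volume (closedBall x ρ ∩ N n) ≤ ENNReal.ofReal ε * volume (closedBall x ρ)) :
    Tendsto (fun n => volume (W ∩ N n)) atTop (𝓝 0) := by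
  rw [ENNReal.tendsto_nhds_zero]
  intro ε₀ hε₀
  -- a small number
  obtain ⟨η, hη, hη2⟩ : ∃ η : ℝ, 0 < η ∧
      ENNReal.ofReal η * volume W + ENNReal.ofReal η ≤ ε₀ := by
    have h1 : Tendsto (fun η : ℝ => ENNReal.ofReal η * volume W + ENNReal.ofReal η) (𝓝[>] 0)
        (𝓝 (ENNReal.ofReal 0 * volume W + ENNReal.ofReal 0)) := by
      have h2 : Tendsto (fun η : ℝ => ENNReal.ofReal η) (𝓝[>] 0) (𝓝 (ENNReal.ofReal 0)) :=
        (ENNReal.continuous_ofReal.tendsto 0).mono_left nhdsWithin_le_nhds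
      exact (ENNReal.Tendsto.mul_const h2 (Or.inr hfin)).add h2
    rw [ENNReal.ofReal_zero, zero_mul, add_zero] at h1
    obtain ⟨η, h3, h4⟩ := ((h1.eventually_le_const hε₀).and self_mem_nhdsWithin).exists
    exact ⟨η, h4, h3⟩
  choose! R hR hRW using fun x (hx : x ∈ W) => Metric.isOpen_iff.1 hW x hx
  obtain ⟨t, r, htc, htW, hr, hnull, hdis⟩ := Besicovitch.exists_disjoint_closedBall_covering_ae
    (volume : Measure ℂ)
    (fun x => {ρ : ℝ | ∀ᶠ n in atTop, volume (closedBall x ρ ∩ N n) ≤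
      ENNReal.ofReal η * volume (closedBall x ρ)}) W (by
        intro x hx δ hδ
        obtain ⟨ρ, h1, h2, h3⟩ := h x hx η hη δ hδ
        exact ⟨ρ, h3, h1, h2⟩) R hR
  have : Countable t := htc.to_subtype
  have hsub : ∀ x ∈ t, closedBall x (r x) ⊆ W := fun x hx =>
    (closedBall_subset_ball (hr x hx).2.2).trans (hRW x (htW hx))
  have hsum : ∑' x : t, volume (closedBall (x:ℂ) (r x)) ≤ volume W := by
    rw [← measure_biUnion htc hdis fun x _ => measurableSet_closedBall]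
    exact measure_mono (iUnion₂_subset hsub)
  have hsumf : ∑' x : t, volume (closedBall (x:ℂ) (r x)) ≠ ⊤ := ne_top_of_le_ne_top hfin hsum
  obtain ⟨F, hF⟩ := ((ENNReal.tendsto_tsum_compl_atTop_zero hsumf).eventually_le_const
    (ENNReal.ofReal_pos.2 hη)).exists
  have hall : ∀ᶠ n in atTop, ∀ x ∈ F, volume (closedBall (x:ℂ) (r x) ∩ N n) ≤
      ENNReal.ofReal η * volume (closedBall (x:ℂ) (r x)) := by
    rw [Filter.eventually_all_finset]
    intro x _
    exact (hr x x.2).1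
  filter_upwards [hall] with n hn
  have hcov : W ∩ N n ⊆ (W \ ⋃ x ∈ t, closedBall x (r x)) ∪
      ((⋃ x ∈ F, closedBall (x:ℂ) (r x) ∩ N n) ∪
        ⋃ x : {x : t // x ∉ F}, closedBall (x:ℂ) (r x)) := by
    rintro y ⟨hy1, hy2⟩
    by_cases hy : y ∈ ⋃ x ∈ t, closedBall x (r x)
    · right
      rw [mem_iUnion₂] at hy
      obtain ⟨x, hx, hxy⟩ := hy
      by_cases hxF : (⟨x, hx⟩ : t) ∈ F
      · left
        exact mem_iUnion₂.2 ⟨⟨x, hx⟩, hxF, hxy, hy2⟩
      · right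
        exact mem_iUnion.2 ⟨⟨⟨x, hx⟩, hxF⟩, hxy⟩
    · exact Or.inl ⟨hy1, hy⟩
  calc volume (W ∩ N n) ≤ volume ((W \ ⋃ x ∈ t, closedBall x (r x)) ∪
      ((⋃ x ∈ F, closedBall (x:ℂ) (r x) ∩ N n) ∪
        ⋃ x : {x : t // x ∉ F}, closedBall (x:ℂ) (r x))) := measure_mono hcov
    _ ≤ volume (W \ ⋃ x ∈ t, closedBall x (r x)) +
        (volume (⋃ x ∈ F, closedBall (x:ℂ) (r x) ∩ N n) +
          volume (⋃ x : {x : t // x ∉ F}, closedBall (x:ℂ) (r x))) :=
        (measure_union_le _ _).trans (add_le_add le_rfl (measure_union_le _ _))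
    _ ≤ 0 + (∑ x ∈ F, ENNReal.ofReal η * volume (closedBall (x:ℂ) (r x)) +
        ∑' x : {x : t // x ∉ F}, volume (closedBall (x:ℂ) (r x))) := by
        apply add_le_add hnull.le
        apply add_le_add
        · exact (measure_biUnion_finset_le _ _).trans (Finset.sum_le_sum hn)
        · exact measure_iUnion_le _
    _ ≤ 0 + (ENNReal.ofReal η * volume W + ENNReal.ofReal η) := by
        apply add_le_add le_rfl
        apply add_le_add _ hF
        rw [← Finset.mul_sum]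
        apply mul_le_mul_right
        exact (ENNReal.sum_le_tsum F).trans hsum
    _ ≤ ε₀ := by rw [zero_add]; exact hη2

end Pool.Agent.Q79.CM
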