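import Mathlib
import Pool.Agent.Q79.CmpF
import Pool.Agent.Q79.MonG

/-!
# Areas in the parameter plane of `a z ^ n (1 - z) ^ m` and in the rescaled coordinate
-/

set_option autoImplicit false

open MeasureTheory Set Filter Topology Metric
open scoped Pointwise

namespace Pool.Agent.Q79.CM

open Pool.Agent.Q79.MN
open Pool.Agent.Q79.PW (G cover)
open Pool.Agent.H712R2 (P esc_of_gt P_one continuous_P)
open Pool.Agent.H713R2 (low_growth)

/-- the Mandelbrot set -/
def Mand : Set ℂ := {C | ¬ Esc (Qd C) 0}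

/-- the parameters `C` for which the critical orbit of `X ^ 2 + C` is attracted by a sink -/
def HC : Set ℂ := {C | Att (Qd C) 0}

theorem esc_of {k : ℕ} (hk : 1 ≤ k) {C : ℂ} (h : 2 < ‖P 2 k C‖) : Esc (Qd C) 0 := by
  have h1 := esc_of_gt le_rfl hk h
  have h2 : ∀ j, (‖P 2 k C‖ - 1) ^ (2 ^ j) + 1 ≤ ‖P 2 (k + j) C‖ := fun j =>
    low_growth le_rfl h.le h1 le_rfl j
  have h3 : Tendsto (fun j : ℕ => (‖P 2 k C‖ - 1) ^ (2 ^ j) + 1) atTop atTop :=
    tendsto_atTop_add_const_right _ _ ((tendsto_pow_atTop_atTop_of_one_lt (by linarith)).comp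
      (tendsto_pow_atTop_atTop_of_one_lt (by norm_num : 1 < 2)))
  have h4 : Tendsto (fun j : ℕ => ‖P 2 (j + k) C‖) atTop atTop :=
    tendsto_atTop_mono (fun j => by rw [add_comm j k]; exact h2 j) h3
  exact (tendsto_add_atTop_iff_nat (f := fun j => ‖P 2 j C‖) k).1 h4

theorem compl_Mand : Mandᶜ = ⋃ k : ℕ, {C | 2 < ‖P 2 (k + 1) C‖} := by
  ext C
  rw [mem_compl_iff, mem_iUnion]
  constructor
  · intro h
    have h1 : Esc (Qd C) 0 := not_not.1 h
    obtain ⟨k, hk, hk1⟩ := ((h1.eventually_gt_atTop 2).and (eventually_ge_atTop 1)).exists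
    refine ⟨k - 1, ?_⟩
    show 2 < ‖P 2 (k - 1 + 1) C‖
    rw [Nat.sub_add_cancel hk1]
    exact hk
  · rintro ⟨k, hk⟩
    exact not_not.2 (esc_of (by omega) hk)

theorem isOpen_compl_Mand : IsOpen Mandᶜ := by
  rw [compl_Mand]
  exact isOpen_iUnion fun k => isOpen_lt continuous_const (continuous_P 2 (k + 1)).norm

theorem isClosed_Mand : IsClosed Mand := isOpen_compl_iff.1 isOpen_compl_Mand

theorem Mand_sub : Mand ⊆ closedBall 0 2 := by
  intro C hC
  rw [mem_closedBall_zero_iff]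
  by_contra h
  push Not at h
  exact hC (esc_of (k := 1) le_rfl (by rw [P_one le_rfl]; exact h))

theorem isCompact_Mand : IsCompact Mand :=
  (isCompact_closedBall (0:ℂ) 2).of_isClosed_subset isClosed_Mand Mand_sub

theorem Mand_fin : volume Mand ≠ ⊤ := isCompact_Mand.measure_lt_top.ne

theorem HC_sub : HC ⊆ Mand := by
  rintro C ⟨k, hk, x, -, -, h3⟩ hesc
  have h1 : Tendsto (fun j : ℕ => ‖(Qd C)^[k * j] 0‖) atTop atTop :=
    hesc.comp (tendsto_id.const_mul_atTop' hk)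
  exact not_tendsto_nhds_of_tendsto_atTop h1 _ h3.norm

/-- no parameters remain outside the Mandelbrot set -/
theorem vanish {m : ℕ} (hm : 1 ≤ m) {M r₀ B Cs : ℝ} {n₀ : ℕ} (K : Cst m M r₀ B Cs n₀) (R : ℝ) :
    Tendsto (fun n => volume ((ball 0 R \ Mand) ∩ NonC m n M)) atTop (𝓝 0) := by
  apply cover_zero
  · exact isOpen_ball.inter isOpen_compl_Mand
  · exact ne_top_of_le_ne_top measure_ball_lt_top.ne (measure_mono sdiff_subset)
  · intro C hC ε hε R hR
    exact dens hm K (not_not.1 hC.2) hε hR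

/-! ### the affine coordinate -/

theorem aC_norm {m n : ℕ} (hm : 1 ≤ m) (hn : 1 ≤ n) {C : ℂ} {R : ℝ} (hC : ‖C‖ ≤ R) :
    a0 m n * (1 - gam m n * R) ≤ ‖aC m n C‖ ∧ ‖aC m n C‖ ≤ a0 m n * (1 + gam m n * R) := by
  have h0 := a0_pos hm hn
  have hg := gam_pos hm hn
  have h1 : ‖aC m n C‖ = a0 m n * ‖1 - (gam m n : ℂ) * C‖ := by
    unfold aC
    rw [norm_mul, Complex.norm_real, Real.norm_of_nonneg h0.le]
  have h2 : ‖(gam m n : ℂ) * C‖ ≤ gam m n * R := by
    rw [norm_mul, Complex.norm_real, Real.norm_of_nonneg hg.le]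
    exact mul_le_mul_of_nonneg_left hC hg.le
  rw [h1]
  constructor
  · apply mul_le_mul_of_nonneg_left _ h0.le
    have : ‖(1:ℂ)‖ ≤ ‖1 - (gam m n : ℂ) * C‖ + ‖(gam m n : ℂ) * C‖ := by
      calc ‖(1:ℂ)‖ = ‖(1 - (gam m n : ℂ) * C) + (gam m n : ℂ) * C‖ := by congr 1; ring
        _ ≤ _ := norm_add_le _ _
    rw [norm_one] at this
    linarith
  · apply mul_le_mul_of_nonneg_left _ h0.le
    have := norm_sub_le (1:ℂ) ((gam m n : ℂ) * C)
    rw [norm_one] at this
    linarith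

theorem vol_aC {m n : ℕ} (hm : 1 ≤ m) (hn : 1 ≤ n) (E : Set ℂ) :
    volume (aC m n '' E) = ENNReal.ofReal ((a0 m n * gam m n) ^ 2) * volume E := by
  have h0 := a0_pos hm hn
  have hg := gam_pos hm hn
  have e : aC m n '' E = (fun z => (a0 m n : ℂ) + z) '' ((-(a0 m n * gam m n) : ℝ) • E) := by
    rw [← image_smul, image_image]
    apply image_congr
    intro C _
    unfold aC
    rw [Complex.real_smul]
    push_cast
    ring
  rw [e, image_add_left, measure_preimage_add, Measure.addHaar_smul, Complex.finrank_real_complex]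
  congr 2
  rw [neg_sq, abs_of_nonneg (by positivity)]

/-- upper bound for the logarithmic area -/
theorem logArea_le {S : Set ℂ} {c : ℝ} (hc : 0 < c) (hS : ∀ w ∈ S, c ≤ ‖w‖) :
    logArea S ≤ ENNReal.ofReal ((c ^ 2)⁻¹) * volume S := by
  set V : Set ℂ := {w | c ≤ ‖w‖} with hV
  have hVm : MeasurableSet V := measurableSet_le measurable_const measurable_norm
  have h1 : logArea.restrict V ≤ ENNReal.ofReal ((c ^ 2)⁻¹) • (volume : Measure ℂ) := by
    rw [Measure.le_iff]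
    intro A hA
    rw [Measure.restrict_apply hA, Measure.smul_apply, smul_eq_mul]
    unfold logArea
    rw [withDensity_apply _ (hA.inter hVm)]
    calc ∫⁻ w in A ∩ V, ENNReal.ofReal ((‖w‖ ^ 2)⁻¹) ≤
        ∫⁻ _ in A ∩ V, ENNReal.ofReal ((c ^ 2)⁻¹) := by
          apply setLIntegral_mono' (hA.inter hVm)
          intro w hw
          apply ENNReal.ofReal_le_ofReal
          exact inv_anti₀ (by positivity) (pow_le_pow_left₀ hc.le hw.2 2)
      _ = ENNReal.ofReal ((c ^ 2)⁻¹) * volume (A ∩ V) := by rw [setLIntegral_const]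
      _ ≤ ENNReal.ofReal ((c ^ 2)⁻¹) * volume A :=
          mul_le_mul_right (measure_mono inter_subset_left) _
  have h2 := h1 S
  rwa [Measure.restrict_eq_self _ (show S ⊆ V from hS)] at h2

theorem logArea_ge {S : Set ℂ} (hS : MeasurableSet S) {c : ℝ} (h : ∀ w ∈ S, 0 < ‖w‖ ∧ ‖w‖ ≤ c) :
    ENNReal.ofReal ((c ^ 2)⁻¹) * volume S ≤ logArea S := by
  unfold logArea
  rw [withDensity_apply _ hS, ← setLIntegral_const]
  apply setLIntegral_mono' hS
  intro w hw
  obtain ⟨h1, h2⟩ := h w hw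
  apply ENNReal.ofReal_le_ofReal
  exact inv_anti₀ (by positivity) (pow_le_pow_left₀ h1.le h2 2)

theorem logArea_aC_le {m n : ℕ} (hm : 1 ≤ m) (hn : 1 ≤ n) {R : ℝ} (hR : gam m n * R < 1)
    {E : Set ℂ} (hE : E ⊆ closedBall 0 R) :
    logArea (aC m n '' E) ≤
      ENNReal.ofReal ((gam m n / (1 - gam m n * R)) ^ 2) * volume E := by
  have h0 := a0_pos hm hn
  have hg := gam_pos hm hn
  have h1 : 0 < 1 - gam m n * R := by linarith
  refine (logArea_le (c := a0 m n * (1 - gam m n * R)) (by positivity) ?_).trans ?_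
  · rintro _ ⟨C, hC, rfl⟩
    exact (aC_norm hm hn (mem_closedBall_zero_iff.1 (hE hC))).1
  · rw [vol_aC hm hn, ← mul_assoc, ← ENNReal.ofReal_mul (by positivity)]
    apply le_of_eq
    congr 2
    field_simp

theorem logArea_aC_ge {m n : ℕ} (hm : 1 ≤ m) (hn : 1 ≤ n) {R : ℝ} (hR0 : 0 ≤ R)
    (hR : gam m n * R < 1) {E : Set ℂ} (hEc : IsCompact E) (hE : E ⊆ closedBall 0 R) :
    ENNReal.ofReal ((gam m n / (1 + gam m n * R)) ^ 2) * volume E ≤ logArea (aC m n '' E) := by
  have h0 := a0_pos hm hn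
  have hg := gam_pos hm hn
  have h1 : 0 < 1 - gam m n * R := by linarith
  have hc : Continuous (aC m n) := by unfold aC; fun_prop
  refine le_trans ?_ (logArea_ge (hEc.image hc).measurableSet
    (c := a0 m n * (1 + gam m n * R)) ?_)
  · rw [vol_aC hm hn, ← mul_assoc, ← ENNReal.ofReal_mul (by positivity)]
    apply le_of_eq
    congr 2
    field_simp
  · rintro _ ⟨C, hC, rfl⟩
    have h2 := aC_norm hm hn (mem_closedBall_zero_iff.1 (hE hC))
    exact ⟨lt_of_lt_of_le (by positivity) h2.1, h2.2⟩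

/-- the coordinate of a parameter -/
theorem exists_aC {m n : ℕ} (hm : 1 ≤ m) (hn : 1 ≤ n) (a : ℂ) : ∃ C : ℂ, aC m n C = a := by
  have h0 : (a0 m n : ℂ) ≠ 0 := by exact_mod_cast (a0_pos hm hn).ne'
  have hg : (gam m n : ℂ) ≠ 0 := by exact_mod_cast (gam_pos hm hn).ne'
  refine ⟨(1 - a / a0 m n) / gam m n, ?_⟩
  unfold aC
  field_simp
  ring

theorem aC_kap {m n : ℕ} (hm : 1 ≤ m) (hn : 1 ≤ n) (C : ℂ) :
    aC m n C * kap m n = ze m n C := by
  have hk : (kap m n : ℂ) ≠ 0 := by exact_mod_cast (kap_pos hm hn).ne'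
  unfold aC a0 ze
  push_cast
  field_simp

/-- the outer set of critical values -/
def VV (m n : ℕ) (K : ℝ) : Set ℂ := {z | K / (n:ℝ) ^ 2 < ‖(z - 1) / (m * z) + 1 / n‖}

theorem VV_meas (m n : ℕ) (K : ℝ) : MeasurableSet (VV m n K) := by
  unfold VV
  apply measurableSet_lt measurable_const
  exact ((((measurable_id.sub_const 1).div (measurable_id.const_mul (m:ℂ))).add_const _)).norm

theorem mem_VV {m n : ℕ} (hm : 1 ≤ m) {K : ℝ} (t : ℂ) :
    Complex.exp t ∈ VV m n K ↔ K / (n:ℝ) ^ 2 < zz (PP m) 1 n t := by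
  unfold VV zz
  rw [G_inv hm]
  rfl

theorem inner_bound {m n : ℕ} (hm : 1 ≤ m) (hn : 1 ≤ n) {K : ℝ} (hK : gam m n * K ≤ 1)
    {C : ℂ} (hne : ze m n C ≠ 0) (h : ze m n C ∉ VV m n K) : ‖C‖ ≤ K := by
  have hg := gam_pos hm hn
  have hn0 : (0:ℝ) < n := by exact_mod_cast hn
  have h1 : Complex.exp (Complex.log (ze m n C)) = ze m n C := Complex.exp_log hne
  have h2 : ¬ K / (n:ℝ) ^ 2 < zz (PP m) 1 n (Complex.log (ze m n C)) := by
    rw [← mem_VV hm, h1]; exact h
  rw [zz_ze hm hn h1, not_lt] at h2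
  have hcc : (cc m n : ℂ) ≠ 0 := by exact_mod_cast (cc_pos (m := m) hn).ne'
  have h3 : (1 - gam m n * C : ℂ) ≠ 0 := by
    intro h3
    apply hne
    unfold ze
    rw [h3, mul_zero]
  have h4 : 0 < ‖1 - (gam m n : ℂ) * C‖ := norm_pos_iff.2 h3
  have h5 : 2 * (‖C‖ / ‖1 - (gam m n : ℂ) * C‖) ≤ K := by
    have h6 : 2 / (n:ℝ) ^ 2 * (‖C‖ / ‖1 - (gam m n : ℂ) * C‖) =
        2 * (‖C‖ / ‖1 - (gam m n : ℂ) * C‖) / (n:ℝ) ^ 2 := by ring
    rw [h6, div_le_div_iff_of_pos_right (by positivity)] at h2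
    exact h2
  rw [mul_div_assoc', div_le_iff₀ h4] at h5
  have h7 : ‖1 - (gam m n : ℂ) * C‖ ≤ 1 + gam m n * ‖C‖ := by
    have := norm_sub_le (1:ℂ) ((gam m n : ℂ) * C)
    rwa [norm_one, norm_mul, Complex.norm_real, Real.norm_of_nonneg hg.le] at this
  by_cases hK0 : 0 ≤ K
  · have h8 : K * ‖1 - (gam m n : ℂ) * C‖ ≤ K * (1 + gam m n * ‖C‖) :=
      mul_le_mul_of_nonneg_left h7 hK0
    have h9 : gam m n * K * ‖C‖ ≤ 1 * ‖C‖ := mul_le_mul_of_nonneg_right hK (norm_nonneg _)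
    nlinarith
  · push Not at hK0
    have := norm_nonneg C
    nlinarith

/-- the parameters for which a critical value stays in the annulus and lies in `V` -/
theorem param_area' {PA QB : Polynomial ℂ} {n : ℕ} {M r₀ : ℝ} (hM : 0 ≤ M) (hr₀ : 0 < r₀) {κ : ℂ}
    (hκ : κ ≠ 0) {V : Set ℂ} (hV : MeasurableSet V) {b : ENNReal}
    (hb : ∀ (x : ℂ) (s : ℂ → ℂ), Slow s x r₀ →
      volume (NS (fam PA QB n) M s x r₀ ∩ {t | Complex.exp t ∈ V}) ≤ b) :
    logArea {a : ℂ | Non (fam PA QB n) M a (a * κ) ∧ a * κ ∈ V} ≤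
      ENNReal.ofReal ((4 * M / r₀ + 1) * (4 * Real.pi / r₀ + 1)) * b := by
  set E : Set ℂ := {u : ℂ | (-Real.pi < u.im ∧ u.im ≤ Real.pi) ∧
    Non (fam PA QB n) M (Complex.exp u / κ) (Complex.exp u) ∧ Complex.exp u ∈ V} with hE
  have hEm : MeasurableSet E := by
    have h1 : MeasurableSet {u : ℂ | -Real.pi < u.im ∧ u.im ≤ Real.pi} :=
      (measurableSet_lt measurable_const Complex.measurable_im).inter
        (measurableSet_le Complex.measurable_im measurable_const)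
    have h2 : Measurable fun u : ℂ => (Complex.exp u / κ, Complex.exp u) :=
      (Complex.measurable_exp.div_const κ).prodMk Complex.measurable_exp
    exact h1.inter ((h2 (Non_meas (P := PA) (Q := QB) n M)).inter (Complex.measurable_exp hV))
  have hsub : {a : ℂ | Non (fam PA QB n) M a (a * κ) ∧ a * κ ∈ V} ⊆
      (fun u : ℂ => Complex.exp u / κ) '' E := by
    rintro a ⟨ha, haV⟩
    have h0 := (ha 0).1
    simp only [Function.iterate_zero, id] at h0
    have hne : a * κ ≠ 0 := by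
      intro h
      rw [h, norm_zero] at h0
      exact absurd h0 (not_le.2 (Real.exp_pos _))
    have e : Complex.exp (Complex.log (a * κ)) / κ = a := by
      rw [Complex.exp_log hne, mul_div_cancel_right₀ _ hκ]
    refine ⟨Complex.log (a * κ), ⟨⟨?_, ?_⟩, ?_, ?_⟩, e⟩
    · rw [Complex.log_im]; exact Complex.neg_pi_lt_arg _
    · rw [Complex.log_im]; exact Complex.arg_le_pi _
    · rw [e, Complex.exp_log hne]; exact ha
    · rw [Complex.exp_log hne]; exact haV
  have hre : ∀ u ∈ E, |u.re| ≤ M := by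
    intro u hu
    have h0 := hu.2.1 0
    simp only [Function.iterate_zero, id] at h0
    rw [Complex.norm_exp, Real.exp_le_exp, Real.exp_le_exp] at h0
    exact abs_le.2 h0
  refine (measure_mono hsub).trans ?_
  rw [logArea_image hκ hEm fun u hu => hu.1]
  apply cover (x₀ := 0) (y₀ := 0) hr₀ hM Real.pi_pos.le
  · intro u hu
    rw [sub_zero, sub_zero]
    exact ⟨hre u hu, abs_le.2 ⟨hu.1.1.le, hu.1.2⟩⟩
  · intro u _
    have hslow : Slow (fun t => t - Complex.log κ) u r₀ := by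
      constructor
      · exact (differentiable_id.sub_const _).differentiableOn
      · intro t _
        have : deriv (fun t : ℂ => t - Complex.log κ) t = 1 := by simp
        rw [this, norm_one]
    refine le_trans (measure_mono ?_) (hb u _ hslow)
    rintro t ⟨ht, ht2⟩
    refine ⟨⟨ht2, ?_⟩, ht.2.2⟩
    have e : Complex.exp (t - Complex.log κ) = Complex.exp t / κ := by
      rw [Complex.exp_sub, Complex.exp_log hκ]
    rw [e]
    exact ht.2.1

end Pool.Agent.Q79.CM
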