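import Mathlib
import Pool.Agent.Q79.CmpG

/-!
# Comparison of areas
-/

set_option autoImplicit false

open MeasureTheory Set Filter Topology Metric
open scoped ENNReal

namespace Pool.Agent.Q79.CM

open Pool.Agent.Q79.MN

theorem tendsto_gn (m : ℕ) : Tendsto (fun n : ℕ => (n:ℝ) ^ 2 * gam m n) atTop (𝓝 (2 * m)) := by
  have h := (tendsto_cc m).const_mul (2 * (m:ℝ))
  rw [mul_one] at h
  refine h.congr' ?_
  filter_upwards [eventually_ge_atTop 1] with n hn
  have hn0 : (0:ℝ) < n := by exact_mod_cast hn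
  unfold cc gam
  field_simp

theorem tendsto_cn (m : ℕ) (K : ℝ) :
    Tendsto (fun n : ℕ => ((n:ℝ) ^ 2 * (gam m n / (1 - gam m n * K))) ^ 2) atTop
      (𝓝 (4 * (m:ℝ) ^ 2)) := by
  have h1 : Tendsto (fun n => 1 - gam m n * K) atTop (𝓝 1) := by
    have := ((tendsto_gam m).mul_const K).const_sub 1
    rwa [zero_mul, sub_zero] at this
  have h2 := ((tendsto_gn m).div h1 one_ne_zero).pow 2
  have e : ((2:ℝ) * m / 1) ^ 2 = 4 * m ^ 2 := by ring
  rw [e] at h2
  refine h2.congr fun n => ?_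
  simp only [Pi.div_apply]
  ring

theorem tendsto_cn' (m : ℕ) (K : ℝ) :
    Tendsto (fun n : ℕ => ((n:ℝ) ^ 2 * (gam m n / (1 + gam m n * K))) ^ 2) atTop
      (𝓝 (4 * (m:ℝ) ^ 2)) := by
  have h := tendsto_cn m (-K)
  simpa only [mul_neg, sub_neg_eq_add] using h

theorem n4 (n : ℕ) {x : ℝ} : (n:ℝ≥0∞) ^ 4 * ENNReal.ofReal x = ENNReal.ofReal ((n:ℝ) ^ 4 * x) := by
  rw [ENNReal.ofReal_mul (by positivity), ENNReal.ofReal_pow (Nat.cast_nonneg n),
    ENNReal.ofReal_natCast]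

/-- the constant of the outer part -/
noncomputable def AA (M r₀ B Cs : ℝ) : ℝ :=
  (4 * M / r₀ + 1) * (4 * Real.pi / r₀ + 1) * C1 (1 / 40) (6 * B) M r₀ * Cs

theorem AA_pos {m : ℕ} {M r₀ B Cs : ℝ} {n₀ : ℕ} (Kc : Cst m M r₀ B Cs n₀) : 0 < AA M r₀ B Cs := by
  have hM := Kc.M0
  have hr₀ := Kc.r0
  have hB1 := Kc.B1
  have hCs := Kc.C0
  have hpi := Real.pi_pos
  have hC1 : 0 < C1 (1 / 40) (6 * B) M r₀ := C1_pos (by norm_num) (by positivity) hM hr₀
  unfold AA
  positivity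

/-- the area of the outer part -/
theorem outer_area {m : ℕ} (hm : 1 ≤ m) {M r₀ B Cs : ℝ} {n₀ : ℕ} (Kc : Cst m M r₀ B Cs n₀)
    {K : ℝ} (hK6 : 6 ≤ K) {n : ℕ} (hn12 : 12 ≤ n) (hnn₀ : n₀ ≤ n) (h4 : 16 * B ≤ n) :
    logArea {a : ℂ | Non (fam (PP m) 1 n) M a (a * kap m n) ∧ a * kap m n ∈ VV m n K} ≤
      ENNReal.ofReal (AA M r₀ B Cs * (3 / K ^ 2 + 10 / n) / (n:ℝ) ^ 4) := by
  have hM := Kc.M0
  have hr₀ := Kc.r0
  have hB1 := Kc.B1
  have hCs := Kc.C0
  have hpi := Real.pi_pos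
  have hn1 : 1 ≤ n := by omega
  have hC1 : 0 < C1 (1 / 40) (6 * B) M r₀ := C1_pos (by norm_num) (by positivity) hM hr₀
  have hκ : (kap m n : ℂ) ≠ 0 := by exact_mod_cast (kap_pos hm hn1).ne'
  have hout : logArea {a : ℂ | Non (fam (PP m) 1 n) M a (a * kap m n) ∧ a * kap m n ∈ VV m n K} ≤
      ENNReal.ofReal ((4 * M / r₀ + 1) * (4 * Real.pi / r₀ + 1)) *
        (ENNReal.ofReal (C1 (1 / 40) (6 * B) M r₀ * (3 / K ^ 2 + 10 / n)) *
        ENNReal.ofReal (Cs / (n:ℝ) ^ 4)) := by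
    refine param_area' hM hr₀ hκ (VV_meas m n K) fun x s hs => ?_
    refine le_trans (measure_mono ?_) ((outer Kc.U hr₀ Kc.r1 hB1 hM hn12 h4 hK6 hr₀ le_rfl hs).trans
      (mul_le_mul_right (Kc.sup n hnn₀) _))
    exact inter_subset_inter_right _ fun t ht => (mem_VV hm t).1 ht
  refine hout.trans ?_
  rw [← ENNReal.ofReal_mul (by positivity), ← ENNReal.ofReal_mul (by positivity)]
  apply le_of_eq
  congr 1
  unfold AA
  ring

/-- **comparison of areas**, upper bound -/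
theorem area_core {m : ℕ} (hm : 1 ≤ m) {M r₀ B Cs : ℝ} {n₀ : ℕ} (Kc : Cst m M r₀ B Cs n₀)
    (Bad : ℕ → Set ℂ)
    (hBad : ∀ᶠ n in atTop, ∀ a ∈ Bad n, Non (fam (PP m) 1 n) M a (a * kap m n))
    {U : Set ℂ} (hU : IsOpen U) (hUM : U ⊆ Mand)
    (hUb : ∀ E ⊆ U, IsCompact E → ∀ᶠ n in atTop, ∀ C ∈ E, aC m n C ∉ Bad n) :
    limsup (fun n : ℕ => (n:ℝ≥0∞) ^ 4 * logArea (Bad n)) atTop ≤
      ENNReal.ofReal (4 * m ^ 2) * volume (Mand \ U) := by
  set A : ℝ := AA M r₀ B Cs with hA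
  have hA0 : 0 < A := AA_pos Kc
  apply ENNReal.le_of_forall_pos_le_add
  intro ε hε _
  have hε' : (0:ℝ) < ε := by exact_mod_cast hε
  -- the choice of `K`
  set K : ℝ := 6 + 6 * A / ε with hK
  have hK6 : 6 ≤ K := by
    have : 0 ≤ 6 * A / ε := by positivity
    linarith
  have hK0 : 0 < K := by linarith
  have hKε : A * (3 / K ^ 2) ≤ ε / 2 := by
    have h1 : 6 * A / ε ≤ K := by linarith
    rw [div_le_iff₀ hε'] at h1
    rw [mul_div_assoc', div_le_div_iff₀ (by positivity) (by norm_num)]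
    have h2 : K ≤ K ^ 2 := by nlinarith
    have h3 : K * ε ≤ K ^ 2 * ε := mul_le_mul_of_nonneg_right h2 hε'.le
    linarith
  -- the choice of the compact set
  have hUf : volume U ≠ ⊤ := ne_top_of_le_ne_top Mand_fin (measure_mono hUM)
  have hm0 : (0:ℝ) < m := by exact_mod_cast hm
  obtain ⟨E, hEU, hEc, hEv⟩ := hU.measurableSet.exists_isCompact_sdiff_lt hUf
    (ε := ENNReal.ofReal (ε / 2 / (4 * m ^ 2))) (by
      rw [ne_eq, ENNReal.ofReal_eq_zero, not_le]; positivity)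
  set v := volume (Mand \ U) with hv
  set v' := volume (U \ E) with hv'
  have hvf : v ≠ ⊤ := ne_top_of_le_ne_top Mand_fin (measure_mono sdiff_subset)
  have hv'f : v' ≠ ⊤ := ne_top_of_le_ne_top hUf (measure_mono sdiff_subset)
  set b : ℕ → ℝ≥0∞ := fun n => v + v' + volume ((ball 0 (K + 1) \ Mand) ∩ NonC m n M) with hb
  set g : ℕ → ℝ≥0∞ := fun n => ENNReal.ofReal (A * (3 / K ^ 2 + 10 / n)) +
    ENNReal.ofReal (((n:ℝ) ^ 2 * (gam m n / (1 - gam m n * K))) ^ 2) * b n with hg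
  have hlim : Tendsto g atTop (𝓝 (ENNReal.ofReal (A * (3 / K ^ 2)) +
      ENNReal.ofReal (4 * m ^ 2) * (v + v'))) := by
    have h1 : Tendsto (fun n : ℕ => ENNReal.ofReal (A * (3 / K ^ 2 + 10 / n))) atTop
        (𝓝 (ENNReal.ofReal (A * (3 / K ^ 2)))) := by
      have h2 : Tendsto (fun n : ℕ => 3 / K ^ 2 + 10 / (n:ℝ)) atTop (𝓝 (3 / K ^ 2)) := by
        have := (tendsto_const_div_atTop_nhds_zero_nat (10:ℝ)).const_add (3 / K ^ 2)
        rwa [add_zero] at this
      exact (ENNReal.continuous_ofReal.tendsto _).comp (h2.const_mul A)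
    have h3 : Tendsto b atTop (𝓝 (v + v')) := by
      have := (vanish hm Kc (K + 1)).const_add (v + v')
      rwa [add_zero] at this
    have h4 := (ENNReal.continuous_ofReal.tendsto _).comp (tendsto_cn m K)
    exact h1.add (ENNReal.Tendsto.mul h4 (Or.inr (by finiteness)) h3
      (Or.inr ENNReal.ofReal_ne_top))
  have hle : ENNReal.ofReal (A * (3 / K ^ 2)) + ENNReal.ofReal (4 * m ^ 2) * (v + v') ≤
      ENNReal.ofReal (4 * m ^ 2) * v + ε := by
    have h1 : ENNReal.ofReal (4 * m ^ 2) * v' ≤ ENNReal.ofReal (ε / 2) := by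
      calc ENNReal.ofReal (4 * m ^ 2) * v' ≤
          ENNReal.ofReal (4 * m ^ 2) * ENNReal.ofReal (ε / 2 / (4 * m ^ 2)) :=
            mul_le_mul_right hEv.le _
        _ = ENNReal.ofReal (ε / 2) := by
          rw [← ENNReal.ofReal_mul (by positivity)]
          congr 1
          field_simp
    have h2 : ENNReal.ofReal (A * (3 / K ^ 2)) ≤ ENNReal.ofReal (ε / 2) :=
      ENNReal.ofReal_le_ofReal hKε
    have h3 : ENNReal.ofReal (ε / 2 : ℝ) + ENNReal.ofReal (ε / 2 : ℝ) = (ε : ℝ≥0∞) := by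
      rw [← ENNReal.ofReal_add (by positivity) (by positivity), add_halves,
        ENNReal.ofReal_coe_nnreal]
    calc ENNReal.ofReal (A * (3 / K ^ 2)) + ENNReal.ofReal (4 * m ^ 2) * (v + v') =
        ENNReal.ofReal (4 * m ^ 2) * v + (ENNReal.ofReal (A * (3 / K ^ 2)) +
          ENNReal.ofReal (4 * m ^ 2) * v') := by rw [mul_add]; ring
      _ ≤ ENNReal.ofReal (4 * m ^ 2) * v + (ENNReal.ofReal (ε / 2) + ENNReal.ofReal (ε / 2)) :=
          add_le_add le_rfl (add_le_add h2 h1)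
      _ = _ := by rw [h3]
  refine le_trans ?_ hle
  rw [← hlim.limsup_eq]
  apply limsup_le_limsup _ (by isBoundedDefault) (by isBoundedDefault)
  have hgK : Tendsto (fun n => gam m n * K) atTop (𝓝 0) := by
    have := (tendsto_gam m).mul_const K
    rwa [zero_mul] at this
  filter_upwards [hBad, hUb E hEU hEc, eventually_ge_atTop (max 12 n₀),
    (tendsto_natCast_atTop_atTop (R := ℝ)).eventually_ge_atTop (16 * B),
    hgK.eventually_le_const (show (0:ℝ) < 1 / 2 by norm_num)] with n h1 h2 h3 h4 h5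
  have hn12 : 12 ≤ n := (le_max_left _ _).trans h3
  have hnn₀ : n₀ ≤ n := (le_max_right _ _).trans h3
  have hn1 : 1 ≤ n := by omega
  have hn0 : (0:ℝ) < n := by exact_mod_cast hn1
  have hκ : (kap m n : ℂ) ≠ 0 := by exact_mod_cast (kap_pos hm hn1).ne'
  -- the outer part
  have hout := outer_area hm Kc hK6 hn12 hnn₀ h4
  -- the inner part
  set I : Set ℂ := {C | ‖C‖ ≤ K ∧ aC m n C ∈ Bad n} with hI
  have hin : logArea (aC m n '' I) ≤
      ENNReal.ofReal ((gam m n / (1 - gam m n * K)) ^ 2) * b n := by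
    refine (logArea_aC_le hm hn1 (by linarith) (E := I) fun C hC =>
      mem_closedBall_zero_iff.2 hC.1).trans (mul_le_mul_right ?_ _)
    have hsub : I ⊆ ((Mand \ U) ∪ (U \ E)) ∪ ((ball 0 (K + 1) \ Mand) ∩ NonC m n M) := by
      rintro C ⟨hC1, hC2⟩
      by_cases hCM : C ∈ Mand
      · left
        by_cases hCU : C ∈ U
        · exact Or.inr ⟨hCU, fun hCE => h2 C hCE hC2⟩
        · exact Or.inl ⟨hCM, hCU⟩
      · right
        refine ⟨⟨mem_ball_zero_iff.2 (by linarith), hCM⟩, ?_⟩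
        exact h1 _ hC2
    refine (measure_mono hsub).trans ((measure_union_le _ _).trans ?_)
    exact add_le_add (measure_union_le _ _) le_rfl
  have hsub : Bad n ⊆ {a : ℂ | Non (fam (PP m) 1 n) M a (a * kap m n) ∧
      a * kap m n ∈ VV m n K} ∪ aC m n '' I := by
    intro a ha
    have hN := h1 a ha
    by_cases haV : a * kap m n ∈ VV m n K
    · exact Or.inl ⟨hN, haV⟩
    · right
      obtain ⟨C, rfl⟩ := exists_aC hm hn1 a
      refine ⟨C, ⟨?_, ha⟩, rfl⟩
      rw [aC_kap hm hn1] at haV hN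
      apply inner_bound hm hn1 (by linarith) _ haV
      intro h0
      have h6 := (hN 0).1
      simp only [Function.iterate_zero, id] at h6
      rw [h0, norm_zero] at h6
      exact absurd h6 (not_le.2 (Real.exp_pos _))
  calc (n:ℝ≥0∞) ^ 4 * logArea (Bad n) ≤ (n:ℝ≥0∞) ^ 4 *
      (ENNReal.ofReal (A * (3 / K ^ 2 + 10 / n) / (n:ℝ) ^ 4) +
      ENNReal.ofReal ((gam m n / (1 - gam m n * K)) ^ 2) * b n) :=
        mul_le_mul_right ((measure_mono hsub).trans ((measure_union_le _ _).trans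
          (add_le_add hout hin))) _
    _ = g n := by
        have e2 : (n:ℝ≥0∞) ^ 4 * (ENNReal.ofReal ((gam m n / (1 - gam m n * K)) ^ 2) * b n) =
            ENNReal.ofReal ((n:ℝ) ^ 4 * (gam m n / (1 - gam m n * K)) ^ 2) * b n := by
          rw [← mul_assoc, n4]
        rw [mul_add, n4, e2, hg]
        congr 2
        · field_simp
        · congr 1; ring

end Pool.Agent.Q79.CM
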