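import Mathlib
import Pool.Agent.Q79.CmpH

/-!
# Persistence of the hyperbolic components, and the lower bound for the areas
-/

set_option autoImplicit false

open MeasureTheory Set Filter Topology Metric
open scoped ENNReal

namespace Pool.Agent.Q79.CM

open Pool.Agent.Q79.MN
open Pool.Agent.H712R2 (P)

theorem diff_Qd (C : ℂ) : Differentiable ℂ (Qd C) := by unfold Qd; fun_prop

theorem cont_Qd (k : ℕ) : Continuous fun y : ℂ × ℂ => (Qd y.1)^[k] y.2 := by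
  induction k with
  | zero => exact continuous_snd
  | succ k ih =>
    have e : (fun y : ℂ × ℂ => (Qd y.1)^[k + 1] y.2) =
        fun y : ℂ × ℂ => ((Qd y.1)^[k] y.2) ^ 2 + y.1 := by
      funext y; rw [Function.iterate_succ_apply']; rfl
    rw [e]
    exact (ih.pow 2).add continuous_fst

theorem isOpen_HC : IsOpen HC := by
  rw [isOpen_iff_mem_nhds]
  rintro C ⟨k, hk, x₀, h1, h2, h3⟩
  have hcc : ∀ (j : ℕ) (w : ℂ), Tendsto (fun y : ℂ × ℂ => (Qd y.1)^[j] y.2) (𝓝 C ×ˢ 𝓝 w)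
      (𝓝 ((Qd C)^[j] w)) := by
    intro j w
    rw [← nhds_prod_eq]
    exact (cont_Qd j).tendsto (C, w)
  have := persist (ι := ℂ) (l := 𝓝 C) (F := Qd) (g := Qd C) (fun p => diff_Qd p) (diff_Qd C) hcc
    h1 h2 h3
  filter_upwards [this] with C' hC'
  obtain ⟨x, -, h4, h5, h6⟩ := hC'
  exact ⟨k, hk, x, h4, h5, h6⟩

/-- the critical point is attracted by a sink other than `0` -/
def Nz (m n : ℕ) (a : ℂ) : Prop :=
  ∃ k : ℕ, 0 < k ∧ ∃ x : ℂ, x ≠ 0 ∧ (T m n a)^[k] x = x ∧ ‖deriv ((T m n a)^[k]) x‖ < 1 ∧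
    Tendsto (fun j : ℕ => (T m n a)^[k * j] (cc m n)) atTop (𝓝 x)

theorem Nz.att {m n : ℕ} {a : ℂ} (h : Nz m n a) : Att (T m n a) (cc m n) := by
  obtain ⟨k, hk, x, -, h1, h2, h3⟩ := h
  exact ⟨k, hk, x, h1, h2, h3⟩

theorem Nz.not_zer {m n : ℕ} {a : ℂ} (h : Nz m n a) : ¬ Zer (T m n a) (cc m n) := by
  obtain ⟨k, hk, x, h0, -, -, h3⟩ := h
  intro h
  have h4 : Tendsto (fun j : ℕ => (T m n a)^[k * j] (cc m n)) atTop (𝓝 0) :=
    h.comp (tendsto_id.const_mul_atTop' hk)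
  exact h0 (tendsto_nhds_unique h3 h4)

theorem Nz.not_esc {m n : ℕ} {a : ℂ} (h : Nz m n a) : ¬ Esc (T m n a) (cc m n) := by
  obtain ⟨k, hk, x, h0, -, -, h3⟩ := h
  intro h
  have h4 : Tendsto (fun j : ℕ => ‖(T m n a)^[k * j] (cc m n)‖) atTop atTop :=
    h.comp (tendsto_id.const_mul_atTop' hk)
  exact not_tendsto_nhds_of_tendsto_atTop h4 _ h3.norm

theorem persist_a {m : ℕ} (hm : 1 ≤ m) {C : ℂ} (hC : C ∈ HC) :
    ∀ᶠ p : ℕ × ℂ in atTop ×ˢ 𝓝 C, Nz m p.1 (aC m p.1 p.2) := by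
  obtain ⟨k, hk, x₀, h1, h2, h3⟩ := hC
  have hcc : ∀ (j : ℕ) (w : ℂ), Tendsto (fun y : (ℕ × ℂ) × ℂ => (F m y.1.1 y.1.2)^[j] y.2)
      ((atTop ×ˢ 𝓝 C) ×ˢ 𝓝 w) (𝓝 ((Qd C)^[j] w)) := fun j w => tendsto_iter hm C w j
  have h := persist (ι := ℕ × ℂ) (l := atTop ×ˢ 𝓝 C) (F := fun p => F m p.1 p.2) (g := Qd C)
    (fun p => diff_F p.2) (diff_Qd C) hcc h1 h2 h3
  have hfst : Tendsto (fun p : ℕ × ℂ => p.1) (atTop ×ˢ 𝓝 C) atTop := tendsto_fst
  have hg : Tendsto (fun n => gam m n * (‖x₀‖ + 1)) atTop (𝓝 0) := by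
    have := (tendsto_gam m).mul_const (‖x₀‖ + 1)
    rwa [zero_mul] at this
  filter_upwards [h, hfst.eventually (eventually_ge_atTop 1),
    hfst.eventually (hg.eventually_lt_const one_pos)] with p hp hp1 hp2
  obtain ⟨x, hx0, h4, h5, h6⟩ := hp
  obtain ⟨h7, h8, h9⟩ := att_conj hm hp1 h4 h5 h6
  rw [ze_zero] at h9
  refine ⟨k, hk, ze m p.1 x, ?_, h7, h8, h9⟩
  have hγ := gam_pos hm hp1
  have hcc : (cc m p.1 : ℂ) ≠ 0 := by exact_mod_cast (cc_pos (m := m) hp1).ne'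
  unfold ze
  refine mul_ne_zero hcc ?_
  intro h0
  have h10 : (gam m p.1 : ℂ) * x = 1 := by linear_combination -h0
  have h11 : gam m p.1 * ‖x‖ = 1 := by
    have := congrArg norm h10
    rwa [norm_mul, Complex.norm_real, Real.norm_of_nonneg hγ.le, norm_one] at this
  have h12 : ‖x‖ ≤ ‖x₀‖ + 1 := by
    calc ‖x‖ = ‖(x - x₀) + x₀‖ := by congr 1; ring
      _ ≤ _ := norm_add_le _ _
      _ ≤ _ := by linarith
  have h13 : gam m p.1 * ‖x‖ ≤ gam m p.1 * (‖x₀‖ + 1) := mul_le_mul_of_nonneg_left h12 hγ.le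
  linarith

theorem persist_K {m : ℕ} (hm : 1 ≤ m) {E : Set ℂ} (hE : E ⊆ HC) (hEc : IsCompact E) :
    ∀ᶠ n in atTop, ∀ C ∈ E, Nz m n (aC m n C) := by
  refine hEc.induction_on (p := fun E => ∀ᶠ n in atTop, ∀ C ∈ E, Nz m n (aC m n C)) ?_ ?_ ?_ ?_
  · exact Eventually.of_forall fun n C hC => absurd hC (notMem_empty C)
  · intro s t hst ht
    filter_upwards [ht] with n hn C hC using hn C (hst hC)
  · intro s t hs ht
    filter_upwards [hs, ht] with n h1 h2 C hC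
    rcases hC with hC | hC
    · exact h1 C hC
    · exact h2 C hC
  · intro C hC
    have h := persist_a hm (hE hC)
    rw [Filter.eventually_prod_iff] at h
    obtain ⟨pa, hpa, pb, hpb, h1⟩ := h
    refine ⟨{C | pb C}, mem_nhdsWithin_of_mem_nhds hpb, ?_⟩
    filter_upwards [hpa] with n hn C' hC'
    exact h1 hn hC'

/-- **comparison of areas**, lower bound -/
theorem area_lower {m : ℕ} (hm : 1 ≤ m) :
    ENNReal.ofReal (4 * m ^ 2) * volume HC ≤
      liminf (fun n : ℕ => (n:ℝ≥0∞) ^ 4 * logArea {a | Nz m n a}) atTop := by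
  have hm0 : (0:ℝ) < m := by exact_mod_cast hm
  have hf : volume HC ≠ ⊤ := ne_top_of_le_ne_top Mand_fin (measure_mono HC_sub)
  have key : ∀ E ⊆ HC, IsCompact E → ENNReal.ofReal (4 * m ^ 2) * volume E ≤
      liminf (fun n : ℕ => (n:ℝ≥0∞) ^ 4 * logArea {a | Nz m n a}) atTop := by
    intro E hE hEc
    have hE2 : E ⊆ closedBall 0 2 := hE.trans (HC_sub.trans Mand_sub)
    have h1 := (ENNReal.continuous_ofReal.tendsto _).comp (tendsto_cn' m 2)
    have hlim : Tendsto (fun n : ℕ =>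
        ENNReal.ofReal (((n:ℝ) ^ 2 * (gam m n / (1 + gam m n * 2))) ^ 2) * volume E) atTop
        (𝓝 (ENNReal.ofReal (4 * m ^ 2) * volume E)) :=
      ENNReal.Tendsto.mul_const h1 (Or.inr (ne_top_of_le_ne_top hf (measure_mono hE)))
    rw [← hlim.liminf_eq]
    apply liminf_le_liminf _ (by isBoundedDefault) (by isBoundedDefault)
    have hg : Tendsto (fun n => gam m n * 2) atTop (𝓝 0) := by
      have := (tendsto_gam m).mul_const 2
      rwa [zero_mul] at this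
    filter_upwards [persist_K hm hE hEc, eventually_ge_atTop 1,
      hg.eventually_lt_const one_pos] with n h2 h3 h4
    have h5 := logArea_aC_ge hm h3 (by norm_num : (0:ℝ) ≤ 2) h4 hEc hE2
    calc ENNReal.ofReal (((n:ℝ) ^ 2 * (gam m n / (1 + gam m n * 2))) ^ 2) * volume E =
        (n:ℝ≥0∞) ^ 4 * (ENNReal.ofReal ((gam m n / (1 + gam m n * 2)) ^ 2) * volume E) := by
          rw [← mul_assoc, n4]
          congr 2
          ring
      _ ≤ (n:ℝ≥0∞) ^ 4 * logArea (aC m n '' E) := mul_le_mul_right h5 _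
      _ ≤ (n:ℝ≥0∞) ^ 4 * logArea {a | Nz m n a} := by
          apply mul_le_mul_right (measure_mono _)
          rintro _ ⟨C, hC, rfl⟩
          exact h2 C hC
  rw [isOpen_HC.measurableSet.measure_eq_iSup_isCompact_of_ne_top hf]
  rw [ENNReal.mul_iSup]
  refine iSup_le fun E => ?_
  rw [ENNReal.mul_iSup]
  refine iSup_le fun hE => ?_
  rw [ENNReal.mul_iSup]
  exact iSup_le fun hEc => key E hE hEc

end Pool.Agent.Q79.CM
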