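import Mathlib
import Pool.Agent.Q79.CmpI

/-!
# The hyperbolic parameters: areas and distances
-/

set_option autoImplicit false

open MeasureTheory Set Filter Topology Metric
open scoped ENNReal

namespace Pool.Agent.Q79.CM

open Pool.Agent.Q79.MN
open Pool.Agent.H712R2 (P)

/-- the hyperbolic parameters -/
def Hs (m n : ℕ) : Set ℂ := {a | a ≠ 0 ∧ (Esc (T m n a) (cc m n) ∨ Att (T m n a) (cc m n))}

/-- the hyperbolic parameters of the quadratic family -/
def HQ : Set ℂ := HC ∪ Mandᶜ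

theorem non_of_not {m : ℕ} {M r₀ B Cs : ℝ} {n₀ : ℕ} (Kc : Cst m M r₀ B Cs n₀) {n : ℕ}
    (hn : n₀ ≤ n) (hn2 : 2 ≤ n) {a : ℂ} (ha : a ≠ 0) (h : a ∉ Hs m n) :
    Non (fam (PP m) 1 n) M a (a * kap m n) := by
  by_contra hcon
  apply h
  refine ⟨ha, ?_⟩
  rcases Kc.leave n hn a ha hcon with h1 | h1
  · exact Or.inr (h1.att hn2)
  · exact Or.inl h1

theorem area_nonhyp {m : ℕ} (hm : 1 ≤ m) :
    limsup (fun n : ℕ => (n:ℝ≥0∞) ^ 4 * logArea {a | a ≠ 0 ∧ a ∉ Hs m n}) atTop ≤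
      ENNReal.ofReal (4 * m ^ 2) * volume (Mand \ HC) := by
  obtain ⟨M, r₀, B, Cs, n₀, Kc⟩ := exists_Cst hm
  refine area_core hm Kc (fun n => {a | a ≠ 0 ∧ a ∉ Hs m n}) ?_ isOpen_HC HC_sub ?_
  · filter_upwards [eventually_ge_atTop (max n₀ 2)] with n hn a ha
    exact non_of_not Kc ((le_max_left _ _).trans hn) ((le_max_right _ _).trans hn) ha.1 ha.2
  · intro E hE hEc
    filter_upwards [persist_K hm hE hEc] with n hn C hC hbad
    exact hbad.2 ⟨hbad.1, Or.inr (hn C hC).att⟩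

theorem area_nonesc {m : ℕ} (hm : 1 ≤ m) :
    limsup (fun n : ℕ => (n:ℝ≥0∞) ^ 4 * logArea {a | a ≠ 0 ∧
      ¬ (Zer (T m n a) (cc m n) ∨ Esc (T m n a) (cc m n))}) atTop ≤
      ENNReal.ofReal (4 * m ^ 2) * volume Mand := by
  obtain ⟨M, r₀, B, Cs, n₀, Kc⟩ := exists_Cst hm
  have h := area_core hm Kc (fun n => {a | a ≠ 0 ∧
    ¬ (Zer (T m n a) (cc m n) ∨ Esc (T m n a) (cc m n))}) ?_ isOpen_empty (empty_subset _) ?_
  · rwa [sdiff_empty] at h
  · filter_upwards [eventually_ge_atTop n₀] with n hn a ha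
    by_contra hcon
    exact ha.2 (Kc.leave n hn a ha.1 hcon)
  · intro E hE _
    exact Eventually.of_forall fun n C hC => absurd (hE hC) (notMem_empty C)

theorem HQ_dist_le (C : ℂ) : infEDist C HQ ≤ ENNReal.ofReal 5 := by
  by_cases hC : C ∈ Mand
  · have h3 : (3:ℂ) ∈ HQ := by
      right
      intro h
      have := Mand_sub h
      rw [mem_closedBall_zero_iff] at this
      norm_num at this
    refine (infEDist_le_edist_of_mem h3).trans ?_
    rw [edist_dist]
    apply ENNReal.ofReal_le_ofReal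
    rw [dist_eq_norm]
    have h4 := Mand_sub hC
    rw [mem_closedBall_zero_iff] at h4
    have h5 := norm_sub_le C 3
    have h6 : ‖(3:ℂ)‖ = 3 := by simp
    linarith
  · rw [infEDist_zero_of_mem (show C ∈ HQ from Or.inr hC)]
    exact zero_le

/-- hyperbolic parameters near every parameter -/
theorem near_hyp {m : ℕ} (hm : 1 ≤ m) {M r₀ B Cs : ℝ} {n₀ : ℕ} (Kc : Cst m M r₀ B Cs n₀) {D : ℝ}
    (hD : ∀ C, infEDist C HQ ≤ ENNReal.ofReal D) (hD0 : 0 ≤ D) {ε : ℝ} (hε : 0 < ε) (C : ℂ) :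
    ∀ᶠ n in atTop, ∃ C', ‖C - C'‖ < D + 2 * ε ∧ aC m n C' ∈ Hs m n := by
  have h1 : infEDist C HQ < ENNReal.ofReal (D + ε) :=
    (hD C).trans_lt ((ENNReal.ofReal_lt_ofReal_iff (by linarith)).2 (by linarith))
  obtain ⟨C₁, hC₁, h2⟩ := infEDist_lt_iff.1 h1
  rw [edist_dist, ENNReal.ofReal_lt_ofReal_iff (by linarith), dist_eq_norm] at h2
  have hg : Tendsto (fun n => gam m n * (‖C₁‖ + ε)) atTop (𝓝 0) := by
    have := (tendsto_gam m).mul_const (‖C₁‖ + ε)
    rwa [zero_mul] at this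
  have hne : ∀ n : ℕ, 1 ≤ n → gam m n * (‖C₁‖ + ε) < 1 → ∀ C' : ℂ, ‖C' - C₁‖ ≤ ε →
      aC m n C' ≠ 0 := by
    intro n hn h3 C' hC' h0
    have h4 : ‖C'‖ ≤ ‖C₁‖ + ε := by
      calc ‖C'‖ = ‖(C' - C₁) + C₁‖ := by congr 1; ring
        _ ≤ _ := norm_add_le _ _
        _ ≤ _ := by linarith
    have h5 := (aC_norm hm hn h4).1
    rw [h0, norm_zero] at h5
    have h6 : 0 < a0 m n * (1 - gam m n * (‖C₁‖ + ε)) :=
      mul_pos (a0_pos hm hn) (by linarith)
    linarith
  rcases hC₁ with hC₁ | hC₁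
  · have h3 := persist_K hm (singleton_subset_iff.2 hC₁) isCompact_singleton
    filter_upwards [h3, eventually_ge_atTop 1, hg.eventually_lt_const one_pos] with n h4 h5 h6
    refine ⟨C₁, by linarith, hne n h5 h6 C₁ (by rw [sub_self, norm_zero]; exact hε.le), ?_⟩
    exact Or.inr (h4 C₁ rfl).att
  · have hesc : Tendsto (fun k => ‖P 2 k C₁‖) atTop atTop := not_not.1 hC₁
    obtain ⟨ρ, hρ0, hρε, h3⟩ := dens hm Kc hesc (show (0:ℝ) < 1 / 2 by norm_num) hε
    filter_upwards [h3, eventually_ge_atTop (max n₀ 2), hg.eventually_lt_const one_pos]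
      with n h4 h5 h6
    have hn₀ : n₀ ≤ n := (le_max_left _ _).trans h5
    have hn2 : 2 ≤ n := (le_max_right _ _).trans h5
    have h7 : ∃ C' ∈ closedBall C₁ ρ, C' ∉ NonC m n M := by
      by_contra hcon
      push Not at hcon
      have h8 : closedBall C₁ ρ ∩ NonC m n M = closedBall C₁ ρ :=
        inter_eq_left.2 hcon
      rw [h8, vol_cball _ hρ0.le, ← ENNReal.ofReal_mul (by norm_num)] at h4
      have hpi := Real.pi_pos
      rw [ENNReal.ofReal_le_ofReal_iff (by positivity)] at h4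
      have : 0 < Real.pi * ρ ^ 2 := by positivity
      linarith
    obtain ⟨C', hC', hnon⟩ := h7
    rw [mem_closedBall, dist_eq_norm] at hC'
    have hne' := hne n (by omega) h6 C' (by linarith)
    refine ⟨C', ?_, ?_⟩
    · calc ‖C - C'‖ = ‖(C - C₁) - (C' - C₁)‖ := by congr 1; ring
        _ ≤ _ := norm_sub_le _ _
        _ < D + 2 * ε := by linarith
    · by_contra hcon
      exact hnon (non_of_not Kc hn₀ hn2 hne' hcon)

/-- the outer part: distances from areas -/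
theorem far_hyp {m : ℕ} (hm : 1 ≤ m) {M r₀ B Cs : ℝ} {n₀ : ℕ} (Kc : Cst m M r₀ B Cs n₀) {ε : ℝ}
    (hε : 0 < ε) : ∃ K : ℝ, 0 < K ∧ ∀ᶠ n in atTop, ∀ C : ℂ, K < ‖C‖ → aC m n C ≠ 0 →
      infEDist (aC m n C) (Hs m n) ≤ ENNReal.ofReal (ε / (n:ℝ) ^ 2 * ‖aC m n C‖) := by
  set A : ℝ := AA M r₀ B Cs with hA
  have hA0 : 0 < A := AA_pos Kc
  set K' : ℝ := 6 + ε + 12 * A / ε ^ 2 with hK'
  have hK'1 : 0 ≤ 12 * A / ε ^ 2 := by positivity
  have hK'6 : 6 ≤ K' := by linarith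
  have hA3 : A * (3 / K' ^ 2) ≤ ε ^ 2 / 4 := by
    have h1 : 12 * A / ε ^ 2 ≤ K' := by linarith
    rw [div_le_iff₀ (by positivity)] at h1
    rw [mul_div_assoc', div_le_div_iff₀ (by positivity) (by norm_num)]
    have h2 : K' ≤ K' ^ 2 := by nlinarith
    have h3 : K' * ε ^ 2 ≤ K' ^ 2 * ε ^ 2 := mul_le_mul_of_nonneg_right h2 (by positivity)
    linarith
  set K : ℝ := 5 * K' with hK
  have hK0 : 0 < K := by linarith
  refine ⟨K, hK0, ?_⟩
  have hgK : Tendsto (fun n => gam m n * K) atTop (𝓝 0) := by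
    have := (tendsto_gam m).mul_const K
    rwa [zero_mul] at this
  have hnn : Tendsto (fun n : ℕ => (n:ℝ)) atTop atTop := tendsto_natCast_atTop_atTop
  have hρ : Tendsto (fun n : ℕ => ε / (n:ℝ) ^ 2) atTop (𝓝 0) :=
    tendsto_const_nhds.div_atTop ((tendsto_pow_atTop (by norm_num)).comp hnn)
  have h10 : Tendsto (fun n : ℕ => A * (10 / (n:ℝ))) atTop (𝓝 0) := by
    have := (tendsto_const_div_atTop_nhds_zero_nat (10:ℝ)).const_mul A
    rwa [mul_zero] at this
  filter_upwards [eventually_ge_atTop (max 12 (max n₀ m)), hnn.eventually_ge_atTop (16 * B),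
    hgK.eventually_le_const one_pos, hρ.eventually_le_const (show (0:ℝ) < 1 / 4 by norm_num),
    h10.eventually_le_const (show (0:ℝ) < ε ^ 2 / 4 by positivity)] with n h1 h2 h3 h4 h5
  intro C hCK hCne
  have hn12 : 12 ≤ n := (le_max_left _ _).trans h1
  have hnn₀ : n₀ ≤ n := ((le_max_left _ _).trans (le_max_right _ _)).trans h1
  have hnm : m ≤ n := ((le_max_right _ _).trans (le_max_right _ _)).trans h1
  have hn1 : 1 ≤ n := by omega
  have hn0 : (0:ℝ) < n := by exact_mod_cast hn1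
  have hγ := gam_pos hm hn1
  have ha0 := a0_pos hm hn1
  set ρ : ℝ := ε / (n:ℝ) ^ 2 with hρd
  have hρ0 : 0 < ρ := by positivity
  set a : ℂ := aC m n C with ha
  have han : 0 < ‖a‖ := norm_pos_iff.2 hCne
  by_contra hcon
  push Not at hcon
  have hsub : ball a (ρ * ‖a‖) ⊆ {a : ℂ | Non (fam (PP m) 1 n) M a (a * kap m n) ∧
      a * kap m n ∈ VV m n K'} := by
    intro a' ha'
    rw [mem_ball, dist_eq_norm] at ha'
    have hne : a' ≠ 0 := by
      intro h0
      rw [h0, zero_sub, norm_neg] at ha'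
      nlinarith
    have hnot : a' ∉ Hs m n := by
      intro hmem
      have h6 := hcon.trans_le (infEDist_le_edist_of_mem hmem)
      rw [edist_dist, ENNReal.ofReal_lt_ofReal_iff_of_nonneg (by positivity), dist_comm,
        dist_eq_norm] at h6
      linarith
    refine ⟨non_of_not Kc hnn₀ (by omega) hne hnot, ?_⟩
    obtain ⟨C', hC'⟩ := exists_aC hm hn1 a'
    rw [← hC', aC_kap hm hn1]
    -- the size of `C'`
    have h7 : a0 m n * gam m n * ‖C' - C‖ < ρ * (a0 m n * (1 + gam m n * ‖C‖)) := by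
      have e : a' - a = -((a0 m n * gam m n : ℝ) : ℂ) * (C' - C) := by
        rw [← hC', ha]; unfold aC; push_cast; ring
      rw [e, norm_mul, norm_neg, Complex.norm_real, Real.norm_of_nonneg (by positivity)] at ha'
      refine ha'.trans_le (mul_le_mul_of_nonneg_left (aC_norm hm hn1 le_rfl).2 hρ0.le)
    have h8 : gam m n * ‖C' - C‖ < ρ * (1 + gam m n * ‖C‖) := by
      have : a0 m n * (gam m n * ‖C' - C‖) < a0 m n * (ρ * (1 + gam m n * ‖C‖)) := by linarith
      exact lt_of_mul_lt_mul_left this ha0.le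
    have h9 : ρ ≤ ε * gam m n := by
      have h11 := gam_ge hm hnm
      rw [hρd, div_le_iff₀ (by positivity)]
      nlinarith
    have h12 : ‖C' - C‖ < ε + ρ * ‖C‖ := by
      have : gam m n * ‖C' - C‖ < gam m n * (ε + ρ * ‖C‖) := by nlinarith
      exact lt_of_mul_lt_mul_left this hγ.le
    have h13 : ‖C‖ ≤ ‖C'‖ + ‖C' - C‖ := by
      calc ‖C‖ = ‖C' - (C' - C)‖ := by congr 1; ring
        _ ≤ _ := norm_sub_le _ _
    have h14 : K / 2 < ‖C'‖ := by
      have : ρ * ‖C‖ ≤ 1 / 4 * ‖C‖ := mul_le_mul_of_nonneg_right h4 (norm_nonneg _)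
      linarith
    have hze : ze m n C' ≠ 0 := by
      intro h0
      have h15 := aC_kap hm hn1 C'
      rw [h0, hC'] at h15
      have hκ : (kap m n : ℂ) ≠ 0 := by exact_mod_cast (kap_pos hm hn1).ne'
      exact (mul_ne_zero hne hκ) h15
    have hexp : Complex.exp (Complex.log (ze m n C')) = ze m n C' := Complex.exp_log hze
    rw [← hexp, mem_VV hm, zz_ze hm hn1 hexp]
    have h16 : (1 - gam m n * C' : ℂ) ≠ 0 := by
      intro h0
      apply hze
      unfold ze
      rw [h0, mul_zero]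
    have h17 : 0 < ‖1 - (gam m n : ℂ) * C'‖ := norm_pos_iff.2 h16
    have h18 : ‖1 - (gam m n : ℂ) * C'‖ ≤ 1 + gam m n * ‖C'‖ := by
      have := norm_sub_le (1:ℂ) ((gam m n : ℂ) * C')
      rwa [norm_one, norm_mul, Complex.norm_real, Real.norm_of_nonneg hγ.le] at this
    have h19 : K' < 2 * (‖C'‖ / ‖1 - (gam m n : ℂ) * C'‖) := by
      rw [mul_div_assoc', lt_div_iff₀ h17]
      have h20 : K' * ‖1 - (gam m n : ℂ) * C'‖ ≤ K' * (1 + gam m n * ‖C'‖) :=
        mul_le_mul_of_nonneg_left h18 (by linarith)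
      have h21 : gam m n * K * ‖C'‖ ≤ 1 * ‖C'‖ := mul_le_mul_of_nonneg_right h3 (norm_nonneg _)
      have h22 : K' = K / 5 := by rw [hK]; ring
      rw [h22] at h20 ⊢
      nlinarith
    have h23 : 2 / (n:ℝ) ^ 2 * (‖C'‖ / ‖1 - (gam m n : ℂ) * C'‖) =
        2 * (‖C'‖ / ‖1 - (gam m n : ℂ) * C'‖) / (n:ℝ) ^ 2 := by ring
    rw [h23, div_lt_div_iff_of_pos_right (by positivity)]
    exact h19
  have h6 := (logArea_ball hCne hρ0 (by linarith)).trans ((measure_mono hsub).trans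
    (outer_area hm Kc hK'6 hn12 hnn₀ h2))
  rw [ENNReal.ofReal_le_ofReal_iff (by positivity), hρd, div_pow, ← pow_mul,
    div_le_div_iff_of_pos_right (by positivity), ← hA, mul_add] at h6
  have : 0 < ε ^ 2 := by positivity
  linarith

/-- **comparison of distances** -/
theorem dist_core {m : ℕ} (hm : 1 ≤ m) :
    limsup (fun n : ℕ => (n:ℝ≥0∞) ^ 2 * ⨆ (a : ℂ) (_ : a ≠ 0), infEDist a (Hs m n) / ‖a‖ₑ) atTop ≤
      ENNReal.ofReal (2 * m) * ⨆ C : ℂ, infEDist C HQ := by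
  obtain ⟨M, r₀, B, Cs, n₀, Kc⟩ := exists_Cst hm
  have hm0 : (0:ℝ) < m := by exact_mod_cast hm
  have hDf : (⨆ C : ℂ, infEDist C HQ) ≠ ⊤ :=
    ne_top_of_le_ne_top ENNReal.ofReal_ne_top (iSup_le HQ_dist_le)
  set D : ℝ := (⨆ C : ℂ, infEDist C HQ).toReal with hD
  have hDe : ENNReal.ofReal D = ⨆ C : ℂ, infEDist C HQ := ENNReal.ofReal_toReal hDf
  have hD0 : 0 ≤ D := ENNReal.toReal_nonneg
  have hDC : ∀ C, infEDist C HQ ≤ ENNReal.ofReal D := fun C => by
    rw [hDe]; exact le_iSup (fun C => infEDist C HQ) C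
  rw [← hDe]
  apply ENNReal.le_of_forall_pos_le_add
  intro ε hε _
  have hε' : (0:ℝ) < ε := by exact_mod_cast hε
  set ε₁ : ℝ := ε / (12 * m) with hε₁
  have hε₁0 : 0 < ε₁ := by positivity
  obtain ⟨K, hK0, hfar⟩ := far_hyp hm Kc hε'
  obtain ⟨t, -, htf, htc⟩ := (isCompact_closedBall (0:ℂ) K).finite_cover_balls hε₁0
  have hnear : ∀ᶠ n in atTop, ∀ x ∈ t, ∃ C', ‖x - C'‖ < D + 2 * ε₁ ∧ aC m n C' ∈ Hs m n := by
    rw [Filter.eventually_all_finite htf]
    intro x _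
    exact near_hyp hm Kc hDC hD0 hε₁0 x
  have hgK : Tendsto (fun n => gam m n * K) atTop (𝓝 0) := by
    have := (tendsto_gam m).mul_const K
    rwa [zero_mul] at this
  have hlim : Tendsto (fun n : ℕ => (n:ℝ) ^ 2 * gam m n / (1 - gam m n * K) * (D + 3 * ε₁)) atTop
      (𝓝 (2 * m / 1 * (D + 3 * ε₁))) := by
    have h1 : Tendsto (fun n => 1 - gam m n * K) atTop (𝓝 1) := by
      have := hgK.const_sub 1
      rwa [sub_zero] at this
    exact ((tendsto_gn m).div h1 one_ne_zero).mul_const _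
  have hlt : 2 * (m:ℝ) / 1 * (D + 3 * ε₁) < 2 * m * D + ε := by
    have : 2 * (m:ℝ) / 1 * (D + 3 * ε₁) = 2 * m * D + ε / 2 := by
      rw [hε₁]; field_simp; ring
    rw [this]; linarith
  have hfin : ∀ᶠ n : ℕ in atTop, (n:ℝ≥0∞) ^ 2 * ⨆ (a : ℂ) (_ : a ≠ 0),
      infEDist a (Hs m n) / ‖a‖ₑ ≤ ENNReal.ofReal (2 * m * D + ε) := by
    filter_upwards [hfar, hnear, hlim.eventually_le_const hlt, eventually_ge_atTop 1,
      hgK.eventually_lt_const one_pos] with n h1 h2 h3 h4 h5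
    have hn0 : (0:ℝ) < n := by exact_mod_cast h4
    have hγ := gam_pos hm h4
    have ha0 := a0_pos hm h4
    have key : ∀ a : ℂ, a ≠ 0 → infEDist a (Hs m n) ≤
        ENNReal.ofReal ((2 * m * D + ε) / (n:ℝ) ^ 2 * ‖a‖) := by
      intro a ha
      obtain ⟨C, rfl⟩ := exists_aC hm h4 a
      by_cases hC : K < ‖C‖
      · refine (h1 C hC ha).trans (ENNReal.ofReal_le_ofReal ?_)
        apply mul_le_mul_of_nonneg_right _ (norm_nonneg _)
        apply div_le_div_of_nonneg_right _ (by positivity)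
        have : 0 ≤ 2 * (m:ℝ) * D := by positivity
        linarith
      · push Not at hC
        have hC' := htc (mem_closedBall_zero_iff.2 hC)
        rw [mem_iUnion₂] at hC'
        obtain ⟨x, hx, hCx⟩ := hC'
        rw [mem_ball, dist_eq_norm] at hCx
        obtain ⟨C', h6, h7⟩ := h2 x hx
        refine (infEDist_le_edist_of_mem h7).trans ?_
        rw [edist_dist]
        apply ENNReal.ofReal_le_ofReal
        rw [dist_eq_norm]
        have e : aC m n C - aC m n C' = -((a0 m n * gam m n : ℝ) : ℂ) * (C - C') := by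
          unfold aC; push_cast; ring
        rw [e, norm_mul, norm_neg, Complex.norm_real, Real.norm_of_nonneg (by positivity)]
        have h8 : ‖C - C'‖ ≤ D + 3 * ε₁ := by
          calc ‖C - C'‖ = ‖(C - x) + (x - C')‖ := by congr 1; ring
            _ ≤ _ := norm_add_le _ _
            _ ≤ _ := by linarith
        have h9 := (aC_norm hm h4 hC).1
        have h10 : 0 < 1 - gam m n * K := by linarith
        have h11 : (n:ℝ) ^ 2 * gam m n * (D + 3 * ε₁) ≤ (2 * m * D + ε) * (1 - gam m n * K) := by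
          have := h3
          rw [div_mul_eq_mul_div, div_le_iff₀ h10] at this
          exact this
        calc a0 m n * gam m n * ‖C - C'‖ ≤ a0 m n * gam m n * (D + 3 * ε₁) :=
              mul_le_mul_of_nonneg_left h8 (by positivity)
          _ = a0 m n / (n:ℝ) ^ 2 * ((n:ℝ) ^ 2 * gam m n * (D + 3 * ε₁)) := by field_simp
          _ ≤ a0 m n / (n:ℝ) ^ 2 * ((2 * m * D + ε) * (1 - gam m n * K)) :=
              mul_le_mul_of_nonneg_left h11 (by positivity)
          _ = (2 * m * D + ε) / (n:ℝ) ^ 2 * (a0 m n * (1 - gam m n * K)) := by ring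
          _ ≤ _ := mul_le_mul_of_nonneg_left h9 (by positivity)
    rw [ENNReal.mul_iSup]
    refine iSup_le fun a => ?_
    rw [ENNReal.mul_iSup]
    refine iSup_le fun ha => ?_
    have han : 0 < ‖a‖ := norm_pos_iff.2 ha
    have h6 : ‖a‖ₑ = ENNReal.ofReal ‖a‖ := (ofReal_norm a).symm
    calc (n:ℝ≥0∞) ^ 2 * (infEDist a (Hs m n) / ‖a‖ₑ) ≤ (n:ℝ≥0∞) ^ 2 *
        (ENNReal.ofReal ((2 * m * D + ε) / (n:ℝ) ^ 2 * ‖a‖) / ‖a‖ₑ) :=
          mul_le_mul_right (ENNReal.div_le_div_right (key a ha) _) _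
      _ = ENNReal.ofReal (2 * m * D + ε) := by
          rw [h6, ← ENNReal.ofReal_div_of_pos han, ← ENNReal.ofReal_natCast,
            ← ENNReal.ofReal_pow (Nat.cast_nonneg n), ← ENNReal.ofReal_mul (by positivity)]
          congr 1
          field_simp
  refine (limsup_le_of_le (by isBoundedDefault) hfin).trans (le_of_eq ?_)
  rw [ENNReal.ofReal_add (by positivity) (by positivity), ENNReal.ofReal_mul (by positivity),
    ENNReal.ofReal_coe_nnreal]

end Pool.Agent.Q79.CM
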