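import Pool.Agent.Q127.DJ.Stm

/-!
# DJ-HIL (project DJ of helper127): two square-summable one-sided sequences with nonzero first terms
have a nonzero cross-correlation (Wold)
-/

set_option autoImplicit false

namespace Pool.Agent.Q79.DJ_HIL

open Pool.Agent.Q127.DJ
open scoped InnerProductSpace ENNReal

/-- `ℓ²(ℤ)` -/
abbrev H : Type := lp (fun _ : ℤ => ℝ) 2

theorem memH_iff (f : ℤ → ℝ) : Memℓp f 2 ↔ Summable (fun n => f n ^ 2) := by
  rw [memℓp_gen_iff (by norm_num)]
  simp only [ENNReal.toReal_ofNat, Real.rpow_ofNat, Real.norm_eq_abs, sq_abs]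

theorem inner_H (f g : H) : ⟪f, g⟫_ℝ = ∑' n : ℤ, f n * g n := by
  rw [lp.inner_eq_tsum]
  refine tsum_congr fun n => ?_
  show g n * f n = f n * g n
  ring

theorem sq_summable (f : H) : Summable (fun n => f n ^ 2) := (memH_iff _).1 (lp.memℓp f)

/-- the shift by `i` -/
noncomputable def sh (i : ℤ) : H →ₗᵢ[ℝ] H where
  toFun f := ⟨fun n => f (n - i), (memH_iff _).2 ((sq_summable f).comp_injective
    (i := fun n : ℤ => n - i) (fun a b h => by simpa using h))⟩
  map_add' f g := by ext n; rfl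
  map_smul' c f := by ext n; rfl
  norm_map' f := by
    have h : ∀ g : H, ‖g‖ ^ 2 = ∑' n : ℤ, g n ^ 2 := by
      intro g
      rw [← real_inner_self_eq_norm_sq, inner_H]
      exact tsum_congr fun n => by ring
    have h1 : ∀ (g : H) (hg : Memℓp (fun n : ℤ => g (n - i)) 2),
        ‖(⟨fun n : ℤ => g (n - i), hg⟩ : H)‖ ^ 2 = ‖g‖ ^ 2 := by
      intro g hg
      rw [h, h]
      exact (Equiv.subRight i).tsum_eq (fun n => g n ^ 2)
    have h2 := h1 f ((memH_iff _).2 ((sq_summable f).comp_injective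
      (i := fun n : ℤ => n - i) (fun a b h => by simpa using h)))
    exact (sq_eq_sq₀ (norm_nonneg _) (norm_nonneg _)).1 h2

theorem sh_apply (i : ℤ) (f : H) (n : ℤ) : sh i f n = f (n - i) := rfl

theorem sh_sh (i j : ℤ) (f : H) : sh i (sh j f) = sh (i + j) f := by
  ext n
  rw [sh_apply, sh_apply, sh_apply]
  rw [sub_sub]

theorem sh_zero (f : H) : sh 0 f = f := by
  ext n
  rw [sh_apply, sub_zero]

/-- linear functionals vanish on closed spans -/
theorem key (s : Set H) (φ : H →L[ℝ] ℝ) (hφ : ∀ x ∈ s, φ x = 0) (y : H)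
    (hy : y ∈ (Submodule.span ℝ s).topologicalClosure) : φ y = 0 := by
  have h1 : (Submodule.span ℝ s).topologicalClosure ≤ LinearMap.ker (φ : H →ₗ[ℝ] ℝ) := by
    apply Submodule.topologicalClosure_minimal
    · rw [Submodule.span_le]
      intro x hx
      exact hφ x hx
    · exact ContinuousLinearMap.isClosed_ker φ
  exact h1 hy

theorem inner_sh_sh (i : ℤ) (f g : H) : ⟪sh i f, sh i g⟫_ℝ = ⟪f, g⟫_ℝ := (sh i).inner_map_map f g

theorem main (a b : H) (hb0 : b 0 ≠ 0) (hb : ∀ n < 0, b n = 0)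
    (h : ∀ j : ℤ, ⟪a, sh j b⟫_ℝ = 0) : a 0 = 0 := by
  -- the closed span of the shifts of `b` by positive numbers
  let s : Set H := Set.range fun k : ℕ => sh ((k : ℤ) + 1) b
  let G : Submodule ℝ H := (Submodule.span ℝ s).topologicalClosure
  have hGc : IsClosed (G : Set H) := Submodule.isClosed_topologicalClosure _
  have : CompleteSpace G := hGc.completeSpace_coe
  let p : H := G.starProjection b
  let u : H := b - p
  have hp : p ∈ G := Submodule.starProjection_apply_mem G b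
  have hu : u ∈ Gᗮ := Submodule.sub_starProjection_mem_orthogonal b
  have hmem : ∀ k : ℕ, sh ((k : ℤ) + 1) b ∈ G := fun k =>
    Submodule.le_topologicalClosure _ (Submodule.subset_span ⟨k, rfl⟩)
  -- a functional which vanishes on all `sh k b`, `k ≥ 0`, vanishes at `u`
  have hz : ∀ φ : H →L[ℝ] ℝ, (∀ k : ℕ, φ (sh (k : ℤ) b) = 0) → φ u = 0 := by
    intro φ hφ
    have h1 : φ p = 0 := by
      apply key s φ ?_ p hp
      rintro x ⟨k, rfl⟩
      have := hφ (k + 1)
      push_cast at this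
      exact this
    have h2 : φ b = 0 := by
      have := hφ 0
      simp only [Nat.cast_zero, sh_zero] at this
      exact this
    show φ (b - p) = 0
    rw [map_sub, h1, h2, sub_zero]
  have hub : ∀ k : ℕ, ⟪u, sh ((k : ℤ) + 1) b⟫_ℝ = 0 := fun k => by
    rw [real_inner_comm]
    exact hu _ (hmem k)
  -- `u` is orthogonal to its shifts
  have huu : ∀ j : ℤ, 0 < j → ⟪u, sh j u⟫_ℝ = 0 := by
    intro j hj
    let φ : H →L[ℝ] ℝ := (innerSL ℝ u).comp (sh j).toContinuousLinearMap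
    have h1 := hz φ (fun k => by
      show ⟪u, sh j (sh (k : ℤ) b)⟫_ℝ = 0
      rw [sh_sh]
      obtain ⟨m, hm⟩ : ∃ m : ℕ, j + (k : ℤ) = (m : ℤ) + 1 := ⟨(j + k - 1).toNat, by omega⟩
      rw [hm]
      exact hub m)
    exact h1
  have hau : ∀ j : ℤ, ⟪a, sh j u⟫_ℝ = 0 := by
    intro j
    let φ : H →L[ℝ] ℝ := (innerSL ℝ a).comp (sh j).toContinuousLinearMap
    have h1 := hz φ (fun k => by
      show ⟪a, sh j (sh (k : ℤ) b)⟫_ℝ = 0
      rw [sh_sh]
      exact h _)
    exact h1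
  -- `u ≠ 0`
  have he : ∀ f : H, ⟪lp.single 2 (0 : ℤ) (1 : ℝ), f⟫_ℝ = f 0 := by
    intro f
    rw [lp.inner_single_left]
    show f 0 * 1 = f 0
    ring
  have hu0 : u ≠ 0 := by
    intro h0
    have h1 : b = p := by
      have : b - p = 0 := h0
      exact sub_eq_zero.1 this
    have h2 : b 0 = 0 := by
      rw [← he b]
      have h3 : (innerSL ℝ (lp.single 2 (0 : ℤ) (1 : ℝ) : H)) p = 0 := by
        apply key s _ ?_ p hp
        rintro x ⟨k, rfl⟩
        show ⟪(lp.single 2 (0 : ℤ) (1 : ℝ) : H), sh ((k : ℤ) + 1) b⟫_ℝ = 0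
        rw [he, sh_apply]
        apply hb
        omega
      rw [h1]
      exact h3
    exact hb0 h2
  have hN : 0 < ‖u‖ := norm_pos_iff.2 hu0
  -- the orthonormal family
  let v : ℤ → H := fun j => ‖u‖⁻¹ • sh j u
  have hv : Orthonormal ℝ v := by
    constructor
    · intro j
      show ‖‖u‖⁻¹ • sh j u‖ = 1
      rw [norm_smul, (sh j).norm_map, norm_inv, norm_norm, inv_mul_cancel₀ hN.ne']
    · intro i j hij
      show ⟪‖u‖⁻¹ • sh i u, ‖u‖⁻¹ • sh j u⟫_ℝ = 0
      rw [real_inner_smul_left, real_inner_smul_right]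
      have h1 : ⟪sh i u, sh j u⟫_ℝ = 0 := by
        rcases lt_or_gt_of_ne hij with h2 | h2
        · have h3 : sh j u = sh i (sh (j - i) u) := by rw [sh_sh, add_sub_cancel]
          rw [h3, inner_sh_sh]
          exact huu _ (by omega)
        · have h3 : sh i u = sh j (sh (i - j) u) := by rw [sh_sh, add_sub_cancel]
          rw [h3, inner_sh_sh, real_inner_comm]
          exact huu _ (by omega)
      rw [h1]
      ring
  let e : H := lp.single 2 (0 : ℤ) (1 : ℝ)
  have hee : ⟪e, e⟫_ℝ = 1 := by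
    rw [he]
    exact lp.single_apply_self (E := fun _ : ℤ => ℝ) 2 (0 : ℤ) (1 : ℝ)
  have hsum : ∑' j : ℤ, ‖⟪v j, e⟫_ℝ‖ ^ 2 = 1 := by
    have h1 : ∀ j : ℤ, ‖⟪v j, e⟫_ℝ‖ ^ 2 = (‖u‖ ^ 2)⁻¹ * (u (-j)) ^ 2 := by
      intro j
      have h2 : ⟪v j, e⟫_ℝ = ‖u‖⁻¹ * u (-j) := by
        show ⟪‖u‖⁻¹ • sh j u, e⟫_ℝ = _
        rw [real_inner_smul_left, real_inner_comm, he, sh_apply, zero_sub]
      rw [h2, Real.norm_eq_abs, sq_abs]
      ring
    simp_rw [h1]
    rw [tsum_mul_left]
    have h3 : ∑' j : ℤ, (u (-j)) ^ 2 = ‖u‖ ^ 2 := by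
      have h4 : ∑' j : ℤ, (u (-j)) ^ 2 = ∑' n : ℤ, u n ^ 2 :=
        (Equiv.neg ℤ).tsum_eq (fun n => u n ^ 2)
      rw [h4, ← real_inner_self_eq_norm_sq, inner_H]
      exact tsum_congr fun n => by ring
    rw [h3, inv_mul_cancel₀ (pow_ne_zero 2 hN.ne')]
  -- Bessel for `e - c a`
  have hB : ∀ c : ℝ, 1 ≤ ‖e - c • a‖ ^ 2 := by
    intro c
    have h1 := hv.tsum_inner_products_le (x := e - c • a)
    have h2 : ∀ j, ⟪v j, e - c • a⟫_ℝ = ⟪v j, e⟫_ℝ := by
      intro j
      have h3 : ⟪v j, a⟫_ℝ = 0 := by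
        show ⟪‖u‖⁻¹ • sh j u, a⟫_ℝ = 0
        rw [real_inner_smul_left, real_inner_comm, hau, mul_zero]
      rw [inner_sub_right, real_inner_smul_right, h3, mul_zero, sub_zero]
    simp_rw [h2] at h1
    rw [hsum] at h1
    exact h1
  have hexp : ∀ c : ℝ, ‖e - c • a‖ ^ 2 = 1 - 2 * c * a 0 + c ^ 2 * ‖a‖ ^ 2 := by
    intro c
    rw [← real_inner_self_eq_norm_sq, ← real_inner_self_eq_norm_sq, inner_sub_left, inner_sub_right,
      inner_sub_right, real_inner_smul_left, real_inner_smul_right, real_inner_smul_left,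
      real_inner_smul_right, hee, real_inner_comm a e]
    rw [real_inner_comm e a]
    rw [he]
    ring
  by_contra ha
  have ha' : 0 < ‖a‖ ^ 2 := by
    apply pow_pos
    apply norm_pos_iff.2
    intro h0
    apply ha
    rw [h0]
    rfl
  have h1 := hB (a 0 / ‖a‖ ^ 2)
  rw [hexp] at h1
  have h2 : 1 - 2 * (a 0 / ‖a‖ ^ 2) * a 0 + (a 0 / ‖a‖ ^ 2) ^ 2 * ‖a‖ ^ 2 = 1 - a 0 ^ 2 / ‖a‖ ^ 2 := by
    field_simp
    ring
  rw [h2] at h1
  have h3 : 0 < a 0 ^ 2 / ‖a‖ ^ 2 := div_pos (by positivity) ha'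
  linarith

/-- the extension by zero -/
def ext0 (α : ℕ → ℝ) (n : ℤ) : ℝ := if 0 ≤ n then α n.toNat else 0

theorem ext0_natCast (α : ℕ → ℝ) (n : ℕ) : ext0 α (n : ℤ) = α n := by
  simp [ext0]

theorem ext0_neg (α : ℕ → ℝ) (n : ℤ) (hn : n < 0) : ext0 α n = 0 := by
  rw [ext0, if_neg (by omega)]

theorem mem_ext0 (α : ℕ → ℝ) (h : Summable fun k => α k ^ 2) : Memℓp (ext0 α) 2 := by
  rw [memH_iff]
  have h1 : Function.Injective (fun n : ℕ => (n : ℤ)) := Nat.cast_injective
  rw [← h1.summable_iff]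
  · refine h.congr fun n => ?_
    show ext0 α (n : ℤ) ^ 2 = α n ^ 2
    rw [ext0_natCast]
  · intro n hn
    have : n < 0 := by
      by_contra h2
      exact hn ⟨n.toNat, by simp; omega⟩
    rw [ext0_neg α n this]
    norm_num

theorem hil : S_hil := by
  intro α β hα hβ hα0 hβ0
  by_contra hcon
  push Not at hcon
  let a : H := ⟨ext0 α, mem_ext0 α hα⟩
  let b : H := ⟨ext0 β, mem_ext0 β hβ⟩
  have ha0 : a 0 = 0 := by
    apply main a b
    · show ext0 β 0 ≠ 0
      have := ext0_natCast β 0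
      rw [Nat.cast_zero] at this
      rw [this]
      exact hβ0
    · intro n hn
      exact ext0_neg β n hn
    · intro j
      rw [inner_H]
      show ∑' n : ℤ, ext0 α n * ext0 β (n - j) = 0
      rcases le_or_gt 0 j with hj | hj
      · obtain ⟨m, rfl⟩ := Int.eq_ofNat_of_zero_le hj
        have h1 : Function.Injective (fun k : ℕ => (k : ℤ) + (m : ℤ)) := fun a b h => by
          have h' : (a : ℤ) + (m : ℤ) = (b : ℤ) + (m : ℤ) := h
          omega
        rw [← h1.tsum_eq]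
        · rw [← (hcon m).2]
          refine tsum_congr fun k => ?_
          show ext0 α ((k : ℤ) + (m : ℤ)) * ext0 β ((k : ℤ) + (m : ℤ) - (m : ℤ)) = _
          rw [add_sub_cancel_right, ext0_natCast, ← Nat.cast_add, ext0_natCast]
        · intro n hn
          rw [Function.mem_support] at hn
          have h2 : 0 ≤ n - m := by
            by_contra h2
            exact hn (by rw [ext0_neg β (n - m) (by omega), mul_zero])
          exact ⟨(n - m).toNat, by show (((n - (m : ℤ)).toNat : ℕ) : ℤ) + (m : ℤ) = n; omega⟩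
      · obtain ⟨m, hm⟩ : ∃ m : ℕ, j = -(m : ℤ) := ⟨(-j).toNat, by omega⟩
        subst hm
        have h1 : Function.Injective (fun n : ℕ => (n : ℤ)) := Nat.cast_injective
        rw [← h1.tsum_eq]
        · rw [← (hcon m).1]
          refine tsum_congr fun k => ?_
          show ext0 α (k : ℤ) * ext0 β ((k : ℤ) - -(m : ℤ)) = _
          rw [sub_neg_eq_add, ext0_natCast, ← Nat.cast_add, ext0_natCast]
        · intro n hn
          rw [Function.mem_support] at hn
          have h2 : 0 ≤ n := by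
            by_contra h2
            exact hn (by rw [ext0_neg α n (by omega), zero_mul])
          exact ⟨n.toNat, by show ((n.toNat : ℕ) : ℤ) = n; omega⟩
  apply hα0
  have h1 : a 0 = α 0 := by
    show ext0 α 0 = α 0
    have := ext0_natCast α 0
    rw [Nat.cast_zero] at this
    exact this
  rw [← h1]
  exact ha0

end Pool.Agent.Q79.DJ_HIL
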