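import Mathlib

/-!
Interpolation of finitely many gradient data on the line by a smooth strongly convex function,
and the slope bounds of the derivative of such a function.
-/

open Set

namespace Q79.HB

/-- Slope bounds of the derivative of a `μ`-strongly convex `L`-smooth function. -/
lemma slope_bounds {μ L : ℝ} (hL : 0 ≤ L) {f : ℝ → ℝ} (hd : Differentiable ℝ f)
    (hs : StrongConvexOn univ μ f) (hl : LipschitzWith L.toNNReal (deriv f)) {x y : ℝ}
    (h : x ≤ y) : μ * (y - x) ≤ deriv f y - deriv f x ∧ deriv f y - deriv f x ≤ L * (y - x) := by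
  constructor
  · have h1 := strongConvexOn_iff_convex.mp hs
    have hd1 : ∀ z : ℝ, HasDerivAt (fun x => f x - μ / (2 : ℝ) * ‖x‖ ^ 2) (deriv f z - μ * z) z := by
      intro z
      have h2 : HasDerivAt (fun x : ℝ => μ / (2 : ℝ) * ‖x‖ ^ 2) (μ * z) z := by
        have h3 : HasDerivAt (fun x : ℝ => μ / (2 : ℝ) * x ^ 2) (μ / 2 * (2 * z)) z := by
          have := (hasDerivAt_pow 2 z).const_mul (μ / 2)
          simpa using this
        have h4 : (fun x : ℝ => μ / (2 : ℝ) * ‖x‖ ^ 2) = fun x : ℝ => μ / (2 : ℝ) * x ^ 2 := by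
          funext x; simp
        rw [h4]
        convert h3 using 1; ring
      exact (hd z).hasDerivAt.sub h2
    have hmono := h1.monotoneOn_deriv (fun z _ => (hd1 z).differentiableAt)
    have := hmono (mem_univ x) (mem_univ y) h
    rw [(hd1 x).deriv, (hd1 y).deriv] at this
    linarith
  · have h1 := hl.dist_le_mul y x
    rw [Real.dist_eq, Real.dist_eq, Real.coe_toNNReal _ hL, abs_of_nonneg (sub_nonneg.mpr h)] at h1
    exact (le_abs_self _).trans h1

/-- Conversely, slope bounds of the derivative give strong convexity and smoothness. -/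
lemma of_slopes {μ L : ℝ} (hμ : 0 ≤ μ) (hL : 0 ≤ L) {f : ℝ → ℝ} (hd : Differentiable ℝ f)
    (h : ∀ x y : ℝ, x ≤ y → μ * (y - x) ≤ deriv f y - deriv f x ∧
      deriv f y - deriv f x ≤ L * (y - x)) :
    StrongConvexOn univ μ f ∧ LipschitzWith L.toNNReal (deriv f) := by
  constructor
  · rw [strongConvexOn_iff_convex]
    have hd1 : ∀ z : ℝ, HasDerivAt (fun x => f x - μ / (2 : ℝ) * ‖x‖ ^ 2) (deriv f z - μ * z) z := by
      intro z
      have h2 : HasDerivAt (fun x : ℝ => μ / (2 : ℝ) * ‖x‖ ^ 2) (μ * z) z := by
        have h3 : HasDerivAt (fun x : ℝ => μ / (2 : ℝ) * x ^ 2) (μ / 2 * (2 * z)) z := by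
          have := (hasDerivAt_pow 2 z).const_mul (μ / 2)
          simpa using this
        have h4 : (fun x : ℝ => μ / (2 : ℝ) * ‖x‖ ^ 2) = fun x : ℝ => μ / (2 : ℝ) * x ^ 2 := by
          funext x; simp
        rw [h4]
        convert h3 using 1; ring
      exact (hd z).hasDerivAt.sub h2
    apply Monotone.convexOn_univ_of_deriv
    · exact fun z => (hd1 z).differentiableAt
    · intro x y hxy
      rw [(hd1 x).deriv, (hd1 y).deriv]
      have := (h x y hxy).1
      linarith
  · apply LipschitzWith.of_dist_le_mul
    intro x y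
    rw [Real.dist_eq, Real.dist_eq, Real.coe_toNNReal _ hL]
    rcases le_total x y with hxy | hxy
    · have h1 := h x y hxy
      have h2 : 0 ≤ μ * (y - x) := mul_nonneg hμ (by linarith)
      rw [abs_sub_comm, abs_sub_comm x y, abs_of_nonneg (by linarith), abs_of_nonneg (by linarith)]
      exact h1.2
    · have h1 := h y x hxy
      have h2 : 0 ≤ μ * (x - y) := mul_nonneg hμ (by linarith)
      rw [abs_of_nonneg (by linarith), abs_of_nonneg (by linarith)]
      exact h1.2

/-- Extension of finitely many data points to a `μ`-strongly convex `L`-smooth function whose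
derivative takes the prescribed values. -/
lemma exists_interpolant {ι : Type*} [Fintype ι] [Nonempty ι] {μ L : ℝ} (hμ : 0 ≤ μ)
    (hμL : μ ≤ L) (x g : ι → ℝ)
    (hslope : ∀ s t : ι, x t ≤ x s →
      μ * (x s - x t) ≤ g s - g t ∧ g s - g t ≤ L * (x s - x t)) :
    ∃ f : ℝ → ℝ, Differentiable ℝ f ∧ StrongConvexOn univ μ f ∧
      LipschitzWith L.toNNReal (deriv f) ∧ ∀ t, deriv f (x t) = g t := by
  have hne : (Finset.univ : Finset ι).Nonempty := Finset.univ_nonempty
  set T : ι → ℝ → ℝ := fun t z => (g t - μ * x t) + (L - μ) * max (z - x t) 0 with hT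
  set H : ℝ → ℝ := fun z => (Finset.univ).inf' hne (fun t => T t z) with hH
  have hD : 0 ≤ L - μ := by linarith
  have hTmono : ∀ t, ∀ y z : ℝ, y ≤ z → T t y ≤ T t z := by
    intro t y z hyz
    have : max (y - x t) 0 ≤ max (z - x t) 0 := max_le_max (by linarith) le_rfl
    simp only [hT]
    nlinarith
  have hTlip : ∀ t, ∀ y z : ℝ, y ≤ z → T t z ≤ T t y + (L - μ) * (z - y) := by
    intro t y z hyz
    have : max (z - x t) 0 ≤ max (y - x t) 0 + (z - y) := by
      apply max_le
      · have := le_max_left (y - x t) 0
        linarith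
      · have := le_max_right (y - x t) 0
        linarith
    simp only [hT]
    nlinarith
  have hHmono : ∀ y z : ℝ, y ≤ z → H y ≤ H z := by
    intro y z hyz
    apply Finset.le_inf'
    intro t ht
    exact (Finset.inf'_le _ ht).trans (hTmono t y z hyz)
  have hHlip : ∀ y z : ℝ, y ≤ z → H z ≤ H y + (L - μ) * (z - y) := by
    intro y z hyz
    have : H z - (L - μ) * (z - y) ≤ H y := by
      apply Finset.le_inf'
      intro t ht
      have h1 : H z ≤ T t z := Finset.inf'_le _ ht
      have h2 := hTlip t y z hyz
      linarith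
    linarith
  have hHval : ∀ t, H (x t) = g t - μ * x t := by
    intro t
    apply le_antisymm
    · have h1 : H (x t) ≤ T t (x t) := Finset.inf'_le _ (Finset.mem_univ t)
      simpa [hT] using h1
    · apply Finset.le_inf'
      intro s hs
      simp only [hT]
      rcases le_total (x s) (x t) with h | h
      · have h1 := (hslope t s h).2
        rw [max_eq_left (by linarith)]
        nlinarith
      · have h1 := (hslope s t h).1
        rw [max_eq_right (by linarith)]
        nlinarith
  set G : ℝ → ℝ := fun z => μ * z + H z with hG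
  have hGlow : ∀ y z : ℝ, y ≤ z → μ * (z - y) ≤ G z - G y := by
    intro y z hyz
    have := hHmono y z hyz
    simp only [hG]; linarith
  have hGup : ∀ y z : ℝ, y ≤ z → G z - G y ≤ L * (z - y) := by
    intro y z hyz
    have := hHlip y z hyz
    simp only [hG]; linarith
  have hGcont : Continuous G := by
    have hHc : Continuous H := by
      have hL : LipschitzWith (Real.toNNReal (L - μ)) H := by
        apply LipschitzWith.of_dist_le_mul
        intro y z
        rw [Real.dist_eq, Real.dist_eq, Real.coe_toNNReal _ hD]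
        rcases le_total y z with h | h
        · have h1 := hHmono y z h
          have h2 := hHlip y z h
          rw [abs_sub_comm, abs_sub_comm y z, abs_of_nonneg (by linarith),
            abs_of_nonneg (by linarith)]
          linarith
        · have h1 := hHmono z y h
          have h2 := hHlip z y h
          rw [abs_of_nonneg (by linarith), abs_of_nonneg (by linarith)]
          linarith
      exact hL.continuous
    exact (continuous_const.mul continuous_id).add hHc
  have hder : ∀ z : ℝ, HasDerivAt (fun u : ℝ => ∫ w in (0 : ℝ)..u, G w) (G z) z := by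
    intro z
    exact (hGcont.integral_hasStrictDerivAt 0 z).hasDerivAt
  have hdiff : Differentiable ℝ (fun u : ℝ => ∫ w in (0 : ℝ)..u, G w) :=
    fun z => (hder z).differentiableAt
  have h2 := of_slopes (f := fun u : ℝ => ∫ w in (0 : ℝ)..u, G w) hμ (hμ.trans hμL) hdiff (by
    intro y z hyz
    rw [(hder y).deriv, (hder z).deriv]
    exact ⟨hGlow y z hyz, hGup y z hyz⟩)
  refine ⟨fun u : ℝ => ∫ w in (0 : ℝ)..u, G w, hdiff, h2.1, h2.2, ?_⟩
  intro t
  rw [(hder (x t)).deriv]
  simp only [hG]
  rw [hHval t]
  ring

end Q79.HB
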