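import Mathlib
import Pool.Agent.Q79.PowA

/-!
# Hausdorff contents
-/

set_option autoImplicit false

open MeasureTheory Set Filter Topology Metric
open scoped ENNReal

namespace Pool.Agent.Q79.HC

/-- the Hausdorff content -/
noncomputable def Hc (α : ℝ) (hα : 0 < α) : OuterMeasure ℂ :=
  OuterMeasure.ofFunction (fun s => ediam s ^ α) (by simp [hα])

variable {α : ℝ} (hα : 0 < α)

theorem Hc_apply (S : Set ℂ) :
    Hc α hα S = ⨅ (t : ℕ → Set ℂ) (_ : S ⊆ ⋃ i, t i), ∑' i, ediam (t i) ^ α := rfl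

theorem Hc_le_diam (S : Set ℂ) : Hc α hα S ≤ ediam S ^ α := OuterMeasure.ofFunction_le S

theorem Hc_ball {S : Set ℂ} {x : ℂ} {ρ : ℝ} (hρ : 0 ≤ ρ) (hS : S ⊆ closedBall x ρ) :
    Hc α hα S ≤ ENNReal.ofReal ((2 * ρ) ^ α) := by
  refine (Hc_le_diam hα S).trans ?_
  rw [← ENNReal.ofReal_rpow_of_nonneg (by positivity) hα.le]
  apply ENNReal.rpow_le_rpow _ hα.le
  apply ediam_le
  intro a ha b hb
  rw [edist_dist]
  apply ENNReal.ofReal_le_ofReal
  have h1 := hS ha
  have h2 := hS hb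
  rw [mem_closedBall] at h1 h2
  linarith [dist_triangle_right a b x]

/-- contents under expanding maps -/
theorem Hc_expand {F : ℂ → ℂ} {E : Set ℂ} {c : ℝ} (hc : 0 < c)
    (h : ∀ x ∈ E, ∀ y ∈ E, c * ‖x - y‖ ≤ ‖F x - F y‖) :
    Hc α hα E ≤ ENNReal.ofReal ((c⁻¹) ^ α) * Hc α hα (F '' E) := by
  rw [Hc_apply hα (F '' E), ENNReal.mul_iInf_of_ne
    (by rw [ne_eq, ENNReal.ofReal_eq_zero, not_le]; positivity) ENNReal.ofReal_ne_top]
  refine le_iInf fun t => ?_
  rw [ENNReal.mul_iInf_of_ne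
    (by rw [ne_eq, ENNReal.ofReal_eq_zero, not_le]; positivity) ENNReal.ofReal_ne_top]
  refine le_iInf fun ht => ?_
  rw [Hc_apply hα E, ← ENNReal.tsum_mul_left]
  refine iInf_le_of_le (fun i => E ∩ F ⁻¹' (t i)) (iInf_le_of_le ?_ ?_)
  · intro x hx
    obtain ⟨i, hi⟩ := mem_iUnion.1 (ht (mem_image_of_mem F hx))
    exact mem_iUnion.2 ⟨i, hx, hi⟩
  · apply ENNReal.tsum_le_tsum
    intro i
    rw [← ENNReal.ofReal_rpow_of_nonneg (by positivity) hα.le, ← ENNReal.mul_rpow_of_nonneg _ _ hα.le]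
    apply ENNReal.rpow_le_rpow _ hα.le
    apply ediam_le
    rintro a ⟨ha, ha'⟩ b ⟨hb, hb'⟩
    have h1 := h a ha b hb
    have h2 : ENNReal.ofReal ‖F a - F b‖ ≤ ediam (t i) := by
      have : edist (F a) (F b) ≤ ediam (t i) := edist_le_ediam_of_mem ha' hb'
      rwa [edist_dist, dist_eq_norm] at this
    rw [edist_dist, dist_eq_norm]
    calc ENNReal.ofReal ‖a - b‖ ≤ ENNReal.ofReal (c⁻¹ * ‖F a - F b‖) := by
          apply ENNReal.ofReal_le_ofReal
          rw [inv_mul_eq_div, le_div_iff₀ hc]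
          linarith
      _ = ENNReal.ofReal c⁻¹ * ENNReal.ofReal ‖F a - F b‖ := ENNReal.ofReal_mul (by positivity)
      _ ≤ _ := mul_le_mul_right h2 _

/-- the number of small squares -/
theorem cover (μ : OuterMeasure ℂ) {E : Set ℂ} {x₀ y₀ w h r : ℝ} (hr : 0 < r) (hw : 0 ≤ w)
    (hh : 0 ≤ h) (hE : ∀ z ∈ E, |z.re - x₀| ≤ w ∧ |z.im - y₀| ≤ h) {B : ENNReal}
    (hB : ∀ z ∈ E, μ (E ∩ ball z r) ≤ B) :
    μ E ≤ ENNReal.ofReal ((4 * w / r + 1) * (4 * h / r + 1)) * B := by
  set m := ⌊4 * w / r⌋₊ + 1 with hm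
  set m' := ⌊4 * h / r⌋₊ + 1 with hm'
  set Q : ℕ × ℕ → Set ℂ := fun p => {z ∈ E | ⌊(z.re - (x₀ - w)) / (r / 2)⌋₊ = p.1 ∧
    ⌊(z.im - (y₀ - h)) / (r / 2)⌋₊ = p.2} with hQ
  have hcov : E ⊆ ⋃ p ∈ Finset.range m ×ˢ Finset.range m', Q p := by
    intro z hz
    obtain ⟨h1, h2⟩ := hE z hz
    rw [abs_le] at h1 h2
    simp only [mem_iUnion]
    refine ⟨(⌊(z.re - (x₀ - w)) / (r / 2)⌋₊, ⌊(z.im - (y₀ - h)) / (r / 2)⌋₊), ?_, hz, rfl, rfl⟩
    rw [Finset.mem_product, Finset.mem_range, Finset.mem_range]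
    constructor
    · apply Nat.lt_succ_of_le
      apply Nat.floor_le_floor
      rw [div_le_div_iff₀ (by positivity) hr]
      nlinarith
    · apply Nat.lt_succ_of_le
      apply Nat.floor_le_floor
      rw [div_le_div_iff₀ (by positivity) hr]
      nlinarith
  have hQB : ∀ p, μ (Q p) ≤ B := by
    intro p
    rcases (Q p).eq_empty_or_nonempty with h0 | ⟨z, hz⟩
    · rw [h0, measure_empty]; exact zero_le
    · refine le_trans (measure_mono ?_) (hB z hz.1)
      intro y hy
      refine ⟨hy.1, ?_⟩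
      have key : ∀ u v : ℝ, 0 ≤ u → 0 ≤ v → ⌊u / (r / 2)⌋₊ = ⌊v / (r / 2)⌋₊ → |u - v| < r / 2 := by
        intro u v hu hv huv
        have a1 := Nat.floor_le (div_nonneg hu (by positivity : 0 ≤ r / 2))
        have a2 := Nat.lt_floor_add_one (u / (r / 2))
        have b1 := Nat.floor_le (div_nonneg hv (by positivity : 0 ≤ r / 2))
        have b2 := Nat.lt_floor_add_one (v / (r / 2))
        rw [huv] at a1 a2
        have hr2 : 0 < r / 2 := by positivity
        have c1 : u / (r / 2) - v / (r / 2) < 1 := by linarith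
        have c2 : v / (r / 2) - u / (r / 2) < 1 := by linarith
        rw [← sub_div, div_lt_one hr2] at c1 c2
        rw [abs_lt]
        constructor <;> linarith
      obtain ⟨hy1, hy2, hy3⟩ := hy
      obtain ⟨hz1, hz2, hz3⟩ := hz
      have e1 := hE y hy1
      have e2 := hE z hz1
      have e1a := abs_le.1 e1.1
      have e1b := abs_le.1 e1.2
      have e2a := abs_le.1 e2.1
      have e2b := abs_le.1 e2.2
      have k1 := key _ _ (by linarith) (by linarith) (hy2.trans hz2.symm)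
      have k2 := key _ _ (by linarith) (by linarith) (hy3.trans hz3.symm)
      have k1' : |(y - z).re| < r / 2 := by
        have : (y - z).re = (y.re - (x₀ - w)) - (z.re - (x₀ - w)) := by
          rw [Complex.sub_re]; ring
        rw [this]; exact k1
      have k2' : |(y - z).im| < r / 2 := by
        have : (y - z).im = (y.im - (y₀ - h)) - (z.im - (y₀ - h)) := by
          rw [Complex.sub_im]; ring
        rw [this]; exact k2
      rw [mem_ball, dist_eq_norm]
      have := Complex.norm_le_abs_re_add_abs_im (y - z)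
      linarith
  calc μ E ≤ μ (⋃ p ∈ Finset.range m ×ˢ Finset.range m', Q p) := measure_mono hcov
    _ ≤ ∑ p ∈ Finset.range m ×ˢ Finset.range m', μ (Q p) :=
        measure_biUnion_finset_le _ _
    _ ≤ ∑ p ∈ Finset.range m ×ˢ Finset.range m', B := Finset.sum_le_sum fun p _ => hQB p
    _ = ((m * m' : ℕ) : ENNReal) * B := by
        rw [Finset.sum_const, Finset.card_product, Finset.card_range, Finset.card_range,
          nsmul_eq_mul]
    _ ≤ _ := by
        apply mul_le_mul_left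
        rw [← ENNReal.ofReal_natCast]
        apply ENNReal.ofReal_le_ofReal
        push_cast
        have h1 : (m:ℝ) ≤ 4 * w / r + 1 := by
          rw [hm]; push_cast
          have := Nat.floor_le (show 0 ≤ 4 * w / r by positivity)
          linarith
        have h2 : (m':ℝ) ≤ 4 * h / r + 1 := by
          rw [hm']; push_cast
          have := Nat.floor_le (show 0 ≤ 4 * h / r by positivity)
          linarith
        exact mul_le_mul h1 h2 (by positivity) (by positivity)

/-- the content of dimension one of a set which meets all horizontal lines of a strip -/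
theorem Hc_one (h1 : (0:ℝ) < 1) {S : Set ℂ} {a b : ℝ} (h : Icc a b ⊆ Complex.im '' S) :
    ENNReal.ofReal (b - a) ≤ Hc 1 h1 S := by
  rw [Hc_apply]
  refine le_iInf fun t => le_iInf fun ht => ?_
  calc ENNReal.ofReal (b - a) = volume (Icc a b) := Real.volume_Icc.symm
    _ ≤ volume (⋃ i, Complex.im '' (t i)) := by
        apply measure_mono
        rw [← image_iUnion]
        exact h.trans (image_mono ht)
    _ ≤ ∑' i, volume (Complex.im '' (t i)) := measure_iUnion_le _
    _ ≤ ∑' i, ediam (t i) ^ (1:ℝ) := by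
        apply ENNReal.tsum_le_tsum
        intro i
        rw [ENNReal.rpow_one]
        refine (Real.volume_le_diam _).trans ?_
        apply ediam_le
        rintro _ ⟨x, hx, rfl⟩ _ ⟨y, hy, rfl⟩
        refine le_trans ?_ (edist_le_ediam_of_mem hx hy)
        rw [edist_dist, edist_dist]
        apply ENNReal.ofReal_le_ofReal
        rw [Real.dist_eq, dist_eq_norm, ← Complex.sub_im]
        exact Complex.abs_im_le_norm _

theorem vol_le_diam (A : Set ℂ) : volume A ≤ ENNReal.ofReal Real.pi * ediam A ^ (2:ℝ) := by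
  rcases A.eq_empty_or_nonempty with h0 | ⟨x, hx⟩
  · rw [h0, measure_empty]; exact zero_le
  by_cases h : ediam A = ⊤
  · rw [h, ENNReal.top_rpow_of_pos (by norm_num), ENNReal.mul_top
      (by rw [ne_eq, ENNReal.ofReal_eq_zero, not_le]; exact Real.pi_pos)]
    exact le_top
  · have hsub : A ⊆ closedBall x (ediam A).toReal := by
      intro y hy
      rw [mem_closedBall, ← ENNReal.ofReal_le_iff_le_toReal h, ← edist_dist]
      exact edist_le_ediam_of_mem hy hx
    refine (measure_mono hsub).trans ?_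
    rw [Complex.volume_closedBall, ENNReal.ofReal_toReal h, ENNReal.rpow_two, mul_comm]
    apply le_of_eq
    congr 1
    rw [← NNReal.coe_real_pi, ENNReal.ofReal_coe_nnreal]

theorem tsum_rpow_le {p : ℝ} (hp : 0 < p) (hp1 : p ≤ 1) (x : ℕ → ℝ≥0∞) :
    (∑' i, x i) ^ p ≤ ∑' i, x i ^ p := by
  have hfin : ∀ s : Finset ℕ, (∑ i ∈ s, x i) ^ p ≤ ∑ i ∈ s, x i ^ p := by
    intro s
    induction s using Finset.induction_on with
    | empty => simp [hp]
    | insert a s ha ih =>
      rw [Finset.sum_insert ha, Finset.sum_insert ha]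
      exact (ENNReal.rpow_add_le_add_rpow _ _ hp.le hp1).trans (add_le_add le_rfl ih)
  rw [ENNReal.tsum_eq_iSup_sum]
  have h1 := (ENNReal.orderIsoRpow p hp).map_iSup fun s : Finset ℕ => ∑ i ∈ s, x i
  simp only [ENNReal.orderIsoRpow_apply] at h1
  rw [h1]
  exact iSup_le fun s => (hfin s).trans (ENNReal.sum_le_tsum s)

theorem vol_rpow_le (hα2 : α ≤ 2) (E : Set ℂ) :
    volume E ^ (α / 2) ≤ ENNReal.ofReal Real.pi ^ (α / 2) * Hc α hα E := by
  have hpi : ENNReal.ofReal Real.pi ≠ 0 := by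
    rw [ne_eq, ENNReal.ofReal_eq_zero, not_le]; exact Real.pi_pos
  have hpi2 : ENNReal.ofReal Real.pi ^ (α / 2) ≠ 0 := by
    rw [ne_eq, ENNReal.rpow_eq_zero_iff, not_or]
    exact ⟨fun h => hpi h.1, fun h => ENNReal.ofReal_ne_top h.1⟩
  have hpi3 : ENNReal.ofReal Real.pi ^ (α / 2) ≠ ⊤ :=
    ENNReal.rpow_ne_top_of_nonneg (by positivity) ENNReal.ofReal_ne_top
  rw [Hc_apply, ENNReal.mul_iInf_of_ne hpi2 hpi3]
  refine le_iInf fun t => ?_
  rw [ENNReal.mul_iInf_of_ne hpi2 hpi3]
  refine le_iInf fun ht => ?_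
  have h1 : volume E ≤ ENNReal.ofReal Real.pi * ∑' i, ediam (t i) ^ (2:ℝ) := by
    rw [← ENNReal.tsum_mul_left]
    exact (measure_mono ht).trans ((measure_iUnion_le _).trans
      (ENNReal.tsum_le_tsum fun i => vol_le_diam _))
  calc volume E ^ (α / 2) ≤ (ENNReal.ofReal Real.pi * ∑' i, ediam (t i) ^ (2:ℝ)) ^ (α / 2) :=
        ENNReal.rpow_le_rpow h1 (by positivity)
    _ = ENNReal.ofReal Real.pi ^ (α / 2) * (∑' i, ediam (t i) ^ (2:ℝ)) ^ (α / 2) :=
        ENNReal.mul_rpow_of_nonneg _ _ (by positivity)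
    _ ≤ ENNReal.ofReal Real.pi ^ (α / 2) * ∑' i, (ediam (t i) ^ (2:ℝ)) ^ (α / 2) :=
        mul_le_mul_right (tsum_rpow_le (by positivity) (by linarith) _) _
    _ = _ := by
        congr 2
        funext i
        rw [← ENNReal.rpow_mul]
        congr 1
        ring

end Pool.Agent.Q79.HC
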