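import Mathlib
import Pool.Agent.Q79.HcA
import Pool.Agent.Q79.MonA

/-!
# Orbits along slow curves: an inequality for the supremum of contents
-/

set_option autoImplicit false

open MeasureTheory Set Filter Topology Metric
open scoped ENNReal

namespace Pool.Agent.Q79.HC

open Pool.Agent.Q79.PW (Sim)
open Pool.Agent.Q79.MN (Slow HasSim C0 C0_pos C1 C1_pos)

variable (T : ℂ → ℂ → ℂ)

/-- the orbit stays in the annulus and avoids `W` -/
def Av (M : ℝ) (W : Set ℂ) (S X : ℂ) : Prop :=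
  ∀ j : ℕ, (Real.exp (-M) ≤ ‖(T S)^[j] X‖ ∧ ‖(T S)^[j] X‖ ≤ Real.exp M) ∧ (T S)^[j] X ∉ W

/-- the parameters of a slow curve whose orbit stays in the annulus and avoids `W` -/
def AS (M : ℝ) (W : Set ℂ) (s : ℂ → ℂ) (x : ℂ) (r : ℝ) : Set ℂ :=
  {t | t ∈ ball x r ∧ Av T M W (Complex.exp (s t)) (Complex.exp t)}

variable {α : ℝ} (hα : 0 < α)

/-- the supremum of the contents -/
noncomputable def SupH (M : ℝ) (W : Set ℂ) (r₀ : ℝ) : ℝ≥0∞ :=
  ⨆ (x : ℂ) (r : ℝ) (s : ℂ → ℂ) (_ : 0 < r ∧ r ≤ r₀ ∧ Slow s x r), Hc α hα (AS T M W s x r)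

variable {T}

theorem le_SupH {M : ℝ} {W : Set ℂ} {r₀ : ℝ} {x : ℂ} {r : ℝ} {s : ℂ → ℂ} (h0 : 0 < r)
    (h1 : r ≤ r₀) (h : Slow s x r) : Hc α hα (AS T M W s x r) ≤ SupH T hα M W r₀ := by
  unfold SupH
  exact le_iSup_of_le x (le_iSup_of_le r (le_iSup_of_le s (le_iSup_of_le ⟨h0, h1, h⟩ le_rfl)))

theorem SupH_ne_top (M : ℝ) (W : Set ℂ) (r₀ : ℝ) : SupH T hα M W r₀ ≠ ⊤ := by
  have : SupH T hα M W r₀ ≤ ENNReal.ofReal ((2 * |r₀|) ^ α) := by
    unfold SupH
    refine iSup_le fun x => iSup_le fun r => iSup_le fun s => iSup_le fun h => ?_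
    refine (Hc_ball hα h.1.le (fun t ht => ball_subset_closedBall ht.1)).trans
      (ENNReal.ofReal_le_ofReal ?_)
    apply Real.rpow_le_rpow (by linarith [h.1]) _ hα.le
    have := le_abs_self r₀
    linarith [h.2.1]
  exact ne_top_of_le_ne_top ENNReal.ofReal_ne_top this

theorem AS_re {M : ℝ} {W : Set ℂ} {s : ℂ → ℂ} {x : ℂ} {r : ℝ} {t : ℂ} (ht : t ∈ AS T M W s x r) :
    |t.re| ≤ M := by
  have h0 := (ht.2 0).1
  simp only [Function.iterate_zero, id] at h0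
  rw [Complex.norm_exp, Real.exp_le_exp, Real.exp_le_exp] at h0
  exact abs_le.2 h0

/-- the key estimate -/
theorem keyH (hα1 : 1 ≤ α) (hα2 : α ≤ 2) {M r₀ : ℝ} {W : Set ℂ} (hr₀ : 0 < r₀) (hM : 0 ≤ M)
    {s : ℂ → ℂ} {x : ℂ}
    {r : ℝ} (hs : Slow s x r) {t₀ : ℂ} (ht₀ : t₀ ∈ AS T M W s x r)
    {a : ℂ} {ρ b δ : ℝ} (hρr : ρ ≤ r) (hρδ : ρ ≤ δ) (hb : 4 ≤ b) (hab : b ≤ ‖a‖)
    (hF : HasSim T s t₀ a ρ) :
    Hc α hα (AS T M W s x r ∩ ball t₀ (ρ / 32)) ≤
      ENNReal.ofReal (C0 M r₀ * (1 / b ^ α + δ / b ^ (α - 1))) * SupH T hα M W r₀ := by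
  obtain ⟨F, hF, hFe⟩ := hF
  have hρ0 : 0 < ρ := hF.ρ0
  have ha4 : 4 ≤ ‖a‖ := hb.trans hab
  obtain ⟨Φ, hΦ1, hΦ2⟩ := hF.inverse
  set E := AS T M W s x r ∩ ball t₀ (ρ / 32) with hE
  have hEsub : E ⊆ ball t₀ ρ := fun t ht => ball_subset_ball (by linarith) ht.2
  have ht₀ρ : t₀ ∈ ball t₀ ρ := mem_ball_self hρ0
  have hFE : ∀ t ∈ E, ‖F t - F t₀‖ ≤ 3 / 64 * ‖a‖ * ρ := by
    intro t ht
    have h1 := hF.upper (hEsub ht) ht₀ρ
    have h2 : ‖t - t₀‖ ≤ ρ / 32 := by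
      have := ht.2
      rw [mem_ball, dist_eq_norm] at this
      exact this.le
    have h3 : 3 / 2 * ‖a‖ * ‖t - t₀‖ ≤ 3 / 2 * ‖a‖ * (ρ / 32) :=
      mul_le_mul_of_nonneg_left h2 (by positivity)
    linarith
  have hFre : ∀ t ∈ E, |(F t).re| ≤ M := by
    intro t ht
    have h1 := (ht.1.2 1).1
    simp only [Function.iterate_one] at h1
    rw [← hFe t (hEsub ht), Complex.norm_exp, Real.exp_le_exp, Real.exp_le_exp] at h1
    exact abs_le.2 h1
  set r' := min r₀ (‖a‖ * ρ / 64) with hr'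
  have hr'0 : 0 < r' := lt_min hr₀ (by have := hF.apos; positivity)
  set h : ℝ := 3 / 64 * ‖a‖ * ρ with hh
  have hh0 : 0 ≤ h := by positivity
  -- contents of the pieces of the image
  have hpiece : ∀ y ∈ F '' E, Hc α hα (F '' E ∩ ball y r') ≤ SupH T hα M W r₀ := by
    rintro _ ⟨t₁, ht₁, rfl⟩
    have hball : ball (F t₁) (2 * r') ⊆ ball (F t₀) (‖a‖ * ρ / 8) := by
      apply ball_subset_ball'
      rw [dist_eq_norm]
      have h1 := hFE t₁ ht₁
      have h2 : r' ≤ ‖a‖ * ρ / 64 := min_le_right _ _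
      have h3 : 0 < ‖a‖ * ρ := by have := hF.apos; positivity
      nlinarith
    have hslow : Slow (s ∘ Φ) (F t₁) r' := by
      have hsmem : ∀ t ∈ ball t₀ ρ, t ∈ ball x (2 * r) := by
        intro t ht
        have h1 := ht₀.1
        rw [mem_ball, dist_eq_norm] at *
        calc ‖t - x‖ = ‖(t - t₀) + (t₀ - x)‖ := by congr 1; ring
          _ ≤ _ := norm_add_le _ _
          _ < 2 * r := by linarith
      constructor
      · intro y hy
        obtain ⟨h1, -, h3, -⟩ := hΦ1 y (hball hy)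
        have h4 : DifferentiableAt ℂ s (Φ y) :=
          hs.d.differentiableAt (isOpen_ball.mem_nhds (hsmem _ h1))
        exact (h4.comp y h3).differentiableWithinAt
      · intro y hy
        obtain ⟨h1, -, h3, h4⟩ := hΦ1 y (hball hy)
        have h5 : DifferentiableAt ℂ s (Φ y) :=
          hs.d.differentiableAt (isOpen_ball.mem_nhds (hsmem _ h1))
        rw [deriv_comp y h5 h3, norm_mul]
        have h6 := hs.b _ (hsmem _ h1)
        have h7 : 2 / ‖a‖ ≤ 1 := by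
          rw [div_le_one (by linarith)]; linarith
        exact mul_le_one₀ h6 (norm_nonneg _) (h4.trans h7)
    refine le_trans (measure_mono ?_) (le_SupH hα hr'0 (min_le_left _ _) hslow)
    rintro _ ⟨⟨t₂, ht₂, rfl⟩, hy2⟩
    have hΦF : Φ (F t₂) = t₂ := by
      apply hΦ2 t₂ (hEsub ht₂)
      exact hball (ball_subset_ball (by linarith) hy2)
    refine ⟨hy2, ?_⟩
    rw [Function.comp_apply, hΦF]
    intro j
    have h1 := ht₂.1.2 (j + 1)
    rw [Function.iterate_succ_apply, ← hFe t₂ (hEsub ht₂)] at h1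
    exact h1
  have hcount : Hc α hα (F '' E) ≤ ENNReal.ofReal (169 * (4 * M / r₀ + 1) * (1 + 1 / r₀) *
      (1 + ‖a‖ * ρ)) * SupH T hα M W r₀ := by
    have hρa : 0 < ‖a‖ * ρ := by have := hF.apos; positivity
    have hfac : 0 ≤ 4 * M / r₀ := by positivity
    have hfac2 : 0 ≤ 1 / r₀ := by positivity
    rcases min_choice r₀ (‖a‖ * ρ / 64) with hcase | hcase
    · have h1 := cover (Hc α hα) (x₀ := 0) (y₀ := (F t₀).im) hr'0 hM hh0 (E := F '' E) (by
        rintro _ ⟨t, ht, rfl⟩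
        refine ⟨by rw [sub_zero]; exact hFre t ht, ?_⟩
        rw [← Complex.sub_im]
        exact (Complex.abs_im_le_norm _).trans (hFE t ht)) hpiece
      refine h1.trans (mul_le_mul_left (ENNReal.ofReal_le_ofReal ?_) _)
      rw [hr', hcase]
      have e1 : 4 * h / r₀ + 1 ≤ (1 + 1 / r₀) * (1 + ‖a‖ * ρ) := by
        have : 4 * h / r₀ = 3 / 16 * (1 / r₀ * (‖a‖ * ρ)) := by rw [hh]; ring
        rw [this]
        have : 0 ≤ 1 / r₀ * (‖a‖ * ρ) := by positivity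
        nlinarith
      calc (4 * M / r₀ + 1) * (4 * h / r₀ + 1) ≤
          (4 * M / r₀ + 1) * ((1 + 1 / r₀) * (1 + ‖a‖ * ρ)) :=
            mul_le_mul_of_nonneg_left e1 (by positivity)
        _ = 1 * ((4 * M / r₀ + 1) * (1 + 1 / r₀) * (1 + ‖a‖ * ρ)) := by ring
        _ ≤ 169 * ((4 * M / r₀ + 1) * (1 + 1 / r₀) * (1 + ‖a‖ * ρ)) := by
            apply mul_le_mul_of_nonneg_right (by norm_num) (by positivity)
        _ = _ := by ring
    · have h1 := cover (Hc α hα) (x₀ := (F t₀).re) (y₀ := (F t₀).im) hr'0 hh0 hh0 (E := F '' E) (by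
        rintro _ ⟨t, ht, rfl⟩
        constructor
        · rw [← Complex.sub_re]
          exact (Complex.abs_re_le_norm _).trans (hFE t ht)
        · rw [← Complex.sub_im]
          exact (Complex.abs_im_le_norm _).trans (hFE t ht)) hpiece
      refine h1.trans (mul_le_mul_left (ENNReal.ofReal_le_ofReal ?_) _)
      rw [hr', hcase]
      have e1 : 4 * h / (‖a‖ * ρ / 64) + 1 = 13 := by
        rw [hh]; field_simp; norm_num
      rw [e1]
      have e2 : 1 ≤ (4 * M / r₀ + 1) * (1 + 1 / r₀) * (1 + ‖a‖ * ρ) := by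
        have f1 : 1 ≤ (4 * M / r₀ + 1) := by linarith
        have f2 : 1 ≤ (1 + 1 / r₀) := by linarith
        have f3 : 1 ≤ (1 + ‖a‖ * ρ) := by linarith
        exact one_le_mul_of_one_le_of_one_le (one_le_mul_of_one_le_of_one_le f1 f2) f3
      nlinarith
  have hvol := Hc_expand hα (F := F) (E := E) (c := ‖a‖ / 2) (by linarith)
    fun y hy z hz => hF.lower (hEsub hy) (hEsub hz)
  refine hvol.trans ?_
  have ha0 : 0 < ‖a‖ := by linarith
  have hfac : ((‖a‖ / 2)⁻¹) ^ α ≤ 4 / ‖a‖ ^ α := by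
    rw [inv_div, Real.div_rpow (by norm_num) ha0.le]
    apply div_le_div_of_nonneg_right _ (by positivity)
    calc (2:ℝ) ^ α ≤ 2 ^ (2:ℝ) := Real.rpow_le_rpow_of_exponent_le (by norm_num) hα2
      _ = 4 := by norm_num
  calc ENNReal.ofReal (((‖a‖ / 2)⁻¹) ^ α) * Hc α hα (F '' E) ≤ ENNReal.ofReal (4 / ‖a‖ ^ α) *
      (ENNReal.ofReal (169 * (4 * M / r₀ + 1) * (1 + 1 / r₀) *
      (1 + ‖a‖ * ρ)) * SupH T hα M W r₀) :=
        mul_le_mul' (ENNReal.ofReal_le_ofReal hfac) hcount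
    _ = ENNReal.ofReal (4 / ‖a‖ ^ α * (169 * (4 * M / r₀ + 1) * (1 + 1 / r₀) *
      (1 + ‖a‖ * ρ))) * SupH T hα M W r₀ := by
        rw [← mul_assoc, ← ENNReal.ofReal_mul (by positivity)]
    _ ≤ _ := by
        apply mul_le_mul_left
        apply ENNReal.ofReal_le_ofReal
        unfold C0
        set C₀ := 169 * (4 * M / r₀ + 1) * (1 + 1 / r₀) with hC₀
        have hC₀0 : 0 ≤ C₀ := by positivity
        have hsplit : ‖a‖ ^ α = ‖a‖ * ‖a‖ ^ (α - 1) := by
          rw [Real.rpow_sub_one ha0.ne']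
          field_simp
        have e1 : 4 / ‖a‖ ^ α * (C₀ * (1 + ‖a‖ * ρ)) =
            4 * C₀ * (1 / ‖a‖ ^ α + ρ / ‖a‖ ^ (α - 1)) := by
          rw [hsplit]
          have : ‖a‖ ^ (α - 1) ≠ 0 := (Real.rpow_pos_of_pos ha0 _).ne'
          field_simp
        rw [e1]
        apply mul_le_mul_of_nonneg_left _ (by positivity)
        have hb0 : 0 < b := by linarith
        apply add_le_add
        · apply one_div_le_one_div_of_le (Real.rpow_pos_of_pos hb0 _)
          exact Real.rpow_le_rpow hb0.le hab hα.le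
        · exact div_le_div₀ (hρ0.le.trans hρδ) hρδ (Real.rpow_pos_of_pos hb0 _)
            (Real.rpow_le_rpow hb0.le hab (by linarith))

/-- contents of the pieces -/
theorem pieceH (hα1 : 1 ≤ α) (hα2 : α ≤ 2) {M r₀ : ℝ} {W : Set ℂ} (hr₀ : 0 < r₀) (hM : 0 ≤ M)
    {s : ℂ → ℂ} {x : ℂ} {r : ℝ} (hr : 0 < r)
    (hs : Slow s x r) {E : Set ℂ} (hE : E ⊆ AS T M W s x r) {ε A b δ : ℝ} (hε : 0 < ε)
    (hε1 : ε ≤ 1) (hA : 0 ≤ A) (hδ : 0 < δ) (hb : 4 ≤ b)
    (hF : ∀ t ∈ E, ∃ a : ℂ, b ≤ ‖a‖ ∧ HasSim T s t a (min (ε * δ) r))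
    {q : ℂ} (hEq : ∀ t ∈ E, ‖t - q‖ ≤ A * δ) :
    Hc α hα E ≤ ENNReal.ofReal (C1 ε A M r₀ * (1 / b ^ α + δ / b ^ (α - 1))) *
      SupH T hα M W r₀ := by
  set ρ := min (ε * δ) r with hρ
  have hρ0 : 0 < ρ := lt_min (by positivity) hr
  have hb0 : 0 < b := by linarith
  have hC0 := C0_pos hM hr₀
  have hbb : 0 < 1 / b ^ α + δ / b ^ (α - 1) := by positivity
  -- general form
  have main : ∀ (c : ℂ) (w : ℝ), 0 ≤ w → (∀ t ∈ E, ‖t - c‖ ≤ w) → w / ρ ≤ A / ε + 1 →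
      Hc α hα E ≤ ENNReal.ofReal (C1 ε A M r₀ * (1 / b ^ α + δ / b ^ (α - 1))) *
        SupH T hα M W r₀ := by
    intro c w hw hc hwρ
    have h1 := cover (Hc α hα) (E := E) (x₀ := c.re) (y₀ := c.im) (w := w) (h := w) (r := ρ / 32)
      (by positivity) hw hw (by
        intro t ht
        have h2 := hc t ht
        constructor
        · rw [← Complex.sub_re]; exact (Complex.abs_re_le_norm _).trans h2
        · rw [← Complex.sub_im]; exact (Complex.abs_im_le_norm _).trans h2)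
      (B := ENNReal.ofReal (C0 M r₀ * (1 / b ^ α + δ / b ^ (α - 1))) * SupH T hα M W r₀) (by
        intro t ht
        obtain ⟨a, ha, hsim⟩ := hF t ht
        refine le_trans (measure_mono ?_) (keyH hα hα1 hα2 hr₀ hM hs (hE ht) (min_le_right _ _)
          (ρ := ρ) (δ := δ) ?_ hb ha hsim)
        · exact inter_subset_inter_left _ hE
        · exact (min_le_left _ _).trans (by nlinarith))
    refine h1.trans ?_
    rw [← mul_assoc, ← ENNReal.ofReal_mul (by positivity)]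
    apply mul_le_mul_left
    apply ENNReal.ofReal_le_ofReal
    have hcount : 4 * w / (ρ / 32) + 1 ≤ 128 * (A / ε + 1) + 1 := by
      have h2 : 4 * w / (ρ / 32) = 128 * (w / ρ) := by ring
      rw [h2]; linarith
    unfold C1
    have hc0 : 0 ≤ 4 * w / (ρ / 32) + 1 := by positivity
    have h5 : (4 * w / (ρ / 32) + 1) * (4 * w / (ρ / 32) + 1) ≤ (128 * (A / ε + 1) + 1) ^ 2 := by
      rw [← pow_two]; exact pow_le_pow_left₀ hc0 hcount 2
    calc _ ≤ (128 * (A / ε + 1) + 1) ^ 2 * (C0 M r₀ * (1 / b ^ α + δ / b ^ (α - 1))) :=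
          mul_le_mul_of_nonneg_right h5 (by positivity)
      _ = _ := by ring
  have hAε : 0 ≤ A / ε := by positivity
  rcases min_choice (ε * δ) r with hcase | hcase
  · refine main q (A * δ) (by positivity) hEq ?_
    rw [hρ, hcase]
    have : A * δ / (ε * δ) = A / ε := by
      rw [mul_div_mul_right _ _ hδ.ne']
    rw [this]; linarith
  · refine main x r hr.le (fun t ht => ?_) ?_
    · have := (hE ht).1
      rw [mem_ball, dist_eq_norm] at this
      exact this.le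
    · rw [hρ, hcase, div_self hr.ne']; linarith

end Pool.Agent.Q79.HC
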