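import Mathlib
import Pool.Agent.Q79.HcB
import Pool.Agent.Q79.MonH

/-!
# Contents of the sets of slow curves
-/

set_option autoImplicit false

open MeasureTheory Set Filter Topology Metric
open scoped ENNReal

namespace Pool.Agent.Q79.HC

open Pool.Agent.Q79.PW (Sim H G)
open Pool.Agent.Q79.MN (Slow HasSim C1 C1_pos MU fam Sg zz zz_le zz_ge regB regC regE Near)

variable {P Q : Polynomial ℂ} {α : ℝ} (hα : 0 < α)

theorem rp1 (_ : 1 ≤ α) (hα2 : α ≤ 2) {c n : ℝ} (hc : 1 ≤ c) (hn : 0 < n) :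
    1 / (n / c) ^ (α - 1) ≤ c * n ^ (1 - α) := by
  have hc0 : 0 < c := by linarith
  rw [Real.div_rpow hn.le hc0.le, one_div_div, show (1:ℝ) - α = -(α - 1) by ring,
    Real.rpow_neg hn.le, div_eq_mul_inv]
  apply mul_le_mul_of_nonneg_right _ (by positivity)
  calc c ^ (α - 1) ≤ c ^ (1:ℝ) := Real.rpow_le_rpow_of_exponent_le hc (by linarith)
    _ = c := Real.rpow_one c

theorem rp2 {b : ℝ} (hb : 0 < b) (α : ℝ) : 1 / b ^ α = 1 / b * (1 / b ^ (α - 1)) := by
  have : b ^ α = b * b ^ (α - 1) := by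
    rw [Real.rpow_sub_one hb.ne']
    field_simp
  rw [this]
  have h2 : b ^ (α - 1) ≠ 0 := (Real.rpow_pos_of_pos hb _).ne'
  field_simp

/-- the part away from the critical points -/
theorem outerH (hα1 : 1 ≤ α) (hα2 : α ≤ 2) {M r₀ B : ℝ} {W : Set ℂ} (U : MU P Q M r₀ B) (hr₀ : 0 < r₀) (hr₁ : r₀ ≤ 1 / 8) (hB : 1 ≤ B)
    (hM : 0 ≤ M) {n : ℕ} (hn : 12 ≤ n) (hnB : 16 * B ≤ n) {K : ℝ} (hK : 6 ≤ K)
    {s : ℂ → ℂ} {x : ℂ} {r : ℝ} (hr : 0 < r) (hrr : r ≤ r₀) (hs : Slow s x r) :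
    Hc α hα (AS (fam P Q n) M W s x r ∩ {t | K / (n:ℝ) ^ 2 < zz P Q n t}) ≤
      ENNReal.ofReal (C1 (1 / 40) (6 * B) M r₀ * (3 / K + 10 * (n:ℝ) ^ (1 - α))) *
        SupH (fam P Q n) hα M W r₀ := by
  have hn0 : (0:ℝ) < n := by exact_mod_cast (by omega : 0 < n)
  have hn12 : (12:ℝ) ≤ n := by exact_mod_cast hn
  have hK0 : 0 < K := by linarith
  set N := (n:ℝ) ^ (1 - α) with hN'
  have hNp : 0 < N := Real.rpow_pos_of_pos hn0 _
  have hC : 0 < C1 (1 / 40) (6 * B) M r₀ := C1_pos (by norm_num) (by positivity) hM hr₀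
  set C := C1 (1 / 40) (6 * B) M r₀ with hCd
  set S := SupH (fam P Q n) hα M W r₀ with hS
  -- the far part
  have hfar : ∀ E ⊆ AS (fam P Q n) M W s x r, (∀ t ∈ E, ∀ σ ∈ Sg P Q, r₀ ≤ ‖t - σ‖) →
      Hc α hα E ≤ ENNReal.ofReal (C * (2 * N)) * S := by
    intro E hE hEf
    refine (pieceH hα hα1 hα2 hr₀ hM hr hs hE (ε := 1 / 40) (A := 6 * B) (b := n / 2) (δ := r₀) (by norm_num)
      (by norm_num) (by positivity) hr₀ (by linarith) (fun t ht => ?_) (q := x) ?_).trans ?_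
    · exact regE U hr₀ (by omega) hnB hr hs (hE ht).1 (AS_re (hE ht)) (hEf t ht)
    · intro t ht
      have := (hE ht).1
      rw [mem_ball, dist_eq_norm] at this
      nlinarith
    · apply mul_le_mul_left
      apply ENNReal.ofReal_le_ofReal
      apply mul_le_mul_of_nonneg_left _ hC.le
      have h0 := rp1 hα1 hα2 (c := 2) (n := (n:ℝ)) (by norm_num) hn0
      have hp0 : 0 < 1 / ((n:ℝ) / 2) ^ (α - 1) := by positivity
      have h1 : 1 / ((n:ℝ) / 2) ^ α ≤ N := by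
        rw [rp2 (by positivity) α]
        have h4 : 1 / ((n:ℝ) / 2) ≤ 1 / 2 := by
          rw [div_le_div_iff₀ (by positivity) (by norm_num)]; linarith
        calc 1 / ((n:ℝ) / 2) * (1 / ((n:ℝ) / 2) ^ (α - 1)) ≤ 1 / 2 * (2 * N) :=
              mul_le_mul h4 h0 hp0.le (by norm_num)
          _ = N := by ring
      have h2 : r₀ / ((n:ℝ) / 2) ^ (α - 1) ≤ N := by
        rw [div_eq_mul_one_div]
        calc r₀ * (1 / ((n:ℝ) / 2) ^ (α - 1)) ≤ 1 / 8 * (2 * N) :=
              mul_le_mul hr₁ h0 hp0.le (by norm_num)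
          _ ≤ N := by linarith
      linarith
  by_cases hp : ∃ σ ∈ Sg P Q, ‖x - σ‖ ≤ 2 * r₀
  swap
  · push Not at hp
    refine (hfar _ inter_subset_left ?_).trans ?_
    · intro t ht σ hσ
      have h1 := hp σ hσ
      have h2 := ht.1.1
      rw [mem_ball, dist_eq_norm] at h2
      have h3 : ‖x - σ‖ ≤ ‖t - x‖ + ‖t - σ‖ := by
        calc ‖x - σ‖ = ‖(t - σ) - (t - x)‖ := by congr 1; ring
          _ ≤ _ := norm_sub_le _ _
          _ = _ := add_comm _ _
      linarith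
    · apply mul_le_mul_left
      apply ENNReal.ofReal_le_ofReal
      apply mul_le_mul_of_nonneg_left _ hC.le
      have h1 : 0 < 3 / K := by positivity
      linarith
  obtain ⟨σ, hσS, hσx⟩ := hp
  obtain ⟨μ, hμB, hN⟩ := U.near σ hσS
  have hμ := hN.μ1
  have hμ0 : 0 < ‖μ‖ := by linarith
  have hσ3 : ∀ t ∈ AS (fam P Q n) M W s x r, ‖t - σ‖ < 3 * r₀ := by
    intro t ht
    have h2 := ht.1
    rw [mem_ball, dist_eq_norm] at h2
    calc ‖t - σ‖ = ‖(t - x) + (x - σ)‖ := by congr 1; ring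
      _ ≤ _ := norm_add_le _ _
      _ < 3 * r₀ := by linarith
  have hσ4 : ∀ t ∈ AS (fam P Q n) M W s x r, t ∈ ball σ (4 * r₀) := by
    intro t ht
    rw [mem_ball, dist_eq_norm]
    have := hσ3 t ht
    linarith
  have hother : ∀ t ∈ AS (fam P Q n) M W s x r, ∀ σ' ∈ Sg P Q, σ' ≠ σ → r₀ ≤ ‖t - σ'‖ := by
    intro t ht σ' hσ' hne
    have h1 : ¬ σ' ∈ ball σ (4 * r₀) := by
      intro h2
      obtain ⟨h3, h4⟩ := hN.nz σ' h2 hne
      exact mul_ne_zero h3 h4 hσ'
    rw [mem_ball, dist_eq_norm, not_lt] at h1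
    have h2 := hσ3 t ht
    have h3 : ‖σ' - σ‖ ≤ ‖t - σ‖ + ‖t - σ'‖ := by
      calc ‖σ' - σ‖ = ‖(t - σ) - (t - σ')‖ := by congr 1; ring
        _ ≤ _ := norm_sub_le _ _
    linarith
  -- no point of the set is a zero or pole
  have hne : ∀ t ∈ AS (fam P Q n) M W s x r, t ≠ σ := by
    intro t ht h0
    have h1 := (ht.2 1).1.1
    simp only [Function.iterate_one] at h1
    have h2 : fam P Q n (Complex.exp (s t)) (Complex.exp t) = 0 := by
      unfold fam
      rw [h0]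
      rcases mul_eq_zero.1 hσS with h3 | h3
      · rw [h3, zero_div, mul_zero]
      · rw [h3, div_zero, mul_zero]
    rw [h2, norm_zero] at h1
    exact absurd h1 (not_le.2 (Real.exp_pos _))
  set δ₀ : ℝ := K / (n:ℝ) ^ 2 with hδ₀
  have hδ₀0 : 0 < δ₀ := by positivity
  set EB : ℕ → Set ℂ := fun i => {t | t ∈ AS (fam P Q n) M W s x r ∧ zz P Q n t ≤ 1 / (2 * n) ∧
    δ₀ * 2 ^ i ≤ zz P Q n t ∧ zz P Q n t ≤ 2 * (δ₀ * 2 ^ i)} with hEB
  set EC : ℕ → Set ℂ := fun i => {t | t ∈ AS (fam P Q n) M W s x r ∧ 1 / (2 * n) < zz P Q n t ∧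
    r₀ * (1 / 2) ^ (i + 1) ≤ ‖t - σ‖ ∧ ‖t - σ‖ ≤ 2 * (r₀ * (1 / 2) ^ (i + 1))} with hEC
  set EF : Set ℂ := {t | t ∈ AS (fam P Q n) M W s x r ∧ r₀ ≤ ‖t - σ‖} with hEF
  -- the number of scales
  have hex : ∃ I : ℕ, 1 / (2 * (n:ℝ)) ≤ δ₀ * 2 ^ I := by
    obtain ⟨I, hI⟩ := pow_unbounded_of_one_lt (1 / (2 * (n:ℝ)) / δ₀) (show (1:ℝ) < 2 by norm_num)
    refine ⟨I, ?_⟩
    rw [div_lt_iff₀ hδ₀0] at hI
    linarith
  classical
  set I := Nat.find hex with hI
  have hI1 : 1 / (2 * (n:ℝ)) ≤ δ₀ * 2 ^ I := Nat.find_spec hex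
  have hI2 : ∀ i < I, δ₀ * 2 ^ i < 1 / (2 * (n:ℝ)) := fun i hi => by
    have := Nat.find_min hex hi
    push Not at this
    exact this
  have hIn : (I:ℝ) ≤ n := by
    rcases Nat.eq_zero_or_pos I with h0 | h0
    · rw [h0]; simp
    · obtain ⟨i, hi⟩ : ∃ i, I = i + 1 := ⟨I - 1, by omega⟩
      have h1 := hI2 i (by omega)
      rw [hδ₀, div_mul_eq_mul_div, div_lt_div_iff₀ (by positivity) (by positivity)] at h1
      have h2 : (2:ℝ) ^ i * 2 ≤ n := by
        have h3 : K * 2 ^ i * (2 * n) < n * n := by nlinarith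
        have h4 : K * 2 ^ i * 2 < n := by
          have : K * 2 ^ i * 2 * n < n * n := by linarith
          exact lt_of_mul_lt_mul_right this hn0.le
        have h5 : (0:ℝ) < 2 ^ i := by positivity
        nlinarith
      have h6 : ((i + 1 : ℕ) : ℝ) ≤ 2 ^ (i + 1) := by
        exact_mod_cast (Nat.lt_two_pow_self (n := i + 1)).le
      rw [hi]
      calc ((i + 1 : ℕ) : ℝ) ≤ 2 ^ (i + 1) := h6
        _ = 2 ^ i * 2 := pow_succ _ _
        _ ≤ n := h2
  have hcov : AS (fam P Q n) M W s x r ∩ {t | K / (n:ℝ) ^ 2 < zz P Q n t} ⊆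
      (⋃ i ∈ Finset.range I, EB i) ∪ ((⋃ i, EC i) ∪ EF) := by
    rintro t ⟨ht, h1⟩
    have h1 : δ₀ < zz P Q n t := h1
    by_cases h2 : r₀ ≤ ‖t - σ‖
    · right; right; exact ⟨ht, h2⟩
    push Not at h2
    by_cases h3 : zz P Q n t ≤ 1 / (2 * n)
    · left
      have hex2 : ∃ j : ℕ, zz P Q n t ≤ δ₀ * 2 ^ j := ⟨I, h3.trans hI1⟩
      set j := Nat.find hex2 with hj
      have hj1 : zz P Q n t ≤ δ₀ * 2 ^ j := Nat.find_spec hex2
      have hjI : j ≤ I := Nat.find_min' hex2 (h3.trans hI1)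
      have hj0 : j ≠ 0 := by
        intro h0
        rw [h0, pow_zero, mul_one] at hj1
        linarith
      obtain ⟨i, hi⟩ : ∃ i, j = i + 1 := ⟨j - 1, by omega⟩
      have hi2 : ¬ zz P Q n t ≤ δ₀ * 2 ^ i := Nat.find_min hex2 (by omega)
      push Not at hi2
      simp only [mem_iUnion]
      refine ⟨i, Finset.mem_range.2 (by omega), ht, h3, hi2.le, ?_⟩
      rw [hi, pow_succ] at hj1
      linarith
    · right; left
      push Not at h3
      have h4 : 0 < ‖t - σ‖ := norm_pos_iff.2 (sub_ne_zero.2 (hne t ht))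
      obtain ⟨i, hi1, hi2⟩ := exists_nat_pow_near_of_lt_one (x := ‖t - σ‖ / r₀) (y := 1 / 2)
        (by positivity) (by rw [div_le_one hr₀]; exact h2.le) (by norm_num) (by norm_num)
      rw [lt_div_iff₀ hr₀] at hi1
      rw [div_le_iff₀ hr₀] at hi2
      rw [mem_iUnion]
      refine ⟨i, ht, h3, by linarith, ?_⟩
      rw [pow_succ]
      linarith
  -- the pieces near the critical point
  have hvB : ∀ i ∈ Finset.range I, Hc α hα (EB i) ≤
      ENNReal.ofReal (C * (3 / 2 / K * (1 / 2) ^ i + 3 / 2 * (N / n))) * S := by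
    intro i hi
    rcases (EB i).eq_empty_or_nonempty with h0 | ⟨t₁, ht₁⟩
    · rw [h0, measure_empty]; exact zero_le
    set δ := δ₀ * 2 ^ i with hδ
    have hδ0 : 0 < δ := by positivity
    have h2i : (1:ℝ) ≤ 2 ^ i := one_le_pow₀ (by norm_num)
    have hb : 2 / 3 * (n:ℝ) ^ 2 * δ = 2 / 3 * K * 2 ^ i := by
      rw [hδ, hδ₀]; field_simp
    have hb4 : 4 ≤ 2 / 3 * (n:ℝ) ^ 2 * δ := by rw [hb]; nlinarith
    refine (pieceH hα hα1 hα2 hr₀ hM hr hs (E := EB i) (fun t ht => ht.1) (ε := 1 / 40) (A := 6 * B)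
      (b := 2 / 3 * (n:ℝ) ^ 2 * δ) (δ := δ) (by norm_num)
      (by norm_num) (by positivity) hδ0 hb4 (fun t ht => ?_) (q := t₁) ?_).trans ?_
    · exact regB hN (by omega) hr hrr hs ht.1.1 (hσ3 t ht.1) hδ0 ht.2.1 ht.2.2.1 hb4
    · intro t ht
      have h1 := hN.lower (hσ4 t ht.1) (hσ4 t₁ ht₁.1)
      have h2 : ‖(G P Q t)⁻¹ - (G P Q t₁)⁻¹‖ ≤ 4 * δ := by
        calc ‖(G P Q t)⁻¹ - (G P Q t₁)⁻¹‖ =
            ‖((G P Q t)⁻¹ + 1 / (n:ℂ)) - ((G P Q t₁)⁻¹ + 1 / (n:ℂ))‖ := by congr 1; ring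
          _ ≤ zz P Q n t + zz P Q n t₁ := norm_sub_le _ _
          _ ≤ 4 * δ := by linarith [ht.2.2.2, ht₁.2.2.2]
      have h3 : ‖μ‖ * ‖(G P Q t)⁻¹ - (G P Q t₁)⁻¹‖ ≤ B * (4 * δ) :=
        mul_le_mul hμB h2 (norm_nonneg _) (by linarith)
      nlinarith
    · apply mul_le_mul_left
      apply ENNReal.ofReal_le_ofReal
      apply mul_le_mul_of_nonneg_left _ hC.le
      have hbp : 0 < 2 / 3 * (n:ℝ) ^ 2 * δ := by positivity
      have hb1 : 1 ≤ 2 / 3 * (n:ℝ) ^ 2 * δ := by linarith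
      have hbpow : 1 ≤ (2 / 3 * (n:ℝ) ^ 2 * δ) ^ (α - 1) :=
        Real.one_le_rpow hb1 (by linarith)
      apply add_le_add
      · rw [rp2 hbp α]
        have h1 : 1 / (2 / 3 * (n:ℝ) ^ 2 * δ) ^ (α - 1) ≤ 1 := by
          rw [div_le_one (by positivity)]; exact hbpow
        calc 1 / (2 / 3 * (n:ℝ) ^ 2 * δ) * (1 / (2 / 3 * (n:ℝ) ^ 2 * δ) ^ (α - 1)) ≤
              1 / (2 / 3 * (n:ℝ) ^ 2 * δ) * 1 := mul_le_mul_of_nonneg_left h1 (by positivity)
          _ = 3 / 2 / K * (1 / 2) ^ i := by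
              rw [hb, one_div_pow]; field_simp
      · have hbn : 2 / 3 * (n:ℝ) ^ 2 * δ ≤ n := by
          have h1 := hI2 i (Finset.mem_range.1 hi)
          rw [← hδ, lt_div_iff₀ (by positivity)] at h1
          have h2 : δ * (2 * n) * n ≤ 1 * n := mul_le_mul_of_nonneg_right h1.le hn0.le
          nlinarith
        have e1 : δ = 3 / 2 * (2 / 3 * (n:ℝ) ^ 2 * δ) / (n:ℝ) ^ 2 := by field_simp
        have e2 : δ / (2 / 3 * (n:ℝ) ^ 2 * δ) ^ (α - 1) =
            3 / 2 * ((2 / 3 * (n:ℝ) ^ 2 * δ) ^ (2 - α)) / (n:ℝ) ^ 2 := by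
          have e3 : (2 / 3 * (n:ℝ) ^ 2 * δ) ^ (2 - α) =
              (2 / 3 * (n:ℝ) ^ 2 * δ) / (2 / 3 * (n:ℝ) ^ 2 * δ) ^ (α - 1) := by
            rw [show (2:ℝ) - α = 1 - (α - 1) by ring, Real.rpow_sub hbp, Real.rpow_one]
          rw [e3]
          calc δ / (2 / 3 * (n:ℝ) ^ 2 * δ) ^ (α - 1) = (3 / 2 * (2 / 3 * (n:ℝ) ^ 2 * δ) / (n:ℝ) ^ 2) /
                (2 / 3 * (n:ℝ) ^ 2 * δ) ^ (α - 1) := by rw [← e1]
            _ = _ := by ring
        have e4 : (n:ℝ) ^ (2 - α) = n * N := by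
          rw [hN', show (2:ℝ) - α = 1 + (1 - α) by ring, Real.rpow_add hn0, Real.rpow_one]
        rw [e2]
        calc 3 / 2 * ((2 / 3 * (n:ℝ) ^ 2 * δ) ^ (2 - α)) / (n:ℝ) ^ 2 ≤
              3 / 2 * ((n:ℝ) ^ (2 - α)) / (n:ℝ) ^ 2 := by
                apply div_le_div_of_nonneg_right _ (by positivity)
                apply mul_le_mul_of_nonneg_left _ (by norm_num)
                exact Real.rpow_le_rpow hbp.le hbn (by linarith)
          _ = 3 / 2 * (N / n) := by rw [e4]; field_simp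
  have hsumB : ∑ i ∈ Finset.range I, Hc α hα (EB i) ≤
      ENNReal.ofReal (C * (3 / K + 3 / 2 * N)) * S := by
    calc ∑ i ∈ Finset.range I, Hc α hα (EB i) ≤ ∑ i ∈ Finset.range I,
        ENNReal.ofReal (C * (3 / 2 / K * (1 / 2) ^ i + 3 / 2 * (N / n))) * S :=
          Finset.sum_le_sum hvB
      _ = ENNReal.ofReal (∑ i ∈ Finset.range I,
          C * (3 / 2 / K * (1 / 2) ^ i + 3 / 2 * (N / n))) * S := by
          rw [ENNReal.ofReal_sum_of_nonneg, Finset.sum_mul]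
          intro i _
          positivity
      _ ≤ _ := by
          apply mul_le_mul_left
          apply ENNReal.ofReal_le_ofReal
          rw [← Finset.mul_sum]
          apply mul_le_mul_of_nonneg_left _ hC.le
          rw [Finset.sum_add_distrib, ← Finset.mul_sum, Finset.sum_const, Finset.card_range,
            nsmul_eq_mul]
          have h1 : ∑ i ∈ Finset.range I, (1 / 2 : ℝ) ^ i ≤ 2 := by
            have : ∀ I : ℕ, ∑ i ∈ Finset.range I, (1 / 2 : ℝ) ^ i = 2 - 2 * (1 / 2) ^ I := by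
              intro I
              induction I with
              | zero => simp
              | succ I ih => rw [Finset.sum_range_succ, ih, pow_succ]; ring
            rw [this]
            have : (0:ℝ) ≤ (1 / 2) ^ I := by positivity
            linarith
          apply add_le_add
          · calc 3 / 2 / K * ∑ i ∈ Finset.range I, (1 / 2) ^ i ≤ 3 / 2 / K * 2 :=
                mul_le_mul_of_nonneg_left h1 (by positivity)
              _ = 3 / K := by ring
          · calc (I:ℝ) * (3 / 2 * (N / n)) ≤ n * (3 / 2 * (N / n)) :=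
                mul_le_mul_of_nonneg_right hIn (by positivity)
              _ = 3 / 2 * N := by field_simp
  -- the pieces around the zero or pole
  have hvC : ∀ i : ℕ, Hc α hα (EC i) ≤
      ENNReal.ofReal (C * (18 * r₀ * N * (1 / 2) ^ (i + 1))) * S := by
    intro i
    set δ := r₀ * (1 / 2) ^ (i + 1) with hδ
    have hδ0 : 0 < δ := by positivity
    have hb0 : (n:ℝ) / 3 ≤ max ((n:ℝ) / 3) (1 / (5 * δ)) := le_max_left _ _
    have hb1 : 1 / (5 * δ) ≤ max ((n:ℝ) / 3) (1 / (5 * δ)) := le_max_right _ _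
    refine (pieceH hα hα1 hα2 hr₀ hM hr hs (E := EC i) (fun t ht => ht.1) (ε := 1 / 40) (A := 6 * B)
      (b := max ((n:ℝ) / 3) (1 / (5 * δ))) (δ := δ) (by norm_num)
      (by norm_num) (by positivity) hδ0 (by linarith) (fun t ht => ?_) (q := σ) ?_).trans ?_
    · exact regC hN hn hr hrr hs ht.1.1 (hσ3 t ht.1) hδ0 ht.2.1 ht.2.2.1 ht.2.2.2
    · intro t ht
      have := ht.2.2.2
      nlinarith
    · apply mul_le_mul_left
      apply ENNReal.ofReal_le_ofReal
      apply mul_le_mul_of_nonneg_left _ hC.le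
      set b := max ((n:ℝ) / 3) (1 / (5 * δ)) with hb
      have h5 : 0 < 1 / (5 * δ) := by positivity
      have hbp : 0 < b := by linarith
      have h6 : 1 / b ^ (α - 1) ≤ 3 * N := by
        refine le_trans ?_ (rp1 hα1 hα2 (c := 3) (n := (n:ℝ)) (by norm_num) hn0)
        apply one_div_le_one_div_of_le (by positivity)
        exact Real.rpow_le_rpow (by positivity) hb0 (by linarith)
      have h60 : 0 ≤ 1 / b ^ (α - 1) := by positivity
      have h1 : 1 / b ^ α ≤ 15 * δ * N := by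
        rw [rp2 hbp α]
        have h2 : 1 / b ≤ 5 * δ := by
          rw [div_le_iff₀ hbp]
          rw [div_le_iff₀ (by positivity)] at hb1
          linarith
        calc 1 / b * (1 / b ^ (α - 1)) ≤ 5 * δ * (3 * N) := mul_le_mul h2 h6 h60 (by positivity)
          _ = _ := by ring
      have h3 : δ / b ^ (α - 1) ≤ 3 * δ * N := by
        rw [div_eq_mul_one_div]
        calc δ * (1 / b ^ (α - 1)) ≤ δ * (3 * N) := mul_le_mul_of_nonneg_left h6 hδ0.le
          _ = _ := by ring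
      calc 1 / b ^ α + δ / b ^ (α - 1) ≤ 15 * δ * N + 3 * δ * N := add_le_add h1 h3
        _ = 18 * r₀ * N * (1 / 2) ^ (i + 1) := by rw [hδ]; ring
  have hsumC : Hc α hα (⋃ i, EC i) ≤ ENNReal.ofReal (C * (18 * r₀ * N)) * S := by
    refine (measure_iUnion_le _).trans ?_
    calc ∑' i, Hc α hα (EC i) ≤ ∑' i : ℕ,
        ENNReal.ofReal (C * (18 * r₀ * N * (1 / 2) ^ (i + 1))) * S := ENNReal.tsum_le_tsum hvC
      _ = (∑' i : ℕ, ENNReal.ofReal (C * (18 * r₀ * N * (1 / 2) ^ (i + 1)))) * S :=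
          ENNReal.tsum_mul_right
      _ = _ := by
          congr 1
          have hsum : HasSum (fun i : ℕ => C * (18 * r₀ * N * (1 / 2) ^ (i + 1)))
              (C * (18 * r₀ * N)) := by
            have h1 := (hasSum_geometric_two).mul_left (C * (18 * r₀ * N) * (1 / 2))
            have e : C * (18 * r₀ * N) * (1 / 2) * 2 = C * (18 * r₀ * N) := by ring
            rw [e] at h1
            have e2 : (fun i : ℕ => C * (18 * r₀ * N * (1 / 2) ^ (i + 1))) =
                fun i : ℕ => C * (18 * r₀ * N) * (1 / 2) * (1 / 2) ^ i := by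
              funext i
              rw [pow_succ]
              ring
            rw [e2]
            exact h1
          rw [← hsum.tsum_eq, ENNReal.ofReal_tsum_of_nonneg (fun i => by positivity) hsum.summable]
  have hvF := hfar EF (fun t ht => ht.1) (by
    intro t ht q hq
    by_cases hqp : q = σ
    · rw [hqp]; exact ht.2
    · exact hother t ht.1 q hq hqp)
  calc Hc α hα (AS (fam P Q n) M W s x r ∩ {t | K / (n:ℝ) ^ 2 < zz P Q n t}) ≤
        Hc α hα ((⋃ i ∈ Finset.range I, EB i) ∪ ((⋃ i, EC i) ∪ EF)) := measure_mono hcov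
    _ ≤ Hc α hα (⋃ i ∈ Finset.range I, EB i) + (Hc α hα (⋃ i, EC i) + Hc α hα EF) :=
        (measure_union_le _ _).trans (add_le_add le_rfl (measure_union_le _ _))
    _ ≤ ∑ i ∈ Finset.range I, Hc α hα (EB i) + (Hc α hα (⋃ i, EC i) + Hc α hα EF) := by
        gcongr
        exact measure_biUnion_finset_le _ _
    _ ≤ ENNReal.ofReal (C * (3 / K + 3 / 2 * N)) * S
        + (ENNReal.ofReal (C * (18 * r₀ * N)) * S + ENNReal.ofReal (C * (2 * N)) * S) :=
        add_le_add hsumB (add_le_add hsumC hvF)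
    _ ≤ _ := by
        rw [← add_mul, ← add_mul, ← ENNReal.ofReal_add (by positivity) (by positivity),
          ← ENNReal.ofReal_add (by positivity) (by positivity)]
        apply mul_le_mul_left
        apply ENNReal.ofReal_le_ofReal
        rw [← mul_add, ← mul_add]
        apply mul_le_mul_of_nonneg_left _ hC.le
        have h1 : 18 * r₀ * N ≤ 3 * N := mul_le_mul_of_nonneg_right (by linarith) hNp.le
        linarith

end Pool.Agent.Q79.HC
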