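import Mathlib
import Pool.Agent.Q79.HcC

/-!
# Bounds for the supremum of the contents
-/

set_option autoImplicit false

open MeasureTheory Set Filter Topology Metric
open scoped ENNReal

namespace Pool.Agent.Q79.HC

open Pool.Agent.Q79.PW (Sim H G exp_shift periodic_G)
open Pool.Agent.Q79.MN (Slow HasSim C1 C1_pos MU fam Sg zz zz_le zz_ge Near)

variable {P Q : Polynomial ℂ} {α : ℝ} (hα : 0 < α)

theorem near_small {M r₀ B : ℝ} (U : MU P Q M r₀ B) (hr₀ : 0 < r₀) (hB : 1 ≤ B) {n : ℕ}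
    (hnB : 16 * B ≤ n) {K : ℝ} (hKn : 2 * K ≤ n) {t : ℂ} (ht : |t.re| ≤ M)
    (h : zz P Q n t ≤ K / (n:ℝ) ^ 2) : ∃ σ ∈ Sg P Q, ‖t - σ‖ < r₀ := by
  by_contra hcon
  push Not at hcon
  have h1 := (U.far t ht hcon t (mem_ball_self (by positivity))).2
  have hn0 : (0:ℝ) < n := by linarith
  have h2 : K / (n:ℝ) ^ 2 ≤ 1 / (2 * n) := by
    rw [div_le_div_iff₀ (by positivity) (by positivity)]
    nlinarith
  have h3 := zz_ge (P := P) (Q := Q) (n := n) (t := t)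
  have h4 : 1 / (2 * (n:ℝ)) ≤ ‖(G P Q t)⁻¹‖ := by
    have : 1 / (n:ℝ) = 1 / (2 * n) + 1 / (2 * n) := by field_simp; norm_num
    linarith
  have h5 : (G P Q t) ≠ 0 := by
    intro h0
    rw [h0, inv_zero, norm_zero] at h4
    have : 0 < 1 / (2 * (n:ℝ)) := by positivity
    linarith
  have h6 : 0 < ‖G P Q t‖ := norm_pos_iff.2 h5
  have h7 := zz_le (P := P) (Q := Q) (n := n) (t := t)
  have h8 : ‖(G P Q t)⁻¹‖ ≤ 3 / (2 * n) := by
    have : 3 / (2 * (n:ℝ)) = 1 / (2 * n) + 1 / n := by field_simp; norm_num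
    linarith
  rw [norm_inv, inv_le_comm₀ h6 (by positivity), inv_div, div_le_iff₀ (by norm_num)] at h8
  linarith

/-- the part near the critical points -/
theorem inner {M r₀ B : ℝ} {W : Set ℂ} (U : MU P Q M r₀ B) (hr₀ : 0 < r₀) (hB : 1 ≤ B) {n : ℕ}
    (hnB : 16 * B ≤ n) {K : ℝ} (hK : 0 ≤ K) (hKn : 2 * K ≤ n)
    {s : ℂ → ℂ} {x : ℂ} {r : ℝ} (hrr : r ≤ r₀) :
    Hc α hα (AS (fam P Q n) M W s x r ∩ {t | zz P Q n t ≤ K / (n:ℝ) ^ 2}) ≤
      ENNReal.ofReal ((6 * B * K / (n:ℝ) ^ 2) ^ α) := by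
  set E := AS (fam P Q n) M W s x r ∩ {t | zz P Q n t ≤ K / (n:ℝ) ^ 2} with hE
  have hn0 : (0:ℝ) < n := by linarith
  rcases E.eq_empty_or_nonempty with h0 | ⟨t₁, ht₁⟩
  · rw [h0, measure_empty]; exact zero_le
  · obtain ⟨σ, hσ, hσt⟩ := near_small U hr₀ hB hnB hKn (AS_re ht₁.1) ht₁.2
    obtain ⟨μ, hμB, hN⟩ := U.near σ hσ
    have hmem : ∀ t ∈ E, t ∈ ball σ (4 * r₀) := by
      intro t ht
      have h1 := ht.1.1
      have h2 := ht₁.1.1
      rw [mem_ball, dist_eq_norm] at *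
      calc ‖t - σ‖ = ‖((t - x) - (t₁ - x)) + (t₁ - σ)‖ := by congr 1; ring
        _ ≤ ‖(t - x) - (t₁ - x)‖ + ‖t₁ - σ‖ := norm_add_le _ _
        _ ≤ (‖t - x‖ + ‖t₁ - x‖) + ‖t₁ - σ‖ := add_le_add (norm_sub_le _ _) le_rfl
        _ < 4 * r₀ := by linarith
    have hsub : E ⊆ closedBall t₁ (3 * B * (K / (n:ℝ) ^ 2)) := by
      intro t ht
      rw [mem_closedBall, dist_eq_norm]
      have h1 := hN.lower (hmem t ht) (hmem t₁ ht₁)
      have h5 : zz P Q n t ≤ K / (n:ℝ) ^ 2 := ht.2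
      have h6 : zz P Q n t₁ ≤ K / (n:ℝ) ^ 2 := ht₁.2
      have h2 : ‖(G P Q t)⁻¹ - (G P Q t₁)⁻¹‖ ≤ 2 * (K / (n:ℝ) ^ 2) := by
        calc ‖(G P Q t)⁻¹ - (G P Q t₁)⁻¹‖ =
            ‖((G P Q t)⁻¹ + 1 / (n:ℂ)) - ((G P Q t₁)⁻¹ + 1 / (n:ℂ))‖ := by congr 1; ring
          _ ≤ zz P Q n t + zz P Q n t₁ := norm_sub_le _ _
          _ ≤ 2 * (K / (n:ℝ) ^ 2) := by linarith
      have h3 : ‖μ‖ * ‖(G P Q t)⁻¹ - (G P Q t₁)⁻¹‖ ≤ B * (2 * (K / (n:ℝ) ^ 2)) :=
        mul_le_mul hμB h2 (norm_nonneg _) (by linarith)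
      have h4 : 0 ≤ B * (K / (n:ℝ) ^ 2) := by positivity
      nlinarith
    refine (Hc_ball hα (by positivity) hsub).trans (ENNReal.ofReal_le_ofReal (le_of_eq ?_))
    congr 1
    ring

/-- the contraction factor -/
theorem exists_half {C : ℝ} (hC : 0 < C) : ∃ K : ℝ, 6 ≤ K ∧ ∀ α : ℝ, 1 < α →
    ∃ n₀ : ℕ, ∀ n : ℕ, n₀ ≤ n → C * (3 / K + 10 * (n:ℝ) ^ (1 - α)) ≤ 1 / 2 := by
  refine ⟨max 6 (12 * C), le_max_left _ _, fun α hα => ?_⟩
  set K := max 6 (12 * C) with hK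
  have hK0 : 0 < K := lt_of_lt_of_le (by norm_num) (le_max_left _ _)
  have hKC : 12 * C ≤ K := le_max_right _ _
  have ht : Tendsto (fun n : ℕ => (n:ℝ) ^ (1 - α)) atTop (𝓝 0) := by
    have h := (tendsto_rpow_neg_atTop (y := α - 1) (by linarith)).comp tendsto_natCast_atTop_atTop
    refine h.congr fun n => ?_
    rw [Function.comp_apply, neg_sub]
  have hev := ht.eventually_lt_const (show 0 < 1 / (40 * C) by positivity)
  obtain ⟨n₀, hn₀⟩ := eventually_atTop.1 hev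
  refine ⟨n₀, fun n hn => ?_⟩
  have h1 := hn₀ n hn
  have e1 : C * (3 / K) ≤ 1 / 4 := by
    rw [mul_div_assoc', div_le_div_iff₀ hK0 (by norm_num)]
    linarith
  have e2 : C * (10 * (n:ℝ) ^ (1 - α)) ≤ 1 / 4 := by
    have h2 : C * (10 * (n:ℝ) ^ (1 - α)) ≤ C * (10 * (1 / (40 * C))) :=
      mul_le_mul_of_nonneg_left (by linarith) hC.le
    refine h2.trans (le_of_eq ?_)
    field_simp
    norm_num
  rw [mul_add]; linarith

theorem le_of_half {x : ℝ≥0∞} (hx : x ≠ ⊤) {y : ℝ} (hy : 0 ≤ y)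
    (h : x ≤ ENNReal.ofReal y + ENNReal.ofReal (1 / 2) * x) : x ≤ ENNReal.ofReal (2 * y) := by
  rw [← ENNReal.ofReal_toReal hx] at h ⊢
  rw [← ENNReal.ofReal_mul (by norm_num), ← ENNReal.ofReal_add hy (by positivity)] at h
  rw [ENNReal.ofReal_le_ofReal_iff (by positivity)] at h
  apply ENNReal.ofReal_le_ofReal
  linarith

/-- the set of points which are close to a critical point -/
def Wc (P Q : Polynomial ℂ) (n : ℕ) (K : ℝ) : Set ℂ :=
  {z | ∃ t : ℂ, Complex.exp t = z ∧ zz P Q n t ≤ K / (n:ℝ) ^ 2}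

/-- the two bounds -/
theorem SupH_bounds {M r₀ B : ℝ} (U : MU P Q M r₀ B) (hr₀ : 0 < r₀) (hr₁ : r₀ ≤ 1 / 8)
    (hB : 1 ≤ B) (hM : 0 ≤ M) : ∃ K : ℝ, 6 ≤ K ∧ ∀ α : ℝ, ∀ hα : 1 < α, α ≤ 2 →
      ∃ n₀ : ℕ, ∀ n : ℕ, n₀ ≤ n →
      (∀ W, SupH (fam P Q n) (by linarith : 0 < α) M W r₀ ≤
        ENNReal.ofReal (2 * (6 * B * K / (n:ℝ) ^ 2) ^ α)) ∧
      SupH (fam P Q n) (by linarith : 0 < α) M (Wc P Q n K) r₀ = 0 := by
  have hC := C1_pos (ε := 1 / 40) (A := 6 * B) (by norm_num) (by positivity) hM hr₀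
  obtain ⟨K, hK, h⟩ := exists_half hC
  refine ⟨K, hK, fun α hα1 hα2 => ?_⟩
  have hα : 0 < α := by linarith
  obtain ⟨n₁, hn₁⟩ := h α hα1
  obtain ⟨n₂, hn₂⟩ := exists_nat_ge (16 * B)
  obtain ⟨n₃, hn₃⟩ := exists_nat_ge (2 * K)
  refine ⟨max 12 (max n₁ (max n₂ n₃)), fun n hn => ?_⟩
  have hn12 : 12 ≤ n := (le_max_left _ _).trans hn
  have hnn1 : n₁ ≤ n := ((le_max_left _ _).trans (le_max_right _ _)).trans hn
  have hnn2 : n₂ ≤ n := (((le_max_left _ _).trans (le_max_right _ _)).trans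
    (le_max_right _ _)).trans hn
  have hnn3 : n₃ ≤ n := (((le_max_right _ _).trans (le_max_right _ _)).trans
    (le_max_right _ _)).trans hn
  have h2 : 16 * B ≤ n := hn₂.trans (by exact_mod_cast hnn2)
  have h3 : 2 * K ≤ n := hn₃.trans (by exact_mod_cast hnn3)
  have hhalf := hn₁ n hnn1
  have hout : ∀ W, ∀ x : ℂ, ∀ r : ℝ, ∀ s : ℂ → ℂ, (0 < r ∧ r ≤ r₀ ∧ Slow s x r) →
      Hc α hα (AS (fam P Q n) M W s x r ∩ {t | K / (n:ℝ) ^ 2 < zz P Q n t}) ≤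
        ENNReal.ofReal (1 / 2) * SupH (fam P Q n) hα M W r₀ := by
    intro W x r s h
    refine (outerH hα hα1.le hα2 U hr₀ hr₁ hB hM hn12 h2 hK h.1 h.2.1 h.2.2).trans ?_
    exact mul_le_mul_left (ENNReal.ofReal_le_ofReal hhalf) _
  constructor
  · intro W
    apply le_of_half (SupH_ne_top hα M W r₀) (by positivity)
    conv_lhs => unfold SupH
    refine iSup_le fun x => iSup_le fun r => iSup_le fun s => iSup_le fun h => ?_
    have hsplit : AS (fam P Q n) M W s x r ⊆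
        (AS (fam P Q n) M W s x r ∩ {t | zz P Q n t ≤ K / (n:ℝ) ^ 2}) ∪
        (AS (fam P Q n) M W s x r ∩ {t | K / (n:ℝ) ^ 2 < zz P Q n t}) := by
      intro t ht
      rcases le_or_gt (zz P Q n t) (K / (n:ℝ) ^ 2) with h1 | h1
      · exact Or.inl ⟨ht, h1⟩
      · exact Or.inr ⟨ht, h1⟩
    refine (measure_mono hsplit).trans ((measure_union_le _ _).trans (add_le_add ?_ (hout W x r s h)))
    exact inner hα U hr₀ hB h2 (by linarith) h3 h.2.1
  · have h0 : SupH (fam P Q n) hα M (Wc P Q n K) r₀ ≤ ENNReal.ofReal (2 * 0) := by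
      apply le_of_half (SupH_ne_top hα M _ r₀) le_rfl
      conv_lhs => unfold SupH
      refine iSup_le fun x => iSup_le fun r => iSup_le fun s => iSup_le fun h => ?_
      rw [ENNReal.ofReal_zero, zero_add]
      refine le_trans (measure_mono ?_) (hout _ x r s h)
      intro t ht
      refine ⟨ht, ?_⟩
      have h4 := (ht.2 0).2
      simp only [Function.iterate_zero, id] at h4
      by_contra hcon
      exact h4 ⟨t, rfl, not_lt.1 hcon⟩
    rw [mul_zero, ENNReal.ofReal_zero] at h0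
    exact le_antisymm h0 zero_le

/-- contents of sets of parameters -/
theorem param {M r₀ : ℝ} (hM : 0 ≤ M) (hr₀ : 0 < r₀) {n : ℕ} {W : Set ℂ} {κ : ℂ} (hκ : κ ≠ 0) :
    Hc α hα {u : ℂ | |u.im| ≤ Real.pi ∧ Av (fam P Q n) M W (Complex.exp u) (Complex.exp u * κ)} ≤
      ENNReal.ofReal ((4 * M / r₀ + 1) * (4 * Real.pi / r₀ + 1)) *
        SupH (fam P Q n) hα M W r₀ := by
  set E : Set ℂ := {t : ℂ | |(t - Complex.log κ).im| ≤ Real.pi ∧
    Av (fam P Q n) M W (Complex.exp (t - Complex.log κ)) (Complex.exp t)} with hE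
  have hsub : (fun u => u + Complex.log κ) '' {u : ℂ | |u.im| ≤ Real.pi ∧
      Av (fam P Q n) M W (Complex.exp u) (Complex.exp u * κ)} ⊆ E := by
    rintro _ ⟨u, ⟨h1, h2⟩, rfl⟩
    refine ⟨by rwa [add_sub_cancel_right], ?_⟩
    rw [add_sub_cancel_right, Complex.exp_add, Complex.exp_log hκ]
    exact h2
  have h1 := Hc_expand hα (F := fun u => u + Complex.log κ) (c := 1) one_pos
    (E := {u : ℂ | |u.im| ≤ Real.pi ∧ Av (fam P Q n) M W (Complex.exp u) (Complex.exp u * κ)})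
    (fun x _ y _ => by rw [add_sub_add_right_eq_sub, one_mul])
  rw [inv_one, Real.one_rpow, ENNReal.ofReal_one, one_mul] at h1
  refine h1.trans ((measure_mono hsub).trans ?_)
  refine cover (Hc α hα) (x₀ := 0) (y₀ := (Complex.log κ).im) hr₀ hM Real.pi_pos.le ?_ ?_
  · intro t ht
    constructor
    · have h0 := (ht.2 0).1
      simp only [Function.iterate_zero, id] at h0
      rw [Complex.norm_exp, Real.exp_le_exp, Real.exp_le_exp] at h0
      rw [sub_zero]; exact abs_le.2 h0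
    · rw [← Complex.sub_im]; exact ht.1
  · intro t ht
    have hslow : Slow (fun t => t - Complex.log κ) t r₀ := by
      constructor
      · fun_prop
      · intro y _
        simp
    refine le_trans (measure_mono ?_) (le_SupH hα hr₀ le_rfl hslow)
    rintro y ⟨hy1, hy2⟩
    exact ⟨hy2, hy1.2⟩

end Pool.Agent.Q79.HC
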