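import Mathlib
import Pool.Agent.Q79.HcD
import Pool.Agent.Q79.CmpC

/-!
# The family `a z ^ n P(z)`: the dynamics in the plane
-/

set_option autoImplicit false

open MeasureTheory Set Filter Topology Metric
open scoped ENNReal OnePoint

namespace Pool.Agent.Q79.HC

open Pool.Agent.Q79.MN
open Pool.Agent.Q79.CM (Esc Zer Att)
open Pool.Agent.Q79.PW (G)
open Pool.Agent.H762R2.Rt (wro)

variable {P : Polynomial ℂ}

theorem TP_eq (n : ℕ) (a z : ℂ) : fam P 1 n a z = a * z ^ n * P.eval z := by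
  unfold fam
  rw [Polynomial.eval_one, div_one]

theorem diffTP (n : ℕ) (a : ℂ) : Differentiable ℂ (fam P 1 n a) := by
  have : fam P 1 n a = fun z => a * z ^ n * P.eval z := funext fun z => TP_eq n a z
  rw [this]
  exact ((differentiable_const a).mul (differentiable_pow n)).mul P.differentiable

theorem deriv_TP {n : ℕ} (hn : 1 ≤ n) (a z : ℂ) : deriv (fam P 1 n a) z =
    a * z ^ (n - 1) * (n * P.eval z + z * (wro P 1).eval z) := by
  have h := (fam_deriv (P := P) (Q := 1) hn (a := a) (z := z) (by simp)).hasDerivAt.deriv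
  rw [h]
  simp

theorem crit_cases {n : ℕ} (hn : 1 ≤ n) {a z : ℂ} (ha : a ≠ 0) (h : deriv (fam P 1 n a) z = 0) :
    z = 0 ∨ P.eval z = 0 ∨ FC P 1 n z := by
  rw [deriv_TP hn] at h
  by_cases hz : z = 0
  · exact Or.inl hz
  by_cases hP : P.eval z = 0
  · exact Or.inr (Or.inl hP)
  right; right
  refine ⟨hP, by simp, ?_⟩
  rcases mul_eq_zero.1 h with h3 | h3
  · exact absurd h3 (mul_ne_zero ha (pow_ne_zero _ hz))
  · simpa using h3

theorem FC.deriv {n : ℕ} (hn : 1 ≤ n) {a z : ℂ} (h : FC P 1 n z) :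
    deriv (fam P 1 n a) z = 0 := by
  rw [deriv_TP hn]
  have := h.2.2
  simp only [Polynomial.eval_one, mul_one] at this
  rw [this, mul_zero]

theorem TP_zero {n : ℕ} (hn : 1 ≤ n) (a : ℂ) : fam P 1 n a 0 = 0 := by
  rw [TP_eq, zero_pow (by omega), mul_zero, zero_mul]

theorem zer_zero {n : ℕ} (hn : 1 ≤ n) (a : ℂ) : Zer (fam P 1 n a) 0 := by
  unfold Zer
  have : ∀ k, (fam P 1 n a)^[k] 0 = 0 := fun k => Function.iterate_fixed (TP_zero hn a) k
  simp only [this]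
  exact tendsto_const_nhds

theorem zer_root {n : ℕ} (hn : 1 ≤ n) (a : ℂ) {z : ℂ} (hz : P.eval z = 0) :
    Zer (fam P 1 n a) z := by
  unfold Zer
  rw [← tendsto_add_atTop_iff_nat 1]
  have h1 : fam P 1 n a z = 0 := by rw [TP_eq, hz, mul_zero]
  have := zer_zero (P := P) hn a
  unfold Zer at this
  simpa only [Function.iterate_succ_apply, h1] using this

theorem Zer.not_esc {f : ℂ → ℂ} {z : ℂ} (h : Zer f z) : ¬ Esc f z := by
  intro h2
  have h3 := h.norm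
  rw [norm_zero] at h3
  exact not_tendsto_nhds_of_tendsto_atTop h2 0 h3

/-- `0` is a superattracting fixed point -/
theorem sink_zero {n : ℕ} (hn : 2 ≤ n) (a : ℂ) :
    fam P 1 n a 0 = 0 ∧ ‖_root_.deriv (fam P 1 n a) 0‖ < 1 := by
  refine ⟨TP_zero (by omega) a, ?_⟩
  rw [deriv_TP (by omega), zero_pow (by omega)]
  simp

theorem To_iff' {n : ℕ} {a z : ℂ} {f : OnePoint ℂ → OnePoint ℂ} (hf : Sph P 1 n a f)
    (h : To f (z : OnePoint ℂ)) : Zer (fam P 1 n a) z ∨ Esc (fam P 1 n a) z := by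
  have hit : ∀ k : ℕ, f^[k] (z : OnePoint ℂ) = (((fam P 1 n a)^[k] z : ℂ) : OnePoint ℂ) := by
    intro k
    induction k with
    | zero => rfl
    | succ k ih =>
      rw [Function.iterate_succ_apply', Function.iterate_succ_apply', ih, hf.ev _ (by simp)]
  obtain ⟨p, hp, -, -, ht⟩ := h
  simp only [hit] at ht
  rcases hp with rfl | rfl
  · left
    exact (OnePoint.isOpenEmbedding_coe.tendsto_nhds_iff).2 ht
  · right
    have h1 : Tendsto (fun k : ℕ => (fam P 1 n a)^[k] z) atTop (cocompact ℂ) := by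
      rw [← Filter.coclosedCompact_eq_cocompact, ← OnePoint.comap_coe_nhds_infty, tendsto_comap_iff]
      exact ht
    exact tendsto_norm_cocompact_atTop.comp h1

/-- the orbit of the critical value leaves the annulus only towards `0` or `∞` -/
theorem leave' {m' c₁ : ℝ} (hB : Bd P 1 m' c₁) {M' r₀ B : ℝ}
    (U : MU P 1 M' r₀ B) (hr₀ : 0 < r₀) : ∃ n₀ : ℕ, ∀ n : ℕ, n₀ ≤ n → ∀ a : ℂ, a ≠ 0 →
      ∀ z : ℂ, FC P 1 n z → ¬ Non (fam P 1 n) (4 * m') a (fam P 1 n a z) →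
      Zer (fam P 1 n a) z ∨ Esc (fam P 1 n a) z := by
  have hm' := hB.m1
  obtain ⟨n₁, hn₁⟩ := FC.bounds hB U hr₀
  obtain ⟨n₂, hn₂⟩ := regions hB
  have hP0 : P ≠ 0 := by
    rintro rfl
    have := (hB.out 0 (Or.inl (by rw [norm_zero]; positivity))).1.1
    simp at this
  refine ⟨max 8 (max n₁ n₂), fun n hn a ha z hFC hnon => ?_⟩
  have hn8 : 8 ≤ n := (le_max_left _ _).trans hn
  have hnn1 : n₁ ≤ n := ((le_max_left _ _).trans (le_max_right _ _)).trans hn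
  have hnn2 : n₂ ≤ n := ((le_max_right _ _).trans (le_max_right _ _)).trans hn
  have hn1 : 1 ≤ n := by omega
  have hnr : (8:ℝ) ≤ n := by exact_mod_cast hn8
  obtain ⟨hcop, f, hf, hfe⟩ := exists_Sph (P := P) (Q := 1) isCoprime_one_right hP0 one_ne_zero (by simp) (n := n)
    (by rw [Polynomial.natDegree_one]; omega) ha
  obtain ⟨h0, hinf⟩ := hf.basic hB (by rw [Polynomial.natDegree_one]; omega) ha
  obtain ⟨hr1, hr2⟩ := hn₂ n hnn2 a f hf
  apply To_iff' hf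
  obtain ⟨⟨hc1, hc2⟩, hR1, hR2⟩ := hn₁ n hnn1 z hFC
  apply to_image
  rw [hf.ev z (by simp)]
  have hv : ‖fam P 1 n a z‖ = ‖a‖ * ‖z‖ ^ n *
      ‖P.eval z / (1 : Polynomial ℂ).eval z‖ := by
    unfold fam
    rw [norm_mul, norm_mul, norm_pow]
  have hzn1 : Real.exp (-(n * m')) ≤ ‖z‖ ^ n := by
    have := pow_le_pow_left₀ (Real.exp_pos _).le hc1 n
    rw [← Real.exp_nat_mul] at this
    rwa [mul_neg] at this
  have hzn2 : ‖z‖ ^ n ≤ Real.exp (n * m') := by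
    have := pow_le_pow_left₀ (norm_nonneg _) hc2 n
    rwa [← Real.exp_nat_mul] at this
  by_cases ha1 : ‖a‖ < Real.exp (-(2 * n * m'))
  · apply hr1 (ha1.le.trans (by rw [Real.exp_le_exp]; nlinarith))
    rw [hv]
    have h5 : ‖a‖ * ‖z‖ ^ n * ‖P.eval z / (1 : Polynomial ℂ).eval z‖ ≤
        Real.exp (-(2 * n * m')) * Real.exp (n * m') * Real.exp (n * m' / 2) :=
      mul_le_mul (mul_le_mul ha1.le hzn2 (by positivity) (Real.exp_pos _).le) hR2
        (norm_nonneg _) (by positivity)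
    refine h5.trans ?_
    rw [← Real.exp_add, ← Real.exp_add, Real.exp_le_exp]
    nlinarith
  push Not at ha1
  by_cases ha2 : Real.exp (2 * n * m') < ‖a‖
  · apply hr2 ha1
    rw [hv]
    have h5 : Real.exp (2 * n * m') * Real.exp (-(n * m')) * Real.exp (-(n * m' / 2)) ≤
        ‖a‖ * ‖z‖ ^ n * ‖P.eval z / (1 : Polynomial ℂ).eval z‖ :=
      mul_le_mul (mul_le_mul ha2.le hzn1 (Real.exp_pos _).le (norm_nonneg _)) hR1
        (Real.exp_pos _).le (by positivity)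
    refine le_trans ?_ h5
    rw [← Real.exp_add, ← Real.exp_add, Real.exp_le_exp]
    nlinarith
  push Not at ha2
  unfold Non at hnon
  push Not at hnon
  obtain ⟨j, hj⟩ := hnon
  refine orb_to (M := 4 * m') hf hinf ?_ j _ ?_
  · intro w hw
    rcases hw with h | h
    · exact hr1 ha2 w h.le
    · exact hr2 ha1 w h.le
  · rintro ⟨h6, h7⟩
    exact absurd (hj h6) (not_lt.2 h7)


/-! ### the basins of `0` and `∞` -/

theorem iter_small {g : ℂ → ℂ} {ρ : ℝ} (h : ∀ z : ℂ, ‖z‖ ≤ ρ → ‖g z‖ ≤ ‖z‖ / 2) {z : ℂ}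
    (hz : ‖z‖ ≤ ρ) : Zer g z := by
  have h1 : ∀ k : ℕ, ‖g^[k] z‖ ≤ ‖z‖ * (1 / 2) ^ k := by
    intro k
    induction k with
    | zero => simp
    | succ k ih =>
      rw [Function.iterate_succ_apply', pow_succ]
      have h2 : ‖g^[k] z‖ ≤ ρ := by
        refine ih.trans (le_trans ?_ hz)
        exact mul_le_of_le_one_right (norm_nonneg _) (pow_le_one₀ (by norm_num) (by norm_num))
      have h3 := h _ h2
      linarith
  unfold Zer
  rw [tendsto_zero_iff_norm_tendsto_zero]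
  refine squeeze_zero (fun k => norm_nonneg _) h1 ?_
  have := (tendsto_pow_atTop_nhds_zero_of_lt_one (r := (1 / 2 : ℝ)) (by norm_num)
    (by norm_num)).const_mul ‖z‖
  rwa [mul_zero] at this

theorem iter_large {g : ℂ → ℂ} {R : ℝ} (hR : 0 < R) (h : ∀ z : ℂ, R ≤ ‖z‖ → 2 * ‖z‖ ≤ ‖g z‖)
    {z : ℂ} (hz : R ≤ ‖z‖) : Esc g z := by
  have h1 : ∀ k : ℕ, ‖z‖ * 2 ^ k ≤ ‖g^[k] z‖ := by
    intro k
    induction k with
    | zero => simp
    | succ k ih =>
      rw [Function.iterate_succ_apply', pow_succ]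
      have h2 : R ≤ ‖g^[k] z‖ := by
        refine le_trans (hz.trans ?_) ih
        exact le_mul_of_one_le_right (norm_nonneg _) (one_le_pow₀ (by norm_num))
      have h3 := h _ h2
      linarith
  unfold Esc
  refine tendsto_atTop_mono h1 ?_
  exact (tendsto_pow_atTop_atTop_of_one_lt (by norm_num : (1:ℝ) < 2)).const_mul_atTop
    (hR.trans_le hz)

theorem Zer.of_iter {f : ℂ → ℂ} {z : ℂ} (k : ℕ) (h : Zer f (f^[k] z)) : Zer f z := by
  unfold Zer at *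
  rw [← tendsto_add_atTop_iff_nat k]
  refine h.congr fun j => ?_
  rw [Function.iterate_add_apply]

theorem Esc.of_iter {f : ℂ → ℂ} {z : ℂ} (k : ℕ) (h : Esc f (f^[k] z)) : Esc f z := by
  unfold Esc at *
  rw [← tendsto_add_atTop_iff_nat k]
  refine h.congr fun j => ?_
  rw [Function.iterate_add_apply]

theorem cont_iter (n : ℕ) (c : ℂ) (k : ℕ) : Continuous fun a : ℂ => (fam P 1 n a)^[k] c := by
  induction k with
  | zero => exact continuous_const
  | succ k ih =>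
    have e : (fun a : ℂ => (fam P 1 n a)^[k + 1] c) = fun a : ℂ => a * ((fam P 1 n a)^[k] c) ^ n *
        P.eval ((fam P 1 n a)^[k] c) := funext fun a => by
      rw [Function.iterate_succ_apply', TP_eq]
    rw [e]
    exact (continuous_id.mul (ih.pow n)).mul (P.continuous.comp ih)

/-- uniform convergence to `0` -/
theorem small_unif {m' c₁ : ℝ} (hB : Bd P 1 m' c₁) {n : ℕ} (hn : 2 ≤ n) {β : ℝ} (hβ : 0 < β) :
    ∃ ρ : ℝ, 0 < ρ ∧ ∀ a : ℂ, ‖a‖ ≤ β → ∀ z : ℂ, ‖z‖ ≤ ρ → ‖fam P 1 n a z‖ ≤ ‖z‖ / 2 := by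
  have hc1 := hB.c1
  refine ⟨min (min (Real.exp (-m')) 1) (1 / (2 * c₁ * β)),
    lt_min (lt_min (Real.exp_pos _) one_pos) (by positivity), fun a ha z hz => ?_⟩
  have h1 : ‖z‖ ≤ Real.exp (-m') := hz.trans ((min_le_left _ _).trans (min_le_left _ _))
  have h2 : ‖z‖ ≤ 1 := hz.trans ((min_le_left _ _).trans (min_le_right _ _))
  have h3 : ‖z‖ ≤ 1 / (2 * c₁ * β) := hz.trans (min_le_right _ _)
  have h4 := hB.small z h1
  unfold fam
  rw [norm_mul, norm_mul, norm_pow]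
  have h5 : ‖z‖ ^ n ≤ ‖z‖ * (1 / (2 * c₁ * β)) := by
    obtain ⟨k, rfl⟩ : ∃ k, n = k + 2 := ⟨n - 2, by omega⟩
    calc ‖z‖ ^ (k + 2) = ‖z‖ ^ k * (‖z‖ * ‖z‖) := by ring
      _ ≤ 1 * (‖z‖ * (1 / (2 * c₁ * β))) := by
          apply mul_le_mul (pow_le_one₀ (norm_nonneg _) h2) _ (by positivity) zero_le_one
          exact mul_le_mul_of_nonneg_left h3 (norm_nonneg _)
      _ = _ := one_mul _
  calc ‖a‖ * ‖z‖ ^ n * ‖P.eval z / (1 : Polynomial ℂ).eval z‖ ≤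
        β * (‖z‖ * (1 / (2 * c₁ * β))) * c₁ :=
          mul_le_mul (mul_le_mul ha h5 (by positivity) (by positivity)) h4 (norm_nonneg _)
            (by positivity)
    _ = ‖z‖ / 2 := by field_simp

theorem small_ball {m' c₁ : ℝ} (hB : Bd P 1 m' c₁) {n : ℕ} (hn : 2 ≤ n) (a : ℂ) :
    ∃ ρ : ℝ, 0 < ρ ∧ ∀ z : ℂ, ‖z‖ ≤ ρ → Zer (fam P 1 n a) z := by
  obtain ⟨ρ, hρ, h⟩ := small_unif hB hn (β := ‖a‖ + 1) (by positivity)
  exact ⟨ρ, hρ, fun z hz => iter_small (h a (by linarith)) hz⟩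

/-- convergence to `0` is an open condition -/
theorem zer_open {m' c₁ : ℝ} (hB : Bd P 1 m' c₁) {n : ℕ} (hn : 2 ≤ n) {a₀ c : ℂ}
    (h : Zer (fam P 1 n a₀) c) : ∀ᶠ a in 𝓝 a₀, Zer (fam P 1 n a) c := by
  obtain ⟨ρ, hρ0, hsmall⟩ := small_unif hB hn (β := ‖a₀‖ + 1) (by positivity)
  have h1 := h.eventually (ball_mem_nhds (0:ℂ) hρ0)
  obtain ⟨k, hk⟩ := h1.exists
  have h2 : ∀ᶠ a in 𝓝 a₀, (fam P 1 n a)^[k] c ∈ ball (0:ℂ) ρ :=
    (cont_iter (P := P) n c k).continuousAt.eventually_mem (isOpen_ball.mem_nhds hk)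
  have h3 : ∀ᶠ a : ℂ in 𝓝 a₀, ‖a‖ < ‖a₀‖ + 1 :=
    continuous_norm.continuousAt.eventually_lt_const (by linarith)
  filter_upwards [h2, h3] with a h4 h5
  apply Zer.of_iter k
  exact iter_small (hsmall a h5.le) (by rw [mem_ball_zero_iff] at h4; exact h4.le)

/-- uniform escape -/
theorem large_unif {m' c₁ : ℝ} (hB : Bd P 1 m' c₁) {n : ℕ} (hn : 2 ≤ n) {β : ℝ} (hβ : 0 < β) :
    ∃ R : ℝ, 0 < R ∧ ∀ a : ℂ, β ≤ ‖a‖ → ∀ z : ℂ, R ≤ ‖z‖ → 2 * ‖z‖ ≤ ‖fam P 1 n a z‖ := by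
  have hc1 := hB.c1
  refine ⟨max (max (Real.exp m') 1) (2 * c₁ / β),
    lt_of_lt_of_le one_pos ((le_max_right _ _).trans (le_max_left _ _)), fun a ha z hz => ?_⟩
  have h1 : Real.exp m' ≤ ‖z‖ := ((le_max_left _ _).trans (le_max_left _ _)).trans hz
  have h2 : 1 ≤ ‖z‖ := ((le_max_right _ _).trans (le_max_left _ _)).trans hz
  have h3 : 2 * c₁ / β ≤ ‖z‖ := (le_max_right _ _).trans hz
  have h4 := hB.large z h1
  rw [Polynomial.natDegree_one, pow_zero, one_mul] at h4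
  unfold fam
  rw [norm_mul, norm_mul, norm_pow]
  have h5 : ‖z‖ * (2 * c₁ / β) ≤ ‖z‖ ^ n := by
    obtain ⟨k, rfl⟩ : ∃ k, n = k + 2 := ⟨n - 2, by omega⟩
    calc ‖z‖ * (2 * c₁ / β) = 1 * (‖z‖ * (2 * c₁ / β)) := (one_mul _).symm
      _ ≤ ‖z‖ ^ k * (‖z‖ * ‖z‖) := by
          apply mul_le_mul (one_le_pow₀ h2) _ (by positivity) (by positivity)
          exact mul_le_mul_of_nonneg_left h3 (norm_nonneg _)
      _ = ‖z‖ ^ (k + 2) := by ring
  have h6 : 1 / c₁ ≤ ‖P.eval z / (1 : Polynomial ℂ).eval z‖ := by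
    rw [div_le_iff₀ (by linarith)]; linarith
  calc 2 * ‖z‖ = β * (‖z‖ * (2 * c₁ / β)) * (1 / c₁) := by field_simp
    _ ≤ ‖a‖ * ‖z‖ ^ n * ‖P.eval z / (1 : Polynomial ℂ).eval z‖ :=
        mul_le_mul (mul_le_mul ha h5 (by positivity) (by positivity)) h6 (by positivity)
          (by positivity)

/-- escape is an open condition -/
theorem esc_open {m' c₁ : ℝ} (hB : Bd P 1 m' c₁) {n : ℕ} (hn : 2 ≤ n) {a₀ c : ℂ} (ha₀ : a₀ ≠ 0)
    (h : Esc (fam P 1 n a₀) c) : ∀ᶠ a in 𝓝 a₀, Esc (fam P 1 n a) c := by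
  have hap : 0 < ‖a₀‖ := norm_pos_iff.2 ha₀
  obtain ⟨R, hR0, hlarge⟩ := large_unif hB hn (β := ‖a₀‖ / 2) (by positivity)
  have h1 := h.eventually_gt_atTop R
  obtain ⟨k, hk⟩ := h1.exists
  have h2 : ∀ᶠ a in 𝓝 a₀, R < ‖(fam P 1 n a)^[k] c‖ :=
    (cont_iter (P := P) n c k).norm.continuousAt.eventually_const_lt hk
  have h3 : ∀ᶠ a : ℂ in 𝓝 a₀, ‖a₀‖ / 2 < ‖a‖ :=
    continuous_norm.continuousAt.eventually_const_lt (by linarith)
  filter_upwards [h2, h3] with a h4 h5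
  apply Esc.of_iter k
  exact iter_large hR0 (hlarge a h5.le) h4.le

/-- **persistence of attraction** under continuous convergence of entire functions -/
theorem persist' {ε : ℝ} (hε : 0 < ε) {ι : Type*} {l : Filter ι} {F : ι → ℂ → ℂ} {g : ℂ → ℂ}
    (hF : ∀ p, Differentiable ℂ (F p)) (hg : Differentiable ℂ g)
    (hcc : ∀ k w, Tendsto (fun y : ι × ℂ => (F y.1)^[k] y.2) (l ×ˢ 𝓝 w) (𝓝 (g^[k] w)))
    {m : ℕ} {x₀ z : ℂ} (hper : g^[m] x₀ = x₀) (hlt : ‖deriv (g^[m]) x₀‖ < 1)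
    (hz : Tendsto (fun k : ℕ => g^[m * k] z) atTop (𝓝 x₀)) :
    ∀ᶠ p in l, ∃ x : ℂ, ‖x - x₀‖ ≤ ε ∧ (F p)^[m] x = x ∧ ‖deriv ((F p)^[m]) x‖ < 1 ∧
      Tendsto (fun k : ℕ => (F p)^[m * k] z) atTop (𝓝 x) := by
  set f : ℂ → ℂ := g^[m] with hf
  have hfd : Differentiable ℂ f := hg.iterate m
  obtain ⟨θ, hθ1, hθ2⟩ := exists_between hlt
  have hθ0 : 0 ≤ θ := (norm_nonneg _).trans hθ1.le
  have hdc : Continuous (deriv f) := hfd.contDiff.continuous_deriv le_top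
  have hnear : ∀ᶠ w in 𝓝 x₀, ‖deriv f w‖ < θ := hdc.norm.continuousAt.eventually_lt_const hθ1
  obtain ⟨ρ₁, hρ₁, hb₁⟩ := Metric.mem_nhds_iff.1 hnear
  set ρ := min (ρ₁ / 2) ε with hρ
  have hρ0 : 0 < ρ := lt_min (by linarith) hε
  have hρρ : ρ < ρ₁ := (min_le_left _ _).trans_lt (by linarith)
  -- locally uniform convergence
  have hlu : TendstoLocallyUniformlyOn (fun p => (F p)^[m]) f l univ := by
    rw [tendstoLocallyUniformlyOn_univ, tendstoLocallyUniformly_iff_forall_tendsto]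
    intro w
    have h1 : Tendsto (fun y : ι × ℂ => f y.2) (l ×ˢ 𝓝 w) (𝓝 (f w)) :=
      (hfd.continuous.tendsto w).comp tendsto_snd
    have h2 := h1.prodMk_nhds (hcc m w)
    exact h2.mono_right (nhds_le_uniformity (f w))
  have hlud := hlu.deriv (Eventually.of_forall fun p => ((hF p).iterate m).differentiableOn)
    isOpen_univ
  obtain ⟨θ', hθ'1, hθ'2⟩ := exists_between hθ2
  have hK : IsCompact (closedBall x₀ ρ) := isCompact_closedBall _ _
  have hu := (tendstoLocallyUniformlyOn_iff_forall_isCompact isOpen_univ).1 hlu _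
    (subset_univ _) hK
  have hud := (tendstoLocallyUniformlyOn_iff_forall_isCompact isOpen_univ).1 hlud _
    (subset_univ _) hK
  rw [Metric.tendstoUniformlyOn_iff] at hu hud
  -- the orbit enters the disc
  obtain ⟨k₀, hk₀⟩ := (hz.eventually (ball_mem_nhds x₀ hρ0)).exists
  have hin : ∀ᶠ p in l, (F p)^[m * k₀] z ∈ ball x₀ ρ := by
    have h1 : Tendsto (fun p : ι => (p, z)) l (l ×ˢ 𝓝 z) :=
      tendsto_id.prodMk tendsto_const_nhds
    have h2 := (hcc (m * k₀) z).comp h1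
    exact h2.eventually (isOpen_ball.mem_nhds hk₀)
  filter_upwards [hu ((1 - θ') * ρ) (by nlinarith), hud (θ' - θ) (by linarith), hin]
    with p h1 h2 h3
  set fp : ℂ → ℂ := (F p)^[m] with hfp
  have hfpd : Differentiable ℂ fp := (hF p).iterate m
  have hder : ∀ w ∈ closedBall x₀ ρ, ‖deriv fp w‖ ≤ θ' := by
    intro w hw
    have h4 : ‖deriv f w - deriv fp w‖ < θ' - θ := by
      have := h2 w hw
      rwa [dist_eq_norm] at this
    have h5 : ‖deriv f w‖ < θ := hb₁ (closedBall_subset_ball hρρ hw)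
    calc ‖deriv fp w‖ = ‖deriv f w - (deriv f w - deriv fp w)‖ := by congr 1; ring
      _ ≤ ‖deriv f w‖ + ‖deriv f w - deriv fp w‖ := norm_sub_le _ _
      _ ≤ θ' := by linarith
  have hlip : ∀ w ∈ closedBall x₀ ρ, ∀ w' ∈ closedBall x₀ ρ, ‖fp w - fp w'‖ ≤ θ' * ‖w - w'‖ := by
    intro w hw w' hw'
    exact (convex_closedBall x₀ ρ).norm_image_sub_le_of_norm_deriv_le
      (fun y _ => hfpd.differentiableAt) hder hw' hw
  have hx₀m : x₀ ∈ closedBall x₀ ρ := mem_closedBall_self hρ0.le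
  have hmaps : MapsTo fp (closedBall x₀ ρ) (closedBall x₀ ρ) := by
    intro w hw
    have h4 := h1 x₀ hx₀m
    rw [dist_eq_norm, hper] at h4
    have h5 := hlip w hw x₀ hx₀m
    rw [mem_closedBall, dist_eq_norm] at *
    calc ‖fp w - x₀‖ = ‖(fp w - fp x₀) - (x₀ - fp x₀)‖ := by congr 1; ring
      _ ≤ ‖fp w - fp x₀‖ + ‖x₀ - fp x₀‖ := norm_sub_le _ _
      _ ≤ θ' * ρ + (1 - θ') * ρ :=
        add_le_add (h5.trans (mul_le_mul_of_nonneg_left hw (by linarith))) h4.le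
      _ = ρ := by ring
  have hθ'0 : 0 ≤ θ' := by linarith
  have hcw : ContractingWith ⟨θ', hθ'0⟩ (hmaps.restrict fp _ _) := by
    refine ⟨by exact_mod_cast hθ'2, LipschitzWith.of_dist_le_mul ?_⟩
    rintro ⟨w, hw⟩ ⟨w', hw'⟩
    rw [Subtype.dist_eq, Subtype.dist_eq, dist_eq_norm, dist_eq_norm]
    exact hlip w hw w' hw'
  obtain ⟨x, hx, hxf, hxl, -⟩ := hcw.exists_fixedPoint' isClosed_closedBall.isComplete hmaps
    (ball_subset_closedBall h3) (edist_ne_top _ _)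
  have hx' : x ∈ closedBall x₀ ρ := hx
  refine ⟨x, ?_, hxf, (hder x hx').trans_lt hθ'2, ?_⟩
  · rw [mem_closedBall, dist_eq_norm] at hx'
    exact hx'.trans (min_le_right _ _)
  · rw [← tendsto_add_atTop_iff_nat k₀]
    refine hxl.congr fun k => ?_
    rw [hfp, ← Function.iterate_mul, ← Function.iterate_add_apply, ← mul_add]

/-- attraction by a sink other than `0` excludes convergence to `0` nearby -/
theorem att_open {n : ℕ} {a₀ c : ℂ} {k : ℕ} {x₀ : ℂ} (hk : 0 < k) (hx₀ : x₀ ≠ 0)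
    (h1 : (fam P 1 n a₀)^[k] x₀ = x₀) (h2 : ‖deriv ((fam P 1 n a₀)^[k]) x₀‖ < 1)
    (h3 : Tendsto (fun j : ℕ => (fam P 1 n a₀)^[k * j] c) atTop (𝓝 x₀)) :
    ∀ᶠ a in 𝓝 a₀, ¬ Zer (fam P 1 n a) c := by
  have hcc : ∀ j w, Tendsto (fun y : ℂ × ℂ => (fam P 1 n y.1)^[j] y.2) (𝓝 a₀ ×ˢ 𝓝 w)
      (𝓝 ((fam P 1 n a₀)^[j] w)) := by
    intro j w
    have hcont : Continuous fun y : ℂ × ℂ => (fam P 1 n y.1)^[j] y.2 := by
      induction j with
      | zero => exact continuous_snd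
      | succ j ih =>
        have e : (fun y : ℂ × ℂ => (fam P 1 n y.1)^[j + 1] y.2) = fun y : ℂ × ℂ =>
            y.1 * ((fam P 1 n y.1)^[j] y.2) ^ n * P.eval ((fam P 1 n y.1)^[j] y.2) :=
          funext fun y => by rw [Function.iterate_succ_apply', TP_eq]
        rw [e]
        exact (continuous_fst.mul (ih.pow n)).mul (P.continuous.comp ih)
    rw [← nhds_prod_eq]
    exact hcont.tendsto (a₀, w)
  have h4 := persist' (ε := ‖x₀‖ / 2) (by have := norm_pos_iff.2 hx₀; positivity)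
    (F := fun a => fam P 1 n a) (fun a => diffTP n a) (diffTP n a₀) hcc h1 h2 h3
  filter_upwards [h4] with a ha
  obtain ⟨x, hx1, -, -, hx4⟩ := ha
  intro hz
  have h5 : Tendsto (fun j : ℕ => (fam P 1 n a)^[k * j] c) atTop (𝓝 0) :=
    hz.comp (tendsto_id.const_mul_atTop' hk)
  have h6 := tendsto_nhds_unique hx4 h5
  rw [h6, zero_sub, norm_neg] at hx1
  have := norm_pos_iff.2 hx₀
  linarith

end Pool.Agent.Q79.HC
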