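import Mathlib
import Pool.Agent.Q79.HcE

/-!
# The family `a z ^ n P(z)`: rays, contents, dimension
-/

set_option autoImplicit false

open MeasureTheory Set Filter Topology Metric
open scoped ENNReal OnePoint NNReal

namespace Pool.Agent.Q79.HC

open Pool.Agent.Q79.MN
open Pool.Agent.Q79.CM (Esc Zer Att)
open Pool.Agent.Q79.PW (G)
open Pool.Agent.H762R2.Rt (wro)

/-! ### content zero and dimension -/

theorem Hc_zero {α : ℝ} (hα : 0 < α) {S : Set ℂ} (h : Hc α hα S = 0) :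
    Measure.hausdorffMeasure α S = 0 := by
  rw [Measure.hausdorffMeasure_apply]
  refine le_antisymm (iSup_le fun r => iSup_le fun hr => ?_) zero_le
  refine le_of_forall_gt_imp_ge_of_dense fun ε hε => ?_
  have hrα : 0 < min ε (r ^ α) := lt_min hε (by
    by_cases hr2 : r = ⊤
    · rw [hr2, ENNReal.top_rpow_of_pos hα]; exact ENNReal.zero_lt_top
    · exact ENNReal.rpow_pos hr hr2)
  rw [← h, Hc_apply] at hrα
  obtain ⟨t, ht⟩ := iInf_lt_iff.1 hrα
  obtain ⟨ht1, ht2⟩ := iInf_lt_iff.1 ht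
  refine iInf_le_of_le t (iInf_le_of_le ht1 (iInf_le_of_le (fun i => ?_) ?_))
  · have h1 : ediam (t i) ^ α < r ^ α :=
      (ENNReal.le_tsum i).trans_lt (ht2.trans_le (min_le_right _ _))
    exact ((ENNReal.rpow_lt_rpow_iff hα).1 h1).le
  · refine le_trans (ENNReal.tsum_le_tsum fun i => iSup_le fun _ => le_rfl)
      (ht2.le.trans (min_le_left _ _))

theorem dim_le {α : ℝ} (hα : 0 < α) {S : Set ℂ} (h : Hc α hα S = 0) :
    dimH S ≤ ENNReal.ofReal α := by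
  have h1 := Hc_zero hα h
  have h2 : dimH S ≤ ((α.toNNReal : ℝ≥0) : ℝ≥0∞) := by
    apply dimH_le_of_hausdorffMeasure_ne_top
    rw [Real.coe_toNNReal α hα.le, h1]
    exact ENNReal.zero_ne_top
  exact h2

/-! ### the free critical points -/

theorem exists_crit' {P Q : Polynomial ℂ} {σ μ : ℂ} {r : ℝ} (hr : 0 < r) (hN : Near P Q σ μ r)
    {n : ℕ} (hn1 : 1 ≤ n) (hn : ‖μ‖ / (3 / 8 * r) ≤ n) :
    ∃ t ∈ closedBall σ (r / 2), G P Q t = -n := by
  have hμ := hN.μ1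
  have hμ0 : μ ≠ 0 := by
    intro h; rw [h, norm_zero] at hμ; linarith
  have happ : ApproximatesLinearOn (fun t => μ * (G P Q t)⁻¹) (ContinuousLinearMap.id ℂ ℂ)
      (ball σ r) (1 / 4 : NNReal) := by
    intro x hx y hy
    have h1 := hN.q x hx y hy
    simp only [ContinuousLinearMap.coe_id', id_eq]
    rw [← mul_sub]
    have e : (((1 / 4 : NNReal) : NNReal) : ℝ) = 1 / 4 := by norm_num
    rw [e]
    linarith
  set inv : (ContinuousLinearMap.id ℂ ℂ).NonlinearRightInverse :=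
    { toFun := id, nnnorm := 1, bound' := fun y => by simp, right_inv' := fun y => rfl } with hinv
  have hsurj := happ.surjOn_closedBall_of_nonlinearRightInverse inv (ε := r / 2) (b := σ)
    (by positivity) (closedBall_subset_ball (by linarith))
  simp only [hinv, hN.G_center, mul_zero] at hsurj
  have hn0 : (0:ℝ) < n := by exact_mod_cast hn1
  have hnc : (n:ℂ) ≠ 0 := by exact_mod_cast (by omega : n ≠ 0)
  have hmem : -(μ / n) ∈ closedBall (0:ℂ) (((((1:NNReal) : NNReal) : ℝ)⁻¹ -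
      ((1 / 4 : NNReal) : ℝ)) * (r / 2)) := by
    rw [mem_closedBall_zero_iff, norm_neg, norm_div, Complex.norm_natCast]
    have e : ((((1:NNReal) : NNReal) : ℝ)⁻¹ - ((1 / 4 : NNReal) : ℝ)) * (r / 2) = 3 / 8 * r := by
      norm_num
      ring
    rw [e, div_le_iff₀ hn0]
    rw [div_le_iff₀ (by positivity)] at hn
    linarith
  obtain ⟨t, ht, hte⟩ := hsurj hmem
  refine ⟨t, ht, ?_⟩
  have h3 : (G P Q t)⁻¹ = -(1 / (n:ℂ)) := by
    have : μ * (G P Q t)⁻¹ = μ * (-(1 / (n:ℂ))) := by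
      have h4 : μ * (G P Q t)⁻¹ = -(μ / n) := hte
      rw [h4]; ring
    exact mul_left_cancel₀ hμ0 this
  rw [← inv_inv (G P Q t), h3, inv_neg, one_div, inv_inv]

theorem FC_of_G {P Q : Polynomial ℂ} {σ μ : ℂ} {r : ℝ} (hN : Near P Q σ μ r) {n : ℕ}
    (hn : 1 ≤ n) {t : ℂ} (ht : t ∈ ball σ r) (hG : G P Q t = -n) : FC P Q n (Complex.exp t) := by
  have hnc : (n:ℂ) ≠ 0 := by exact_mod_cast (by omega : n ≠ 0)
  have hτσ : t ≠ σ := by
    intro h
    have h3 := hN.G_center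
    rw [← h, hG, inv_eq_zero, neg_eq_zero] at h3
    exact hnc h3
  obtain ⟨hPc, hQc⟩ := hN.nz t ht hτσ
  refine ⟨hPc, hQc, ?_⟩
  have h1 : G P Q t = Complex.exp t * (wro P Q).eval (Complex.exp t) /
      (P.eval (Complex.exp t) * Q.eval (Complex.exp t)) := rfl
  rw [hG, eq_div_iff (mul_ne_zero hPc hQc)] at h1
  linear_combination -h1

/-- points with small `zz` are close to a free critical point -/
theorem close {P Q : Polynomial ℂ} {M r₀ B : ℝ} (U : MU P Q M r₀ B) (hr₀ : 0 < r₀) (hB : 1 ≤ B)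
    {K : ℝ} (hK : 0 < K) : ∃ n₀ : ℕ, ∀ n : ℕ, n₀ ≤ n → ∀ z : ℂ,
      Real.exp (-M) ≤ ‖z‖ → ‖z‖ ≤ Real.exp M → z ∈ Wc P Q n K →
      ∃ c, FC P Q n c ∧ ‖z - c‖ < 3 * Real.exp M * B * K / (n:ℝ) ^ 2 := by
  obtain ⟨n₁, hn₁⟩ := exists_nat_ge (16 * B)
  obtain ⟨n₂, hn₂⟩ := exists_nat_ge (2 * K)
  obtain ⟨n₃, hn₃⟩ := exists_nat_ge (B / (3 / 8 * (4 * r₀)))
  obtain ⟨n₄, hn₄⟩ := exists_nat_ge (4 / 3 * (B * K))
  refine ⟨max (max n₁ n₂) (max n₃ (max n₄ 1)), fun n hn z hz1 hz2 hz => ?_⟩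
  have g1 : n₁ ≤ n := ((le_max_left _ _).trans (le_max_left _ _)).trans hn
  have g2 : n₂ ≤ n := ((le_max_right _ _).trans (le_max_left _ _)).trans hn
  have g3 : n₃ ≤ n := ((le_max_left _ _).trans (le_max_right _ _)).trans hn
  have g4 : n₄ ≤ n := (((le_max_left _ _).trans (le_max_right _ _)).trans
    (le_max_right _ _)).trans hn
  have g5 : 1 ≤ n := (((le_max_right _ _).trans (le_max_right _ _)).trans
    (le_max_right _ _)).trans hn
  have e1 : 16 * B ≤ n := hn₁.trans (by exact_mod_cast g1)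
  have e2 : 2 * K ≤ n := hn₂.trans (by exact_mod_cast g2)
  have e3 : B / (3 / 8 * (4 * r₀)) ≤ n := hn₃.trans (by exact_mod_cast g3)
  have e4 : 4 / 3 * (B * K) ≤ n := hn₄.trans (by exact_mod_cast g4)
  have e5 : (1:ℝ) ≤ n := by exact_mod_cast g5
  have hn0 : (0:ℝ) < n := by linarith
  obtain ⟨t, rfl, ht⟩ := hz
  rw [Complex.norm_exp, Real.exp_le_exp] at hz1 hz2
  obtain ⟨σ, hσ, hσt⟩ := near_small U hr₀ hB e1 e2 (abs_le.2 ⟨hz1, hz2⟩) ht
  obtain ⟨μ, hμB, hN⟩ := U.near σ hσ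
  obtain ⟨τ, hτ, hG⟩ := exists_crit' (by positivity) hN g5 (by
    refine le_trans ?_ e3
    exact div_le_div_of_nonneg_right hμB (by positivity))
  have hτb : τ ∈ ball σ (4 * r₀) := closedBall_subset_ball (by linarith) hτ
  have htb : t ∈ ball σ (4 * r₀) := by rw [mem_ball, dist_eq_norm]; linarith
  refine ⟨Complex.exp τ, FC_of_G hN g5 hτb hG, ?_⟩
  have h1 := hN.lower htb hτb
  have h2 : ‖(G P Q t)⁻¹ - (G P Q τ)⁻¹‖ ≤ K / (n:ℝ) ^ 2 := by
    rw [hG, inv_neg, sub_neg_eq_add, ← one_div (n:ℂ)]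
    exact ht
  have h3 : ‖μ‖ * ‖(G P Q t)⁻¹ - (G P Q τ)⁻¹‖ ≤ B * (K / (n:ℝ) ^ 2) :=
    mul_le_mul hμB h2 (norm_nonneg _) (by linarith)
  have h4 : ‖τ - t‖ ≤ 4 / 3 * (B * (K / (n:ℝ) ^ 2)) := by
    rw [norm_sub_rev]; linarith
  have h5 : 4 / 3 * (B * (K / (n:ℝ) ^ 2)) ≤ 1 := by
    have : 4 / 3 * (B * (K / (n:ℝ) ^ 2)) = 4 / 3 * (B * K) / (n:ℝ) ^ 2 := by ring
    rw [this, div_le_one (by positivity)]
    nlinarith
  have h6 : ‖Complex.exp t - Complex.exp τ‖ = ‖Complex.exp t‖ * ‖Complex.exp (τ - t) - 1‖ := by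
    rw [← norm_mul, mul_sub, ← Complex.exp_add, add_sub_cancel, mul_one, norm_sub_rev]
  have h7 : ‖Complex.exp (τ - t) - 1‖ ≤ 2 * ‖τ - t‖ :=
    Complex.norm_exp_sub_one_le (h4.trans h5)
  rw [h6, Complex.norm_exp]
  have h8 : Real.exp t.re ≤ Real.exp M := Real.exp_le_exp.2 hz2
  have h9 : 0 < Real.exp M * (B * (K / (n:ℝ) ^ 2)) := by positivity
  calc Real.exp t.re * ‖Complex.exp (τ - t) - 1‖ ≤
        Real.exp M * (2 * (4 / 3 * (B * (K / (n:ℝ) ^ 2)))) :=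
          mul_le_mul h8 (h7.trans (by linarith)) (norm_nonneg _) (Real.exp_pos _).le
    _ < 3 * (Real.exp M * (B * (K / (n:ℝ) ^ 2))) := by linarith
    _ = _ := by ring

variable {P : Polynomial ℂ}

theorem exists_FC (h0 : P.eval 0 ≠ 0) (hd : 0 < P.natDegree) :
    ∃ n₀ : ℕ, ∀ n : ℕ, n₀ ≤ n → ∃ c, FC P 1 n c := by
  have hP0 : P ≠ 0 := by rintro rfl; simp at h0
  have hdP : P.degree ≠ 0 := by
    intro h
    rw [Polynomial.natDegree_eq_of_degree_eq_some h] at hd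
    exact absurd hd (lt_irrefl _)
  obtain ⟨y, hy⟩ := IsAlgClosed.exists_root P hdP
  rw [Polynomial.IsRoot.def] at hy
  have hy0 : y ≠ 0 := by
    rintro rfl
    exact h0 hy
  obtain ⟨μ, r, hr, hN⟩ := exists_near (P := P) (Q := 1) isCoprime_one_right hP0 one_ne_zero
    (σ := Complex.log y) (by rw [Complex.exp_log hy0, hy, zero_mul])
  obtain ⟨n₁, hn₁⟩ := exists_crit hr hN
  refine ⟨max 1 n₁, fun n hn => ?_⟩
  obtain ⟨τ, hτ, hG⟩ := hn₁ n ((le_max_right _ _).trans hn)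
  exact ⟨Complex.exp τ, FC_of_G hN ((le_max_left _ _).trans hn)
    (closedBall_subset_ball (by linarith) hτ) hG⟩

/-- hyperbolicity -/
def HypA (P : Polynomial ℂ) (n : ℕ) (a : ℂ) : Prop :=
  ∀ c, deriv (fam P 1 n a) c = 0 → Esc (fam P 1 n a) c ∨ Att (fam P 1 n a) c

/-- every ray contains a parameter which is not hyperbolic -/
theorem ray (h0 : P.eval 0 ≠ 0) (hd : 0 < P.natDegree) : ∃ n₀ : ℕ, ∀ n : ℕ, n₀ ≤ n →
    ∀ v : ℂ, ‖v‖ = 1 → ∃ r : ℝ, 0 < r ∧ ¬ HypA P n (r * v) := by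
  classical
  obtain ⟨n₁, hn₁⟩ := exists_FC h0 hd
  obtain ⟨m', c₁, hB⟩ := exists_Bd (P := P) (Q := 1) h0 (by simp)
  refine ⟨max 2 n₁, fun n hn v hv => ?_⟩
  have hn2 : 2 ≤ n := (le_max_left _ _).trans hn
  have hn1 : 1 ≤ n := by omega
  obtain ⟨c₀, hc₀⟩ := hn₁ n ((le_max_right _ _).trans hn)
  have hv0 : v ≠ 0 := by
    intro h; rw [h, norm_zero] at hv; exact zero_ne_one hv
  by_contra hcon
  push Not at hcon
  have hcont : Continuous fun r : ℝ => (r : ℂ) * v := Complex.continuous_ofReal.mul continuous_const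
  set 𝓒 : Finset ℂ := (cr P 1 n).roots.toFinset with h𝓒
  have hmem : ∀ c, FC P 1 n c → c ∈ 𝓒 := fun c hc => hc.mem hn1 ⟨h0, by simp⟩
  set u : Set ℝ := {r | 0 < r ∧ ∀ c ∈ 𝓒, FC P 1 n c → Zer (fam P 1 n (r * v)) c} with hu
  set w : Set ℝ := {r | 0 < r ∧ ∃ c, FC P 1 n c ∧ ¬ Zer (fam P 1 n (r * v)) c} with hw
  have huo : IsOpen u := by
    rw [isOpen_iff_mem_nhds]
    rintro r ⟨hr, hrc⟩
    have h1 : ∀ᶠ r' : ℝ in 𝓝 r, ∀ c ∈ 𝓒, FC P 1 n c → Zer (fam P 1 n (r' * v)) c := by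
      rw [Filter.eventually_all_finset]
      intro c hc
      by_cases hFC : FC P 1 n c
      · have h2 := hcont.continuousAt.eventually (zer_open hB hn2 (hrc c hc hFC))
        filter_upwards [h2] with r' hr' _
        exact hr'
      · exact Eventually.of_forall fun r' h => absurd h hFC
    filter_upwards [h1, eventually_gt_nhds hr] with r' h2 h3
    exact ⟨h3, h2⟩
  have hwo : IsOpen w := by
    rw [isOpen_iff_mem_nhds]
    rintro r ⟨hr, c, hc, hcz⟩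
    have hrv : (r:ℂ) * v ≠ 0 := mul_ne_zero (by exact_mod_cast hr.ne') hv0
    have h1 : ∀ᶠ a in 𝓝 ((r:ℂ) * v), ¬ Zer (fam P 1 n a) c := by
      rcases hcon r hr c (FC.deriv hn1 hc) with h | ⟨k, hk, x, h1, h2, h3⟩
      · filter_upwards [esc_open hB hn2 hrv h] with a ha hz
        exact Zer.not_esc hz ha
      · by_cases hx : x = 0
        · exfalso
          apply hcz
          subst hx
          -- the orbit enters the basin of 0
          obtain ⟨ρ, hρ, hsm⟩ := small_ball hB hn2 ((r:ℂ) * v)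
          obtain ⟨j, hj⟩ := (h3.eventually (ball_mem_nhds (0:ℂ) hρ)).exists
          apply Zer.of_iter (k * j)
          exact hsm _ (by rw [dist_zero_right] at hj; exact hj.le)
        · exact att_open hk hx h1 h2 h3
    have h2 := hcont.continuousAt.eventually h1
    filter_upwards [h2, eventually_gt_nhds hr] with r' h3 h4
    exact ⟨h4, c, hc, h3⟩
  have hcov : Ioi (0:ℝ) ⊆ u ∪ w := by
    intro r hr
    by_cases h : ∀ c, FC P 1 n c → Zer (fam P 1 n (r * v)) c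
    · exact Or.inl ⟨hr, fun c _ hc => h c hc⟩
    · push Not at h
      exact Or.inr ⟨hr, h⟩
  have hune : (Ioi (0:ℝ) ∩ u).Nonempty := by
    have h1 : ∀ᶠ a in 𝓝 (0:ℂ), ∀ c ∈ 𝓒, Zer (fam P 1 n a) c := by
      rw [Filter.eventually_all_finset]
      intro c _
      apply zer_open hB hn2
      unfold Zer
      rw [← tendsto_add_atTop_iff_nat 1]
      have h2 : ∀ z, fam P 1 n 0 z = 0 := fun z => by rw [TP_eq, zero_mul, zero_mul]
      simp only [Function.iterate_succ_apply', h2]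
      exact tendsto_const_nhds
    have h2 : ContinuousAt (fun r : ℝ => (r:ℂ) * v) 0 := hcont.continuousAt
    have h3 : ∀ᶠ a in 𝓝 (((0:ℝ):ℂ) * v), ∀ c ∈ 𝓒, Zer (fam P 1 n a) c := by
      rw [Complex.ofReal_zero, zero_mul]; exact h1
    have h4 := h2.eventually h3
    obtain ⟨ε, hε, h5⟩ := Metric.eventually_nhds_iff.1 h4
    refine ⟨ε / 2, half_pos hε, half_pos hε, fun c hc _ => ?_⟩
    apply h5 _ c hc
    rw [Real.dist_eq, sub_zero, abs_of_pos (half_pos hε)]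
    linarith
  have hwne : (Ioi (0:ℝ) ∩ w).Nonempty := by
    obtain ⟨R, hR, hRl⟩ := large_unif hB hn2 (β := 1) one_pos
    have hκ : fam P 1 n 1 c₀ ≠ 0 := by
      rw [TP_eq, one_mul]
      exact mul_ne_zero (pow_ne_zero _ (hc₀.ne_zero hn1)) hc₀.1
    have hκp := norm_pos_iff.2 hκ
    set r : ℝ := max 1 (R / ‖fam P 1 n 1 c₀‖) with hr
    have hr1 : 1 ≤ r := le_max_left _ _
    have hr0 : 0 < r := by linarith
    refine ⟨r, hr0, hr0, c₀, hc₀, fun hz => ?_⟩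
    have hrn : ‖(r:ℂ) * v‖ = r := by
      rw [norm_mul, hv, mul_one, Complex.norm_real, Real.norm_of_nonneg hr0.le]
    have h1 : Esc (fam P 1 n (r * v)) (fam P 1 n (r * v) c₀) := by
      apply iter_large hR (hRl _ (by rw [hrn]; exact hr1))
      have e : fam P 1 n ((r:ℂ) * v) c₀ = (r * v) * fam P 1 n 1 c₀ := by
        rw [TP_eq, TP_eq]; ring
      rw [e, norm_mul, hrn]
      have : R / ‖fam P 1 n 1 c₀‖ ≤ r := le_max_right _ _
      rwa [div_le_iff₀ hκp] at this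
    have h2 : Esc (fam P 1 n (r * v)) c₀ := Esc.of_iter 1 h1
    exact Zer.not_esc hz h2
  obtain ⟨r, -, ⟨-, h1⟩, ⟨-, c, hc, h2⟩⟩ := isPreconnected_Ioi u w huo hwo hcov hune hwne
  exact h2 (h1 c (hmem c hc) hc)

end Pool.Agent.Q79.HC
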