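import Mathlib
import Pool.Agent.Q79.HcF

/-!
# The family `a z ^ n P(z)`: the bounds
-/

set_option autoImplicit false

open MeasureTheory Set Filter Topology Metric
open scoped ENNReal OnePoint NNReal

namespace Pool.Agent.Q79.HC

open Pool.Agent.Q79.MN
open Pool.Agent.Q79.CM (Esc Zer Att)
open Pool.Agent.Q79.PW (G)

/-- the parameters (logarithmic coordinate) for which some critical point neither escapes nor
tends to `0` -/
def NEs (P : Polynomial ℂ) (n : ℕ) : Set ℂ :=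
  {u | |u.im| ≤ Real.pi ∧ ∃ c, deriv (fam P 1 n (Complex.exp u)) c = 0 ∧
    ¬ Esc (fam P 1 n (Complex.exp u)) c ∧ ¬ Zer (fam P 1 n (Complex.exp u)) c}

/-- the parameters for which in addition the orbit stays away from the free critical points -/
def Sep (P : Polynomial ℂ) (n : ℕ) (κ : ℝ) : Set ℂ :=
  {u | |u.im| ≤ Real.pi ∧ ∃ c, deriv (fam P 1 n (Complex.exp u)) c = 0 ∧
    (¬ Esc (fam P 1 n (Complex.exp u)) c ∧ ¬ Zer (fam P 1 n (Complex.exp u)) c) ∧
    ∀ j : ℕ, 1 ≤ j → ∀ c', FC P 1 n c' → κ / (n:ℝ) ^ 2 ≤ ‖(fam P 1 n (Complex.exp u))^[j] c - c'‖}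

variable {P : Polynomial ℂ}

theorem fam_val (n : ℕ) (a c : ℂ) : fam P 1 n a c = a * fam P 1 n 1 c := by
  rw [TP_eq, TP_eq]; ring

theorem union_le {α : ℝ} (hα : 0 < α) {n : ℕ} {E : Set ℂ} {W : Set ℂ} {M r₀ : ℝ} (hM : 0 ≤ M)
    (hr₀ : 0 < r₀) (h0 : P.eval 0 ≠ 0) (hn : 1 ≤ n)
    (hE : ∀ u ∈ E, |u.im| ≤ Real.pi ∧ ∃ c, FC P 1 n c ∧
      Av (fam P 1 n) M W (Complex.exp u) (Complex.exp u * fam P 1 n 1 c)) :
    Hc α hα E ≤ ((P.natDegree + 1 : ℕ) : ℝ≥0∞) *
      (ENNReal.ofReal ((4 * M / r₀ + 1) * (4 * Real.pi / r₀ + 1)) *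
        SupH (fam P 1 n) hα M W r₀) := by
  classical
  set 𝓒 : Finset ℂ := (cr P 1 n).roots.toFinset.filter (FC P 1 n) with h𝓒
  have hcard : 𝓒.card ≤ P.natDegree + 1 := by
    refine (Finset.card_filter_le _ _).trans ?_
    have := cr_card (P := P) (Q := 1) n
    rwa [Polynomial.natDegree_one, add_zero] at this
  have hcov : E ⊆ ⋃ c ∈ 𝓒, {u : ℂ | |u.im| ≤ Real.pi ∧
      Av (fam P 1 n) M W (Complex.exp u) (Complex.exp u * fam P 1 n 1 c)} := by
    intro u hu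
    obtain ⟨h1, c, hc, h2⟩ := hE u hu
    simp only [mem_iUnion]
    exact ⟨c, Finset.mem_filter.2 ⟨hc.mem hn ⟨h0, by simp⟩, hc⟩, h1, h2⟩
  calc Hc α hα E ≤ _ := measure_mono hcov
    _ ≤ ∑ c ∈ 𝓒, Hc α hα {u : ℂ | |u.im| ≤ Real.pi ∧
      Av (fam P 1 n) M W (Complex.exp u) (Complex.exp u * fam P 1 n 1 c)} :=
        measure_biUnion_finset_le _ _
    _ ≤ ∑ _c ∈ 𝓒, (ENNReal.ofReal ((4 * M / r₀ + 1) * (4 * Real.pi / r₀ + 1)) *
        SupH (fam P 1 n) hα M W r₀) := by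
        apply Finset.sum_le_sum
        intro c hc
        have hFC := (Finset.mem_filter.1 hc).2
        apply param hα hM hr₀
        rw [TP_eq, one_mul]
        exact mul_ne_zero (pow_ne_zero _ (hFC.ne_zero hn)) hFC.1
    _ = (𝓒.card : ℝ≥0∞) * _ := by rw [Finset.sum_const, nsmul_eq_mul]
    _ ≤ _ := by
        apply mul_le_mul_left
        exact_mod_cast hcard

theorem rpow_sq {n : ℕ} {x : ℝ} (hx : 0 ≤ x) (α : ℝ) :
    (x / (n:ℝ) ^ 2) ^ α = x ^ α / (n:ℝ) ^ (2 * α) := by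
  rw [Real.div_rpow hx (by positivity), ← Real.rpow_natCast, ← Real.rpow_mul (Nat.cast_nonneg n)]
  norm_num

/-- **upper bounds** -/
theorem main_upper (h0 : P.eval 0 ≠ 0) : ∃ κ : ℝ, 0 < κ ∧ ∀ α : ℝ, ∀ hα : 1 < α, α ≤ 2 →
    ∃ (C : ℝ) (n₀ : ℕ), 0 < C ∧ ∀ n : ℕ, n₀ ≤ n →
      Hc α (by linarith : 0 < α) (NEs P n) ≤ ENNReal.ofReal (C / (n:ℝ) ^ (2 * α)) ∧
      dimH (Sep P n κ) ≤ ENNReal.ofReal α := by
  have hP0 : P ≠ 0 := by rintro rfl; simp at h0
  obtain ⟨m, c₁, hB⟩ := exists_Bd (P := P) (Q := 1) h0 (by simp)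
  have hm := hB.m1
  obtain ⟨r₀, B, hr₀, hr₁, hB1, U⟩ := exists_MU (P := P) (Q := 1) isCoprime_one_right hP0
    one_ne_zero (4 * m)
  obtain ⟨K, hK, hS⟩ := SupH_bounds U hr₀ hr₁ hB1 (by linarith)
  have hK0 : 0 < K := by linarith
  obtain ⟨n₁, hn₁⟩ := leave' hB U hr₀
  obtain ⟨n₂, hn₂⟩ := close U hr₀ hB1 hK0
  have hB0 : 0 < B := by linarith
  refine ⟨3 * Real.exp (4 * m) * B * K, by positivity, fun α hα1 hα2 => ?_⟩
  have hα : 0 < α := by linarith
  obtain ⟨n₃, hn₃⟩ := hS α hα1 hα2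
  have hpi := Real.pi_pos
  set D := (4 * (4 * m) / r₀ + 1) * (4 * Real.pi / r₀ + 1) with hD
  have hD0 : 0 < D := by positivity
  refine ⟨((P.natDegree + 1 : ℕ) : ℝ) * (D * (2 * (6 * B * K) ^ α)), max 1 (max n₁ (max n₂ n₃)),
    by positivity, fun n hn => ?_⟩
  have g0 : 1 ≤ n := (le_max_left _ _).trans hn
  have g1 : n₁ ≤ n := ((le_max_left _ _).trans (le_max_right _ _)).trans hn
  have g2 : n₂ ≤ n := (((le_max_left _ _).trans (le_max_right _ _)).trans
    (le_max_right _ _)).trans hn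
  have g3 : n₃ ≤ n := (((le_max_right _ _).trans (le_max_right _ _)).trans
    (le_max_right _ _)).trans hn
  obtain ⟨hS1, hS2⟩ := hn₃ n g3
  have hkey : ∀ u : ℂ, ∀ c, deriv (fam P 1 n (Complex.exp u)) c = 0 →
      ¬ Esc (fam P 1 n (Complex.exp u)) c → ¬ Zer (fam P 1 n (Complex.exp u)) c →
      FC P 1 n c ∧ Non (fam P 1 n) (4 * m) (Complex.exp u) (fam P 1 n (Complex.exp u) c) := by
    intro u c hc h1 h2
    have hu := Complex.exp_ne_zero u
    rcases crit_cases g0 hu hc with h | h | h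
    · exact absurd (h ▸ zer_zero g0 _) h2
    · exact absurd (zer_root g0 _ h) h2
    · refine ⟨h, ?_⟩
      by_contra hcon
      rcases hn₁ n g1 _ hu c h hcon with h3 | h3
      · exact h2 h3
      · exact h1 h3
  constructor
  · have h1 := union_le (P := P) hα (E := NEs P n) (W := ∅) (M := 4 * m) (by linarith) hr₀ h0 g0 (by
      rintro u ⟨hu, c, hc, h2, h3⟩
      obtain ⟨h4, h5⟩ := hkey u c hc h2 h3
      refine ⟨hu, c, h4, fun j => ⟨?_, notMem_empty _⟩⟩
      rw [← fam_val]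
      exact h5 j)
    refine h1.trans ?_
    rw [← hD]
    calc ((P.natDegree + 1 : ℕ) : ℝ≥0∞) * (ENNReal.ofReal D *
          SupH (fam P 1 n) hα (4 * m) ∅ r₀) ≤ ((P.natDegree + 1 : ℕ) : ℝ≥0∞) *
          (ENNReal.ofReal D * ENNReal.ofReal (2 * (6 * B * K / (n:ℝ) ^ 2) ^ α)) :=
            mul_le_mul_right (mul_le_mul_right (hS1 ∅) _) _
      _ = _ := by
          rw [← ENNReal.ofReal_mul hD0.le, ← ENNReal.ofReal_natCast,
            ← ENNReal.ofReal_mul (by positivity), rpow_sq (by positivity)]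
          congr 1
          ring
  · apply dim_le hα
    have h1 := union_le (P := P) hα (E := Sep P n (3 * Real.exp (4 * m) * B * K))
      (W := Wc P 1 n K) (M := 4 * m) (by linarith) hr₀ h0 g0 (by
      rintro u ⟨hu, c, hc, ⟨h2, h3⟩, h4⟩
      obtain ⟨h5, h6⟩ := hkey u c hc h2 h3
      refine ⟨hu, c, h5, fun j => ⟨?_, ?_⟩⟩
      · rw [← fam_val]
        exact h6 j
      · rw [← fam_val]
        intro hW
        obtain ⟨c', hc', h7⟩ := hn₂ n g2 _ (h6 j).1 (h6 j).2 hW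
        have h8 := h4 (j + 1) (by omega) c' hc'
        rw [Function.iterate_succ_apply] at h8
        linarith)
    rw [hS2, mul_zero, mul_zero] at h1
    exact le_antisymm h1 zero_le

/-- **lower bound** for the area -/
theorem main_lower (h0 : P.eval 0 ≠ 0) (hd : 0 < P.natDegree) : ∃ n₀ : ℕ, ∀ n : ℕ, n₀ ≤ n →
    ENNReal.ofReal (1 / 400 / (n:ℝ) ^ 4) ≤ volume (NEs P n) := by
  classical
  have hP0 : P ≠ 0 := by rintro rfl; simp at h0
  obtain ⟨m, c₁, hB⟩ := exists_Bd (P := P) (Q := 1) h0 (by simp)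
  have hm := hB.m1
  obtain ⟨r₀, B, hr₀, hr₁, hB1, U⟩ := exists_MU (P := P) (Q := 1) isCoprime_one_right hP0
    one_ne_zero (4 * m)
  obtain ⟨n₁, hn₁⟩ := dyn (P := P) (Q := 1) isCoprime_one_right hB U hr₀
  obtain ⟨n₂, hn₂⟩ := lower (P := P) (Q := 1) isCoprime_one_right h0 (by simp)
    (by rw [Polynomial.natDegree_one, add_zero]; exact hd)
  refine ⟨max 1 (max n₁ n₂), fun n hn => ?_⟩
  have g0 : 1 ≤ n := (le_max_left _ _).trans hn
  have g1 : n₁ ≤ n := ((le_max_left _ _).trans (le_max_right _ _)).trans hn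
  have g2 : n₂ ≤ n := ((le_max_right _ _).trans (le_max_right _ _)).trans hn
  set 𝓒 : Finset ℂ := (cr P 1 n).roots.toFinset.filter (FC P 1 n) with h𝓒
  set E : Set ℂ := {u : ℂ | (-Real.pi < u.im ∧ u.im ≤ Real.pi)} ∩ ⋃ c ∈ 𝓒,
    {u : ℂ | Non (fam P 1 n) (4 * m) (Complex.exp u) (fam P 1 n (Complex.exp u) c)} with hE
  have hEm : MeasurableSet E := by
    have h1 : MeasurableSet {u : ℂ | -Real.pi < u.im ∧ u.im ≤ Real.pi} :=
      (measurableSet_lt measurable_const Complex.measurable_im).inter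
        (measurableSet_le Complex.measurable_im measurable_const)
    refine h1.inter (Finset.measurableSet_biUnion _ fun c _ => ?_)
    have h2 : Measurable fun u : ℂ => (Complex.exp u, fam P 1 n (Complex.exp u) c) := by
      refine Complex.measurable_exp.prodMk ?_
      exact (fam_meas (P := P) (Q := 1) n).comp (Complex.measurable_exp.prodMk measurable_const)
    exact h2 (Non_meas (P := P) (Q := 1) n (4 * m))
  have hsub : E ⊆ NEs P n := by
    rintro u ⟨⟨hu1, hu2⟩, hu3⟩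
    simp only [mem_iUnion] at hu3
    obtain ⟨c, hc, hnon⟩ := hu3
    have hFC := (Finset.mem_filter.1 hc).2
    refine ⟨abs_le.2 ⟨hu1.le, hu2⟩, c, FC.deriv g0 hFC, fun hesc => ?_, fun hz => ?_⟩
    · have h1 := (tendsto_add_atTop_iff_nat 1).2 hesc
      obtain ⟨k, hk⟩ := (h1.eventually_gt_atTop (Real.exp (4 * m))).exists
      rw [Function.iterate_succ_apply] at hk
      exact absurd (hnon k).2 (not_le.2 hk)
    · have h1 := ((tendsto_add_atTop_iff_nat 1).2 hz).norm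
      rw [norm_zero] at h1
      obtain ⟨k, hk⟩ := (h1.eventually_lt_const (Real.exp_pos (-(4 * m)))).exists
      rw [Function.iterate_succ_apply] at hk
      exact absurd (hnon k).1 (not_le.2 hk)
  have hsub2 : {a : ℂ | ¬ AllTo (Polynomial.C a * Polynomial.X ^ n * P) 1} ⊆
      {0} ∪ (fun u : ℂ => Complex.exp u / 1) '' E := by
    intro a ha
    by_cases ha0 : a = 0
    · left; exact ha0
    right
    have h1 : ∃ c, FC P 1 n c ∧ Non (fam P 1 n) (4 * m) a (fam P 1 n a c) := by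
      by_contra hcon
      push Not at hcon
      exact ha (hn₁ n g1 a ha0 hcon)
    obtain ⟨c, hc, hnon⟩ := h1
    refine ⟨Complex.log a, ⟨⟨Complex.neg_pi_lt_log_im a, Complex.log_im_le_pi a⟩, ?_⟩, ?_⟩
    · simp only [mem_iUnion]
      refine ⟨c, Finset.mem_filter.2 ⟨hc.mem g0 ⟨h0, by simp⟩, hc⟩, ?_⟩
      change Non _ _ _ _
      rw [Complex.exp_log ha0]
      exact hnon
    · change Complex.exp (Complex.log a) / 1 = a
      rw [Complex.exp_log ha0, div_one]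
  calc ENNReal.ofReal (1 / 400 / (n:ℝ) ^ 4) ≤
        logArea {a : ℂ | ¬ AllTo (Polynomial.C a * Polynomial.X ^ n * P) 1} := hn₂ n g2
    _ ≤ logArea ({0} ∪ (fun u : ℂ => Complex.exp u / 1) '' E) := measure_mono hsub2
    _ ≤ logArea {0} + logArea ((fun u : ℂ => Complex.exp u / 1) '' E) := measure_union_le _ _
    _ = volume E := by
        rw [logArea_zero, zero_add, logArea_image one_ne_zero hEm fun u hu => hu.1]
    _ ≤ volume (NEs P n) := measure_mono hsub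

/-- lower bound for the contents -/
theorem content_lower (h0 : P.eval 0 ≠ 0) (hd : 0 < P.natDegree) : ∃ n₀ : ℕ, ∀ n : ℕ, n₀ ≤ n →
    ∀ α : ℝ, ∀ hα : 0 < α, α ≤ 2 →
    ENNReal.ofReal ((1 / (400 * Real.pi)) ^ (α / 2) / (n:ℝ) ^ (2 * α)) ≤ Hc α hα (NEs P n) := by
  obtain ⟨n₀, h⟩ := main_lower h0 hd
  refine ⟨max 1 n₀, fun n hn α hα hα2 => ?_⟩
  have g0 : 1 ≤ n := (le_max_left _ _).trans hn
  have hn0 : (0:ℝ) < n := by exact_mod_cast g0
  have h1 := h n ((le_max_right _ _).trans hn)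
  have hpi := Real.pi_pos
  have h2 := (ENNReal.rpow_le_rpow h1 (by positivity : 0 ≤ α / 2)).trans
    (vol_rpow_le hα hα2 (NEs P n))
  rw [ENNReal.ofReal_rpow_of_nonneg (by positivity) (by positivity),
    ENNReal.ofReal_rpow_of_nonneg hpi.le (by positivity)] at h2
  have h3 : (1 / (400 * Real.pi)) ^ (α / 2) / (n:ℝ) ^ (2 * α) =
      (1 / 400 / (n:ℝ) ^ 4) ^ (α / 2) / Real.pi ^ (α / 2) := by
    have e4 : ((n:ℝ) ^ 4) ^ (α / 2) = (n:ℝ) ^ (2 * α) := by
      rw [← Real.rpow_natCast, ← Real.rpow_mul hn0.le]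
      congr 1
      push_cast
      ring
    rw [← e4, ← Real.div_rpow (by positivity) hpi.le, ← Real.div_rpow (by positivity) (by positivity)]
    congr 1
    field_simp
  rw [h3, ENNReal.ofReal_div_of_pos (by positivity)]
  exact ENNReal.div_le_of_le_mul' h2

end Pool.Agent.Q79.HC
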