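import Mathlib
import Pool.Agent.Q79.KvE

set_option autoImplicit false

open Finset Pool.Agent.Q79.KV

namespace Pool.Agent.Q79.KS

/-! ### The bound of the state sum off the unit circle -/

/-- the bounds of the quantum factorials and of the variable -/
structure FacR (N : ℕ) (v : ℂ) (D η : ℝ) : Prop where
  hv : v ≠ 0
  lo : Real.exp (-η) ≤ ‖v‖
  hi : ‖v‖ ≤ Real.exp η
  nn : 0 ≤ η
  fac : ∀ m < N, Real.exp (-D) ≤ ‖brf v m‖ ∧ ‖brf v m‖ ≤ Real.exp D

theorem FacR.zpow {N : ℕ} {v : ℂ} {D η : ℝ} (h : FacR N v D η) {k : ℤ} {K : ℝ}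
    (hk : |(k : ℝ)| ≤ K) : ‖v ^ k‖ ≤ Real.exp (η * K) := by
  have hpos : 0 < ‖v‖ := norm_pos_iff.2 h.hv
  have h1 : ‖v ^ k‖ = Real.exp (k * Real.log ‖v‖) := by
    rw [norm_zpow, ← Real.rpow_intCast, Real.rpow_def_of_pos hpos]
    congr 1
    ring
  rw [h1, Real.exp_le_exp]
  have h2 : |Real.log ‖v‖| ≤ η := by
    rw [abs_le]
    constructor
    · rw [Real.le_log_iff_exp_le hpos]; exact h.lo
    · rw [Real.log_le_iff_le_exp hpos]; exact h.hi
  calc (k : ℝ) * Real.log ‖v‖ ≤ |(k : ℝ) * Real.log ‖v‖| := le_abs_self _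
    _ = |(k : ℝ)| * |Real.log ‖v‖| := abs_mul _ _
    _ ≤ K * η := mul_le_mul hk h2 (abs_nonneg _) ((abs_nonneg _).trans hk)
    _ = η * K := by ring

theorem FacR.inv {N : ℕ} {v : ℂ} {D η : ℝ} (h : FacR N v D η) {m : ℕ} (hm : m < N) :
    ‖brf v m‖⁻¹ ≤ Real.exp D := by
  have h1 := (h.fac m hm).1
  rw [Real.exp_neg] at h1
  have h2 := Real.exp_pos D
  calc ‖brf v m‖⁻¹ ≤ ((Real.exp D)⁻¹)⁻¹ := by
        apply inv_anti₀ (by positivity) h1
    _ = Real.exp D := inv_inv _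

theorem FacR.binom {N : ℕ} {v : ℂ} {D η : ℝ} (h : FacR N v D η) {a b c : ℕ} (ha : a < N)
    (hb : b < N) (hc : c < N) : ‖brf v a / (brf v b * brf v c)‖ ≤ Real.exp (3 * D) := by
  rw [norm_div, norm_mul, div_eq_mul_inv, mul_inv]
  have h1 := (h.fac a ha).2
  have h2 := h.inv hb
  have h3 := h.inv hc
  have e : Real.exp (3 * D) = Real.exp D * (Real.exp D * Real.exp D) := by
    rw [← Real.exp_add, ← Real.exp_add]; congr 1; ring
  rw [e]
  gcongr

theorem FacR.prod {N M : ℕ} {v : ℂ} {D η : ℝ} (h : FacR N v D η) (hM : M ≤ N) {q m : ℕ}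
    (hq : q < M) (hm : m ≤ q) :
    ‖∏ t ∈ range m, br v ((M : ℤ) - q + t)‖ ≤ Real.exp (2 * D) := by
  have h1 := brf_add v (M - q - 1) m
  have e1 : (((M - q - 1 : ℕ) : ℤ) + 1) = (M : ℤ) - q := by omega
  simp only [e1] at h1
  have h2 := h.fac (M - q - 1 + m) (by omega)
  have h3 := h.inv (show M - q - 1 < N by omega)
  have h0 : ‖brf v (M - q - 1)‖ ≠ 0 := by
    have := (h.fac (M - q - 1) (by omega)).1
    have h5 := Real.exp_pos (-D)
    intro h6
    rw [h6] at this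
    linarith
  have h4 : ‖∏ t ∈ range m, br v ((M : ℤ) - q + t)‖ =
      ‖brf v (M - q - 1)‖⁻¹ * ‖brf v (M - q - 1 + m)‖ := by
    rw [h1, norm_mul, inv_mul_cancel_left₀ h0]
  rw [h4]
  have e : Real.exp (2 * D) = Real.exp D * Real.exp D := by
    rw [← Real.exp_add]; congr 1; ring
  rw [e]
  exact mul_le_mul h3 h2.2 (norm_nonneg _) (Real.exp_pos _).le

theorem exp_bd {M a b i j : ℕ} (ha : a < M) (hb : b < M) (hi : i < M) (hj : j < M) :
    |((-((M : ℤ) - 1) * (1 + (i : ℕ) + (j : ℕ)) + 2 * (a : ℕ) * (b : ℕ) : ℤ) : ℝ)| ≤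
      2 * (M : ℝ) ^ 2 := by
  have h1 : ((a : ℕ) : ℝ) ≤ M := by exact_mod_cast ha.le
  have h2 : ((b : ℕ) : ℝ) ≤ M := by exact_mod_cast hb.le
  have h3 : ((i : ℕ) : ℝ) + 1 ≤ M := by exact_mod_cast hi
  have h4 : ((j : ℕ) : ℝ) + 1 ≤ M := by exact_mod_cast hj
  have g1 : (0 : ℝ) ≤ a := Nat.cast_nonneg _
  have g2 : (0 : ℝ) ≤ b := Nat.cast_nonneg _
  have g3 : (0 : ℝ) ≤ i := Nat.cast_nonneg _
  have g4 : (0 : ℝ) ≤ j := Nat.cast_nonneg _
  have k1 : (a : ℝ) * b ≤ M * M := mul_le_mul h1 h2 g2 (by linarith)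
  have k2 : 0 ≤ (a : ℝ) * b := mul_nonneg g1 g2
  have k3 : ((M : ℝ) - 1) * (1 + i + j) ≤ M * (2 * M) :=
    mul_le_mul (by linarith) (by linarith) (by linarith) (by linarith)
  have k4 : 0 ≤ ((M : ℝ) - 1) * (1 + i + j) := mul_nonneg (by linarith) (by linarith)
  push_cast
  rw [abs_le]
  constructor <;> nlinarith

theorem nat_bd {M k : ℕ} (hk : k < M) : |(((k * (k - 1) / 2 : ℕ) : ℤ) : ℝ)| ≤ (M : ℝ) ^ 2 := by
  have h1 : k * (k - 1) / 2 ≤ M ^ 2 := by
    calc k * (k - 1) / 2 ≤ k * (k - 1) := Nat.div_le_self _ _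
      _ ≤ M * M := Nat.mul_le_mul hk.le (by omega)
      _ = M ^ 2 := by ring
  rw [abs_of_nonneg (by positivity)]
  exact_mod_cast h1

theorem FacR.crossP_le {N M : ℕ} {v : ℂ} {D η : ℝ} (h : FacR N v D η) (hM : M ≤ N)
    (p q : Fin M × Fin M) : ‖crossP M v p q‖ ≤ Real.exp (5 * D + 3 * η * (M : ℝ) ^ 2) := by
  unfold crossP
  split_ifs with hc
  · rw [norm_mul, norm_mul, norm_mul]
    have h1 := h.binom (a := p.1) (b := q.2) (c := (p.1 : ℕ) - q.2) (by omega) (by omega)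
      (by omega)
    have h2 := h.prod hM (q := q.1) (m := (p.1 : ℕ) - q.2) q.1.2 (by omega)
    have h3 := h.zpow (exp_bd (M := M) p.1.2 p.2.2 q.1.2 q.2.2)
    have h4 := h.zpow (nat_bd (M := M) (k := (p.1 : ℕ) - q.2) (by omega))
    rw [zpow_natCast] at h4
    have e : Real.exp (5 * D + 3 * η * (M : ℝ) ^ 2) =
        Real.exp (η * (2 * (M : ℝ) ^ 2)) * Real.exp (η * (M : ℝ) ^ 2) * Real.exp (3 * D) *
          Real.exp (2 * D) := by
      rw [← Real.exp_add, ← Real.exp_add, ← Real.exp_add]; congr 1; ring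
    rw [e]
    gcongr
  · rw [norm_zero]; exact (Real.exp_pos _).le

theorem FacR.crossN_le {N M : ℕ} {v : ℂ} {D η : ℝ} (h : FacR N v D η) (hM : M ≤ N)
    (p q : Fin M × Fin M) : ‖crossN M v p q‖ ≤ Real.exp (5 * D + 3 * η * (M : ℝ) ^ 2) := by
  unfold crossN
  split_ifs with hc
  · rw [norm_mul, norm_mul, norm_div, norm_mul, norm_pow, norm_neg, norm_one, one_pow, one_mul,
      div_eq_mul_inv]
    have h1 := h.binom (a := p.2) (b := q.1) (c := (p.2 : ℕ) - q.1) (by omega) (by omega)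
      (by omega)
    have h2 := h.prod hM (q := q.2) (m := (p.2 : ℕ) - q.1) q.2.2 (by omega)
    have h3 : ‖v ^ (((M : ℤ) - 1) * (1 + (q.1 : ℕ) + (q.2 : ℕ)) - 2 * (q.1 : ℕ) * (q.2 : ℕ))‖ ≤
        Real.exp (η * (2 * (M : ℝ) ^ 2)) := by
      apply h.zpow
      have := exp_bd (M := M) q.1.2 q.2.2 q.1.2 q.2.2
      rw [← abs_neg, ← Int.cast_neg] at this
      refine le_trans (le_of_eq ?_) this
      congr 2
      ring
    have h4 : ‖v ^ (((p.2 : ℕ) - q.1) * ((p.2 : ℕ) - q.1 - 1) / 2)‖⁻¹ ≤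
        Real.exp (η * (M : ℝ) ^ 2) := by
      have h5 := nat_bd (M := M) (k := (p.2 : ℕ) - q.1) (by omega)
      rw [← abs_neg, ← Int.cast_neg] at h5
      have h6 := h.zpow h5
      rwa [zpow_neg, zpow_natCast, norm_inv] at h6
    have e : Real.exp (5 * D + 3 * η * (M : ℝ) ^ 2) =
        Real.exp (η * (2 * (M : ℝ) ^ 2)) * Real.exp (η * (M : ℝ) ^ 2) * Real.exp (3 * D) *
          Real.exp (2 * D) := by
      rw [← Real.exp_add, ← Real.exp_add, ← Real.exp_add]; congr 1; ring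
    rw [e]
    gcongr
  · rw [norm_zero]; exact (Real.exp_pos _).le

/-- the bound -/
theorem cjones_le {N M : ℕ} {v : ℂ} {D η : ℝ} (hD : 0 ≤ D) (h : FacR N v D η) (hM0 : 0 < M)
    (hM : M ≤ N) (n : ℕ) (w : List (ℕ × Bool)) :
    ‖cjones M n w v‖ ≤ (M : ℝ) ^ (n + w.length) *
      Real.exp (5 * D * w.length + 3 * η * (M : ℝ) ^ 2 * (n + w.length)) := by
  have hη := h.nn
  have hMr : (1 : ℝ) ≤ M := by exact_mod_cast hM0
  set E : ℝ := 5 * D + 3 * η * (M : ℝ) ^ 2 with hE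
  have hE0 : 0 ≤ E := by positivity
  have hEP : Ent M (crossP M v) (Real.exp E) :=
    ⟨fun p q hne => by
      unfold crossP at hne
      split_ifs at hne with hc
      · exact hc.1
      · exact absurd rfl hne, fun p q => h.crossP_le hM p q, (Real.exp_pos _).le⟩
  have hEN : Ent M (crossN M v) (Real.exp E) :=
    ⟨fun p q hne => by
      unfold crossN at hne
      split_ifs at hne with hc
      · exact hc.1
      · exact absurd rfl hne, fun p q => h.crossN_le hM p q, (Real.exp_pos _).le⟩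
  set B : ℝ := M * Real.exp E with hB
  have hexp : 1 ≤ Real.exp E := Real.one_le_exp hE0
  have hB1 : 1 ≤ B := by
    rw [hB]
    nlinarith
  have hw1 : ∀ x : Fin M, ‖v ^ ((M : ℤ) - 1 - 2 * (x : ℕ))‖ ≤ Real.exp (η * M) := by
    intro x
    apply h.zpow
    have h1 : ((x : ℕ) : ℝ) + 1 ≤ M := by exact_mod_cast x.2
    have h2 : (0 : ℝ) ≤ ((x : ℕ) : ℝ) := Nat.cast_nonneg _
    push_cast
    rw [abs_le]
    constructor <;> linarith
  unfold cjones
  rw [dif_pos hM0]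
  unfold tail
  refine (norm_sum_le _ _).trans ?_
  calc ∑ s : Fin n → Fin M, ‖(∏ x, v ^ ((M : ℤ) - 1 - 2 * (s x : ℕ))) *
        rep (crossP M v) (crossN M v) (n + 1) w (Fin.cons ⟨0, hM0⟩ s) (Fin.cons ⟨0, hM0⟩ s)‖ ≤
        ∑ s : Fin n → Fin M, Real.exp (η * M) ^ n * B ^ w.length := by
        apply Finset.sum_le_sum
        intro s _
        rw [norm_mul, norm_prod]
        apply mul_le_mul _ _ (norm_nonneg _) (by positivity)
        · calc ∏ x : Fin n, ‖v ^ ((M : ℤ) - 1 - 2 * (s x : ℕ))‖ ≤ ∏ x : Fin n, Real.exp (η * M) :=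
                Finset.prod_le_prod (fun _ _ => norm_nonneg _) (fun x _ => hw1 (s x))
            _ = Real.exp (η * M) ^ n := by
                rw [Finset.prod_const, Finset.card_univ, Fintype.card_fin]
        · refine le_trans ?_ (rep_row hB1 hEP.row hEN.row (n + 1) w (Fin.cons ⟨0, hM0⟩ s))
          exact Finset.single_le_sum (f := fun t => ‖rep (crossP M v) (crossN M v) (n + 1) w
            (Fin.cons ⟨0, hM0⟩ s) t‖) (fun t _ => norm_nonneg _) (Finset.mem_univ _)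
    _ = (M : ℝ) ^ (n + w.length) * (Real.exp (η * M) ^ n * Real.exp E ^ w.length) := by
        rw [Finset.sum_const, Finset.card_univ, Fintype.card_fun, Fintype.card_fin,
          Fintype.card_fin, nsmul_eq_mul, hB, mul_pow, pow_add]
        push_cast
        ring
    _ ≤ _ := by
        apply mul_le_mul_of_nonneg_left _ (by positivity)
        rw [← Real.exp_nat_mul, ← Real.exp_nat_mul, ← Real.exp_add, Real.exp_le_exp, hE]
        have h1 : (n : ℝ) * (η * M) ≤ n * (3 * η * (M : ℝ) ^ 2) := by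
          apply mul_le_mul_of_nonneg_left _ (Nat.cast_nonneg _)
          have : (M : ℝ) ≤ (M : ℝ) ^ 2 := by nlinarith
          nlinarith
        linarith [h1]

end Pool.Agent.Q79.KS
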