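import Mathlib
import Pool.Agent.Q79.KsA

set_option autoImplicit false

open Finset Filter Topology Pool.Agent.Q79.KV

namespace Pool.Agent.Q79.KS

theorem exp_lt_one' {y : ℝ} (hy : y < 0) : Real.exp y < 1 := by
  rw [← Real.exp_zero]
  exact Real.exp_lt_exp.2 hy

/-- the sum of the logarithms -/
noncomputable def LL (m : ℕ) (w : ℂ) : ℝ := ∑ j ∈ range m, Real.log ‖1 - w ^ (j + 1)‖

theorem hasSum_log {z : ℂ} (hz : ‖z‖ < 1) :
    HasSum (fun h : ℕ => -(z ^ h / h).re) (Real.log ‖1 - z‖) := by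
  have h1 := (Complex.hasSum_taylorSeries_neg_log hz).neg
  rw [neg_neg] at h1
  have h2 := Complex.hasSum_re h1
  rw [Complex.log_re] at h2
  exact h2

/-- the sums of the powers -/
noncomputable def SS (m h : ℕ) (w : ℂ) : ℂ := ∑ j ∈ range m, (w ^ (j + 1)) ^ h

theorem hasSum_LL {w : ℂ} (hw : ‖w‖ < 1) (m : ℕ) :
    HasSum (fun h : ℕ => -(SS m h w / h).re) (LL m w) := by
  have h1 : ∀ j ∈ range m, HasSum (fun h : ℕ => -((w ^ (j + 1)) ^ h / h).re)
      (Real.log ‖1 - w ^ (j + 1)‖) := by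
    intro j _
    apply hasSum_log
    rw [norm_pow]
    exact pow_lt_one₀ (norm_nonneg _) hw (by omega)
  have h2 := hasSum_sum h1
  unfold LL
  convert h2 using 1
  funext h
  unfold SS
  rw [Finset.sum_div, Complex.re_sum, Finset.sum_neg_distrib]

theorem SS_eq (m h : ℕ) (w : ℂ) : SS m h w = w ^ h * ∑ j ∈ range m, (w ^ h) ^ j := by
  unfold SS
  rw [Finset.mul_sum]
  apply Finset.sum_congr rfl
  intro j _
  rw [← pow_mul, ← pow_mul, ← pow_add]
  congr 1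
  ring

theorem SS_le_nat {w : ℂ} (hw : ‖w‖ ≤ 1) (m h : ℕ) : ‖SS m h w‖ ≤ m := by
  unfold SS
  calc ‖∑ j ∈ range m, (w ^ (j + 1)) ^ h‖ ≤ ∑ j ∈ range m, ‖(w ^ (j + 1)) ^ h‖ := norm_sum_le _ _
    _ ≤ ∑ j ∈ range m, (1 : ℝ) := by
        apply Finset.sum_le_sum
        intro j _
        rw [norm_pow, norm_pow]
        exact pow_le_one₀ (by positivity) (pow_le_one₀ (norm_nonneg _) hw)
    _ = m := by rw [Finset.sum_const, Finset.card_range, nsmul_eq_mul, mul_one]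

theorem SS_le_div {w : ℂ} (hw : ‖w‖ < 1) (m : ℕ) {h : ℕ} (hh : 0 < h) :
    ‖SS m h w‖ ≤ 2 * ‖w‖ ^ h / ‖1 - w ^ h‖ := by
  have h1 : ‖w ^ h‖ < 1 := by
    rw [norm_pow]; exact pow_lt_one₀ (norm_nonneg _) hw (by omega)
  have hne : w ^ h ≠ 1 := by
    intro h2; rw [h2, norm_one] at h1; exact lt_irrefl _ h1
  have h3 : (1 : ℂ) - w ^ h ≠ 0 := sub_ne_zero.2 hne.symm
  have hpos : 0 < ‖1 - w ^ h‖ := norm_pos_iff.2 h3
  rw [SS_eq, geom_sum_eq hne, norm_mul, norm_div, norm_pow, le_div_iff₀ hpos]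
  have h4 : ‖w ^ h - 1‖ = ‖1 - w ^ h‖ := norm_sub_rev _ _
  rw [h4, mul_assoc, div_mul_cancel₀ _ hpos.ne']
  have h5 : ‖(w ^ h) ^ m - 1‖ ≤ 2 := by
    calc ‖(w ^ h) ^ m - 1‖ ≤ ‖(w ^ h) ^ m‖ + ‖(1 : ℂ)‖ := norm_sub_le _ _
      _ ≤ 1 + 1 := by
          gcongr
          · rw [norm_pow]; exact pow_le_one₀ (norm_nonneg _) h1.le
          · rw [norm_one]
      _ = 2 := by norm_num
  have h6 : 0 ≤ ‖w‖ ^ h := by positivity
  nlinarith

/-- the bound by the radius only -/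
theorem SS_le_rad {w : ℂ} {x : ℝ} (hx : 0 < x) (hw : ‖w‖ = Real.exp (-x)) (m : ℕ) {h : ℕ}
    (hh : 0 < h) : ‖SS m h w‖ ≤ 2 / (x * h) := by
  have hw1 : ‖w‖ < 1 := by
    rw [hw]; exact exp_lt_one' (by linarith)
  have h1 := SS_le_div hw1 m hh
  have hxh : 0 < x * h := by positivity
  have e1 : ‖w‖ ^ h = Real.exp (-(x * h)) := by
    rw [hw, ← Real.exp_nat_mul]; congr 1; ring
  have h2 : 1 - Real.exp (-(x * h)) ≤ ‖1 - w ^ h‖ := by
    have := norm_sub_norm_le (1 : ℂ) (w ^ h)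
    rw [norm_one, norm_pow, e1] at this
    exact this
  have h3 : 0 < 1 - Real.exp (-(x * h)) := by
    have : Real.exp (-(x * h)) < 1 := exp_lt_one' (by linarith)
    linarith
  have h4 : x * h * Real.exp (-(x * h)) ≤ 1 - Real.exp (-(x * h)) := by
    have h5 := Real.add_one_le_exp (x * h)
    have h6 : Real.exp (-(x * h)) * Real.exp (x * h) = 1 := by
      rw [← Real.exp_add]; simp
    have h7 := Real.exp_pos (-(x * h))
    nlinarith
  calc ‖SS m h w‖ ≤ 2 * ‖w‖ ^ h / ‖1 - w ^ h‖ := h1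
    _ ≤ 2 * Real.exp (-(x * h)) / (1 - Real.exp (-(x * h))) := by
        rw [e1]
        gcongr
    _ ≤ 2 / (x * h) := by
        rw [div_le_div_iff₀ h3 hxh]
        nlinarith

theorem tele {h : ℕ} (hh : 0 < h) : 1 / ((h + 1 : ℕ) : ℝ) * Real.sqrt (1 / ((h + 1 : ℕ) : ℝ)) ≤
    2 / Real.sqrt h - 2 / Real.sqrt ((h + 1 : ℕ) : ℝ) := by
  have h1 : (0 : ℝ) < h := by exact_mod_cast hh
  set a := Real.sqrt h with ha
  set b := Real.sqrt ((h + 1 : ℕ) : ℝ) with hb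
  have ha0 : 0 < a := Real.sqrt_pos.2 h1
  have hb0 : 0 < b := Real.sqrt_pos.2 (by positivity)
  have hab : a ≤ b := Real.sqrt_le_sqrt (by push_cast; linarith)
  have ea : a ^ 2 = h := Real.sq_sqrt h1.le
  have eb : b ^ 2 = h + 1 := by rw [hb, Real.sq_sqrt (by positivity)]; push_cast; ring
  have e1 : Real.sqrt (1 / ((h + 1 : ℕ) : ℝ)) = 1 / b := by
    rw [Real.sqrt_div zero_le_one, Real.sqrt_one]
  rw [e1]
  have e2 : 1 / ((h + 1 : ℕ) : ℝ) = 1 / b ^ 2 := by rw [eb]; push_cast; ring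
  rw [e2]
  have e3 : 2 / a - 2 / b = 2 * (b - a) / (a * b) := by field_simp
  have e4 : 1 / b ^ 2 * (1 / b) = 1 / b ^ 3 := by field_simp
  rw [e3, e4, div_le_div_iff₀ (by positivity) (by positivity)]
  have e5 : (b - a) * (b + a) = 1 := by nlinarith
  have h2 : a * (b + a) ≤ 2 * b ^ 2 := by nlinarith
  have hba : 0 < b + a := by linarith
  -- a b ≤ 2 (b - a) b^3
  have h3 : a * b * (b + a) ≤ 2 * (b - a) * b ^ 3 * (b + a) := by
    have : 2 * (b - a) * b ^ 3 * (b + a) = 2 * b ^ 3 := by linear_combination (2 * b ^ 3) * e5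
    rw [this]
    nlinarith
  have h4 := le_of_mul_le_mul_right h3 hba
  linarith

theorem sum_tele {H : ℕ} (hH : 0 < H) (k : ℕ) :
    ∑ i ∈ range k, 1 / ((H + i + 1 : ℕ) : ℝ) * Real.sqrt (1 / ((H + i + 1 : ℕ) : ℝ)) ≤
      2 / Real.sqrt H - 2 / Real.sqrt ((H + k : ℕ) : ℝ) := by
  induction k with
  | zero => simp
  | succ k ih =>
    rw [Finset.sum_range_succ]
    have := tele (h := H + k) (by omega)
    have e : (H + (k + 1) : ℕ) = H + k + 1 := by ring
    rw [e]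
    linarith

/-- the bound for the logarithm of `(w; w)_m` -/
noncomputable def QQ (N H : ℕ) (w : ℂ) (x : ℝ) : ℝ :=
  ∑ h ∈ Icc 1 H, 1 / (h : ℝ) * min (N : ℝ) (2 / ‖1 - w ^ h‖) + 3 * Real.sqrt (N / (x * H))

theorem LL_le {w : ℂ} {x : ℝ} (hx : 0 < x) (hw : ‖w‖ = Real.exp (-x)) {m N H : ℕ} (hm : m ≤ N)
    (hH : 0 < H) : |LL m w| ≤ QQ N H w x := by
  have hw1 : ‖w‖ < 1 := by
    rw [hw]; exact exp_lt_one' (by linarith)
  have hmN : (m : ℝ) ≤ N := by exact_mod_cast hm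
  have hS := (hasSum_LL hw1 m).tendsto_sum_nat
  have hS' := hS.abs
  apply le_of_tendsto hS'
  filter_upwards [eventually_ge_atTop (H + 1)] with K hK
  obtain ⟨k, rfl⟩ : ∃ k, K = H + 1 + k := ⟨K - (H + 1), by omega⟩
  rw [Finset.sum_range_add]
  have hterm : ∀ h : ℕ, |-(SS m h w / h).re| ≤ 1 / (h : ℝ) * ‖SS m h w‖ := by
    intro h
    rw [abs_neg]
    calc |(SS m h w / h).re| ≤ ‖SS m h w / h‖ := Complex.abs_re_le_norm _
      _ = 1 / (h : ℝ) * ‖SS m h w‖ := by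
          rw [norm_div, Complex.norm_natCast]; ring
  unfold QQ
  refine (abs_add_le _ _).trans (add_le_add ?_ ?_)
  · rw [Finset.sum_range_succ']
    have e0 : -(SS m 0 w / ((0 : ℕ) : ℂ)).re = 0 := by simp
    rw [e0, add_zero]
    refine (Finset.abs_sum_le_sum_abs _ _).trans ?_
    have e1 : ∑ h ∈ Icc 1 H, 1 / (h : ℝ) * min (N : ℝ) (2 / ‖1 - w ^ h‖) =
        ∑ h ∈ range H, 1 / ((h + 1 : ℕ) : ℝ) * min (N : ℝ) (2 / ‖1 - w ^ (h + 1)‖) := by
      rw [Finset.range_eq_Ico, Finset.sum_Ico_add' (fun h : ℕ => 1 / (h : ℝ) *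
        min (N : ℝ) (2 / ‖1 - w ^ h‖)) 0 H 1]
      apply Finset.sum_congr _ (fun _ _ => rfl)
      ext a
      simp only [Finset.mem_Icc, Finset.mem_Ico]
      omega
    rw [e1]
    apply Finset.sum_le_sum
    intro h _
    refine (hterm (h + 1)).trans ?_
    apply mul_le_mul_of_nonneg_left _ (by positivity)
    apply le_min
    · exact (SS_le_nat hw1.le _ _).trans hmN
    · refine (SS_le_div hw1 m (Nat.succ_pos h)).trans ?_
      have h2 : ‖w‖ ^ (h + 1) ≤ 1 := pow_le_one₀ (norm_nonneg _) hw1.le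
      have h3 : 2 * ‖w‖ ^ (h + 1) ≤ 2 := by linarith
      exact div_le_div_of_nonneg_right h3 (norm_nonneg _)
  · refine (Finset.abs_sum_le_sum_abs _ _).trans ?_
    have hN0 : (0 : ℝ) ≤ N := Nat.cast_nonneg _
    have hb : ∀ i ∈ range k, |-(SS m (H + 1 + i) w / ((H + 1 + i : ℕ) : ℂ)).re| ≤
        Real.sqrt (2 * N / x) *
          (1 / ((H + i + 1 : ℕ) : ℝ) * Real.sqrt (1 / ((H + i + 1 : ℕ) : ℝ))) := by
      intro i _
      refine (hterm _).trans ?_
      have e : (H + 1 + i : ℕ) = H + i + 1 := by ring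
      rw [e]
      set h : ℕ := H + i + 1 with hh
      have hhp : (0 : ℝ) < (h : ℝ) := by positivity
      have h3 : ‖SS m h w‖ ≤ Real.sqrt (2 * N / x) * Real.sqrt (1 / (h : ℝ)) := by
        rw [← Real.sqrt_mul (by positivity)]
        apply Real.le_sqrt_of_sq_le
        have h4 := (SS_le_nat hw1.le m h).trans hmN
        have h5 := SS_le_rad hx hw m (h := h) (by omega)
        calc ‖SS m h w‖ ^ 2 = ‖SS m h w‖ * ‖SS m h w‖ := by ring
          _ ≤ N * (2 / (x * h)) := mul_le_mul h4 h5 (norm_nonneg _) hN0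
          _ = 2 * N / x * (1 / (h : ℝ)) := by field_simp
      calc 1 / (h : ℝ) * ‖SS m h w‖ ≤
            1 / (h : ℝ) * (Real.sqrt (2 * N / x) * Real.sqrt (1 / (h : ℝ))) := by gcongr
        _ = _ := by ring
    refine (Finset.sum_le_sum hb).trans ?_
    rw [← Finset.mul_sum]
    have h6 := sum_tele hH k
    have h7 : 0 ≤ 2 / Real.sqrt ((H + k : ℕ) : ℝ) := by positivity
    calc Real.sqrt (2 * N / x) * ∑ i ∈ range k,
          (1 / ((H + i + 1 : ℕ) : ℝ) * Real.sqrt (1 / ((H + i + 1 : ℕ) : ℝ))) ≤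
          Real.sqrt (2 * N / x) * (2 / Real.sqrt H) := by
            gcongr
            linarith
      _ = 2 * Real.sqrt 2 * Real.sqrt (N / (x * H)) := by
          have e1 : (2 : ℝ) * N / x = 2 * (N / x) := by ring
          have e2 : (N : ℝ) / (x * H) = N / x / H := by field_simp
          rw [e1, Real.sqrt_mul (by norm_num), e2, Real.sqrt_div (by positivity) (H : ℝ)]
          ring
      _ ≤ 3 * Real.sqrt (N / (x * H)) := by
          apply mul_le_mul_of_nonneg_right _ (Real.sqrt_nonneg _)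
          have h8 : Real.sqrt 2 ≤ 1.5 := by
            rw [Real.sqrt_le_left (by norm_num)]
            norm_num
          linarith

theorem QQ_nonneg (N H : ℕ) (w : ℂ) (x : ℝ) : 0 ≤ QQ N H w x := by
  unfold QQ
  have : 0 ≤ ∑ h ∈ Icc 1 H, 1 / (h : ℝ) * min (N : ℝ) (2 / ‖1 - w ^ h‖) :=
    Finset.sum_nonneg (fun h _ => mul_nonneg (by positivity) (le_min (Nat.cast_nonneg _)
      (by positivity)))
  have := Real.sqrt_nonneg (N / (x * H))
  linarith

/-- the inner one of `v^2` and `v^(-2)` -/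
noncomputable def inn (v : ℂ) : ℂ := if ‖v‖ < 1 then v ^ 2 else (v ^ 2)⁻¹

theorem norm_inn {v : ℂ} (hv : v ≠ 0) :
    ‖inn v‖ = Real.exp (-(2 * |Real.log ‖v‖|)) := by
  have hpos : 0 < ‖v‖ := norm_pos_iff.2 hv
  unfold inn
  split_ifs with h
  · rw [norm_pow, abs_of_neg (Real.log_neg hpos h)]
    have : -(2 * -Real.log ‖v‖) = ((2 : ℕ) : ℝ) * Real.log ‖v‖ := by push_cast; ring
    rw [this, Real.exp_nat_mul, Real.exp_log hpos]
  · rw [norm_inv, norm_pow, abs_of_nonneg (Real.log_nonneg (not_lt.1 h)), Real.exp_neg]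
    have : 2 * Real.log ‖v‖ = ((2 : ℕ) : ℝ) * Real.log ‖v‖ := by push_cast; ring
    rw [this, Real.exp_nat_mul, Real.exp_log hpos]

theorem norm_br {v : ℂ} (hv : v ≠ 0) (j : ℕ) :
    ‖br v ((j : ℤ) + 1)‖ = Real.exp ((j + 1) * |Real.log ‖v‖|) * ‖1 - inn v ^ (j + 1)‖ := by
  have hpos : 0 < ‖v‖ := norm_pos_iff.2 hv
  unfold inn br
  have e1 : v ^ ((j : ℤ) + 1) = v ^ (j + 1) := by exact_mod_cast zpow_natCast v (j + 1)
  have e2 : v ^ (-((j : ℤ) + 1)) = (v ^ (j + 1))⁻¹ := by rw [zpow_neg, e1]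
  rw [e1, e2]
  have hne : v ^ (j + 1) ≠ 0 := pow_ne_zero _ hv
  split_ifs with h
  · rw [abs_of_neg (Real.log_neg hpos h)]
    have e3 : v ^ (j + 1) - (v ^ (j + 1))⁻¹ = -((v ^ (j + 1))⁻¹ * (1 - (v ^ 2) ^ (j + 1))) := by
      have : (v ^ 2) ^ (j + 1) = v ^ (j + 1) * v ^ (j + 1) := by rw [← pow_mul, ← pow_add]; congr 1; ring
      rw [this]
      field_simp
      ring
    rw [e3, norm_neg, norm_mul, norm_inv, norm_pow]
    congr 1
    have : ((j : ℝ) + 1) * -Real.log ‖v‖ = -(((j + 1 : ℕ) : ℝ) * Real.log ‖v‖) := by push_cast; ring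
    rw [this, Real.exp_neg, Real.exp_nat_mul, Real.exp_log hpos]
  · rw [abs_of_nonneg (Real.log_nonneg (not_lt.1 h))]
    have e3 : v ^ (j + 1) - (v ^ (j + 1))⁻¹ = v ^ (j + 1) * (1 - ((v ^ 2)⁻¹) ^ (j + 1)) := by
      have : ((v ^ 2)⁻¹) ^ (j + 1) = (v ^ (j + 1))⁻¹ * (v ^ (j + 1))⁻¹ := by
        rw [inv_pow, ← mul_inv, ← pow_mul, ← pow_add]; congr 2; ring
      rw [this]
      field_simp
    rw [e3, norm_mul, norm_pow]
    congr 1
    have : ((j : ℝ) + 1) * Real.log ‖v‖ = ((j + 1 : ℕ) : ℝ) * Real.log ‖v‖ := by push_cast; ring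
    rw [this, Real.exp_nat_mul, Real.exp_log hpos]

theorem sum_le_sq (m : ℕ) : ∑ j ∈ range m, ((j : ℝ) + 1) ≤ (m : ℝ) ^ 2 := by
  calc ∑ j ∈ range m, ((j : ℝ) + 1) ≤ ∑ j ∈ range m, (m : ℝ) := by
        apply Finset.sum_le_sum
        intro j hj
        exact_mod_cast Finset.mem_range.1 hj
    _ = (m : ℝ) ^ 2 := by
        rw [Finset.sum_const, Finset.card_range, nsmul_eq_mul]; ring

/-- the bounds of the quantum factorials off the circle -/
theorem facR {v : ℂ} (hv : v ≠ 0) (h1 : ‖v‖ ≠ 1) {N H : ℕ} (hH : 0 < H) :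
    FacR N v ((N : ℝ) ^ 2 * |Real.log ‖v‖| + QQ N H (inn v) (2 * |Real.log ‖v‖|))
      |Real.log ‖v‖| := by
  have hpos : 0 < ‖v‖ := norm_pos_iff.2 hv
  have hη : 0 < |Real.log ‖v‖| := by
    rw [abs_pos]
    exact Real.log_ne_zero_of_pos_of_ne_one hpos h1
  have hw := norm_inn hv
  have hw1 : ‖inn v‖ < 1 := by
    rw [hw]; exact exp_lt_one' (by linarith)
  refine ⟨hv, ?_, ?_, hη.le, ?_⟩
  · rw [← Real.le_log_iff_exp_le hpos]; exact neg_abs_le _
  · rw [← Real.log_le_iff_le_exp hpos]; exact le_abs_self _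
  · intro m hm
    have hne : ∀ j ∈ range m, br v ((j : ℤ) + 1) ≠ 0 := by
      intro j _ h0
      have h2 := norm_br hv j
      rw [h0, norm_zero] at h2
      have h3 : ‖1 - inn v ^ (j + 1)‖ ≠ 0 := by
        rw [norm_ne_zero_iff, sub_ne_zero]
        intro h4
        have h5 : ‖inn v ^ (j + 1)‖ < 1 := by
          rw [norm_pow]; exact pow_lt_one₀ (norm_nonneg _) hw1 (by omega)
        rw [← h4, norm_one] at h5
        exact lt_irrefl _ h5
      exact (mul_ne_zero (Real.exp_ne_zero _) h3) h2.symm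
    have hbne : brf v m ≠ 0 := Finset.prod_ne_zero_iff.2 hne
    have hlog : Real.log ‖brf v m‖ =
        (∑ j ∈ range m, ((j : ℝ) + 1)) * |Real.log ‖v‖| + LL m (inn v) := by
      unfold brf LL
      rw [norm_prod, Real.log_prod (fun j hj => norm_ne_zero_iff.2 (hne j hj)), Finset.sum_mul,
        ← Finset.sum_add_distrib]
      apply Finset.sum_congr rfl
      intro j hj
      have h2 := norm_br hv j
      have h3 : ‖1 - inn v ^ (j + 1)‖ ≠ 0 := by
        intro h4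
        rw [h4, mul_zero] at h2
        exact (norm_ne_zero_iff.2 (hne j hj)) h2
      rw [h2, Real.log_mul (Real.exp_ne_zero _) h3, Real.log_exp]
    have hL := LL_le (x := 2 * |Real.log ‖v‖|) (by linarith) hw (m := m) (N := N) hm.le hH
    have h5 : (∑ j ∈ range m, ((j : ℝ) + 1)) * |Real.log ‖v‖| ≤ (N : ℝ) ^ 2 * |Real.log ‖v‖| := by
      apply mul_le_mul_of_nonneg_right _ hη.le
      refine (sum_le_sq m).trans ?_
      have : (m : ℝ) ≤ N := by exact_mod_cast hm.le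
      gcongr
    have h6 : 0 ≤ (∑ j ∈ range m, ((j : ℝ) + 1)) * |Real.log ‖v‖| :=
      mul_nonneg (Finset.sum_nonneg (fun _ _ => by positivity)) hη.le
    rw [abs_le] at hL
    have hbpos : 0 < ‖brf v m‖ := norm_pos_iff.2 hbne
    constructor
    · rw [← Real.le_log_iff_exp_le hbpos, hlog]
      linarith [hL.1]
    · rw [← Real.log_le_iff_le_exp hbpos, hlog]
      linarith [hL.2]

end Pool.Agent.Q79.KS
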