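import Mathlib
import Pool.Agent.Q79.KsB

set_option autoImplicit false

open Finset Filter Topology

namespace Pool.Agent.Q79.KS

open ValueDistribution in
/-- the mean of `log⁺ |P|` over circles increases with the radius -/
theorem posLog_mono (P : Polynomial ℂ) {r : ℝ} (hr : 1 ≤ r) :
    Real.circleAverage (fun z => Real.posLog ‖P.eval z‖) 0 1 ≤
      Real.circleAverage (fun z => Real.posLog ‖P.eval z‖) 0 r := by
  set f : ℂ → ℂ := fun z => P.eval z with hf
  have hA : AnalyticOn ℂ f Set.univ := fun z _ => by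
    have : Differentiable ℂ f := P.differentiable
    exact (this.analyticAt z).analyticWithinAt
  have hM : Meromorphic f := fun z => (P.differentiable.analyticAt z).meromorphicAt
  have h0 : logCounting f ⊤ = 0 := by
    have h1 := logCounting_add_analyticOn (f := (fun _ => (0 : ℂ))) (g := f)
      (fun z => analyticAt_const.meromorphicAt) hA
    have h2 : ((fun _ => (0 : ℂ)) + f) = f := by funext z; simp
    rw [h2] at h1
    rw [h1]
    exact logCounting_const
  have h3 := characteristic_monotoneOn hM (a := 1) (by simp) (b := r)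
    (by simp only [Set.mem_Ioi]; linarith) hr
  unfold characteristic at h3
  rw [h0, add_zero, proximity_top] at h3
  exact h3

theorem norm_one_sub_ge {ρ φ : ℝ} (h0 : 0 ≤ ρ) (hφ : |φ| ≤ Real.pi) :
    |φ| / Real.pi ≤ ‖1 - (ρ : ℂ) * Complex.exp (φ * Complex.I)‖ := by
  have hpi := Real.pi_pos
  have hsq : ‖1 - (ρ : ℂ) * Complex.exp (φ * Complex.I)‖ ^ 2 =
      (1 - ρ * Real.cos φ) ^ 2 + (ρ * Real.sin φ) ^ 2 := by
    rw [← Complex.normSq_eq_norm_sq, Complex.normSq_apply]
    simp only [Complex.sub_re, Complex.sub_im, Complex.one_re, Complex.one_im, Complex.mul_re,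
      Complex.mul_im, Complex.ofReal_re, Complex.ofReal_im, Complex.exp_ofReal_mul_I_re,
      Complex.exp_ofReal_mul_I_im]
    ring
  have hcs := Real.sin_sq_add_cos_sq φ
  apply le_of_sq_le_sq _ (norm_nonneg _)
  rw [hsq]
  have e1 : (1 - ρ * Real.cos φ) ^ 2 + (ρ * Real.sin φ) ^ 2 = 1 - 2 * ρ * Real.cos φ + ρ ^ 2 := by
    linear_combination (ρ ^ 2) * hcs
  rw [e1]
  rcases le_or_gt (Real.cos φ) 0 with hc | hc
  · have h1 : |φ| / Real.pi ≤ 1 := by rw [div_le_one hpi]; exact hφ
    have h2 : 0 ≤ |φ| / Real.pi := by positivity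
    have h3 : 0 ≤ ρ * (-Real.cos φ) := mul_nonneg h0 (by linarith)
    nlinarith [sq_nonneg ρ]
  · have h1 : |φ| ≤ Real.pi / 2 := by
      by_contra hcon
      push Not at hcon
      have h2 : Real.cos |φ| ≤ 0 := by
        apply Real.cos_nonpos_of_pi_div_two_le_of_le hcon.le
        linarith
      rw [Real.cos_abs] at h2
      linarith
    have h2 := Real.mul_le_sin (abs_nonneg φ) h1
    have h3 : Real.sin |φ| ^ 2 = Real.sin φ ^ 2 := by
      rcases abs_choice φ with h | h <;> rw [h]
      rw [Real.sin_neg]; ring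
    have h4 : |φ| / Real.pi ≤ Real.sin |φ| := by
      refine le_trans ?_ h2
      rw [div_le_iff₀ hpi]
      have : 2 / Real.pi * |φ| * Real.pi = 2 * |φ| := by field_simp
      rw [this]
      linarith [abs_nonneg φ]
    have h5 : (|φ| / Real.pi) ^ 2 ≤ Real.sin φ ^ 2 := by
      rw [← h3]
      have : 0 ≤ |φ| / Real.pi := by positivity
      gcongr
    nlinarith [sq_nonneg (ρ - Real.cos φ)]

/-- the integrand -/
noncomputable def gg (N : ℕ) (ρ φ : ℝ) : ℝ :=
  min (N : ℝ) (2 / ‖1 - (ρ : ℂ) * Complex.exp (φ * Complex.I)‖)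

theorem gg_cont (N : ℕ) {ρ : ℝ} (h0 : 0 ≤ ρ) (h1 : ρ < 1) : Continuous (gg N ρ) := by
  unfold gg
  apply Continuous.min continuous_const
  apply Continuous.div continuous_const
  · fun_prop
  · intro φ
    rw [norm_ne_zero_iff, sub_ne_zero]
    intro h
    have h2 : ‖(ρ : ℂ) * Complex.exp (φ * Complex.I)‖ = ρ := by
      rw [norm_mul, Complex.norm_exp_ofReal_mul_I, mul_one, Complex.norm_real, Real.norm_eq_abs,
        abs_of_nonneg h0]
    rw [← h, norm_one] at h2
    linarith

theorem gg_periodic (N : ℕ) (ρ : ℝ) : Function.Periodic (gg N ρ) (2 * Real.pi) := by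
  intro φ
  unfold gg
  congr 5
  push_cast
  have : ((φ : ℂ) + 2 * Real.pi) * Complex.I = φ * Complex.I + 2 * Real.pi * Complex.I := by ring
  rw [this, Complex.exp_add, Complex.exp_two_pi_mul_I, mul_one]

theorem gg_neg (N : ℕ) (ρ φ : ℝ) : gg N ρ (-φ) = gg N ρ φ := by
  unfold gg
  congr 2
  rw [← Complex.norm_conj]
  congr 1
  rw [map_sub, map_mul, map_one, Complex.conj_ofReal, ← Complex.exp_conj, map_mul,
    Complex.conj_I, Complex.conj_ofReal]
  congr 2
  push_cast
  ring_nf

theorem gg_le {N : ℕ} {ρ φ : ℝ} (h0 : 0 ≤ ρ) (hφ : |φ| ≤ Real.pi) (h : 0 < |φ|) :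
    gg N ρ φ ≤ 2 * Real.pi / |φ| := by
  unfold gg
  refine (min_le_right _ _).trans ?_
  have h1 := norm_one_sub_ge h0 hφ
  have hpi := Real.pi_pos
  have h2 : 0 < |φ| / Real.pi := by positivity
  calc 2 / ‖1 - (ρ : ℂ) * Complex.exp (φ * Complex.I)‖ ≤ 2 / (|φ| / Real.pi) := by gcongr
    _ = 2 * Real.pi / |φ| := by field_simp

theorem gg_le_nat (N : ℕ) (ρ φ : ℝ) : gg N ρ φ ≤ N := min_le_left _ _

theorem int_gg {N : ℕ} (hN : 2 ≤ N) {ρ : ℝ} (h0 : 0 ≤ ρ) (h1 : ρ < 1) :
    ∫ φ in (0 : ℝ)..(2 * Real.pi), gg N ρ φ ≤ 2 * Real.pi * (2 * (1 + Real.log N)) := by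
  have hpi := Real.pi_pos
  have hN0 : (0 : ℝ) < N := by positivity
  have hN2 : (2 : ℝ) ≤ N := by exact_mod_cast hN
  have hc := gg_cont N h0 h1
  have hi : ∀ a b : ℝ, IntervalIntegrable (gg N ρ) MeasureTheory.volume a b :=
    fun a b => hc.intervalIntegrable a b
  have hper := (gg_periodic N ρ).intervalIntegral_add_eq 0 (-Real.pi)
  rw [zero_add] at hper
  have e1 : -Real.pi + 2 * Real.pi = Real.pi := by ring
  rw [e1] at hper
  rw [hper]
  set a : ℝ := 2 * Real.pi / N with ha
  have ha0 : 0 < a := by positivity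
  have haN : a * N = 2 * Real.pi := by rw [ha]; field_simp
  have hapi : a ≤ Real.pi := by
    rw [ha, div_le_iff₀ hN0]
    nlinarith
  rw [← intervalIntegral.integral_add_adjacent_intervals (hi (-Real.pi) (-a)) (hi (-a) Real.pi),
    ← intervalIntegral.integral_add_adjacent_intervals (hi (-a) a) (hi a Real.pi)]
  have hmid : ∫ φ in (-a)..a, gg N ρ φ ≤ 4 * Real.pi := by
    calc ∫ φ in (-a)..a, gg N ρ φ ≤ ∫ φ in (-a)..a, (N : ℝ) := by
          apply intervalIntegral.integral_mono_on (by linarith) (hi _ _)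
            (continuous_const.intervalIntegrable _ _)
          intro x _
          exact gg_le_nat _ _ _
      _ = 4 * Real.pi := by
          rw [intervalIntegral.integral_const, smul_eq_mul]
          linear_combination 2 * haN
  have hout : ∫ φ in a..Real.pi, gg N ρ φ ≤ 2 * Real.pi * Real.log N := by
    have hint : IntervalIntegrable (fun φ : ℝ => 2 * Real.pi * φ⁻¹) MeasureTheory.volume
        a Real.pi := by
      apply IntervalIntegrable.const_mul
      apply intervalIntegral.intervalIntegrable_inv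
      · intro x hx
        rw [Set.uIcc_of_le hapi] at hx
        linarith [hx.1]
      · exact continuousOn_id
    calc ∫ φ in a..Real.pi, gg N ρ φ ≤ ∫ φ in a..Real.pi, 2 * Real.pi * φ⁻¹ := by
          apply intervalIntegral.integral_mono_on hapi (hi _ _) hint
          intro x hx
          have hx0 : 0 < x := by linarith [hx.1]
          have h2 := gg_le (N := N) h0 (φ := x) (by rw [abs_of_pos hx0]; exact hx.2)
            (by rw [abs_of_pos hx0]; exact hx0)
          rw [abs_of_pos hx0] at h2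
          rwa [div_eq_mul_inv] at h2
      _ = 2 * Real.pi * Real.log (Real.pi / a) := by
          rw [intervalIntegral.integral_const_mul, integral_inv_of_pos ha0 hpi]
      _ ≤ 2 * Real.pi * Real.log N := by
          apply mul_le_mul_of_nonneg_left _ (by positivity)
          apply Real.log_le_log (by positivity)
          rw [div_le_iff₀ ha0]
          nlinarith
  have hleft : ∫ φ in (-Real.pi)..(-a), gg N ρ φ = ∫ φ in a..Real.pi, gg N ρ φ := by
    have h2 := intervalIntegral.integral_comp_neg (a := a) (b := Real.pi) (fun x => gg N ρ x)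
    simp only [gg_neg] at h2
    exact h2.symm
  rw [hleft]
  have hlog : 0 ≤ Real.log N := Real.log_natCast_nonneg N
  nlinarith

theorem int_comp {f : ℝ → ℝ} (hf : Continuous f) (hp : Function.Periodic f (2 * Real.pi))
    {k : ℕ} (hk : 0 < k) :
    ∫ θ in (0 : ℝ)..(2 * Real.pi), f (k * θ) = ∫ θ in (0 : ℝ)..(2 * Real.pi), f θ := by
  have hk0 : (k : ℝ) ≠ 0 := by exact_mod_cast hk.ne'
  rw [intervalIntegral.integral_comp_mul_left f hk0, mul_zero]
  have h1 := hp.intervalIntegral_add_zsmul_eq k 0 (hf.intervalIntegrable)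
  rw [zero_add, zero_add] at h1
  have e1 : ((k : ℕ) : ℤ) • (2 * Real.pi) = k * (2 * Real.pi) := by
    rw [zsmul_eq_mul]; push_cast; ring
  rw [e1] at h1
  rw [h1, zsmul_eq_mul, smul_eq_mul]
  push_cast
  field_simp

end Pool.Agent.Q79.KS
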