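import Mathlib
import Pool.Agent.Q79.KsC

set_option autoImplicit false

open Finset Filter Topology Pool.Agent.Q79.KV Polynomial

namespace Pool.Agent.Q79.KS

/-! ### The coloured Jones polynomial as a Laurent polynomial -/

theorem cP_one (N : ℕ) (p q : Fin N × Fin N) : 0 ≤ cP N (1 : ℤˣ) p q ∧
    (p.1 = q.2 → p.2 = q.1 → cP N (1 : ℤˣ) p q = 1) := by
  have key : p.1 = q.2 → p.2 = q.1 → cP N (1 : ℤˣ) p q = 1 := by
    intro h1 h2
    unfold cP
    rw [if_pos (by rw [h1, h2]; exact ⟨by omega, le_rfl⟩), h1, gb_self]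
    simp
  refine ⟨?_, key⟩
  by_cases h : cP N (1 : ℤˣ) p q = 0
  · rw [h]
  · obtain ⟨h1, h2⟩ := flip_cP (u := (1 : ℤˣ)) (by simp) N p q h
    rw [key h1 h2]
    norm_num

theorem cN_one (N : ℕ) (p q : Fin N × Fin N) : 0 ≤ cN N (1 : ℤˣ) p q ∧
    (p.1 = q.2 → p.2 = q.1 → cN N (1 : ℤˣ) p q = 1) := by
  have key : p.1 = q.2 → p.2 = q.1 → cN N (1 : ℤˣ) p q = 1 := by
    intro h1 h2
    unfold cN
    rw [if_pos (by rw [h1, h2]; exact ⟨by omega, le_rfl⟩), h2, gb_self]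
    simp
  refine ⟨?_, key⟩
  by_cases h : cN N (1 : ℤˣ) p q = 0
  · rw [h]
  · obtain ⟨h1, h2⟩ := flip_cN (u := (1 : ℤˣ)) (by simp) N p q h
    rw [key h1 h2]
    norm_num

theorem gn_one {N : ℕ} {A : Matrix (Fin N × Fin N) (Fin N × Fin N) ℤ}
    (hA : ∀ p q, 0 ≤ A p q ∧ (p.1 = q.2 → p.2 = q.1 → A p q = 1)) (n k : ℕ) :
    (∀ s t, 0 ≤ gn A n k s t) ∧ ∀ i, gn A n k (fun _ => i) (fun _ => i) = 1 := by
  constructor
  · intro s t
    unfold gn
    split_ifs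
    · exact (hA _ _).1
    · exact le_rfl
    · norm_num
    · exact le_rfl
  · intro i
    unfold gn
    split_ifs with h1 h2 h3
    · exact (hA _ _).2 rfl rfl
    · exact absurd (fun j _ _ => rfl) h2
    · rfl
    · exact absurd rfl h3

theorem rp_one (N n : ℕ) (w : List (ℕ × Bool)) :
    (∀ s t, 0 ≤ rp (cP N (1 : ℤˣ)) (cN N (1 : ℤˣ)) n w s t) ∧
      ∀ i, 1 ≤ rp (cP N (1 : ℤˣ)) (cN N (1 : ℤˣ)) n w (fun _ => i) (fun _ => i) := by
  induction w with
  | nil =>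
    unfold rp
    rw [List.map_nil, List.prod_nil]
    constructor
    · intro s t
      rw [Matrix.one_apply]
      split_ifs <;> norm_num
    · intro i
      rw [Matrix.one_apply_eq]
  | cons g w ih =>
    have e : rp (cP N (1 : ℤˣ)) (cN N (1 : ℤˣ)) n (g :: w) =
        gn (if g.2 then cP N (1 : ℤˣ) else cN N (1 : ℤˣ)) n g.1 *
          rp (cP N (1 : ℤˣ)) (cN N (1 : ℤˣ)) n w := by
      unfold rp
      rw [List.map_cons, List.prod_cons]
    have hA : ∀ p q, 0 ≤ (if g.2 then cP N (1 : ℤˣ) else cN N (1 : ℤˣ)) p q ∧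
        (p.1 = q.2 → p.2 = q.1 → (if g.2 then cP N (1 : ℤˣ) else cN N (1 : ℤˣ)) p q = 1) := by
      intro p q
      split_ifs
      · exact cP_one N p q
      · exact cN_one N p q
    obtain ⟨g1, g2⟩ := gn_one hA n g.1
    constructor
    · intro s t
      rw [e, Matrix.mul_apply]
      exact Finset.sum_nonneg (fun r _ => mul_nonneg (g1 _ _) (ih.1 _ _))
    · intro i
      rw [e, Matrix.mul_apply]
      refine le_trans ?_ (Finset.single_le_sum (f := fun r =>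
        gn (if g.2 then cP N (1 : ℤˣ) else cN N (1 : ℤˣ)) n g.1 (fun _ => i) r *
          rp (cP N (1 : ℤˣ)) (cN N (1 : ℤˣ)) n w r (fun _ => i))
        (fun r _ => mul_nonneg (g1 _ _) (ih.1 _ _)) (Finset.mem_univ (fun _ => i)))
      rw [g2, one_mul]
      exact ih.2 i

theorem cj_one_pos {M : ℕ} (hM : 0 < M) (n : ℕ) (w : List (ℕ × Bool)) :
    1 ≤ cj M n w (1 : ℤˣ) := by
  unfold cj
  rw [dif_pos hM]
  obtain ⟨h1, h2⟩ := rp_one M (n + 1) w
  have h3 : ∀ s : Fin n → Fin M,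
      (∏ x, (((1 : ℤˣ) ^ ((M : ℤ) - 1 - 2 * (s x : ℕ)) : ℤˣ) : ℤ)) = 1 := by
    intro s
    apply Finset.prod_eq_one
    intro x _
    rw [one_zpow]; rfl
  refine le_trans ?_ (Finset.single_le_sum (f := fun s : Fin n → Fin M =>
    (∏ x, (((1 : ℤˣ) ^ ((M : ℤ) - 1 - 2 * (s x : ℕ)) : ℤˣ) : ℤ)) *
      rp (cP M (1 : ℤˣ)) (cN M (1 : ℤˣ)) (n + 1) w (Fin.cons ⟨0, hM⟩ s) (Fin.cons ⟨0, hM⟩ s))
    (fun s _ => by rw [h3, one_mul]; exact h1 _ _) (Finset.mem_univ (fun _ => (⟨0, hM⟩ : Fin M))))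
  have h3' := h3 (fun _ => ⟨0, hM⟩)
  refine le_trans ?_ (mul_le_mul_of_nonneg_right h3'.ge (h1 _ _))
  rw [one_mul]
  have e : (Fin.cons (⟨0, hM⟩ : Fin M) (fun _ => (⟨0, hM⟩ : Fin M)) :
      Fin (n + 1) → Fin M) = fun _ => ⟨0, hM⟩ := by
    funext x
    refine Fin.cases ?_ (fun i => ?_) x
    · rfl
    · rfl
  rw [e]
  exact h2 _

/-- the unit `T` -/
noncomputable def TL : (LaurentPolynomial ℤ)ˣ :=
  ⟨LaurentPolynomial.T 1, LaurentPolynomial.T (-1), by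
    rw [← LaurentPolynomial.T_add]; simp, by
    rw [← LaurentPolynomial.T_add]; simp⟩

theorem map_TL {S : Type} [CommRing S] (x : Sˣ) :
    Units.map ((LaurentPolynomial.eval₂ (Int.castRingHom S) x : LaurentPolynomial ℤ →+* S) :
      LaurentPolynomial ℤ →* S) TL = x := by
  apply Units.ext
  have : (Units.map ((LaurentPolynomial.eval₂ (Int.castRingHom S) x : LaurentPolynomial ℤ →+* S) :
      LaurentPolynomial ℤ →* S) TL : S) =
      LaurentPolynomial.eval₂ (Int.castRingHom S) x (LaurentPolynomial.T 1) := rfl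
  rw [this, LaurentPolynomial.eval₂_T, zpow_one]

/-- the coloured Jones polynomial as a polynomial with non-zero constant term, up to a power -/
theorem exists_laurent {M : ℕ} (hM : 0 < M) (n : ℕ) (w : List (ℕ × Bool)) :
    ∃ (P : ℤ[X]) (e : ℤ), P.coeff 0 ≠ 0 ∧ ∀ (v : ℂ) (hv : v ≠ 0),
      aeval v P = v ^ e * cj M n w (Units.mk0 v hv) := by
  set F : LaurentPolynomial ℤ := cj M n w TL with hF
  obtain ⟨e0, P0, hP0⟩ := LaurentPolynomial.exists_T_pow F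
  have hev : ∀ (S : Type) [CommRing S] (x : Sˣ), P0.eval₂ (Int.castRingHom S) (x : S) =
      cj M n w x * ((x ^ e0 : Sˣ) : S) := by
    intro S _ x
    have h1 := congrArg (LaurentPolynomial.eval₂ (Int.castRingHom S) x) hP0
    rw [LaurentPolynomial.eval₂_toLaurent, map_mul, LaurentPolynomial.eval₂_T_n, hF] at h1
    have h2 := map_cj (LaurentPolynomial.eval₂ (Int.castRingHom S) x) TL M n w
    rw [map_TL] at h2
    rw [h2] at h1
    rw [h1, Units.val_pow_eq_pow_val]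
  have hP0ne : P0 ≠ 0 := by
    intro h0
    have h1 := hev ℤ 1
    rw [h0, eval₂_zero] at h1
    have h2 := cj_one_pos hM n w
    have h3 : (((1 : ℤˣ) ^ e0 : ℤˣ) : ℤ) = 1 := by rw [one_pow]; rfl
    rw [h3, mul_one] at h1
    omega
  obtain ⟨P, hP1, hP2⟩ := Polynomial.exists_eq_pow_rootMultiplicity_mul_and_not_dvd P0 hP0ne 0
  rw [C_0, sub_zero] at hP1 hP2
  set k := rootMultiplicity 0 P0 with hk
  refine ⟨P, (e0 : ℤ) - k, ?_, ?_⟩
  · intro h0
    exact hP2 (X_dvd_iff.2 h0)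
  · intro v hv
    have h1 := hev ℂ (Units.mk0 v hv)
    have h2 : P0.eval₂ (Int.castRingHom ℂ) ((Units.mk0 v hv : ℂˣ) : ℂ) = v ^ k * aeval v P := by
      rw [hP1, eval₂_mul, eval₂_pow, eval₂_X, Units.val_mk0, ← algebraMap_int_eq, ← aeval_def]
    rw [h2] at h1
    have h3 : ((Units.mk0 v hv ^ e0 : ℂˣ) : ℂ) = v ^ e0 := by
      rw [Units.val_pow_eq_pow_val, Units.val_mk0]
    rw [h3] at h1
    rw [zpow_sub₀ hv, zpow_natCast, zpow_natCast]
    have hvk : v ^ k ≠ 0 := pow_ne_zero _ hv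
    field_simp
    linear_combination h1

end Pool.Agent.Q79.KS
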