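import Mathlib
import Pool.Agent.Q79.KuC
import Pool.Agent.Q79.KvE

set_option autoImplicit false

open Finset

namespace Pool.Agent.Q79.KU

open Pool.Agent.Q79.KV

/-! ### Rows of the operators of braid words -/

theorem gen_row' {ι : Type} [Fintype ι] [DecidableEq ι] {A : Matrix (ι × ι) (ι × ι) ℂ} {B : ℝ} (hB : 1 ≤ B)
    (hA : ∀ p, ∑ q, ‖A p q‖ ≤ B) (n k : ℕ) (s : Fin n → ι) :
    ∑ t, ‖gen A n k s t‖ ≤ B := by
  unfold gen
  by_cases hk : k + 1 < n
  · simp only [dif_pos hk]
    have h1 : ∀ t : Fin n → ι, ‖(if ∀ j : Fin n, (j : ℕ) ≠ k → (j : ℕ) ≠ k + 1 → s j = t j then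
        A (s ⟨k, by omega⟩, s ⟨k + 1, hk⟩) (t ⟨k, by omega⟩, t ⟨k + 1, hk⟩) else 0)‖ =
        if ∀ j : Fin n, (j : ℕ) ≠ k → (j : ℕ) ≠ k + 1 → s j = t j then
        ‖A (s ⟨k, by omega⟩, s ⟨k + 1, hk⟩) (t ⟨k, by omega⟩, t ⟨k + 1, hk⟩)‖ else 0 := by
      intro t
      split_ifs
      · rfl
      · exact norm_zero
    simp only [h1]
    rw [← Finset.sum_filter]
    set T := Finset.univ.filter fun t : Fin n → ι =>
      ∀ j : Fin n, (j : ℕ) ≠ k → (j : ℕ) ≠ k + 1 → s j = t j with hT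
    set φ : (Fin n → ι) → ι × ι := fun t => (t ⟨k, by omega⟩, t ⟨k + 1, hk⟩) with hφ
    have hinj : Set.InjOn φ T := by
      intro t ht t' ht' he
      rw [hT, Finset.coe_filter, Set.mem_ofPred_eq] at ht ht'
      have e1 : t ⟨k, by omega⟩ = t' ⟨k, by omega⟩ := congrArg Prod.fst he
      have e2 : t ⟨k + 1, hk⟩ = t' ⟨k + 1, hk⟩ := congrArg Prod.snd he
      funext j
      by_cases h2 : (j : ℕ) = k
      · have : j = ⟨k, by omega⟩ := Fin.ext h2
        rw [this]; exact e1
      · by_cases h3 : (j : ℕ) = k + 1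
        · have : j = ⟨k + 1, hk⟩ := Fin.ext h3
          rw [this]; exact e2
        · rw [← ht.2 j h2 h3, ← ht'.2 j h2 h3]
    calc ∑ t ∈ T, ‖A (s ⟨k, by omega⟩, s ⟨k + 1, hk⟩) (φ t)‖ =
          ∑ q ∈ T.image φ, ‖A (s ⟨k, by omega⟩, s ⟨k + 1, hk⟩) q‖ := by
          rw [Finset.sum_image hinj]
      _ ≤ ∑ q, ‖A (s ⟨k, by omega⟩, s ⟨k + 1, hk⟩) q‖ := by
          apply Finset.sum_le_sum_of_subset_of_nonneg (Finset.subset_univ _)
          intro _ _ _; exact norm_nonneg _
      _ ≤ B := hA _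
  · simp only [dif_neg hk]
    apply sum_le_of_unique (by linarith)
    · intro t
      split_ifs
      · rw [norm_one]; exact hB
      · rw [norm_zero]; linarith
    · intro t t' h1 h2
      have e1 : s = t := by
        by_contra hne
        rw [if_neg hne, norm_zero] at h1
        exact h1 rfl
      have e2 : s = t' := by
        by_contra hne
        rw [if_neg hne, norm_zero] at h2
        exact h2 rfl
      rw [← e1, ← e2]

theorem rep_row' {ι : Type} [Fintype ι] [DecidableEq ι] {P Q : Matrix (ι × ι) (ι × ι) ℂ} {B : ℝ} (hB : 1 ≤ B)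
    (hP : ∀ p, ∑ q, ‖P p q‖ ≤ B) (hQ : ∀ p, ∑ q, ‖Q p q‖ ≤ B) (n : ℕ) (w : List (ℕ × Bool)) :
    ∀ s : Fin n → ι, ∑ t, ‖rep P Q n w s t‖ ≤ B ^ w.length := by
  induction w with
  | nil =>
    intro s
    unfold rep
    rw [List.map_nil, List.prod_nil, List.length_nil, pow_zero]
    apply sum_le_of_unique (by norm_num)
    · intro t
      rw [Matrix.one_apply]
      split_ifs
      · rw [norm_one]
      · rw [norm_zero]; norm_num
    · intro t t' h1 h2
      have e1 : s = t := by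
        by_contra hne
        rw [Matrix.one_apply_ne hne, norm_zero] at h1
        exact h1 rfl
      have e2 : s = t' := by
        by_contra hne
        rw [Matrix.one_apply_ne hne, norm_zero] at h2
        exact h2 rfl
      rw [← e1, ← e2]
  | cons g w ih =>
    intro s
    have e : rep P Q n (g :: w) = gen (if g.2 then P else Q) n g.1 * rep P Q n w := by
      unfold rep
      rw [List.map_cons, List.prod_cons]
    have hA : ∀ p, ∑ q, ‖(if g.2 then P else Q) p q‖ ≤ B := by split_ifs <;> assumption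
    have hg := gen_row' hB hA n g.1 s
    calc ∑ t, ‖rep P Q n (g :: w) s t‖ ≤
          ∑ t, ∑ r, ‖gen (if g.2 then P else Q) n g.1 s r‖ * ‖rep P Q n w r t‖ := by
          apply Finset.sum_le_sum
          intro t _
          rw [e, Matrix.mul_apply]
          refine (norm_sum_le _ _).trans (Finset.sum_le_sum fun r _ => ?_)
          rw [norm_mul]
      _ = ∑ r, ‖gen (if g.2 then P else Q) n g.1 s r‖ * ∑ t, ‖rep P Q n w r t‖ := by
          rw [Finset.sum_comm]
          apply Finset.sum_congr rfl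
          intro r _
          rw [Finset.mul_sum]
      _ ≤ ∑ r, ‖gen (if g.2 then P else Q) n g.1 s r‖ * B ^ w.length := by
          apply Finset.sum_le_sum
          intro r _
          exact mul_le_mul_of_nonneg_left (ih r) (norm_nonneg _)
      _ = (∑ r, ‖gen (if g.2 then P else Q) n g.1 s r‖) * B ^ w.length := by
          rw [Finset.sum_mul]
      _ ≤ B * B ^ w.length := by
          apply mul_le_mul_of_nonneg_right hg
          have : 0 ≤ B := by linarith
          positivity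
      _ = B ^ (g :: w).length := by rw [List.length_cons, pow_succ']


/-! ### The state sum over the complex numbers -/

/-- one summand of an entry of the crossing matrix -/
noncomputable def sdc (r N : ℕ) (ε : ℤ) (v : ℂ) (α β γ δ κ : Fin (r + 1) → ℕ) : ℂ :=
  if ∀ i, κ i ≤ β i ∧ γ i ≤ α i + κ i then
    (-1) ^ (∑ i, κ i) * (v ^ 2) ^ ex r N ε α β γ κ *
      ∏ i, (ga (v ^ 2) (α i + κ i) (κ i) * ga (v ^ 2) (δ i) (α i + κ i - γ i))
  else 0

/-- the crossing matrices -/
noncomputable def xc (r N : ℕ) (ε : ℤ) (v : ℂ) : Matrix (St r N × St r N) (St r N × St r N) ℂ :=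
  fun p q => if ∀ i, ct p.1 i + ct p.2 i = ct q.1 i + ct q.2 i then
    (-1) ^ N * v ^ (-(ε * (N * (N + r + 1)))) *
      ∑ κ : Fin (r + 1) → Fin (N + 1),
        sdc r N ε v (ct q.1) (ct q.2) (ct p.1) (ct p.2) (fun i => (κ i : ℕ))
    else 0

/-- the coloured `SU(r + 1)` invariant -/
noncomputable def jc (r N b : ℕ) (w : List (ℕ × Bool)) (v : ℂ) : ℂ :=
  tail (fun s : St r N => v ^ (∑ i : Fin (r + 1), (2 * (i : ℤ) - r) * (ct s i : ℤ))) b
    (rep (xc r N 1 v) (xc r N (-1) v) (b + 1) w) (top r N) (top r N)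

theorem sdc_eq {v : ℂ} (hv : v ≠ 0) (r N : ℕ) (ε : ℤ) (α β γ δ κ : Fin (r + 1) → ℕ) :
    sd r N ε (Units.mk0 v hv) α β γ δ κ = sdc r N ε v α β γ δ κ := by
  unfold sd sdc
  simp only [Units.val_zpow_eq_zpow_val, Units.val_pow_eq_pow_val, Units.val_mk0]

theorem xc_eq {v : ℂ} (hv : v ≠ 0) (r N : ℕ) (ε : ℤ) :
    xg r N ε (Units.mk0 v hv) = xc r N ε v := by
  ext p q
  unfold xg xc
  simp only [sdc_eq, Units.val_zpow_eq_zpow_val, Units.val_mk0]

theorem jc_eq {v : ℂ} (hv : v ≠ 0) (r N b : ℕ) (w : List (ℕ × Bool)) :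
    sj r N b w (Units.mk0 v hv) = jc r N b w v := by
  unfold sj jc tail
  apply Finset.sum_congr rfl
  intro s _
  rw [xc_eq, xc_eq]
  simp only [Units.val_zpow_eq_zpow_val, Units.val_mk0]
  rfl

/-- a bound for the Gaussian binomial coefficients -/
def GB (T : ℕ) (v : ℂ) (β : ℝ) : Prop := ‖v‖ = 1 ∧ 1 ≤ β ∧ ∀ a b, a ≤ T → ‖ga (v ^ 2) a b‖ ≤ β

theorem sdc_le {r N : ℕ} {v : ℂ} {G : ℝ} (h : GB (2 * N) v G) (ε : ℤ)
    {α β γ δ κ : Fin (r + 1) → ℕ} (hα : ∀ i, α i ≤ N) (hβ : ∀ i, β i ≤ N) (hδ : ∀ i, δ i ≤ N) :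
    ‖sdc r N ε v α β γ δ κ‖ ≤ G ^ (2 * (r + 1)) := by
  obtain ⟨h1, h2, h3⟩ := h
  have hG0 : 0 ≤ G := by linarith
  unfold sdc
  split_ifs with hc
  · rw [norm_mul, norm_mul, norm_pow, norm_neg, norm_one, one_pow, one_mul, norm_zpow, norm_pow,
      h1, one_pow, one_zpow, one_mul, norm_prod]
    calc ∏ i, ‖ga (v ^ 2) (α i + κ i) (κ i) * ga (v ^ 2) (δ i) (α i + κ i - γ i)‖
        ≤ ∏ _i : Fin (r + 1), G * G := by
          apply Finset.prod_le_prod
          · intro i _; exact norm_nonneg _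
          · intro i _
            rw [norm_mul]
            apply mul_le_mul _ _ (norm_nonneg _) hG0
            · apply h3
              have := hα i
              have := hβ i
              have := (hc i).1
              omega
            · apply h3
              have := hδ i
              omega
      _ = G ^ (2 * (r + 1)) := by
          rw [Finset.prod_const, Finset.card_univ, Fintype.card_fin, ← pow_two, ← pow_mul]
  · rw [norm_zero]; positivity

theorem xc_le {r N : ℕ} {v : ℂ} {G : ℝ} (h : GB (2 * N) v G) (ε : ℤ)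
    (p q : St r N × St r N) :
    ‖xc r N ε v p q‖ ≤ ((N : ℝ) + 1) ^ (r + 1) * G ^ (2 * (r + 1)) := by
  have hG0 : 0 ≤ G := by linarith [h.2.1]
  unfold xc
  split_ifs with hc
  · rw [norm_mul, norm_mul, norm_pow, norm_neg, norm_one, one_pow, one_mul, norm_zpow, h.1,
      one_zpow, one_mul]
    refine (norm_sum_le _ _).trans ?_
    refine (Finset.sum_le_sum (fun κ _ => sdc_le h ε (ct_le _) (ct_le _) (ct_le _))).trans ?_
    rw [Finset.sum_const, Finset.card_univ, Fintype.card_fun, Fintype.card_fin, Fintype.card_fin,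
      nsmul_eq_mul]
    push_cast
    exact le_rfl
  · rw [norm_zero]; positivity

theorem card_St (r N : ℕ) : (Fintype.card (St r N) : ℝ) ≤ ((N : ℝ) + 1) ^ (r + 1) := by
  have h1 : Fintype.card (St r N) ≤ Fintype.card (Fin (r + 1) → Fin (N + 1)) :=
    Fintype.card_subtype_le _
  rw [Fintype.card_fun, Fintype.card_fin, Fintype.card_fin] at h1
  exact_mod_cast h1

theorem xc_row {r N : ℕ} {v : ℂ} {G : ℝ} (h : GB (2 * N) v G) (ε : ℤ)
    (p : St r N × St r N) :
    ∑ q, ‖xc r N ε v p q‖ ≤ ((N : ℝ) + 1) ^ (3 * (r + 1)) * G ^ (2 * (r + 1)) := by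
  have hG0 : 0 ≤ G := by linarith [h.2.1]
  refine (Finset.sum_le_sum (fun q _ => xc_le h ε p q)).trans ?_
  rw [Finset.sum_const, Finset.card_univ, Fintype.card_prod, nsmul_eq_mul]
  push_cast
  have h1 := card_St r N
  have h0 : (0 : ℝ) ≤ Fintype.card (St r N) := Nat.cast_nonneg _
  calc (Fintype.card (St r N) : ℝ) * Fintype.card (St r N) *
        (((N : ℝ) + 1) ^ (r + 1) * G ^ (2 * (r + 1)))
      ≤ (((N : ℝ) + 1) ^ (r + 1) * ((N : ℝ) + 1) ^ (r + 1)) *
        (((N : ℝ) + 1) ^ (r + 1) * G ^ (2 * (r + 1))) := by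
        apply mul_le_mul_of_nonneg_right _ (by positivity)
        exact mul_le_mul h1 h1 h0 (by positivity)
    _ = _ := by ring

/-- the bound for the invariant -/
theorem jc_le {r N : ℕ} {v : ℂ} {G : ℝ} (h : GB (2 * N) v G) (b : ℕ) (w : List (ℕ × Bool)) :
    ‖jc r N b w v‖ ≤ ((N : ℝ) + 1) ^ ((r + 1) * (b + 3 * w.length)) *
      G ^ (2 * (r + 1) * w.length) := by
  have hG1 := h.2.1
  have hN1 : (1 : ℝ) ≤ (N : ℝ) + 1 := by
    have : (0 : ℝ) ≤ N := Nat.cast_nonneg N
    linarith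
  set B : ℝ := ((N : ℝ) + 1) ^ (3 * (r + 1)) * G ^ (2 * (r + 1)) with hB
  have hB1 : 1 ≤ B := by
    rw [hB]
    exact one_le_mul_of_one_le_of_one_le (one_le_pow₀ hN1) (one_le_pow₀ hG1)
  unfold jc tail
  refine (norm_sum_le _ _).trans ?_
  calc ∑ s : Fin b → St r N,
        ‖(∏ x, v ^ (∑ i : Fin (r + 1), (2 * (i : ℤ) - r) * (ct (s x) i : ℤ))) *
        rep (xc r N 1 v) (xc r N (-1) v) (b + 1) w (Fin.cons (top r N) s)
          (Fin.cons (top r N) s)‖ ≤
        ∑ s : Fin b → St r N, B ^ w.length := by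
        apply Finset.sum_le_sum
        intro s _
        rw [norm_mul, norm_prod]
        simp only [norm_zpow_one h.1]
        rw [Finset.prod_const_one, one_mul]
        refine le_trans ?_ (rep_row' hB1 (xc_row h 1) (xc_row h (-1)) (b + 1) w
          (Fin.cons (top r N) s))
        exact Finset.single_le_sum (f := fun t => ‖rep (xc r N 1 v) (xc r N (-1) v) (b + 1) w
          (Fin.cons (top r N) s) t‖) (fun t _ => norm_nonneg _) (Finset.mem_univ _)
    _ = (Fintype.card (St r N) : ℝ) ^ b * B ^ w.length := by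
        rw [Finset.sum_const, Finset.card_univ, Fintype.card_fun, Fintype.card_fin,
          nsmul_eq_mul]
        push_cast
        ring
    _ ≤ (((N : ℝ) + 1) ^ (r + 1)) ^ b * B ^ w.length := by
        apply mul_le_mul_of_nonneg_right _ (by positivity)
        exact pow_le_pow_left₀ (Nat.cast_nonneg _) (card_St r N) b
    _ = _ := by
        rw [hB, mul_pow, ← pow_mul, ← pow_mul, ← pow_mul, ← mul_assoc, ← pow_add]
        congr 2
        ring

/-! ### The Gaussian binomial coefficients at roots of unity -/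

theorem ga_small {v : ℂ} (hv : v ≠ 0) {R : ℕ} {D : ℝ} (hD : 0 ≤ D) (h : Fac R v D) {a : ℕ}
    (ha : a < R) (b : ℕ) : ‖ga (v ^ 2) a b‖ ≤ Real.exp (3 * D) := by
  rcases Nat.lt_or_ge a b with hab | hab
  · rw [ga_of_lt _ a b hab, norm_zero]; exact (Real.exp_pos _).le
  · have h1 := ga_gb (Units.mk0 v hv) a b
    rw [Units.val_pow_eq_pow_val, Units.val_mk0, Units.val_zpow_eq_zpow_val, Units.val_mk0] at h1
    rw [h1, norm_mul, norm_zpow_one h.1, one_mul]
    have h2 := gb_mul hv a b hab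
    have h3 := h.inv (show b < R by omega)
    have h4 := h.inv (show a - b < R by omega)
    have h5 := (h.2 a ha).2
    have hb : brf v b ≠ 0 := by
      have := (h.2 b (by omega)).1
      have h6 := Real.exp_pos (-D)
      intro h7
      rw [h7, norm_zero] at this
      linarith
    have hab' : brf v (a - b) ≠ 0 := by
      have := (h.2 (a - b) (by omega)).1
      have h6 := Real.exp_pos (-D)
      intro h7
      rw [h7, norm_zero] at this
      linarith
    have h6 : gb (Units.mk0 v hv) a b = brf v a / (brf v b * brf v (a - b)) := by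
      rw [eq_div_iff (mul_ne_zero hb hab')]
      exact h2
    rw [h6]
    exact h.binom ha (by omega) (by omega)

theorem ga_mid {v : ℂ} {R : ℕ} (hR : 0 < R) (hv : IsPrimitiveRoot v (2 * R)) {b : ℕ}
    (hb : 0 < b) (hbR : b < R) : ga (v ^ 2) R b = 0 := by
  have hv0 : v ≠ 0 := hv.ne_zero (by omega)
  have hbr : ∀ k : ℕ, 0 < k → k < R → br v k ≠ 0 := by
    intro k hk hkR h0
    unfold br at h0
    have h1 : v ^ ((2 * k : ℕ)) = 1 := by
      have h2 : v ^ (k : ℤ) = v ^ (-(k : ℤ)) := sub_eq_zero.1 h0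
      have h3 : v ^ (k : ℤ) * v ^ (k : ℤ) = 1 := by
        nth_rewrite 2 [h2]
        rw [← zpow_add₀ hv0, add_neg_cancel, zpow_zero]
      rw [two_mul, pow_add, ← zpow_natCast v k]
      exact h3
    have h4 := hv.dvd_of_pow_eq_one _ h1
    have h5 := Nat.le_of_dvd (by omega) h4
    omega
  have h1 := ga_gb (Units.mk0 v hv0) R b
  rw [Units.val_pow_eq_pow_val, Units.val_mk0] at h1
  rw [h1]
  have h2 := gb_mul hv0 R b hbR.le
  have h3 : brf v R = 0 := by
    obtain ⟨c, rfl⟩ : ∃ c, R = c + 1 := ⟨R - 1, by omega⟩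
    rw [brf_succ]
    have : br v ((c : ℤ) + 1) = 0 := by
      unfold br
      have h4 : v ^ ((2 * (c + 1) : ℕ)) = 1 := hv.pow_eq_one
      have h5 : v ^ ((c : ℤ) + 1) * v ^ ((c : ℤ) + 1) = 1 := by
        rw [← zpow_add₀ hv0, ← h4, ← zpow_natCast]
        congr 1
        push_cast
        ring
      rw [zpow_neg, sub_eq_zero]
      exact eq_inv_of_mul_eq_one_left h5
    rw [this, mul_zero]
  rw [h3] at h2
  have h4 := brf_ne hbr hbR
  have h5 := brf_ne hbr (show R - b < R by omega)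
  rcases mul_eq_zero.1 h2 with h6 | h6
  · rw [h6, mul_zero]
  · exact absurd h6 (mul_ne_zero h4 h5)

theorem gb_root {v : ℂ} {R N : ℕ} (hR : 0 < R) (hv : IsPrimitiveRoot v (2 * R)) {D : ℝ}
    (hD : 0 ≤ D) (h : Fac R v D) (hN : N < R) : GB (2 * N) v (Real.exp (3 * D)) := by
  have hv0 : v ≠ 0 := hv.ne_zero (by omega)
  refine ⟨h.1, Real.one_le_exp (by positivity), fun a b ha => ?_⟩
  rcases Nat.lt_or_ge a R with haR | haR
  · exact ga_small hv0 hD h haR b
  · obtain ⟨x, rfl⟩ : ∃ x, a = R + x := ⟨a - R, by omega⟩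
    have ht : (v ^ 2) ^ R = 1 := by rw [← pow_mul, hv.pow_eq_one]
    rw [ga_shift ht (fun b hb hbR => ga_mid hR hv hb hbR) hR x b]
    by_cases hb : R ≤ b
    · rw [if_pos hb, ga_of_lt _ x b (by omega), zero_add]
      exact ga_small hv0 hD h (by omega) _
    · rw [if_neg hb, add_zero]
      exact ga_small hv0 hD h (by omega) _

end Pool.Agent.Q79.KU
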