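import Mathlib
import Pool.Agent.Erdos456.Mertens

set_option autoImplicit false

open Finset Filter

namespace Pool.Agent.Q79.KP

/-! ### Products of `r` primes, by the largest prime factor -/

/-- the admissible primes below `x` -/
def PP (a Q x : ℕ) : Finset ℕ := (range x).filter (fun p => p.Prime ∧ Q < p ∧ ¬ p ∣ a)

/-- the numbers `a p_1 ⋯ p_r` with admissible primes `p_1 < ⋯ < p_r < x` -/
def UU (a Q : ℕ) : ℕ → ℕ → Finset ℕ
  | 0, _ => {a}
  | (r + 1), x => (PP a Q x).biUnion (fun p => (UU a Q r p).image (fun m => m * p))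

theorem mem_UU_succ {a Q r x N : ℕ} : N ∈ UU a Q (r + 1) x ↔
    ∃ p ∈ PP a Q x, ∃ m ∈ UU a Q r p, m * p = N := by
  rw [show UU a Q (r + 1) x =
    (PP a Q x).biUnion (fun p => (UU a Q r p).image (fun m => m * p)) from rfl, Finset.mem_biUnion]
  constructor
  · rintro ⟨p, hp, h⟩
    rw [Finset.mem_image] at h
    exact ⟨p, hp, h⟩
  · rintro ⟨p, hp, h⟩
    exact ⟨p, hp, Finset.mem_image.2 h⟩

theorem mem_PP {a Q x p : ℕ} : p ∈ PP a Q x ↔ p < x ∧ p.Prime ∧ Q < p ∧ ¬ p ∣ a := by
  unfold PP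
  rw [Finset.mem_filter, Finset.mem_range]

theorem PP_mono {a Q x y : ℕ} (h : x ≤ y) : PP a Q x ⊆ PP a Q y := by
  intro p hp
  rw [mem_PP] at hp ⊢
  exact ⟨by omega, hp.2⟩

theorem UU_mono {a Q r x y : ℕ} (h : x ≤ y) : UU a Q r x ⊆ UU a Q r y := by
  cases r with
  | zero => exact subset_rfl
  | succ r =>
    intro N hN
    rw [mem_UU_succ] at hN ⊢
    obtain ⟨p, hp, m, hm, e⟩ := hN
    exact ⟨p, PP_mono h hp, m, hm, e⟩

theorem UU_pos {a Q : ℕ} (ha : 0 < a) : ∀ r x m : ℕ, m ∈ UU a Q r x → 0 < m := by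
  intro r
  induction r with
  | zero => intro x m hm; unfold UU at hm; rw [Finset.mem_singleton] at hm; omega
  | succ r ih =>
    intro x m hm
    rw [mem_UU_succ] at hm
    obtain ⟨p, hp, m', hm', e⟩ := hm
    rw [mem_PP] at hp
    rw [← e]
    exact Nat.mul_pos (ih p m' hm') hp.2.1.pos

theorem UU_le {a Q : ℕ} : ∀ r x m : ℕ, m ∈ UU a Q r x → m ≤ a * x ^ r := by
  intro r
  induction r with
  | zero => intro x m hm; unfold UU at hm; rw [Finset.mem_singleton] at hm; simp [hm]
  | succ r ih =>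
    intro x m hm
    rw [mem_UU_succ] at hm
    obtain ⟨p, hp, m', hm', e⟩ := hm
    rw [mem_PP] at hp
    have h1 := ih p m' hm'
    have h2 : p ^ r ≤ x ^ r := Nat.pow_le_pow_left hp.1.le r
    calc m = m' * p := e.symm
      _ ≤ (a * p ^ r) * p := Nat.mul_le_mul_right _ h1
      _ ≤ (a * x ^ r) * x := Nat.mul_le_mul (Nat.mul_le_mul_left _ h2) hp.1.le
      _ = a * x ^ (r + 1) := by ring

theorem UU_prime {a Q : ℕ} : ∀ r x m q : ℕ, m ∈ UU a Q r x → q.Prime → q ∣ m → q ∣ a ∨ q < x := by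
  intro r
  induction r with
  | zero =>
    intro x m q hm _ h; unfold UU at hm; rw [Finset.mem_singleton] at hm
    left; rwa [hm] at h
  | succ r ih =>
    intro x m q hm hq h
    rw [mem_UU_succ] at hm
    obtain ⟨p, hp, m', hm', e⟩ := hm
    rw [mem_PP] at hp
    rw [← e, hq.dvd_mul] at h
    rcases h with h | h
    · rcases ih p m' q hm' hq h with h1 | h1
      · exact Or.inl h1
      · exact Or.inr (by omega)
    · right
      rw [Nat.prime_dvd_prime_iff_eq hq hp.2.1] at h
      omega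

theorem not_dvd_of_mem {a Q r p m : ℕ} (hp : p.Prime) (hpa : ¬ p ∣ a) (hm : m ∈ UU a Q r p) :
    ¬ p ∣ m := by
  intro h
  rcases UU_prime r p m p hm hp h with h1 | h1
  · exact hpa h1
  · omega

/-- the sum of the reciprocals of the admissible primes -/
noncomputable def AA (a Q x : ℕ) : ℝ := ∑ p ∈ PP a Q x, (1 : ℝ) / p

noncomputable def ff (a Q r x : ℕ) : ℝ := ∑ m ∈ UU a Q r x, (1 : ℝ) / m

theorem AA_nonneg (a Q x : ℕ) : 0 ≤ AA a Q x := Finset.sum_nonneg (fun _ _ => by positivity)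

theorem AA_mono {a Q x y : ℕ} (h : x ≤ y) : AA a Q x ≤ AA a Q y :=
  Finset.sum_le_sum_of_subset_of_nonneg (PP_mono h) (fun _ _ _ => by positivity)

theorem ff_nonneg (a Q r x : ℕ) : 0 ≤ ff a Q r x := Finset.sum_nonneg (fun _ _ => by positivity)

theorem ff_mono {a Q r x y : ℕ} (h : x ≤ y) : ff a Q r x ≤ ff a Q r y :=
  Finset.sum_le_sum_of_subset_of_nonneg (UU_mono h) (fun _ _ _ => by positivity)

/-- decomposition of sums over the numbers with `r + 1` primes -/
theorem sum_UU {a Q : ℕ} (r x : ℕ) (g : ℕ → ℝ) :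
    ∑ N ∈ UU a Q (r + 1) x, g N = ∑ p ∈ PP a Q x, ∑ m ∈ UU a Q r p, g (m * p) := by
  have e : UU a Q (r + 1) x = (PP a Q x).biUnion (fun p => (UU a Q r p).image (fun m => m * p)) := by
    rw [UU]
  rw [e, Finset.sum_biUnion]
  · apply Finset.sum_congr rfl
    intro p hp
    rw [mem_PP] at hp
    rw [Finset.sum_image]
    intro m _ m' _ h
    exact Nat.eq_of_mul_eq_mul_right hp.2.1.pos h
  · have key : ∀ p ∈ PP a Q x, ∀ q ∈ PP a Q x, p < q →
        Disjoint ((UU a Q r p).image (fun m => m * p)) ((UU a Q r q).image (fun m => m * q)) := by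
      intro p hp q hq hlt
      rw [mem_PP] at hp hq
      rw [Finset.disjoint_left]
      intro N h1 h2
      rw [Finset.mem_image] at h1 h2
      obtain ⟨m, hm, e1⟩ := h1
      obtain ⟨m', hm', e2⟩ := h2
      have h3 : q ∣ m * p := by
        have : m * p = m' * q := by
          have e1' : m * p = N := e1
          have e2' : m' * q = N := e2
          rw [e1', e2']
        rw [this]; exact Dvd.intro_left _ rfl
      rw [hq.2.1.dvd_mul] at h3
      rcases h3 with h3 | h3
      · rcases UU_prime r p m q hm hq.2.1 h3 with h4 | h4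
        · exact hq.2.2.2 h4
        · omega
      · rw [Nat.prime_dvd_prime_iff_eq hq.2.1 hp.2.1] at h3
        omega
    intro p hp q hq hne
    rcases lt_or_gt_of_ne hne with h | h
    · exact key p hp q hq h
    · exact (key q hq p hp h).symm

theorem ff_succ (a Q r x : ℕ) : ff a Q (r + 1) x = ∑ p ∈ PP a Q x, (1 : ℝ) / p * ff a Q r p := by
  unfold ff
  rw [sum_UU]
  apply Finset.sum_congr rfl
  intro p _
  rw [Finset.mul_sum]
  apply Finset.sum_congr rfl
  intro m _
  push_cast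
  rw [one_div_mul_one_div, mul_comm]

theorem ff_zero (a Q x : ℕ) : ff a Q 0 x = 1 / a := by
  unfold ff UU
  rw [Finset.sum_singleton]

theorem ff_le {a Q : ℕ} (ha : 0 < a) : ∀ r x : ℕ, ff a Q r x ≤ AA a Q x ^ r := by
  intro r
  induction r with
  | zero =>
    intro x
    rw [ff_zero, pow_zero, div_le_one (by exact_mod_cast ha)]
    exact_mod_cast ha
  | succ r ih =>
    intro x
    rw [ff_succ, pow_succ, mul_comm]
    unfold AA
    rw [Finset.sum_mul]
    apply Finset.sum_le_sum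
    intro p hp
    apply mul_le_mul_of_nonneg_left _ (by positivity)
    refine (ih p).trans ?_
    rw [mem_PP] at hp
    exact pow_le_pow_left₀ (AA_nonneg _ _ _) (AA_mono hp.1.le) r

end Pool.Agent.Q79.KP
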