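import Mathlib
import Pool.Agent.Q79.KpA

set_option autoImplicit false

open Finset

namespace Pool.Agent.Q79.KP

theorem sum_erase_ge (S : Finset ℕ) (y : ℕ) :
    ∑ p ∈ S, (1 : ℝ) / p ≤ ∑ p ∈ S.erase y, (1 : ℝ) / p + 1 := by
  by_cases hy' : y ∈ S
  · rw [← Finset.add_sum_erase S _ hy']
    have : (1 : ℝ) / y ≤ 1 := by
      rcases Nat.eq_zero_or_pos y with h | h
      · subst h; simp
      · rw [div_le_one (by exact_mod_cast h)]
        exact_mod_cast h
    linarith
  · rw [Finset.erase_eq_of_notMem hy']; linarith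

/-- Mertens for blocks -/
theorem block : ∃ C : ℝ, 0 ≤ C ∧ ∀ y K : ℕ, 2 ≤ y → 1 ≤ K → ∀ S : Finset ℕ,
    (∀ p ∈ S, p.Prime ∧ y ≤ p ∧ p ≤ y ^ K) → ∑ p ∈ S, (1 : ℝ) / p ≤ C + Real.log K := by
  obtain ⟨C, hC⟩ := Pool.Agent.Erdos456.Mert.mertens_inv
  have hC0 : 0 ≤ C := (abs_nonneg _).trans (hC 3 le_rfl)
  have key : ∀ y K : ℕ, 3 ≤ y → 1 ≤ K → ∀ S : Finset ℕ,
      (∀ p ∈ S, p.Prime ∧ y ≤ p ∧ p ≤ y ^ K) →
      ∑ p ∈ S, (1 : ℝ) / p ≤ 2 * C + 1 + Real.log K := by
    intro y K hy hK S hS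
    have h1 := abs_le.1 (hC y hy)
    have hyK : y ≤ y ^ K := Nat.le_self_pow (by omega) y
    have h2 := abs_le.1 (hC (y ^ K) (by omega))
    have hsub : (S.erase y) ∪ (Finset.Icc 1 y).filter Nat.Prime ⊆
        (Finset.Icc 1 (y ^ K)).filter Nat.Prime := by
      intro p hp
      rw [Finset.mem_union, Finset.mem_erase, Finset.mem_filter, Finset.mem_Icc] at hp
      rw [Finset.mem_filter, Finset.mem_Icc]
      rcases hp with ⟨_, hp⟩ | hp
      · obtain ⟨h3, h4, h5⟩ := hS p hp
        exact ⟨⟨h3.one_lt.le, h5⟩, h3⟩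
      · exact ⟨⟨hp.1.1, by omega⟩, hp.2⟩
    have hdisj : Disjoint (S.erase y) ((Finset.Icc 1 y).filter Nat.Prime) := by
      rw [Finset.disjoint_left]
      intro p hp hq
      rw [Finset.mem_erase] at hp
      rw [Finset.mem_filter, Finset.mem_Icc] at hq
      have := (hS p hp.2).2.1
      omega
    have h3 := Finset.sum_le_sum_of_subset_of_nonneg hsub (f := fun p : ℕ => (1 : ℝ) / p)
      (fun _ _ _ => by positivity)
    rw [Finset.sum_union hdisj] at h3
    have h4 := sum_erase_ge S y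
    have h5 : Real.log (Real.log ((y ^ K : ℕ) : ℝ)) = Real.log K + Real.log (Real.log y) := by
      push_cast
      rw [Real.log_pow, Real.log_mul]
      · have : 0 < K := hK
        positivity
      · exact (Real.log_pos (by exact_mod_cast (by omega : 1 < y))).ne'
    rw [h5] at h2
    linarith [h1.1, h2.2]
  refine ⟨2 * C + 2, by positivity, fun y K hy hK S hS => ?_⟩
  rcases Nat.lt_or_ge y 3 with h | h
  · have : y = 2 := by omega
    subst this
    have h1 := key 3 K le_rfl hK (S.erase 2) (by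
      intro p hp
      rw [Finset.mem_erase] at hp
      obtain ⟨h3, h4, h5⟩ := hS p hp.2
      exact ⟨h3, by omega, h5.trans (Nat.pow_le_pow_left (by norm_num) K)⟩)
    have h4 := sum_erase_ge S 2
    linarith
  · linarith [key y K h hK S hS]

/-- the sum over the exceptional primes of `m` -/
theorem exc : ∃ C : ℝ, 0 ≤ C ∧ ∀ (a r m : ℕ) (E : Finset ℕ) (B : ℝ), 0 < a → 0 < m → 0 ≤ B →
    (E.card : ℝ) ≤ B * (m : ℝ) ^ 2 → (∀ p ∈ E, p.Prime ∧ m ≤ a * p ^ r) →
    ∑ p ∈ E, (1 : ℝ) / p ≤ C + Real.log ((2 * r + 2 * a : ℕ) : ℝ) + B := by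
  obtain ⟨C, hC0, hC⟩ := block
  refine ⟨C, hC0, fun a r m E B ha hm hB hcard hE => ?_⟩
  rw [← Finset.sum_filter_add_sum_filter_not E (fun p => p ≤ m ^ 2)]
  have h2 : ∑ p ∈ E.filter (fun p => ¬ p ≤ m ^ 2), (1 : ℝ) / p ≤ B := by
    have hm2 : (0 : ℝ) < (m : ℝ) ^ 2 := by
      have : (0 : ℝ) < m := by exact_mod_cast hm
      positivity
    calc ∑ p ∈ E.filter (fun p => ¬ p ≤ m ^ 2), (1 : ℝ) / p
        ≤ ∑ p ∈ E.filter (fun p => ¬ p ≤ m ^ 2), (1 : ℝ) / (m : ℝ) ^ 2 := by
          apply Finset.sum_le_sum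
          intro p hp
          rw [Finset.mem_filter, not_le] at hp
          apply one_div_le_one_div_of_le hm2
          exact_mod_cast hp.2.le
      _ = ((E.filter (fun p => ¬ p ≤ m ^ 2)).card : ℝ) * (1 / (m : ℝ) ^ 2) := by
          rw [Finset.sum_const, nsmul_eq_mul]
      _ ≤ (E.card : ℝ) * (1 / (m : ℝ) ^ 2) := by
          apply mul_le_mul_of_nonneg_right _ (by positivity)
          exact_mod_cast Finset.card_filter_le _ _
      _ ≤ (B * (m : ℝ) ^ 2) * (1 / (m : ℝ) ^ 2) :=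
          mul_le_mul_of_nonneg_right hcard (by positivity)
      _ = B := by field_simp
  have h1 : ∑ p ∈ E.filter (fun p => p ≤ m ^ 2), (1 : ℝ) / p ≤
      C + Real.log ((2 * r + 2 * a : ℕ) : ℝ) := by
    rcases (E.filter (fun p => p ≤ m ^ 2)).eq_empty_or_nonempty with h | h
    · rw [h, Finset.sum_empty]
      have : 0 ≤ Real.log ((2 * r + 2 * a : ℕ) : ℝ) := Real.log_natCast_nonneg _
      positivity
    · obtain ⟨p₀, hp₀, hmin⟩ := Finset.exists_min_image _ (fun p => p) h
      rw [Finset.mem_filter] at hp₀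
      have hp0 := hE p₀ hp₀.1
      apply hC p₀ _ hp0.1.two_le (by omega)
      intro p hp
      have hp' := hp
      rw [Finset.mem_filter] at hp'
      refine ⟨(hE p hp'.1).1, hmin p hp, hp'.2.trans ?_⟩
      have ha2 : a ≤ p₀ ^ a := (Nat.lt_pow_self hp0.1.one_lt).le
      calc m ^ 2 ≤ (p₀ ^ a * p₀ ^ r) ^ 2 :=
            Nat.pow_le_pow_left (hp0.2.trans (Nat.mul_le_mul_right _ ha2)) 2
        _ = p₀ ^ (2 * r + 2 * a) := by rw [← pow_add, ← pow_mul]; congr 1; ring
  linarith

section bad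

variable {a Q : ℕ} (Good : ℕ → Prop) [DecidablePred Good]

/-- the sum of the reciprocals of the bad numbers -/
noncomputable def bb (a Q : ℕ) (Good : ℕ → Prop) [DecidablePred Good] (r x : ℕ) : ℝ :=
  ∑ N ∈ UU a Q r x, if Good N then 0 else (1 : ℝ) / N

theorem bb_succ {D : ℝ} (hD : 0 ≤ D) (ha : 0 < a) (E : ℕ → Finset ℕ) (r : ℕ)
    (hE : ∀ m, 0 < m → Good m → ∀ S ⊆ E m, (∀ p ∈ S, p.Prime ∧ m ≤ a * p ^ r) →
      ∑ p ∈ S, (1 : ℝ) / p ≤ D)
    (hgood : ∀ m p, 0 < m → Good m → p.Prime → ¬ p ∣ m → p ∉ E m → Good (m * p)) (x : ℕ) :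
    bb a Q Good (r + 1) x ≤ ∑ p ∈ PP a Q x, (1 : ℝ) / p * bb a Q Good r p + D * ff a Q r x := by
  unfold bb
  rw [sum_UU]
  have h1 : ∑ p ∈ PP a Q x, ∑ m ∈ UU a Q r p,
      (if Good (m * p) then 0 else (1 : ℝ) / ((m * p : ℕ) : ℝ)) ≤
      ∑ p ∈ PP a Q x, ∑ m ∈ UU a Q r p, ((1 : ℝ) / p * (if Good m then 0 else (1 : ℝ) / m) +
        (if Good m ∧ p ∈ E m then (1 : ℝ) / m * (1 / p) else 0)) := by
    apply Finset.sum_le_sum
    intro p hp
    apply Finset.sum_le_sum
    intro m hm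
    rw [mem_PP] at hp
    have hm0 := UU_pos ha r p m hm
    have hd := not_dvd_of_mem hp.2.1 hp.2.2.2 hm
    have e : (1 : ℝ) / ((m * p : ℕ) : ℝ) = 1 / m * (1 / p) := by
      push_cast; rw [one_div_mul_one_div]
    by_cases hg : Good (m * p)
    · rw [if_pos hg]
      have : (0 : ℝ) ≤ if Good m then 0 else (1 : ℝ) / m := by split_ifs <;> positivity
      have : (0 : ℝ) ≤ if Good m ∧ p ∈ E m then (1 : ℝ) / m * (1 / p) else 0 := by
        split_ifs <;> positivity
      positivity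
    · rw [if_neg hg, e]
      by_cases hg2 : Good m
      · have hpE : p ∈ E m := by
          by_contra hc
          exact hg (hgood m p hm0 hg2 hp.2.1 hd hc)
        rw [if_pos hg2, if_pos ⟨hg2, hpE⟩]
        linarith
      · rw [if_neg hg2, if_neg (fun h => hg2 h.1)]
        linarith
  refine h1.trans ?_
  simp only [Finset.sum_add_distrib]
  have h2 : ∑ p ∈ PP a Q x, ∑ m ∈ UU a Q r p, (1 : ℝ) / p * (if Good m then 0 else (1 : ℝ) / m) =
      ∑ p ∈ PP a Q x, (1 : ℝ) / p * ∑ N ∈ UU a Q r p, (if Good N then 0 else (1 : ℝ) / N) :=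
    Finset.sum_congr rfl (fun p _ => by rw [Finset.mul_sum])
  rw [h2]
  have h3 : ∑ p ∈ PP a Q x, ∑ m ∈ UU a Q r p,
      (if Good m ∧ p ∈ E m then (1 : ℝ) / m * (1 / p) else 0) ≤ D * ff a Q r x := by
    calc ∑ p ∈ PP a Q x, ∑ m ∈ UU a Q r p,
          (if Good m ∧ p ∈ E m then (1 : ℝ) / m * (1 / p) else 0)
        ≤ ∑ p ∈ PP a Q x, ∑ m ∈ UU a Q r x,
          (if m ∈ UU a Q r p ∧ Good m ∧ p ∈ E m then (1 : ℝ) / m * (1 / p) else 0) := by
          apply Finset.sum_le_sum
          intro p hp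
          rw [mem_PP] at hp
          calc ∑ m ∈ UU a Q r p, (if Good m ∧ p ∈ E m then (1 : ℝ) / m * (1 / p) else 0)
              = ∑ m ∈ UU a Q r p,
                (if m ∈ UU a Q r p ∧ Good m ∧ p ∈ E m then (1 : ℝ) / m * (1 / p) else 0) := by
                apply Finset.sum_congr rfl
                intro m hm
                simp only [hm, true_and]
            _ ≤ _ := by
                apply Finset.sum_le_sum_of_subset_of_nonneg (UU_mono hp.1.le)
                intro m _ _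
                split_ifs <;> positivity
      _ = ∑ m ∈ UU a Q r x, ∑ p ∈ PP a Q x,
          (if m ∈ UU a Q r p ∧ Good m ∧ p ∈ E m then (1 : ℝ) / m * (1 / p) else 0) :=
          Finset.sum_comm
      _ ≤ ∑ m ∈ UU a Q r x, D * (1 / m) := by
          apply Finset.sum_le_sum
          intro m hm
          rw [← Finset.sum_filter, ← Finset.mul_sum, mul_comm D]
          apply mul_le_mul_of_nonneg_left _ (by positivity)
          by_cases hg : Good m
          · apply hE m (UU_pos ha r x m hm) hg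
            · intro p hp
              rw [Finset.mem_filter] at hp
              exact hp.2.2.2
            · intro p hp
              rw [Finset.mem_filter, mem_PP] at hp
              exact ⟨hp.1.2.1, UU_le r p m hp.2.1⟩
          · rw [Finset.filter_false_of_mem, Finset.sum_empty]
            · exact hD
            · intro p _ h
              exact hg h.2.1
      _ = D * ff a Q r x := by
          unfold ff
          rw [Finset.mul_sum]
  linarith

theorem bad_le (ha : 0 < a) (hGa : Good a) {B : ℝ} (hB : 0 ≤ B) (E : ℕ → Finset ℕ)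
    (hcard : ∀ m, 0 < m → Good m → ((E m).card : ℝ) ≤ B * (m : ℝ) ^ 2)
    (hgood : ∀ m p, 0 < m → Good m → p.Prime → ¬ p ∣ m → p ∉ E m → Good (m * p)) :
    ∀ r : ℕ, ∃ D : ℝ, 0 ≤ D ∧ ∀ x, bb a Q Good (r + 1) x ≤ D * AA a Q x ^ r := by
  obtain ⟨C, hC0, hC⟩ := exc
  have hstep : ∀ r : ℕ, ∀ x, bb a Q Good (r + 1) x ≤
      ∑ p ∈ PP a Q x, (1 : ℝ) / p * bb a Q Good r p +
        (C + Real.log ((2 * r + 2 * a : ℕ) : ℝ) + B) * ff a Q r x := by
    intro r x
    have hl : 0 ≤ Real.log ((2 * r + 2 * a : ℕ) : ℝ) := Real.log_natCast_nonneg _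
    apply bb_succ Good (by positivity) ha E r _ hgood
    intro m hm hg S hS hp
    apply hC a r m S B ha hm hB _ hp
    refine le_trans ?_ (hcard m hm hg)
    exact_mod_cast Finset.card_le_card hS
  intro r
  induction r with
  | zero =>
    refine ⟨C + Real.log ((2 * 0 + 2 * a : ℕ) : ℝ) + B, ?_, fun x => ?_⟩
    · have hl : 0 ≤ Real.log ((2 * 0 + 2 * a : ℕ) : ℝ) := Real.log_natCast_nonneg _
      positivity
    · have h := hstep 0 x
      have h0 : ∀ p, bb a Q Good 0 p = 0 := by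
        intro p
        unfold bb UU
        rw [Finset.sum_singleton, if_pos hGa]
      have h1 : ∑ p ∈ PP a Q x, (1 : ℝ) / p * bb a Q Good 0 p = 0 :=
        Finset.sum_eq_zero (fun p _ => by rw [h0, mul_zero])
      refine h.trans ?_
      rw [h1, pow_zero]
      have hl : 0 ≤ Real.log ((2 * 0 + 2 * a : ℕ) : ℝ) := Real.log_natCast_nonneg _
      have h2 := ff_le (Q := Q) ha 0 x
      rw [pow_zero] at h2
      have h3 : 0 ≤ C + Real.log ((2 * 0 + 2 * a : ℕ) : ℝ) + B := by positivity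
      have h4 := mul_le_mul_of_nonneg_left h2 h3
      linarith
  | succ r ih =>
    obtain ⟨D, hD, hx⟩ := ih
    have hl : 0 ≤ Real.log ((2 * (r + 1) + 2 * a : ℕ) : ℝ) := Real.log_natCast_nonneg _
    refine ⟨D + (C + Real.log ((2 * (r + 1) + 2 * a : ℕ) : ℝ) + B), by positivity, fun x => ?_⟩
    refine (hstep (r + 1) x).trans ?_
    rw [add_mul D]
    apply add_le_add
    · calc ∑ p ∈ PP a Q x, (1 : ℝ) / p * bb a Q Good (r + 1) p
          ≤ ∑ p ∈ PP a Q x, (1 : ℝ) / p * (D * AA a Q x ^ r) := by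
            apply Finset.sum_le_sum
            intro p hp
            rw [mem_PP] at hp
            apply mul_le_mul_of_nonneg_left _ (by positivity)
            refine (hx p).trans ?_
            apply mul_le_mul_of_nonneg_left _ hD
            exact pow_le_pow_left₀ (AA_nonneg _ _ _) (AA_mono hp.1.le) r
        _ = D * AA a Q x ^ (r + 1) := by
            rw [← Finset.sum_mul, pow_succ]
            change AA a Q x * _ = _
            ring
    · apply mul_le_mul_of_nonneg_left _ (by positivity)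
      exact ff_le ha (r + 1) x

end bad

theorem AA_succ_le (a Q y : ℕ) : AA a Q (y + 1) ≤ AA a Q y + 1 := by
  unfold AA
  refine (sum_erase_ge (PP a Q (y + 1)) y).trans ?_
  apply add_le_add_left
  apply Finset.sum_le_sum_of_subset_of_nonneg
  · intro p hp
    rw [Finset.mem_erase, mem_PP] at hp
    rw [mem_PP]
    exact ⟨by omega, hp.2.2⟩
  · intro _ _ _; positivity

theorem ff_ge {a Q : ℕ} (ha : 0 < a) : ∀ r : ℕ, ∃ c A₀ : ℝ, 0 < c ∧ 0 ≤ A₀ ∧
    ∀ x, A₀ ≤ AA a Q x → c * AA a Q x ^ r ≤ ff a Q r x := by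
  intro r
  induction r with
  | zero =>
    have : (0 : ℝ) < a := by exact_mod_cast ha
    refine ⟨1 / a, 0, by positivity, le_rfl, fun x _ => ?_⟩
    rw [ff_zero, pow_zero, mul_one]
  | succ r ih =>
    obtain ⟨c, A₀, hc, hA₀, h⟩ := ih
    refine ⟨c / 2 ^ r / 4, max (2 * A₀) 4, by positivity, by positivity, fun x hx => ?_⟩
    have hx1 : 2 * A₀ ≤ AA a Q x := (le_max_left _ _).trans hx
    have hx2 : 4 ≤ AA a Q x := (le_max_right _ _).trans hx
    have hex : ∃ y, AA a Q x / 2 ≤ AA a Q y := ⟨x, by linarith⟩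
    classical
    have hy := Nat.find_spec hex
    have hyx : Nat.find hex ≤ x := Nat.find_le (by linarith : AA a Q x / 2 ≤ AA a Q x)
    have hmin := fun z => Nat.find_min (m := z) hex
    set y := Nat.find hex with hydef
    have hyu : AA a Q y ≤ AA a Q x / 2 + 1 := by
      rcases Nat.eq_zero_or_pos y with h0 | h0
      · rw [h0]
        have : AA a Q 0 = 0 := by unfold AA PP; simp
        rw [this]; linarith
      · obtain ⟨z, hz⟩ : ∃ z, y = z + 1 := ⟨y - 1, by omega⟩
        have h1 := hmin z (by omega)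
        rw [not_le] at h1
        rw [hz]
        linarith [AA_succ_le a Q z]
    have h1 := h y (by linarith)
    have h2 : (AA a Q x - AA a Q y) * ff a Q r y ≤ ff a Q (r + 1) x := by
      rw [ff_succ]
      have hs : PP a Q y ⊆ PP a Q x := PP_mono hyx
      have e : AA a Q x - AA a Q y = ∑ p ∈ PP a Q x \ PP a Q y, (1 : ℝ) / p := by
        unfold AA
        rw [← Finset.sum_sdiff hs]
        ring
      rw [e, Finset.sum_mul]
      refine le_trans (Finset.sum_le_sum (g := fun p => (1 : ℝ) / p * ff a Q r p) ?_)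
        (Finset.sum_le_sum_of_subset_of_nonneg Finset.sdiff_subset ?_)
      · intro p hp
        rw [Finset.mem_sdiff, mem_PP, mem_PP] at hp
        apply mul_le_mul_of_nonneg_left _ (by positivity)
        apply ff_mono
        by_contra hlt
        exact hp.2 ⟨by omega, hp.1.2⟩
      · intro p _ _
        exact mul_nonneg (by positivity) (ff_nonneg _ _ _ _)
    refine le_trans ?_ h2
    have h3 : AA a Q x / 4 ≤ AA a Q x - AA a Q y := by linarith
    have h4 : c * (AA a Q x / 2) ^ r ≤ ff a Q r y := by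
      refine le_trans ?_ h1
      apply mul_le_mul_of_nonneg_left _ hc.le
      exact pow_le_pow_left₀ (by linarith) hy r
    calc c / 2 ^ r / 4 * AA a Q x ^ (r + 1) = (AA a Q x / 4) * (c * (AA a Q x / 2) ^ r) := by
          rw [div_pow, pow_succ]; ring
      _ ≤ (AA a Q x - AA a Q y) * ff a Q r y := by
          apply mul_le_mul h3 h4 (by positivity) (by linarith)

end Pool.Agent.Q79.KP
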