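import Mathlib
import Pool.Agent.Q79.KpB

set_option autoImplicit false

open Finset

namespace Pool.Agent.Q79.KP

/-- the levels `N ≤ x` of the form `a p_1 ⋯ p_r` -/
noncomputable def lev (a Q r x : ℕ) : Finset ℕ := by
  classical exact (Finset.Icc 1 x).filter (fun N => ∃ m, N = a * m ∧ Squarefree m ∧
    m.primeFactors.card = r ∧ ∀ p ∈ m.primeFactors, Q < p ∧ ¬ p ∣ a)

theorem mem_lev {a Q r x N : ℕ} : N ∈ lev a Q r x ↔ (1 ≤ N ∧ N ≤ x) ∧ ∃ m, N = a * m ∧
    Squarefree m ∧ m.primeFactors.card = r ∧ ∀ p ∈ m.primeFactors, Q < p ∧ ¬ p ∣ a := by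
  classical
  unfold lev
  rw [Finset.mem_filter, Finset.mem_Icc]

theorem UU_of {a Q : ℕ} : ∀ r m y : ℕ, Squarefree m → m.primeFactors.card = r →
    (∀ p ∈ m.primeFactors, p < y ∧ Q < p ∧ ¬ p ∣ a) → a * m ∈ UU a Q r y := by
  intro r
  induction r with
  | zero =>
    intro m y hm hc _
    have : m = 1 := by
      rw [Finset.card_eq_zero, Nat.primeFactors_eq_empty] at hc
      rcases hc with h | h
      · exact absurd h hm.ne_zero
      · exact h
    unfold UU
    simp [this]
  | succ r ih =>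
    intro m y hm hc hp
    have hne : m.primeFactors.Nonempty := by rw [← Finset.card_pos]; omega
    obtain ⟨p, hpm, hmax⟩ := Finset.exists_max_image _ (fun p => p) hne
    obtain ⟨m', hm'⟩ := Nat.dvd_of_mem_primeFactors hpm
    have hpp := Nat.prime_of_mem_primeFactors hpm
    have hsq := hm
    rw [hm', Nat.squarefree_mul_iff] at hsq
    obtain ⟨hcop, -, hsq'⟩ := hsq
    have hpf : m.primeFactors = insert p m'.primeFactors := by
      rw [hm', Nat.primeFactors_mul hpp.ne_zero hsq'.ne_zero, hpp.primeFactors]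
      rfl
    have hnot : p ∉ m'.primeFactors := by
      intro h
      have := Nat.dvd_of_mem_primeFactors h
      exact (hpp.coprime_iff_not_dvd.1 hcop) this
    have hcard : m'.primeFactors.card = r := by
      rw [hpf, Finset.card_insert_of_notMem hnot] at hc
      omega
    rw [mem_UU_succ]
    refine ⟨p, mem_PP.2 ⟨(hp p hpm).1, hpp, (hp p hpm).2⟩, a * m', ?_, by rw [hm']; ring⟩
    apply ih m' p hsq' hcard
    intro q hq
    have hq' : q ∈ m.primeFactors := by rw [hpf]; exact Finset.mem_insert_of_mem hq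
    refine ⟨lt_of_le_of_ne (hmax q hq') ?_, (hp q hq').2⟩
    rintro rfl
    exact hnot hq

theorem UU_spec {a Q : ℕ} : ∀ r y N : ℕ, N ∈ UU a Q r y → ∃ m, N = a * m ∧ Squarefree m ∧
    m.primeFactors.card = r ∧ ∀ p ∈ m.primeFactors, p < y ∧ Q < p ∧ ¬ p ∣ a := by
  intro r
  induction r with
  | zero =>
    intro y N hN
    unfold UU at hN
    rw [Finset.mem_singleton] at hN
    refine ⟨1, by omega, squarefree_one, by simp, ?_⟩
    intro p hp
    simp at hp
  | succ r ih =>
    intro y N hN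
    rw [mem_UU_succ] at hN
    obtain ⟨p, hp, m, hm, e⟩ := hN
    rw [mem_PP] at hp
    obtain ⟨m', hm', hsq, hcard, hpr⟩ := ih p m hm
    have hnot : p ∉ m'.primeFactors := fun h => absurd (hpr p h).1 (lt_irrefl _)
    have hpf : (m' * p).primeFactors = insert p m'.primeFactors := by
      rw [Nat.primeFactors_mul hsq.ne_zero hp.2.1.ne_zero, hp.2.1.primeFactors, Finset.union_comm]
      rfl
    refine ⟨m' * p, by rw [← e, hm']; ring, ?_, ?_, ?_⟩
    · rw [Nat.squarefree_mul_iff]
      refine ⟨?_, hsq, hp.2.1.squarefree⟩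
      rw [Nat.coprime_comm, hp.2.1.coprime_iff_not_dvd]
      intro h
      exact hnot (Nat.mem_primeFactors.2 ⟨hp.2.1, h, hsq.ne_zero⟩)
    · rw [hpf, Finset.card_insert_of_notMem hnot, hcard]
    · intro q hq
      rw [hpf, Finset.mem_insert] at hq
      rcases hq with h | h
      · rw [h]; exact ⟨hp.1, hp.2.2⟩
      · exact ⟨(hpr q h).1.trans hp.1, (hpr q h).2⟩

theorem lev_eq {a Q : ℕ} (ha : 0 < a) (r x : ℕ) :
    lev a Q r x = (UU a Q r (x + 1)).filter (fun N => N ≤ x) := by
  ext N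
  rw [mem_lev, Finset.mem_filter]
  constructor
  · rintro ⟨⟨h1, h2⟩, m, hm, hsq, hc, hp⟩
    refine ⟨?_, h2⟩
    rw [hm]
    apply UU_of r m (x + 1) hsq hc
    intro p hpm
    refine ⟨?_, hp p hpm⟩
    have h3 : p ≤ m := Nat.le_of_mem_primeFactors hpm
    have h4 : m ≤ a * m := Nat.le_mul_of_pos_left m ha
    omega
  · rintro ⟨h1, h2⟩
    refine ⟨⟨UU_pos ha _ _ _ h1, h2⟩, ?_⟩
    obtain ⟨m, e, hsq, hc, hp⟩ := UU_spec _ _ _ h1
    exact ⟨m, e, hsq, hc, fun p h => (hp p h).2⟩

/-- Chebyshev -/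
theorem card_le_of {u : ℝ} (hu : 2 ≤ u) (S : Finset ℕ) (hS : ∀ p ∈ S, p.Prime ∧ (p : ℝ) ≤ u) :
    (S.card : ℝ) ≤ 5 * u / Real.log u := by
  have h1 : (S.card : ℝ) ≤ (Nat.primeCounting ⌊u⌋₊ : ℝ) := by
    rw [Nat.primeCounting, Nat.primeCounting', Nat.count_eq_card_filter_range]
    exact_mod_cast Finset.card_le_card (by
      intro p hp
      rw [Finset.mem_filter, Finset.mem_range]
      obtain ⟨h2, h3⟩ := hS p hp
      exact ⟨Nat.lt_succ_of_le (Nat.le_floor h3), h2⟩)
  have h2 := Chebyshev.pi_le_log4_mul_div (x := u) (by linarith)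
  have hlu : 0 < Real.log u := Real.log_pos (by linarith)
  have hu0 : 0 < u := by linarith
  have h3 : Real.log (Real.sqrt u) = Real.log u / 2 := Real.log_sqrt hu0.le
  have hs : 0 < Real.sqrt u := Real.sqrt_pos.2 hu0
  have h4 : Real.log u ≤ 2 * Real.sqrt u := by
    have := Real.log_le_sub_one_of_pos hs
    rw [h3] at this
    linarith
  have hl4 : Real.log 4 ≤ 1.4 := by
    have : Real.log 4 = 2 * Real.log 2 := by
      rw [show (4 : ℝ) = 2 ^ 2 by norm_num, Real.log_pow]; norm_num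
    rw [this]
    have := Real.log_two_lt_d9
    linarith
  have h5 : Real.sqrt u ≤ 2 * u / Real.log u := by
    rw [le_div_iff₀ hlu]
    nlinarith [Real.mul_self_sqrt hu0.le]
  rw [h3] at h2
  have h6 : Real.log 4 * u / (Real.log u / 2) ≤ 2.8 * u / Real.log u := by
    rw [div_le_div_iff₀ (by positivity) hlu]
    nlinarith [mul_pos hu0 hlu]
  have h7 : 2.8 * u / Real.log u + 2 * u / Real.log u ≤ 5 * u / Real.log u := by
    rw [← add_div]
    apply div_le_div_of_nonneg_right _ hlu.le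
    linarith
  linarith

/-- the number of the last primes -/
theorem card_Sm {a s m x : ℕ} (ha : 0 < a) (hm : 0 < m) (hx : a ^ 2 ≤ x) (S : Finset ℕ)
    (hS : ∀ p ∈ S, p.Prime ∧ m ≤ a * p ^ (s + 1) ∧ m * p ≤ x) :
    (S.card : ℝ) ≤ 10 * (s + 2) * x / Real.log x * (1 / m) := by
  rcases S.eq_empty_or_nonempty with h | ⟨p₀, hp₀⟩
  · subst h
    rw [Finset.card_empty, Nat.cast_zero]
    have := Real.log_natCast_nonneg x
    positivity
  obtain ⟨h1, h2, h3⟩ := hS p₀ hp₀
  have hmR : (0 : ℝ) < m := by exact_mod_cast hm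
  have haR : (0 : ℝ) < a := by exact_mod_cast ha
  have hp2 : (2 : ℝ) ≤ p₀ := by exact_mod_cast h1.two_le
  set u : ℝ := x / m with hu
  have hpu : ∀ p ∈ S, (p : ℝ) ≤ u := by
    intro p hp
    rw [hu, le_div_iff₀ hmR]
    have := (hS p hp).2.2
    rw [mul_comm]
    exact_mod_cast this
  have hu2 : 2 ≤ u := hp2.trans (hpu p₀ hp₀)
  have hu0 : 0 < u := by linarith
  have hc := card_le_of hu2 S (fun p hp => ⟨(hS p hp).1, hpu p hp⟩)
  have hlu : 0 < Real.log u := Real.log_pos (by linarith)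
  have hxm : (x : ℝ) = m * u := by rw [hu]; field_simp
  have hxR : (0 : ℝ) < x := by rw [hxm]; positivity
  have hxu : (x : ℝ) ≤ a * u ^ (s + 2) := by
    have h4 : (m : ℝ) ≤ a * u ^ (s + 1) := by
      calc (m : ℝ) ≤ a * (p₀ : ℝ) ^ (s + 1) := by exact_mod_cast h2
        _ ≤ a * u ^ (s + 1) := by
          apply mul_le_mul_of_nonneg_left _ haR.le
          exact pow_le_pow_left₀ (by positivity) (hpu p₀ hp₀) _
    calc (x : ℝ) = m * u := hxm
      _ ≤ (a * u ^ (s + 1)) * u := mul_le_mul_of_nonneg_right h4 hu0.le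
      _ = a * u ^ (s + 2) := by ring
  have hlog : Real.log x ≤ Real.log a + (s + 2) * Real.log u := by
    calc Real.log x ≤ Real.log (a * u ^ (s + 2)) := Real.log_le_log hxR hxu
      _ = Real.log a + (s + 2) * Real.log u := by
        rw [Real.log_mul haR.ne' (by positivity), Real.log_pow]; push_cast; ring
  have hla : 2 * Real.log a ≤ Real.log x := by
    have : Real.log ((a : ℝ) ^ 2) ≤ Real.log x := by
      apply Real.log_le_log (by positivity)
      exact_mod_cast hx
    rw [Real.log_pow] at this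
    exact_mod_cast this
  have hlx : Real.log x ≤ 2 * (s + 2) * Real.log u := by linarith
  have hlx0 : 0 < Real.log x := by
    have h2x : (2 : ℝ) ≤ x := by
      rw [hxm]
      have : (1 : ℝ) ≤ m := by exact_mod_cast hm
      nlinarith
    exact Real.log_pos (by linarith)
  calc (S.card : ℝ) ≤ 5 * u / Real.log u := hc
    _ ≤ 10 * (s + 2) * u / Real.log x := by
        rw [div_le_div_iff₀ hlu hlx0]
        nlinarith [mul_le_mul_of_nonneg_left hlx hu0.le]
    _ = 10 * (s + 2) * x / Real.log x * (1 / m) := by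
        rw [hxm]; field_simp

end Pool.Agent.Q79.KP
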