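import Mathlib
import Pool.Agent.Q79.KpC

set_option autoImplicit false

open Finset

namespace Pool.Agent.Q79.KP

theorem swap_UU {a Q : ℕ} (r x : ℕ) (g : ℕ → ℕ → ℝ) :
    ∑ p ∈ PP a Q x, ∑ m ∈ UU a Q r p, g m p =
      ∑ m ∈ UU a Q r x, ∑ p ∈ (PP a Q x).filter (fun p => m ∈ UU a Q r p), g m p := by
  apply Finset.sum_comm'
  intro p m
  rw [Finset.mem_filter]
  constructor
  · rintro ⟨h1, h2⟩
    exact ⟨⟨h1, h2⟩, UU_mono (mem_PP.1 h1).1.le h2⟩
  · rintro ⟨⟨h1, h2⟩, _⟩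
    exact ⟨h1, h2⟩

theorem small_sum {x : ℕ} (hx : 2 ≤ x) (S : Finset ℕ) (hS : ∀ m ∈ S, 0 < m ∧ m ^ 4 ≤ x) :
    ∑ m ∈ S, (m : ℝ) ^ 2 ≤ 4 * x / Real.log x := by
  set t := Nat.sqrt (Nat.sqrt x) with ht
  have hsub : S ⊆ Finset.Icc 1 t := by
    intro m hm
    obtain ⟨h1, h2⟩ := hS m hm
    rw [Finset.mem_Icc]
    refine ⟨h1, ?_⟩
    rw [ht, Nat.le_sqrt, Nat.le_sqrt]
    calc m * m * (m * m) = m ^ 4 := by ring
      _ ≤ x := h2
  have h1 : ∑ m ∈ S, (m : ℝ) ^ 2 ≤ (t : ℝ) ^ 3 := by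
    calc ∑ m ∈ S, (m : ℝ) ^ 2 ≤ ∑ m ∈ Finset.Icc 1 t, (m : ℝ) ^ 2 :=
          Finset.sum_le_sum_of_subset_of_nonneg hsub (fun _ _ _ => by positivity)
      _ ≤ ∑ m ∈ Finset.Icc 1 t, (t : ℝ) ^ 2 := by
          apply Finset.sum_le_sum
          intro m hm
          rw [Finset.mem_Icc] at hm
          have : (m : ℝ) ≤ t := by exact_mod_cast hm.2
          exact pow_le_pow_left₀ (by positivity) this 2
      _ = (t : ℝ) ^ 3 := by
          rw [Finset.sum_const, Nat.card_Icc, nsmul_eq_mul, Nat.add_sub_cancel]; ring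
  have h2 : (t : ℝ) ^ 4 ≤ x := by
    have h3 : t * t ≤ Nat.sqrt x := Nat.sqrt_le _
    have h4 : Nat.sqrt x * Nat.sqrt x ≤ x := Nat.sqrt_le _
    have h5 : t ^ 4 ≤ x := by
      calc t ^ 4 = (t * t) * (t * t) := by ring
        _ ≤ Nat.sqrt x * Nat.sqrt x := Nat.mul_le_mul h3 h3
        _ ≤ x := h4
    exact_mod_cast h5
  have h3 : (x : ℝ) ≤ ((t : ℝ) + 1) ^ 4 := by
    have h3 : Nat.sqrt x < (t + 1) * (t + 1) := Nat.lt_succ_sqrt _
    have h4 : x < (Nat.sqrt x + 1) * (Nat.sqrt x + 1) := Nat.lt_succ_sqrt _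
    have h5 : x ≤ (t + 1) ^ 4 := by
      calc x ≤ (Nat.sqrt x + 1) * (Nat.sqrt x + 1) := h4.le
        _ ≤ ((t + 1) * (t + 1)) * ((t + 1) * (t + 1)) := Nat.mul_le_mul h3 h3
        _ = (t + 1) ^ 4 := by ring
    exact_mod_cast h5
  have hx0 : (0 : ℝ) < x := by exact_mod_cast (by omega : 0 < x)
  have hlx : 0 < Real.log x := Real.log_pos (by exact_mod_cast (by omega : 1 < x))
  have h4 : Real.log x ≤ 4 * t := by
    calc Real.log x ≤ Real.log (((t : ℝ) + 1) ^ 4) := Real.log_le_log hx0 h3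
      _ = 4 * Real.log ((t : ℝ) + 1) := by rw [Real.log_pow]; norm_num
      _ ≤ 4 * t := by
        have := Real.log_le_sub_one_of_pos (x := (t : ℝ) + 1) (by positivity)
        linarith
  refine h1.trans ?_
  rw [le_div_iff₀ hlx]
  calc (t : ℝ) ^ 3 * Real.log x ≤ (t : ℝ) ^ 3 * (4 * t) :=
        mul_le_mul_of_nonneg_left h4 (by positivity)
    _ = 4 * (t : ℝ) ^ 4 := by ring
    _ ≤ 4 * x := by linarith

theorem tail_sum {a : ℕ} (ha : 0 < a) (Q s : ℕ) : ∃ C : ℝ, 0 ≤ C ∧ ∀ x : ℕ,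
    ∑ m ∈ (UU a Q (s + 1) (x + 1)).filter (fun m => ¬ m ^ 4 ≤ x), (1 : ℝ) / m ≤
      C * AA a Q (x + 1) ^ s := by
  obtain ⟨C, hC0, hC⟩ := block
  refine ⟨C + Real.log ((4 * a + 4 * (s + 1) : ℕ) : ℝ), ?_, fun x => ?_⟩
  · have : 0 ≤ Real.log ((4 * a + 4 * (s + 1) : ℕ) : ℝ) := Real.log_natCast_nonneg _
    positivity
  rw [Finset.sum_filter, sum_UU]
  have h1 : ∑ p ∈ PP a Q (x + 1), ∑ m ∈ UU a Q s p,
      (if ¬ (m * p) ^ 4 ≤ x then (1 : ℝ) / ((m * p : ℕ) : ℝ) else 0) ≤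
      ∑ p ∈ (PP a Q (x + 1)).filter (fun p => x < a ^ 4 * p ^ (4 * (s + 1))),
        (1 : ℝ) / p * AA a Q (x + 1) ^ s := by
    rw [Finset.sum_filter]
    apply Finset.sum_le_sum
    intro p hp
    rw [mem_PP] at hp
    split_ifs with h
    · calc ∑ m ∈ UU a Q s p, (if ¬ (m * p) ^ 4 ≤ x then (1 : ℝ) / ((m * p : ℕ) : ℝ) else 0)
          ≤ ∑ m ∈ UU a Q s p, (1 : ℝ) / p * (1 / m) := by
            apply Finset.sum_le_sum
            intro m _
            have e : (1 : ℝ) / ((m * p : ℕ) : ℝ) = 1 / p * (1 / m) := by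
              push_cast; rw [one_div_mul_one_div, mul_comm]
            rw [e]
            split_ifs
            · positivity
            · exact le_rfl
        _ = 1 / p * ff a Q s p := by
            unfold ff
            rw [Finset.mul_sum]
        _ ≤ 1 / p * AA a Q (x + 1) ^ s := by
            apply mul_le_mul_of_nonneg_left _ (by positivity)
            exact (ff_le ha s p).trans (pow_le_pow_left₀ (AA_nonneg _ _ _) (AA_mono hp.1.le) s)
    · apply le_of_eq
      apply Finset.sum_eq_zero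
      intro m hm
      rw [if_neg]
      rw [not_not]
      rw [not_lt] at h
      refine le_trans ?_ h
      have h2 := UU_le s p m hm
      calc (m * p) ^ 4 ≤ (a * p ^ s * p) ^ 4 := Nat.pow_le_pow_left (Nat.mul_le_mul_right _ h2) 4
        _ = a ^ 4 * p ^ (4 * (s + 1)) := by ring
  refine h1.trans ?_
  rw [← Finset.sum_mul]
  apply mul_le_mul_of_nonneg_right _ (pow_nonneg (AA_nonneg _ _ _) s)
  rcases ((PP a Q (x + 1)).filter (fun p => x < a ^ 4 * p ^ (4 * (s + 1)))).eq_empty_or_nonempty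
    with h | h
  · rw [h, Finset.sum_empty]
    have : 0 ≤ Real.log ((4 * a + 4 * (s + 1) : ℕ) : ℝ) := Real.log_natCast_nonneg _
    positivity
  · obtain ⟨p₀, hp₀, hmin⟩ := Finset.exists_min_image _ (fun p => p) h
    rw [Finset.mem_filter, mem_PP] at hp₀
    apply hC p₀ _ hp₀.1.2.1.two_le (by omega)
    intro p hp
    have hp' := hp
    rw [Finset.mem_filter, mem_PP] at hp'
    refine ⟨hp'.1.2.1, hmin p hp, ?_⟩
    have ha2 : a ≤ p₀ ^ a := (Nat.lt_pow_self hp₀.1.2.1.one_lt).le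
    calc p ≤ x := by omega
      _ ≤ a ^ 4 * p₀ ^ (4 * (s + 1)) := hp₀.2.le
      _ ≤ (p₀ ^ a) ^ 4 * p₀ ^ (4 * (s + 1)) :=
          Nat.mul_le_mul_right _ (Nat.pow_le_pow_left ha2 4)
      _ = p₀ ^ (4 * a + 4 * (s + 1)) := by rw [← pow_mul, ← pow_add]; congr 1; ring

theorem count_bad {a Q : ℕ} (ha : 0 < a) (Good : ℕ → Prop) [DecidablePred Good] (hGa : Good a)
    {B : ℝ} (hB : 0 ≤ B) (E : ℕ → Finset ℕ)
    (hcard : ∀ m, 0 < m → Good m → ((E m).card : ℝ) ≤ B * (m : ℝ) ^ 2)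
    (hgood : ∀ m p, 0 < m → Good m → p.Prime → ¬ p ∣ m → p ∉ E m → Good (m * p)) (s : ℕ) :
    ∃ C : ℝ, 0 ≤ C ∧ ∀ x : ℕ, 2 ≤ x → a ^ 2 ≤ x →
      (((lev a Q (s + 2) x).filter (fun N => ¬ Good N)).card : ℝ) ≤
        C * x / Real.log x * (1 + AA a Q (x + 1)) ^ s := by
  obtain ⟨D, hD0, hD⟩ := bad_le (Q := Q) Good ha hGa hB E hcard hgood s
  obtain ⟨T, hT0, hT⟩ := tail_sum ha Q s
  refine ⟨10 * (s + 2) * D + 4 * B + 10 * (s + 2) * T, by positivity, fun x hx hax => ?_⟩
  have hlx : 0 < Real.log x := Real.log_pos (by exact_mod_cast (by omega : 1 < x))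
  set A := AA a Q (x + 1) with hA
  have hA0 : 0 ≤ A := AA_nonneg _ _ _
  set K : ℝ := 10 * (s + 2) * x / Real.log x with hK
  have hK0 : 0 ≤ K := by positivity
  have hAs : A ^ s ≤ (1 + A) ^ s := pow_le_pow_left₀ hA0 (by linarith) s
  have h1s : 1 ≤ (1 + A) ^ s := one_le_pow₀ (by linarith)
  -- the count as a sum
  have e1 : (((lev a Q (s + 2) x).filter (fun N => ¬ Good N)).card : ℝ) =
      ∑ N ∈ UU a Q (s + 1 + 1) (x + 1), (if N ≤ x ∧ ¬ Good N then (1 : ℝ) else 0) := by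
    rw [lev_eq ha, Finset.filter_filter, Finset.card_filter]
    push_cast
    rfl
  rw [e1, sum_UU]
  have h1 : ∑ p ∈ PP a Q (x + 1), ∑ m ∈ UU a Q (s + 1) p,
      (if m * p ≤ x ∧ ¬ Good (m * p) then (1 : ℝ) else 0) ≤
      ∑ p ∈ PP a Q (x + 1), ∑ m ∈ UU a Q (s + 1) p,
      ((if m * p ≤ x ∧ ¬ Good m then (1 : ℝ) else 0) +
        (if m * p ≤ x ∧ Good m ∧ p ∈ E m then (1 : ℝ) else 0)) := by
    apply Finset.sum_le_sum
    intro p hp
    apply Finset.sum_le_sum
    intro m hm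
    rw [mem_PP] at hp
    have hm0 := UU_pos ha _ p m hm
    have hd := not_dvd_of_mem hp.2.1 hp.2.2.2 hm
    by_cases hg : m * p ≤ x ∧ ¬ Good (m * p)
    · rw [if_pos hg]
      by_cases hg2 : Good m
      · have hpE : p ∈ E m := by
          by_contra hc
          exact hg.2 (hgood m p hm0 hg2 hp.2.1 hd hc)
        rw [if_pos (show m * p ≤ x ∧ Good m ∧ p ∈ E m from ⟨hg.1, hg2, hpE⟩)]
        have : (0 : ℝ) ≤ if m * p ≤ x ∧ ¬ Good m then (1 : ℝ) else 0 := by
          split_ifs <;> norm_num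
        linarith
      · rw [if_pos (show m * p ≤ x ∧ ¬ Good m from ⟨hg.1, hg2⟩)]
        have : (0 : ℝ) ≤ if m * p ≤ x ∧ Good m ∧ p ∈ E m then (1 : ℝ) else 0 := by
          split_ifs <;> norm_num
        linarith
    · rw [if_neg hg]
      have h3 : (0 : ℝ) ≤ if m * p ≤ x ∧ ¬ Good m then (1 : ℝ) else 0 := by
        split_ifs <;> norm_num
      have h4 : (0 : ℝ) ≤ if m * p ≤ x ∧ Good m ∧ p ∈ E m then (1 : ℝ) else 0 := by
        split_ifs <;> norm_num
      linarith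
  refine h1.trans ?_
  simp only [Finset.sum_add_distrib]
  -- first part
  have hcount : ∀ m ∈ UU a Q (s + 1) (x + 1), ∀ S ⊆ (PP a Q (x + 1)).filter
      (fun p => m ∈ UU a Q (s + 1) p), (∀ p ∈ S, m * p ≤ x) → (S.card : ℝ) ≤ K * (1 / m) := by
    intro m hm S hS hS2
    apply card_Sm ha (UU_pos ha _ _ m hm) hax S
    intro p hp
    have := hS hp
    rw [Finset.mem_filter, mem_PP] at this
    exact ⟨this.1.2.1, UU_le _ _ _ this.2, hS2 p hp⟩
  have h2 : ∑ p ∈ PP a Q (x + 1), ∑ m ∈ UU a Q (s + 1) p,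
      (if m * p ≤ x ∧ ¬ Good m then (1 : ℝ) else 0) ≤ K * (D * A ^ s) := by
    rw [swap_UU]
    calc ∑ m ∈ UU a Q (s + 1) (x + 1), ∑ p ∈ (PP a Q (x + 1)).filter
          (fun p => m ∈ UU a Q (s + 1) p), (if m * p ≤ x ∧ ¬ Good m then (1 : ℝ) else 0)
        ≤ ∑ m ∈ UU a Q (s + 1) (x + 1), K * (if Good m then 0 else (1 : ℝ) / m) := by
          apply Finset.sum_le_sum
          intro m hm
          rw [← Finset.sum_filter, Finset.sum_const, nsmul_eq_mul, mul_one]
          by_cases hg : Good m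
          · rw [if_pos hg, mul_zero, Finset.filter_false_of_mem, Finset.card_empty, Nat.cast_zero]
            intro p _ h
            exact h.2 hg
          · rw [if_neg hg]
            apply hcount m hm _ (Finset.filter_subset _ _)
            intro p hp
            rw [Finset.mem_filter] at hp
            exact hp.2.1
      _ = K * bb a Q Good (s + 1) (x + 1) := by
          unfold bb
          rw [Finset.mul_sum]
      _ ≤ K * (D * A ^ s) := mul_le_mul_of_nonneg_left (hD (x + 1)) hK0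
  have h3 : ∑ p ∈ PP a Q (x + 1), ∑ m ∈ UU a Q (s + 1) p,
      (if m * p ≤ x ∧ Good m ∧ p ∈ E m then (1 : ℝ) else 0) ≤
      B * (4 * x / Real.log x) + K * (T * A ^ s) := by
    rw [swap_UU]
    calc ∑ m ∈ UU a Q (s + 1) (x + 1), ∑ p ∈ (PP a Q (x + 1)).filter
          (fun p => m ∈ UU a Q (s + 1) p), (if m * p ≤ x ∧ Good m ∧ p ∈ E m then (1 : ℝ) else 0)
        ≤ ∑ m ∈ UU a Q (s + 1) (x + 1), ((if m ^ 4 ≤ x then B * (m : ℝ) ^ 2 else 0) +
            (if ¬ m ^ 4 ≤ x then K * (1 / m) else 0)) := by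
          apply Finset.sum_le_sum
          intro m hm
          rw [← Finset.sum_filter, Finset.sum_const, nsmul_eq_mul, mul_one]
          by_cases h4 : m ^ 4 ≤ x
          · rw [if_pos h4, if_neg (not_not.2 h4), add_zero]
            by_cases hg : Good m
            · refine le_trans ?_ (hcard m (UU_pos ha _ _ m hm) hg)
              have : ((PP a Q (x + 1)).filter (fun p => m ∈ UU a Q (s + 1) p)).filter
                  (fun p => m * p ≤ x ∧ Good m ∧ p ∈ E m) ⊆ E m := by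
                intro p hp
                rw [Finset.mem_filter] at hp
                exact hp.2.2.2
              exact_mod_cast Finset.card_le_card this
            · rw [Finset.filter_false_of_mem, Finset.card_empty, Nat.cast_zero]
              · positivity
              · intro p _ h
                exact hg h.2.1
          · rw [if_neg h4, if_pos h4, zero_add]
            apply hcount m hm _ (Finset.filter_subset _ _)
            intro p hp
            rw [Finset.mem_filter] at hp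
            exact hp.2.1
      _ = B * ∑ m ∈ (UU a Q (s + 1) (x + 1)).filter (fun m => m ^ 4 ≤ x), (m : ℝ) ^ 2 +
          K * ∑ m ∈ (UU a Q (s + 1) (x + 1)).filter (fun m => ¬ m ^ 4 ≤ x), (1 : ℝ) / m := by
          rw [Finset.sum_add_distrib, ← Finset.sum_filter, ← Finset.sum_filter, Finset.mul_sum,
            Finset.mul_sum]
      _ ≤ B * (4 * x / Real.log x) + K * (T * A ^ s) := by
          apply add_le_add
          · apply mul_le_mul_of_nonneg_left _ hB
            apply small_sum hx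
            intro m hm
            rw [Finset.mem_filter] at hm
            exact ⟨UU_pos ha _ _ m hm.1, hm.2⟩
          · exact mul_le_mul_of_nonneg_left (hT x) hK0
  have hL : 0 ≤ x / Real.log x := by positivity
  calc _ ≤ K * (D * A ^ s) + (B * (4 * x / Real.log x) + K * (T * A ^ s)) := add_le_add h2 h3
    _ ≤ K * (D * (1 + A) ^ s) + (B * (4 * x / Real.log x) * (1 + A) ^ s +
        K * (T * (1 + A) ^ s)) := by
        have i1 : K * (D * A ^ s) ≤ K * (D * (1 + A) ^ s) := by gcongr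
        have i2 : K * (T * A ^ s) ≤ K * (T * (1 + A) ^ s) := by gcongr
        have i3 : B * (4 * x / Real.log x) ≤ B * (4 * x / Real.log x) * (1 + A) ^ s :=
          le_mul_of_one_le_right (by positivity) h1s
        linarith
    _ = (10 * (s + 2) * D + 4 * B + 10 * (s + 2) * T) * x / Real.log x * (1 + A) ^ s := by
        rw [hK]; ring

end Pool.Agent.Q79.KP
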