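import Mathlib
import Pool.Agent.Q79.KpD

set_option autoImplicit false

open Finset Filter

namespace Pool.Agent.Q79.KP

theorem AA_upper : ∃ C : ℝ, 0 ≤ C ∧ ∀ a Q x : ℕ, 3 ≤ x →
    AA a Q (x + 1) ≤ Real.log (Real.log x) + C := by
  obtain ⟨C, hC⟩ := Pool.Agent.Erdos456.Mert.mertens_inv
  have hC0 : 0 ≤ C := (abs_nonneg _).trans (hC 3 le_rfl)
  refine ⟨C, hC0, fun a Q x hx => ?_⟩
  have h1 := (abs_le.1 (hC x hx)).2
  have h2 : AA a Q (x + 1) ≤ ∑ p ∈ (Finset.Icc 1 x).filter Nat.Prime, (1 : ℝ) / p := by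
    apply Finset.sum_le_sum_of_subset_of_nonneg
    · intro p hp
      rw [mem_PP] at hp
      rw [Finset.mem_filter, Finset.mem_Icc]
      exact ⟨⟨hp.2.1.one_lt.le, by omega⟩, hp.2.1⟩
    · intro _ _ _; positivity
  linarith

theorem AA_lower (a Q : ℕ) (ha : 0 < a) : ∃ C : ℝ, 0 ≤ C ∧ ∀ y : ℕ, 3 ≤ y →
    Real.log (Real.log y) - C ≤ AA a Q y := by
  obtain ⟨C, hC⟩ := Pool.Agent.Erdos456.Mert.mertens_inv
  have hC0 : 0 ≤ C := (abs_nonneg _).trans (hC 3 le_rfl)
  refine ⟨C + ((Q + 1 : ℕ) + (a + 1 : ℕ) : ℕ), by positivity, fun y hy => ?_⟩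
  have h1 := (abs_le.1 (hC y hy)).1
  have h2 : ∑ p ∈ (Finset.Icc 1 y).filter Nat.Prime, (1 : ℝ) / p ≤
      AA a Q y + (((Q + 1 : ℕ) + (a + 1 : ℕ) : ℕ) : ℝ) := by
    rw [← Finset.sum_filter_add_sum_filter_not ((Finset.Icc 1 y).filter Nat.Prime)
      (fun p => p ∈ PP a Q y)]
    apply add_le_add
    · apply Finset.sum_le_sum_of_subset_of_nonneg
      · intro p hp
        rw [Finset.mem_filter] at hp
        exact hp.2
      · intro _ _ _; positivity
    · have h3 : ((Finset.Icc 1 y).filter Nat.Prime).filter (fun p => ¬ p ∈ PP a Q y) ⊆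
          range (Q + 1) ∪ (a.divisors ∪ {y}) := by
        intro p hp
        rw [Finset.mem_filter, Finset.mem_filter, Finset.mem_Icc, mem_PP] at hp
        rw [Finset.mem_union, Finset.mem_union, Finset.mem_range, Nat.mem_divisors,
          Finset.mem_singleton]
        by_contra hcon
        rw [not_or, not_or] at hcon
        apply hp.2
        refine ⟨lt_of_le_of_ne hp.1.1.2 hcon.2.2, hp.1.2, by omega, fun hd => ?_⟩
        exact hcon.2.1 ⟨hd, ha.ne'⟩
      have h4 := Finset.card_le_card h3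
      have h5 : (range (Q + 1) ∪ (a.divisors ∪ {y})).card ≤ (Q + 1) + (a + 1) := by
        refine (Finset.card_union_le _ _).trans (add_le_add (by simp) ?_)
        refine (Finset.card_union_le _ _).trans (add_le_add (Nat.card_divisors_le_self a) ?_)
        simp
      have h6 := h4.trans h5
      calc ∑ p ∈ ((Finset.Icc 1 y).filter Nat.Prime).filter (fun p => ¬ p ∈ PP a Q y),
            (1 : ℝ) / p
          ≤ ∑ p ∈ ((Finset.Icc 1 y).filter Nat.Prime).filter (fun p => ¬ p ∈ PP a Q y),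
            (1 : ℝ) := by
            apply Finset.sum_le_sum
            intro p hp
            rw [Finset.mem_filter, Finset.mem_filter] at hp
            rw [div_le_one (by exact_mod_cast hp.1.2.pos)]
            exact_mod_cast hp.1.2.one_lt.le
        _ = ((((Finset.Icc 1 y).filter Nat.Prime).filter (fun p => ¬ p ∈ PP a Q y)).card : ℝ) := by
            rw [Finset.sum_const, nsmul_eq_mul, mul_one]
        _ ≤ _ := by exact_mod_cast h6
  linarith

/-- the choice of `y` -/
theorem choose_y (a s x : ℕ) (ha : 0 < a) (h3 : (a * 3 ^ (s + 1)) ^ 4 ≤ x) (h8 : a ^ 8 ≤ x) :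
    ∃ y : ℕ, 3 ≤ y ∧ (a * y ^ (s + 1)) ^ 4 ≤ x ∧
      Real.log x ≤ 16 * (s + 1) * Real.log y := by
  set P : ℕ → Prop := fun y => (a * y ^ (s + 1)) ^ 4 ≤ x with hP
  have h3x : 3 ≤ x := by
    refine le_trans ?_ h3
    calc 3 ≤ 3 ^ (s + 1) := Nat.le_self_pow (by omega) 3
      _ ≤ a * 3 ^ (s + 1) := Nat.le_mul_of_pos_left _ ha
      _ ≤ (a * 3 ^ (s + 1)) ^ 4 := Nat.le_self_pow (by omega) _
  have hy3 : 3 ≤ Nat.findGreatest P x := Nat.le_findGreatest h3x h3
  have hyP : P (Nat.findGreatest P x) := Nat.findGreatest_spec h3x h3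
  set y := Nat.findGreatest P x with hy
  have hyP' : (a * y ^ (s + 1)) ^ 4 ≤ x := hyP
  refine ⟨y, hy3, hyP', ?_⟩
  have hyx : y < x := by
    have h4 : y ≤ a * y ^ (s + 1) :=
      (Nat.le_self_pow (by omega) y).trans (Nat.le_mul_of_pos_left _ ha)
    calc y < y ^ 4 := by nlinarith [pow_pos (show 0 < y by omega) 2, pow_pos (show 0 < y by omega) 3]
      _ ≤ (a * y ^ (s + 1)) ^ 4 := Nat.pow_le_pow_left h4 4
      _ ≤ x := hyP'
  have hng : ¬ P (y + 1) := Nat.findGreatest_is_greatest (n := x)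
    (show Nat.findGreatest P x < y + 1 by omega) (by omega)
  have hng' : x < (a * (y + 1) ^ (s + 1)) ^ 4 := by
    have : ¬ ((a * (y + 1) ^ (s + 1)) ^ 4 ≤ x) := hng
    omega
  have hxR : (0 : ℝ) < x := by exact_mod_cast (by omega : 0 < x)
  have haR : (0 : ℝ) < a := by exact_mod_cast ha
  have hyR : (0 : ℝ) < y := by exact_mod_cast (by omega : 0 < y)
  have h5 : Real.log x ≤ 4 * (Real.log a + (s + 1) * Real.log ((y : ℝ) + 1)) := by
    calc Real.log x ≤ Real.log (((a : ℝ) * ((y : ℝ) + 1) ^ (s + 1)) ^ 4) := by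
          apply Real.log_le_log hxR
          exact_mod_cast hng'.le
      _ = 4 * (Real.log a + (s + 1) * Real.log ((y : ℝ) + 1)) := by
          rw [Real.log_pow, Real.log_mul haR.ne' (by positivity), Real.log_pow]
          push_cast
          ring
  have h6 : Real.log ((y : ℝ) + 1) ≤ 2 * Real.log y := by
    calc Real.log ((y : ℝ) + 1) ≤ Real.log ((y : ℝ) ^ 2) := by
          apply Real.log_le_log (by positivity)
          have : (3 : ℝ) ≤ y := by exact_mod_cast hy3
          nlinarith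
      _ = 2 * Real.log y := by rw [Real.log_pow]; norm_num
  have h7 : 8 * Real.log a ≤ Real.log x := by
    have : Real.log ((a : ℝ) ^ 8) ≤ Real.log x := by
      apply Real.log_le_log (by positivity)
      exact_mod_cast h8
    rw [Real.log_pow] at this
    exact_mod_cast this
  have h9 : ((s : ℝ) + 1) * Real.log ((y : ℝ) + 1) ≤ (s + 1) * (2 * Real.log y) :=
    mul_le_mul_of_nonneg_left h6 (by positivity)
  linarith

/-- many primes -/
theorem many_primes {a Q s x y m : ℕ} (ha : 0 < a) (hy : 3 ≤ y)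
    (hyx : (a * y ^ (s + 1)) ^ 4 ≤ x) (hx : (64 * (Q + a + 2)) ^ 4 ≤ x)
    (hm : m ∈ UU a Q (s + 1) y) :
    x / (16 * Real.log x) * (1 / m) ≤
      (((PP a Q (x + 1)).filter (fun p => m ∈ UU a Q (s + 1) p ∧ m * p ≤ x)).card : ℝ) := by
  have hm0 : 0 < m := UU_pos ha _ _ _ hm
  set M := a * y ^ (s + 1) with hM
  have hmM : m ≤ M := UU_le _ _ _ hm
  have hyM : y ≤ M := (Nat.le_self_pow (by omega) y).trans (Nat.le_mul_of_pos_left _ ha)
  have hM3 : 3 ≤ M := hy.trans hyM
  set n := x / m with hn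
  have hn27 : 27 ≤ n := by
    rw [hn, Nat.le_div_iff_mul_le hm0]
    calc 27 * m ≤ M ^ 3 * M := by
          apply Nat.mul_le_mul _ hmM
          calc 27 = 3 ^ 3 := by norm_num
            _ ≤ M ^ 3 := Nat.pow_le_pow_left hM3 3
      _ = M ^ 4 := by ring
      _ ≤ x := hyx
  have hnx : n ≤ x := Nat.div_le_self _ _
  have hx1 : 1 < x := by omega
  have hxR : (0 : ℝ) < x := by exact_mod_cast (by omega : 0 < x)
  have hmR : (0 : ℝ) < m := by exact_mod_cast hm0
  have hnR : (27 : ℝ) ≤ n := by exact_mod_cast hn27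
  have hlx : 0 < Real.log x := Real.log_pos (by exact_mod_cast hx1)
  have hln : 0 < Real.log n := Real.log_pos (by linarith)
  have hlnx : Real.log n ≤ Real.log x := by
    apply Real.log_le_log (by linarith)
    exact_mod_cast hnx
  have hxn : (x : ℝ) ≤ 2 * m * n := by
    have h1 : x < m * (n + 1) := by
      rw [hn]
      exact Nat.lt_mul_div_succ x hm0
    have h2 : (x : ℝ) ≤ m * (n + 1) := by exact_mod_cast h1.le
    nlinarith
  -- Chebyshev
  have hpi : (n : ℝ) / (4 * Real.log x) ≤ (Nat.primeCounting n : ℝ) := by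
    have h1 := Chebyshev.pi_ge n
    refine le_trans ?_ h1
    have h2 : Real.log ((n : ℝ) + 1) ≤ n / 8 + 1.3 := by
      have h3 : Real.log ((n : ℝ) + 1) = Real.log (((n : ℝ) + 1) / 8) + Real.log 8 := by
        rw [← Real.log_mul (by positivity) (by norm_num)]
        congr 1; ring
      have h4 := Real.log_le_sub_one_of_pos (x := ((n : ℝ) + 1) / 8) (by positivity)
      have h5 : Real.log 8 = 3 * Real.log 2 := by
        rw [show (8 : ℝ) = 2 ^ 3 by norm_num, Real.log_pow]; norm_num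
      have h6 := Real.log_two_lt_d9
      linarith
    have h7 := Real.log_two_gt_d9
    have h8 : (n : ℝ) / 4 ≤ n * Real.log 2 - Real.log ((n : ℝ) + 1) := by nlinarith
    calc (n : ℝ) / (4 * Real.log x) = n / 4 / Real.log x := by rw [div_div]
      _ ≤ n / 4 / Real.log n := by
          apply div_le_div_of_nonneg_left (by positivity) hln hlnx
      _ ≤ (n * Real.log 2 - Real.log ((n : ℝ) + 1)) / Real.log n :=
          div_le_div_of_nonneg_right h8 hln.le
  have hcount : Nat.primeCounting n ≤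
      ((PP a Q (x + 1)).filter (fun p => m ∈ UU a Q (s + 1) p ∧ m * p ≤ x)).card +
        (y + ((Q + 1) + a)) := by
    rw [Nat.primeCounting, Nat.primeCounting', Nat.count_eq_card_filter_range]
    have hsub : (range (n + 1)).filter Nat.Prime ⊆
        (PP a Q (x + 1)).filter (fun p => m ∈ UU a Q (s + 1) p ∧ m * p ≤ x) ∪
          (range y ∪ (range (Q + 1) ∪ a.divisors)) := by
      intro p hp
      rw [Finset.mem_filter, Finset.mem_range] at hp
      rw [Finset.mem_union, Finset.mem_union, Finset.mem_union, Finset.mem_range,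
        Finset.mem_range, Nat.mem_divisors]
      by_contra hcon
      rw [not_or, not_or, not_or] at hcon
      apply hcon.1
      rw [Finset.mem_filter, mem_PP]
      have hmp : m * p ≤ x := by
        have : p ≤ x / m := by omega
        calc m * p ≤ m * (x / m) := Nat.mul_le_mul_left _ this
          _ ≤ x := Nat.mul_div_le x m
      have hpx : p ≤ x := by omega
      refine ⟨⟨by omega, hp.2, by omega, fun h => hcon.2.2.2 ⟨h, ha.ne'⟩⟩, ?_, hmp⟩
      exact UU_mono (by omega : y ≤ p) hm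
    refine (Finset.card_le_card hsub).trans ?_
    refine (Finset.card_union_le _ _).trans (Nat.add_le_add_left ?_ _)
    refine (Finset.card_union_le _ _).trans ?_
    rw [Finset.card_range]
    refine Nat.add_le_add_left ?_ _
    refine (Finset.card_union_le _ _).trans ?_
    rw [Finset.card_range]
    exact Nat.add_le_add_left (Nat.card_divisors_le_self a) _
  have hcountR : (Nat.primeCounting n : ℝ) ≤
      (((PP a Q (x + 1)).filter (fun p => m ∈ UU a Q (s + 1) p ∧ m * p ≤ x)).card : ℝ) +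
        ((y : ℝ) + ((Q + 1) + a)) := by exact_mod_cast hcount
  -- the loss
  set t : ℝ := Real.sqrt (Real.sqrt x) with ht
  have ht4 : t ^ 4 = x := by
    have h1 : t ^ 2 = Real.sqrt x := Real.sq_sqrt (Real.sqrt_nonneg _)
    calc t ^ 4 = (t ^ 2) ^ 2 := by ring
      _ = (Real.sqrt x) ^ 2 := by rw [h1]
      _ = x := Real.sq_sqrt hxR.le
  have ht0 : 0 < t := Real.sqrt_pos.2 (Real.sqrt_pos.2 hxR)
  have hlt : Real.log x ≤ 4 * t := by
    rw [← ht4, Real.log_pow]
    have := Real.log_le_sub_one_of_pos ht0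
    push_cast
    linarith
  have hMt : (M : ℝ) ≤ t := by
    have h1 : (M : ℝ) ^ 4 ≤ t ^ 4 := by
      rw [ht4]; exact_mod_cast hyx
    exact le_of_pow_le_pow_left₀ (by norm_num) ht0.le h1
  have hQt : 64 * ((Q : ℝ) + a + 2) ≤ t := by
    have h1 : (64 * ((Q : ℝ) + a + 2)) ^ 4 ≤ t ^ 4 := by
      rw [ht4]; exact_mod_cast hx
    exact le_of_pow_le_pow_left₀ (by norm_num) ht0.le h1
  have hMR : (3 : ℝ) ≤ M := by exact_mod_cast hM3
  have hloss : (y : ℝ) + ((Q + 1) + a) ≤ x / (16 * Real.log x) * (1 / m) := by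
    rw [div_mul_div_comm, mul_one, le_div_iff₀ (by positivity)]
    have h1 : (y : ℝ) + ((Q + 1) + a) ≤ M * (Q + a + 2) := by
      have : (y : ℝ) ≤ M := by exact_mod_cast hyM
      have h2 : (0 : ℝ) ≤ Q := by positivity
      have h3 : (0 : ℝ) ≤ a := by positivity
      nlinarith
    have h2 : (m : ℝ) ≤ M := by exact_mod_cast hmM
    calc ((y : ℝ) + ((Q + 1) + a)) * (16 * Real.log x * m)
        ≤ (M * (Q + a + 2)) * (16 * (4 * t) * M) := by gcongr
      _ = (64 * ((Q : ℝ) + a + 2)) * M ^ 2 * t := by ring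
      _ ≤ t * t ^ 2 * t := by gcongr
      _ = x := by rw [← ht4]; ring
  have hmain : x / (16 * Real.log x) * (1 / m) * 2 ≤ (n : ℝ) / (4 * Real.log x) := by
    have e : x / (16 * Real.log x) * (1 / m) * 2 = (x / (2 * m)) / (4 * Real.log x) := by
      field_simp
      norm_num
    rw [e]
    apply div_le_div_of_nonneg_right _ (by positivity)
    rw [div_le_iff₀ (by positivity)]
    linarith
  linarith

theorem count_all {a : ℕ} (ha : 0 < a) (Q s : ℕ) : ∃ c : ℝ, 0 < c ∧ ∀ᶠ x : ℕ in atTop,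
    c * x / Real.log x * Real.log (Real.log x) ^ (s + 1) ≤ ((lev a Q (s + 2) x).card : ℝ) := by
  obtain ⟨c, A₀, hc, hA₀, hff⟩ := ff_ge (Q := Q) ha (s + 1)
  obtain ⟨C, hC0, hC⟩ := AA_lower a Q ha
  have hT : Tendsto (fun x : ℕ => Real.log (Real.log x)) atTop atTop :=
    Real.tendsto_log_atTop.comp (Real.tendsto_log_atTop.comp tendsto_natCast_atTop_atTop)
  refine ⟨c / 2 ^ (s + 1) / 16, by positivity, ?_⟩
  filter_upwards [eventually_ge_atTop ((a * 3 ^ (s + 1)) ^ 4), eventually_ge_atTop (a ^ 8),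
    eventually_ge_atTop ((64 * (Q + a + 2)) ^ 4), eventually_ge_atTop 3,
    hT.eventually_ge_atTop (2 * (Real.log (16 * (s + 1)) + C + A₀))] with x h1 h2 h3 h3' h4
  obtain ⟨y, hy3, hyx, hlog⟩ := choose_y a s x ha h1 h2
  have hlx : 0 < Real.log x := Real.log_pos (by exact_mod_cast (by omega : 1 < x))
  have hly : 0 < Real.log y := Real.log_pos (by exact_mod_cast (by omega : 1 < y))
  have hs : (0 : ℝ) < 16 * (s + 1) := by positivity
  have h5 : Real.log (Real.log x) ≤ Real.log (16 * (s + 1)) + Real.log (Real.log y) := by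
    rw [← Real.log_mul hs.ne' hly.ne']
    exact Real.log_le_log hlx hlog
  have hL16 : 0 ≤ Real.log (16 * ((s : ℝ) + 1)) := by
    apply Real.log_nonneg
    have : (0 : ℝ) ≤ s := by positivity
    linarith
  have h6 : Real.log (Real.log x) / 2 ≤ AA a Q y := by
    have := hC y hy3
    linarith
  have h7 : A₀ ≤ AA a Q y := by linarith
  have h8 := hff y h7
  have hLL : 0 ≤ Real.log (Real.log x) := by linarith
  have e1 : ((lev a Q (s + 2) x).card : ℝ) =
      ∑ N ∈ UU a Q (s + 1 + 1) (x + 1), (if N ≤ x then (1 : ℝ) else 0) := by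
    rw [lev_eq ha, Finset.card_filter]
    push_cast
    rfl
  rw [e1, sum_UU, swap_UU]
  have hyx1 : y ≤ x + 1 := by
    have h9 : y ≤ a * y ^ (s + 1) :=
      (Nat.le_self_pow (by omega) y).trans (Nat.le_mul_of_pos_left _ ha)
    have h10 : a * y ^ (s + 1) ≤ (a * y ^ (s + 1)) ^ 4 := Nat.le_self_pow (by omega) _
    omega
  calc c / 2 ^ (s + 1) / 16 * x / Real.log x * Real.log (Real.log x) ^ (s + 1)
      = x / (16 * Real.log x) * (c * (Real.log (Real.log x) / 2) ^ (s + 1)) := by
        rw [div_pow]; field_simp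
    _ ≤ x / (16 * Real.log x) * ff a Q (s + 1) y := by
        apply mul_le_mul_of_nonneg_left _ (by positivity)
        refine le_trans ?_ h8
        apply mul_le_mul_of_nonneg_left _ hc.le
        exact pow_le_pow_left₀ (by positivity) h6 _
    _ = ∑ m ∈ UU a Q (s + 1) y, x / (16 * Real.log x) * (1 / m) := by
        unfold ff
        rw [Finset.mul_sum]
    _ ≤ ∑ m ∈ UU a Q (s + 1) y, ∑ p ∈ (PP a Q (x + 1)).filter
          (fun p => m ∈ UU a Q (s + 1) p), (if m * p ≤ x then (1 : ℝ) else 0) := by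
        apply Finset.sum_le_sum
        intro m hm
        refine (many_primes ha hy3 hyx h3 hm).trans ?_
        rw [← Finset.sum_filter, Finset.sum_const, nsmul_eq_mul, mul_one, Finset.filter_filter]
    _ ≤ _ := by
        apply Finset.sum_le_sum_of_subset_of_nonneg (UU_mono hyx1)
        intro m _ _
        apply Finset.sum_nonneg
        intro p _
        split_ifs <;> norm_num

/-- **The main estimate.** -/
theorem main {a : ℕ} (ha : 0 < a) (Good : ℕ → Prop) [DecidablePred Good] (hGa : Good a)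
    {B : ℝ} (hB : 0 ≤ B) (E : ℕ → Finset ℕ)
    (hcard : ∀ m, 0 < m → Good m → ((E m).card : ℝ) ≤ B * (m : ℝ) ^ 2)
    (hgood : ∀ m p, 0 < m → Good m → p.Prime → ¬ p ∣ m → p ∉ E m → Good (m * p)) (Q s : ℕ) :
    ∃ C c : ℝ, 0 < c ∧ ∀ᶠ x : ℕ in atTop,
      (((lev a Q (s + 2) x).filter (fun N => ¬ Good N)).card : ℝ) ≤
        C * x * Real.log (Real.log x) ^ s / Real.log x ∧
      c * x * Real.log (Real.log x) ^ (s + 1) / Real.log x ≤ ((lev a Q (s + 2) x).card : ℝ) := by
  obtain ⟨C, hC0, hC⟩ := count_bad (Q := Q) ha Good hGa hB E hcard hgood s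
  obtain ⟨c, hc, hx2⟩ := count_all ha Q s
  obtain ⟨D, hD0, hD⟩ := AA_upper
  have hT : Tendsto (fun x : ℕ => Real.log (Real.log x)) atTop atTop :=
    Real.tendsto_log_atTop.comp (Real.tendsto_log_atTop.comp tendsto_natCast_atTop_atTop)
  refine ⟨C * (2 + D) ^ s, c, hc, ?_⟩
  filter_upwards [hx2, eventually_ge_atTop 3, eventually_ge_atTop (a ^ 2),
    hT.eventually_ge_atTop 1] with x h1 h2 h3 h4
  have hlx : 0 < Real.log x := Real.log_pos (by exact_mod_cast (by omega : 1 < x))
  constructor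
  · refine (hC x (by omega) h3).trans ?_
    have h5 : 1 + AA a Q (x + 1) ≤ (2 + D) * Real.log (Real.log x) := by
      have := hD a Q x h2
      nlinarith
    have h6 : (1 + AA a Q (x + 1)) ^ s ≤ (2 + D) ^ s * Real.log (Real.log x) ^ s := by
      rw [← mul_pow]
      apply pow_le_pow_left₀ _ h5
      have := AA_nonneg a Q (x + 1)
      linarith
    calc C * x / Real.log x * (1 + AA a Q (x + 1)) ^ s
        ≤ C * x / Real.log x * ((2 + D) ^ s * Real.log (Real.log x) ^ s) := by
          apply mul_le_mul_of_nonneg_left h6 (by positivity)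
      _ = C * (2 + D) ^ s * x * Real.log (Real.log x) ^ s / Real.log x := by ring
  · refine le_trans (le_of_eq ?_) h1
    ring

end Pool.Agent.Q79.KP
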