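import Mathlib
import Pool.Agent.Q79.KvL

set_option autoImplicit false

open Finset Polynomial NumberField

namespace Pool.Agent.Q79.KQ

/-- If `p` divides the norm of `y` then `p ^ f` divides it, for some `f ≥ 1` with `M ∣ p ^ f - 1`,
if the ring contains a root of the `M`-th cyclotomic polynomial. -/
theorem residue {O : Type} [CommRing O] [IsDedekindDomain O] [Module.Free ℤ O] [Module.Finite ℤ O]
    {M : ℕ} (hM : 0 < M) {ζ : O} (hζ : (cyclotomic M O).eval ζ = 0) {y : O}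
    (hy : Algebra.norm ℤ y ≠ 0)
    {p : ℕ} (hp : p.Prime) (hpM : ¬ p ∣ M) (h : (p : ℤ) ∣ Algebra.norm ℤ y) :
    ∃ f : ℕ, 0 < f ∧ p ^ f ∣ (Algebra.norm ℤ y).natAbs ∧ M ∣ p ^ f - 1 := by
  have i0 : Fact p.Prime := ⟨hp⟩
  set I : Ideal O := Ideal.span {y} with hI
  have hIn : Ideal.absNorm I = (Algebra.norm ℤ y).natAbs := Ideal.absNorm_span_singleton y
  have hI0 : Ideal.absNorm I ≠ 0 := by
    rw [hIn]; exact Int.natAbs_ne_zero.2 hy
  have hfin : Finite (O ⧸ I) := (Ideal.absNorm_ne_zero_iff I).1 hI0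
  have hpI : p ∣ Nat.card (O ⧸ I) := by
    have h1 : Nat.card (O ⧸ I) = Ideal.absNorm I := by
      rw [Ideal.absNorm_apply, Submodule.cardQuot_apply]
    rw [h1, hIn]
    exact Int.natCast_dvd.1 h
  -- a maximal ideal containing `y` and `p`
  have hJ : I ⊔ Ideal.span {(p : O)} ≠ ⊤ := by
    intro htop
    obtain ⟨x, hx⟩ := exists_prime_addOrderOf_dvd_card' p hpI
    rw [Ideal.eq_top_iff_one, Submodule.mem_sup] at htop
    obtain ⟨i, hi, j, hj, hij⟩ := htop
    rw [Ideal.mem_span_singleton'] at hj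
    obtain ⟨r, rfl⟩ := hj
    have h1 : (Ideal.Quotient.mk I r) * (p : O ⧸ I) = 1 := by
      have h2 := congrArg (Ideal.Quotient.mk I) hij
      rw [map_add, map_mul, map_natCast, map_one, Ideal.Quotient.eq_zero_iff_mem.2 hi,
        zero_add] at h2
      exact h2
    have h3 : (p : O ⧸ I) * x = 0 := by
      have h4 := addOrderOf_nsmul_eq_zero x
      rw [hx, nsmul_eq_mul] at h4
      exact h4
    have h5 : x = 0 := by
      calc x = 1 * x := (one_mul x).symm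
        _ = (Ideal.Quotient.mk I r) * (p : O ⧸ I) * x := by rw [h1]
        _ = 0 := by rw [mul_assoc, h3, mul_zero]
    rw [h5, addOrderOf_zero] at hx
    exact hp.one_lt.ne hx
  obtain ⟨P, hP, hle⟩ := Ideal.exists_le_maximal _ hJ
  have hIP : I ≤ P := le_sup_left.trans hle
  have hpP : (p : O) ∈ P := hle (Ideal.mem_sup_right (Ideal.mem_span_singleton_self _))
  have hdvd : Ideal.absNorm P ∣ Ideal.absNorm I := Ideal.absNorm_dvd_absNorm_of_le hIP
  have hP0 : Ideal.absNorm P ≠ 0 := fun h0 => hI0 (by rw [h0] at hdvd; exact zero_dvd_iff.1 hdvd)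
  have hfinP : Finite (O ⧸ P) := (Ideal.absNorm_ne_zero_iff P).1 hP0
  let iF : Field (O ⧸ P) := Ideal.Quotient.field P
  let iFt : Fintype (O ⧸ P) := Fintype.ofFinite _
  have hpF : (p : O ⧸ P) = 0 := by
    have := Ideal.Quotient.eq_zero_iff_mem.2 hpP
    rwa [map_natCast] at this
  have iC : CharP (O ⧸ P) p := (CharP.charP_iff_prime_eq_zero hp).2 hpF
  obtain ⟨f, -, hf⟩ := FiniteField.card (O ⧸ P) p
  have hcard : Ideal.absNorm P = p ^ (f : ℕ) := by
    rw [Ideal.absNorm_apply, Submodule.cardQuot_apply, Nat.card_eq_fintype_card]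
    exact hf
  refine ⟨f, f.pos, ?_, ?_⟩
  · rw [← hcard, ← hIn]; exact hdvd
  · have hMF : ((M : ℕ) : O ⧸ P) ≠ 0 := fun h0 => hpM ((CharP.cast_eq_zero_iff _ p M).1 h0)
    have i1 : NeZero ((M : ℕ) : O ⧸ P) := ⟨hMF⟩
    have hroot : (cyclotomic M (O ⧸ P)).IsRoot (Ideal.Quotient.mk P ζ) := by
      rw [IsRoot.def, ← map_cyclotomic M (Ideal.Quotient.mk P), eval_map, eval₂_at_apply, hζ,
        map_zero]
    have hprim : IsPrimitiveRoot (Ideal.Quotient.mk P ζ) M := isRoot_cyclotomic_iff.1 hroot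
    apply hprim.dvd_of_pow_eq_one
    rw [← hf]
    exact FiniteField.pow_card_sub_one_eq_one _ (hprim.ne_zero hM.ne')

/-- The same for the products over the primitive roots of unity. -/
theorem residue_prod {M : ℕ} (hM : 0 < M) (P : ℤ[X]) {z : ℤ}
    (hz : ((z : ℤ) : ℂ) = ∏ v ∈ primitiveRoots M ℂ, aeval v P) (hz0 : z ≠ 0)
    {p : ℕ} (hp : p.Prime) (hpM : ¬ p ∣ M) (h : (p : ℤ) ∣ z) :
    ∃ f : ℕ, 0 < f ∧ p ^ f ∣ z.natAbs ∧ M ∣ p ^ f - 1 := by
  have i1 : NeZero M := ⟨hM.ne'⟩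
  have i2 : NeZero ((M : ℕ) : ℚ) := ⟨by exact_mod_cast hM.ne'⟩
  have i3 : IsCyclotomicExtension {M} ℚ (CyclotomicField M ℚ) :=
    CyclotomicField.isCyclotomicExtension _ _
  let K := CyclotomicField M ℚ
  have i4 : IsCyclotomicExtension {M} ℚ K := i3
  have i5 : NumberField K := IsCyclotomicExtension.numberField {M} ℚ K
  set ζ : K := IsCyclotomicExtension.zeta M ℚ K with hζ
  have hζp : IsPrimitiveRoot ζ M := IsCyclotomicExtension.zeta_spec _ ℚ K
  set ζO : 𝓞 K := hζp.toInteger with hζO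
  have hζOp : IsPrimitiveRoot ζO M := hζp.toInteger_isPrimitiveRoot
  have hcyc : (cyclotomic M (𝓞 K)).eval ζO = 0 := by
    have i6 : NeZero ((M : ℕ) : 𝓞 K) := ⟨by exact_mod_cast hM.ne'⟩
    exact isRoot_cyclotomic_iff.2 hζOp
  set yO : 𝓞 K := aeval ζO P with hyO
  have hirr : Irreducible (cyclotomic M ℚ) := cyclotomic.irreducible_rat hM
  have hyK : ((yO : 𝓞 K) : K) = aeval ζ P := by
    rw [hyO]
    have h1 : ((aeval ζO P : 𝓞 K) : K) = algebraMap (𝓞 K) K (aeval ζO P) := rfl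
    rw [h1, ← aeval_algebraMap_apply]
    rfl
  have hprod := Algebra.norm_eq_prod_embeddings ℚ ℂ (aeval ζ P : K)
  have h2 : ∏ σ : K →ₐ[ℚ] ℂ, σ (aeval ζ P) = ∏ v ∈ primitiveRoots M ℂ, aeval v P := by
    rw [← Finset.prod_coe_sort (primitiveRoots M ℂ) (fun v => aeval v P)]
    apply Fintype.prod_equiv (hζp.embeddingsEquivPrimitiveRoots ℂ hirr)
    intro σ
    rw [hζp.embeddingsEquivPrimitiveRoots_apply_coe ℂ hirr]
    rw [aeval_def, aeval_def]
    have h3 := Polynomial.hom_eval₂ P (algebraMap ℤ K) (σ : K →+* ℂ) ζ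
    have h4 : (σ : K →+* ℂ).comp (algebraMap ℤ K) = algebraMap ℤ ℂ := RingHom.ext_int _ _
    rw [h4] at h3
    exact h3
  have hnorm : Algebra.norm ℤ yO = z := by
    have h5 : ((Algebra.norm ℤ yO : ℤ) : ℚ) = Algebra.norm ℚ (yO : K) := Algebra.coe_norm_int yO
    have h6 : (((Algebra.norm ℤ yO : ℤ) : ℚ) : ℂ) = ((z : ℤ) : ℂ) := by
      rw [h5, hyK, hz, ← h2, ← hprod]
      rfl
    exact_mod_cast h6
  have h7 := residue (O := 𝓞 K) hM hcyc (y := yO) (by rw [hnorm]; exact hz0) hp hpM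
    (by rw [hnorm]; exact h)
  rwa [hnorm] at h7

end Pool.Agent.Q79.KQ
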