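import Mathlib
import Pool.Agent.Q79.KqA

set_option autoImplicit false

open Finset Polynomial

namespace Pool.Agent.Q79.KQ

/-- the least common multiple of the orders of `p` modulo the primes in `T` -/
noncomputable def lam (T : Finset ℕ) (p : ℕ) : ℕ := T.lcm (fun q => orderOf (p : ZMod q))

/-- the product of the elements -/
def nn (T : Finset ℕ) : ℕ := ∏ q ∈ T, q

theorem lam_dvd {T : Finset ℕ} {p f : ℕ} (hp : 0 < p) (h : nn T ∣ p ^ f - 1) : lam T p ∣ f := by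
  unfold lam
  rw [Finset.lcm_dvd_iff]
  intro q hq
  apply orderOf_dvd_of_pow_eq_one
  have h1 : q ∣ p ^ f - 1 := (Finset.dvd_prod_of_mem (fun q => q) hq).trans h
  have h2 : ((p ^ f - 1 : ℕ) : ZMod q) = 0 := (ZMod.natCast_eq_zero_iff _ _).2 h1
  have h3 : 1 ≤ p ^ f := Nat.one_le_pow _ _ hp
  rw [Nat.cast_sub h3, Nat.cast_pow, Nat.cast_one, sub_eq_zero] at h2
  exact h2

/-- the natural number of the level `m`, with the orders -/
theorem exists_level {m : ℕ} (hm : 0 < m) {n : ℕ} {w : List (ℕ × Bool)}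
    (hw : Pool.Agent.Q79.KV.IsKnot n w) :
    ∃ z : ℕ, (z : ℝ) = ∏ v ∈ primitiveRoots (2 * m) ℂ, ‖Pool.Agent.Q79.KV.cjones m n w v‖ ∧
      (∀ p k : ℕ, p.Prime → 0 < k → ¬ p ∣ m * z →
        ∀ v : ℂ, IsPrimitiveRoot v (2 * (m * p ^ k)) →
          Pool.Agent.Q79.KV.cjones (m * p ^ k) n w v ≠ 0) ∧
      (z ≠ 0 → ∀ p : ℕ, p.Prime → ¬ p ∣ 2 * m → p ∣ z →
        ∃ f : ℕ, 0 < f ∧ p ^ f ∣ z ∧ m ∣ p ^ f - 1) := by
  obtain ⟨P, hP⟩ := Pool.Agent.Q79.KV.exists_poly m n w (m := 2 * m) (by omega)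
  obtain ⟨z, hz⟩ := Pool.Agent.Q79.KV.prod_int (m := 2 * m) (by omega) P
  have h1 : ((z : ℤ) : ℂ) =
      ∏ v ∈ primitiveRoots (2 * m) ℂ, Pool.Agent.Q79.KV.cjones m n w v := by
    rw [hz]
    apply Finset.prod_congr rfl
    intro v hv
    rw [mem_primitiveRoots (by omega)] at hv
    exact (Pool.Agent.Q79.KV.cjones_eq_aeval hm le_rfl hP hv).symm
  refine ⟨z.natAbs, ?_, ?_, ?_⟩
  · rw [← norm_prod, ← h1, Complex.norm_intCast]
    exact_mod_cast Nat.cast_natAbs (α := ℝ) z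
  · intro p k hp hk hpz v hv
    rw [hp.dvd_mul, not_or] at hpz
    exact Pool.Agent.Q79.KV.step hp hm hpz.1 hk hw h1 (fun h => hpz.2 (Int.natCast_dvd.1 h)) hv
  · intro hz0 p hp hpm hpz
    obtain ⟨f, hf0, hf1, hf2⟩ := residue_prod (M := 2 * m) (by omega) P hz
      (Int.natAbs_ne_zero.1 hz0) hp hpm (Int.natCast_dvd.2 hpz)
    exact ⟨f, hf0, hf1, (Dvd.intro_left 2 rfl).trans hf2⟩

theorem sum_orders {z : ℕ} (hz : z ≠ 0) (S : Finset ℕ) (hS : ∀ p ∈ S, p.Prime) (g : ℕ → ℕ)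
    (hg : ∀ p ∈ S, p ^ (g p) ∣ z) : ∑ p ∈ S, (g p : ℝ) * Real.log p ≤ Real.log z := by
  have h1 : ∏ p ∈ S, p ^ (g p) ∣ z := by
    apply Finset.prod_dvd_of_isRelPrime _ hg
    intro p hp q hq hne
    exact Nat.coprime_iff_isRelPrime.1
      (Nat.Coprime.pow _ _ ((Nat.coprime_primes (hS p hp) (hS q hq)).2 hne))
  have h2 : ∏ p ∈ S, p ^ (g p) ≤ z := Nat.le_of_dvd (Nat.pos_of_ne_zero hz) h1
  have h3 : Real.log ((∏ p ∈ S, p ^ (g p) : ℕ) : ℝ) ≤ Real.log z := by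
    apply Real.log_le_log
    · have : 0 < ∏ p ∈ S, p ^ (g p) := Finset.prod_pos (fun p hp => pow_pos (hS p hp).pos _)
      exact_mod_cast this
    · exact_mod_cast h2
  rw [Nat.cast_prod, Real.log_prod] at h3
  · refine le_trans (le_of_eq ?_) h3
    apply Finset.sum_congr rfl
    intro p _
    rw [Nat.cast_pow, Real.log_pow]
  · intro p hp
    have : 0 < p ^ (g p) := pow_pos (hS p hp).pos _
    exact_mod_cast this.ne'

/-! ### The index -/

theorem gcd_lcm_le (x : ℕ) (f : ℕ → ℕ) (T : Finset ℕ) :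
    Nat.gcd x (T.lcm f) ∣ ∏ q ∈ T, Nat.gcd x (f q) := by
  classical
  induction T using Finset.induction_on with
  | empty => simp
  | insert q T hq ih =>
    rw [Finset.prod_insert hq, Finset.lcm_insert]
    have h1 : Nat.gcd x (GCDMonoid.lcm (f q) (T.lcm f)) ∣ Nat.gcd x (f q * T.lcm f) :=
      Nat.gcd_dvd_gcd_of_dvd_right x (Nat.lcm_dvd_mul _ _)
    refine h1.trans ?_
    refine (Nat.gcd_mul_right_dvd_mul_gcd x (f q) (T.lcm f)).trans ?_
    exact Nat.mul_dvd_mul_left _ ih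

theorem prod_orders_le {T : Finset ℕ} {o : ℕ → ℕ} {τ : ℝ} (hτ : 1 ≤ τ)
    (ho : ∀ q ∈ T, 0 < o q)
    (hc : ∀ q ∈ T, ∀ q' ∈ T, q ≠ q' → (Nat.gcd (o q) (o q') : ℝ) ≤ τ) :
    ((∏ q ∈ T, o q : ℕ) : ℝ) ≤ (T.lcm o : ℕ) * τ ^ (T.card * T.card) := by
  classical
  induction T using Finset.induction_on with
  | empty => simp
  | insert q T hq ih =>
    have hoT : ∀ q' ∈ T, 0 < o q' := fun q' h => ho q' (Finset.mem_insert_of_mem h)
    have ih' := ih hoT (fun q1 h1 q2 h2 hne => hc q1 (Finset.mem_insert_of_mem h1) q2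
      (Finset.mem_insert_of_mem h2) hne)
    have hoq : 0 < o q := ho q (Finset.mem_insert_self _ _)
    rw [Finset.prod_insert hq, Finset.lcm_insert, Finset.card_insert_of_notMem hq]
    have h1 : o q * T.lcm o = Nat.gcd (o q) (T.lcm o) * Nat.lcm (o q) (T.lcm o) :=
      (Nat.gcd_mul_lcm _ _).symm
    have h2 : (Nat.gcd (o q) (T.lcm o) : ℝ) ≤ τ ^ T.card := by
      have h3 : Nat.gcd (o q) (T.lcm o) ≤ ∏ q' ∈ T, Nat.gcd (o q) (o q') :=
        Nat.le_of_dvd (Finset.prod_pos (fun q' _ => Nat.gcd_pos_of_pos_left _ hoq))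
          (gcd_lcm_le (o q) o T)
      calc (Nat.gcd (o q) (T.lcm o) : ℝ) ≤ ((∏ q' ∈ T, Nat.gcd (o q) (o q') : ℕ) : ℝ) := by
            exact_mod_cast h3
        _ = ∏ q' ∈ T, (Nat.gcd (o q) (o q') : ℝ) := by push_cast; rfl
        _ ≤ ∏ _q' ∈ T, τ := by
            apply Finset.prod_le_prod (fun _ _ => by positivity)
            intro q' hq'
            exact hc q (Finset.mem_insert_self _ _) q' (Finset.mem_insert_of_mem hq')
              (fun h => hq (h ▸ hq'))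
        _ = τ ^ T.card := by rw [Finset.prod_const]
    have hl : GCDMonoid.lcm (o q) (T.lcm o) = Nat.lcm (o q) (T.lcm o) := rfl
    rw [hl]
    have hτ0 : 0 < τ := by linarith
    calc ((o q * ∏ q' ∈ T, o q' : ℕ) : ℝ) = (o q : ℝ) * ((∏ q' ∈ T, o q' : ℕ) : ℝ) := by
          push_cast; ring
      _ ≤ (o q : ℝ) * ((T.lcm o : ℕ) * τ ^ (T.card * T.card)) := by gcongr
      _ = ((o q * T.lcm o : ℕ) : ℝ) * τ ^ (T.card * T.card) := by push_cast; ring
      _ = ((Nat.gcd (o q) (T.lcm o) : ℝ) * (Nat.lcm (o q) (T.lcm o) : ℕ)) *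
          τ ^ (T.card * T.card) := by rw [h1]; push_cast; ring
      _ ≤ (τ ^ T.card * (Nat.lcm (o q) (T.lcm o) : ℕ)) * τ ^ (T.card * T.card) := by gcongr
      _ = (Nat.lcm (o q) (T.lcm o) : ℕ) * τ ^ (T.card + T.card * T.card) := by
          rw [pow_add]; ring
      _ ≤ (Nat.lcm (o q) (T.lcm o) : ℕ) * τ ^ ((T.card + 1) * (T.card + 1)) := by
          apply mul_le_mul_of_nonneg_left _ (by positivity)
          apply pow_le_pow_right₀ hτ
          nlinarith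

/-- if the index is not large, the order is not small -/
theorem nn_le {T : Finset ℕ} {p : ℕ} {τ : ℝ} (hτ : 1 ≤ τ) (hT : ∀ q ∈ T, q.Prime ∧ ¬ q ∣ p)
    (hb : ∀ q ∈ T, (q : ℝ) ≤ τ * orderOf (p : ZMod q))
    (hc : ∀ q ∈ T, ∀ q' ∈ T, q ≠ q' → (Nat.gcd (q - 1) (q' - 1) : ℝ) ≤ τ) :
    (nn T : ℝ) ≤ lam T p * τ ^ ((T.card + 1) * (T.card + 1)) := by
  have hord : ∀ q ∈ T, 0 < orderOf (p : ZMod q) ∧ orderOf (p : ZMod q) ∣ q - 1 := by
    intro q hq
    obtain ⟨hq1, hq2⟩ := hT q hq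
    have i0 : Fact q.Prime := ⟨hq1⟩
    have hne : (p : ZMod q) ≠ 0 := by
      intro h
      exact hq2 ((ZMod.natCast_eq_zero_iff _ _).1 h)
    have h1 := ZMod.pow_card_sub_one_eq_one hne
    have h2 := orderOf_dvd_of_pow_eq_one h1
    refine ⟨Nat.pos_of_dvd_of_pos h2 ?_, h2⟩
    have := hq1.two_le
    omega
  have h1 := prod_orders_le (T := T) (o := fun q => orderOf (p : ZMod q)) hτ
    (fun q hq => (hord q hq).1) (by
      intro q hq q' hq' hne
      refine le_trans ?_ (hc q hq q' hq' hne)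
      have hpos : 0 < Nat.gcd (q - 1) (q' - 1) := by
        apply Nat.gcd_pos_of_pos_left
        have := (hT q hq).1.two_le
        omega
      exact_mod_cast Nat.le_of_dvd hpos
        (Nat.gcd_dvd_gcd_of_dvd_left _ (hord q hq).2 |>.trans
          (Nat.gcd_dvd_gcd_of_dvd_right _ (hord q' hq').2)))
  have hτ0 : 0 < τ := by linarith
  calc (nn T : ℝ) = ∏ q ∈ T, (q : ℝ) := by unfold nn; push_cast; rfl
    _ ≤ ∏ q ∈ T, (τ * (orderOf (p : ZMod q) : ℝ)) :=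
        Finset.prod_le_prod (fun _ _ => by positivity) hb
    _ = τ ^ T.card * ((∏ q ∈ T, orderOf (p : ZMod q) : ℕ) : ℝ) := by
        rw [Finset.prod_mul_distrib, Finset.prod_const]; push_cast; rfl
    _ ≤ τ ^ T.card * (lam T p * τ ^ (T.card * T.card)) := by
        apply mul_le_mul_of_nonneg_left h1 (by positivity)
    _ = lam T p * τ ^ (T.card + T.card * T.card) := by rw [pow_add]; ring
    _ ≤ lam T p * τ ^ ((T.card + 1) * (T.card + 1)) := by
        apply mul_le_mul_of_nonneg_left _ (by positivity)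
        apply pow_le_pow_right₀ hτ
        nlinarith

end Pool.Agent.Q79.KQ
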