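import Mathlib
import Pool.Agent.Q79.KqB

set_option autoImplicit false

open Finset

namespace Pool.Agent.Q79.KQ

/-! ### Weights and the chain -/

/-- the primes between `Q` and `y` -/
def PQ (Q y : ℕ) : Finset ℕ := (range y).filter (fun p => p.Prime ∧ Q < p)

theorem mem_PQ {Q y p : ℕ} : p ∈ PQ Q y ↔ p < y ∧ p.Prime ∧ Q < p := by
  unfold PQ
  rw [Finset.mem_filter, Finset.mem_range]

theorem PQ_mono {Q y z : ℕ} (h : y ≤ z) : PQ Q y ⊆ PQ Q z := by
  intro p hp
  rw [mem_PQ] at hp ⊢
  exact ⟨by omega, hp.2⟩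

theorem PQ_succ_of {Q y : ℕ} (h : y.Prime ∧ Q < y) : PQ Q (y + 1) = insert y (PQ Q y) := by
  unfold PQ
  rw [Finset.range_add_one, Finset.filter_insert, if_pos h]

theorem PQ_succ_not {Q y : ℕ} (h : ¬ (y.Prime ∧ Q < y)) : PQ Q (y + 1) = PQ Q y := by
  unfold PQ
  rw [Finset.range_add_one, Finset.filter_insert, if_neg h]

theorem notMem_PQ (Q y : ℕ) : y ∉ PQ Q y := by
  rw [mem_PQ]
  intro h
  exact lt_irrefl _ h.1

/-- the weight of a set of primes -/
noncomputable def om (T : Finset ℕ) : ℝ := ∏ q ∈ T, (1 / (q : ℝ))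

/-- the total weight -/
noncomputable def WW (S : Finset ℕ) : ℝ := ∏ q ∈ S, (1 + 1 / (q : ℝ))

theorem sum_om (S : Finset ℕ) : ∑ T ∈ S.powerset, om T = WW S := by
  unfold om WW
  rw [Finset.prod_one_add]

theorem om_nonneg (T : Finset ℕ) : 0 ≤ om T := Finset.prod_nonneg (fun _ _ => by positivity)

theorem om_empty : om ∅ = 1 := by unfold om; rw [Finset.prod_empty]

theorem nn_empty : nn ∅ = 1 := by unfold nn; rw [Finset.prod_empty]

theorem om_insert {T : Finset ℕ} {p : ℕ} (h : p ∉ T) : om (insert p T) = 1 / (p : ℝ) * om T := by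
  unfold om; rw [Finset.prod_insert h]

theorem nn_insert {T : Finset ℕ} {p : ℕ} (h : p ∉ T) : nn (insert p T) = p * nn T := by
  unfold nn; rw [Finset.prod_insert h]

theorem om_eq (T : Finset ℕ) : om T = 1 / (nn T : ℝ) := by
  unfold om nn
  rw [Finset.prod_div_distrib, Finset.prod_const_one]
  push_cast
  rfl

theorem WW_ge_one (S : Finset ℕ) : 1 ≤ WW S := by
  unfold WW
  calc (1 : ℝ) = ∏ _q ∈ S, (1 : ℝ) := by rw [Finset.prod_const_one]
    _ ≤ _ := Finset.prod_le_prod (fun _ _ => by norm_num) (fun i _ => by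
      have : (0 : ℝ) ≤ 1 / (i : ℝ) := by positivity
      linarith)

theorem WW_mono {S T : Finset ℕ} (h : S ⊆ T) : WW S ≤ WW T := by
  unfold WW
  exact Finset.prod_le_prod_of_subset_of_one_le h (fun _ _ => by positivity) (fun q _ _ => by
    have : (0 : ℝ) ≤ 1 / q := by positivity
    linarith)

theorem nn_pos {T : Finset ℕ} (h : ∀ q ∈ T, q.Prime) : 0 < nn T :=
  Finset.prod_pos (fun q hq => (h q hq).pos)

theorem nn_pos' {Q y : ℕ} {T : Finset ℕ} (h : T ∈ (PQ Q y).powerset) : 0 < nn T :=
  nn_pos (fun q hq => (mem_PQ.1 (Finset.mem_powerset.1 h hq)).2.1)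

theorem not_dvd_nn {p : ℕ} (hp : p.Prime) {Q : ℕ} {T : Finset ℕ} (h : T ∈ (PQ Q p).powerset) :
    ¬ p ∣ nn T := by
  intro hd
  unfold nn at hd
  rw [Prime.dvd_finsetProd_iff hp.prime] at hd
  obtain ⟨q, hq, hpq⟩ := hd
  have h1 := mem_PQ.1 (Finset.mem_powerset.1 h hq)
  rw [Nat.prime_dvd_prime_iff_eq hp h1.2.1] at hpq
  omega

section chain

variable (Good : ℕ → Prop) [DecidablePred Good] (a : ℕ) (E : ℕ → Finset ℕ)

/-- the weight of the bad sets -/
noncomputable def bsum (Q y : ℕ) : ℝ :=
  ∑ T ∈ (PQ Q y).powerset, if Good (a * nn T) then 0 else om T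

/-- the weight of the sets for which the next prime is exceptional -/
noncomputable def bet (Q p : ℕ) : ℝ :=
  ∑ T ∈ (PQ Q p).powerset, if Good (a * nn T) ∧ p ∈ E (a * nn T) then om T else 0

theorem bet_nonneg (Q p : ℕ) : 0 ≤ bet Good a E Q p :=
  Finset.sum_nonneg (fun T _ => by split_ifs <;> [exact om_nonneg T; exact le_rfl])

end chain

theorem chain {Good : ℕ → Prop} [DecidablePred Good] {a : ℕ} {E : ℕ → Finset ℕ} (ha : 0 < a)
    {Q : ℕ} (hQ : a ≤ Q) (hGa : Good a)
    (hgood : ∀ m p, 0 < m → Good m → p.Prime → ¬ p ∣ m → p ∉ E m → Good (m * p)) (y : ℕ) :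
    bsum Good a Q y ≤
      WW (PQ Q y) * ∑ p ∈ PQ Q y, 1 / (p : ℝ) * (bet Good a E Q p / WW (PQ Q p)) := by
  induction y with
  | zero =>
    have h0 : PQ Q 0 = ∅ := by unfold PQ; simp
    unfold bsum
    rw [h0, Finset.powerset_empty, Finset.sum_singleton, nn_empty, mul_one, if_pos hGa,
      Finset.sum_empty, mul_zero]
  | succ y ih =>
    by_cases hy : y.Prime ∧ Q < y
    · have hnm := notMem_PQ Q y
      have hy0 : (0 : ℝ) < y := by exact_mod_cast hy.1.pos
      have e : bsum Good a Q (y + 1) = bsum Good a Q y +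
          ∑ T ∈ (PQ Q y).powerset,
            (if Good (a * nn (insert y T)) then 0 else om (insert y T)) := by
        unfold bsum
        rw [PQ_succ_of hy, Finset.sum_powerset_insert hnm]
      have h1 : ∑ T ∈ (PQ Q y).powerset,
            (if Good (a * nn (insert y T)) then 0 else om (insert y T)) ≤
          1 / (y : ℝ) * (bsum Good a Q y + bet Good a E Q y) := by
        unfold bsum bet
        rw [← Finset.sum_add_distrib, Finset.mul_sum]
        apply Finset.sum_le_sum
        intro T hT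
        have hyT : y ∉ T := fun h => hnm (Finset.mem_powerset.1 hT h)
        rw [nn_insert hyT, om_insert hyT]
        have hom := om_nonneg T
        have hinv : (0 : ℝ) ≤ 1 / y := by positivity
        have hA : (0 : ℝ) ≤ (if Good (a * nn T) then 0 else om T) := by
          split_ifs <;> [exact le_rfl; exact hom]
        have hB : (0 : ℝ) ≤ (if Good (a * nn T) ∧ y ∈ E (a * nn T) then om T else 0) := by
          split_ifs <;> [exact hom; exact le_rfl]
        by_cases hg : Good (a * (y * nn T))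
        · rw [if_pos hg]
          exact mul_nonneg hinv (add_nonneg hA hB)
        · rw [if_neg hg]
          apply mul_le_mul_of_nonneg_left _ hinv
          by_cases hg2 : Good (a * nn T)
          · have hpos : 0 < a * nn T := Nat.mul_pos ha (nn_pos' hT)
            have hnd : ¬ y ∣ a * nn T := by
              rw [hy.1.dvd_mul, not_or]
              refine ⟨fun h => ?_, not_dvd_nn hy.1 hT⟩
              have := Nat.le_of_dvd ha h
              omega
            have hyE : y ∈ E (a * nn T) := by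
              by_contra hc
              apply hg
              have := hgood (a * nn T) y hpos hg2 hy.1 hnd hc
              rwa [show a * nn T * y = a * (y * nn T) by ring] at this
            rw [if_pos hg2, if_pos ⟨hg2, hyE⟩, zero_add]
          · rw [if_neg hg2]
            linarith
      have hW : WW (PQ Q (y + 1)) = (1 + 1 / (y : ℝ)) * WW (PQ Q y) := by
        unfold WW
        rw [PQ_succ_of hy, Finset.prod_insert hnm]
      have hS : ∑ p ∈ PQ Q (y + 1), 1 / (p : ℝ) * (bet Good a E Q p / WW (PQ Q p)) =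
          1 / (y : ℝ) * (bet Good a E Q y / WW (PQ Q y)) +
          ∑ p ∈ PQ Q y, 1 / (p : ℝ) * (bet Good a E Q p / WW (PQ Q p)) := by
        rw [PQ_succ_of hy, Finset.sum_insert hnm]
      rw [e, hW, hS]
      have hWp : 0 < WW (PQ Q y) := by linarith [WW_ge_one (PQ Q y)]
      have hbet := bet_nonneg Good a E Q y
      set Sg := ∑ p ∈ PQ Q y, 1 / (p : ℝ) * (bet Good a E Q p / WW (PQ Q p)) with hSg
      have h2 : bsum Good a Q y + 1 / (y : ℝ) * (bsum Good a Q y + bet Good a E Q y) =
          (1 + 1 / (y : ℝ)) * bsum Good a Q y + 1 / (y : ℝ) * bet Good a E Q y := by ring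
      have h3 : (1 + 1 / (y : ℝ)) * bsum Good a Q y ≤ (1 + 1 / (y : ℝ)) * (WW (PQ Q y) * Sg) :=
        mul_le_mul_of_nonneg_left ih (by positivity)
      have h4 : 1 / (y : ℝ) * bet Good a E Q y ≤
          (1 + 1 / (y : ℝ)) * WW (PQ Q y) * (1 / (y : ℝ) * (bet Good a E Q y / WW (PQ Q y))) := by
        have e2 : (1 + 1 / (y : ℝ)) * WW (PQ Q y) *
            (1 / (y : ℝ) * (bet Good a E Q y / WW (PQ Q y))) =
            (1 + 1 / (y : ℝ)) * (1 / (y : ℝ) * bet Good a E Q y) := by
          field_simp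
        rw [e2]
        have h5 : 0 ≤ 1 / (y : ℝ) * bet Good a E Q y := by positivity
        have h6 : (0 : ℝ) ≤ 1 / (y : ℝ) := by positivity
        nlinarith
      nlinarith
    · have h1 : bsum Good a Q (y + 1) = bsum Good a Q y := by
        unfold bsum; rw [PQ_succ_not hy]
      rw [h1, PQ_succ_not hy]
      exact ih

/-- sums over all the sets, by the largest element -/
theorem sum_by_max {Q : ℕ} (F : Finset ℕ → ℝ) (g : ℕ → ℝ)
    (y : ℕ) (hF : ∀ p ∈ PQ Q y, ∀ T ∈ (PQ Q p).powerset, F (insert p T) ≤ g p) :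
    ∑ T ∈ (PQ Q y).powerset, om T * F T ≤
      F ∅ + ∑ p ∈ PQ Q y, 1 / (p : ℝ) * g p * WW (PQ Q p) := by
  induction y with
  | zero =>
    have h0 : PQ Q 0 = ∅ := by unfold PQ; simp
    rw [h0, Finset.powerset_empty, Finset.sum_singleton, Finset.sum_empty, om_empty]
    linarith
  | succ y ih =>
    by_cases hy : y.Prime ∧ Q < y
    · have hnm := notMem_PQ Q y
      have ih' := ih (fun p hp => hF p (PQ_mono (Nat.le_succ y) hp))
      have hyM : y ∈ PQ Q (y + 1) := mem_PQ.2 ⟨Nat.lt_succ_self y, hy⟩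
      rw [PQ_succ_of hy, Finset.sum_powerset_insert hnm, Finset.sum_insert hnm]
      have h1 : ∑ T ∈ (PQ Q y).powerset, om (insert y T) * F (insert y T) ≤
          1 / (y : ℝ) * g y * WW (PQ Q y) := by
        rw [← sum_om, Finset.mul_sum]
        apply Finset.sum_le_sum
        intro T hT
        have hyT : y ∉ T := fun h => hnm (Finset.mem_powerset.1 hT h)
        rw [om_insert hyT]
        have h2 := hF y hyM T hT
        have h3 : 0 ≤ 1 / (y : ℝ) * om T := mul_nonneg (by positivity) (om_nonneg T)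
        calc 1 / (y : ℝ) * om T * F (insert y T) ≤ 1 / (y : ℝ) * om T * g y :=
              mul_le_mul_of_nonneg_left h2 h3
          _ = 1 / (y : ℝ) * g y * om T := by ring
      linarith
    · rw [PQ_succ_not hy]
      exact ih (fun p hp => hF p (PQ_mono (Nat.le_succ y) hp))

end Pool.Agent.Q79.KQ
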