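import Mathlib
import Pool.Agent.Q79.KqC

set_option autoImplicit false

open Finset

namespace Pool.Agent.Q79.KQ

/-! ### Harmonic sums over classes -/

theorem harm_log {t : ℝ} (ht : 0 ≤ t) (J : Finset ℕ) (hJ : ∀ j ∈ J, 0 < j ∧ Real.log j ≤ t) :
    ∑ j ∈ J, (1 : ℝ) / j ≤ 1 + t := by
  set n := ⌊Real.exp t⌋₊ with hn
  have hn1 : 1 ≤ n := by
    rw [hn, Nat.one_le_floor_iff]
    exact Real.one_le_exp ht
  have hsub : J ⊆ Finset.Icc 1 n := by
    intro j hj
    obtain ⟨h1, h2⟩ := hJ j hj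
    rw [Finset.mem_Icc]
    refine ⟨h1, ?_⟩
    rw [hn]
    apply Nat.le_floor
    rw [← Real.log_le_iff_le_exp (by exact_mod_cast h1)]
    exact h2
  have h2 : ((harmonic n : ℚ) : ℝ) = ∑ b ∈ Finset.Icc 1 n, (1 : ℝ) / b := by
    rw [harmonic_eq_sum_Icc]
    push_cast
    apply Finset.sum_congr rfl
    intro b _
    rw [one_div]
  calc ∑ j ∈ J, (1 : ℝ) / j ≤ ∑ b ∈ Finset.Icc 1 n, (1 : ℝ) / b :=
        Finset.sum_le_sum_of_subset_of_nonneg hsub (fun _ _ _ => by positivity)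
    _ = ((harmonic n : ℚ) : ℝ) := h2.symm
    _ ≤ 1 + Real.log n := harmonic_le_one_add_log n
    _ ≤ 1 + t := by
        have h3 : Real.log n ≤ t := by
          rw [Real.log_le_iff_le_exp (by exact_mod_cast hn1)]
          exact Nat.floor_le (Real.exp_pos t).le
        linarith

/-- integers `n > 1` with `n ≡ 1 (mod e)` -/
theorem sum_prog {t : ℝ} (ht : 0 ≤ t) {e : ℕ} (he : 0 < e) (S : Finset ℕ)
    (hS : ∀ n ∈ S, 1 < n ∧ e ∣ n - 1 ∧ Real.log n ≤ t) :
    ∑ n ∈ S, (1 : ℝ) / n ≤ 1 / e * (1 + t) := by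
  have heR : (0 : ℝ) < e := by exact_mod_cast he
  have hinj : Set.InjOn (fun n => (n - 1) / e) (S : Set ℕ) := by
    intro n hn n' hn' h
    obtain ⟨h1, h2, -⟩ := hS n hn
    obtain ⟨h1', h2', -⟩ := hS n' hn'
    have h3 := Nat.div_mul_cancel h2
    have h4 := Nat.div_mul_cancel h2'
    have h5 : (n - 1) / e = (n' - 1) / e := h
    rw [h5] at h3
    omega
  have h1 : ∑ n ∈ S, (1 : ℝ) / n ≤ ∑ n ∈ S, 1 / (e : ℝ) * (1 / (((n - 1) / e : ℕ) : ℝ)) := by
    apply Finset.sum_le_sum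
    intro n hn
    obtain ⟨h1, h2, -⟩ := hS n hn
    have h3 := Nat.div_mul_cancel h2
    have h4 : 0 < (n - 1) / e := Nat.div_pos (Nat.le_of_dvd (by omega) h2) he
    rw [one_div_mul_one_div]
    apply one_div_le_one_div_of_le
    · have : (0 : ℝ) < (((n - 1) / e : ℕ) : ℝ) := by exact_mod_cast h4
      positivity
    · have : e * ((n - 1) / e) ≤ n := by rw [mul_comm]; omega
      exact_mod_cast this
  refine h1.trans ?_
  rw [← Finset.mul_sum]
  apply mul_le_mul_of_nonneg_left _ (by positivity)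
  rw [← Finset.sum_image (f := fun j : ℕ => (1 : ℝ) / j) hinj]
  apply harm_log ht
  intro j hj
  rw [Finset.mem_image] at hj
  obtain ⟨n, hn, rfl⟩ := hj
  obtain ⟨h1, h2, h3⟩ := hS n hn
  have h4 : 0 < (n - 1) / e := Nat.div_pos (Nat.le_of_dvd (by omega) h2) he
  refine ⟨h4, le_trans (Real.log_le_log (by exact_mod_cast h4) ?_) h3⟩
  have : (n - 1) / e ≤ n := (Nat.div_le_self _ _).trans (Nat.sub_le _ _)
  exact_mod_cast this

/-- integers `n > q` of order `d` modulo `q` -/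
theorem sum_class {t : ℝ} (ht : 0 ≤ t) {q d : ℕ} (hq : q.Prime) (hd : 0 < d) (S : Finset ℕ)
    (hS : ∀ n ∈ S, q < n ∧ orderOf (n : ZMod q) = d ∧ Real.log n ≤ t) :
    ∑ n ∈ S, (1 : ℝ) / n ≤ d / q * (1 + t) := by
  have i0 : Fact q.Prime := ⟨hq⟩
  have hq0 : 0 < q := hq.pos
  have hqR : (0 : ℝ) < q := by exact_mod_cast hq0
  set C : Finset (ZMod q) := Finset.univ.filter (fun c => c ^ d = 1) with hC
  have hCcard : C.card ≤ d := by
    have h1 : C ⊆ Polynomial.nthRootsFinset d (1 : ZMod q) := by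
      intro c hc
      have hc' : c ^ d = 1 := (Finset.mem_filter.1 hc).2
      exact (Polynomial.mem_nthRootsFinset hd 1).2 hc'
    refine (Finset.card_le_card h1).trans ?_
    unfold Polynomial.nthRootsFinset
    exact (@Multiset.toFinset_card_le _ (Classical.decEq _) _).trans
      (Polynomial.card_nthRoots d 1)
  set J : Finset ℕ := S.image (fun n => n / q) with hJ
  have hinj : Set.InjOn (fun n : ℕ => ((n : ZMod q), n / q)) (S : Set ℕ) := by
    intro n _ n' _ h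
    have h' : ((n : ZMod q), n / q) = ((n' : ZMod q), n' / q) := h
    rw [Prod.mk.injEq] at h'
    obtain ⟨h1, h2⟩ := h'
    rw [ZMod.natCast_eq_natCast_iff'] at h1
    rw [← Nat.div_add_mod n q, ← Nat.div_add_mod n' q, h1, h2]
  have h1 : ∑ n ∈ S, (1 : ℝ) / n ≤ ∑ n ∈ S, 1 / (q : ℝ) * (1 / ((n / q : ℕ) : ℝ)) := by
    apply Finset.sum_le_sum
    intro n hn
    obtain ⟨h1, -, -⟩ := hS n hn
    have h4 : 0 < n / q := Nat.div_pos h1.le hq0
    rw [one_div_mul_one_div]
    apply one_div_le_one_div_of_le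
    · have : (0 : ℝ) < ((n / q : ℕ) : ℝ) := by exact_mod_cast h4
      positivity
    · have : q * (n / q) ≤ n := Nat.mul_div_le n q
      exact_mod_cast this
  refine h1.trans ?_
  have h2 : ∑ n ∈ S, 1 / (q : ℝ) * (1 / ((n / q : ℕ) : ℝ)) =
      ∑ x ∈ S.image (fun n : ℕ => ((n : ZMod q), n / q)), 1 / (q : ℝ) * (1 / (x.2 : ℝ)) := by
    rw [Finset.sum_image hinj]
  rw [h2]
  have h3 : S.image (fun n : ℕ => ((n : ZMod q), n / q)) ⊆ C ×ˢ J := by
    intro x hx
    rw [Finset.mem_image] at hx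
    obtain ⟨n, hn, rfl⟩ := hx
    rw [Finset.mem_product, hC, Finset.mem_filter, hJ]
    obtain ⟨-, h4, -⟩ := hS n hn
    refine ⟨⟨Finset.mem_univ _, ?_⟩, Finset.mem_image_of_mem _ hn⟩
    rw [← h4]
    exact pow_orderOf_eq_one _
  have h4 : ∑ j ∈ J, (1 : ℝ) / j ≤ 1 + t := by
    apply harm_log ht
    intro j hj
    rw [hJ, Finset.mem_image] at hj
    obtain ⟨n, hn, rfl⟩ := hj
    obtain ⟨h5, -, h6⟩ := hS n hn
    have h7 : 0 < n / q := Nat.div_pos h5.le hq0
    refine ⟨h7, le_trans (Real.log_le_log (by exact_mod_cast h7) ?_) h6⟩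
    exact_mod_cast Nat.div_le_self n q
  calc ∑ x ∈ S.image (fun n : ℕ => ((n : ZMod q), n / q)), 1 / (q : ℝ) * (1 / (x.2 : ℝ))
      ≤ ∑ x ∈ C ×ˢ J, 1 / (q : ℝ) * (1 / (x.2 : ℝ)) :=
        Finset.sum_le_sum_of_subset_of_nonneg h3 (fun _ _ _ => by positivity)
    _ = C.card * (1 / (q : ℝ) * ∑ j ∈ J, (1 : ℝ) / j) := by
        rw [Finset.sum_product]
        simp only [Finset.sum_const, nsmul_eq_mul, Finset.mul_sum]
    _ ≤ d * (1 / (q : ℝ) * (1 + t)) := by
        have hC' : (C.card : ℝ) ≤ d := by exact_mod_cast hCcard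
        have h5 : 0 ≤ ∑ j ∈ J, (1 : ℝ) / j := Finset.sum_nonneg (fun _ _ => by positivity)
        gcongr
    _ = d / q * (1 + t) := by ring

/-! ### The telescoping sum -/

theorem inv_log_sq_le {n : ℕ} (hn : 3 ≤ n) :
    1 / (n : ℝ) * (1 / (Real.log n) ^ 2) ≤ 1 / Real.log ((n - 1 : ℕ) : ℝ) - 1 / Real.log n := by
  have hn1 : ((n - 1 : ℕ) : ℝ) = n - 1 := by
    rw [Nat.cast_sub (by omega)]; norm_num
  rw [hn1]
  have hnR : (3 : ℝ) ≤ n := by exact_mod_cast hn
  have hl1 : 0 < Real.log ((n : ℝ) - 1) := Real.log_pos (by linarith)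
  have hl2 : 0 < Real.log n := Real.log_pos (by linarith)
  have hle : Real.log ((n : ℝ) - 1) ≤ Real.log n := Real.log_le_log (by linarith) (by linarith)
  have h1 : 1 / (n : ℝ) ≤ Real.log n - Real.log ((n : ℝ) - 1) := by
    have h2 : Real.log (((n : ℝ) - 1) / n) ≤ ((n : ℝ) - 1) / n - 1 :=
      Real.log_le_sub_one_of_pos (by apply div_pos <;> linarith)
    rw [Real.log_div (by linarith) (by linarith)] at h2
    have h3 : ((n : ℝ) - 1) / n - 1 = -(1 / n) := by field_simp; ring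
    linarith
  rw [div_sub_div _ _ hl1.ne' hl2.ne', one_mul, mul_one]
  calc 1 / (n : ℝ) * (1 / (Real.log n) ^ 2)
      ≤ (Real.log n - Real.log ((n : ℝ) - 1)) * (1 / (Real.log n) ^ 2) :=
        mul_le_mul_of_nonneg_right h1 (by positivity)
    _ ≤ (Real.log n - Real.log ((n : ℝ) - 1)) * (1 / (Real.log ((n : ℝ) - 1) * Real.log n)) := by
        apply mul_le_mul_of_nonneg_left _ (by linarith)
        apply one_div_le_one_div_of_le (by positivity)
        rw [sq]
        exact mul_le_mul_of_nonneg_right hle hl2.le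
    _ = _ := by rw [mul_one_div]

theorem sum_inv_log_sq {Q : ℕ} (hQ : 2 ≤ Q) (y : ℕ) :
    ∑ p ∈ PQ Q y, 1 / (p : ℝ) * (1 / (Real.log p) ^ 2) ≤ 1 / Real.log Q := by
  have hlQ : 0 < Real.log Q := Real.log_pos (by exact_mod_cast (by omega : 1 < Q))
  have key : ∀ y : ℕ, Q + 1 ≤ y → ∑ p ∈ PQ Q y, 1 / (p : ℝ) * (1 / (Real.log p) ^ 2) ≤
      1 / Real.log Q - 1 / Real.log ((y - 1 : ℕ) : ℝ) := by
    intro y hy
    induction y, hy using Nat.le_induction with
    | base =>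
      have h0 : PQ Q (Q + 1) = ∅ := by
        ext p
        rw [mem_PQ]
        constructor
        · rintro ⟨h1, -, h2⟩; omega
        · intro h; simp at h
      rw [h0, Finset.sum_empty, Nat.add_sub_cancel, sub_self]
    | succ y hy ih =>
      have h1 := inv_log_sq_le (n := y) (by omega)
      rw [Nat.add_sub_cancel]
      by_cases hp : y.Prime ∧ Q < y
      · rw [PQ_succ_of hp, Finset.sum_insert (notMem_PQ Q y)]
        linarith
      · rw [PQ_succ_not hp]
        have h2 : 0 ≤ 1 / (y : ℝ) * (1 / (Real.log y) ^ 2) := by positivity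
        linarith
  rcases Nat.lt_or_ge y (Q + 1) with h | h
  · have h0 : PQ Q y = ∅ := by
      ext p
      rw [mem_PQ]
      constructor
      · rintro ⟨h1, -, h2⟩; omega
      · intro h; simp at h
    rw [h0, Finset.sum_empty]
    positivity
  · refine (key y h).trans ?_
    have : 0 ≤ 1 / Real.log ((y - 1 : ℕ) : ℝ) := by
      have := Real.log_natCast_nonneg (y - 1)
      positivity
    linarith

/-! ### The order condition -/

/-- the majorant -/
noncomputable def uu (e : ℕ) : ℝ := (1 / (e : ℝ)) ^ 2 * (1 + Real.sqrt (Real.sqrt (e + 1))) ^ 2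

theorem uu_nonneg (e : ℕ) : 0 ≤ uu e := by unfold uu; positivity

theorem uu_summable : Summable uu := by
  have h1 : Summable (fun n : ℕ => 8 * (1 / (n : ℝ) ^ (3 / 2 : ℝ))) :=
    (Real.summable_one_div_nat_rpow.2 (by norm_num)).mul_left 8
  apply Summable.of_nonneg_of_le uu_nonneg _ h1
  intro e
  rcases Nat.eq_zero_or_pos e with h | h
  · subst h
    unfold uu
    simp only [Nat.cast_zero, div_zero, ne_eq, OfNat.ofNat_ne_zero, not_false_eq_true, zero_pow,
      zero_mul]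
    positivity
  · have he : (1 : ℝ) ≤ e := by exact_mod_cast h
    have he0 : (0 : ℝ) < e := by linarith
    set s := Real.sqrt ((e : ℝ) + 1) with hs
    have hs1 : 1 ≤ s := by
      rw [hs, Real.one_le_sqrt]; linarith
    set r := Real.sqrt s with hr
    have hr1 : 1 ≤ r := by rw [hr, Real.one_le_sqrt]; exact hs1
    have hr2 : r ^ 2 = s := Real.sq_sqrt (by linarith)
    have h2 : (1 + r) ^ 2 ≤ 4 * s := by nlinarith
    have hs2 : s ≤ 2 * Real.sqrt e := by
      rw [hs]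
      have h3 : Real.sqrt ((e : ℝ) + 1) ≤ Real.sqrt (4 * e) := Real.sqrt_le_sqrt (by linarith)
      have h4 : Real.sqrt (4 * (e : ℝ)) = 2 * Real.sqrt e := by
        rw [Real.sqrt_mul (by norm_num), show (4 : ℝ) = 2 ^ 2 by norm_num,
          Real.sqrt_sq (by norm_num)]
      rw [h4] at h3
      exact h3
    have h5 : (e : ℝ) ^ (3 / 2 : ℝ) * Real.sqrt e = (e : ℝ) ^ 2 := by
      rw [Real.sqrt_eq_rpow, ← Real.rpow_add he0]
      norm_num
    have hsq : 0 < Real.sqrt (e : ℝ) := Real.sqrt_pos.2 he0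
    have h6 : (0 : ℝ) < (e : ℝ) ^ (3 / 2 : ℝ) := Real.rpow_pos_of_pos he0 _
    unfold uu
    calc (1 / (e : ℝ)) ^ 2 * (1 + r) ^ 2 ≤ (1 / (e : ℝ)) ^ 2 * (8 * Real.sqrt e) := by
          apply mul_le_mul_of_nonneg_left _ (by positivity)
          linarith
      _ = 8 * (1 / (e : ℝ) ^ (3 / 2 : ℝ)) := by
          rw [div_pow, one_pow, ← h5]
          field_simp

/-- the pairs `(p, q)` for which the order of `p` modulo `q` is small -/
theorem order_sum {Q : ℕ} (x : ℕ) :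
    ∑ p ∈ PQ Q x, 1 / (p : ℝ) * ∑ q ∈ (PQ Q p).filter
      (fun q => (Real.log p) ^ 4 * (orderOf (p : ZMod q) : ℝ) < q), (1 : ℝ) / q ≤
    ∑ e ∈ (range x).filter (fun e : ℕ => (Real.log Q) ^ 4 < (e : ℝ) + 1), uu e := by
  classical
  have hstep : ∑ p ∈ PQ Q x, 1 / (p : ℝ) * ∑ q ∈ (PQ Q p).filter
      (fun q => (Real.log p) ^ 4 * (orderOf (p : ZMod q) : ℝ) < q), (1 : ℝ) / q ≤
      ∑ p ∈ PQ Q x, ∑ q ∈ PQ Q x, ∑ e ∈ (range x).filter
        (fun e : ℕ => (Real.log Q) ^ 4 < (e : ℝ) + 1),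
        (if q < p ∧ e * orderOf (p : ZMod q) + 1 = q ∧ (Real.log p) ^ 4 < (e : ℝ) + 1 then
          1 / (q : ℝ) * (1 / (p : ℝ)) else 0) := by
    apply Finset.sum_le_sum
    intro p hp
    rw [Finset.mul_sum]
    have hsub : (PQ Q p).filter
      (fun q => (Real.log p) ^ 4 * (orderOf (p : ZMod q) : ℝ) < q) ⊆ PQ Q x :=
      (Finset.filter_subset _ _).trans (PQ_mono (mem_PQ.1 hp).1.le)
    refine le_trans ?_ (Finset.sum_le_sum_of_subset_of_nonneg hsub ?_)
    · apply Finset.sum_le_sum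
      intro q hq
      rw [Finset.mem_filter, mem_PQ] at hq
      obtain ⟨⟨hqp, hqP, hQq⟩, hlt⟩ := hq
      rw [mem_PQ] at hp
      have i0 : Fact q.Prime := ⟨hqP⟩
      have hne : (p : ZMod q) ≠ 0 := by
        intro h
        have h1 := (ZMod.natCast_eq_zero_iff _ _).1 h
        rw [Nat.prime_dvd_prime_iff_eq hqP hp.2.1] at h1
        omega
      have hdvd : orderOf (p : ZMod q) ∣ q - 1 :=
        orderOf_dvd_of_pow_eq_one (ZMod.pow_card_sub_one_eq_one hne)
      have hq2 := hqP.two_le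
      have ho : 0 < orderOf (p : ZMod q) := Nat.pos_of_dvd_of_pos hdvd (by omega)
      obtain ⟨e, he⟩ := hdvd
      have hexq : e * orderOf (p : ZMod q) + 1 = q := by
        rw [mul_comm, ← he]; omega
      have hex : e < x := by
        have h2 : e ≤ e * orderOf (p : ZMod q) := Nat.le_mul_of_pos_right e ho
        omega
      have hoR : (1 : ℝ) ≤ (orderOf (p : ZMod q) : ℝ) := by exact_mod_cast ho
      have hle : (Real.log p) ^ 4 < (e : ℝ) + 1 := by
        have h2 : (q : ℝ) = e * (orderOf (p : ZMod q) : ℝ) + 1 := by exact_mod_cast hexq.symm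
        rw [h2] at hlt
        have h3 : (Real.log p) ^ 4 * (orderOf (p : ZMod q) : ℝ) <
            ((e : ℝ) + 1) * (orderOf (p : ZMod q) : ℝ) := by nlinarith
        exact lt_of_mul_lt_mul_right h3 (by linarith)
      have hlQ : (Real.log Q) ^ 4 < (e : ℝ) + 1 := by
        refine lt_of_le_of_lt ?_ hle
        apply pow_le_pow_left₀ (Real.log_natCast_nonneg Q)
        rcases Nat.eq_zero_or_pos Q with h0 | h0
        · rw [h0, Nat.cast_zero, Real.log_zero]
          exact Real.log_natCast_nonneg p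
        · apply Real.log_le_log (by exact_mod_cast h0)
          exact_mod_cast hp.2.2.le
      have hmem : e ∈ (range x).filter (fun e : ℕ => (Real.log Q) ^ 4 < (e : ℝ) + 1) := by
        rw [Finset.mem_filter, Finset.mem_range]; exact ⟨hex, hlQ⟩
      refine le_trans ?_ (Finset.single_le_sum (f := fun e : ℕ =>
        (if q < p ∧ e * orderOf (p : ZMod q) + 1 = q ∧ (Real.log p) ^ 4 < (e : ℝ) + 1 then
          1 / (q : ℝ) * (1 / (p : ℝ)) else 0)) (fun i _ => by split_ifs <;> positivity) hmem)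
      rw [if_pos ⟨hqp, hexq, hle⟩, mul_comm]
    · intro q _ _
      apply Finset.sum_nonneg
      intro e _
      split_ifs <;> positivity
  refine hstep.trans ?_
  have hswap : ∑ p ∈ PQ Q x, ∑ q ∈ PQ Q x, ∑ e ∈ (range x).filter
        (fun e : ℕ => (Real.log Q) ^ 4 < (e : ℝ) + 1),
        (if q < p ∧ e * orderOf (p : ZMod q) + 1 = q ∧ (Real.log p) ^ 4 < (e : ℝ) + 1 then
          1 / (q : ℝ) * (1 / (p : ℝ)) else 0) =
      ∑ e ∈ (range x).filter (fun e : ℕ => (Real.log Q) ^ 4 < (e : ℝ) + 1), ∑ q ∈ PQ Q x,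
        ∑ p ∈ PQ Q x,
        (if q < p ∧ e * orderOf (p : ZMod q) + 1 = q ∧ (Real.log p) ^ 4 < (e : ℝ) + 1 then
          1 / (q : ℝ) * (1 / (p : ℝ)) else 0) := by
    rw [Finset.sum_comm]
    rw [Finset.sum_congr rfl (fun q _ => Finset.sum_comm)]
    rw [Finset.sum_comm]
  rw [hswap]
  apply Finset.sum_le_sum
  intro e _
  set t := Real.sqrt (Real.sqrt ((e : ℝ) + 1)) with ht
  have ht0 : 0 ≤ t := Real.sqrt_nonneg _
  have ht4 : t ^ 4 = (e : ℝ) + 1 := by
    have h1 : t ^ 2 = Real.sqrt ((e : ℝ) + 1) := Real.sq_sqrt (Real.sqrt_nonneg _)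
    calc t ^ 4 = (t ^ 2) ^ 2 := by ring
      _ = (Real.sqrt ((e : ℝ) + 1)) ^ 2 := by rw [h1]
      _ = (e : ℝ) + 1 := Real.sq_sqrt (by positivity)
  have hlogt : ∀ p : ℕ, (Real.log p) ^ 4 < (e : ℝ) + 1 → Real.log p ≤ t := by
    intro p hp
    rw [← ht4] at hp
    exact (lt_of_pow_lt_pow_left₀ 4 ht0 hp).le
  rcases Nat.eq_zero_or_pos e with he | he
  · refine le_trans (le_of_eq ?_) (uu_nonneg e)
    apply Finset.sum_eq_zero
    intro q hq
    apply Finset.sum_eq_zero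
    intro p _
    rw [if_neg]
    rintro ⟨-, h2, -⟩
    rw [he, zero_mul] at h2
    have := (mem_PQ.1 hq).2.1.two_le
    omega
  have heR : (0 : ℝ) < e := by exact_mod_cast he
  -- for fixed `q`
  have hin : ∀ q ∈ PQ Q x, ∑ p ∈ PQ Q x,
        (if q < p ∧ e * orderOf (p : ZMod q) + 1 = q ∧ (Real.log p) ^ 4 < (e : ℝ) + 1 then
          1 / (q : ℝ) * (1 / (p : ℝ)) else 0) ≤
      (if 1 < q ∧ e ∣ q - 1 ∧ Real.log q ≤ t then 1 / (q : ℝ) * (1 / (e : ℝ) * (1 + t)) else 0) := by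
    intro q hq
    rw [mem_PQ] at hq
    have hqR : (0 : ℝ) < q := by exact_mod_cast hq.2.1.pos
    rw [← Finset.sum_filter, ← Finset.mul_sum]
    rcases ((PQ Q x).filter (fun p => q < p ∧ e * orderOf (p : ZMod q) + 1 = q ∧
      (Real.log p) ^ 4 < (e : ℝ) + 1)).eq_empty_or_nonempty with h | ⟨p₀, hp₀⟩
    · rw [h, Finset.sum_empty, mul_zero]
      split_ifs <;> positivity
    · rw [Finset.mem_filter] at hp₀
      obtain ⟨-, h1, h2, h3⟩ := hp₀
      have hd1 : e ∣ q - 1 := ⟨orderOf (p₀ : ZMod q), by omega⟩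
      have hlq : Real.log q ≤ t := by
        refine le_trans (Real.log_le_log hqR ?_) (hlogt p₀ h3)
        exact_mod_cast h1.le
      rw [if_pos ⟨hq.2.1.one_lt, hd1, hlq⟩]
      apply mul_le_mul_of_nonneg_left _ (by positivity)
      have hd0 : 0 < (q - 1) / e := Nat.div_pos (Nat.le_of_dvd (by
        have := hq.2.1.two_le; omega) hd1) he
      refine (sum_class ht0 hq.2.1 hd0 _ ?_).trans ?_
      · intro p hp
        rw [Finset.mem_filter] at hp
        obtain ⟨-, h4, h5, h6⟩ := hp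
        refine ⟨h4, ?_, hlogt p h6⟩
        have h7 : q - 1 = e * orderOf (p : ZMod q) := by omega
        rw [h7, Nat.mul_div_cancel_left _ he]
      · apply mul_le_mul_of_nonneg_right _ (by linarith)
        rw [div_le_div_iff₀ hqR heR, one_mul]
        have h8 : (q - 1) / e * e ≤ q := (Nat.div_mul_le_self _ _).trans (Nat.sub_le _ _)
        exact_mod_cast h8
  refine (Finset.sum_le_sum hin).trans ?_
  rw [← Finset.sum_filter, ← Finset.sum_mul]
  have h9 : ∑ q ∈ (PQ Q x).filter (fun q => 1 < q ∧ e ∣ q - 1 ∧ Real.log q ≤ t),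
      (1 : ℝ) / q ≤ 1 / e * (1 + t) := by
    apply sum_prog ht0 he
    intro q hq
    rw [Finset.mem_filter] at hq
    exact hq.2
  unfold uu
  calc (∑ q ∈ (PQ Q x).filter (fun q => 1 < q ∧ e ∣ q - 1 ∧ Real.log q ≤ t), (1 : ℝ) / q) *
        (1 / (e : ℝ) * (1 + t)) ≤ (1 / (e : ℝ) * (1 + t)) * (1 / (e : ℝ) * (1 + t)) :=
        mul_le_mul_of_nonneg_right h9 (by positivity)
    _ = (1 / (e : ℝ)) ^ 2 * (1 + t) ^ 2 := by ring

end Pool.Agent.Q79.KQ
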