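import Mathlib
import Pool.Agent.Q79.KqD
import Pool.Agent.Erdos456.Mertens

set_option autoImplicit false

open Finset

namespace Pool.Agent.Q79.KQ

/-! ### Weights of exceptional sets -/

theorem sum_om_superset (S U : Finset ℕ) :
    ∑ T ∈ S.powerset.filter (fun T => U ⊆ T), om T ≤ om U * WW S := by
  have h1 : ∑ T ∈ S.powerset.filter (fun T => U ⊆ T), om T =
      ∑ T ∈ S.powerset.filter (fun T => U ⊆ T), om U * om (T \ U) := by
    apply Finset.sum_congr rfl
    intro T hT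
    rw [Finset.mem_filter] at hT
    unfold om
    rw [mul_comm, Finset.prod_sdiff hT.2]
  rw [h1, ← Finset.mul_sum]
  apply mul_le_mul_of_nonneg_left _ (om_nonneg U)
  have hinj : Set.InjOn (fun T : Finset ℕ => T \ U)
      ((S.powerset.filter (fun T => U ⊆ T) : Finset (Finset ℕ)) : Set (Finset ℕ)) := by
    intro T hT T' hT' h
    rw [Finset.mem_coe, Finset.mem_filter] at hT hT'
    have h' : T \ U = T' \ U := h
    rw [← Finset.sdiff_union_of_subset hT.2, ← Finset.sdiff_union_of_subset hT'.2, h']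
  rw [← Finset.sum_image (f := om) hinj, ← sum_om]
  apply Finset.sum_le_sum_of_subset_of_nonneg
  · intro T hT
    rw [Finset.mem_image] at hT
    obtain ⟨T', hT', rfl⟩ := hT
    rw [Finset.mem_filter, Finset.mem_powerset] at hT'
    rw [Finset.mem_powerset]
    exact Finset.sdiff_subset.trans hT'.1
  · intro T _ _
    exact om_nonneg T

theorem sum_om_card (S : Finset ℕ) (k : ℕ) :
    ∑ T ∈ S.powerset.filter (fun T => k < T.card), om T ≤ 1 / 2 ^ k * WW S ^ 2 := by
  have h1 : ∑ T ∈ S.powerset.filter (fun T => k < T.card), om T ≤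
      ∑ T ∈ S.powerset, 1 / 2 ^ k * ∏ q ∈ T, (2 / (q : ℝ)) := by
    refine le_trans (Finset.sum_le_sum (g := fun T : Finset ℕ => 1 / 2 ^ k * ∏ q ∈ T, (2 / (q : ℝ))) ?_)
      (Finset.sum_le_sum_of_subset_of_nonneg (Finset.filter_subset _ _) ?_)
    · intro T hT
      rw [Finset.mem_filter] at hT
      have e : ∏ q ∈ T, (2 / (q : ℝ)) = 2 ^ T.card * om T := by
        unfold om
        rw [← Finset.prod_const, ← Finset.prod_mul_distrib]
        apply Finset.prod_congr rfl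
        intro q _
        rw [mul_one_div]
      rw [e, ← mul_assoc]
      apply le_mul_of_one_le_left (om_nonneg T)
      rw [one_div_mul_eq_div, one_le_div (by positivity)]
      exact pow_le_pow_right₀ (by norm_num) hT.2.le
    · intro T _ _
      apply mul_nonneg (by positivity)
      exact Finset.prod_nonneg (fun _ _ => by positivity)
  refine h1.trans ?_
  rw [← Finset.mul_sum, ← Finset.prod_one_add]
  apply mul_le_mul_of_nonneg_left _ (by positivity)
  unfold WW
  rw [← Finset.prod_pow]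
  apply Finset.prod_le_prod (fun _ _ => by positivity)
  intro q _
  have : (0 : ℝ) ≤ 1 / q := by positivity
  have e : 2 / (q : ℝ) = 2 * (1 / q) := by ring
  rw [e]
  nlinarith

/-- the pairs with a large common divisor -/
theorem gcd_sum {Q p : ℕ} (hL : 1 ≤ Real.log p) :
    ∑ q ∈ PQ Q p, ∑ q' ∈ PQ Q p,
      (if q ≠ q' ∧ (Real.log p) ^ 4 < (Nat.gcd (q - 1) (q' - 1) : ℝ) then
        1 / (q : ℝ) * (1 / (q' : ℝ)) else 0) ≤ 8 / (Real.log p) ^ 2 := by
  set L := Real.log p with hLdef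
  set k := ⌊L ^ 4⌋₊ with hk
  have hstep : ∑ q ∈ PQ Q p, ∑ q' ∈ PQ Q p,
      (if q ≠ q' ∧ L ^ 4 < (Nat.gcd (q - 1) (q' - 1) : ℝ) then
        1 / (q : ℝ) * (1 / (q' : ℝ)) else 0) ≤
      ∑ q ∈ PQ Q p, ∑ q' ∈ PQ Q p, ∑ d ∈ Finset.Ioo k p,
      (if d ∣ q - 1 ∧ d ∣ q' - 1 then 1 / (q : ℝ) * (1 / (q' : ℝ)) else 0) := by
    apply Finset.sum_le_sum
    intro q hq
    apply Finset.sum_le_sum
    intro q' hq'
    rw [mem_PQ] at hq hq'
    split_ifs with h
    · have h2 := hq.2.1.two_le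
      have hg : Nat.gcd (q - 1) (q' - 1) ≤ q - 1 := Nat.gcd_le_left _ (by omega)
      have hmem : Nat.gcd (q - 1) (q' - 1) ∈ Finset.Ioo k p := by
        rw [Finset.mem_Ioo]
        refine ⟨?_, by omega⟩
        rw [hk]
        exact (Nat.floor_lt (by positivity)).2 h.2
      refine le_trans ?_ (Finset.single_le_sum (f := fun d : ℕ =>
        (if d ∣ q - 1 ∧ d ∣ q' - 1 then 1 / (q : ℝ) * (1 / (q' : ℝ)) else 0))
        (fun i _ => by split_ifs <;> positivity) hmem)
      rw [if_pos ⟨Nat.gcd_dvd_left _ _, Nat.gcd_dvd_right _ _⟩]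
    · apply Finset.sum_nonneg
      intro d _
      split_ifs <;> positivity
  refine hstep.trans ?_
  have hswap : ∑ q ∈ PQ Q p, ∑ q' ∈ PQ Q p, ∑ d ∈ Finset.Ioo k p,
      (if d ∣ q - 1 ∧ d ∣ q' - 1 then 1 / (q : ℝ) * (1 / (q' : ℝ)) else 0) =
      ∑ d ∈ Finset.Ioo k p, (∑ q ∈ (PQ Q p).filter (fun q => d ∣ q - 1), 1 / (q : ℝ)) ^ 2 := by
    rw [Finset.sum_congr rfl (fun q _ => Finset.sum_comm), Finset.sum_comm]
    apply Finset.sum_congr rfl
    intro d _
    rw [sq, Finset.sum_mul_sum, Finset.sum_filter]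
    apply Finset.sum_congr rfl
    intro q _
    by_cases h : d ∣ q - 1
    · rw [if_pos h, Finset.sum_filter]
      apply Finset.sum_congr rfl
      intro q' _
      by_cases h' : d ∣ q' - 1
      · rw [if_pos ⟨h, h'⟩, if_pos h']
      · rw [if_neg (fun h2 => h' h2.2), if_neg h']
    · rw [if_neg h]
      apply Finset.sum_eq_zero
      intro q' _
      rw [if_neg (fun h2 => h h2.1)]
  rw [hswap]
  have hL0 : 0 < L := by linarith
  have hk1 : 1 ≤ L ^ 4 := one_le_pow₀ hL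
  calc ∑ d ∈ Finset.Ioo k p, (∑ q ∈ (PQ Q p).filter (fun q => d ∣ q - 1), 1 / (q : ℝ)) ^ 2
      ≤ ∑ d ∈ Finset.Ioo k p, (1 + L) ^ 2 * ((d : ℝ) ^ 2)⁻¹ := by
        apply Finset.sum_le_sum
        intro d hd
        rw [Finset.mem_Ioo] at hd
        have hd0 : 0 < d := by omega
        have hdR : (0 : ℝ) < d := by exact_mod_cast hd0
        have h1 : ∑ q ∈ (PQ Q p).filter (fun q => d ∣ q - 1), 1 / (q : ℝ) ≤ 1 / d * (1 + L) := by
          apply sum_prog hL0.le hd0
          intro q hq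
          rw [Finset.mem_filter, mem_PQ] at hq
          refine ⟨hq.1.2.1.one_lt, hq.2, ?_⟩
          apply Real.log_le_log (by exact_mod_cast hq.1.2.1.pos)
          exact_mod_cast hq.1.1.le
        have h2 : 0 ≤ ∑ q ∈ (PQ Q p).filter (fun q => d ∣ q - 1), 1 / (q : ℝ) :=
          Finset.sum_nonneg (fun _ _ => by positivity)
        calc (∑ q ∈ (PQ Q p).filter (fun q => d ∣ q - 1), 1 / (q : ℝ)) ^ 2
            ≤ (1 / d * (1 + L)) ^ 2 := pow_le_pow_left₀ h2 h1 2
          _ = (1 + L) ^ 2 * ((d : ℝ) ^ 2)⁻¹ := by rw [mul_pow, div_pow, one_pow]; ring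
    _ = (1 + L) ^ 2 * ∑ d ∈ Finset.Ioo k p, ((d : ℝ) ^ 2)⁻¹ := by rw [Finset.mul_sum]
    _ ≤ (1 + L) ^ 2 * (2 / (k + 1)) := by
        apply mul_le_mul_of_nonneg_left _ (by positivity)
        exact sum_Ioo_inv_sq_le k p
    _ ≤ (2 * L) ^ 2 * (2 / L ^ 4) := by
        have h3 : L ^ 4 ≤ (k : ℝ) + 1 := (Nat.lt_floor_add_one (L ^ 4)).le
        have h4 : 1 + L ≤ 2 * L := by linarith
        gcongr
    _ = 8 / L ^ 2 := by field_simp; norm_num

theorem WW_upper : ∃ C : ℝ, 0 < C ∧ ∀ Q y : ℕ, 3 ≤ y → WW (PQ Q y) ≤ C * Real.log y := by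
  obtain ⟨C, hC⟩ := Pool.Agent.Erdos456.Mert.mertens_inv
  refine ⟨Real.exp C, Real.exp_pos C, fun Q y hy => ?_⟩
  have h1 := (abs_le.1 (hC y hy)).2
  have hly : 0 < Real.log y := Real.log_pos (by exact_mod_cast (by omega : 1 < y))
  have h2 : WW (PQ Q y) ≤ Real.exp (∑ q ∈ PQ Q y, 1 / (q : ℝ)) := by
    unfold WW
    rw [Real.exp_sum]
    apply Finset.prod_le_prod (fun _ _ => by positivity)
    intro q _
    rw [add_comm]
    exact Real.add_one_le_exp _
  have h3 : ∑ q ∈ PQ Q y, 1 / (q : ℝ) ≤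
      ∑ p ∈ (Finset.Icc 1 y).filter Nat.Prime, (1 : ℝ) / p := by
    apply Finset.sum_le_sum_of_subset_of_nonneg
    · intro q hq
      rw [mem_PQ] at hq
      rw [Finset.mem_filter, Finset.mem_Icc]
      exact ⟨⟨hq.2.1.one_lt.le, hq.1.le⟩, hq.2.1⟩
    · intro _ _ _; positivity
  refine h2.trans ?_
  calc Real.exp (∑ q ∈ PQ Q y, 1 / (q : ℝ)) ≤ Real.exp (C + Real.log (Real.log y)) := by
        apply Real.exp_le_exp.2; linarith
    _ = Real.exp C * Real.log y := by rw [Real.exp_add, Real.exp_log hly]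

/-- **The classification.** -/
theorem bet_le {Good : ℕ → Prop} [DecidablePred Good] {a : ℕ} {E : ℕ → Finset ℕ} {Q p : ℕ}
    (hp : p.Prime) {k : ℕ} (hL : 1 ≤ Real.log p)
    (hk : ((Real.log p) ^ 4) ^ ((k + 1) * (k + 1)) ≤ Real.sqrt p) :
    bet Good a E Q p / WW (PQ Q p) ≤ 1 / 2 ^ k * WW (PQ Q p) +
      (∑ q ∈ (PQ Q p).filter (fun q => (Real.log p) ^ 4 * (orderOf (p : ZMod q) : ℝ) < q),
        (1 : ℝ) / q) + 8 / (Real.log p) ^ 2 +
      ∑ T ∈ (PQ Q p).powerset, (if (Good (a * nn T) ∧ p ∈ E (a * nn T)) ∧ T.card ≤ k ∧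
        (nn T : ℝ) ≤ lam T p * Real.sqrt p then om T else 0) := by
  classical
  set W := WW (PQ Q p) with hW
  have hW1 : 1 ≤ W := WW_ge_one _
  have hW0 : 0 < W := by linarith
  set L := Real.log p with hLd
  have hτ : 1 ≤ L ^ 4 := one_le_pow₀ hL
  -- pointwise
  have hpt : ∀ T ∈ (PQ Q p).powerset, (if Good (a * nn T) ∧ p ∈ E (a * nn T) then om T else 0) ≤
      (if k < T.card then om T else 0) +
      (∑ q ∈ (PQ Q p).filter (fun q => L ^ 4 * (orderOf (p : ZMod q) : ℝ) < q),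
        (if {q} ⊆ T then om T else 0)) +
      (∑ q ∈ PQ Q p, ∑ q' ∈ PQ Q p, (if q ≠ q' ∧ L ^ 4 < (Nat.gcd (q - 1) (q' - 1) : ℝ) then
        (if {q, q'} ⊆ T then om T else 0) else 0)) +
      (if (Good (a * nn T) ∧ p ∈ E (a * nn T)) ∧ T.card ≤ k ∧
        (nn T : ℝ) ≤ lam T p * Real.sqrt p then om T else 0) := by
    intro T hT
    have hTs := Finset.mem_powerset.1 hT
    have hom := om_nonneg T
    have n1 : 0 ≤ (if k < T.card then om T else 0) := by
      split_ifs <;> [exact hom; exact le_rfl]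
    have n2' : ∀ q ∈ (PQ Q p).filter (fun q => L ^ 4 * (orderOf (p : ZMod q) : ℝ) < q),
        0 ≤ (if {q} ⊆ T then om T else 0) := by
      intro q _; split_ifs <;> [exact hom; exact le_rfl]
    have n2 := Finset.sum_nonneg n2'
    have n3' : ∀ q ∈ PQ Q p, ∀ q' ∈ PQ Q p,
        0 ≤ (if q ≠ q' ∧ L ^ 4 < (Nat.gcd (q - 1) (q' - 1) : ℝ) then
        (if {q, q'} ⊆ T then om T else 0) else 0) := by
      intro q _ q' _
      split_ifs <;> [exact hom; exact le_rfl; exact le_rfl]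
    have n3 : 0 ≤ ∑ q ∈ PQ Q p, ∑ q' ∈ PQ Q p,
        (if q ≠ q' ∧ L ^ 4 < (Nat.gcd (q - 1) (q' - 1) : ℝ) then
        (if {q, q'} ⊆ T then om T else 0) else 0) :=
      Finset.sum_nonneg (fun q hq => Finset.sum_nonneg (n3' q hq))
    have n4 : 0 ≤ (if (Good (a * nn T) ∧ p ∈ E (a * nn T)) ∧ T.card ≤ k ∧
        (nn T : ℝ) ≤ lam T p * Real.sqrt p then om T else 0) := by
      split_ifs <;> [exact hom; exact le_rfl]
    by_cases hg : Good (a * nn T) ∧ p ∈ E (a * nn T)
    · rw [if_pos hg]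
      by_cases h1 : k < T.card
      · rw [if_pos h1]; linarith
      by_cases h2 : ∃ q ∈ T, L ^ 4 * (orderOf (p : ZMod q) : ℝ) < q
      · obtain ⟨q, hqT, hq⟩ := h2
        have hm : q ∈ (PQ Q p).filter (fun q => L ^ 4 * (orderOf (p : ZMod q) : ℝ) < q) :=
          Finset.mem_filter.2 ⟨hTs hqT, hq⟩
        have h3 := Finset.single_le_sum n2' hm
        rw [if_pos (Finset.singleton_subset_iff.2 hqT)] at h3
        linarith
      by_cases h3 : ∃ q ∈ T, ∃ q' ∈ T, q ≠ q' ∧ L ^ 4 < (Nat.gcd (q - 1) (q' - 1) : ℝ)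
      · obtain ⟨q, hqT, q', hqT', hne, hq⟩ := h3
        have h4 := Finset.single_le_sum (fun i hi => Finset.sum_nonneg (n3' i hi)) (hTs hqT)
        have h5 := Finset.single_le_sum (n3' q (hTs hqT)) (hTs hqT')
        have h6 : {q, q'} ⊆ T := by
          intro r hr
          rw [Finset.mem_insert, Finset.mem_singleton] at hr
          rcases hr with h | h
          · rw [h]; exact hqT
          · rw [h]; exact hqT'
        rw [if_pos ⟨hne, hq⟩, if_pos h6] at h5
        linarith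
      · have h4 : T.card ≤ k := not_lt.1 h1
        have h5 := nn_le (T := T) (p := p) (τ := L ^ 4) hτ (by
          intro q hq
          have h6 := mem_PQ.1 (hTs hq)
          refine ⟨h6.2.1, fun h7 => ?_⟩
          rw [Nat.prime_dvd_prime_iff_eq h6.2.1 hp] at h7
          omega) (by
          intro q hq
          by_contra h6
          exact h2 ⟨q, hq, not_le.1 h6⟩) (by
          intro q hq q' hq' hne
          by_contra h6
          exact h3 ⟨q, hq, q', hq', hne, not_le.1 h6⟩)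
        have h6 : (nn T : ℝ) ≤ lam T p * Real.sqrt p := by
          refine h5.trans ?_
          apply mul_le_mul_of_nonneg_left _ (by positivity)
          refine le_trans ?_ hk
          apply pow_le_pow_right₀ hτ
          exact Nat.mul_le_mul (by omega) (by omega)
        have h7 : (if (Good (a * nn T) ∧ p ∈ E (a * nn T)) ∧ T.card ≤ k ∧
          (nn T : ℝ) ≤ lam T p * Real.sqrt p then om T else 0) = om T := if_pos ⟨hg, h4, h6⟩
        rw [h7]
        linarith
    · rw [if_neg hg]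
      linarith
  have hsum := Finset.sum_le_sum hpt
  simp only [Finset.sum_add_distrib] at hsum
  have b1 : ∑ T ∈ (PQ Q p).powerset, (if k < T.card then om T else 0) ≤ 1 / 2 ^ k * W ^ 2 := by
    rw [← Finset.sum_filter]
    exact sum_om_card _ k
  have b2 : ∑ T ∈ (PQ Q p).powerset,
      ∑ q ∈ (PQ Q p).filter (fun q => L ^ 4 * (orderOf (p : ZMod q) : ℝ) < q),
        (if {q} ⊆ T then om T else 0) ≤
      (∑ q ∈ (PQ Q p).filter (fun q => L ^ 4 * (orderOf (p : ZMod q) : ℝ) < q),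
        (1 : ℝ) / q) * W := by
    rw [Finset.sum_comm, Finset.sum_mul]
    apply Finset.sum_le_sum
    intro q _
    rw [← Finset.sum_filter]
    refine (sum_om_superset _ _).trans (le_of_eq ?_)
    unfold om
    rw [Finset.prod_singleton]
  have b3 : ∑ T ∈ (PQ Q p).powerset, ∑ q ∈ PQ Q p, ∑ q' ∈ PQ Q p,
      (if q ≠ q' ∧ L ^ 4 < (Nat.gcd (q - 1) (q' - 1) : ℝ) then
        (if {q, q'} ⊆ T then om T else 0) else 0) ≤ 8 / L ^ 2 * W := by
    rw [Finset.sum_comm]
    rw [Finset.sum_congr rfl (fun q _ => Finset.sum_comm)]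
    calc ∑ q ∈ PQ Q p, ∑ q' ∈ PQ Q p, ∑ T ∈ (PQ Q p).powerset,
          (if q ≠ q' ∧ L ^ 4 < (Nat.gcd (q - 1) (q' - 1) : ℝ) then
            (if {q, q'} ⊆ T then om T else 0) else 0)
        ≤ ∑ q ∈ PQ Q p, ∑ q' ∈ PQ Q p,
          (if q ≠ q' ∧ L ^ 4 < (Nat.gcd (q - 1) (q' - 1) : ℝ) then
            1 / (q : ℝ) * (1 / (q' : ℝ)) else 0) * W := by
          apply Finset.sum_le_sum
          intro q _
          apply Finset.sum_le_sum
          intro q' _
          split_ifs with h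
          · rw [← Finset.sum_filter]
            refine (sum_om_superset _ _).trans (le_of_eq ?_)
            unfold om
            rw [Finset.prod_pair h.1]
          · rw [Finset.sum_const_zero, zero_mul]
      _ = (∑ q ∈ PQ Q p, ∑ q' ∈ PQ Q p,
          (if q ≠ q' ∧ L ^ 4 < (Nat.gcd (q - 1) (q' - 1) : ℝ) then
            1 / (q : ℝ) * (1 / (q' : ℝ)) else 0)) * W := by
          rw [Finset.sum_mul]
          apply Finset.sum_congr rfl
          intro q _
          rw [Finset.sum_mul]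
      _ ≤ 8 / L ^ 2 * W := mul_le_mul_of_nonneg_right (gcd_sum hL) hW0.le
  set X := ∑ T ∈ (PQ Q p).powerset, (if (Good (a * nn T) ∧ p ∈ E (a * nn T)) ∧ T.card ≤ k ∧
        (nn T : ℝ) ≤ lam T p * Real.sqrt p then om T else 0) with hX
  have hX0 : 0 ≤ X := Finset.sum_nonneg (fun T _ => by
    split_ifs <;> [exact om_nonneg T; exact le_rfl])
  have b4 : X ≤ X * W := le_mul_of_one_le_right hX0 hW1
  rw [div_le_iff₀ hW0]
  have hbet : bet Good a E Q p = ∑ T ∈ (PQ Q p).powerset,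
    (if Good (a * nn T) ∧ p ∈ E (a * nn T) then om T else 0) := rfl
  rw [hbet]
  refine hsum.trans ?_
  have e : (1 / 2 ^ k * W + (∑ q ∈ (PQ Q p).filter
      (fun q => L ^ 4 * (orderOf (p : ZMod q) : ℝ) < q), (1 : ℝ) / q) + 8 / L ^ 2 + X) * W =
      1 / 2 ^ k * W ^ 2 + (∑ q ∈ (PQ Q p).filter
      (fun q => L ^ 4 * (orderOf (p : ZMod q) : ℝ) < q), (1 : ℝ) / q) * W + 8 / L ^ 2 * W +
      X * W := by ring
  rw [e]
  linarith

end Pool.Agent.Q79.KQ
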