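import Mathlib
import Pool.Agent.Q79.KqE

set_option autoImplicit false

open Finset Filter

namespace Pool.Agent.Q79.KQ

/-- the bound for the number of primes -/
noncomputable def kk (p : ℕ) : ℕ := ⌈5 * Real.log (Real.log p)⌉₊

theorem big (a : ℕ) : ∃ Q₀ : ℕ, 2 ≤ Q₀ ∧ ∀ p : ℕ, Q₀ ≤ p → 1 ≤ Real.log p ∧
    Real.log a ≤ (Real.log p) ^ 2 ∧ (kk p : ℝ) ≤ Real.log p ∧ (Real.log p) ^ 6 ≤ Real.sqrt p ∧
    ((Real.log p) ^ 4) ^ ((kk p + 1) * (kk p + 1)) ≤ Real.sqrt p ∧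
    (Real.log p) ^ 3 ≤ 2 ^ (kk p) := by
  have hT : Tendsto (fun p : ℕ => Real.log (p : ℝ)) atTop atTop :=
    Real.tendsto_log_atTop.comp tendsto_natCast_atTop_atTop
  have h1 : ∀ᶠ L : ℝ in atTop, (Real.log L) ^ 3 ≤ 1 / 392 * L := by
    have h := (Real.isLittleO_pow_log_id_atTop (n := 3)).bound (c := 1 / 392) (by norm_num)
    filter_upwards [h, eventually_ge_atTop 1] with L hL h1
    rw [id, Real.norm_of_nonneg (by linarith : (0 : ℝ) ≤ L),
      Real.norm_of_nonneg (pow_nonneg (Real.log_nonneg h1) 3)] at hL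
    exact hL
  have h2 : ∀ᶠ L : ℝ in atTop, Real.log a ≤ L ^ 2 := by
    filter_upwards [eventually_ge_atTop (max 1 (Real.log a))] with L hL
    have h3 : 1 ≤ L := (le_max_left _ _).trans hL
    have h4 : Real.log a ≤ L := (le_max_right _ _).trans hL
    nlinarith
  have h3 : ∀ᶠ L : ℝ in atTop, Real.exp 1 ≤ L := eventually_ge_atTop _
  have h4 := hT.eventually (h1.and (h2.and h3))
  obtain ⟨Q₁, hQ₁⟩ := eventually_atTop.1 h4
  refine ⟨max Q₁ 2, le_max_right _ _, fun p hp => ?_⟩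
  obtain ⟨c1, c2, c3⟩ := hQ₁ p ((le_max_left _ _).trans hp)
  have hp2 : 2 ≤ p := (le_max_right _ _).trans hp
  have hpR : (0 : ℝ) < p := by exact_mod_cast (by omega : 0 < p)
  unfold kk
  set L := Real.log (p : ℝ) with hL
  have he1 : (1 : ℝ) ≤ Real.exp 1 := Real.one_le_exp (by norm_num)
  have hL1 : 1 ≤ L := he1.trans c3
  have hL0 : 0 < L := by linarith
  set ℓ := Real.log L with hℓ
  have hℓ1 : 1 ≤ ℓ := by
    rw [hℓ, Real.le_log_iff_exp_le hL0]; exact c3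
  have hℓL : ℓ ≤ ℓ ^ 3 := by nlinarith [pow_pos (show 0 < ℓ by linarith) 2]
  set k := ⌈5 * ℓ⌉₊ with hk
  have hk1 : 5 * ℓ ≤ k := Nat.le_ceil _
  have hk2 : (k : ℝ) < 5 * ℓ + 1 := Nat.ceil_lt_add_one (by linarith)
  have hsq : Real.sqrt p = Real.exp (L / 2) := by
    rw [hL, Real.sqrt_eq_rpow, Real.rpow_def_of_pos hpR]
    congr 1; ring
  have hexpL : Real.exp ℓ = L := Real.exp_log hL0
  refine ⟨hL1, c2, by nlinarith, ?_, ?_, ?_⟩
  · rw [hsq, ← hexpL, ← Real.exp_nat_mul, hexpL]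
    apply Real.exp_le_exp.2
    push_cast
    nlinarith
  · rw [hsq, ← pow_mul]
    have h5 : L ^ (4 * ((k + 1) * (k + 1))) = Real.exp (((4 * ((k + 1) * (k + 1)) : ℕ) : ℝ) * ℓ) := by
      rw [Real.exp_nat_mul, hexpL]
    rw [h5]
    apply Real.exp_le_exp.2
    push_cast
    have h6 : (k : ℝ) + 1 ≤ 7 * ℓ := by linarith
    have h7 : ((k : ℝ) + 1) * ((k : ℝ) + 1) ≤ (7 * ℓ) * (7 * ℓ) := by
      have : (0 : ℝ) ≤ k := by positivity
      nlinarith
    have h8 : 4 * (((k : ℝ) + 1) * ((k : ℝ) + 1)) * ℓ ≤ 4 * ((7 * ℓ) * (7 * ℓ)) * ℓ := by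
      apply mul_le_mul_of_nonneg_right _ (by linarith)
      linarith
    calc 4 * (((k : ℝ) + 1) * ((k : ℝ) + 1)) * ℓ ≤ 4 * ((7 * ℓ) * (7 * ℓ)) * ℓ := h8
      _ = 196 * ℓ ^ 3 := by ring
      _ ≤ L / 2 := by linarith
  · have h5 : L ^ 3 = Real.exp (3 * ℓ) := by
      rw [← hexpL, ← Real.exp_nat_mul]; norm_num [hexpL]
    have h6 : (2 : ℝ) ^ k = Real.exp (k * Real.log 2) := by
      rw [Real.exp_nat_mul, Real.exp_log (by norm_num)]
    rw [h5, h6]
    apply Real.exp_le_exp.2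
    have h7 := Real.log_two_gt_d9
    nlinarith

/-- the sum over the exceptional primes of a fixed set -/
theorem classI {Good : ℕ → Prop} {a : ℕ} {E : ℕ → Finset ℕ} {H : ℝ} (hH : 0 ≤ H) (ha : 0 < a)
    (hz : ∀ m, 0 < m → Good m → ∃ z : ℕ, z ≠ 0 ∧ Real.log z ≤ H * m * (Real.log m) ^ 2 ∧
      ∀ p ∈ E m, p.Prime → ¬ p ∣ 2 * m → ∃ f : ℕ, 0 < f ∧ p ^ f ∣ z ∧ m ∣ p ^ f - 1)
    {Q M : ℕ} (hQ2 : 2 ≤ Q) (haQ : a ≤ Q) (hQM : Q ≤ M) {T : Finset ℕ}
    (hG : Good (a * nn T)) (S : Finset ℕ)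
    (hS : ∀ p ∈ S, p.Prime ∧ M < p ∧ T ⊆ PQ Q p ∧ p ∈ E (a * nn T) ∧ T.card ≤ kk p ∧
      (nn T : ℝ) ≤ lam T p * Real.sqrt p ∧ 1 ≤ Real.log p ∧ Real.log a ≤ (Real.log p) ^ 2 ∧
      (kk p : ℝ) ≤ Real.log p ∧ (Real.log p) ^ 6 ≤ Real.sqrt p) :
    ∑ p ∈ S, (1 : ℝ) / p ≤ 4 * H * a / (Real.log M) ^ 3 := by
  have hlM : 0 < Real.log M := Real.log_pos (by exact_mod_cast (by omega : 1 < M))
  rcases S.eq_empty_or_nonempty with h | h
  · rw [h, Finset.sum_empty]; positivity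
  obtain ⟨p₀, hp₀, hmin⟩ := Finset.exists_min_image S (fun p => p) h
  obtain ⟨c1, c2, c3, c4, c5, c6, c7, c8, c9, c10⟩ := hS p₀ hp₀
  have hTp : T ∈ (PQ Q p₀).powerset := Finset.mem_powerset.2 c3
  have hn0 : 0 < nn T := nn_pos' hTp
  have hm0 : 0 < a * nn T := Nat.mul_pos ha hn0
  obtain ⟨z, hz0, hz1, hz2⟩ := hz (a * nn T) hm0 hG
  have hnR : (0 : ℝ) < nn T := by exact_mod_cast hn0
  have haR : (0 : ℝ) < a := by exact_mod_cast ha
  have hp₀R : (0 : ℝ) < p₀ := by exact_mod_cast c1.pos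
  set L := Real.log p₀ with hL
  have hL0 : 0 < L := by linarith
  have hsq0 : 0 < Real.sqrt p₀ := Real.sqrt_pos.2 hp₀R
  -- orders
  have hord : ∀ p ∈ S, p ^ (lam T p) ∣ z := by
    intro p hp
    obtain ⟨d1, d2, d3, d4, d5, d6, d7, d8, d9, d10⟩ := hS p hp
    have hTp' : T ∈ (PQ Q p).powerset := Finset.mem_powerset.2 d3
    have hnd : ¬ p ∣ 2 * (a * nn T) := by
      rw [d1.dvd_mul, d1.dvd_mul, not_or, not_or]
      refine ⟨fun h2 => ?_, fun h2 => ?_, not_dvd_nn d1 hTp'⟩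
      · have := Nat.le_of_dvd (by norm_num) h2; omega
      · have := Nat.le_of_dvd ha h2; omega
    obtain ⟨f, hf0, hf1, hf2⟩ := hz2 p d4 d1 hnd
    have h3 : lam T p ∣ f := lam_dvd d1.pos ((Dvd.intro_left a rfl).trans hf2)
    exact (pow_dvd_pow p (Nat.le_of_dvd hf0 h3)).trans hf1
  have hsum := sum_orders hz0 S (fun p hp => (hS p hp).1) (fun p => lam T p) hord
  -- the size of `m`
  have hlogm : Real.log ((a * nn T : ℕ) : ℝ) ≤ 2 * L ^ 2 := by
    have h4 : nn T ≤ p₀ ^ T.card := by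
      unfold nn
      exact Finset.prod_le_pow_card T (fun q => q) p₀ (fun q hq => (mem_PQ.1 (c3 hq)).1.le)
    have h5 : Real.log (nn T : ℝ) ≤ T.card * L := by
      calc Real.log (nn T : ℝ) ≤ Real.log ((p₀ : ℝ) ^ T.card) := by
            apply Real.log_le_log hnR
            exact_mod_cast h4
        _ = T.card * L := by rw [Real.log_pow]
    have h6 : (T.card : ℝ) ≤ L := by
      have : (T.card : ℝ) ≤ kk p₀ := by exact_mod_cast c5
      linarith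
    push_cast
    rw [Real.log_mul haR.ne' hnR.ne']
    nlinarith
  have hlogm0 : 0 ≤ Real.log ((a * nn T : ℕ) : ℝ) := Real.log_natCast_nonneg _
  have hlogz : Real.log z ≤ H * a * nn T * (4 * L ^ 4) := by
    refine hz1.trans ?_
    have h7 : (Real.log ((a * nn T : ℕ) : ℝ)) ^ 2 ≤ (2 * L ^ 2) ^ 2 :=
      pow_le_pow_left₀ hlogm0 hlogm 2
    calc H * ((a * nn T : ℕ) : ℝ) * (Real.log ((a * nn T : ℕ) : ℝ)) ^ 2
        ≤ H * ((a * nn T : ℕ) : ℝ) * (2 * L ^ 2) ^ 2 := by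
          apply mul_le_mul_of_nonneg_left h7 (by positivity)
      _ = H * a * nn T * (4 * L ^ 4) := by push_cast; ring
  have hterm : ∀ p ∈ S, (1 : ℝ) / p ≤
      (lam T p : ℝ) * Real.log p * (1 / (nn T * Real.sqrt p₀ * L)) := by
    intro p hp
    obtain ⟨d1, d2, d3, d4, d5, d6, d7, d8, d9, d10⟩ := hS p hp
    have hpR : (0 : ℝ) < p := by exact_mod_cast d1.pos
    have hsq : 0 < Real.sqrt p := Real.sqrt_pos.2 hpR
    have h8 : Real.sqrt p₀ ≤ Real.sqrt p := Real.sqrt_le_sqrt (by exact_mod_cast hmin p hp)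
    have h9 : L ≤ Real.log p := Real.log_le_log hp₀R (by exact_mod_cast hmin p hp)
    have hpp : Real.sqrt p * Real.sqrt p = p := Real.mul_self_sqrt hpR.le
    rw [mul_one_div, div_le_div_iff₀ hpR (by positivity), one_mul]
    calc (nn T : ℝ) * Real.sqrt p₀ * L ≤ (lam T p * Real.sqrt p) * Real.sqrt p * Real.log p := by
          gcongr
      _ = (lam T p : ℝ) * Real.log p * (Real.sqrt p * Real.sqrt p) := by ring
      _ = (lam T p : ℝ) * Real.log p * p := by rw [hpp]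
  calc ∑ p ∈ S, (1 : ℝ) / p
      ≤ ∑ p ∈ S, (lam T p : ℝ) * Real.log p * (1 / (nn T * Real.sqrt p₀ * L)) :=
        Finset.sum_le_sum hterm
    _ = (∑ p ∈ S, (lam T p : ℝ) * Real.log p) * (1 / (nn T * Real.sqrt p₀ * L)) := by
        rw [Finset.sum_mul]
    _ ≤ (H * a * nn T * (4 * L ^ 4)) * (1 / (nn T * Real.sqrt p₀ * L)) := by
        apply mul_le_mul_of_nonneg_right (hsum.trans hlogz) (by positivity)
    _ = 4 * H * a * (L ^ 3 / Real.sqrt p₀) := by field_simp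
    _ ≤ 4 * H * a * (1 / L ^ 3) := by
        apply mul_le_mul_of_nonneg_left _ (by positivity)
        rw [div_le_div_iff₀ hsq0 (by positivity), one_mul, ← pow_add]
        exact c10
    _ ≤ 4 * H * a * (1 / (Real.log M) ^ 3) := by
        apply mul_le_mul_of_nonneg_left _ (by positivity)
        apply one_div_le_one_div_of_le (by positivity)
        apply pow_le_pow_left₀ hlM.le
        apply Real.log_le_log (by exact_mod_cast (by omega : 0 < M))
        exact_mod_cast c2.le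
    _ = 4 * H * a / (Real.log M) ^ 3 := by ring

end Pool.Agent.Q79.KQ
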