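import Mathlib
import Pool.Agent.Q79.KqF

set_option autoImplicit false

open Finset Filter

namespace Pool.Agent.Q79.KQ

theorem classI_sum {Good : ℕ → Prop} [DecidablePred Good] {a : ℕ} {E : ℕ → Finset ℕ} {H : ℝ}
    (hH : 0 ≤ H) (ha : 0 < a)
    (hz : ∀ m, 0 < m → Good m → ∃ z : ℕ, z ≠ 0 ∧ Real.log z ≤ H * m * (Real.log m) ^ 2 ∧
      ∀ p ∈ E m, p.Prime → ¬ p ∣ 2 * m → ∃ f : ℕ, 0 < f ∧ p ^ f ∣ z ∧ m ∣ p ^ f - 1)
    {Q : ℕ} (hQ2 : 2 ≤ Q) (haQ : a ≤ Q)
    (hbig : ∀ p : ℕ, Q ≤ p → 1 ≤ Real.log p ∧ Real.log a ≤ (Real.log p) ^ 2 ∧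
      (kk p : ℝ) ≤ Real.log p ∧ (Real.log p) ^ 6 ≤ Real.sqrt p)
    {C₁ : ℝ} (hC₁ : ∀ Q y : ℕ, 3 ≤ y → WW (PQ Q y) ≤ C₁ * Real.log y) (x : ℕ) :
    ∑ p ∈ PQ Q x, 1 / (p : ℝ) * ∑ T ∈ (PQ Q p).powerset,
      (if (Good (a * nn T) ∧ p ∈ E (a * nn T)) ∧ T.card ≤ kk p ∧
        (nn T : ℝ) ≤ lam T p * Real.sqrt p then om T else 0) ≤
    4 * H * a / (Real.log Q) ^ 3 + 4 * H * a * C₁ / Real.log Q := by
  classical
  set F : Finset ℕ → ℝ := fun T => ∑ p ∈ (PQ Q x).filter (fun p => T ⊆ PQ Q p ∧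
    ((Good (a * nn T) ∧ p ∈ E (a * nn T)) ∧ T.card ≤ kk p ∧
        (nn T : ℝ) ≤ lam T p * Real.sqrt p)), (1 : ℝ) / p with hF
  have hswap : ∑ p ∈ PQ Q x, 1 / (p : ℝ) * ∑ T ∈ (PQ Q p).powerset,
      (if (Good (a * nn T) ∧ p ∈ E (a * nn T)) ∧ T.card ≤ kk p ∧
        (nn T : ℝ) ≤ lam T p * Real.sqrt p then om T else 0) =
      ∑ T ∈ (PQ Q x).powerset, om T * F T := by
    have h1 : ∀ p ∈ PQ Q x, 1 / (p : ℝ) * ∑ T ∈ (PQ Q p).powerset,
      (if (Good (a * nn T) ∧ p ∈ E (a * nn T)) ∧ T.card ≤ kk p ∧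
        (nn T : ℝ) ≤ lam T p * Real.sqrt p then om T else 0) =
      ∑ T ∈ (PQ Q p).powerset,
      (if (Good (a * nn T) ∧ p ∈ E (a * nn T)) ∧ T.card ≤ kk p ∧
        (nn T : ℝ) ≤ lam T p * Real.sqrt p then om T * (1 / (p : ℝ)) else 0) := by
      intro p _
      rw [Finset.mul_sum]
      apply Finset.sum_congr rfl
      intro T _
      split_ifs
      · ring
      · rw [mul_zero]
    rw [Finset.sum_congr rfl h1]
    rw [Finset.sum_comm' (t' := (PQ Q x).powerset)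
      (s' := fun T => (PQ Q x).filter (fun p => T ⊆ PQ Q p))]
    · apply Finset.sum_congr rfl
      intro T _
      rw [hF]
      simp only []
      rw [Finset.mul_sum, ← Finset.filter_filter, ← Finset.sum_filter]
    · intro p T
      rw [Finset.mem_powerset, Finset.mem_powerset, Finset.mem_filter]
      constructor
      · rintro ⟨h2, h3⟩
        exact ⟨⟨h2, h3⟩, h3.trans (PQ_mono (mem_PQ.1 h2).1.le)⟩
      · rintro ⟨⟨h2, h3⟩, _⟩
        exact ⟨h2, h3⟩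
  rw [hswap]
  have hlQ : 0 < Real.log Q := Real.log_pos (by exact_mod_cast (by omega : 1 < Q))
  have hFT : ∀ (M : ℕ), Q ≤ M → ∀ T : Finset ℕ, (∀ p ∈ PQ Q x, T ⊆ PQ Q p → M < p) →
      F T ≤ 4 * H * a / (Real.log M) ^ 3 := by
    intro M hM T hT
    by_cases hG : Good (a * nn T)
    · apply classI hH ha hz hQ2 haQ hM hG
      intro p hp
      rw [Finset.mem_filter] at hp
      obtain ⟨h2, h3, ⟨⟨h4, h5⟩, h6, h7⟩⟩ := hp
      obtain ⟨b1, b2, b3, b4⟩ := hbig p (mem_PQ.1 h2).2.2.le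
      exact ⟨(mem_PQ.1 h2).2.1, hT p h2 h3, h3, h5, h6, h7, b1, b2, b3, b4⟩
    · have h8 : F T = 0 := by
        rw [hF]
        apply Finset.sum_eq_zero
        intro p hp
        rw [Finset.mem_filter] at hp
        exact absurd hp.2.2.1.1 hG
      rw [h8]
      have : 0 < Real.log M := Real.log_pos (by exact_mod_cast (by omega : 1 < M))
      positivity
  have hmain := sum_by_max (Q := Q) F (fun p => 4 * H * a / (Real.log p) ^ 3) x (by
    intro q hq T hT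
    apply hFT q (mem_PQ.1 hq).2.2.le
    intro p _ hsub
    exact (mem_PQ.1 (hsub (Finset.mem_insert_self q T))).1)
  have hempty : F ∅ ≤ 4 * H * a / (Real.log Q) ^ 3 := by
    apply hFT Q le_rfl
    intro p hp _
    exact (mem_PQ.1 hp).2.2
  have hsum : ∑ p ∈ PQ Q x, 1 / (p : ℝ) * (4 * H * a / (Real.log p) ^ 3) * WW (PQ Q p) ≤
      4 * H * a * C₁ / Real.log Q := by
    calc ∑ p ∈ PQ Q x, 1 / (p : ℝ) * (4 * H * a / (Real.log p) ^ 3) * WW (PQ Q p)
        ≤ ∑ p ∈ PQ Q x, (4 * H * a * C₁) * (1 / (p : ℝ) * (1 / (Real.log p) ^ 2)) := by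
          apply Finset.sum_le_sum
          intro p hp
          have hp' := mem_PQ.1 hp
          have hlp : 0 < Real.log p := Real.log_pos (by exact_mod_cast (by omega : 1 < p))
          have hW := hC₁ Q p (by omega)
          have hpR : (0 : ℝ) < p := by exact_mod_cast hp'.2.1.pos
          calc 1 / (p : ℝ) * (4 * H * a / (Real.log p) ^ 3) * WW (PQ Q p)
              ≤ 1 / (p : ℝ) * (4 * H * a / (Real.log p) ^ 3) * (C₁ * Real.log p) := by
                apply mul_le_mul_of_nonneg_left hW (by positivity)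
            _ = (4 * H * a * C₁) * (1 / (p : ℝ) * (1 / (Real.log p) ^ 2)) := by
                field_simp
      _ = (4 * H * a * C₁) * ∑ p ∈ PQ Q x, 1 / (p : ℝ) * (1 / (Real.log p) ^ 2) := by
          rw [Finset.mul_sum]
      _ ≤ (4 * H * a * C₁) * (1 / Real.log Q) := by
          have hC0 : 0 ≤ C₁ := by
            have h1 := hC₁ 0 3 le_rfl
            have h2 := WW_ge_one (PQ 0 3)
            have h3 : 0 < Real.log ((3 : ℕ) : ℝ) := Real.log_pos (by norm_num)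
            by_contra hneg
            rw [not_le] at hneg
            have := mul_neg_of_neg_of_pos hneg h3
            linarith
          apply mul_le_mul_of_nonneg_left (sum_inv_log_sq hQ2 x) (by positivity)
      _ = 4 * H * a * C₁ / Real.log Q := by ring
  linarith

/-- **The chain succeeds for almost all sets of large primes.** -/
theorem density {Good : ℕ → Prop} [DecidablePred Good] {a : ℕ} {E : ℕ → Finset ℕ} {H : ℝ}
    (hH : 0 ≤ H) (ha : 0 < a) (hGa : Good a)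
    (hz : ∀ m, 0 < m → Good m → ∃ z : ℕ, z ≠ 0 ∧ Real.log z ≤ H * m * (Real.log m) ^ 2 ∧
      ∀ p ∈ E m, p.Prime → ¬ p ∣ 2 * m → ∃ f : ℕ, 0 < f ∧ p ^ f ∣ z ∧ m ∣ p ^ f - 1)
    (hgood : ∀ m p, 0 < m → Good m → p.Prime → ¬ p ∣ m → p ∉ E m → Good (m * p))
    (ε : ℝ) (hε : 0 < ε) :
    ∃ Q₀ : ℕ, ∀ Q : ℕ, Q₀ ≤ Q → ∀ x : ℕ, bsum Good a Q x ≤ ε * WW (PQ Q x) := by
  obtain ⟨Qb, hQb2, hQb⟩ := big a
  obtain ⟨C₁, hC₁0, hC₁⟩ := WW_upper
  obtain ⟨s, hs⟩ := summable_iff_vanishing_norm.1 uu_summable (ε / 4) (by positivity)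
  set e₀ : ℕ := s.sup id + 1 with he₀
  have haR : (0 : ℝ) < a := by exact_mod_cast ha
  set K : ℝ := C₁ + 8 + 4 * H * a + 4 * H * a * C₁ with hK
  have hK0 : 0 < K := by positivity
  have hT : Tendsto (fun p : ℕ => Real.log (p : ℝ)) atTop atTop :=
    Real.tendsto_log_atTop.comp tendsto_natCast_atTop_atTop
  have hev := (hT.eventually_ge_atTop (max (e₀ + 1) (4 * K / ε))).and
    ((eventually_ge_atTop Qb).and (eventually_ge_atTop a))
  obtain ⟨Q₀, hQ₀⟩ := eventually_atTop.1 hev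
  refine ⟨Q₀, fun Q hQ x => ?_⟩
  obtain ⟨h1, hQQb, hQa⟩ := hQ₀ Q hQ
  have hlog1 : (e₀ : ℝ) + 1 ≤ Real.log Q := (le_max_left _ _).trans h1
  have hlog2 : 4 * K / ε ≤ Real.log Q := (le_max_right _ _).trans h1
  have hlQ1 : 1 ≤ Real.log Q := (hQb Q hQQb).1
  have hlQ0 : 0 < Real.log Q := by linarith
  have hQ2 : 2 ≤ Q := hQb2.trans hQQb
  have hW0 : 0 < WW (PQ Q x) := by linarith [WW_ge_one (PQ Q x)]
  refine (chain ha hQa hGa hgood x).trans ?_
  rw [mul_comm ε]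
  apply mul_le_mul_of_nonneg_left _ hW0.le
  -- the four parts
  have hterm : ∀ p ∈ PQ Q x, 1 / (p : ℝ) * (bet Good a E Q p / WW (PQ Q p)) ≤
      (C₁ + 8) * (1 / (p : ℝ) * (1 / (Real.log p) ^ 2)) +
      1 / (p : ℝ) * (∑ q ∈ (PQ Q p).filter
        (fun q => (Real.log p) ^ 4 * (orderOf (p : ZMod q) : ℝ) < q), (1 : ℝ) / q) +
      1 / (p : ℝ) * (∑ T ∈ (PQ Q p).powerset, (if (Good (a * nn T) ∧ p ∈ E (a * nn T)) ∧
        T.card ≤ kk p ∧ (nn T : ℝ) ≤ lam T p * Real.sqrt p then om T else 0)) := by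
    intro p hp
    have hp' := mem_PQ.1 hp
    obtain ⟨b1, b2, b3, b4, b5, b6⟩ := hQb p (hQQb.trans hp'.2.2.le)
    have h2 := bet_le (Good := Good) (a := a) (E := E) (Q := Q) hp'.2.1 (k := kk p) b1 b5
    have hlp : 0 < Real.log p := by linarith
    have h3 : 1 / 2 ^ (kk p) * WW (PQ Q p) ≤ C₁ / (Real.log p) ^ 2 := by
      calc 1 / 2 ^ (kk p) * WW (PQ Q p) ≤ 1 / (Real.log p) ^ 3 * (C₁ * Real.log p) := by
            have h4 : (1 : ℝ) / 2 ^ (kk p) ≤ 1 / (Real.log p) ^ 3 :=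
              one_div_le_one_div_of_le (by positivity) b6
            have h5 := hC₁ Q p (by omega)
            have h6 : 0 ≤ WW (PQ Q p) := by linarith [WW_ge_one (PQ Q p)]
            exact mul_le_mul h4 h5 h6 (by positivity)
        _ = C₁ / (Real.log p) ^ 2 := by field_simp
    have hinv : (0 : ℝ) ≤ 1 / p := by positivity
    calc 1 / (p : ℝ) * (bet Good a E Q p / WW (PQ Q p))
        ≤ 1 / (p : ℝ) * (C₁ / (Real.log p) ^ 2 +
          (∑ q ∈ (PQ Q p).filter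
            (fun q => (Real.log p) ^ 4 * (orderOf (p : ZMod q) : ℝ) < q), (1 : ℝ) / q) +
          8 / (Real.log p) ^ 2 +
          ∑ T ∈ (PQ Q p).powerset, (if (Good (a * nn T) ∧ p ∈ E (a * nn T)) ∧
            T.card ≤ kk p ∧ (nn T : ℝ) ≤ lam T p * Real.sqrt p then om T else 0)) := by
          apply mul_le_mul_of_nonneg_left _ hinv
          linarith
      _ = _ := by ring
  refine (Finset.sum_le_sum hterm).trans ?_
  rw [Finset.sum_add_distrib, Finset.sum_add_distrib, ← Finset.mul_sum]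
  have p1 := sum_inv_log_sq hQ2 x
  have p2 := order_sum (Q := Q) x
  have p3 := classI_sum (Good := Good) (E := E) hH ha hz hQ2 hQa (fun p hp => by
    obtain ⟨b1, b2, b3, b4, -, -⟩ := hQb p (hQQb.trans hp)
    exact ⟨b1, b2, b3, b4⟩) hC₁ x
  have p4 : ∑ e ∈ (range x).filter (fun e : ℕ => (Real.log Q) ^ 4 < (e : ℝ) + 1), uu e <
      ε / 4 := by
    have h2 := hs ((range x).filter (fun e : ℕ => (Real.log Q) ^ 4 < (e : ℝ) + 1)) (by
      rw [Finset.disjoint_left]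
      intro e he hes
      rw [Finset.mem_filter] at he
      have h3 : e ≤ s.sup id := Finset.le_sup (f := id) hes
      have h4 : (e : ℝ) + 1 ≤ e₀ := by
        rw [he₀]; exact_mod_cast Nat.succ_le_succ h3
      have h5 : Real.log Q ≤ (Real.log Q) ^ 4 := by
        have := one_le_pow₀ (n := 3) hlQ1
        nlinarith
      linarith [he.2])
    rw [Real.norm_of_nonneg (Finset.sum_nonneg (fun e _ => uu_nonneg e))] at h2
    exact h2
  have h6 : 4 * H * a / (Real.log Q) ^ 3 ≤ 4 * H * a / Real.log Q := by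
    apply div_le_div_of_nonneg_left (by positivity) hlQ0
    nlinarith [one_le_pow₀ (n := 2) hlQ1]
  have h7 : K / Real.log Q ≤ ε / 4 := by
    rw [div_le_iff₀ hlQ0]
    rw [div_le_iff₀ hε] at hlog2
    linarith
  have h8 : K / Real.log Q = (C₁ + 8) * (1 / Real.log Q) + 4 * H * a / Real.log Q +
      4 * H * a * C₁ / Real.log Q := by rw [hK]; ring
  have h9 : (C₁ + 8) * ∑ p ∈ PQ Q x, 1 / (p : ℝ) * (1 / (Real.log p) ^ 2) ≤
      (C₁ + 8) * (1 / Real.log Q) := mul_le_mul_of_nonneg_left p1 (by linarith)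
  linarith

end Pool.Agent.Q79.KQ
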