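import Mathlib
import Pool.Agent.Q79.KqG
import Pool.Agent.Q79.KpC

set_option autoImplicit false

open Finset Filter

namespace Pool.Agent.Q79.KQ

/-! ### Lower bounds for the weights -/

theorem one_add_ge {u : ℝ} (h0 : 0 ≤ u) : (1 - u ^ 2) * Real.exp u ≤ 1 + u := by
  have h2 : 1 - u ≤ Real.exp (-u) := by
    have := Real.add_one_le_exp (-u)
    linarith
  have h3 : (1 - u) * Real.exp u ≤ 1 := by
    calc (1 - u) * Real.exp u ≤ Real.exp (-u) * Real.exp u :=
          mul_le_mul_of_nonneg_right h2 (Real.exp_pos u).le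
      _ = 1 := by rw [← Real.exp_add, neg_add_cancel, Real.exp_zero]
  calc (1 - u ^ 2) * Real.exp u = (1 + u) * ((1 - u) * Real.exp u) := by ring
    _ ≤ (1 + u) * 1 := mul_le_mul_of_nonneg_left h3 (by linarith)
    _ = 1 + u := mul_one _

theorem prod_sq_ge (n : ℕ) : (1 / 2 : ℝ) ≤ ∏ i ∈ Finset.Ico 2 (n + 2), (1 - (1 / (i : ℝ)) ^ 2) := by
  have key : ∀ n : ℕ, ∏ i ∈ Finset.Ico 2 (n + 2), (1 - (1 / (i : ℝ)) ^ 2) =
      ((n : ℝ) + 2) / (2 * (n + 1)) := by
    intro n
    induction n with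
    | zero => simp
    | succ n ih =>
      rw [show n + 1 + 2 = (n + 2) + 1 by ring, Finset.prod_Ico_succ_top (by omega), ih]
      have h1 : ((n : ℝ) + 2) ≠ 0 := by positivity
      have h2 : ((n : ℝ) + 1) ≠ 0 := by positivity
      push_cast
      field_simp
      ring
  rw [key, div_le_div_iff₀ (by norm_num) (by positivity)]
  have : (0 : ℝ) ≤ n := by positivity
  linarith

theorem WW_ge_exp (Q y : ℕ) :
    1 / 2 * Real.exp (∑ q ∈ PQ Q y, 1 / (q : ℝ)) ≤ WW (PQ Q y) := by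
  have h1 : ∏ q ∈ PQ Q y, ((1 - (1 / (q : ℝ)) ^ 2) * Real.exp (1 / (q : ℝ))) ≤ WW (PQ Q y) := by
    unfold WW
    apply Finset.prod_le_prod
    · intro q hq
      have h2 : (2 : ℝ) ≤ q := by exact_mod_cast (mem_PQ.1 hq).2.1.two_le
      have h3 : 1 / (q : ℝ) ≤ 1 / 2 := one_div_le_one_div_of_le (by norm_num) h2
      have h4 : 0 ≤ 1 / (q : ℝ) := by positivity
      have h5 : 0 ≤ 1 - (1 / (q : ℝ)) ^ 2 := by nlinarith
      exact mul_nonneg h5 (Real.exp_pos _).le
    · intro q hq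
      have h2 : (2 : ℝ) ≤ q := by exact_mod_cast (mem_PQ.1 hq).2.1.two_le
      have h3 : 1 / (q : ℝ) ≤ 1 / 2 := one_div_le_one_div_of_le (by norm_num) h2
      exact one_add_ge (by positivity)
  refine le_trans ?_ h1
  rw [Finset.prod_mul_distrib, ← Real.exp_sum]
  apply mul_le_mul_of_nonneg_right _ (Real.exp_pos _).le
  refine (prod_sq_ge y).trans ?_
  apply Finset.prod_le_prod_of_subset_of_le_one
  · intro q hq
    have := mem_PQ.1 hq
    rw [Finset.mem_Ico]
    exact ⟨this.2.1.two_le, by omega⟩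
  · intro i hi
    rw [Finset.mem_Ico] at hi
    have h2 : (2 : ℝ) ≤ i := by exact_mod_cast hi.1
    have h3 : 1 / (i : ℝ) ≤ 1 / 2 := one_div_le_one_div_of_le (by norm_num) h2
    have h4 : 0 ≤ 1 / (i : ℝ) := by positivity
    nlinarith
  · intro i hi _
    have h4 : 0 ≤ (1 / (i : ℝ)) ^ 2 := by positivity
    linarith

theorem WW_lower : ∃ c : ℝ, 0 < c ∧ ∀ Q y : ℕ, 3 ≤ Q → 3 ≤ y →
    c * (Real.log y / Real.log Q) ≤ WW (PQ Q y) := by
  obtain ⟨C, hC⟩ := Pool.Agent.Erdos456.Mert.mertens_inv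
  refine ⟨1 / 2 * Real.exp (-(2 * C + 1)), by positivity, fun Q y hQ hy => ?_⟩
  have hly : 0 < Real.log y := Real.log_pos (by exact_mod_cast (by omega : 1 < y))
  have hlQ : 0 < Real.log Q := Real.log_pos (by exact_mod_cast (by omega : 1 < Q))
  have h1 := (abs_le.1 (hC y hy)).1
  have h2 := (abs_le.1 (hC Q hQ)).2
  have h3 : ∑ p ∈ (Finset.Icc 1 y).filter Nat.Prime, (1 : ℝ) / p ≤
      ∑ q ∈ PQ Q y, 1 / (q : ℝ) + 1 + ∑ p ∈ (Finset.Icc 1 Q).filter Nat.Prime, (1 : ℝ) / p := by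
    have h4 : (Finset.Icc 1 y).filter Nat.Prime ⊆
        (PQ Q y ∪ {y}) ∪ (Finset.Icc 1 Q).filter Nat.Prime := by
      intro p hp
      rw [Finset.mem_filter, Finset.mem_Icc] at hp
      rw [Finset.mem_union, Finset.mem_union, mem_PQ, Finset.mem_singleton, Finset.mem_filter,
        Finset.mem_Icc]
      rcases Nat.lt_or_ge Q p with h | h
      · left
        rcases Nat.lt_or_ge p y with h' | h'
        · exact Or.inl ⟨h', hp.2, h⟩
        · exact Or.inr (by omega)
      · right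
        exact ⟨⟨hp.1.1, h⟩, hp.2⟩
    refine (Finset.sum_le_sum_of_subset_of_nonneg h4 (fun _ _ _ => by positivity)).trans ?_
    have h5 : ∀ A B : Finset ℕ, ∑ p ∈ A ∪ B, (1 : ℝ) / p ≤
        ∑ p ∈ A, (1 : ℝ) / p + ∑ p ∈ B, (1 : ℝ) / p := by
      intro A B
      rw [← Finset.sum_union_inter]
      have : 0 ≤ ∑ p ∈ A ∩ B, (1 : ℝ) / p := Finset.sum_nonneg (fun _ _ => by positivity)
      linarith
    refine (h5 _ _).trans ?_
    have h6 := h5 (PQ Q y) {y}
    rw [Finset.sum_singleton] at h6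
    have h7 : (1 : ℝ) / y ≤ 1 := by
      rw [div_le_one (by exact_mod_cast (by omega : 0 < y))]
      exact_mod_cast (by omega : 1 ≤ y)
    linarith
  have h8 : Real.log (Real.log y) - Real.log (Real.log Q) - (2 * C + 1) ≤
      ∑ q ∈ PQ Q y, 1 / (q : ℝ) := by linarith
  refine le_trans ?_ (WW_ge_exp Q y)
  calc 1 / 2 * Real.exp (-(2 * C + 1)) * (Real.log y / Real.log Q)
      = 1 / 2 * (Real.exp (-(2 * C + 1)) *
        Real.exp (Real.log (Real.log y) - Real.log (Real.log Q))) := by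
        rw [Real.exp_sub, Real.exp_log hly, Real.exp_log hlQ]; ring
    _ = 1 / 2 * Real.exp (Real.log (Real.log y) - Real.log (Real.log Q) - (2 * C + 1)) := by
        rw [← Real.exp_add]; congr 2; ring
    _ ≤ 1 / 2 * Real.exp (∑ q ∈ PQ Q y, 1 / (q : ℝ)) := by
        apply mul_le_mul_of_nonneg_left _ (by norm_num)
        exact Real.exp_le_exp.2 h8

/-- the weights do not grow much -/
theorem WW_block (K : ℕ) (hK : 1 ≤ K) : ∃ C : ℝ, 0 < C ∧ ∀ Q y x : ℕ, 2 ≤ y → x ≤ y ^ K →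
    WW (PQ Q (x + 1)) ≤ C * WW (PQ Q y) := by
  obtain ⟨C, hC0, hC⟩ := Pool.Agent.Q79.KP.block
  refine ⟨Real.exp (C + Real.log K), Real.exp_pos _, fun Q y x hy hx => ?_⟩
  have h1 : WW (PQ Q (x + 1)) ≤ WW (PQ Q y) * WW (PQ Q (x + 1) \ PQ Q y) := by
    have h2 : PQ Q (x + 1) ⊆ PQ Q y ∪ (PQ Q (x + 1) \ PQ Q y) := by
      intro p hp
      rw [Finset.mem_union, Finset.mem_sdiff]
      by_cases h : p ∈ PQ Q y
      · exact Or.inl h
      · exact Or.inr ⟨hp, h⟩
    refine (WW_mono h2).trans (le_of_eq ?_)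
    unfold WW
    rw [Finset.prod_union Finset.disjoint_sdiff]
  have h3 : WW (PQ Q (x + 1) \ PQ Q y) ≤
      Real.exp (∑ q ∈ PQ Q (x + 1) \ PQ Q y, 1 / (q : ℝ)) := by
    unfold WW
    rw [Real.exp_sum]
    apply Finset.prod_le_prod (fun _ _ => by positivity)
    intro q _
    rw [add_comm]
    exact Real.add_one_le_exp _
  have h4 : ∑ q ∈ PQ Q (x + 1) \ PQ Q y, 1 / (q : ℝ) ≤ C + Real.log K := by
    apply hC y K hy hK
    intro p hp
    rw [Finset.mem_sdiff, mem_PQ, mem_PQ] at hp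
    refine ⟨hp.1.2.1, ?_, by omega⟩
    by_contra h
    exact hp.2 ⟨by omega, hp.1.2⟩
  have hW0 : 0 ≤ WW (PQ Q y) := by linarith [WW_ge_one (PQ Q y)]
  calc WW (PQ Q (x + 1)) ≤ WW (PQ Q y) * WW (PQ Q (x + 1) \ PQ Q y) := h1
    _ ≤ WW (PQ Q y) * Real.exp (C + Real.log K) := by
        apply mul_le_mul_of_nonneg_left _ hW0
        exact h3.trans (Real.exp_le_exp.2 h4)
    _ = Real.exp (C + Real.log K) * WW (PQ Q y) := mul_comm _ _

/-- most of the weight is on sets with a small product -/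
theorem small_sets : ∃ y₀ : ℕ, 2 ≤ y₀ ∧ ∀ Q y : ℕ, y₀ ≤ y →
    ∑ T ∈ (PQ Q y).powerset.filter (fun T => ¬ nn T ≤ y ^ 4), om T ≤ 1 / 2 * WW (PQ Q y) := by
  obtain ⟨C, hC⟩ := Pool.Agent.Erdos456.Mert.mertens_log
  have hC0 : 0 ≤ C := (abs_nonneg _).trans (hC 1 le_rfl)
  have hT : Tendsto (fun p : ℕ => Real.log (p : ℝ)) atTop atTop :=
    Real.tendsto_log_atTop.comp tendsto_natCast_atTop_atTop
  obtain ⟨y₁, hy₁⟩ := eventually_atTop.1 (hT.eventually_ge_atTop (C + 1))
  refine ⟨max y₁ 2, le_max_right _ _, fun Q y hy => ?_⟩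
  have hlog : C + 1 ≤ Real.log y := hy₁ y ((le_max_left _ _).trans hy)
  have hy2 : 2 ≤ y := (le_max_right _ _).trans hy
  have hly : 0 < Real.log y := by linarith
  have hyR : (0 : ℝ) < y := by exact_mod_cast (by omega : 0 < y)
  -- the first moment
  have h1 : ∑ T ∈ (PQ Q y).powerset, om T * Real.log (nn T) ≤
      (∑ q ∈ PQ Q y, Real.log q / q) * WW (PQ Q y) := by
    calc ∑ T ∈ (PQ Q y).powerset, om T * Real.log (nn T)
        = ∑ T ∈ (PQ Q y).powerset, ∑ q ∈ PQ Q y,
          (if {q} ⊆ T then Real.log q * om T else 0) := by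
          apply Finset.sum_congr rfl
          intro T hTs
          have hsub := Finset.mem_powerset.1 hTs
          have h2 : Real.log (nn T : ℝ) = ∑ q ∈ T, Real.log q := by
            unfold nn
            rw [Nat.cast_prod, Real.log_prod]
            intro q hq
            exact_mod_cast (mem_PQ.1 (hsub hq)).2.1.ne_zero
          rw [h2, Finset.mul_sum, ← Finset.sum_filter]
          have h3 : (PQ Q y).filter (fun q => {q} ⊆ T) = T := by
            ext q
            rw [Finset.mem_filter, Finset.singleton_subset_iff]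
            exact ⟨fun h => h.2, fun h => ⟨hsub h, h⟩⟩
          rw [h3]
          apply Finset.sum_congr rfl
          intro q _
          rw [mul_comm]
      _ = ∑ q ∈ PQ Q y, ∑ T ∈ (PQ Q y).powerset,
          (if {q} ⊆ T then Real.log q * om T else 0) := Finset.sum_comm
      _ ≤ ∑ q ∈ PQ Q y, Real.log q / q * WW (PQ Q y) := by
          apply Finset.sum_le_sum
          intro q hq
          rw [← Finset.sum_filter, ← Finset.mul_sum]
          have h2 := sum_om_superset (PQ Q y) {q}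
          have h3 : om {q} = 1 / (q : ℝ) := by unfold om; rw [Finset.prod_singleton]
          rw [h3] at h2
          calc Real.log q * ∑ T ∈ (PQ Q y).powerset.filter (fun T => {q} ⊆ T), om T
              ≤ Real.log q * (1 / (q : ℝ) * WW (PQ Q y)) :=
                mul_le_mul_of_nonneg_left h2 (Real.log_natCast_nonneg q)
            _ = Real.log q / q * WW (PQ Q y) := by ring
      _ = (∑ q ∈ PQ Q y, Real.log q / q) * WW (PQ Q y) := by rw [Finset.sum_mul]
  have h2 : ∑ q ∈ PQ Q y, Real.log q / q ≤ Real.log y + C := by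
    have h3 := (abs_le.1 (hC y (by omega))).2
    have h4 : ∑ q ∈ PQ Q y, Real.log q / q ≤
        ∑ p ∈ (Finset.Icc 1 y).filter Nat.Prime, Real.log p / p := by
      apply Finset.sum_le_sum_of_subset_of_nonneg
      · intro q hq
        rw [mem_PQ] at hq
        rw [Finset.mem_filter, Finset.mem_Icc]
        exact ⟨⟨hq.2.1.one_lt.le, hq.1.le⟩, hq.2.1⟩
      · intro p _ _
        exact div_nonneg (Real.log_natCast_nonneg p) (by positivity)
    linarith
  have hW0 : 0 < WW (PQ Q y) := by linarith [WW_ge_one (PQ Q y)]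
  have h3 : (4 * Real.log y) * ∑ T ∈ (PQ Q y).powerset.filter (fun T => ¬ nn T ≤ y ^ 4), om T ≤
      ∑ T ∈ (PQ Q y).powerset, om T * Real.log (nn T) := by
    rw [Finset.mul_sum]
    refine le_trans (Finset.sum_le_sum (g := fun T : Finset ℕ => om T * Real.log (nn T)) ?_)
      (Finset.sum_le_sum_of_subset_of_nonneg (Finset.filter_subset _ _) ?_)
    · intro T hTs
      rw [Finset.mem_filter, not_le] at hTs
      rw [mul_comm]
      apply mul_le_mul_of_nonneg_left _ (om_nonneg T)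
      calc 4 * Real.log y = Real.log ((y : ℝ) ^ 4) := by rw [Real.log_pow]; norm_num
        _ ≤ Real.log (nn T) := by
          apply Real.log_le_log (by positivity)
          exact_mod_cast hTs.2.le
    · intro T _ _
      exact mul_nonneg (om_nonneg T) (Real.log_natCast_nonneg _)
  have h4 : (4 * Real.log y) * ∑ T ∈ (PQ Q y).powerset.filter (fun T => ¬ nn T ≤ y ^ 4), om T ≤
      (4 * Real.log y) * (1 / 2 * WW (PQ Q y)) := by
    refine (h3.trans h1).trans ?_
    calc (∑ q ∈ PQ Q y, Real.log q / q) * WW (PQ Q y) ≤ (Real.log y + C) * WW (PQ Q y) :=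
          mul_le_mul_of_nonneg_right h2 hW0.le
      _ ≤ (2 * Real.log y) * WW (PQ Q y) := by
          apply mul_le_mul_of_nonneg_right _ hW0.le
          linarith
      _ = (4 * Real.log y) * (1 / 2 * WW (PQ Q y)) := by ring
  exact le_of_mul_le_mul_left h4 (by linarith)

end Pool.Agent.Q79.KQ
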