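import Mathlib
import Pool.Agent.Q79.KqH

set_option autoImplicit false

open Finset Filter

namespace Pool.Agent.Q79.KQ

/-! ### Natural density -/

theorem choose_y (a x : ℕ) (ha : 0 < a) (h3 : (a * 3 ^ 4) ^ 8 ≤ x) (h16 : a ^ 16 ≤ x) (y₀ : ℕ)
    (hy₀ : (a * y₀ ^ 4) ^ 8 ≤ x) :
    ∃ y : ℕ, 3 ≤ y ∧ y₀ ≤ y ∧ (a * y ^ 4) ^ 8 ≤ x ∧ Real.log x ≤ 128 * Real.log y := by
  set P : ℕ → Prop := fun y => (a * y ^ 4) ^ 8 ≤ x with hP
  have hle : ∀ z : ℕ, (a * z ^ 4) ^ 8 ≤ x → z ≤ x := by
    intro z hz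
    refine le_trans ?_ hz
    calc z ≤ z ^ 4 := Nat.le_self_pow (by omega) z
      _ ≤ a * z ^ 4 := Nat.le_mul_of_pos_left _ ha
      _ ≤ (a * z ^ 4) ^ 8 := Nat.le_self_pow (by omega) _
  have h3x : 3 ≤ x := hle 3 h3
  have hy3 : 3 ≤ Nat.findGreatest P x := Nat.le_findGreatest h3x h3
  have hyy : y₀ ≤ Nat.findGreatest P x := Nat.le_findGreatest (hle y₀ hy₀) hy₀
  have hyP : P (Nat.findGreatest P x) := Nat.findGreatest_spec h3x h3
  set y := Nat.findGreatest P x with hy
  have hyP' : (a * y ^ 4) ^ 8 ≤ x := hyP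
  refine ⟨y, hy3, hyy, hyP', ?_⟩
  have hyx : y < x := by
    calc y < y ^ 4 := by
          nlinarith [pow_pos (show 0 < y by omega) 2, pow_pos (show 0 < y by omega) 3]
      _ ≤ a * y ^ 4 := Nat.le_mul_of_pos_left _ ha
      _ ≤ (a * y ^ 4) ^ 8 := Nat.le_self_pow (by omega) _
      _ ≤ x := hyP'
  have hng : ¬ P (y + 1) := Nat.findGreatest_is_greatest (n := x)
    (show Nat.findGreatest P x < y + 1 by omega) (by omega)
  have hng' : x < (a * (y + 1) ^ 4) ^ 8 := by
    have : ¬ ((a * (y + 1) ^ 4) ^ 8 ≤ x) := hng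
    omega
  have hxR : (0 : ℝ) < x := by exact_mod_cast (by omega : 0 < x)
  have haR : (0 : ℝ) < a := by exact_mod_cast ha
  have hyR : (0 : ℝ) < y := by exact_mod_cast (by omega : 0 < y)
  have h5 : Real.log x ≤ 8 * (Real.log a + 4 * Real.log ((y : ℝ) + 1)) := by
    calc Real.log x ≤ Real.log (((a : ℝ) * ((y : ℝ) + 1) ^ 4) ^ 8) := by
          apply Real.log_le_log hxR
          exact_mod_cast hng'.le
      _ = 8 * (Real.log a + 4 * Real.log ((y : ℝ) + 1)) := by
          rw [Real.log_pow, Real.log_mul haR.ne' (by positivity), Real.log_pow]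
          push_cast
          ring
  have h6 : Real.log ((y : ℝ) + 1) ≤ 2 * Real.log y := by
    calc Real.log ((y : ℝ) + 1) ≤ Real.log ((y : ℝ) ^ 2) := by
          apply Real.log_le_log (by positivity)
          have : (3 : ℝ) ≤ y := by exact_mod_cast hy3
          nlinarith
      _ = 2 * Real.log y := by rw [Real.log_pow]; norm_num
  have h7 : 16 * Real.log a ≤ Real.log x := by
    have : Real.log ((a : ℝ) ^ 16) ≤ Real.log x := by
      apply Real.log_le_log (by positivity)
      exact_mod_cast h16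
    rw [Real.log_pow] at this
    exact_mod_cast this
  linarith

/-- many primes -/
theorem many_primes {x m M : ℕ} {B : ℝ} (hB : 0 ≤ B) (hm0 : 0 < m) (hmM : m ≤ M) (hM3 : 3 ≤ M)
    (hMx : M ^ 8 ≤ x) (hx : (128 * (B + 2)) ^ 8 ≤ (x : ℝ)) (E : Finset ℕ)
    (hE : (E.card : ℝ) ≤ B * (m : ℝ) ^ 2) :
    x / (16 * Real.log x) * (1 / m) ≤
      (((range (x + 1)).filter (fun p => p.Prime ∧ M < p ∧ m * p ≤ x ∧ p ∉ E)).card : ℝ) := by
  set n := x / m with hn
  have hn27 : 27 ≤ n := by
    rw [hn, Nat.le_div_iff_mul_le hm0]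
    calc 27 * m ≤ M ^ 3 * M := by
          apply Nat.mul_le_mul _ hmM
          calc 27 = 3 ^ 3 := by norm_num
            _ ≤ M ^ 3 := Nat.pow_le_pow_left hM3 3
      _ = M ^ 4 := by ring
      _ ≤ M ^ 8 := Nat.pow_le_pow_right (by omega) (by omega)
      _ ≤ x := hMx
  have hnx : n ≤ x := Nat.div_le_self _ _
  have hx1 : 1 < x := by omega
  have hxR : (0 : ℝ) < x := by exact_mod_cast (by omega : 0 < x)
  have hmR : (0 : ℝ) < m := by exact_mod_cast hm0
  have hnR : (27 : ℝ) ≤ n := by exact_mod_cast hn27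
  have hlx : 0 < Real.log x := Real.log_pos (by exact_mod_cast hx1)
  have hln : 0 < Real.log n := Real.log_pos (by linarith)
  have hlnx : Real.log n ≤ Real.log x := by
    apply Real.log_le_log (by linarith)
    exact_mod_cast hnx
  have hxn : (x : ℝ) ≤ 2 * m * n := by
    have h1 : x < m * (n + 1) := by
      rw [hn]
      exact Nat.lt_mul_div_succ x hm0
    have h2 : (x : ℝ) ≤ m * (n + 1) := by exact_mod_cast h1.le
    nlinarith
  have hpi : (n : ℝ) / (4 * Real.log x) ≤ (Nat.primeCounting n : ℝ) := by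
    have h1 := Chebyshev.pi_ge n
    refine le_trans ?_ h1
    have h2 : Real.log ((n : ℝ) + 1) ≤ n / 8 + 1.3 := by
      have h3 : Real.log ((n : ℝ) + 1) = Real.log (((n : ℝ) + 1) / 8) + Real.log 8 := by
        rw [← Real.log_mul (by positivity) (by norm_num)]
        congr 1; ring
      have h4 := Real.log_le_sub_one_of_pos (x := ((n : ℝ) + 1) / 8) (by positivity)
      have h5 : Real.log 8 = 3 * Real.log 2 := by
        rw [show (8 : ℝ) = 2 ^ 3 by norm_num, Real.log_pow]; norm_num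
      have h6 := Real.log_two_lt_d9
      linarith
    have h7 := Real.log_two_gt_d9
    have h8 : (n : ℝ) / 4 ≤ n * Real.log 2 - Real.log ((n : ℝ) + 1) := by nlinarith
    calc (n : ℝ) / (4 * Real.log x) = n / 4 / Real.log x := by rw [div_div]
      _ ≤ n / 4 / Real.log n := by
          apply div_le_div_of_nonneg_left (by positivity) hln hlnx
      _ ≤ (n * Real.log 2 - Real.log ((n : ℝ) + 1)) / Real.log n :=
          div_le_div_of_nonneg_right h8 hln.le
  have hcount : Nat.primeCounting n ≤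
      ((range (x + 1)).filter (fun p => p.Prime ∧ M < p ∧ m * p ≤ x ∧ p ∉ E)).card +
        ((M + 1) + E.card) := by
    rw [Nat.primeCounting, Nat.primeCounting', Nat.count_eq_card_filter_range]
    have hsub : (range (n + 1)).filter Nat.Prime ⊆
        (range (x + 1)).filter (fun p => p.Prime ∧ M < p ∧ m * p ≤ x ∧ p ∉ E) ∪
          (range (M + 1) ∪ E) := by
      intro p hp
      rw [Finset.mem_filter, Finset.mem_range] at hp
      rw [Finset.mem_union, Finset.mem_union, Finset.mem_range, Finset.mem_filter,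
        Finset.mem_range]
      by_contra hcon
      rw [not_or, not_or] at hcon
      apply hcon.1
      have hmp : m * p ≤ x := by
        have : p ≤ x / m := by omega
        calc m * p ≤ m * (x / m) := Nat.mul_le_mul_left _ this
          _ ≤ x := Nat.mul_div_le x m
      exact ⟨by omega, hp.2, by omega, hmp, hcon.2.2⟩
    refine (Finset.card_le_card hsub).trans ?_
    refine (Finset.card_union_le _ _).trans (Nat.add_le_add_left ?_ _)
    refine (Finset.card_union_le _ _).trans ?_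
    rw [Finset.card_range]
  have hcountR : (Nat.primeCounting n : ℝ) ≤
      (((range (x + 1)).filter (fun p => p.Prime ∧ M < p ∧ m * p ≤ x ∧ p ∉ E)).card : ℝ) +
        (((M : ℝ) + 1) + E.card) := by exact_mod_cast hcount
  -- the loss
  set t : ℝ := Real.sqrt (Real.sqrt (Real.sqrt x)) with ht
  have ht8 : t ^ 8 = x := by
    have h1 : t ^ 2 = Real.sqrt (Real.sqrt x) := Real.sq_sqrt (Real.sqrt_nonneg _)
    have h2 : (Real.sqrt (Real.sqrt x)) ^ 2 = Real.sqrt x := Real.sq_sqrt (Real.sqrt_nonneg _)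
    calc t ^ 8 = ((t ^ 2) ^ 2) ^ 2 := by ring
      _ = ((Real.sqrt (Real.sqrt x)) ^ 2) ^ 2 := by rw [h1]
      _ = (Real.sqrt x) ^ 2 := by rw [h2]
      _ = x := Real.sq_sqrt hxR.le
  have ht0 : 0 < t := Real.sqrt_pos.2 (Real.sqrt_pos.2 (Real.sqrt_pos.2 hxR))
  have hlt : Real.log x ≤ 8 * t := by
    rw [← ht8, Real.log_pow]
    have := Real.log_le_sub_one_of_pos ht0
    push_cast
    linarith
  have hMt : (M : ℝ) ≤ t := by
    have h1 : (M : ℝ) ^ 8 ≤ t ^ 8 := by
      rw [ht8]; exact_mod_cast hMx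
    exact le_of_pow_le_pow_left₀ (by norm_num) ht0.le h1
  have hBt : 128 * (B + 2) ≤ t := by
    rw [← ht8] at hx
    exact le_of_pow_le_pow_left₀ (by norm_num) ht0.le hx
  have hMR : (3 : ℝ) ≤ M := by exact_mod_cast hM3
  have ht1 : 1 ≤ t := by linarith
  have hloss : ((M : ℝ) + 1) + E.card ≤ x / (16 * Real.log x) * (1 / m) := by
    rw [div_mul_div_comm, mul_one, le_div_iff₀ (by positivity)]
    have h2 : (m : ℝ) ≤ M := by exact_mod_cast hmM
    have h1 : ((M : ℝ) + 1) + E.card ≤ (B + 2) * M ^ 2 := by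
      have h3 : B * (m : ℝ) ^ 2 ≤ B * (M : ℝ) ^ 2 := by gcongr
      nlinarith
    calc (((M : ℝ) + 1) + E.card) * (16 * Real.log x * m)
        ≤ ((B + 2) * M ^ 2) * (16 * (8 * t) * M) := by gcongr
      _ = (128 * (B + 2)) * M ^ 3 * t := by ring
      _ ≤ t * t ^ 3 * t := by gcongr
      _ = t ^ 5 := by ring
      _ ≤ t ^ 8 := pow_le_pow_right₀ ht1 (by norm_num)
      _ = x := ht8
  have hmain : x / (16 * Real.log x) * (1 / m) * 2 ≤ (n : ℝ) / (4 * Real.log x) := by
    have e : x / (16 * Real.log x) * (1 / m) * 2 = (x / (2 * m)) / (4 * Real.log x) := by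
      field_simp
      norm_num
    rw [e]
    apply div_le_div_of_nonneg_right _ (by positivity)
    rw [div_le_iff₀ (by positivity)]
    linarith
  linarith

/-- **Positive lower density.** -/
theorem natural {Good : ℕ → Prop} [DecidablePred Good] {a : ℕ} {E : ℕ → Finset ℕ} {H B : ℝ}
    (hH : 0 ≤ H) (hB : 0 ≤ B) (ha : 0 < a) (hGa : Good a)
    (hz : ∀ m, 0 < m → Good m → ∃ z : ℕ, z ≠ 0 ∧ Real.log z ≤ H * m * (Real.log m) ^ 2 ∧
      ∀ p ∈ E m, p.Prime → ¬ p ∣ 2 * m → ∃ f : ℕ, 0 < f ∧ p ^ f ∣ z ∧ m ∣ p ^ f - 1)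
    (hcard : ∀ m, 0 < m → Good m → ((E m).card : ℝ) ≤ B * (m : ℝ) ^ 2)
    (hgood : ∀ m p, 0 < m → Good m → p.Prime → ¬ p ∣ m → p ∉ E m → Good (m * p)) :
    ∃ c : ℝ, 0 < c ∧ ∀ᶠ x : ℕ in atTop,
      c * x ≤ (((Finset.Icc 1 x).filter (fun N => a ∣ N ∧ Good N)).card : ℝ) := by
  classical
  obtain ⟨Q₀, hQ₀⟩ := density hH ha hGa hz hgood (1 / 4) (by norm_num)
  obtain ⟨c₂, hc₂, hWl⟩ := WW_lower
  obtain ⟨y₀, hy₀2, hsmall⟩ := small_sets
  set Q := max Q₀ 3 with hQd
  have hQ3 : 3 ≤ Q := le_max_right _ _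
  have hQb := hQ₀ Q (le_max_left _ _)
  have hlQ : 0 < Real.log Q := Real.log_pos (by exact_mod_cast (by omega : 1 < Q))
  have haR : (0 : ℝ) < a := by exact_mod_cast ha
  refine ⟨c₂ / (8192 * a * Real.log Q), by positivity, ?_⟩
  have hxB : ∀ᶠ x : ℕ in atTop, (128 * (B + 2)) ^ 8 ≤ (x : ℝ) :=
    tendsto_natCast_atTop_atTop.eventually_ge_atTop _
  filter_upwards [hxB, eventually_ge_atTop ((a * 3 ^ 4) ^ 8), eventually_ge_atTop (a ^ 16),
    eventually_ge_atTop ((a * y₀ ^ 4) ^ 8)] with x h1 h2 h3 h4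
  obtain ⟨y, hy3, hyy, hyx, hlog⟩ := choose_y a x ha h2 h3 y₀ h4
  set M := a * y ^ 4 with hM
  have hM3 : 3 ≤ M := by
    calc 3 ≤ y := hy3
      _ ≤ y ^ 4 := Nat.le_self_pow (by omega) y
      _ ≤ a * y ^ 4 := Nat.le_mul_of_pos_left _ ha
  have hx1 : 1 < x := by
    have : M ≤ M ^ 8 := Nat.le_self_pow (by omega) M
    omega
  have hxR : (0 : ℝ) < x := by exact_mod_cast (by omega : 0 < x)
  have hlx : 0 < Real.log x := Real.log_pos (by exact_mod_cast hx1)
  have hly : 0 < Real.log y := Real.log_pos (by exact_mod_cast (by omega : 1 < y))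
  set A := (PQ Q y).powerset.filter (fun T => nn T ≤ y ^ 4 ∧ Good (a * nn T)) with hA
  -- the weight of `A`
  have hAw : 1 / 4 * WW (PQ Q y) ≤ ∑ T ∈ A, om T := by
    have h5 := sum_om (PQ Q y)
    have h6 := hsmall Q y hyy
    have h7 := hQb y
    have h8 : ∑ T ∈ (PQ Q y).powerset, om T ≤ ∑ T ∈ A, om T +
        ∑ T ∈ (PQ Q y).powerset.filter (fun T => ¬ nn T ≤ y ^ 4), om T +
        bsum Good a Q y := by
      unfold bsum
      rw [hA, Finset.sum_filter, Finset.sum_filter, ← Finset.sum_add_distrib,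
        ← Finset.sum_add_distrib]
      apply Finset.sum_le_sum
      intro T _
      have hom := om_nonneg T
      by_cases b1 : nn T ≤ y ^ 4
      · by_cases b2 : Good (a * nn T)
        · rw [if_pos ⟨b1, b2⟩, if_neg (not_not.2 b1), if_pos b2]; linarith
        · rw [if_neg (fun h => b2 h.2), if_neg (not_not.2 b1), if_neg b2]; linarith
      · rw [if_neg (fun h => b1 h.1), if_pos b1]
        have : (0 : ℝ) ≤ (if Good (a * nn T) then 0 else om T) := by
          split_ifs <;> [exact le_rfl; exact hom]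
        linarith
    linarith
  -- the injection
  set V := (Finset.Icc 1 x).filter (fun N => a ∣ N ∧ Good N) with hV
  set Bs : Finset ℕ → Finset ℕ := fun T => (range (x + 1)).filter
    (fun p => p.Prime ∧ M < p ∧ a * nn T * p ≤ x ∧ p ∉ E (a * nn T)) with hBs
  have hTM : ∀ T ∈ A, 0 < a * nn T ∧ a * nn T ≤ M := by
    intro T hT
    rw [hA, Finset.mem_filter] at hT
    exact ⟨Nat.mul_pos ha (nn_pos' hT.1), Nat.mul_le_mul_left _ hT.2.1⟩
  have hcardV : ∑ T ∈ A, (Bs T).card ≤ V.card := by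
    rw [← Finset.card_sigma]
    apply Finset.card_le_card_of_injOn (fun s : (Σ _ : Finset ℕ, ℕ) => a * nn s.1 * s.2)
    · rintro ⟨T, p⟩ hs
      rw [Finset.mem_coe, Finset.mem_sigma] at hs
      obtain ⟨hT, hp⟩ := hs
      have hTm := hTM T hT
      rw [hBs, Finset.mem_filter] at hp
      obtain ⟨-, hp1, hp2, hp3, hp4⟩ := hp
      rw [hA, Finset.mem_filter] at hT
      rw [hV, Finset.mem_coe, Finset.mem_filter, Finset.mem_Icc]
      refine ⟨⟨Nat.mul_pos hTm.1 hp1.pos, hp3⟩, Dvd.dvd.mul_right (Dvd.intro _ rfl) p, ?_⟩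
      apply hgood (a * nn T) p hTm.1 hT.2.2 hp1 _ hp4
      intro hd
      have h9 := Nat.le_of_dvd hTm.1 hd
      have h10 : M < p := hp2
      omega
    · rintro ⟨T, p⟩ hs ⟨T', p'⟩ hs' heq
      rw [Finset.mem_coe, Finset.mem_sigma] at hs hs'
      obtain ⟨hT, hp⟩ := hs
      obtain ⟨hT', hp'⟩ := hs'
      have hTm := hTM T hT
      have hTm' := hTM T' hT'
      rw [hBs, Finset.mem_filter] at hp hp'
      obtain ⟨-, hp1, hp2, hp3, hp4⟩ := hp
      obtain ⟨-, hp1', hp2', hp3', hp4'⟩ := hp'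
      have heq' : a * nn T * p = a * nn T' * p' := heq
      have hpp : p = p' := by
        by_contra hne
        have hd : p ∣ a * nn T' * p' := by rw [← heq']; exact Dvd.intro_left _ rfl
        rw [hp1.dvd_mul] at hd
        rcases hd with hd | hd
        · have h9 := Nat.le_of_dvd hTm'.1 hd
          have h10 : M < p := hp2
          omega
        · exact hne ((Nat.prime_dvd_prime_iff_eq hp1 hp1').1 hd)
      subst hpp
      have hnn : nn T = nn T' := by
        have h5 : a * nn T = a * nn T' := Nat.eq_of_mul_eq_mul_right hp1.pos heq'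
        exact Nat.eq_of_mul_eq_mul_left ha h5
      have hprime : ∀ S ∈ A, (nn S).primeFactors = S := by
        intro S hS
        rw [hA, Finset.mem_filter, Finset.mem_powerset] at hS
        exact Nat.primeFactors_prod (fun q hq => (mem_PQ.1 (hS.1 hq)).2.1)
      have hTT : T = T' := by rw [← hprime T hT, ← hprime T' hT', hnn]
      subst hTT
      rfl
  have hBT : ∀ T ∈ A, x / (16 * Real.log x) * (1 / ((a * nn T : ℕ) : ℝ)) ≤ ((Bs T).card : ℝ) := by
    intro T hT
    have hTm := hTM T hT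
    have hG : Good (a * nn T) := by
      rw [hA, Finset.mem_filter] at hT
      exact hT.2.2
    exact many_primes hB hTm.1 hTm.2 hM3 hyx h1 (E (a * nn T)) (hcard _ hTm.1 hG)
  have h5 : x / (16 * a * Real.log x) * ∑ T ∈ A, om T ≤ (V.card : ℝ) := by
    calc x / (16 * a * Real.log x) * ∑ T ∈ A, om T
        = ∑ T ∈ A, x / (16 * Real.log x) * (1 / ((a * nn T : ℕ) : ℝ)) := by
          rw [Finset.mul_sum]
          apply Finset.sum_congr rfl
          intro T hT
          have hn0 : (0 : ℝ) < nn T := by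
            rw [hA, Finset.mem_filter] at hT
            exact_mod_cast nn_pos' hT.1
          rw [om_eq]
          push_cast
          field_simp
      _ ≤ ∑ T ∈ A, ((Bs T).card : ℝ) := Finset.sum_le_sum hBT
      _ = ((∑ T ∈ A, (Bs T).card : ℕ) : ℝ) := by push_cast; rfl
      _ ≤ V.card := by exact_mod_cast hcardV
  refine le_trans ?_ h5
  have h6 := hWl Q y hQ3 hy3
  calc c₂ / (8192 * a * Real.log Q) * x
      = x / (16 * a * Real.log x) * (1 / 4 * (c₂ * ((Real.log x / 128) / Real.log Q))) := by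
        field_simp
        norm_num
    _ ≤ x / (16 * a * Real.log x) * (1 / 4 * (c₂ * (Real.log y / Real.log Q))) := by
        have h7 : Real.log x / 128 ≤ Real.log y := by linarith
        gcongr
    _ ≤ x / (16 * a * Real.log x) * ∑ T ∈ A, om T := by
        apply mul_le_mul_of_nonneg_left _ (by positivity)
        refine le_trans ?_ hAw
        apply mul_le_mul_of_nonneg_left h6 (by norm_num)

end Pool.Agent.Q79.KQ
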