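import Mathlib
import Pool.Agent.Q79.KqI

set_option autoImplicit false

open Finset Filter

namespace Pool.Agent.Q79.KQ

/-! ### Logarithmic density among the numbers without small prime factors -/

/-- all prime factors are larger than `Q` -/
def Rough (Q m : ℕ) : Prop := ∀ p : ℕ, p.Prime → p ∣ m → Q < p

theorem rough {Good : ℕ → Prop} {a : ℕ} {E : ℕ → Finset ℕ} {H : ℝ}
    (hH : 0 ≤ H) (ha : 0 < a) (hGa : Good a)
    (hz : ∀ m, 0 < m → Good m → ∃ z : ℕ, z ≠ 0 ∧ Real.log z ≤ H * m * (Real.log m) ^ 2 ∧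
      ∀ p ∈ E m, p.Prime → ¬ p ∣ 2 * m → ∃ f : ℕ, 0 < f ∧ p ^ f ∣ z ∧ m ∣ p ^ f - 1)
    (hgood : ∀ m p, 0 < m → Good m → p.Prime → ¬ p ∣ m → p ∉ E m → Good (m * p))
    (ε : ℝ) (hε : 0 < ε) (R : ℕ → ℕ → Finset ℕ)
    (hR : ∀ Q x m, m ∈ R Q x ↔ (1 ≤ m ∧ m ≤ x) ∧ Rough Q m)
    (Z : ℕ → ℕ → Finset ℕ) (hZ : ∀ Q x m, m ∈ Z Q x ↔ m ∈ R Q x ∧ ¬ Good (a * m)) :
    ∃ Q₀ : ℕ, ∀ Q : ℕ, Q₀ ≤ Q → ∀ᶠ x : ℕ in atTop,
      ∑ m ∈ Z Q x, (1 : ℝ) / m ≤ ε * ∑ m ∈ R Q x, (1 : ℝ) / m := by
  classical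
  obtain ⟨C₃, hC₃, hWb⟩ := WW_block 8 (by norm_num)
  obtain ⟨Q₀, hQ₀⟩ := density hH ha hGa hz hgood (ε / (4 * C₃)) (by positivity)
  obtain ⟨y₀, hy₀2, hsmall⟩ := small_sets
  obtain ⟨Q₁, hQ₁⟩ := exists_nat_gt (4 / ε)
  refine ⟨max Q₀ Q₁, fun Q hQ => ?_⟩
  have hQb := hQ₀ Q ((le_max_left _ _).trans hQ)
  have hQ4 : 4 / ε ≤ (Q : ℝ) + 1 := by
    have h1 : (Q₁ : ℝ) ≤ Q := by exact_mod_cast (le_max_right _ _).trans hQ
    linarith
  filter_upwards [eventually_ge_atTop (y₀ ^ 4)] with x hx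
  set y := Nat.sqrt (Nat.sqrt x) with hy
  have hyy : y₀ ≤ y := by
    rw [hy, Nat.le_sqrt, Nat.le_sqrt]
    calc y₀ * y₀ * (y₀ * y₀) = y₀ ^ 4 := by ring
      _ ≤ x := hx
  have hy2 : 2 ≤ y := hy₀2.trans hyy
  have hyx : y ^ 4 ≤ x := by
    have h3 : y * y ≤ Nat.sqrt x := Nat.sqrt_le _
    have h4 : Nat.sqrt x * Nat.sqrt x ≤ x := Nat.sqrt_le _
    calc y ^ 4 = (y * y) * (y * y) := by ring
      _ ≤ Nat.sqrt x * Nat.sqrt x := Nat.mul_le_mul h3 h3
      _ ≤ x := h4
  have hxy : x ≤ y ^ 8 := by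
    have h3 : Nat.sqrt x < (y + 1) * (y + 1) := Nat.lt_succ_sqrt _
    have h4 : x < (Nat.sqrt x + 1) * (Nat.sqrt x + 1) := Nat.lt_succ_sqrt _
    have h5 : y + 1 ≤ y ^ 2 := by nlinarith
    calc x ≤ (Nat.sqrt x + 1) * (Nat.sqrt x + 1) := h4.le
      _ ≤ ((y + 1) * (y + 1)) * ((y + 1) * (y + 1)) := Nat.mul_le_mul h3 h3
      _ = (y + 1) ^ 4 := by ring
      _ ≤ (y ^ 2) ^ 4 := Nat.pow_le_pow_left h5 4
      _ = y ^ 8 := by rw [← pow_mul]
  set RR := ∑ m ∈ R Q x, (1 : ℝ) / m with hRR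
  have hRR0 : 0 ≤ RR := Finset.sum_nonneg (fun _ _ => by positivity)
  -- lower bound for the total
  have hlow : 1 / 2 * WW (PQ Q y) ≤ RR := by
    have h1 := sum_om (PQ Q y)
    have h2 := hsmall Q y hyy
    have h3 := Finset.sum_filter_add_sum_filter_not (PQ Q y).powerset (fun T => nn T ≤ y ^ 4) om
    have h4 : ∑ T ∈ (PQ Q y).powerset.filter (fun T => nn T ≤ y ^ 4), om T ≤ RR := by
      have hprime : ∀ S ∈ (PQ Q y).powerset.filter (fun T => nn T ≤ y ^ 4),
          (nn S).primeFactors = S := by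
        intro S hS
        rw [Finset.mem_filter, Finset.mem_powerset] at hS
        exact Nat.primeFactors_prod (fun q hq => (mem_PQ.1 (hS.1 hq)).2.1)
      have hinj : Set.InjOn nn
          ((PQ Q y).powerset.filter (fun T => nn T ≤ y ^ 4) : Set (Finset ℕ)) := by
        intro S hS S' hS' h
        rw [← hprime S (by exact_mod_cast hS), ← hprime S' (by exact_mod_cast hS'), h]
      calc ∑ T ∈ (PQ Q y).powerset.filter (fun T => nn T ≤ y ^ 4), om T
          = ∑ T ∈ (PQ Q y).powerset.filter (fun T => nn T ≤ y ^ 4), 1 / ((nn T : ℕ) : ℝ) :=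
            Finset.sum_congr rfl (fun T _ => om_eq T)
        _ = ∑ m ∈ ((PQ Q y).powerset.filter (fun T => nn T ≤ y ^ 4)).image nn, (1 : ℝ) / m := by
            rw [Finset.sum_image (by exact_mod_cast hinj)]
        _ ≤ RR := by
            apply Finset.sum_le_sum_of_subset_of_nonneg
            · intro m hm
              rw [Finset.mem_image] at hm
              obtain ⟨T, hT, rfl⟩ := hm
              have hp := hprime T hT
              rw [Finset.mem_filter] at hT
              rw [hR]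
              refine ⟨⟨nn_pos' hT.1, hT.2.trans hyx⟩, ?_⟩
              intro p hp1 hp2
              have hpT : p ∈ T := by
                rw [← hp]
                exact Nat.mem_primeFactors.2 ⟨hp1, hp2, (nn_pos' hT.1).ne'⟩
              exact (mem_PQ.1 (Finset.mem_powerset.1 hT.1 hpT)).2.2
            · intro _ _ _; positivity
    linarith
  -- square-free bad numbers
  have hsq : ∑ m ∈ (Z Q x).filter Squarefree, (1 : ℝ) / m ≤ bsum Good a Q (x + 1) := by
    have hinj : Set.InjOn Nat.primeFactors ((Z Q x).filter Squarefree : Set ℕ) := by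
      intro m hm m' hm' h
      rw [Finset.mem_coe, Finset.mem_filter] at hm hm'
      rw [← Nat.prod_primeFactors_of_squarefree hm.2,
        ← Nat.prod_primeFactors_of_squarefree hm'.2, h]
    have h1 : ∑ m ∈ (Z Q x).filter Squarefree, (1 : ℝ) / m =
        ∑ T ∈ ((Z Q x).filter Squarefree).image Nat.primeFactors,
          (if Good (a * nn T) then 0 else om T) := by
      rw [Finset.sum_image (by exact_mod_cast hinj)]
      apply Finset.sum_congr rfl
      intro m hm
      rw [Finset.mem_filter, hZ] at hm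
      have h2 : nn m.primeFactors = m := Nat.prod_primeFactors_of_squarefree hm.2
      rw [om_eq, h2, if_neg hm.1.2]
    rw [h1]
    unfold bsum
    apply Finset.sum_le_sum_of_subset_of_nonneg
    · intro T hT
      rw [Finset.mem_image] at hT
      obtain ⟨m, hm, rfl⟩ := hT
      rw [Finset.mem_filter, hZ, hR] at hm
      rw [Finset.mem_powerset]
      intro p hp
      rw [mem_PQ]
      have h2 := Nat.prime_of_mem_primeFactors hp
      have h3 := Nat.le_of_mem_primeFactors hp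
      exact ⟨by omega, h2, hm.1.1.2 p h2 (Nat.dvd_of_mem_primeFactors hp)⟩
    · intro T _ _
      split_ifs <;> [exact le_rfl; exact om_nonneg T]
  -- the others
  have hnsq : ∑ m ∈ (Z Q x).filter (fun m => ¬ Squarefree m), (1 : ℝ) / m ≤
      2 / ((Q : ℝ) + 1) * RR := by
    calc ∑ m ∈ (Z Q x).filter (fun m => ¬ Squarefree m), (1 : ℝ) / m
        ≤ ∑ m ∈ (Z Q x).filter (fun m => ¬ Squarefree m), ∑ q ∈ Finset.Ioo Q (x + 1),
          ∑ m' ∈ R Q x, (if q * q * m' = m then ((q : ℝ) ^ 2)⁻¹ * (1 / (m' : ℝ)) else 0) := by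
          apply Finset.sum_le_sum
          intro m hm
          rw [Finset.mem_filter, hZ, hR] at hm
          obtain ⟨⟨⟨⟨hm1, hm2⟩, hm3⟩, hm4⟩, hm5⟩ := hm
          rw [Nat.squarefree_iff_prime_squarefree] at hm5
          push Not at hm5
          obtain ⟨q, hq, m', hm'⟩ := hm5
          have hqm : q ∣ m := by rw [hm', mul_assoc]; exact Dvd.intro _ rfl
          have hqQ := hm3 q hq hqm
          have hqx : q < x + 1 := by
            have := Nat.le_of_dvd (by omega) hqm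
            omega
          have hm'0 : 0 < m' := by
            rcases Nat.eq_zero_or_pos m' with h | h
            · rw [h, mul_zero] at hm'; omega
            · exact h
          have hm'R : m' ∈ R Q x := by
            rw [hR]
            refine ⟨⟨hm'0, ?_⟩, fun p hp hpd => hm3 p hp ?_⟩
            · have : m' ≤ q * q * m' := Nat.le_mul_of_pos_left _ (Nat.mul_pos hq.pos hq.pos)
              omega
            · rw [hm']; exact Dvd.dvd.mul_left hpd _
          have hqI : q ∈ Finset.Ioo Q (x + 1) := Finset.mem_Ioo.2 ⟨hqQ, hqx⟩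
          refine le_trans ?_ (Finset.single_le_sum (f := fun q : ℕ => ∑ m' ∈ R Q x,
            (if q * q * m' = m then ((q : ℝ) ^ 2)⁻¹ * (1 / (m' : ℝ)) else 0))
            (fun i _ => Finset.sum_nonneg (fun j _ => by split_ifs <;> positivity)) hqI)
          refine le_trans ?_ (Finset.single_le_sum (f := fun m' : ℕ =>
            (if q * q * m' = m then ((q : ℝ) ^ 2)⁻¹ * (1 / (m' : ℝ)) else 0))
            (fun j _ => by split_ifs <;> positivity) hm'R)
          rw [if_pos hm'.symm, hm']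
          push_cast
          rw [one_div, one_div, mul_inv, mul_inv, sq, mul_inv]
      _ = ∑ q ∈ Finset.Ioo Q (x + 1), ∑ m' ∈ R Q x,
          ∑ m ∈ (Z Q x).filter (fun m => ¬ Squarefree m),
          (if q * q * m' = m then ((q : ℝ) ^ 2)⁻¹ * (1 / (m' : ℝ)) else 0) := by
          rw [Finset.sum_comm]
          apply Finset.sum_congr rfl
          intro q _
          exact Finset.sum_comm
      _ ≤ ∑ q ∈ Finset.Ioo Q (x + 1), ∑ m' ∈ R Q x, ((q : ℝ) ^ 2)⁻¹ * (1 / (m' : ℝ)) := by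
          apply Finset.sum_le_sum
          intro q _
          apply Finset.sum_le_sum
          intro m' _
          rw [Finset.sum_ite_eq]
          split_ifs <;> [exact le_rfl; positivity]
      _ = (∑ q ∈ Finset.Ioo Q (x + 1), ((q : ℝ) ^ 2)⁻¹) * RR := by
          rw [Finset.sum_mul_sum]
      _ ≤ 2 / ((Q : ℝ) + 1) * RR :=
          mul_le_mul_of_nonneg_right (sum_Ioo_inv_sq_le Q (x + 1)) hRR0
  have h5 := Finset.sum_filter_add_sum_filter_not (Z Q x) Squarefree (fun m : ℕ => (1 : ℝ) / m)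
  have h6 := hQb (x + 1)
  have h7 := hWb Q y x hy2 hxy
  have hW0 : 0 < WW (PQ Q y) := by linarith [WW_ge_one (PQ Q y)]
  have h8 : bsum Good a Q (x + 1) ≤ ε / 2 * RR := by
    calc bsum Good a Q (x + 1) ≤ ε / (4 * C₃) * WW (PQ Q (x + 1)) := h6
      _ ≤ ε / (4 * C₃) * (C₃ * WW (PQ Q y)) := mul_le_mul_of_nonneg_left h7 (by positivity)
      _ = ε / 2 * (1 / 2 * WW (PQ Q y)) := by field_simp; norm_num
      _ ≤ ε / 2 * RR := mul_le_mul_of_nonneg_left hlow (by positivity)
  have h9 : 2 / ((Q : ℝ) + 1) * RR ≤ ε / 2 * RR := by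
    apply mul_le_mul_of_nonneg_right _ hRR0
    rw [div_le_iff₀ hε] at hQ4
    rw [div_le_div_iff₀ (by positivity) (by norm_num)]
    linarith
  linarith

end Pool.Agent.Q79.KQ
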