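import Mathlib
import Pool.Agent.Q79.KqI

set_option autoImplicit false

open Finset Filter

namespace Pool.Agent.Q79.KQ

/-! ### The unnormalised sums over large primes -/

/-- the majorant -/
noncomputable def vv (e : ℕ) : ℝ := (1 / (e : ℝ)) ^ 2 *
  ((1 + Real.sqrt (Real.sqrt (Real.sqrt (e + 1)))) ^ 2 * Real.sqrt (Real.sqrt (Real.sqrt (e + 1))))

theorem vv_nonneg (e : ℕ) : 0 ≤ vv e := by unfold vv; positivity

theorem vv_summable : Summable vv := by
  have h1 : Summable (fun n : ℕ => 8 * (1 / (n : ℝ) ^ (3 / 2 : ℝ))) :=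
    (Real.summable_one_div_nat_rpow.2 (by norm_num)).mul_left 8
  apply Summable.of_nonneg_of_le vv_nonneg _ h1
  intro e
  rcases Nat.eq_zero_or_pos e with h | h
  · subst h
    unfold vv
    simp only [Nat.cast_zero, div_zero, ne_eq, OfNat.ofNat_ne_zero, not_false_eq_true, zero_pow,
      zero_mul]
    positivity
  · have he : (1 : ℝ) ≤ e := by exact_mod_cast h
    have he0 : (0 : ℝ) < e := by linarith
    set s := Real.sqrt ((e : ℝ) + 1) with hs
    have hs1 : 1 ≤ s := by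
      rw [hs, Real.one_le_sqrt]; linarith
    set r := Real.sqrt s with hr
    have hr1 : 1 ≤ r := by rw [hr, Real.one_le_sqrt]; exact hs1
    have hr2 : r ^ 2 = s := Real.sq_sqrt (by linarith)
    set t := Real.sqrt r with ht
    have ht1 : 1 ≤ t := by rw [ht, Real.one_le_sqrt]; exact hr1
    have ht2 : t ^ 2 = r := Real.sq_sqrt (by linarith)
    have h2 : (1 + t) ^ 2 * t ≤ 4 * s := by
      have h3 : (1 + t) ^ 2 * t ≤ 4 * t ^ 3 := by nlinarith
      have h4 : t ^ 3 ≤ t ^ 4 := pow_le_pow_right₀ ht1 (by norm_num)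
      have h5 : t ^ 4 = s := by rw [← hr2, ← ht2]; ring
      linarith
    have hs2 : s ≤ 2 * Real.sqrt e := by
      rw [hs]
      have h3 : Real.sqrt ((e : ℝ) + 1) ≤ Real.sqrt (4 * e) := Real.sqrt_le_sqrt (by linarith)
      have h4 : Real.sqrt (4 * (e : ℝ)) = 2 * Real.sqrt e := by
        rw [Real.sqrt_mul (by norm_num), show (4 : ℝ) = 2 ^ 2 by norm_num,
          Real.sqrt_sq (by norm_num)]
      rw [h4] at h3
      exact h3
    have h5 : (e : ℝ) ^ (3 / 2 : ℝ) * Real.sqrt e = (e : ℝ) ^ 2 := by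
      rw [Real.sqrt_eq_rpow, ← Real.rpow_add he0]
      norm_num
    have hsq : 0 < Real.sqrt (e : ℝ) := Real.sqrt_pos.2 he0
    have h6 : (0 : ℝ) < (e : ℝ) ^ (3 / 2 : ℝ) := Real.rpow_pos_of_pos he0 _
    unfold vv
    calc (1 / (e : ℝ)) ^ 2 * ((1 + t) ^ 2 * t) ≤ (1 / (e : ℝ)) ^ 2 * (8 * Real.sqrt e) := by
          apply mul_le_mul_of_nonneg_left _ (by positivity)
          linarith
      _ = 8 * (1 / (e : ℝ) ^ (3 / 2 : ℝ)) := by
          rw [div_pow, one_pow, ← h5]
          field_simp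

/-- the pairs `(p, q)` for which the order of `p` modulo `q` is small -/
theorem order_sum' (Q z x : ℕ) :
    ∑ p ∈ PQ z x, Real.log p / (p : ℝ) * ∑ q ∈ (PQ Q p).filter
      (fun q => (Real.log p) ^ 8 * (orderOf (p : ZMod q) : ℝ) < q), (1 : ℝ) / q ≤
    ∑ e ∈ (range x).filter (fun e : ℕ => (Real.log z) ^ 8 < (e : ℝ) + 1), vv e := by
  classical
  have hstep : ∑ p ∈ PQ z x, Real.log p / (p : ℝ) * ∑ q ∈ (PQ Q p).filter
      (fun q => (Real.log p) ^ 8 * (orderOf (p : ZMod q) : ℝ) < q), (1 : ℝ) / q ≤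
      ∑ p ∈ PQ z x, ∑ q ∈ PQ Q x, ∑ e ∈ (range x).filter
        (fun e : ℕ => (Real.log z) ^ 8 < (e : ℝ) + 1),
        (if q < p ∧ e * orderOf (p : ZMod q) + 1 = q ∧ (Real.log p) ^ 8 < (e : ℝ) + 1 then
          1 / (q : ℝ) * (Real.log p / (p : ℝ)) else 0) := by
    apply Finset.sum_le_sum
    intro p hp
    rw [Finset.mul_sum]
    have hsub : (PQ Q p).filter
      (fun q => (Real.log p) ^ 8 * (orderOf (p : ZMod q) : ℝ) < q) ⊆ PQ Q x :=
      (Finset.filter_subset _ _).trans (PQ_mono (mem_PQ.1 hp).1.le)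
    refine le_trans ?_ (Finset.sum_le_sum_of_subset_of_nonneg hsub ?_)
    · apply Finset.sum_le_sum
      intro q hq
      rw [Finset.mem_filter, mem_PQ] at hq
      obtain ⟨⟨hqp, hqP, hQq⟩, hlt⟩ := hq
      rw [mem_PQ] at hp
      have i0 : Fact q.Prime := ⟨hqP⟩
      have hne : (p : ZMod q) ≠ 0 := by
        intro h
        have h1 := (ZMod.natCast_eq_zero_iff _ _).1 h
        rw [Nat.prime_dvd_prime_iff_eq hqP hp.2.1] at h1
        omega
      have hdvd : orderOf (p : ZMod q) ∣ q - 1 :=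
        orderOf_dvd_of_pow_eq_one (ZMod.pow_card_sub_one_eq_one hne)
      have hq2 := hqP.two_le
      have ho : 0 < orderOf (p : ZMod q) := Nat.pos_of_dvd_of_pos hdvd (by omega)
      obtain ⟨e, he⟩ := hdvd
      have hexq : e * orderOf (p : ZMod q) + 1 = q := by
        rw [mul_comm, ← he]; omega
      have hex : e < x := by
        have h2 : e ≤ e * orderOf (p : ZMod q) := Nat.le_mul_of_pos_right e ho
        omega
      have hoR : (1 : ℝ) ≤ (orderOf (p : ZMod q) : ℝ) := by exact_mod_cast ho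
      have hle : (Real.log p) ^ 8 < (e : ℝ) + 1 := by
        have h2 : (q : ℝ) = e * (orderOf (p : ZMod q) : ℝ) + 1 := by exact_mod_cast hexq.symm
        rw [h2] at hlt
        have h3 : (Real.log p) ^ 8 * (orderOf (p : ZMod q) : ℝ) <
            ((e : ℝ) + 1) * (orderOf (p : ZMod q) : ℝ) := by nlinarith
        exact lt_of_mul_lt_mul_right h3 (by linarith)
      have hlQ : (Real.log z) ^ 8 < (e : ℝ) + 1 := by
        refine lt_of_le_of_lt ?_ hle
        apply pow_le_pow_left₀ (Real.log_natCast_nonneg z)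
        rcases Nat.eq_zero_or_pos z with h0 | h0
        · rw [h0, Nat.cast_zero, Real.log_zero]
          exact Real.log_natCast_nonneg p
        · apply Real.log_le_log (by exact_mod_cast h0)
          exact_mod_cast hp.2.2.le
      have hmem : e ∈ (range x).filter (fun e : ℕ => (Real.log z) ^ 8 < (e : ℝ) + 1) := by
        rw [Finset.mem_filter, Finset.mem_range]; exact ⟨hex, hlQ⟩
      refine le_trans ?_ (Finset.single_le_sum (f := fun e : ℕ =>
        (if q < p ∧ e * orderOf (p : ZMod q) + 1 = q ∧ (Real.log p) ^ 8 < (e : ℝ) + 1 then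
          1 / (q : ℝ) * (Real.log p / (p : ℝ)) else 0)) (fun i _ => by split_ifs <;> positivity) hmem)
      rw [if_pos ⟨hqp, hexq, hle⟩, mul_comm]
    · intro q _ _
      apply Finset.sum_nonneg
      intro e _
      split_ifs <;> positivity
  refine hstep.trans ?_
  have hswap : ∑ p ∈ PQ z x, ∑ q ∈ PQ Q x, ∑ e ∈ (range x).filter
        (fun e : ℕ => (Real.log z) ^ 8 < (e : ℝ) + 1),
        (if q < p ∧ e * orderOf (p : ZMod q) + 1 = q ∧ (Real.log p) ^ 8 < (e : ℝ) + 1 then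
          1 / (q : ℝ) * (Real.log p / (p : ℝ)) else 0) =
      ∑ e ∈ (range x).filter (fun e : ℕ => (Real.log z) ^ 8 < (e : ℝ) + 1), ∑ q ∈ PQ Q x,
        ∑ p ∈ PQ z x,
        (if q < p ∧ e * orderOf (p : ZMod q) + 1 = q ∧ (Real.log p) ^ 8 < (e : ℝ) + 1 then
          1 / (q : ℝ) * (Real.log p / (p : ℝ)) else 0) := by
    rw [Finset.sum_comm]
    rw [Finset.sum_congr rfl (fun q _ => Finset.sum_comm)]
    rw [Finset.sum_comm]
  rw [hswap]
  apply Finset.sum_le_sum
  intro e _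
  set t := Real.sqrt (Real.sqrt (Real.sqrt ((e : ℝ) + 1))) with ht
  have ht0 : 0 ≤ t := Real.sqrt_nonneg _
  have ht8 : t ^ 8 = (e : ℝ) + 1 := by
    have h1 : t ^ 2 = Real.sqrt (Real.sqrt ((e : ℝ) + 1)) := Real.sq_sqrt (Real.sqrt_nonneg _)
    have h2 : (Real.sqrt (Real.sqrt ((e : ℝ) + 1))) ^ 2 = Real.sqrt ((e : ℝ) + 1) :=
      Real.sq_sqrt (Real.sqrt_nonneg _)
    calc t ^ 8 = ((t ^ 2) ^ 2) ^ 2 := by ring
      _ = (Real.sqrt ((e : ℝ) + 1)) ^ 2 := by rw [h1, h2]
      _ = (e : ℝ) + 1 := Real.sq_sqrt (by positivity)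
  have hlogt : ∀ p : ℕ, (Real.log p) ^ 8 < (e : ℝ) + 1 → Real.log p ≤ t := by
    intro p hp
    rw [← ht8] at hp
    exact (lt_of_pow_lt_pow_left₀ 8 ht0 hp).le
  rcases Nat.eq_zero_or_pos e with he | he
  · refine le_trans (le_of_eq ?_) (vv_nonneg e)
    apply Finset.sum_eq_zero
    intro q hq
    apply Finset.sum_eq_zero
    intro p _
    rw [if_neg]
    rintro ⟨-, h2, -⟩
    rw [he, zero_mul] at h2
    have := (mem_PQ.1 hq).2.1.two_le
    omega
  have heR : (0 : ℝ) < e := by exact_mod_cast he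
  -- for fixed `q`
  have hin : ∀ q ∈ PQ Q x, ∑ p ∈ PQ z x,
        (if q < p ∧ e * orderOf (p : ZMod q) + 1 = q ∧ (Real.log p) ^ 8 < (e : ℝ) + 1 then
          1 / (q : ℝ) * (Real.log p / (p : ℝ)) else 0) ≤
      (if 1 < q ∧ e ∣ q - 1 ∧ Real.log q ≤ t then
        1 / (q : ℝ) * (t * (1 / (e : ℝ) * (1 + t))) else 0) := by
    intro q hq
    rw [mem_PQ] at hq
    have hqR : (0 : ℝ) < q := by exact_mod_cast hq.2.1.pos
    rw [← Finset.sum_filter, ← Finset.mul_sum]
    rcases ((PQ z x).filter (fun p => q < p ∧ e * orderOf (p : ZMod q) + 1 = q ∧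
      (Real.log p) ^ 8 < (e : ℝ) + 1)).eq_empty_or_nonempty with h | ⟨p₀, hp₀⟩
    · rw [h, Finset.sum_empty, mul_zero]
      split_ifs <;> positivity
    · rw [Finset.mem_filter] at hp₀
      obtain ⟨-, h1, h2, h3⟩ := hp₀
      have hd1 : e ∣ q - 1 := ⟨orderOf (p₀ : ZMod q), by omega⟩
      have hlq : Real.log q ≤ t := by
        refine le_trans (Real.log_le_log hqR ?_) (hlogt p₀ h3)
        exact_mod_cast h1.le
      rw [if_pos ⟨hq.2.1.one_lt, hd1, hlq⟩]
      apply mul_le_mul_of_nonneg_left _ (by positivity)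
      have hd0 : 0 < (q - 1) / e := Nat.div_pos (Nat.le_of_dvd (by
        have := hq.2.1.two_le; omega) hd1) he
      have hts : ∑ p ∈ (PQ z x).filter (fun p => q < p ∧ e * orderOf (p : ZMod q) + 1 = q ∧
          (Real.log p) ^ 8 < (e : ℝ) + 1), Real.log p / (p : ℝ) ≤
          t * ∑ p ∈ (PQ z x).filter (fun p => q < p ∧ e * orderOf (p : ZMod q) + 1 = q ∧
          (Real.log p) ^ 8 < (e : ℝ) + 1), 1 / (p : ℝ) := by
        rw [Finset.mul_sum]
        apply Finset.sum_le_sum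
        intro p hp
        rw [Finset.mem_filter] at hp
        rw [mul_one_div]
        exact div_le_div_of_nonneg_right (hlogt p hp.2.2.2) (by positivity)
      refine hts.trans (mul_le_mul_of_nonneg_left ?_ ht0)
      refine (sum_class ht0 hq.2.1 hd0 _ ?_).trans ?_
      · intro p hp
        rw [Finset.mem_filter] at hp
        obtain ⟨-, h4, h5, h6⟩ := hp
        refine ⟨h4, ?_, hlogt p h6⟩
        have h7 : q - 1 = e * orderOf (p : ZMod q) := by omega
        rw [h7, Nat.mul_div_cancel_left _ he]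
      · apply mul_le_mul_of_nonneg_right _ (by linarith)
        rw [div_le_div_iff₀ hqR heR, one_mul]
        have h8 : (q - 1) / e * e ≤ q := (Nat.div_mul_le_self _ _).trans (Nat.sub_le _ _)
        exact_mod_cast h8
  refine (Finset.sum_le_sum hin).trans ?_
  rw [← Finset.sum_filter, ← Finset.sum_mul]
  have h9 : ∑ q ∈ (PQ Q x).filter (fun q => 1 < q ∧ e ∣ q - 1 ∧ Real.log q ≤ t),
      (1 : ℝ) / q ≤ 1 / e * (1 + t) := by
    apply sum_prog ht0 he
    intro q hq
    rw [Finset.mem_filter] at hq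
    exact hq.2
  unfold vv
  calc (∑ q ∈ (PQ Q x).filter (fun q => 1 < q ∧ e ∣ q - 1 ∧ Real.log q ≤ t), (1 : ℝ) / q) *
        (t * (1 / (e : ℝ) * (1 + t))) ≤
        (1 / (e : ℝ) * (1 + t)) * (t * (1 / (e : ℝ) * (1 + t))) :=
        mul_le_mul_of_nonneg_right h9 (by positivity)
    _ = (1 / (e : ℝ)) ^ 2 * ((1 + t) ^ 2 * t) := by ring


end Pool.Agent.Q79.KQ
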