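import Mathlib
import Pool.Agent.Q79.KrA

set_option autoImplicit false

open Finset Filter

namespace Pool.Agent.Q79.KQ

/-- the pairs with a large common divisor -/
theorem gcd_sum' {Q p : ℕ} (hL : 1 ≤ Real.log p) :
    ∑ q ∈ PQ Q p, ∑ q' ∈ PQ Q p,
      (if q ≠ q' ∧ (Real.log p) ^ 8 < (Nat.gcd (q - 1) (q' - 1) : ℝ) then
        1 / (q : ℝ) * (1 / (q' : ℝ)) else 0) ≤ 8 / (Real.log p) ^ 6 := by
  set L := Real.log p with hLdef
  set k := ⌊L ^ 8⌋₊ with hk
  have hstep : ∑ q ∈ PQ Q p, ∑ q' ∈ PQ Q p,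
      (if q ≠ q' ∧ L ^ 8 < (Nat.gcd (q - 1) (q' - 1) : ℝ) then
        1 / (q : ℝ) * (1 / (q' : ℝ)) else 0) ≤
      ∑ q ∈ PQ Q p, ∑ q' ∈ PQ Q p, ∑ d ∈ Finset.Ioo k p,
      (if d ∣ q - 1 ∧ d ∣ q' - 1 then 1 / (q : ℝ) * (1 / (q' : ℝ)) else 0) := by
    apply Finset.sum_le_sum
    intro q hq
    apply Finset.sum_le_sum
    intro q' hq'
    rw [mem_PQ] at hq hq'
    split_ifs with h
    · have h2 := hq.2.1.two_le
      have hg : Nat.gcd (q - 1) (q' - 1) ≤ q - 1 := Nat.gcd_le_left _ (by omega)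
      have hmem : Nat.gcd (q - 1) (q' - 1) ∈ Finset.Ioo k p := by
        rw [Finset.mem_Ioo]
        refine ⟨?_, by omega⟩
        rw [hk]
        exact (Nat.floor_lt (by positivity)).2 h.2
      refine le_trans ?_ (Finset.single_le_sum (f := fun d : ℕ =>
        (if d ∣ q - 1 ∧ d ∣ q' - 1 then 1 / (q : ℝ) * (1 / (q' : ℝ)) else 0))
        (fun i _ => by split_ifs <;> positivity) hmem)
      rw [if_pos ⟨Nat.gcd_dvd_left _ _, Nat.gcd_dvd_right _ _⟩]
    · apply Finset.sum_nonneg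
      intro d _
      split_ifs <;> positivity
  refine hstep.trans ?_
  have hswap : ∑ q ∈ PQ Q p, ∑ q' ∈ PQ Q p, ∑ d ∈ Finset.Ioo k p,
      (if d ∣ q - 1 ∧ d ∣ q' - 1 then 1 / (q : ℝ) * (1 / (q' : ℝ)) else 0) =
      ∑ d ∈ Finset.Ioo k p, (∑ q ∈ (PQ Q p).filter (fun q => d ∣ q - 1), 1 / (q : ℝ)) ^ 2 := by
    rw [Finset.sum_congr rfl (fun q _ => Finset.sum_comm), Finset.sum_comm]
    apply Finset.sum_congr rfl
    intro d _
    rw [sq, Finset.sum_mul_sum, Finset.sum_filter]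
    apply Finset.sum_congr rfl
    intro q _
    by_cases h : d ∣ q - 1
    · rw [if_pos h, Finset.sum_filter]
      apply Finset.sum_congr rfl
      intro q' _
      by_cases h' : d ∣ q' - 1
      · rw [if_pos ⟨h, h'⟩, if_pos h']
      · rw [if_neg (fun h2 => h' h2.2), if_neg h']
    · rw [if_neg h]
      apply Finset.sum_eq_zero
      intro q' _
      rw [if_neg (fun h2 => h h2.1)]
  rw [hswap]
  have hL0 : 0 < L := by linarith
  have hk1 : 1 ≤ L ^ 8 := one_le_pow₀ hL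
  calc ∑ d ∈ Finset.Ioo k p, (∑ q ∈ (PQ Q p).filter (fun q => d ∣ q - 1), 1 / (q : ℝ)) ^ 2
      ≤ ∑ d ∈ Finset.Ioo k p, (1 + L) ^ 2 * ((d : ℝ) ^ 2)⁻¹ := by
        apply Finset.sum_le_sum
        intro d hd
        rw [Finset.mem_Ioo] at hd
        have hd0 : 0 < d := by omega
        have hdR : (0 : ℝ) < d := by exact_mod_cast hd0
        have h1 : ∑ q ∈ (PQ Q p).filter (fun q => d ∣ q - 1), 1 / (q : ℝ) ≤ 1 / d * (1 + L) := by
          apply sum_prog hL0.le hd0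
          intro q hq
          rw [Finset.mem_filter, mem_PQ] at hq
          refine ⟨hq.1.2.1.one_lt, hq.2, ?_⟩
          apply Real.log_le_log (by exact_mod_cast hq.1.2.1.pos)
          exact_mod_cast hq.1.1.le
        have h2 : 0 ≤ ∑ q ∈ (PQ Q p).filter (fun q => d ∣ q - 1), 1 / (q : ℝ) :=
          Finset.sum_nonneg (fun _ _ => by positivity)
        calc (∑ q ∈ (PQ Q p).filter (fun q => d ∣ q - 1), 1 / (q : ℝ)) ^ 2
            ≤ (1 / d * (1 + L)) ^ 2 := pow_le_pow_left₀ h2 h1 2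
          _ = (1 + L) ^ 2 * ((d : ℝ) ^ 2)⁻¹ := by rw [mul_pow, div_pow, one_pow]; ring
    _ = (1 + L) ^ 2 * ∑ d ∈ Finset.Ioo k p, ((d : ℝ) ^ 2)⁻¹ := by rw [Finset.mul_sum]
    _ ≤ (1 + L) ^ 2 * (2 / (k + 1)) := by
        apply mul_le_mul_of_nonneg_left _ (by positivity)
        exact sum_Ioo_inv_sq_le k p
    _ ≤ (2 * L) ^ 2 * (2 / L ^ 8) := by
        have h3 : L ^ 8 ≤ (k : ℝ) + 1 := (Nat.lt_floor_add_one (L ^ 8)).le
        have h4 : 1 + L ≤ 2 * L := by linarith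
        gcongr
    _ = 8 / L ^ 6 := by field_simp; norm_num

/-- **The classification.** -/
theorem bet_le' {Good : ℕ → Prop} [DecidablePred Good] {a : ℕ} {E : ℕ → Finset ℕ} {Q p : ℕ}
    (hp : p.Prime) {k : ℕ} (hL : 1 ≤ Real.log p)
    (hk : ((Real.log p) ^ 8) ^ ((k + 1) * (k + 1)) ≤ Real.sqrt p) :
    bet Good a E Q p ≤ 1 / 2 ^ k * WW (PQ Q p) ^ 2 +
      (∑ q ∈ (PQ Q p).filter (fun q => (Real.log p) ^ 8 * (orderOf (p : ZMod q) : ℝ) < q),
        (1 : ℝ) / q) * WW (PQ Q p) + 8 / (Real.log p) ^ 6 * WW (PQ Q p) +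
      ∑ T ∈ (PQ Q p).powerset, (if (Good (a * nn T) ∧ p ∈ E (a * nn T)) ∧ T.card ≤ k ∧
        (nn T : ℝ) ≤ lam T p * Real.sqrt p then om T else 0) := by
  classical
  set W := WW (PQ Q p) with hW
  have hW1 : 1 ≤ W := WW_ge_one _
  have hW0 : 0 < W := by linarith
  set L := Real.log p with hLd
  have hτ : 1 ≤ L ^ 8 := one_le_pow₀ hL
  -- pointwise
  have hpt : ∀ T ∈ (PQ Q p).powerset, (if Good (a * nn T) ∧ p ∈ E (a * nn T) then om T else 0) ≤
      (if k < T.card then om T else 0) +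
      (∑ q ∈ (PQ Q p).filter (fun q => L ^ 8 * (orderOf (p : ZMod q) : ℝ) < q),
        (if {q} ⊆ T then om T else 0)) +
      (∑ q ∈ PQ Q p, ∑ q' ∈ PQ Q p, (if q ≠ q' ∧ L ^ 8 < (Nat.gcd (q - 1) (q' - 1) : ℝ) then
        (if {q, q'} ⊆ T then om T else 0) else 0)) +
      (if (Good (a * nn T) ∧ p ∈ E (a * nn T)) ∧ T.card ≤ k ∧
        (nn T : ℝ) ≤ lam T p * Real.sqrt p then om T else 0) := by
    intro T hT
    have hTs := Finset.mem_powerset.1 hT
    have hom := om_nonneg T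
    have n1 : 0 ≤ (if k < T.card then om T else 0) := by
      split_ifs <;> [exact hom; exact le_rfl]
    have n2' : ∀ q ∈ (PQ Q p).filter (fun q => L ^ 8 * (orderOf (p : ZMod q) : ℝ) < q),
        0 ≤ (if {q} ⊆ T then om T else 0) := by
      intro q _; split_ifs <;> [exact hom; exact le_rfl]
    have n2 := Finset.sum_nonneg n2'
    have n3' : ∀ q ∈ PQ Q p, ∀ q' ∈ PQ Q p,
        0 ≤ (if q ≠ q' ∧ L ^ 8 < (Nat.gcd (q - 1) (q' - 1) : ℝ) then
        (if {q, q'} ⊆ T then om T else 0) else 0) := by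
      intro q _ q' _
      split_ifs <;> [exact hom; exact le_rfl; exact le_rfl]
    have n3 : 0 ≤ ∑ q ∈ PQ Q p, ∑ q' ∈ PQ Q p,
        (if q ≠ q' ∧ L ^ 8 < (Nat.gcd (q - 1) (q' - 1) : ℝ) then
        (if {q, q'} ⊆ T then om T else 0) else 0) :=
      Finset.sum_nonneg (fun q hq => Finset.sum_nonneg (n3' q hq))
    have n4 : 0 ≤ (if (Good (a * nn T) ∧ p ∈ E (a * nn T)) ∧ T.card ≤ k ∧
        (nn T : ℝ) ≤ lam T p * Real.sqrt p then om T else 0) := by
      split_ifs <;> [exact hom; exact le_rfl]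
    by_cases hg : Good (a * nn T) ∧ p ∈ E (a * nn T)
    · rw [if_pos hg]
      by_cases h1 : k < T.card
      · rw [if_pos h1]; linarith
      by_cases h2 : ∃ q ∈ T, L ^ 8 * (orderOf (p : ZMod q) : ℝ) < q
      · obtain ⟨q, hqT, hq⟩ := h2
        have hm : q ∈ (PQ Q p).filter (fun q => L ^ 8 * (orderOf (p : ZMod q) : ℝ) < q) :=
          Finset.mem_filter.2 ⟨hTs hqT, hq⟩
        have h3 := Finset.single_le_sum n2' hm
        rw [if_pos (Finset.singleton_subset_iff.2 hqT)] at h3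
        linarith
      by_cases h3 : ∃ q ∈ T, ∃ q' ∈ T, q ≠ q' ∧ L ^ 8 < (Nat.gcd (q - 1) (q' - 1) : ℝ)
      · obtain ⟨q, hqT, q', hqT', hne, hq⟩ := h3
        have h4 := Finset.single_le_sum (fun i hi => Finset.sum_nonneg (n3' i hi)) (hTs hqT)
        have h5 := Finset.single_le_sum (n3' q (hTs hqT)) (hTs hqT')
        have h6 : {q, q'} ⊆ T := by
          intro r hr
          rw [Finset.mem_insert, Finset.mem_singleton] at hr
          rcases hr with h | h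
          · rw [h]; exact hqT
          · rw [h]; exact hqT'
        rw [if_pos ⟨hne, hq⟩, if_pos h6] at h5
        linarith
      · have h4 : T.card ≤ k := not_lt.1 h1
        have h5 := nn_le (T := T) (p := p) (τ := L ^ 8) hτ (by
          intro q hq
          have h6 := mem_PQ.1 (hTs hq)
          refine ⟨h6.2.1, fun h7 => ?_⟩
          rw [Nat.prime_dvd_prime_iff_eq h6.2.1 hp] at h7
          omega) (by
          intro q hq
          by_contra h6
          exact h2 ⟨q, hq, not_le.1 h6⟩) (by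
          intro q hq q' hq' hne
          by_contra h6
          exact h3 ⟨q, hq, q', hq', hne, not_le.1 h6⟩)
        have h6 : (nn T : ℝ) ≤ lam T p * Real.sqrt p := by
          refine h5.trans ?_
          apply mul_le_mul_of_nonneg_left _ (by positivity)
          refine le_trans ?_ hk
          apply pow_le_pow_right₀ hτ
          exact Nat.mul_le_mul (by omega) (by omega)
        have h7 : (if (Good (a * nn T) ∧ p ∈ E (a * nn T)) ∧ T.card ≤ k ∧
          (nn T : ℝ) ≤ lam T p * Real.sqrt p then om T else 0) = om T := if_pos ⟨hg, h4, h6⟩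
        rw [h7]
        linarith
    · rw [if_neg hg]
      linarith
  have hsum := Finset.sum_le_sum hpt
  simp only [Finset.sum_add_distrib] at hsum
  have b1 : ∑ T ∈ (PQ Q p).powerset, (if k < T.card then om T else 0) ≤ 1 / 2 ^ k * W ^ 2 := by
    rw [← Finset.sum_filter]
    exact sum_om_card _ k
  have b2 : ∑ T ∈ (PQ Q p).powerset,
      ∑ q ∈ (PQ Q p).filter (fun q => L ^ 8 * (orderOf (p : ZMod q) : ℝ) < q),
        (if {q} ⊆ T then om T else 0) ≤
      (∑ q ∈ (PQ Q p).filter (fun q => L ^ 8 * (orderOf (p : ZMod q) : ℝ) < q),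
        (1 : ℝ) / q) * W := by
    rw [Finset.sum_comm, Finset.sum_mul]
    apply Finset.sum_le_sum
    intro q _
    rw [← Finset.sum_filter]
    refine (sum_om_superset _ _).trans (le_of_eq ?_)
    unfold om
    rw [Finset.prod_singleton]
  have b3 : ∑ T ∈ (PQ Q p).powerset, ∑ q ∈ PQ Q p, ∑ q' ∈ PQ Q p,
      (if q ≠ q' ∧ L ^ 8 < (Nat.gcd (q - 1) (q' - 1) : ℝ) then
        (if {q, q'} ⊆ T then om T else 0) else 0) ≤ 8 / L ^ 6 * W := by
    rw [Finset.sum_comm]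
    rw [Finset.sum_congr rfl (fun q _ => Finset.sum_comm)]
    calc ∑ q ∈ PQ Q p, ∑ q' ∈ PQ Q p, ∑ T ∈ (PQ Q p).powerset,
          (if q ≠ q' ∧ L ^ 8 < (Nat.gcd (q - 1) (q' - 1) : ℝ) then
            (if {q, q'} ⊆ T then om T else 0) else 0)
        ≤ ∑ q ∈ PQ Q p, ∑ q' ∈ PQ Q p,
          (if q ≠ q' ∧ L ^ 8 < (Nat.gcd (q - 1) (q' - 1) : ℝ) then
            1 / (q : ℝ) * (1 / (q' : ℝ)) else 0) * W := by
          apply Finset.sum_le_sum
          intro q _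
          apply Finset.sum_le_sum
          intro q' _
          split_ifs with h
          · rw [← Finset.sum_filter]
            refine (sum_om_superset _ _).trans (le_of_eq ?_)
            unfold om
            rw [Finset.prod_pair h.1]
          · rw [Finset.sum_const_zero, zero_mul]
      _ = (∑ q ∈ PQ Q p, ∑ q' ∈ PQ Q p,
          (if q ≠ q' ∧ L ^ 8 < (Nat.gcd (q - 1) (q' - 1) : ℝ) then
            1 / (q : ℝ) * (1 / (q' : ℝ)) else 0)) * W := by
          rw [Finset.sum_mul]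
          apply Finset.sum_congr rfl
          intro q _
          rw [Finset.sum_mul]
      _ ≤ 8 / L ^ 6 * W := mul_le_mul_of_nonneg_right (gcd_sum' hL) hW0.le
  set X := ∑ T ∈ (PQ Q p).powerset, (if (Good (a * nn T) ∧ p ∈ E (a * nn T)) ∧ T.card ≤ k ∧
        (nn T : ℝ) ≤ lam T p * Real.sqrt p then om T else 0) with hX
  have hbet : bet Good a E Q p = ∑ T ∈ (PQ Q p).powerset,
    (if Good (a * nn T) ∧ p ∈ E (a * nn T) then om T else 0) := rfl
  rw [hbet]
  refine hsum.trans ?_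
  linarith

/-- the bound for the number of primes -/
noncomputable def kk' (p : ℕ) : ℕ := ⌈6 * Real.log (Real.log p)⌉₊

theorem big' (a : ℕ) : ∃ Q₀ : ℕ, 2 ≤ Q₀ ∧ ∀ p : ℕ, Q₀ ≤ p → 1 ≤ Real.log p ∧
    Real.log a ≤ (Real.log p) ^ 2 ∧ (kk' p : ℝ) ≤ Real.log p ∧ (Real.log p) ^ 6 ≤ Real.sqrt p ∧
    ((Real.log p) ^ 8) ^ ((kk' p + 1) * (kk' p + 1)) ≤ Real.sqrt p ∧
    (Real.log p) ^ 4 ≤ 2 ^ (kk' p) := by
  have hT : Tendsto (fun p : ℕ => Real.log (p : ℝ)) atTop atTop :=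
    Real.tendsto_log_atTop.comp tendsto_natCast_atTop_atTop
  have h1 : ∀ᶠ L : ℝ in atTop, (Real.log L) ^ 3 ≤ 1 / 1024 * L := by
    have h := (Real.isLittleO_pow_log_id_atTop (n := 3)).bound (c := 1 / 1024) (by norm_num)
    filter_upwards [h, eventually_ge_atTop 1] with L hL h1
    rw [id, Real.norm_of_nonneg (by linarith : (0 : ℝ) ≤ L),
      Real.norm_of_nonneg (pow_nonneg (Real.log_nonneg h1) 3)] at hL
    exact hL
  have h2 : ∀ᶠ L : ℝ in atTop, Real.log a ≤ L ^ 2 := by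
    filter_upwards [eventually_ge_atTop (max 1 (Real.log a))] with L hL
    have h3 : 1 ≤ L := (le_max_left _ _).trans hL
    have h4 : Real.log a ≤ L := (le_max_right _ _).trans hL
    nlinarith
  have h3 : ∀ᶠ L : ℝ in atTop, Real.exp 1 ≤ L := eventually_ge_atTop _
  have h4 := hT.eventually (h1.and (h2.and h3))
  obtain ⟨Q₁, hQ₁⟩ := eventually_atTop.1 h4
  refine ⟨max Q₁ 2, le_max_right _ _, fun p hp => ?_⟩
  obtain ⟨c1, c2, c3⟩ := hQ₁ p ((le_max_left _ _).trans hp)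
  have hp2 : 2 ≤ p := (le_max_right _ _).trans hp
  have hpR : (0 : ℝ) < p := by exact_mod_cast (by omega : 0 < p)
  unfold kk'
  set L := Real.log (p : ℝ) with hL
  have he1 : (1 : ℝ) ≤ Real.exp 1 := Real.one_le_exp (by norm_num)
  have hL1 : 1 ≤ L := he1.trans c3
  have hL0 : 0 < L := by linarith
  set ℓ := Real.log L with hℓ
  have hℓ1 : 1 ≤ ℓ := by
    rw [hℓ, Real.le_log_iff_exp_le hL0]; exact c3
  have hℓL : ℓ ≤ ℓ ^ 3 := by nlinarith [pow_pos (show 0 < ℓ by linarith) 2]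
  set k := ⌈6 * ℓ⌉₊ with hk
  have hk1 : 6 * ℓ ≤ k := Nat.le_ceil _
  have hk2 : (k : ℝ) < 6 * ℓ + 1 := Nat.ceil_lt_add_one (by linarith)
  have hsq : Real.sqrt p = Real.exp (L / 2) := by
    rw [hL, Real.sqrt_eq_rpow, Real.rpow_def_of_pos hpR]
    congr 1; ring
  have hexpL : Real.exp ℓ = L := Real.exp_log hL0
  refine ⟨hL1, c2, by nlinarith, ?_, ?_, ?_⟩
  · rw [hsq, ← hexpL, ← Real.exp_nat_mul, hexpL]
    apply Real.exp_le_exp.2
    push_cast
    nlinarith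
  · rw [hsq, ← pow_mul]
    have h5 : L ^ (8 * ((k + 1) * (k + 1))) = Real.exp (((8 * ((k + 1) * (k + 1)) : ℕ) : ℝ) * ℓ) := by
      rw [Real.exp_nat_mul, hexpL]
    rw [h5]
    apply Real.exp_le_exp.2
    push_cast
    have h6 : (k : ℝ) + 1 ≤ 8 * ℓ := by linarith
    have h7 : ((k : ℝ) + 1) * ((k : ℝ) + 1) ≤ (8 * ℓ) * (8 * ℓ) := by
      have : (0 : ℝ) ≤ k := by positivity
      nlinarith
    have h8 : 8 * (((k : ℝ) + 1) * ((k : ℝ) + 1)) * ℓ ≤ 8 * ((8 * ℓ) * (8 * ℓ)) * ℓ := by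
      apply mul_le_mul_of_nonneg_right _ (by linarith)
      linarith
    calc 8 * (((k : ℝ) + 1) * ((k : ℝ) + 1)) * ℓ ≤ 8 * ((8 * ℓ) * (8 * ℓ)) * ℓ := h8
      _ = 512 * ℓ ^ 3 := by ring
      _ ≤ L / 2 := by linarith
  · have h5 : L ^ 4 = Real.exp (4 * ℓ) := by
      rw [← hexpL, ← Real.exp_nat_mul]; norm_num [hexpL]
    have h6 : (2 : ℝ) ^ k = Real.exp (k * Real.log 2) := by
      rw [Real.exp_nat_mul, Real.exp_log (by norm_num)]
    rw [h5, h6]
    apply Real.exp_le_exp.2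
    have h7 := Real.log_two_gt_d9
    nlinarith

/-- the sum over the exceptional primes of a fixed set -/
theorem classI' {Good : ℕ → Prop} {a : ℕ} {E : ℕ → Finset ℕ} {H : ℝ} (hH : 0 ≤ H) (ha : 0 < a)
    (hz : ∀ m, 0 < m → Good m → ∃ z : ℕ, z ≠ 0 ∧ Real.log z ≤ H * m * (Real.log m) ^ 2 ∧
      ∀ p ∈ E m, p.Prime → ¬ p ∣ 2 * m → ∃ f : ℕ, 0 < f ∧ p ^ f ∣ z ∧ m ∣ p ^ f - 1)
    {Q M : ℕ} (hQ2 : 2 ≤ Q) (haQ : a ≤ Q) (hQM : Q ≤ M) {T : Finset ℕ}
    (hG : Good (a * nn T)) (S : Finset ℕ)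
    (hS : ∀ p ∈ S, p.Prime ∧ M < p ∧ T ⊆ PQ Q p ∧ p ∈ E (a * nn T) ∧ (T.card : ℝ) ≤ Real.log p ∧
      (nn T : ℝ) ≤ lam T p * Real.sqrt p ∧ 1 ≤ Real.log p ∧ Real.log a ≤ (Real.log p) ^ 2 ∧
      (Real.log p) ^ 6 ≤ Real.sqrt p) :
    ∑ p ∈ S, (1 : ℝ) / p ≤ 4 * H * a / (Real.log M) ^ 3 := by
  have hlM : 0 < Real.log M := Real.log_pos (by exact_mod_cast (by omega : 1 < M))
  rcases S.eq_empty_or_nonempty with h | h
  · rw [h, Finset.sum_empty]; positivity
  obtain ⟨p₀, hp₀, hmin⟩ := Finset.exists_min_image S (fun p => p) h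
  obtain ⟨c1, c2, c3, c4, c5, c6, c7, c8, c10⟩ := hS p₀ hp₀
  have hTp : T ∈ (PQ Q p₀).powerset := Finset.mem_powerset.2 c3
  have hn0 : 0 < nn T := nn_pos' hTp
  have hm0 : 0 < a * nn T := Nat.mul_pos ha hn0
  obtain ⟨z, hz0, hz1, hz2⟩ := hz (a * nn T) hm0 hG
  have hnR : (0 : ℝ) < nn T := by exact_mod_cast hn0
  have haR : (0 : ℝ) < a := by exact_mod_cast ha
  have hp₀R : (0 : ℝ) < p₀ := by exact_mod_cast c1.pos
  set L := Real.log p₀ with hL
  have hL0 : 0 < L := by linarith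
  have hsq0 : 0 < Real.sqrt p₀ := Real.sqrt_pos.2 hp₀R
  -- orders
  have hord : ∀ p ∈ S, p ^ (lam T p) ∣ z := by
    intro p hp
    obtain ⟨d1, d2, d3, d4, d5, d6, d7, d8, d10⟩ := hS p hp
    have hTp' : T ∈ (PQ Q p).powerset := Finset.mem_powerset.2 d3
    have hnd : ¬ p ∣ 2 * (a * nn T) := by
      rw [d1.dvd_mul, d1.dvd_mul, not_or, not_or]
      refine ⟨fun h2 => ?_, fun h2 => ?_, not_dvd_nn d1 hTp'⟩
      · have := Nat.le_of_dvd (by norm_num) h2; omega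
      · have := Nat.le_of_dvd ha h2; omega
    obtain ⟨f, hf0, hf1, hf2⟩ := hz2 p d4 d1 hnd
    have h3 : lam T p ∣ f := lam_dvd d1.pos ((Dvd.intro_left a rfl).trans hf2)
    exact (pow_dvd_pow p (Nat.le_of_dvd hf0 h3)).trans hf1
  have hsum := sum_orders hz0 S (fun p hp => (hS p hp).1) (fun p => lam T p) hord
  -- the size of `m`
  have hlogm : Real.log ((a * nn T : ℕ) : ℝ) ≤ 2 * L ^ 2 := by
    have h4 : nn T ≤ p₀ ^ T.card := by
      unfold nn
      exact Finset.prod_le_pow_card T (fun q => q) p₀ (fun q hq => (mem_PQ.1 (c3 hq)).1.le)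
    have h5 : Real.log (nn T : ℝ) ≤ T.card * L := by
      calc Real.log (nn T : ℝ) ≤ Real.log ((p₀ : ℝ) ^ T.card) := by
            apply Real.log_le_log hnR
            exact_mod_cast h4
        _ = T.card * L := by rw [Real.log_pow]
    have h6 : (T.card : ℝ) ≤ L := c5
    push_cast
    rw [Real.log_mul haR.ne' hnR.ne']
    nlinarith
  have hlogm0 : 0 ≤ Real.log ((a * nn T : ℕ) : ℝ) := Real.log_natCast_nonneg _
  have hlogz : Real.log z ≤ H * a * nn T * (4 * L ^ 4) := by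
    refine hz1.trans ?_
    have h7 : (Real.log ((a * nn T : ℕ) : ℝ)) ^ 2 ≤ (2 * L ^ 2) ^ 2 :=
      pow_le_pow_left₀ hlogm0 hlogm 2
    calc H * ((a * nn T : ℕ) : ℝ) * (Real.log ((a * nn T : ℕ) : ℝ)) ^ 2
        ≤ H * ((a * nn T : ℕ) : ℝ) * (2 * L ^ 2) ^ 2 := by
          apply mul_le_mul_of_nonneg_left h7 (by positivity)
      _ = H * a * nn T * (4 * L ^ 4) := by push_cast; ring
  have hterm : ∀ p ∈ S, (1 : ℝ) / p ≤
      (lam T p : ℝ) * Real.log p * (1 / (nn T * Real.sqrt p₀ * L)) := by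
    intro p hp
    obtain ⟨d1, d2, d3, d4, d5, d6, d7, d8, d10⟩ := hS p hp
    have hpR : (0 : ℝ) < p := by exact_mod_cast d1.pos
    have hsq : 0 < Real.sqrt p := Real.sqrt_pos.2 hpR
    have h8 : Real.sqrt p₀ ≤ Real.sqrt p := Real.sqrt_le_sqrt (by exact_mod_cast hmin p hp)
    have h9 : L ≤ Real.log p := Real.log_le_log hp₀R (by exact_mod_cast hmin p hp)
    have hpp : Real.sqrt p * Real.sqrt p = p := Real.mul_self_sqrt hpR.le
    rw [mul_one_div, div_le_div_iff₀ hpR (by positivity), one_mul]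
    calc (nn T : ℝ) * Real.sqrt p₀ * L ≤ (lam T p * Real.sqrt p) * Real.sqrt p * Real.log p := by
          gcongr
      _ = (lam T p : ℝ) * Real.log p * (Real.sqrt p * Real.sqrt p) := by ring
      _ = (lam T p : ℝ) * Real.log p * p := by rw [hpp]
  calc ∑ p ∈ S, (1 : ℝ) / p
      ≤ ∑ p ∈ S, (lam T p : ℝ) * Real.log p * (1 / (nn T * Real.sqrt p₀ * L)) :=
        Finset.sum_le_sum hterm
    _ = (∑ p ∈ S, (lam T p : ℝ) * Real.log p) * (1 / (nn T * Real.sqrt p₀ * L)) := by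
        rw [Finset.sum_mul]
    _ ≤ (H * a * nn T * (4 * L ^ 4)) * (1 / (nn T * Real.sqrt p₀ * L)) := by
        apply mul_le_mul_of_nonneg_right (hsum.trans hlogz) (by positivity)
    _ = 4 * H * a * (L ^ 3 / Real.sqrt p₀) := by field_simp
    _ ≤ 4 * H * a * (1 / L ^ 3) := by
        apply mul_le_mul_of_nonneg_left _ (by positivity)
        rw [div_le_div_iff₀ hsq0 (by positivity), one_mul, ← pow_add]
        exact c10
    _ ≤ 4 * H * a * (1 / (Real.log M) ^ 3) := by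
        apply mul_le_mul_of_nonneg_left _ (by positivity)
        apply one_div_le_one_div_of_le (by positivity)
        apply pow_le_pow_left₀ hlM.le
        apply Real.log_le_log (by exact_mod_cast (by omega : 0 < M))
        exact_mod_cast c2.le
    _ = 4 * H * a / (Real.log M) ^ 3 := by ring

end Pool.Agent.Q79.KQ
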