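import Mathlib
import Pool.Agent.Q79.KrB

set_option autoImplicit false

open Finset Filter

namespace Pool.Agent.Q79.KQ

theorem classI_sum' {Good : ℕ → Prop} [DecidablePred Good] {a : ℕ} {E : ℕ → Finset ℕ} {H : ℝ}
    (hH : 0 ≤ H) (ha : 0 < a)
    (hz : ∀ m, 0 < m → Good m → ∃ z : ℕ, z ≠ 0 ∧ Real.log z ≤ H * m * (Real.log m) ^ 2 ∧
      ∀ p ∈ E m, p.Prime → ¬ p ∣ 2 * m → ∃ f : ℕ, 0 < f ∧ p ^ f ∣ z ∧ m ∣ p ^ f - 1)
    {Q z : ℕ} (hQ2 : 2 ≤ Q) (haQ : a ≤ Q) (hQz : Q ≤ z) (k : ℕ → ℕ)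
    (hbig : ∀ p : ℕ, z ≤ p → 1 ≤ Real.log p ∧ Real.log a ≤ (Real.log p) ^ 2 ∧
      (k p : ℝ) ≤ Real.log p ∧ (Real.log p) ^ 6 ≤ Real.sqrt p)
    {C₁ : ℝ} (hC₁ : ∀ Q y : ℕ, 3 ≤ y → WW (PQ Q y) ≤ C₁ * Real.log y) (x : ℕ) :
    ∑ p ∈ PQ z x, 1 / (p : ℝ) * ∑ T ∈ (PQ Q p).powerset,
      (if (Good (a * nn T) ∧ p ∈ E (a * nn T)) ∧ T.card ≤ k p ∧
        (nn T : ℝ) ≤ lam T p * Real.sqrt p then om T else 0) ≤
    (4 * H * a + 12 * H * a * C₁) / Real.log z := by
  classical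
  set F : Finset ℕ → ℝ := fun T => ∑ p ∈ (PQ z x).filter (fun p => T ⊆ PQ Q p ∧
    ((Good (a * nn T) ∧ p ∈ E (a * nn T)) ∧ T.card ≤ k p ∧
        (nn T : ℝ) ≤ lam T p * Real.sqrt p)), (1 : ℝ) / p with hF
  have hswap : ∑ p ∈ PQ z x, 1 / (p : ℝ) * ∑ T ∈ (PQ Q p).powerset,
      (if (Good (a * nn T) ∧ p ∈ E (a * nn T)) ∧ T.card ≤ k p ∧
        (nn T : ℝ) ≤ lam T p * Real.sqrt p then om T else 0) =
      ∑ T ∈ (PQ Q x).powerset, om T * F T := by
    have h1 : ∀ p ∈ PQ z x, 1 / (p : ℝ) * ∑ T ∈ (PQ Q p).powerset,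
      (if (Good (a * nn T) ∧ p ∈ E (a * nn T)) ∧ T.card ≤ k p ∧
        (nn T : ℝ) ≤ lam T p * Real.sqrt p then om T else 0) =
      ∑ T ∈ (PQ Q p).powerset,
      (if (Good (a * nn T) ∧ p ∈ E (a * nn T)) ∧ T.card ≤ k p ∧
        (nn T : ℝ) ≤ lam T p * Real.sqrt p then om T * (1 / (p : ℝ)) else 0) := by
      intro p _
      rw [Finset.mul_sum]
      apply Finset.sum_congr rfl
      intro T _
      split_ifs
      · ring
      · rw [mul_zero]
    rw [Finset.sum_congr rfl h1]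
    rw [Finset.sum_comm' (t' := (PQ Q x).powerset)
      (s' := fun T => (PQ z x).filter (fun p => T ⊆ PQ Q p))]
    · apply Finset.sum_congr rfl
      intro T _
      rw [hF]
      simp only []
      rw [Finset.mul_sum, ← Finset.filter_filter, ← Finset.sum_filter]
    · intro p T
      rw [Finset.mem_powerset, Finset.mem_powerset, Finset.mem_filter]
      constructor
      · rintro ⟨h2, h3⟩
        exact ⟨⟨h2, h3⟩, h3.trans (PQ_mono (mem_PQ.1 h2).1.le)⟩
      · rintro ⟨⟨h2, h3⟩, _⟩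
        exact ⟨h2, h3⟩
  rw [hswap]
  have hz2 : 2 ≤ z := hQ2.trans hQz
  have hlz1 : 1 ≤ Real.log z := (hbig z le_rfl).1
  have hlz : 0 < Real.log z := by linarith
  have hFT : ∀ (M : ℕ), z ≤ M → ∀ T : Finset ℕ, (∀ p ∈ PQ z x, T ⊆ PQ Q p → M < p) →
      F T ≤ 4 * H * a / (Real.log M) ^ 3 := by
    intro M hM T hT
    by_cases hG : Good (a * nn T)
    · apply classI' hH ha hz hQ2 haQ (hQz.trans hM) hG
      intro p hp
      rw [Finset.mem_filter] at hp
      obtain ⟨h2, h3, ⟨⟨h4, h5⟩, h6, h7⟩⟩ := hp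
      obtain ⟨b1, b2, b3, b4⟩ := hbig p (mem_PQ.1 h2).2.2.le
      have h6' : (T.card : ℝ) ≤ k p := by exact_mod_cast h6
      exact ⟨(mem_PQ.1 h2).2.1, hT p h2 h3, h3, h5, h6'.trans b3, h7, b1, b2, b4⟩
    · have h8 : F T = 0 := by
        rw [hF]
        apply Finset.sum_eq_zero
        intro p hp
        rw [Finset.mem_filter] at hp
        exact absurd hp.2.2.1.1 hG
      rw [h8]
      have : 0 < Real.log M := Real.log_pos (by exact_mod_cast (by omega : 1 < M))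
      positivity
  set g : ℕ → ℝ := fun p => 4 * H * a / (Real.log ((max p z : ℕ) : ℝ)) ^ 3 with hg
  have hmain := sum_by_max (Q := Q) F g x (by
    intro q hq T hT
    apply hFT (max q z) (le_max_right _ _)
    intro p hp hsub
    have h1 := (mem_PQ.1 (hsub (Finset.mem_insert_self q T))).1
    have h2 := (mem_PQ.1 hp).2.2
    exact max_lt h1 h2)
  have hempty : F ∅ ≤ 4 * H * a / (Real.log z) ^ 3 := by
    apply hFT z le_rfl
    intro p hp _
    exact (mem_PQ.1 hp).2.2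
  have hC0 : 0 ≤ C₁ := by
    have h1 := hC₁ 0 3 le_rfl
    have h2 := WW_ge_one (PQ 0 3)
    have h3 : 0 < Real.log ((3 : ℕ) : ℝ) := Real.log_pos (by norm_num)
    by_contra hneg
    rw [not_le] at hneg
    have := mul_neg_of_neg_of_pos hneg h3
    linarith
  have hsum : ∑ p ∈ PQ Q x, 1 / (p : ℝ) * g p * WW (PQ Q p) ≤
      12 * H * a * C₁ / Real.log z := by
    have hterm : ∀ p ∈ PQ Q x, 1 / (p : ℝ) * g p * WW (PQ Q p) ≤
        (if p ∈ PQ z x then (4 * H * a * C₁) * (1 / (p : ℝ) * (1 / (Real.log p) ^ 2)) else 0) +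
        (if p ∈ range (z + 1) then (4 * H * a * C₁) * (1 / (Real.log z) ^ 2 * (1 / (p : ℝ)))
          else 0) := by
      intro p hp
      have hp' := mem_PQ.1 hp
      have hlp : 0 < Real.log p := Real.log_pos (by exact_mod_cast (by omega : 1 < p))
      have hW := hC₁ Q p (by omega)
      have hpR : (0 : ℝ) < p := by exact_mod_cast hp'.2.1.pos
      rcases Nat.lt_or_ge z p with h | h
      · rw [if_pos (mem_PQ.2 ⟨hp'.1, hp'.2.1, h⟩), if_neg (by rw [Finset.mem_range]; omega),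
          add_zero]
        have e : g p = 4 * H * a / (Real.log p) ^ 3 := by
          rw [hg]; simp only []; rw [max_eq_left h.le]
        rw [e]
        calc 1 / (p : ℝ) * (4 * H * a / (Real.log p) ^ 3) * WW (PQ Q p)
            ≤ 1 / (p : ℝ) * (4 * H * a / (Real.log p) ^ 3) * (C₁ * Real.log p) := by
              apply mul_le_mul_of_nonneg_left hW (by positivity)
          _ = (4 * H * a * C₁) * (1 / (p : ℝ) * (1 / (Real.log p) ^ 2)) := by
              field_simp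
      · rw [if_neg (fun h' => absurd (mem_PQ.1 h').2.2 (by omega)),
          if_pos (by rw [Finset.mem_range]; omega), zero_add]
        have e : g p = 4 * H * a / (Real.log z) ^ 3 := by
          rw [hg]; simp only []; rw [max_eq_right h]
        rw [e]
        have h1 : Real.log p ≤ Real.log z := Real.log_le_log hpR (by exact_mod_cast h)
        have h2 : WW (PQ Q p) ≤ C₁ * Real.log z :=
          hW.trans (mul_le_mul_of_nonneg_left h1 hC0)
        calc 1 / (p : ℝ) * (4 * H * a / (Real.log z) ^ 3) * WW (PQ Q p)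
            ≤ 1 / (p : ℝ) * (4 * H * a / (Real.log z) ^ 3) * (C₁ * Real.log z) := by
              apply mul_le_mul_of_nonneg_left h2 (by positivity)
          _ = (4 * H * a * C₁) * (1 / (Real.log z) ^ 2 * (1 / (p : ℝ))) := by
              field_simp
    refine (Finset.sum_le_sum hterm).trans ?_
    rw [Finset.sum_add_distrib]
    have s1 : ∑ p ∈ PQ Q x, (if p ∈ PQ z x then
        (4 * H * a * C₁) * (1 / (p : ℝ) * (1 / (Real.log p) ^ 2)) else 0) ≤
        4 * H * a * C₁ / Real.log z := by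
      calc ∑ p ∈ PQ Q x, (if p ∈ PQ z x then
          (4 * H * a * C₁) * (1 / (p : ℝ) * (1 / (Real.log p) ^ 2)) else 0)
          ≤ ∑ p ∈ PQ z x, (4 * H * a * C₁) * (1 / (p : ℝ) * (1 / (Real.log p) ^ 2)) := by
            rw [← Finset.sum_filter]
            apply Finset.sum_le_sum_of_subset_of_nonneg
            · intro p hp
              exact (Finset.mem_filter.1 hp).2
            · intro p _ _
              positivity
        _ = (4 * H * a * C₁) * ∑ p ∈ PQ z x, 1 / (p : ℝ) * (1 / (Real.log p) ^ 2) := by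
            rw [Finset.mul_sum]
        _ ≤ (4 * H * a * C₁) * (1 / Real.log z) := by
            apply mul_le_mul_of_nonneg_left (sum_inv_log_sq hz2 x) (by positivity)
        _ = 4 * H * a * C₁ / Real.log z := by ring
    have s2 : ∑ p ∈ PQ Q x, (if p ∈ range (z + 1) then
        (4 * H * a * C₁) * (1 / (Real.log z) ^ 2 * (1 / (p : ℝ))) else 0) ≤
        8 * H * a * C₁ / Real.log z := by
      calc ∑ p ∈ PQ Q x, (if p ∈ range (z + 1) then
          (4 * H * a * C₁) * (1 / (Real.log z) ^ 2 * (1 / (p : ℝ))) else 0)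
          = (4 * H * a * C₁) * (1 / (Real.log z) ^ 2 *
            ∑ p ∈ (PQ Q x).filter (fun p => p ∈ range (z + 1)), 1 / (p : ℝ)) := by
            rw [← Finset.sum_filter, Finset.mul_sum, Finset.mul_sum]
        _ ≤ (4 * H * a * C₁) * (1 / (Real.log z) ^ 2 * (1 + Real.log z)) := by
            apply mul_le_mul_of_nonneg_left _ (by positivity)
            apply mul_le_mul_of_nonneg_left _ (by positivity)
            apply harm_log hlz.le
            intro p hp
            rw [Finset.mem_filter, mem_PQ, Finset.mem_range] at hp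
            have hp0 : 0 < p := hp.1.2.1.pos
            refine ⟨hp0, ?_⟩
            apply Real.log_le_log (by exact_mod_cast hp0)
            exact_mod_cast (by omega : p ≤ z)
        _ ≤ (4 * H * a * C₁) * (1 / (Real.log z) ^ 2 * (2 * Real.log z)) := by
            gcongr
            linarith
        _ = 8 * H * a * C₁ / Real.log z := by field_simp; ring
    calc _ ≤ 4 * H * a * C₁ / Real.log z + 8 * H * a * C₁ / Real.log z := add_le_add s1 s2
      _ = 12 * H * a * C₁ / Real.log z := by ring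
  have h6 : 4 * H * a / (Real.log z) ^ 3 ≤ 4 * H * a / Real.log z := by
    apply div_le_div_of_nonneg_left (by positivity) hlz
    nlinarith [one_le_pow₀ (n := 2) hlz1]
  calc _ ≤ F ∅ + ∑ p ∈ PQ Q x, 1 / (p : ℝ) * g p * WW (PQ Q p) := hmain
    _ ≤ 4 * H * a / Real.log z + 12 * H * a * C₁ / Real.log z := by linarith
    _ = (4 * H * a + 12 * H * a * C₁) / Real.log z := by ring

/-- **The exceptional sets with a large exceptional prime have small total weight.** -/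
theorem tail {Good : ℕ → Prop} [DecidablePred Good] {a : ℕ} {E : ℕ → Finset ℕ} {H : ℝ}
    (hH : 0 ≤ H) (ha : 0 < a)
    (hz : ∀ m, 0 < m → Good m → ∃ z : ℕ, z ≠ 0 ∧ Real.log z ≤ H * m * (Real.log m) ^ 2 ∧
      ∀ p ∈ E m, p.Prime → ¬ p ∣ 2 * m → ∃ f : ℕ, 0 < f ∧ p ^ f ∣ z ∧ m ∣ p ^ f - 1)
    {Q : ℕ} (hQ2 : 2 ≤ Q) (haQ : a ≤ Q) (ε : ℝ) (hε : 0 < ε) :
    ∃ z₀ : ℕ, ∀ z : ℕ, z₀ ≤ z → ∀ x : ℕ,
      ∑ p ∈ PQ z x, 1 / (p : ℝ) * bet Good a E Q p ≤ ε := by
  obtain ⟨Qb, hQb2, hQb⟩ := big' a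
  obtain ⟨C₁, hC₁0, hC₁⟩ := WW_upper
  obtain ⟨s, hs⟩ := summable_iff_vanishing_norm.1 vv_summable (ε / (2 * C₁)) (by positivity)
  set e₀ : ℕ := s.sup id + 1 with he₀
  have haR : (0 : ℝ) < a := by exact_mod_cast ha
  set K : ℝ := (C₁ ^ 2 + 8 * C₁) + (4 * H * a + 12 * H * a * C₁) with hK
  have hK0 : 0 < K := by positivity
  have hT : Tendsto (fun p : ℕ => Real.log (p : ℝ)) atTop atTop :=
    Real.tendsto_log_atTop.comp tendsto_natCast_atTop_atTop
  have hev := (hT.eventually_ge_atTop (max (e₀ + 1) (2 * K / ε))).and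
    ((eventually_ge_atTop Qb).and (eventually_ge_atTop Q))
  obtain ⟨z₀, hz₀⟩ := eventually_atTop.1 hev
  refine ⟨z₀, fun z hzz x => ?_⟩
  obtain ⟨h1, hzQb, hzQ⟩ := hz₀ z hzz
  have hlog1 : (e₀ : ℝ) + 1 ≤ Real.log z := (le_max_left _ _).trans h1
  have hlog2 : 2 * K / ε ≤ Real.log z := (le_max_right _ _).trans h1
  have hlz1 : 1 ≤ Real.log z := (hQb z hzQb).1
  have hlz0 : 0 < Real.log z := by linarith
  have hz2 : 2 ≤ z := hQ2.trans hzQ
  -- the four parts
  have hterm : ∀ p ∈ PQ z x, 1 / (p : ℝ) * bet Good a E Q p ≤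
      (C₁ ^ 2 + 8 * C₁) * (1 / (p : ℝ) * (1 / (Real.log p) ^ 2)) +
      C₁ * (Real.log p / (p : ℝ) * (∑ q ∈ (PQ Q p).filter
        (fun q => (Real.log p) ^ 8 * (orderOf (p : ZMod q) : ℝ) < q), (1 : ℝ) / q)) +
      1 / (p : ℝ) * (∑ T ∈ (PQ Q p).powerset, (if (Good (a * nn T) ∧ p ∈ E (a * nn T)) ∧
        T.card ≤ kk' p ∧ (nn T : ℝ) ≤ lam T p * Real.sqrt p then om T else 0)) := by
    intro p hp
    have hp' := mem_PQ.1 hp
    obtain ⟨b1, b2, b3, b4, b5, b6⟩ := hQb p (hzQb.trans hp'.2.2.le)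
    have h2 := bet_le' (Good := Good) (a := a) (E := E) (Q := Q) hp'.2.1 (k := kk' p) b1 b5
    have hlp : 0 < Real.log p := by linarith
    have hW := hC₁ Q p (by omega)
    have hW0 : 0 ≤ WW (PQ Q p) := by linarith [WW_ge_one (PQ Q p)]
    have hS0 : 0 ≤ ∑ q ∈ (PQ Q p).filter
        (fun q => (Real.log p) ^ 8 * (orderOf (p : ZMod q) : ℝ) < q), (1 : ℝ) / q :=
      Finset.sum_nonneg (fun _ _ => by positivity)
    have h3 : 1 / 2 ^ (kk' p) * WW (PQ Q p) ^ 2 ≤ C₁ ^ 2 * (1 / (Real.log p) ^ 2) := by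
      calc 1 / 2 ^ (kk' p) * WW (PQ Q p) ^ 2
          ≤ 1 / (Real.log p) ^ 4 * (C₁ * Real.log p) ^ 2 := by
            have h4 : (1 : ℝ) / 2 ^ (kk' p) ≤ 1 / (Real.log p) ^ 4 :=
              one_div_le_one_div_of_le (by positivity) b6
            exact mul_le_mul h4 (pow_le_pow_left₀ hW0 hW 2) (by positivity) (by positivity)
        _ = C₁ ^ 2 * (1 / (Real.log p) ^ 2) := by field_simp
    have h4 : 8 / (Real.log p) ^ 6 * WW (PQ Q p) ≤ 8 * C₁ * (1 / (Real.log p) ^ 2) := by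
      calc 8 / (Real.log p) ^ 6 * WW (PQ Q p) ≤ 8 / (Real.log p) ^ 6 * (C₁ * Real.log p) :=
            mul_le_mul_of_nonneg_left hW (by positivity)
        _ = 8 * C₁ * (1 / (Real.log p) ^ 5) := by field_simp
        _ ≤ 8 * C₁ * (1 / (Real.log p) ^ 2) := by
            apply mul_le_mul_of_nonneg_left _ (by positivity)
            apply one_div_le_one_div_of_le (by positivity)
            exact pow_le_pow_right₀ b1 (by norm_num)
    have h5 : (∑ q ∈ (PQ Q p).filter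
        (fun q => (Real.log p) ^ 8 * (orderOf (p : ZMod q) : ℝ) < q), (1 : ℝ) / q) *
        WW (PQ Q p) ≤ C₁ * (Real.log p * (∑ q ∈ (PQ Q p).filter
        (fun q => (Real.log p) ^ 8 * (orderOf (p : ZMod q) : ℝ) < q), (1 : ℝ) / q)) := by
      calc _ ≤ (∑ q ∈ (PQ Q p).filter
        (fun q => (Real.log p) ^ 8 * (orderOf (p : ZMod q) : ℝ) < q), (1 : ℝ) / q) *
          (C₁ * Real.log p) := mul_le_mul_of_nonneg_left hW hS0
        _ = _ := by ring
    have hinv : (0 : ℝ) ≤ 1 / p := by positivity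
    calc 1 / (p : ℝ) * bet Good a E Q p
        ≤ 1 / (p : ℝ) * (C₁ ^ 2 * (1 / (Real.log p) ^ 2) +
          C₁ * (Real.log p * (∑ q ∈ (PQ Q p).filter
            (fun q => (Real.log p) ^ 8 * (orderOf (p : ZMod q) : ℝ) < q), (1 : ℝ) / q)) +
          8 * C₁ * (1 / (Real.log p) ^ 2) +
          ∑ T ∈ (PQ Q p).powerset, (if (Good (a * nn T) ∧ p ∈ E (a * nn T)) ∧
            T.card ≤ kk' p ∧ (nn T : ℝ) ≤ lam T p * Real.sqrt p then om T else 0)) := by
          apply mul_le_mul_of_nonneg_left _ hinv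
          linarith
      _ = _ := by ring
  refine (Finset.sum_le_sum hterm).trans ?_
  rw [Finset.sum_add_distrib, Finset.sum_add_distrib, ← Finset.mul_sum, ← Finset.mul_sum]
  have p1 := sum_inv_log_sq hz2 x
  have p2 := order_sum' Q z x
  have p3 := classI_sum' (Good := Good) (E := E) hH ha hz hQ2 haQ hzQ kk' (fun p hp => by
    obtain ⟨b1, b2, b3, b4, -, -⟩ := hQb p (hzQb.trans hp)
    exact ⟨b1, b2, b3, b4⟩) hC₁ x
  have p4 : ∑ e ∈ (range x).filter (fun e : ℕ => (Real.log z) ^ 8 < (e : ℝ) + 1), vv e <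
      ε / (2 * C₁) := by
    have h2 := hs ((range x).filter (fun e : ℕ => (Real.log z) ^ 8 < (e : ℝ) + 1)) (by
      rw [Finset.disjoint_left]
      intro e he hes
      rw [Finset.mem_filter] at he
      have h3 : e ≤ s.sup id := Finset.le_sup (f := id) hes
      have h4 : (e : ℝ) + 1 ≤ e₀ := by
        rw [he₀]; exact_mod_cast Nat.succ_le_succ h3
      have h5 : Real.log z ≤ (Real.log z) ^ 8 := by
        have := one_le_pow₀ (n := 7) hlz1
        nlinarith
      linarith [he.2])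
    rw [Real.norm_of_nonneg (Finset.sum_nonneg (fun e _ => vv_nonneg e))] at h2
    exact h2
  have h7 : K / Real.log z ≤ ε / 2 := by
    rw [div_le_iff₀ hlz0]
    rw [div_le_iff₀ hε] at hlog2
    linarith
  have h8 : K / Real.log z = (C₁ ^ 2 + 8 * C₁) * (1 / Real.log z) +
      (4 * H * a + 12 * H * a * C₁) / Real.log z := by rw [hK]; ring
  have h9 : (C₁ ^ 2 + 8 * C₁) * ∑ p ∈ PQ z x, 1 / (p : ℝ) * (1 / (Real.log p) ^ 2) ≤
      (C₁ ^ 2 + 8 * C₁) * (1 / Real.log z) := mul_le_mul_of_nonneg_left p1 (by positivity)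
  have h10 : C₁ * ∑ p ∈ PQ z x, Real.log p / (p : ℝ) * ∑ q ∈ (PQ Q p).filter
        (fun q => (Real.log p) ^ 8 * (orderOf (p : ZMod q) : ℝ) < q), (1 : ℝ) / q ≤ ε / 2 := by
    calc _ ≤ C₁ * (ε / (2 * C₁)) := mul_le_mul_of_nonneg_left (p2.trans p4.le) hC₁0.le
      _ = ε / 2 := by field_simp
  linarith

end Pool.Agent.Q79.KQ
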