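import Mathlib
import Pool.Agent.Q79.KrC
import Pool.Agent.Q79.KqJ

set_option autoImplicit false

open Finset Filter

namespace Pool.Agent.Q79.KQ

/-! ### Counting the numbers without small prime factors -/

/-- the product of the primes up to `Q` -/
def pr (Q : ℕ) : ℕ := ∏ p ∈ (range (Q + 1)).filter Nat.Prime, p

theorem pr_pos (Q : ℕ) : 0 < pr Q :=
  Finset.prod_pos (fun _ hp => (Finset.mem_filter.1 hp).2.pos)

theorem dvd_pr {Q p : ℕ} (hp : p.Prime) : p ∣ pr Q ↔ p ≤ Q := by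
  unfold pr
  rw [Prime.dvd_finsetProd_iff hp.prime]
  constructor
  · rintro ⟨q, hq, hpq⟩
    rw [Finset.mem_filter, Finset.mem_range] at hq
    rw [Nat.prime_dvd_prime_iff_eq hp hq.2] at hpq
    omega
  · intro h
    exact ⟨p, Finset.mem_filter.2 ⟨Finset.mem_range.2 (by omega), hp⟩, dvd_rfl⟩

theorem rough_iff {Q m : ℕ} : Rough Q m ↔ (pr Q).Coprime m := by
  constructor
  · intro h
    apply Nat.coprime_of_dvd
    intro p hp h1 h2
    have h3 := (dvd_pr hp).1 h1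
    have h4 := h p hp h2
    omega
  · intro h p hp h1
    by_contra h2
    have h3 := (dvd_pr hp).2 (not_lt.1 h2)
    have h4 := Nat.dvd_gcd h3 h1
    rw [h] at h4
    exact hp.one_lt.ne' (Nat.dvd_one.1 h4)

/-- the number of the `m ≤ x` without prime factors `≤ Q` -/
def RR (Q x : ℕ) : ℕ := ((Finset.Icc 1 x).filter (fun m => (pr Q).Coprime m)).card

/-- the density -/
noncomputable def rho (Q : ℕ) : ℝ := (Nat.totient (pr Q) : ℝ) / pr Q

theorem RR_le (Q x : ℕ) : (RR Q x : ℝ) ≤ rho Q * x + pr Q := by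
  have hP := pr_pos Q
  have hPR : (0 : ℝ) < pr Q := by exact_mod_cast hP
  have h1 : RR Q x ≤ Nat.totient (pr Q) * (x / pr Q + 1) := by
    have h2 := Nat.Ico_filter_coprime_le (a := pr Q) 1 x hP.ne'
    have e : Finset.Ico 1 (1 + x) = Finset.Icc 1 x := by
      ext m; rw [Finset.mem_Ico, Finset.mem_Icc]; omega
    rw [e] at h2
    exact h2
  have h3 : (RR Q x : ℝ) ≤ (Nat.totient (pr Q) : ℝ) * (((x / pr Q : ℕ) : ℝ) + 1) := by
    exact_mod_cast h1
  have h4 : ((x / pr Q : ℕ) : ℝ) ≤ x / pr Q := Nat.cast_div_le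
  have h5 : (Nat.totient (pr Q) : ℝ) ≤ pr Q := by exact_mod_cast Nat.totient_le _
  have h6 : (0 : ℝ) ≤ Nat.totient (pr Q) := by positivity
  calc (RR Q x : ℝ) ≤ (Nat.totient (pr Q) : ℝ) * (((x / pr Q : ℕ) : ℝ) + 1) := h3
    _ ≤ (Nat.totient (pr Q) : ℝ) * (x / pr Q + 1) := by gcongr
    _ = rho Q * x + Nat.totient (pr Q) := by unfold rho; field_simp
    _ ≤ rho Q * x + pr Q := by linarith

theorem RR_ge (Q x : ℕ) : rho Q * x - pr Q ≤ (RR Q x : ℝ) := by
  have hP := pr_pos Q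
  have hPR : (0 : ℝ) < pr Q := by exact_mod_cast hP
  have h0 : ∀ t : ℕ, ((Finset.Ico 1 (1 + pr Q * t)).filter (fun m => (pr Q).Coprime m)).card =
      Nat.totient (pr Q) * t := by
    intro t
    induction t with
    | zero => simp
    | succ t ih =>
      have e : Finset.Ico 1 (1 + pr Q * (t + 1)) = Finset.Ico 1 (1 + pr Q * t) ∪
          Finset.Ico (1 + pr Q * t) ((1 + pr Q * t) + pr Q) := by
        rw [Finset.Ico_union_Ico_eq_Ico (by omega) (by omega)]
        congr 1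
        ring
      rw [e, Finset.filter_union, Finset.card_union_of_disjoint, ih,
        Nat.filter_coprime_Ico_eq_totient]
      · ring
      · apply Finset.disjoint_filter_filter
        exact Finset.Ico_disjoint_Ico_consecutive _ _ _
  have h1 : Nat.totient (pr Q) * (x / pr Q) ≤ RR Q x := by
    rw [← h0]
    apply Finset.card_le_card
    apply Finset.filter_subset_filter
    intro m hm
    rw [Finset.mem_Ico] at hm
    rw [Finset.mem_Icc]
    have := Nat.mul_div_le x (pr Q)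
    omega
  have h2 : (Nat.totient (pr Q) : ℝ) * ((x / pr Q : ℕ) : ℝ) ≤ RR Q x := by exact_mod_cast h1
  have h3 : (x : ℝ) / pr Q - 1 ≤ ((x / pr Q : ℕ) : ℝ) := by
    have h4 : x < pr Q * (x / pr Q + 1) := Nat.lt_mul_div_succ x hP
    have h5 : (x : ℝ) ≤ pr Q * (((x / pr Q : ℕ) : ℝ) + 1) := by exact_mod_cast h4.le
    rw [sub_le_iff_le_add, div_le_iff₀ hPR]
    linarith
  have h5 : (Nat.totient (pr Q) : ℝ) ≤ pr Q := by exact_mod_cast Nat.totient_le _
  have h6 : (0 : ℝ) ≤ Nat.totient (pr Q) := by positivity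
  calc rho Q * x - pr Q ≤ rho Q * x - Nat.totient (pr Q) := by linarith
    _ = (Nat.totient (pr Q) : ℝ) * (x / pr Q - 1) := by unfold rho; field_simp
    _ ≤ (Nat.totient (pr Q) : ℝ) * ((x / pr Q : ℕ) : ℝ) := by gcongr
    _ ≤ RR Q x := h2

theorem rho_pos (Q : ℕ) : 0 < rho Q := by
  unfold rho
  have h1 : (0 : ℝ) < pr Q := by exact_mod_cast pr_pos Q
  have h2 : (0 : ℝ) < Nat.totient (pr Q) := by exact_mod_cast Nat.totient_pos.2 (pr_pos Q)
  positivity

theorem rho_eq (Q : ℕ) : rho Q = ∏ p ∈ PQ 0 (Q + 1), (1 - 1 / (p : ℝ)) := by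
  have h1 : (pr Q).primeFactors = PQ 0 (Q + 1) := by
    unfold pr
    rw [Nat.primeFactors_prod (fun p hp => (Finset.mem_filter.1 hp).2)]
    ext p
    rw [Finset.mem_filter, Finset.mem_range, mem_PQ]
    constructor
    · rintro ⟨h2, h3⟩; exact ⟨h2, h3, h3.pos⟩
    · rintro ⟨h2, h3, _⟩; exact ⟨h2, h3⟩
  have h2 := Nat.totient_eq_mul_prod_factors (pr Q)
  have h3 : ((Nat.totient (pr Q) : ℚ) : ℝ) =
      ((pr Q * ∏ p ∈ (pr Q).primeFactors, (1 - (p : ℚ)⁻¹) : ℚ) : ℝ) := by rw [h2]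
  push_cast at h3
  have hP : (pr Q : ℝ) ≠ 0 := by exact_mod_cast (pr_pos Q).ne'
  unfold rho
  rw [h3, h1, mul_div_cancel_left₀ _ hP]
  apply Finset.prod_congr rfl
  intro p _
  rw [one_div]

theorem rho_lower : ∃ c : ℝ, 0 < c ∧ ∀ Q : ℕ, 3 ≤ Q → c / Real.log Q ≤ rho Q := by
  obtain ⟨C₁, hC₁0, hC₁⟩ := WW_upper
  refine ⟨1 / (4 * C₁), by positivity, fun Q hQ => ?_⟩
  have hlQ : 0 < Real.log Q := Real.log_pos (by exact_mod_cast (by omega : 1 < Q))
  have h1 : (1 / 2 : ℝ) ≤ rho Q * WW (PQ 0 (Q + 1)) := by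
    rw [rho_eq]
    unfold WW
    rw [← Finset.prod_mul_distrib]
    refine (prod_sq_ge Q).trans ?_
    have e : ∏ p ∈ PQ 0 (Q + 1), ((1 - 1 / (p : ℝ)) * (1 + 1 / (p : ℝ))) =
        ∏ p ∈ PQ 0 (Q + 1), (1 - (1 / (p : ℝ)) ^ 2) := by
      apply Finset.prod_congr rfl
      intro p _
      ring
    rw [e]
    apply Finset.prod_le_prod_of_subset_of_le_one
    · intro q hq
      have := mem_PQ.1 hq
      rw [Finset.mem_Ico]
      exact ⟨this.2.1.two_le, by omega⟩
    · intro i hi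
      rw [Finset.mem_Ico] at hi
      have h2 : (2 : ℝ) ≤ i := by exact_mod_cast hi.1
      have h3 : 1 / (i : ℝ) ≤ 1 / 2 := one_div_le_one_div_of_le (by norm_num) h2
      have h4 : 0 ≤ 1 / (i : ℝ) := by positivity
      nlinarith
    · intro i hi _
      have h4 : 0 ≤ (1 / (i : ℝ)) ^ 2 := by positivity
      linarith
  have h2 : WW (PQ 0 (Q + 1)) ≤ 2 * C₁ * Real.log Q := by
    refine (hC₁ 0 (Q + 1) (by omega)).trans ?_
    have h3 : Real.log ((Q + 1 : ℕ) : ℝ) ≤ 2 * Real.log Q := by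
      have h4 : (3 : ℝ) ≤ Q := by exact_mod_cast hQ
      calc Real.log ((Q + 1 : ℕ) : ℝ) ≤ Real.log ((Q : ℝ) ^ 2) := by
            apply Real.log_le_log (by positivity)
            push_cast
            nlinarith
        _ = 2 * Real.log Q := by rw [Real.log_pow]; norm_num
    calc C₁ * Real.log ((Q + 1 : ℕ) : ℝ) ≤ C₁ * (2 * Real.log Q) :=
          mul_le_mul_of_nonneg_left h3 hC₁0.le
      _ = 2 * C₁ * Real.log Q := by ring
  have h3 : (1 / 2 : ℝ) ≤ rho Q * (2 * C₁ * Real.log Q) :=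
    h1.trans (mul_le_mul_of_nonneg_left h2 (rho_pos Q).le)
  rw [div_le_iff₀ hlQ, div_le_iff₀ (by positivity)]
  linarith

theorem WW_rel : ∃ C : ℝ, 0 < C ∧ ∀ Q x : ℕ, 3 ≤ Q → Q ≤ x →
    WW (PQ Q (x + 1)) ≤ C * (Real.log x / Real.log Q) := by
  obtain ⟨C, hC⟩ := Pool.Agent.Erdos456.Mert.mertens_inv
  refine ⟨Real.exp (2 * C), by positivity, fun Q y hQ hy => ?_⟩
  have hly : 0 < Real.log y := Real.log_pos (by exact_mod_cast (by omega : 1 < y))
  have hlQ : 0 < Real.log Q := Real.log_pos (by exact_mod_cast (by omega : 1 < Q))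
  have h1 := (abs_le.1 (hC y (by omega))).2
  have h2 := (abs_le.1 (hC Q hQ)).1
  have h3 : ∑ q ∈ PQ Q (y + 1), 1 / (q : ℝ) + ∑ p ∈ (Finset.Icc 1 Q).filter Nat.Prime, (1 : ℝ) / p
      ≤ ∑ p ∈ (Finset.Icc 1 y).filter Nat.Prime, (1 : ℝ) / p := by
    rw [← Finset.sum_union]
    · apply Finset.sum_le_sum_of_subset_of_nonneg
      · intro p hp
        rw [Finset.mem_union, mem_PQ, Finset.mem_filter, Finset.mem_Icc] at hp
        rw [Finset.mem_filter, Finset.mem_Icc]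
        rcases hp with h | h
        · exact ⟨⟨h.2.1.one_lt.le, by omega⟩, h.2.1⟩
        · exact ⟨⟨h.1.1, by omega⟩, h.2⟩
      · intro _ _ _; positivity
    · rw [Finset.disjoint_left]
      intro p hp hp'
      rw [mem_PQ] at hp
      rw [Finset.mem_filter, Finset.mem_Icc] at hp'
      omega
  have h4 : WW (PQ Q (y + 1)) ≤ Real.exp (∑ q ∈ PQ Q (y + 1), 1 / (q : ℝ)) := by
    unfold WW
    rw [Real.exp_sum]
    apply Finset.prod_le_prod (fun _ _ => by positivity)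
    intro q _
    rw [add_comm]
    exact Real.add_one_le_exp _
  refine h4.trans ?_
  calc Real.exp (∑ q ∈ PQ Q (y + 1), 1 / (q : ℝ))
      ≤ Real.exp (2 * C + (Real.log (Real.log y) - Real.log (Real.log Q))) := by
        apply Real.exp_le_exp.2; linarith
    _ = Real.exp (2 * C) * (Real.log y / Real.log Q) := by
        rw [Real.exp_add, Real.exp_sub, Real.exp_log hly, Real.exp_log hlQ]

end Pool.Agent.Q79.KQ
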