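import Mathlib
import Pool.Agent.Q79.KrD

set_option autoImplicit false

open Finset Filter

namespace Pool.Agent.Q79.KQ

/-- the non-squarefree numbers -/
theorem nsf_count (Q x : ℕ) :
    ((Finset.Icc 1 x).filter (fun m => (pr Q).Coprime m ∧ ¬ Squarefree m)).card ≤
      ∑ q ∈ Finset.Ioo Q (Nat.sqrt x + 1), RR Q (x / (q * q)) := by
  classical
  have hsub : (Finset.Icc 1 x).filter (fun m => (pr Q).Coprime m ∧ ¬ Squarefree m) ⊆
      (Finset.Ioo Q (Nat.sqrt x + 1)).biUnion (fun q =>
        ((Finset.Icc 1 (x / (q * q))).filter (fun m => (pr Q).Coprime m)).image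
          (fun m => q * q * m)) := by
    intro m hm
    rw [Finset.mem_filter, Finset.mem_Icc] at hm
    obtain ⟨⟨h1, h2⟩, h3, h4⟩ := hm
    rw [Nat.squarefree_iff_prime_squarefree] at h4
    push Not at h4
    obtain ⟨q, hq, hqm⟩ := h4
    obtain ⟨m', rfl⟩ := hqm
    have hQq : Q < q := rough_iff.2 h3 q hq ((Dvd.intro _ rfl).trans (Dvd.intro _ rfl))
    have hm'0 : 0 < m' := by
      rcases Nat.eq_zero_or_pos m' with h | h
      · subst h; omega
      · exact h
    have hqq : q * q ≤ x := (Nat.le_mul_of_pos_right _ hm'0).trans h2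
    rw [Finset.mem_biUnion]
    refine ⟨q, ?_, ?_⟩
    · rw [Finset.mem_Ioo]
      exact ⟨hQq, Nat.lt_succ_of_le (Nat.le_sqrt.2 hqq)⟩
    · rw [Finset.mem_image]
      refine ⟨m', ?_, rfl⟩
      rw [Finset.mem_filter, Finset.mem_Icc]
      refine ⟨⟨hm'0, ?_⟩, ?_⟩
      · rw [Nat.le_div_iff_mul_le (Nat.mul_pos hq.pos hq.pos), mul_comm]
        exact h2
      · exact Nat.Coprime.coprime_mul_left_right h3
  refine (Finset.card_le_card hsub).trans (Finset.card_biUnion_le.trans ?_)
  apply Finset.sum_le_sum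
  intro q _
  exact Finset.card_image_le

/-- the primes between `z` and `x / n` -/
theorem prime_count {z x n : ℕ} (hz : 2 ≤ z) (hn : 0 < n) :
    (((range (x + 1)).filter (fun p => p.Prime ∧ z < p ∧ p * n ≤ x)).card : ℝ) ≤
      5 * x / Real.log z * (1 / n) := by
  have hlz : 0 < Real.log z := Real.log_pos (by exact_mod_cast (by omega : 1 < z))
  have hnR : (0 : ℝ) < n := by exact_mod_cast hn
  rcases ((range (x + 1)).filter (fun p => p.Prime ∧ z < p ∧ p * n ≤ x)).eq_empty_or_nonempty
    with h | ⟨p₀, hp₀⟩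
  · rw [h, Finset.card_empty, Nat.cast_zero]; positivity
  rw [Finset.mem_filter] at hp₀
  obtain ⟨-, h1, h2, h3⟩ := hp₀
  set u : ℝ := x / n with hu
  have hle : ∀ p : ℕ, p * n ≤ x → (p : ℝ) ≤ u := by
    intro p hp
    rw [hu, le_div_iff₀ hnR]
    exact_mod_cast hp
  have hzu : (z : ℝ) ≤ u := by
    refine le_trans ?_ (hle p₀ h3)
    exact_mod_cast h2.le
  have hz2 : (2 : ℝ) ≤ z := by exact_mod_cast hz
  have h4 := Pool.Agent.Q79.KP.card_le_of (u := u) (by linarith)
    ((range (x + 1)).filter (fun p => p.Prime ∧ z < p ∧ p * n ≤ x)) (by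
      intro p hp
      rw [Finset.mem_filter] at hp
      exact ⟨hp.2.1, hle p hp.2.2.2⟩)
  refine h4.trans ?_
  have h5 : Real.log z ≤ Real.log u := Real.log_le_log (by linarith) hzu
  calc 5 * u / Real.log u ≤ 5 * u / Real.log z := by
        apply div_le_div_of_nonneg_left _ hlz h5
        linarith
    _ = 5 * x / Real.log z * (1 / n) := by rw [hu]; field_simp

/-- the bad numbers -/
theorem bad_count {Good : ℕ → Prop} [DecidablePred Good] {a : ℕ} {E : ℕ → Finset ℕ} (ha : 0 < a)
    {Q : ℕ} (hQ : a ≤ Q)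
    (hgood : ∀ m p, 0 < m → Good m → p.Prime → ¬ p ∣ m → p ∉ E m → Good (m * p))
    {z x : ℕ} (hz : 2 ≤ z) :
    (((Finset.Icc 1 x).filter (fun m => (pr Q).Coprime m ∧ ¬ Good (a * m))).card : ℝ) ≤
      ((∑ q ∈ Finset.Ioo Q (Nat.sqrt x + 1), RR Q (x / (q * q)) : ℕ) : ℝ) +
      (((PQ Q (z + 1)).powerset.filter (fun T => nn T ≤ x)).card : ℝ) +
      5 * x / Real.log z * bsum Good a Q (x + 1) +
      x * ∑ p ∈ PQ z (x + 1), 1 / (p : ℝ) * bet Good a E Q p := by
  classical
  set A1 := (Finset.Icc 1 x).filter (fun m => (pr Q).Coprime m ∧ ¬ Squarefree m) with hA1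
  set A2 := ((PQ Q (z + 1)).powerset.filter (fun T => nn T ≤ x)).image nn with hA2
  set Ps : Finset ℕ → Finset ℕ := fun T =>
    (range (x + 1)).filter (fun p => p.Prime ∧ z < p ∧ p * nn T ≤ x) with hPs
  set A3 := ((PQ Q (x + 1)).powerset.filter (fun T => ¬ Good (a * nn T))).biUnion
    (fun T => (Ps T).image (fun p => p * nn T)) with hA3
  set A4 := (PQ z (x + 1)).biUnion (fun p => ((PQ Q p).powerset.filter
    (fun T => (Good (a * nn T) ∧ p ∈ E (a * nn T)) ∧ p * nn T ≤ x)).image (fun T => p * nn T))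
    with hA4
  have hsub : (Finset.Icc 1 x).filter (fun m => (pr Q).Coprime m ∧ ¬ Good (a * m)) ⊆
      A1 ∪ A2 ∪ A3 ∪ A4 := by
    intro m hm
    rw [Finset.mem_filter, Finset.mem_Icc] at hm
    obtain ⟨⟨h1, h2⟩, h3, h4⟩ := hm
    rw [Finset.mem_union, Finset.mem_union, Finset.mem_union]
    by_cases hsq : Squarefree m
    swap
    · left; left; left
      rw [hA1, Finset.mem_filter, Finset.mem_Icc]
      exact ⟨⟨h1, h2⟩, h3, hsq⟩
    set T := m.primeFactors with hT
    have hnT : nn T = m := Nat.prod_primeFactors_of_squarefree hsq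
    have hTsub : ∀ q ∈ T, q.Prime ∧ Q < q ∧ q ≤ m := by
      intro q hq
      have hq' := Nat.mem_primeFactors.1 hq
      exact ⟨hq'.1, rough_iff.2 h3 q hq'.1 hq'.2.1, Nat.le_of_mem_primeFactors hq⟩
    by_cases hsm : ∀ q ∈ T, q ≤ z
    · left; left; right
      rw [hA2, Finset.mem_image]
      refine ⟨T, ?_, hnT⟩
      rw [Finset.mem_filter, Finset.mem_powerset]
      refine ⟨fun q hq => ?_, by omega⟩
      rw [mem_PQ]
      exact ⟨Nat.lt_succ_of_le (hsm q hq), (hTsub q hq).1, (hTsub q hq).2.1⟩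
    push Not at hsm
    obtain ⟨q₀, hq₀, hzq₀⟩ := hsm
    have hne : T.Nonempty := ⟨q₀, hq₀⟩
    set p := T.max' hne with hp
    have hpT : p ∈ T := Finset.max'_mem T hne
    have hzp : z < p := lt_of_lt_of_le hzq₀ (Finset.le_max' T q₀ hq₀)
    obtain ⟨hpp, hQp, hpm⟩ := hTsub p hpT
    set T' := T.erase p with hT'
    have hT'sub : T' ∈ (PQ Q p).powerset := by
      rw [Finset.mem_powerset]
      intro q hq
      rw [hT', Finset.mem_erase] at hq
      rw [mem_PQ]
      refine ⟨lt_of_le_of_ne (Finset.le_max' T q hq.2) hq.1, (hTsub q hq.2).1, (hTsub q hq.2).2.1⟩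
    have hnn : p * nn T' = m := by
      rw [← hnT]
      have h5 : p ∉ T' := Finset.notMem_erase p T
      rw [← nn_insert h5, hT', Finset.insert_erase hpT]
    have hn0 : 0 < nn T' := nn_pos' hT'sub
    by_cases hG : Good (a * nn T')
    · right
      have hpE : p ∈ E (a * nn T') := by
        by_contra hc
        apply h4
        have h5 : ¬ p ∣ a * nn T' := by
          rw [hpp.dvd_mul, not_or]
          refine ⟨fun h => ?_, not_dvd_nn hpp hT'sub⟩
          have := Nat.le_of_dvd ha h
          omega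
        have h6 := hgood (a * nn T') p (Nat.mul_pos ha hn0) hG hpp h5 hc
        rwa [show a * nn T' * p = a * (p * nn T') by ring, hnn] at h6
      rw [hA4, Finset.mem_biUnion]
      refine ⟨p, mem_PQ.2 ⟨by omega, hpp, hzp⟩, ?_⟩
      rw [Finset.mem_image]
      exact ⟨T', Finset.mem_filter.2 ⟨hT'sub, ⟨hG, hpE⟩, by omega⟩, hnn⟩
    · left; right
      rw [hA3, Finset.mem_biUnion]
      refine ⟨T', ?_, ?_⟩
      · rw [Finset.mem_filter, Finset.mem_powerset]
        exact ⟨(Finset.mem_powerset.1 hT'sub).trans (PQ_mono (by omega)), hG⟩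
      · rw [Finset.mem_image]
        refine ⟨p, ?_, hnn⟩
        rw [hPs, Finset.mem_filter, Finset.mem_range]
        exact ⟨by omega, hpp, hzp, by omega⟩
  have hcard : ((Finset.Icc 1 x).filter (fun m => (pr Q).Coprime m ∧ ¬ Good (a * m))).card ≤
      A1.card + A2.card + A3.card + A4.card := by
    refine (Finset.card_le_card hsub).trans ?_
    refine (Finset.card_union_le _ _).trans (Nat.add_le_add_right ?_ _)
    refine (Finset.card_union_le _ _).trans (Nat.add_le_add_right ?_ _)
    exact Finset.card_union_le _ _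
  have c1 : (A1.card : ℝ) ≤ ((∑ q ∈ Finset.Ioo Q (Nat.sqrt x + 1), RR Q (x / (q * q)) : ℕ) : ℝ) := by
    exact_mod_cast nsf_count Q x
  have c2 : (A2.card : ℝ) ≤ (((PQ Q (z + 1)).powerset.filter (fun T => nn T ≤ x)).card : ℝ) := by
    exact_mod_cast Finset.card_image_le
  have c3 : (A3.card : ℝ) ≤ 5 * x / Real.log z * bsum Good a Q (x + 1) := by
    have h1 : A3.card ≤ ∑ T ∈ (PQ Q (x + 1)).powerset.filter (fun T => ¬ Good (a * nn T)),
        (Ps T).card :=
      Finset.card_biUnion_le.trans (Finset.sum_le_sum (fun T _ => Finset.card_image_le))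
    have h2 : (A3.card : ℝ) ≤ ∑ T ∈ (PQ Q (x + 1)).powerset.filter (fun T => ¬ Good (a * nn T)),
        ((Ps T).card : ℝ) := by exact_mod_cast h1
    refine h2.trans ?_
    unfold bsum
    rw [Finset.mul_sum, Finset.sum_filter]
    apply Finset.sum_le_sum
    intro T hT
    by_cases hG : Good (a * nn T)
    · rw [if_neg (not_not.2 hG), if_pos hG, mul_zero]
    · rw [if_pos hG, if_neg hG, om_eq]
      exact prime_count hz (nn_pos' hT)
  have c4 : (A4.card : ℝ) ≤ x * ∑ p ∈ PQ z (x + 1), 1 / (p : ℝ) * bet Good a E Q p := by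
    have h1 : A4.card ≤ ∑ p ∈ PQ z (x + 1), ((PQ Q p).powerset.filter
      (fun T => (Good (a * nn T) ∧ p ∈ E (a * nn T)) ∧ p * nn T ≤ x)).card :=
      Finset.card_biUnion_le.trans (Finset.sum_le_sum (fun T _ => Finset.card_image_le))
    have h2 : (A4.card : ℝ) ≤ ∑ p ∈ PQ z (x + 1), (((PQ Q p).powerset.filter
      (fun T => (Good (a * nn T) ∧ p ∈ E (a * nn T)) ∧ p * nn T ≤ x)).card : ℝ) := by
      exact_mod_cast h1
    refine h2.trans ?_
    rw [Finset.mul_sum]
    apply Finset.sum_le_sum
    intro p hp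
    have hpR : (0 : ℝ) < p := by exact_mod_cast (mem_PQ.1 hp).2.1.pos
    unfold bet
    rw [Finset.card_filter, Nat.cast_sum, Finset.mul_sum, Finset.mul_sum]
    apply Finset.sum_le_sum
    intro T hT
    have hn0 : (0 : ℝ) < nn T := by exact_mod_cast nn_pos' hT
    by_cases hG : Good (a * nn T) ∧ p ∈ E (a * nn T)
    · rw [if_pos hG, om_eq]
      by_cases hx : p * nn T ≤ x
      · rw [if_pos ⟨hG, hx⟩, Nat.cast_one]
        have h3 : (p : ℝ) * nn T ≤ x := by exact_mod_cast hx
        have e : (x : ℝ) * (1 / p * (1 / nn T)) = x / (p * nn T) := by field_simp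
        rw [e, one_le_div (by positivity)]
        exact h3
      · rw [if_neg (fun h => hx h.2), Nat.cast_zero]
        positivity
    · rw [if_neg hG, if_neg (fun h => hG h.1), Nat.cast_zero, mul_zero, mul_zero]
  have hcardR : (((Finset.Icc 1 x).filter
      (fun m => (pr Q).Coprime m ∧ ¬ Good (a * m))).card : ℝ) ≤
      A1.card + A2.card + A3.card + A4.card := by exact_mod_cast hcard
  linarith

/-- the smooth numbers: the first moment of the logarithm -/
theorem smooth_moment (Q z x : ℕ) :
    ∑ T ∈ (PQ Q (z + 1)).powerset.filter (fun T => nn T ≤ x), Real.log (nn T) ≤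
      ∑ q ∈ PQ Q (z + 1), Real.log q * (RR Q (x / q) : ℝ) := by
  classical
  set Sm := (PQ Q (z + 1)).powerset.filter (fun T => nn T ≤ x) with hSm
  have hmem : ∀ T ∈ Sm, T ⊆ PQ Q (z + 1) ∧ nn T ≤ x := by
    intro T hT
    rw [hSm, Finset.mem_filter, Finset.mem_powerset] at hT
    exact hT
  calc ∑ T ∈ Sm, Real.log (nn T)
      = ∑ T ∈ Sm, ∑ q ∈ PQ Q (z + 1), (if q ∈ T then Real.log q else 0) := by
        apply Finset.sum_congr rfl
        intro T hT
        have hsub := (hmem T hT).1
        have h2 : Real.log (nn T : ℝ) = ∑ q ∈ T, Real.log q := by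
          unfold nn
          rw [Nat.cast_prod, Real.log_prod]
          intro q hq
          exact_mod_cast (mem_PQ.1 (hsub hq)).2.1.ne_zero
        rw [h2, ← Finset.sum_filter]
        have h3 : (PQ Q (z + 1)).filter (fun q => q ∈ T) = T := by
          ext q
          rw [Finset.mem_filter]
          exact ⟨fun h => h.2, fun h => ⟨hsub h, h⟩⟩
        rw [h3]
    _ = ∑ q ∈ PQ Q (z + 1), ∑ T ∈ Sm, (if q ∈ T then Real.log q else 0) := Finset.sum_comm
    _ ≤ ∑ q ∈ PQ Q (z + 1), Real.log q * (RR Q (x / q) : ℝ) := by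
        apply Finset.sum_le_sum
        intro q hq
        rw [← Finset.sum_filter, Finset.sum_const, nsmul_eq_mul, mul_comm]
        apply mul_le_mul_of_nonneg_left _ (Real.log_natCast_nonneg q)
        have hq' := mem_PQ.1 hq
        have : (Sm.filter (fun T => q ∈ T)).card ≤ RR Q (x / q) := by
          unfold RR
          apply Finset.card_le_card_of_injOn (fun T => nn (T.erase q))
          · intro T hT
            rw [Finset.mem_coe, Finset.mem_filter] at hT
            obtain ⟨h1, h2⟩ := hmem T hT.1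
            have hqT := hT.2
            have h3 : q * nn (T.erase q) = nn T := by
              rw [← nn_insert (Finset.notMem_erase q T), Finset.insert_erase hqT]
            have h4 : T.erase q ⊆ PQ Q (z + 1) := (Finset.erase_subset _ _).trans h1
            have h5 : 0 < nn (T.erase q) := nn_pos' (Finset.mem_powerset.2 h4)
            rw [Finset.mem_coe, Finset.mem_filter, Finset.mem_Icc]
            refine ⟨⟨h5, ?_⟩, ?_⟩
            · have h7 : nn (T.erase q) * q ≤ x := by rw [mul_comm, h3]; exact h2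
              exact (Nat.le_div_iff_mul_le hq'.2.1.pos).2 h7
            · rw [← rough_iff]
              intro r hr hrd
              unfold nn at hrd
              rw [Prime.dvd_finsetProd_iff hr.prime] at hrd
              obtain ⟨s, hs, hrs⟩ := hrd
              have h6 := mem_PQ.1 (h4 hs)
              rw [Nat.prime_dvd_prime_iff_eq hr h6.2.1] at hrs
              rw [hrs]; exact h6.2.2
          · intro T hT T' hT' heq
            rw [Finset.mem_coe, Finset.mem_filter] at hT hT'
            obtain ⟨h1, h2⟩ := hmem T hT.1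
            obtain ⟨h1', h2'⟩ := hmem T' hT'.1
            have hpf : ∀ S : Finset ℕ, S ⊆ PQ Q (z + 1) → (nn S).primeFactors = S := by
              intro S hS
              exact Nat.primeFactors_prod (fun q hq => (mem_PQ.1 (hS hq)).2.1)
            have heq' : nn (T.erase q) = nn (T'.erase q) := heq
            have h3 : T.erase q = T'.erase q := by
              rw [← hpf _ ((Finset.erase_subset q T).trans h1),
                ← hpf _ ((Finset.erase_subset q T').trans h1'), heq']
            rw [← Finset.insert_erase hT.2, ← Finset.insert_erase hT'.2, h3]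
        exact_mod_cast this

end Pool.Agent.Q79.KQ
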