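import Mathlib
import Pool.Agent.Q79.KrE

set_option autoImplicit false

open Finset Filter

namespace Pool.Agent.Q79.KQ

theorem smooth_count {C : ℝ} (hC : ∀ N : ℕ, 1 ≤ N →
    |∑ p ∈ (Finset.Icc 1 N).filter Nat.Prime, Real.log p / p - Real.log N| ≤ C)
    {Q z x : ℕ} (hz : 1 ≤ z) (hx : 1 < x) :
    (((PQ Q (z + 1)).powerset.filter (fun T => nn T ≤ x)).card : ℝ) ≤
      Real.sqrt x + 2 / Real.log x * (rho Q * x * (Real.log z + C) + pr Q * (z * Real.log z)) := by
  classical
  have hlx : 0 < Real.log x := Real.log_pos (by exact_mod_cast hx)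
  have hxR : (0 : ℝ) < x := by exact_mod_cast (by omega : 0 < x)
  set Sm := (PQ Q (z + 1)).powerset.filter (fun T => nn T ≤ x) with hSm
  set s := Nat.sqrt x with hs
  have hmem : ∀ T ∈ Sm, T ⊆ PQ Q (z + 1) ∧ nn T ≤ x := by
    intro T hT
    rw [hSm, Finset.mem_filter, Finset.mem_powerset] at hT
    exact hT
  have h1 : (Sm.filter (fun T => nn T ≤ s)).card ≤ s := by
    have h2 : (Sm.filter (fun T => nn T ≤ s)).card ≤ (Finset.Icc 1 s).card := by
      apply Finset.card_le_card_of_injOn nn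
      · intro T hT
        rw [Finset.mem_coe, Finset.mem_filter] at hT
        rw [Finset.mem_coe, Finset.mem_Icc]
        exact ⟨nn_pos' (Finset.mem_powerset.2 (hmem T hT.1).1), hT.2⟩
      · intro T hT T' hT' heq
        rw [Finset.mem_coe, Finset.mem_filter] at hT hT'
        have hpf : ∀ S : Finset ℕ, S ⊆ PQ Q (z + 1) → (nn S).primeFactors = S := by
          intro S hS
          exact Nat.primeFactors_prod (fun q hq => (mem_PQ.1 (hS hq)).2.1)
        rw [← hpf _ (hmem T hT.1).1, ← hpf _ (hmem T' hT'.1).1, heq]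
    rw [Nat.card_Icc] at h2
    omega
  have h2 : Real.log x / 2 * ((Sm.filter (fun T => ¬ nn T ≤ s)).card : ℝ) ≤
      ∑ T ∈ Sm, Real.log (nn T) := by
    refine le_trans ?_ (Finset.sum_le_sum_of_subset_of_nonneg
      (Finset.filter_subset (fun T => ¬ nn T ≤ s) Sm) (fun T _ _ => Real.log_natCast_nonneg _))
    rw [mul_comm, ← nsmul_eq_mul]
    apply Finset.card_nsmul_le_sum
    intro T hT
    rw [Finset.mem_filter, not_le] at hT
    have h3 : x < nn T * nn T := by
      have h4 : x < (s + 1) * (s + 1) := Nat.lt_succ_sqrt x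
      exact lt_of_lt_of_le h4 (Nat.mul_le_mul hT.2 hT.2)
    have h5 : Real.log x ≤ Real.log ((nn T : ℝ) * nn T) := by
      apply Real.log_le_log hxR
      exact_mod_cast h3.le
    have hn0 : (nn T : ℝ) ≠ 0 := by
      exact_mod_cast (nn_pos' (Finset.mem_powerset.2 (hmem T hT.1).1)).ne'
    rw [Real.log_mul hn0 hn0] at h5
    linarith
  have h3 := smooth_moment Q z x
  have h4 : ∑ q ∈ PQ Q (z + 1), Real.log q * (RR Q (x / q) : ℝ) ≤
      rho Q * x * (Real.log z + C) + pr Q * (z * Real.log z) := by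
    calc ∑ q ∈ PQ Q (z + 1), Real.log q * (RR Q (x / q) : ℝ)
        ≤ ∑ q ∈ PQ Q (z + 1), (rho Q * x * (Real.log q / q) + pr Q * Real.log z) := by
          apply Finset.sum_le_sum
          intro q hq
          have hq' := mem_PQ.1 hq
          have hqR : (0 : ℝ) < q := by exact_mod_cast hq'.2.1.pos
          have h5 := RR_le Q (x / q)
          have h6 : ((x / q : ℕ) : ℝ) ≤ x / q := Nat.cast_div_le
          have h7 : rho Q * ((x / q : ℕ) : ℝ) ≤ rho Q * (x / q) :=
            mul_le_mul_of_nonneg_left h6 (rho_pos Q).le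
          have h8 : Real.log q ≤ Real.log z := by
            apply Real.log_le_log hqR
            exact_mod_cast Nat.lt_succ_iff.1 hq'.1
          have h9 : (0 : ℝ) ≤ pr Q := by positivity
          calc Real.log q * (RR Q (x / q) : ℝ) ≤ Real.log q * (rho Q * (x / q) + pr Q) := by
                apply mul_le_mul_of_nonneg_left _ (Real.log_natCast_nonneg q)
                linarith
            _ = rho Q * x * (Real.log q / q) + pr Q * Real.log q := by ring
            _ ≤ rho Q * x * (Real.log q / q) + pr Q * Real.log z := by gcongr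
      _ = rho Q * x * ∑ q ∈ PQ Q (z + 1), Real.log q / q +
          ((PQ Q (z + 1)).card : ℝ) * (pr Q * Real.log z) := by
          rw [Finset.sum_add_distrib, Finset.mul_sum, Finset.sum_const, nsmul_eq_mul]
      _ ≤ rho Q * x * (Real.log z + C) + z * (pr Q * Real.log z) := by
          apply add_le_add
          · apply mul_le_mul_of_nonneg_left _ (mul_nonneg (rho_pos Q).le hxR.le)
            have h5 := (abs_le.1 (hC z hz)).2
            have h6 : ∑ q ∈ PQ Q (z + 1), Real.log q / q ≤
                ∑ p ∈ (Finset.Icc 1 z).filter Nat.Prime, Real.log p / p := by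
              apply Finset.sum_le_sum_of_subset_of_nonneg
              · intro q hq
                rw [mem_PQ] at hq
                rw [Finset.mem_filter, Finset.mem_Icc]
                exact ⟨⟨hq.2.1.one_lt.le, by omega⟩, hq.2.1⟩
              · intro p _ _
                exact div_nonneg (Real.log_natCast_nonneg p) (by positivity)
            linarith
          · apply mul_le_mul_of_nonneg_right
            · have : (PQ Q (z + 1)).card ≤ z := by
                have h5 : PQ Q (z + 1) ⊆ Finset.Icc 1 z := by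
                  intro q hq
                  rw [mem_PQ] at hq
                  rw [Finset.mem_Icc]
                  exact ⟨hq.2.1.one_lt.le, by omega⟩
                have h6 := Finset.card_le_card h5
                rw [Nat.card_Icc] at h6
                omega
              exact_mod_cast this
            · exact mul_nonneg (by positivity) (Real.log_natCast_nonneg z)
      _ = rho Q * x * (Real.log z + C) + pr Q * (z * Real.log z) := by ring
  have h5 : (Sm.card : ℝ) = ((Sm.filter (fun T => nn T ≤ s)).card : ℝ) +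
      ((Sm.filter (fun T => ¬ nn T ≤ s)).card : ℝ) := by
    exact_mod_cast (Finset.card_filter_add_card_filter_not (s := Sm) (fun T => nn T ≤ s)).symm
  have h6 : ((Sm.filter (fun T => nn T ≤ s)).card : ℝ) ≤ Real.sqrt x := by
    have h7 : ((Sm.filter (fun T => nn T ≤ s)).card : ℝ) ≤ s := by exact_mod_cast h1
    exact h7.trans (Real.nat_sqrt_le_real_sqrt)
  have h7 : ((Sm.filter (fun T => ¬ nn T ≤ s)).card : ℝ) ≤
      2 / Real.log x * (rho Q * x * (Real.log z + C) + pr Q * (z * Real.log z)) := by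
    rw [div_mul_eq_mul_div, le_div_iff₀ hlx]
    linarith
  rw [h5]
  linarith

theorem nsf_bound (Q x : ℕ) :
    ((∑ q ∈ Finset.Ioo Q (Nat.sqrt x + 1), RR Q (x / (q * q)) : ℕ) : ℝ) ≤
      rho Q * x * (2 / (Q + 1)) + pr Q * (Real.sqrt x + 1) := by
  have hs : (Nat.sqrt x : ℝ) ≤ Real.sqrt x := Real.nat_sqrt_le_real_sqrt
  rw [Nat.cast_sum]
  calc ∑ q ∈ Finset.Ioo Q (Nat.sqrt x + 1), (RR Q (x / (q * q)) : ℝ)
      ≤ ∑ q ∈ Finset.Ioo Q (Nat.sqrt x + 1), (rho Q * x * ((q : ℝ) ^ 2)⁻¹ + pr Q) := by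
        apply Finset.sum_le_sum
        intro q _
        refine (RR_le Q _).trans ?_
        have h1 : ((x / (q * q) : ℕ) : ℝ) ≤ x / ((q * q : ℕ) : ℝ) := Nat.cast_div_le
        have h2 : rho Q * ((x / (q * q) : ℕ) : ℝ) ≤ rho Q * (x / ((q * q : ℕ) : ℝ)) :=
          mul_le_mul_of_nonneg_left h1 (rho_pos Q).le
        have e : rho Q * (x / ((q * q : ℕ) : ℝ)) = rho Q * x * ((q : ℝ) ^ 2)⁻¹ := by
          push_cast
          rw [sq]
          ring
        linarith
    _ = rho Q * x * ∑ q ∈ Finset.Ioo Q (Nat.sqrt x + 1), ((q : ℝ) ^ 2)⁻¹ +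
        ((Finset.Ioo Q (Nat.sqrt x + 1)).card : ℝ) * pr Q := by
        rw [Finset.sum_add_distrib, Finset.mul_sum, Finset.sum_const, nsmul_eq_mul]
    _ ≤ rho Q * x * (2 / (Q + 1)) + (Real.sqrt x + 1) * pr Q := by
        apply add_le_add
        · apply mul_le_mul_of_nonneg_left (sum_Ioo_inv_sq_le Q _)
          exact mul_nonneg (rho_pos Q).le (by positivity)
        · apply mul_le_mul_of_nonneg_right _ (by positivity)
          rw [Nat.card_Ioo]
          have h1 : ((Nat.sqrt x + 1 - Q - 1 : ℕ) : ℝ) ≤ ((Nat.sqrt x + 1 : ℕ) : ℝ) := by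
            exact_mod_cast (by omega : Nat.sqrt x + 1 - Q - 1 ≤ Nat.sqrt x + 1)
          push_cast at h1
          linarith
    _ = rho Q * x * (2 / (Q + 1)) + pr Q * (Real.sqrt x + 1) := by ring

theorem choose_z (u z₁ x : ℕ) (hu : 2 ≤ u) (hz₁ : 2 ≤ z₁) (hx : z₁ ^ u ≤ x) :
    ∃ z : ℕ, z₁ ≤ z ∧ (z : ℝ) ≤ Real.sqrt x ∧ u * Real.log z ≤ Real.log x ∧
      Real.log x ≤ 2 * u * Real.log z := by
  set P : ℕ → Prop := fun z => z ^ u ≤ x with hP
  have hle : ∀ z : ℕ, z ^ u ≤ x → z ≤ x := fun z hz => (Nat.le_self_pow (by omega) z).trans hz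
  have h1 : z₁ ≤ Nat.findGreatest P x := Nat.le_findGreatest (hle z₁ hx) hx
  have h2 : P (Nat.findGreatest P x) := Nat.findGreatest_spec (hle z₁ hx) hx
  set z := Nat.findGreatest P x with hz
  have h2' : z ^ u ≤ x := h2
  have hz2 : 2 ≤ z := hz₁.trans h1
  have hzx : z < x := by
    calc z < z ^ 2 := by nlinarith
      _ ≤ z ^ u := Nat.pow_le_pow_right (by omega) hu
      _ ≤ x := h2'
  have h3 : ¬ P (z + 1) := Nat.findGreatest_is_greatest (n := x)
    (show Nat.findGreatest P x < z + 1 by omega) (by omega)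
  have h3' : x < (z + 1) ^ u := by
    have : ¬ ((z + 1) ^ u ≤ x) := h3
    omega
  have hzR : (2 : ℝ) ≤ z := by exact_mod_cast hz2
  have hxR : (0 : ℝ) < x := by exact_mod_cast (by omega : 0 < x)
  refine ⟨z, h1, ?_, ?_, ?_⟩
  · apply Real.le_sqrt_of_sq_le
    have h4 : z ^ 2 ≤ x := (Nat.pow_le_pow_right (by omega) hu).trans h2'
    exact_mod_cast h4
  · rw [← Real.log_pow]
    apply Real.log_le_log (by positivity)
    exact_mod_cast h2'
  · calc Real.log x ≤ Real.log (((z : ℝ) + 1) ^ u) := by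
          apply Real.log_le_log hxR
          exact_mod_cast h3'.le
      _ = u * Real.log ((z : ℝ) + 1) := by rw [Real.log_pow]
      _ ≤ u * (2 * Real.log z) := by
          apply mul_le_mul_of_nonneg_left _ (by positivity)
          calc Real.log ((z : ℝ) + 1) ≤ Real.log ((z : ℝ) ^ 2) := by
                apply Real.log_le_log (by positivity)
                nlinarith
            _ = 2 * Real.log z := by rw [Real.log_pow]; norm_num
      _ = 2 * u * Real.log z := by ring

/-- **Almost all numbers without small prime factors.** -/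
theorem natural' {Good : ℕ → Prop} [DecidablePred Good] {a : ℕ} {E : ℕ → Finset ℕ} {H : ℝ}
    (hH : 0 ≤ H) (ha : 0 < a) (hGa : Good a)
    (hz : ∀ m, 0 < m → Good m → ∃ z : ℕ, z ≠ 0 ∧ Real.log z ≤ H * m * (Real.log m) ^ 2 ∧
      ∀ p ∈ E m, p.Prime → ¬ p ∣ 2 * m → ∃ f : ℕ, 0 < f ∧ p ^ f ∣ z ∧ m ∣ p ^ f - 1)
    (hgood : ∀ m p, 0 < m → Good m → p.Prime → ¬ p ∣ m → p ∉ E m → Good (m * p))
    (ε : ℝ) (hε : 0 < ε) :
    ∃ Q₀ : ℕ, ∀ Q : ℕ, Q₀ ≤ Q → ∀ᶠ x : ℕ in atTop,
      (((Finset.Icc 1 x).filter (fun m => (pr Q).Coprime m ∧ ¬ Good (a * m))).card : ℝ) ≤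
        ε * rho Q * x := by
  obtain ⟨CM, hCM⟩ := Pool.Agent.Erdos456.Mert.mertens_log
  have hCM0 : 0 ≤ CM := (abs_nonneg _).trans (hCM 1 le_rfl)
  obtain ⟨cr, hcr0, hcr⟩ := rho_lower
  obtain ⟨CW, hCW0, hCW⟩ := WW_rel
  set u : ℕ := ⌈32 / ε⌉₊ + 2 with hu
  have hu2 : 2 ≤ u := by omega
  have huR : 32 / ε ≤ u := by
    have h1 := Nat.le_ceil (32 / ε)
    have h2 : ((⌈32 / ε⌉₊ : ℕ) : ℝ) ≤ u := by exact_mod_cast (by omega : ⌈32 / ε⌉₊ ≤ u)
    linarith
  have hu0 : (0 : ℝ) < u := by exact_mod_cast (by omega : 0 < u)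
  obtain ⟨Q₀, hQ₀⟩ := density hH ha hGa hz hgood (ε * cr / (160 * u * CW)) (by positivity)
  refine ⟨max Q₀ (max 3 (max a ⌈32 / ε⌉₊)), fun Q hQ => ?_⟩
  have hQ1 : Q₀ ≤ Q := (le_max_left _ _).trans hQ
  have hQ3 : 3 ≤ Q := ((le_max_left _ _).trans (le_max_right _ _)).trans hQ
  have hQa : a ≤ Q :=
    ((le_max_left _ _).trans ((le_max_right _ _).trans (le_max_right _ _))).trans hQ
  have hQe : ⌈32 / ε⌉₊ ≤ Q :=
    ((le_max_right _ _).trans ((le_max_right _ _).trans (le_max_right _ _))).trans hQ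
  have hQeR : 32 / ε ≤ Q := (Nat.le_ceil _).trans (by exact_mod_cast hQe)
  have hlQ : 0 < Real.log Q := Real.log_pos (by exact_mod_cast (by omega : 1 < Q))
  have hρ := rho_pos Q
  have hP0 : (0 : ℝ) < pr Q := by exact_mod_cast pr_pos Q
  obtain ⟨z₀, hz₀⟩ := tail (Good := Good) (E := E) hH ha hz (by omega) hQa (ε / 16 * rho Q)
    (by positivity)
  have hTl : Tendsto (fun x : ℕ => Real.log (x : ℝ)) atTop atTop :=
    Real.tendsto_log_atTop.comp tendsto_natCast_atTop_atTop
  have hTs : Tendsto (fun x : ℕ => Real.sqrt (x : ℝ)) atTop atTop :=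
    Real.tendsto_sqrt_atTop.comp tendsto_natCast_atTop_atTop
  filter_upwards [eventually_ge_atTop ((max z₀ 2) ^ u), eventually_ge_atTop Q,
    hTl.eventually_ge_atTop (32 * CM / ε), hTs.eventually_ge_atTop
      (max 1 (16 * (3 * pr Q + 1) / (ε * rho Q)))] with x h1 h2 h3 h4
  obtain ⟨z, hzz, hzs, hzl, hzu⟩ := choose_z u (max z₀ 2) x hu2 (le_max_right _ _) h1
  have hz2 : 2 ≤ z := (le_max_right _ _).trans hzz
  have hzz0 : z₀ ≤ z := (le_max_left _ _).trans hzz
  have hx1 : 1 < x := by omega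
  have hxR : (0 : ℝ) < x := by exact_mod_cast (by omega : 0 < x)
  have hlx : 0 < Real.log x := Real.log_pos (by exact_mod_cast hx1)
  have hlz : 0 < Real.log z := Real.log_pos (by exact_mod_cast (by omega : 1 < z))
  have hmain := bad_count (Good := Good) (E := E) ha hQa hgood (z := z) (x := x) hz2
  have t1 := nsf_bound Q x
  have t2 := smooth_count hCM (Q := Q) (z := z) (x := x) (by omega) hx1
  have t3 := hQ₀ Q hQ1 (x + 1)
  have t4 := hCW Q x hQ3 h2
  have t5 := hz₀ z hzz0 (x + 1)
  have t6 := hcr Q hQ3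
  set s := Real.sqrt (x : ℝ) with hs
  have hs1 : 1 ≤ s := (le_max_left _ _).trans h4
  have hs2 : 16 * (3 * pr Q + 1) / (ε * rho Q) ≤ s := (le_max_right _ _).trans h4
  have hss : s * s = x := Real.mul_self_sqrt hxR.le
  -- the six pieces
  have p1 : rho Q * x * (2 / ((Q : ℝ) + 1)) ≤ ε / 16 * (rho Q * x) := by
    rw [mul_comm]
    apply mul_le_mul_of_nonneg_right _ (by positivity)
    rw [div_le_iff₀ hε] at hQeR
    rw [div_le_div_iff₀ (by positivity) (by norm_num)]
    linarith
  have p2 : 2 / Real.log x * (rho Q * x * Real.log z) ≤ ε / 16 * (rho Q * x) := by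
    have e : 2 / Real.log x * (rho Q * x * Real.log z) =
        (2 * Real.log z / Real.log x) * (rho Q * x) := by ring
    rw [e]
    apply mul_le_mul_of_nonneg_right _ (by positivity)
    rw [div_le_iff₀ hε] at huR
    rw [div_le_iff₀ hlx]
    have h5 : ε / 16 * (u * Real.log z) ≤ ε / 16 * Real.log x :=
      mul_le_mul_of_nonneg_left hzl (by positivity)
    have h6 : 2 * Real.log z ≤ ε / 16 * (u * Real.log z) := by
      have : 2 ≤ ε / 16 * u := by linarith
      nlinarith
    linarith
  have p3 : 2 / Real.log x * (rho Q * x * CM) ≤ ε / 16 * (rho Q * x) := by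
    have e : 2 / Real.log x * (rho Q * x * CM) = (2 * CM / Real.log x) * (rho Q * x) := by ring
    rw [e]
    apply mul_le_mul_of_nonneg_right _ (by positivity)
    rw [div_le_iff₀ hε] at h3
    rw [div_le_iff₀ hlx]
    linarith
  have p4 : 2 / Real.log x * (pr Q * (z * Real.log z)) ≤ pr Q * s := by
    have e : 2 / Real.log x * (pr Q * (z * Real.log z)) =
        (2 * Real.log z / Real.log x) * (pr Q * z) := by ring
    rw [e]
    have h5 : 2 * Real.log z / Real.log x ≤ 1 := by
      rw [div_le_one hlx]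
      have : (2 : ℝ) ≤ u := by exact_mod_cast hu2
      nlinarith
    calc (2 * Real.log z / Real.log x) * (pr Q * z) ≤ 1 * (pr Q * s) := by
          apply mul_le_mul h5 _ (by positivity) (by norm_num)
          exact mul_le_mul_of_nonneg_left hzs hP0.le
      _ = pr Q * s := one_mul _
  have p5 : pr Q * (s + 1) + s + pr Q * s ≤ ε / 16 * (rho Q * x) := by
    rw [div_le_iff₀ (by positivity)] at hs2
    calc pr Q * (s + 1) + s + pr Q * s ≤ (3 * pr Q + 1) * s := by nlinarith
      _ ≤ (s * (ε * rho Q) / 16) * s := by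
          apply mul_le_mul_of_nonneg_right _ (by linarith)
          linarith
      _ = ε / 16 * (rho Q * (s * s)) := by ring
      _ = ε / 16 * (rho Q * x) := by rw [hss]
  have p6 : 5 * x / Real.log z * bsum Good a Q (x + 1) ≤ ε / 16 * (rho Q * x) := by
    calc 5 * x / Real.log z * bsum Good a Q (x + 1)
        ≤ 5 * x / Real.log z * (ε * cr / (160 * u * CW) * (CW * (Real.log x / Real.log Q))) := by
          apply mul_le_mul_of_nonneg_left _ (by positivity)
          exact t3.trans (mul_le_mul_of_nonneg_left t4 (by positivity))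
      _ = ε / 32 * (Real.log x / (u * Real.log z)) * (cr / Real.log Q) * x := by
          field_simp
          norm_num
      _ ≤ ε / 32 * 2 * rho Q * x := by
          have h5 : Real.log x / (u * Real.log z) ≤ 2 := by
            rw [div_le_iff₀ (by positivity)]
            linarith
          gcongr
      _ = ε / 16 * (rho Q * x) := by ring
  have p7 : x * ∑ p ∈ PQ z (x + 1), 1 / (p : ℝ) * bet Good a E Q p ≤ ε / 16 * (rho Q * x) := by
    calc x * ∑ p ∈ PQ z (x + 1), 1 / (p : ℝ) * bet Good a E Q p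
        ≤ x * (ε / 16 * rho Q) := mul_le_mul_of_nonneg_left t5 hxR.le
      _ = ε / 16 * (rho Q * x) := by ring
  have e1 : 2 / Real.log x * (rho Q * x * (Real.log z + CM) + pr Q * (z * Real.log z)) =
      2 / Real.log x * (rho Q * x * Real.log z) + 2 / Real.log x * (rho Q * x * CM) +
      2 / Real.log x * (pr Q * (z * Real.log z)) := by ring
  rw [e1] at t2
  have h9 : 0 ≤ ε * rho Q * x := by positivity
  have h10 : ε * rho Q * x = 16 * (ε / 16 * (rho Q * x)) := by ring
  linarith

end Pool.Agent.Q79.KQ
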