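import Pool.Agent.Q109.LD.Stm

/-! # Project LD: common lemmas for the jobs CON, VB, CMP, UP3 -/

set_option autoImplicit false

namespace Pool.Agent.Q79.LD

open Set Q109.LD

variable {d m : ℕ}

/-- fewer than `d` vectors have a common orthogonal vector -/
theorem exists_orth (h : m < d) (a : Fin m → E d) : ∃ w : E d, w ≠ 0 ∧ ∀ i, inner ℝ (a i) w = 0 := by
  let f : E d →ₗ[ℝ] (Fin m → ℝ) := LinearMap.pi fun i => (innerSL ℝ (a i)).toLinearMap
  have h1 : Module.finrank ℝ (Fin m → ℝ) < Module.finrank ℝ (E d) := by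
    rw [Module.finrank_fin_fun, finrank_euclideanSpace_fin]
    exact h
  have h2 : LinearMap.ker f ≠ ⊥ := LinearMap.ker_ne_bot_of_finrank_lt h1
  obtain ⟨w, hw, hw0⟩ := Submodule.exists_mem_ne_zero_of_ne_bot h2
  refine ⟨w, hw0, fun i => ?_⟩
  have h3 : f w = 0 := hw
  exact congrFun h3 i

theorem isClosed_poly (a : Fin m → E d) (b : Fin m → ℝ) : IsClosed (poly a b) := by
  have : poly a b = ⋂ i, {x | inner ℝ (a i) x ≤ b i} := by
    ext x; simp [poly]
  rw [this]
  exact isClosed_iInter fun i => isClosed_le (by fun_prop) continuous_const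

theorem convex_poly (a : Fin m → E d) (b : Fin m → ℝ) : Convex ℝ (poly a b) := by
  intro x hx y hy s t hs ht hst i
  rw [inner_add_right, inner_smul_right, inner_smul_right]
  have h1 := hx i
  have h2 := hy i
  calc s * inner ℝ (a i) x + t * inner ℝ (a i) y ≤ s * b i + t * b i := by gcongr
    _ = b i := by rw [← add_mul, hst, one_mul]

theorem isCompact_poly {a : Fin m → E d} {b : Fin m → ℝ} (h : Bornology.IsBounded (poly a b)) :
    IsCompact (poly a b) :=
  Metric.isCompact_of_isClosed_isBounded (isClosed_poly a b) h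

/-- a linear function on a compact convex set attains its maximum at an extreme point -/
theorem exists_ext_max {S : Set (E d)} (hS : IsCompact S) (hne : S.Nonempty) (g : E d) :
    ∃ v ∈ S.extremePoints ℝ, ∀ y ∈ S, inner ℝ g y ≤ inner ℝ g v := by
  obtain ⟨x, hx, hmax⟩ := hS.exists_isMaxOn hne
    (f := fun y => inner ℝ g y) (Continuous.continuousOn (by fun_prop))
  set F : Set (E d) := {y ∈ S | ∀ z ∈ S, innerSL ℝ g z ≤ innerSL ℝ g y} with hF
  have hexp : IsExposed ℝ S F := fun _ => ⟨innerSL ℝ g, rfl⟩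
  have hFc : IsCompact F := hexp.isCompact hS
  have hFne : F.Nonempty := ⟨x, hx, fun z hz => hmax hz⟩
  obtain ⟨v, hv⟩ := hFc.extremePoints_nonempty hFne
  have hv' : v ∈ S.extremePoints ℝ := hexp.isExtreme.extremePoints_subset_extremePoints hv
  exact ⟨v, hv', fun y hy => (extremePoints_subset hv).2 y hy⟩

/-- small perturbations of strictly feasible points -/
theorem exists_eps {a : Fin m → E d} {b : Fin m → ℝ} {x : E d} (hx : ∀ i, inner ℝ (a i) x < b i)
    (e : E d) : ∃ ε : ℝ, 0 < ε ∧ ∀ i, inner ℝ (a i) (x + ε • e) < b i := by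
  have h : ∀ᶠ ε : ℝ in nhdsWithin 0 (Ioi 0), ∀ i, inner ℝ (a i) (x + ε • e) < b i := by
    rw [Filter.eventually_all]
    intro i
    have hc : Continuous fun ε : ℝ => inner ℝ (a i) (x + ε • e) := by fun_prop
    have h1 : ∀ᶠ ε : ℝ in nhds 0, inner ℝ (a i) (x + ε • e) < b i := by
      refine hc.continuousAt.eventually_lt_const ?_
      simpa using hx i
    exact h1.filter_mono nhdsWithin_le_nhds
  obtain ⟨ε, h1, h2⟩ := (h.and self_mem_nhdsWithin).exists
  exact ⟨ε, h2, h1⟩

/-- a bounded polyhedron contains no half-line -/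
theorem dir_zero {a : Fin m → E d} {b : Fin m → ℝ} (h : Bornology.IsBounded (poly a b)) {x : E d}
    (hx : x ∈ poly a b) {e : E d} (he : ∀ i, inner ℝ (a i) e ≤ 0) : e = 0 := by
  by_contra h0
  obtain ⟨R, hR⟩ := h.subset_ball (c := x) |>.imp fun _ h => h
  have h1 : ∀ t : ℝ, 0 ≤ t → x + t • e ∈ poly a b := by
    intro t ht i
    rw [inner_add_right, inner_smul_right]
    have := mul_nonpos_of_nonneg_of_nonpos ht (he i)
    have := hx i
    linarith
  have hn : 0 < ‖e‖ := norm_pos_iff.2 h0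
  have h2 := hR (h1 (|R| / ‖e‖) (by positivity))
  rw [Metric.mem_ball, dist_eq_norm, add_sub_cancel_left, norm_smul, Real.norm_eq_abs, abs_div,
    abs_abs, abs_norm, div_mul_cancel₀ _ hn.ne'] at h2
  exact absurd (le_abs_self R) (not_le.2 h2)

end Pool.Agent.Q79.LD
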