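import Pool.Agent.Q88.MT.Stm2

/-!
# Project MT (helper88), second part, JOB SAD: the spectrum in the self-adjoint case
-/

set_option autoImplicit false

open Set Filter Topology

noncomputable section

namespace Pool.Agent.Q88.MT

theorem sad (h : S_rea) (h1 : S_coe) (h2 : S_fin) : S_sad := by
  intro n k τ b hk
  ext l
  constructor
  · intro hl
    obtain ⟨him, hre⟩ := h1 n k τ b hk l hl
    have hn := (h2 n k b).2.2.2.1 l hl
    refine ⟨l.re, ⟨hre, (Complex.re_le_norm l).trans hn⟩, ?_⟩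
    apply Complex.ext
    · simp
    · simp [him]
  · rintro ⟨x, ⟨hx1, hx2⟩, rfl⟩
    obtain ⟨t, ht⟩ := (h n k τ hk).2.2 x hx1 hx2
    show (x : ℂ) ∈ Sp b k
    rw [← ht]
    exact (h2 n k b).2.2.1 t

end Pool.Agent.Q88.MT
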