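import Mathlib
import Pool.Agent.Q79.HcA

/-!
# The unicritical family in the coordinate `n log z`

With `Z = z ^ n` the map `z ^ n + c` becomes `Z ↦ (Z + c) ^ n`.
-/

set_option autoImplicit false

open MeasureTheory Set Filter Topology Metric
open scoped ENNReal

namespace Pool.Agent.Q79.MC

open Pool.Agent.Q79.PW (Sim)

/-- the map `Z ↦ (Z + c) ^ n` -/
def T (n : ℕ) (S X : ℂ) : ℂ := (X + S) ^ n

/-- the radius -/
noncomputable def r0 : ℝ := 1 / 400

/-- slow curves -/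
structure Slow (n : ℕ) (s : ℂ → ℂ) (x : ℂ) : Prop where
  d : DifferentiableOn ℂ s (ball x (2 * r0))
  b : ∀ t ∈ ball x (2 * r0), ‖deriv s t‖ ≤ 1 / n

theorem exp_sub_one_le {x : ℝ} (h0 : 0 ≤ x) (h1 : x ≤ 1) : Real.exp x - 1 ≤ 2 * x := by
  have := Real.norm_exp_sub_one_sub_id_le (x := x) (by rw [Real.norm_of_nonneg h0]; exact h1)
  rw [Real.norm_eq_abs, Real.norm_of_nonneg h0] at this
  have h2 := (abs_le.1 this).2
  nlinarith

theorem exp_diff {x y : ℂ} (h : ‖x - y‖ ≤ 1) :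
    ‖Complex.exp x - Complex.exp y‖ ≤ 2 * ‖x - y‖ * ‖Complex.exp y‖ := by
  have e : Complex.exp x - Complex.exp y = (Complex.exp (x - y) - 1) * Complex.exp y := by
    rw [sub_mul, ← Complex.exp_add, sub_add_cancel, one_mul]
  rw [e, norm_mul]
  exact mul_le_mul_of_nonneg_right (Complex.norm_exp_sub_one_le h) (norm_nonneg _)

/-- bounds on the disc -/
theorem near {n : ℕ} (hn : 1 ≤ n) {s : ℂ → ℂ} {x : ℂ} (hs : Slow n s x) {t₀ : ℂ}
    (ht₀ : t₀ ∈ ball x r0) (hX : ‖Complex.exp t₀‖ ≤ 4) (hc : ‖Complex.exp (s t₀)‖ ≤ 6) {t : ℂ}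
    (ht : t ∈ ball t₀ r0) :
    t ∈ ball x (2 * r0) ∧ ‖Complex.exp t - Complex.exp t₀‖ ≤ 2 * r0 * ‖Complex.exp t₀‖ ∧
    ‖Complex.exp (s t) - Complex.exp (s t₀)‖ ≤ 12 * r0 / n ∧
    ‖(Complex.exp t + Complex.exp (s t)) - (Complex.exp t₀ + Complex.exp (s t₀))‖ ≤ 1 / 20 := by
  have hn0 : (1:ℝ) ≤ n := by exact_mod_cast hn
  have hr : r0 = 1 / 400 := rfl
  have htx : t ∈ ball x (2 * r0) := by
    rw [mem_ball, dist_eq_norm] at *
    calc ‖t - x‖ = ‖(t - t₀) + (t₀ - x)‖ := by congr 1; ring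
      _ ≤ _ := norm_add_le _ _
      _ < 2 * r0 := by linarith
  have ht₀x : t₀ ∈ ball x (2 * r0) := ball_subset_ball (by rw [hr]; norm_num) ht₀
  rw [mem_ball, dist_eq_norm] at ht
  have h1 : ‖Complex.exp t - Complex.exp t₀‖ ≤ 2 * r0 * ‖Complex.exp t₀‖ := by
    refine (exp_diff (by rw [hr] at ht; linarith)).trans ?_
    apply mul_le_mul_of_nonneg_right _ (norm_nonneg _)
    linarith
  have hss : ‖s t - s t₀‖ ≤ 1 / n * r0 := by
    have h2 := (convex_ball x (2 * r0)).norm_image_sub_le_of_norm_deriv_le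
      (fun y hy => hs.d.differentiableAt (isOpen_ball.mem_nhds hy)) hs.b ht₀x htx
    exact h2.trans (mul_le_mul_of_nonneg_left ht.le (by positivity))
  have h1n : 1 / (n:ℝ) ≤ 1 := by
    rw [div_le_one (by linarith)]; exact hn0
  have hss1 : ‖s t - s t₀‖ ≤ 1 := by
    refine hss.trans ?_
    rw [hr]; nlinarith [show 0 < 1 / (n:ℝ) by positivity]
  have h3 : ‖Complex.exp (s t) - Complex.exp (s t₀)‖ ≤ 12 * r0 / n := by
    refine (exp_diff hss1).trans ?_
    calc 2 * ‖s t - s t₀‖ * ‖Complex.exp (s t₀)‖ ≤ 2 * (1 / n * r0) * 6 :=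
          mul_le_mul (mul_le_mul_of_nonneg_left hss (by norm_num)) hc (norm_nonneg _)
            (by rw [hr]; positivity)
      _ = _ := by ring
  refine ⟨htx, h1, h3, ?_⟩
  have e : (Complex.exp t + Complex.exp (s t)) - (Complex.exp t₀ + Complex.exp (s t₀)) =
      (Complex.exp t - Complex.exp t₀) + (Complex.exp (s t) - Complex.exp (s t₀)) := by ring
  rw [e]
  refine (norm_add_le _ _).trans ?_
  have h4 : 2 * r0 * ‖Complex.exp t₀‖ ≤ 1 / 50 := by rw [hr]; linarith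
  have h5 : 12 * r0 / n ≤ 3 / 100 := by
    rw [hr, div_le_iff₀ (by linarith)]; linarith
  linarith

/-- the logarithm of the next iterate is close to a similarity -/
theorem hasSim {n : ℕ} (hn : 1 ≤ n) {s : ℂ → ℂ} {x : ℂ} (hs : Slow n s x) {t₀ : ℂ}
    (ht₀ : t₀ ∈ ball x r0) (hX : ‖Complex.exp t₀‖ ≤ 4) (hc : ‖Complex.exp (s t₀)‖ ≤ 6)
    (hY : 200 ≤ n * ‖Complex.exp t₀‖) (hv1 : 1 / 2 ≤ ‖Complex.exp t₀ + Complex.exp (s t₀)‖)
    (hv2 : ‖Complex.exp t₀ + Complex.exp (s t₀)‖ ≤ 2) :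
    ∃ (a : ℂ) (F : ℂ → ℂ), n * ‖Complex.exp t₀‖ / 4 ≤ ‖a‖ ∧ ‖a‖ ≤ 3 * (n * ‖Complex.exp t₀‖) ∧
      Sim F t₀ a r0 ∧
      ∀ t ∈ ball t₀ r0, Complex.exp (F t) = T n (Complex.exp (s t)) (Complex.exp t) := by
  have hn0 : (1:ℝ) ≤ n := by exact_mod_cast hn
  have hnp : (0:ℝ) < n := by linarith
  have hnc : (n:ℂ) ≠ 0 := by exact_mod_cast (by omega : n ≠ 0)
  have hr : r0 = 1 / 400 := rfl
  have hr0 : 0 < r0 := by rw [hr]; norm_num
  set X₀ := Complex.exp t₀ with hX₀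
  set c₀ := Complex.exp (s t₀) with hc₀
  set v₀ := X₀ + c₀ with hv₀
  set Y := (n:ℝ) * ‖X₀‖ with hYd
  have hv₀0 : v₀ ≠ 0 := by
    intro h; rw [h, norm_zero] at hv1; linarith
  have ht₀x : t₀ ∈ ball x (2 * r0) := ball_subset_ball (by linarith) ht₀
  set a : ℂ := n * ((X₀ + c₀ * deriv s t₀) / v₀) with ha
  have hu₀ : ‖c₀ * deriv s t₀‖ ≤ 6 / n := by
    rw [norm_mul]
    calc ‖c₀‖ * ‖deriv s t₀‖ ≤ 6 * (1 / n) :=
          mul_le_mul hc (hs.b _ ht₀x) (norm_nonneg _) (by norm_num)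
      _ = _ := by ring
  have hX₀Y : ‖X₀‖ = Y / n := by rw [hYd]; field_simp
  have hul : (Y - 6) / n ≤ ‖X₀ + c₀ * deriv s t₀‖ := by
    have h1 := norm_sub_le (X₀ + c₀ * deriv s t₀) (c₀ * deriv s t₀)
    rw [add_sub_cancel_right, hX₀Y] at h1
    rw [sub_div]; linarith
  have huu : ‖X₀ + c₀ * deriv s t₀‖ ≤ (Y + 6) / n := by
    have h1 := norm_add_le X₀ (c₀ * deriv s t₀)
    rw [hX₀Y] at h1
    rw [add_div]; linarith
  have han : ‖a‖ = n * ‖X₀ + c₀ * deriv s t₀‖ / ‖v₀‖ := by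
    rw [ha, norm_mul, norm_div, Complex.norm_natCast]; ring
  have hv₀p : 0 < ‖v₀‖ := norm_pos_iff.2 hv₀0
  have hal : (Y - 6) / 2 ≤ ‖a‖ := by
    rw [han, div_le_div_iff₀ (by norm_num) hv₀p]
    rw [div_le_iff₀ hnp] at hul
    have h6 : 0 ≤ Y - 6 := by linarith
    nlinarith
  have hau : ‖a‖ ≤ 2 * (Y + 6) := by
    rw [han, div_le_iff₀ hv₀p]
    rw [le_div_iff₀ hnp] at huu
    nlinarith
  have ha0 : a ≠ 0 := by
    intro h; rw [h, norm_zero] at hal; linarith
  -- the logarithm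
  set w : ℂ → ℂ := fun t => Complex.exp t + Complex.exp (s t) with hw
  set F : ℂ → ℂ := fun t => n * (Complex.log (w t / v₀) + Complex.log v₀) with hF
  have hwv : ∀ t ∈ ball t₀ r0, ‖w t - v₀‖ ≤ 1 / 20 := fun t ht =>
    (near hn hs ht₀ hX hc ht).2.2.2
  have hwn : ∀ t ∈ ball t₀ r0, 9 / 20 ≤ ‖w t‖ := by
    intro t ht
    have h1 := norm_sub_le (w t) (w t - v₀)
    rw [sub_sub_cancel] at h1
    linarith [hwv t ht]
  have hslit : ∀ t ∈ ball t₀ r0, w t / v₀ ∈ Complex.slitPlane := by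
    intro t ht
    have h1 : ‖w t / v₀ - 1‖ ≤ 1 / 10 := by
      have e : w t / v₀ - 1 = (w t - v₀) / v₀ := by field_simp
      rw [e, norm_div, div_le_iff₀ hv₀p]
      linarith [hwv t ht]
    left
    have h2 := Complex.abs_re_le_norm (w t / v₀ - 1)
    rw [Complex.sub_re, Complex.one_re] at h2
    have := (abs_le.1 (h2.trans h1)).1
    linarith
  have hder : ∀ t ∈ ball t₀ r0, HasDerivAt F
      (n * ((Complex.exp t + Complex.exp (s t) * deriv s t) / w t)) t := by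
    intro t ht
    have hsd : HasDerivAt s (deriv s t) t :=
      (hs.d.differentiableAt (isOpen_ball.mem_nhds (near hn hs ht₀ hX hc ht).1)).hasDerivAt
    have h1 : HasDerivAt w (Complex.exp t + Complex.exp (s t) * deriv s t) t :=
      (Complex.hasDerivAt_exp t).add hsd.cexp
    have h2 := ((h1.div_const v₀).clog (hslit t ht)).add_const (Complex.log v₀)
    have h3 := h2.const_mul (n:ℂ)
    refine h3.congr_deriv ?_
    have hw0 : w t ≠ 0 := by
      intro h
      have := hwn t ht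
      rw [h, norm_zero] at this
      linarith
    field_simp
  refine ⟨a, F, by linarith, by linarith, ⟨hr0, ha0, fun t ht =>
    (hder t ht).differentiableAt.differentiableWithinAt, ?_⟩, ?_⟩
  · intro t ht
    rw [(hder t ht).deriv]
    obtain ⟨htx, h1, h2, h3⟩ := near hn hs ht₀ hX hc ht
    set u := Complex.exp t + Complex.exp (s t) * deriv s t with hu
    set u₀ := X₀ + c₀ * deriv s t₀ with hu₀'
    have hcs : ‖Complex.exp (s t) * deriv s t‖ ≤ 7 / n := by
      rw [norm_mul]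
      have h4 : ‖Complex.exp (s t)‖ ≤ 7 := by
        have h5 := norm_add_le (Complex.exp (s t) - c₀) c₀
        rw [sub_add_cancel] at h5
        have h6 : 12 * r0 / n ≤ 1 := by
          rw [hr, div_le_iff₀ hnp]; linarith
        linarith
      calc ‖Complex.exp (s t)‖ * ‖deriv s t‖ ≤ 7 * (1 / n) :=
            mul_le_mul h4 (hs.b _ htx) (norm_nonneg _) (by norm_num)
        _ = _ := by ring
    have huu₀ : ‖u - u₀‖ ≤ (2 * r0 * Y + 13) / n := by
      have e : u - u₀ = (Complex.exp t - X₀) + (Complex.exp (s t) * deriv s t -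
          c₀ * deriv s t₀) := by rw [hu, hu₀']; ring
      have h4 := norm_sub_le (Complex.exp (s t) * deriv s t) (c₀ * deriv s t₀)
      have h5 := norm_add_le (Complex.exp t - X₀) (Complex.exp (s t) * deriv s t -
          c₀ * deriv s t₀)
      rw [← e] at h5
      have h6 : (2 * r0 * Y + 13) / n = 2 * r0 * (Y / n) + 7 / n + 6 / n := by ring
      rw [h6, ← hX₀Y]
      linarith
    have hwt := hwn t ht
    have hw0 : w t ≠ 0 := by
      intro h
      rw [h, norm_zero] at hwt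
      linarith
    have hwp : 0 < ‖w t‖ := norm_pos_iff.2 hw0
    have hu₀p : 0 < ‖u₀‖ := by
      have : 0 < (Y - 6) / n := by apply div_pos _ hnp; linarith
      linarith
    have e : (n:ℂ) * (u / w t) - a = n * ((u - u₀) / w t) - a * ((w t - v₀) / w t) := by
      rw [ha]
      field_simp
      ring
    rw [e]
    have h7 : ‖(n:ℂ) * ((u - u₀) / w t)‖ ≤ 7 / 20 * ‖a‖ := by
      rw [norm_mul, norm_div, Complex.norm_natCast]
      have h8 : (n:ℝ) * (‖u - u₀‖ / ‖w t‖) ≤ (2 * r0 * Y + 13) * (20 / 9) := by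
        rw [le_div_iff₀ hnp] at huu₀
        have h9 : 1 / ‖w t‖ ≤ 20 / 9 := by
          rw [div_le_div_iff₀ hwp (by norm_num)]; linarith
        calc (n:ℝ) * (‖u - u₀‖ / ‖w t‖) = (‖u - u₀‖ * n) * (1 / ‖w t‖) := by ring
          _ ≤ (2 * r0 * Y + 13) * (20 / 9) :=
            mul_le_mul huu₀ h9 (by positivity) (by
              have : 0 ≤ Y := by linarith
              rw [hr]; positivity)
      refine h8.trans ?_
      rw [hr]
      linarith
    have h10 : ‖a * ((w t - v₀) / w t)‖ ≤ 1 / 9 * ‖a‖ := by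
      rw [norm_mul, norm_div, mul_comm]
      apply mul_le_mul_of_nonneg_right _ (norm_nonneg _)
      rw [div_le_iff₀ hwp]
      linarith [hwv t ht]
    refine (norm_sub_le _ _).trans ?_
    have := norm_nonneg a
    linarith
  · intro t ht
    have hwt := hwn t ht
    have hw0 : w t ≠ 0 := by
      intro h
      rw [h, norm_zero] at hwt
      linarith
    change Complex.exp (n * (Complex.log (w t / v₀) + Complex.log v₀)) = _
    rw [Complex.exp_nat_mul, Complex.exp_add, Complex.exp_log (div_ne_zero hw0 hv₀0),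
      Complex.exp_log hv₀0, div_mul_cancel₀ _ hv₀0]
    rfl

end Pool.Agent.Q79.MC
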