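import Mathlib
import Pool.Agent.Q79.McA

/-!
# Bad parameters and strips
-/

set_option autoImplicit false

open MeasureTheory Set Filter Topology Metric
open scoped ENNReal

namespace Pool.Agent.Q79.MC

open Pool.Agent.Q79.PW (Sim)
open Pool.Agent.Q79.HC (Hc Hc_ball Hc_expand cover Hc_le_diam)

/-- the range of moduli -/
def Rg (n : ℕ) (κ : ℝ) (X : ℂ) : Prop := κ / n ≤ ‖X‖ ∧ ‖X‖ ≤ 4

/-- the orbit stays in the range, or it leaves it without being attracted -/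
def Bad (n : ℕ) (κ ε D : ℝ) (S X : ℂ) : Prop :=
  (∀ j : ℕ, Rg n κ ((T n S)^[j] X)) ∨
  ∃ k : ℕ, (∀ j < k, Rg n κ ((T n S)^[j] X)) ∧ ‖(T n S)^[k] X‖ < κ / n ∧
    ε * ∏ j ∈ Finset.range k, ‖(T n S)^[j] X + S‖ <
      n * D * (∏ j ∈ Finset.range k, (n * ‖(T n S)^[j] X‖)) * ‖(T n S)^[k] X‖

theorem Bad.mono {n : ℕ} {κ ε D D' : ℝ} {S X : ℂ} (h : Bad n κ ε D S X) (hD : D ≤ D') :
    Bad n κ ε D' S X := by
  rcases h with h | ⟨k, h1, h2, h3⟩
  · exact Or.inl h
  · refine Or.inr ⟨k, h1, h2, h3.trans_le ?_⟩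
    apply mul_le_mul_of_nonneg_right _ (norm_nonneg _)
    apply mul_le_mul_of_nonneg_right _ (Finset.prod_nonneg fun j _ => by positivity)
    exact mul_le_mul_of_nonneg_left hD (Nat.cast_nonneg n)

theorem Bad.small {n : ℕ} {κ ε D : ℝ} {S X : ℂ} (h : Bad n κ ε D S X) (hX : ‖X‖ < κ / n) :
    ε < n * D * ‖X‖ := by
  rcases h with h | ⟨k, h1, h2, h3⟩
  · exact absurd (h 0).1 (not_le.2 hX)
  · rcases Nat.eq_zero_or_pos k with h0 | h0
    · subst h0
      simpa using h3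
    · exact absurd (h1 0 h0).1 (not_le.2 hX)

theorem Bad.step {n : ℕ} (hn : 1 ≤ n) {κ ε D : ℝ} (hκ : 0 < κ) {S X : ℂ}
    (h : Bad n κ ε D S X) (hX : κ / n ≤ ‖X‖) :
    ‖X‖ ≤ 4 ∧ 0 < ‖X + S‖ ∧ (κ / n ≤ ‖T n S X‖ → ‖T n S X‖ ≤ 4) ∧
      Bad n κ ε (D * (n * ‖X‖ / ‖X + S‖)) S (T n S X) := by
  have hn0 : (0:ℝ) < n := by exact_mod_cast hn
  have hT0 : X + S = 0 → T n S X = 0 := by
    intro h0
    unfold T
    rw [h0, zero_pow (by omega)]
  rcases h with h | ⟨k, h1, h2, h3⟩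
  · refine ⟨(h 0).2, ?_, fun _ => by simpa using (h 1).2, Or.inl fun j => ?_⟩
    · rw [norm_pos_iff]
      intro h0
      have h4 := (h 1).1
      simp only [Function.iterate_one] at h4
      rw [hT0 h0, norm_zero] at h4
      exact absurd h4 (not_le.2 (by positivity))
    · have := h (j + 1)
      rwa [Function.iterate_succ_apply] at this
  · rcases Nat.eq_zero_or_pos k with h0 | h0
    · subst h0
      exact absurd hX (not_le.2 (by simpa using h2))
    obtain ⟨k', rfl⟩ : ∃ k', k = k' + 1 := ⟨k - 1, by omega⟩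
    have hpos : 0 < ‖X + S‖ := by
      rw [norm_pos_iff]
      intro h4
      rcases Nat.eq_zero_or_pos k' with h5 | h5
      · subst h5
        simp only [zero_add, Finset.prod_range_one, Function.iterate_zero, id,
          Function.iterate_one] at h3
        rw [hT0 h4, h4, norm_zero, mul_zero, mul_zero] at h3
        exact lt_irrefl _ h3
      · have h6 := (h1 1 (by omega)).1
        simp only [Function.iterate_one] at h6
        rw [hT0 h4, norm_zero] at h6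
        exact absurd h6 (not_le.2 (by positivity))
    refine ⟨(h1 0 (by omega)).2, hpos, ?_, Or.inr ⟨k', ?_, ?_, ?_⟩⟩
    · intro h4
      rcases Nat.eq_zero_or_pos k' with h5 | h5
      · subst h5
        simp only [zero_add, Function.iterate_one] at h2
        exact absurd h4 (not_le.2 h2)
      · simpa using (h1 1 (by omega)).2
    · intro j hj
      have := h1 (j + 1) (by omega)
      rwa [Function.iterate_succ_apply] at this
    · rwa [Function.iterate_succ_apply] at h2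
    · rw [Finset.prod_range_succ', Finset.prod_range_succ'] at h3
      simp only [Function.iterate_zero, id, Function.iterate_succ_apply] at h3
      rw [← mul_lt_mul_iff_of_pos_right hpos]
      calc _ = ε * ((∏ j ∈ Finset.range k', ‖(T n S)^[j] (T n S X) + S‖) * ‖X + S‖) := by ring
        _ < _ := h3
        _ = _ := by field_simp

theorem Bad.pole {n : ℕ} (hn : 1 ≤ n) {κ ε D : ℝ} (hκ : 0 < κ) (hD : 0 ≤ D) {S X : ℂ}
    (h : Bad n κ ε D S X) (hX : κ / n ≤ ‖X‖) (hp : ‖X + S‖ < 1 / 2)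
    (hκn : (1 / 2 : ℝ) ^ n < κ / n) : ε * 2 ^ (n - 1) < 4 * (n:ℝ) ^ 2 * D := by
  have hn0 : (0:ℝ) < n := by exact_mod_cast hn
  obtain ⟨h1, h2, -, h3⟩ := h.step hn hκ hX
  have h4 : ‖T n S X‖ = ‖X + S‖ ^ n := by unfold T; rw [norm_pow]
  have h5 : ‖T n S X‖ < κ / n := by
    rw [h4]
    exact (pow_le_pow_left₀ (norm_nonneg _) hp.le n).trans_lt hκn
  have h6 := h3.small h5
  rw [h4] at h6
  obtain ⟨k, rfl⟩ : ∃ k, n = k + 1 := ⟨n - 1, by omega⟩
  rw [Nat.add_sub_cancel]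
  have h7 : ‖X + S‖ ^ k ≤ (1 / 2) ^ k := pow_le_pow_left₀ (norm_nonneg _) hp.le k
  have h8 : ((k + 1 : ℕ) : ℝ) * (D * (((k + 1 : ℕ) : ℝ) * ‖X‖ / ‖X + S‖)) * ‖X + S‖ ^ (k + 1) =
      ((k + 1 : ℕ) : ℝ) ^ 2 * D * ‖X‖ * ‖X + S‖ ^ k := by
    rw [pow_succ]; field_simp
  rw [h8] at h6
  have h9 : ((k + 1 : ℕ) : ℝ) ^ 2 * D * ‖X‖ * ‖X + S‖ ^ k ≤
      ((k + 1 : ℕ) : ℝ) ^ 2 * D * 4 * (1 / 2) ^ k := by
    apply mul_le_mul _ h7 (by positivity) (by positivity)
    exact mul_le_mul_of_nonneg_left h1 (by positivity)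
  have h10 := h6.trans_le h9
  have h11 : (0:ℝ) < 2 ^ k := by positivity
  have h12 : ((1:ℝ) / 2) ^ k * 2 ^ k = 1 := by rw [← mul_pow]; norm_num
  have h13 := mul_lt_mul_of_pos_right h10 h11
  calc ε * 2 ^ k < ((k + 1 : ℕ) : ℝ) ^ 2 * D * 4 * (1 / 2) ^ k * 2 ^ k := h13
    _ = ((k + 1 : ℕ) : ℝ) ^ 2 * D * 4 * ((1 / 2) ^ k * 2 ^ k) := by ring
    _ = _ := by rw [h12]; ring

/-- the bad parameters of a slow curve -/
def ES (n : ℕ) (κ ε D : ℝ) (s : ℂ → ℂ) (x : ℂ) : Set ℂ :=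
  {t | t ∈ ball x r0 ∧ κ / n ≤ ‖Complex.exp t‖ ∧ Bad n κ ε D (Complex.exp (s t)) (Complex.exp t)}

/-- the weight -/
noncomputable def Wt (α : ℝ) (n : ℕ) (D : ℝ) (x : ℂ) : ℝ :=
  (1 + Real.log D + Real.log (n * ‖Complex.exp x‖)) * (n * ‖Complex.exp x‖) ^ (1 - α)

theorem sum_geo {q : ℝ} (h0 : 0 ≤ q) (h1 : q < 1) :
    HasSum (fun j : ℕ => (1 + (j:ℝ)) * q ^ j) (1 / (1 - q) ^ 2) := by
  have h2 := hasSum_geometric_of_lt_one h0 h1
  have h3 := hasSum_coe_mul_geometric_of_norm_lt_one (r := q)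
    (by rw [Real.norm_of_nonneg h0]; exact h1)
  have h4 := h2.add h3
  have e : (1 - q)⁻¹ + q / (1 - q) ^ 2 = 1 / (1 - q) ^ 2 := by
    have : 1 - q ≠ 0 := by linarith
    field_simp
    ring
  rw [e] at h4
  have e2 : (fun j : ℕ => (1 + (j:ℝ)) * q ^ j) = fun j : ℕ => q ^ j + (j:ℝ) * q ^ j := by
    funext j; ring
  rw [e2]
  exact h4

variable {α : ℝ} (hα : 0 < α)

/-- the constant of the sum over the strips -/
noncomputable def qc (α κ : ℝ) : ℝ := κ ^ (1 - α) / (1 - Real.exp (1 - α)) ^ 2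

theorem qc_pos {α κ : ℝ} (hα1 : 1 < α) (hκ : 0 < κ) : 0 < qc α κ := by
  unfold qc
  have h1 : Real.exp (1 - α) < 1 := by
    rw [Real.exp_lt_one_iff]; linarith
  have h2 : 0 < 1 - Real.exp (1 - α) := by linarith
  positivity

theorem strips (hα1 : 1 < α) {n : ℕ} (hn : 1 ≤ n) {κ : ℝ} (hκ : 1 ≤ κ) {E : Set ℂ} {y₀ h : ℝ}
    (hh : 0 ≤ h) (hE : ∀ y ∈ E, κ / n ≤ ‖Complex.exp y‖ ∧ |y.im - y₀| ≤ h) {A D : ℝ} (hA : 0 ≤ A)
    (hD : 1 ≤ D)
    (hloc : ∀ y ∈ E, Hc α hα (E ∩ ball y r0) ≤ ENNReal.ofReal (A * Wt α n D y)) :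
    Hc α hα E ≤ ENNReal.ofReal ((2 / r0 + 1) * (4 * h / r0 + 1) *
      (A * (2 + Real.log D + Real.log κ) * qc α κ)) := by
  have hn0 : (0:ℝ) < n := by exact_mod_cast hn
  have hr0 : 0 < r0 := by unfold r0; norm_num
  have hκ0 : 0 < κ := by linarith
  set q := Real.exp (1 - α) with hq
  have hq0 : 0 < q := Real.exp_pos _
  have hq1 : q < 1 := by rw [hq, Real.exp_lt_one_iff]; linarith
  have hlD : 0 ≤ Real.log D := Real.log_nonneg hD
  have hlκ : 0 ≤ Real.log κ := Real.log_nonneg hκ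
  set Λ := 2 + Real.log D + Real.log κ with hΛ
  have hΛ2 : 2 ≤ Λ := by rw [hΛ]; linarith
  set b₀ := Real.log (κ / n) with hb₀
  set Ej : ℕ → Set ℂ := fun j => {y | y ∈ E ∧ b₀ + j ≤ y.re ∧ y.re ≤ b₀ + j + 1} with hEj
  have hcov : E ⊆ ⋃ j, Ej j := by
    intro y hy
    have h1 := (hE y hy).1
    rw [Complex.norm_exp] at h1
    have h2 : b₀ ≤ y.re := by
      rw [hb₀, Real.log_le_iff_le_exp (by positivity)]; exact h1
    have h3 := Nat.floor_le (sub_nonneg.2 h2)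
    have h4 := Nat.lt_floor_add_one (y.re - b₀)
    rw [mem_iUnion]
    exact ⟨⌊y.re - b₀⌋₊, hy, by linarith, by linarith⟩
  have hpiece : ∀ j, Hc α hα (Ej j) ≤ ENNReal.ofReal ((2 / r0 + 1) * (4 * h / r0 + 1) *
      (A * Λ * κ ^ (1 - α)) * ((1 + (j:ℝ)) * q ^ j)) := by
    intro j
    have h1 := cover (Hc α hα) (E := Ej j) (x₀ := b₀ + j + 1 / 2) (y₀ := y₀) (w := 1 / 2) (h := h)
      (r := r0) hr0 (by norm_num) hh (by
        rintro y ⟨hy, hy1, hy2⟩
        exact ⟨by rw [abs_le]; constructor <;> linarith, (hE y hy).2⟩)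
      (B := ENNReal.ofReal (A * (Λ * κ ^ (1 - α) * ((1 + (j:ℝ)) * q ^ j)))) (by
        rintro y ⟨hy, hy1, hy2⟩
        refine (measure_mono (inter_subset_inter_left _ fun z hz => hz.1)).trans
          ((hloc y hy).trans (ENNReal.ofReal_le_ofReal (mul_le_mul_of_nonneg_left ?_ hA)))
        -- the weight on the strip
        have hY : n * ‖Complex.exp y‖ = Real.exp (y.re - b₀) * κ := by
          rw [Complex.norm_exp, Real.exp_sub, hb₀, Real.exp_log (by positivity)]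
          field_simp
        have hY0 : 0 < n * ‖Complex.exp y‖ := by
          have := Complex.exp_ne_zero y
          positivity
        have hlogY : Real.log (n * ‖Complex.exp y‖) ≤ Real.log κ + j + 1 := by
          rw [hY, Real.log_mul (Real.exp_pos _).ne' hκ0.ne', Real.log_exp]
          linarith
        have hYl : κ * Real.exp j ≤ n * ‖Complex.exp y‖ := by
          rw [hY, mul_comm]
          exact mul_le_mul_of_nonneg_right (Real.exp_le_exp.2 (by linarith)) hκ0.le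
        have hpow : (n * ‖Complex.exp y‖) ^ (1 - α) ≤ κ ^ (1 - α) * q ^ j := by
          calc (n * ‖Complex.exp y‖) ^ (1 - α) ≤ (κ * Real.exp j) ^ (1 - α) :=
                Real.rpow_le_rpow_of_nonpos (by positivity) hYl (by linarith)
            _ = κ ^ (1 - α) * q ^ j := by
                rw [Real.mul_rpow hκ0.le (Real.exp_pos _).le, ← Real.exp_mul, hq,
                  ← Real.exp_nat_mul]
        have hlY0 : 0 ≤ Real.log (n * ‖Complex.exp y‖) := by
          apply Real.log_nonneg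
          have : 1 ≤ Real.exp j := Real.one_le_exp (Nat.cast_nonneg j)
          nlinarith
        unfold Wt
        calc (1 + Real.log D + Real.log (n * ‖Complex.exp y‖)) *
              (n * ‖Complex.exp y‖) ^ (1 - α) ≤ (Λ * (1 + (j:ℝ))) * (κ ^ (1 - α) * q ^ j) := by
                apply mul_le_mul _ hpow (by positivity) (by positivity)
                have hj : (0:ℝ) ≤ j := Nat.cast_nonneg j
                rw [hΛ]
                nlinarith
          _ = _ := by ring)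
    refine h1.trans (le_of_eq ?_)
    rw [← ENNReal.ofReal_mul (by positivity)]
    congr 1
    ring
  calc Hc α hα E ≤ Hc α hα (⋃ j, Ej j) := measure_mono hcov
    _ ≤ ∑' j, Hc α hα (Ej j) := measure_iUnion_le _
    _ ≤ ∑' j : ℕ, ENNReal.ofReal ((2 / r0 + 1) * (4 * h / r0 + 1) *
      (A * Λ * κ ^ (1 - α)) * ((1 + (j:ℝ)) * q ^ j)) := ENNReal.tsum_le_tsum hpiece
    _ = ENNReal.ofReal ((2 / r0 + 1) * (4 * h / r0 + 1) *
      (A * Λ * κ ^ (1 - α)) * (1 / (1 - q) ^ 2)) := by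
        have hs := (sum_geo hq0.le hq1).mul_left ((2 / r0 + 1) * (4 * h / r0 + 1) *
          (A * Λ * κ ^ (1 - α)))
        rw [← hs.tsum_eq, ENNReal.ofReal_tsum_of_nonneg (fun j => by positivity) hs.summable]
    _ = _ := by
        congr 1
        unfold qc
        ring

end Pool.Agent.Q79.MC
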