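import Mathlib
import Pool.Agent.Q79.McB

/-!
# The recursive inequality
-/

set_option autoImplicit false

open MeasureTheory Set Filter Topology Metric
open scoped ENNReal

namespace Pool.Agent.Q79.MC

open Pool.Agent.Q79.PW (Sim)
open Pool.Agent.Q79.HC (Hc Hc_ball Hc_expand cover Hc_le_diam)

variable {α : ℝ} (hα : 0 < α)

/-- the bound with constant `A` -/
def PA (n : ℕ) (κ ε A : ℝ) : Prop :=
  ∀ D : ℝ, 1 ≤ D → ∀ (x : ℂ) (s : ℂ → ℂ), κ / 2 ≤ n * ‖Complex.exp x‖ → Slow n s x →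
    Hc α hα (ES n κ ε D s x) ≤ ENNReal.ofReal (A * Wt α n D x)

/-- the constant of the deep part -/
noncomputable def K2 (ε : ℝ) : ℝ := 2048 + 512 * Real.log (1 / ε)

theorem numeric {α : ℝ} (hα1 : 1 < α) (hα2 : α ≤ 2) {κ ε A D Y a w : ℝ} (hκ : 1000 ≤ κ)
    (hε0 : 0 < ε) (hε1 : ε ≤ 1) (hA : 0 ≤ A) (hD : 1 ≤ D) (hY : κ ≤ Y) (ha1 : Y / 4 ≤ a) (ha2 : a ≤ 3 * Y)
    (hw : w = (Real.log κ + Real.log (4 * D * Y) - Real.log ε) / 2) (hw0 : 0 ≤ w) :
    ((a / 2)⁻¹) ^ α * ((2 / r0 + 1) * (4 * (3 / 64 * a * r0) / r0 + 1) *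
      (A * (2 + Real.log (4 * D * Y) + Real.log κ) * qc α κ) +
      (4 * w / 1 + 1) * (4 * (3 / 64 * a * r0) / 1 + 1) * 4) ≤
    (1 + Real.log D + Real.log Y) * Y ^ (1 - α) * (205056 * qc α κ * A + K2 ε) := by
  have hY0 : 0 < Y := by linarith
  have ha0 : 0 < a := by linarith
  have hκ0 : 0 < κ := by linarith
  have hr : r0 = 1 / 400 := rfl
  have hq := qc_pos hα1 hκ0
  set L := 1 + Real.log D + Real.log Y with hL
  have hlD : 0 ≤ Real.log D := Real.log_nonneg hD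
  have hlY : 0 ≤ Real.log Y := Real.log_nonneg (by linarith)
  have hlκ : Real.log κ ≤ Real.log Y := Real.log_le_log hκ0 hY
  have hlκ0 : 0 ≤ Real.log κ := Real.log_nonneg (by linarith)
  have hL1 : 1 ≤ L := by rw [hL]; linarith
  have hl4 : Real.log 4 ≤ 1.4 := by
    have h2 : Real.log 4 = 2 * Real.log 2 := by
      rw [show (4:ℝ) = 2 ^ 2 by norm_num, Real.log_pow]; norm_num
    have := Real.log_two_lt_d9
    rw [h2]; linarith
  have hlDh : Real.log (4 * D * Y) = Real.log 4 + Real.log D + Real.log Y := by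
    rw [Real.log_mul (by positivity) hY0.ne', Real.log_mul (by norm_num) (by positivity)]
  have hlDh0 : 0 ≤ Real.log (4 * D * Y) := Real.log_nonneg (by nlinarith)
  have e1 : ((a / 2)⁻¹) ^ α ≤ 64 * Y ^ (-α) := by
    have h1 : (a / 2)⁻¹ ≤ 8 / Y := by
      rw [inv_div, div_le_div_iff₀ ha0 hY0]; linarith
    calc ((a / 2)⁻¹) ^ α ≤ (8 / Y) ^ α := Real.rpow_le_rpow (by positivity) h1 (by linarith)
      _ = 8 ^ α * Y ^ (-α) := by
          rw [Real.div_rpow (by norm_num) hY0.le, Real.rpow_neg hY0.le]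
          rfl
      _ ≤ 64 * Y ^ (-α) := by
          apply mul_le_mul_of_nonneg_right _ (by positivity)
          calc (8:ℝ) ^ α ≤ 8 ^ (2:ℝ) := Real.rpow_le_rpow_of_exponent_le (by norm_num) hα2
            _ = 64 := by norm_num
  have e2 : (2 / r0 + 1) * (4 * (3 / 64 * a * r0) / r0 + 1) ≤ 801 * Y := by
    have h1 : 4 * (3 / 64 * a * r0) / r0 + 1 = 3 / 16 * a + 1 := by
      rw [hr]; ring
    rw [h1, hr]
    linarith
  have e3 : 2 + Real.log (4 * D * Y) + Real.log κ ≤ 4 * L := by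
    rw [hlDh, hL]; linarith
  have e4 : 4 * (3 / 64 * a * r0) / 1 + 1 ≤ Y := by
    rw [hr]; linarith
  have hl1 : 0 ≤ Real.log (1 / ε) := Real.log_nonneg (by
    rw [le_div_iff₀ hε0]; linarith)
  have e5 : 4 * w / 1 + 1 ≤ (8 + 2 * Real.log (1 / ε)) * L := by
    rw [hw, hlDh]
    rw [one_div, Real.log_inv] at hl1 ⊢
    have h2 : 0 ≤ (-Real.log ε) * (L - 1) := mul_nonneg hl1 (by linarith)
    rw [hL] at *
    nlinarith
  have e4' : 0 ≤ 4 * (3 / 64 * a * r0) / 1 + 1 := by rw [hr]; positivity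
  have e5' : 0 ≤ 4 * w / 1 + 1 := by positivity
  have hE2 : 0 ≤ 2 + Real.log (4 * D * Y) + Real.log κ := by linarith
  have h1 : (2 / r0 + 1) * (4 * (3 / 64 * a * r0) / r0 + 1) *
      (A * (2 + Real.log (4 * D * Y) + Real.log κ) * qc α κ) ≤
      (801 * Y) * (A * (4 * L) * qc α κ) := by
    apply mul_le_mul e2 _ (by positivity) (by positivity)
    exact mul_le_mul_of_nonneg_right (mul_le_mul_of_nonneg_left e3 hA) hq.le
  have h2 : (4 * w / 1 + 1) * (4 * (3 / 64 * a * r0) / 1 + 1) * 4 ≤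
      ((8 + 2 * Real.log (1 / ε)) * L) * Y * 4 := by
    apply mul_le_mul_of_nonneg_right _ (by norm_num)
    exact mul_le_mul e5 e4 e4' (by positivity)
  have hYY : Y ^ (1 - α) = Y * Y ^ (-α) := by
    rw [show 1 - α = 1 + -α by ring, Real.rpow_add hY0, Real.rpow_one]
  have h12 := add_le_add h1 h2
  calc _ ≤ (64 * Y ^ (-α)) * ((801 * Y) * (A * (4 * L) * qc α κ) +
        ((8 + 2 * Real.log (1 / ε)) * L) * Y * 4) := by
        apply mul_le_mul e1 h12 _ (by positivity)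
        have : 0 ≤ (2 / r0 + 1) * (4 * (3 / 64 * a * r0) / r0 + 1) := by rw [hr]; positivity
        have h3 : 0 ≤ (2 / r0 + 1) * (4 * (3 / 64 * a * r0) / r0 + 1) *
          (A * (2 + Real.log (4 * D * Y) + Real.log κ) * qc α κ) := by positivity
        positivity
    _ = L * Y ^ (1 - α) * (205056 * qc α κ * A + (2048 + 512 * Real.log (1 / ε))) := by
        rw [hYY]; ring

variable {n : ℕ} {κ ε A D : ℝ}

theorem key (hα1 : 1 < α) (hα2 : α ≤ 2) (hn : 2 ≤ n) (hκ : 1000 ≤ κ) (hκn : κ ≤ 4 * n)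
    (hε0 : 0 < ε) (hε1 : ε ≤ 1) (hA : 0 ≤ A) (hD : 1 ≤ D) (hP : PA hα n κ ε A)
    {x : ℂ} {s : ℂ → ℂ} (hs : Slow n s x) {t₀ : ℂ} (ht₀ : t₀ ∈ ES n κ ε D s x)
    (hv : 1 / 2 ≤ ‖Complex.exp t₀ + Complex.exp (s t₀)‖) :
    Hc α hα (ES n κ ε D s x ∩ ball t₀ (r0 / 32)) ≤
      ENNReal.ofReal (Wt α n D t₀ * (205056 * qc α κ * A + K2 ε)) := by
  have hn1 : 1 ≤ n := by omega
  have hn0 : (0:ℝ) < n := by exact_mod_cast hn1
  have hnr : (2:ℝ) ≤ n := by exact_mod_cast hn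
  have hr : r0 = 1 / 400 := rfl
  have hr0 : 0 < r0 := by rw [hr]; norm_num
  have hκ0 : 0 < κ := by linarith
  obtain ⟨hb₀, hX1, hBad⟩ := ht₀
  obtain ⟨hX4, hvp, hT4, hBad1⟩ := hBad.step hn1 hκ0 hX1
  set X₀ := Complex.exp t₀ with hX₀
  set c₀ := Complex.exp (s t₀) with hc₀
  have hTle : ‖T n c₀ X₀‖ ≤ 4 := by
    rcases le_or_gt (κ / n) ‖T n c₀ X₀‖ with h | h
    · exact hT4 h
    · have : κ / n ≤ 4 := by rw [div_le_iff₀ hn0]; exact hκn
      linarith
  have hv2 : ‖X₀ + c₀‖ ≤ 2 := by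
    by_contra hcon
    push Not at hcon
    unfold T at hTle
    rw [norm_pow] at hTle
    have h1 : ‖X₀ + c₀‖ ^ 2 ≤ ‖X₀ + c₀‖ ^ n := pow_le_pow_right₀ (by linarith) hn
    nlinarith
  have hc6 : ‖c₀‖ ≤ 6 := by
    have := norm_sub_le (X₀ + c₀) X₀
    rw [add_sub_cancel_left] at this
    linarith
  set Y := (n:ℝ) * ‖X₀‖ with hY
  have hκY : κ ≤ Y := by
    rw [div_le_iff₀ hn0] at hX1
    rw [hY]; linarith
  have hY0 : 0 < Y := by linarith
  obtain ⟨a, F, ha1, ha2, hF, hFe⟩ := hasSim hn1 hs hb₀ hX4 hc6 (by linarith) hv hv2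
  obtain ⟨Φ, hΦ1, hΦ2⟩ := hF.inverse
  have hap : 0 < ‖a‖ := hF.apos
  have ha250 : 250 ≤ ‖a‖ := by linarith
  set E := ES n κ ε D s x ∩ ball t₀ (r0 / 32) with hE
  have hEsub : E ⊆ ball t₀ r0 := fun t ht => ball_subset_ball (by linarith) ht.2
  have ht₀ρ : t₀ ∈ ball t₀ r0 := mem_ball_self hr0
  have hFE : ∀ t ∈ E, ‖F t - F t₀‖ ≤ 3 / 64 * ‖a‖ * r0 := by
    intro t ht
    have h1 := hF.upper (hEsub ht) ht₀ρ
    have h2 : ‖t - t₀‖ ≤ r0 / 32 := by
      have := ht.2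
      rw [mem_ball, dist_eq_norm] at this
      exact this.le
    have h3 : 3 / 2 * ‖a‖ * ‖t - t₀‖ ≤ 3 / 2 * ‖a‖ * (r0 / 32) :=
      mul_le_mul_of_nonneg_left h2 (by positivity)
    linarith
  set Dh : ℝ := 4 * D * Y with hDh
  have hDh1 : 1 ≤ Dh := by rw [hDh]; nlinarith
  -- the next step
  have hstep : ∀ t ∈ E, ‖Complex.exp (F t)‖ ≤ 4 ∧
      Bad n κ ε Dh (Complex.exp (s t)) (Complex.exp (F t)) := by
    intro t ht
    obtain ⟨h1, h2, h3, h4⟩ := near hn1 hs hb₀ hX4 hc6 (hEsub ht)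
    obtain ⟨g1, g2, g3, g4⟩ := ht.1.2.2.step hn1 hκ0 ht.1.2.1
    rw [hFe t (hEsub ht)]
    refine ⟨?_, g4.mono ?_⟩
    · rcases le_or_gt (κ / n) ‖T n (Complex.exp (s t)) (Complex.exp t)‖ with h | h
      · exact g3 h
      · have : κ / n ≤ 4 := by rw [div_le_iff₀ hn0]; exact hκn
        linarith
    · have h5 : 9 / 20 ≤ ‖Complex.exp t + Complex.exp (s t)‖ := by
        have h6 := norm_sub_le (Complex.exp t + Complex.exp (s t))
          ((Complex.exp t + Complex.exp (s t)) - (X₀ + c₀))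
        rw [sub_sub_cancel] at h6
        linarith
      have h7 : ‖Complex.exp t‖ ≤ (1 + 2 * r0) * ‖X₀‖ := by
        have h6 := norm_add_le (Complex.exp t - X₀) X₀
        rw [sub_add_cancel] at h6
        linarith
      have h8 : n * ‖Complex.exp t‖ / ‖Complex.exp t + Complex.exp (s t)‖ ≤ 4 * Y := by
        rw [div_le_iff₀ g2]
        have h9 : n * ‖Complex.exp t‖ ≤ n * ((1 + 2 * r0) * ‖X₀‖) :=
          mul_le_mul_of_nonneg_left h7 hn0.le
        have h10 : n * ((1 + 2 * r0) * ‖X₀‖) = (1 + 2 * r0) * Y := by rw [hY]; ring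
        have h11 : 4 * Y * (9 / 20) ≤ 4 * Y * ‖Complex.exp t + Complex.exp (s t)‖ :=
          mul_le_mul_of_nonneg_left h5 (by positivity)
        rw [h10, hr] at h9
        linarith
      calc D * (n * ‖Complex.exp t‖ / ‖Complex.exp t + Complex.exp (s t)‖) ≤ D * (4 * Y) :=
            mul_le_mul_of_nonneg_left h8 (by linarith)
        _ = Dh := by rw [hDh]; ring
  set h : ℝ := 3 / 64 * ‖a‖ * r0 with hh
  have hh0 : 0 ≤ h := by positivity
  set Eu : Set ℂ := {y | y ∈ F '' E ∧ κ / n ≤ ‖Complex.exp y‖} with hEu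
  set Ed : Set ℂ := {y | y ∈ F '' E ∧ ‖Complex.exp y‖ < κ / n} with hEd
  have him : ∀ y ∈ F '' E, |y.im - (F t₀).im| ≤ h := by
    rintro _ ⟨t, ht, rfl⟩
    rw [← Complex.sub_im]
    exact (Complex.abs_im_le_norm _).trans (hFE t ht)
  -- the upper part
  have hup : Hc α hα Eu ≤ ENNReal.ofReal ((2 / r0 + 1) * (4 * h / r0 + 1) *
      (A * (2 + Real.log Dh + Real.log κ) * qc α κ)) := by
    apply strips hα hα1 hn1 (by linarith) hh0 (fun y hy => ⟨hy.2, him y hy.1⟩) hA hDh1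
    rintro y ⟨⟨t₁, ht₁, rfl⟩, hy⟩
    have hball : ball (F t₁) (2 * r0) ⊆ ball (F t₀) (‖a‖ * r0 / 8) := by
      apply ball_subset_ball'
      rw [dist_eq_norm]
      have h1 := hFE t₁ ht₁
      rw [hh] at h1
      rw [hr] at *
      linarith
    have hslow : Slow n (s ∘ Φ) (F t₁) := by
      have hsmem : ∀ t ∈ ball t₀ r0, t ∈ ball x (2 * r0) := fun t ht =>
        (near hn1 hs hb₀ hX4 hc6 ht).1
      constructor
      · intro y hy
        obtain ⟨h1, -, h3, -⟩ := hΦ1 y (hball hy)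
        have h4 : DifferentiableAt ℂ s (Φ y) :=
          hs.d.differentiableAt (isOpen_ball.mem_nhds (hsmem _ h1))
        exact (h4.comp y h3).differentiableWithinAt
      · intro y hy
        obtain ⟨h1, -, h3, h4⟩ := hΦ1 y (hball hy)
        have h5 : DifferentiableAt ℂ s (Φ y) :=
          hs.d.differentiableAt (isOpen_ball.mem_nhds (hsmem _ h1))
        rw [deriv_comp y h5 h3, norm_mul]
        have h6 := hs.b _ (hsmem _ h1)
        have h7 : 2 / ‖a‖ ≤ 1 := by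
          rw [div_le_one (by linarith)]; linarith
        calc ‖deriv s (Φ y)‖ * ‖deriv Φ y‖ ≤ 1 / n * 1 :=
              mul_le_mul h6 (h4.trans h7) (norm_nonneg _) (by positivity)
          _ = _ := mul_one _
    refine le_trans (measure_mono ?_) (hP Dh hDh1 (F t₁) (s ∘ Φ) ?_ hslow)
    · rintro _ ⟨⟨⟨t₂, ht₂, rfl⟩, hy2⟩, hy3⟩
      have hΦF : Φ (F t₂) = t₂ := by
        apply hΦ2 t₂ (hEsub ht₂)
        exact hball (ball_subset_ball (by linarith) hy3)
      refine ⟨hy3, hy2, ?_⟩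
      rw [Function.comp_apply, hΦF]
      exact (hstep t₂ ht₂).2
    · have h1 : κ / n ≤ ‖Complex.exp (F t₁)‖ := hy
      rw [div_le_iff₀ hn0] at h1
      linarith
  -- the deep part
  set w : ℝ := (Real.log κ + Real.log Dh - Real.log ε) / 2 with hw
  have hlκ : 0 ≤ Real.log κ := Real.log_nonneg (by linarith)
  have hlDh : 0 ≤ Real.log Dh := Real.log_nonneg hDh1
  have hlε : Real.log ε ≤ 0 := Real.log_nonpos hε0.le hε1
  have hw0 : 0 ≤ w := by rw [hw]; linarith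
  have hdeep : Hc α hα Ed ≤ ENNReal.ofReal ((4 * w / 1 + 1) * (4 * h / 1 + 1) * 4) := by
    have h1 := cover (Hc α hα) (E := Ed) (x₀ := Real.log (κ / n) - w) (y₀ := (F t₀).im) (w := w)
      (h := h) (r := 1) one_pos hw0 hh0 (by
        rintro y ⟨hy1, hy2⟩
        refine ⟨?_, him y hy1⟩
        obtain ⟨t, ht, rfl⟩ := hy1
        have h2 := (hstep t ht).2.small hy2
        rw [Complex.norm_exp] at hy2 h2
        have h3 : (F t).re < Real.log (κ / n) := by
          rw [Real.lt_log_iff_exp_lt (by positivity)]; exact hy2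
        have h4 : Real.log (ε / (n * Dh)) < (F t).re := by
          rw [Real.log_lt_iff_lt_exp (by positivity), div_lt_iff₀ (by positivity)]
          linarith
        rw [Real.log_div hε0.ne' (by positivity), Real.log_mul hn0.ne' (by positivity)] at h4
        rw [Real.log_div hκ0.ne' hn0.ne'] at h3 ⊢
        rw [abs_le, hw]
        constructor <;> linarith)
      (B := ENNReal.ofReal 4) (by
        intro y _
        refine (Hc_ball hα (x := y) (ρ := 1) zero_le_one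
          (inter_subset_right.trans ball_subset_closedBall)).trans (ENNReal.ofReal_le_ofReal ?_)
        calc (2 * 1 : ℝ) ^ α ≤ (2 * 1 : ℝ) ^ (2:ℝ) :=
              Real.rpow_le_rpow_of_exponent_le (by norm_num) hα2
          _ = 4 := by norm_num)
    refine h1.trans (le_of_eq ?_)
    rw [← ENNReal.ofReal_mul (by positivity)]
  have hsplit : F '' E ⊆ Eu ∪ Ed := by
    intro y hy
    rcases le_or_gt (κ / n) ‖Complex.exp y‖ with h1 | h1
    · exact Or.inl ⟨hy, h1⟩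
    · exact Or.inr ⟨hy, h1⟩
  have hexp := Hc_expand hα (F := F) (E := E) (c := ‖a‖ / 2) (by linarith)
    fun y hy z hz => hF.lower (hEsub hy) (hEsub hz)
  have hq := qc_pos hα1 hκ0
  refine hexp.trans ?_
  calc ENNReal.ofReal (((‖a‖ / 2)⁻¹) ^ α) * Hc α hα (F '' E) ≤
        ENNReal.ofReal (((‖a‖ / 2)⁻¹) ^ α) * (Hc α hα Eu + Hc α hα Ed) :=
        mul_le_mul_right ((measure_mono hsplit).trans (measure_union_le _ _)) _
    _ ≤ ENNReal.ofReal (((‖a‖ / 2)⁻¹) ^ α) * (ENNReal.ofReal ((2 / r0 + 1) * (4 * h / r0 + 1) *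
      (A * (2 + Real.log Dh + Real.log κ) * qc α κ)) +
      ENNReal.ofReal ((4 * w / 1 + 1) * (4 * h / 1 + 1) * 4)) :=
        mul_le_mul_right (add_le_add hup hdeep) _
    _ = ENNReal.ofReal (((‖a‖ / 2)⁻¹) ^ α * ((2 / r0 + 1) * (4 * h / r0 + 1) *
      (A * (2 + Real.log Dh + Real.log κ) * qc α κ) +
      (4 * w / 1 + 1) * (4 * h / 1 + 1) * 4)) := by
        rw [← ENNReal.ofReal_add (by positivity) (by positivity),
          ← ENNReal.ofReal_mul (by positivity)]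
    _ ≤ _ := ENNReal.ofReal_le_ofReal
        (numeric hα1 hα2 hκ hε0 hε1 hA hD hκY ha1 ha2 hw hw0)

end Pool.Agent.Q79.MC
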