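import Mathlib
import Pool.Agent.Q79.McC

/-!
# The bound of the contents
-/

set_option autoImplicit false

open MeasureTheory Set Filter Topology Metric
open scoped ENNReal

namespace Pool.Agent.Q79.MC

open Pool.Agent.Q79.PW (Sim)
open Pool.Agent.Q79.HC (Hc Hc_ball Hc_expand cover Hc_le_diam)

variable {α : ℝ} (hα : 0 < α) {n : ℕ} {κ ε A D : ℝ}

theorem Wt_cmp (hα1 : 1 < α) (hα2 : α ≤ 2) (hn : 1 ≤ n) (hD : 1 ≤ D) {x t : ℂ}
    (hx : 1 ≤ n * ‖Complex.exp x‖) (ht : t ∈ ball x r0) : Wt α n D t ≤ 4 * Wt α n D x := by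
  have hn0 : (0:ℝ) < n := by exact_mod_cast hn
  have hr : r0 = 1 / 400 := rfl
  set Y := n * ‖Complex.exp x‖ with hY
  set Z := n * ‖Complex.exp t‖ with hZ
  have hY0 : 0 < Y := by linarith
  rw [mem_ball, dist_eq_norm] at ht
  have hre := Complex.abs_re_le_norm (t - x)
  rw [Complex.sub_re] at hre
  have hre2 := abs_le.1 (hre.trans ht.le)
  have hZY : Z = Y * Real.exp (t.re - x.re) := by
    rw [hZ, hY, Complex.norm_exp, Complex.norm_exp, mul_assoc, ← Real.exp_add]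
    congr 2
    ring
  have he1 : Real.exp (t.re - x.re) ≤ 2 := by
    have h1 := exp_sub_one_le (x := 1 / 400) (by norm_num) (by norm_num)
    have h2 : Real.exp (t.re - x.re) ≤ Real.exp (1 / 400) :=
      Real.exp_le_exp.2 (by rw [hr] at hre2; exact hre2.2)
    linarith
  have he2 : 1 / 2 ≤ Real.exp (t.re - x.re) := by
    have h1 := Real.add_one_le_exp (t.re - x.re)
    have := hre2.1
    rw [hr] at this
    linarith
  have hZ0 : 0 < Z := by rw [hZY]; positivity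
  have hZ1 : Y / 2 ≤ Z := by rw [hZY]; nlinarith
  have hZ2 : Z ≤ 2 * Y := by rw [hZY]; nlinarith
  have hlY : 0 ≤ Real.log Y := Real.log_nonneg hx
  have hlD : 0 ≤ Real.log D := Real.log_nonneg hD
  have hl : Real.log Z ≤ 1 + Real.log Y := by
    have h1 : Real.log Z ≤ Real.log (2 * Y) := Real.log_le_log hZ0 hZ2
    rw [Real.log_mul (by norm_num) hY0.ne'] at h1
    have := Real.log_two_lt_d9
    linarith
  have hp : Z ^ (1 - α) ≤ 2 * Y ^ (1 - α) := by
    calc Z ^ (1 - α) ≤ (Y / 2) ^ (1 - α) :=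
          Real.rpow_le_rpow_of_nonpos (by positivity) hZ1 (by linarith)
      _ = 2 ^ (α - 1) * Y ^ (1 - α) := by
          rw [Real.div_rpow hY0.le (by norm_num), show 1 - α = -(α - 1) by ring,
            Real.rpow_neg (by norm_num : (0:ℝ) ≤ 2)]
          field_simp
      _ ≤ 2 * Y ^ (1 - α) := by
          apply mul_le_mul_of_nonneg_right _ (by positivity)
          calc (2:ℝ) ^ (α - 1) ≤ 2 ^ (1:ℝ) :=
                Real.rpow_le_rpow_of_exponent_le (by norm_num) (by linarith)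
            _ = 2 := Real.rpow_one 2
  unfold Wt
  rw [← hY, ← hZ]
  calc (1 + Real.log D + Real.log Z) * Z ^ (1 - α) ≤
        (2 * (1 + Real.log D + Real.log Y)) * (2 * Y ^ (1 - α)) := by
        apply mul_le_mul (by linarith) hp (by positivity) (by linarith)
    _ = _ := by ring

theorem Wt_lower (_ : 1 < α) (hα2 : α ≤ 2) (hn : 1 ≤ n) (hD : 1 ≤ D) {x : ℂ}
    (hx : 1 ≤ n * ‖Complex.exp x‖) (hx5 : ‖Complex.exp x‖ ≤ 5) :
    (1 + Real.log D) / (5 * n) ≤ Wt α n D x := by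
  have hn0 : (0:ℝ) < n := by exact_mod_cast hn
  set Y := n * ‖Complex.exp x‖ with hY
  have hY0 : 0 < Y := by linarith
  have hY5 : Y ≤ 5 * n := by rw [hY]; nlinarith
  have hlY : 0 ≤ Real.log Y := Real.log_nonneg hx
  have hlD : 0 ≤ Real.log D := Real.log_nonneg hD
  have h1 : 1 / (5 * n) ≤ Y ^ (1 - α) := by
    calc 1 / (5 * n) ≤ 1 / Y := one_div_le_one_div_of_le hY0 hY5
      _ = Y ^ (-1 : ℝ) := by rw [Real.rpow_neg_one, one_div]
      _ ≤ Y ^ (1 - α) := Real.rpow_le_rpow_of_exponent_le hx (by linarith)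
  unfold Wt
  rw [← hY]
  calc (1 + Real.log D) / (5 * n) = (1 + Real.log D) * (1 / (5 * n)) := by ring
    _ ≤ (1 + Real.log D + Real.log Y) * Y ^ (1 - α) :=
        mul_le_mul (by linarith) h1 (by positivity) (by linarith)

theorem norm_le_five {x t : ℂ} (ht : t ∈ ball x r0) (h : ‖Complex.exp t‖ ≤ 4) :
    ‖Complex.exp x‖ ≤ 5 := by
  have hr : r0 = 1 / 400 := rfl
  rw [mem_ball, dist_eq_norm, norm_sub_rev] at ht
  have h1 := exp_diff (x := x) (y := t) (by rw [hr] at ht; linarith)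
  have h2 := norm_add_le (Complex.exp x - Complex.exp t) (Complex.exp t)
  rw [sub_add_cancel] at h2
  have h3 : 2 * ‖x - t‖ * ‖Complex.exp t‖ ≤ 2 * r0 * 4 :=
    mul_le_mul (by linarith) h (norm_nonneg _) (by rw [hr]; norm_num)
  rw [hr] at h3
  linarith

theorem content_small (_ : 1 < α) (x : ℂ) {E : Set ℂ} (hE : E ⊆ ball x r0) :
    Hc α hα E ≤ ENNReal.ofReal 1 := by
  have hr : r0 = 1 / 400 := rfl
  refine (Hc_ball hα (x := x) (ρ := r0) (by rw [hr]; norm_num)
    (hE.trans ball_subset_closedBall)).trans (ENNReal.ofReal_le_ofReal ?_)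
  apply Real.rpow_le_one (by rw [hr]; norm_num) (by rw [hr]; norm_num) hα.le

/-- the recursive inequality -/
theorem rec_step (hα1 : 1 < α) (hα2 : α ≤ 2) (hn : 2 ≤ n) (hκ : 1000 ≤ κ) (hκn : κ ≤ 4 * n)
    (hε0 : 0 < ε) (hε1 : ε ≤ 1) (hA : 0 ≤ A)
    (hnum : ∀ D : ℝ, 1 ≤ D → ε * 2 ^ (n - 1) < 4 * (n:ℝ) ^ 2 * D → n / 4 ≤ Real.log D)
    (hκ2 : (1 / 2 : ℝ) ^ n < κ / n) (hP : PA hα n κ ε A) :
    PA hα n κ ε (66564 * (205056 * qc α κ * A + K2 ε) + 20) := by
  intro D hD x s hx hs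
  have hn1 : 1 ≤ n := by omega
  have hn0 : (0:ℝ) < n := by exact_mod_cast hn1
  have hr : r0 = 1 / 400 := rfl
  have hr0 : 0 < r0 := by rw [hr]; norm_num
  have hκ0 : 0 < κ := by linarith
  have hx1 : 1 ≤ n * ‖Complex.exp x‖ := by linarith
  have hq := qc_pos hα1 hκ0
  have hK2 : 0 ≤ K2 ε := by
    unfold K2
    have : 0 ≤ Real.log (1 / ε) := Real.log_nonneg (by rw [le_div_iff₀ hε0]; linarith)
    linarith
  have hW0 : 0 ≤ Wt α n D x := by
    unfold Wt
    have h1 : 0 ≤ Real.log D := Real.log_nonneg hD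
    have h2 : 0 ≤ Real.log (n * ‖Complex.exp x‖) := Real.log_nonneg hx1
    positivity
  set E₁ : Set ℂ := {t | t ∈ ES n κ ε D s x ∧ 1 / 2 ≤ ‖Complex.exp t + Complex.exp (s t)‖} with hE₁
  set E₂ : Set ℂ := {t | t ∈ ES n κ ε D s x ∧ ‖Complex.exp t + Complex.exp (s t)‖ < 1 / 2} with hE₂
  have hsplit : ES n κ ε D s x ⊆ E₁ ∪ E₂ := by
    intro t ht
    rcases le_or_gt (1 / 2 : ℝ) ‖Complex.exp t + Complex.exp (s t)‖ with h | h
    · exact Or.inl ⟨ht, h⟩
    · exact Or.inr ⟨ht, h⟩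
  set Q := 205056 * qc α κ * A + K2 ε with hQ
  have hQ0 : 0 ≤ Q := by rw [hQ]; positivity
  have h1 : Hc α hα E₁ ≤ ENNReal.ofReal (66564 * Q * Wt α n D x) := by
    have h2 := cover (Hc α hα) (E := E₁) (x₀ := x.re) (y₀ := x.im) (w := r0) (h := r0)
      (r := r0 / 32) (by positivity) hr0.le hr0.le (by
        intro t ht
        have h3 := ht.1.1
        rw [mem_ball, dist_eq_norm] at h3
        constructor
        · rw [← Complex.sub_re]; exact (Complex.abs_re_le_norm _).trans h3.le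
        · rw [← Complex.sub_im]; exact (Complex.abs_im_le_norm _).trans h3.le)
      (B := ENNReal.ofReal (4 * Wt α n D x * Q)) (by
        intro t ht
        refine (measure_mono (inter_subset_inter_left _ fun z hz => hz.1)).trans
          ((key hα hα1 hα2 hn hκ hκn hε0 hε1 hA hD hP hs ht.1 ht.2).trans
            (ENNReal.ofReal_le_ofReal ?_))
        exact mul_le_mul_of_nonneg_right (Wt_cmp hα1 hα2 hn1 hD hx1 ht.1.1) hQ0)
    refine h2.trans (le_of_eq ?_)
    rw [← ENNReal.ofReal_mul (by rw [hr]; norm_num)]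
    congr 1
    rw [hr]
    ring
  have h2 : Hc α hα E₂ ≤ ENNReal.ofReal (20 * Wt α n D x) := by
    rcases E₂.eq_empty_or_nonempty with h0 | ⟨t, ht⟩
    · rw [h0, measure_empty]; exact zero_le
    refine (content_small hα hα1 x fun z hz => hz.1.1).trans (ENNReal.ofReal_le_ofReal ?_)
    obtain ⟨hb, hX, hBad⟩ := ht.1
    have h3 := hBad.pole hn1 hκ0 (by linarith) hX ht.2 hκ2
    have h4 := hnum D hD h3
    have h5 := Wt_lower hα1 hα2 hn1 hD hx1 (norm_le_five hb (hBad.step hn1 hκ0 hX).1)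
    have h6 : 1 / 20 ≤ (1 + Real.log D) / (5 * n) := by
      rw [div_le_div_iff₀ (by norm_num) (by positivity)]
      linarith
    linarith
  calc Hc α hα (ES n κ ε D s x) ≤ Hc α hα E₁ + Hc α hα E₂ :=
        (measure_mono hsplit).trans (measure_union_le _ _)
    _ ≤ ENNReal.ofReal (66564 * Q * Wt α n D x) + ENNReal.ofReal (20 * Wt α n D x) :=
        add_le_add h1 h2
    _ = _ := by
        rw [← ENNReal.ofReal_add (by positivity) (by positivity)]
        congr 1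
        ring

theorem PA_init (hα1 : 1 < α) (hα2 : α ≤ 2) (hn : 1 ≤ n) (hκ : 2 ≤ κ) : PA hα n κ ε (5 * n) := by
  intro D hD x s hx hs
  have hn0 : (0:ℝ) < n := by exact_mod_cast hn
  rcases (ES n κ ε D s x).eq_empty_or_nonempty with h0 | ⟨t, ht⟩
  · rw [h0, measure_empty]; exact zero_le
  refine (content_small hα hα1 x fun z hz => hz.1).trans (ENNReal.ofReal_le_ofReal ?_)
  obtain ⟨hb, hX, hBad⟩ := ht
  have h5 := Wt_lower hα1 hα2 hn hD (by linarith : 1 ≤ n * ‖Complex.exp x‖)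
    (norm_le_five hb (hBad.step hn (by linarith) hX).1)
  have h6 : 1 / (5 * (n:ℝ)) ≤ (1 + Real.log D) / (5 * n) := by
    apply div_le_div_of_nonneg_right _ (by positivity)
    have := Real.log_nonneg hD
    linarith
  have h7 : 5 * (n:ℝ) * (1 / (5 * n)) ≤ 5 * n * Wt α n D x :=
    mul_le_mul_of_nonneg_left (h6.trans h5) (by positivity)
  rwa [mul_one_div_cancel (by positivity)] at h7

theorem PA_mono (hκ : 2 ≤ κ) {A' : ℝ} (h : PA hα n κ ε A) (hA : A ≤ A') : PA hα n κ ε A' := by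
  intro D hD x s hx hs
  refine (h D hD x s hx hs).trans (ENNReal.ofReal_le_ofReal (mul_le_mul_of_nonneg_right hA ?_))
  unfold Wt
  have h1 : 0 ≤ Real.log D := Real.log_nonneg hD
  have h2 : 0 ≤ Real.log (n * ‖Complex.exp x‖) := Real.log_nonneg (by linarith)
  positivity

/-- the final bound -/
theorem PA_final (hα1 : 1 < α) (hα2 : α ≤ 2) (hn : 2 ≤ n) (hκ : 1000 ≤ κ) (hκn : κ ≤ 4 * n)
    (hε0 : 0 < ε) (hε1 : ε ≤ 1)
    (hnum : ∀ D : ℝ, 1 ≤ D → ε * 2 ^ (n - 1) < 4 * (n:ℝ) ^ 2 * D → n / 4 ≤ Real.log D)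
    (hκ2 : (1 / 2 : ℝ) ^ n < κ / n) (hq : 66564 * 205056 * qc α κ ≤ 1 / 2) :
    PA hα n κ ε (2 * (66564 * K2 ε + 20)) := by
  have hn1 : 1 ≤ n := by omega
  have hn0 : (0:ℝ) < n := by exact_mod_cast hn1
  have hK2 : 0 ≤ K2 ε := by
    unfold K2
    have : 0 ≤ Real.log (1 / ε) := Real.log_nonneg (by rw [le_div_iff₀ hε0]; linarith)
    linarith
  set c := 66564 * K2 ε + 20 with hc
  have hc0 : 0 ≤ c := by rw [hc]; positivity
  have hall : ∀ k : ℕ, PA hα n κ ε (2 * c + 5 * n * (1 / 2) ^ k) := by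
    intro k
    induction k with
    | zero =>
      refine PA_mono hα (by linarith) (PA_init hα hα1 hα2 hn1 (by linarith)) ?_
      rw [pow_zero]; linarith
    | succ k ih =>
      have hA0 : 0 ≤ 2 * c + 5 * n * (1 / 2) ^ k := by positivity
      refine PA_mono hα (by linarith) (rec_step hα hα1 hα2 hn hκ hκn hε0 hε1 hA0 hnum hκ2 ih) ?_
      have h1 : 66564 * 205056 * qc α κ * (2 * c + 5 * n * (1 / 2) ^ k) ≤
          1 / 2 * (2 * c + 5 * n * (1 / 2) ^ k) := mul_le_mul_of_nonneg_right hq hA0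
      rw [pow_succ]
      rw [hc] at *
      linarith
  intro D hD x s hx hs
  have ht : Tendsto (fun k : ℕ => ENNReal.ofReal ((2 * c + 5 * n * (1 / 2) ^ k) * Wt α n D x)) atTop
      (𝓝 (ENNReal.ofReal (2 * c * Wt α n D x))) := by
    apply ENNReal.tendsto_ofReal
    have h1 := (tendsto_pow_atTop_nhds_zero_of_lt_one (r := (1 / 2 : ℝ)) (by norm_num)
      (by norm_num)).const_mul (5 * (n:ℝ))
    have h2 := (h1.const_add (2 * c)).mul_const (Wt α n D x)
    rwa [mul_zero, add_zero] at h2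
  exact ge_of_tendsto' ht fun k => hall k D hD x s hx hs

end Pool.Agent.Q79.MC
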