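import Mathlib
import Pool.Agent.Q79.McD

/-!
# The contents of the sets of parameters
-/

set_option autoImplicit false

open MeasureTheory Set Filter Topology Metric
open scoped ENNReal

namespace Pool.Agent.Q79.MC

open Pool.Agent.Q79.PW (Sim)
open Pool.Agent.Q79.HC (Hc Hc_ball Hc_expand cover Hc_le_diam)

theorem num1 {ε : ℝ} (hε0 : 0 < ε) : ∃ n₀ : ℕ, ∀ n : ℕ, n₀ ≤ n →
    ∀ D : ℝ, 1 ≤ D → ε * 2 ^ (n - 1) < 4 * (n:ℝ) ^ 2 * D → n / 4 ≤ Real.log D := by
  obtain ⟨n₀, hn₀⟩ := exists_nat_ge ((6 - Real.log ε) / 0.24)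
  refine ⟨max 1 n₀, fun n hn D hD h => ?_⟩
  have hn1 : 1 ≤ n := (le_max_left _ _).trans hn
  have hn0 : (0:ℝ) < n := by exact_mod_cast hn1
  have h1 : (6 - Real.log ε) / 0.24 ≤ n := hn₀.trans (by exact_mod_cast (le_max_right _ _).trans hn)
  rw [div_le_iff₀ (by norm_num)] at h1
  have hl : Real.log (ε * 2 ^ (n - 1)) ≤ Real.log (4 * (n:ℝ) ^ 2 * D) :=
    Real.log_le_log (by positivity) h.le
  rw [Real.log_mul hε0.ne' (by positivity), Real.log_pow, Real.log_mul (by positivity)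
    (by positivity), Real.log_mul (by norm_num) (by positivity), Real.log_pow] at hl
  have h2 : ((n - 1 : ℕ) : ℝ) = n - 1 := by rw [Nat.cast_sub hn1, Nat.cast_one]
  rw [h2] at hl
  push_cast at hl
  have hl2 := Real.log_two_gt_d9
  have hl2' := Real.log_two_lt_d9
  have hl4 : Real.log 4 = 2 * Real.log 2 := by
    rw [show (4:ℝ) = 2 ^ 2 by norm_num, Real.log_pow]; norm_num
  have hlog : Real.log n ≤ n / 10 + 1.4 := by
    have h3 := Real.log_le_sub_one_of_pos (show 0 < (n:ℝ) / 10 by positivity)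
    rw [Real.log_div hn0.ne' (by norm_num)] at h3
    have h4 : Real.log 10 ≤ 2.4 := by
      have h5 : Real.log 10 ≤ Real.log 11 := Real.log_le_log (by norm_num) (by norm_num)
      have h6 : (10:ℝ) ≤ Real.exp 2.4 := by
        have h7 : Real.exp 2.4 = Real.exp 1 ^ 2 * Real.exp 0.4 := by
          rw [← Real.exp_nat_mul, ← Real.exp_add]; norm_num
        have h8 := Real.exp_one_gt_d9
        have h9 : (1.48:ℝ) ≤ Real.exp 0.4 := by
          have := Real.quadratic_le_exp_of_nonneg (x := 0.4) (by norm_num)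
          linarith
        rw [h7]
        nlinarith
      rw [Real.log_le_iff_le_exp (by norm_num)]
      exact h6
    linarith
  nlinarith

theorem num2 {κ : ℝ} (hκ : 1 ≤ κ) {n : ℕ} (hn : 1 ≤ n) : (1 / 2 : ℝ) ^ n < κ / n := by
  have hn0 : (0:ℝ) < n := by exact_mod_cast hn
  have h1 : (n:ℝ) < 2 ^ n := by exact_mod_cast Nat.lt_two_pow_self
  rw [one_div_pow, div_lt_div_iff₀ (by positivity) hn0]
  nlinarith

theorem exists_kappa {α : ℝ} (hα1 : 1 < α) : ∃ κ : ℝ, 1000 ≤ κ ∧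
    66564 * 205056 * qc α κ ≤ 1 / 2 := by
  have ht : Tendsto (fun κ : ℝ => 66564 * 205056 * qc α κ) atTop (𝓝 0) := by
    unfold qc
    have h := ((tendsto_rpow_neg_atTop (y := α - 1) (by linarith)).div_const
      ((1 - Real.exp (1 - α)) ^ 2)).const_mul (66564 * 205056)
    rw [zero_div, mul_zero] at h
    refine h.congr fun κ => ?_
    rw [neg_sub]
  obtain ⟨κ, h1, h2⟩ := ((ht.eventually_lt_const (show (0:ℝ) < 1 / 2 by norm_num)).and
    (eventually_ge_atTop 1000)).exists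
  exact ⟨κ, h2, h1.le⟩

/-- the bad parameters -/
def Cs (n : ℕ) (κ ε : ℝ) : Set ℂ := {c | c ≠ 0 ∧ ‖c‖ ≤ 2 ∧ Bad n κ ε 1 c (c ^ n)}

theorem log_lip {c c' : ℂ} (hc : c ≠ 0) (hc' : c' ≠ 0) (h : ‖c‖ ≤ 2) (h' : ‖c'‖ ≤ 2) :
    ‖c - c'‖ ≤ 2 * ‖Complex.log c - Complex.log c'‖ := by
  set u := Complex.log c with hu
  set u' := Complex.log c' with hu'
  have h1 : Complex.exp u = c := Complex.exp_log hc
  have h2 : Complex.exp u' = c' := Complex.exp_log hc'
  have hconv : Convex ℝ {z : ℂ | z.re ≤ Real.log 2} := convex_halfSpace_re_le (Real.log 2)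
  have hm : ∀ z : ℂ, ‖Complex.exp z‖ ≤ 2 → z ∈ {z : ℂ | z.re ≤ Real.log 2} := by
    intro z hz
    rw [Complex.norm_exp] at hz
    show z.re ≤ Real.log 2
    rw [Real.le_log_iff_exp_le (by norm_num)]
    exact hz
  have h3 := hconv.norm_image_sub_le_of_norm_deriv_le (f := Complex.exp) (C := 2) (x := u') (y := u)
    (fun z _ => Complex.differentiable_exp z) (fun z hz => by
      rw [Complex.deriv_exp, Complex.norm_exp]
      have hz' : z.re ≤ Real.log 2 := hz
      calc Real.exp z.re ≤ Real.exp (Real.log 2) := Real.exp_le_exp.2 hz'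
        _ = 2 := Real.exp_log (by norm_num)) (hm u' (by rw [h2]; exact h'))
    (hm u (by rw [h1]; exact h))
  rwa [h1, h2] at h3

variable {α : ℝ} (hα : 0 < α)

theorem Cs_le (hα1 : 1 < α) (hα2 : α ≤ 2) {n : ℕ} {κ ε : ℝ} (hn : 2 ≤ n) (hκ : 1000 ≤ κ)
    (hκn : κ ≤ 4 * n) (hε0 : 0 < ε) (hε1 : ε ≤ 1)
    (hnum : ∀ D : ℝ, 1 ≤ D → ε * 2 ^ (n - 1) < 4 * (n:ℝ) ^ 2 * D → n / 4 ≤ Real.log D)
    (hq : 66564 * 205056 * qc α κ ≤ 1 / 2) :
    Hc α hα (Cs n κ ε) ≤ ENNReal.ofReal (4 * (801 * 5200 * (2 * (66564 * K2 ε + 20) *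
      (2 + Real.log κ)) + (2 * (Real.log κ - Real.log ε) + 1) * 60) * (n:ℝ) ^ (1 - α)) := by
  have hn1 : 1 ≤ n := by omega
  have hn0 : (0:ℝ) < n := by exact_mod_cast hn1
  have hnr : (2:ℝ) ≤ n := by exact_mod_cast hn
  have hnc : (n:ℂ) ≠ 0 := by exact_mod_cast (by omega : n ≠ 0)
  have hκ0 : 0 < κ := by linarith
  have hr : r0 = 1 / 400 := rfl
  have hr0 : 0 < r0 := by rw [hr]; norm_num
  have hP := PA_final hα hα1 hα2 hn hκ hκn hε0 hε1 hnum (num2 (by linarith) hn1) hq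
  have hK2 : 0 ≤ K2 ε := by
    unfold K2
    have : 0 ≤ Real.log (1 / ε) := Real.log_nonneg (by rw [le_div_iff₀ hε0]; linarith)
    linarith
  set A := 2 * (66564 * K2 ε + 20) with hA
  have hA0 : 0 ≤ A := by rw [hA]; positivity
  have hlκ : 0 ≤ Real.log κ := Real.log_nonneg (by linarith)
  have hlε : Real.log ε ≤ 0 := Real.log_nonpos hε0.le hε1
  have hqc := qc_pos hα1 hκ0
  have hq1 : qc α κ ≤ 1 := by linarith
  set F : ℂ → ℂ := fun c => n * Complex.log c with hF
  have hexp := Hc_expand hα (F := F) (E := Cs n κ ε) (c := n / 2) (by positivity) (by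
    rintro c ⟨h1, h2, -⟩ c' ⟨h1', h2', -⟩
    have h3 := log_lip h1 h1' h2 h2'
    have e : ‖F c - F c'‖ = n * ‖Complex.log c - Complex.log c'‖ := by
      change ‖(n:ℂ) * Complex.log c - n * Complex.log c'‖ = _
      rw [← mul_sub, norm_mul, Complex.norm_natCast]
    rw [e]
    nlinarith)
  -- the image
  set E : Set ℂ := {τ | |τ.im| ≤ Real.pi * n ∧
    Bad n κ ε 1 (Complex.exp (τ / n)) (Complex.exp τ)} with hE
  have hsub : F '' Cs n κ ε ⊆ E := by
    rintro _ ⟨c, ⟨h1, h2, h3⟩, rfl⟩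
    have e1 : Complex.exp (F c / n) = c := by
      change Complex.exp (n * Complex.log c / n) = c
      rw [mul_div_cancel_left₀ _ hnc, Complex.exp_log h1]
    have e2 : Complex.exp (F c) = c ^ n := by
      change Complex.exp (n * Complex.log c) = c ^ n
      rw [Complex.exp_nat_mul, Complex.exp_log h1]
    refine ⟨?_, by rw [e1, e2]; exact h3⟩
    have e3 : (F c).im = n * (Complex.log c).im := by
      change ((n:ℂ) * Complex.log c).im = _
      rw [← Complex.ofReal_natCast, Complex.im_ofReal_mul]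
    rw [e3, abs_mul, abs_of_pos hn0, mul_comm]
    apply mul_le_mul_of_nonneg_right _ hn0.le
    rw [abs_le]
    exact ⟨(Complex.neg_pi_lt_log_im c).le, Complex.log_im_le_pi c⟩
  set Eu : Set ℂ := {τ | τ ∈ E ∧ κ / n ≤ ‖Complex.exp τ‖} with hEu
  set Ed : Set ℂ := {τ | τ ∈ E ∧ ‖Complex.exp τ‖ < κ / n} with hEd
  have hpi : Real.pi ≤ 3.15 := by have := Real.pi_lt_d2; linarith
  have hpi0 := Real.pi_pos
  have hup : Hc α hα Eu ≤ ENNReal.ofReal ((2 / r0 + 1) * (4 * (Real.pi * n) / r0 + 1) *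
      (A * (2 + Real.log 1 + Real.log κ) * qc α κ)) := by
    apply strips hα hα1 hn1 (by linarith) (y₀ := 0) (by positivity)
      (fun y hy => ⟨hy.2, by rw [sub_zero]; exact hy.1.1⟩) hA0 le_rfl
    rintro y ⟨hy1, hy2⟩
    have hslow : Slow n (fun τ => τ / n) y := by
      constructor
      · fun_prop
      · intro τ _
        simp
    refine le_trans (measure_mono ?_) (hP 1 le_rfl y (fun τ => τ / n) ?_ hslow)
    · rintro τ ⟨⟨h1, h2⟩, h3⟩
      exact ⟨h3, h2, h1.2⟩
    · rw [div_le_iff₀ hn0] at hy2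
      linarith
  set w : ℝ := (Real.log κ - Real.log ε) / 2 with hw
  have hw0 : 0 ≤ w := by rw [hw]; linarith
  have hdeep : Hc α hα Ed ≤
      ENNReal.ofReal ((4 * w / 1 + 1) * (4 * (Real.pi * n) / 1 + 1) * 4) := by
    have h1 := cover (Hc α hα) (E := Ed) (x₀ := Real.log (κ / n) - w) (y₀ := 0) (w := w)
      (h := Real.pi * n) (r := 1) one_pos hw0 (by positivity) (by
        rintro y ⟨hy1, hy2⟩
        refine ⟨?_, by rw [sub_zero]; exact hy1.1⟩
        have h2 := hy1.2.small hy2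
        rw [Complex.norm_exp] at hy2 h2
        have h3 : y.re < Real.log (κ / n) := by
          rw [Real.lt_log_iff_exp_lt (by positivity)]; exact hy2
        have h4 : Real.log (ε / (n * 1)) < y.re := by
          rw [Real.log_lt_iff_lt_exp (by positivity), div_lt_iff₀ (by positivity)]
          linarith
        rw [Real.log_div hε0.ne' (by positivity), mul_one] at h4
        rw [Real.log_div hκ0.ne' hn0.ne'] at h3 ⊢
        rw [abs_le, hw]
        constructor <;> linarith)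
      (B := ENNReal.ofReal 4) (by
        intro y _
        refine (Hc_ball hα (x := y) (ρ := 1) zero_le_one
          (inter_subset_right.trans ball_subset_closedBall)).trans (ENNReal.ofReal_le_ofReal ?_)
        calc (2 * 1 : ℝ) ^ α ≤ (2 * 1 : ℝ) ^ (2:ℝ) :=
              Real.rpow_le_rpow_of_exponent_le (by norm_num) hα2
          _ = 4 := by norm_num)
    refine h1.trans (le_of_eq ?_)
    rw [← ENNReal.ofReal_mul (by positivity)]
  have hsplit : E ⊆ Eu ∪ Ed := by
    intro y hy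
    rcases le_or_gt (κ / n) ‖Complex.exp y‖ with h1 | h1
    · exact Or.inl ⟨hy, h1⟩
    · exact Or.inr ⟨hy, h1⟩
  refine hexp.trans ?_
  calc ENNReal.ofReal (((n / 2 : ℝ)⁻¹) ^ α) * Hc α hα (F '' Cs n κ ε) ≤
        ENNReal.ofReal (((n / 2 : ℝ)⁻¹) ^ α) * (Hc α hα Eu + Hc α hα Ed) :=
        mul_le_mul_right ((measure_mono (hsub.trans hsplit)).trans (measure_union_le _ _)) _
    _ ≤ ENNReal.ofReal (((n / 2 : ℝ)⁻¹) ^ α) * (ENNReal.ofReal ((2 / r0 + 1) *
        (4 * (Real.pi * n) / r0 + 1) * (A * (2 + Real.log 1 + Real.log κ) * qc α κ)) +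
        ENNReal.ofReal ((4 * w / 1 + 1) * (4 * (Real.pi * n) / 1 + 1) * 4)) :=
        mul_le_mul_right (add_le_add hup hdeep) _
    _ = ENNReal.ofReal (((n / 2 : ℝ)⁻¹) ^ α * ((2 / r0 + 1) *
        (4 * (Real.pi * n) / r0 + 1) * (A * (2 + Real.log 1 + Real.log κ) * qc α κ) +
        (4 * w / 1 + 1) * (4 * (Real.pi * n) / 1 + 1) * 4)) := by
        rw [Real.log_one, add_zero]
        rw [← ENNReal.ofReal_add (by positivity) (by positivity),
          ← ENNReal.ofReal_mul (by positivity)]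
    _ ≤ _ := by
        apply ENNReal.ofReal_le_ofReal
        rw [Real.log_one, add_zero]
        have e1 : ((n / 2 : ℝ)⁻¹) ^ α ≤ 4 * (n:ℝ) ^ (-α) := by
          rw [inv_div, Real.div_rpow (by norm_num) hn0.le, Real.rpow_neg hn0.le, ← div_eq_mul_inv]
          apply div_le_div_of_nonneg_right _ (by positivity)
          calc (2:ℝ) ^ α ≤ 2 ^ (2:ℝ) := Real.rpow_le_rpow_of_exponent_le (by norm_num) hα2
            _ = 4 := by norm_num
        have e2 : (2 / r0 + 1) * (4 * (Real.pi * n) / r0 + 1) ≤ 801 * 5200 * n := by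
          rw [hr]
          nlinarith
        have e3 : 4 * (Real.pi * n) / 1 + 1 ≤ 15 * n := by nlinarith
        have h1 : (2 / r0 + 1) * (4 * (Real.pi * n) / r0 + 1) *
            (A * (2 + Real.log κ) * qc α κ) ≤ 801 * 5200 * n * (A * (2 + Real.log κ)) := by
          apply mul_le_mul e2 _ (by positivity) (by positivity)
          exact mul_le_of_le_one_right (by positivity) hq1
        have h2 : (4 * w / 1 + 1) * (4 * (Real.pi * n) / 1 + 1) * 4 ≤
            (2 * (Real.log κ - Real.log ε) + 1) * (15 * n) * 4 := by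
          have e4 : 4 * w / 1 + 1 = 2 * (Real.log κ - Real.log ε) + 1 := by rw [hw]; ring
          rw [e4]
          apply mul_le_mul_of_nonneg_right _ (by norm_num)
          exact mul_le_mul_of_nonneg_left e3 (by linarith)
        have hnn : (n:ℝ) ^ (1 - α) = n * (n:ℝ) ^ (-α) := by
          rw [show 1 - α = 1 + -α by ring, Real.rpow_add hn0, Real.rpow_one]
        calc _ ≤ 4 * (n:ℝ) ^ (-α) * (801 * 5200 * n * (A * (2 + Real.log κ)) +
              (2 * (Real.log κ - Real.log ε) + 1) * (15 * n) * 4) := by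
              apply mul_le_mul e1 (add_le_add h1 h2) _ (by positivity)
              positivity
          _ = _ := by rw [hnn]; ring

/-- **the content of the bad parameters** -/
theorem Cs_content (hα1 : 1 < α) (hα2 : α ≤ 2) {ε : ℝ} (hε0 : 0 < ε) (hε1 : ε ≤ 1) :
    ∃ (κ C : ℝ) (n₀ : ℕ), 1000 ≤ κ ∧ 0 < C ∧ ∀ n : ℕ, n₀ ≤ n →
      Hc α hα (Cs n κ ε) ≤ ENNReal.ofReal (C * (n:ℝ) ^ (1 - α)) := by
  obtain ⟨κ, hκ, hq⟩ := exists_kappa hα1
  obtain ⟨n₁, hn₁⟩ := num1 hε0
  obtain ⟨n₂, hn₂⟩ := exists_nat_ge κ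
  have hK2 : 0 ≤ K2 ε := by
    unfold K2
    have : 0 ≤ Real.log (1 / ε) := Real.log_nonneg (by rw [le_div_iff₀ hε0]; linarith)
    linarith
  have hlκ : 0 ≤ Real.log κ := Real.log_nonneg (by linarith)
  have hlε : 0 ≤ Real.log κ - Real.log ε := by
    have := Real.log_nonpos hε0.le hε1
    linarith
  refine ⟨κ, 4 * (801 * 5200 * (2 * (66564 * K2 ε + 20) *
      (2 + Real.log κ)) + (2 * (Real.log κ - Real.log ε) + 1) * 60), max 2 (max n₁ n₂), hκ,
      by positivity, fun n hn => ?_⟩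
  have g0 : 2 ≤ n := (le_max_left _ _).trans hn
  have g1 : n₁ ≤ n := ((le_max_left _ _).trans (le_max_right _ _)).trans hn
  have g2 : n₂ ≤ n := ((le_max_right _ _).trans (le_max_right _ _)).trans hn
  have hκn : κ ≤ n := hn₂.trans (by exact_mod_cast g2)
  exact Cs_le hα hα1 hα2 g0 hκ (by linarith) hε0 hε1 (hn₁ n g1) hq

end Pool.Agent.Q79.MC
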