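import Mathlib
import Pool.Prelude.Def_F_c31e40fa
import Pool.Agent.Q79.McE

/-!
# A criterion for attracting cycles
-/

set_option autoImplicit false

open MeasureTheory Set Filter Topology Metric
open scoped ENNReal

namespace Pool.Agent.Q79.MC

open N62a1eb23 (IsAttractingCycle multibrotSet)

/-- the unicritical polynomial -/
def f (n : ℕ) (c : ℂ) : ℂ → ℂ := fun z => z ^ n + c

theorem diff_f (n : ℕ) (c : ℂ) : Differentiable ℂ (f n c) := by
  unfold f; fun_prop

/-- a contraction has an attracting fixed point -/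
theorem contraction {g : ℂ → ℂ} (hg : Differentiable ℂ g) {c : ℂ} {R : ℝ} (hR : 0 < R)
    (h : ∀ z : ℂ, ‖z - c‖ ≤ R → ‖g z - c‖ ≤ R / 4) :
    ∃ z, g z = z ∧ ‖deriv g z‖ < 1 := by
  have hder : ∀ w ∈ closedBall c (R / 2), ‖deriv g w‖ ≤ 1 / 2 := by
    intro w hw
    rw [mem_closedBall, dist_eq_norm] at hw
    have h1 := Complex.norm_deriv_le_of_forall_mem_sphere_norm_le (f := fun z => g z - c) (c := w)
      (R := R / 2) (C := R / 4) (by positivity)
      ((hg.sub_const c).diffContOnCl) (fun z hz => by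
        apply h
        rw [mem_sphere, dist_eq_norm] at hz
        calc ‖z - c‖ = ‖(z - w) + (w - c)‖ := by congr 1; ring
          _ ≤ _ := norm_add_le _ _
          _ ≤ R := by linarith)
    rw [deriv_sub_const] at h1
    refine h1.trans (le_of_eq ?_)
    field_simp
    norm_num
  have hmaps : MapsTo g (closedBall c (R / 2)) (closedBall c (R / 2)) := by
    intro w hw
    rw [mem_closedBall, dist_eq_norm] at *
    exact (h w (by linarith)).trans (by linarith)
  have hcw : ContractingWith (1 / 2 : NNReal) (hmaps.restrict g _ _) := by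
    refine ⟨by norm_num, LipschitzWith.of_dist_le_mul ?_⟩
    rintro ⟨w, hw⟩ ⟨w', hw'⟩
    rw [Subtype.dist_eq, Subtype.dist_eq, dist_eq_norm, dist_eq_norm]
    have := (convex_closedBall c (R / 2)).norm_image_sub_le_of_norm_deriv_le
      (fun y _ => hg.differentiableAt) hder hw' hw
    simpa using this
  obtain ⟨x, hx, hxf, -, -⟩ := hcw.exists_fixedPoint' isClosed_closedBall.isComplete hmaps
    (mem_closedBall_self (by positivity : 0 ≤ R / 2)) (edist_ne_top _ _)
  exact ⟨x, hxf, (hder x hx).trans_lt (by norm_num)⟩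

theorem att_of {n : ℕ} {c : ℂ} {k : ℕ} (hk : 0 < k) {z : ℂ} (h1 : (f n c)^[k] z = z)
    (h2 : ‖deriv ((f n c)^[k]) z‖ < 1) : ∃ m z, IsAttractingCycle (fun z => z ^ n + c) m z :=
  ⟨k, z, hk, h1, ((diff_f n c).iterate k).differentiableAt, h2⟩

theorem T_iter (n : ℕ) (c : ℂ) (j : ℕ) : (T n c)^[j] (c ^ n) = ((f n c)^[j] c) ^ n := by
  induction j with
  | zero => rfl
  | succ j ih =>
    rw [Function.iterate_succ_apply', ih, Function.iterate_succ_apply']
    rfl

theorem iter_zero {n : ℕ} (hn : 1 ≤ n) (c : ℂ) (j : ℕ) : (f n c)^[j + 1] 0 = (f n c)^[j] c := by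
  rw [Function.iterate_succ_apply]
  unfold f
  rw [zero_pow (by omega), zero_add]

/-- the critical point is periodic -/
theorem super {n : ℕ} (hn : 2 ≤ n) {c : ℂ} {j : ℕ} (h : (f n c)^[j] c = 0) :
    ∃ m z, IsAttractingCycle (fun z => z ^ n + c) m z := by
  refine att_of (k := j + 1) (z := 0) (by omega) (by rw [iter_zero (by omega), h]) ?_
  have h1 : HasDerivAt (f n c) 0 0 := by
    have h2 : HasDerivAt (fun z : ℂ => z ^ n + c) (n * 0 ^ (n - 1)) 0 :=
      (hasDerivAt_pow n (0:ℂ)).add_const c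
    rw [zero_pow (by omega), mul_zero] at h2
    exact h2
  have h3 : HasDerivAt ((f n c)^[j + 1]) (deriv ((f n c)^[j]) (f n c 0) * 0) 0 := by
    rw [Function.iterate_succ]
    exact (((diff_f n c).iterate j).differentiableAt.hasDerivAt).comp 0 h1
  rw [h3.deriv, mul_zero, norm_zero]
  exact one_pos

theorem pow_diff {n : ℕ} {z z' : ℂ} (hz : z ≠ 0) :
    ‖z' ^ n - z ^ n‖ ≤ ‖z ^ n‖ * (n * ‖z' - z‖ / ‖z‖ * Real.exp (n * ‖z' - z‖ / ‖z‖)) ∧
    ‖z' ^ n‖ ≤ ‖z ^ n‖ * Real.exp (n * ‖z' - z‖ / ‖z‖) := by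
  set y := (z' - z) / z with hy
  have hz' : z' = z * (1 + y) := by rw [hy]; field_simp; ring
  have hny : n * ‖z' - z‖ / ‖z‖ = n * ‖y‖ := by rw [hy, norm_div]; ring
  rw [hny]
  have h1 := Finset.norm_prod_one_add_sub_one_le (Finset.range n) (fun _ => y)
  rw [Finset.prod_const, Finset.sum_const, Finset.card_range, nsmul_eq_mul] at h1
  have hx : 0 ≤ n * ‖y‖ := by positivity
  have h2 : Real.exp (n * ‖y‖) - 1 ≤ n * ‖y‖ * Real.exp (n * ‖y‖) := by
    have h3 := Real.add_one_le_exp (-(n * ‖y‖))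
    rw [Real.exp_neg] at h3
    have h4 := Real.exp_pos (n * ‖y‖)
    have h5 : (-(n * ‖y‖) + 1) * Real.exp (n * ‖y‖) ≤ 1 := by
      calc (-(n * ‖y‖) + 1) * Real.exp (n * ‖y‖) ≤
            (Real.exp (n * ‖y‖))⁻¹ * Real.exp (n * ‖y‖) := mul_le_mul_of_nonneg_right h3 h4.le
        _ = 1 := inv_mul_cancel₀ h4.ne'
    linarith
  constructor
  · have e : z' ^ n - z ^ n = z ^ n * ((1 + y) ^ n - 1) := by rw [hz', mul_pow]; ring
    rw [e, norm_mul]
    exact mul_le_mul_of_nonneg_left (h1.trans h2) (norm_nonneg _)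
  · rw [hz', mul_pow, norm_mul]
    apply mul_le_mul_of_nonneg_left _ (norm_nonneg _)
    have h6 := norm_add_le ((1 + y) ^ n - 1) 1
    rw [sub_add_cancel, norm_one] at h6
    linarith

/-- **the criterion** -/
theorem crit {n : ℕ} (hn : 20 ≤ n) {κ : ℝ} (hκ : 1000 ≤ κ) {c : ℂ} (hc : c ≠ 0)
    (hz2 : ∀ j : ℕ, ‖(f n c)^[j] c‖ ≤ 2) (hz4 : ∀ j : ℕ, ‖((f n c)^[j] c) ^ n‖ ≤ 4)
    (hbad : ¬ Bad n κ (1 / 1000) 1 c (c ^ n)) :
    ∃ m z, IsAttractingCycle (fun z => z ^ n + c) m z := by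
  classical
  have hn1 : 1 ≤ n := by omega
  have hn0 : (0:ℝ) < n := by exact_mod_cast hn1
  have hκ0 : 0 < κ := by linarith
  unfold Bad Rg at hbad
  simp only [T_iter] at hbad
  push Not at hbad
  obtain ⟨⟨j₀, hj₀⟩, hbad2⟩ := hbad
  have hex : ∃ k : ℕ, ‖((f n c)^[k] c) ^ n‖ < κ / n := by
    refine ⟨j₀, ?_⟩
    by_contra hcon
    push Not at hcon
    exact absurd (hz4 j₀) (not_le.2 (hj₀ hcon))
  set k := Nat.find hex with hk
  have hk1 : ‖((f n c)^[k] c) ^ n‖ < κ / n := Nat.find_spec hex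
  have hk2 : ∀ j < k, κ / n ≤ ‖((f n c)^[j] c) ^ n‖ := fun j hj => by
    have := Nat.find_min hex hj
    push Not at this
    exact this
  have hmain := hbad2 k (fun j hj => ⟨hk2 j hj, hz4 j⟩) hk1
  set z : ℕ → ℂ := fun j => (f n c)^[j] c with hz
  have hzs : ∀ j, z (j + 1) = z j ^ n + c := fun j => by
    rw [hz]; simp only [Function.iterate_succ_apply']; rfl
  by_cases hzero : ∃ j, z j = 0
  · obtain ⟨j, hj⟩ := hzero
    exact super (by omega) hj
  push Not at hzero
  have hzp : ∀ j, 0 < ‖z j‖ := fun j => norm_pos_iff.2 (hzero j)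
  -- the expansion factors
  set a : ℕ → ℝ := fun j => n * ‖z j ^ n‖ / ‖z (j + 1)‖ with ha
  have ha2 : ∀ j < k, 2 ≤ a j := by
    intro j hj
    have h1 := hk2 j hj
    rw [div_le_iff₀ hn0] at h1
    have h2 : ‖z (j + 1)‖ ≤ 2 := hz2 (j + 1)
    change 2 ≤ n * ‖z j ^ n‖ / ‖z (j + 1)‖
    rw [le_div_iff₀ (hzp _)]
    have h3 : κ ≤ ‖z j ^ n‖ * n := h1
    linarith
  set D : ℕ → ℝ := fun j => ∏ i ∈ Finset.Ico j k, a i with hD
  have hDk : D k = 1 := by rw [hD]; simp
  have hDs : ∀ j < k, D j = a j * D (j + 1) := by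
    intro j hj
    rw [hD]
    exact Finset.prod_eq_prod_Ico_succ_bot hj _
  have ha0 : ∀ j, 0 ≤ a j := fun j => by
    change 0 ≤ n * ‖z j ^ n‖ / ‖z (j + 1)‖
    positivity
  have hDpow : ∀ i : ℕ, i ≤ k → (2:ℝ) ^ i ≤ D (k - i) := by
    intro i
    induction i with
    | zero => intro _; rw [Nat.sub_zero, hDk, pow_zero]
    | succ i ih =>
      intro hi
      have h1 := ih (by omega)
      rw [hDs (k - (i + 1)) (by omega), show k - (i + 1) + 1 = k - i by omega, pow_succ, mul_comm]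
      exact mul_le_mul (ha2 _ (by omega)) h1 (by positivity) (ha0 _)
  have hD1 : ∀ j ≤ k, (2:ℝ) ^ (k - j) ≤ D j := by
    intro j hj
    have := hDpow (k - j) (by omega)
    rwa [show k - (k - j) = j by omega] at this
  have hDp : ∀ j ≤ k, 0 < D j := fun j hj => lt_of_lt_of_le (by positivity) (hD1 j hj)
  -- the condition
  have hcond : n * D 0 * ‖z k ^ n‖ ≤ 1 / 1000 := by
    have h1 : D 0 = (∏ j ∈ Finset.range k, (n * ‖z j ^ n‖)) /
        ∏ j ∈ Finset.range k, ‖z j ^ n + c‖ := by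
      rw [hD]
      simp only [Nat.Ico_zero_eq_range]
      rw [← Finset.prod_div_distrib]
      apply Finset.prod_congr rfl
      intro j _
      change n * ‖z j ^ n‖ / ‖z (j + 1)‖ = _
      rw [hzs]
    have hpp : 0 < ∏ j ∈ Finset.range k, ‖z j ^ n + c‖ := by
      apply Finset.prod_pos
      intro j _
      rw [← hzs]
      exact hzp _
    rw [h1]
    have h2 : n * 1 * (∏ j ∈ Finset.range k, (n * ‖z j ^ n‖)) * ‖z k ^ n‖ ≤
        1 / 1000 * ∏ j ∈ Finset.range k, ‖z j ^ n + c‖ := hmain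
    rw [mul_div_assoc', div_mul_eq_mul_div, div_le_iff₀ hpp]
    linarith
  have hD0 : 0 < D 0 := hDp 0 (Nat.zero_le _)
  set ρ : ℝ := 1 / 20 / (n * D 0) * ‖c‖ with hρ
  have hcp : 0 < ‖c‖ := norm_pos_iff.2 hc
  have hρ0 : 0 < ρ := by rw [hρ]; positivity
  -- the estimate along the orbit
  have horb : ∀ w : ℂ, ‖w - c‖ ≤ ρ → ∀ j ≤ k,
      n * ‖(f n c)^[j] w - z j‖ / ‖z j‖ * D j ≤
        1 / 20 * Real.exp (1 / 5 * (1 / 2) ^ (k - j + 1)) := by
    intro w hw j
    induction j with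
    | zero =>
      intro _
      have h1 : n * ‖w - c‖ / ‖c‖ * D 0 ≤ 1 / 20 := by
        rw [div_mul_eq_mul_div, div_le_iff₀ hcp]
        calc n * ‖w - c‖ * D 0 ≤ n * ρ * D 0 := by
              apply mul_le_mul_of_nonneg_right _ hD0.le
              exact mul_le_mul_of_nonneg_left hw hn0.le
          _ = 1 / 20 * ‖c‖ := by rw [hρ]; field_simp
      refine le_trans h1 ?_
      have : 1 ≤ Real.exp (1 / 5 * (1 / 2) ^ (k - 0 + 1)) := Real.one_le_exp (by positivity)
      linarith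
    | succ j ih =>
      intro hj
      have h1 := ih (by omega)
      set x : ℝ := n * ‖(f n c)^[j] w - z j‖ / ‖z j‖ with hx
      have hx0 : 0 ≤ x := by rw [hx]; positivity
      have hexp1 : Real.exp (1 / 5 * (1 / 2) ^ (k - j + 1)) ≤ 2 := by
        have h2 : (1 / 2 : ℝ) ^ (k - j + 1) ≤ 1 := pow_le_one₀ (by norm_num) (by norm_num)
        have h3 := exp_sub_one_le (x := 1 / 5 * (1 / 2) ^ (k - j + 1)) (by positivity)
          (by linarith)
        linarith
      have hxs : x ≤ 1 / 10 * (1 / 2) ^ (k - j) := by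
        have h2 := hD1 j (by omega)
        have h3 : x * 2 ^ (k - j) ≤ 1 / 10 := by
          have := mul_le_mul_of_nonneg_left h2 hx0
          linarith
        have h4 : (0:ℝ) < 2 ^ (k - j) := by positivity
        have h5 : (1 / 2 : ℝ) ^ (k - j) * 2 ^ (k - j) = 1 := by rw [← mul_pow]; norm_num
        by_contra hcon
        push Not at hcon
        have := mul_lt_mul_of_pos_right hcon h4
        have e : 1 / 10 * (1 / 2 : ℝ) ^ (k - j) * 2 ^ (k - j) = 1 / 10 := by
          rw [mul_assoc, h5, mul_one]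
        linarith
      have hstep := (pow_diff (n := n) (z' := (f n c)^[j] w) (hzero j)).1
      have hnext : n * ‖(f n c)^[j + 1] w - z (j + 1)‖ / ‖z (j + 1)‖ ≤ a j * x * Real.exp x := by
        have e : (f n c)^[j + 1] w - z (j + 1) = ((f n c)^[j] w) ^ n - z j ^ n := by
          rw [hzs, Function.iterate_succ_apply']
          unfold f
          ring
        rw [e]
        have h6 : n * ‖((f n c)^[j] w) ^ n - z j ^ n‖ / ‖z (j + 1)‖ ≤
            n * (‖z j ^ n‖ * (x * Real.exp x)) / ‖z (j + 1)‖ := by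
          apply div_le_div_of_nonneg_right _ (hzp _).le
          exact mul_le_mul_of_nonneg_left hstep hn0.le
        refine h6.trans (le_of_eq ?_)
        change _ = n * ‖z j ^ n‖ / ‖z (j + 1)‖ * x * Real.exp x
        ring
      have hD0' := (hDp (j + 1) hj).le
      calc n * ‖(f n c)^[j + 1] w - z (j + 1)‖ / ‖z (j + 1)‖ * D (j + 1) ≤
            a j * x * Real.exp x * D (j + 1) := mul_le_mul_of_nonneg_right hnext hD0'
        _ = (x * D j) * Real.exp x := by rw [hDs j (by omega)]; ring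
        _ ≤ (1 / 20 * Real.exp (1 / 5 * (1 / 2) ^ (k - j + 1))) *
            Real.exp (1 / 10 * (1 / 2) ^ (k - j)) :=
            mul_le_mul h1 (Real.exp_le_exp.2 hxs) (Real.exp_pos _).le (by positivity)
        _ = 1 / 20 * Real.exp (1 / 5 * (1 / 2) ^ (k - (j + 1) + 1)) := by
            rw [mul_assoc, ← Real.exp_add]
            congr 2
            rw [show k - (j + 1) + 1 = k - j by omega, pow_succ]
            ring
  -- the return
  have hret : ∀ w : ℂ, ‖w - c‖ ≤ ρ → ‖(f n c)^[k + 1] w - c‖ ≤ 2 * ‖z k ^ n‖ := by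
    intro w hw
    have h1 := horb w hw k le_rfl
    rw [hDk, mul_one, Nat.sub_self, zero_add, pow_one] at h1
    set x : ℝ := n * ‖(f n c)^[k] w - z k‖ / ‖z k‖ with hx
    have hx0 : 0 ≤ x := by rw [hx]; positivity
    have h2 := exp_sub_one_le (x := 1 / 5 * (1 / 2)) (by norm_num) (by norm_num)
    have h3 : x ≤ 1 / 10 := by linarith
    have h4 : Real.exp x ≤ 2 := by
      have := exp_sub_one_le hx0 (by linarith)
      linarith
    have h5 := (pow_diff (n := n) (z' := (f n c)^[k] w) (hzero k)).2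
    have e : (f n c)^[k + 1] w - c = ((f n c)^[k] w) ^ n := by
      rw [Function.iterate_succ_apply']
      unfold f
      ring
    rw [e]
    refine h5.trans ?_
    rw [mul_comm]
    exact mul_le_mul_of_nonneg_right h4 (norm_nonneg _)
  have hfin : 2 * ‖z k ^ n‖ ≤ ρ / 4 := by
    have hkey : 160 * (n * D 0 * ‖z k ^ n‖) ≤ ‖c‖ := by
      rcases le_or_gt (1 / 5 : ℝ) ‖c‖ with h | h
      · linarith
      · -- `k = 0`
        have hcn : ‖c ^ n‖ ≤ (1 / 5) ^ n := by
          rw [norm_pow]; exact pow_le_pow_left₀ hcp.le h.le n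
        have hk0 : k = 0 := by
          by_contra hk0
          have h1 := hk2 0 (Nat.pos_of_ne_zero hk0)
          simp only [Function.iterate_zero, id] at h1
          have h2 := num2 (κ := κ) (by linarith) hn1
          have h3 : (1 / 5 : ℝ) ^ n ≤ (1 / 2) ^ n :=
            pow_le_pow_left₀ (by norm_num) (by norm_num) n
          linarith
        rw [hk0] at hDk ⊢
        have hD00 : D 0 = 1 := hDk
        have hz0 : z 0 = c := rfl
        rw [hD00, hz0, mul_one]
        obtain ⟨m, rfl⟩ : ∃ m, n = m + 1 := ⟨n - 1, by omega⟩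
        rw [pow_succ, norm_mul, norm_pow]
        have h4 : 160 * (((m + 1 : ℕ) : ℝ) * ‖c‖ ^ m) ≤ 1 := by
          have h5 : ‖c‖ ^ m ≤ (1 / 5) ^ m := pow_le_pow_left₀ hcp.le h.le m
          have h6 : ((m + 1 : ℕ) : ℝ) ≤ 2 ^ (m + 1) := by
            exact_mod_cast (Nat.lt_two_pow_self (n := m + 1)).le
          have h7 : ((m + 1 : ℕ) : ℝ) * ‖c‖ ^ m ≤ 2 ^ (m + 1) * (1 / 5) ^ m :=
            mul_le_mul h6 h5 (by positivity) (by positivity)
          have h8 : (2:ℝ) ^ (m + 1) * (1 / 5) ^ m = 2 * (2 / 5) ^ m := by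
            rw [pow_succ, div_pow, div_pow, one_pow]; ring
          have h9 : (2 / 5 : ℝ) ^ m ≤ (2 / 5) ^ 10 :=
            pow_le_pow_of_le_one (by norm_num) (by norm_num) (by omega)
          have h10 : (320:ℝ) * (2 / 5) ^ 10 ≤ 1 := by norm_num
          linarith
        calc 160 * (((m + 1 : ℕ) : ℝ) * (‖c‖ ^ m * ‖c‖)) =
              160 * (((m + 1 : ℕ) : ℝ) * ‖c‖ ^ m) * ‖c‖ := by ring
          _ ≤ 1 * ‖c‖ := mul_le_mul_of_nonneg_right h4 hcp.le
          _ = ‖c‖ := one_mul _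
    rw [hρ, div_mul_eq_mul_div, div_div, le_div_iff₀ (by positivity)]
    linarith
  obtain ⟨y, hy1, hy2⟩ := contraction (g := (f n c)^[k + 1]) ((diff_f n c).iterate (k + 1)) hρ0
    fun w hw => (hret w hw).trans hfin
  exact att_of (by omega) hy1 hy2

end Pool.Agent.Q79.MC
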