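import Mathlib
import Pool.Agent.Q79.McF
import Pool.Agent.Q79.CmpB
import Pool.Agent.H712R2.MultiCoarse2
import Pool.Agent.TH363.CD.Uniq

/-!
# The contents of the non-hyperbolic part of the Multibrot sets
-/

set_option autoImplicit false

open MeasureTheory Set Filter Topology Metric
open scoped ENNReal

namespace Pool.Agent.Q79.MC

open N62a1eb23 (IsAttractingCycle multibrotSet)
open Pool.Agent.Q79.HC (Hc Hc_ball Hc_expand cover Hc_le_diam Hc_one Hc_apply tsum_rpow_le)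

/-- the hyperbolic parameters -/
def Hn (n : ℕ) : Set ℂ := {c | ∃ m z, IsAttractingCycle (fun z => z ^ n + c) m z}

/-- the non-hyperbolic part of the Multibrot set -/
def Nn (n : ℕ) : Set ℂ := multibrotSet n \ Hn n

theorem orbit_le {n : ℕ} (hn : 2 ≤ n) {c : ℂ} (hc : c ∈ multibrotSet n) (j : ℕ) :
    ‖(f n c)^[j] c‖ ≤ 2 := by
  have h1 := (Pool.Agent.H712R2.mem_multibrot_iff hn c).1 hc (j + 1)
  have h2 : Pool.Agent.H712R2.P n (j + 1) c = (f n c)^[j + 1] 0 := rfl
  rwa [h2, iter_zero (by omega)] at h1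

theorem orbit_pow_le {n : ℕ} (hn : 2 ≤ n) {c : ℂ} (hc : c ∈ multibrotSet n) (j : ℕ) :
    ‖((f n c)^[j] c) ^ n‖ ≤ 4 := by
  have h1 := orbit_le hn hc (j + 1)
  have h2 := orbit_le hn hc 0
  rw [Function.iterate_succ_apply'] at h1
  have h3 : ‖((f n c)^[j] c) ^ n + c‖ ≤ 2 := h1
  have h4 : ‖c‖ ≤ 2 := h2
  have h5 := norm_sub_le (((f n c)^[j] c) ^ n + c) c
  rw [add_sub_cancel_right] at h5
  linarith

theorem Nn_sub {n : ℕ} (hn : 20 ≤ n) {κ : ℝ} (hκ : 1000 ≤ κ) : Nn n ⊆ Cs n κ (1 / 1000) := by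
  rintro c ⟨hc, hno⟩
  have hc0 : c ≠ 0 := by
    rintro rfl
    exact hno (super (by omega) (j := 0) rfl)
  refine ⟨hc0, orbit_le (by omega) hc 0, ?_⟩
  by_contra hbad
  exact hno (crit hn hκ hc0 (orbit_le (by omega) hc) (orbit_pow_le (by omega) hc) hbad)

theorem isOpen_Hn (n : ℕ) : IsOpen (Hn n) := by
  rw [isOpen_iff_mem_nhds]
  rintro c₀ ⟨m, z, hm, hper, -, hlt⟩
  have hcc : ∀ j w, Tendsto (fun y : ℂ × ℂ => (f n y.1)^[j] y.2) (𝓝 c₀ ×ˢ 𝓝 w)
      (𝓝 ((f n c₀)^[j] w)) := by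
    intro j w
    have hcont : Continuous fun y : ℂ × ℂ => (f n y.1)^[j] y.2 := by
      induction j with
      | zero => exact continuous_snd
      | succ j ih =>
        have e : (fun y : ℂ × ℂ => (f n y.1)^[j + 1] y.2) = fun y : ℂ × ℂ =>
            ((f n y.1)^[j] y.2) ^ n + y.1 :=
          funext fun y => by rw [Function.iterate_succ_apply']; rfl
        rw [e]
        exact (ih.pow n).add continuous_fst
    rw [← nhds_prod_eq]
    exact hcont.tendsto (c₀, w)
  have hper' : (f n c₀)^[m] z = z := hper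
  have h4 := Pool.Agent.Q79.CM.persist (F := fun c => f n c) (fun c => diff_f n c) (diff_f n c₀)
    hcc (z := z) hper' hlt (by
      have : ∀ k : ℕ, (f n c₀)^[m * k] z = z := fun k => by
        rw [Function.iterate_mul]
        exact Function.iterate_fixed hper' k
      simp only [this]
      exact tendsto_const_nhds)
  filter_upwards [h4] with c hc
  obtain ⟨x, -, h1, h2, -⟩ := hc
  exact att_of hm h1 h2

theorem Hn_sub {n : ℕ} (hn : 2 ≤ n) : Hn n ⊆ multibrotSet n := by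
  rintro c ⟨m, z, hz⟩
  exact Pool.Agent.TH363.CD.mem_multibrot hn
    (show IsAttractingCycle (Pool.Agent.W747.MB.f n c) m z from hz)

/-- parameters near `0` -/
theorem disc_Hn {n : ℕ} (hn : 2 ≤ n) {R : ℝ} (hR0 : 0 < R) (hR : n * R ^ (n - 1) < 1) {c : ℂ}
    (hc : ‖c‖ ≤ R - R ^ n) : c ∈ Hn n := by
  have hder : ∀ w ∈ closedBall (0:ℂ) R, ‖deriv (f n c) w‖ ≤ n * R ^ (n - 1) := by
    intro w hw
    rw [mem_closedBall_zero_iff] at hw
    have h1 : HasDerivAt (f n c) (n * w ^ (n - 1)) w := (hasDerivAt_pow n w).add_const c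
    rw [h1.deriv, norm_mul, Complex.norm_natCast, norm_pow]
    exact mul_le_mul_of_nonneg_left (pow_le_pow_left₀ (norm_nonneg _) hw _) (Nat.cast_nonneg n)
  have hmaps : MapsTo (f n c) (closedBall 0 R) (closedBall 0 R) := by
    intro w hw
    rw [mem_closedBall_zero_iff] at *
    have h1 : ‖w ^ n + c‖ ≤ ‖w ^ n‖ + ‖c‖ := norm_add_le _ _
    rw [norm_pow] at h1
    have h2 := pow_le_pow_left₀ (norm_nonneg _) hw n
    exact h1.trans (by linarith)
  have hK0 : 0 ≤ n * R ^ (n - 1) := by positivity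
  have hcw : ContractingWith ⟨n * R ^ (n - 1), hK0⟩ (hmaps.restrict (f n c) _ _) := by
    refine ⟨by exact_mod_cast hR, LipschitzWith.of_dist_le_mul ?_⟩
    rintro ⟨w, hw⟩ ⟨w', hw'⟩
    rw [Subtype.dist_eq, Subtype.dist_eq, dist_eq_norm, dist_eq_norm]
    exact (convex_closedBall (0:ℂ) R).norm_image_sub_le_of_norm_deriv_le
      (fun y _ => (diff_f n c).differentiableAt) hder hw' hw
  obtain ⟨x, hx, hxf, -, -⟩ := hcw.exists_fixedPoint' isClosed_closedBall.isComplete hmaps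
    (mem_closedBall_self hR0.le) (edist_ne_top _ _)
  exact att_of (k := 1) one_pos (by rw [Function.iterate_one]; exact hxf)
    (by rw [Function.iterate_one]; exact (hder x hx).trans_lt hR)

/-- every horizontal line near `0` contains a non-hyperbolic parameter -/
theorem line {n : ℕ} (hn : 2 ≤ n) {R : ℝ} (hR0 : 0 < R) (hR : n * R ^ (n - 1) < 1) {y : ℝ}
    (hy : |y| ≤ R - R ^ n) : ∃ c ∈ Nn n, c.im = y := by
  by_contra hcon
  push Not at hcon
  have hcont : Continuous fun x : ℝ => (x : ℂ) + y * Complex.I := by fun_prop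
  have him : ∀ x : ℝ, ((x : ℂ) + y * Complex.I).im = y := fun x => by simp
  set u : Set ℝ := {x | (x : ℂ) + y * Complex.I ∈ Hn n} with hu
  set v : Set ℝ := {x | (x : ℂ) + y * Complex.I ∉ multibrotSet n} with hv
  have huo : IsOpen u := (isOpen_Hn n).preimage hcont
  have hvo : IsOpen v :=
    ((Pool.Agent.H712R2.isCompact_multibrot hn).isClosed.isOpen_compl).preimage hcont
  have hcov : Icc (0:ℝ) 3 ⊆ u ∪ v := by
    intro x _
    by_contra h
    rw [mem_union, not_or] at h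
    have h1 : (x : ℂ) + y * Complex.I ∈ multibrotSet n := by
      by_contra h2
      exact h.2 h2
    exact hcon _ ⟨h1, h.1⟩ (him x)
  have h0 : (Icc (0:ℝ) 3 ∩ u).Nonempty := by
    refine ⟨0, ⟨le_rfl, by norm_num⟩, ?_⟩
    apply disc_Hn hn hR0 hR
    rw [Complex.ofReal_zero, zero_add, norm_mul, Complex.norm_I, mul_one, Complex.norm_real]
    exact hy
  have h3 : (Icc (0:ℝ) 3 ∩ v).Nonempty := by
    refine ⟨3, ⟨by norm_num, le_rfl⟩, fun hc => ?_⟩
    have h4 := orbit_le hn hc 0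
    simp only [Function.iterate_zero, id] at h4
    have h5 := Complex.abs_re_le_norm (((3:ℝ) : ℂ) + y * Complex.I)
    have h6 : (((3:ℝ) : ℂ) + y * Complex.I).re = 3 := by simp
    rw [h6] at h5
    have h7 := le_abs_self (3:ℝ)
    linarith
  obtain ⟨x, -, h4, h5⟩ := isPreconnected_Icc u v huo hvo hcov h0 h3
  exact h5 (Hn_sub hn h4)

theorem content_one {n : ℕ} (hn : 2 ≤ n) {R : ℝ} (hR0 : 0 < R) (hR : n * R ^ (n - 1) < 1) :
    ENNReal.ofReal (2 * (R - R ^ n)) ≤ Hc 1 one_pos (Nn n) := by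
  have h := Hc_one (S := Nn n) one_pos (a := -(R - R ^ n)) (b := R - R ^ n) (by
    intro y hy
    obtain ⟨c, hc, h1⟩ := line hn hR0 hR (y := y) (abs_le.2 hy)
    exact ⟨c, hc, h1⟩)
  rwa [show R - R ^ n - -(R - R ^ n) = 2 * (R - R ^ n) by ring] at h

theorem content_pow {α : ℝ} (hα : 0 < α) (hα1 : α ≤ 1) (S : Set ℂ) :
    Hc 1 one_pos S ^ α ≤ Hc α hα S := by
  rw [Hc_apply hα S]
  refine le_iInf fun t => le_iInf fun ht => ?_
  have h1 : Hc 1 one_pos S ≤ ∑' i, ediam (t i) := by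
    rw [Hc_apply]
    refine iInf_le_of_le t (iInf_le_of_le ht ?_)
    simp only [ENNReal.rpow_one]
    exact le_rfl
  exact (ENNReal.rpow_le_rpow h1 hα.le).trans (tsum_rpow_le hα hα1 _)

theorem content_le {α : ℝ} (hα : 0 < α) {n : ℕ} (hn : 2 ≤ n) :
    Hc α hα (Nn n) ≤ ENNReal.ofReal ((2 * (1 + 1 / ((n:ℝ) - 1))) ^ α) := by
  have hnr : (2:ℝ) ≤ n := by exact_mod_cast hn
  apply Hc_ball hα (x := 0)
  · have : 0 < (n:ℝ) - 1 := by linarith
    positivity
  · intro c hc
    rw [mem_closedBall_zero_iff]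
    exact Pool.Agent.H712R2.norm_le_outer hn hc.1

/-- the contents of the discs -/
theorem lim_ball {α : ℝ} : Tendsto (fun n : ℕ => ENNReal.ofReal ((2 * (1 + 1 / ((n:ℝ) - 1))) ^ α))
    atTop (𝓝 (ENNReal.ofReal (2 ^ α))) := by
  have h1 : Tendsto (fun n : ℕ => ENNReal.ofReal ((2 * (1 + 1 / ((n:ℝ) - 1))) ^ α)) atTop
      (𝓝 (ENNReal.ofReal ((2 * (1 + 0)) ^ α))) := by
    apply ENNReal.tendsto_ofReal
    have h2 : Tendsto (fun n : ℕ => 1 / ((n:ℝ) - 1)) atTop (𝓝 0) := by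
      have h3 : Tendsto (fun n : ℕ => (n:ℝ) - 1) atTop atTop :=
        tendsto_atTop_add_const_right _ _ tendsto_natCast_atTop_atTop
      refine (tendsto_inv_atTop_zero.comp h3).congr fun n => ?_
      simp [one_div]
    exact ((h2.const_add 1).const_mul 2).rpow_const (Or.inl (by norm_num))
  rwa [add_zero, mul_one] at h1

/-- the limit for dimensions at most one -/
theorem lim_small {α : ℝ} (hα : 0 < α) (hα1 : α ≤ 1) :
    Tendsto (fun n => Hc α hα (Nn n)) atTop (𝓝 (ENNReal.ofReal (2 ^ α))) := by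
  rw [tendsto_order]
  constructor
  · intro a ha
    -- a radius
    have hR : ∀ᶠ R : ℝ in 𝓝[<] 1, a < ENNReal.ofReal (2 * R) ^ α := by
      have hc : Tendsto (fun R : ℝ => ENNReal.ofReal (2 * R) ^ α) (𝓝[<] 1)
          (𝓝 (ENNReal.ofReal (2 * 1) ^ α)) := by
        apply Tendsto.ennrpow_const
        apply ENNReal.tendsto_ofReal
        exact (tendsto_id.const_mul 2).mono_left nhdsWithin_le_nhds
      rw [mul_one, ENNReal.ofReal_rpow_of_nonneg (by norm_num) hα.le] at hc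
      exact hc.eventually_const_lt ha
    obtain ⟨R, hR1, hR2, hR3⟩ := (hR.and (Ioo_mem_nhdsLT (show (0:ℝ) < 1 by norm_num))).exists
    have h1 : Tendsto (fun n : ℕ => ENNReal.ofReal (2 * (R - R ^ n)) ^ α) atTop
        (𝓝 (ENNReal.ofReal (2 * (R - 0)) ^ α)) := by
      apply Tendsto.ennrpow_const
      apply ENNReal.tendsto_ofReal
      exact ((tendsto_pow_atTop_nhds_zero_of_lt_one hR2.le hR3).const_sub R).const_mul 2
    rw [sub_zero] at h1
    have h2 : Tendsto (fun n : ℕ => (n:ℝ) * R ^ (n - 1)) atTop (𝓝 0) := by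
      have h3 := (tendsto_self_mul_const_pow_of_lt_one hR2.le hR3).div_const R
      rw [zero_div] at h3
      refine h3.congr' ?_
      filter_upwards [eventually_ge_atTop 1] with n hn
      obtain ⟨m, rfl⟩ : ∃ m, n = m + 1 := ⟨n - 1, by omega⟩
      rw [Nat.add_sub_cancel, pow_succ]
      field_simp
    filter_upwards [h1.eventually_const_lt hR1, h2.eventually_lt_const one_pos,
      eventually_ge_atTop 2] with n h3 h4 h5
    exact h3.trans_le ((ENNReal.rpow_le_rpow (content_one h5 hR2 h4) hα.le).trans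
      (content_pow hα hα1 _))
  · intro a ha
    filter_upwards [(lim_ball (α := α)).eventually_lt_const ha, eventually_ge_atTop 2] with n h2 h3
    exact (content_le hα h3).trans_lt h2

/-- the bound for dimensions larger than one -/
theorem bound_large {α : ℝ} (hα : 0 < α) (hα1 : 1 < α) (hα2 : α ≤ 2) :
    ∃ C : ℝ, ∀ n : ℕ, 2 ≤ n → Hc α hα (Nn n) ≤ ENNReal.ofReal (C * (n:ℝ) ^ (1 - α)) := by
  obtain ⟨κ, C, n₀, hκ, hC, h⟩ := Cs_content hα hα1 hα2 (ε := 1 / 1000) (by norm_num) (by norm_num)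
  refine ⟨C + 16 * (n₀ + 20), fun n hn => ?_⟩
  have hn0 : (0:ℝ) < n := by exact_mod_cast (by omega : 0 < n)
  have hnr : (2:ℝ) ≤ n := by exact_mod_cast hn
  have hp : 0 < (n:ℝ) ^ (1 - α) := Real.rpow_pos_of_pos hn0 _
  have hn₀ : (0:ℝ) ≤ n₀ := Nat.cast_nonneg _
  by_cases hbig : max n₀ 20 ≤ n
  · refine (measure_mono (Nn_sub ((le_max_right _ _).trans hbig) hκ)).trans
      ((h n ((le_max_left _ _).trans hbig)).trans (ENNReal.ofReal_le_ofReal ?_))
    apply mul_le_mul_of_nonneg_right _ hp.le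
    linarith
  · push Not at hbig
    have h1 : (n:ℝ) ≤ n₀ + 20 := by
      have h2 : n ≤ n₀ + 20 := by
        have := max_le (show n₀ ≤ n₀ + 20 by omega) (show 20 ≤ n₀ + 20 by omega)
        omega
      exact_mod_cast h2
    refine (content_le hα hn).trans (ENNReal.ofReal_le_ofReal ?_)
    have h2 : (2 * (1 + 1 / ((n:ℝ) - 1))) ^ α ≤ 16 := by
      have h3 : 1 / ((n:ℝ) - 1) ≤ 1 := by
        rw [div_le_one (by linarith)]; linarith
      have h4 : 0 ≤ 1 / ((n:ℝ) - 1) := by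
        have : 0 < (n:ℝ) - 1 := by linarith
        positivity
      calc (2 * (1 + 1 / ((n:ℝ) - 1))) ^ α ≤ 4 ^ α :=
            Real.rpow_le_rpow (by positivity) (by linarith) hα.le
        _ ≤ 4 ^ (2:ℝ) := Real.rpow_le_rpow_of_exponent_le (by norm_num) hα2
        _ = 16 := by norm_num
    have h5 : 1 ≤ n * (n:ℝ) ^ (1 - α) := by
      calc (1:ℝ) = n ^ (0:ℝ) := (Real.rpow_zero _).symm
        _ ≤ (n:ℝ) ^ (1 + (1 - α)) :=
            Real.rpow_le_rpow_of_exponent_le (by linarith) (by linarith)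
        _ = n * (n:ℝ) ^ (1 - α) := by rw [Real.rpow_add hn0, Real.rpow_one]
    calc (2 * (1 + 1 / ((n:ℝ) - 1))) ^ α ≤ 16 * (n * (n:ℝ) ^ (1 - α)) := by linarith
      _ ≤ 16 * ((n₀ + 20) * (n:ℝ) ^ (1 - α)) := by
          apply mul_le_mul_of_nonneg_left _ (by norm_num)
          exact mul_le_mul_of_nonneg_right h1 hp.le
      _ ≤ (C + 16 * (n₀ + 20)) * (n:ℝ) ^ (1 - α) := by
          have := mul_pos hC hp
          linarith

end Pool.Agent.Q79.MC
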