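import Mathlib
import Pool.Agent.Q79.McE

/-!
# Parameters whose critical orbit never comes close to the critical point
-/

set_option autoImplicit false

open MeasureTheory Set Filter Topology Metric
open scoped ENNReal NNReal

namespace Pool.Agent.Q79.MC

open Pool.Agent.Q79.PW (Sim)
open Pool.Agent.Q79.HC (Hc Hc_apply Hc_ball Hc_expand cover Hc_le_diam)

theorem Hc_zero {α : ℝ} (hα : 0 < α) {S : Set ℂ} (h : Hc α hα S = 0) :
    Measure.hausdorffMeasure α S = 0 := by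
  rw [Measure.hausdorffMeasure_apply]
  refine le_antisymm (iSup_le fun r => iSup_le fun hr => ?_) zero_le
  refine le_of_forall_gt_imp_ge_of_dense fun ε hε => ?_
  have hrα : 0 < min ε (r ^ α) := lt_min hε (by
    by_cases hr2 : r = ⊤
    · rw [hr2, ENNReal.top_rpow_of_pos hα]; exact ENNReal.zero_lt_top
    · exact ENNReal.rpow_pos hr hr2)
  rw [← h, Hc_apply] at hrα
  obtain ⟨t, ht⟩ := iInf_lt_iff.1 hrα
  obtain ⟨ht1, ht2⟩ := iInf_lt_iff.1 ht
  refine iInf_le_of_le t (iInf_le_of_le ht1 (iInf_le_of_le (fun i => ?_) ?_))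
  · have h1 : ediam (t i) ^ α < r ^ α :=
      (ENNReal.le_tsum i).trans_lt (ht2.trans_le (min_le_right _ _))
    exact ((ENNReal.rpow_lt_rpow_iff hα).1 h1).le
  · refine le_trans (ENNReal.tsum_le_tsum fun i => iSup_le fun _ => le_rfl)
      (ht2.le.trans (min_le_left _ _))

theorem dim_le {α : ℝ} (hα : 0 < α) {S : Set ℂ} (h : Hc α hα S = 0) :
    dimH S ≤ ENNReal.ofReal α := by
  have h1 := Hc_zero hα h
  have h2 : dimH S ≤ ((α.toNNReal : ℝ≥0) : ℝ≥0∞) := by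
    apply dimH_le_of_hausdorffMeasure_ne_top
    rw [Real.coe_toNNReal α hα.le, h1]
    exact ENNReal.zero_ne_top
  exact h2

/-- the orbit stays in the range -/
def NL (n : ℕ) (κ : ℝ) (S X : ℂ) : Prop := ∀ j : ℕ, Rg n κ ((T n S)^[j] X)

theorem NL.step {n : ℕ} (hn : 1 ≤ n) {κ : ℝ} (hκ : 0 < κ) {S X : ℂ} (h : NL n κ S X) :
    κ / n ≤ ‖X‖ ∧ ‖X‖ ≤ 4 ∧ 0 < ‖X + S‖ ∧ κ / n ≤ ‖T n S X‖ ∧ ‖T n S X‖ ≤ 4 ∧
      NL n κ S (T n S X) := by
  have hn0 : (0:ℝ) < n := by exact_mod_cast hn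
  have h1 := h 1
  simp only [Function.iterate_one] at h1
  refine ⟨(h 0).1, (h 0).2, ?_, h1.1, h1.2, fun j => ?_⟩
  · rw [norm_pos_iff]
    intro h0
    have h4 : T n S X = 0 := by
      unfold T
      rw [h0, zero_pow (by omega)]
    rw [h4] at h1
    have h5 := h1.1
    rw [norm_zero] at h5
    exact absurd h5 (not_le.2 (by positivity))
  · have := h (j + 1)
    rwa [Function.iterate_succ_apply] at this

/-- the parameters of a slow curve -/
def EN (n : ℕ) (κ : ℝ) (s : ℂ → ℂ) (x : ℂ) : Set ℂ :=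
  {t | t ∈ ball x r0 ∧ NL n κ (Complex.exp (s t)) (Complex.exp t)}

variable {α : ℝ} (hα : 0 < α)

/-- the bound with constant `A` -/
def PN (n : ℕ) (κ A : ℝ) : Prop :=
  ∀ (x : ℂ) (s : ℂ → ℂ), κ / 2 ≤ n * ‖Complex.exp x‖ → Slow n s x →
    Hc α hα (EN n κ s x) ≤ ENNReal.ofReal (A * Wt α n 1 x)

theorem numericN {α : ℝ} (hα1 : 1 < α) (hα2 : α ≤ 2) {κ A Y a : ℝ} (hκ : 1000 ≤ κ)
    (hA : 0 ≤ A) (hY : κ ≤ Y) (ha1 : Y / 4 ≤ a) (ha2 : a ≤ 3 * Y) :
    ((a / 2)⁻¹) ^ α * ((2 / r0 + 1) * (4 * (3 / 64 * a * r0) / r0 + 1) *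
      (A * (2 + Real.log 1 + Real.log κ) * qc α κ)) ≤
    (1 + Real.log 1 + Real.log Y) * Y ^ (1 - α) * (205056 * qc α κ * A) := by
  have hY0 : 0 < Y := by linarith
  have ha0 : 0 < a := by linarith
  have hκ0 : 0 < κ := by linarith
  have hr : r0 = 1 / 400 := rfl
  have hq := qc_pos hα1 hκ0
  rw [Real.log_one, add_zero, add_zero]
  set L := 1 + Real.log Y with hL
  have hlY : 0 ≤ Real.log Y := Real.log_nonneg (by linarith)
  have hlκ : Real.log κ ≤ Real.log Y := Real.log_le_log hκ0 hY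
  have hlκ0 : 0 ≤ Real.log κ := Real.log_nonneg (by linarith)
  have hL1 : 1 ≤ L := by rw [hL]; linarith
  have e1 : ((a / 2)⁻¹) ^ α ≤ 64 * Y ^ (-α) := by
    have h1 : (a / 2)⁻¹ ≤ 8 / Y := by
      rw [inv_div, div_le_div_iff₀ ha0 hY0]; linarith
    calc ((a / 2)⁻¹) ^ α ≤ (8 / Y) ^ α := Real.rpow_le_rpow (by positivity) h1 (by linarith)
      _ = 8 ^ α * Y ^ (-α) := by
          rw [Real.div_rpow (by norm_num) hY0.le, Real.rpow_neg hY0.le]
          rfl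
      _ ≤ 64 * Y ^ (-α) := by
          apply mul_le_mul_of_nonneg_right _ (by positivity)
          calc (8:ℝ) ^ α ≤ 8 ^ (2:ℝ) := Real.rpow_le_rpow_of_exponent_le (by norm_num) hα2
            _ = 64 := by norm_num
  have e2 : (2 / r0 + 1) * (4 * (3 / 64 * a * r0) / r0 + 1) ≤ 801 * Y := by
    have h1 : 4 * (3 / 64 * a * r0) / r0 + 1 = 3 / 16 * a + 1 := by
      rw [hr]; ring
    rw [h1, hr]
    linarith
  have e3 : 2 + Real.log κ ≤ 4 * L := by rw [hL]; linarith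
  have hYY : Y ^ (1 - α) = Y * Y ^ (-α) := by
    rw [show 1 - α = 1 + -α by ring, Real.rpow_add hY0, Real.rpow_one]
  have h1 : (2 / r0 + 1) * (4 * (3 / 64 * a * r0) / r0 + 1) *
      (A * (2 + Real.log κ) * qc α κ) ≤ (801 * Y) * (A * (4 * L) * qc α κ) := by
    apply mul_le_mul e2 _ (by positivity) (by positivity)
    exact mul_le_mul_of_nonneg_right (mul_le_mul_of_nonneg_left e3 hA) hq.le
  calc _ ≤ (64 * Y ^ (-α)) * ((801 * Y) * (A * (4 * L) * qc α κ)) := by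
        apply mul_le_mul e1 h1 _ (by positivity)
        have h2 : 0 ≤ (2 / r0 + 1) * (4 * (3 / 64 * a * r0) / r0 + 1) := by rw [hr]; positivity
        positivity
    _ = L * Y ^ (1 - α) * (205056 * qc α κ * A) := by
        rw [hYY]; ring

variable {n : ℕ} {κ A : ℝ}

theorem keyN (hα1 : 1 < α) (hα2 : α ≤ 2) (hn : 2 ≤ n) (hκ : 1000 ≤ κ)
    (hA : 0 ≤ A) (hP : PN hα n κ A)
    {x : ℂ} {s : ℂ → ℂ} (hs : Slow n s x) {t₀ : ℂ} (ht₀ : t₀ ∈ EN n κ s x)
    (hv : 1 / 2 ≤ ‖Complex.exp t₀ + Complex.exp (s t₀)‖) :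
    Hc α hα (EN n κ s x ∩ ball t₀ (r0 / 32)) ≤
      ENNReal.ofReal (Wt α n 1 t₀ * (205056 * qc α κ * A)) := by
  have hn1 : 1 ≤ n := by omega
  have hn0 : (0:ℝ) < n := by exact_mod_cast hn1
  have hr : r0 = 1 / 400 := rfl
  have hr0 : 0 < r0 := by rw [hr]; norm_num
  have hκ0 : 0 < κ := by linarith
  obtain ⟨hb₀, hBad⟩ := ht₀
  obtain ⟨hX1, hX4, hvp, -, hTle, -⟩ := hBad.step hn1 hκ0
  set X₀ := Complex.exp t₀ with hX₀
  set c₀ := Complex.exp (s t₀) with hc₀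
  have hv2 : ‖X₀ + c₀‖ ≤ 2 := by
    by_contra hcon
    push Not at hcon
    unfold T at hTle
    rw [norm_pow] at hTle
    have h1 : ‖X₀ + c₀‖ ^ 2 ≤ ‖X₀ + c₀‖ ^ n := pow_le_pow_right₀ (by linarith) hn
    nlinarith
  have hc6 : ‖c₀‖ ≤ 6 := by
    have := norm_sub_le (X₀ + c₀) X₀
    rw [add_sub_cancel_left] at this
    linarith
  set Y := (n:ℝ) * ‖X₀‖ with hY
  have hκY : κ ≤ Y := by
    rw [div_le_iff₀ hn0] at hX1
    rw [hY]; linarith
  have hY0 : 0 < Y := by linarith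
  obtain ⟨a, F, ha1, ha2, hF, hFe⟩ := hasSim hn1 hs hb₀ hX4 hc6 (by linarith) hv hv2
  obtain ⟨Φ, hΦ1, hΦ2⟩ := hF.inverse
  have hap : 0 < ‖a‖ := hF.apos
  have ha250 : 250 ≤ ‖a‖ := by linarith
  set E := EN n κ s x ∩ ball t₀ (r0 / 32) with hE
  have hEsub : E ⊆ ball t₀ r0 := fun t ht => ball_subset_ball (by linarith) ht.2
  have ht₀ρ : t₀ ∈ ball t₀ r0 := mem_ball_self hr0
  have hFE : ∀ t ∈ E, ‖F t - F t₀‖ ≤ 3 / 64 * ‖a‖ * r0 := by
    intro t ht
    have h1 := hF.upper (hEsub ht) ht₀ρ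
    have h2 : ‖t - t₀‖ ≤ r0 / 32 := by
      have := ht.2
      rw [mem_ball, dist_eq_norm] at this
      exact this.le
    have h3 : 3 / 2 * ‖a‖ * ‖t - t₀‖ ≤ 3 / 2 * ‖a‖ * (r0 / 32) :=
      mul_le_mul_of_nonneg_left h2 (by positivity)
    linarith
  -- the next step
  have hstep : ∀ t ∈ E, κ / n ≤ ‖Complex.exp (F t)‖ ∧
      NL n κ (Complex.exp (s t)) (Complex.exp (F t)) := by
    intro t ht
    obtain ⟨-, -, -, g1, -, g3⟩ := ht.1.2.step hn1 hκ0
    rw [hFe t (hEsub ht)]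
    exact ⟨g1, g3⟩
  set h : ℝ := 3 / 64 * ‖a‖ * r0 with hh
  have hh0 : 0 ≤ h := by positivity
  have him : ∀ y ∈ F '' E, |y.im - (F t₀).im| ≤ h := by
    rintro _ ⟨t, ht, rfl⟩
    rw [← Complex.sub_im]
    exact (Complex.abs_im_le_norm _).trans (hFE t ht)
  have hlow : ∀ y ∈ F '' E, κ / n ≤ ‖Complex.exp y‖ := by
    rintro _ ⟨t, ht, rfl⟩
    exact (hstep t ht).1
  have hup : Hc α hα (F '' E) ≤ ENNReal.ofReal ((2 / r0 + 1) * (4 * h / r0 + 1) *
      (A * (2 + Real.log 1 + Real.log κ) * qc α κ)) := by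
    apply strips hα hα1 hn1 (by linarith) hh0 (fun y hy => ⟨hlow y hy, him y hy⟩) hA le_rfl
    rintro y ⟨t₁, ht₁, rfl⟩
    have hball : ball (F t₁) (2 * r0) ⊆ ball (F t₀) (‖a‖ * r0 / 8) := by
      apply ball_subset_ball'
      rw [dist_eq_norm]
      have h1 := hFE t₁ ht₁
      rw [hh] at h1
      rw [hr] at *
      linarith
    have hslow : Slow n (s ∘ Φ) (F t₁) := by
      have hsmem : ∀ t ∈ ball t₀ r0, t ∈ ball x (2 * r0) := fun t ht =>
        (near hn1 hs hb₀ hX4 hc6 ht).1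
      constructor
      · intro y hy
        obtain ⟨h1, -, h3, -⟩ := hΦ1 y (hball hy)
        have h4 : DifferentiableAt ℂ s (Φ y) :=
          hs.d.differentiableAt (isOpen_ball.mem_nhds (hsmem _ h1))
        exact (h4.comp y h3).differentiableWithinAt
      · intro y hy
        obtain ⟨h1, -, h3, h4⟩ := hΦ1 y (hball hy)
        have h5 : DifferentiableAt ℂ s (Φ y) :=
          hs.d.differentiableAt (isOpen_ball.mem_nhds (hsmem _ h1))
        rw [deriv_comp y h5 h3, norm_mul]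
        have h6 := hs.b _ (hsmem _ h1)
        have h7 : 2 / ‖a‖ ≤ 1 := by
          rw [div_le_one (by linarith)]; linarith
        calc ‖deriv s (Φ y)‖ * ‖deriv Φ y‖ ≤ 1 / n * 1 :=
              mul_le_mul h6 (h4.trans h7) (norm_nonneg _) (by positivity)
          _ = _ := mul_one _
    refine le_trans (measure_mono ?_) (hP (F t₁) (s ∘ Φ) ?_ hslow)
    · rintro _ ⟨⟨t₂, ht₂, rfl⟩, hy3⟩
      have hΦF : Φ (F t₂) = t₂ := by
        apply hΦ2 t₂ (hEsub ht₂)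
        exact hball (ball_subset_ball (by linarith) hy3)
      refine ⟨hy3, ?_⟩
      rw [Function.comp_apply, hΦF]
      exact (hstep t₂ ht₂).2
    · have h1 : κ / n ≤ ‖Complex.exp (F t₁)‖ := (hstep t₁ ht₁).1
      rw [div_le_iff₀ hn0] at h1
      linarith
  have hexp := Hc_expand hα (F := F) (E := E) (c := ‖a‖ / 2) (by linarith)
    fun y hy z hz => hF.lower (hEsub hy) (hEsub hz)
  have hq := qc_pos hα1 hκ0
  refine hexp.trans ?_
  calc ENNReal.ofReal (((‖a‖ / 2)⁻¹) ^ α) * Hc α hα (F '' E) ≤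
        ENNReal.ofReal (((‖a‖ / 2)⁻¹) ^ α) * ENNReal.ofReal ((2 / r0 + 1) * (4 * h / r0 + 1) *
      (A * (2 + Real.log 1 + Real.log κ) * qc α κ)) := mul_le_mul_right hup _
    _ = ENNReal.ofReal (((‖a‖ / 2)⁻¹) ^ α * ((2 / r0 + 1) * (4 * h / r0 + 1) *
      (A * (2 + Real.log 1 + Real.log κ) * qc α κ))) := by
        rw [← ENNReal.ofReal_mul (by positivity)]
    _ ≤ _ := ENNReal.ofReal_le_ofReal (numericN hα1 hα2 hκ hA hκY ha1 ha2)

theorem NL.pole {n : ℕ} (hn : 1 ≤ n) {κ : ℝ} (hκ : 0 < κ) {S X : ℂ} (h : NL n κ S X)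
    (hκn : (1 / 2 : ℝ) ^ n < κ / n) : 1 / 2 ≤ ‖X + S‖ := by
  by_contra hcon
  push Not at hcon
  obtain ⟨-, -, -, h1, -, -⟩ := h.step hn hκ
  unfold T at h1
  rw [norm_pow] at h1
  have h2 : ‖X + S‖ ^ n ≤ (1 / 2) ^ n := pow_le_pow_left₀ (norm_nonneg _) hcon.le n
  linarith

/-- the recursive inequality -/
theorem rec_stepN (hα1 : 1 < α) (hα2 : α ≤ 2) (hn : 2 ≤ n) (hκ : 1000 ≤ κ) (hA : 0 ≤ A)
    (hκ2 : (1 / 2 : ℝ) ^ n < κ / n) (hP : PN hα n κ A) :
    PN hα n κ (66564 * 205056 * qc α κ * A) := by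
  intro x s hx hs
  have hn1 : 1 ≤ n := by omega
  have hr : r0 = 1 / 400 := rfl
  have hr0 : 0 < r0 := by rw [hr]; norm_num
  have hκ0 : 0 < κ := by linarith
  have hx1 : 1 ≤ n * ‖Complex.exp x‖ := by linarith
  have hq := qc_pos hα1 hκ0
  have hW0 : 0 ≤ Wt α n 1 x := by
    unfold Wt
    have h1 : 0 ≤ Real.log 1 := Real.log_nonneg le_rfl
    have h2 : 0 ≤ Real.log (n * ‖Complex.exp x‖) := Real.log_nonneg hx1
    positivity
  set Q := 205056 * qc α κ * A with hQ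
  have hQ0 : 0 ≤ Q := by rw [hQ]; positivity
  have h2 := cover (Hc α hα) (E := EN n κ s x) (x₀ := x.re) (y₀ := x.im) (w := r0) (h := r0)
    (r := r0 / 32) (by positivity) hr0.le hr0.le (by
      intro t ht
      have h3 := ht.1
      rw [mem_ball, dist_eq_norm] at h3
      constructor
      · rw [← Complex.sub_re]; exact (Complex.abs_re_le_norm _).trans h3.le
      · rw [← Complex.sub_im]; exact (Complex.abs_im_le_norm _).trans h3.le)
    (B := ENNReal.ofReal (4 * Wt α n 1 x * Q)) (by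
      intro t ht
      refine (keyN hα hα1 hα2 hn hκ hA hP hs ht (ht.2.pole hn1 hκ0 hκ2)).trans
          (ENNReal.ofReal_le_ofReal ?_)
      exact mul_le_mul_of_nonneg_right (Wt_cmp hα1 hα2 hn1 le_rfl hx1 ht.1) hQ0)
  refine h2.trans (le_of_eq ?_)
  rw [← ENNReal.ofReal_mul (by rw [hr]; norm_num)]
  congr 1
  rw [hr]
  ring

theorem PN_init (hα1 : 1 < α) (hα2 : α ≤ 2) (hn : 1 ≤ n) (hκ : 2 ≤ κ) : PN hα n κ (5 * n) := by
  intro x s hx hs
  have hn0 : (0:ℝ) < n := by exact_mod_cast hn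
  rcases (EN n κ s x).eq_empty_or_nonempty with h0 | ⟨t, ht⟩
  · rw [h0, measure_empty]; exact zero_le
  refine (content_small hα hα1 x fun z hz => hz.1).trans (ENNReal.ofReal_le_ofReal ?_)
  obtain ⟨hb, hBad⟩ := ht
  have h5 := Wt_lower hα1 hα2 hn le_rfl (by linarith : 1 ≤ n * ‖Complex.exp x‖)
    (norm_le_five hb (hBad.step hn (by linarith)).2.1)
  rw [Real.log_one, add_zero] at h5
  have h7 : 5 * (n:ℝ) * (1 / (5 * n)) ≤ 5 * n * Wt α n 1 x :=
    mul_le_mul_of_nonneg_left h5 (by positivity)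
  rwa [mul_one_div_cancel (by positivity)] at h7

theorem PN_mono (hκ : 2 ≤ κ) {A' : ℝ} (h : PN hα n κ A) (hA : A ≤ A') : PN hα n κ A' := by
  intro x s hx hs
  refine (h x s hx hs).trans (ENNReal.ofReal_le_ofReal (mul_le_mul_of_nonneg_right hA ?_))
  unfold Wt
  have h1 : 0 ≤ Real.log 1 := Real.log_nonneg le_rfl
  have h2 : 0 ≤ Real.log (n * ‖Complex.exp x‖) := Real.log_nonneg (by linarith)
  positivity

/-- the content vanishes -/
theorem PN_zero (hα1 : 1 < α) (hα2 : α ≤ 2) (hn : 2 ≤ n) (hκ : 1000 ≤ κ)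
    (hκ2 : (1 / 2 : ℝ) ^ n < κ / n) (hq : 66564 * 205056 * qc α κ ≤ 1 / 2) :
    PN hα n κ 0 := by
  have hn1 : 1 ≤ n := by omega
  have hall : ∀ k : ℕ, PN hα n κ (5 * n * (1 / 2) ^ k) := by
    intro k
    induction k with
    | zero =>
      refine PN_mono hα (by linarith) (PN_init hα hα1 hα2 hn1 (by linarith)) ?_
      rw [pow_zero]; linarith
    | succ k ih =>
      have hA0 : 0 ≤ 5 * (n:ℝ) * (1 / 2) ^ k := by positivity
      refine PN_mono hα (by linarith) (rec_stepN hα hα1 hα2 hn hκ hA0 hκ2 ih) ?_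
      have h1 : 66564 * 205056 * qc α κ * (5 * n * (1 / 2) ^ k) ≤
          1 / 2 * (5 * n * (1 / 2) ^ k) := mul_le_mul_of_nonneg_right hq hA0
      rw [pow_succ]
      linarith
  intro x s hx hs
  have ht : Tendsto (fun k : ℕ => ENNReal.ofReal ((5 * n * (1 / 2) ^ k) * Wt α n 1 x)) atTop
      (𝓝 (ENNReal.ofReal (0 * Wt α n 1 x))) := by
    apply ENNReal.tendsto_ofReal
    have h1 := (tendsto_pow_atTop_nhds_zero_of_lt_one (r := (1 / 2 : ℝ)) (by norm_num)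
      (by norm_num)).const_mul (5 * (n:ℝ))
    have h2 := h1.mul_const (Wt α n 1 x)
    rwa [mul_zero] at h2
  exact ge_of_tendsto' ht fun k => hall k x s hx hs

/-- the parameters without close returns -/
def CN (n : ℕ) (κ : ℝ) : Set ℂ := {c | c ≠ 0 ∧ ‖c‖ ≤ 2 ∧ NL n κ c (c ^ n)}

theorem CN_zero (hα1 : 1 < α) (hα2 : α ≤ 2) (hn : 2 ≤ n) (hκ : 1000 ≤ κ)
    (hq : 66564 * 205056 * qc α κ ≤ 1 / 2) : Hc α hα (CN n κ) = 0 := by
  have hn1 : 1 ≤ n := by omega
  have hn0 : (0:ℝ) < n := by exact_mod_cast hn1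
  have hnr : (2:ℝ) ≤ n := by exact_mod_cast hn
  have hnc : (n:ℂ) ≠ 0 := by exact_mod_cast (by omega : n ≠ 0)
  have hκ0 : 0 < κ := by linarith
  have hr : r0 = 1 / 400 := rfl
  have hr0 : 0 < r0 := by rw [hr]; norm_num
  have hP := PN_zero hα hα1 hα2 hn hκ (num2 (by linarith) hn1) hq
  set F : ℂ → ℂ := fun c => n * Complex.log c with hF
  have hexp := Hc_expand hα (F := F) (E := CN n κ) (c := n / 2) (by positivity) (by
    rintro c ⟨h1, h2, -⟩ c' ⟨h1', h2', -⟩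
    have h3 := log_lip h1 h1' h2 h2'
    have e : ‖F c - F c'‖ = n * ‖Complex.log c - Complex.log c'‖ := by
      change ‖(n:ℂ) * Complex.log c - n * Complex.log c'‖ = _
      rw [← mul_sub, norm_mul, Complex.norm_natCast]
    rw [e]
    nlinarith)
  set E : Set ℂ := {τ | |τ.im| ≤ Real.pi * n ∧
    NL n κ (Complex.exp (τ / n)) (Complex.exp τ)} with hE
  have hsub : F '' CN n κ ⊆ E := by
    rintro _ ⟨c, ⟨h1, h2, h3⟩, rfl⟩
    have e1 : Complex.exp (F c / n) = c := by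
      change Complex.exp (n * Complex.log c / n) = c
      rw [mul_div_cancel_left₀ _ hnc, Complex.exp_log h1]
    have e2 : Complex.exp (F c) = c ^ n := by
      change Complex.exp (n * Complex.log c) = c ^ n
      rw [Complex.exp_nat_mul, Complex.exp_log h1]
    refine ⟨?_, by rw [e1, e2]; exact h3⟩
    have e3 : (F c).im = n * (Complex.log c).im := by
      change ((n:ℂ) * Complex.log c).im = _
      rw [← Complex.ofReal_natCast, Complex.im_ofReal_mul]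
    rw [e3, abs_mul, abs_of_pos hn0, mul_comm]
    apply mul_le_mul_of_nonneg_right _ hn0.le
    rw [abs_le]
    exact ⟨(Complex.neg_pi_lt_log_im c).le, Complex.log_im_le_pi c⟩
  have hpi0 := Real.pi_pos
  have hup : Hc α hα E ≤ ENNReal.ofReal ((2 / r0 + 1) * (4 * (Real.pi * n) / r0 + 1) *
      (0 * (2 + Real.log 1 + Real.log κ) * qc α κ)) := by
    apply strips hα hα1 hn1 (by linarith) (y₀ := 0) (by positivity)
      (fun y hy => ⟨(hy.2.step hn1 hκ0).1, by rw [sub_zero]; exact hy.1⟩) le_rfl le_rfl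
    rintro y ⟨hy1, hy2⟩
    have hslow : Slow n (fun τ => τ / n) y := by
      constructor
      · fun_prop
      · intro τ _
        simp
    refine le_trans (measure_mono ?_) (hP y (fun τ => τ / n) ?_ hslow)
    · rintro τ ⟨⟨h1, h2⟩, h3⟩
      exact ⟨h3, h2⟩
    · have h1 := (hy2.step hn1 hκ0).1
      rw [div_le_iff₀ hn0] at h1
      linarith
  have h0 : Hc α hα E = 0 := by
    refine le_antisymm (hup.trans (le_of_eq ?_)) zero_le
    rw [zero_mul, zero_mul, mul_zero, ENNReal.ofReal_zero]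
  have h1 : Hc α hα (F '' CN n κ) = 0 := le_antisymm ((measure_mono hsub).trans h0.le) zero_le
  refine le_antisymm (hexp.trans ?_) zero_le
  rw [h1, mul_zero]

/-- **the dimension of the parameters without close returns** -/
theorem CN_dim (hα1 : 1 < α) : ∃ κ : ℝ, 1000 ≤ κ ∧ ∀ n : ℕ, 2 ≤ n →
    dimH (CN n κ) ≤ ENNReal.ofReal α := by
  have h1 : 1 < min α 2 := lt_min hα1 (by norm_num)
  obtain ⟨κ, hκ, hq⟩ := exists_kappa h1
  refine ⟨κ, hκ, fun n hn => ?_⟩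
  have h2 : 0 < min α 2 := by linarith
  exact (dim_le h2 (CN_zero h2 h1 (min_le_right _ _) hn hκ hq)).trans
    (ENNReal.ofReal_le_ofReal (min_le_left _ _))

end Pool.Agent.Q79.MC
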