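import Mathlib
import Pool.Prelude.Def_F_c31e40fa
import Pool.Agent.H712R2.MultiCoarse

set_option autoImplicit false

open Complex Set Topology Filter Bornology N62a1eb23

namespace Pool.Agent.Q79.MS

open Pool.Agent.H712R2

/-! ### The binomial remainder -/

theorem pow_rem (n : ℕ) (z : ℂ) :
    ‖(1 + z) ^ n - 1 - n * z‖ ≤ (1 + ‖z‖) ^ n - 1 - n * ‖z‖ := by
  induction n with
  | zero => simp
  | succ n ih =>
    have h1 : (1 + z) ^ (n + 1) - 1 - ((n + 1 : ℕ) : ℂ) * z =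
        (1 + z) * ((1 + z) ^ n - 1 - n * z) + n * z ^ 2 := by push_cast; ring
    have h2 : (1 + ‖z‖) ^ (n + 1) - 1 - ((n + 1 : ℕ) : ℝ) * ‖z‖ =
        (1 + ‖z‖) * ((1 + ‖z‖) ^ n - 1 - n * ‖z‖) + n * ‖z‖ ^ 2 := by push_cast; ring
    rw [h1, h2]
    refine (norm_add_le _ _).trans (add_le_add ?_ ?_)
    · rw [norm_mul]
      exact mul_le_mul ((norm_add_le _ _).trans (by simp)) ih (norm_nonneg _) (by positivity)
    · rw [norm_mul, norm_pow]; simp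

theorem pow_rem' (n : ℕ) {z : ℂ} (hz : n * ‖z‖ ≤ 1) :
    ‖(1 + z) ^ n - 1 - n * z‖ ≤ (n * ‖z‖) ^ 2 := by
  refine (pow_rem n z).trans ?_
  have h1 : (1 + ‖z‖) ^ n ≤ Real.exp (n * ‖z‖) := by
    calc (1 + ‖z‖) ^ n ≤ (Real.exp ‖z‖) ^ n :=
          pow_le_pow_left₀ (by positivity) (by linarith [Real.add_one_le_exp ‖z‖]) n
      _ = _ := by rw [← Real.exp_nat_mul]
  have h2 := Real.abs_exp_sub_one_sub_id_le (x := n * ‖z‖)
    (by rw [abs_of_nonneg (by positivity)]; exact hz)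
  rw [abs_le] at h2
  linarith [h2.2]

/-! ### The Misiurewicz parameters -/

/-- shifted orbit polynomials: `Q 0 c = c`, `Q (k + 1) c = (Q k c) ^ n + c` -/
noncomputable def Q (n k : ℕ) (c : ℂ) : ℂ := P n (k + 1) c

structure Data (n : ℕ) (ω c0 : ℂ) : Prop where
  hn : 3 ≤ n
  hω : ω ^ n = 1
  hs : 1 ≤ ‖ω - 1‖
  hc : c0 ^ (n - 1) = ω - 1

theorem Q_zero {n : ℕ} (hn : 2 ≤ n) (c : ℂ) : Q n 0 c = c := by
  unfold Q; exact P_one hn c

theorem Q_succ (n k : ℕ) (c : ℂ) : Q n (k + 1) c = Q n k c ^ n + c := by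
  unfold Q; exact P_succ n (k + 1) c

theorem Data.norm_omega {n : ℕ} {ω c0 : ℂ} (h : Data n ω c0) : ‖ω‖ = 1 := by
  have : ‖ω‖ ^ n = 1 := by rw [← norm_pow, h.hω, norm_one]
  have := h.hn
  exact (pow_eq_one_iff_of_nonneg (norm_nonneg _) (by omega)).mp ‹‖ω‖ ^ n = 1›

theorem Data.s_le {n : ℕ} {ω c0 : ℂ} (h : Data n ω c0) : ‖ω - 1‖ ≤ 2 := by
  have := norm_sub_le ω 1
  rw [h.norm_omega, norm_one] at this
  linarith

theorem Data.rho_pow {n : ℕ} {ω c0 : ℂ} (h : Data n ω c0) : ‖c0‖ ^ (n - 1) = ‖ω - 1‖ := by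
  rw [← norm_pow, h.hc]

theorem Data.rho_ge {n : ℕ} {ω c0 : ℂ} (h : Data n ω c0) : 1 ≤ ‖c0‖ := by
  by_contra hcon
  push Not at hcon
  have h1 := h.hn
  have : ‖c0‖ ^ (n - 1) < 1 := pow_lt_one₀ (norm_nonneg _) hcon (by omega)
  rw [h.rho_pow] at this
  linarith [h.hs]

theorem Data.rho_le {n : ℕ} {ω c0 : ℂ} (h : Data n ω c0) : ‖c0‖ ≤ 2 := by
  have h1 := h.hn
  have h2 : ‖c0‖ ≤ ‖c0‖ ^ (n - 1) := le_self_pow₀ h.rho_ge (by omega)
  rw [h.rho_pow] at h2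
  linarith [h.s_le]

theorem Data.Q_c0 {n : ℕ} {ω c0 : ℂ} (h : Data n ω c0) (k : ℕ) : Q n (k + 1) c0 = ω * c0 := by
  have h1 := h.hn
  have hcn : c0 ^ n = (ω - 1) * c0 := by
    rw [← h.hc, ← pow_succ]; congr 1; omega
  induction k with
  | zero => rw [Q_succ, Q_zero (by omega), hcn]; ring
  | succ k ih => rw [Q_succ, ih, mul_pow, h.hω, hcn]; ring

theorem Data.norm_Q {n : ℕ} {ω c0 : ℂ} (h : Data n ω c0) (k : ℕ) : ‖Q n k c0‖ = ‖c0‖ := by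
  have h1 := h.hn
  cases k with
  | zero => rw [Q_zero (by omega)]
  | succ k => rw [h.Q_c0, norm_mul, h.norm_omega, one_mul]

/-- the derivative at the Misiurewicz parameter -/
noncomputable def D (n : ℕ) (c0 : ℂ) : ℕ → ℂ
  | 0 => 1
  | k + 1 => n * Q n k c0 ^ (n - 1) * D n c0 k + 1

noncomputable def LL (n : ℕ) (ω : ℂ) : ℝ := n * ‖ω - 1‖

theorem Data.le_LL {n : ℕ} {ω c0 : ℂ} (h : Data n ω c0) : (n : ℝ) ≤ LL n ω := by
  unfold LL; nlinarith [h.hs, (Nat.cast_nonneg n : (0:ℝ) ≤ n)]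

theorem Data.LL_le {n : ℕ} {ω c0 : ℂ} (h : Data n ω c0) : LL n ω ≤ 2 * n := by
  unfold LL; nlinarith [h.s_le, (Nat.cast_nonneg n : (0:ℝ) ≤ n)]

theorem Data.three_le {n : ℕ} {ω c0 : ℂ} (h : Data n ω c0) : (3:ℝ) ≤ LL n ω := by
  have : (3:ℝ) ≤ n := by exact_mod_cast h.hn
  linarith [h.le_LL]

theorem Data.norm_mult {n : ℕ} {ω c0 : ℂ} (h : Data n ω c0) (k : ℕ) :
    ‖(n:ℂ) * Q n k c0 ^ (n - 1)‖ = LL n ω := by
  rw [norm_mul, norm_pow, h.norm_Q, h.rho_pow]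
  unfold LL; simp

theorem Data.D_bounds {n : ℕ} {ω c0 : ℂ} (h : Data n ω c0) (k : ℕ) :
    (LL n ω) ^ k / 2 + 1 / 2 ≤ ‖D n c0 k‖ ∧ ‖D n c0 k‖ ≤ 3 / 2 * (LL n ω) ^ k - 1 / 2 := by
  have hL := h.three_le
  induction k with
  | zero => simp [D]; norm_num
  | succ k ih =>
    obtain ⟨h1, h2⟩ := ih
    have e1 : ‖(n:ℂ) * Q n k c0 ^ (n - 1) * D n c0 k‖ = LL n ω * ‖D n c0 k‖ := by
      rw [norm_mul, h.norm_mult]
    have e2 : ‖D n c0 (k + 1)‖ ≤ LL n ω * ‖D n c0 k‖ + 1 := by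
      rw [D]
      refine (norm_add_le _ _).trans ?_
      rw [e1, norm_one]
    have e3 : LL n ω * ‖D n c0 k‖ - 1 ≤ ‖D n c0 (k + 1)‖ := by
      rw [D]
      have := norm_sub_le ((n:ℂ) * Q n k c0 ^ (n - 1) * D n c0 k + 1) 1
      rw [add_sub_cancel_right, e1, norm_one] at this
      linarith
    rw [pow_succ]
    constructor
    · nlinarith
    · nlinarith

/-- near-linearity of the orbit polynomials in the parameter -/
theorem Data.near {n : ℕ} {ω c0 : ℂ} (h : Data n ω c0) {m : ℕ} {δ : ℂ}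
    (hδ : (LL n ω) ^ m * ‖δ‖ ≤ 1 / 64) (k : ℕ) (hk : k ≤ m) :
    ‖Q n k (c0 + δ) - Q n k c0 - D n c0 k * δ‖ ≤ 16 * ((LL n ω) ^ k * ‖δ‖) ^ 2 := by
  have hL := h.three_le
  have hnL := h.le_LL
  have hn := h.hn
  have hnr : (3:ℝ) ≤ n := by exact_mod_cast hn
  induction k with
  | zero =>
    rw [Q_zero (by omega), Q_zero (by omega)]
    simp only [D, one_mul, add_sub_cancel_left, sub_self, norm_zero]
    positivity
  | succ k ih =>
    have ih' := ih (by omega)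
    set M := (LL n ω) ^ k with hM
    have hMpos : 0 < M := by positivity
    have hMm : M * LL n ω ≤ (LL n ω) ^ m := by
      rw [hM, ← pow_succ]; exact pow_le_pow_right₀ (by linarith) hk
    have hMd : LL n ω * (M * ‖δ‖) ≤ 1 / 64 := by
      have := mul_le_mul_of_nonneg_right hMm (norm_nonneg δ)
      nlinarith
    set t := M * ‖δ‖ with ht
    have ht0 : 0 ≤ t := by positivity
    have ht1 : t ≤ 1 / 64 := by nlinarith
    set E := Q n k (c0 + δ) - Q n k c0 with hE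
    have hEb : ‖E‖ ≤ 2 * t := by
      have h1 : ‖E‖ ≤ ‖E - D n c0 k * δ‖ + ‖D n c0 k * δ‖ := by
        have := norm_add_le (E - D n c0 k * δ) (D n c0 k * δ)
        rwa [sub_add_cancel] at this
      have h2 : ‖D n c0 k * δ‖ ≤ 3 / 2 * t := by
        rw [norm_mul, ht, ← mul_assoc]
        apply mul_le_mul_of_nonneg_right _ (norm_nonneg _)
        linarith [(h.D_bounds k).2]
      nlinarith
    have hq0 : 0 < ‖Q n k c0‖ := by rw [h.norm_Q]; linarith [h.rho_ge]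
    have hqne : Q n k c0 ≠ 0 := norm_pos_iff.mp hq0
    have hq1 : 1 ≤ ‖Q n k c0‖ := by rw [h.norm_Q]; exact h.rho_ge
    set x := E / Q n k c0 with hx
    have hxE : ‖x‖ ≤ ‖E‖ := by
      rw [hx, norm_div]; exact div_le_self (norm_nonneg _) hq1
    have hnx : n * ‖x‖ ≤ 1 := by
      have : (n:ℝ) * ‖x‖ ≤ LL n ω * (2 * t) :=
        mul_le_mul hnL (hxE.trans hEb) (norm_nonneg _) (by linarith)
      linarith
    have hrem := pow_rem' n hnx
    have hQ : Q n k (c0 + δ) = Q n k c0 * (1 + x) := by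
      rw [hx, mul_add, mul_one, mul_div_cancel₀ _ hqne, hE]; ring
    have hid : Q n (k + 1) (c0 + δ) - Q n (k + 1) c0 - D n c0 (k + 1) * δ =
        (n:ℂ) * Q n k c0 ^ (n - 1) * (E - D n c0 k * δ) +
        Q n k c0 ^ n * ((1 + x) ^ n - 1 - n * x) := by
      have hpn : Q n k c0 ^ n * (n * x) = (n:ℂ) * Q n k c0 ^ (n - 1) * E := by
        have : Q n k c0 ^ n = Q n k c0 ^ (n - 1) * Q n k c0 := by
          rw [← pow_succ]; congr 1; omega
        rw [this, hx]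
        field_simp
      rw [Q_succ, Q_succ, hQ, mul_pow, D]
      linear_combination hpn
    rw [hid]
    refine (norm_add_le _ _).trans ?_
    rw [norm_mul, h.norm_mult, norm_mul]
    have hqn : ‖Q n k c0 ^ n‖ * ‖x‖ ^ 2 ≤ 2 * ‖E‖ ^ 2 := by
      have e1 : ‖Q n k c0 ^ n‖ = ‖ω - 1‖ * ‖Q n k c0‖ := by
        have : Q n k c0 ^ n = Q n k c0 ^ (n - 1) * Q n k c0 := by
          rw [← pow_succ]; congr 1; omega
        rw [this, norm_mul, norm_pow, h.norm_Q, h.rho_pow]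
      rw [e1, hx, norm_div]
      have e2 : ‖ω - 1‖ * ‖Q n k c0‖ * (‖E‖ / ‖Q n k c0‖) ^ 2 =
          ‖ω - 1‖ * ‖E‖ ^ 2 / ‖Q n k c0‖ := by field_simp
      rw [e2, div_le_iff₀ hq0]
      have e3 : ‖ω - 1‖ * ‖E‖ ^ 2 ≤ 2 * ‖E‖ ^ 2 :=
        mul_le_mul_of_nonneg_right h.s_le (sq_nonneg _)
      nlinarith [sq_nonneg ‖E‖]
    have h5 : ‖Q n k c0 ^ n‖ * ‖(1 + x) ^ n - 1 - n * x‖ ≤ 8 * (LL n ω * t) ^ 2 := by
      calc ‖Q n k c0 ^ n‖ * ‖(1 + x) ^ n - 1 - n * x‖ ≤ ‖Q n k c0 ^ n‖ * (n * ‖x‖) ^ 2 :=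
            mul_le_mul_of_nonneg_left hrem (norm_nonneg _)
        _ = (n:ℝ) ^ 2 * (‖Q n k c0 ^ n‖ * ‖x‖ ^ 2) := by ring
        _ ≤ (n:ℝ) ^ 2 * (2 * ‖E‖ ^ 2) := mul_le_mul_of_nonneg_left hqn (sq_nonneg _)
        _ ≤ (LL n ω) ^ 2 * (2 * (2 * t) ^ 2) := by
            apply mul_le_mul (pow_le_pow_left₀ (by linarith) hnL 2) _ (by positivity) (by positivity)
            exact mul_le_mul_of_nonneg_left (pow_le_pow_left₀ (norm_nonneg _) hEb 2) (by norm_num)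
        _ = _ := by ring
    have h6 : LL n ω * ‖E - D n c0 k * δ‖ ≤ LL n ω * (16 * t ^ 2) :=
      mul_le_mul_of_nonneg_left ih' (by linarith)
    have h7 : (LL n ω) ^ (k + 1) * ‖δ‖ = LL n ω * t := by rw [ht, hM, pow_succ]; ring
    rw [h7]
    nlinarith [sq_nonneg t, mul_nonneg (by linarith : (0:ℝ) ≤ LL n ω) (sq_nonneg t)]

end Pool.Agent.Q79.MS
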