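import Mathlib
import Pool.Prelude.Def_F_c31e40fa
import Pool.Agent.Q79.MultiScales

set_option autoImplicit false

open Complex Set Topology Filter Bornology N62a1eb23

namespace Pool.Agent.Q79.MS

open Pool.Agent.H712R2

/-- logarithm of `Q m c ^ n / c`, normalised at `c0` -/
noncomputable def G (n m : ℕ) (c0 c : ℂ) : ℂ :=
  n * Complex.log (Q n m c / Q n m c0) - Complex.log (c / c0)

/-- its derivative at `c0`, up to a small error -/
noncomputable def AA (n m : ℕ) (c0 : ℂ) : ℂ := n * D n c0 m / Q n m c0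

theorem Data.AA_bounds {n : ℕ} {ω c0 : ℂ} (h : Data n ω c0) (m : ℕ) :
    n * (LL n ω) ^ m / (2 * ‖c0‖) ≤ ‖AA n m c0‖ ∧ ‖AA n m c0‖ ≤ 3 / 2 * n * (LL n ω) ^ m := by
  have hρ := h.rho_ge
  have hρ0 : 0 < ‖c0‖ := by linarith
  have hD := h.D_bounds m
  have hnr : (3:ℝ) ≤ n := by exact_mod_cast h.hn
  have hL := h.three_le
  have hM : 0 < (LL n ω) ^ m := by positivity
  have e1 : ‖AA n m c0‖ = n * ‖D n c0 m‖ / ‖c0‖ := by
    unfold AA
    rw [norm_div, norm_mul, h.norm_Q]; simp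
  rw [e1]
  constructor
  · rw [div_le_div_iff₀ (by linarith) hρ0]
    have : (LL n ω) ^ m ≤ 2 * ‖D n c0 m‖ := by linarith [hD.1]
    nlinarith [mul_le_mul_of_nonneg_left this (by positivity : (0:ℝ) ≤ n * ‖c0‖)]
  · rw [div_le_iff₀ hρ0]
    have h1 : ‖D n c0 m‖ ≤ 3 / 2 * (LL n ω) ^ m := by linarith [hD.2]
    have h2 : n * ‖D n c0 m‖ ≤ n * (3 / 2 * (LL n ω) ^ m) :=
      mul_le_mul_of_nonneg_left h1 (by linarith)
    nlinarith [mul_pos (by linarith : (0:ℝ) < n) hM]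

theorem Data.near2 {n : ℕ} {ω c0 : ℂ} (h : Data n ω c0) {m : ℕ} {δ : ℂ}
    (hδ : (LL n ω) ^ m * ‖δ‖ ≤ 1 / 64) :
    ‖Q n m (c0 + δ) - Q n m c0‖ ≤ 2 * ((LL n ω) ^ m * ‖δ‖) := by
  have h1 := h.near hδ m le_rfl
  have hL := h.three_le
  have hM : 0 < (LL n ω) ^ m := by positivity
  set t := (LL n ω) ^ m * ‖δ‖ with ht
  have ht0 : 0 ≤ t := by positivity
  have h2 : ‖D n c0 m * δ‖ ≤ 3 / 2 * t := by
    rw [norm_mul, ht, ← mul_assoc]
    apply mul_le_mul_of_nonneg_right _ (norm_nonneg _)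
    linarith [(h.D_bounds m).2]
  have h3 := norm_add_le (Q n m (c0 + δ) - Q n m c0 - D n c0 m * δ) (D n c0 m * δ)
  rw [sub_add_cancel] at h3
  nlinarith

theorem Data.x_small {n : ℕ} {ω c0 : ℂ} (h : Data n ω c0) {m : ℕ} {δ : ℂ}
    (hδ : (LL n ω) ^ m * ‖δ‖ ≤ 1 / 64) :
    ∃ x : ℂ, Q n m (c0 + δ) / Q n m c0 = 1 + x ∧
      x = (Q n m (c0 + δ) - Q n m c0) / Q n m c0 ∧
      ‖x‖ ≤ 2 * ((LL n ω) ^ m * ‖δ‖) / ‖c0‖ ∧ ‖x‖ ≤ 1 / 32 := by
  have hρ := h.rho_ge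
  have hq0 : 0 < ‖Q n m c0‖ := by rw [h.norm_Q]; linarith
  have hqne : Q n m c0 ≠ 0 := norm_pos_iff.mp hq0
  have h1 := h.near2 hδ
  refine ⟨(Q n m (c0 + δ) - Q n m c0) / Q n m c0, ?_, rfl, ?_, ?_⟩
  · field_simp; ring
  · rw [norm_div, h.norm_Q]
    exact div_le_div_of_nonneg_right h1 (by linarith)
  · rw [norm_div, h.norm_Q]
    refine (div_le_self (norm_nonneg _) hρ).trans ?_
    linarith

theorem Data.norm_delta {n : ℕ} {ω c0 : ℂ} (h : Data n ω c0) {m : ℕ} {δ : ℂ}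
    (hδ : (LL n ω) ^ m * ‖δ‖ ≤ 1 / 64) : ‖δ‖ ≤ (LL n ω) ^ m * ‖δ‖ ∧ ‖δ / c0‖ ≤ 1 / 64 := by
  have hL := h.three_le
  have h1 : 1 ≤ (LL n ω) ^ m := one_le_pow₀ (by linarith)
  have h2 : ‖δ‖ ≤ (LL n ω) ^ m * ‖δ‖ := by nlinarith [norm_nonneg δ]
  refine ⟨h2, ?_⟩
  rw [norm_div]
  exact (div_le_self (norm_nonneg _) h.rho_ge).trans (h2.trans hδ)

theorem Data.c_div {n : ℕ} {ω c0 : ℂ} (h : Data n ω c0) (δ : ℂ) :
    (c0 + δ) / c0 = 1 + δ / c0 := by
  have hρ := h.rho_ge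
  have : c0 ≠ 0 := norm_pos_iff.mp (by linarith)
  field_simp

/-- near-linearity of `G` -/
theorem Data.G_near {n : ℕ} {ω c0 : ℂ} (h : Data n ω c0) {m : ℕ} {δ : ℂ}
    (hδ : (LL n ω) ^ m * ‖δ‖ ≤ 1 / 64) :
    ‖G n m c0 (c0 + δ) - AA n m c0 * δ‖ ≤
      (40 * ((LL n ω) ^ m * ‖δ‖) + 4 / n) * (‖AA n m c0‖ * ‖δ‖) := by
  obtain ⟨x, hx1, hx2, hx3, hx4⟩ := h.x_small hδ
  obtain ⟨hd1, hd2⟩ := h.norm_delta hδ
  have hρ := h.rho_ge
  have hρ0 : 0 < ‖c0‖ := by linarith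
  have hnr : (3:ℝ) ≤ n := by exact_mod_cast h.hn
  have hn0 : (0:ℝ) < n := by linarith
  have hq0 : 0 < ‖Q n m c0‖ := by rw [h.norm_Q]; linarith
  have hqne : Q n m c0 ≠ 0 := norm_pos_iff.mp hq0
  have hnear := h.near hδ m le_rfl
  set t := (LL n ω) ^ m * ‖δ‖ with ht
  have ht0 : 0 ≤ t := le_trans (norm_nonneg _) hd1
  -- the three terms
  have hid : G n m c0 (c0 + δ) - AA n m c0 * δ =
      (n:ℂ) * (Complex.log (1 + x) - x) +
      (n:ℂ) * ((Q n m (c0 + δ) - Q n m c0 - D n c0 m * δ) / Q n m c0) -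
      Complex.log (1 + δ / c0) := by
    unfold G AA
    rw [hx1, h.c_div, hx2]
    field_simp
    ring
  have hlog1 : ‖Complex.log (1 + x) - x‖ ≤ ‖x‖ ^ 2 := by
    refine (Complex.norm_log_one_add_sub_self_le (by linarith)).trans ?_
    have : (1 - ‖x‖)⁻¹ ≤ 2 := by
      rw [inv_le_comm₀ (by linarith) (by norm_num)]; linarith
    nlinarith [sq_nonneg ‖x‖]
  have hlog2 : ‖Complex.log (1 + δ / c0)‖ ≤ 3 / 2 * (‖δ‖ / ‖c0‖) := by
    have := Complex.norm_log_one_add_half_le_self (z := δ / c0) (by linarith)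
    rwa [norm_div] at this
  have h1 : ‖(n:ℂ) * (Complex.log (1 + x) - x)‖ ≤ n * (4 * t ^ 2 / ‖c0‖) := by
    rw [norm_mul, Complex.norm_natCast]
    apply mul_le_mul_of_nonneg_left _ hn0.le
    refine hlog1.trans ((pow_le_pow_left₀ (norm_nonneg _) hx3 2).trans ?_)
    rw [div_pow, div_le_div_iff₀ (by positivity) hρ0]
    have : 0 ≤ t ^ 2 * ‖c0‖ := by positivity
    nlinarith
  have h2 : ‖(n:ℂ) * ((Q n m (c0 + δ) - Q n m c0 - D n c0 m * δ) / Q n m c0)‖ ≤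
      n * (16 * t ^ 2 / ‖c0‖) := by
    rw [norm_mul, Complex.norm_natCast, norm_div, h.norm_Q]
    apply mul_le_mul_of_nonneg_left _ hn0.le
    exact div_le_div_of_nonneg_right hnear hρ0.le
  have h3 : ‖G n m c0 (c0 + δ) - AA n m c0 * δ‖ ≤
      n * (4 * t ^ 2 / ‖c0‖) + n * (16 * t ^ 2 / ‖c0‖) + 3 / 2 * (‖δ‖ / ‖c0‖) := by
    rw [hid]
    refine (norm_sub_le _ _).trans (add_le_add ((norm_add_le _ _).trans (add_le_add h1 h2)) hlog2)
  refine h3.trans ?_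
  have hA : n * t / (2 * ‖c0‖) ≤ ‖AA n m c0‖ * ‖δ‖ := by
    have := mul_le_mul_of_nonneg_right (h.AA_bounds m).1 (norm_nonneg δ)
    refine le_trans (le_of_eq ?_) this
    rw [ht]; ring
  have hκ : 0 ≤ 40 * t + 4 / (n:ℝ) := by positivity
  refine le_trans ?_ (mul_le_mul_of_nonneg_left hA hκ)
  have e1 : (40 * t + 4 / (n:ℝ)) * (n * t / (2 * ‖c0‖)) = (20 * n * t ^ 2 + 2 * t) / ‖c0‖ := by
    field_simp
    ring
  have e2 : n * (4 * t ^ 2 / ‖c0‖) + n * (16 * t ^ 2 / ‖c0‖) + 3 / 2 * (‖δ‖ / ‖c0‖) =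
      (20 * n * t ^ 2 + 3 / 2 * ‖δ‖) / ‖c0‖ := by ring
  rw [e1, e2]
  apply div_le_div_of_nonneg_right _ hρ0.le
  linarith

theorem Q_differentiable {n : ℕ} (hn : 2 ≤ n) (k : ℕ) : Differentiable ℂ (Q n k) := by
  induction k with
  | zero =>
    have : Q n 0 = id := by funext c; rw [Q_zero hn]; rfl
    rw [this]; exact differentiable_id
  | succ k ih =>
    have : Q n (k + 1) = fun c => Q n k c ^ n + c := by funext c; rw [Q_succ]
    rw [this]
    exact (ih.pow n).add differentiable_id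

theorem Data.G_differentiableAt {n : ℕ} {ω c0 : ℂ} (h : Data n ω c0) {m : ℕ} {δ : ℂ}
    (hδ : (LL n ω) ^ m * ‖δ‖ ≤ 1 / 64) : DifferentiableAt ℂ (G n m c0) (c0 + δ) := by
  obtain ⟨x, hx1, hx2, hx3, hx4⟩ := h.x_small hδ
  obtain ⟨hd1, hd2⟩ := h.norm_delta hδ
  have hn := h.hn
  have hQ := Q_differentiable (n := n) (by omega) m
  unfold G
  apply DifferentiableAt.sub
  · apply DifferentiableAt.const_mul
    apply DifferentiableAt.clog
    · exact hQ.differentiableAt.div_const _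
    · rw [hx1]
      exact Complex.mem_slitPlane_of_norm_lt_one (by linarith)
  · apply DifferentiableAt.clog
    · exact differentiableAt_id.div_const _
    · rw [h.c_div]
      exact Complex.mem_slitPlane_of_norm_lt_one (by linarith)

theorem Data.G_c0 {n : ℕ} {ω c0 : ℂ} (h : Data n ω c0) (m : ℕ) : G n m c0 c0 = 0 := by
  have hρ := h.rho_ge
  have hq0 : 0 < ‖Q n m c0‖ := by rw [h.norm_Q]; linarith
  have hqne : Q n m c0 ≠ 0 := norm_pos_iff.mp hq0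
  have hc : c0 ≠ 0 := norm_pos_iff.mp (by linarith)
  unfold G
  rw [div_self hqne, div_self hc, Complex.log_one]; simp

/-- the next orbit point in terms of `G` -/
theorem Data.Q_next {n : ℕ} {ω c0 : ℂ} (h : Data n ω c0) {m : ℕ} (hm : 1 ≤ m) {δ : ℂ}
    (hδ : (LL n ω) ^ m * ‖δ‖ ≤ 1 / 64) :
    Q n (m + 1) (c0 + δ) = (c0 + δ) * (1 + (ω - 1) * Complex.exp (G n m c0 (c0 + δ))) := by
  obtain ⟨x, hx1, hx2, hx3, hx4⟩ := h.x_small hδ
  obtain ⟨hd1, hd2⟩ := h.norm_delta hδ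
  have hρ := h.rho_ge
  have hn := h.hn
  have hq0 : 0 < ‖Q n m c0‖ := by rw [h.norm_Q]; linarith
  have hqne : Q n m c0 ≠ 0 := norm_pos_iff.mp hq0
  have hc : c0 ≠ 0 := norm_pos_iff.mp (by linarith)
  have hne1 : Q n m (c0 + δ) / Q n m c0 ≠ 0 := by
    rw [hx1]
    exact Complex.slitPlane_ne_zero (Complex.mem_slitPlane_of_norm_lt_one (by linarith))
  have hne2 : (c0 + δ) / c0 ≠ 0 := by
    rw [h.c_div]
    exact Complex.slitPlane_ne_zero (Complex.mem_slitPlane_of_norm_lt_one (by linarith))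
  have hne3 : c0 + δ ≠ 0 := by
    intro h0; rw [h0, zero_div] at hne2; exact hne2 rfl
  have hqn : Q n m c0 ^ n = (ω - 1) * c0 := by
    obtain ⟨k, rfl⟩ := Nat.exists_eq_add_of_le' hm
    rw [h.Q_c0, mul_pow, h.hω, one_mul, ← h.hc, ← pow_succ]; congr 1; omega
  have hexp : Complex.exp (G n m c0 (c0 + δ)) =
      (Q n m (c0 + δ) / Q n m c0) ^ n / ((c0 + δ) / c0) := by
    unfold G
    rw [Complex.exp_sub, Complex.exp_log hne2, Complex.exp_nat_mul, Complex.exp_log hne1]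
  rw [hexp, Q_succ, div_pow, hqn]
  have hs : ω - 1 ≠ 0 := norm_pos_iff.mp (by linarith [h.hs])
  field_simp
  ring

/-- preperiodic parameters belong to the Multibrot set -/
theorem Data.mem_of_next {n : ℕ} {ω c0 : ℂ} (h : Data n ω c0) {m : ℕ} {y : ℂ}
    (hy : Q n (m + 1) y = ω * y) : y ∈ multibrotSet n := by
  have hn := h.hn
  have h1 : Q n (m + 2) y = Q n 1 y := by
    rw [Q_succ, hy, mul_pow, h.hω, one_mul, Q_succ, Q_zero (by omega)]
  have h2 : ∀ j, Q n (m + 2 + j) y = Q n (1 + j) y := by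
    intro j
    induction j with
    | zero => exact h1
    | succ j ih =>
      rw [← add_assoc, ← add_assoc, Q_succ, Q_succ, ih]
  have h3 : ∀ i, Q n (1 + (m + 1) * i) y = Q n 1 y := by
    intro i
    induction i with
    | zero => rfl
    | succ i ih =>
      have : 1 + (m + 1) * (i + 1) = m + 2 + (m + 1) * i := by ring
      rw [this, h2, ih]
  have hdef : y ∈ multibrotSet n ↔ ¬ Tendsto (fun k => P n k y) atTop (cobounded ℂ) := Iff.rfl
  rw [hdef]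
  intro hT
  have hT2 : Tendsto (fun i : ℕ => ‖P n (2 + (m + 1) * i) y‖) atTop atTop := by
    apply tendsto_norm_cobounded_atTop.comp (hT.comp _)
    apply tendsto_atTop_mono (f := fun i : ℕ => i) _ tendsto_id
    intro i; nlinarith
  have h4 : ∀ i, ‖P n (2 + (m + 1) * i) y‖ = ‖Q n 1 y‖ := by
    intro i
    rw [← h3 i]
    unfold Q
    congr 2
    ring
  simp only [h4] at hT2
  exact not_tendsto_const_atTop _ _ hT2

theorem Data.c0_mem {n : ℕ} {ω c0 : ℂ} (h : Data n ω c0) : c0 ∈ multibrotSet n := by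
  apply h.mem_of_next (m := 0)
  exact h.Q_c0 0

/-- escape criterion -/
theorem escape {n : ℕ} (hn : 2 ≤ n) {c : ℂ} (hc : c ∈ multibrotSet n) (k : ℕ)
    (h1 : 1 ≤ ‖P n k c‖) (h4 : 4 ≤ ‖P n k c‖ ^ (n - 1)) : False := by
  rw [mem_multibrot_iff hn] at hc
  have hc2 : ‖c‖ ≤ 2 := by have := hc 1; rwa [P_one hn] at this
  have key : ∀ j, 2 ^ j ≤ ‖P n (k + j) c‖ ∧ ‖P n k c‖ ≤ ‖P n (k + j) c‖ := by
    intro j
    induction j with
    | zero => simpa using h1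
    | succ j ih =>
      obtain ⟨i1, i2⟩ := ih
      have e1 : 1 ≤ ‖P n (k + j) c‖ := h1.trans i2
      have e2 : 4 ≤ ‖P n (k + j) c‖ ^ (n - 1) :=
        h4.trans (pow_le_pow_left₀ (norm_nonneg _) i2 _)
      have e3 : ‖P n (k + j) c‖ ^ n - ‖c‖ ≤ ‖P n (k + (j + 1)) c‖ := by
        rw [← add_assoc, P_succ]
        have := norm_sub_le ((P n (k + j) c) ^ n + c) c
        rw [add_sub_cancel_right, norm_pow] at this
        linarith
      have e4 : ‖P n (k + j) c‖ ^ n = ‖P n (k + j) c‖ ^ (n - 1) * ‖P n (k + j) c‖ := by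
        rw [← pow_succ]; congr 1; omega
      rw [e4] at e3
      have e5 : 2 * ‖P n (k + j) c‖ ≤ ‖P n (k + (j + 1)) c‖ := by nlinarith
      constructor
      · rw [pow_succ]; linarith
      · linarith
  have := (key 2).1
  have h5 := hc (k + 2)
  norm_num at this
  linarith

end Pool.Agent.Q79.MS
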