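import Mathlib
import Pool.Prelude.Def_F_c31e40fa
import Pool.Agent.Q79.MultiScales2

set_option autoImplicit false

open Complex Set Topology Filter Bornology N62a1eb23

namespace Pool.Agent.Q79.MS

open Pool.Agent.H712R2

theorem Data.AA_pos {n : ℕ} {ω c0 : ℂ} (h : Data n ω c0) (m : ℕ) :
    n * (LL n ω) ^ m / 4 ≤ ‖AA n m c0‖ ∧ 0 < ‖AA n m c0‖ := by
  have h1 := (h.AA_bounds m).1
  have hρ := h.rho_ge
  have hρ2 := h.rho_le
  have hL := h.three_le
  have hnr : (3:ℝ) ≤ n := by exact_mod_cast h.hn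
  have hM : 0 < (LL n ω) ^ m := by positivity
  have h2 : n * (LL n ω) ^ m / 4 ≤ n * (LL n ω) ^ m / (2 * ‖c0‖) := by
    apply div_le_div_of_nonneg_left (by positivity) (by positivity) (by linarith)
  refine ⟨h2.trans h1, lt_of_lt_of_le ?_ (h2.trans h1)⟩
  positivity

/-- two-sided bound -/
theorem Data.G_two {n : ℕ} {ω c0 : ℂ} (h : Data n ω c0) {m : ℕ} {R κ : ℝ}
    (hR1 : (LL n ω) ^ m * R ≤ 1 / 64) (hκ : 40 * ((LL n ω) ^ m * R) + 4 / n ≤ κ)
    {δ : ℂ} (hδ : ‖δ‖ ≤ R) :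
    (1 - κ) * (‖AA n m c0‖ * ‖δ‖) ≤ ‖G n m c0 (c0 + δ)‖ ∧
    ‖G n m c0 (c0 + δ)‖ ≤ (1 + κ) * (‖AA n m c0‖ * ‖δ‖) := by
  have hL := h.three_le
  have hM : 0 < (LL n ω) ^ m := by positivity
  have h1 : (LL n ω) ^ m * ‖δ‖ ≤ (LL n ω) ^ m * R := mul_le_mul_of_nonneg_left hδ hM.le
  have h2 := h.G_near (h1.trans hR1)
  have h3 : ‖G n m c0 (c0 + δ) - AA n m c0 * δ‖ ≤ κ * (‖AA n m c0‖ * ‖δ‖) := by
    refine h2.trans (mul_le_mul_of_nonneg_right ?_ (by positivity))
    linarith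
  have h4 : ‖AA n m c0 * δ‖ = ‖AA n m c0‖ * ‖δ‖ := norm_mul _ _
  have h5 := norm_sub_norm_le (G n m c0 (c0 + δ)) (AA n m c0 * δ)
  have h6 := norm_sub_norm_le (AA n m c0 * δ) (G n m c0 (c0 + δ))
  rw [norm_sub_rev] at h6
  constructor
  · linarith
  · linarith

/-- existence of the neighbouring Misiurewicz parameter -/
theorem Data.exists_y {n : ℕ} {ω c0 : ℂ} (h : Data n ω c0) {m : ℕ} {R κ : ℝ}
    (hR1 : (LL n ω) ^ m * R ≤ 1 / 64) (hκ : 40 * ((LL n ω) ^ m * R) + 4 / n ≤ κ)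
    (hκ1 : κ < 1 / 5) (hR2 : 5 * Real.pi / ‖AA n m c0‖ ≤ R) :
    ∃ δ : ℂ, ‖δ‖ ≤ R ∧ G n m c0 (c0 + δ) = 2 * Real.pi * I := by
  have ha := (h.AA_pos m).2
  set a := ‖AA n m c0‖ with hadef
  have hπ := Real.pi_pos
  set r := 5 * Real.pi / a with hr
  have hr0 : 0 < r := by positivity
  have hL := h.three_le
  have hM : 0 < (LL n ω) ^ m := by positivity
  have hdiff : ∀ z ∈ Metric.closedBall c0 r, DifferentiableAt ℂ (G n m c0) z := by
    intro z hz
    have h1 : ‖z - c0‖ ≤ R := by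
      rw [Metric.mem_closedBall, dist_eq_norm] at hz; linarith
    have h2 := h.G_differentiableAt (m := m) (δ := z - c0)
      ((mul_le_mul_of_nonneg_left h1 hM.le).trans hR1)
    rwa [add_sub_cancel] at h2
  have hdc : DiffContOnCl ℂ (G n m c0) (Metric.ball c0 r) := by
    apply DifferentiableOn.diffContOnCl
    rw [closure_ball _ hr0.ne']
    intro z hz
    exact (hdiff z hz).differentiableWithinAt
  have hsph : ∀ z ∈ Metric.sphere c0 r, (1 - κ) * (a * r) ≤ ‖G n m c0 z - G n m c0 c0‖ := by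
    intro z hz
    rw [h.G_c0, sub_zero]
    have h1 : ‖z - c0‖ = r := by rwa [mem_sphere_iff_norm] at hz
    have h2 := (h.G_two hR1 hκ (δ := z - c0) (by rw [h1]; exact hR2)).1
    rw [add_sub_cancel, h1] at h2
    exact h2
  have hfreq : ∃ᶠ z in 𝓝 c0, G n m c0 z ≠ G n m c0 c0 := by
    have h1 : ∀ᶠ z in 𝓝[≠] c0, G n m c0 z ≠ G n m c0 c0 := by
      have h2 : ∀ᶠ z in 𝓝[≠] c0, z ∈ Metric.ball c0 r :=
        (nhdsWithin_le_nhds (Metric.ball_mem_nhds _ hr0))
      filter_upwards [h2, self_mem_nhdsWithin] with z hz hne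
      rw [h.G_c0]
      have h3 : ‖z - c0‖ ≤ R := by
        rw [Metric.mem_ball, dist_eq_norm] at hz; linarith
      have h4 := (h.G_two hR1 hκ (δ := z - c0) h3).1
      rw [add_sub_cancel] at h4
      have h5 : 0 < ‖z - c0‖ := norm_pos_iff.mpr (sub_ne_zero.mpr hne)
      have h6 : 0 < (1 - κ) * (‖AA n m c0‖ * ‖z - c0‖) := by
        apply mul_pos (by linarith) (mul_pos ha h5)
      exact norm_pos_iff.mp (lt_of_lt_of_le h6 h4)
    exact h1.frequently.filter_mono nhdsWithin_le_nhds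
  have hsub := hdc.ball_subset_image_closedBall hr0 hsph hfreq
  have hmem : (2 * Real.pi * I : ℂ) ∈ Metric.ball (G n m c0 c0) ((1 - κ) * (a * r) / 2) := by
    rw [h.G_c0, Metric.mem_ball, dist_zero_right]
    have e1 : a * r = 5 * Real.pi := by rw [hr]; field_simp
    rw [e1]
    simp only [norm_mul, Complex.norm_I, mul_one, Complex.norm_real, Real.norm_eq_abs,
      abs_of_pos hπ]
    norm_num
    nlinarith
  obtain ⟨y, hy, hyG⟩ := hsub hmem
  refine ⟨y - c0, ?_, ?_⟩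
  · rw [Metric.mem_closedBall, dist_eq_norm] at hy; linarith
  · rw [add_sub_cancel]; exact hyG

theorem Data.y_mem {n : ℕ} {ω c0 : ℂ} (h : Data n ω c0) {m : ℕ} (hm : 1 ≤ m) {δ : ℂ}
    (hδ : (LL n ω) ^ m * ‖δ‖ ≤ 1 / 64) (hG : G n m c0 (c0 + δ) = 2 * Real.pi * I) :
    c0 + δ ∈ multibrotSet n := by
  apply h.mem_of_next (m := m)
  rw [h.Q_next hm hδ, hG, Complex.exp_two_pi_mul_I]
  ring

/-- the angle of the barrier -/
theorem exists_angle (w : ℂ) : ∃ v : ℝ, 0 ≤ v ∧ v ≤ 2 * Real.pi ∧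
    w * Complex.exp (v * I) = (‖w‖ : ℂ) := by
  have h1 := Complex.norm_mul_exp_arg_mul_I w
  have hπ := Real.pi_pos
  rcases le_or_gt w.arg 0 with h | h
  · refine ⟨-w.arg, by linarith, by linarith [Complex.neg_pi_lt_arg w], ?_⟩
    nth_rewrite 1 [← h1]
    rw [mul_assoc, ← Complex.exp_add]
    push_cast
    ring_nf
    simp
  · refine ⟨2 * Real.pi - w.arg, by linarith [Complex.arg_le_pi w], by linarith, ?_⟩
    nth_rewrite 1 [← h1]
    rw [mul_assoc, ← Complex.exp_add]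
    have : (w.arg : ℂ) * I + ((2 * Real.pi - w.arg : ℝ) : ℂ) * I = 2 * Real.pi * I := by
      push_cast; ring
    rw [this, Complex.exp_two_pi_mul_I, mul_one]

/-- the barrier -/
theorem Data.barrier {n : ℕ} {ω c0 : ℂ} (h : Data n ω c0) {m : ℕ} (hm : 1 ≤ m) {R κ t : ℝ}
    (hR1 : (LL n ω) ^ m * R ≤ 1 / 64) (hκ : 40 * ((LL n ω) ^ m * R) + 4 / n ≤ κ)
    (ht : t = Real.exp (-((1 + κ) * (‖AA n m c0‖ * R)))) (hRt : 4 * R ≤ t)
    (hesc : 4 ≤ (1 + t / 2) ^ (n - 1))
    {S : Set ℂ} (hS : S ⊆ multibrotSet n) (hSc : IsPreconnected S) (hc : c0 ∈ S)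
    (hSR : ∀ s ∈ S, ‖s - c0‖ ≤ R)
    {δ : ℂ} (hG : G n m c0 (c0 + δ) = 2 * Real.pi * I) (hy : c0 + δ ∈ S) : False := by
  have hn := h.hn
  have hL := h.three_le
  have hM : 0 < (LL n ω) ^ m := by positivity
  have hρ := h.rho_ge
  have hR0 : 0 ≤ R := (norm_nonneg _).trans (hSR c0 hc)
  have ha := (h.AA_pos m).2
  have hnr : (3:ℝ) ≤ n := by exact_mod_cast hn
  have hκ0 : 0 ≤ κ := le_trans (by positivity) hκ
  obtain ⟨v, hv0, hv1, hv⟩ := exists_angle (ω - 1)
  have hcont : ContinuousOn (fun z => (G n m c0 z).im) S := by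
    intro z hz
    apply ContinuousAt.continuousWithinAt
    have h1 := h.G_differentiableAt (m := m) (δ := z - c0)
      ((mul_le_mul_of_nonneg_left (hSR z hz) hM.le).trans hR1)
    rw [add_sub_cancel] at h1
    exact Complex.continuous_im.continuousAt.comp h1.continuousAt
  have hivt := hSc.intermediate_value hc hy hcont
  simp only [h.G_c0, hG] at hivt
  have hmem : v ∈ Icc (0:ℂ).im (2 * Real.pi * I : ℂ).im := by
    constructor
    · simpa using hv0
    · simpa using hv1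
  obtain ⟨s, hs, hsv⟩ := hivt hmem
  simp only at hsv
  have hsR := hSR s hs
  have hsd : (LL n ω) ^ m * ‖s - c0‖ ≤ 1 / 64 :=
    (mul_le_mul_of_nonneg_left hsR hM.le).trans hR1
  have hnext := h.Q_next hm hsd
  have htwo := (h.G_two hR1 hκ (δ := s - c0) hsR).2
  rw [add_sub_cancel] at hnext htwo
  set g := G n m c0 s with hg
  have hgre : -((1 + κ) * (‖AA n m c0‖ * R)) ≤ g.re := by
    have h1 := Complex.abs_re_le_norm g
    rw [abs_le] at h1
    have h2 : (1 + κ) * (‖AA n m c0‖ * ‖s - c0‖) ≤ (1 + κ) * (‖AA n m c0‖ * R) := by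
      apply mul_le_mul_of_nonneg_left _ (by linarith)
      exact mul_le_mul_of_nonneg_left hsR ha.le
    linarith [h1.1]
  have hexp : (ω - 1) * Complex.exp g = ((‖ω - 1‖ * Real.exp g.re : ℝ) : ℂ) := by
    have : g = (g.re : ℂ) + (v : ℂ) * I := by
      rw [← hsv]; exact (Complex.re_add_im g).symm
    rw [this, Complex.exp_add]
    push_cast
    simp only [Complex.add_re, Complex.ofReal_re, Complex.mul_re, Complex.I_re, mul_zero,
      Complex.ofReal_im, Complex.I_im, mul_one, sub_self, add_zero]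
    rw [← hv]
    ring
  rw [hexp] at hnext
  set τ := ‖ω - 1‖ * Real.exp g.re with hτ
  have hτt : t ≤ τ := by
    rw [ht, hτ]
    have h1 := Real.exp_le_exp.mpr hgre
    have h2 : 0 ≤ Real.exp g.re := (Real.exp_pos _).le
    nlinarith [h.hs]
  have ht0 : 0 < t := by rw [ht]; exact Real.exp_pos _
  have ht1 : t ≤ 1 := by
    rw [ht]; apply Real.exp_le_one_iff.mpr
    have : 0 ≤ (1 + κ) * (‖AA n m c0‖ * R) := by positivity
    linarith
  have hsn : 1 - R ≤ ‖s‖ := by
    have h1 := norm_sub_norm_le c0 s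
    rw [norm_sub_rev] at h1
    linarith
  have hPn : 1 + t / 2 ≤ ‖Q n (m + 1) s‖ := by
    rw [hnext, norm_mul]
    have h1 : ‖(1:ℂ) + (τ : ℂ)‖ = 1 + τ := by
      have : (1:ℂ) + (τ:ℂ) = ((1 + τ : ℝ) : ℂ) := by push_cast; ring
      rw [this, Complex.norm_real, Real.norm_eq_abs, abs_of_nonneg (by linarith)]
    rw [h1]
    have h2 : (1 - R) * (1 + t) ≤ ‖s‖ * (1 + τ) := by
      apply mul_le_mul hsn (by linarith) (by linarith) (norm_nonneg _)
    nlinarith
  apply escape (by omega) (hS hs) (m + 2)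
  · change 1 ≤ ‖Q n (m + 1) s‖
    linarith
  · change 4 ≤ ‖Q n (m + 1) s‖ ^ (n - 1)
    exact hesc.trans (pow_le_pow_left₀ (by linarith) hPn _)

/-- the bounds on the parameters -/
theorem Data.main {n : ℕ} {ω c0 : ℂ} (h : Data n ω c0) {m : ℕ} (hm : 1 ≤ m) {e : ℝ}
    (he0 : 0 < e) (he1 : e ≤ 1 / 4)
    (H1 : (160 * Real.log n + 4) / n ≤ e) (H1' : (160 * Real.log n + 4) / n ≤ 1 / 10)
    (H2 : 4 * Real.log n / n ≤ 1 / 64)
    (H3 : 10 * Real.pi ≤ Real.log n) (H5 : 12 ≤ (n : ℝ) ^ e) :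
    ∃ y ∈ multibrotSet n, 1 / (2 * (n : ℝ)) ^ (m + 1) ≤ dist y c0 ∧
      dist y c0 ≤ 30 / (n : ℝ) ^ (m + 1) ∧
      ∀ S ⊆ multibrotSet n, IsConnected S → c0 ∈ S → y ∈ S →
        (1 - 4 * e) * (Real.log n / (2 * Real.pi)) * dist y c0 ≤ Metric.diam S := by
  have hn := h.hn
  have hnr : (3:ℝ) ≤ n := by exact_mod_cast hn
  have hn0 : (0:ℝ) < n := by linarith
  have hL := h.three_le
  have hnL := h.le_LL
  have hLn := h.LL_le
  have hπ := Real.pi_pos
  have hlog : 0 < Real.log n := by linarith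
  obtain ⟨ha1, ha⟩ := h.AA_pos m
  have ha2 := (h.AA_bounds m).2
  have hρ := h.rho_ge
  set M := (LL n ω) ^ m with hMdef
  have hM : 0 < M := by positivity
  have hMn : (n:ℝ) ^ m ≤ M := pow_le_pow_left₀ hn0.le hnL m
  have hMn1 : (n:ℝ) ≤ M := le_trans (le_self_pow₀ (by linarith) (by omega)) hMn
  have hMn2 : M ≤ (2 * (n:ℝ)) ^ m := pow_le_pow_left₀ (by linarith) hLn m
  set a := ‖AA n m c0‖ with hadef
  set R := (1 - 2 * e) * Real.log n / a with hRdef
  have haR : a * R = (1 - 2 * e) * Real.log n := by rw [hRdef]; field_simp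
  have hR0 : 0 < R := by
    rw [hRdef]; apply div_pos (mul_pos (by linarith) hlog) ha
  have hMR : M * R ≤ 4 * Real.log n / n := by
    rw [le_div_iff₀ hn0]
    have h1 : n * M / 4 * R ≤ a * R := mul_le_mul_of_nonneg_right ha1 hR0.le
    rw [haR] at h1
    have h2 : (1 - 2 * e) * Real.log n ≤ Real.log n := by nlinarith
    linarith
  set κ := (160 * Real.log n + 4) / (n:ℝ) with hκdef
  have hκ : 40 * (M * R) + 4 / n ≤ κ := by
    have : κ = 40 * (4 * Real.log n / n) + 4 / n := by rw [hκdef]; ring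
    rw [this]; linarith
  have hκ0 : 0 ≤ κ := by positivity
  have hR1 : M * R ≤ 1 / 64 := hMR.trans H2
  have hR2 : 5 * Real.pi / a ≤ R := by
    rw [hRdef]
    apply div_le_div_of_nonneg_right _ ha.le
    nlinarith
  obtain ⟨δ, hδ, hG⟩ := h.exists_y hR1 hκ (by linarith) hR2
  have hδM : M * ‖δ‖ ≤ 1 / 64 := (mul_le_mul_of_nonneg_left hδ hM.le).trans hR1
  have hdist : dist (c0 + δ) c0 = ‖δ‖ := by rw [dist_eq_norm, add_sub_cancel_left]
  obtain ⟨g1, g2⟩ := h.G_two hR1 hκ hδ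
  have hnormG : ‖G n m c0 (c0 + δ)‖ = 2 * Real.pi := by
    rw [hG]
    simp [abs_of_pos hπ]
  rw [hnormG, ← hadef] at g1 g2
  refine ⟨c0 + δ, h.y_mem hm hδM hG, ?_, ?_, ?_⟩
  · -- lower bound on the distance
    rw [hdist, div_le_iff₀ (by positivity)]
    have e1 : a * ‖δ‖ ≤ 3 / 2 * n * (2 * (n:ℝ)) ^ m * ‖δ‖ := by
      apply mul_le_mul_of_nonneg_right _ (norm_nonneg _)
      refine ha2.trans ?_
      exact mul_le_mul_of_nonneg_left hMn2 (by positivity)
    have e2 : 2 * Real.pi ≤ 11 / 10 * (3 / 2 * n * (2 * (n:ℝ)) ^ m * ‖δ‖) := by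
      refine g2.trans ?_
      apply mul_le_mul (by linarith) e1 (by positivity) (by norm_num)
    rw [pow_succ]
    have := Real.pi_gt_three
    nlinarith
  · -- upper bound on the distance
    rw [hdist, le_div_iff₀ (by positivity)]
    have e1 : n * (n:ℝ) ^ m / 4 * ‖δ‖ ≤ a * ‖δ‖ := by
      apply mul_le_mul_of_nonneg_right _ (norm_nonneg _)
      refine le_trans ?_ ha1
      apply div_le_div_of_nonneg_right _ (by norm_num)
      exact mul_le_mul_of_nonneg_left hMn hn0.le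
    have e2 : 9 / 10 * (n * (n:ℝ) ^ m / 4 * ‖δ‖) ≤ 2 * Real.pi := by
      refine le_trans ?_ g1
      apply mul_le_mul (by linarith) e1 (by positivity) (by linarith)
    rw [pow_succ]
    have := Real.pi_lt_d2
    nlinarith
  · intro S hS hSc hcS hyS
    rw [hdist]
    -- a point of `S` at distance at least `R`
    have hfar : ∃ s ∈ S, R ≤ ‖s - c0‖ := by
      by_contra hcon
      push Not at hcon
      refine h.barrier hm hR1 hκ rfl ?_ ?_ hS hSc.isPreconnected hcS
        (fun s hs => (hcon s hs).le) hG hyS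
      · -- `4 R ≤ t`
        have e1 : 4 * R ≤ 1 / n := by
          rw [le_div_iff₀ hn0]
          have : R * n ≤ M * R := by nlinarith
          linarith
        refine e1.trans ?_
        rw [← hadef, haR]
        have e2 : (1:ℝ) / n = Real.exp (- Real.log n) := by
          rw [Real.exp_neg, Real.exp_log hn0, one_div]
        rw [e2]
        apply Real.exp_le_exp.mpr
        have : (1 + κ) * ((1 - 2 * e) * Real.log n) ≤ 1 * Real.log n := by
          rw [← mul_assoc]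
          apply mul_le_mul_of_nonneg_right _ hlog.le
          nlinarith
        linarith
      · -- the escape condition
        rw [← hadef, haR]
        have e1 : (n:ℝ) ^ e / n ≤ Real.exp (-((1 + κ) * ((1 - 2 * e) * Real.log n))) := by
          have e2 : (n:ℝ) ^ e / n = Real.exp (-(1 - e) * Real.log n) := by
            rw [Real.rpow_def_of_pos hn0]
            nth_rewrite 2 [← Real.exp_log hn0]
            rw [← Real.exp_sub]
            congr 1; ring
          rw [e2]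
          apply Real.exp_le_exp.mpr
          have : (1 + κ) * ((1 - 2 * e) * Real.log n) ≤ (1 - e) * Real.log n := by
            rw [← mul_assoc]
            apply mul_le_mul_of_nonneg_right _ hlog.le
            nlinarith
          linarith
        have e3 : (12:ℝ) / n ≤ Real.exp (-((1 + κ) * ((1 - 2 * e) * Real.log n))) :=
          le_trans (div_le_div_of_nonneg_right H5 hn0.le) e1
        have e4 := one_add_mul_le_pow (a := Real.exp (-((1 + κ) * ((1 - 2 * e) * Real.log n))) / 2)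
          (by have := Real.exp_pos (-((1 + κ) * ((1 - 2 * e) * Real.log n))); linarith) (n - 1)
        refine le_trans ?_ e4
        rw [Nat.cast_sub (by omega)]
        push_cast
        have e5 : ((n:ℝ) - 1) * (12 / n / 2) ≤
            ((n:ℝ) - 1) * (Real.exp (-((1 + κ) * ((1 - 2 * e) * Real.log n))) / 2) := by
          apply mul_le_mul_of_nonneg_left _ (by linarith)
          linarith
        have e6 : (3:ℝ) ≤ ((n:ℝ) - 1) * (12 / n / 2) := by
          have : ((n:ℝ) - 1) * (12 / n / 2) = 6 - 6 / n := by field_simp; ring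
          rw [this]
          have : 6 / (n:ℝ) ≤ 2 := by rw [div_le_iff₀ hn0]; linarith
          linarith
        linarith
    obtain ⟨s, hs, hsR⟩ := hfar
    have hSb : IsBounded S := by
      apply (Metric.isBounded_closedBall (x := (0:ℂ)) (r := 2)).subset
      intro z hz
      rw [mem_closedBall_zero_iff]
      have h1 := (mem_multibrot_iff (by omega) z).mp (hS hz) 1
      rwa [P_one (by omega)] at h1
    have hdiam : R ≤ Metric.diam S := by
      have := Metric.dist_le_diam_of_mem hSb hs hcS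
      rw [dist_eq_norm] at this
      linarith
    refine le_trans ?_ hdiam
    rw [hRdef, le_div_iff₀ ha]
    have e1 : a * ‖δ‖ * (1 - κ) ≤ 2 * Real.pi := by linarith
    have e2 : (1 - 4 * e) ≤ (1 - 2 * e) * (1 - κ) := by nlinarith
    have e3 : (1 - 4 * e) * (a * ‖δ‖) ≤ (1 - 2 * e) * (2 * Real.pi) := by
      calc (1 - 4 * e) * (a * ‖δ‖) ≤ (1 - 2 * e) * (1 - κ) * (a * ‖δ‖) :=
            mul_le_mul_of_nonneg_right e2 (by positivity)
        _ = (1 - 2 * e) * (a * ‖δ‖ * (1 - κ)) := by ring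
        _ ≤ _ := mul_le_mul_of_nonneg_left e1 (by linarith)
    have e4 : (1 - 4 * e) * (Real.log n / (2 * Real.pi)) * ‖δ‖ * a =
        (Real.log n / (2 * Real.pi)) * ((1 - 4 * e) * (a * ‖δ‖)) := by ring
    rw [e4]
    calc (Real.log n / (2 * Real.pi)) * ((1 - 4 * e) * (a * ‖δ‖)) ≤
        (Real.log n / (2 * Real.pi)) * ((1 - 2 * e) * (2 * Real.pi)) :=
          mul_le_mul_of_nonneg_left e3 (by positivity)
      _ = (1 - 2 * e) * Real.log n := by field_simp

theorem scales (ε : ℝ) (hε : 0 < ε) : ∃ n₀ : ℕ, ∀ n : ℕ, n₀ ≤ n → ∀ ω c : ℂ, ω ^ n = 1 →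
    1 ≤ ‖ω - 1‖ → c ^ (n - 1) = ω - 1 → c ∈ multibrotSet n ∧ ∀ m : ℕ, 1 ≤ m →
    ∃ y ∈ multibrotSet n, 1 / (2 * (n : ℝ)) ^ (m + 1) ≤ dist y c ∧
      dist y c ≤ 30 / (n : ℝ) ^ (m + 1) ∧
      ∀ S ⊆ multibrotSet n, IsConnected S → c ∈ S → y ∈ S →
        (1 - ε) * (Real.log n / (2 * Real.pi)) * dist y c ≤ Metric.diam S := by
  set e := min ε 1 / 4 with he
  have he0 : 0 < e := by rw [he]; positivity
  have he1 : e ≤ 1 / 4 := by rw [he]; linarith [min_le_right ε 1]
  have he4 : 4 * e ≤ ε := by rw [he]; linarith [min_le_left ε 1]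
  have T1 : Tendsto (fun n : ℕ => (160 * Real.log n + 4) / (n:ℝ)) atTop (𝓝 0) := by
    have h1 : Tendsto (fun x : ℝ => Real.log x / x) atTop (𝓝 0) := by
      have := Real.isLittleO_log_id_atTop.tendsto_div_nhds_zero
      simpa using this
    have h2 := h1.comp (tendsto_natCast_atTop_atTop (R := ℝ))
    have h3 : Tendsto (fun n : ℕ => 4 / (n:ℝ)) atTop (𝓝 0) :=
      tendsto_const_div_atTop_nhds_zero_nat 4
    have h4 := (h2.const_mul 160).add h3
    simp only [mul_zero, add_zero] at h4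
    refine h4.congr (fun n => ?_)
    simp only [Function.comp]
    ring
  have T3 : Tendsto (fun n : ℕ => Real.log (n:ℝ)) atTop atTop :=
    Real.tendsto_log_atTop.comp (tendsto_natCast_atTop_atTop (R := ℝ))
  have T5 : Tendsto (fun n : ℕ => (n:ℝ) ^ e) atTop atTop :=
    (tendsto_rpow_atTop he0).comp (tendsto_natCast_atTop_atTop (R := ℝ))
  have E1 := T1.eventually_le_const he0
  have E1' := T1.eventually_le_const (show (0:ℝ) < 1 / 10 by norm_num)
  have E2 := T1.eventually_le_const (show (0:ℝ) < 1 / 64 by norm_num)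
  have E3 := T3.eventually_ge_atTop (10 * Real.pi)
  have E5 := T5.eventually_ge_atTop 12
  obtain ⟨n₀, hn₀⟩ := eventually_atTop.mp
    (E1.and (E1'.and (E2.and (E3.and (E5.and (eventually_ge_atTop 3))))))
  refine ⟨n₀, ?_⟩
  intro n hn ω c hω hs hc
  obtain ⟨F1, F1', F2, F3, F5, F6⟩ := hn₀ n hn
  have h : Data n ω c := ⟨F6, hω, hs, hc⟩
  refine ⟨h.c0_mem, ?_⟩
  intro m hm
  have hnr : (3:ℝ) ≤ n := by exact_mod_cast F6
  have hlog : 0 ≤ Real.log n := Real.log_nonneg (by linarith)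
  have F2' : 4 * Real.log n / n ≤ 1 / 64 := by
    refine le_trans ?_ F2
    apply div_le_div_of_nonneg_right _ (by linarith)
    linarith
  obtain ⟨y, hy, hy1, hy2, hy3⟩ := h.main hm he0 he1 F1 F1' F2' F3 F5
  refine ⟨y, hy, hy1, hy2, ?_⟩
  intro S hS hSc hcS hyS
  refine le_trans ?_ (hy3 S hS hSc hcS hyS)
  have h1 : 0 ≤ Real.log n / (2 * Real.pi) * dist y c := by
    have := Real.pi_pos
    positivity
  nlinarith

end Pool.Agent.Q79.MS
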