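import Mathlib
import Pool.Prelude.Def_F_c31e40fa
import Pool.Agent.Q79.MultiScales3

set_option autoImplicit false

open Complex Set Topology Filter Bornology N62a1eb23

namespace Pool.Agent.Q79.MS

open Pool.Agent.H712R2

/-- iterates of `z ↦ z ^ n + c` -/
noncomputable def FF (n : ℕ) (c : ℂ) : ℕ → ℂ → ℂ
  | 0, z => z
  | k + 1, z => (FF n c k z) ^ n + c

theorem FF_continuous (n k : ℕ) : Continuous fun p : ℂ × ℂ => FF n p.1 k p.2 := by
  induction k with
  | zero => simpa [FF] using continuous_snd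
  | succ k ih => exact (ih.pow n).add continuous_fst

theorem FF_differentiable (n : ℕ) (c : ℂ) (k : ℕ) : Differentiable ℂ (FF n c k) := by
  induction k with
  | zero => exact differentiable_id
  | succ k ih => exact (ih.pow n).add_const c

theorem FF_Q (n m k : ℕ) (c : ℂ) : FF n c k (Q n m c) = Q n (m + k) c := by
  induction k with
  | zero => rfl
  | succ k ih => rw [FF, ih, ← add_assoc, Q_succ]

theorem Data.FF_c0 {n : ℕ} {ω c0 : ℂ} (h : Data n ω c0) (k : ℕ) : FF n c0 k c0 = Q n k c0 := by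
  have := FF_Q n 0 k c0
  rwa [Q_zero (by have := h.hn; omega), zero_add] at this

theorem Data.FF_deriv {n : ℕ} {ω c0 : ℂ} (h : Data n ω c0) (k : ℕ) :
    ∃ X : ℂ, HasDerivAt (FF n c0 k) X c0 ∧ ‖X‖ = (LL n ω) ^ k := by
  induction k with
  | zero => exact ⟨1, hasDerivAt_id c0, by simp⟩
  | succ k ih =>
    obtain ⟨X, hX, hn⟩ := ih
    refine ⟨(n:ℂ) * (FF n c0 k c0) ^ (n - 1) * X, (hX.fun_pow n).add_const c0, ?_⟩
    rw [h.FF_c0, norm_mul, h.norm_mult, hn, pow_succ]; ring

/-- escaping points near `c0` -/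
theorem Data.exists_escaping {n : ℕ} {ω c0 : ℂ} (h : Data n ω c0) {η : ℝ} (hη : 0 < η) :
    ∃ z, ‖z - c0‖ < η ∧ ∃ k, 3 < ‖FF n c0 k z‖ := by
  by_contra hcon
  push Not at hcon
  have hL := h.three_le
  obtain ⟨k, hk⟩ := pow_unbounded_of_one_lt (3 / (η / 2)) (show (1:ℝ) < LL n ω by linarith)
  obtain ⟨X, hX, hXn⟩ := h.FF_deriv k
  have h1 := Complex.norm_deriv_le_of_forall_mem_sphere_norm_le (c := c0) (R := η / 2) (C := 3)
    (f := FF n c0 k) (by positivity) ((FF_differentiable n c0 k).diffContOnCl)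
    (fun z hz => hcon z (by rw [mem_sphere_iff_norm] at hz; linarith) k)
  rw [hX.deriv, hXn] at h1
  linarith

/-- escaping points are joined to the outside of the disc of radius 3 -/
theorem path_out {n : ℕ} {c z0 : ℂ} (hz : ∃ k, 3 < ‖FF n c k z0‖) :
    ∃ z1 : ℂ, 3 < ‖z1‖ ∧ ∃ Γ : Set ℂ, IsCompact Γ ∧ IsPreconnected Γ ∧ z0 ∈ Γ ∧ z1 ∈ Γ ∧
      ∀ z ∈ Γ, ∃ k, 3 < ‖FF n c k z‖ := by
  set E : Set ℂ := {z | ∃ k, 3 < ‖FF n c k z‖} with hE
  have hEo : IsOpen E := by
    have : E = ⋃ k, {z | 3 < ‖FF n c k z‖} := by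
      ext z; simp [hE]
    rw [this]
    exact isOpen_iUnion fun k =>
      isOpen_lt continuous_const (FF_differentiable n c k).continuous.norm
  have hz0 : z0 ∈ E := hz
  set V := connectedComponentIn E z0 with hV
  have hVo : IsOpen V := hEo.connectedComponentIn
  have hz0V : z0 ∈ V := mem_connectedComponentIn hz0
  have hVE : V ⊆ E := connectedComponentIn_subset _ _
  have hVc : IsConnected V := isConnected_connectedComponentIn_iff.mpr hz0
  -- the component reaches the outside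
  have hout : ∃ z1 ∈ V, 3 < ‖z1‖ := by
    by_contra hcon
    push Not at hcon
    obtain ⟨k, hk⟩ := hz
    have hb : IsBounded V := by
      apply (Metric.isBounded_closedBall (x := (0:ℂ)) (r := 3)).subset
      intro z hz
      rw [mem_closedBall_zero_iff]; exact hcon z hz
    have hfr : ∀ z ∈ frontier V, ‖FF n c k z‖ ≤ 3 := by
      intro z hz
      by_contra hzk
      push Not at hzk
      have hzE : z ∈ E := ⟨k, hzk⟩
      have hWo : IsOpen (connectedComponentIn E z) := hEo.connectedComponentIn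
      have hzW : z ∈ connectedComponentIn E z := mem_connectedComponentIn hzE
      have hzcl : z ∈ closure V := frontier_subset_closure hz
      obtain ⟨w, hwW, hwV⟩ := mem_closure_iff.mp hzcl _ hWo hzW
      have e1 : connectedComponentIn E z = connectedComponentIn E w :=
        connectedComponentIn_eq hwW
      have e2 : connectedComponentIn E z0 = connectedComponentIn E w :=
        connectedComponentIn_eq hwV
      have hzV : z ∈ V := by rw [hV, e2, ← e1]; exact hzW
      rw [hVo.frontier_eq] at hz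
      exact hz.2 hzV
    have := Complex.norm_le_of_forall_mem_frontier_norm_le hb
      (FF_differentiable n c k).diffContOnCl hfr (subset_closure hz0V)
    linarith
  obtain ⟨z1, hz1, hz1n⟩ := hout
  have hp : IsPathConnected V := hVo.isConnected_iff_isPathConnected.mp hVc
  obtain ⟨γ, hγ⟩ := hp.joinedIn z0 hz0V z1 hz1
  refine ⟨z1, hz1n, range γ, isCompact_range γ.continuous, isPreconnected_range γ.continuous,
    ⟨0, γ.source⟩, ⟨1, γ.target⟩, ?_⟩
  rintro z ⟨t, rfl⟩
  exact hVE (hγ t)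

/-- continuous logarithms along a connected set -/
theorem log_branch {Γ : Set ℂ} (hΓ : IsPreconnected Γ) {r : ℝ} (hr : 0 < r) {A : Set ℂ}
    (hA : ∀ p ∈ A, ∀ z ∈ Γ, r ≤ ‖p - z‖) {z0 z1 : ℂ} (h0 : z0 ∈ Γ) (h1 : z1 ∈ Γ) :
    ∃ Λ : ℂ → ℂ, ContinuousOn Λ A ∧ ∀ p ∈ A, Complex.exp (Λ p) = (p - z0) / (p - z1) := by
  have hne : ∀ p ∈ A, ∀ z ∈ Γ, p - z ≠ 0 := by
    intro p hp z hz h
    have := hA p hp z hz
    rw [h, norm_zero] at this
    linarith
  refine hΓ.induction₂ (fun z w => ∃ Λ : ℂ → ℂ, ContinuousOn Λ A ∧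
    ∀ p ∈ A, Complex.exp (Λ p) = (p - z) / (p - w)) ?_ ?_ ?_ h0 h1
  · intro z hz
    have hb : Metric.ball z r ∈ 𝓝[Γ] z := nhdsWithin_le_nhds (Metric.ball_mem_nhds _ hr)
    filter_upwards [hb, self_mem_nhdsWithin] with w hw hwΓ
    have hslit : ∀ p ∈ A, (p - z) / (p - w) ∈ slitPlane := by
      intro p hp
      have e1 : (p - z) / (p - w) = 1 + (w - z) / (p - w) := by
        have := hne p hp w hwΓ
        field_simp
        ring
      rw [e1]
      apply Complex.mem_slitPlane_of_norm_lt_one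
      rw [norm_div, div_lt_one (norm_pos_iff.mpr (hne p hp w hwΓ))]
      rw [Metric.mem_ball, dist_eq_norm] at hw
      exact lt_of_lt_of_le hw (hA p hp w hwΓ)
    refine ⟨fun p => Complex.log ((p - z) / (p - w)), ?_, ?_⟩
    · intro p hp
      apply ContinuousAt.continuousWithinAt
      have : ContinuousAt (fun p => (p - z) / (p - w)) p :=
        (continuousAt_id.sub continuousAt_const).div (continuousAt_id.sub continuousAt_const)
          (hne p hp w hwΓ)
      exact this.clog (hslit p hp)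
    · intro p hp
      exact Complex.exp_log (Complex.slitPlane_ne_zero (hslit p hp))
  · rintro x y z hx hy hz ⟨Λ1, c1, e1⟩ ⟨Λ2, c2, e2⟩
    refine ⟨fun p => Λ1 p + Λ2 p, c1.add c2, ?_⟩
    intro p hp
    rw [Complex.exp_add, e1 p hp, e2 p hp]
    have := hne p hp y hy
    have := hne p hp z hz
    field_simp
  · rintro x y hx hy ⟨Λ1, c1, e1⟩
    refine ⟨fun p => - Λ1 p, c1.neg, ?_⟩
    intro p hp
    rw [Complex.exp_neg, e1 p hp, inv_div]

/-- a continuous function on a preconnected set whose exponential is constant is constant -/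
theorem const_of_exp_const {S : Set ℂ} (hS : IsPreconnected S) {H : ℂ → ℂ}
    (hH : ContinuousOn H S) {q : ℂ} (hq : ∀ s ∈ S, Complex.exp (H s) = q) {x y : ℂ}
    (hx : x ∈ S) (hy : y ∈ S) : H x = H y := by
  refine hS.induction₂ (fun a b => H a = H b) ?_ (fun _ _ _ _ _ _ h1 h2 => h1.trans h2)
    (fun _ _ _ _ h1 => h1.symm) hx hy
  intro a ha
  have h1 : ∀ᶠ b in 𝓝[S] a, dist (H b) (H a) < 1 := by
    have := (hH a ha)
    exact Metric.tendsto_nhds.mp this 1 one_pos
  filter_upwards [h1, self_mem_nhdsWithin] with b hb hbS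
  have h2 : Complex.exp (H a) = Complex.exp (H b) := by rw [hq a ha, hq b hbS]
  rw [Complex.exp_eq_exp_iff_exists_int] at h2
  obtain ⟨k, hk⟩ := h2
  have h3 : ‖H b - H a‖ = |(k:ℝ)| * (2 * Real.pi) := by
    have : H b - H a = -((k:ℂ) * (2 * Real.pi * I)) := by rw [hk]; ring
    rw [this, norm_neg, norm_mul]
    have e1 : ‖(k:ℂ)‖ = |(k:ℝ)| := by
      rw [← Complex.ofReal_intCast, Complex.norm_real, Real.norm_eq_abs]
    have e2 : ‖(2 * Real.pi * I : ℂ)‖ = 2 * Real.pi := by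
      simp [abs_of_pos Real.pi_pos]
    rw [e1, e2]
  rw [dist_eq_norm, h3] at hb
  have hk0 : k = 0 := by
    by_contra hk0
    have : (1:ℝ) ≤ |(k:ℝ)| := by exact_mod_cast Int.one_le_abs hk0
    have := Real.pi_gt_three
    nlinarith
  rw [hk, hk0]; simp

/-- robustness of the escaping continuum -/
theorem Data.robust {n : ℕ} {ω c0 : ℂ} (h : Data n ω c0) {Γ : Set ℂ} (hΓ : IsCompact Γ)
    (hesc : ∀ z ∈ Γ, ∃ k, 3 < ‖FF n c0 k z‖) :
    ∃ δ > 0, ∃ r > 0, ∀ s ∈ multibrotSet n, dist s c0 < δ → ∀ k : ℕ, ∀ z ∈ Γ,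
      r ≤ ‖Q n k s - z‖ := by
  set E : Set (ℂ × ℂ) := {p | ∃ k, 3 < ‖FF n p.1 k p.2‖} with hE
  have hEo : IsOpen E := by
    have : E = ⋃ k, {p : ℂ × ℂ | 3 < ‖FF n p.1 k p.2‖} := by
      ext z; simp [hE]
    rw [this]
    exact isOpen_iUnion fun k => isOpen_lt continuous_const (FF_continuous n k).norm
  have hsub : ({c0} : Set ℂ) ×ˢ Γ ⊆ E := by
    rintro ⟨c, z⟩ ⟨hc, hz⟩
    simp only [mem_singleton_iff] at hc
    subst hc
    exact hesc z hz
  obtain ⟨u, v, huo, hvo, hu, hv, huv⟩ :=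
    generalized_tube_lemma isCompact_singleton hΓ hEo hsub
  obtain ⟨r, hr, hrv⟩ := hΓ.exists_thickening_subset_open hvo hv
  obtain ⟨δ, hδ, hδu⟩ := Metric.isOpen_iff.mp huo c0 (hu rfl)
  refine ⟨δ, hδ, r, hr, ?_⟩
  intro s hs hsd k z hz
  by_contra hcon
  push Not at hcon
  have h1 : Q n k s ∈ v := by
    apply hrv
    rw [Metric.mem_thickening_iff]
    exact ⟨z, hz, by rwa [dist_eq_norm]⟩
  have h2 : (s, Q n k s) ∈ E := huv ⟨hδu hsd, h1⟩
  obtain ⟨j, hj⟩ := h2
  simp only [FF_Q] at hj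
  have hn := h.hn
  have h3 := (mem_multibrot_iff (by omega) s).mp hs (k + j + 1)
  change ‖Q n (k + j) s‖ ≤ 2 at h3
  linarith

/-- the winding argument: no connected set in a small disc joins `c0` and `y` -/
theorem Data.winding {n : ℕ} {ω c0 : ℂ} (h : Data n ω c0) (hn : 30000 ≤ n) :
    ∃ δ > 0, ∀ m : ℕ, 1 ≤ m → 1 / (64 * (LL n ω) ^ m) < δ → ∀ S ⊆ multibrotSet n,
      IsPreconnected S → c0 ∈ S → ∀ y ∈ S, G n m c0 y = 2 * Real.pi * I →
      (∀ s ∈ S, ‖s - c0‖ ≤ 1 / (64 * (LL n ω) ^ m)) → False := by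
  have hρ := h.rho_ge
  have hρ2 := h.rho_le
  have hc0 : c0 ≠ 0 := norm_pos_iff.mp (by linarith)
  have hω := h.norm_omega
  have hs1 := h.hs
  have hL := h.three_le
  have hωne : ω - 1 ≠ 0 := norm_pos_iff.mp (by linarith)
  have hnr : (30000:ℝ) ≤ n := by exact_mod_cast hn
  set t : ℝ := Real.exp (-(n:ℝ) / 25) with ht
  have ht0 : 0 < t := Real.exp_pos _
  have ht1 : t ≤ 1 := by
    rw [ht]; apply Real.exp_le_one_iff.mpr
    have : (0:ℝ) ≤ n := by linarith
    linarith
  obtain ⟨z0, hz0, hz0e⟩ := h.exists_escaping (η := t / 8) (by positivity)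
  obtain ⟨z1, hz1, Γ, hΓc, hΓp, hz0Γ, hz1Γ, hΓe⟩ := path_out hz0e
  obtain ⟨δ1, hδ1, r, hr, hrob⟩ := h.robust hΓc hΓe
  set A : Set ℂ := {p | ∀ z ∈ Γ, r ≤ ‖p - z‖} with hA
  obtain ⟨Λ, hΛc, hΛe⟩ := log_branch hΓp hr (A := A) (fun p hp => hp) hz0Γ hz1Γ
  have hz1ne : z1 ≠ 0 := norm_pos_iff.mp (by linarith)
  have hAne : ∀ p ∈ A, ∀ z ∈ Γ, p - z ≠ 0 := by
    intro p hp z hz h
    have := hp z hz
    rw [h, norm_zero] at this
    linarith
  have hωc0 : ω * c0 ∈ A := by
    intro z hz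
    have := hrob c0 h.c0_mem (by simpa using hδ1) 1 z hz
    rwa [h.Q_c0] at this
  -- slit plane facts
  have hslit1 : ∀ p s : ℂ, ‖z0 - s‖ < ‖p - s‖ → (p - z0) / (p - s) ∈ slitPlane := by
    intro p s hps
    have hne : p - s ≠ 0 := norm_pos_iff.mp (lt_of_le_of_lt (norm_nonneg _) hps)
    have e1 : (p - z0) / (p - s) = 1 + (s - z0) / (p - s) := by
      field_simp
      ring
    rw [e1]
    apply Complex.mem_slitPlane_of_norm_lt_one
    rw [norm_div, div_lt_one (norm_pos_iff.mpr hne), norm_sub_rev]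
    exact hps
  have hslit2 : ∀ p : ℂ, ‖p‖ ≤ 3 → (p - z1) / (-z1) ∈ slitPlane := by
    intro p hp
    have e1 : (p - z1) / (-z1) = 1 + (-(p / z1)) := by
      field_simp
      ring
    rw [e1]
    apply Complex.mem_slitPlane_of_norm_lt_one
    rw [norm_neg, norm_div, div_lt_one (by linarith)]
    linarith
  -- the comparison function
  set K : ℂ → ℂ := fun y => Λ (ω * y) - Complex.log ((ω * y - z0) / (ω * y - y)) +
    Complex.log ((ω * y - z1) / (-z1)) - Complex.log (y / c0) with hK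
  have hKc : ContinuousWithinAt K {y | ω * y ∈ A} c0 := by
    have hωcne : ω * c0 - c0 ≠ 0 := by
      have : ω * c0 - c0 = (ω - 1) * c0 := by ring
      rw [this]; exact mul_ne_zero hωne hc0
    have b1 : ContinuousWithinAt (fun y => Λ (ω * y)) {y | ω * y ∈ A} c0 := by
      have := hΛc (ω * c0) hωc0
      exact ContinuousWithinAt.comp (f := fun y => ω * y) this
        (continuous_const.mul continuous_id).continuousWithinAt (fun y hy => hy)
    have b2 : ContinuousAt (fun y => Complex.log ((ω * y - z0) / (ω * y - y))) c0 := by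
      apply ContinuousAt.clog
      · refine ContinuousAt.div (f := fun y => ω * y - z0) (g := fun y => ω * y - y) ?_ ?_ hωcne
        · fun_prop
        · fun_prop
      · apply hslit1
        have : ω * c0 - c0 = (ω - 1) * c0 := by ring
        rw [this, norm_mul]
        nlinarith
    have b3 : ContinuousAt (fun y => Complex.log ((ω * y - z1) / (-z1))) c0 := by
      apply ContinuousAt.clog
      · fun_prop
      · apply hslit2
        rw [norm_mul, hω]; linarith
    have b4 : ContinuousAt (fun y => Complex.log (y / c0)) c0 := by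
      apply ContinuousAt.clog
      · fun_prop
      · rw [div_self hc0]; exact Complex.one_mem_slitPlane
    exact ((b1.sub b2.continuousWithinAt).add b3.continuousWithinAt).sub b4.continuousWithinAt
  obtain ⟨δ2, hδ2, hKδ⟩ := Metric.continuousWithinAt_iff.mp hKc 1 one_pos
  refine ⟨min (min δ1 δ2) (t / 8), by positivity, ?_⟩
  intro m hm hRm S hS hSc hcS y hyS hGy hSR
  set R := 1 / (64 * (LL n ω) ^ m) with hR
  have hM : 0 < (LL n ω) ^ m := by positivity
  have hMR : (LL n ω) ^ m * R = 1 / 64 := by rw [hR]; field_simp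
  have hR0 : 0 < R := by positivity
  have hRδ1 : R < δ1 := lt_of_lt_of_le hRm ((min_le_left _ _).trans (min_le_left _ _))
  have hRδ2 : R < δ2 := lt_of_lt_of_le hRm ((min_le_left _ _).trans (min_le_right _ _))
  have hRt : R < t / 8 := lt_of_lt_of_le hRm (min_le_right _ _)
  have hsd : ∀ s ∈ S, (LL n ω) ^ m * ‖s - c0‖ ≤ 1 / 64 := fun s hs => by
    rw [← hMR]; exact mul_le_mul_of_nonneg_left (hSR s hs) hM.le
  have hnext : ∀ s ∈ S, Q n (m + 1) s = s * (1 + (ω - 1) * Complex.exp (G n m c0 s)) := by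
    intro s hs
    have := h.Q_next hm (hsd s hs)
    rwa [add_sub_cancel] at this
  have hdiff : ∀ s ∈ S, Q n (m + 1) s - s = s * (ω - 1) * Complex.exp (G n m c0 s) := by
    intro s hs; rw [hnext s hs]; ring
  have hsnorm : ∀ s ∈ S, 1 / 2 ≤ ‖s‖ := by
    intro s hs
    have h1 := norm_sub_norm_le c0 s
    rw [norm_sub_rev] at h1
    have := hSR s hs
    linarith
  have hGn : ∀ s ∈ S, ‖G n m c0 s‖ ≤ n / 25 := by
    intro s hs
    have h1 := (h.G_two (m := m) (R := R) (κ := 7 / 10) hMR.le (by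
      rw [hMR]
      have : 4 / (n:ℝ) ≤ 1 / 100 := by rw [div_le_iff₀ (by linarith)]; linarith
      linarith) (hSR s hs)).2
    rw [add_sub_cancel] at h1
    have h2 := (h.AA_bounds m).2
    have h3 : ‖AA n m c0‖ * ‖s - c0‖ ≤ 3 / 2 * n * (1 / 64) := by
      calc ‖AA n m c0‖ * ‖s - c0‖ ≤ 3 / 2 * n * (LL n ω) ^ m * R :=
            mul_le_mul h2 (hSR s hs) (norm_nonneg _) (by positivity)
        _ = 3 / 2 * n * ((LL n ω) ^ m * R) := by ring
        _ = _ := by rw [hMR]
    linarith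
  have hlow : ∀ s ∈ S, t / 2 ≤ ‖Q n (m + 1) s - s‖ := by
    intro s hs
    rw [hdiff s hs, norm_mul, norm_mul, Complex.norm_exp]
    have h1 := hsnorm s hs
    have h2 : t ≤ Real.exp (G n m c0 s).re := by
      rw [ht]
      apply Real.exp_le_exp.mpr
      have h3 := Complex.abs_re_le_norm (G n m c0 s)
      have h4 := hGn s hs
      have h5 := neg_abs_le (G n m c0 s).re
      linarith
    have h6 : 1 / 2 ≤ ‖s‖ * ‖ω - 1‖ := by nlinarith [norm_nonneg s]
    calc t / 2 = 1 / 2 * t := by ring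
      _ ≤ _ := mul_le_mul h6 h2 ht0.le (by positivity)
  have hclose : ∀ s ∈ S, ‖z0 - s‖ < ‖Q n (m + 1) s - s‖ := by
    intro s hs
    have h1 : ‖z0 - s‖ ≤ ‖z0 - c0‖ + ‖s - c0‖ := by
      rw [norm_sub_rev s c0]
      have := norm_add_le (z0 - c0) (c0 - s)
      rwa [sub_add_sub_cancel] at this
    have h2 := hSR s hs
    have h3 := hlow s hs
    linarith
  have hφA : ∀ s ∈ S, Q n (m + 1) s ∈ A := by
    intro s hs z hz
    exact hrob s (hS hs) (by rw [dist_eq_norm]; exact lt_of_le_of_lt (hSR s hs) hRδ1) (m + 1) z hz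
  have hφ3 : ∀ s ∈ S, ‖Q n (m + 1) s‖ ≤ 3 := by
    intro s hs
    have h3 := (mem_multibrot_iff (by omega) s).mp (hS hs) (m + 1 + 1)
    change ‖Q n (m + 1) s‖ ≤ 2 at h3
    linarith
  have hs0 : ∀ s ∈ S, s ≠ 0 := fun s hs => norm_pos_iff.mp (by linarith [hsnorm s hs])
  have hsc : ∀ s ∈ S, s / c0 ∈ slitPlane := by
    intro s hs
    have e1 : s / c0 = 1 + (s - c0) / c0 := by field_simp; ring
    rw [e1]
    apply Complex.mem_slitPlane_of_norm_lt_one
    rw [norm_div, div_lt_one (by linarith)]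
    have := hSR s hs
    linarith
  -- the function `H`
  set H : ℂ → ℂ := fun s => Λ (Q n (m + 1) s) -
    Complex.log ((Q n (m + 1) s - z0) / (Q n (m + 1) s - s)) +
    Complex.log ((Q n (m + 1) s - z1) / (-z1)) - Complex.log (s / c0) - G n m c0 s with hH
  have hQc : Continuous (Q n (m + 1)) := (Q_differentiable (by omega) _).continuous
  have hHc : ContinuousOn H S := by
    intro s hs
    have hne : Q n (m + 1) s - s ≠ 0 :=
      norm_pos_iff.mp (lt_of_le_of_lt (norm_nonneg _) (hclose s hs))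
    have b1 : ContinuousWithinAt (fun s => Λ (Q n (m + 1) s)) S s :=
      ContinuousWithinAt.comp (f := Q n (m + 1)) (hΛc _ (hφA s hs)) hQc.continuousWithinAt hφA
    have b2 : ContinuousAt
        (fun s => Complex.log ((Q n (m + 1) s - z0) / (Q n (m + 1) s - s))) s := by
      apply ContinuousAt.clog
      · refine ContinuousAt.div (f := fun s => Q n (m + 1) s - z0)
          (g := fun s => Q n (m + 1) s - s) ?_ ?_ hne
        · fun_prop
        · fun_prop
      · exact hslit1 _ _ (hclose s hs)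
    have b3 : ContinuousAt (fun s => Complex.log ((Q n (m + 1) s - z1) / (-z1))) s := by
      apply ContinuousAt.clog
      · fun_prop
      · exact hslit2 _ (hφ3 s hs)
    have b4 : ContinuousAt (fun s => Complex.log (s / c0)) s := by
      apply ContinuousAt.clog
      · fun_prop
      · exact hsc s hs
    have b5 : ContinuousAt (G n m c0) s := by
      have := h.G_differentiableAt (hsd s hs)
      rw [add_sub_cancel] at this
      exact this.continuousAt
    exact (((b1.sub b2.continuousWithinAt).add b3.continuousWithinAt).sub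
      b4.continuousWithinAt).sub b5.continuousWithinAt
  have hHe : ∀ s ∈ S, Complex.exp (H s) = (ω - 1) * c0 / (-z1) := by
    intro s hs
    have hne : Q n (m + 1) s - s ≠ 0 :=
      norm_pos_iff.mp (lt_of_le_of_lt (norm_nonneg _) (hclose s hs))
    have hne0 := hAne _ (hφA s hs) z0 hz0Γ
    have hne1 := hAne _ (hφA s hs) z1 hz1Γ
    have hsne := hs0 s hs
    rw [hH]
    simp only
    rw [Complex.exp_sub, Complex.exp_sub, Complex.exp_add, Complex.exp_sub, hΛe _ (hφA s hs),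
      Complex.exp_log (Complex.slitPlane_ne_zero (hslit1 _ _ (hclose s hs))),
      Complex.exp_log (Complex.slitPlane_ne_zero (hslit2 _ (hφ3 s hs))),
      Complex.exp_log (Complex.slitPlane_ne_zero (hsc s hs))]
    have hE := Complex.exp_ne_zero (G n m c0 s)
    have hd := hdiff s hs
    have e1 : (Q n (m + 1) s - z0) / (Q n (m + 1) s - z1) /
        ((Q n (m + 1) s - z0) / (Q n (m + 1) s - s)) * ((Q n (m + 1) s - z1) / (-z1)) =
        (Q n (m + 1) s - s) / (-z1) := by
      field_simp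
    rw [e1, hd]
    field_simp
  have hHconst := const_of_exp_const hSc hHc hHe hcS hyS
  -- evaluate at the two points
  have hφc : Q n (m + 1) c0 = ω * c0 := h.Q_c0 m
  have hφy : Q n (m + 1) y = ω * y := by
    rw [hnext y hyS, hGy, Complex.exp_two_pi_mul_I]; ring
  have hHc0 : H c0 = K c0 := by
    simp only [hH, hK, hφc, h.G_c0, sub_zero]
  have hHy : H y = K y - 2 * Real.pi * I := by
    simp only [hH, hK, hφy, hGy]
  have hyA : ω * y ∈ A := by rw [← hφy]; exact hφA y hyS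
  have hlt := hKδ (x := y) hyA (by rw [dist_eq_norm]; exact lt_of_le_of_lt (hSR y hyS) hRδ2)
  have : K y - K c0 = 2 * Real.pi * I := by rw [← hHc0, hHconst, hHy]; ring
  rw [dist_eq_norm, this] at hlt
  have hn2 : ‖(2 * Real.pi * I : ℂ)‖ = 2 * Real.pi := by
    simp [abs_of_pos Real.pi_pos]
  rw [hn2] at hlt
  have := Real.pi_gt_three
  linarith

/-- the main estimate at small scales -/
theorem Data.blow {n : ℕ} {ω c0 : ℂ} (h : Data n ω c0) (hn : 30000 ≤ n) :
    ∃ m₀ : ℕ, ∀ m : ℕ, m₀ ≤ m → ∃ y ∈ multibrotSet n,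
      1 / (2 * (n : ℝ)) ^ (m + 1) ≤ dist y c0 ∧ dist y c0 ≤ 30 / (n : ℝ) ^ (m + 1) ∧
      ∀ S ⊆ multibrotSet n, IsConnected S → c0 ∈ S → y ∈ S →
        n / 1800 * dist y c0 ≤ Metric.diam S := by
  obtain ⟨δ0, hδ0, hwind⟩ := h.winding hn
  have hL := h.three_le
  have hnL := h.le_LL
  have hLn := h.LL_le
  have hnr : (30000:ℝ) ≤ n := by exact_mod_cast hn
  have hn0 : (0:ℝ) < n := by linarith
  have hπ := Real.pi_pos
  have hπ1 := Real.pi_gt_three
  have hπ2 := Real.pi_lt_d2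
  obtain ⟨k0, hk0⟩ := pow_unbounded_of_one_lt (δ0⁻¹) (show (1:ℝ) < LL n ω by linarith)
  refine ⟨k0 + 1, ?_⟩
  intro m hm
  have hm1 : 1 ≤ m := by omega
  set M := (LL n ω) ^ m with hMdef
  have hM : 0 < M := by positivity
  have hMk : (LL n ω) ^ k0 ≤ M := pow_le_pow_right₀ (by linarith) (by omega)
  have hRδ : 1 / (64 * M) < δ0 := by
    rw [div_lt_iff₀ (by positivity)]
    have h1 : δ0⁻¹ < M := lt_of_lt_of_le hk0 hMk
    have h2 : 1 < δ0 * M := by
      rw [inv_lt_iff_one_lt_mul₀ hδ0] at h1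
      linarith
    nlinarith
  have hMn : (n:ℝ) ^ m ≤ M := pow_le_pow_left₀ hn0.le hnL m
  have hMn2 : M ≤ (2 * (n:ℝ)) ^ m := pow_le_pow_left₀ (by linarith) hLn m
  obtain ⟨ha1, ha⟩ := h.AA_pos m
  have ha2 := (h.AA_bounds m).2
  set a := ‖AA n m c0‖ with hadef
  set R' := 20 * Real.pi / (n * M) with hR'
  have hR'0 : 0 < R' := by positivity
  have hMR' : M * R' = 20 * Real.pi / n := by rw [hR']; field_simp
  have hb1 : 20 * Real.pi / (n:ℝ) ≤ 1 / 400 := by rw [div_le_iff₀ hn0]; linarith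
  have hb2 : 4 / (n:ℝ) ≤ 1 / 7500 := by rw [div_le_iff₀ hn0]; linarith
  have hκ : 40 * (M * R') + 4 / n ≤ 1 / 10 := by
    rw [hMR']
    have : 20 * Real.pi / (n:ℝ) ≤ 63 / 30000 := by rw [div_le_iff₀ hn0]; linarith
    linarith
  have hR1 : M * R' ≤ 1 / 64 := by rw [hMR']; linarith
  have hR2 : 5 * Real.pi / a ≤ R' := by
    rw [hR', div_le_div_iff₀ ha (by positivity)]
    have : n * M ≤ 4 * a := by linarith
    nlinarith
  obtain ⟨δ, hδ, hG⟩ := h.exists_y hR1 hκ (by norm_num) hR2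
  have hδM : M * ‖δ‖ ≤ 1 / 64 := (mul_le_mul_of_nonneg_left hδ hM.le).trans hR1
  have hdist : dist (c0 + δ) c0 = ‖δ‖ := by rw [dist_eq_norm, add_sub_cancel_left]
  obtain ⟨g1, g2⟩ := h.G_two hR1 hκ hδ
  have hnormG : ‖G n m c0 (c0 + δ)‖ = 2 * Real.pi := by
    rw [hG]
    simp [abs_of_pos hπ]
  rw [hnormG, ← hadef] at g1 g2
  -- `M ‖δ‖ ≤ 80 π / (9 n)`
  have hup : n * (M * ‖δ‖) ≤ 80 / 9 * Real.pi := by
    have e1 : n * M / 4 * ‖δ‖ ≤ a * ‖δ‖ := mul_le_mul_of_nonneg_right ha1 (norm_nonneg _)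
    have e2 : (1 - 1 / 10) * (n * M / 4 * ‖δ‖) ≤ 2 * Real.pi := by
      refine le_trans ?_ g1
      exact mul_le_mul_of_nonneg_left e1 (by norm_num)
    linarith
  refine ⟨c0 + δ, h.y_mem hm1 hδM hG, ?_, ?_, ?_⟩
  · rw [hdist, div_le_iff₀ (by positivity)]
    have e1 : a * ‖δ‖ ≤ 3 / 2 * n * (2 * (n:ℝ)) ^ m * ‖δ‖ := by
      apply mul_le_mul_of_nonneg_right _ (norm_nonneg _)
      refine ha2.trans ?_
      exact mul_le_mul_of_nonneg_left hMn2 (by positivity)
    have e2 : 2 * Real.pi ≤ 11 / 10 * (3 / 2 * n * (2 * (n:ℝ)) ^ m * ‖δ‖) := by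
      refine g2.trans ?_
      apply mul_le_mul (by norm_num) e1 (by positivity) (by norm_num)
    rw [pow_succ]
    nlinarith
  · rw [hdist, le_div_iff₀ (by positivity), pow_succ]
    have e1 : ‖δ‖ * ((n:ℝ) ^ m * n) ≤ n * (M * ‖δ‖) := by
      have : (n:ℝ) ^ m * (n * ‖δ‖) ≤ M * (n * ‖δ‖) :=
        mul_le_mul_of_nonneg_right hMn (by positivity)
      linarith
    linarith
  · intro S hS hSc hcS hyS
    rw [hdist]
    have hfar : ∃ s ∈ S, 1 / (64 * M) ≤ ‖s - c0‖ := by
      by_contra hcon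
      push Not at hcon
      exact hwind m hm1 hRδ S hS hSc.isPreconnected hcS _ hyS hG (fun s hs => (hcon s hs).le)
    obtain ⟨s, hs, hsR⟩ := hfar
    have hSb : IsBounded S := by
      apply (Metric.isBounded_closedBall (x := (0:ℂ)) (r := 2)).subset
      intro z hz
      rw [mem_closedBall_zero_iff]
      have h1 := (mem_multibrot_iff (by omega) z).mp (hS hz) 1
      rwa [P_one (by omega)] at h1
    have hdiam : 1 / (64 * M) ≤ Metric.diam S := by
      have := Metric.dist_le_diam_of_mem hSb hs hcS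
      rw [dist_eq_norm] at this
      linarith
    refine le_trans ?_ hdiam
    rw [le_div_iff₀ (by positivity)]
    have : n / 1800 * ‖δ‖ * (64 * M) = 64 / 1800 * (n * (M * ‖δ‖)) := by ring
    rw [this]
    nlinarith

end Pool.Agent.Q79.MS
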