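import Mathlib
import Pool.Prelude.Def_F_c31e40fa
import Pool.Agent.H712R2.MultiCoarse2

set_option autoImplicit false

open Complex Set Topology Filter Bornology N62a1eb23

namespace Pool.Agent.Q79.MM

open Pool.Agent.H712R2

/-! ### The barrier: the cusp rays separate the outer part of the Multibrot set -/

/-- The sector pieces are closed. -/
theorem isClosed_sector (d : ℕ) (j : ℤ) : IsClosed (Complex.exp '' (KK d j)) := by
  have hKc : IsCompact (KK d j) := by
    apply Metric.isCompact_of_isClosed_isBounded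
    · exact isClosed_Icc.reProdIm isClosed_Icc
    · exact (Metric.isBounded_Icc _ _).reProdIm (Metric.isBounded_Icc _ _)
  exact (hKc.image Complex.continuous_exp).isClosed

/-- A connected part of the Multibrot set that meets a sector piece and its complement comes down
to the cusp radius. -/
theorem barrier {d : ℕ} (hd : 2 ≤ d) (j : ℤ) {S : Set ℂ} (hS : IsPreconnected S)
    (hSM : S ⊆ multibrotSet d) {x y : ℂ} (hx : x ∈ S) (hy : y ∈ S)
    (hxj : x ∉ Complex.exp '' (KK d j)) (hyj : y ∈ Complex.exp '' (KK d j)) :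
    ∃ c ∈ S, ‖c‖ ≤ rr d := by
  by_contra hcon
  push Not at hcon
  have hrr := rr_pos hd
  set O : Set ℂ := Complex.exp '' (Ioi (Real.log (rr d)) ×ℂ Ioo (th d j) (th d (j + 1))) with hO
  have hOo : IsOpen O := isOpenMap_exp _ (isOpen_Ioi.reProdIm isOpen_Ioo)
  have hKO : ∀ c ∈ S, c ∈ Complex.exp '' (KK d j) → c ∈ O := by
    rintro _ hcS ⟨z, hz, rfl⟩
    have hre : Real.log (rr d) < z.re := by
      have := hcon _ hcS
      rw [norm_exp_eq] at this
      rwa [Real.log_lt_iff_lt_exp hrr]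
    have hcusp : ∀ i : ℤ, z.im ≠ th d i := by
      intro i hi
      have h1 : Complex.exp z = Complex.exp ((th d i : ℝ) * I) * ((Real.exp z.re : ℝ) : ℂ) := by
        rw [Complex.ofReal_exp, ← Complex.exp_add]
        congr 1
        apply Complex.ext <;> simp [hi]
      apply cusp_escape hd (t := Real.exp z.re) _ (exp_th_pow hd i)
      · rw [← h1]; exact hSM hcS
      · rwa [← Real.log_lt_iff_lt_exp hrr]
    refine ⟨z, ⟨hre, ?_, ?_⟩, rfl⟩
    · exact lt_of_le_of_ne hz.2.1 (fun h => hcusp j h.symm)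
    · exact lt_of_le_of_ne hz.2.2 (fun h => hcusp (j + 1) h)
  obtain ⟨c, hcS, hcO, hcK⟩ := hS O (Complex.exp '' (KK d j))ᶜ hOo (isClosed_sector d j).isOpen_compl
    (fun c hc => by
      by_cases h : c ∈ Complex.exp '' (KK d j)
      · exact Or.inl (hKO c hc h)
      · exact Or.inr h) ⟨y, hy, hKO y hy hyj⟩ ⟨x, hx, hxj⟩
  apply hcK
  obtain ⟨z, hz, rfl⟩ := hcO
  have h2 := norm_le_two hd (hSM hcS)
  rw [norm_exp_eq] at h2
  exact ⟨z, ⟨⟨le_of_lt hz.1, (Real.le_log_iff_exp_le (by norm_num)).mpr h2⟩,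
    ⟨hz.2.1.le, hz.2.2.le⟩⟩, rfl⟩

/-- Parameters with `c ^ (d - 1) = -1` are centres of components of period two. -/
theorem centre_mem {d : ℕ} (hd : 2 ≤ d) {c : ℂ} (hc : c ^ (d - 1) = -1) : c ∈ multibrotSet d := by
  rw [mem_multibrot_iff hd]
  have hc1 : ‖c‖ = 1 := by
    have : ‖c‖ ^ (d - 1) = 1 := by rw [← norm_pow, hc, norm_neg, norm_one]
    exact (pow_eq_one_iff_of_nonneg (norm_nonneg _) (by omega)).mp this
  have hcd : c ^ d = -c := by
    have : c ^ d = c ^ (d - 1) * c := by rw [← pow_succ]; congr 1; omega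
    rw [this, hc]; ring
  have key : ∀ k, P d k c = 0 ∨ P d k c = c := by
    intro k
    induction k with
    | zero => left; exact P_zero d c
    | succ k ih =>
      rw [P_succ]
      rcases ih with h | h
      · right; rw [h, zero_pow (by omega), zero_add]
      · left; rw [h, hcd]; ring
  intro k
  rcases key k with h | h
  · rw [h]; simp
  · rw [h, hc1]; norm_num

/-- the two neighbouring centres -/
noncomputable def pt (d : ℕ) (s : ℝ) : ℂ := Complex.exp ((s * (Real.pi / ((d:ℝ) - 1)) : ℝ) * I)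

theorem norm_pt (d : ℕ) (s : ℝ) : ‖pt d s‖ = 1 := by
  unfold pt; exact Complex.norm_exp_ofReal_mul_I _

theorem pt_pow {d : ℕ} (hd : 2 ≤ d) {s : ℝ} (hs : s = 1 ∨ s = -1) : (pt d s) ^ (d - 1) = -1 := by
  have hdr : (2:ℝ) ≤ d := by exact_mod_cast hd
  have h0 : (d:ℝ) - 1 ≠ 0 := by linarith
  have hd1 : ((d - 1 : ℕ) : ℝ) = (d : ℝ) - 1 := by
    rw [Nat.cast_sub (by omega)]; simp
  unfold pt
  rw [← Complex.exp_nat_mul]
  have h1 : (((d - 1 : ℕ) : ℂ)) * (((s * (Real.pi / ((d:ℝ) - 1)) : ℝ) : ℂ) * I) =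
      ((s * Real.pi : ℝ) : ℂ) * I := by
    have : ((((d - 1 : ℕ) : ℝ)) * (s * (Real.pi / ((d:ℝ) - 1)))) = s * Real.pi := by
      rw [hd1]; field_simp
    rw [← this]; push_cast; ring
  rw [h1]
  rcases hs with rfl | rfl
  · rw [one_mul, Complex.exp_pi_mul_I]
  · rw [neg_one_mul, Complex.ofReal_neg, neg_mul, Complex.exp_neg, Complex.exp_pi_mul_I]; norm_num

theorem pt_pos_mem {d : ℕ} (hd : 3 ≤ d) : pt d 1 ∈ Complex.exp '' (KK d 0) := by
  have hdr : (3:ℝ) ≤ d := by exact_mod_cast hd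
  have h0 : 0 < (d:ℝ) - 1 := by linarith
  have hrr := rr_pos (d := d) (by omega)
  have hlt : rr d < 1 := by
    have h1 : rr d ≤ sr d := by
      unfold rr
      have := pow_nonneg (sr_pos d).le d
      linarith
    linarith [sr_lt_one (d := d) (by omega)]
  refine ⟨((1 * (Real.pi / ((d:ℝ) - 1)) : ℝ) : ℂ) * I, ⟨?_, ?_⟩, rfl⟩
  · simp only [mem_preimage, Complex.re_ofReal_mul, Complex.I_re, mul_zero, mem_Icc]
    exact ⟨Real.log_nonpos hrr.le hlt.le, Real.log_nonneg (by norm_num)⟩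
  · simp only [mem_preimage, Complex.im_ofReal_mul, Complex.I_im, mul_one, mem_Icc]
    unfold th
    have hpi := Real.pi_pos
    constructor
    · simp only [Int.cast_zero, mul_zero, zero_div]
      positivity
    · rw [one_mul]
      apply div_le_div_of_nonneg_right _ h0.le
      push_cast
      linarith

theorem pt_neg_not_mem {d : ℕ} (hd : 3 ≤ d) : pt d (-1) ∉ Complex.exp '' (KK d 0) := by
  rintro ⟨z, ⟨-, hz1, hz2⟩, hz⟩
  have hdr : (3:ℝ) ≤ d := by exact_mod_cast hd
  have h0 : 0 < (d:ℝ) - 1 := by linarith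
  unfold pt at hz
  rw [Complex.exp_eq_exp_iff_exists_int] at hz
  obtain ⟨n, hn⟩ := hz
  have hpi := Real.pi_pos
  have him' : z.im = -(Real.pi / ((d:ℝ) - 1)) + n * (2 * Real.pi) := by
    have h3 := congrArg Complex.im hn
    have e4 : (n:ℂ) * (2 * (Real.pi:ℂ) * I) = ((n * (2 * Real.pi) : ℝ) : ℂ) * I := by
      push_cast; ring
    rw [e4, Complex.add_im, Complex.im_ofReal_mul, Complex.im_ofReal_mul, Complex.I_im] at h3
    linarith
  unfold th at hz1 hz2
  simp only [Int.cast_zero, mul_zero, zero_div] at hz1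
  have hz2' : z.im ≤ 2 * (Real.pi / ((d:ℝ) - 1)) := by
    refine hz2.trans (le_of_eq ?_)
    push_cast; ring
  have hq : 0 < Real.pi / ((d:ℝ) - 1) := by positivity
  have hq2 : Real.pi / ((d:ℝ) - 1) ≤ Real.pi / 2 :=
    div_le_div_of_nonneg_left hpi.le (by norm_num) (by linarith)
  have hn0 : 0 < n := by
    by_contra h
    push Not at h
    have : (n:ℝ) ≤ 0 := by exact_mod_cast h
    nlinarith
  have hn1 : (1:ℝ) ≤ n := by exact_mod_cast hn0
  nlinarith

theorem dist_pt {d : ℕ} (hd : 2 ≤ d) : dist (pt d (-1)) (pt d 1) ≤ 2 * Real.pi / ((d:ℝ) - 1) := by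
  have hdr : (2:ℝ) ≤ d := by exact_mod_cast hd
  have h0 : 0 < (d:ℝ) - 1 := by linarith
  unfold pt
  refine dist_exp_le.trans ?_
  have hq : 0 < Real.pi / ((d:ℝ) - 1) := by have := Real.pi_pos; positivity
  simp only [Complex.mul_re, Complex.ofReal_re, Complex.I_re, mul_zero, Complex.ofReal_im,
    Complex.I_im, mul_one, sub_self, Real.exp_zero, abs_zero, Complex.mul_im, zero_add, add_zero,
    one_mul]
  have : |(-1 * (Real.pi / ((d:ℝ) - 1))) - (Real.pi / ((d:ℝ) - 1))| = 2 * Real.pi / ((d:ℝ) - 1) := by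
    rw [abs_of_neg (by linarith)]; ring
  rw [this]


/-! ### The upper bound -/

/-- outer radius -/
noncomputable def RR (d : ℕ) : ℝ := 1 + 1 / ((d:ℝ) - 1)

noncomputable def qq (d : ℕ) : ℝ := 2 * (2 * Real.pi / ((d:ℝ) - 1))

/-- radial retraction onto the disc of radius `rr d` -/
noncomputable def ret (d : ℕ) (x : ℂ) : ℂ := if ‖x‖ ≤ rr d then x else ((rr d / ‖x‖ : ℝ) : ℂ) * x

theorem norm_ret {d : ℕ} (hd : 2 ≤ d) (x : ℂ) : ‖ret d x‖ ≤ rr d := by
  unfold ret
  split_ifs with h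
  · exact h
  · push Not at h
    have hrr := rr_pos hd
    have hx : 0 < ‖x‖ := hrr.trans h
    rw [norm_mul, Complex.norm_real, Real.norm_eq_abs, abs_of_pos (by positivity),
      div_mul_cancel₀ _ hx.ne']

theorem exists_V {d : ℕ} (hd : 2 ≤ d) {x : ℂ} (hx : x ∈ multibrotSet d) :
    ∃ V : Set ℂ, IsPreconnected V ∧ V ⊆ multibrotSet d ∧ x ∈ V ∧ ret d x ∈ V ∧
      ((‖x‖ ≤ rr d ∧ V = {x}) ∨ (rr d < ‖x‖ ∧ ∀ a ∈ V, rr d ≤ ‖a‖ ∧ ‖a‖ ≤ RR d ∧
        dist a (((‖a‖ / ‖x‖ : ℝ) : ℂ) * x) ≤ qq d)) := by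
  have hdr : (2:ℝ) ≤ d := by exact_mod_cast hd
  have h0 : 0 < (d:ℝ) - 1 := by linarith
  by_cases hxr : ‖x‖ ≤ rr d
  · refine ⟨{x}, isPreconnected_singleton, by simpa using hx, rfl, ?_, Or.inl ⟨hxr, rfl⟩⟩
    unfold ret
    rw [if_pos hxr]
    rfl
  · push Not at hxr
    have hrr := rr_pos hd
    have hxpos : 0 < ‖x‖ := lt_trans hrr hxr
    have hx0 : x ≠ 0 := norm_pos_iff.mp hxpos
    set z := Complex.log x with hz
    have hexpz : Complex.exp z = x := Complex.exp_log hx0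
    have hzre : z.re = Real.log ‖x‖ := Complex.log_re x
    set j : ℤ := ⌊z.im * ((d:ℝ) - 1) / (2 * Real.pi)⌋ with hj
    have hpi := Real.pi_pos
    have hj1 : th d j ≤ z.im := by
      have := Int.floor_le (z.im * ((d:ℝ) - 1) / (2 * Real.pi))
      rw [← hj, le_div_iff₀ (by positivity)] at this
      unfold th
      rw [div_le_iff₀ h0]
      linarith
    have hj2 : z.im ≤ th d (j + 1) := by
      have := (Int.lt_floor_add_one (z.im * ((d:ℝ) - 1) / (2 * Real.pi))).le
      rw [← hj, div_le_iff₀ (by positivity)] at this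
      unfold th
      rw [le_div_iff₀ h0]
      push_cast
      linarith
    have hrr2 : Real.log (rr d) ≤ Real.log 2 := by
      apply Real.log_le_log hrr
      have h1 : rr d ≤ sr d := by
        unfold rr
        have := pow_nonneg (sr_pos d).le d
        linarith
      linarith [sr_lt_one hd]
    -- multiples of `x`
    have hmul : ∀ t : ℝ, Complex.exp (⟨t, z.im⟩ : ℂ) = ((Real.exp t / ‖x‖ : ℝ) : ℂ) * x := by
      intro t
      have h1 : (⟨t, z.im⟩ : ℂ) = ((t - Real.log ‖x‖ : ℝ) : ℂ) + z := by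
        apply Complex.ext
        · simp [hzre]
        · simp
      rw [h1, Complex.exp_add, hexpz, ← Complex.ofReal_exp, Real.exp_sub, Real.exp_log hxpos]
    refine ⟨multibrotSet d ∩ Complex.exp '' (KK d j),
      conn_piece hd j, inter_subset_left, ⟨hx, z, ⟨⟨?_, ?_⟩, ⟨hj1, hj2⟩⟩, hexpz⟩, ⟨?_, ?_⟩,
      Or.inr ⟨hxr, ?_⟩⟩
    · rw [hzre]; exact Real.log_le_log hrr hxr.le
    · rw [hzre]; exact Real.log_le_log hxpos (norm_le_two hd hx)
    · exact disc_subset hd (norm_ret hd x)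
    · refine ⟨(⟨Real.log (rr d), z.im⟩ : ℂ), ⟨⟨le_rfl, hrr2⟩, ⟨hj1, hj2⟩⟩, ?_⟩
      rw [hmul, Real.exp_log hrr]
      unfold ret
      rw [if_neg (not_le.mpr hxr)]
    · rintro _ ⟨haM, a, ha, rfl⟩
      have hRa := norm_le_outer hd haM
      have hRa2 := norm_le_two hd haM
      rw [norm_exp_eq] at hRa hRa2 ⊢
      refine ⟨?_, hRa, ?_⟩
      · rw [← Real.exp_log hrr]; exact Real.exp_le_exp.mpr ha.1.1
      · rw [← hmul]
        refine dist_exp_le.trans ?_
        have h2 : |a.im - z.im| ≤ 2 * Real.pi / ((d:ℝ) - 1) := by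
          rw [← th_sub hd j, abs_le]
          have ha1 : th d j ≤ a.im := ha.2.1
          have ha2 : a.im ≤ th d (j + 1) := ha.2.2
          constructor <;> linarith
        simp only [sub_self, abs_zero, zero_add]
        exact mul_le_mul hRa2 h2 (abs_nonneg _) (by norm_num)

/-- distances of points on two rays -/
theorem dist_sq_rays {x y : ℂ} (hx : ‖x‖ = 1) (hy : ‖y‖ = 1) (s t : ℝ) :
    ‖(s:ℂ) * x - (t:ℂ) * y‖ ^ 2 = (s - t) ^ 2 + s * t * ‖x - y‖ ^ 2 := by
  have h1 : ∀ w : ℂ, ‖w‖ ^ 2 = w.re ^ 2 + w.im ^ 2 := fun w => by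
    rw [← Complex.normSq_eq_norm_sq, Complex.normSq_apply]; ring
  have hx2 : x.re ^ 2 + x.im ^ 2 = 1 := by rw [← h1, hx]; norm_num
  have hy2 : y.re ^ 2 + y.im ^ 2 = 1 := by rw [← h1, hy]; norm_num
  rw [h1, h1]
  simp only [Complex.sub_re, Complex.sub_im, Complex.re_ofReal_mul, Complex.im_ofReal_mul]
  linear_combination (s ^ 2 - s * t) * hx2 + (t ^ 2 - s * t) * hy2


theorem exists_unit (y : ℂ) : ∃ u : ℂ, ‖u‖ = 1 ∧ ((‖y‖ : ℝ) : ℂ) * u = y := by
  by_cases hy : y = 0
  · exact ⟨1, by simp, by simp [hy]⟩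
  · have hn : 0 < ‖y‖ := norm_pos_iff.mpr hy
    refine ⟨((‖y‖⁻¹ : ℝ) : ℂ) * y, ?_, ?_⟩
    · rw [norm_mul, Complex.norm_real, Real.norm_eq_abs, abs_of_pos (by positivity),
        inv_mul_cancel₀ hn.ne']
    · rw [← mul_assoc, ← Complex.ofReal_mul, mul_inv_cancel₀ hn.ne', Complex.ofReal_one, one_mul]

/-- directions of far points -/
theorem dir_dist {u v : ℂ} (hu : ‖u‖ = 1) (hv : ‖v‖ = 1) {s t ρ : ℝ} (hρ : 0 < ρ) (hs : ρ ≤ s)
    (ht : ρ ≤ t) : ρ * ‖u - v‖ ≤ ‖(s:ℂ) * u - (t:ℂ) * v‖ := by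
  apply le_of_sq_le_sq _ (norm_nonneg _)
  rw [dist_sq_rays hu hv, mul_pow]
  have h1 : ρ ^ 2 ≤ s * t := by nlinarith
  nlinarith [sq_nonneg (s - t), mul_le_mul_of_nonneg_right h1 (sq_nonneg ‖u - v‖)]

theorem ret_eq {d : ℕ} (hd : 2 ≤ d) {x u : ℂ} (hu : ‖u‖ = 1) (hxu : ((‖x‖ : ℝ) : ℂ) * u = x) :
    ret d x = ((min ‖x‖ (rr d) : ℝ) : ℂ) * u := by
  unfold ret
  split_ifs with h
  · rw [min_eq_left h, hxu]
  · push Not at h
    have hx : 0 < ‖x‖ := (rr_pos hd).trans h
    rw [min_eq_right h.le]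
    conv_lhs => rw [← hxu]
    rw [norm_mul, Complex.norm_real, Real.norm_eq_abs, abs_of_nonneg (norm_nonneg x), hu, mul_one,
      ← mul_assoc, ← Complex.ofReal_mul, div_mul_cancel₀ _ hx.ne']

theorem ret_dist {d : ℕ} (hd : 2 ≤ d) (x y : ℂ) : dist (ret d x) (ret d y) ≤ dist x y := by
  obtain ⟨u, hu, hxu⟩ := exists_unit x
  obtain ⟨v, hv, hyv⟩ := exists_unit y
  rw [dist_eq_norm, dist_eq_norm, ret_eq hd hu hxu, ret_eq hd hv hyv]
  conv_rhs => rw [← hxu, ← hyv]
  apply le_of_sq_le_sq _ (norm_nonneg _)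
  rw [dist_sq_rays hu hv, dist_sq_rays hu hv]
  have hrr := rr_pos hd
  have h1 : (min ‖x‖ (rr d) - min ‖y‖ (rr d)) ^ 2 ≤ (‖x‖ - ‖y‖) ^ 2 := by
    apply sq_le_sq.mpr
    have := abs_min_sub_min_le_max ‖x‖ (rr d) ‖y‖ (rr d)
    rwa [sub_self, abs_zero, max_eq_left (abs_nonneg _)] at this
  have h2 : min ‖x‖ (rr d) * min ‖y‖ (rr d) ≤ ‖x‖ * ‖y‖ :=
    mul_le_mul (min_le_left _ _) (min_le_left _ _) (le_min (norm_nonneg _) hrr.le) (norm_nonneg _)
  have h3 := mul_le_mul_of_nonneg_right h2 (sq_nonneg ‖u - v‖)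
  linarith

theorem rr_le_RR {d : ℕ} (hd : 2 ≤ d) : rr d ≤ RR d := by
  have hdr : (2:ℝ) ≤ d := by exact_mod_cast hd
  have h1 : rr d ≤ sr d := by
    unfold rr
    have := pow_nonneg (sr_pos d).le d
    linarith
  have h2 : 0 < 1 / ((d:ℝ) - 1) := by
    have : 0 < (d:ℝ) - 1 := by linarith
    positivity
  unfold RR
  linarith [sr_lt_one hd]

/-- Two points of the Multibrot set are joined by a continuum of controlled diameter. -/
theorem upper {d : ℕ} (hd : 2 ≤ d) {x y : ℂ} (hx : x ∈ multibrotSet d)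
    (hy : y ∈ multibrotSet d) :
    ∃ S : Set ℂ, S ⊆ multibrotSet d ∧ IsCompact S ∧ IsConnected S ∧ x ∈ S ∧ y ∈ S ∧
      Metric.diam S ≤ RR d / rr d * dist x y + (RR d - rr d + 2 * qq d) := by
  obtain ⟨V, hVp, hVM, hxV, hx'V, hV⟩ := exists_V hd hx
  obtain ⟨W, hWp, hWM, hyW, hy'W, hW⟩ := exists_V hd hy
  have hdr : (2:ℝ) ≤ d := by exact_mod_cast hd
  have h0 : 0 < (d:ℝ) - 1 := by linarith
  have hq : 0 ≤ qq d := by unfold qq; have := Real.pi_pos; positivity
  have hrr := rr_pos hd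
  have hrR := rr_le_RR hd
  have hRpos : 0 < RR d := by linarith
  set x' := ret d x with hx'
  set y' := ret d y with hy'
  have hxy' : dist x' y' ≤ dist x y := ret_dist hd x y
  have hfac : dist x y ≤ RR d / rr d * dist x y := by
    have : 1 ≤ RR d / rr d := by rw [one_le_div hrr]; exact hrR
    nlinarith [dist_nonneg (x := x) (y := y)]
  set D := dist x y with hD
  have hD0 : 0 ≤ D := dist_nonneg
  -- one piece
  have one : ∀ x : ℂ, ∀ V : Set ℂ, x ∈ V → ret d x ∈ V →
      ((‖x‖ ≤ rr d ∧ V = {x}) ∨ (rr d < ‖x‖ ∧ ∀ a ∈ V, rr d ≤ ‖a‖ ∧ ‖a‖ ≤ RR d ∧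
        dist a (((‖a‖ / ‖x‖ : ℝ) : ℂ) * x) ≤ qq d)) →
      (∀ a ∈ V, dist a (ret d x) ≤ RR d - rr d + qq d) ∧
      (∀ a ∈ V, ∀ b ∈ V, dist a b ≤ RR d - rr d + 2 * qq d) := by
    intro x V hxV hx'V hV
    rcases hV with ⟨h1, rfl⟩ | ⟨h1, h2⟩
    · have : ret d x = x := hx'V
      constructor
      · rintro a rfl
        rw [this, dist_self]; linarith
      · rintro a rfl b rfl
        rw [dist_self]; linarith
    · have hx0 : 0 < ‖x‖ := hrr.trans h1
      have hsc : ∀ s t : ℝ, dist (((s / ‖x‖ : ℝ) : ℂ) * x) (((t / ‖x‖ : ℝ) : ℂ) * x) = |s - t| := by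
        intro s t
        rw [dist_eq_norm, ← sub_mul, norm_mul, ← Complex.ofReal_sub, Complex.norm_real,
          Real.norm_eq_abs, ← sub_div, abs_div, abs_of_pos hx0, div_mul_cancel₀ _ hx0.ne']
      have hret : ret d x = ((rr d / ‖x‖ : ℝ) : ℂ) * x := by
        unfold ret; rw [if_neg (not_le.mpr h1)]
      constructor
      · intro a ha
        obtain ⟨h3, h4, h5⟩ := h2 a ha
        have h6 := dist_triangle a (((‖a‖ / ‖x‖ : ℝ) : ℂ) * x) (ret d x)
        rw [hret, hsc, abs_of_nonneg (by linarith)] at h6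
        rw [hret]
        linarith
      · intro a ha b hb
        obtain ⟨h3, h4, h5⟩ := h2 a ha
        obtain ⟨h3', h4', h5'⟩ := h2 b hb
        have h6 := dist_triangle4 a (((‖a‖ / ‖x‖ : ℝ) : ℂ) * x) (((‖b‖ / ‖x‖ : ℝ) : ℂ) * x) b
        rw [hsc] at h6
        rw [dist_comm] at h5'
        have h7 : |‖a‖ - ‖b‖| ≤ RR d - rr d := by rw [abs_le]; constructor <;> linarith
        linarith
  obtain ⟨hV1, hV2⟩ := one x V hxV hx'V hV
  obtain ⟨hW1, hW2⟩ := one y W hyW hy'W hW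
  -- two pieces
  have hVW : ∀ a ∈ V, ∀ b ∈ W, dist a b ≤ RR d / rr d * D + (RR d - rr d + 2 * qq d) := by
    intro a ha b hb
    rcases hV with ⟨h1, rfl⟩ | ⟨h1, h2⟩
    · have e1 : ret d x = x := hx'V
      have e2 : a = x := ha
      have h3 := dist_triangle a y' b
      have h4 := hW1 b hb
      rw [dist_comm] at h4
      rw [e2, ← e1, e2] at *
      have h5 : dist (ret d x) y' ≤ D := hxy'
      have h6 := dist_triangle (ret d x) y' b
      linarith
    · rcases hW with ⟨h1', rfl⟩ | ⟨h1', h2'⟩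
      · have e1 : ret d y = y := hy'W
        have e2 : b = y := hb
        have h4 := hV1 a ha
        have h6 := dist_triangle a x' y'
        have e3 : y' = b := by rw [e2, hy', e1]
        rw [e3] at h6 hxy'
        linarith
      · obtain ⟨h3, h4, h5⟩ := h2 a ha
        obtain ⟨h3', h4', h5'⟩ := h2' b hb
        have hx0 : 0 < ‖x‖ := hrr.trans h1
        have hy0 : 0 < ‖y‖ := hrr.trans h1'
        obtain ⟨u, hu, hxu⟩ := exists_unit x
        obtain ⟨v, hv, hyv⟩ := exists_unit y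
        have e1 : ((‖a‖ / ‖x‖ : ℝ) : ℂ) * x = ((‖a‖ : ℝ) : ℂ) * u := by
          conv_lhs => rw [← hxu]
          rw [norm_mul, Complex.norm_real, Real.norm_eq_abs, abs_of_pos hx0, hu, mul_one,
            ← mul_assoc, ← Complex.ofReal_mul, div_mul_cancel₀ _ hx0.ne']
        have e2 : ((‖b‖ / ‖y‖ : ℝ) : ℂ) * y = ((‖b‖ : ℝ) : ℂ) * v := by
          conv_lhs => rw [← hyv]
          rw [norm_mul, Complex.norm_real, Real.norm_eq_abs, abs_of_pos hy0, hv, mul_one,
            ← mul_assoc, ← Complex.ofReal_mul, div_mul_cancel₀ _ hy0.ne']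
        rw [e1] at h5
        rw [e2, dist_comm] at h5'
        have h6 := dist_triangle4 a (((‖a‖ : ℝ) : ℂ) * u) (((‖b‖ : ℝ) : ℂ) * v) b
        have h7 : dist (((‖a‖ : ℝ) : ℂ) * u) (((‖b‖ : ℝ) : ℂ) * v) ≤
            |‖a‖ - ‖b‖| + ‖b‖ * ‖u - v‖ := by
          rw [dist_eq_norm]
          have : ((‖a‖ : ℝ) : ℂ) * u - ((‖b‖ : ℝ) : ℂ) * v =
              ((‖a‖ - ‖b‖ : ℝ) : ℂ) * u + ((‖b‖ : ℝ) : ℂ) * (u - v) := by push_cast; ring
          rw [this]
          refine (norm_add_le _ _).trans ?_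
          rw [norm_mul, norm_mul, hu, mul_one, Complex.norm_real, Complex.norm_real,
            Real.norm_eq_abs, Real.norm_eq_abs, abs_of_nonneg (norm_nonneg b)]
        have h8 : rr d * ‖u - v‖ ≤ D := by
          rw [hD, dist_eq_norm]
          conv_rhs => rw [← hxu, ← hyv]
          exact dir_dist hu hv hrr h1.le h1'.le
        have h9 : ‖b‖ * ‖u - v‖ ≤ RR d / rr d * D := by
          rw [div_mul_eq_mul_div, le_div_iff₀ hrr]
          calc ‖b‖ * ‖u - v‖ * rr d = ‖b‖ * (rr d * ‖u - v‖) := by ring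
            _ ≤ RR d * D := mul_le_mul h4' h8 (by positivity) hRpos.le
        have h10 : |‖a‖ - ‖b‖| ≤ RR d - rr d := by rw [abs_le]; constructor <;> linarith
        linarith
  set L : Set ℂ := segment ℝ x' y' with hL
  have hLM : L ⊆ multibrotSet d := by
    intro c hc
    apply disc_subset hd
    have h1 : L ⊆ Metric.closedBall (0:ℂ) (rr d) :=
      (convex_closedBall (0:ℂ) (rr d)).segment_subset (by simpa using norm_ret hd x)
        (by simpa using norm_ret hd y)
    simpa using h1 hc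
  have hLp : IsPreconnected L := (convex_segment x' y').isPreconnected
  set S0 : Set ℂ := (V ∪ L) ∪ W with hS0
  have hS0M : S0 ⊆ multibrotSet d := union_subset (union_subset hVM hLM) hWM
  have hS0p : IsPreconnected S0 := by
    apply IsPreconnected.union y'
    · exact Or.inr (right_mem_segment ℝ x' y')
    · exact hy'W
    · exact IsPreconnected.union x' hx'V (left_mem_segment ℝ x' y') hVp hLp
    · exact hWp
  have hdiam : ∀ a ∈ S0, ∀ b ∈ S0, dist a b ≤ RR d / rr d * D + (RR d - rr d + 2 * qq d) := by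
    have hLx : ∀ a ∈ L, dist a x' ≤ D ∧ dist a y' ≤ D := by
      intro a ha
      have h1 := dist_add_dist_of_mem_segment ha
      have h2 := dist_nonneg (x := x') (y := a)
      have h3 := dist_nonneg (x := a) (y := y')
      rw [dist_comm a x']
      constructor <;> linarith
    have hLL : ∀ a ∈ L, ∀ b ∈ L, dist a b ≤ D := by
      intro a ha b hb
      have h1 : Metric.diam L ≤ dist x' y' := by
        rw [hL, segment_eq_image_lineMap]
        apply Metric.diam_le_of_forall_dist_le dist_nonneg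
        rintro _ ⟨s, hs, rfl⟩ _ ⟨t, ht, rfl⟩
        rw [dist_lineMap_lineMap]
        have : dist s t ≤ 1 := by
          rw [Real.dist_eq, abs_le]
          constructor <;> linarith [hs.1, hs.2, ht.1, ht.2]
        nlinarith [dist_nonneg (x := x') (y := y')]
      have h2 : Bornology.IsBounded L := by
        apply (Metric.isBounded_closedBall (x := (0:ℂ)) (r := rr d)).subset
        exact (convex_closedBall (0:ℂ) (rr d)).segment_subset (by simpa using norm_ret hd x)
          (by simpa using norm_ret hd y)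
      exact (Metric.dist_le_diam_of_mem h2 ha hb).trans (h1.trans hxy')
    have hVL : ∀ a ∈ V, ∀ b ∈ L, dist a b ≤ RR d / rr d * D + (RR d - rr d + 2 * qq d) := by
      intro a ha b hb
      have h1 := dist_triangle a x' b
      have h2 := hV1 a ha
      have h3 := (hLx b hb).1
      rw [dist_comm b x'] at h3
      linarith
    have hWL : ∀ a ∈ W, ∀ b ∈ L, dist a b ≤ RR d / rr d * D + (RR d - rr d + 2 * qq d) := by
      intro a ha b hb
      have h1 := dist_triangle a y' b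
      have h2 := hW1 a ha
      have h3 := (hLx b hb).2
      rw [dist_comm b y'] at h3
      linarith
    intro a ha b hb
    rcases ha with (ha | ha) | ha <;> rcases hb with (hb | hb) | hb
    · linarith [hV2 a ha b hb]
    · exact hVL a ha b hb
    · exact hVW a ha b hb
    · rw [dist_comm]; exact hVL b hb a ha
    · linarith [hLL a ha b hb]
    · rw [dist_comm]; exact hWL b hb a ha
    · rw [dist_comm]; exact hVW b hb a ha
    · exact hWL a ha b hb
    · linarith [hW2 a ha b hb]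
  have hclM : closure S0 ⊆ multibrotSet d :=
    (isCompact_multibrot hd).isClosed.closure_subset_iff.mpr hS0M
  refine ⟨closure S0, hclM, ?_, ⟨⟨x, subset_closure (Or.inl (Or.inl hxV))⟩, hS0p.closure⟩,
    subset_closure (Or.inl (Or.inl hxV)), subset_closure (Or.inr hyW), ?_⟩
  · exact (isCompact_multibrot hd).of_isClosed_subset isClosed_closure hclM
  · rw [Metric.diam_closure]
    exact Metric.diam_le_of_forall_dist_le (by linarith) hdiam

end Pool.Agent.Q79.MM
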