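import Mathlib
import Pool.Prelude.Def_F_c31e40fa
import Pool.Agent.Q79.MultiModulus

set_option autoImplicit false

open Complex Set Topology Filter Bornology N62a1eb23

namespace Pool.Agent.Q79.MM

open Pool.Agent.H712R2

/-- The least diameter of a continuum in `A` that contains `x` and `y`. -/
noncomputable def joinDiam (A : Set ℂ) (x y : ℂ) : ℝ :=
  sInf {r : ℝ | ∃ S ⊆ A, IsCompact S ∧ IsConnected S ∧ x ∈ S ∧ y ∈ S ∧ Metric.diam S = r}

/-- The modulus of local connectivity of `A`. -/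
noncomputable def modulus (A : Set ℂ) (δ : ℝ) : ℝ :=
  sSup {r : ℝ | ∃ x ∈ A, ∃ y ∈ A, dist x y ≤ δ ∧ joinDiam A x y = r}

theorem sr_eq {d : ℕ} (hd : 2 ≤ d) : sr d = (d:ℝ) ^ (-(1 / ((d:ℝ) - 1))) := by
  have hdr : (2:ℝ) ≤ d := by exact_mod_cast hd
  rw [Real.rpow_def_of_pos (by linarith)]
  unfold sr
  congr 1
  ring

theorem joinDiam_le {d : ℕ} (hd : 2 ≤ d) {x y : ℂ} (hx : x ∈ multibrotSet d)
    (hy : y ∈ multibrotSet d) :
    joinDiam (multibrotSet d) x y ≤ RR d / rr d * dist x y + (RR d - rr d + 2 * qq d) := by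
  obtain ⟨S, h1, h2, h3, h4, h5, h6⟩ := upper hd hx hy
  refine le_trans (csInf_le ⟨0, ?_⟩ ⟨S, h1, h2, h3, h4, h5, rfl⟩) h6
  rintro r ⟨S, -, -, -, -, -, rfl⟩
  exact Metric.diam_nonneg

theorem joinDiam_nonneg (A : Set ℂ) (x y : ℂ) : 0 ≤ joinDiam A x y := by
  apply Real.sInf_nonneg
  rintro r ⟨S, -, -, -, -, -, rfl⟩
  exact Metric.diam_nonneg

theorem qq_nonneg {d : ℕ} (hd : 2 ≤ d) : 0 ≤ qq d := by
  have hdr : (2:ℝ) ≤ d := by exact_mod_cast hd
  have h0 : 0 < (d:ℝ) - 1 := by linarith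
  unfold qq; have := Real.pi_pos; positivity

theorem modulus_le {d : ℕ} (hd : 2 ≤ d) {δ : ℝ} (hδ : 0 ≤ δ) :
    modulus (multibrotSet d) δ ≤ RR d / rr d * δ + (RR d - rr d + 2 * qq d) := by
  have hrr := rr_pos hd
  have hrR := rr_le_RR hd
  have hq := qq_nonneg hd
  have hfac : 0 ≤ RR d / rr d := div_nonneg (by linarith) hrr.le
  apply Real.sSup_le
  · rintro r ⟨x, hx, y, hy, hxy, rfl⟩
    refine (joinDiam_le hd hx hy).trans ?_
    have := mul_le_mul_of_nonneg_left hxy hfac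
    linarith
  · have := mul_nonneg hfac hδ
    linarith

theorem le_modulus {d : ℕ} (hd : 2 ≤ d) {δ : ℝ} {x y : ℂ} (hx : x ∈ multibrotSet d)
    (hy : y ∈ multibrotSet d) (hxy : dist x y ≤ δ) :
    joinDiam (multibrotSet d) x y ≤ modulus (multibrotSet d) δ := by
  have hrr := rr_pos hd
  have hrR := rr_le_RR hd
  have hfac : 0 ≤ RR d / rr d := div_nonneg (by linarith) hrr.le
  apply le_csSup
  · refine ⟨RR d / rr d * δ + (RR d - rr d + 2 * qq d), ?_⟩
    rintro r ⟨x, hx, y, hy, hxy, rfl⟩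
    refine (joinDiam_le hd hx hy).trans ?_
    have := mul_le_mul_of_nonneg_left hxy hfac
    linarith
  · exact ⟨x, hx, y, hy, hxy, rfl⟩

/-- A connected set that contains two neighbouring centres comes down to the cusp radius. -/
theorem centres {d : ℕ} (hd : 3 ≤ d) {S : Set ℂ} (hS : IsPreconnected S)
    (hSM : S ⊆ multibrotSet d) (hx : pt d (-1) ∈ S) (hy : pt d 1 ∈ S) : ∃ c ∈ S, ‖c‖ ≤ rr d :=
  barrier (by omega) 0 hS hSM hx hy (pt_neg_not_mem hd) (pt_pos_mem hd)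

theorem joinDiam_pt {d : ℕ} (hd : 3 ≤ d) :
    1 - rr d ≤ joinDiam (multibrotSet d) (pt d (-1)) (pt d 1) := by
  have hx : pt d (-1) ∈ multibrotSet d := centre_mem (by omega) (pt_pow (by omega) (Or.inr rfl))
  have hy : pt d 1 ∈ multibrotSet d := centre_mem (by omega) (pt_pow (by omega) (Or.inl rfl))
  obtain ⟨S, h1, h2, h3, h4, h5, h6⟩ := upper (d := d) (by omega) hx hy
  refine le_csInf ⟨_, ⟨S, h1, h2, h3, h4, h5, rfl⟩⟩ ?_
  rintro r ⟨T, g1, g2, g3, g4, g5, rfl⟩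
  obtain ⟨c, hc, hcr⟩ := centres hd g3.isPreconnected g1 g4 g5
  have h7 := Metric.dist_le_diam_of_mem g2.isBounded g5 hc
  have h8 : ‖pt d 1‖ - ‖c‖ ≤ dist (pt d 1) c := by
    rw [dist_eq_norm]; exact norm_sub_norm_le _ _
  rw [norm_pt] at h8
  linarith

theorem modulus_ge {d : ℕ} (hd : 3 ≤ d) {δ : ℝ} (hδ : 2 * Real.pi / ((d:ℝ) - 1) ≤ δ) :
    1 - rr d ≤ modulus (multibrotSet d) δ := by
  have hx : pt d (-1) ∈ multibrotSet d := centre_mem (by omega) (pt_pow (by omega) (Or.inr rfl))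
  have hy : pt d 1 ∈ multibrotSet d := centre_mem (by omega) (pt_pow (by omega) (Or.inl rfl))
  exact (joinDiam_pt hd).trans (le_modulus (by omega) hx hy ((dist_pt (by omega)).trans hδ))

theorem const_bound {d : ℕ} (hd : 2 ≤ d) :
    RR d - rr d + 2 * qq d ≤ (Real.log d + 28) / ((d:ℝ) - 1) := by
  have hdr : (2:ℝ) ≤ d := by exact_mod_cast hd
  have h0 : 0 < (d:ℝ) - 1 := by linarith
  have hlog : 0 < Real.log d := Real.log_pos (by linarith)
  have h1 : rr d = sr d * (1 - 1 / d) := rr_eq hd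
  have h2 := sr_ge d
  have h3 : 1 / (d:ℝ) ≤ 1 / ((d:ℝ) - 1) := one_div_le_one_div_of_le h0 (by linarith)
  have h4 : 0 < 1 / (d:ℝ) := by positivity
  have h5 : 0 ≤ 1 - 1 / (d:ℝ) := by
    have : 1 / (d:ℝ) ≤ 1 / 2 := one_div_le_one_div_of_le (by norm_num) hdr
    linarith
  have h6 : (1 - Real.log d / (d - 1)) * (1 - 1 / d) ≤ rr d := by
    rw [h1]; exact mul_le_mul_of_nonneg_right h2 h5
  have h7 : 1 - Real.log d / (d - 1) - 1 / d ≤ (1 - Real.log d / (d - 1)) * (1 - 1 / d) := by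
    have : 0 ≤ (Real.log d / ((d:ℝ) - 1)) * (1 / d) := by positivity
    nlinarith
  have hpi : Real.pi < 3.15 := Real.pi_lt_d2
  have h8 : 2 * (2 * (2 * Real.pi / ((d:ℝ) - 1))) ≤ 25.2 / ((d:ℝ) - 1) := by
    rw [← mul_div_assoc, ← mul_div_assoc]
    apply div_le_div_of_nonneg_right _ h0.le
    linarith
  have h9 : (Real.log d + 28) / ((d:ℝ) - 1) = Real.log d / (d - 1) + 1 / ((d:ℝ) - 1) +
      1 / ((d:ℝ) - 1) + 25.2 / ((d:ℝ) - 1) + 0.8 / ((d:ℝ) - 1) := by
    field_simp; ring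
  have h10 : 0 < 0.8 / ((d:ℝ) - 1) := by positivity
  rw [h9]
  unfold RR qq
  linarith

/-- the exact asymptotics -/
theorem tendsto_modulus (δ : ℕ → ℝ) (h1 : ∀ n : ℕ, 2 * Real.pi / ((n:ℝ) - 1) ≤ δ n)
    (h2 : Tendsto (fun n : ℕ => δ n * n / Real.log n) atTop (𝓝 0)) :
    Tendsto (fun n : ℕ => modulus (multibrotSet n) (δ n) * n / Real.log n) atTop (𝓝 1) := by
  have hlogn : Tendsto (fun n : ℕ => Real.log n) atTop atTop :=
    Real.tendsto_log_atTop.comp tendsto_natCast_atTop_atTop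
  have hinv : Tendsto (fun n : ℕ => 1 / (n:ℝ)) atTop (𝓝 0) := tendsto_one_div_atTop_nhds_zero_nat
  have hell : Tendsto (fun n : ℕ => Real.log n / ((n:ℝ) - 1)) atTop (𝓝 0) := by
    have e1 : Tendsto (fun n : ℕ => Real.log n / (n:ℝ)) atTop (𝓝 0) := by
      have := (Real.isLittleO_log_id_atTop.tendsto_div_nhds_zero).comp tendsto_natCast_atTop_atTop
      exact this.congr (fun n => by simp)
    have e2 : Tendsto (fun n : ℕ => (Real.log n / (n:ℝ)) * (1 / (1 - 1 / (n:ℝ)))) atTop (𝓝 (0 * (1 / (1 - 0)))) := by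
      apply e1.mul
      apply Tendsto.div tendsto_const_nhds (tendsto_const_nhds.sub hinv) (by norm_num)
    rw [zero_mul] at e2
    refine e2.congr' ?_
    filter_upwards [eventually_ge_atTop 2] with n hn
    have hnr : (2:ℝ) ≤ n := by exact_mod_cast hn
    have : (n:ℝ) ≠ 0 := by linarith
    have : (n:ℝ) - 1 ≠ 0 := by linarith
    field_simp
  have hratio : Tendsto (fun n : ℕ => (n:ℝ) / ((n:ℝ) - 1)) atTop (𝓝 1) := by
    have e2 : Tendsto (fun n : ℕ => (1:ℝ) / (1 - 1 / (n:ℝ))) atTop (𝓝 (1 / (1 - 0))) :=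
      Tendsto.div tendsto_const_nhds (tendsto_const_nhds.sub hinv) (by norm_num)
    have e3 : (1:ℝ) / (1 - 0) = 1 := by norm_num
    rw [e3] at e2
    refine e2.congr' ?_
    filter_upwards [eventually_ge_atTop 2] with n hn
    have hnr : (2:ℝ) ≤ n := by exact_mod_cast hn
    have : (n:ℝ) ≠ 0 := by linarith
    have : (n:ℝ) - 1 ≠ 0 := by linarith
    field_simp
  -- bounds
  have hlow : Tendsto (fun n : ℕ => 1 - (Real.log n / ((n:ℝ) - 1)) / 2) atTop (𝓝 1) := by
    have := tendsto_const_nhds (x := (1:ℝ)) (f := atTop (α := ℕ)) |>.sub (hell.div_const 2)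
    simpa using this
  have hup : Tendsto (fun n : ℕ => 4 * (δ n * n / Real.log n) +
      ((n:ℝ) / ((n:ℝ) - 1)) * (1 + 28 / Real.log n)) atTop (𝓝 1) := by
    have e1 : Tendsto (fun n : ℕ => 28 / Real.log n) atTop (𝓝 0) :=
      tendsto_const_nhds.div_atTop hlogn
    have := (h2.const_mul 4).add (hratio.mul (tendsto_const_nhds (x := (1:ℝ)) |>.add e1))
    simpa using this
  have hellsmall : ∀ᶠ n : ℕ in atTop, Real.log n / ((n:ℝ) - 1) < 1 / 4 :=
    hell.eventually_lt_const (by norm_num)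
  apply tendsto_of_tendsto_of_tendsto_of_le_of_le' hlow hup
  · filter_upwards [eventually_ge_atTop 3, hellsmall] with n hn hs
    have hnr : (3:ℝ) ≤ n := by exact_mod_cast hn
    have h0 : 0 < (n:ℝ) - 1 := by linarith
    have hlog : 0 < Real.log n := Real.log_pos (by linarith)
    have hm := modulus_ge hn (h1 n)
    have hl0 : 0 < Real.log n / ((n:ℝ) - 1) := by positivity
    -- `1 - rr ≥ ℓ (1 - ℓ/2)`
    have hsr : sr n ≤ 1 - Real.log n / ((n:ℝ) - 1) + (Real.log n / ((n:ℝ) - 1)) ^ 2 / 2 := by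
      unfold sr
      set l := Real.log n / ((n:ℝ) - 1) with hl
      have := Real.exp_neg l
      have hq := Real.quadratic_le_exp_of_nonneg hl0.le
      rw [this]
      rw [inv_le_iff_one_le_mul₀ (Real.exp_pos _)]
      have hpos : 0 < 1 - l + l ^ 2 / 2 := by nlinarith
      calc (1:ℝ) ≤ (1 - l + l ^ 2 / 2) * (1 + l + l ^ 2 / 2) := by nlinarith [sq_nonneg l, sq_nonneg (l^2)]
        _ ≤ _ := mul_le_mul_of_nonneg_left hq hpos.le
    have hrs : rr n ≤ sr n := by
      unfold rr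
      have := pow_nonneg (sr_pos n).le n
      linarith
    have h3 : Real.log n / ((n:ℝ) - 1) * (1 - (Real.log n / ((n:ℝ) - 1)) / 2) ≤
        modulus (multibrotSet n) (δ n) := by nlinarith
    rw [le_div_iff₀ hlog]
    have h4 : Real.log n ≤ Real.log n / ((n:ℝ) - 1) * n := by
      rw [div_mul_eq_mul_div, le_div_iff₀ h0]; nlinarith
    have h5 : 0 ≤ 1 - (Real.log n / ((n:ℝ) - 1)) / 2 := by linarith
    calc (1 - (Real.log n / ((n:ℝ) - 1)) / 2) * Real.log n
        ≤ (1 - (Real.log n / ((n:ℝ) - 1)) / 2) * (Real.log n / ((n:ℝ) - 1) * n) :=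
          mul_le_mul_of_nonneg_left h4 h5
      _ = (Real.log n / ((n:ℝ) - 1) * (1 - (Real.log n / ((n:ℝ) - 1)) / 2)) * n := by ring
      _ ≤ _ := mul_le_mul_of_nonneg_right h3 (by linarith)
  · filter_upwards [eventually_ge_atTop 5, hellsmall] with n hn hs
    have hnr : (5:ℝ) ≤ n := by exact_mod_cast hn
    have h0 : 0 < (n:ℝ) - 1 := by linarith
    have hlog : 0 < Real.log n := Real.log_pos (by linarith)
    have hδ : 0 ≤ δ n := le_trans (by have := Real.pi_pos; positivity) (h1 n)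
    have hm := modulus_le (d := n) (by omega) hδ
    have hc := const_bound (d := n) (by omega)
    have hrr : 1 / 2 ≤ rr n := by
      rw [rr_eq (by omega)]
      have g1 := sr_ge n
      have g2 : 3 / 4 ≤ sr n := by linarith
      have g3 : 1 / (n:ℝ) ≤ 1 / 5 := one_div_le_one_div_of_le (by norm_num) hnr
      nlinarith
    have hR : RR n ≤ 2 := by
      unfold RR
      have : 1 / ((n:ℝ) - 1) ≤ 1 := by rw [div_le_one h0]; linarith
      linarith
    have hfac : RR n / rr n ≤ 4 := by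
      rw [div_le_iff₀ (by linarith)]; linarith
    have h3 : modulus (multibrotSet n) (δ n) ≤ 4 * δ n + (Real.log n + 28) / ((n:ℝ) - 1) := by
      have := mul_le_mul_of_nonneg_right hfac hδ
      linarith
    have h4 := mul_le_mul_of_nonneg_right h3 (by positivity : 0 ≤ (n:ℝ) / Real.log n)
    calc modulus (multibrotSet n) (δ n) * n / Real.log n
        = modulus (multibrotSet n) (δ n) * (n / Real.log n) := by ring
      _ ≤ _ := h4
      _ = _ := by field_simp

end Pool.Agent.Q79.MM
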