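import Mathlib
import Pool.Agent.Helper562.Kuhn

/-!
Nagata dimension: grid obstruction (lower bounds) and the product cover (upper bound).
-/

open Set

namespace Q79.Nagata

/-- `dim_N X ≤ d`. -/
def NagataLE {M : Type*} [MetricSpace M] (X : Set M) (d : ℕ) : Prop :=
  ∃ c : ℝ, 0 < c ∧ ∀ s : ℝ, 0 < s → ∃ 𝒞 : Set (Set M), ⋃₀ 𝒞 = X ∧
    (∀ C ∈ 𝒞, ∀ x ∈ C, ∀ y ∈ C, dist x y ≤ c * s) ∧
    ∀ A ⊆ X, (∀ x ∈ A, ∀ y ∈ A, dist x y ≤ s) → {C ∈ 𝒞 | (C ∩ A).Nonempty}.encard ≤ d + 1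

/-- The obstruction given by Kuhn's lemma. -/
theorem grid_obstruction {M : Type*} [MetricSpace M] {X : Set M} {k m : ℕ} (Φ : (ℕ → ℕ) → M)
    {s D : ℝ} (hX : ∀ x : ℕ → ℕ, (∀ i, x i ≤ m) → Φ x ∈ X)
    (hcell : ∀ x y y' : ℕ → ℕ, (∀ i, i < k → x i < m) →
      (∀ i, i < k → y i = x i ∨ y i = x i + 1) → (∀ i, k ≤ i → y i = 0) →
      (∀ i, i < k → y' i = x i ∨ y' i = x i + 1) → (∀ i, k ≤ i → y' i = 0) →
      dist (Φ y) (Φ y') ≤ s)
    (hface : ∀ i, i < k → ∀ y y' : ℕ → ℕ, (∀ j, y j ≤ m) → (∀ j, y' j ≤ m) →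
      y i = 0 → y' i = m → D < dist (Φ y) (Φ y'))
    (𝒞 : Set (Set M)) (hcov : ⋃₀ 𝒞 = X) (hdiam : ∀ C ∈ 𝒞, ∀ x ∈ C, ∀ y ∈ C, dist x y ≤ D)
    (hmult : ∀ A ⊆ X, (∀ x ∈ A, ∀ y ∈ A, dist x y ≤ s) →
      {C ∈ 𝒞 | (C ∩ A).Nonempty}.encard ≤ k) : False := by
  classical
  -- the label of a member of the cover
  set good : Set M → ℕ → Prop := fun C i => i < k ∧ ∀ y : ℕ → ℕ, (∀ j, y j ≤ m) → y i = 0 → Φ y ∉ C
    with hgood
  set lab : Set M → ℕ := fun C => if h : ∃ i, good C i then Nat.find h else k with hlab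
  -- choose members
  have hch : ∀ x : ℕ → ℕ, ∃ C : Set M, (∀ i, x i ≤ m) → C ∈ 𝒞 ∧ Φ x ∈ C := by
    intro x
    by_cases hx : ∀ i, x i ≤ m
    · have h1 : Φ x ∈ ⋃₀ 𝒞 := by rw [hcov]; exact hX x hx
      obtain ⟨C, hC, hxC⟩ := h1
      exact ⟨C, fun _ => ⟨hC, hxC⟩⟩
    · exact ⟨∅, fun h => absurd h hx⟩
  choose Cx hCx using hch
  have hlab_le : ∀ C, lab C ≤ k := by
    intro C
    simp only [hlab]
    split_ifs with h
    · exact (Nat.find_spec h).1.le
    · exact le_rfl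
  obtain ⟨x, hxm, hy⟩ := Pool.Agent.Helper562.Kuhn.kuhn k m (fun x => lab (Cx x))
    (fun x _ => hlab_le _)
    (by
      intro i hi x hx hx0 hcon
      simp only [hlab] at hcon
      split_ifs at hcon with h
      · have h1 := Nat.find_spec h
        rw [hcon] at h1
        exact h1.2 x hx hx0 (hCx x hx).2
      · omega)
    (by
      intro i hi x hx hxim
      have hg : good (Cx x) i := by
        refine ⟨hi, fun y hy hy0 hyC => ?_⟩
        have h1 := hface i hi y x hy hx hy0 hxim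
        have h2 := hdiam (Cx x) (hCx x hx).1 (Φ y) hyC (Φ x) (hCx x hx).2
        linarith
      have hex : ∃ i, good (Cx x) i := ⟨i, hg⟩
      simp only [hlab]
      rw [dif_pos hex]
      exact Nat.find_min' hex hg)
  choose! y hy1 hy2 hy3 using hy
  have hym : ∀ j, j ≤ k → ∀ i, y j i ≤ m := by
    intro j hj i
    rcases Nat.lt_or_ge i k with h | h
    · rcases hy1 j hj i h with h1 | h1 <;> rw [h1] <;> have := hxm i h <;> omega
    · rw [hy2 j hj i h]; omega
  set A : Set M := (fun j => Φ (y j)) '' {j | j ≤ k} with hA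
  have hAX : A ⊆ X := by
    rintro _ ⟨j, hj, rfl⟩
    exact hX _ (hym j hj)
  have hAd : ∀ a ∈ A, ∀ b ∈ A, dist a b ≤ s := by
    rintro _ ⟨j, hj, rfl⟩ _ ⟨j', hj', rfl⟩
    exact hcell x (y j) (y j') hxm (hy1 j hj) (hy2 j hj) (hy1 j' hj') (hy2 j' hj')
  have h1 := hmult A hAX hAd
  have h2 : (fun j => Cx (y j)) '' {j | j ≤ k} ⊆ {C ∈ 𝒞 | (C ∩ A).Nonempty} := by
    rintro _ ⟨j, hj, rfl⟩
    refine ⟨(hCx _ (hym j hj)).1, ⟨Φ (y j), (hCx _ (hym j hj)).2, ⟨j, hj, rfl⟩⟩⟩
  have hinj : InjOn (fun j => Cx (y j)) {j | j ≤ k} := by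
    intro j hj j' hj' h
    have := congrArg lab h
    simp only at this
    rw [hy3 j hj, hy3 j' hj'] at this
    exact this
  have h3 : ((fun j => Cx (y j)) '' {j | j ≤ k}).encard = k + 1 := by
    rw [hinj.encard_image]
    have : {j : ℕ | j ≤ k} = (Finset.range (k + 1) : Set ℕ) := by
      ext j; simp
    rw [this, encard_coe_eq_coe_finsetCard, Finset.card_range]
    push_cast
    rfl
  have h4 := (encard_le_encard h2).trans h1
  rw [h3] at h4
  have h5 : (k : ℕ∞) < k + 1 := by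
    exact_mod_cast Nat.lt_succ_self k
  exact absurd h4 (not_le.mpr h5)

lemma floor_gap {s t t' : ℝ} (hs : 0 < s) {z : ℤ} (h1 : ⌊t / (2 * s)⌋ < z) (h2 : z < ⌊t' / (2 * s)⌋) :
    s < t' - t := by
  have e1 : t / (2 * s) < z := by
    have := Int.lt_floor_add_one (t / (2 * s))
    have h3 : (⌊t / (2 * s)⌋ : ℝ) + 1 ≤ z := by exact_mod_cast h1
    linarith
  have e2 : (z : ℝ) + 1 ≤ t' / (2 * s) := by
    have := Int.floor_le (t' / (2 * s))
    have h3 : (z : ℝ) + 1 ≤ ⌊t' / (2 * s)⌋ := by exact_mod_cast h2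
    linarith
  have h2s : 0 < 2 * s := by linarith
  rw [div_lt_iff₀ h2s] at e1
  rw [le_div_iff₀ h2s] at e2
  nlinarith

/-- If two cells are not coloured `i` and have different blocks, they are separated. -/
lemma block_sep {s t t' : ℝ} (hs : 0 < s) {N : ℤ} (hN : 0 < N) {i : ℤ}
    (h1 : (⌊t / (2 * s)⌋ - i) % N ≠ 0) (h1' : (⌊t' / (2 * s)⌋ - i) % N ≠ 0)
    (h2 : (⌊t / (2 * s)⌋ - i) / N < (⌊t' / (2 * s)⌋ - i) / N) : s < t' - t := by
  set z := ⌊t / (2 * s)⌋ - i with hz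
  set z' := ⌊t' / (2 * s)⌋ - i with hz'
  have e1 := Int.emod_add_mul_ediv z N
  have e2 := Int.emod_add_mul_ediv z' N
  have e3 := Int.emod_lt_of_pos z hN
  have e4 := Int.emod_nonneg z' hN.ne'
  have e5 : 0 < z' % N := lt_of_le_of_ne e4 (Ne.symm h1')
  have h3 : z / N + 1 ≤ z' / N := h2
  have h4 : N * (z / N + 1) ≤ N * (z' / N) := mul_le_mul_of_nonneg_left h3 hN.le
  apply floor_gap hs (z := N * (z' / N) + i)
  · have : z < N * (z' / N) := by nlinarith
    omega
  · have : N * (z' / N) < z' := by linarith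
    omega

lemma block_close {s t t' : ℝ} (hs : 0 < s) {N : ℤ} (hN : 0 < N) {i : ℤ}
    (h2 : (⌊t / (2 * s)⌋ - i) / N = (⌊t' / (2 * s)⌋ - i) / N) : |t - t'| ≤ 2 * (N + 1) * s := by
  have key : ∀ t t' : ℝ, (⌊t / (2 * s)⌋ - i) / N = (⌊t' / (2 * s)⌋ - i) / N →
      t - t' ≤ 2 * (N + 1) * s := by
    intro t t' h2
    set z := ⌊t / (2 * s)⌋ - i with hz
    set z' := ⌊t' / (2 * s)⌋ - i with hz'
    have e1 := Int.emod_add_mul_ediv z N
    have e2 := Int.emod_add_mul_ediv z' N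
    have e3 := Int.emod_lt_of_pos z hN
    have e4 := Int.emod_nonneg z' hN.ne'
    have h5 : ⌊t / (2 * s)⌋ - ⌊t' / (2 * s)⌋ ≤ N := by
      rw [← h2] at e2
      have : z - z' < N := by linarith
      omega
    have h6 : (⌊t / (2 * s)⌋ : ℝ) - ⌊t' / (2 * s)⌋ ≤ N := by exact_mod_cast h5
    have h7 := Int.lt_floor_add_one (t / (2 * s))
    have h8 := Int.floor_le (t' / (2 * s))
    have h2s : 0 < 2 * s := by linarith
    have h9 : t / (2 * s) - t' / (2 * s) ≤ N + 1 := by linarith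
    rw [← sub_div, div_le_iff₀ h2s] at h9
    linarith
  rw [abs_le]
  constructor
  · have := key t' t h2.symm
    linarith
  · exact key t t' h2

/-- Upper bound by coordinates. -/
theorem nagataLE_of_coords {M : Type*} [MetricSpace M] {X : Set M} {k : ℕ} (π : M → Fin k → ℝ)
    {L : ℝ} (hL : 0 < L) (h1 : ∀ x ∈ X, ∀ y ∈ X, ∀ i, |π x i - π y i| ≤ dist x y)
    (h2 : ∀ x ∈ X, ∀ y ∈ X, ∀ δ : ℝ, 0 ≤ δ → (∀ i, |π x i - π y i| ≤ δ) → dist x y ≤ L * δ) :
    NagataLE X k := by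
  classical
  refine ⟨L * (2 * ((k : ℝ) + 2)), by positivity, fun s hs => ?_⟩
  set N : ℤ := (k : ℤ) + 1 with hN
  have hN0 : 0 < N := by omega
  set z : M → Fin k → ℤ := fun x j => ⌊π x j / (2 * s)⌋ with hz
  set S : Fin (k + 1) × (Fin k → ℤ) → Set M := fun p =>
    {x | x ∈ X ∧ ∀ j, (z x j - (p.1 : ℤ)) % N ≠ 0 ∧ (z x j - (p.1 : ℤ)) / N = p.2 j} with hS
  refine ⟨range S, ?_, ?_, ?_⟩
  · apply Subset.antisymm
    · rintro x ⟨_, ⟨p, rfl⟩, hx⟩
      exact hx.1
    · intro x hx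
      -- a colour that is good for all coordinates
      have hbad : ∃ i : Fin (k + 1), ∀ j : Fin k, (z x j - (i : ℤ)) % N ≠ 0 := by
        by_contra hcon
        push Not at hcon
        choose f hf using hcon
        have hfinj : Function.Injective f := by
          intro i i' hii
          have e1 := hf i
          have e2 := hf i'
          rw [← hii] at e2
          have d1 : N ∣ z x (f i) - (i : ℤ) := Int.dvd_of_emod_eq_zero e1
          have d2 : N ∣ z x (f i) - (i' : ℤ) := Int.dvd_of_emod_eq_zero e2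
          have d3 : N ∣ (i' : ℤ) - (i : ℤ) := by
            have := dvd_sub d1 d2
            have e : z x (f i) - (i : ℤ) - (z x (f i) - (i' : ℤ)) = (i' : ℤ) - (i : ℤ) := by ring
            rwa [e] at this
          have b1 := i.isLt
          have b2 := i'.isLt
          obtain ⟨q, hq⟩ := d3
          have hq0 : q = 0 := by
            rcases lt_trichotomy q 0 with h | h | h
            · nlinarith
            · exact h
            · nlinarith
          rw [hq0, mul_zero] at hq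
          apply Fin.ext
          omega
        have := Fintype.card_le_of_injective f hfinj
        simp at this
      obtain ⟨i, hi⟩ := hbad
      exact ⟨S (i, fun j => (z x j - (i : ℤ)) / N), ⟨_, rfl⟩, hx, fun j => ⟨hi j, rfl⟩⟩
  · rintro _ ⟨p, rfl⟩ x hx y hy
    have h3 : ∀ j, |π x j - π y j| ≤ 2 * ((k : ℝ) + 2) * s := by
      intro j
      have := block_close hs hN0 (i := (p.1 : ℤ)) (((hx.2 j).2).trans ((hy.2 j).2).symm)
      rw [hN] at this
      push_cast at this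
      linarith
    have := h2 x hx.1 y hy.1 _ (by positivity) h3
    linarith
  · intro A hAX hA
    -- for each colour at most one member meets `A`
    have huniq : ∀ i : Fin (k + 1), ∀ a a' : Fin k → ℤ, (S (i, a) ∩ A).Nonempty →
        (S (i, a') ∩ A).Nonempty → a = a' := by
      rintro i a a' ⟨x, hx, hxA⟩ ⟨y, hy, hyA⟩
      funext j
      have hd := h1 x (hAX hxA) y (hAX hyA) j
      have hd2 := hA x hxA y hyA
      have hxj := hx.2 j
      have hyj := hy.2 j
      rcases lt_trichotomy (a j) (a' j) with h | h | h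
      · have h5 := block_sep hs hN0 (t := π x j) (t' := π y j) hxj.1 hyj.1 (by
          show (z x j - _) / N < (z y j - _) / N
          rw [hxj.2, hyj.2]; exact h)
        have := (abs_le.mp (hd.trans hd2)).1
        linarith
      · exact h
      · have h5 := block_sep hs hN0 (t := π y j) (t' := π x j) hyj.1 hxj.1 (by
          show (z y j - _) / N < (z x j - _) / N
          rw [hxj.2, hyj.2]; exact h)
        have := (abs_le.mp (hd.trans hd2)).2
        linarith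
    set g : Fin (k + 1) → Set M := fun i =>
      if h : ∃ a : Fin k → ℤ, (S (i, a) ∩ A).Nonempty then S (i, h.choose) else ∅ with hg
    have hsub : {C ∈ range S | (C ∩ A).Nonempty} ⊆ g '' univ := by
      rintro _ ⟨⟨p, rfl⟩, hne⟩
      refine ⟨p.1, mem_univ _, ?_⟩
      have hex : ∃ a : Fin k → ℤ, (S (p.1, a) ∩ A).Nonempty := ⟨p.2, hne⟩
      simp only [hg]
      rw [dif_pos hex]
      have := huniq p.1 _ _ hex.choose_spec hne
      rw [this]
    refine (encard_le_encard hsub).trans ?_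
    refine (encard_image_le _ _).trans ?_
    rw [encard_univ]
    simp

/-- Every subset of `ℝ^k` has Nagata dimension at most `k`. -/
lemma euclid_dist_le {n : ℕ} (x y : EuclideanSpace ℝ (Fin n)) {δ : ℝ} (hδ : 0 ≤ δ)
    (h : ∀ i, |x i - y i| ≤ δ) : dist x y ≤ ((n : ℝ) + 1) * δ := by
  rw [EuclideanSpace.dist_eq]
  have h1 : ∑ i, dist (x i) (y i) ^ 2 ≤ (((n : ℝ) + 1) * δ) ^ 2 := by
    calc ∑ i, dist (x i) (y i) ^ 2 ≤ ∑ _i : Fin n, δ ^ 2 := by
          apply Finset.sum_le_sum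
          intro i _
          rw [Real.dist_eq]
          exact pow_le_pow_left₀ (abs_nonneg _) (h i) 2
      _ = n * δ ^ 2 := by simp
      _ ≤ (((n : ℝ) + 1) * δ) ^ 2 := by
          rw [mul_pow]
          apply mul_le_mul_of_nonneg_right _ (by positivity)
          nlinarith [(Nat.cast_nonneg n : (0 : ℝ) ≤ n)]
  calc Real.sqrt (∑ i, dist (x i) (y i) ^ 2) ≤ Real.sqrt ((((n : ℝ) + 1) * δ) ^ 2) :=
        Real.sqrt_le_sqrt h1
    _ = ((n : ℝ) + 1) * δ := Real.sqrt_sq (by positivity)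

lemma euclid_coord_le {n : ℕ} (x y : EuclideanSpace ℝ (Fin n)) (i : Fin n) :
    |x i - y i| ≤ dist x y := by
  rw [EuclideanSpace.dist_eq, ← Real.dist_eq]
  rw [← Real.sqrt_sq (dist_nonneg (x := x i) (y := y i))]
  apply Real.sqrt_le_sqrt
  exact Finset.single_le_sum (f := fun i => dist (x i) (y i) ^ 2) (fun j _ => by positivity)
    (Finset.mem_univ i)

theorem nagataLE_euclid {n : ℕ} (X : Set (EuclideanSpace ℝ (Fin n))) : NagataLE X n :=
  nagataLE_of_coords (fun x i => x i) (L := (n : ℝ) + 1) (by positivity)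
    (fun x _ y _ i => euclid_coord_le x y i)
    (fun x _ y _ δ hδ h => euclid_dist_le x y hδ h)

/-- Subsets of a coordinate hyperplane of `ℝ^{k+1}` have Nagata dimension at most `k`. -/
theorem nagataLE_hyperplane {k : ℕ} (X : Set (EuclideanSpace ℝ (Fin (k + 1)))) (i₀ : Fin (k + 1))
    (hX : ∀ x ∈ X, x i₀ = 0) : NagataLE X k := by
  apply nagataLE_of_coords (fun x j => x (i₀.succAbove j)) (L := ((k + 1 : ℕ) : ℝ) + 1)
    (by positivity) (fun x _ y _ i => euclid_coord_le x y _)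
  intro x hx y hy δ hδ h
  apply euclid_dist_le x y hδ
  intro i
  rcases Fin.eq_self_or_eq_succAbove i₀ i with rfl | ⟨j, rfl⟩
  · rw [hX x hx, hX y hy]; simpa using hδ
  · exact h j

lemma NagataLE.mono {M : Type*} [MetricSpace M] {X : Set M} {d d' : ℕ} (h : NagataLE X d)
    (hd : d ≤ d') : NagataLE X d' := by
  obtain ⟨c, hc, h⟩ := h
  refine ⟨c, hc, fun s hs => ?_⟩
  obtain ⟨𝒞, h1, h2, h3⟩ := h s hs
  refine ⟨𝒞, h1, h2, fun A hA hAs => (h3 A hA hAs).trans ?_⟩
  gcongr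

end Q79.Nagata
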