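import Mathlib

/-!
# Finite product Bernoulli measures (finite percolation)
-/

namespace Q79.Perc

open Finset
open scoped Classical

variable {α β : Type*} [DecidableEq α] [DecidableEq β]

/-- Expectation of `f` of a random subset of `E` (every element kept with probability `p`). -/
noncomputable def Ex (p : ℝ) (E : Finset α) (f : Finset α → ℝ) : ℝ :=
  ∑ S ∈ E.powerset, p ^ (#S) * (1 - p) ^ (#E - #S) * f S

/-- Indicator of a proposition. -/
noncomputable def ind (P : Prop) : ℝ := if P then 1 else 0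

theorem ind_true {P : Prop} (h : P) : ind P = 1 := by simp [ind, h]

theorem ind_false {P : Prop} (h : ¬ P) : ind P = 0 := by simp [ind, h]

theorem ind_congr {P Q : Prop} (h : P ↔ Q) : ind P = ind Q := by
  by_cases hP : P
  · rw [ind_true hP, ind_true (h.1 hP)]
  · rw [ind_false hP, ind_false (fun hQ => hP (h.2 hQ))]

theorem ind_nonneg (P : Prop) : 0 ≤ ind P := by
  by_cases hP : P
  · rw [ind_true hP]; norm_num
  · rw [ind_false hP]

theorem ind_le_one (P : Prop) : ind P ≤ 1 := by
  by_cases hP : P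
  · rw [ind_true hP]
  · rw [ind_false hP]; norm_num

theorem ind_mono {P Q : Prop} (h : P → Q) : ind P ≤ ind Q := by
  by_cases hP : P
  · rw [ind_true hP, ind_true (h hP)]
  · rw [ind_false hP]; exact ind_nonneg Q

/-- Probability of an event. -/
noncomputable def Pr (p : ℝ) (E : Finset α) (A : Finset α → Prop) : ℝ :=
  Ex p E (fun S => ind (A S))

theorem Ex_empty (p : ℝ) (f : Finset α → ℝ) : Ex p ∅ f = f ∅ := by
  simp [Ex]

theorem Ex_insert (p : ℝ) {E : Finset α} {a : α} (ha : a ∉ E) (f : Finset α → ℝ) :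
    Ex p (insert a E) f = (1 - p) * Ex p E f + p * Ex p E (fun S => f (insert a S)) := by
  unfold Ex
  rw [Finset.sum_powerset_insert ha, Finset.mul_sum, Finset.mul_sum]
  congr 1
  · refine Finset.sum_congr rfl fun S hS => ?_
    rw [Finset.mem_powerset] at hS
    have h1 : #S ≤ #E := Finset.card_le_card hS
    rw [Finset.card_insert_of_notMem ha, show #E + 1 - #S = (#E - #S) + 1 by omega, pow_succ]
    ring
  · refine Finset.sum_congr rfl fun S hS => ?_
    rw [Finset.mem_powerset] at hS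
    have h1 : a ∉ S := fun h => ha (hS h)
    rw [Finset.card_insert_of_notMem ha, Finset.card_insert_of_notMem h1,
      show #E + 1 - (#S + 1) = #E - #S by omega, pow_succ]
    ring

theorem Ex_congr (p : ℝ) {E : Finset α} {f g : Finset α → ℝ} (h : ∀ S ⊆ E, f S = g S) :
    Ex p E f = Ex p E g := by
  unfold Ex
  refine Finset.sum_congr rfl fun S hS => ?_
  rw [h S (Finset.mem_powerset.1 hS)]

theorem Ex_const (p : ℝ) (E : Finset α) (c : ℝ) : Ex p E (fun _ => c) = c := by
  induction E using Finset.induction_on with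
  | empty => simp [Ex_empty]
  | insert a s ha ih => rw [Ex_insert p ha, ih]; ring

theorem Ex_mul_left (p : ℝ) (E : Finset α) (c : ℝ) (f : Finset α → ℝ) :
    Ex p E (fun S => c * f S) = c * Ex p E f := by
  unfold Ex
  rw [Finset.mul_sum]
  exact Finset.sum_congr rfl fun S _ => by ring

theorem Ex_mul_right (p : ℝ) (E : Finset α) (c : ℝ) (f : Finset α → ℝ) :
    Ex p E (fun S => f S * c) = Ex p E f * c := by
  unfold Ex
  rw [Finset.sum_mul]
  exact Finset.sum_congr rfl fun S _ => by ring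

theorem Ex_add (p : ℝ) (E : Finset α) (f g : Finset α → ℝ) :
    Ex p E (fun S => f S + g S) = Ex p E f + Ex p E g := by
  unfold Ex
  rw [← Finset.sum_add_distrib]
  exact Finset.sum_congr rfl fun S _ => by ring

theorem Ex_sum {ι : Type*} (p : ℝ) (E : Finset α) (s : Finset ι) (f : ι → Finset α → ℝ) :
    Ex p E (fun S => ∑ i ∈ s, f i S) = ∑ i ∈ s, Ex p E (f i) := by
  unfold Ex
  rw [Finset.sum_comm]
  exact Finset.sum_congr rfl fun S _ => by rw [Finset.mul_sum]

theorem Ex_mono {p : ℝ} (h0 : 0 ≤ p) (h1 : p ≤ 1) {E : Finset α} {f g : Finset α → ℝ}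
    (h : ∀ S ⊆ E, f S ≤ g S) : Ex p E f ≤ Ex p E g := by
  unfold Ex
  refine Finset.sum_le_sum fun S hS => ?_
  exact mul_le_mul_of_nonneg_left (h S (Finset.mem_powerset.1 hS))
    (mul_nonneg (pow_nonneg h0 _) (pow_nonneg (by linarith) _))

theorem Pr_mono {p : ℝ} (h0 : 0 ≤ p) (h1 : p ≤ 1) {E : Finset α} {A B : Finset α → Prop}
    (h : ∀ S ⊆ E, A S → B S) : Pr p E A ≤ Pr p E B :=
  Ex_mono h0 h1 fun S hS => ind_mono (h S hS)

theorem Pr_nonneg {p : ℝ} (h0 : 0 ≤ p) (h1 : p ≤ 1) (E : Finset α) (A : Finset α → Prop) :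
    0 ≤ Pr p E A := by
  rw [← Ex_const p E 0]
  exact Ex_mono h0 h1 fun S _ => ind_nonneg _

theorem Pr_le_one {p : ℝ} (h0 : 0 ≤ p) (h1 : p ≤ 1) (E : Finset α) (A : Finset α → Prop) :
    Pr p E A ≤ 1 := by
  rw [← Ex_const p E 1]
  exact Ex_mono h0 h1 fun S _ => ind_le_one _

theorem Pr_congr (p : ℝ) {E : Finset α} {A B : Finset α → Prop}
    (h : ∀ S ⊆ E, (A S ↔ B S)) : Pr p E A = Pr p E B :=
  Ex_congr p fun S hS => ind_congr (h S hS)

theorem Pr_compl (p : ℝ) (E : Finset α) (A : Finset α → Prop) :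
    Pr p E (fun S => ¬ A S) = 1 - Pr p E A := by
  rw [eq_sub_iff_add_eq]
  unfold Pr
  rw [← Ex_add]
  rw [show (1 : ℝ) = Ex p E (fun _ => 1) from (Ex_const p E 1).symm]
  refine Ex_congr p fun S _ => ?_
  by_cases h : A S
  · rw [ind_false (not_not.2 h), ind_true h]; ring
  · rw [ind_true h, ind_false h]; ring

theorem Pr_or_le {p : ℝ} (h0 : 0 ≤ p) (h1 : p ≤ 1) (E : Finset α) (A B : Finset α → Prop) :
    Pr p E (fun S => A S ∨ B S) ≤ Pr p E A + Pr p E B := by
  unfold Pr
  rw [← Ex_add]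
  refine Ex_mono h0 h1 fun S _ => ?_
  by_cases hA : A S
  · rw [ind_true (Or.inl hA), ind_true hA]; linarith [ind_nonneg (B S)]
  · rw [ind_false hA, zero_add]
    exact ind_mono (fun h => h.resolve_left hA)

theorem Pr_exists_le {ι : Type*} {p : ℝ} (h0 : 0 ≤ p) (h1 : p ≤ 1) (E : Finset α) (s : Finset ι)
    (A : ι → Finset α → Prop) :
    Pr p E (fun S => ∃ i ∈ s, A i S) ≤ ∑ i ∈ s, Pr p E (A i) := by
  unfold Pr
  rw [← Ex_sum]
  refine Ex_mono h0 h1 fun S _ => ?_
  by_cases h : ∃ i ∈ s, A i S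
  · rw [ind_true h]
    obtain ⟨i, hi, hA⟩ := h
    calc (1 : ℝ) = ind (A i S) := by rw [ind_true hA]
      _ ≤ _ := Finset.single_le_sum (f := fun i => ind (A i S))
          (fun j _ => ind_nonneg _) hi
  · rw [ind_false h]
    exact Finset.sum_nonneg fun j _ => ind_nonneg _

/-- Fubini for a disjoint union. -/
theorem Ex_union (p : ℝ) {E₁ E₂ : Finset α} (hd : Disjoint E₁ E₂) (F : Finset α → ℝ) :
    Ex p (E₁ ∪ E₂) F = Ex p E₁ (fun S₁ => Ex p E₂ (fun S₂ => F (S₁ ∪ S₂))) := by
  induction E₁ using Finset.induction_on generalizing F with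
  | empty => rw [Ex_empty]; simp
  | insert a s ha ih =>
    have hd' : Disjoint s E₂ := Disjoint.mono_left (Finset.subset_insert a s) hd
    have ha2 : a ∉ E₂ := fun h =>
      (Finset.disjoint_left.1 hd) (Finset.mem_insert_self a s) h
    have ha3 : a ∉ s ∪ E₂ := by simp [ha, ha2]
    rw [Finset.insert_union, Ex_insert p ha3, Ex_insert p ha, ih hd', ih hd']
    simp only [Finset.insert_union]

/-- Independence of two disjoint sets. -/
theorem Ex_indep (p : ℝ) {E₁ E₂ : Finset α} (hd : Disjoint E₁ E₂) (f g : Finset α → ℝ) :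
    Ex p (E₁ ∪ E₂) (fun S => f (S ∩ E₁) * g (S ∩ E₂)) = Ex p E₁ f * Ex p E₂ g := by
  rw [Ex_union p hd, ← Ex_mul_right]
  refine Ex_congr p fun S₁ h₁ => ?_
  rw [← Ex_mul_left]
  refine Ex_congr p fun S₂ h₂ => ?_
  have e1 : (S₁ ∪ S₂) ∩ E₁ = S₁ := by
    ext x; simp only [Finset.mem_inter, Finset.mem_union]
    constructor
    · rintro ⟨h | h, h'⟩
      · exact h
      · exact absurd (h₂ h) (Finset.disjoint_left.1 hd h')
    · intro h; exact ⟨Or.inl h, h₁ h⟩
  have e2 : (S₁ ∪ S₂) ∩ E₂ = S₂ := by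
    ext x; simp only [Finset.mem_inter, Finset.mem_union]
    constructor
    · rintro ⟨h | h, h'⟩
      · exact absurd h' (Finset.disjoint_left.1 hd (h₁ h))
      · exact h
    · intro h; exact ⟨Or.inr h, h₂ h⟩
  rw [e1, e2]

theorem Ex_marginal (p : ℝ) {E₁ E : Finset α} (h : E₁ ⊆ E) (f : Finset α → ℝ) :
    Ex p E (fun S => f (S ∩ E₁)) = Ex p E₁ f := by
  have hE : E = E₁ ∪ (E \ E₁) := by rw [Finset.union_sdiff_of_subset h]
  have hd : Disjoint E₁ (E \ E₁) := Finset.disjoint_sdiff
  have := Ex_indep p hd f (fun _ => 1)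
  rw [← hE, Ex_const] at this
  simpa using this

theorem Ex_image (p : ℝ) {E : Finset α} {φ : α → β} (hφ : Set.InjOn φ E) (F : Finset β → ℝ) :
    Ex p (E.image φ) F = Ex p E (fun S => F (S.image φ)) := by
  induction E using Finset.induction_on generalizing F with
  | empty => rw [Finset.image_empty, Ex_empty, Ex_empty, Finset.image_empty]
  | insert a s ha ih =>
    have h1 : Set.InjOn φ s := hφ.mono (by simp)
    have h2 : φ a ∉ s.image φ := by
      intro h
      obtain ⟨b, hb, hab⟩ := Finset.mem_image.1 h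
      have := hφ (Finset.mem_coe.2 (Finset.mem_insert_of_mem hb))
        (Finset.mem_coe.2 (Finset.mem_insert_self a s)) hab
      exact ha (this ▸ hb)
    rw [Finset.image_insert, Ex_insert p h2, Ex_insert p ha, ih h1, ih h1]
    simp only [Finset.image_insert]

/-- The law of the pulled back configuration. -/
theorem Ex_pull (p : ℝ) {E : Finset α} {E' : Finset β} {φ : α → β} (hφ : Set.InjOn φ E)
    (hE : E.image φ ⊆ E') (F : Finset α → ℝ) :
    Ex p E' (fun S' => F (E.filter fun e => φ e ∈ S')) = Ex p E F := by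
  have h1 : Ex p E' (fun S' => F (E.filter fun e => φ e ∈ S')) =
      Ex p E' (fun S' => (fun T => F (E.filter fun e => φ e ∈ T)) (S' ∩ E.image φ)) := by
    refine Ex_congr p fun S' _ => ?_
    simp only
    congr 1
    refine Finset.filter_congr fun e he => ?_
    simp only [Finset.mem_inter, Finset.mem_image]
    constructor
    · intro h; exact ⟨h, e, he, rfl⟩
    · intro h; exact h.1
  rw [h1, Ex_marginal p hE (fun T => F (E.filter fun e => φ e ∈ T)), Ex_image p hφ]
  refine Ex_congr p fun S hS => ?_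
  congr 1
  ext e
  simp only [Finset.mem_filter, Finset.mem_image]
  constructor
  · rintro ⟨he, e', he', hee'⟩
    have := hφ (hS he') he hee'
    exact this ▸ he'
  · intro h; exact ⟨hS h, e, h, rfl⟩

theorem Pr_pull (p : ℝ) {E : Finset α} {E' : Finset β} {φ : α → β} (hφ : Set.InjOn φ E)
    (hE : E.image φ ⊆ E') (A : Finset α → Prop) :
    Pr p E' (fun S' => A (E.filter fun e => φ e ∈ S')) = Pr p E A := by
  exact Ex_pull p hφ hE (fun S => ind (A S))

theorem Pr_image (p : ℝ) {E : Finset α} {φ : α → β} (hφ : Set.InjOn φ E)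
    (A : Finset β → Prop) :
    Pr p (E.image φ) A = Pr p E (fun S => A (S.image φ)) := by
  unfold Pr
  rw [Ex_image p hφ]

/-- Independence of a family of events. -/
theorem Ex_indep_family {ι : Type*} (p : ℝ) (s : Finset ι) (Es : ι → Finset α) {E : Finset α}
    (hE : ∀ i ∈ s, Es i ⊆ E) (hd : ∀ i ∈ s, ∀ j ∈ s, i ≠ j → Disjoint (Es i) (Es j))
    (f : ι → Finset α → ℝ) :
    Ex p E (fun S => ∏ i ∈ s, f i (S ∩ Es i)) = ∏ i ∈ s, Ex p (Es i) (f i) := by
  induction s using Finset.induction_on generalizing E with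
  | empty => simp [Ex_const]
  | insert a s ha ih =>
    have hsub : Es a ⊆ E := hE a (Finset.mem_insert_self a s)
    have hdis : ∀ i ∈ s, Disjoint (Es i) (Es a) := fun i hi =>
      hd i (Finset.mem_insert_of_mem hi) a (Finset.mem_insert_self a s)
        (fun h => ha (h ▸ hi))
    have hEeq : E = Es a ∪ (E \ Es a) := by rw [Finset.union_sdiff_of_subset hsub]
    have h1 : Ex p E (fun S => ∏ i ∈ insert a s, f i (S ∩ Es i)) =
        Ex p (Es a ∪ (E \ Es a)) (fun S => f a (S ∩ Es a) *
          (fun T => ∏ i ∈ s, f i (T ∩ Es i)) (S ∩ (E \ Es a))) := by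
      rw [← hEeq]
      refine Ex_congr p fun S hS => ?_
      rw [Finset.prod_insert ha]
      congr 1
      refine Finset.prod_congr rfl fun i hi => ?_
      congr 1
      ext x
      simp only [Finset.mem_inter, Finset.mem_sdiff]
      constructor
      · rintro ⟨h1, h2⟩
        exact ⟨⟨h1, hS h1, fun h3 => Finset.disjoint_left.1 (hdis i hi) h2 h3⟩, h2⟩
      · rintro ⟨⟨h1, -⟩, h2⟩; exact ⟨h1, h2⟩
    rw [h1, Ex_indep p Finset.disjoint_sdiff (f a) (fun T => ∏ i ∈ s, f i (T ∩ Es i)),
      Finset.prod_insert ha, ih]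
    · intro i hi x hx
      exact Finset.mem_sdiff.2 ⟨hE i (Finset.mem_insert_of_mem hi) hx,
        fun h3 => Finset.disjoint_left.1 (hdis i hi) hx h3⟩
    · intro i hi j hj hij
      exact hd i (Finset.mem_insert_of_mem hi) j (Finset.mem_insert_of_mem hj) hij

theorem Pr_indep_family {ι : Type*} (p : ℝ) (s : Finset ι) (Es : ι → Finset α) {E : Finset α}
    (hE : ∀ i ∈ s, Es i ⊆ E) (hd : ∀ i ∈ s, ∀ j ∈ s, i ≠ j → Disjoint (Es i) (Es j))
    (A : ι → Finset α → Prop) :
    Pr p E (fun S => ∀ i ∈ s, A i (S ∩ Es i)) = ∏ i ∈ s, Pr p (Es i) (A i) := by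
  unfold Pr
  rw [← Ex_indep_family p s Es hE hd]
  refine Ex_congr p fun S _ => ?_
  by_cases h : ∀ i ∈ s, A i (S ∩ Es i)
  · rw [ind_true h, Finset.prod_eq_one]
    intro i hi
    exact ind_true (h i hi)
  · rw [ind_false h]
    push Not at h
    obtain ⟨i, hi, hA⟩ := h
    exact (Finset.prod_eq_zero hi (ind_false hA)).symm

/-- All elements of `T` are kept. -/
theorem Pr_open (p : ℝ) {T E : Finset α} (hT : T ⊆ E) :
    Pr p E (fun S => T ⊆ S) = p ^ #T := by
  have h1 : Pr p E (fun S => T ⊆ S) = Pr p T (fun S => T ⊆ S) := by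
    unfold Pr
    rw [← Ex_marginal p hT]
    refine Ex_congr p fun S _ => ind_congr ?_
    beta_reduce
    rw [Finset.subset_inter_iff]; simp
  rw [h1]
  unfold Pr Ex
  rw [Finset.sum_eq_single T]
  · beta_reduce
    rw [ind_true (Finset.Subset.refl T)]; simp
  · intro S hS hne
    rw [Finset.mem_powerset] at hS
    beta_reduce
    rw [ind_false (fun h => hne (Finset.Subset.antisymm hS h))]; ring
  · intro h; exact absurd (Finset.mem_powerset.2 (Finset.Subset.refl T)) h

/-- All elements of `T` are deleted. -/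
theorem Pr_closed (p : ℝ) {T E : Finset α} (hT : T ⊆ E) :
    Pr p E (fun S => Disjoint T S) = (1 - p) ^ #T := by
  have h1 : Pr p E (fun S => Disjoint T S) = Pr p T (fun S => Disjoint T S) := by
    unfold Pr
    rw [← Ex_marginal p hT]
    refine Ex_congr p fun S _ => ind_congr ?_
    beta_reduce
    rw [Finset.disjoint_left, Finset.disjoint_left]
    constructor
    · intro h x hx hx'; exact h hx (Finset.mem_inter.1 hx').1
    · intro h x hx hx'; exact h hx (Finset.mem_inter.2 ⟨hx', hx⟩)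
  rw [h1]
  unfold Pr Ex
  rw [Finset.sum_eq_single ∅]
  · beta_reduce
    rw [ind_true (Finset.disjoint_empty_right T)]; simp
  · intro S hS hne
    rw [Finset.mem_powerset] at hS
    have : ¬ Disjoint T S := by
      intro h
      apply hne
      rw [Finset.eq_empty_iff_forall_notMem]
      intro x hx
      exact Finset.disjoint_left.1 h (hS hx) hx
    beta_reduce
    rw [ind_false this]; ring
  · intro h; exact absurd (Finset.mem_powerset.2 (Finset.empty_subset T)) h

theorem Pr_closed_le {p : ℝ} (h0 : 0 ≤ p) (h1 : p ≤ 1) (T E : Finset α) :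
    Pr p E (fun S => T ⊆ E \ S) ≤ (1 - p) ^ #T := by
  by_cases hT : T ⊆ E
  · rw [← Pr_closed p hT]
    refine Pr_mono h0 h1 fun S _ h => ?_
    rw [Finset.disjoint_left]
    intro x hx hx'
    exact (Finset.mem_sdiff.1 (h hx)).2 hx'
  · have : Pr p E (fun S => T ⊆ E \ S) ≤ 0 := by
      rw [← Ex_const p E 0]
      refine Ex_mono h0 h1 fun S _ => ?_
      rw [ind_false (fun h => hT (h.trans Finset.sdiff_subset))]
    exact this.trans (pow_nonneg (by linarith) _)

end Q79.Perc
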