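import Pool.Agent.Q79.PercA

/-!
# Connectivity in discrete products, the grid, and the connectedness of minimal cuts
-/

namespace Q79.Perc

open Finset Relation
open scoped Classical

section General

variable {A B A' B' : Type*} [AddGroupWithOne A] [AddGroupWithOne B]
  [AddGroupWithOne A'] [AddGroupWithOne B']

/-- The second endpoint of the edge `(v, d)`. -/
def tgt (e : (A × B) × Bool) : A × B :=
  if e.2 then (e.1.1, e.1.2 + 1) else (e.1.1 + 1, e.1.2)

theorem tgt_false (v : A × B) : tgt (v, false) = (v.1 + 1, v.2) := by simp [tgt]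
theorem tgt_true (v : A × B) : tgt (v, true) = (v.1, v.2 + 1) := by simp [tgt]

/-- Adjacency in the graph with edge set `S`. -/
def Ad (S : Set ((A × B) × Bool)) (x y : A × B) : Prop :=
  ∃ e ∈ S, (e.1 = x ∧ tgt e = y) ∨ (e.1 = y ∧ tgt e = x)

/-- Being connected. -/
def Conn (S : Set ((A × B) × Bool)) (x y : A × B) : Prop := ReflTransGen (Ad S) x y

theorem Ad.symm {S : Set ((A × B) × Bool)} {x y : A × B} (h : Ad S x y) : Ad S y x := by
  obtain ⟨e, he, h⟩ := h
  exact ⟨e, he, h.symm⟩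

theorem Conn.symm {S : Set ((A × B) × Bool)} {x y : A × B} (h : Conn S x y) : Conn S y x := by
  induction h with
  | refl => exact ReflTransGen.refl
  | tail _ hbc ih => exact ReflTransGen.head (Ad.symm hbc) ih

theorem Conn.trans {S : Set ((A × B) × Bool)} {x y z : A × B} (h : Conn S x y)
    (h' : Conn S y z) : Conn S x z := ReflTransGen.trans h h'

theorem Conn.refl {S : Set ((A × B) × Bool)} (x : A × B) : Conn S x x := ReflTransGen.refl

theorem Conn.edge {S : Set ((A × B) × Bool)} {e : (A × B) × Bool} (he : e ∈ S) :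
    Conn S e.1 (tgt e) := ReflTransGen.single ⟨e, he, Or.inl ⟨rfl, rfl⟩⟩

theorem Conn.mono {S T : Set ((A × B) × Bool)} (hST : S ⊆ T) {x y : A × B} (h : Conn S x y) :
    Conn T x y := by
  induction h with
  | refl => exact ReflTransGen.refl
  | tail _ hbc ih =>
    obtain ⟨e, he, hh⟩ := hbc
    exact ReflTransGen.tail ih ⟨e, hST he, hh⟩

/-- The map on edges. -/
def emap (f : A → A') (g : B → B') (e : (A × B) × Bool) : (A' × B') × Bool :=
  ((f e.1.1, g e.1.2), e.2)

theorem tgt_emap {f : A → A'} {g : B → B'} (hf : ∀ a, f (a + 1) = f a + 1)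
    (hg : ∀ b, g (b + 1) = g b + 1) (e : (A × B) × Bool) :
    tgt (emap f g e) = (f (tgt e).1, g (tgt e).2) := by
  unfold tgt emap
  cases h : e.2 <;> simp [hf, hg]

theorem Conn.map {f : A → A'} {g : B → B'} (hf : ∀ a, f (a + 1) = f a + 1)
    (hg : ∀ b, g (b + 1) = g b + 1) {S : Set ((A × B) × Bool)} {S' : Set ((A' × B') × Bool)}
    (h : ∀ e ∈ S, emap f g e ∈ S') {x y : A × B} (hxy : Conn S x y) :
    Conn S' (f x.1, g x.2) (f y.1, g y.2) := by
  induction hxy with
  | refl => exact ReflTransGen.refl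
  | tail _ hbc ih =>
  obtain ⟨e, he, hh⟩ := hbc
  refine ReflTransGen.tail ih ⟨emap f g e, h e he, ?_⟩
  rw [tgt_emap hf hg]
  rcases hh with ⟨h1, h2⟩ | ⟨h1, h2⟩
  · left; exact ⟨by rw [← h1]; rfl, by rw [← h2]⟩
  · right; exact ⟨by rw [← h1]; rfl, by rw [← h2]⟩

/-- A connection passes through all intermediate levels. -/
theorem Conn.level {S : Set ((ℤ × B) × Bool)} {x y : ℤ × B} (h : Conn S x y) {i : ℤ}
    (hx : x.1 ≤ i) (hy : i ≤ y.1) : ∃ z : ℤ × B, z.1 = i ∧ Conn S x z ∧ Conn S z y := by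
  induction h with
  | refl => exact ⟨x, le_antisymm hx hy, Conn.refl x, Conn.refl x⟩
  | @tail b c hxb hbc ih =>
    by_cases hib : i ≤ b.1
    · obtain ⟨z, hz, h1, h2⟩ := ih hib
      exact ⟨z, hz, h1, ReflTransGen.tail h2 hbc⟩
    · have hc : c.1 ≤ b.1 + 1 := by
        obtain ⟨e, _, ⟨h1, h2⟩ | ⟨h1, h2⟩⟩ := hbc
        · rw [← h1, ← h2]; unfold tgt; split_ifs <;> dsimp only <;> omega
        · rw [← h1, ← h2]; unfold tgt; split_ifs <;> dsimp only <;> omega
      refine ⟨c, by omega, ReflTransGen.tail hxb hbc, Conn.refl c⟩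

theorem Ad.abs_sub_le {S : Set ((ℤ × B) × Bool)} {x y : ℤ × B} (h : Ad S x y) :
    y.1 ≤ x.1 + 1 := by
  obtain ⟨e, _, ⟨h1, h2⟩ | ⟨h1, h2⟩⟩ := h
  · rw [← h1, ← h2]; unfold tgt; split_ifs <;> dsimp only <;> omega
  · rw [← h1, ← h2]; unfold tgt; split_ifs <;> dsimp only <;> omega

end General

/-! ### The grid -/

/-- Edges of the grid. -/
abbrev GE := (ℤ × ℤ) × Bool

/-- The edges of the grid `[0, a] × [0, b]`. -/
noncomputable def R (a b : ℤ) : Finset GE :=
  ((Finset.Ico 0 a ×ˢ Finset.Icc 0 b) ×ˢ {false}) ∪ ((Finset.Icc 0 a ×ˢ Finset.Ico 0 b) ×ˢ {true})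

theorem mem_R_false {a b i j : ℤ} : ((i, j), false) ∈ R a b ↔ 0 ≤ i ∧ i < a ∧ 0 ≤ j ∧ j ≤ b := by
  simp [R, and_assoc]

theorem mem_R_true {a b i j : ℤ} : ((i, j), true) ∈ R a b ↔ 0 ≤ i ∧ i ≤ a ∧ 0 ≤ j ∧ j < b := by
  simp [R, and_assoc]

/-- Boundary of a chain. -/
def bd (x : GE → ZMod 2) (v : ℤ × ℤ) : ZMod 2 :=
  x (v, false) + x ((v.1 - 1, v.2), false) + x (v, true) + x ((v.1, v.2 - 1), true)

/-- Boundary of a set of faces. -/
def fb (f : ℤ × ℤ → ZMod 2) (e : GE) : ZMod 2 :=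
  if e.2 then f e.1 + f (e.1.1 - 1, e.1.2) else f e.1 + f (e.1.1, e.1.2 - 1)

theorem z2 (x : ZMod 2) : x + x = 0 := CharTwo.add_self_eq_zero x

theorem bd_fb (f : ℤ × ℤ → ZMod 2) (v : ℤ × ℤ) : bd (fb f) v = 0 := by
  simp only [bd, fb, if_true, Bool.false_eq_true, if_false]
  have h1 := z2 (f v)
  have h2 := z2 (f (v.1 - 1, v.2))
  have h3 := z2 (f (v.1, v.2 - 1))
  have h4 := z2 (f (v.1 - 1, v.2 - 1))
  linear_combination h1 + h2 + h3 + h4

/-- Indicator of a vertex. -/
noncomputable def dl (u : ℤ × ℤ) (w : ℤ × ℤ) : ZMod 2 := if w = u then 1 else 0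

/-- The chain of one edge. -/
noncomputable def sg (e : GE) (e' : GE) : ZMod 2 := if e' = e then 1 else 0

theorem bd_sg (e : GE) (w : ℤ × ℤ) : bd (sg e) w = dl e.1 w + dl (tgt e) w := by
  obtain ⟨⟨i, j⟩, d⟩ := e
  obtain ⟨k, l⟩ := w
  cases d
  · simp only [bd, sg, dl, tgt, Prod.mk.injEq, and_true, Bool.true_eq_false, Bool.false_eq_true,
      and_false, if_false, add_zero]
    have : (k - 1 = i ∧ l = j) ↔ (k = i + 1 ∧ l = j) := by
      constructor <;> rintro ⟨h1, h2⟩ <;> exact ⟨by omega, h2⟩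
    simp only [this]
  · simp only [bd, sg, dl, tgt, Prod.mk.injEq, and_true, Bool.true_eq_false, Bool.false_eq_true,
      and_false, if_false, add_zero, zero_add, if_true]
    have : (k = i ∧ l - 1 = j) ↔ (k = i ∧ l = j + 1) := by
      constructor <;> rintro ⟨h1, h2⟩ <;> exact ⟨h1, by omega⟩
    simp only [this]

theorem bd_add (x y : GE → ZMod 2) (v : ℤ × ℤ) : bd (fun e => x e + y e) v = bd x v + bd y v := by
  simp only [bd]; ring

/-- A connection gives a chain. -/
theorem chain_of_conn {S : Set GE} {u v : ℤ × ℤ} (h : Conn S u v) :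
    ∃ γ : GE → ZMod 2, (∀ e, e ∉ S → γ e = 0) ∧ ∀ w, bd γ w = dl u w + dl v w := by
  induction h with
  | refl => exact ⟨fun _ => 0, fun _ _ => rfl, fun w => by rw [z2]; simp [bd]⟩
  | @tail b c _ hbc ih =>
    obtain ⟨γ, h1, h2⟩ := ih
    obtain ⟨e, he, hh⟩ := hbc
    refine ⟨fun e' => γ e' + sg e e', fun e' he' => ?_, fun w => ?_⟩
    · have : e' ≠ e := fun h => he' (h ▸ he)
      simp [h1 e' he', sg, this]
    · rw [bd_add, h2, bd_sg]
      rcases hh with ⟨h3, h4⟩ | ⟨h3, h4⟩
      · rw [h3, h4]; linear_combination z2 (dl b w)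
      · rw [h3, h4]; linear_combination z2 (dl b w)

/-- A chain gives a connection. -/
theorem conn_of_chain {S : Finset GE} {u v : ℤ × ℤ} {θ : GE → ZMod 2}
    (hθ : ∀ e, e ∉ S → θ e = 0) (hb : ∀ w, bd θ w = dl u w + dl v w) :
    Conn (S : Set GE) u v := by
  by_contra hno
  set c : ℤ × ℤ → ZMod 2 := fun w => if Conn (S : Set GE) u w then 1 else 0 with hc
  set W : Finset (ℤ × ℤ) := S.image Prod.fst ∪ S.image tgt ∪ {u, v} with hW
  have hθe : θ = fun e' => ∑ e ∈ S, θ e * sg e e' := by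
    ext e'
    by_cases he' : e' ∈ S
    · rw [Finset.sum_eq_single e']
      · simp [sg]
      · intro b _ hb'; simp [sg, Ne.symm hb']
      · intro h; exact absurd he' h
    · rw [hθ e' he', Finset.sum_eq_zero]
      intro b hb'
      have : e' ≠ b := fun h => he' (h ▸ hb')
      simp [sg, this]
  have hbd : ∀ w, bd θ w = ∑ e ∈ S, θ e * (dl e.1 w + dl (tgt e) w) := by
    intro w
    conv_lhs => rw [hθe]
    simp_rw [← bd_sg]
    simp only [bd]
    rw [← Finset.sum_add_distrib, ← Finset.sum_add_distrib, ← Finset.sum_add_distrib]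
    exact Finset.sum_congr rfl fun e _ => by ring
  have hdl : ∀ x ∈ W, ∑ w ∈ W, c w * dl x w = c x := by
    intro x hx
    rw [Finset.sum_eq_single x]
    · simp [dl]
    · intro b _ hb'; simp [dl, hb']
    · intro h; exact absurd hx h
  have hL : ∑ w ∈ W, c w * bd θ w = c u + c v := by
    simp_rw [hb, mul_add]
    rw [Finset.sum_add_distrib, hdl u (by simp [hW]), hdl v (by simp [hW])]
  have hRr : ∑ w ∈ W, c w * bd θ w = ∑ e ∈ S, θ e * (c e.1 + c (tgt e)) := by
    simp_rw [hbd, Finset.mul_sum]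
    rw [Finset.sum_comm]
    refine Finset.sum_congr rfl fun e he => ?_
    have h1 : e.1 ∈ W := by
      rw [hW]; simp only [Finset.mem_union]
      exact Or.inl (Or.inl (Finset.mem_image_of_mem _ he))
    have h2 : tgt e ∈ W := by
      rw [hW]; simp only [Finset.mem_union]
      exact Or.inl (Or.inr (Finset.mem_image_of_mem _ he))
    rw [← hdl _ h1, ← hdl _ h2, ← Finset.sum_add_distrib, Finset.mul_sum]
    exact Finset.sum_congr rfl fun w _ => by ring
  have hz : ∑ e ∈ S, θ e * (c e.1 + c (tgt e)) = 0 := by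
    refine Finset.sum_eq_zero fun e he => ?_
    have hiff : Conn (S : Set GE) u e.1 ↔ Conn (S : Set GE) u (tgt e) :=
      ⟨fun h => h.trans (Conn.edge (S := (S : Set GE)) he),
        fun h => h.trans (Conn.edge (S := (S : Set GE)) he).symm⟩
    have : c e.1 = c (tgt e) := by simp only [hc, hiff]
    rw [this, z2, mul_zero]
  have : c u + c v = 1 := by
    simp only [hc]
    rw [if_pos (Conn.refl u), if_neg hno, add_zero]
  rw [hRr, hz, this] at hL
  exact zero_ne_one hL

/-- Cycles in a grid are sums of squares. -/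
theorem cycle_eq_fb {a b : ℤ} {x : GE → ZMod 2} (hx : ∀ e, e ∉ R a b → x e = 0)
    (hb : ∀ w, bd x w = 0) :
    ∃ f : ℤ × ℤ → ZMod 2, x = fb f ∧
      ∀ q : ℤ × ℤ, ¬ (0 ≤ q.1 ∧ q.1 < a ∧ 0 ≤ q.2 ∧ q.2 < b) → f q = 0 := by
  set f : ℤ × ℤ → ZMod 2 := fun q => ∑ j ∈ Finset.Icc 0 q.2, x ((q.1, j), false) with hf
  have f0 : ∀ i j : ℤ, j < 0 → f (i, j) = 0 := by
    intro i j hj
    simp only [hf]
    rw [Finset.Icc_eq_empty (by omega)]; simp
  have fs : ∀ i j : ℤ, 0 ≤ j → f (i, j) = f (i, j - 1) + x ((i, j), false) := by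
    intro i j hj
    simp only [hf]
    have : Finset.Icc 0 j = insert j (Finset.Icc 0 (j - 1)) := by
      ext k; simp only [Finset.mem_Icc, Finset.mem_insert]; omega
    rw [this, Finset.sum_insert (by simp)]; ring
  have vert : ∀ i j : ℤ, x ((i, j), true) = f (i, j) + f (i - 1, j) := by
    intro i j
    by_cases hj : j < 0
    · rw [f0 i j hj, f0 (i - 1) j hj, hx _ (by rw [mem_R_true]; omega)]; simp
    · push Not at hj
      induction j, hj using Int.leInduction with
      | base =>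
        have h := hb (i, 0)
        simp only [bd] at h
        rw [hx ((i, 0 - 1), true) (by rw [mem_R_true]; omega)] at h
        rw [fs i 0 le_rfl, fs (i - 1) 0 le_rfl, f0 i (0 - 1) (by norm_num),
          f0 (i - 1) (0 - 1) (by norm_num)]
        linear_combination h - z2 (x ((i, 0), false)) - z2 (x ((i - 1, 0), false))
      | succ j hj ih =>
        have h := hb (i, j + 1)
        simp only [bd] at h
        rw [show j + 1 - 1 = j by ring] at h
        rw [fs i (j + 1) (by omega), fs (i - 1) (j + 1) (by omega), show j + 1 - 1 = j by ring]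
        linear_combination h + ih - z2 (x ((i, j + 1), false)) - z2 (x ((i - 1, j + 1), false))
          - z2 (x ((i, j), true))
  refine ⟨f, ?_, ?_⟩
  · ext ⟨⟨i, j⟩, d⟩
    cases d
    · simp only [fb, Bool.false_eq_true, if_false]
      by_cases hj : j < 0
      · rw [f0 i j hj, f0 i (j - 1) (by omega), hx _ (by rw [mem_R_false]; omega)]; simp
      · rw [fs i j (by omega)]
        linear_combination -z2 (f (i, j - 1))
    · simp only [fb, if_true]
      exact vert i j
  · rintro ⟨i, j⟩ hq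
    simp only at hq
    by_cases hj : j < 0
    · exact f0 i j hj
    by_cases hi : 0 ≤ i ∧ i < a
    · -- `j ≥ b`
      have hjb : b ≤ j := by
        by_contra h
        exact hq ⟨hi.1, hi.2, by omega, by omega⟩
      have key : ∀ i : ℤ, 0 ≤ i → f (i, j) = 0 := by
        intro i hi
        have hm1 : f (-1, j) = 0 := by
          simp only [hf]
          refine Finset.sum_eq_zero fun j' _ => hx _ (by rw [mem_R_false]; omega)
        have hrec : ∀ i : ℤ, f (i, j) = f (i - 1, j) := by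
          intro i
          have h := vert i j
          rw [hx ((i, j), true) (by rw [mem_R_true]; omega)] at h
          linear_combination -h - z2 (f (i - 1, j))
        induction i, hi using Int.leInduction with
        | base => rw [hrec 0, show (0 : ℤ) - 1 = -1 by ring]; exact hm1
        | succ i hi ih => rw [hrec (i + 1), show i + 1 - 1 = i by ring]; exact ih
      exact key i hi.1
    · simp only [hf]
      refine Finset.sum_eq_zero fun j' _ => hx _ (by rw [mem_R_false]; omega)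

/-- The unit square with lower left corner `q`. -/
def sq (q : ℤ × ℤ) : Finset GE :=
  {(q, false), ((q.1, q.2 + 1), false), (q, true), ((q.1 + 1, q.2), true)}

/-- Two edges are on a common square. -/
def aux (e e' : GE) : Prop := ∃ q, e ∈ sq q ∧ e' ∈ sq q

theorem mem_sq_self (e : GE) : e ∈ sq e.1 := by
  obtain ⟨v, d⟩ := e
  cases d <;> simp [sq]

theorem mem_sq_other (e : GE) :
    e ∈ sq (if e.2 then (e.1.1 - 1, e.1.2) else (e.1.1, e.1.2 - 1)) := by
  obtain ⟨v, d⟩ := e
  cases d <;> simp [sq]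

theorem fb_zero_of {f : ℤ × ℤ → ZMod 2} {e : GE} (h : ∀ q, e ∈ sq q → f q = 0) : fb f e = 0 := by
  have h1 := h _ (mem_sq_self e)
  have h2 := h _ (mem_sq_other e)
  unfold fb
  split_ifs with hd
  · rw [if_pos hd] at h2; rw [h1, h2, add_zero]
  · rw [if_neg hd] at h2; rw [h1, h2, add_zero]

theorem mem_R_of_sq {a b : ℤ} {e : GE} {q : ℤ × ℤ} (he : e ∈ sq q)
    (hq : 0 ≤ q.1 ∧ q.1 < a ∧ 0 ≤ q.2 ∧ q.2 < b) : e ∈ R a b := by
  obtain ⟨⟨i, j⟩, d⟩ := e
  obtain ⟨k, l⟩ := q
  simp only [sq, Finset.mem_insert, Finset.mem_singleton, Prod.mk.injEq] at he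
  simp only at hq
  cases d
  · rw [mem_R_false]; simp at he; omega
  · rw [mem_R_true]; simp at he; omega

/-- **Minimal cuts of a grid are connected** (Timar's argument). -/
theorem timar {a b : ℤ} {F : Finset GE} {u v : ℤ × ℤ}
    (hF : ¬ Conn ((R a b \ F : Finset GE) : Set GE) u v) :
    ∃ P ⊆ F, (¬ Conn ((R a b \ P : Finset GE) : Set GE) u v) ∧
      ∀ e ∈ P, ∀ e' ∈ P, ReflTransGen (fun x y => y ∈ P ∧ aux x y) e e' := by
  obtain ⟨P, hP, hmin⟩ := Finset.exists_min_image
    (F.powerset.filter fun P => ¬ Conn ((R a b \ P : Finset GE) : Set GE) u v) Finset.card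
    ⟨F, by rw [Finset.mem_filter, Finset.mem_powerset]; exact ⟨Finset.Subset.refl F, hF⟩⟩
  rw [Finset.mem_filter, Finset.mem_powerset] at hP
  refine ⟨P, hP.1, hP.2, ?_⟩
  intro e he e' he'
  by_contra hno
  set P1 : Finset GE := P.filter fun x => ReflTransGen (fun x y => y ∈ P ∧ aux x y) e x with hP1
  set P2 : Finset GE := P \ P1 with hP2
  have he1 : e ∈ P1 := by rw [hP1, Finset.mem_filter]; exact ⟨he, ReflTransGen.refl⟩
  have he2 : e' ∈ P2 := by
    rw [hP2, Finset.mem_sdiff]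
    exact ⟨he', fun h => hno (Finset.mem_filter.1 h).2⟩
  have hs1 : P1 ⊆ P := Finset.filter_subset _ _
  have hs2 : P2 ⊆ P := Finset.sdiff_subset
  have hlt : ∀ Q ⊆ P, Q ≠ P → Conn ((R a b \ Q : Finset GE) : Set GE) u v := by
    intro Q hQ hne
    by_contra hc
    have := hmin Q (by rw [Finset.mem_filter, Finset.mem_powerset]; exact ⟨hQ.trans hP.1, hc⟩)
    exact hne (Finset.eq_of_subset_of_card_le hQ this)
  have hc1 := hlt P1 hs1 (fun h => by
    have : e' ∈ P1 := by rw [h]; exact he'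
    exact (Finset.mem_sdiff.1 he2).2 this)
  have hc2 := hlt P2 hs2 (fun h => by
    have : e ∈ P2 := by rw [h]; exact he
    exact (Finset.mem_sdiff.1 this).2 he1)
  obtain ⟨γ₁, g1, g1b⟩ := chain_of_conn hc1
  obtain ⟨γ₂, g2, g2b⟩ := chain_of_conn hc2
  obtain ⟨f, hf, hf0⟩ := cycle_eq_fb (a := a) (b := b) (x := fun e => γ₁ e + γ₂ e)
    (fun e he => by
      rw [g1 e (fun h => he (Finset.mem_sdiff.1 h).1), g2 e (fun h => he (Finset.mem_sdiff.1 h).1),
        add_zero])
    (fun w => by rw [bd_add, g1b, g2b, z2])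
  set M : ℤ × ℤ → Prop := fun q => ∃ x ∈ P1, x ∈ sq q with hM
  set f₁ : ℤ × ℤ → ZMod 2 := fun q => if M q then f q else 0 with hf₁
  set f₂ : ℤ × ℤ → ZMod 2 := fun q => if M q then 0 else f q with hf₂
  have hf12 : ∀ e, fb f₁ e + fb f₂ e = fb f e := by
    intro e
    have : ∀ q, f₁ q + f₂ q = f q := by
      intro q; simp only [hf₁, hf₂]; split_ifs <;> simp
    unfold fb
    split_ifs
    · rw [← this, ← this]; ring
    · rw [← this, ← this]; ring
  apply hP.2
  refine conn_of_chain (θ := fun e => γ₁ e + fb f₂ e) (fun x hx => ?_) (fun w => ?_)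
  · -- support
    by_cases hxR : x ∈ R a b
    · have hxP : x ∈ P := by
        by_contra h; exact hx (Finset.mem_sdiff.2 ⟨hxR, h⟩)
      by_cases hx1 : x ∈ P1
      · rw [g1 x (fun h => (Finset.mem_sdiff.1 h).2 hx1), zero_add]
        refine fb_zero_of fun q hq => ?_
        simp only [hf₂]
        rw [if_pos ⟨x, hx1, hq⟩]
      · have hx2 : x ∈ P2 := Finset.mem_sdiff.2 ⟨hxP, hx1⟩
        have e1 : γ₁ x + fb f₂ x = γ₂ x + fb f₁ x := by
          have h : γ₁ x + γ₂ x = fb f x := congrFun hf x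
          rw [← hf12] at h
          linear_combination h + z2 (fb f₂ x) - z2 (γ₂ x)
        rw [e1, g2 x (fun h => (Finset.mem_sdiff.1 h).2 hx2), zero_add]
        refine fb_zero_of fun q hq => ?_
        simp only [hf₁]
        rw [if_neg]
        rintro ⟨y, hy, hyq⟩
        apply hx1
        rw [hP1, Finset.mem_filter] at hy ⊢
        exact ⟨hxP, ReflTransGen.tail hy.2 ⟨hxP, q, hyq, hq⟩⟩
    · rw [g1 x (fun h => hxR (Finset.mem_sdiff.1 h).1), zero_add]
      refine fb_zero_of fun q hq => ?_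
      simp only [hf₂]
      split_ifs
      · rfl
      · apply hf0
        intro h
        exact hxR (mem_R_of_sq hq h)
  · rw [bd_add, g1b, bd_fb, add_zero]

end Q79.Perc
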