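import Pool.Agent.Q79.PercB

/-!
# Closed contours in the grid
-/

namespace Q79.Perc

open Finset Relation
open scoped Classical

theorem sq_card (q : ℤ × ℤ) : #(sq q) ≤ 4 := Finset.card_le_four

/-- Edges on a common square with `e`. -/
def nbr (e : GE) : Finset GE :=
  sq e.1 ∪ sq (if e.2 then (e.1.1 - 1, e.1.2) else (e.1.1, e.1.2 - 1))

theorem nbr_card (e : GE) : #(nbr e) ≤ 8 := by
  unfold nbr
  refine (Finset.card_union_le _ _).trans ?_
  have h1 := sq_card e.1
  have h2 := sq_card (if e.2 then (e.1.1 - 1, e.1.2) else (e.1.1, e.1.2 - 1))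
  omega

theorem aux_nbr {e e' : GE} (h : aux e e') : e' ∈ nbr e := by
  obtain ⟨⟨k, l⟩, h1, h2⟩ := h
  obtain ⟨⟨i, j⟩, d⟩ := e
  have hq : (k, l) = (i, j) ∨
      (k, l) = (if d then (i - 1, j) else (i, j - 1)) := by
    simp only [sq, Finset.mem_insert, Finset.mem_singleton, Prod.mk.injEq] at h1
    cases d
    · simp at h1
      rcases h1 with ⟨h, h'⟩ | ⟨h, h'⟩
      · left; rw [h, h']
      · right; simp only [Bool.false_eq_true, if_false, Prod.mk.injEq]; omega
    · simp at h1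
      rcases h1 with ⟨h, h'⟩ | ⟨h, h'⟩
      · left; rw [h, h']
      · right; simp only [if_true, Prod.mk.injEq]; omega
  unfold nbr
  rw [Finset.mem_union]
  rcases hq with hq | hq
  · left; rw [← hq]; exact h2
  · right
    simp only
    rw [← hq]; exact h2

theorem aux_symm {e e' : GE} (h : aux e e') : aux e' e := by
  obtain ⟨q, h1, h2⟩ := h
  exact ⟨q, h2, h1⟩

theorem aux_row {e e' : GE} (h : aux e e') : |e'.1.2 - e.1.2| ≤ 1 := by
  obtain ⟨⟨k, l⟩, h1, h2⟩ := h
  obtain ⟨⟨i, j⟩, d⟩ := e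
  obtain ⟨⟨i', j'⟩, d'⟩ := e'
  simp only [sq, Finset.mem_insert, Finset.mem_singleton, Prod.mk.injEq] at h1 h2
  rw [abs_le]
  simp only
  omega

/-- The walks of `n` steps from `e`. -/
noncomputable def walks : ℕ → GE → Finset (List GE)
  | 0, e => {[e]}
  | n + 1, e => (nbr e).biUnion fun e' => (walks n e').image (List.cons e)

theorem walks_card (n : ℕ) (e : GE) : #(walks n e) ≤ 8 ^ n := by
  induction n generalizing e with
  | zero => simp [walks]
  | succ n ih =>
    rw [walks]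
    refine Finset.card_biUnion_le.trans ?_
    calc ∑ e' ∈ nbr e, #((walks n e').image (List.cons e))
        ≤ ∑ e' ∈ nbr e, 8 ^ n := Finset.sum_le_sum fun e' _ => Finset.card_image_le.trans (ih e')
      _ = #(nbr e) * 8 ^ n := by rw [Finset.sum_const, smul_eq_mul]
      _ ≤ 8 * 8 ^ n := Nat.mul_le_mul_right _ (nbr_card e)
      _ = 8 ^ (n + 1) := by ring

theorem walks_length {n : ℕ} {e : GE} {l : List GE} (h : l ∈ walks n e) : l.length = n + 1 := by
  induction n generalizing e l with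
  | zero => simp [walks] at h; simp [h]
  | succ n ih =>
    rw [walks, Finset.mem_biUnion] at h
    obtain ⟨e', _, h⟩ := h
    obtain ⟨l', hl', rfl⟩ := Finset.mem_image.1 h
    simp [ih hl']

/-- The auxiliary graph on a set of edges. -/
def auxG (P : Finset GE) : SimpleGraph GE where
  Adj x y := x ≠ y ∧ x ∈ P ∧ y ∈ P ∧ aux x y
  symm := ⟨fun _ _ h => ⟨h.1.symm, h.2.2.1, h.2.1, aux_symm h.2.2.2⟩⟩
  loopless := ⟨fun _ h => h.1 rfl⟩

theorem walk_row {P : Finset GE} {x y : GE} (w : (auxG P).Walk x y) :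
    |y.1.2 - x.1.2| ≤ w.length := by
  induction w with
  | nil => simp
  | @cons u v w h p ih =>
    have h1 := aux_row h.2.2.2
    rw [SimpleGraph.Walk.length_cons]
    push_cast
    rw [abs_le] at *
    omega

theorem walk_take {P : Finset GE} {x y : GE} (w : (auxG P).Walk x y) (n : ℕ) (hn : n ≤ w.length) :
    w.support.take (n + 1) ∈ walks n x := by
  induction w generalizing n with
  | nil =>
    have : n = 0 := by simpa using hn
    subst this
    simp [walks]
  | @cons u v w h p ih =>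
    cases n with
    | zero => simp [walks]
    | succ n =>
      rw [SimpleGraph.Walk.support_cons, List.take_succ_cons, walks, Finset.mem_biUnion]
      refine ⟨v, aux_nbr h.2.2.2, Finset.mem_image_of_mem _ (ih n ?_)⟩
      rw [SimpleGraph.Walk.length_cons] at hn
      omega

theorem walk_mem {P : Finset GE} {x y : GE} (w : (auxG P).Walk x y) (hx : x ∈ P) :
    ∀ z ∈ w.support, z ∈ P := by
  induction w with
  | nil => intro z hz; simp at hz; rw [hz]; exact hx
  | @cons u v w h p ih =>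
    intro z hz
    rw [SimpleGraph.Walk.support_cons, List.mem_cons] at hz
    rcases hz with rfl | hz
    · exact hx
    · exact ih h.2.2.1 z hz

theorem exists_walk {P : Finset GE} {e e' : GE} (he : e ∈ P)
    (h : ReflTransGen (fun x y => y ∈ P ∧ aux x y) e e') {n : ℕ}
    (hn : (n : ℤ) ≤ |e'.1.2 - e.1.2|) :
    ∃ l ∈ walks n e, l.Nodup ∧ ∀ x ∈ l, x ∈ P := by
  have hr : e' ∈ P ∧ (auxG P).Reachable e e' := by
    clear hn
    induction h with
    | refl => exact ⟨he, SimpleGraph.Reachable.refl e⟩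
    | @tail b c _ hbc ih =>
      refine ⟨hbc.1, ?_⟩
      by_cases hb : b = c
      · rw [← hb]; exact ih.2
      · exact ih.2.trans (SimpleGraph.Adj.reachable ⟨hb, ih.1, hbc.1, hbc.2⟩)
  obtain ⟨w, hw⟩ := hr.2.exists_isPath
  have hlen : n ≤ w.length := by
    have := walk_row w
    omega
  refine ⟨_, walk_take w n hlen, ?_, ?_⟩
  · exact (List.take_sublist _ _).nodup hw.support_nodup
  · intro x hx
    exact walk_mem w he x (List.mem_of_mem_take hx)

theorem conn_row {S : Set GE} {i₀ i₁ j : ℤ} (h01 : i₀ ≤ i₁)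
    (h : ∀ i, i₀ ≤ i → i < i₁ → ((i, j), false) ∈ S) : Conn S (i₀, j) (i₁, j) := by
  induction i₁, h01 using Int.leInduction with
  | base => exact Conn.refl _
  | succ i hi ih =>
    refine (ih (fun i' h1 h2 => h i' h1 (by omega))).trans ?_
    have := Conn.edge (h i hi (by omega))
    rwa [tgt_false] at this

theorem conn_col {S : Set GE} {i j₀ j₁ : ℤ} (h01 : j₀ ≤ j₁)
    (h : ∀ j, j₀ ≤ j → j < j₁ → ((i, j), true) ∈ S) : Conn S (i, j₀) (i, j₁) := by
  induction j₁, h01 using Int.leInduction with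
  | base => exact Conn.refl _
  | succ j hj ih =>
    refine (ih (fun j' h1 h2 => h j' h1 (by omega))).trans ?_
    have := Conn.edge (h j hj (by omega))
    rwa [tgt_true] at this

/-- If `(0, j₀)` is not connected to the right side of the grid, there is a long closed walk. -/
theorem arm_fail {a b j₀ : ℤ} (ha : 0 < a) (hj0 : 0 ≤ j₀) (hj1 : j₀ ≤ b) {O : Finset GE}
    (hno : ¬ ∃ y : ℤ × ℤ, y.1 = a ∧ Conn (O : Set GE) (0, j₀) y) :
    (∃ j ∈ Finset.Ico 0 b, ∃ l ∈ walks (j - j₀).natAbs ((0, j), true),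
      l.Nodup ∧ ∀ x ∈ l, x ∈ R a b \ O) ∨
    (∃ i ∈ Finset.Ico 0 a, ∃ l ∈ walks b.toNat ((i, 0), false),
      l.Nodup ∧ ∀ x ∈ l, x ∈ R a b \ O) := by
  set F : Finset GE := (R a b \ O).filter fun e => ¬ (e.2 = true ∧ e.1.1 = a) with hFdef
  have hFO : F ⊆ R a b \ O := Finset.filter_subset _ _
  have hconn : ∀ y, Conn ((R a b \ F : Finset GE) : Set GE) (0, j₀) y →
      Conn (O : Set GE) (0, j₀) y := by
    intro y hy
    induction hy with
    | refl => exact Conn.refl _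
    | @tail c d hc hcd ih =>
      obtain ⟨e, he, hh⟩ := hcd
      rw [Finset.mem_coe, Finset.mem_sdiff] at he
      by_cases heO : e ∈ O
      · exact ReflTransGen.tail ih ⟨e, heO, hh⟩
      · exfalso
        have h2 : e.2 = true ∧ e.1.1 = a := by
          by_contra h
          exact he.2 (Finset.mem_filter.2 ⟨Finset.mem_sdiff.2 ⟨he.1, heO⟩, h⟩)
        apply hno
        refine ⟨c, ?_, ih⟩
        rcases hh with ⟨h3, h4⟩ | ⟨h3, h4⟩
        · rw [← h3]; exact h2.2
        · rw [← h4]; unfold tgt; rw [if_pos h2.1]; exact h2.2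
  have hF : ¬ Conn ((R a b \ F : Finset GE) : Set GE) (0, j₀) (a, 0) := fun h =>
    hno ⟨(a, 0), rfl, hconn _ h⟩
  obtain ⟨P, hPF, hP, hPc⟩ := timar hF
  have hPO : ∀ x ∈ P, x ∈ R a b \ O := fun x hx => hFO (hPF hx)
  have row : ∀ j, 0 ≤ j → j ≤ b →
      Conn ((R a b \ P : Finset GE) : Set GE) (0, j₀) (0, j) →
      ∃ i, ((i, j), false) ∈ P := by
    intro j h1 h2 h3
    by_contra hcon
    push Not at hcon
    apply hP
    refine h3.trans ((conn_row (i₁ := a) ha.le fun i h4 h5 => ?_).trans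
      (conn_col (j₀ := 0) (j₁ := j) h1 fun j' h4 h5 => ?_).symm)
    · rw [Finset.mem_coe, Finset.mem_sdiff, mem_R_false]
      exact ⟨⟨h4, h5, h1, h2⟩, hcon i⟩
    · rw [Finset.mem_coe, Finset.mem_sdiff, mem_R_true]
      refine ⟨⟨ha.le, le_rfl, h4, by omega⟩, fun hmem => ?_⟩
      have := (Finset.mem_filter.1 (hPF hmem)).2
      exact this ⟨rfl, rfl⟩
  have hrow_range : ∀ i j, ((i, j), false) ∈ P → i ∈ Finset.Ico 0 a := by
    intro i j hij
    have := (Finset.mem_sdiff.1 (hPO _ hij)).1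
    rw [mem_R_false] at this
    rw [Finset.mem_Ico]; omega
  by_cases hcol : ∃ j, ((0, j), true) ∈ P
  · left
    obtain ⟨j, hj⟩ := hcol
    obtain ⟨i, hi⟩ := row j₀ hj0 hj1 (Conn.refl _)
    have hjr := (Finset.mem_sdiff.1 (hPO _ hj)).1
    rw [mem_R_true] at hjr
    obtain ⟨l, hl, hnd, hlP⟩ := exists_walk hj (hPc _ hj _ hi) (n := (j - j₀).natAbs)
      (by simp only; rw [Int.natCast_natAbs, abs_sub_comm])
    exact ⟨j, by rw [Finset.mem_Ico]; omega, l, hl, hnd, fun x hx => hPO x (hlP x hx)⟩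
  · right
    push Not at hcol
    have hb0 : 0 ≤ b := hj0.trans hj1
    have hcolR : ∀ j, 0 ≤ j → j < b → (((0 : ℤ), j), true) ∈
        ((R a b \ P : Finset GE) : Set GE) := by
      intro j h1 h2
      rw [Finset.mem_coe, Finset.mem_sdiff, mem_R_true]
      exact ⟨⟨le_rfl, ha.le, h1, h2⟩, hcol j⟩
    have hc0 : Conn ((R a b \ P : Finset GE) : Set GE) (0, j₀) (0, 0) :=
      (conn_col (j₀ := 0) (j₁ := j₀) hj0 fun j h1 h2 => hcolR j h1 (by omega)).symm
    have hcb : Conn ((R a b \ P : Finset GE) : Set GE) (0, j₀) (0, b) :=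
      conn_col (j₀ := j₀) (j₁ := b) hj1 fun j h1 h2 => hcolR j (by omega) h2
    obtain ⟨i, hi⟩ := row 0 le_rfl hb0 hc0
    obtain ⟨i', hi'⟩ := row b hb0 le_rfl hcb
    obtain ⟨l, hl, hnd, hlP⟩ := exists_walk hi (hPc _ hi _ hi') (n := b.toNat)
      (by simp only [sub_zero]; rw [Int.toNat_of_nonneg hb0]; exact le_abs_self b)
    exact ⟨i, hrow_range i 0 hi, l, hl, hnd, fun x hx => hPO x (hlP x hx)⟩

theorem walk_prob {p : ℝ} (h0 : 0 ≤ p) (h1 : p ≤ 1) (E : Finset GE) (n : ℕ) (e : GE) :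
    Pr p E (fun S => ∃ l ∈ walks n e, l.Nodup ∧ ∀ x ∈ l, x ∈ E \ S) ≤
      8 ^ n * (1 - p) ^ (n + 1) := by
  have hq : 0 ≤ 1 - p := by linarith
  refine (Pr_exists_le h0 h1 E (walks n e) _).trans ?_
  calc ∑ l ∈ walks n e, Pr p E (fun S => l.Nodup ∧ ∀ x ∈ l, x ∈ E \ S)
      ≤ ∑ l ∈ walks n e, (1 - p) ^ (n + 1) := by
        refine Finset.sum_le_sum fun l hl => ?_
        by_cases hnd : l.Nodup
        · have hc : #l.toFinset = n + 1 := by
            rw [List.toFinset_card_of_nodup hnd, walks_length hl]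
          rw [← hc]
          refine le_trans (Pr_mono h0 h1 fun S _ h => ?_) (Pr_closed_le h0 h1 l.toFinset E)
          intro x hx
          exact h.2 x (List.mem_toFinset.1 hx)
        · refine le_trans ?_ (pow_nonneg hq _)
          rw [← Ex_const p E 0]
          exact Ex_mono h0 h1 fun S _ => by rw [ind_false (fun h => hnd h.1)]
    _ = #(walks n e) * (1 - p) ^ (n + 1) := by rw [Finset.sum_const, nsmul_eq_mul]
    _ ≤ 8 ^ n * (1 - p) ^ (n + 1) := by
        refine mul_le_mul_of_nonneg_right ?_ (pow_nonneg hq _)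
        exact_mod_cast walks_card n e

theorem arm_prob {p : ℝ} (h0 : 0 ≤ p) (h1 : p ≤ 1) {a b j₀ : ℤ} (ha : 0 < a) (hj0 : 0 ≤ j₀)
    (hj1 : j₀ ≤ b) :
    Pr p (R a b) (fun O => ¬ ∃ y : ℤ × ℤ, y.1 = a ∧ Conn (O : Set GE) (0, j₀) y) ≤
      (∑ j ∈ Finset.Ico 0 b, 8 ^ (j - j₀).natAbs * (1 - p) ^ ((j - j₀).natAbs + 1)) +
        a * (8 ^ b.toNat * (1 - p) ^ (b.toNat + 1)) := by
  refine (Pr_mono h0 h1 fun O _ h => arm_fail ha hj0 hj1 h).trans ?_
  refine (Pr_or_le h0 h1 _ _ _).trans (add_le_add ?_ ?_)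
  · refine (Pr_exists_le h0 h1 _ _ _).trans (Finset.sum_le_sum fun j _ => ?_)
    exact walk_prob h0 h1 _ _ _
  · refine (Pr_exists_le h0 h1 _ _ _).trans ?_
    calc ∑ i ∈ Finset.Ico 0 a, Pr p (R a b) (fun S => ∃ l ∈ walks b.toNat ((i, 0), false),
          l.Nodup ∧ ∀ x ∈ l, x ∈ R a b \ S)
        ≤ ∑ i ∈ Finset.Ico 0 a, 8 ^ b.toNat * (1 - p) ^ (b.toNat + 1) :=
          Finset.sum_le_sum fun i _ => walk_prob h0 h1 _ _ _
      _ = a * (8 ^ b.toNat * (1 - p) ^ (b.toNat + 1)) := by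
          rw [Finset.sum_const, nsmul_eq_mul, Int.card_Ico, sub_zero]
          congr 1
          exact_mod_cast Int.toNat_of_nonneg ha.le

theorem sum_natAbs_le {r : ℝ} (hr0 : 0 ≤ r) (hr1 : r < 1) (s : Finset ℤ) (j₀ : ℤ) :
    ∑ j ∈ s, r ^ (j - j₀).natAbs ≤ 2 / (1 - r) := by
  have hsum : ∀ t : Finset ℕ, ∑ n ∈ t, r ^ n ≤ 1 / (1 - r) := by
    intro t
    rw [one_div, ← tsum_geometric_of_lt_one hr0 hr1]
    exact (summable_geometric_of_lt_one hr0 hr1).sum_le_tsum t (fun i _ => pow_nonneg hr0 i)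
  rw [← Finset.sum_filter_add_sum_filter_not s (fun j => j < j₀)]
  have e1 : ∑ j ∈ s.filter (fun j => j < j₀), r ^ (j - j₀).natAbs ≤ 1 / (1 - r) := by
    rw [← Finset.sum_image (g := fun j : ℤ => (j - j₀).natAbs) (f := fun n => r ^ n)]
    · exact hsum _
    · intro x hx y hy hxy
      simp only [Finset.coe_filter, Set.mem_ofPred_eq] at hx hy
      simp only at hxy
      omega
  have e2 : ∑ j ∈ s.filter (fun j => ¬ j < j₀), r ^ (j - j₀).natAbs ≤ 1 / (1 - r) := by
    rw [← Finset.sum_image (g := fun j : ℤ => (j - j₀).natAbs) (f := fun n => r ^ n)]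
    · exact hsum _
    · intro x hx y hy hxy
      simp only [Finset.coe_filter, Set.mem_ofPred_eq] at hx hy
      simp only at hxy
      omega
  calc _ ≤ 1 / (1 - r) + 1 / (1 - r) := add_le_add e1 e2
    _ = 2 / (1 - r) := by ring

/-- The one arm bound for `p = 99/100`. -/
theorem arm_prob' {a b j₀ : ℤ} (ha : 0 < a) (hj0 : 0 ≤ j₀) (hj1 : j₀ ≤ b) :
    Pr (99 / 100) (R a b) (fun O => ¬ ∃ y : ℤ × ℤ, y.1 = a ∧ Conn (O : Set GE) (0, j₀) y) ≤
      1 / 40 + a * (8 / 100) ^ b.toNat := by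
  refine (arm_prob (by norm_num) (by norm_num) ha hj0 hj1).trans (add_le_add ?_ ?_)
  · have : ∀ n : ℕ, (8 : ℝ) ^ n * (1 - 99 / 100) ^ (n + 1) = (1 / 100) * (8 / 100) ^ n := by
      intro n
      rw [pow_succ, show (8 / 100 : ℝ) = 8 * (1 - 99 / 100) by norm_num, mul_pow]
      ring
    simp_rw [this]
    rw [← Finset.mul_sum]
    have := sum_natAbs_le (r := 8 / 100) (by norm_num) (by norm_num) (Finset.Ico 0 b) j₀
    calc 1 / 100 * ∑ j ∈ Finset.Ico 0 b, (8 / 100 : ℝ) ^ (j - j₀).natAbs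
        ≤ 1 / 100 * (2 / (1 - 8 / 100)) := by linarith
      _ ≤ 1 / 40 := by norm_num
  · refine mul_le_mul_of_nonneg_left ?_ (by exact_mod_cast ha.le)
    rw [pow_succ, show (8 / 100 : ℝ) = 8 * (1 - 99 / 100) by norm_num, mul_pow, ← mul_assoc]
    have : (0 : ℝ) ≤ 8 ^ b.toNat * (1 - 99 / 100) ^ b.toNat := by positivity
    nlinarith

end Q79.Perc
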