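import Pool.Agent.Q79.PercC

/-!
# Percolation on the cylinder `[0, L] × C_k`
-/

namespace Q79.Perc

open Finset Relation
open scoped Classical

variable {k : ℕ} [NeZero k]

/-- Edges of the cylinder `ℤ × C_k`. -/
abbrev SE (k : ℕ) := (ℤ × ZMod k) × Bool

/-- The edges of `[0, L] × C_k`. -/
noncomputable def Es (k : ℕ) [NeZero k] (L : ℕ) : Finset (SE k) :=
  ((Finset.Ico 0 (L : ℤ) ×ˢ Finset.univ) ×ˢ {false}) ∪
    ((Finset.Icc 0 (L : ℤ) ×ˢ Finset.univ) ×ˢ {true})

theorem mem_Es_false {L : ℕ} {i : ℤ} {j : ZMod k} :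
    ((i, j), false) ∈ Es k L ↔ 0 ≤ i ∧ i < L := by
  simp [Es]

theorem mem_Es_true {L : ℕ} {i : ℤ} {j : ZMod k} :
    ((i, j), true) ∈ Es k L ↔ 0 ≤ i ∧ i ≤ L := by
  simp [Es]

theorem Es_mono {L L' : ℕ} (h : L ≤ L') : Es k L ⊆ Es k L' := by
  rintro ⟨⟨i, j⟩, d⟩ he
  cases d
  · rw [mem_Es_false] at *; omega
  · rw [mem_Es_true] at *; omega

/-- There is an open crossing of `[0, L] × C_k`. -/
def Cross (L : ℕ) (S : Finset (SE k)) : Prop :=
  ∃ x y : ℤ × ZMod k, x.1 = 0 ∧ y.1 = L ∧ Conn (S : Set (SE k)) x y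

/-- `(0, j)` is connected to the slice `L`. -/
def Arm (L : ℕ) (j : ZMod k) (S : Finset (SE k)) : Prop :=
  ∃ y : ℤ × ZMod k, y.1 = L ∧ Conn (S : Set (SE k)) (0, j) y

/-- The crossing probability. -/
noncomputable def X (k : ℕ) [NeZero k] (L : ℕ) : ℝ := Pr (99 / 100) (Es k L) (Cross L)

theorem p0 : (0 : ℝ) ≤ 99 / 100 := by norm_num
theorem p1 : (99 / 100 : ℝ) ≤ 1 := by norm_num

theorem strip_arm {L : ℕ} (hL : 0 < L) (j : ZMod k) :
    Pr (99 / 100) (Es k L) (fun S => ¬ Arm L j S) ≤ 1 / 40 + L * (8 / 100) ^ (k - 1) := by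
  have hk : 0 < k := Nat.pos_of_ne_zero (NeZero.ne k)
  set φ : GE → SE k := emap (id : ℤ → ℤ) (fun i : ℤ => (i : ZMod k)) with hφ
  have hinj : Set.InjOn φ (R (L : ℤ) ((k : ℤ) - 1)) := by
    rintro ⟨⟨i, j⟩, d⟩ h ⟨⟨i', j'⟩, d'⟩ h' heq
    simp only [hφ, emap, id, Prod.mk.injEq] at heq
    obtain ⟨⟨h1, h2⟩, h3⟩ := heq
    subst h1 h3
    have hj : 0 ≤ j ∧ j ≤ (k : ℤ) - 1 := by
      cases d
      · rw [Finset.mem_coe, mem_R_false] at h; omega
      · rw [Finset.mem_coe, mem_R_true] at h; omega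
    have hj' : 0 ≤ j' ∧ j' ≤ (k : ℤ) - 1 := by
      cases d
      · rw [Finset.mem_coe, mem_R_false] at h'; omega
      · rw [Finset.mem_coe, mem_R_true] at h'; omega
    rw [ZMod.intCast_eq_intCast_iff] at h2
    have := Int.ModEq.eq h2
    rw [Int.emod_eq_of_lt hj.1 (by omega), Int.emod_eq_of_lt hj'.1 (by omega)] at this
    rw [this]
  have hsub : (R (L : ℤ) ((k : ℤ) - 1)).image φ ⊆ Es k L := by
    intro e he
    obtain ⟨⟨⟨i, j⟩, d⟩, h, rfl⟩ := Finset.mem_image.1 he
    cases d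
    · rw [mem_R_false] at h
      simp only [hφ, emap, id]; rw [mem_Es_false]; omega
    · rw [mem_R_true] at h
      simp only [hφ, emap, id]; rw [mem_Es_true]; omega
  have hj0 : (0 : ℤ) ≤ (j.val : ℤ) := by positivity
  have hj1 : (j.val : ℤ) ≤ (k : ℤ) - 1 := by
    have := ZMod.val_lt j
    omega
  have hmain := arm_prob' (a := (L : ℤ)) (b := (k : ℤ) - 1) (j₀ := (j.val : ℤ))
    (by exact_mod_cast hL) hj0 hj1
  have e1 : ((k : ℤ) - 1).toNat = k - 1 := by omega
  rw [e1, Int.cast_natCast] at hmain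
  refine le_trans ?_ hmain
  rw [← Pr_pull (99 / 100) hinj hsub]
  refine Pr_mono p0 p1 fun S _ h hy => h ?_
  obtain ⟨y, hy1, hy2⟩ := hy
  have := Conn.map (f := (id : ℤ → ℤ)) (g := fun i : ℤ => (i : ZMod k)) (S' := (S : Set (SE k)))
    (fun _ => rfl) (fun b => by push_cast; rfl) (fun e he => by
      rw [Finset.mem_coe, Finset.mem_filter] at he
      exact he.2) hy2
  refine ⟨(y.1, (y.2 : ZMod k)), hy1, ?_⟩
  simpa using this

theorem X_nonneg (L : ℕ) : 0 ≤ X k L := Pr_nonneg p0 p1 _ _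
theorem X_le_one (L : ℕ) : X k L ≤ 1 := Pr_le_one p0 p1 _ _

theorem X_ge {L : ℕ} (hL : 0 < L) : 1 - (1 / 40 + L * (8 / 100) ^ (k - 1)) ≤ X k L := by
  have h1 := strip_arm (k := k) hL 0
  rw [Pr_compl] at h1
  have h2 : Pr (99 / 100) (Es k L) (Arm L 0) ≤ X k L := by
    refine Pr_mono p0 p1 fun S _ h => ?_
    obtain ⟨y, hy1, hy2⟩ := h
    exact ⟨(0, 0), y, rfl, hy1, hy2⟩
  linarith

/-- Restriction of a connection to `[0, L]`. -/
theorem conn_restrict {L L' : ℕ} {S : Finset (SE k)} (hS : S ⊆ Es k L') {x y : ℤ × ZMod k}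
    (hx : x.1 ≤ L) (h : Conn (S : Set (SE k)) x y) (hy : (L : ℤ) ≤ y.1) :
    ∃ z : ℤ × ZMod k, z.1 = L ∧ Conn ((S ∩ Es k L : Finset (SE k)) : Set (SE k)) x z := by
  have key : (Conn ((S ∩ Es k L : Finset (SE k)) : Set (SE k)) x y ∧ y.1 ≤ L) ∨
      ∃ z : ℤ × ZMod k, z.1 = L ∧ Conn ((S ∩ Es k L : Finset (SE k)) : Set (SE k)) x z := by
    clear hy
    induction h with
    | refl => left; exact ⟨Conn.refl x, hx⟩
    | @tail b c _ hbc ih =>
      rcases ih with ⟨h1, h2⟩ | h1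
      · by_cases hc : c.1 ≤ L
        · left
          refine ⟨ReflTransGen.tail h1 ?_, hc⟩
          obtain ⟨e, he, hh⟩ := hbc
          refine ⟨e, ?_, hh⟩
          rw [Finset.mem_coe, Finset.mem_inter]
          refine ⟨he, ?_⟩
          have he' := hS he
          obtain ⟨⟨i, j⟩, d⟩ := e
          cases d
          · rw [mem_Es_false] at *
            rw [tgt_false] at hh
            simp only at hh
            rcases hh with ⟨h3, h4⟩ | ⟨h3, h4⟩
            · rw [← h4] at hc; simp only at hc; omega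
            · rw [← h4] at h2; simp only at h2; omega
          · rw [mem_Es_true] at *
            rcases hh with ⟨h3, h4⟩ | ⟨h3, h4⟩
            · rw [← h3] at h2; simp only at h2; omega
            · rw [← h3] at hc; simp only at hc; omega
        · right
          have := Ad.abs_sub_le hbc
          exact ⟨b, by omega, h1⟩
      · right; exact h1
  rcases key with ⟨h1, h2⟩ | h1
  · exact ⟨y, le_antisymm h2 hy, h1⟩
  · exact h1

theorem X_anti {L L' : ℕ} (h : L ≤ L') : X k L' ≤ X k L := by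
  unfold X
  have : Pr (99 / 100) (Es k L) (Cross L) =
      Pr (99 / 100) (Es k L') (fun S => Cross L (S ∩ Es k L)) :=
    (Ex_marginal _ (Es_mono h) (fun T => ind (Cross L T))).symm
  rw [this]
  refine Pr_mono p0 p1 fun S hS hc => ?_
  obtain ⟨x, y, hx, hy, hxy⟩ := hc
  obtain ⟨z, hz, hxz⟩ := conn_restrict (L := L) hS (by rw [hx]; positivity) hxy
    (by rw [hy]; exact_mod_cast h)
  exact ⟨x, z, hx, hz, hxz⟩

/-- The vertical edges of a slice. -/
noncomputable def slice (k : ℕ) [NeZero k] (i : ℤ) : Finset (SE k) :=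
  Finset.univ.image fun j : ZMod k => ((i, j), true)

/-- The horizontal edges between two slices. -/
noncomputable def slab (k : ℕ) [NeZero k] (i : ℤ) : Finset (SE k) :=
  Finset.univ.image fun j : ZMod k => ((i, j), false)

theorem slice_card (i : ℤ) : #(slice k i) = k := by
  unfold slice
  rw [Finset.card_image_of_injective _ (fun a b h => by simpa using h), Finset.card_univ,
    ZMod.card]

theorem slab_card (i : ℤ) : #(slab k i) = k := by
  unfold slab
  rw [Finset.card_image_of_injective _ (fun a b h => by simpa using h), Finset.card_univ,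
    ZMod.card]

theorem mem_slice {i : ℤ} {e : SE k} : e ∈ slice k i ↔ e.1.1 = i ∧ e.2 = true := by
  obtain ⟨⟨a, b⟩, d⟩ := e
  unfold slice
  simp only [Finset.mem_image, Finset.mem_univ, true_and, Prod.mk.injEq]
  constructor
  · rintro ⟨j, ⟨h1, h2⟩, h3⟩; exact ⟨h1.symm, h3.symm⟩
  · rintro ⟨h1, h2⟩; exact ⟨b, ⟨h1.symm, rfl⟩, h2.symm⟩

theorem mem_slab {i : ℤ} {e : SE k} : e ∈ slab k i ↔ e.1.1 = i ∧ e.2 = false := by
  obtain ⟨⟨a, b⟩, d⟩ := e
  unfold slab
  simp only [Finset.mem_image, Finset.mem_univ, true_and, Prod.mk.injEq]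
  constructor
  · rintro ⟨j, ⟨h1, h2⟩, h3⟩; exact ⟨h1.symm, h3.symm⟩
  · rintro ⟨h1, h2⟩; exact ⟨b, ⟨h1.symm, rfl⟩, h2.symm⟩

/-- A fully open slice connects its vertices. -/
theorem conn_slice {S : Finset (SE k)} {i : ℤ} (h : slice k i ⊆ S) {x y : ℤ × ZMod k}
    (hx : x.1 = i) (hy : y.1 = i) : Conn (S : Set (SE k)) x y := by
  have key : ∀ n : ℕ, Conn (S : Set (SE k)) (i, 0) (i, (n : ZMod k)) := by
    intro n
    induction n with
    | zero => simp only [Nat.cast_zero]; exact Conn.refl _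
    | succ n ih =>
      refine ih.trans ?_
      have hm : ((i, (n : ZMod k)), true) ∈ S := h (mem_slice.2 ⟨rfl, rfl⟩)
      have := Conn.edge (S := (S : Set (SE k))) hm
      rw [tgt_true] at this
      simpa using this
  have h2 : ∀ z : ℤ × ZMod k, z.1 = i → Conn (S : Set (SE k)) (i, 0) z := by
    intro z hz
    have := key z.2.val
    rw [ZMod.natCast_zmod_val] at this
    rw [← hz] at this ⊢
    exact this
  exact (h2 x hx).symm.trans (h2 y hy)

/-- No fully open slice among `[c, c + D)`. -/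
theorem no_full {L c D : ℕ} (h : c + D ≤ L + 1) :
    Pr (99 / 100) (Es k L) (fun S => ¬ ∃ i ∈ Finset.Ico (c : ℤ) (c + D), slice k i ⊆ S) =
      (1 - (99 / 100) ^ k) ^ D := by
  have h1 := Pr_indep_family (99 / 100) (Finset.Ico (c : ℤ) (c + D)) (fun i => slice k i)
    (E := Es k L) (fun i hi e he => ?_) (fun i _ j _ hij => ?_)
    (fun i T => ¬ slice k i ⊆ T)
  · have h2 : ∀ i ∈ Finset.Ico (c : ℤ) (c + D),
        Pr (99 / 100) (slice k i) (fun T => ¬ slice k i ⊆ T) = 1 - (99 / 100) ^ k := by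
      intro i _
      rw [Pr_compl, Pr_open _ (Finset.Subset.refl _), slice_card]
    rw [Finset.prod_congr rfl h2, Finset.prod_const] at h1
    have h3 : #(Finset.Ico (c : ℤ) (c + D)) = D := by simp
    rw [h3] at h1
    rw [← h1]
    refine Pr_congr _ fun S _ => ?_
    constructor
    · intro h i hi hs
      exact h ⟨i, hi, hs.trans Finset.inter_subset_left⟩
    · rintro h ⟨i, hi, hs⟩
      exact h i hi (Finset.subset_inter hs (Finset.Subset.refl _))
  · rw [mem_slice] at he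
    obtain ⟨⟨a, b⟩, d⟩ := e
    simp only at he
    obtain ⟨rfl, rfl⟩ := he
    rw [mem_Es_true]
    rw [Finset.mem_Ico] at hi
    omega
  · rw [Finset.disjoint_left]
    intro e he he'
    rw [mem_slice] at he he'
    exact hij (he.1.symm.trans he'.1)

/-- The crossing probability tends to zero. -/
theorem X_le_pow (L : ℕ) : X k L ≤ (1 - (1 / 100) ^ k) ^ L := by
  have h1 := Pr_indep_family (99 / 100) (Finset.Ico (0 : ℤ) L) (fun i => slab k i)
    (E := Es k L) (fun i hi e he => ?_) (fun i _ j _ hij => ?_)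
    (fun i T => ¬ Disjoint (slab k i) T)
  · have h2 : ∀ i ∈ Finset.Ico (0 : ℤ) L,
        Pr (99 / 100) (slab k i) (fun T => ¬ Disjoint (slab k i) T) = 1 - (1 / 100) ^ k := by
      intro i _
      rw [Pr_compl, Pr_closed _ (Finset.Subset.refl _), slab_card]
      norm_num
    rw [Finset.prod_congr rfl h2, Finset.prod_const] at h1
    have h3 : #(Finset.Ico (0 : ℤ) L) = L := by simp
    rw [h3] at h1
    rw [← h1]
    refine Pr_mono p0 p1 fun S _ hc i hi hd => ?_
    obtain ⟨x, y, hx, hy, hxy⟩ := hc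
    rw [Finset.mem_Ico] at hi
    -- the crossing must use an edge of the slab
    have key : ∀ z, Conn (S : Set (SE k)) x z → z.1 ≤ i := by
      intro z hz
      induction hz with
      | refl => omega
      | @tail b c _ hbc ih =>
        obtain ⟨e, he, hh⟩ := hbc
        obtain ⟨⟨a, b'⟩, d⟩ := e
        cases d
        · rw [tgt_false] at hh
          have hne : a ≠ i := by
            intro ha
            have hm : ((a, b'), false) ∈ slab k i := mem_slab.2 ⟨ha, rfl⟩
            exact Finset.disjoint_left.1 hd hm (Finset.mem_inter.2 ⟨he, hm⟩)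
          rcases hh with ⟨h3, h4⟩ | ⟨h3, h4⟩
          · rw [← h4]; rw [← h3] at ih; simp only at ih ⊢; omega
          · rw [← h3]; rw [← h4] at ih; simp only at ih ⊢; omega
        · rw [tgt_true] at hh
          rcases hh with ⟨h3, h4⟩ | ⟨h3, h4⟩
          · rw [← h4]; rw [← h3] at ih; exact ih
          · rw [← h3]; rw [← h4] at ih; exact ih
    have := key y hxy
    omega
  · rw [mem_slab] at he
    obtain ⟨⟨a, b⟩, d⟩ := e
    simp only at he
    obtain ⟨rfl, rfl⟩ := he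
    rw [mem_Es_false]
    rw [Finset.mem_Ico] at hi
    omega
  · rw [Finset.disjoint_left]
    intro e he he'
    rw [mem_slab] at he he'
    exact hij (he.1.symm.trans he'.1)

theorem exists_X_lt (k : ℕ) [NeZero k] : ∃ L, X k L < 1 / 2 := by
  have h1 : (0 : ℝ) ≤ 1 - (1 / 100) ^ k := by
    have : ((1 : ℝ) / 100) ^ k ≤ 1 := pow_le_one₀ (by norm_num) (by norm_num)
    linarith
  have h2 : 1 - ((1 : ℝ) / 100) ^ k < 1 := by
    have : (0 : ℝ) < (1 / 100) ^ k := by positivity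
    linarith
  obtain ⟨n, hn⟩ := exists_pow_lt_of_lt_one (show (0 : ℝ) < 1 / 2 by norm_num) h2
  exact ⟨n, (X_le_pow n).trans_lt hn⟩

/-- Gluing of crossings by fully open slices. -/
theorem X_merge {a b D : ℕ} (hDa : D ≤ a) (hDb : D ≤ b) :
    1 - X k (a - D + b) ≤ (1 - X k a) + (1 - X k b) + (1 - (99 / 100) ^ k) ^ D := by
  set c := a - D with hc
  set N := c + b with hN
  set ψ : SE k → SE k := emap (fun i : ℤ => i + c) (id : ZMod k → ZMod k) with hψ
  have hinj : Set.InjOn ψ (Es k b) := by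
    rintro ⟨⟨i, j⟩, d⟩ _ ⟨⟨i', j'⟩, d'⟩ _ heq
    simp only [hψ, emap, id, Prod.mk.injEq] at heq
    obtain ⟨⟨h1, h2⟩, h3⟩ := heq
    subst h2 h3
    have : i = i' := by omega
    rw [this]
  have hsub : (Es k b).image ψ ⊆ Es k N := by
    intro e he
    obtain ⟨⟨⟨i, j⟩, d⟩, h, rfl⟩ := Finset.mem_image.1 he
    cases d
    · rw [mem_Es_false] at h
      simp only [hψ, emap, id]; rw [mem_Es_false]; omega
    · rw [mem_Es_true] at h
      simp only [hψ, emap, id]; rw [mem_Es_true]; omega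
  have hNa : a ≤ N := by omega
  have e1 : Pr (99 / 100) (Es k N) (fun S => ¬ Cross a (S ∩ Es k a)) = 1 - X k a := by
    rw [Pr_compl]
    congr 1
    exact Ex_marginal _ (Es_mono hNa) (fun T => ind (Cross a T))
  have e2 : Pr (99 / 100) (Es k N)
      (fun S => ¬ Cross b ((Es k b).filter fun e => ψ e ∈ S)) = 1 - X k b := by
    rw [Pr_compl]
    congr 1
    exact Pr_pull _ hinj hsub (Cross b)
  have e3 := no_full (k := k) (L := N) (c := c) (D := D) (by omega)
  have e4 : 1 - X k N = Pr (99 / 100) (Es k N) (fun S => ¬ Cross N S) := by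
    rw [Pr_compl]; rfl
  rw [e4, ← e1, ← e2, ← e3]
  refine le_trans (Pr_mono p0 p1 (B := fun S => (¬ Cross a (S ∩ Es k a) ∨
    ¬ Cross b ((Es k b).filter fun e => ψ e ∈ S)) ∨
      ¬ ∃ i ∈ Finset.Ico (c : ℤ) (c + D), slice k i ⊆ S) fun S _ h => ?_)
    ((Pr_or_le p0 p1 _ _ _).trans (add_le_add (Pr_or_le p0 p1 _ _ _) le_rfl))
  by_contra hcon
  push Not at hcon
  obtain ⟨⟨h1, h2⟩, i, hi, h3⟩ := hcon
  apply h
  obtain ⟨x1, y1, hx1, hy1, hc1⟩ := h1
  obtain ⟨x2, y2, hx2, hy2, hc2⟩ := h2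
  have hc1' : Conn (S : Set (SE k)) x1 y1 :=
    Conn.mono (fun e he => (Finset.mem_inter.1 he).1) hc1
  have hc2' := Conn.map (f := fun i : ℤ => i + c) (g := (id : ZMod k → ZMod k))
    (S' := (S : Set (SE k))) (fun a => by ring) (fun b => rfl) (fun e he => by
      rw [Finset.mem_coe, Finset.mem_filter] at he
      exact he.2) hc2
  rw [Finset.mem_Ico] at hi
  obtain ⟨z1, hz1, hz1', -⟩ := hc1'.level (i := i) (by omega) (by rw [hy1]; omega)
  obtain ⟨z2, hz2, -, hz2'⟩ := hc2'.level (i := i) (by simp only; omega) (by simp only; omega)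
  refine ⟨x1, _, hx1, ?_, hz1'.trans ((conn_slice h3 hz1 hz2).trans hz2')⟩
  simp only [hy2]
  omega

theorem X_iter {a D : ℕ} (hDa : D ≤ a) (j : ℕ) :
    1 - X k (a + j * (a - D)) ≤ (j + 1) * (1 - X k a) + j * (1 - (99 / 100) ^ k) ^ D := by
  induction j with
  | zero => simp
  | succ j ih =>
    have h := X_merge (k := k) (a := a + j * (a - D)) (b := a) (D := D) (by omega) hDa
    have e : a + j * (a - D) - D + a = a + (j + 1) * (a - D) := by
      have : (j + 1) * (a - D) = j * (a - D) + (a - D) := by ring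
      rw [this]; omega
    rw [e] at h
    push_cast
    linarith

/-- The arm probability. -/
theorem arm_long {D L : ℕ} (hD : 0 < D) (hDL : D ≤ L) (j : ZMod k) :
    Pr (99 / 100) (Es k L) (fun S => ¬ Arm L j S) ≤
      (1 / 40 + D * (8 / 100) ^ (k - 1)) + (1 - (99 / 100) ^ k) ^ D + (1 - X k L) := by
  have e1 : Pr (99 / 100) (Es k L) (fun S => ¬ Arm D j (S ∩ Es k D)) ≤
      1 / 40 + D * (8 / 100) ^ (k - 1) := by
    refine le_trans (le_of_eq ?_) (strip_arm (k := k) hD j)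
    exact Ex_marginal _ (Es_mono hDL) (fun T => ind (¬ Arm D j T))
  have e2 : Pr (99 / 100) (Es k L) (fun S => ¬ Cross L S) = 1 - X k L := by
    rw [Pr_compl]; rfl
  have e3 := no_full (k := k) (L := L) (c := 0) (D := D) (by omega)
  rw [← e2, ← e3]
  refine le_trans (Pr_mono p0 p1 (B := fun S => ((¬ Arm D j (S ∩ Es k D)) ∨
    ¬ ∃ i ∈ Finset.Ico ((0 : ℕ) : ℤ) ((0 : ℕ) + D), slice k i ⊆ S) ∨ ¬ Cross L S)
      fun S _ h => ?_)
    ((Pr_or_le p0 p1 _ _ _).trans
      (add_le_add ((Pr_or_le p0 p1 _ _ _).trans (add_le_add e1 le_rfl)) le_rfl))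
  by_contra hcon
  push Not at hcon
  obtain ⟨⟨h1, i, hi, h3⟩, h2⟩ := hcon
  apply h
  obtain ⟨y1, hy1, hc1⟩ := h1
  obtain ⟨x2, y2, hx2, hy2, hc2⟩ := h2
  have hc1' : Conn (S : Set (SE k)) (0, j) y1 :=
    Conn.mono (fun e he => (Finset.mem_inter.1 he).1) hc1
  rw [Finset.mem_Ico] at hi
  obtain ⟨z1, hz1, hz1', -⟩ := hc1'.level (i := i) (by simp only; omega) (by rw [hy1]; omega)
  obtain ⟨z2, hz2, -, hz2'⟩ := hc2.level (i := i) (by omega) (by rw [hy2]; omega)
  exact ⟨y2, hy2, hz1'.trans ((conn_slice h3 hz1 hz2).trans hz2')⟩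

end Q79.Perc
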