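import Mathlib

/-!
# Bond percolation on a finite graph
-/

namespace Q79.PercDef

open Finset

/-- The probability `ℙ_p(A)` that the random subgraph of kept edges of the finite graph `G`
has the property `A`, when every edge of `G` is kept independently with probability `p`: the sum
over all sets `S` of edges of `G` (the kept edges) such that the graph on `V` with edge set `S`
has the property `A`, of `p ^ |S| (1 - p) ^ (|E(G)| - |S|)`. -/
noncomputable def percProb {V : Type} [Fintype V] (G : SimpleGraph V) (p : ℝ)
    (A : SimpleGraph V → Prop) : ℝ := by
  classical
  exact ∑ S ∈ G.edgeFinset.powerset.filter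
      (fun S : Finset (Sym2 V) => A (SimpleGraph.fromEdgeSet (↑S : Set (Sym2 V)))),
    p ^ (#S) * (1 - p) ^ (#G.edgeFinset - #S)

end Q79.PercDef
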