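import Pool.Agent.Q79.PercD

/-!
# Percolation on the torus `C_m × C_k`
-/

namespace Q79.Perc

open Finset Relation
open scoped Classical

variable {m k : ℕ} [NeZero m] [NeZero k]

/-- Edges of the torus. -/
abbrev TE (m k : ℕ) := (ZMod m × ZMod k) × Bool

/-- The embedding of a piece of the cylinder, starting at `a`. -/
def psi (m k : ℕ) (a : ℤ) : SE k → TE m k :=
  emap (fun i : ℤ => ((a + i : ℤ) : ZMod m)) (id : ZMod k → ZMod k)

theorem cast_inj {x y : ℤ} (h : (x : ZMod m) = (y : ZMod m)) (h1 : |x - y| < m) : x = y := by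
  rw [ZMod.intCast_eq_intCast_iff_dvd_sub] at h
  have := Int.eq_zero_of_abs_lt_dvd h (by rwa [abs_sub_comm] at h1)
  omega

theorem psi_inj (a : ℤ) {L : ℕ} (hL : L < m) : Set.InjOn (psi m k a) (Es k L) := by
  rintro ⟨⟨i, j⟩, d⟩ h ⟨⟨i', j'⟩, d'⟩ h' heq
  simp only [psi, emap, id, Prod.mk.injEq] at heq
  obtain ⟨⟨h1, h2⟩, h3⟩ := heq
  subst h2 h3
  have hi : 0 ≤ i ∧ i ≤ L := by
    cases d
    · rw [Finset.mem_coe, mem_Es_false] at h; omega
    · rw [Finset.mem_coe, mem_Es_true] at h; omega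
  have hi' : 0 ≤ i' ∧ i' ≤ L := by
    cases d
    · rw [Finset.mem_coe, mem_Es_false] at h'; omega
    · rw [Finset.mem_coe, mem_Es_true] at h'; omega
  have := cast_inj h1 (by rw [abs_lt]; omega)
  have : i = i' := by omega
  rw [this]

/-- The configuration seen from a piece of the torus. -/
noncomputable def pull (a : ℤ) (L : ℕ) (S : Finset (TE m k)) : Finset (SE k) :=
  (Es k L).filter fun e => psi m k a e ∈ S

theorem conn_pull {a : ℤ} {L : ℕ} {S : Finset (TE m k)} {x y : ℤ × ZMod k}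
    (h : Conn (pull a L S : Set (SE k)) x y) :
    Conn (S : Set (TE m k)) (((a + x.1 : ℤ) : ZMod m), x.2) (((a + y.1 : ℤ) : ZMod m), y.2) := by
  have := Conn.map (f := fun i : ℤ => ((a + i : ℤ) : ZMod m)) (g := (id : ZMod k → ZMod k))
    (S' := (S : Set (TE m k))) (fun b => by push_cast; ring) (fun b => rfl) (fun e he => by
      rw [Finset.mem_coe, pull, Finset.mem_filter] at he
      exact he.2) h
  exact this

theorem torus_arm (v : ZMod m × ZMod k) {L : ℕ} (hL : L < m) :
    Pr (99 / 100) (Finset.univ : Finset (TE m k))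
      (fun S => ¬ ∃ y : ZMod m × ZMod k, y.1 = v.1 + L ∧ Conn (S : Set (TE m k)) v y) ≤
    Pr (99 / 100) (Es k L) (fun S => ¬ Arm L v.2 S) := by
  rw [← Pr_pull (99 / 100) (psi_inj (m := m) (k := k) (v.1.val : ℤ) hL) (Finset.subset_univ _)]
  refine Pr_mono p0 p1 fun S _ h hy => h ?_
  obtain ⟨y, hy1, hy2⟩ := hy
  have := conn_pull (a := (v.1.val : ℤ)) (L := L) (S := S) hy2
  refine ⟨_, ?_, by simpa using this⟩
  simp [hy1]

/-- The probability that none of `K` disjoint pieces is crossed. -/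
theorem blocks_prob {K l : ℕ} (hl : 0 < l) (hK : K * l ≤ m) :
    Pr (99 / 100) (Finset.univ : Finset (TE m k))
      (fun S => ∀ i ∈ Finset.range K, ¬ Cross (l - 1) (pull ((i * l : ℕ) : ℤ) (l - 1) S)) =
      (1 - X k (l - 1)) ^ K := by
  by_cases hK0 : K = 0
  · subst hK0
    simp only [Finset.range_zero, Finset.notMem_empty, false_imp_iff, implies_true, pow_zero]
    have : Pr (99 / 100) (Finset.univ : Finset (TE m k)) (fun _ => True) = 1 := by
      have := Ex_const (99 / 100) (Finset.univ : Finset (TE m k)) 1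
      rw [← this]
      exact Ex_congr _ fun S _ => ind_true trivial
    exact this
  have hlm : l - 1 < m := by
    have : l ≤ K * l := Nat.le_mul_of_pos_left l (Nat.pos_of_ne_zero hK0)
    omega
  have h1 := Pr_indep_family (99 / 100) (Finset.range K)
    (fun i => (Es k (l - 1)).image (psi m k ((i * l : ℕ) : ℤ)))
    (E := (Finset.univ : Finset (TE m k))) (fun i _ => Finset.subset_univ _)
    (fun i hi j hj hij => ?_)
    (fun i T => ¬ Cross (l - 1) (pull ((i * l : ℕ) : ℤ) (l - 1) T))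
  · have h2 : ∀ i ∈ Finset.range K,
        Pr (99 / 100) ((Es k (l - 1)).image (psi m k ((i * l : ℕ) : ℤ)))
          (fun T => ¬ Cross (l - 1) (pull ((i * l : ℕ) : ℤ) (l - 1) T)) = 1 - X k (l - 1) := by
      intro i _
      rw [Pr_compl]
      congr 1
      exact Pr_pull _ (psi_inj _ hlm) (Finset.Subset.refl _) (Cross (l - 1))
    rw [Finset.prod_congr rfl h2, Finset.prod_const, Finset.card_range] at h1
    rw [← h1]
    refine Pr_congr _ fun S _ => ?_
    refine forall₂_congr fun i _ => ?_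
    have : pull ((i * l : ℕ) : ℤ) (l - 1) (S ∩ (Es k (l - 1)).image (psi m k ((i * l : ℕ) : ℤ))) =
        pull ((i * l : ℕ) : ℤ) (l - 1) S := by
      unfold pull
      refine Finset.filter_congr fun e he => ?_
      rw [Finset.mem_inter]
      exact ⟨fun h => h.1, fun h => ⟨h, Finset.mem_image_of_mem _ he⟩⟩
    rw [this]
  · -- disjointness
    rw [Finset.disjoint_left]
    intro e he he'
    obtain ⟨⟨⟨a, b⟩, d⟩, h, rfl⟩ := Finset.mem_image.1 he
    obtain ⟨⟨⟨a', b'⟩, d'⟩, h', heq⟩ := Finset.mem_image.1 he'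
    simp only [psi, emap, id, Prod.mk.injEq] at heq
    obtain ⟨⟨e1, e2⟩, e3⟩ := heq
    subst e2 e3
    have ha : 0 ≤ a ∧ a ≤ (l - 1 : ℕ) := by
      cases d'
      · rw [mem_Es_false] at h; omega
      · rw [mem_Es_true] at h; omega
    have ha' : 0 ≤ a' ∧ a' ≤ (l - 1 : ℕ) := by
      cases d'
      · rw [mem_Es_false] at h'; omega
      · rw [mem_Es_true] at h'; omega
    rw [Finset.mem_range] at hi hj
    have b1 : (i + 1) * l ≤ K * l := Nat.mul_le_mul_right l hi
    have b2 : (j + 1) * l ≤ K * l := Nat.mul_le_mul_right l hj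
    have c1 : (i + 1) * l = i * l + l := by ring
    have c2 : (j + 1) * l = j * l + l := by ring
    have hx1 : (0 : ℤ) ≤ (i * l : ℕ) + a := by omega
    have heq2 := cast_inj (m := m) e1 (by rw [abs_lt]; omega)
    rcases lt_or_gt_of_ne hij with hlt | hlt
    · have : (i + 1) * l ≤ j * l := Nat.mul_le_mul_right l hlt
      omega
    · have : (j + 1) * l ≤ i * l := Nat.mul_le_mul_right l hlt
      omega

end Q79.Perc
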