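import Pool.Agent.Q79.PercE

/-!
# If `K` disjoint pieces of the torus are not crossed then all clusters are small
-/

namespace Q79.Perc

open Finset Relation
open scoped Classical

variable {m k : ℕ} [NeZero m] [NeZero k]

/-- Connected to the left side of the `i`-th piece, inside this piece. -/
def WW (l : ℕ) (S : Finset (TE m k)) (i : ℕ) (z : ℤ × ZMod k) : Prop :=
  ∃ x : ℤ × ZMod k, x.1 = 0 ∧ Conn (pull ((i * l : ℕ) : ℤ) (l - 1) S : Set (SE k)) x z

/-- The cell of a vertex. -/
noncomputable def cell (K l : ℕ) (S : Finset (TE m k)) (v : ZMod m × ZMod k) : ℕ :=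
  if v.1.val < K * l then
    (if WW l S (v.1.val / l) (((v.1.val % l : ℕ) : ℤ), v.2) then (v.1.val / l + K - 1) % K
      else v.1.val / l)
  else K - 1

theorem WW_edge {l : ℕ} {S : Finset (TE m k)} {i : ℕ} {e : SE k} (he : e ∈ Es k (l - 1))
    (h : psi m k ((i * l : ℕ) : ℤ) e ∈ S) : WW l S i e.1 ↔ WW l S i (tgt e) := by
  have hc : Conn (pull ((i * l : ℕ) : ℤ) (l - 1) S : Set (SE k)) e.1 (tgt e) :=
    Conn.edge (S := (pull ((i * l : ℕ) : ℤ) (l - 1) S : Set (SE k)))
      (Finset.mem_filter.2 ⟨he, h⟩)
  constructor
  · rintro ⟨x, hx, hxz⟩; exact ⟨x, hx, hxz.trans hc⟩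
  · rintro ⟨x, hx, hxz⟩; exact ⟨x, hx, hxz.trans hc.symm⟩

theorem cell_edge {K l : ℕ} (hK : 0 < K) (hl : 0 < l) (hKl : K * l ≤ m) {S : Finset (TE m k)}
    (hno : ∀ i ∈ Finset.range K, ¬ Cross (l - 1) (pull ((i * l : ℕ) : ℤ) (l - 1) S))
    {e : TE m k} (he : e ∈ S) : cell K l S e.1 = cell K l S (tgt e) := by
  obtain ⟨⟨α, j⟩, d⟩ := e
  set r := α.val with hr
  have hrm : r < m := ZMod.val_lt α
  have hα : α = ((r : ℕ) : ZMod m) := (ZMod.natCast_zmod_val α).symm
  have hdiv : l * (r / l) + r % l = r := Nat.div_add_mod r l
  have hmod : r % l < l := Nat.mod_lt r hl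
  -- the preimage of the edge
  have hpre : ∀ d : Bool, psi m k ((r / l * l : ℕ) : ℤ) ((((r % l : ℕ) : ℤ), j), d) = ((α, j), d) := by
    intro d
    simp only [psi, emap, id, Prod.mk.injEq, and_true]
    rw [hα]
    have : (((r / l * l : ℕ) : ℤ) + ((r % l : ℕ) : ℤ)) = (r : ℤ) := by
      have : r / l * l = l * (r / l) := Nat.mul_comm _ _
      omega
    rw [this]; simp
  cases d
  · -- horizontal edge
    rw [tgt_false]
    by_cases hr1 : r + 1 < m
    · have hv : (α + 1).val = r + 1 := by
        have h1 : α + 1 = ((r + 1 : ℕ) : ZMod m) := by rw [hα]; push_cast; rfl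
        rw [h1, ZMod.val_natCast, Nat.mod_eq_of_lt hr1]
      by_cases hrK : r < K * l
      · have hiK : r / l < K := Nat.div_lt_of_lt_mul (by rwa [Nat.mul_comm])
        by_cases ht : r % l + 1 < l
        · -- same piece
          have hrK1 : r + 1 < K * l := by
            have h1 : (r / l + 1) * l ≤ K * l := Nat.mul_le_mul_right l hiK
            have h2 : (r / l + 1) * l = l * (r / l) + l := by ring
            omega
          have hq : (r + 1) / l = r / l := by
            rw [Nat.div_eq_of_lt_le]
            · have : r / l * l = l * (r / l) := Nat.mul_comm _ _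
              omega
            · have : (r / l + 1) * l = l * (r / l) + l := by ring
              omega
          have hm1 : (r + 1) % l = r % l + 1 := by
            have h1 := Nat.div_add_mod (r + 1) l
            rw [hq] at h1
            omega
          have hW := WW_edge (l := l) (S := S) (i := r / l)
            (e := ((((r % l : ℕ) : ℤ), j), false)) (by rw [mem_Es_false]; omega)
            (by rw [hpre]; exact he)
          rw [tgt_false] at hW
          unfold cell
          simp only [← hr, hv, hrK, hrK1, if_true, hq, hm1]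
          push_cast at hW ⊢
          simp only [hW]
        · -- passing to the next piece
          have ht' : r % l = l - 1 := by omega
          have hnW : ¬ WW l S (r / l) (((r % l : ℕ) : ℤ), j) := by
            rintro ⟨x, hx, hxz⟩
            exact hno (r / l) (Finset.mem_range.2 hiK) ⟨x, _, hx, by simp only [ht'], hxz⟩
          have hc1 : cell K l S (α, j) = r / l := by
            unfold cell
            simp only [← hr]
            rw [if_pos hrK, if_neg hnW]
          rw [hc1]
          by_cases hrK1 : r + 1 < K * l
          · have hr1' : r + 1 = (r / l + 1) * l := by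
              have : (r / l + 1) * l = l * (r / l) + l := by ring
              omega
            have hq : (r + 1) / l = r / l + 1 := by
              rw [hr1']; exact Nat.mul_div_cancel _ hl
            have hm1 : (r + 1) % l = 0 := by
              rw [hr1']; exact Nat.mul_mod_left _ _
            have hW : WW l S (r / l + 1) (((0 : ℕ) : ℤ), j) := ⟨_, by simp, Conn.refl _⟩
            unfold cell
            simp only [hv, hrK1, if_true, hq, hm1]
            rw [if_pos hW]
            have : r / l + 1 + K - 1 = r / l + K := by omega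
            rw [this, Nat.add_mod_right, Nat.mod_eq_of_lt hiK]
          · unfold cell
            simp only [hv]
            rw [if_neg hrK1]
            have : r + 1 = K * l := by omega
            have h3 : (r / l + 1) * l = l * (r / l) + l := by ring
            have h4 : (r / l + 1) * l = K * l := by omega
            have h5 : r / l + 1 = K := Nat.eq_of_mul_eq_mul_right hl h4
            omega
      · have hrK1 : ¬ (r + 1 < K * l) := by omega
        unfold cell
        simp only [← hr, hv]
        rw [if_neg hrK, if_neg hrK1]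
    · -- wrap around
      have hr2 : r + 1 = m := by omega
      have hv : α + 1 = 0 := by
        have h1 : α + 1 = ((r + 1 : ℕ) : ZMod m) := by rw [hα]; push_cast; rfl
        rw [h1, hr2]; simp
      have hc2 : cell K l S (α + 1, j) = K - 1 := by
        unfold cell
        simp only [hv, ZMod.val_zero, Nat.zero_div, Nat.zero_mod, Nat.zero_add]
        rw [if_pos (Nat.mul_pos hK hl)]
        have hW : WW l S 0 (((0 : ℕ) : ℤ), j) := ⟨_, by simp, Conn.refl _⟩
        rw [if_pos hW, Nat.mod_eq_of_lt (by omega)]
      rw [hc2]
      by_cases hrK : r < K * l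
      · have hKl' : K * l = m := by omega
        have hiK : r / l < K := Nat.div_lt_of_lt_mul (by rwa [Nat.mul_comm])
        have h2 : (r / l + 1) * l = l * (r / l) + l := by ring
        have h1 : (r / l + 1) * l ≤ K * l := Nat.mul_le_mul_right l hiK
        have h4 : (r / l + 1) * l = K * l := by omega
        have h5 : r / l + 1 = K := Nat.eq_of_mul_eq_mul_right hl h4
        have ht' : r % l = l - 1 := by omega
        have hnW : ¬ WW l S (r / l) (((r % l : ℕ) : ℤ), j) := by
          rintro ⟨x, hx, hxz⟩
          exact hno (r / l) (Finset.mem_range.2 hiK) ⟨x, _, hx, by simp only [ht'], hxz⟩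
        unfold cell
        simp only [← hr]
        rw [if_pos hrK, if_neg hnW]
        omega
      · unfold cell
        simp only [← hr]
        rw [if_neg hrK]
  · -- vertical edge
    rw [tgt_true]
    unfold cell
    simp only [← hr]
    by_cases hrK : r < K * l
    · rw [if_pos hrK, if_pos hrK]
      have hW := WW_edge (l := l) (S := S) (i := r / l)
        (e := ((((r % l : ℕ) : ℤ), j), true)) (by rw [mem_Es_true]; omega)
        (by rw [hpre]; exact he)
      rw [tgt_true] at hW
      simp only at hW
      simp only [hW]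
    · rw [if_neg hrK, if_neg hrK]

theorem cell_conn {K l : ℕ} (hK : 0 < K) (hl : 0 < l) (hKl : K * l ≤ m) {S : Finset (TE m k)}
    (hno : ∀ i ∈ Finset.range K, ¬ Cross (l - 1) (pull ((i * l : ℕ) : ℤ) (l - 1) S))
    {x y : ZMod m × ZMod k} (h : Conn (S : Set (TE m k)) x y) :
    cell K l S x = cell K l S y := by
  induction h with
  | refl => rfl
  | @tail b c _ hbc ih =>
    obtain ⟨e, he, ⟨h1, h2⟩ | ⟨h1, h2⟩⟩ := hbc
    · rw [ih, ← h1, ← h2]; exact cell_edge hK hl hKl hno he
    · rw [ih, ← h1, ← h2]; exact (cell_edge hK hl hKl hno he).symm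

theorem card_cell {K l : ℕ} (hK : 0 < K) (hl : 0 < l) (hKl : K * l ≤ m) (S : Finset (TE m k))
    (c : ℕ) : #(Finset.univ.filter fun v : ZMod m × ZMod k => cell K l S v = c) ≤
      (2 * l + (m - K * l)) * k := by
  set A : Finset ℕ := (Finset.Ico (c * l) (c * l + l) ∪
    Finset.Ico ((c + 1) % K * l) ((c + 1) % K * l + l)) ∪ Finset.Ico (K * l) m with hA
  have hsub : (Finset.univ.filter fun v : ZMod m × ZMod k => cell K l S v = c).image
      (fun v => (v.1.val, v.2)) ⊆ A ×ˢ (Finset.univ : Finset (ZMod k)) := by
    intro z hz
    obtain ⟨v, hv, rfl⟩ := Finset.mem_image.1 hz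
    rw [Finset.mem_filter] at hv
    rw [Finset.mem_product]
    refine ⟨?_, Finset.mem_univ _⟩
    simp only [hA, Finset.mem_union, Finset.mem_Ico]
    have hc := hv.2
    unfold cell at hc
    have hrm : v.1.val < m := ZMod.val_lt v.1
    set r := v.1.val
    have hdiv : l * (r / l) + r % l = r := Nat.div_add_mod r l
    have hmod : r % l < l := Nat.mod_lt r hl
    by_cases hrK : r < K * l
    · rw [if_pos hrK] at hc
      have hiK : r / l < K := Nat.div_lt_of_lt_mul (by rwa [Nat.mul_comm])
      left
      have h0 : r / l * l = l * (r / l) := Nat.mul_comm _ _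
      split_ifs at hc with hW
      · right
        have hi : (c + 1) % K = r / l := by
          rw [← hc]
          rcases Nat.eq_zero_or_pos (r / l) with h | h
          · rw [h, Nat.zero_add, Nat.mod_eq_of_lt (by omega : K - 1 < K),
              show K - 1 + 1 = K by omega, Nat.mod_self]
          · have h1 : r / l + K - 1 = (r / l - 1) + K := by omega
            rw [h1, Nat.add_mod_right, Nat.mod_eq_of_lt (by omega : r / l - 1 < K),
              show r / l - 1 + 1 = r / l by omega, Nat.mod_eq_of_lt hiK]
        rw [hi]; omega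
      · left
        rw [← hc]; omega
    · right; omega
  have hinj : Set.InjOn (fun v : ZMod m × ZMod k => (v.1.val, v.2))
      (Finset.univ.filter fun v : ZMod m × ZMod k => cell K l S v = c) := by
    rintro ⟨a, b⟩ _ ⟨a', b'⟩ _ h
    simp only [Prod.mk.injEq] at h
    rw [ZMod.val_injective m h.1, h.2]
  rw [← Finset.card_image_of_injOn hinj]
  refine (Finset.card_le_card hsub).trans ?_
  rw [Finset.card_product, Finset.card_univ, ZMod.card]
  refine Nat.mul_le_mul_right k ?_
  rw [hA]
  refine (Finset.card_union_le _ _).trans ?_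
  refine (Nat.add_le_add_right (Finset.card_union_le _ _) _).trans ?_
  simp only [Nat.card_Ico]
  omega

/-- All clusters are small if no piece is crossed. -/
theorem card_cluster {K l : ℕ} (hK : 0 < K) (hl : 0 < l) (hKl : K * l ≤ m) {S : Finset (TE m k)}
    (hno : ∀ i ∈ Finset.range K, ¬ Cross (l - 1) (pull ((i * l : ℕ) : ℤ) (l - 1) S))
    (v : ZMod m × ZMod k) :
    #(Finset.univ.filter fun w : ZMod m × ZMod k => Conn (S : Set (TE m k)) v w) ≤
      (2 * l + (m - K * l)) * k := by
  refine le_trans (Finset.card_le_card ?_) (card_cell hK hl hKl S (cell K l S v))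
  intro w hw
  rw [Finset.mem_filter] at hw ⊢
  exact ⟨hw.1, (cell_conn hK hl hKl hno hw.2).symm⟩

end Q79.Perc
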