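import Pool.Agent.Q79.PercF
import Pool.Agent.Q79.PercDef

/-!
# The torus as a simple graph
-/

namespace Q79.Perc

open Finset Relation
open scoped Classical
open Q79.PercDef

variable {m k : ℕ} [NeZero m] [NeZero k]

/-- The unordered pair of endpoints. -/
def io (e : TE m k) : Sym2 (ZMod m × ZMod k) := s(e.1, tgt e)

/-- The torus graph. -/
def TG (m k : ℕ) : SimpleGraph (ZMod m × ZMod k) := SimpleGraph.fromEdgeSet (Set.range io)

theorem one_ne {n : ℕ} (hn : 3 ≤ n) : (1 : ZMod n) ≠ 0 := by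
  have : Fact (1 < n) := ⟨by omega⟩
  exact one_ne_zero

theorem two_ne {n : ℕ} (hn : 3 ≤ n) : (1 + 1 : ZMod n) ≠ 0 := by
  intro h
  have h2 : ((2 : ℕ) : ZMod n) = 0 := by push_cast; rw [← h]; norm_num
  rw [ZMod.natCast_eq_zero_iff] at h2
  have := Nat.le_of_dvd (by norm_num) h2
  omega

theorem tgt_ne (hm : 3 ≤ m) (hk : 3 ≤ k) (e : TE m k) : e.1 ≠ tgt e := by
  obtain ⟨⟨a, b⟩, d⟩ := e
  cases d
  · rw [tgt_false]; simp [one_ne hm]
  · rw [tgt_true]; simp [one_ne hk]

theorem io_inj (hm : 3 ≤ m) (hk : 3 ≤ k) : Function.Injective (io : TE m k → _) := by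
  rintro ⟨⟨a, b⟩, d⟩ ⟨⟨a', b'⟩, d'⟩ h
  unfold io at h
  rw [Sym2.eq_iff] at h
  rcases h with ⟨h1, h2⟩ | ⟨h1, h2⟩
  · simp only [Prod.mk.injEq] at h1
    obtain ⟨rfl, rfl⟩ := h1
    cases d <;> cases d' <;> simp [tgt, one_ne hm, one_ne hk] at h2 ⊢
  · exfalso
    have hm2 := two_ne hm
    have hk2 := two_ne hk
    have hm1 := one_ne hm
    have hk1 := one_ne hk
    cases d <;> cases d' <;> simp only [tgt, Prod.mk.injEq, if_true, Bool.false_eq_true,
      if_false] at h1 h2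
    · apply hm2
      have := h2.1
      rw [h1.1] at this
      have h3 : a' + (1 + 1) = a' + 0 := by rw [add_zero, ← add_assoc]; exact this
      exact add_left_cancel h3
    · apply hm1
      have := h2.1
      rw [h1.1] at this
      have h3 : a' + 1 = a' + 0 := by rw [add_zero]; exact this
      exact add_left_cancel h3
    · apply hm1
      have := h2.1
      rw [h1.1] at this
      have h3 : a' + 1 = a' + 0 := by rw [add_zero]; exact this
      exact add_left_cancel h3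
    · apply hk2
      have := h2.2
      rw [h1.2] at this
      have h3 : b' + (1 + 1) = b' + 0 := by rw [add_zero, ← add_assoc]; exact this
      exact add_left_cancel h3

theorem io_eq_iff {e : TE m k} {x y : ZMod m × ZMod k} :
    io e = s(x, y) ↔ (e.1 = x ∧ tgt e = y) ∨ (e.1 = y ∧ tgt e = x) := by
  unfold io; rw [Sym2.eq_iff]

theorem TG_adj (hm : 3 ≤ m) (hk : 3 ≤ k) {x y : ZMod m × ZMod k} :
    (TG m k).Adj x y ↔ Ad (Set.univ : Set (TE m k)) x y := by
  unfold TG
  rw [SimpleGraph.fromEdgeSet_adj]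
  constructor
  · rintro ⟨⟨e, he⟩, -⟩
    exact ⟨e, Set.mem_univ e, io_eq_iff.1 he⟩
  · rintro ⟨e, -, he⟩
    refine ⟨⟨e, io_eq_iff.2 he⟩, ?_⟩
    rcases he with ⟨rfl, rfl⟩ | ⟨rfl, rfl⟩
    · exact tgt_ne hm hk e
    · exact (tgt_ne hm hk e).symm

theorem TG_edgeFinset (hm : 3 ≤ m) (hk : 3 ≤ k) :
    (TG m k).edgeFinset = (Finset.univ : Finset (TE m k)).image io := by
  ext z
  rw [SimpleGraph.mem_edgeFinset, Finset.mem_image]
  induction z using Sym2.ind with
  | _ x y =>
  rw [SimpleGraph.mem_edgeSet, TG_adj hm hk]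
  constructor
  · rintro ⟨e, _, he⟩; exact ⟨e, Finset.mem_univ e, io_eq_iff.2 he⟩
  · rintro ⟨e, _, he⟩; exact ⟨e, Set.mem_univ e, io_eq_iff.1 he⟩

theorem reach_iff (hm : 3 ≤ m) (hk : 3 ≤ k) (S : Finset (TE m k)) (x y : ZMod m × ZMod k) :
    (SimpleGraph.fromEdgeSet ((S.image io : Finset (Sym2 (ZMod m × ZMod k))) :
      Set (Sym2 (ZMod m × ZMod k)))).Reachable x y ↔ Conn (S : Set (TE m k)) x y := by
  rw [SimpleGraph.reachable_iff_reflTransGen]
  unfold Conn
  have : (SimpleGraph.fromEdgeSet ((S.image io : Finset (Sym2 (ZMod m × ZMod k))) :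
      Set (Sym2 (ZMod m × ZMod k)))).Adj = Ad (S : Set (TE m k)) := by
    ext a b
    rw [SimpleGraph.fromEdgeSet_adj, Finset.mem_coe, Finset.mem_image]
    constructor
    · rintro ⟨⟨e, he, h⟩, -⟩; exact ⟨e, he, io_eq_iff.1 h⟩
    · rintro ⟨e, he, h⟩
      refine ⟨⟨e, he, io_eq_iff.2 h⟩, ?_⟩
      rcases h with ⟨rfl, rfl⟩ | ⟨rfl, rfl⟩
      · exact tgt_ne hm hk e
      · exact (tgt_ne hm hk e).symm
  rw [this]

/-- The official percolation probability. -/
theorem percProb_TG (hm : 3 ≤ m) (hk : 3 ≤ k) (p : ℝ)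
    (A : SimpleGraph (ZMod m × ZMod k) → Prop) :
    percProb (TG m k) p A = Pr p (Finset.univ : Finset (TE m k)) (fun S =>
      A (SimpleGraph.fromEdgeSet ((S.image io : Finset (Sym2 (ZMod m × ZMod k))) :
        Set (Sym2 (ZMod m × ZMod k))))) := by
  have h1 : percProb (TG m k) p A = Pr p (TG m k).edgeFinset
      (fun S => A (SimpleGraph.fromEdgeSet (S : Set (Sym2 (ZMod m × ZMod k))))) := by
    unfold percProb Pr Ex
    rw [Finset.sum_filter]
    refine Finset.sum_congr rfl fun S _ => ?_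
    by_cases hA : A (SimpleGraph.fromEdgeSet (↑S : Set (Sym2 (ZMod m × ZMod k))))
    · rw [if_pos hA]
      beta_reduce
      rw [ind_true hA, mul_one]
    · rw [if_neg hA]
      beta_reduce
      rw [ind_false hA, mul_zero]
  rw [h1, TG_edgeFinset hm hk]
  exact Pr_image p (io_inj hm hk).injOn _

/-! ### Metric properties -/

theorem adj_horiz (hm : 3 ≤ m) (hk : 3 ≤ k) (a : ZMod m) (b : ZMod k) :
    (TG m k).Adj (a, b) (a + 1, b) := by
  rw [TG_adj hm hk]
  exact ⟨((a, b), false), Set.mem_univ _, Or.inl ⟨rfl, tgt_false _⟩⟩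

theorem adj_vert (hm : 3 ≤ m) (hk : 3 ≤ k) (a : ZMod m) (b : ZMod k) :
    (TG m k).Adj (a, b) (a, b + 1) := by
  rw [TG_adj hm hk]
  exact ⟨((a, b), true), Set.mem_univ _, Or.inl ⟨rfl, tgt_true _⟩⟩

theorem walk_horiz (hm : 3 ≤ m) (hk : 3 ≤ k) (a : ZMod m) (b : ZMod k) (n : ℕ) :
    ∃ w : (TG m k).Walk (a, b) (a + n, b), w.length = n := by
  induction n with
  | zero =>
    refine ⟨(SimpleGraph.Walk.nil : (TG m k).Walk (a, b) (a, b)).copy rfl (by simp), by simp⟩
  | succ n ih =>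
    obtain ⟨w, hw⟩ := ih
    have h := adj_horiz hm hk (a + n) b
    refine ⟨(w.concat h).copy rfl (by push_cast; rw [add_assoc]), ?_⟩
    rw [SimpleGraph.Walk.length_copy, SimpleGraph.Walk.length_concat, hw]

theorem walk_vert (hm : 3 ≤ m) (hk : 3 ≤ k) (a : ZMod m) (b : ZMod k) (n : ℕ) :
    ∃ w : (TG m k).Walk (a, b) (a, b + n), w.length = n := by
  induction n with
  | zero =>
    refine ⟨(SimpleGraph.Walk.nil : (TG m k).Walk (a, b) (a, b)).copy rfl (by simp), by simp⟩
  | succ n ih =>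
    obtain ⟨w, hw⟩ := ih
    have h := adj_vert hm hk a (b + n)
    refine ⟨(w.concat h).copy rfl (by push_cast; rw [add_assoc]), ?_⟩
    rw [SimpleGraph.Walk.length_copy, SimpleGraph.Walk.length_concat, hw]

theorem walk_horiz' (hm : 3 ≤ m) (hk : 3 ≤ k) (a : ZMod m) (b : ZMod k) (i : ℤ) :
    ∃ w : (TG m k).Walk (a, b) (a + i, b), w.length = i.natAbs := by
  rcases Int.natAbs_eq i with h | h
  · obtain ⟨w, hw⟩ := walk_horiz hm hk a b i.natAbs
    refine ⟨w.copy rfl ?_, by rw [SimpleGraph.Walk.length_copy, hw]⟩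
    conv_rhs => rw [h]
    rw [Int.cast_natCast]
  · obtain ⟨w, hw⟩ := walk_horiz hm hk (a + i) b i.natAbs
    refine ⟨(w.copy rfl ?_).reverse, by
      rw [SimpleGraph.Walk.length_reverse, SimpleGraph.Walk.length_copy, hw]⟩
    have : ((i : ZMod m)) = -((i.natAbs : ℕ) : ZMod m) := by
      conv_lhs => rw [h]
      rw [Int.cast_neg, Int.cast_natCast]
    rw [this]; simp

theorem walk_vert' (hm : 3 ≤ m) (hk : 3 ≤ k) (a : ZMod m) (b : ZMod k) (i : ℤ) :
    ∃ w : (TG m k).Walk (a, b) (a, b + i), w.length = i.natAbs := by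
  rcases Int.natAbs_eq i with h | h
  · obtain ⟨w, hw⟩ := walk_vert hm hk a b i.natAbs
    refine ⟨w.copy rfl ?_, by rw [SimpleGraph.Walk.length_copy, hw]⟩
    conv_rhs => rw [h]
    rw [Int.cast_natCast]
  · obtain ⟨w, hw⟩ := walk_vert hm hk a (b + i) i.natAbs
    refine ⟨(w.copy rfl ?_).reverse, by
      rw [SimpleGraph.Walk.length_reverse, SimpleGraph.Walk.length_copy, hw]⟩
    have : ((i : ZMod k)) = -((i.natAbs : ℕ) : ZMod k) := by
      conv_lhs => rw [h]
      rw [Int.cast_neg, Int.cast_natCast]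
    rw [this]; simp

theorem exists_short_walk (hm : 3 ≤ m) (hk : 3 ≤ k) (x y : ZMod m × ZMod k) :
    ∃ w : (TG m k).Walk x y, w.length ≤ m / 2 + k / 2 := by
  obtain ⟨a, b⟩ := x
  obtain ⟨a', b'⟩ := y
  obtain ⟨w1, h1⟩ := walk_horiz' hm hk a b (a' - a).valMinAbs
  obtain ⟨w2, h2⟩ := walk_vert' hm hk a' b (b' - b).valMinAbs
  refine ⟨(w1.copy rfl (by rw [ZMod.coe_valMinAbs]; simp)).append
    (w2.copy rfl (by rw [ZMod.coe_valMinAbs]; simp)), ?_⟩
  rw [SimpleGraph.Walk.length_append, SimpleGraph.Walk.length_copy,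
    SimpleGraph.Walk.length_copy, h1, h2]
  exact Nat.add_le_add (ZMod.natAbs_valMinAbs_le _) (ZMod.natAbs_valMinAbs_le _)

theorem TG_connected (hm : 3 ≤ m) (hk : 3 ≤ k) : (TG m k).Connected := by
  have : Nonempty (ZMod m × ZMod k) := ⟨(0, 0)⟩
  exact SimpleGraph.Connected.mk fun x y => ⟨(exists_short_walk hm hk x y).choose⟩

theorem TG_diam (hm : 3 ≤ m) (hk : 3 ≤ k) : (TG m k).diam ≤ m / 2 + k / 2 := by
  have : Nonempty (ZMod m × ZMod k) := ⟨(0, 0)⟩
  obtain ⟨u, v, huv⟩ := (TG m k).exists_dist_eq_diam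
  rw [← huv]
  obtain ⟨w, hw⟩ := exists_short_walk hm hk u v
  exact (SimpleGraph.dist_le w).trans hw

theorem walk_length_ge (hm : 3 ≤ m) (hk : 3 ≤ k) {x y : ZMod m × ZMod k}
    (w : (TG m k).Walk x y) : (y.1 - x.1).valMinAbs.natAbs ≤ w.length := by
  induction w with
  | nil => simp
  | @cons u v z h p ih =>
    rw [SimpleGraph.Walk.length_cons]
    have h1 : (v.1 - u.1).valMinAbs.natAbs ≤ 1 := by
      rw [TG_adj hm hk] at h
      have hone : ((1 : ZMod m)).valMinAbs = 1 := by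
        have := ZMod.valMinAbs_natCast_of_le_half (n := m) (a := 1) (by omega)
        simpa using this
      obtain ⟨e, -, ⟨h2, h3⟩ | ⟨h2, h3⟩⟩ := h
      · obtain ⟨⟨a, b⟩, d⟩ := e
        cases d
        · rw [tgt_false] at h3
          rw [← h2, ← h3]; simp [hone]
        · rw [tgt_true] at h3
          rw [← h2, ← h3]; simp
      · obtain ⟨⟨a, b⟩, d⟩ := e
        cases d
        · rw [tgt_false] at h3
          rw [← h2, ← h3]
          simp only
          rw [show a - (a + 1) = -1 by ring, ZMod.natAbs_valMinAbs_neg, hone]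
          simp
        · rw [tgt_true] at h3
          rw [← h2, ← h3]; simp
    have h2 : z.1 - u.1 = (v.1 - u.1) + (z.1 - v.1) := by ring
    rw [h2]
    refine (ZMod.natAbs_valMinAbs_add_le _ _).trans ?_
    refine (Int.natAbs_add_le _ _).trans ?_
    omega

theorem dist_ge (hm : 3 ≤ m) (hk : 3 ≤ k) {x y : ZMod m × ZMod k} {L : ℕ} (hL : L ≤ m / 2)
    (h : y.1 = x.1 + L) : L ≤ (TG m k).dist x y := by
  obtain ⟨w, hw⟩ := (TG_connected hm hk).exists_walk_length_eq_dist x y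
  rw [← hw]
  have h1 := walk_length_ge hm hk w
  rw [h, add_sub_cancel_left, ZMod.valMinAbs_natCast_of_le_half hL] at h1
  simpa using h1

/-- The torus is vertex transitive. -/
theorem TG_transitive (hm : 3 ≤ m) (hk : 3 ≤ k) (u v : ZMod m × ZMod k) :
    ∃ φ : TG m k ≃g TG m k, φ u = v := by
  refine ⟨⟨Equiv.addRight (v - u), ?_⟩, ?_⟩
  · intro a b
    rw [TG_adj hm hk, TG_adj hm hk]
    have htr : ∀ (e : TE m k) (t : ZMod m × ZMod k), tgt ((e.1 + t, e.2) : TE m k) = tgt e + t := by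
      rintro ⟨⟨a, b⟩, d⟩ ⟨t1, t2⟩
      cases d
      · rw [tgt_false, tgt_false]; ext <;> simp [add_right_comm]
      · rw [tgt_true, tgt_true]; ext <;> simp [add_right_comm]
    simp only [Equiv.coe_addRight]
    constructor
    · rintro ⟨e, -, h⟩
      refine ⟨(e.1 + (-(v - u)), e.2), Set.mem_univ _, ?_⟩
      rw [htr]
      rcases h with ⟨h1, h2⟩ | ⟨h1, h2⟩
      · left; simp only; rw [h1, h2]; constructor <;> abel
      · right; simp only; rw [h1, h2]; constructor <;> abel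
    · rintro ⟨e, -, h⟩
      refine ⟨(e.1 + (v - u), e.2), Set.mem_univ _, ?_⟩
      rw [htr]
      rcases h with ⟨h1, h2⟩ | ⟨h1, h2⟩
      · left; simp only; rw [h1, h2]; exact ⟨rfl, rfl⟩
      · right; simp only; rw [h1, h2]; exact ⟨rfl, rfl⟩
  · show u + (v - u) = v
    abel

/-- The torus is `4`-regular. -/
theorem TG_regular (hm : 3 ≤ m) (hk : 3 ≤ k) (v : ZMod m × ZMod k) :
    ((TG m k).neighborSet v).ncard = 4 := by
  obtain ⟨a, b⟩ := v
  have hset : (TG m k).neighborSet (a, b) =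
      (({(a + 1, b), (a - 1, b), (a, b + 1), (a, b - 1)} : Finset (ZMod m × ZMod k)) :
        Set (ZMod m × ZMod k)) := by
    ext w
    rw [SimpleGraph.mem_neighborSet, TG_adj hm hk]
    simp only [Finset.coe_insert, Finset.coe_singleton, Set.mem_insert_iff,
      Set.mem_singleton_iff]
    constructor
    · rintro ⟨⟨⟨a', b'⟩, d⟩, -, h⟩
      cases d
      · rw [tgt_false] at h
        rcases h with ⟨h1, h2⟩ | ⟨h1, h2⟩
        · left; simp only [Prod.mk.injEq] at h1; rw [← h2, ← h1.1, ← h1.2]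
        · right; left
          simp only [Prod.mk.injEq] at h2
          rw [← h1, ← h2.1, ← h2.2]; simp
      · rw [tgt_true] at h
        rcases h with ⟨h1, h2⟩ | ⟨h1, h2⟩
        · right; right; left; simp only [Prod.mk.injEq] at h1; rw [← h2, ← h1.1, ← h1.2]
        · right; right; right
          simp only [Prod.mk.injEq] at h2
          rw [← h1, ← h2.1, ← h2.2]; simp
    · rintro (rfl | rfl | rfl | rfl)
      · exact ⟨((a, b), false), Set.mem_univ _, Or.inl ⟨rfl, tgt_false _⟩⟩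
      · exact ⟨((a - 1, b), false), Set.mem_univ _, Or.inr ⟨rfl, by rw [tgt_false]; simp⟩⟩
      · exact ⟨((a, b), true), Set.mem_univ _, Or.inl ⟨rfl, tgt_true _⟩⟩
      · exact ⟨((a, b - 1), true), Set.mem_univ _, Or.inr ⟨rfl, by rw [tgt_true]; simp⟩⟩
  rw [hset, Set.ncard_coe_finset]
  have hm2 := two_ne hm
  have hk2 := two_ne hk
  have hm1 := one_ne hm
  have hk1 := one_ne hk
  have e1 : a + 1 ≠ a - 1 := by
    intro h; apply hm2
    have : a + (1 + 1) = a + 0 := by rw [add_zero, ← add_assoc, h]; simp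
    exact add_left_cancel this
  have e2 : b + 1 ≠ b - 1 := by
    intro h; apply hk2
    have : b + (1 + 1) = b + 0 := by rw [add_zero, ← add_assoc, h]; simp
    exact add_left_cancel this
  rw [Finset.card_insert_of_notMem, Finset.card_insert_of_notMem, Finset.card_insert_of_notMem,
    Finset.card_singleton]
  · simp [e2]
  · simp [hm1]
  · simp [hm1, e1]

end Q79.Perc
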