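import Pool.Agent.Q79.PercG

/-!
# The thin tori: main estimates
-/

namespace Q79.Perc

open Finset Relation Filter
open scoped Classical
open Q79.PercDef

/-- The length of the torus of width `k`. -/
noncomputable def mm (k : ℕ) [NeZero k] : ℕ := Nat.find (exists_X_lt k)

theorem mm_spec (k : ℕ) [NeZero k] : X k (mm k) < 1 / 2 := Nat.find_spec (exists_X_lt k)

theorem mm_min (k : ℕ) [NeZero k] {L : ℕ} (h : L < mm k) : 1 / 2 ≤ X k L := by
  have := Nat.find_min (exists_X_lt k) h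
  linarith [not_lt.1 this]

theorem mm_gt (k : ℕ) [NeZero k] (hk : 4 ≤ k) : 4 ^ k < mm k := by
  by_contra hcon
  push Not at hcon
  have h1 : X k (4 ^ k) < 1 / 2 := lt_of_le_of_lt (X_anti hcon) (mm_spec k)
  have h2 := X_ge (k := k) (L := 4 ^ k) (by positivity)
  have h3 : ((4 ^ k : ℕ) : ℝ) * (8 / 100) ^ (k - 1) ≤ 1 / 4 := by
    obtain ⟨n, rfl⟩ : ∃ n, k = n + 4 := ⟨k - 4, by omega⟩
    have e : n + 4 - 1 = n + 3 := by omega
    rw [e]
    push_cast
    have h4 : ((4 : ℝ) ^ (n + 4)) * (8 / 100) ^ (n + 3) = (4 ^ 4 * (8 / 100) ^ 3) * (32 / 100) ^ n := by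
      rw [show (32 / 100 : ℝ) = 4 * (8 / 100) by norm_num, mul_pow, pow_add, pow_add]; ring
    rw [h4]
    have h5 : ((32 : ℝ) / 100) ^ n ≤ 1 := pow_le_one₀ (by norm_num) (by norm_num)
    nlinarith
  linarith

theorem one_sub_pow_le {x : ℝ} (h0 : 0 ≤ x) (h1 : x ≤ 1) (n : ℕ) :
    (1 - x) ^ n ≤ 1 / (1 + n * x) := by
  have h2 : 1 + n * x ≤ (1 + x) ^ n := one_add_mul_le_pow (by linarith) n
  have h3 : (0 : ℝ) < 1 + n * x := by positivity
  rw [le_div_iff₀ h3]
  calc (1 - x) ^ n * (1 + n * x) ≤ (1 - x) ^ n * (1 + x) ^ n :=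
        mul_le_mul_of_nonneg_left h2 (pow_nonneg (by linarith) n)
    _ = (1 - x * x) ^ n := by rw [← mul_pow]; ring
    _ ≤ 1 := pow_le_one₀ (by nlinarith) (by nlinarith)

/-- The gluing error. -/
noncomputable def eta (k : ℕ) : ℝ := (1 - (99 / 100) ^ k) ^ (2 ^ k)

theorem eta_le (k : ℕ) : eta k ≤ 1 / (1 + (198 / 100) ^ k) := by
  unfold eta
  have h := one_sub_pow_le (x := (99 / 100) ^ k) (by positivity)
    (pow_le_one₀ (by norm_num) (by norm_num)) (2 ^ k)
  refine h.trans (le_of_eq ?_)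
  push_cast
  rw [← mul_pow]
  norm_num

theorem eta_small {k : ℕ} (hk : 4 ≤ k) : eta k ≤ 1 / 16 := by
  refine (eta_le k).trans ?_
  have h1 : (198 / 100 : ℝ) ^ 4 ≤ (198 / 100) ^ k := pow_le_pow_right₀ (by norm_num) hk
  refine one_div_le_one_div_of_le (by norm_num) ?_
  norm_num at h1 ⊢
  linarith

theorem eta_tendsto : Tendsto eta atTop (nhds 0) := by
  refine squeeze_zero (fun k => ?_) eta_le ?_
  · unfold eta
    refine pow_nonneg ?_ _
    have : ((99 : ℝ) / 100) ^ k ≤ 1 := pow_le_one₀ (by norm_num) (by norm_num)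
    linarith
  · have h1 : Tendsto (fun k : ℕ => 1 + ((198 : ℝ) / 100) ^ k) atTop atTop :=
      tendsto_atTop_add_const_left _ _ (tendsto_pow_atTop_atTop_of_one_lt (by norm_num))
    simp only [one_div]
    exact h1.inv_tendsto_atTop

/-- Every vertex has long connections with positive probability. -/
theorem long_arm (k : ℕ) [NeZero k] (hk : 4 ≤ k) [NeZero (mm k)] (v : ZMod (mm k) × ZMod k) :
    1 / 4 < Pr (99 / 100) (Finset.univ : Finset (TE (mm k) k))
      (fun S => ∃ y : ZMod (mm k) × ZMod k, y.1 = v.1 + (mm k / 2 : ℕ) ∧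
        Conn (S : Set (TE (mm k) k)) v y) := by
  have hm := mm_gt k hk
  have h44 : 4 ^ k = 2 ^ k * 2 ^ k := by rw [← mul_pow]; norm_num
  have h2k : 2 ^ 4 ≤ 2 ^ k := Nat.pow_le_pow_right (by norm_num) hk
  have hD : 2 ^ k ≤ mm k / 2 := by
    rw [Nat.le_div_iff_mul_le (by norm_num)]
    nlinarith
  have hL : mm k / 2 < mm k := Nat.div_lt_self (by omega) (by norm_num)
  have h1 := torus_arm (m := mm k) (k := k) v hL
  have h2 := arm_long (k := k) (D := 2 ^ k) (L := mm k / 2) (by positivity) hD v.2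
  have h3 : 1 / 2 ≤ X k (mm k / 2) := mm_min k hL
  have h4 : (((2 ^ k : ℕ) : ℝ)) * (8 / 100) ^ (k - 1) ≤ 1 / 100 := by
    obtain ⟨n, rfl⟩ : ∃ n, k = n + 4 := ⟨k - 4, by omega⟩
    have e : n + 4 - 1 = n + 3 := by omega
    rw [e]
    push_cast
    have h4 : ((2 : ℝ) ^ (n + 4)) * (8 / 100) ^ (n + 3) = (2 ^ 4 * (8 / 100) ^ 3) * (16 / 100) ^ n := by
      rw [show (16 / 100 : ℝ) = 2 * (8 / 100) by norm_num, mul_pow, pow_add, pow_add]; ring
    rw [h4]
    have h5 : ((16 : ℝ) / 100) ^ n ≤ 1 := pow_le_one₀ (by norm_num) (by norm_num)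
    nlinarith
  have h5 := eta_small hk
  unfold eta at h5
  rw [Pr_compl] at h1
  linarith

/-- `1 - X` is bounded below on pieces of proportional length. -/
theorem piece_bound (K : ℕ) (hK : 0 < K) : ∃ k₀, ∀ k : ℕ, ∀ [NeZero k], k₀ ≤ k →
    1 / (4 * (4 * K + 1) : ℝ) ≤ 1 - X k (mm k / K - 1) ∧ 0 < mm k / K := by
  -- `4 K eta ≤ 1/4` and `2 * 2^k + 2 ≤ mm k / K`
  have h1 : ∀ᶠ k in atTop, eta k < 1 / (16 * K) := by
    have hpos : (0 : ℝ) < 1 / (16 * K) := by positivity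
    exact (eta_tendsto.eventually (gt_mem_nhds hpos))
  have h2 : ∀ᶠ k : ℕ in atTop, 4 * K ≤ 2 ^ k :=
    (tendsto_pow_atTop_atTop_of_one_lt (one_lt_two : (1 : ℕ) < 2)).eventually_ge_atTop (4 * K)
  obtain ⟨k₀, hk₀⟩ := Filter.eventually_atTop.1 (h1.and (h2.and (Filter.eventually_ge_atTop 4)))
  refine ⟨k₀, fun k _ hk => ?_⟩
  obtain ⟨g1, g2, g3⟩ := hk₀ k hk
  have hm := mm_gt k g3
  have h44 : 4 ^ k = 2 ^ k * 2 ^ k := by rw [← mul_pow]; norm_num
  have h2k : 2 ^ 4 ≤ 2 ^ k := Nat.pow_le_pow_right (by norm_num) g3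
  have hl : 4 * 2 ^ k ≤ mm k / K := by
    rw [Nat.le_div_iff_mul_le hK]
    nlinarith
  set l := mm k / K with hldef
  set a := l - 1 with ha
  have hDa : 2 * 2 ^ k ≤ a := by omega
  refine ⟨?_, by omega⟩
  have h3 := X_iter (k := k) (a := a) (D := 2 ^ k) (by omega) (4 * K)
  -- the glued length is at least `mm k`
  have hlen : mm k ≤ a + 4 * K * (a - 2 ^ k) := by
    have h5 : mm k < K * (l + 1) := by
      have := Nat.lt_mul_div_succ (mm k) hK
      exact this
    have h6 : a ≤ 2 * (a - 2 ^ k) := by omega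
    have h7 : 2 * K * a ≤ 4 * K * (a - 2 ^ k) := by
      calc 2 * K * a ≤ 2 * K * (2 * (a - 2 ^ k)) := Nat.mul_le_mul_left _ h6
        _ = 4 * K * (a - 2 ^ k) := by ring
    have h8 : l + 1 ≤ 2 * a := by omega
    have h9 : K * (l + 1) ≤ 2 * K * a := by
      calc K * (l + 1) ≤ K * (2 * a) := Nat.mul_le_mul_left _ h8
        _ = 2 * K * a := by ring
    omega
  have h4 : X k (a + 4 * K * (a - 2 ^ k)) < 1 / 2 := (X_anti hlen).trans_lt (mm_spec k)
  have h5 : (0 : ℝ) < K := by exact_mod_cast hK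
  have h6 : 4 * (K : ℝ) * (1 - (99 / 100) ^ k) ^ (2 ^ k) ≤ 1 / 4 := by
    have : eta k = (1 - (99 / 100) ^ k) ^ (2 ^ k) := rfl
    rw [← this]
    rw [lt_div_iff₀ (by positivity)] at g1
    linarith
  rw [div_le_iff₀ (by positivity)]
  push_cast at h3
  nlinarith

/-- Giant components are absent with positive probability. -/
theorem no_giant (C : ℝ) (hC : 0 < C) : ∃ ε : ℝ, 0 < ε ∧ ∃ k₀, ∀ k : ℕ, ∀ [NeZero k],
    ∀ [NeZero (mm k)], k₀ ≤ k →
    Pr (99 / 100) (Finset.univ : Finset (TE (mm k) k))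
      (fun S => ∃ v : ZMod (mm k) × ZMod k, C * (mm k * k) ≤
        #(Finset.univ.filter fun w : ZMod (mm k) × ZMod k => Conn (S : Set (TE (mm k) k)) v w)) ≤
      1 - ε := by
  obtain ⟨K, hKC⟩ := exists_nat_gt (4 / C)
  have hK : 0 < K := by
    have : (0 : ℝ) < 4 / C := by positivity
    exact_mod_cast this.trans hKC
  have hKC' : 4 < C * K := by
    rw [div_lt_iff₀ hC] at hKC
    linarith
  obtain ⟨k₀, hk₀⟩ := piece_bound K hK
  have h2 : ∀ᶠ k : ℕ in atTop, 2 * K / C ≤ (2 : ℝ) ^ k :=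
    (tendsto_pow_atTop_atTop_of_one_lt (one_lt_two : (1 : ℝ) < 2)).eventually_ge_atTop _
  obtain ⟨k₁, hk₁⟩ := Filter.eventually_atTop.1 (h2.and (Filter.eventually_ge_atTop 4))
  refine ⟨(1 / (4 * (4 * K + 1) : ℝ)) ^ K, by positivity, max k₀ k₁, fun k _ _ hk => ?_⟩
  obtain ⟨g1, g2⟩ := hk₀ k (le_trans (le_max_left _ _) hk)
  obtain ⟨g3, g4⟩ := hk₁ k (le_trans (le_max_right _ _) hk)
  have hm := mm_gt k g4
  set l := mm k / K with hl
  have hKl : K * l ≤ mm k := Nat.mul_div_le (mm k) K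
  have hrem : mm k - K * l < K := by
    have := Nat.mod_lt (mm k) hK
    have h3 := Nat.div_add_mod (mm k) K
    rw [← hl] at h3
    omega
  have hb := blocks_prob (m := mm k) (k := k) (K := K) (l := l) g2 hKl
  have hpow : (1 / (4 * (4 * K + 1) : ℝ)) ^ K ≤ (1 - X k (l - 1)) ^ K :=
    pow_le_pow_left₀ (by positivity) g1 K
  rw [← hb] at hpow
  have hcompl := Pr_compl (99 / 100) (Finset.univ : Finset (TE (mm k) k))
    (fun S => ∀ i ∈ Finset.range K, ¬ Cross (l - 1) (pull ((i * l : ℕ) : ℤ) (l - 1) S))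
  refine le_trans (Pr_mono p0 p1 (B := fun S => ¬ ∀ i ∈ Finset.range K,
    ¬ Cross (l - 1) (pull ((i * l : ℕ) : ℤ) (l - 1) S)) fun S _ h hno => ?_) ?_
  · obtain ⟨v, hv⟩ := h
    have hc := card_cluster hK g2 hKl hno v
    have hc' : ((#(Finset.univ.filter fun w : ZMod (mm k) × ZMod k =>
        Conn (S : Set (TE (mm k) k)) v w) : ℕ) : ℝ) ≤ (2 * l + K) * k := by
      have : (2 * l + (mm k - K * l)) * k ≤ (2 * l + K) * k := Nat.mul_le_mul_right _ (by omega)
      exact_mod_cast hc.trans this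
    have hkpos : (0 : ℝ) < k := by
      have : 0 < k := by omega
      exact_mod_cast this
    have h5 : C * mm k ≤ 2 * l + K := by
      have h6 : (C * mm k) * k ≤ (2 * l + K) * k := by
        calc (C * mm k) * k = C * (mm k * k) := by ring
          _ ≤ _ := hv.trans hc'
      exact le_of_mul_le_mul_right h6 hkpos
    have h7 : (K : ℝ) * l ≤ mm k := by exact_mod_cast hKl
    have h8 : (2 : ℝ) ^ k ≤ mm k := by
      have : 2 ^ k ≤ 4 ^ k := Nat.pow_le_pow_left (by norm_num) k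
      exact_mod_cast (this.trans hm.le)
    have h9 : 2 * K / C ≤ mm k := g3.trans h8
    rw [div_le_iff₀ hC] at h9
    have hl0 : (0 : ℝ) ≤ l := Nat.cast_nonneg l
    have hmpos : (0 : ℝ) < mm k := by
      have : (0 : ℝ) < 2 ^ k := by positivity
      linarith
    -- 2 l ≤ C m / 2 , K ≤ C m / 2, with strictness
    have hKr : (0 : ℝ) < K := by exact_mod_cast hK
    have h10 : 2 * (l : ℝ) < C * mm k / 2 ∨ l = 0 := by
      by_cases hl00 : l = 0
      · right; exact hl00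
      · left
        have hlpos : (0 : ℝ) < l := by
          have : 0 < l := Nat.pos_of_ne_zero hl00
          exact_mod_cast this
        nlinarith
    rcases h10 with h10 | h10
    · nlinarith
    · omega
  · rw [hcompl]; linarith

end Q79.Perc
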