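import Mathlib
import Pool.Agent.Q79.PowB

set_option autoImplicit false

open MeasureTheory Set Filter Topology Metric

namespace Pool.Agent.Q79.PW

open Pool.Agent.H762R2.Rt (wro)

variable (P Q : Polynomial ℂ)

/-- the dynamics of the `n`-th powers -/
noncomputable def step (n : ℕ) (S X : ℂ) : ℂ := S * (P.eval X / Q.eval X) ^ n

/-- the orbit stays in the annulus -/
def Non (n : ℕ) (L : ℝ) (S X : ℂ) : Prop :=
  ∀ j : ℕ, Real.exp (-L) ≤ ‖(step P Q n S)^[j] X‖ ∧ ‖(step P Q n S)^[j] X‖ ≤ Real.exp L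

/-- slow curves -/
structure Slow (s : ℂ → ℂ) (x : ℂ) (r : ℝ) : Prop where
  d : DifferentiableOn ℂ s (ball x (2 * r))
  b : ∀ t ∈ ball x (2 * r), ‖deriv s t‖ ≤ 1

/-- the parameters of a slow curve whose orbit stays in the annulus -/
def NS (n : ℕ) (L : ℝ) (s : ℂ → ℂ) (x : ℂ) (r : ℝ) : Set ℂ :=
  {t | t ∈ ball x r ∧ |(s t).re| ≤ L ∧ Non P Q n L (Complex.exp (s t)) (Complex.exp t)}

/-- the supremum of the areas -/
noncomputable def Sup (n : ℕ) (L r₀ : ℝ) : ENNReal :=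
  ⨆ (x : ℂ) (r : ℝ) (s : ℂ → ℂ) (_ : 0 < r ∧ r ≤ r₀ ∧ Slow s x r), volume (NS P Q n L s x r)

variable {P Q}

theorem le_Sup {n : ℕ} {L r₀ : ℝ} {x : ℂ} {r : ℝ} {s : ℂ → ℂ} (h0 : 0 < r) (h1 : r ≤ r₀)
    (h : Slow s x r) : volume (NS P Q n L s x r) ≤ Sup P Q n L r₀ := by
  unfold Sup
  exact le_iSup_of_le x (le_iSup_of_le r (le_iSup_of_le s (le_iSup_of_le ⟨h0, h1, h⟩ le_rfl)))

theorem Sup_ne_top (n : ℕ) (L r₀ : ℝ) : Sup P Q n L r₀ ≠ ⊤ := by
  have : Sup P Q n L r₀ ≤ ENNReal.ofReal r₀ ^ 2 * NNReal.pi := by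
    unfold Sup
    refine iSup_le fun x => iSup_le fun r => iSup_le fun s => iSup_le fun h => ?_
    calc volume (NS P Q n L s x r) ≤ volume (ball x r) := measure_mono fun t ht => ht.1
      _ = ENNReal.ofReal r ^ 2 * NNReal.pi := Complex.volume_ball x r
      _ ≤ _ := by
        gcongr
        exact h.2.1
  exact ne_top_of_le_ne_top (by finiteness) this

theorem NS_facts {n : ℕ} (hn : 1 ≤ n) {κ L : ℝ} (hκ : 2 * L ≤ κ * n) {s : ℂ → ℂ} {x : ℂ} {r : ℝ}
    {t : ℂ} (ht : t ∈ NS P Q n L s x r) : Band P Q κ L t := by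
  obtain ⟨-, hs, hN⟩ := ht
  have hn0 : (0:ℝ) < n := by exact_mod_cast hn
  have h0 := hN 0
  have h1 := hN 1
  simp only [Function.iterate_zero, id, Function.iterate_one] at h0 h1
  rw [Complex.norm_exp, Real.exp_le_exp, Real.exp_le_exp] at h0
  have hstep : ‖step P Q n (Complex.exp (s t)) (Complex.exp t)‖ =
      Real.exp (s t).re * ‖H P Q t‖ ^ n := by
    unfold step H
    rw [norm_mul, Complex.norm_exp, norm_pow]
  rw [hstep] at h1
  have hHpos : 0 < ‖H P Q t‖ := by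
    rcases (norm_nonneg (H P Q t)).lt_or_eq with h | h
    · exact h
    · rw [← h, zero_pow (by omega), mul_zero] at h1
      have := Real.exp_pos (-L)
      linarith [h1.1]
  have hH0 : H P Q t ≠ 0 := norm_pos_iff.1 hHpos
  have hP0 : P.eval (Complex.exp t) ≠ 0 := fun h => hH0 (by unfold H; rw [h, zero_div])
  have hQ0 : Q.eval (Complex.exp t) ≠ 0 := fun h => hH0 (by unfold H; rw [h, div_zero])
  have hQp := norm_pos_iff.2 hQ0
  have hPp := norm_pos_iff.2 hP0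
  rw [abs_le] at hs
  have hlog : |n * Real.log ‖H P Q t‖| ≤ κ * n := by
    have e1 : Real.exp (s t).re * ‖H P Q t‖ ^ n =
        Real.exp ((s t).re + n * Real.log ‖H P Q t‖) := by
      rw [Real.exp_add, Real.exp_nat_mul, Real.exp_log hHpos]
    rw [e1, Real.exp_le_exp, Real.exp_le_exp] at h1
    rw [abs_le]
    constructor <;> linarith [h1.1, h1.2, hs.1, hs.2]
  have hlog' : |Real.log ‖H P Q t‖| ≤ κ := by
    rw [abs_mul, abs_of_pos hn0, mul_comm] at hlog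
    exact le_of_mul_le_mul_right hlog hn0
  rw [abs_le] at hlog'
  have hHn : ‖H P Q t‖ = ‖P.eval (Complex.exp t)‖ / ‖Q.eval (Complex.exp t)‖ := by
    unfold H; rw [norm_div]
  have hexp : ‖H P Q t‖ ≤ Real.exp κ := by
    rw [← Real.exp_log hHpos]; exact Real.exp_le_exp.2 hlog'.2
  have hexp2 : Real.exp (-κ) ≤ ‖H P Q t‖ := by
    rw [← Real.exp_log hHpos]; exact Real.exp_le_exp.2 hlog'.1
  rw [hHn] at hexp hexp2
  refine ⟨abs_le.2 ⟨by linarith [h0.1], h0.2⟩, ?_, ?_⟩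
  · rwa [div_le_iff₀ hQp] at hexp
  · rw [le_div_iff₀ hQp] at hexp2
    calc ‖Q.eval (Complex.exp t)‖ = Real.exp κ * (Real.exp (-κ) * ‖Q.eval (Complex.exp t)‖) := by
          rw [← mul_assoc, ← Real.exp_add]; simp
      _ ≤ _ := mul_le_mul_of_nonneg_left hexp2 (Real.exp_pos _).le

/-- the next iterate is close to a similarity -/
theorem exists_sim {κ L : ℝ} {k : ℕ} {ε r₀ c : ℝ} (U : Unif P Q κ L k ε r₀ c) (hr₀ : 0 < r₀)
    (hε0 : 0 < ε) (hε1 : ε ≤ 1) {n : ℕ} {s : ℂ → ℂ} {x : ℂ} {r : ℝ}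
    (hr : 0 < r) (hs : Slow s x r) {t₀ : ℂ} (ht₀ : Band P Q κ L t₀) (htx : t₀ ∈ ball x r)
    {δ : ℝ} (hδ : 0 < δ) (hδr : δ ≤ r₀) (hδp : ∀ p ∈ Cr P Q κ L, δ ≤ ‖t₀ - p‖)
    (hbig : 4 ≤ n * (c * δ ^ k)) :
    ∃ F : ℂ → ℂ, Sim F t₀ (n * G P Q t₀) (min (ε * δ) r) ∧
      ∀ t ∈ ball t₀ (min (ε * δ) r), Complex.exp (F t) = Complex.exp (s t) * H P Q t ^ n := by
  set ρ := min (ε * δ) r with hρ
  have hρ0 : 0 < ρ := lt_min (by positivity) hr
  have hρr : ρ ≤ r := min_le_right _ _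
  have hρ2 : ρ ≤ 2 * r₀ := by
    have h1 : ρ ≤ ε * δ := min_le_left _ _
    have h2 : ε * δ ≤ 1 * r₀ := mul_le_mul hε1 hδr hδ.le (by norm_num)
    linarith
  have hlow := U.low t₀ ht₀ δ hδ.le hδr hδp
  have ha : 4 ≤ ‖(n:ℂ) * G P Q t₀‖ := by
    rw [norm_mul, Complex.norm_natCast]
    exact hbig.trans (mul_le_mul_of_nonneg_left hlow (Nat.cast_nonneg n))
  have hmem : ∀ t ∈ ball t₀ ρ, t ∈ ball t₀ (2 * r₀) := fun t ht => ball_subset_ball hρ2 ht
  have hsmem : ∀ t ∈ ball t₀ ρ, t ∈ ball x (2 * r) := by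
    intro t ht
    rw [mem_ball, dist_eq_norm] at *
    calc ‖t - x‖ = ‖(t - t₀) + (t₀ - x)‖ := by congr 1; ring
      _ ≤ _ := norm_add_le _ _
      _ < 2 * r := by linarith
  have ht₀0 : t₀ ∈ ball t₀ (2 * r₀) := mem_ball_self (by positivity)
  obtain ⟨hP0, hQ0⟩ := U.nz t₀ ht₀ t₀ ht₀0
  have hH0 : H P Q t₀ ≠ 0 := div_ne_zero hP0 hQ0
  set F : ℂ → ℂ := fun t => s t + n * (Complex.log (H P Q t / H P Q t₀) +
    Complex.log (H P Q t₀)) with hF
  have hne : ∀ t ∈ ball t₀ ρ, H P Q t / H P Q t₀ ∈ Complex.slitPlane := by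
    intro t ht
    have h1 := U.lg t₀ ht₀ t (hmem t ht)
    rw [Complex.mem_slitPlane_iff]
    left
    have h2 := (abs_le.1 (Complex.abs_re_le_norm (H P Q t / H P Q t₀ - 1))).1
    rw [Complex.sub_re, Complex.one_re] at h2
    linarith
  have hder : ∀ t ∈ ball t₀ ρ, HasDerivAt F (deriv s t + n * G P Q t) t := by
    intro t ht
    obtain ⟨h1, h2⟩ := U.nz t₀ ht₀ t (hmem t ht)
    have h3 := (H_hasDerivAt h1 h2).div_const (H P Q t₀)
    have h4 := h3.clog (hne t ht)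
    have h5 : HasDerivAt s (deriv s t) t :=
      (hs.d.differentiableAt (isOpen_ball.mem_nhds (hsmem t ht))).hasDerivAt
    have h6 := h5.add ((h4.add_const (Complex.log (H P Q t₀))).const_mul (n:ℂ))
    refine h6.congr_deriv ?_
    have h7 : H P Q t ≠ 0 := div_ne_zero h1 h2
    field_simp
  refine ⟨F, ⟨hρ0, ?_, ?_, ?_⟩, ?_⟩
  · intro h0
    rw [h0, norm_zero] at ha
    linarith
  · intro t ht
    exact (hder t ht).differentiableAt.differentiableWithinAt
  · intro t ht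
    rw [(hder t ht).deriv]
    have h1 := hs.b t (hsmem t ht)
    have h2 := U.var t₀ ht₀ δ hδ.le hδr hδp t (ball_subset_ball (min_le_left _ _) ht)
    have e : deriv s t + n * G P Q t - n * G P Q t₀ =
      deriv s t + n * (G P Q t - G P Q t₀) := by ring
    rw [e]
    refine (norm_add_le _ _).trans ?_
    have h3 : ‖(n:ℂ) * (G P Q t - G P Q t₀)‖ ≤ ‖(n:ℂ) * G P Q t₀‖ / 4 := by
      rw [norm_mul, norm_mul, mul_div_assoc]
      exact mul_le_mul_of_nonneg_left h2 (norm_nonneg _)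
    linarith
  · intro t ht
    have h1 := hne t ht
    have h2 : H P Q t / H P Q t₀ ≠ 0 := Complex.slitPlane_ne_zero h1
    rw [hF]
    simp only
    rw [Complex.exp_add, Complex.exp_nat_mul, Complex.exp_add, Complex.exp_log h2,
      Complex.exp_log hH0, div_mul_cancel₀ _ hH0]

/-- the key estimate -/
theorem key {κ L : ℝ} {k : ℕ} {ε r₀ c : ℝ} (U : Unif P Q κ L k ε r₀ c) (hr₀ : 0 < r₀)
    (hr₁ : r₀ ≤ 1) (hc : 0 < c) (hL : 0 ≤ L)
    (hε0 : 0 < ε) (hε1 : ε ≤ 1) {n : ℕ} (hn : 1 ≤ n) (hκ : 2 * L ≤ κ * n) {s : ℂ → ℂ} {x : ℂ}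
    {r : ℝ} (hr : 0 < r) (hs : Slow s x r) {t₀ : ℂ} (ht₀ : t₀ ∈ NS P Q n L s x r)
    {δ : ℝ} (hδ : 0 < δ) (hδr : δ ≤ r₀) (hδp : ∀ p ∈ Cr P Q κ L, δ ≤ ‖t₀ - p‖)
    (hbig : 4 ≤ n * (c * δ ^ k)) :
    volume (NS P Q n L s x r ∩ ball t₀ (min (ε * δ) r / 32)) ≤
      ENNReal.ofReal (4 * (169 * (4 * L / r₀ + 1) * (1 + 1 / r₀)) *
        (1 / (n * (c * δ ^ k)) ^ 2 + δ / (n * (c * δ ^ k)))) * Sup P Q n L r₀ := by
  have hB := NS_facts hn hκ ht₀
  obtain ⟨F, hF, hFe⟩ := exists_sim U hr₀ hε0 hε1 hr hs hB ht₀.1 hδ hδr hδp hbig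
  set ρ := min (ε * δ) r with hρ
  have hρ0 : 0 < ρ := hF.ρ0
  set a : ℂ := n * G P Q t₀ with ha
  have hlow := U.low t₀ hB δ hδ.le hδr hδp
  set b : ℝ := n * (c * δ ^ k) with hb
  have hab : b ≤ ‖a‖ := by
    rw [ha, norm_mul, Complex.norm_natCast]
    exact mul_le_mul_of_nonneg_left hlow (Nat.cast_nonneg n)
  have ha4 : 4 ≤ ‖a‖ := hbig.trans hab
  obtain ⟨Φ, hΦ1, hΦ2⟩ := hF.inverse
  set E := NS P Q n L s x r ∩ ball t₀ (ρ / 32) with hE
  have hEsub : E ⊆ ball t₀ ρ := fun t ht => ball_subset_ball (by linarith) ht.2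
  have ht₀ρ : t₀ ∈ ball t₀ ρ := mem_ball_self hρ0
  have hFE : ∀ t ∈ E, ‖F t - F t₀‖ ≤ 3 / 64 * ‖a‖ * ρ := by
    intro t ht
    have h1 := hF.upper (hEsub ht) ht₀ρ
    have h2 : ‖t - t₀‖ ≤ ρ / 32 := by
      have := ht.2
      rw [mem_ball, dist_eq_norm] at this
      exact this.le
    have h3 : 3 / 2 * ‖a‖ * ‖t - t₀‖ ≤ 3 / 2 * ‖a‖ * (ρ / 32) :=
      mul_le_mul_of_nonneg_left h2 (by positivity)
    linarith
  have hFre : ∀ t ∈ E, |(F t).re| ≤ L := by
    intro t ht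
    have h1 := ht.1.2.2 1
    simp only [Function.iterate_one] at h1
    have e : step P Q n (Complex.exp (s t)) (Complex.exp t) = Complex.exp (F t) := by
      rw [hFe t (hEsub ht)]
      rfl
    rw [e, Complex.norm_exp, Real.exp_le_exp, Real.exp_le_exp] at h1
    exact abs_le.2 h1
  set r' := min r₀ (‖a‖ * ρ / 64) with hr'
  have hr'0 : 0 < r' := lt_min hr₀ (by have := hF.apos; positivity)
  set h : ℝ := 3 / 64 * ‖a‖ * ρ with hh
  have hh0 : 0 ≤ h := by positivity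
  -- areas of the pieces of the image
  have hpiece : ∀ y ∈ F '' E, volume (F '' E ∩ ball y r') ≤ Sup P Q n L r₀ := by
    rintro _ ⟨t₁, ht₁, rfl⟩
    have hball : ball (F t₁) (2 * r') ⊆ ball (F t₀) (‖a‖ * ρ / 8) := by
      apply ball_subset_ball'
      rw [dist_eq_norm]
      have h1 := hFE t₁ ht₁
      have h2 : r' ≤ ‖a‖ * ρ / 64 := min_le_right _ _
      have h3 : 0 < ‖a‖ * ρ := by have := hF.apos; positivity
      nlinarith
    have hslow : Slow (s ∘ Φ) (F t₁) r' := by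
      have hsmem : ∀ t ∈ ball t₀ ρ, t ∈ ball x (2 * r) := by
        intro t ht
        have h1 := ht₀.1
        have h2 : ρ ≤ r := min_le_right _ _
        rw [mem_ball, dist_eq_norm] at *
        calc ‖t - x‖ = ‖(t - t₀) + (t₀ - x)‖ := by congr 1; ring
          _ ≤ _ := norm_add_le _ _
          _ < 2 * r := by linarith
      constructor
      · intro y hy
        obtain ⟨h1, -, h3, -⟩ := hΦ1 y (hball hy)
        have h4 : DifferentiableAt ℂ s (Φ y) :=
          hs.d.differentiableAt (isOpen_ball.mem_nhds (hsmem _ h1))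
        exact (h4.comp y h3).differentiableWithinAt
      · intro y hy
        obtain ⟨h1, -, h3, h4⟩ := hΦ1 y (hball hy)
        have h5 : DifferentiableAt ℂ s (Φ y) :=
          hs.d.differentiableAt (isOpen_ball.mem_nhds (hsmem _ h1))
        rw [deriv_comp y h5 h3, norm_mul]
        have h6 := hs.b _ (hsmem _ h1)
        have h7 : 2 / ‖a‖ ≤ 1 := by
          rw [div_le_one (by linarith)]; linarith
        exact mul_le_one₀ h6 (norm_nonneg _) (h4.trans h7)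
    refine le_trans (measure_mono ?_) (le_Sup hr'0 (min_le_left _ _) hslow)
    rintro _ ⟨⟨t₂, ht₂, rfl⟩, hy2⟩
    have hΦF : Φ (F t₂) = t₂ := by
      apply hΦ2 t₂ (hEsub ht₂)
      exact hball (ball_subset_ball (by linarith) hy2)
    refine ⟨hy2, ?_, ?_⟩
    · rw [Function.comp_apply, hΦF]; exact ht₂.1.2.1
    · rw [Function.comp_apply, hΦF]
      intro j
      have h1 := ht₂.1.2.2 (j + 1)
      rw [Function.iterate_succ_apply] at h1
      have e : step P Q n (Complex.exp (s t₂)) (Complex.exp t₂) = Complex.exp (F t₂) := by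
        rw [hFe t₂ (hEsub ht₂)]
        rfl
      rw [e] at h1
      exact h1
  have hcount : volume (F '' E) ≤ ENNReal.ofReal (169 * (4 * L / r₀ + 1) * (1 + 1 / r₀) *
      (1 + ‖a‖ * ρ)) * Sup P Q n L r₀ := by
    have hρa : 0 < ‖a‖ * ρ := by have := hF.apos; positivity
    have hfac : 0 ≤ 4 * L / r₀ := by positivity
    have hfac2 : 0 ≤ 1 / r₀ := by positivity
    rcases min_choice r₀ (‖a‖ * ρ / 64) with hcase | hcase
    · have h1 := cover (x₀ := 0) (y₀ := (F t₀).im) hr'0 hL hh0 (E := F '' E) (by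
        rintro _ ⟨t, ht, rfl⟩
        refine ⟨by rw [sub_zero]; exact hFre t ht, ?_⟩
        rw [← Complex.sub_im]
        exact (Complex.abs_im_le_norm _).trans (hFE t ht)) hpiece
      refine h1.trans (mul_le_mul_left (ENNReal.ofReal_le_ofReal ?_) _)
      rw [hr', hcase]
      have e1 : 4 * h / r₀ + 1 ≤ (1 + 1 / r₀) * (1 + ‖a‖ * ρ) := by
        have : 4 * h / r₀ = 3 / 16 * (1 / r₀ * (‖a‖ * ρ)) := by rw [hh]; ring
        rw [this]
        have : 0 ≤ 1 / r₀ * (‖a‖ * ρ) := by positivity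
        nlinarith
      calc (4 * L / r₀ + 1) * (4 * h / r₀ + 1) ≤
          (4 * L / r₀ + 1) * ((1 + 1 / r₀) * (1 + ‖a‖ * ρ)) :=
            mul_le_mul_of_nonneg_left e1 (by positivity)
        _ = 1 * ((4 * L / r₀ + 1) * (1 + 1 / r₀) * (1 + ‖a‖ * ρ)) := by ring
        _ ≤ 169 * ((4 * L / r₀ + 1) * (1 + 1 / r₀) * (1 + ‖a‖ * ρ)) := by
            apply mul_le_mul_of_nonneg_right (by norm_num) (by positivity)
        _ = _ := by ring
    · have h1 := cover (x₀ := (F t₀).re) (y₀ := (F t₀).im) hr'0 hh0 hh0 (E := F '' E) (by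
        rintro _ ⟨t, ht, rfl⟩
        constructor
        · rw [← Complex.sub_re]
          exact (Complex.abs_re_le_norm _).trans (hFE t ht)
        · rw [← Complex.sub_im]
          exact (Complex.abs_im_le_norm _).trans (hFE t ht)) hpiece
      refine h1.trans (mul_le_mul_left (ENNReal.ofReal_le_ofReal ?_) _)
      rw [hr', hcase]
      have e1 : 4 * h / (‖a‖ * ρ / 64) + 1 = 13 := by
        rw [hh]; field_simp; norm_num
      rw [e1]
      have e2 : 1 ≤ (4 * L / r₀ + 1) * (1 + 1 / r₀) * (1 + ‖a‖ * ρ) := by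
        have f1 : 1 ≤ (4 * L / r₀ + 1) := by linarith
        have f2 : 1 ≤ (1 + 1 / r₀) := by linarith
        have f3 : 1 ≤ (1 + ‖a‖ * ρ) := by linarith
        exact one_le_mul_of_one_le_of_one_le (one_le_mul_of_one_le_of_one_le f1 f2) f3
      nlinarith
  have hvol := hF.vol hEsub
  refine hvol.trans ?_
  calc ENNReal.ofReal (4 / ‖a‖ ^ 2) * volume (F '' E) ≤ ENNReal.ofReal (4 / ‖a‖ ^ 2) *
      (ENNReal.ofReal (169 * (4 * L / r₀ + 1) * (1 + 1 / r₀) *
      (1 + ‖a‖ * ρ)) * Sup P Q n L r₀) := mul_le_mul_right hcount _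
    _ = ENNReal.ofReal (4 / ‖a‖ ^ 2 * (169 * (4 * L / r₀ + 1) * (1 + 1 / r₀) *
      (1 + ‖a‖ * ρ))) * Sup P Q n L r₀ := by
        rw [← mul_assoc, ← ENNReal.ofReal_mul (by positivity)]
    _ ≤ _ := by
        apply mul_le_mul_left
        apply ENNReal.ofReal_le_ofReal
        set C₀ := 169 * (4 * L / r₀ + 1) * (1 + 1 / r₀) with hC₀
        have hC₀0 : 0 ≤ C₀ := by positivity
        have e1 : 4 / ‖a‖ ^ 2 * (C₀ * (1 + ‖a‖ * ρ)) =
            4 * C₀ * (1 / ‖a‖ ^ 2 + ρ / ‖a‖) := by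
          have : ‖a‖ ≠ 0 := by linarith
          field_simp
        rw [e1]
        apply mul_le_mul_of_nonneg_left _ (by positivity)
        have hb0 : 0 < b := by linarith
        have hρδ : ρ ≤ δ := by
          have h1 : ρ ≤ ε * δ := min_le_left _ _
          nlinarith
        apply add_le_add
        · apply one_div_le_one_div_of_le (by positivity)
          exact pow_le_pow_left₀ hb0.le hab 2
        · exact div_le_div₀ hδ.le hρδ hb0 hab

end Pool.Agent.Q79.PW
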