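import Mathlib
import Pool.Agent.Q79.PowC

set_option autoImplicit false

open MeasureTheory Set Filter Topology Metric

namespace Pool.Agent.Q79.PW

open Pool.Agent.H762R2.Rt (wro)

variable {P Q : Polynomial ℂ}

/-- the constant -/
noncomputable def C1 (ε L r₀ : ℝ) : ℝ :=
  (256 / ε + 1) ^ 2 * (4 * (169 * (4 * L / r₀ + 1) * (1 + 1 / r₀)))

theorem C1_pos {ε L r₀ : ℝ} (hε : 0 < ε) (hL : 0 ≤ L) (hr₀ : 0 < r₀) : 0 < C1 ε L r₀ := by
  unfold C1; positivity

/-- areas of the pieces -/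
theorem piece {κ L : ℝ} {k : ℕ} {ε r₀ c : ℝ} (U : Unif P Q κ L k ε r₀ c) (hr₀ : 0 < r₀)
    (hr₁ : r₀ ≤ 1) (hc : 0 < c) (hL : 0 ≤ L)
    (hε0 : 0 < ε) (hε1 : ε ≤ 1) {n : ℕ} (hn : 1 ≤ n) (hκ : 2 * L ≤ κ * n) {s : ℂ → ℂ} {x : ℂ}
    {r : ℝ} (hr : 0 < r) (hs : Slow s x r) {E : Set ℂ} (hE : E ⊆ NS P Q n L s x r)
    {δ : ℝ} (hδ : 0 < δ) (hδr : δ ≤ r₀) (hδp : ∀ t ∈ E, ∀ p ∈ Cr P Q κ L, δ ≤ ‖t - p‖)
    (hbig : 4 ≤ n * (c * δ ^ k)) {q : ℂ} {W : ℝ} (hW0 : 0 ≤ W) (hW1 : W ≤ 2 * δ) (hW2 : W ≤ r)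
    (hEq : ∀ t ∈ E, ‖t - q‖ ≤ W) :
    volume E ≤ ENNReal.ofReal (C1 ε L r₀ *
        (1 / (n * (c * δ ^ k)) ^ 2 + δ / (n * (c * δ ^ k)))) * Sup P Q n L r₀ := by
  set ρ := min (ε * δ) r with hρ
  have hρ0 : 0 < ρ := lt_min (by positivity) hr
  have h1 := cover (E := E) (x₀ := q.re) (y₀ := q.im) (w := W) (h := W) (r := ρ / 32)
    (by positivity) hW0 hW0 (by
      intro t ht
      have h2 := hEq t ht
      constructor
      · rw [← Complex.sub_re]; exact (Complex.abs_re_le_norm _).trans h2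
      · rw [← Complex.sub_im]; exact (Complex.abs_im_le_norm _).trans h2)
    (B := ENNReal.ofReal (4 * (169 * (4 * L / r₀ + 1) * (1 + 1 / r₀)) *
        (1 / (n * (c * δ ^ k)) ^ 2 + δ / (n * (c * δ ^ k)))) * Sup P Q n L r₀) (by
      intro t ht
      refine le_trans (measure_mono ?_) (key U hr₀ hr₁ hc hL hε0 hε1 hn hκ hr hs (hE ht) hδ hδr
        (hδp t ht) hbig)
      exact inter_subset_inter_left _ hE)
  refine h1.trans ?_
  rw [← mul_assoc, ← ENNReal.ofReal_mul (by positivity)]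
  apply mul_le_mul_left
  apply ENNReal.ofReal_le_ofReal
  have hcount : 4 * W / (ρ / 32) + 1 ≤ 256 / ε + 1 := by
    have h2 : 4 * W / (ρ / 32) = 128 * (W / ρ) := by ring
    rw [h2]
    have h3 : W / ρ ≤ 2 / ε := by
      rw [div_le_div_iff₀ hρ0 hε0]
      rcases min_choice (ε * δ) r with hcase | hcase
      · rw [hρ, hcase]; nlinarith
      · rw [hρ, hcase]; nlinarith
    have h4 : 256 / ε = 128 * (2 / ε) := by ring
    rw [h4]; linarith
  have hb : 0 < n * (c * δ ^ k) := by linarith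
  unfold C1
  have hc0 : 0 ≤ 4 * W / (ρ / 32) + 1 := by positivity
  have h5 : (4 * W / (ρ / 32) + 1) * (4 * W / (ρ / 32) + 1) ≤ (256 / ε + 1) ^ 2 := by
    rw [← pow_two]; exact pow_le_pow_left₀ hc0 hcount 2
  calc _ ≤ (256 / ε + 1) ^ 2 * (4 * (169 * (4 * L / r₀ + 1) * (1 + 1 / r₀)) *
        (1 / (n * (c * δ ^ k)) ^ 2 + δ / (n * (c * δ ^ k)))) :=
        mul_le_mul_of_nonneg_right h5 (by positivity)
    _ = _ := by ring

/-- the inequality for one slow curve -/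
theorem ineq {κ L : ℝ} {k : ℕ} {ε r₀ c : ℝ} (U : Unif P Q κ L k ε r₀ c) (hk : 1 ≤ k)
    (hr₀ : 0 < r₀) (hr₁ : r₀ ≤ 1) (hc : 0 < c) (hL : 0 ≤ L)
    (hε0 : 0 < ε) (hε1 : ε ≤ 1) {n : ℕ} (hn : 1 ≤ n) (hκ : 2 * L ≤ κ * n) {K δ₀ : ℝ} (hK : 4 ≤ K)
    (hδ₀ : 0 < δ₀) (hδ₀r : δ₀ ≤ r₀) (hδK : n * (c * δ₀ ^ k) = K) {s : ℂ → ℂ} {x : ℂ}
    {r : ℝ} (hr : 0 < r) (hrr : r ≤ r₀) (hs : Slow s x r) :
    volume (NS P Q n L s x r) ≤ ENNReal.ofReal (Real.pi * δ₀ ^ 2) +
      ENNReal.ofReal (C1 ε L r₀ * (6 / K)) * Sup P Q n L r₀ := by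
  have hn0 : (0:ℝ) < n := by exact_mod_cast hn
  have hC := C1_pos hε0 hL hr₀
  have hK0 : 0 < K := by linarith
  -- the scale `r₀`
  have hbr : K ≤ n * (c * r₀ ^ k) := by
    rw [← hδK]
    apply mul_le_mul_of_nonneg_left _ hn0.le
    exact mul_le_mul_of_nonneg_left (pow_le_pow_left₀ hδ₀.le hδ₀r k) hc.le
  have hlast : ∀ E ⊆ NS P Q n L s x r, (∀ t ∈ E, ∀ p ∈ Cr P Q κ L, r₀ ≤ ‖t - p‖) →
      volume E ≤ ENNReal.ofReal (C1 ε L r₀ * (2 / K)) * Sup P Q n L r₀ := by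
    intro E hE hEp
    refine (piece U hr₀ hr₁ hc hL hε0 hε1 hn hκ hr hs hE hr₀ le_rfl hEp (by linarith) (q := x)
      (W := r) hr.le (by linarith) le_rfl (by
        intro t ht
        have := (hE ht).1
        rw [mem_ball, dist_eq_norm] at this
        exact this.le)).trans ?_
    apply mul_le_mul_left
    apply ENNReal.ofReal_le_ofReal
    apply mul_le_mul_of_nonneg_left _ hC.le
    set b := n * (c * r₀ ^ k) with hb
    have hb0 : 0 < b := by linarith
    have h1 : 1 / b ^ 2 ≤ 1 / K := by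
      apply one_div_le_one_div_of_le hK0
      nlinarith
    have h2 : r₀ / b ≤ 1 / K := div_le_div₀ (by norm_num) hr₁ hK0 hbr
    have h3 : 2 / K = 1 / K + 1 / K := by ring
    rw [h3]; exact add_le_add h1 h2
  by_cases hp : ∃ p ∈ Cr P Q κ L, ‖x - p‖ ≤ 2 * r₀
  swap
  · push Not at hp
    refine (hlast _ Subset.rfl ?_).trans ?_
    · intro t ht p hpC
      have h1 := hp p hpC
      have h2 := ht.1
      rw [mem_ball, dist_eq_norm] at h2
      have h3 : ‖x - p‖ ≤ ‖t - x‖ + ‖t - p‖ := by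
        calc ‖x - p‖ = ‖(t - p) - (t - x)‖ := by congr 1; ring
          _ ≤ _ := norm_sub_le _ _
          _ = _ := add_comm _ _
      linarith
    · refine le_trans ?_ le_add_self
      apply mul_le_mul_left
      apply ENNReal.ofReal_le_ofReal
      apply mul_le_mul_of_nonneg_left _ hC.le
      exact div_le_div_of_nonneg_right (by norm_num) hK0.le
  obtain ⟨p, hpC, hpx⟩ := hp
  have hother : ∀ t ∈ NS P Q n L s x r, ∀ q ∈ Cr P Q κ L, q ≠ p → r₀ ≤ ‖t - q‖ := by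
    intro t ht q hq hqp
    by_contra hcon
    push Not at hcon
    apply hqp
    have h2 := ht.1
    rw [mem_ball, dist_eq_norm] at h2
    refine U.sep x q hq p hpC ?_ hpx
    calc ‖x - q‖ = ‖(t - q) - (t - x)‖ := by congr 1; ring
      _ ≤ _ := norm_sub_le _ _
      _ ≤ 2 * r₀ := by linarith
  -- the number of scales
  have hex : ∃ I : ℕ, r₀ ≤ δ₀ * 2 ^ I := by
    obtain ⟨I, hI⟩ := pow_unbounded_of_one_lt (r₀ / δ₀) (show (1:ℝ) < 2 by norm_num)
    refine ⟨I, ?_⟩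
    rw [div_lt_iff₀ hδ₀] at hI
    linarith
  classical
  set I := Nat.find hex with hI
  have hI1 : r₀ ≤ δ₀ * 2 ^ I := Nat.find_spec hex
  have hI2 : ∀ i < I, δ₀ * 2 ^ i < r₀ := fun i hi => by
    have := Nat.find_min hex hi
    push Not at this
    exact this
  set Ei : ℕ → Set ℂ := fun i => {t | t ∈ NS P Q n L s x r ∧ δ₀ * 2 ^ i ≤ ‖t - p‖ ∧
    ‖t - p‖ ≤ 2 * (δ₀ * 2 ^ i)} with hEi
  set Ef : Set ℂ := {t | t ∈ NS P Q n L s x r ∧ r₀ ≤ ‖t - p‖} with hEinf
  have hcov : NS P Q n L s x r ⊆ ball p δ₀ ∪ ((⋃ i ∈ Finset.range I, Ei i) ∪ Ef) := by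
    intro t ht
    by_cases h1 : ‖t - p‖ < δ₀
    · left; rw [mem_ball, dist_eq_norm]; exact h1
    right
    by_cases h2 : r₀ ≤ ‖t - p‖
    · right; exact ⟨ht, h2⟩
    left
    push Not at h1 h2
    have hex2 : ∃ j : ℕ, ‖t - p‖ < δ₀ * 2 ^ j := ⟨I, h2.trans_le hI1⟩
    set j := Nat.find hex2 with hj
    have hj1 : ‖t - p‖ < δ₀ * 2 ^ j := Nat.find_spec hex2
    have hjI : j ≤ I := Nat.find_min' hex2 (h2.trans_le hI1)
    have hj0 : j ≠ 0 := by
      intro h0
      rw [h0, pow_zero, mul_one] at hj1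
      linarith
    obtain ⟨i, hi⟩ : ∃ i, j = i + 1 := ⟨j - 1, by omega⟩
    have hi2 : ¬ ‖t - p‖ < δ₀ * 2 ^ i := Nat.find_min hex2 (by omega)
    push Not at hi2
    simp only [mem_iUnion]
    refine ⟨i, Finset.mem_range.2 (by omega), ht, hi2, ?_⟩
    rw [hi, pow_succ] at hj1
    linarith
  -- the pieces
  have hpow : ∀ i : ℕ, K * 2 ^ i ≤ n * (c * (δ₀ * 2 ^ i) ^ k) := by
    intro i
    rw [mul_pow]
    have h1 : (2:ℝ) ^ i ≤ (2 ^ i) ^ k := by
      calc (2:ℝ) ^ i = (2 ^ i) ^ 1 := (pow_one _).symm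
        _ ≤ _ := pow_le_pow_right₀ (one_le_pow₀ (by norm_num)) hk
    calc K * 2 ^ i = (n * (c * δ₀ ^ k)) * 2 ^ i := by rw [hδK]
      _ ≤ (n * (c * δ₀ ^ k)) * (2 ^ i) ^ k := by
          apply mul_le_mul_of_nonneg_left h1
          rw [hδK]; exact hK0.le
      _ = _ := by ring
  have hvi : ∀ i ∈ Finset.range I, volume (Ei i) ≤
      ENNReal.ofReal (C1 ε L r₀ * (1 / K * (1 / 2) ^ i + δ₀ * 2 ^ i / K)) * Sup P Q n L r₀ := by
    intro i hi
    have hiI := Finset.mem_range.1 hi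
    have hδi : δ₀ * 2 ^ i < r₀ := hI2 i hiI
    set δ := δ₀ * 2 ^ i with hδ
    have hδ0 : 0 < δ := by positivity
    have h2i : (1:ℝ) ≤ 2 ^ i := one_le_pow₀ (by norm_num)
    have hb1 : K * 2 ^ i ≤ n * (c * δ ^ k) := hpow i
    have hbK : K ≤ n * (c * δ ^ k) := le_trans (by nlinarith) hb1
    have hsub : Ei i ⊆ NS P Q n L s x r := fun t ht => ht.1
    have hdist : ∀ t ∈ Ei i, ∀ q ∈ Cr P Q κ L, δ ≤ ‖t - q‖ := by
      intro t ht q hq
      by_cases hqp : q = p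
      · rw [hqp]; exact ht.2.1
      · exact hδi.le.trans (hother t ht.1 q hq hqp)
    have hmain : volume (Ei i) ≤ ENNReal.ofReal (C1 ε L r₀ *
        (1 / (n * (c * δ ^ k)) ^ 2 + δ / (n * (c * δ ^ k)))) * Sup P Q n L r₀ := by
      rcases le_total (2 * δ) r with hcase | hcase
      · exact piece U hr₀ hr₁ hc hL hε0 hε1 hn hκ hr hs hsub hδ0 hδi.le hdist (by linarith)
          (q := p) (W := 2 * δ) (by positivity) le_rfl hcase (fun t ht => ht.2.2)
      · exact piece U hr₀ hr₁ hc hL hε0 hε1 hn hκ hr hs hsub hδ0 hδi.le hdist (by linarith)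
          (q := x) (W := r) hr.le hcase le_rfl (fun t ht => by
            have := ht.1.1
            rw [mem_ball, dist_eq_norm] at this
            exact this.le)
    refine hmain.trans ?_
    apply mul_le_mul_left
    apply ENNReal.ofReal_le_ofReal
    apply mul_le_mul_of_nonneg_left _ hC.le
    set b := n * (c * δ ^ k) with hb
    have hb0 : 0 < b := by linarith
    have h1 : 1 / b ^ 2 ≤ 1 / K * (1 / 2) ^ i := by
      rw [one_div_pow, one_div_mul_one_div]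
      apply one_div_le_one_div_of_le (by positivity)
      have : 1 ≤ b := by linarith
      nlinarith
    have h2 : δ / b ≤ δ / K := div_le_div_of_nonneg_left hδ0.le hK0 hbK
    exact add_le_add h1 h2
  have hsum : ∑ i ∈ Finset.range I, volume (Ei i) ≤
      ENNReal.ofReal (C1 ε L r₀ * (4 / K)) * Sup P Q n L r₀ := by
    calc ∑ i ∈ Finset.range I, volume (Ei i) ≤ ∑ i ∈ Finset.range I,
        ENNReal.ofReal (C1 ε L r₀ * (1 / K * (1 / 2) ^ i + δ₀ * 2 ^ i / K)) * Sup P Q n L r₀ :=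
          Finset.sum_le_sum hvi
      _ = ENNReal.ofReal (∑ i ∈ Finset.range I,
          C1 ε L r₀ * (1 / K * (1 / 2) ^ i + δ₀ * 2 ^ i / K)) * Sup P Q n L r₀ := by
          rw [ENNReal.ofReal_sum_of_nonneg, Finset.sum_mul]
          intro i _
          positivity
      _ ≤ _ := by
          apply mul_le_mul_left
          apply ENNReal.ofReal_le_ofReal
          rw [← Finset.mul_sum]
          apply mul_le_mul_of_nonneg_left _ hC.le
          rw [Finset.sum_add_distrib, ← Finset.mul_sum, ← Finset.sum_div, ← Finset.mul_sum]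
          have h1 : ∑ i ∈ Finset.range I, (1 / 2 : ℝ) ^ i ≤ 2 := by
            have : ∀ I : ℕ, ∑ i ∈ Finset.range I, (1 / 2 : ℝ) ^ i = 2 - 2 * (1 / 2) ^ I := by
              intro I
              induction I with
              | zero => simp
              | succ I ih => rw [Finset.sum_range_succ, ih, pow_succ]; ring
            rw [this]
            have : (0:ℝ) ≤ (1 / 2) ^ I := by positivity
            linarith
          have h2 : δ₀ * ∑ i ∈ Finset.range I, (2:ℝ) ^ i ≤ 2 := by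
            have e : ∀ I : ℕ, ∑ i ∈ Finset.range I, (2:ℝ) ^ i = 2 ^ I - 1 := by
              intro I
              induction I with
              | zero => simp
              | succ I ih => rw [Finset.sum_range_succ, ih, pow_succ]; ring
            rw [e]
            rcases Nat.eq_zero_or_pos I with h0 | h0
            · rw [h0]; simp
            · obtain ⟨i, hi⟩ : ∃ i, I = i + 1 := ⟨I - 1, by omega⟩
              have h3 := hI2 i (by omega)
              rw [hi, pow_succ]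
              nlinarith
          have h3 : 1 / K * ∑ i ∈ Finset.range I, (1 / 2 : ℝ) ^ i ≤ 1 / K * 2 :=
            mul_le_mul_of_nonneg_left h1 (by positivity)
          have h4 : δ₀ * ∑ i ∈ Finset.range I, (2:ℝ) ^ i / K ≤ 2 / K := by
            rw [← Finset.sum_div, ← mul_div_assoc]
            exact div_le_div_of_nonneg_right h2 hK0.le
          have h5 : (4:ℝ) / K = 1 / K * 2 + 2 / K := by ring
          rw [h5]
          refine add_le_add h3 ?_
          exact div_le_div_of_nonneg_right h2 hK0.le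
  have hf := hlast Ef (fun t ht => ht.1) (by
    intro t ht q hq
    by_cases hqp : q = p
    · rw [hqp]; exact ht.2
    · exact hother t ht.1 q hq hqp)
  have hdeep : volume (ball p δ₀) = ENNReal.ofReal (Real.pi * δ₀ ^ 2) := by
    rw [Complex.volume_ball, mul_comm Real.pi, ENNReal.ofReal_mul (by positivity),
      ENNReal.ofReal_pow hδ₀.le]
    congr 1
    rw [← NNReal.coe_real_pi, ENNReal.ofReal_coe_nnreal]
  calc volume (NS P Q n L s x r) ≤ volume (ball p δ₀ ∪ ((⋃ i ∈ Finset.range I, Ei i) ∪ Ef)) :=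
        measure_mono hcov
    _ ≤ volume (ball p δ₀) + (volume (⋃ i ∈ Finset.range I, Ei i) + volume Ef) :=
        (measure_union_le _ _).trans (add_le_add le_rfl (measure_union_le _ _))
    _ ≤ volume (ball p δ₀) + (∑ i ∈ Finset.range I, volume (Ei i) + volume Ef) := by
        gcongr
        exact measure_biUnion_finset_le _ _
    _ ≤ ENNReal.ofReal (Real.pi * δ₀ ^ 2) + (ENNReal.ofReal (C1 ε L r₀ * (4 / K)) *
        Sup P Q n L r₀ + ENNReal.ofReal (C1 ε L r₀ * (2 / K)) * Sup P Q n L r₀) := by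
        rw [hdeep]
        exact add_le_add le_rfl (add_le_add hsum hf)
    _ = _ := by
        rw [← add_mul, ← ENNReal.ofReal_add (by positivity) (by positivity)]
        congr 3
        ring

/-- the bound of the supremum -/
theorem Sup_le {κ L : ℝ} {k : ℕ} {ε r₀ c : ℝ} (U : Unif P Q κ L k ε r₀ c) (hk : 1 ≤ k)
    (hr₀ : 0 < r₀) (hr₁ : r₀ ≤ 1) (hc : 0 < c) (hL : 0 ≤ L) (hκ0 : 0 < κ)
    (hε0 : 0 < ε) (hε1 : ε ≤ 1) : ∃ (C : ℝ) (n₀ : ℕ), 0 < C ∧ ∀ n : ℕ, n₀ ≤ n →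
      Sup P Q n L r₀ ≤ ENNReal.ofReal (C * (n:ℝ) ^ (-(2 / (k:ℝ)))) := by
  have hC := C1_pos hε0 hL hr₀
  set K := max 4 (12 * C1 ε L r₀) with hKd
  have hK4 : 4 ≤ K := le_max_left _ _
  have hKC : 12 * C1 ε L r₀ ≤ K := le_max_right _ _
  have hK0 : 0 < K := by linarith
  have hk0 : (0:ℝ) < k := by exact_mod_cast hk
  obtain ⟨n₁, hn₁⟩ := exists_nat_ge (K / (c * r₀ ^ k))
  obtain ⟨n₂, hn₂⟩ := exists_nat_ge (2 * L / κ)
  refine ⟨2 * Real.pi * (K / c) ^ (2 / (k:ℝ)), max 1 (max n₁ n₂), by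
    have := Real.pi_pos; positivity, ?_⟩
  intro n hn
  have hn1 : 1 ≤ n := (le_max_left _ _).trans hn
  have hnn1 : n₁ ≤ n := ((le_max_left _ _).trans (le_max_right _ _)).trans hn
  have hnn2 : n₂ ≤ n := ((le_max_right _ _).trans (le_max_right _ _)).trans hn
  have hn0 : (0:ℝ) < n := by exact_mod_cast hn1
  have h1 : K ≤ n * (c * r₀ ^ k) := by
    have : K / (c * r₀ ^ k) ≤ n := hn₁.trans (by exact_mod_cast hnn1)
    rwa [div_le_iff₀ (by positivity)] at this
  have h2 : 2 * L ≤ κ * n := by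
    have : 2 * L / κ ≤ n := hn₂.trans (by exact_mod_cast hnn2)
    rw [div_le_iff₀ hκ0] at this
    linarith
  set δ₀ : ℝ := (K / (n * c)) ^ (1 / (k:ℝ)) with hδ₀
  have hδ₀0 : 0 < δ₀ := Real.rpow_pos_of_pos (by positivity) _
  have hδk : δ₀ ^ k = K / (n * c) := by
    rw [hδ₀, ← Real.rpow_natCast, ← Real.rpow_mul (by positivity), one_div_mul_cancel hk0.ne',
      Real.rpow_one]
  have hδK : n * (c * δ₀ ^ k) = K := by
    rw [hδk]; field_simp
  have hδr : δ₀ ≤ r₀ := by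
    by_contra hcon
    push Not at hcon
    have h3 : r₀ ^ k < δ₀ ^ k := pow_lt_pow_left₀ hcon hr₀.le (by omega)
    have h4 : n * (c * r₀ ^ k) < n * (c * δ₀ ^ k) :=
      mul_lt_mul_of_pos_left (mul_lt_mul_of_pos_left h3 hc) hn0
    rw [hδK] at h4
    linarith
  have hineq : Sup P Q n L r₀ ≤ ENNReal.ofReal (Real.pi * δ₀ ^ 2) +
      ENNReal.ofReal (1 / 2) * Sup P Q n L r₀ := by
    conv_lhs => unfold Sup
    refine iSup_le fun x => iSup_le fun r => iSup_le fun s => iSup_le fun h => ?_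
    refine (ineq U hk hr₀ hr₁ hc hL hε0 hε1 hn1 h2 hK4 hδ₀0 hδr hδK h.1 h.2.1 h.2.2).trans ?_
    gcongr
    rw [mul_div_assoc', div_le_div_iff₀ hK0 (by norm_num)]
    linarith
  have hfin := Sup_ne_top (P := P) (Q := Q) n L r₀
  set A := Sup P Q n L r₀ with hA
  have h3 : A ≤ ENNReal.ofReal (2 * (Real.pi * δ₀ ^ 2)) := by
    rw [← ENNReal.ofReal_toReal hfin] at hineq ⊢
    rw [← ENNReal.ofReal_mul (by norm_num), ← ENNReal.ofReal_add (by have := Real.pi_pos; positivity)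
      (by positivity)] at hineq
    have hpi := Real.pi_pos
    rw [ENNReal.ofReal_le_ofReal_iff (by positivity)] at hineq
    apply ENNReal.ofReal_le_ofReal
    linarith
  refine h3.trans (ENNReal.ofReal_le_ofReal (le_of_eq ?_))
  have h4 : δ₀ ^ 2 = (K / c) ^ (2 / (k:ℝ)) * (n:ℝ) ^ (-(2 / (k:ℝ))) := by
    rw [hδ₀, ← Real.rpow_natCast, ← Real.rpow_mul (by positivity)]
    have e1 : K / (n * c) = (K / c) * (n:ℝ)⁻¹ := by field_simp
    have e2 : 1 / (k:ℝ) * ((2:ℕ):ℝ) = 2 / k := by push_cast; ring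
    rw [e2, e1, Real.mul_rpow (by positivity) (by positivity), Real.rpow_neg hn0.le,
      Real.inv_rpow hn0.le]
  rw [h4]; ring

end Pool.Agent.Q79.PW
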