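import Mathlib
import Pool.Agent.TH433.MC7
import Pool.Agent.Q79.PowD

set_option autoImplicit false

open Set Filter Topology
open scoped OnePoint

namespace Pool.Agent.Q79.PW

open Pool.Agent.H462R2.AP Pool.Agent.H762R2.Rt Pool.Agent.Helper114.Herman
  Pool.Agent.Helper114.Konig

/-- The discs around `0` and `∞` sink. -/
theorem trap2 {P Q : Polynomial ℂ} {D : ℕ} (hD : D = max P.natDegree Q.natDegree)
    (hD1 : 1 ≤ D) {M : ℝ} (hM : 1 ≤ M)
    (hPM : ∀ k, ‖P.coeff k‖ ≤ M) (hQM : ∀ k, ‖Q.coeff k‖ ≤ M)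
    (h0 : M⁻¹ ≤ ‖P.coeff 0‖ ∨ M⁻¹ ≤ ‖Q.coeff 0‖)
    (hinf : M⁻¹ ≤ ‖P.coeff D‖ ∨ M⁻¹ ≤ ‖Q.coeff D‖)
    {s : ℂ} (hs1 : M⁻¹ ≤ ‖s‖) (hs2 : ‖s‖ ≤ M) {n : ℕ} (hn : 2 ≤ n) {w : ℝ} (hw : 0 < w)
    (c1 : ((D : ℝ) + 1) * D * (M * M) * Real.exp (-(n * w)) ≤ (M * M)⁻¹ / 2)
    (c2 : 2 * (((D : ℝ) + 1) * D * (M * M) * Real.exp (-(n * w))) <
      (M * M)⁻¹ * (Real.exp (-w) * (1 - Real.exp (-w))))
    (c3 : 2 * (((D : ℝ) + 1) * (M * M)) * (((D : ℝ) + 1) * D * (M * M)) * (4 / (M * M)⁻¹ ^ 2) *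
      (n * Real.exp (-((n - 1 : ℝ) * w))) ≤ 1 / 2)
    (f0 : Far w s (P.coeff 0) (Q.coeff 0)) (finf : Far w s (P.coeff D) (Q.coeff D))
    {f : OnePoint ℂ → OnePoint ℂ}
    (hf : IsRat f (Polynomial.C s * Polynomial.expand ℂ n P) (Polynomial.expand ℂ n Q)) :
    ∀ i x, ‖x‖ ≤ Real.exp (-w) → Sinks f (ch i x) := by
  have hM0 : 0 < M := by linarith
  have hs0 : s ≠ 0 := by
    intro h
    rw [h, norm_zero] at hs1
    have := inv_pos.2 hM0
    linarith
  have hn0 : 0 < n := by omega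
  have hPd : P.natDegree ≤ D := hD ▸ le_max_left _ _
  have hQd : Q.natDegree ≤ D := hD ▸ le_max_right _ _
  have hdeg : D * n = max (Polynomial.C s * Polynomial.expand ℂ n P).natDegree
      (Polynomial.expand ℂ n Q).natDegree := by
    rw [Polynomial.natDegree_C_mul hs0, Polynomial.natDegree_expand, Polynomial.natDegree_expand,
      hD, max_mul_of_nonneg _ _ (Nat.zero_le n)]
  have hDn : 0 < D * n := Nat.mul_pos hD1 hn0
  -- the two charts
  let ψ : Bool → ℂ → OnePoint ℂ := ch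
  let a : Bool → ℕ → ℂ := fun i k => if i then s * P.coeff (D - k) else s * P.coeff k
  let b : Bool → ℕ → ℂ := fun i k => if i then Q.coeff (D - k) else Q.coeff k
  have hQexp : ∀ u v : ℂ, (v ≠ 0 ∨ u = 1 ∧ v = 0) →
      hom (Polynomial.expand ℂ n Q) (D * n) u v = hom Q D (u ^ n) (v ^ n) := by
    intro u v huv
    have := hom_expand hn0 hQd 1 u v huv
    rwa [Polynomial.C_1, one_mul, one_mul] at this
  have hfψ : ∀ i x, f (ψ i x) = pr (pol (a i) D (x ^ n)) (pol (b i) D (x ^ n)) := by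
    intro i x
    cases i
    · have e1 : ψ false x = pr x 1 := by simp [ψ, ch, pr_one]
      rw [e1, rat_formula hf hdeg hDn (Or.inr one_ne_zero),
        hom_expand hn0 hPd s x 1 (Or.inl one_ne_zero), hQexp x 1 (Or.inl one_ne_zero), one_pow,
        hom_one_right, hom_one_right, pol_smul]
      simp [a, b]
    · have e1 : ψ true x = pr 1 x := by
        simp only [ψ, ch, if_true]
        rw [← pr_one x, sinv_pr (Or.inr one_ne_zero)]
      have hx : x ≠ 0 ∨ (1 : ℂ) = 1 ∧ x = 0 := by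
        by_cases h : x = 0
        · exact Or.inr ⟨rfl, h⟩
        · exact Or.inl h
      rw [e1, rat_formula hf hdeg hDn (Or.inl one_ne_zero),
        hom_expand hn0 hPd s 1 x hx, hQexp 1 x hx, one_pow,
        hom_one_left, hom_one_left, pol_smul]
      simp [a, b]
  have haM : ∀ i k, ‖a i k‖ ≤ M * M := by
    intro i k
    cases i
    · simp only [a, Bool.false_eq_true, if_false, norm_mul]
      exact mul_le_mul hs2 (hPM _) (norm_nonneg _) hM0.le
    · simp only [a, if_true, norm_mul]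
      exact mul_le_mul hs2 (hPM _) (norm_nonneg _) hM0.le
  have hbM : ∀ i k, ‖b i k‖ ≤ M * M := by
    have hMM : M ≤ M * M := by nlinarith
    intro i k
    cases i
    · simp only [b, Bool.false_eq_true, if_false]
      exact (hQM _).trans hMM
    · simp only [b, if_true]
      exact (hQM _).trans hMM
  have hexp2 : Real.exp (-2 * w) ≤ 1 := by rw [Real.exp_le_one_iff]; linarith
  have hfar : ∀ i, ‖a i 0‖ ≤ Real.exp (-2 * w) * ‖b i 0‖ ∨
      ‖b i 0‖ ≤ Real.exp (-2 * w) * ‖a i 0‖ := by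
    intro i
    cases i
    · simp only [a, b, Bool.false_eq_true, if_false]
      exact f0
    · simp only [a, b, if_true, Nat.sub_zero]
      exact finf
  have hMinv : (M * M)⁻¹ ≤ M⁻¹ := by
    apply inv_anti₀ hM0; nlinarith
  have hlow : ∀ p : ℂ, M⁻¹ ≤ ‖p‖ → (M * M)⁻¹ ≤ ‖s * p‖ := by
    intro p hp
    rw [norm_mul, mul_inv]
    exact mul_le_mul hs1 hp (inv_nonneg.2 hM0.le) (norm_nonneg _)
  have hbig : ∀ i, (M * M)⁻¹ ≤ ‖a i 0‖ ∨ (M * M)⁻¹ ≤ ‖b i 0‖ := by
    intro i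
    cases i
    · simp only [a, b, Bool.false_eq_true, if_false]
      rcases h0 with h | h
      · exact Or.inl (hlow _ h)
      · exact Or.inr (hMinv.trans h)
    · simp only [a, b, if_true, Nat.sub_zero]
      rcases hinf with h | h
      · exact Or.inl (hlow _ h)
      · exact Or.inr (hMinv.trans h)
  have hμ : 0 < (M * M)⁻¹ := by positivity
  set r := Real.exp (-w) with hr
  have hr0 : 0 < r := Real.exp_pos _
  let σ : Bool → Bool := fun i => decide ¬(‖a i 0‖ ≤ Real.exp (-2 * w) * ‖b i 0‖)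
  let h : Bool → ℂ → ℂ := fun i x =>
    if ‖a i 0‖ ≤ Real.exp (-2 * w) * ‖b i 0‖ then pol (a i) D (x ^ n) / pol (b i) D (x ^ n)
    else pol (b i) D (x ^ n) / pol (a i) D (x ^ n)
  have key : ∀ i, (∀ x, ‖x‖ ≤ r → f (ψ i x) = ψ (σ i) (h i x)) ∧
      (∀ x, ‖x‖ ≤ r → ‖h i x‖ < r) ∧
      (∀ x y, ‖x‖ ≤ r → ‖y‖ ≤ r → ‖h i x - h i y‖ ≤ (1 / 2) * ‖x - y‖) := by
    intro i
    by_cases hi : ‖a i 0‖ ≤ Real.exp (-2 * w) * ‖b i 0‖
    · have hb0 : (M * M)⁻¹ ≤ ‖b i 0‖ := by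
        rcases hbig i with h1 | h1
        · have : ‖a i 0‖ ≤ ‖b i 0‖ := hi.trans (by nlinarith [norm_nonneg (b i 0)])
          linarith
        · exact h1
      obtain ⟨k1, k2, k3⟩ := chart_map hμ (haM i) (hbM i) hb0 (by omega) hw hi c1 c2 c3
      have hσ : σ i = false := by simp only [σ, hi, not_true_eq_false, decide_false]
      have hh : ∀ x, h i x = pol (a i) D (x ^ n) / pol (b i) D (x ^ n) := by
        intro x; simp only [h, if_pos hi]
      refine ⟨?_, ?_, ?_⟩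
      · intro x hx
        rw [hfψ, hσ, hh, pr_ne (k1 x hx)]
        simp [ψ, ch]
      · intro x hx; rw [hh]; exact k2 x hx
      · intro x y hx hy; rw [hh, hh]; exact k3 x y hx hy
    · have hi' : ‖b i 0‖ ≤ Real.exp (-2 * w) * ‖a i 0‖ := (hfar i).resolve_left hi
      have ha0 : (M * M)⁻¹ ≤ ‖a i 0‖ := by
        rcases hbig i with h1 | h1
        · exact h1
        · have : ‖b i 0‖ ≤ ‖a i 0‖ := hi'.trans (by nlinarith [norm_nonneg (a i 0)])
          linarith
      obtain ⟨k1, k2, k3⟩ := chart_map hμ (hbM i) (haM i) ha0 (by omega) hw hi' c1 c2 c3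
      have hσ : σ i = true := by simp only [σ, hi, not_false_eq_true, decide_true]
      have hh : ∀ x, h i x = pol (b i) D (x ^ n) / pol (a i) D (x ^ n) := by
        intro x; simp only [h, if_neg hi]
      refine ⟨?_, ?_, ?_⟩
      · intro x hx
        rw [hfψ, hσ, hh]
        simp only [ψ, ch, if_true]
        rw [← pr_ne (k1 x hx), sinv_pr (Or.inr (k1 x hx))]
      · intro x hx; rw [hh]; exact k2 x hx
      · intro x y hx hy; rw [hh, hh]; exact k3 x y hx hy
  have hgo : ∀ c : OnePoint ℂ, ∀ i x, ‖x‖ ≤ r → f c = ψ i x → Sinks f c := by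
    intro c i x hx hfc
    exact two_charts hr0 continuous_ch isOpenMap_ch (fun i x hx => (key i).1 x hx)
      (fun i x hx => (key i).2.1 x hx)
      (fun i x y hx hy => (key i).2.2 x y hx hy) hx hfc
  intro i x hx
  exact hgo _ (σ i) (h i x) ((key i).2.1 x hx).le ((key i).1 x hx)

/-- orbits which leave the annulus sink -/
theorem orb_sinks {P Q : Polynomial ℂ} {s : ℂ} {n : ℕ} {L w : ℝ}
    {f : OnePoint ℂ → OnePoint ℂ}
    (hf : IsRat f (Polynomial.C s * Polynomial.expand ℂ n P) (Polynomial.expand ℂ n Q))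
    (hinf : Sinks f ∞) (hfin : ∀ z : ℂ, f (z : OnePoint ℂ) = pr (s * P.eval (z ^ n)) (Q.eval (z ^ n)))
    (hgood : ∀ X : ℂ, (‖X‖ < Real.exp (-L) ∨ Real.exp L < ‖X‖) →
      Sinks f (pr (s * P.eval X) (Q.eval X))) :
    ∀ (j : ℕ) (z : ℂ), ¬ (Real.exp (-L) ≤ ‖(step P Q n (s ^ n))^[j] (z ^ n)‖ ∧
      ‖(step P Q n (s ^ n))^[j] (z ^ n)‖ ≤ Real.exp L) → Sinks f (z : OnePoint ℂ) := by
  intro j
  induction j with
  | zero =>
    intro z hz
    rw [not_and_or, not_le, not_le] at hz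
    apply sinks_of_image hf.cont
    rw [hfin]
    exact hgood _ hz
  | succ j ih =>
    intro z hz
    apply sinks_of_image hf.cont
    rw [hfin]
    by_cases hq : Q.eval (z ^ n) = 0
    · rw [hq, pr_zero]; exact hinf
    · rw [pr_ne hq]
      apply ih
      rw [Function.iterate_succ_apply] at hz
      have e : (s * P.eval (z ^ n) / Q.eval (z ^ n)) ^ n = step P Q n (s ^ n) (z ^ n) := by
        unfold step
        rw [mul_div_assoc, mul_pow]
      rw [e]; exact hz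

end Pool.Agent.Q79.PW
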