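import Mathlib
import Pool.Agent.TH433.MC4
import Pool.Agent.Q79.PowE

set_option autoImplicit false

open Set Filter Topology
open scoped OnePoint

namespace Pool.Agent.Q79.PW

open Pool.Agent.H462R2.AP Pool.Agent.H762R2.Rt Pool.Agent.Helper114.Herman
  Pool.Agent.Helper114.Konig Pool.Agent.TH433.MC

theorem wro_smul' (P Q : Polynomial ℂ) (s : ℂ) :
    wro (Polynomial.C s * P) Q = Polynomial.C s * wro P Q := by
  unfold wro
  rw [Polynomial.derivative_C_mul]
  ring

/-- the conditions on the trap for large `n` -/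
theorem conds (D : ℕ) {M w : ℝ} (hM : 1 ≤ M) (hw : 0 < w) : ∀ᶠ n : ℕ in atTop,
    ((D : ℝ) + 1) * D * (M * M) * Real.exp (-(n * w)) ≤ (M * M)⁻¹ / 2 ∧
    2 * (((D : ℝ) + 1) * D * (M * M) * Real.exp (-(n * w))) <
      (M * M)⁻¹ * (Real.exp (-w) * (1 - Real.exp (-w))) ∧
    2 * (((D : ℝ) + 1) * (M * M)) * (((D : ℝ) + 1) * D * (M * M)) * (4 / (M * M)⁻¹ ^ 2) *
      (n * Real.exp (-((n - 1 : ℝ) * w))) ≤ 1 / 2 := by
  have hM0 : 0 < M := by linarith
  have hnw : Tendsto (fun n : ℕ => (n:ℝ) * w) atTop atTop :=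
    tendsto_natCast_atTop_atTop.atTop_mul_const hw
  have h1 : Tendsto (fun n : ℕ => Real.exp (-(n * w))) atTop (𝓝 0) :=
    Real.tendsto_exp_neg_atTop_nhds_zero.comp hnw
  have h2 : Tendsto (fun n : ℕ => (n:ℝ) * Real.exp (-((n - 1 : ℝ) * w))) atTop (𝓝 0) := by
    have h3 := (Real.tendsto_pow_mul_exp_neg_atTop_nhds_zero 1).comp hnw
    have h4 := h3.const_mul (Real.exp w / w)
    rw [mul_zero] at h4
    refine h4.congr fun n => ?_
    simp only [Function.comp, pow_one]
    have e1 : -(((n:ℝ) - 1) * w) = w + -(n * w) := by ring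
    rw [e1, Real.exp_add]
    field_simp
  have hexp : Real.exp (-w) < 1 := by rw [Real.exp_lt_one_iff]; linarith
  have k1 := (h1.const_mul (((D : ℝ) + 1) * D * (M * M))).eventually_le_const
    (show ((D : ℝ) + 1) * D * (M * M) * 0 < (M * M)⁻¹ / 2 by rw [mul_zero]; positivity)
  have k2 := ((h1.const_mul (((D : ℝ) + 1) * D * (M * M))).const_mul 2).eventually_lt_const
    (show 2 * (((D : ℝ) + 1) * D * (M * M) * 0) <
      (M * M)⁻¹ * (Real.exp (-w) * (1 - Real.exp (-w))) by
      rw [mul_zero, mul_zero]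
      have : 0 < 1 - Real.exp (-w) := by linarith
      positivity)
  have k3 := (h2.const_mul (2 * (((D : ℝ) + 1) * (M * M)) * (((D : ℝ) + 1) * D * (M * M)) *
    (4 / (M * M)⁻¹ ^ 2))).eventually_le_const
    (show 2 * (((D : ℝ) + 1) * (M * M)) * (((D : ℝ) + 1) * D * (M * M)) *
      (4 / (M * M)⁻¹ ^ 2) * 0 < 1 / 2 by rw [mul_zero]; norm_num)
  filter_upwards [k1, k2, k3] with n a1 a2 a3
  exact ⟨a1, a2, a3⟩

theorem good_scale_s {e w η : ℝ} (he : 0 < e) (hη : 4 * w ≤ η) {s p q : ℂ}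
    (hs1 : e * Real.exp (-w) ≤ ‖s‖) (hs2 : ‖s‖ ≤ e * Real.exp w) (h : Good η ((e:ℂ) * p) q) :
    Good (3 * w) (s * p) q := by
  have hne : ‖(e:ℂ)‖ = e := by rw [Complex.norm_real, Real.norm_eq_abs, abs_of_pos he]
  unfold Good at *
  rw [norm_mul, hne] at h
  rw [norm_mul]
  have hη' : Real.exp (-η) ≤ Real.exp (-(4 * w)) := Real.exp_le_exp.2 (by linarith)
  rcases h with h | h
  · left
    calc ‖s‖ * ‖p‖ ≤ (e * Real.exp w) * ‖p‖ := mul_le_mul_of_nonneg_right hs2 (norm_nonneg _)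
      _ = Real.exp w * (e * ‖p‖) := by ring
      _ ≤ Real.exp w * (Real.exp (-(4 * w)) * ‖q‖) := by
          apply mul_le_mul_of_nonneg_left _ (Real.exp_pos _).le
          exact h.trans (mul_le_mul_of_nonneg_right hη' (norm_nonneg _))
      _ = Real.exp (-(3 * w)) * ‖q‖ := by
          rw [← mul_assoc, ← Real.exp_add]; congr 2; ring
  · right
    calc ‖q‖ ≤ Real.exp (-(4 * w)) * (e * ‖p‖) :=
          h.trans (mul_le_mul_of_nonneg_right hη' (by positivity))
      _ = Real.exp (-(3 * w)) * ((e * Real.exp (-w)) * ‖p‖) := by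
          have : Real.exp (-(4 * w)) = Real.exp (-(3 * w)) * Real.exp (-w) := by
            rw [← Real.exp_add]; congr 1; ring
          rw [this]; ring
      _ ≤ Real.exp (-(3 * w)) * (‖s‖ * ‖p‖) := by
          apply mul_le_mul_of_nonneg_left _ (Real.exp_pos _).le
          exact mul_le_mul_of_nonneg_right hs1 (norm_nonneg _)

theorem dyn {P Q : Polynomial ℂ} (hc : IsCoprime P Q) {D : ℕ}
    (hD : D = max P.natDegree Q.natDegree) (hD1 : 1 ≤ D) {e : ℝ} (he : 0 < e)
    (h0 : e * ‖P.coeff 0‖ ≠ ‖Q.coeff 0‖) (hDD : e * ‖P.coeff D‖ ≠ ‖Q.coeff D‖) :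
    ∃ (L κ κ₁ : ℝ) (n₁ : ℕ), 0 ≤ L ∧ 0 < κ ∧ 0 < κ₁ ∧ κ₁ ≤ e / 2 ∧
      (∀ y, (wro P Q).eval y = 0 → e * ‖P.eval y‖ ≤ Real.exp κ * ‖Q.eval y‖ →
        ‖Q.eval y‖ ≤ Real.exp κ * (e * ‖P.eval y‖) → e * ‖P.eval y‖ = ‖Q.eval y‖) ∧
      ∀ n : ℕ, n₁ ≤ n → ∀ s : ℂ, |‖s‖ - e| ≤ κ₁ →
        (∀ y, (wro P Q).eval y = 0 → e * ‖P.eval y‖ = ‖Q.eval y‖ →
          ¬ Non P Q n L (s ^ n) ((s * (P.eval y / Q.eval y)) ^ n)) →
        Hyp (Polynomial.C s * Polynomial.expand ℂ n P) (Polynomial.expand ℂ n Q) := by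
  have hne : ‖(e:ℂ)‖ = e := by rw [Complex.norm_real, Real.norm_eq_abs, abs_of_pos he]
  have hQ0 : Q ≠ 0 := by
    rintro rfl
    have h2 : IsUnit P := isCoprime_zero_right.1 hc
    have h3 : P.natDegree = 0 := Polynomial.natDegree_eq_zero_of_isUnit h2
    rw [h3] at hD
    simp at hD
    omega
  have hPd : P.natDegree ≤ D := hD ▸ le_max_left _ _
  have hQd : Q.natDegree ≤ D := hD ▸ le_max_right _ _
  set Pe := Polynomial.C (e:ℂ) * P with hPe
  have hev : ∀ u, Pe.eval u = (e:ℂ) * P.eval u := fun u => by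
    rw [hPe, Polynomial.eval_mul, Polynomial.eval_C]
  obtain ⟨ρ₁, η₁, hρ₁, hη₁, hg₁⟩ := good_near (P := Pe) (Q := Q) (by
    rw [hev, norm_mul, hne, ← Polynomial.coeff_zero_eq_eval_zero,
      ← Polynomial.coeff_zero_eq_eval_zero]
    exact h0)
  obtain ⟨ρ₂, η₂, hρ₂, hη₂, hg₂⟩ := good_far (P := Pe) (Q := Q) (D := D)
    ((Polynomial.natDegree_C_mul_le _ _).trans hPd) hQd (by
    rw [hPe, Polynomial.coeff_C_mul, norm_mul, hne]
    exact hDD)
  have hw := wro_ne_zero hc (hD ▸ hD1)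
  set W : Set ℂ := {y | (wro P Q).eval y = 0} with hW
  have hWfin : W.Finite := by
    refine (Multiset.toFinset (wro P Q).roots).finite_toSet.subset ?_
    intro y hy
    rw [Finset.mem_coe, Multiset.mem_toFinset, Polynomial.mem_roots hw]
    exact hy
  obtain ⟨η₃, hη₃, hg₃⟩ := good_of_finite
    (M := ({((e:ℂ) * P.coeff 0, Q.coeff 0), ((e:ℂ) * P.coeff D, Q.coeff D)} : Set (ℂ × ℂ)) ∪
      (fun y => ((e:ℂ) * P.eval y, Q.eval y)) '' {y ∈ W | e * ‖P.eval y‖ ≠ ‖Q.eval y‖})
    (((Set.finite_singleton _).insert _).union ((hWfin.subset fun x hx => hx.1).image _)) (by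
      rintro x (hx | ⟨y, hy, rfl⟩)
      · rcases hx with rfl | hx
        · simp only [norm_mul, hne]; exact h0
        · rw [Set.mem_singleton_iff] at hx
          subst hx
          simp only [norm_mul, hne]; exact hDD
      · simp only [norm_mul, hne]; exact hy.2)
  set η := min η₁ (min η₂ η₃) with hη
  have hη0 : 0 < η := lt_min hη₁ (lt_min hη₂ hη₃)
  have hηa : η ≤ η₁ := min_le_left _ _
  have hηb : η ≤ η₂ := (min_le_right _ _).trans (min_le_left _ _)
  have hηc : η ≤ η₃ := (min_le_right _ _).trans (min_le_right _ _)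
  set w₀ := η / 4 with hw₀
  have hw₀0 : 0 < w₀ := by positivity
  set L := |Real.log ρ₁| + |Real.log ρ₂| with hL
  have hL0 : 0 ≤ L := by positivity
  have hL1 : Real.exp (-L) ≤ ρ₁ := by
    rw [← Real.exp_log hρ₁]
    apply Real.exp_le_exp.2
    have := neg_abs_le (Real.log ρ₁)
    have := abs_nonneg (Real.log ρ₂)
    linarith
  have hL2 : ρ₂⁻¹ ≤ Real.exp L := by
    rw [← Real.exp_log hρ₂, ← Real.exp_neg]
    apply Real.exp_le_exp.2
    have := neg_le_abs (Real.log ρ₂)
    have := abs_nonneg (Real.log ρ₁)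
    linarith
  obtain ⟨M₀, hM₀, hcls⟩ := exists_cls hc (hD ▸ hD1)
  rw [← hD] at hcls
  set M := max M₀ (max (2 * e) (2 * e⁻¹)) with hM
  have hMM₀ : M₀ ≤ M := le_max_left _ _
  have hM1 : 1 ≤ M := hM₀.trans hMM₀
  have hcls' := hcls.mono (by linarith) hMM₀
  obtain ⟨-, -, hPM, hQM, hM0, hMD⟩ := hcls'
  obtain ⟨n₁, hn₁⟩ := eventually_atTop.1 ((conds D hM1 hw₀0).and (eventually_ge_atTop 2))
  set κ₁ := min (e / 2) (e * (1 - Real.exp (-w₀))) with hκ₁
  have hexp1 : Real.exp (-w₀) < 1 := by rw [Real.exp_lt_one_iff]; linarith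
  have hκ₁0 : 0 < κ₁ := lt_min (by positivity) (mul_pos he (by linarith))
  refine ⟨L, η / 2, κ₁, n₁, hL0, by positivity, hκ₁0, min_le_left _ _, ?_, ?_⟩
  · -- the critical points in the band
    intro y hy h1 h2
    by_contra hcon
    have hg := hg₃ ((e:ℂ) * P.eval y, Q.eval y) (Or.inr ⟨y, ⟨hy, hcon⟩, rfl⟩)
    have hg' := hg.mono hηc
    unfold Good at hg'
    simp only [norm_mul, hne] at hg'
    have hlt : Real.exp (-η) * Real.exp (η / 2) < 1 := by
      rw [← Real.exp_add, Real.exp_lt_one_iff]; linarith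
    have hcop := coprime_eval hc y
    rcases hg' with h3 | h3
    · have h4 : ‖Q.eval y‖ ≤ (Real.exp (-η) * Real.exp (η / 2)) * ‖Q.eval y‖ := by
        calc ‖Q.eval y‖ ≤ Real.exp (η / 2) * (e * ‖P.eval y‖) := h2
          _ ≤ Real.exp (η / 2) * (Real.exp (-η) * ‖Q.eval y‖) :=
              mul_le_mul_of_nonneg_left h3 (Real.exp_pos _).le
          _ = _ := by ring
      have h5 : ‖Q.eval y‖ ≤ 0 := by
        by_contra hc5
        push Not at hc5
        nlinarith
      have h6 : ‖Q.eval y‖ = 0 := le_antisymm h5 (norm_nonneg _)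
      rw [h6, mul_zero] at h3
      have h7 : ‖P.eval y‖ ≤ 0 := by
        by_contra hc7
        push Not at hc7
        have : 0 < e * ‖P.eval y‖ := by positivity
        linarith
      exact hcop.elim (fun h => h (norm_le_zero_iff.1 h7)) (fun h => h (norm_le_zero_iff.1 h5))
    · have h4 : e * ‖P.eval y‖ ≤ (Real.exp (-η) * Real.exp (η / 2)) * (e * ‖P.eval y‖) := by
        calc e * ‖P.eval y‖ ≤ Real.exp (η / 2) * ‖Q.eval y‖ := h1
          _ ≤ Real.exp (η / 2) * (Real.exp (-η) * (e * ‖P.eval y‖)) :=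
              mul_le_mul_of_nonneg_left h3 (Real.exp_pos _).le
          _ = _ := by ring
      have h5 : e * ‖P.eval y‖ ≤ 0 := by
        by_contra hc5
        push Not at hc5
        nlinarith
      have h6 : e * ‖P.eval y‖ = 0 := le_antisymm h5 (by positivity)
      rw [h6, mul_zero] at h3
      have h7 : ‖P.eval y‖ = 0 := (mul_eq_zero.1 h6).resolve_left he.ne'
      exact hcop.elim (fun h => h (norm_eq_zero.1 h7)) (fun h => h (norm_le_zero_iff.1 h3))
  · intro n hn s hs hvals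
    obtain ⟨⟨c1, c2, c3⟩, hn2⟩ := hn₁ n hn
    have hn0 : 0 < n := by omega
    rw [abs_le] at hs
    have hk1 : κ₁ ≤ e / 2 := min_le_left _ _
    have hk2 : κ₁ ≤ e * (1 - Real.exp (-w₀)) := min_le_right _ _
    have hsa : e * Real.exp (-w₀) ≤ ‖s‖ := by nlinarith [hs.1]
    have hsb : ‖s‖ ≤ e * Real.exp w₀ := by
      have h3 : 2 ≤ Real.exp w₀ + Real.exp (-w₀) := by
        have a1 := Real.exp_pos w₀
        have a2 : Real.exp w₀ * Real.exp (-w₀) = 1 := by rw [← Real.exp_add]; simp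
        nlinarith [sq_nonneg (Real.exp w₀ - 1), sq_nonneg (Real.exp (-w₀) - 1),
          Real.exp_pos (-w₀), sq_nonneg (Real.exp w₀ - Real.exp (-w₀))]
      nlinarith [hs.2]
    have hs0 : s ≠ 0 := by
      rintro rfl
      rw [norm_zero] at hsa
      have := Real.exp_pos (-w₀)
      have : 0 < e * Real.exp (-w₀) := by positivity
      linarith
    have hsM1 : M⁻¹ ≤ ‖s‖ := by
      have h3 : e / 2 ≤ ‖s‖ := by linarith [hs.1]
      refine le_trans ?_ h3
      rw [inv_le_comm₀ (by linarith) (by positivity)]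
      have : (e / 2)⁻¹ = 2 * e⁻¹ := by rw [inv_div]; ring
      rw [this]
      exact (le_max_right _ _).trans (le_max_right _ _)
    have hsM2 : ‖s‖ ≤ M := by
      have h3 : 2 * e ≤ M := (le_max_left _ _).trans (le_max_right _ _)
      linarith [hs.2]
    have hcs : IsCoprime (Polynomial.C s * P) Q := by
      have h1 := coprime_family hc hs0 1
      rwa [Polynomial.expand_one, Polynomial.expand_one] at h1
    have hDs : D = max (Polynomial.C s * P).natDegree Q.natDegree := by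
      rw [Polynomial.natDegree_C_mul hs0, hD]
    have hcop := coprime_family hc hs0 n
    have hQe : Polynomial.expand ℂ n Q ≠ 0 := (Polynomial.expand_ne_zero hn0).2 hQ0
    obtain ⟨f, hf, -⟩ := exists_isRat hcop hQe
    -- the trap
    have hfar : ∀ p q : ℂ, Good (3 * w₀) (s * p) q → Far w₀ s p q := by
      intro p q h
      have h2 := h.mono (show 2 * w₀ ≤ 3 * w₀ by linarith)
      unfold Good at h2
      unfold Far
      rwa [show -2 * w₀ = -(2 * w₀) by ring]
    have f0 : Far w₀ s (P.coeff 0) (Q.coeff 0) := hfar _ _ (good_scale_s he (by rw [hw₀]; linarith)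
      hsa hsb ((hg₃ _ (Or.inl (Or.inl rfl))).mono hηc))
    have fD : Far w₀ s (P.coeff D) (Q.coeff D) := hfar _ _ (good_scale_s he (by rw [hw₀]; linarith)
      hsa hsb ((hg₃ _ (Or.inl (Or.inr rfl))).mono hηc))
    have hS := trap2 hD hD1 hM1 hPM hQM (le_max_iff.1 hM0) (le_max_iff.1 hMD) hsM1 hsM2 hn2 hw₀0
      c1 c2 c3 f0 fD hf
    have hgs : ∀ p q : ℂ, (p ≠ 0 ∨ q ≠ 0) → Good (3 * w₀) (s * p) q →
        Sinks f (pr (s * p) q) := by
      intro p q hpq hg
      apply good_sinks (η := 2 * w₀) (by positivity) _ _ (hg.mono (by linarith))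
      · intro i x hx
        apply hS
        have : 2 * w₀ / 2 = w₀ := by ring
        rwa [this] at hx
      · rcases hpq with h | h
        · exact Or.inl (mul_ne_zero hs0 h)
        · exact Or.inr h
    have hSinf : Sinks f ∞ := by
      have := hS true 0 (by simp [(Real.exp_pos _).le])
      have e1 : ch true 0 = ∞ := by simp [ch, sinv_zero]
      rwa [e1] at this
    have hf' : IsRat f (Polynomial.expand ℂ n (Polynomial.C s * P)) (Polynomial.expand ℂ n Q) := by
      rw [map_mul, Polynomial.expand_C]; exact hf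
    have hfψ := map_ch hDs (by omega : 0 < D) hn0 hf'
    have hfin : ∀ z : ℂ, f (z : OnePoint ℂ) = pr (s * P.eval (z ^ n)) (Q.eval (z ^ n)) := by
      intro z
      have h4 := hfψ false z
      rw [cp_false, cp_false, ch_false, Polynomial.eval_mul, Polynomial.eval_C] at h4
      exact h4
    have horb := orb_sinks (L := L) (w := w₀) hf hSinf hfin (by
      intro X hX
      apply hgs _ _ (coprime_eval hc X)
      apply good_scale_s he (η := η) (by rw [hw₀]; linarith) hsa hsb
      rcases hX with h | h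
      · have := hg₁ X (h.le.trans hL1)
        rw [hev] at this
        exact this.mono hηa
      · have := hg₂ X (hL2.trans h.le)
        rw [hev] at this
        exact this.mono hηb)
    have hfinal := hyp_of_values hcs hDs (by omega) hn0 hf' (fun i => hS i 0 (by
      simp [(Real.exp_pos _).le])) (by
      intro y hy
      rw [wro_smul', Polynomial.eval_mul, Polynomial.eval_C] at hy
      have hyW : y ∈ W := (mul_eq_zero.1 hy).resolve_left hs0
      rw [Polynomial.eval_mul, Polynomial.eval_C]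
      by_cases heq : e * ‖P.eval y‖ = ‖Q.eval y‖
      · have hQy : Q.eval y ≠ 0 := by
          intro h
          rw [h, norm_zero] at heq
          have h7 : ‖P.eval y‖ = 0 := (mul_eq_zero.1 heq).resolve_left he.ne'
          exact (coprime_eval hc y).elim (fun h' => h' (norm_eq_zero.1 h7)) (fun h' => h' h)
        rw [pr_ne hQy]
        have hN := hvals y hyW heq
        unfold Non at hN
        rw [not_forall] at hN
        obtain ⟨j, hj⟩ := hN
        apply horb j
        rw [← mul_div_assoc] at hj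
        exact hj
      · apply hgs _ _ (coprime_eval hc y)
        apply good_scale_s he (η := η) (by rw [hw₀]; linarith) hsa hsb
        exact (hg₃ _ (Or.inr ⟨y, ⟨hyW, heq⟩, rfl⟩)).mono hηc)
    rw [map_mul, Polynomial.expand_C] at hfinal
    exact hfinal

end Pool.Agent.Q79.PW
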