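import Mathlib
import Pool.Agent.Q79.PowF

set_option autoImplicit false

open MeasureTheory Set Filter Topology Metric

namespace Pool.Agent.Q79.PW

open Pool.Agent.H762R2.Rt (wro Hyp)

variable {P Q : Polynomial ℂ}

theorem slow_id (x : ℂ) (r : ℝ) : Slow (fun t => t) x r := by
  refine ⟨differentiableOn_id, fun t _ => ?_⟩
  simp

/-- the set on the line `s = id` -/
theorem diag_ball {n : ℕ} {L r₀ : ℝ} (hr₀ : 0 < r₀) (u : ℂ) :
    volume ({t | Non P Q n L (Complex.exp t) (Complex.exp t)} ∩ ball u r₀) ≤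
      Sup P Q n L r₀ := by
  refine le_trans (measure_mono ?_) (le_Sup hr₀ le_rfl (slow_id u r₀))
  rintro t ⟨ht, hb⟩
  refine ⟨hb, ?_, ht⟩
  have h0 := ht 0
  simp only [Function.iterate_zero, id] at h0
  rw [Complex.norm_exp, Real.exp_le_exp, Real.exp_le_exp] at h0
  exact abs_le.2 h0

theorem diag_re {n : ℕ} {L : ℝ} {t : ℂ} (ht : Non P Q n L (Complex.exp t) (Complex.exp t)) :
    |t.re| ≤ L := by
  have h0 := ht 0
  simp only [Function.iterate_zero, id] at h0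
  rw [Complex.norm_exp, Real.exp_le_exp, Real.exp_le_exp] at h0
  exact abs_le.2 h0

/-- the area in the `s`-plane -/
theorem image_area {n : ℕ} (hn : 1 ≤ n) {L : ℝ} (hL : 0 ≤ L) {w : ℂ} (hw : w ≠ 0) {E : Set ℂ}
    (hE : ∀ t ∈ E, |t.re| ≤ L) :
    volume ((fun u : ℂ => Complex.exp (u / n) / w) '' E) ≤
      ENNReal.ofReal ((Real.exp L / (n * ‖w‖)) ^ 2) * volume E := by
  have hn0 : (0:ℝ) < n := by exact_mod_cast hn
  have hn1 : (1:ℝ) ≤ n := by exact_mod_cast hn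
  have hnc : (n:ℂ) ≠ 0 := by exact_mod_cast hn0.ne'
  have hwp := norm_pos_iff.2 hw
  set φ : ℂ → ℂ := fun u => Complex.exp (u / n) / w with hφ
  have hder : ∀ u, HasDerivAt φ (Complex.exp (u / n) * (1 / n) / w) u := by
    intro u
    have h1 : HasDerivAt (fun u : ℂ => u / n) (1 / n) u := (hasDerivAt_id u).div_const _
    exact (h1.cexp).div_const w
  set S := toMeasurable volume E ∩ {t : ℂ | |t.re| ≤ L} with hS
  have hclosed : IsClosed {t : ℂ | |t.re| ≤ L} :=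
    isClosed_le (continuous_abs.comp Complex.continuous_re) continuous_const
  have hSm : MeasurableSet S := (measurableSet_toMeasurable _ _).inter hclosed.measurableSet
  have hES : E ⊆ S := fun t ht => ⟨subset_toMeasurable _ _ ht, hE t ht⟩
  have h1 := vol_image_le φ univ S isOpen_univ
    (fun u _ => (hder u).differentiableAt.differentiableWithinAt) hSm (subset_univ _)
  calc volume (φ '' E) ≤ volume (φ '' S) := measure_mono (image_mono hES)
    _ ≤ ∫⁻ z in S, ENNReal.ofReal (‖deriv φ z‖ ^ 2) := h1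
    _ ≤ ∫⁻ z in S, ENNReal.ofReal ((Real.exp L / (n * ‖w‖)) ^ 2) := by
        apply setLIntegral_mono' hSm
        intro z hz
        apply ENNReal.ofReal_le_ofReal
        apply pow_le_pow_left₀ (norm_nonneg _)
        rw [(hder z).deriv, norm_div, norm_mul, norm_div, norm_one, Complex.norm_natCast,
          Complex.norm_exp]
        have h3 : (z / n).re ≤ L := by
          rw [Complex.div_natCast_re]
          have hz2 : |z.re| ≤ L := hz.2
          have h4 := (abs_le.1 hz2).2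
          rw [div_le_iff₀ hn0]
          nlinarith
        have h5 := Real.exp_le_exp.2 h3
        calc Real.exp (z / n).re * (1 / n) / ‖w‖ ≤ Real.exp L * (1 / n) / ‖w‖ := by gcongr
          _ = _ := by field_simp
    _ = ENNReal.ofReal ((Real.exp L / (n * ‖w‖)) ^ 2) * volume S := by rw [setLIntegral_const]
    _ ≤ _ := by
        apply mul_le_mul_right
        calc volume S ≤ volume (toMeasurable volume E) := measure_mono inter_subset_left
          _ = volume E := measure_toMeasurable E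

theorem vol_ball (s : ℂ) {ρ : ℝ} (h : 0 < ρ) :
    volume (ball s ρ) = ENNReal.ofReal (Real.pi * ρ ^ 2) := by
  rw [Complex.volume_ball, mul_comm Real.pi, ENNReal.ofReal_mul (by positivity),
    ENNReal.ofReal_pow h.le]
  congr 1
  rw [← NNReal.coe_real_pi, ENNReal.ofReal_coe_nnreal]

/-- change of the normalisation -/
theorem non_scale {w : ℂ} (hw : w ≠ 0) {n : ℕ} {L : ℝ} {s : ℂ}
    (h : Non P Q n L (s ^ n) ((s * w) ^ n)) :
    Non (Polynomial.C w⁻¹ * P) Q n L ((s * w) ^ n) ((s * w) ^ n) := by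
  have e : step P Q n (s ^ n) = step (Polynomial.C w⁻¹ * P) Q n ((s * w) ^ n) := by
    funext X
    unfold step
    rw [Polynomial.eval_mul, Polynomial.eval_C, ← mul_pow, ← mul_pow]
    congr 1
    field_simp
  unfold Non at *
  rwa [← e]

/-- the set of the parameters for one critical value -/
def SY (P Q : Polynomial ℂ) (n : ℕ) (L : ℝ) (w : ℂ) : Set ℂ :=
  {s | Non P Q n L (s ^ n) ((s * w) ^ n)}

theorem SY_ne {n : ℕ} (hn : 1 ≤ n) {L : ℝ} {w : ℂ} {s : ℂ} (h : s ∈ SY P Q n L w) : s * w ≠ 0 := by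
  intro h0
  have h1 := (h 0).1
  simp only [Function.iterate_zero, id] at h1
  rw [h0, zero_pow (by omega), norm_zero] at h1
  have := Real.exp_pos (-L)
  linarith

theorem SY_area {n : ℕ} (hn : 1 ≤ n) {L r₀ : ℝ} (hL : 0 ≤ L) (hr₀ : 0 < r₀) {w : ℂ}
    (hw : w ≠ 0) :
    volume (SY P Q n L w) ≤ ENNReal.ofReal ((Real.exp L / (n * ‖w‖)) ^ 2 *
      ((4 * L / r₀ + 1) * (4 * (Real.pi * n) / r₀ + 1))) * Sup (Polynomial.C w⁻¹ * P) Q n L r₀ := by
  have hn0 : (0:ℝ) < n := by exact_mod_cast hn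
  have hnc : (n:ℂ) ≠ 0 := by exact_mod_cast hn0.ne'
  have hpi := Real.pi_pos
  set P' := Polynomial.C w⁻¹ * P with hP'
  set E : Set ℂ := {t | Non P' Q n L (Complex.exp t) (Complex.exp t)} ∩ {t | |t.im| ≤ Real.pi * n}
    with hE
  have hsub : SY P Q n L w ⊆ (fun u : ℂ => Complex.exp (u / n) / w) '' E := by
    intro s hs
    have hne := SY_ne hn hs
    refine ⟨n * Complex.log (s * w), ⟨?_, ?_⟩, ?_⟩
    · have h1 := non_scale hw hs
      have e : Complex.exp (n * Complex.log (s * w)) = (s * w) ^ n := by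
        rw [Complex.exp_nat_mul, Complex.exp_log hne]
      simp only [Set.mem_ofPred_eq]
      rw [e]
      exact h1
    · simp only [Set.mem_ofPred_eq]
      have e : ((n:ℂ) * Complex.log (s * w)).im = n * (s * w).arg := by
        rw [Complex.mul_im, Complex.natCast_re, Complex.natCast_im, Complex.log_im]
        ring
      rw [e, abs_mul, abs_of_pos hn0, mul_comm]
      exact mul_le_mul_of_nonneg_right (Complex.abs_arg_le_pi _) hn0.le
    · simp only
      rw [mul_div_cancel_left₀ _ hnc, Complex.exp_log hne, mul_div_assoc, div_self hw, mul_one]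
  have hre : ∀ t ∈ E, |t.re| ≤ L := fun t ht => diag_re ht.1
  have hvolE : volume E ≤ ENNReal.ofReal ((4 * L / r₀ + 1) * (4 * (Real.pi * n) / r₀ + 1)) *
      Sup P' Q n L r₀ := by
    apply cover (x₀ := 0) (y₀ := 0) hr₀ hL (by positivity)
    · intro t ht
      rw [sub_zero, sub_zero]
      exact ⟨hre t ht, ht.2⟩
    · intro t _
      refine le_trans (measure_mono ?_) (diag_ball hr₀ t)
      exact inter_subset_inter_left _ inter_subset_left
  calc volume (SY P Q n L w) ≤ volume ((fun u : ℂ => Complex.exp (u / n) / w) '' E) :=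
        measure_mono hsub
    _ ≤ ENNReal.ofReal ((Real.exp L / (n * ‖w‖)) ^ 2) * volume E := image_area hn hL hw hre
    _ ≤ ENNReal.ofReal ((Real.exp L / (n * ‖w‖)) ^ 2) * (ENNReal.ofReal
        ((4 * L / r₀ + 1) * (4 * (Real.pi * n) / r₀ + 1)) * Sup P' Q n L r₀) :=
        mul_le_mul_right hvolE _
    _ = _ := by rw [← mul_assoc, ← ENNReal.ofReal_mul (by positivity)]

theorem SY_local {n : ℕ} (hn : 1 ≤ n) {L r₀ : ℝ} (hL : 0 ≤ L) (hr₀ : 0 < r₀) {w : ℂ}
    (hw : w ≠ 0) {s₀ : ℂ} {ρ : ℝ} (hρ : 0 < ρ) (hs₀ : 2 * ρ ≤ ‖s₀‖) {h : ℝ}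
    (hh : n * (3 / 2 * (ρ / ‖s₀‖)) ≤ h) :
    volume (SY P Q n L w ∩ ball s₀ ρ) ≤ ENNReal.ofReal ((Real.exp L / (n * ‖w‖)) ^ 2 *
      ((4 * h / r₀ + 1) * (4 * h / r₀ + 1))) * Sup (Polynomial.C w⁻¹ * P) Q n L r₀ := by
  have hn0 : (0:ℝ) < n := by exact_mod_cast hn
  have hnc : (n:ℂ) ≠ 0 := by exact_mod_cast hn0.ne'
  have hs₀p : 0 < ‖s₀‖ := by linarith
  have hs₀0 : s₀ ≠ 0 := norm_pos_iff.1 hs₀p
  have hh0 : 0 ≤ h := le_trans (by positivity) hh
  set P' := Polynomial.C w⁻¹ * P with hP'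
  set u₀ : ℂ := n * Complex.log (s₀ * w) with hu₀
  set E : Set ℂ := {t | Non P' Q n L (Complex.exp t) (Complex.exp t)} ∩ {t | ‖t - u₀‖ ≤ h}
    with hE
  have hsub : SY P Q n L w ∩ ball s₀ ρ ⊆ (fun u : ℂ => Complex.exp (u / n) / w) '' E := by
    rintro s ⟨hs, hsb⟩
    have hne := SY_ne hn hs
    have hs0 : s ≠ 0 := left_ne_zero_of_mul hne
    rw [mem_ball, dist_eq_norm] at hsb
    have hz : ‖s / s₀ - 1‖ ≤ ρ / ‖s₀‖ := by
      have : s / s₀ - 1 = (s - s₀) / s₀ := by field_simp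
      rw [this, norm_div]
      exact div_le_div_of_nonneg_right hsb.le hs₀p.le
    have hz2 : ‖s / s₀ - 1‖ ≤ 1 / 2 := by
      refine hz.trans ?_
      rw [div_le_iff₀ hs₀p]; linarith
    have hlog : ‖Complex.log (s / s₀)‖ ≤ 3 / 2 * (ρ / ‖s₀‖) := by
      have h1 := Complex.norm_log_one_add_half_le_self hz2
      rw [add_sub_cancel] at h1
      exact h1.trans (mul_le_mul_of_nonneg_left hz (by norm_num))
    have e1 : Complex.exp (Complex.log (s₀ * w) + Complex.log (s / s₀)) = s * w := by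
      rw [Complex.exp_add, Complex.exp_log (mul_ne_zero hs₀0 hw),
        Complex.exp_log (div_ne_zero hs0 hs₀0)]
      field_simp
    refine ⟨n * (Complex.log (s₀ * w) + Complex.log (s / s₀)), ⟨?_, ?_⟩, ?_⟩
    · have h1 := non_scale hw hs
      simp only [Set.mem_ofPred_eq]
      have e : Complex.exp (n * (Complex.log (s₀ * w) + Complex.log (s / s₀))) = (s * w) ^ n := by
        rw [Complex.exp_nat_mul, e1]
      rw [e]
      exact h1
    · simp only [Set.mem_ofPred_eq]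
      have e : (n:ℂ) * (Complex.log (s₀ * w) + Complex.log (s / s₀)) - u₀ =
        n * Complex.log (s / s₀) := by rw [hu₀]; ring
      rw [e, norm_mul, Complex.norm_natCast]
      exact (mul_le_mul_of_nonneg_left hlog hn0.le).trans hh
    · simp only
      rw [mul_div_cancel_left₀ _ hnc, e1, mul_div_assoc, div_self hw, mul_one]
  have hre : ∀ t ∈ E, |t.re| ≤ L := fun t ht => diag_re ht.1
  have hvolE : volume E ≤ ENNReal.ofReal ((4 * h / r₀ + 1) * (4 * h / r₀ + 1)) *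
      Sup P' Q n L r₀ := by
    apply cover (x₀ := u₀.re) (y₀ := u₀.im) hr₀ hh0 hh0
    · intro t ht
      rw [← Complex.sub_re, ← Complex.sub_im]
      exact ⟨(Complex.abs_re_le_norm _).trans ht.2, (Complex.abs_im_le_norm _).trans ht.2⟩
    · intro t _
      refine le_trans (measure_mono ?_) (diag_ball hr₀ t)
      exact inter_subset_inter_left _ inter_subset_left
  calc volume (SY P Q n L w ∩ ball s₀ ρ) ≤
        volume ((fun u : ℂ => Complex.exp (u / n) / w) '' E) := measure_mono hsub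
    _ ≤ ENNReal.ofReal ((Real.exp L / (n * ‖w‖)) ^ 2) * volume E := image_area hn hL hw hre
    _ ≤ ENNReal.ofReal ((Real.exp L / (n * ‖w‖)) ^ 2) * (ENNReal.ofReal
        ((4 * h / r₀ + 1) * (4 * h / r₀ + 1)) * Sup P' Q n L r₀) :=
        mul_le_mul_right hvolE _
    _ = _ := by rw [← mul_assoc, ← ENNReal.ofReal_mul (by positivity)]

/-- the estimates for one critical value -/
theorem one_value (hc : IsCoprime P Q) (hw0 : wro P Q ≠ 0) {e : ℝ} (he : 0 < e) {k : ℕ}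
    (hk : 1 ≤ k) {L κ : ℝ} (hL : 0 ≤ L) (hκ : 0 < κ)
    (hmult : ∀ y, e * ‖P.eval y‖ ≤ Real.exp κ * ‖Q.eval y‖ →
      ‖Q.eval y‖ ≤ Real.exp κ * (e * ‖P.eval y‖) → (wro P Q).rootMultiplicity y ≤ k)
    {w : ℂ} (hwe : e * ‖w‖ = 1) :
    ∃ (C : ℝ) (n₀ : ℕ), 0 < C ∧ ∀ n : ℕ, n₀ ≤ n →
      volume (SY P Q n L w) ≤ ENNReal.ofReal (C * (n:ℝ) ^ (-(1 + 2 / (k:ℝ)))) ∧
      ∀ s₀ : ℂ, e / 2 ≤ ‖s₀‖ → ∀ ρ : ℝ, 0 < ρ → ρ ≤ 1 / n →
        volume (SY P Q n L w ∩ ball s₀ ρ) ≤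
          ENNReal.ofReal (C * (n:ℝ) ^ (-(2 + 2 / (k:ℝ)))) := by
  have hpi := Real.pi_pos
  have hwp : 0 < ‖w‖ := by
    by_contra hcon
    push Not at hcon
    have : ‖w‖ = 0 := le_antisymm hcon (norm_nonneg _)
    rw [this, mul_zero] at hwe
    norm_num at hwe
  have hw : w ≠ 0 := norm_pos_iff.1 hwp
  have hwi : ‖w⁻¹‖ = e := by
    rw [norm_inv]
    field_simp
    linarith
  set P' := Polynomial.C w⁻¹ * P with hP'
  have hu : IsUnit (Polynomial.C w⁻¹) := Polynomial.isUnit_C.2 (isUnit_iff_ne_zero.2 (inv_ne_zero hw))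
  have hc' : IsCoprime P' Q := (isCoprime_mul_unit_left_left hu _ _).2 hc
  have hwro : wro P' Q = Polynomial.C w⁻¹ * wro P Q := wro_smul' P Q w⁻¹
  have hw0' : wro P' Q ≠ 0 := by
    rw [hwro]
    exact mul_ne_zero (Polynomial.C_ne_zero.2 (inv_ne_zero hw)) hw0
  have hk' : ∀ p, Band P' Q κ L p → (wro P' Q).rootMultiplicity (Complex.exp p) ≤ k := by
    rintro p ⟨-, h1, h2⟩
    have e1 : ‖P'.eval (Complex.exp p)‖ = e * ‖P.eval (Complex.exp p)‖ := by
      rw [hP', Polynomial.eval_mul, Polynomial.eval_C, norm_mul, hwi]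
    rw [e1] at h1 h2
    have h3 := hmult _ h1 h2
    have h4 : (wro P' Q).rootMultiplicity (Complex.exp p) =
        (wro P Q).rootMultiplicity (Complex.exp p) := by
      rw [hwro, Polynomial.rootMultiplicity_mul (by rw [← hwro]; exact hw0'),
        Polynomial.rootMultiplicity_C, zero_add]
    rw [h4]; exact h3
  obtain ⟨r₀, c, hr₀, hr₁, hc0, U⟩ := exists_unif hc' hw0' hk'
  have hkR : (0:ℝ) < 16 * ((k:ℝ) + 1) := by positivity
  obtain ⟨C, n₀, hC, hSup⟩ := Sup_le U hk hr₀ hr₁ hc0 hL hκ (by positivity) (by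
    rw [div_le_one hkR]
    have : (0:ℝ) ≤ k := Nat.cast_nonneg k
    linarith)
  obtain ⟨n₁, hn₁⟩ := exists_nat_ge (4 / e)
  set h : ℝ := 3 / e with hh
  set C₁ : ℝ := (Real.exp L / ‖w‖) ^ 2 * ((4 * L / r₀ + 1) * (4 * Real.pi / r₀ + 1)) * C with hC₁
  set C₂ : ℝ := (Real.exp L / ‖w‖) ^ 2 * ((4 * h / r₀ + 1) * (4 * h / r₀ + 1)) * C with hC₂
  have hh0 : 0 < h := by positivity
  refine ⟨C₁ + C₂, max 1 (max n₀ n₁), by positivity, ?_⟩
  intro n hn
  have hn1 : 1 ≤ n := (le_max_left _ _).trans hn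
  have hnn0 : n₀ ≤ n := ((le_max_left _ _).trans (le_max_right _ _)).trans hn
  have hnn1 : n₁ ≤ n := ((le_max_right _ _).trans (le_max_right _ _)).trans hn
  have hn0 : (0:ℝ) < n := by exact_mod_cast hn1
  have hnr : (1:ℝ) ≤ n := by exact_mod_cast hn1
  have hS := hSup n hnn0
  have hC₁0 : 0 ≤ C₁ := by positivity
  have hC₂0 : 0 ≤ C₂ := by positivity
  have hpow2 : (n:ℝ) ^ (-(2 + 2 / (k:ℝ))) = ((n:ℝ) ^ 2)⁻¹ * (n:ℝ) ^ (-(2 / (k:ℝ))) := by
    rw [neg_add, Real.rpow_add hn0]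
    congr 1
    rw [Real.rpow_neg hn0.le]
    norm_num
  have hpow1 : (n:ℝ) ^ (-(1 + 2 / (k:ℝ))) = (n:ℝ)⁻¹ * (n:ℝ) ^ (-(2 / (k:ℝ))) := by
    rw [neg_add, Real.rpow_add hn0, Real.rpow_neg_one]
  have hpn : 0 < (n:ℝ) ^ (-(2 / (k:ℝ))) := Real.rpow_pos_of_pos hn0 _
  constructor
  · refine (SY_area hn1 hL hr₀ hw).trans ((mul_le_mul_right hS _).trans ?_)
    rw [← ENNReal.ofReal_mul (by positivity)]
    apply ENNReal.ofReal_le_ofReal
    rw [hpow1]
    have h1 : (4 * (Real.pi * n) / r₀ + 1) ≤ (4 * Real.pi / r₀ + 1) * n := by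
      have : 4 * (Real.pi * n) / r₀ = 4 * Real.pi / r₀ * n := by ring
      rw [this]; linarith
    calc (Real.exp L / (n * ‖w‖)) ^ 2 * ((4 * L / r₀ + 1) * (4 * (Real.pi * n) / r₀ + 1)) *
          (C * (n:ℝ) ^ (-(2 / (k:ℝ))))
        ≤ (Real.exp L / (n * ‖w‖)) ^ 2 * ((4 * L / r₀ + 1) * ((4 * Real.pi / r₀ + 1) * n)) *
          (C * (n:ℝ) ^ (-(2 / (k:ℝ)))) := by gcongr
      _ = C₁ * ((n:ℝ)⁻¹ * (n:ℝ) ^ (-(2 / (k:ℝ)))) := by
          rw [hC₁]; field_simp
      _ ≤ _ := by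
          apply mul_le_mul_of_nonneg_right _ (by positivity)
          linarith
  · intro s₀ hs₀ ρ hρ hρn
    have hn4 : 4 / e ≤ n := hn₁.trans (by exact_mod_cast hnn1)
    have hs₀p : 0 < ‖s₀‖ := by linarith
    have h2ρ : 2 * ρ ≤ ‖s₀‖ := by
      have : 2 * (1 / (n:ℝ)) ≤ e / 2 := by
        rw [div_le_iff₀ he] at hn4
        rw [mul_one_div, div_le_div_iff₀ hn0 (by norm_num)]
        linarith
      linarith
    have hhh : n * (3 / 2 * (ρ / ‖s₀‖)) ≤ h := by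
      have h1 : ρ / ‖s₀‖ ≤ (1 / n) / (e / 2) := div_le_div₀ (by positivity) hρn (by positivity) hs₀
      calc n * (3 / 2 * (ρ / ‖s₀‖)) ≤ n * (3 / 2 * ((1 / n) / (e / 2))) := by gcongr
        _ = h := by rw [hh]; field_simp
    refine (SY_local hn1 hL hr₀ hw hρ h2ρ hhh).trans ((mul_le_mul_right hS _).trans ?_)
    rw [← ENNReal.ofReal_mul (by positivity)]
    apply ENNReal.ofReal_le_ofReal
    rw [hpow2]
    calc (Real.exp L / (n * ‖w‖)) ^ 2 * ((4 * h / r₀ + 1) * (4 * h / r₀ + 1)) *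
          (C * (n:ℝ) ^ (-(2 / (k:ℝ))))
        = C₂ * (((n:ℝ) ^ 2)⁻¹ * (n:ℝ) ^ (-(2 / (k:ℝ)))) := by
          rw [hC₂]; field_simp
      _ ≤ _ := by
          apply mul_le_mul_of_nonneg_right _ (by positivity)
          linarith

/-- the main theorem -/
theorem main (hc : IsCoprime P Q) {D : ℕ} (hD : D = max P.natDegree Q.natDegree) (hD1 : 1 ≤ D)
    {e : ℝ} (he : 0 < e) (h0 : e * ‖P.coeff 0‖ ≠ ‖Q.coeff 0‖)
    (hDD : e * ‖P.coeff D‖ ≠ ‖Q.coeff D‖) {k : ℕ} (hk : 1 ≤ k)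
    (hmult : ∀ y, e * ‖P.eval y‖ = ‖Q.eval y‖ → (wro P Q).rootMultiplicity y ≤ k) :
    ∃ (C δ : ℝ) (n₀ : ℕ), 0 < C ∧ 0 < δ ∧ ∀ n : ℕ, n₀ ≤ n →
      volume {s : ℂ | |‖s‖ - e| ≤ δ ∧
        ¬ Hyp (Polynomial.C s * Polynomial.expand ℂ n P) (Polynomial.expand ℂ n Q)} ≤
        ENNReal.ofReal (C * (n:ℝ) ^ (-(1 + 2 / (k:ℝ)))) ∧
      ∀ s : ℂ, |‖s‖ - e| ≤ δ → ∃ s' : ℂ, ‖s' - s‖ < C * (n:ℝ) ^ (-(1 + 1 / (k:ℝ))) ∧
        Hyp (Polynomial.C s' * Polynomial.expand ℂ n P) (Polynomial.expand ℂ n Q) := by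
  classical
  have hpi := Real.pi_pos
  have hw := Pool.Agent.H762R2.Rt.wro_ne_zero hc (hD ▸ hD1)
  obtain ⟨L, κ, κ₁, n₁, hL, hκ, hκ₁, hκe, hband, hdyn⟩ := dyn hc hD hD1 he h0 hDD
  have hmult' : ∀ y, e * ‖P.eval y‖ ≤ Real.exp κ * ‖Q.eval y‖ →
      ‖Q.eval y‖ ≤ Real.exp κ * (e * ‖P.eval y‖) → (wro P Q).rootMultiplicity y ≤ k := by
    intro y h1 h2
    by_cases hy : (wro P Q).eval y = 0
    · exact hmult y (hband y hy h1 h2)
    · rw [Polynomial.rootMultiplicity_eq_zero hy]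
      exact Nat.zero_le _
  -- the critical values on the circle
  set Y : Finset ℂ := (wro P Q).roots.toFinset.filter (fun y => e * ‖P.eval y‖ = ‖Q.eval y‖) with hY
  have hval : ∀ y ∈ Y, e * ‖P.eval y / Q.eval y‖ = 1 := by
    intro y hy
    rw [hY, Finset.mem_filter] at hy
    have hq : Q.eval y ≠ 0 := by
      intro h
      have h2 := hy.2
      rw [h, norm_zero] at h2
      have h7 : ‖P.eval y‖ = 0 := (mul_eq_zero.1 h2).resolve_left he.ne'
      exact (Pool.Agent.H462R2.AP.coprime_eval hc y).elim (fun h' => h' (norm_eq_zero.1 h7))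
        (fun h' => h' h)
    have hqp := norm_pos_iff.2 hq
    rw [norm_div, ← mul_div_assoc, hy.2, div_self hqp.ne']
  have hone := fun y (hy : y ∈ Y) => one_value hc hw he hk hL hκ hmult' (hval y hy)
  choose! CC nn hCC hone using hone
  set Ct := 1 + ∑ y ∈ Y, CC y with hCt
  have hsum0 : 0 ≤ ∑ y ∈ Y, CC y := Finset.sum_nonneg fun y hy => (hCC y hy).le
  have hCt0 : 0 < Ct := by linarith
  have hCt1 : 1 ≤ Ct := by linarith
  set nt := ∑ y ∈ Y, nn y with hnt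
  have hk0 : (0:ℝ) < k := by exact_mod_cast hk
  -- the radius is small
  have hlim : Tendsto (fun n : ℕ => Ct * (n:ℝ) ^ (-(1 / (k:ℝ)))) atTop (𝓝 (Ct * 0)) := by
    apply Tendsto.const_mul
    exact (tendsto_rpow_neg_atTop (by positivity)).comp tendsto_natCast_atTop_atTop
  rw [mul_zero] at hlim
  obtain ⟨n₂, hn₂⟩ := eventually_atTop.1 ((hlim.eventually_lt_const
    (show (0:ℝ) < min 1 (κ₁ / 2) by positivity)).and (eventually_ge_atTop 1))
  refine ⟨Ct, κ₁ / 2, max n₁ (max n₂ nt), hCt0, by positivity, ?_⟩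
  intro n hn
  have hnn1 : n₁ ≤ n := (le_max_left _ _).trans hn
  have hnn2 : n₂ ≤ n := ((le_max_left _ _).trans (le_max_right _ _)).trans hn
  have hnnt : nt ≤ n := ((le_max_right _ _).trans (le_max_right _ _)).trans hn
  obtain ⟨hn3, hn4⟩ := hn₂ n hnn2
  have hn0 : (0:ℝ) < n := by exact_mod_cast hn4
  have hnr : (1:ℝ) ≤ n := by exact_mod_cast hn4
  have hnny : ∀ y ∈ Y, nn y ≤ n := fun y hy =>
    (Finset.single_le_sum (fun i _ => Nat.zero_le (nn i)) hy).trans hnnt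
  have hsub : ∀ s : ℂ, |‖s‖ - e| ≤ κ₁ →
      ¬ Hyp (Polynomial.C s * Polynomial.expand ℂ n P) (Polynomial.expand ℂ n Q) →
      s ∈ ⋃ y ∈ Y, SY P Q n L (P.eval y / Q.eval y) := by
    intro s hs hnot
    by_contra hcon
    apply hnot
    apply hdyn n hnn1 s hs
    intro y hy1 hy2 hy3
    apply hcon
    simp only [mem_iUnion]
    refine ⟨y, ?_, hy3⟩
    rw [hY, Finset.mem_filter, Multiset.mem_toFinset, Polynomial.mem_roots hw]
    exact ⟨hy1, hy2⟩
  constructor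
  · calc volume {s : ℂ | |‖s‖ - e| ≤ κ₁ / 2 ∧
        ¬ Hyp (Polynomial.C s * Polynomial.expand ℂ n P) (Polynomial.expand ℂ n Q)}
        ≤ volume (⋃ y ∈ Y, SY P Q n L (P.eval y / Q.eval y)) := by
          apply measure_mono
          rintro s ⟨h1, h2⟩
          exact hsub s (by linarith) h2
      _ ≤ ∑ y ∈ Y, volume (SY P Q n L (P.eval y / Q.eval y)) := measure_biUnion_finset_le _ _
      _ ≤ ∑ y ∈ Y, ENNReal.ofReal (CC y * (n:ℝ) ^ (-(1 + 2 / (k:ℝ)))) :=
          Finset.sum_le_sum fun y hy => (hone y hy n (hnny y hy)).1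
      _ = ENNReal.ofReal (∑ y ∈ Y, CC y * (n:ℝ) ^ (-(1 + 2 / (k:ℝ)))) := by
          rw [ENNReal.ofReal_sum_of_nonneg]
          intro y hy
          have := hCC y hy
          positivity
      _ ≤ _ := by
          apply ENNReal.ofReal_le_ofReal
          rw [← Finset.sum_mul]
          apply mul_le_mul_of_nonneg_right _ (by positivity)
          linarith
  · intro s hs
    by_contra hcon
    push Not at hcon
    set ρ := Ct * (n:ℝ) ^ (-(1 + 1 / (k:ℝ))) with hρ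
    have hρ0 : 0 < ρ := by positivity
    have hρe : ρ = Ct * (n:ℝ) ^ (-(1 / (k:ℝ))) * (1 / n) := by
      rw [hρ, neg_add, Real.rpow_add hn0, Real.rpow_neg_one]
      ring
    have hm1 := lt_min_iff.1 hn3
    have hρ1 : ρ ≤ 1 / n := by
      rw [hρe]
      have : 0 < 1 / (n:ℝ) := by positivity
      nlinarith [hm1.1]
    have hρ2 : ρ ≤ κ₁ / 2 := by
      rw [hρe]
      have h1 : 1 / (n:ℝ) ≤ 1 := by rw [div_le_one hn0]; exact hnr
      have h2 : 0 < Ct * (n:ℝ) ^ (-(1 / (k:ℝ))) := by positivity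
      calc Ct * (n:ℝ) ^ (-(1 / (k:ℝ))) * (1 / n) ≤ Ct * (n:ℝ) ^ (-(1 / (k:ℝ))) * 1 :=
            mul_le_mul_of_nonneg_left h1 h2.le
        _ ≤ _ := by linarith [hm1.2]
    have hball : ball s ρ ⊆ ⋃ y ∈ Y, (SY P Q n L (P.eval y / Q.eval y) ∩ ball s ρ) := by
      intro s' hs'
      have hd := hs'
      rw [mem_ball, dist_eq_norm] at hd
      have h1 := hcon s' hd
      have h2 : |‖s'‖ - e| ≤ κ₁ := by
        have h3 := abs_norm_sub_norm_le s' s
        have h4 : |‖s'‖ - e| ≤ |‖s'‖ - ‖s‖| + |‖s‖ - e| := by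
          have := abs_add_le (‖s'‖ - ‖s‖) (‖s‖ - e)
          have e1 : ‖s'‖ - ‖s‖ + (‖s‖ - e) = ‖s'‖ - e := by ring
          rwa [e1] at this
        linarith
      have h5 := hsub s' h2 h1
      simp only [mem_iUnion] at h5 ⊢
      obtain ⟨y, hy, hy2⟩ := h5
      exact ⟨y, hy, hy2, hs'⟩
    have hs2 : e / 2 ≤ ‖s‖ := by
      have := (abs_le.1 hs).1
      linarith
    have hvol : ENNReal.ofReal (Real.pi * ρ ^ 2) ≤
        ENNReal.ofReal ((∑ y ∈ Y, CC y) * (n:ℝ) ^ (-(2 + 2 / (k:ℝ)))) := by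
      have hb : volume (ball s ρ) = ENNReal.ofReal (Real.pi * ρ ^ 2) := vol_ball s hρ0
      calc ENNReal.ofReal (Real.pi * ρ ^ 2) = volume (ball s ρ) := hb.symm
        _ ≤ volume (⋃ y ∈ Y, (SY P Q n L (P.eval y / Q.eval y) ∩ ball s ρ)) := measure_mono hball
        _ ≤ ∑ y ∈ Y, volume (SY P Q n L (P.eval y / Q.eval y) ∩ ball s ρ) :=
            measure_biUnion_finset_le _ _
        _ ≤ ∑ y ∈ Y, ENNReal.ofReal (CC y * (n:ℝ) ^ (-(2 + 2 / (k:ℝ)))) :=
            Finset.sum_le_sum fun y hy => (hone y hy n (hnny y hy)).2 s hs2 ρ hρ0 hρ1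
        _ = ENNReal.ofReal ((∑ y ∈ Y, CC y) * (n:ℝ) ^ (-(2 + 2 / (k:ℝ)))) := by
            rw [← ENNReal.ofReal_sum_of_nonneg, Finset.sum_mul]
            intro y hy
            have := hCC y hy
            positivity
    rw [ENNReal.ofReal_le_ofReal_iff (by positivity)] at hvol
    have hpow : ρ ^ 2 = Ct ^ 2 * (n:ℝ) ^ (-(2 + 2 / (k:ℝ))) := by
      rw [hρ, mul_pow, ← Real.rpow_natCast ((n:ℝ) ^ (-(1 + 1 / (k:ℝ)))), ← Real.rpow_mul hn0.le]
      congr 2
      push_cast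
      ring
    rw [hpow] at hvol
    have hp0 : 0 < (n:ℝ) ^ (-(2 + 2 / (k:ℝ))) := Real.rpow_pos_of_pos hn0 _
    have h1 : Real.pi * Ct ^ 2 ≤ ∑ y ∈ Y, CC y := by
      by_contra hc1
      push Not at hc1
      have := mul_lt_mul_of_pos_right hc1 hp0
      linarith
    have h2 := Real.pi_gt_three
    nlinarith

end Pool.Agent.Q79.PW
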