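import Mathlib

/-!
Quasiregular maps: definition and the case of `C¹` maps.
-/

open Set Filter Topology Metric MeasureTheory

namespace Q79.QR

/-- `g` is a weak derivative of `f` in the open set `D`. -/
def IsWeakDerivative {n : ℕ} (D : Set (EuclideanSpace ℝ (Fin n)))
    (f : EuclideanSpace ℝ (Fin n) → EuclideanSpace ℝ (Fin n))
    (g : EuclideanSpace ℝ (Fin n) → EuclideanSpace ℝ (Fin n) →L[ℝ] EuclideanSpace ℝ (Fin n)) :
    Prop :=
  ∀ φ : EuclideanSpace ℝ (Fin n) → ℝ, ContDiff ℝ (⊤ : ℕ∞) φ → HasCompactSupport φ →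
    tsupport φ ⊆ D → ∀ v : EuclideanSpace ℝ (Fin n),
      ∫ x in D, (fderiv ℝ φ x v) • f x = - ∫ x in D, φ x • g x v

/-- Quasiregular maps. -/
def IsQuasiregular {n : ℕ} (D : Set (EuclideanSpace ℝ (Fin n)))
    (f : EuclideanSpace ℝ (Fin n) → EuclideanSpace ℝ (Fin n)) : Prop :=
  ContinuousOn f D ∧
  ∃ g : EuclideanSpace ℝ (Fin n) → EuclideanSpace ℝ (Fin n) →L[ℝ] EuclideanSpace ℝ (Fin n),
    (∀ C : Set (EuclideanSpace ℝ (Fin n)), IsCompact C → C ⊆ D →
      MemLp f n (volume.restrict C) ∧ MemLp g n (volume.restrict C)) ∧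
    IsWeakDerivative D f g ∧
    ∃ K : ℝ, 1 ≤ K ∧ ∀ᵐ x ∂(volume.restrict D), ‖g x‖ ^ n ≤ K * (g x).det

theorem quasiregular_of_C1 {n : ℕ} {D : Set (EuclideanSpace ℝ (Fin n))} (hD : IsOpen D)
    {f : EuclideanSpace ℝ (Fin n) → EuclideanSpace ℝ (Fin n)} (hf : ContDiffOn ℝ 1 f D)
    {K : ℝ} (hK : 1 ≤ K) (hfK : ∀ x ∈ D, ‖fderiv ℝ f x‖ ^ n ≤ K * (fderiv ℝ f x).det) :
    IsQuasiregular D f := by
  have hcf : ContinuousOn f D := hf.continuousOn
  have hcd : ContinuousOn (fderiv ℝ f) D := hf.continuousOn_fderiv_of_isOpen hD (by norm_num)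
  have hdiff : ∀ x ∈ D, DifferentiableAt ℝ f x := fun x hx =>
    (hf.differentiableOn (by norm_num)).differentiableAt (hD.mem_nhds hx)
  refine ⟨hcf, fderiv ℝ f, ?_, ?_, K, hK, ?_⟩
  · intro C hC hCD
    have hfin : IsFiniteMeasure (volume.restrict C) :=
      ⟨by rw [Measure.restrict_apply_univ]; exact hC.measure_lt_top⟩
    constructor
    · obtain ⟨R, hR⟩ := hC.exists_bound_of_continuousOn (hcf.mono hCD)
      refine MemLp.of_bound ((hcf.mono hCD).aestronglyMeasurable hC.measurableSet) R ?_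
      exact (ae_restrict_iff' hC.measurableSet).2 (Eventually.of_forall hR)
    · obtain ⟨R, hR⟩ := hC.exists_bound_of_continuousOn (hcd.mono hCD)
      refine MemLp.of_bound ((hcd.mono hCD).aestronglyMeasurable hC.measurableSet) R ?_
      exact (ae_restrict_iff' hC.measurableSet).2 (Eventually.of_forall hR)
  · intro φ hφ hφc hφD v
    have hφ1 : ContDiff ℝ 1 φ := hφ.of_le (by exact_mod_cast le_top)
    have hsupp : ∀ x, x ∉ tsupport φ → φ x = 0 := fun x hx => image_eq_zero_of_notMem_tsupport hx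
    have hsuppd : ∀ x, x ∉ tsupport φ → fderiv ℝ φ x = 0 := by
      intro x hx
      by_contra h
      exact hx (tsupport_fderiv_subset ℝ (subset_tsupport _ h))
    have hint : ∀ h : EuclideanSpace ℝ (Fin n) → EuclideanSpace ℝ (Fin n),
        ContinuousOn h (tsupport φ) → (∀ x, x ∉ tsupport φ → h x = 0) → Integrable h := by
      intro h hc h0
      rw [← integrableOn_iff_integrable_of_support_subset (s := tsupport φ)]
      · exact hc.integrableOn_compact hφc
      · intro x hx
        by_contra hx'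
        exact hx (h0 x hx')
    have hfd : Continuous (fun x => fderiv ℝ φ x v) :=
      (hφ1.continuous_fderiv (by norm_num)).clm_apply continuous_const
    have hmain := integral_smul_fderiv_eq_neg_fderiv_smul_of_integrable
      (μ := (volume : Measure (EuclideanSpace ℝ (Fin n)))) (f := φ) (g := f) (v := v)
      (hint _ (hfd.continuousOn.smul (hcf.mono hφD)) (fun x hx => by simp [hsuppd x hx]))
      (hint _ (hφ1.continuous.continuousOn.smul
        ((hcd.mono hφD).clm_apply continuousOn_const)) (fun x hx => by simp [hsupp x hx]))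
      (hint _ (hφ1.continuous.continuousOn.smul (hcf.mono hφD))
        (fun x hx => by simp [hsupp x hx]))
      (fun x _ => hφ1.differentiable (by norm_num) x) (fun x hx => hdiff x (hφD hx))
    rw [setIntegral_eq_integral_of_forall_compl_eq_zero,
      setIntegral_eq_integral_of_forall_compl_eq_zero, hmain, neg_neg]
    · intro x hx
      simp [hsupp x (fun h => hx (hφD h))]
    · intro x hx
      simp [hsuppd x (fun h => hx (hφD h))]
  · exact (ae_restrict_iff' hD.measurableSet).2 (Eventually.of_forall hfK)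

end Q79.QR
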