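import Mathlib
import Pool.Agent.Q79.QR

/-!
Lipschitz maps: the a.e. derivative is the weak derivative.
-/

open Set Filter Topology Metric MeasureTheory
open scoped NNReal

namespace Q79.QR

theorem weakDerivative_of_lipschitzOn {n : ℕ} {D : Set (EuclideanSpace ℝ (Fin n))} (hD : IsOpen D)
    {f : EuclideanSpace ℝ (Fin n) → EuclideanSpace ℝ (Fin n)} {C : ℝ≥0}
    (hf : LipschitzOnWith C f D)
    (hdiff : ∀ᵐ x ∂(volume.restrict D), DifferentiableAt ℝ f x) :
    IsWeakDerivative D f (fderiv ℝ f) := by
  intro φ hφ hφc hφD v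
  have hφ1 : ContDiff ℝ 1 φ := hφ.of_le (by exact_mod_cast le_top)
  have hsupp : ∀ x, x ∉ tsupport φ → φ x = 0 := fun x hx => image_eq_zero_of_notMem_tsupport hx
  have hsuppd : ∀ x, x ∉ tsupport φ → fderiv ℝ φ x = 0 := by
    intro x hx
    by_contra h
    exact hx (tsupport_fderiv_subset ℝ (subset_tsupport _ h))
  have hcf : ContinuousOn f D := hf.continuousOn
  have hbd : ∀ x ∈ D, ‖fderiv ℝ f x‖ ≤ C := fun x hx =>
    norm_fderiv_le_of_lipschitzOn ℝ (hD.mem_nhds hx) hf
  have hfinK : volume (tsupport φ) < ⊤ := hφc.measure_lt_top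
  -- integrability of the two sides
  have hfd : Continuous (fun x => fderiv ℝ φ x v) :=
    (hφ1.continuous_fderiv (by norm_num)).clm_apply continuous_const
  have hint1 : Integrable (fun x => (fderiv ℝ φ x v) • f x) (volume.restrict D) := by
    have h1 : IntegrableOn (fun x => (fderiv ℝ φ x v) • f x) (tsupport φ) :=
      (hfd.continuousOn.smul (hcf.mono hφD)).integrableOn_compact hφc
    have h2 : Integrable (fun x => (fderiv ℝ φ x v) • f x) := by
      rw [← integrableOn_iff_integrable_of_support_subset (s := tsupport φ)]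
      · exact h1
      · intro x hx
        by_contra hx'
        exact hx (by simp [hsuppd x hx'])
    exact h2.integrableOn
  have hmeas : Measurable (fun x => fderiv ℝ f x v) :=
    (measurable_fderiv ℝ f).apply_continuousLinearMap v
  have hint2 : Integrable (fun x => φ x • fderiv ℝ f x v) (volume.restrict D) := by
    obtain ⟨B, hB⟩ := hφ1.continuous.bounded_above_of_compact_support hφc
    have hB0 : 0 ≤ B := (norm_nonneg _).trans (hB 0)
    have h1 : IntegrableOn (fun x => φ x • fderiv ℝ f x v) (tsupport φ) := by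
      apply Measure.integrableOn_of_bounded (M := B * (C * ‖v‖)) hfinK.ne
      · exact (hφ1.continuous.measurable.smul hmeas).aestronglyMeasurable
      · rw [ae_restrict_iff' hφc.measurableSet]
        apply Eventually.of_forall
        intro x hx
        rw [norm_smul]
        apply mul_le_mul (hB x) _ (norm_nonneg _) hB0
        exact (ContinuousLinearMap.le_opNorm _ _).trans
          (mul_le_mul_of_nonneg_right (hbd x (hφD hx)) (norm_nonneg _))
    have h2 : Integrable (fun x => φ x • fderiv ℝ f x v) := by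
      rw [← integrableOn_iff_integrable_of_support_subset (s := tsupport φ)]
      · exact h1
      · intro x hx
        by_contra hx'
        exact hx (by simp [hsupp x hx'])
    exact h2.integrableOn
  ext i
  have hproj1 : (∫ x in D, (fderiv ℝ φ x v) • f x) i = ∫ x in D, (fderiv ℝ φ x v) * f x i := by
    have := (EuclideanSpace.proj i : EuclideanSpace ℝ (Fin n) →L[ℝ] ℝ).integral_comp_comm hint1
    exact this.symm
  have hproj2 : (- ∫ x in D, φ x • fderiv ℝ f x v) i = - ∫ x in D, φ x * (fderiv ℝ f x v) i := by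
    have := (EuclideanSpace.proj i : EuclideanSpace ℝ (Fin n) →L[ℝ] ℝ).integral_comp_comm hint2
    rw [PiLp.neg_apply]
    congr 1
    exact this.symm
  rw [hproj1, hproj2]
  -- extend the coordinate
  have hfi : LipschitzOnWith C (fun x => f x i) D := by
    intro x hx y hy
    have h1 := hf hx hy
    refine le_trans ?_ h1
    have h2 : dist (f x i) (f y i) ≤ dist (f x) (f y) := by
      rw [EuclideanSpace.dist_eq]
      rw [← Real.sqrt_sq (dist_nonneg (x := f x i) (y := f y i))]
      apply Real.sqrt_le_sqrt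
      exact Finset.single_le_sum (f := fun i => dist (f x i) (f y i) ^ 2)
        (fun j _ => by positivity) (Finset.mem_univ i)
    rw [edist_dist, edist_dist]
    exact ENNReal.ofReal_le_ofReal h2
  obtain ⟨G, hG, hGf⟩ := hfi.extend_real
  obtain ⟨C', hC'⟩ : ∃ C', LipschitzWith C' φ :=
    ContDiff.lipschitzWith_of_hasCompactSupport hφc hφ1 (by norm_num)
  have hmain := LipschitzWith.integral_lineDeriv_mul_eq (μ := (volume : Measure (EuclideanSpace ℝ (Fin n))))
    hG hC' hφc v
  have hφdiff : ∀ x, lineDeriv ℝ φ x (-v) = - fderiv ℝ φ x v := by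
    intro x
    rw [(hφ1.differentiable (by norm_num) x).lineDeriv_eq_fderiv, map_neg]
  have e1 : ∫ x, lineDeriv ℝ φ x (-v) * G x = - ∫ x in D, (fderiv ℝ φ x v) * f x i := by
    rw [← integral_neg, ← setIntegral_eq_integral_of_forall_compl_eq_zero (s := D)]
    · apply setIntegral_congr_fun hD.measurableSet
      intro x hx
      simp only
      rw [hφdiff, ← hGf hx]
      ring
    · intro x hx
      rw [hφdiff, hsuppd x (fun h => hx (hφD h))]
      simp
  have e2 : ∫ x, lineDeriv ℝ G x v * φ x = ∫ x in D, φ x * (fderiv ℝ f x v) i := by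
    rw [← setIntegral_eq_integral_of_forall_compl_eq_zero (s := D)]
    · apply integral_congr_ae
      have hmem : ∀ᵐ x ∂(volume.restrict D), x ∈ D := ae_restrict_mem hD.measurableSet
      filter_upwards [hdiff, hmem] with x hx hxD
      have h1 : HasFDerivAt (fun y => f y i)
          ((EuclideanSpace.proj i : EuclideanSpace ℝ (Fin n) →L[ℝ] ℝ) ∘L fderiv ℝ f x) x :=
        (EuclideanSpace.proj i : EuclideanSpace ℝ (Fin n) →L[ℝ] ℝ).hasFDerivAt.comp x
          hx.hasFDerivAt
      have h2 : HasFDerivAt G
          ((EuclideanSpace.proj i : EuclideanSpace ℝ (Fin n) →L[ℝ] ℝ) ∘L fderiv ℝ f x) x := by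
        apply h1.congr_of_eventuallyEq
        filter_upwards [hD.mem_nhds hxD] with y hy
        exact (hGf hy).symm
      rw [h2.differentiableAt.lineDeriv_eq_fderiv, h2.fderiv, mul_comm]
      rfl
    · intro x hx
      rw [hsupp x (fun h => hx (hφD h)), mul_zero]
  rw [e1, e2] at hmain
  linarith

/-- A Lipschitz map with a.e. positive Jacobian bounded below is quasiregular. -/
theorem quasiregular_of_lipschitzOn {n : ℕ} {D : Set (EuclideanSpace ℝ (Fin n))} (hD : IsOpen D)
    {f : EuclideanSpace ℝ (Fin n) → EuclideanSpace ℝ (Fin n)} {C : ℝ≥0}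
    (hf : LipschitzOnWith C f D)
    (hdiff : ∀ᵐ x ∂(volume.restrict D), DifferentiableAt ℝ f x) {K : ℝ} (hK : 1 ≤ K)
    (hfK : ∀ᵐ x ∂(volume.restrict D), ‖fderiv ℝ f x‖ ^ n ≤ K * (fderiv ℝ f x).det) :
    IsQuasiregular D f := by
  have hcf : ContinuousOn f D := hf.continuousOn
  refine ⟨hcf, fderiv ℝ f, ?_, weakDerivative_of_lipschitzOn hD hf hdiff, K, hK, hfK⟩
  intro A hA hAD
  have hfin : IsFiniteMeasure (volume.restrict A) :=
    ⟨by rw [Measure.restrict_apply_univ]; exact hA.measure_lt_top⟩
  constructor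
  · obtain ⟨R, hR⟩ := hA.exists_bound_of_continuousOn (hcf.mono hAD)
    refine MemLp.of_bound ((hcf.mono hAD).aestronglyMeasurable hA.measurableSet) R ?_
    exact (ae_restrict_iff' hA.measurableSet).2 (Eventually.of_forall hR)
  · refine MemLp.of_bound (measurable_fderiv ℝ f).aestronglyMeasurable C ?_
    refine (ae_restrict_iff' hA.measurableSet).2 (Eventually.of_forall (fun x hx => ?_))
    exact norm_fderiv_le_of_lipschitzOn ℝ (hD.mem_nhds (hAD hx)) hf

end Q79.QR
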