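import Mathlib

/-!
# Discrete Schrödinger equations
-/

set_option autoImplicit false

namespace Pool.Agent.Q79.SM

open Finset

/-- the fundamental solution with values `0, 1` -/
def cs (t : ℕ → ℝ) : ℕ → ℝ
  | 0 => 0
  | 1 => 1
  | (j + 2) => t (j + 1) * cs t (j + 1) - cs t j

/-- the fundamental solution with values `1, 0` -/
def cc (t : ℕ → ℝ) : ℕ → ℝ
  | 0 => 1
  | 1 => 0
  | (j + 2) => t (j + 1) * cc t (j + 1) - cc t j

theorem cs_zero (t : ℕ → ℝ) : cs t 0 = 0 := rfl
theorem cs_one (t : ℕ → ℝ) : cs t 1 = 1 := rfl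
theorem cs_succ (t : ℕ → ℝ) (j : ℕ) : cs t (j + 2) = t (j + 1) * cs t (j + 1) - cs t j := rfl
theorem cc_zero (t : ℕ → ℝ) : cc t 0 = 1 := rfl
theorem cc_one (t : ℕ → ℝ) : cc t 1 = 0 := rfl
theorem cc_succ (t : ℕ → ℝ) (j : ℕ) : cc t (j + 2) = t (j + 1) * cc t (j + 1) - cc t j := rfl

theorem wronskian (t : ℕ → ℝ) (j : ℕ) : cc t j * cs t (j + 1) - cc t (j + 1) * cs t j = 1 := by
  induction j with
  | zero => simp [cs_zero, cs_one, cc_zero]
  | succ j ih =>
    rw [cs_succ, cc_succ]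
    linear_combination ih

/-- growth of the fundamental solution -/
theorem growth (t : ℕ → ℝ) (q : ℕ) (h : ∀ i < q, 2 ≤ |t (i + 1)|) :
    |cs t q| ≤ |cs t (q + 1)| ∧ ∏ i ∈ range q, (|t (i + 1)| - 1) ≤ |cs t (q + 1)| := by
  induction q with
  | zero => simp [cs_zero, cs_one]
  | succ q ih =>
    obtain ⟨h1, h2⟩ := ih fun i hi => h i (by omega)
    have h3 := h q (by omega)
    have h4 : (|t (q + 1)| - 1) * |cs t (q + 1)| ≤ |cs t (q + 2)| := by
      rw [cs_succ]
      have h5 := abs_sub_abs_le_abs_sub (t (q + 1) * cs t (q + 1)) (cs t q)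
      rw [abs_mul] at h5
      linarith
    have h6 : 0 ≤ |cs t (q + 1)| := abs_nonneg _
    constructor
    · have : |cs t (q + 1)| ≤ (|t (q + 1)| - 1) * |cs t (q + 1)| := by nlinarith
      linarith
    · rw [prod_range_succ]
      have h7 : (∏ i ∈ range q, (|t (i + 1)| - 1)) * (|t (q + 1)| - 1) ≤
          |cs t (q + 1)| * (|t (q + 1)| - 1) :=
        mul_le_mul_of_nonneg_right h2 (by linarith)
      linarith

theorem prod_ge_one (t : ℕ → ℝ) (q : ℕ) (h : ∀ i < q, 2 ≤ |t (i + 1)|) :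
    1 ≤ ∏ i ∈ range q, (|t (i + 1)| - 1) := by
  calc (1:ℝ) = ∏ i ∈ range q, (1:ℝ) := by rw [prod_const_one]
    _ ≤ _ := prod_le_prod (fun _ _ => zero_le_one) fun i hi => by
        have := h i (mem_range.1 hi); linarith

/-! ### the monodromy matrix -/

/-- one step -/
def M (τ : ℝ) : Matrix (Fin 2) (Fin 2) ℝ := !![τ, -1; 1, 0]

/-- the product of the steps -/
noncomputable def mono (t : ℕ → ℝ) : ℕ → Matrix (Fin 2) (Fin 2) ℝ
  | 0 => 1
  | (k + 1) => M (t k) * mono t k

theorem mono_eq (t : ℕ → ℝ) (k : ℕ) : mono t (k + 1) =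
    !![cc t (k + 1) + cs t (k + 1) * t 0, -cs t (k + 1); cc t k + cs t k * t 0, -cs t k] := by
  induction k with
  | zero =>
    change M (t 0) * 1 = _
    rw [mul_one, cc_one, cs_one, cc_zero, cs_zero]
    unfold M
    norm_num
  | succ k ih =>
    change M (t (k + 1)) * mono t (k + 1) = _
    rw [ih]
    unfold M
    rw [Matrix.mul_fin_two, cc_succ, cs_succ]
    congr 1
    ext i j
    fin_cases i <;> fin_cases j <;> simp <;> ring

theorem trace_mono (t : ℕ → ℝ) (k : ℕ) : (mono t (k + 1)).trace =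
    cc t (k + 1) + cs t (k + 1) * t 0 - cs t k := by
  rw [mono_eq, Matrix.trace_fin_two]
  simp
  ring

/-- the trace does not change when the orbit is shifted -/
theorem trace_shift (t : ℕ → ℝ) (p : ℕ) (h : t p = t 0) :
    (mono (fun j => t (j + 1)) p).trace = (mono t p).trace := by
  have h1 : ∀ k, mono (fun j => t (j + 1)) k * M (t 0) = mono t (k + 1) := by
    intro k
    induction k with
    | zero => change 1 * M (t 0) = M (t 0) * 1; rw [one_mul, mul_one]
    | succ k ih =>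
      change M (t (k + 1)) * mono _ k * M (t 0) = M (t (k + 1)) * mono t (k + 1)
      rw [mul_assoc, ih]
  have h2 : mono (fun j => t (j + 1)) p * M (t 0) = M (t 0) * mono t p := by
    rw [h1]; change M (t p) * _ = _; rw [h]
  set N : Matrix (Fin 2) (Fin 2) ℝ := !![0, 1; -1, t 0] with hN
  have h3 : M (t 0) * N = 1 := by
    unfold M
    rw [hN, Matrix.mul_fin_two]
    ext i j
    fin_cases i <;> fin_cases j <;> simp
  calc (mono (fun j => t (j + 1)) p).trace = (mono (fun j => t (j + 1)) p * (M (t 0) * N)).trace := by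
        rw [h3, mul_one]
    _ = (M (t 0) * mono t p * N).trace := by rw [← mul_assoc, h2]
    _ = (M (t 0) * (mono t p * N)).trace := by rw [mul_assoc]
    _ = ((mono t p * N) * M (t 0)).trace := Matrix.trace_mul_comm _ _
    _ = (mono t p * (N * M (t 0))).trace := by rw [mul_assoc]
    _ = (mono t p).trace := by
        rw [mul_eq_one_comm.1 h3, mul_one]

/-! ### solutions with boundary values one -/

/-- the solution with `v 0 = v (q + 1) = 1` -/
noncomputable def vv (t : ℕ → ℝ) (q : ℕ) (j : ℕ) : ℝ :=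
  cc t j + (1 - cc t (q + 1)) / cs t (q + 1) * cs t j

theorem vv_zero (t : ℕ → ℝ) (q : ℕ) : vv t q 0 = 1 := by
  unfold vv; rw [cc_zero, cs_zero]; ring

theorem vv_last {t : ℕ → ℝ} {q : ℕ} (h : cs t (q + 1) ≠ 0) : vv t q (q + 1) = 1 := by
  unfold vv; field_simp; ring

theorem vv_rec (t : ℕ → ℝ) (q j : ℕ) : vv t q (j + 2) + vv t q j = t (j + 1) * vv t q (j + 1) := by
  unfold vv; rw [cc_succ, cs_succ]; ring

/-- the sum of the two neighbours of the boundary points -/
noncomputable def rho (t : ℕ → ℝ) (q : ℕ) : ℝ := vv t q 1 + vv t q q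

theorem rho_eq {t : ℕ → ℝ} {q : ℕ} (h : cs t (q + 1) ≠ 0) :
    (t 0 - rho t q) * cs t (q + 1) = (mono t (q + 1)).trace - 2 := by
  rw [trace_mono]
  unfold rho vv
  rw [cc_one, cs_one]
  have hw := wronskian t q
  field_simp
  linear_combination -hw

/-- Green's identity -/
theorem green (v u : ℕ → ℝ) (q : ℕ) :
    ∑ i ∈ range q, (v (i + 1) * (u (i + 2) + u i) - u (i + 1) * (v (i + 2) + v i)) =
      (v q * u (q + 1) - v (q + 1) * u q) - (v 0 * u 1 - v 1 * u 0) := by
  induction q with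
  | zero => simp
  | succ q ih => rw [sum_range_succ, ih]; ring

/-- the maximum principle -/
theorem maxp {w τ r : ℕ → ℝ} {q : ℕ} {T b r₀ : ℝ} (hT : 2 < T) (hb : 0 ≤ b) (hr₀ : 0 ≤ r₀)
    (hrec : ∀ i < q, w (i + 2) + w i = τ (i + 1) * w (i + 1) + r (i + 1))
    (hτ : ∀ i < q, T ≤ |τ (i + 1)|) (hr : ∀ i < q, |r (i + 1)| ≤ r₀) (h0 : |w 0| ≤ b)
    (hl : |w (q + 1)| ≤ b) : ∀ i < q, |w (i + 1)| ≤ 2 * b / T + r₀ / (T - 2) := by
  intro i hi
  have hne : (range q).Nonempty := ⟨i, mem_range.2 hi⟩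
  obtain ⟨k, hk, hmax⟩ := exists_max_image (range q) (fun i => |w (i + 1)|) hne
  rw [mem_range] at hk
  set W := |w (k + 1)| with hW
  have hW0 : 0 ≤ W := abs_nonneg _
  have hnb : ∀ j, j ≤ q + 1 → |w j| ≤ max W b := by
    intro j hj
    rcases Nat.eq_zero_or_pos j with h | h
    · rw [h]; exact h0.trans (le_max_right _ _)
    · obtain ⟨j', rfl⟩ : ∃ j', j = j' + 1 := ⟨j - 1, by omega⟩
      by_cases h2 : j' = q
      · rw [h2]; exact hl.trans (le_max_right _ _)
      · exact (hmax j' (mem_range.2 (by omega))).trans (le_max_left _ _)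
  have h1 : T * W ≤ 2 * max W b + r₀ := by
    have h2 : |τ (k + 1) * w (k + 1)| = |w (k + 2) + w k - r (k + 1)| := by
      congr 1; rw [hrec k hk]; ring
    have h3 : T * W ≤ |τ (k + 1) * w (k + 1)| := by
      rw [abs_mul]; exact mul_le_mul_of_nonneg_right (hτ k hk) hW0
    have h4 : |w (k + 2) + w k - r (k + 1)| ≤ |w (k + 2)| + |w k| + |r (k + 1)| := by
      refine (abs_sub _ _).trans ?_
      linarith [abs_add_le (w (k + 2)) (w k)]
    have h5 := hnb (k + 2) (by omega)
    have h6 := hnb k (by omega)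
    have h7 := hr k hk
    linarith
  have h8 : W ≤ 2 * b / T + r₀ / (T - 2) := by
    have e1 : 0 ≤ 2 * b / T := by positivity
    have e2 : 0 ≤ r₀ / (T - 2) := div_nonneg hr₀ (by linarith)
    rcases le_total b W with h | h
    · rw [max_eq_left h] at h1
      have : W ≤ r₀ / (T - 2) := by rw [le_div_iff₀ (by linarith)]; linarith
      linarith
    · rw [max_eq_right h] at h1
      have : W ≤ (2 * b + r₀) / T := by rw [le_div_iff₀ (by linarith)]; linarith
      have e3 : r₀ / T ≤ r₀ / (T - 2) := div_le_div_of_nonneg_left hr₀ (by linarith) (by linarith)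
      rw [add_div] at this
      linarith
  exact (hmax i (mem_range.2 hi)).trans h8

/-- the sum of the absolute values -/
theorem sump {w τ : ℕ → ℝ} {q : ℕ} {T : ℝ} (hT : 2 < T)
    (hrec : ∀ i < q, w (i + 2) + w i = τ (i + 1) * w (i + 1))
    (hτ : ∀ i < q, T ≤ |τ (i + 1)|) :
    ∑ i ∈ range q, |w (i + 1)| ≤ (|w 0| + |w (q + 1)|) / (T - 2) := by
  set S := ∑ i ∈ range q, |w (i + 1)| with hS
  have h1 : T * S ≤ ∑ i ∈ range q, (|w (i + 2)| + |w i|) := by
    rw [hS, mul_sum]
    apply sum_le_sum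
    intro i hi
    rw [mem_range] at hi
    calc T * |w (i + 1)| ≤ |τ (i + 1)| * |w (i + 1)| :=
          mul_le_mul_of_nonneg_right (hτ i hi) (abs_nonneg _)
      _ = |w (i + 2) + w i| := by rw [hrec i hi, abs_mul]
      _ ≤ _ := abs_add_le _ _
  have h2 : ∑ i ∈ range q, |w (i + 2)| ≤ S + |w (q + 1)| := by
    have e1 := sum_range_succ' (fun i => |w (i + 1)|) q
    have e2 := sum_range_succ (fun i => |w (i + 1)|) q
    simp only [zero_add] at e1
    have e3 : 0 ≤ |w 1| := abs_nonneg _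
    linarith
  have h3 : ∑ i ∈ range q, |w i| ≤ S + |w 0| := by
    have e1 := sum_range_succ' (fun i => |w i|) q
    have e2 := sum_range_succ (fun i => |w i|) q
    have e3 : 0 ≤ |w q| := abs_nonneg _
    linarith
  rw [sum_add_distrib] at h1
  rw [le_div_iff₀ (by linarith)]
  linarith

end Pool.Agent.Q79.SM
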