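import Mathlib
import Pool.Agent.Q79.SMa

/-!
# The standard map: slopes and secants
-/

set_option autoImplicit false

namespace Pool.Agent.Q79.SM

open Finset Real

/-- the derivative of `2 x + a sin 2πx` -/
noncomputable def slope (a x : ℝ) : ℝ := 2 + 2 * π * a * cos (2 * π * x)

theorem hasDeriv (a x : ℝ) : HasDerivAt (fun x => 2 * x + a * sin (2 * π * x)) (slope a x) x := by
  have h1 : HasDerivAt (fun x => 2 * π * x) (2 * π) x := by
    simpa using (hasDerivAt_id x).const_mul (2 * π)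
  have h2 := ((hasDerivAt_id x).const_mul (2:ℝ)).add (h1.sin.const_mul a)
  refine h2.congr_deriv ?_
  unfold slope
  ring

open Classical in
/-- the slope of the secant -/
noncomputable def sec (a x x' : ℝ) : ℝ :=
  if x' = x then slope a x else 2 + a * (sin (2 * π * x') - sin (2 * π * x)) / (x' - x)

theorem sec_mul (a x x' : ℝ) :
    sec a x x' * (x' - x) = 2 * (x' - x) + a * (sin (2 * π * x') - sin (2 * π * x)) := by
  unfold sec
  split_ifs with h
  · rw [h]; ring
  · have : x' - x ≠ 0 := sub_ne_zero.2 h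
    field_simp

theorem sec_eq (a x x' : ℝ) : ∃ ξ ∈ Set.uIcc x x', sec a x x' = slope a ξ := by
  by_cases h : x' = x
  · refine ⟨x, Set.left_mem_uIcc, ?_⟩
    unfold sec
    rw [if_pos h]
  · have hcont : ∀ s t : ℝ, ContinuousOn (fun x => 2 * x + a * sin (2 * π * x)) (Set.Icc s t) :=
      fun s t => by fun_prop
    rcases lt_or_gt_of_ne h with h1 | h1
    · obtain ⟨ξ, hξ, he⟩ := exists_hasDerivAt_eq_slope (fun x => 2 * x + a * sin (2 * π * x))
        (fun x => slope a x) h1 (hcont _ _) fun y _ => hasDeriv a y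
      refine ⟨ξ, ?_, ?_⟩
      · rw [Set.uIcc_of_ge h1.le]; exact ⟨hξ.1.le, hξ.2.le⟩
      · rw [he]
        unfold sec
        rw [if_neg h]
        have h2 : x' - x ≠ 0 := sub_ne_zero.2 h
        have h3 : x - x' ≠ 0 := sub_ne_zero.2 (Ne.symm h)
        have e : x' - x = -(x - x') := by ring
        rw [e]
        field_simp
        ring
    · obtain ⟨ξ, hξ, he⟩ := exists_hasDerivAt_eq_slope (fun x => 2 * x + a * sin (2 * π * x))
        (fun x => slope a x) h1 (hcont _ _) fun y _ => hasDeriv a y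
      refine ⟨ξ, ?_, ?_⟩
      · rw [Set.uIcc_of_le h1.le]; exact ⟨hξ.1.le, hξ.2.le⟩
      · rw [he]
        unfold sec
        rw [if_neg h]
        have h2 : x' - x ≠ 0 := sub_ne_zero.2 h
        field_simp
        ring

theorem uIcc_abs {x x' ξ h : ℝ} (hξ : ξ ∈ Set.uIcc x x') : |ξ - h| ≤ max |x - h| |x' - h| := by
  rw [Set.mem_uIcc] at hξ
  rw [abs_le]
  rcases hξ with ⟨h1, h2⟩ | ⟨h1, h2⟩
  · constructor
    · have := neg_abs_le (x - h)
      have := le_max_left |x - h| |x' - h|
      linarith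
    · have := le_abs_self (x' - h)
      have := le_max_right |x - h| |x' - h|
      linarith
  · constructor
    · have := neg_abs_le (x' - h)
      have := le_max_right |x - h| |x' - h|
      linarith
    · have := le_abs_self (x - h)
      have := le_max_left |x - h| |x' - h|
      linarith

theorem uIcc_dist {x x' ξ : ℝ} (hξ : ξ ∈ Set.uIcc x x') : |ξ - x| ≤ |x' - x| := by
  have := uIcc_abs (h := x) hξ
  rw [sub_self, abs_zero] at this
  exact this.trans (max_le (abs_nonneg _) le_rfl)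

theorem cos_lip (u v : ℝ) : |cos u - cos v| ≤ |u - v| := by
  have h := Real.cos_sub_cos u v
  rw [h, abs_mul, abs_mul, abs_neg, abs_two]
  have h1 : |sin ((u - v) / 2)| ≤ |(u - v) / 2| := Real.abs_sin_le_abs
  have h2 : |sin ((u + v) / 2)| ≤ 1 := abs_sin_le_one _
  rw [abs_div, abs_two] at h1
  nlinarith [abs_nonneg (sin ((u - v) / 2)), abs_nonneg (sin ((u + v) / 2))]

theorem slope_lip (a a' x x' : ℝ) :
    |slope a' x' - slope a x| ≤ 4 * π ^ 2 * |a| * |x' - x| + 2 * π * |a' - a| := by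
  have e : slope a' x' - slope a x = 2 * π * a * (cos (2 * π * x') - cos (2 * π * x)) +
      2 * π * (a' - a) * cos (2 * π * x') := by unfold slope; ring
  rw [e]
  refine (abs_add_le _ _).trans (add_le_add ?_ ?_)
  · rw [abs_mul, abs_mul, abs_of_pos (by positivity : 0 < 2 * π)]
    have h1 := cos_lip (2 * π * x') (2 * π * x)
    rw [← mul_sub, abs_mul, abs_of_pos (by positivity : 0 < 2 * π)] at h1
    calc 2 * π * |a| * |cos (2 * π * x') - cos (2 * π * x)| ≤ 2 * π * |a| * (2 * π * |x' - x|) :=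
          mul_le_mul_of_nonneg_left h1 (by positivity)
      _ = _ := by ring
  · rw [abs_mul, abs_mul, abs_of_pos (by positivity : 0 < 2 * π)]
    exact mul_le_of_le_one_right (by positivity) (abs_cos_le_one _)

theorem sec_near (a x x' : ℝ) : |sec a x x' - slope a x| ≤ 4 * π ^ 2 * |a| * |x' - x| := by
  obtain ⟨ξ, hξ, he⟩ := sec_eq a x x'
  rw [he]
  have h1 := slope_lip a a x ξ
  rw [sub_self, abs_zero, mul_zero, add_zero] at h1
  exact h1.trans (mul_le_mul_of_nonneg_left (uIcc_dist hξ) (by positivity))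

/-- the absolute value of the cosine on a branch -/
theorem abs_cos_branch {x h : ℝ} (hh : h = 0 ∨ h = 1 / 2) (hx : |x - h| ≤ 1 / 4) :
    |cos (2 * π * x)| = cos (2 * π * |x - h|) := by
  have hpi := Real.pi_pos
  have h1 : |cos (2 * π * x)| = |cos (2 * π * (x - h))| := by
    rcases hh with rfl | rfl
    · rw [sub_zero]
    · rw [show 2 * π * (x - 1 / 2) = 2 * π * x - π by ring, cos_sub_pi, abs_neg]
  rw [h1]
  have h2 : cos (2 * π * (x - h)) = cos (2 * π * |x - h|) := by
    rcases abs_choice (x - h) with h3 | h3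
    · rw [h3]
    · rw [h3, mul_neg, cos_neg]
  rw [h2, abs_of_nonneg]
  apply cos_nonneg_of_neg_pi_div_two_le_of_le
  · have : 0 ≤ 2 * π * |x - h| := by positivity
    linarith
  · nlinarith [abs_nonneg (x - h)]

/-- secants on a branch are large -/
theorem sec_large {a a' x x' h : ℝ} (hh : h = 0 ∨ h = 1 / 2) (ha : 1000 ≤ a) (ha' : a' ≤ a + 1)
    (ha'' : 0 < a')
    (hx : |x - h| ≤ 1 / 4) (hx' : |x' - h| ≤ 1 / 4) (hs : 1000 ≤ |slope a x|)
    (hs' : 1000 ≤ |slope a' x'|) : 980 ≤ |sec a x x'| := by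
  have hpi := Real.pi_pos
  obtain ⟨ξ, hξ, he⟩ := sec_eq a x x'
  rw [he]
  have h1 := uIcc_abs (h := h) hξ
  have hξ4 : |ξ - h| ≤ 1 / 4 := h1.trans (max_le hx hx')
  have hgen : ∀ b y : ℝ, 0 < b → 1000 ≤ |slope b y| → 998 ≤ 2 * π * b * |cos (2 * π * y)| := by
    intro b y hb hy
    unfold slope at hy
    have h2 := abs_add_le 2 (2 * π * b * cos (2 * π * y))
    rw [abs_two, abs_mul, abs_of_pos (by positivity : 0 < 2 * π * b)] at h2
    linarith
  have h2 := hgen a x (by linarith) hs
  have h3 := hgen a' x' ha'' hs'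
  have h4 : 988 ≤ 2 * π * a * |cos (2 * π * x')| := by
    have hc : 0 ≤ 2 * π * |cos (2 * π * x')| := by positivity
    have h5 : 2 * π * a' * |cos (2 * π * x')| ≤ 2 * π * (a + 1) * |cos (2 * π * x')| := by
      have : 2 * π * |cos (2 * π * x')| * a' ≤ 2 * π * |cos (2 * π * x')| * (a + 1) :=
        mul_le_mul_of_nonneg_left ha' hc
      linarith
    have h6 : 2 * π * |cos (2 * π * x')| ≤ 8 := by
      have := abs_cos_le_one (2 * π * x')
      have h7 := Real.pi_lt_four
      nlinarith
    linarith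
  have hcos : min |cos (2 * π * x)| |cos (2 * π * x')| ≤ |cos (2 * π * ξ)| := by
    rw [abs_cos_branch hh hξ4, abs_cos_branch hh hx, abs_cos_branch hh hx']
    rcases le_total |x - h| |x' - h| with h5 | h5
    · rw [max_eq_right h5] at h1
      refine (min_le_right _ _).trans ?_
      apply cos_le_cos_of_nonneg_of_le_pi (by positivity)
      · nlinarith
      · nlinarith
    · rw [max_eq_left h5] at h1
      refine (min_le_left _ _).trans ?_
      apply cos_le_cos_of_nonneg_of_le_pi (by positivity)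
      · nlinarith
      · nlinarith
  have h5 : 988 ≤ 2 * π * a * |cos (2 * π * ξ)| := by
    have ha0 : 0 ≤ 2 * π * a := by have : 0 < a := by linarith
                                   positivity
    refine le_trans ?_ (mul_le_mul_of_nonneg_left hcos ha0)
    rcases min_choice |cos (2 * π * x)| |cos (2 * π * x')| with h6 | h6
    · rw [h6]; linarith
    · rw [h6]; exact h4
  unfold slope
  have h6 := abs_sub_abs_le_abs_sub (2 * π * a * cos (2 * π * ξ)) (-2)
  rw [abs_mul, abs_of_pos (by have : 0 < a := by linarith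
                              positivity : 0 < 2 * π * a), abs_neg, abs_two] at h6
  have e : 2 * π * a * cos (2 * π * ξ) - -2 = 2 + 2 * π * a * cos (2 * π * ξ) := by ring
  rw [e] at h6
  linarith

/-! ### the critical points -/

/-- a point of the critical strip -/
theorem crit_near {a x ε : ℝ} (hε : ε = 1 ∨ ε = -1) (ha : 0 < a) (hx : |x - ε / 4| ≤ 1 / 4)
    (hs : |slope a x| ≤ 1000) : |x - ε / 4| ≤ 40 / a := by
  have hpi := Real.pi_pos
  have hpi3 := Real.pi_gt_three
  set d := x - ε / 4 with hd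
  have h1 : |cos (2 * π * x)| = |sin (2 * π * d)| := by
    rcases hε with rfl | rfl
    · have : 2 * π * x = 2 * π * d + π / 2 := by rw [hd]; ring
      rw [this, cos_add_pi_div_two, abs_neg]
    · have : 2 * π * x = 2 * π * d - π / 2 := by rw [hd]; ring
      rw [this, cos_sub_pi_div_two]
  have h2 : 4 * |d| ≤ |sin (2 * π * d)| := by
    have h3 := Real.mul_abs_le_abs_sin (x := 2 * π * d) (by
      rw [abs_mul, abs_of_pos (by positivity : 0 < 2 * π)]; nlinarith)
    rw [abs_mul, abs_of_pos (by positivity : 0 < 2 * π)] at h3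
    have : 2 / π * (2 * π * |d|) = 4 * |d| := by field_simp; ring
    linarith
  have h3 : 2 * π * a * |cos (2 * π * x)| ≤ 1002 := by
    unfold slope at hs
    have h4 := abs_sub_abs_le_abs_sub (2 * π * a * cos (2 * π * x)) (-2)
    rw [abs_mul, abs_of_pos (by positivity : 0 < 2 * π * a), abs_neg, abs_two] at h4
    have e : 2 * π * a * cos (2 * π * x) - -2 = 2 + 2 * π * a * cos (2 * π * x) := by ring
    rw [e] at h4
    linarith
  rw [h1] at h3
  rw [le_div_iff₀ ha]
  have h5 : 2 * π * a * (4 * |d|) ≤ 1002 :=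
    (mul_le_mul_of_nonneg_left h2 (by positivity)).trans h3
  have hpi314 := Real.pi_gt_d2
  have h6 : 0 ≤ |d| * a := by positivity
  nlinarith

theorem crit_cos {a x ε : ℝ} (hε : ε = 1 ∨ ε = -1) (ha : 10 ^ 7 ≤ a) (hx : |x - ε / 4| ≤ 40 / a) :
    ε * sin (2 * π * x) = cos (2 * π * (x - ε / 4)) ∧
    1 - 32000 / a ^ 2 ≤ cos (2 * π * (x - ε / 4)) ∧ cos (2 * π * (x - ε / 4)) ≤ 1 := by
  have ha0 : 0 < a := by linarith
  refine ⟨?_, ?_, cos_le_one _⟩
  · rcases hε with rfl | rfl
    · rw [show 2 * π * (x - 1 / 4) = 2 * π * x - π / 2 by ring, cos_sub_pi_div_two, one_mul]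
    · rw [show 2 * π * (x - -1 / 4) = 2 * π * x + π / 2 by ring, cos_add_pi_div_two]; ring
  · have h1 := Real.one_sub_sq_div_two_le_cos (x := 2 * π * (x - ε / 4))
    refine le_trans ?_ h1
    have h2 : (2 * π * (x - ε / 4)) ^ 2 = 4 * π ^ 2 * |x - ε / 4| ^ 2 := by rw [sq_abs]; ring
    rw [h2]
    have h3 : |x - ε / 4| ^ 2 ≤ (40 / a) ^ 2 := pow_le_pow_left₀ (abs_nonneg _) hx 2
    have h4 : π ^ 2 ≤ 10 := by
      have := Real.pi_lt_d2
      have := Real.pi_pos
      nlinarith
    have h5 : 4 * π ^ 2 * |x - ε / 4| ^ 2 ≤ 4 * 10 * (40 / a) ^ 2 :=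
      mul_le_mul (by linarith) h3 (by positivity) (by norm_num)
    have h6 : 4 * 10 * (40 / a) ^ 2 = 2 * (32000 / a ^ 2) := by ring
    linarith

/-- the slopes in the critical strip -/
theorem crit_slope {a a' x x' ε : ℝ} (hε : ε = 1 ∨ ε = -1) (ha : 10 ^ 7 ≤ a) (ha' : 10 ^ 7 ≤ a')
    (hx : |x - ε / 4| ≤ 40 / a) (hx' : |x' - ε / 4| ≤ 40 / a') :
    35 * a * |x' - x| ≤ |slope a' x' - slope a x| + 2 * π * |a' - a| := by
  have hpi := Real.pi_pos
  have ha0 : 0 < a := by linarith
  have ha0' : 0 < a' := by linarith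
  have e : slope a' x' - slope a x = 2 * π * a * (cos (2 * π * x') - cos (2 * π * x)) +
      2 * π * (a' - a) * cos (2 * π * x') := by unfold slope; ring
  set d := x - ε / 4 with hd
  set d' := x' - ε / 4 with hd'
  have hdd : d' - d = x' - x := by rw [hd, hd']; ring
  have hsmall : ∀ b : ℝ, 10 ^ 7 ≤ b → 40 / b ≤ 1 / 1000 := by
    intro b hb
    rw [div_le_div_iff₀ (by linarith) (by norm_num)]
    linarith
  have hcos : ∀ ξ : ℝ, |ξ| ≤ 1 / 1000 → 99 / 100 ≤ cos (2 * π * ξ) := by
    intro ξ hξ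
    have h1 := Real.one_sub_sq_div_two_le_cos (x := 2 * π * ξ)
    have h2 : (2 * π * ξ) ^ 2 = 4 * π ^ 2 * |ξ| ^ 2 := by rw [sq_abs]; ring
    have h3 : |ξ| ^ 2 ≤ (1 / 1000) ^ 2 := pow_le_pow_left₀ (abs_nonneg _) hξ 2
    have h4 : π ^ 2 ≤ 10 := by
      have := Real.pi_lt_d2
      nlinarith
    have h5 : 4 * π ^ 2 * |ξ| ^ 2 ≤ 4 * 10 * (1 / 1000) ^ 2 :=
      mul_le_mul (by linarith) h3 (by positivity) (by norm_num)
    rw [h2] at h1
    norm_num at h5
    linarith
  -- the cosines
  have hc : 2 * π * (99 / 100) * |x' - x| ≤ |cos (2 * π * x') - cos (2 * π * x)| := by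
    have h1 : |cos (2 * π * x') - cos (2 * π * x)| = |sin (2 * π * d') - sin (2 * π * d)| := by
      rcases hε with rfl | rfl
      · rw [show 2 * π * x' = 2 * π * d' + π / 2 by rw [hd']; ring,
          show 2 * π * x = 2 * π * d + π / 2 by rw [hd]; ring, cos_add_pi_div_two,
          cos_add_pi_div_two, ← neg_sub', abs_neg]
      · rw [show 2 * π * x' = 2 * π * d' - π / 2 by rw [hd']; ring,
          show 2 * π * x = 2 * π * d - π / 2 by rw [hd]; ring, cos_sub_pi_div_two,
          cos_sub_pi_div_two]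
    rw [h1]
    obtain ⟨ξ, hξ, he⟩ := sec_eq 1 d d'
    have h2 := sec_mul 1 d d'
    rw [he] at h2
    unfold slope at h2
    have h3 : sin (2 * π * d') - sin (2 * π * d) = 2 * π * cos (2 * π * ξ) * (x' - x) := by
      rw [← hdd]; linarith
    have h4 : |ξ| ≤ 1 / 1000 := by
      have := uIcc_abs (h := 0) hξ
      simp only [sub_zero] at this
      exact this.trans (max_le (hx.trans (hsmall a ha)) (hx'.trans (hsmall a' ha')))
    have h5 := hcos ξ h4
    rw [h3, abs_mul, abs_mul, abs_of_pos (by positivity : 0 < 2 * π),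
      abs_of_pos (by linarith : 0 < cos (2 * π * ξ))]
    apply mul_le_mul_of_nonneg_right _ (abs_nonneg _)
    exact mul_le_mul_of_nonneg_left h5 (by positivity)
  have h6 : |2 * π * a * (cos (2 * π * x') - cos (2 * π * x))| ≤
      |slope a' x' - slope a x| + 2 * π * |a' - a| := by
    have h7 : 2 * π * a * (cos (2 * π * x') - cos (2 * π * x)) = (slope a' x' - slope a x) -
        2 * π * (a' - a) * cos (2 * π * x') := by rw [e]; ring
    rw [h7]
    refine (abs_sub _ _).trans (add_le_add le_rfl ?_)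
    rw [abs_mul, abs_mul, abs_of_pos (by positivity : 0 < 2 * π)]
    exact mul_le_of_le_one_right (by positivity) (abs_cos_le_one _)
  refine le_trans ?_ h6
  rw [abs_mul, abs_of_pos (by positivity : 0 < 2 * π * a)]
  have h8 : 2 * π * a * (2 * π * (99 / 100) * |x' - x|) ≤
      2 * π * a * |cos (2 * π * x') - cos (2 * π * x)| :=
    mul_le_mul_of_nonneg_left hc (by positivity)
  refine le_trans ?_ h8
  have h9 : 2 * π * a * (2 * π * (99 / 100) * |x' - x|) =
      (4 * π ^ 2 * (99 / 100)) * (a * |x' - x|) := by ring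
  rw [h9, mul_assoc]
  apply mul_le_mul_of_nonneg_right _ (by positivity)
  have := Real.pi_gt_three
  nlinarith

end Pool.Agent.Q79.SM
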