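import Mathlib
import Pool.Agent.Q79.SMb

/-!
# The standard map: two bad orbits with the same itinerary
-/

set_option autoImplicit false

namespace Pool.Agent.Q79.SM

open Finset Real

/-- a normalized periodic orbit of period `q + 1` which visits the critical strip (at the time `0`)
at most once -/
structure Sol (q : ℕ) (m : ℕ → ℤ) (h : ℕ → ℝ) (ε a : ℝ) (x : ℕ → ℝ) : Prop where
  last : x (q + 1) = x 0
  eq : ∀ i < q, x (i + 2) + x i - 2 * x (i + 1) - a * sin (2 * π * x (i + 1)) = m (i + 1)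
  eq0 : x 1 + x q - 2 * x 0 - a * sin (2 * π * x 0) = m 0
  br : ∀ i < q, |x (i + 1) - h (i + 1)| ≤ 1 / 4 ∧ 1000 ≤ |slope a (x (i + 1))|
  cr : |x 0 - ε / 4| ≤ 1 / 4 ∧ |slope a (x 0)| ≤ 1000

/-- the slopes along the orbit -/
noncomputable def sl (a : ℝ) (x : ℕ → ℝ) : ℕ → ℝ := fun j => slope a (x j)

/-- the quantity which is small for bad orbits -/
noncomputable def def0 (q : ℕ) (a : ℝ) (x : ℕ → ℝ) : ℝ := |sl a x 0 - rho (sl a x) q|

theorem close_num {D U W δ : ℝ} (hD : 0 ≤ D) (hD12 : D ≤ 12) (hU : 0 ≤ U) (hW : 0 ≤ W)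
    (hδ : δ ≤ D)
    (h3 : W ≤ 65000) (h2 : U ≤ D / 34 + 31 / 10 ^ 9 * W)
    (h1 : 9 / 10 * W ≤ δ * U + 79 / 2 * U ^ 2 + 5 / 10 ^ 7 * (U + W) ^ 2) : W ≤ D ^ 2 / 8 := by
  have e1 : δ * U ≤ D ^ 2 / 34 + 4 / 10 ^ 7 * W := by
    have : δ * U ≤ D * (D / 34 + 31 / 10 ^ 9 * W) := mul_le_mul hδ h2 hU hD
    nlinarith
  have e2 : W ^ 2 ≤ 65000 * W := by nlinarith
  have e3 : U ^ 2 ≤ D ^ 2 / 578 + 1 / 10 ^ 9 * W := by
    have h4 : U ^ 2 ≤ (D / 34 + 31 / 10 ^ 9 * W) ^ 2 := pow_le_pow_left₀ hU h2 2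
    have h5 : (D / 34 + 31 / 10 ^ 9 * W) ^ 2 ≤ 2 * (D / 34) ^ 2 + 2 * (31 / 10 ^ 9 * W) ^ 2 := by
      nlinarith [sq_nonneg (D / 34 - 31 / 10 ^ 9 * W)]
    nlinarith
  have e4 : (U + W) ^ 2 ≤ 2 * U ^ 2 + 2 * W ^ 2 := by nlinarith [sq_nonneg (U - W)]
  nlinarith

/-- **Two bad orbits with the same itinerary have nearly the same parameter.** -/
theorem pair {q : ℕ} {m : ℕ → ℤ} {h : ℕ → ℝ} {ε a a' : ℝ} {x x' : ℕ → ℝ}
    (hh : ∀ i, h i = 0 ∨ h i = 1 / 2) (hε : ε = 1 ∨ ε = -1) (S : Sol q m h ε a x)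
    (S' : Sol q m h ε a' x') (ha : 10 ^ 7 ≤ a) (ha' : 10 ^ 7 ≤ a') (haa : |a' - a| ≤ 1)
    (hD12 : def0 q a x + def0 q a' x' ≤ 12) :
    a * |a' - a| ≤ (def0 q a x + def0 q a' x') ^ 2 / 8 := by
  have hpi := Real.pi_pos
  have hpi2 : 4 * π ^ 2 ≤ 79 / 2 := by
    have := Real.pi_lt_d4
    nlinarith
  have hpi1 : 2 * π ≤ 63 / 10 := by
    have := Real.pi_lt_d2
    linarith
  have ha0 : 0 < a := by linarith
  have ha0' : 0 < a' := by linarith
  set t := sl a x with ht
  set t' := sl a' x' with ht'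
  set D := def0 q a x + def0 q a' x' with hD
  have hδ0 : 0 ≤ def0 q a x := abs_nonneg _
  have hδ0' : 0 ≤ def0 q a' x' := abs_nonneg _
  set Δ : ℕ → ℝ := fun j => x' j - x j with hΔ
  set u := |Δ 0| with hu
  set w := |a' - a| with hw
  have hu0 : 0 ≤ u := abs_nonneg _
  have hw0 : 0 ≤ w := abs_nonneg _
  set τ : ℕ → ℝ := fun j => sec a (x j) (x' j) with hτ
  have hsec : ∀ j, τ j * Δ j = 2 * Δ j + a * (sin (2 * π * x' j) - sin (2 * π * x j)) := fun j =>
    sec_mul a (x j) (x' j)
  -- the linear equations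
  have F1 : ∀ i < q, Δ (i + 2) + Δ i = τ (i + 1) * Δ (i + 1) +
      (a' - a) * sin (2 * π * x' (i + 1)) := by
    intro i hi
    have e1 := S.eq i hi
    have e2 := S'.eq i hi
    rw [hsec]
    simp only [hΔ]
    linarith
  have F2 : Δ 1 + Δ q = τ 0 * Δ 0 + (a' - a) * sin (2 * π * x' 0) := by
    have e1 := S.eq0
    have e2 := S'.eq0
    rw [hsec]
    simp only [hΔ]
    linarith
  have hlast : Δ (q + 1) = Δ 0 := by simp only [hΔ]; rw [S.last, S'.last]
  have F3 : ∀ i < q, 980 ≤ |τ (i + 1)| := by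
    intro i hi
    obtain ⟨b1, b2⟩ := S.br i hi
    obtain ⟨b1', b2'⟩ := S'.br i hi
    exact sec_large (hh (i + 1)) (by linarith) (by have := (abs_le.1 haa).2; linarith) ha0'
      b1 b1' b2 b2'
  have F4 : ∀ i < q, |Δ (i + 1)| ≤ (u + w) / 400 := by
    intro i hi
    have := maxp (w := Δ) (τ := τ) (r := fun j => (a' - a) * sin (2 * π * x' j)) (q := q)
      (T := 980) (b := u) (r₀ := w) (by norm_num) hu0 hw0 F1 F3 (by
        intro i _
        rw [abs_mul]
        exact mul_le_of_le_one_right hw0 (abs_sin_le_one _)) le_rfl (by rw [hlast]) i hi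
    refine this.trans ?_
    rw [div_add_div _ _ (by norm_num) (by norm_num), div_le_div_iff₀ (by norm_num) (by norm_num)]
    nlinarith
  -- the solutions with boundary values one
  have ht1 : ∀ i < q, 1000 ≤ |t (i + 1)| := fun i hi => (S.br i hi).2
  have ht1' : ∀ i < q, 1000 ≤ |t' (i + 1)| := fun i hi => (S'.br i hi).2
  have hcs : ∀ s : ℕ → ℝ, (∀ i < q, 1000 ≤ |s (i + 1)|) → cs s (q + 1) ≠ 0 := by
    intro s hs
    have h1 := prod_ge_one s q fun i hi => by have := hs i hi; linarith
    have h2 := (growth s q fun i hi => by have := hs i hi; linarith).2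
    intro h0
    rw [h0, abs_zero] at h2
    linarith
  set v := vv t q with hv
  set v' := vv t' q with hv'
  have hv0 : v 0 = 1 := vv_zero t q
  have hv0' : v' 0 = 1 := vv_zero t' q
  have hvl : v (q + 1) = 1 := vv_last (hcs t ht1)
  have hvl' : v' (q + 1) = 1 := vv_last (hcs t' ht1')
  have hvr : ∀ i, v (i + 2) + v i = t (i + 1) * v (i + 1) := fun i => vv_rec t q i
  have hvr' : ∀ i, v' (i + 2) + v' i = t' (i + 1) * v' (i + 1) := fun i => vv_rec t' q i
  have hvs : ∑ i ∈ range q, |v (i + 1)| ≤ 2 / 998 := by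
    have := sump (w := v) (τ := t) (q := q) (T := 1000) (by norm_num) (fun i _ => hvr i) ht1
    rw [hv0, hvl, abs_one] at this
    norm_num at this ⊢
    linarith
  have hvs' : ∑ i ∈ range q, |v' (i + 1)| ≤ 2 / 998 := by
    have := sump (w := v') (τ := t') (q := q) (T := 1000) (by norm_num) (fun i _ => hvr' i) ht1'
    rw [hv0', hvl', abs_one] at this
    norm_num at this ⊢
    linarith
  have hvm : ∀ i < q, |v (i + 1)| ≤ 2 / 1000 := by
    intro i hi
    have := maxp (w := v) (τ := t) (r := fun _ => 0) (q := q) (T := 1000) (b := 1) (r₀ := 0)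
      (by norm_num) (by norm_num) le_rfl (fun i _ => by rw [hvr i, add_zero]) ht1
      (by simp) (by rw [hv0, abs_one]) (by rw [hvl, abs_one]) i hi
    norm_num at this ⊢
    linarith
  -- first relation
  have G1 := green v Δ q
  rw [hv0, hvl, hlast, one_mul, one_mul] at G1
  set X₁ := ∑ i ∈ range q, v (i + 1) * ((τ (i + 1) - t (i + 1)) * Δ (i + 1)) with hX₁
  set X₂ := ∑ i ∈ range q, v (i + 1) * sin (2 * π * x' (i + 1)) with hX₂
  have G2 : ∑ i ∈ range q, (v (i + 1) * (Δ (i + 2) + Δ i) - Δ (i + 1) * (v (i + 2) + v i)) =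
      X₁ + (a' - a) * X₂ := by
    rw [hX₁, hX₂, mul_sum, ← sum_add_distrib]
    apply sum_congr rfl
    intro i hi
    rw [F1 i (mem_range.1 hi), hvr i]
    ring
  have hrho : rho t q = v 1 + v q := rfl
  have G3 : (a' - a) * (sin (2 * π * x' 0) + X₂) = (rho t q - τ 0) * Δ 0 - X₁ := by
    rw [G2] at G1
    rw [hrho]
    linarith
  have hxc := crit_near hε ha0 S.cr.1 S.cr.2
  have hxc' := crit_near hε ha0' S'.cr.1 S'.cr.2
  obtain ⟨c1, c2, c3⟩ := crit_cos hε ha hxc
  obtain ⟨c1', c2', c3'⟩ := crit_cos hε ha' hxc'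
  have hsmall : ∀ b : ℝ, 10 ^ 7 ≤ b → 32000 / b ^ 2 ≤ 1 / 100 := by
    intro b hb
    have : (10:ℝ) ^ 14 ≤ b ^ 2 := by nlinarith
    rw [div_le_div_iff₀ (by positivity) (by norm_num)]
    linarith
  have hsin : 99 / 100 ≤ |sin (2 * π * x' 0)| := by
    have h1 : |sin (2 * π * x' 0)| = |ε * sin (2 * π * x' 0)| := by
      rw [abs_mul]
      rcases hε with rfl | rfl <;> simp
    rw [h1, c1']
    refine le_trans ?_ (le_abs_self _)
    have := hsmall a' ha'
    linarith
  have hX₂b : |X₂| ≤ 2 / 998 := by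
    refine (abs_sum_le_sum_abs _ _).trans (le_trans (sum_le_sum fun i _ => ?_) hvs)
    rw [abs_mul]
    exact mul_le_of_le_one_right (abs_nonneg _) (abs_sin_le_one _)
  have hcoef : 9 / 10 ≤ |sin (2 * π * x' 0) + X₂| := by
    have h1 := abs_sub_abs_le_abs_sub (sin (2 * π * x' 0)) (-X₂)
    rw [sub_neg_eq_add, abs_neg] at h1
    linarith
  have hX₁b : |X₁| ≤ 79 / 2 * a * (((u + w) / 400) ^ 2 * (2 / 998)) := by
    refine (abs_sum_le_sum_abs _ _).trans ?_
    calc ∑ i ∈ range q, |v (i + 1) * ((τ (i + 1) - t (i + 1)) * Δ (i + 1))| ≤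
          ∑ i ∈ range q, |v (i + 1)| * (79 / 2 * a * ((u + w) / 400) ^ 2) := by
            apply sum_le_sum
            intro i hi
            rw [mem_range] at hi
            rw [abs_mul, abs_mul]
            apply mul_le_mul_of_nonneg_left _ (abs_nonneg _)
            have h1 := sec_near a (x (i + 1)) (x' (i + 1))
            rw [abs_of_pos ha0] at h1
            have h2 := F4 i hi
            have h3 : |τ (i + 1) - t (i + 1)| ≤ 79 / 2 * a * ((u + w) / 400) := by
              refine h1.trans ?_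
              calc 4 * π ^ 2 * a * |x' (i + 1) - x (i + 1)| ≤
                  79 / 2 * a * |x' (i + 1) - x (i + 1)| := by
                    apply mul_le_mul_of_nonneg_right _ (abs_nonneg _)
                    exact mul_le_mul_of_nonneg_right hpi2 ha0.le
                _ ≤ _ := mul_le_mul_of_nonneg_left h2 (by positivity)
            calc |τ (i + 1) - t (i + 1)| * |Δ (i + 1)| ≤
                79 / 2 * a * ((u + w) / 400) * ((u + w) / 400) :=
                  mul_le_mul h3 h2 (abs_nonneg _) (by positivity)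
              _ = _ := by ring
      _ = (∑ i ∈ range q, |v (i + 1)|) * (79 / 2 * a * ((u + w) / 400) ^ 2) := by
            rw [sum_mul]
      _ ≤ (2 / 998) * (79 / 2 * a * ((u + w) / 400) ^ 2) :=
            mul_le_mul_of_nonneg_right hvs (by positivity)
      _ = _ := by ring
  have hI : 9 / 10 * w ≤ (def0 q a x + 79 / 2 * a * u) * u +
      79 / 2 * a * (((u + w) / 400) ^ 2 * (2 / 998)) := by
    have h1 : |(a' - a) * (sin (2 * π * x' 0) + X₂)| ≤ |rho t q - τ 0| * u + |X₁| := by
      rw [G3]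
      refine (abs_sub _ _).trans (add_le_add ?_ le_rfl)
      rw [abs_mul]
    rw [abs_mul] at h1
    have h2 : 9 / 10 * w ≤ |a' - a| * |sin (2 * π * x' 0) + X₂| := by
      have := mul_le_mul_of_nonneg_left hcoef hw0
      linarith
    have h3 : |rho t q - τ 0| ≤ def0 q a x + 79 / 2 * a * u := by
      have h4 : rho t q - τ 0 = (rho t q - t 0) - (τ 0 - t 0) := by ring
      rw [h4]
      refine (abs_sub _ _).trans (add_le_add ?_ ?_)
      · rw [abs_sub_comm]; exact le_rfl
      · have h1 := sec_near a (x 0) (x' 0)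
        rw [abs_of_pos ha0] at h1
        refine h1.trans ?_
        apply mul_le_mul_of_nonneg_right _ (abs_nonneg _)
        exact mul_le_mul_of_nonneg_right hpi2 ha0.le
    have h5 := mul_le_mul_of_nonneg_right h3 hu0
    linarith
  -- second relation
  have G4 := green v v' q
  rw [hv0, hvl, hv0', hvl'] at G4
  have G5 : rho t q - rho t' q = ∑ i ∈ range q, (t' (i + 1) - t (i + 1)) *
      (v (i + 1) * v' (i + 1)) := by
    have e1 : ∑ i ∈ range q, (v (i + 1) * (v' (i + 2) + v' i) - v' (i + 1) * (v (i + 2) + v i)) =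
        ∑ i ∈ range q, (t' (i + 1) - t (i + 1)) * (v (i + 1) * v' (i + 1)) := by
      apply sum_congr rfl
      intro i _
      rw [hvr i, hvr' i]
      ring
    rw [← e1, G4]
    change (v 1 + v q) - (v' 1 + v' q) = _
    ring
  have hρ : |rho t q - rho t' q| ≤ (79 / 2 * a * ((u + w) / 400) + 63 / 10 * w) *
      (2 / 1000 * (2 / 998)) := by
    rw [G5]
    refine (abs_sum_le_sum_abs _ _).trans ?_
    calc ∑ i ∈ range q, |(t' (i + 1) - t (i + 1)) * (v (i + 1) * v' (i + 1))| ≤
          ∑ i ∈ range q, (79 / 2 * a * ((u + w) / 400) + 63 / 10 * w) *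
            (2 / 1000 * |v' (i + 1)|) := by
            apply sum_le_sum
            intro i hi
            rw [mem_range] at hi
            rw [abs_mul, abs_mul]
            have h1 := slope_lip a a' (x (i + 1)) (x' (i + 1))
            rw [abs_of_pos ha0] at h1
            have h2 := F4 i hi
            have h3 : |t' (i + 1) - t (i + 1)| ≤ 79 / 2 * a * ((u + w) / 400) + 63 / 10 * w := by
              refine h1.trans (add_le_add ?_ (mul_le_mul_of_nonneg_right hpi1 hw0))
              calc 4 * π ^ 2 * a * |x' (i + 1) - x (i + 1)| ≤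
                  79 / 2 * a * |x' (i + 1) - x (i + 1)| := by
                    apply mul_le_mul_of_nonneg_right _ (abs_nonneg _)
                    exact mul_le_mul_of_nonneg_right hpi2 ha0.le
                _ ≤ _ := mul_le_mul_of_nonneg_left h2 (by positivity)
            apply mul_le_mul h3 _ (by positivity) (by positivity)
            exact mul_le_mul_of_nonneg_right (hvm i hi) (abs_nonneg _)
      _ = (79 / 2 * a * ((u + w) / 400) + 63 / 10 * w) *
            (2 / 1000 * ∑ i ∈ range q, |v' (i + 1)|) := by rw [← mul_sum, ← mul_sum]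
      _ ≤ _ := by
            apply mul_le_mul_of_nonneg_left _ (by positivity)
            exact mul_le_mul_of_nonneg_left hvs' (by norm_num)
  have hII : 35 * a * u ≤ D + (79 / 2 * a * ((u + w) / 400) + 63 / 10 * w) *
      (2 / 1000 * (2 / 998)) + 63 / 10 * w := by
    have h1 := crit_slope hε ha ha' hxc hxc'
    have h2 : |slope a' (x' 0) - slope a (x 0)| ≤ def0 q a' x' + def0 q a x +
        |rho t q - rho t' q| := by
      have e : slope a' (x' 0) - slope a (x 0) = (t' 0 - rho t' q) - (t 0 - rho t q) -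
          (rho t q - rho t' q) := by rw [ht, ht']; unfold sl; ring
      rw [e]
      refine (abs_sub _ _).trans (add_le_add (abs_sub _ _) le_rfl)
    have h3 : 2 * π * |a' - a| ≤ 63 / 10 * w := mul_le_mul_of_nonneg_right hpi1 hw0
    linarith
  -- third relation
  have hinv : 1 / a' ≤ 101 / 100 / a := by
    rw [div_le_div_iff₀ ha0' ha0]
    have := (abs_le.1 haa).1
    linarith
  have huu : u ≤ 81 / a := by
    have h1 : Δ 0 = (x' 0 - ε / 4) - (x 0 - ε / 4) := by simp only [hΔ]; ring
    have h2 : u ≤ 40 / a' + 40 / a := by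
      rw [hu, h1]
      exact (abs_sub _ _).trans (add_le_add hxc' hxc)
    have h3 : 40 / a' = 40 * (1 / a') := by ring
    have h4 : 81 / a = 40 * (101 / 100 / a) + 40.6 / a := by ring
    have h5 : 40 / a ≤ 40.6 / a := div_le_div_of_nonneg_right (by norm_num) ha0.le
    rw [h3] at h2
    linarith
  have hIII : w ≤ (u + w) / 200 + 2 * u + 64400 / a := by
    have e1 : a' * sin (2 * π * x' 0) - a * sin (2 * π * x 0) = Δ 1 + Δ q - 2 * Δ 0 := by
      have e1 := S.eq0
      have e2 := S'.eq0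
      simp only [hΔ]
      linarith
    have e2 : |Δ 1 + Δ q - 2 * Δ 0| ≤ (u + w) / 200 + 2 * u := by
      rcases Nat.eq_zero_or_pos q with hq | hq
      · have : Δ 1 = Δ 0 := by rw [hq] at hlast; exact hlast
        rw [this, hq]
        have h0 : Δ 0 + Δ 0 - 2 * Δ 0 = 0 := by ring
        rw [h0, abs_zero]
        positivity
      · have h1 := F4 0 hq
        have h2 := F4 (q - 1) (by omega)
        rw [show q - 1 + 1 = q by omega] at h2
        rw [zero_add] at h1
        refine (abs_sub _ _).trans ?_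
        rw [abs_mul, abs_two]
        have := abs_add_le (Δ 1) (Δ q)
        linarith
    have e3 : ε * (a' * sin (2 * π * x' 0) - a * sin (2 * π * x 0)) =
        a' * cos (2 * π * (x' 0 - ε / 4)) - a * cos (2 * π * (x 0 - ε / 4)) := by
      rw [← c1, ← c1']; ring
    have e4 : |ε * (a' * sin (2 * π * x' 0) - a * sin (2 * π * x 0))| ≤ (u + w) / 200 + 2 * u := by
      rw [abs_mul, e1]
      have : |ε| = 1 := by rcases hε with rfl | rfl <;> simp
      rw [this, one_mul]
      exact e2
    rw [e3] at e4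
    have e5 : a' - a = (a' * cos (2 * π * (x' 0 - ε / 4)) - a * cos (2 * π * (x 0 - ε / 4))) +
        (a' * (1 - cos (2 * π * (x' 0 - ε / 4))) - a * (1 - cos (2 * π * (x 0 - ε / 4)))) := by
      ring
    have e6 : |a' * (1 - cos (2 * π * (x' 0 - ε / 4))) - a * (1 - cos (2 * π * (x 0 - ε / 4)))| ≤
        64400 / a := by
      have f1 : 0 ≤ a' * (1 - cos (2 * π * (x' 0 - ε / 4))) :=
        mul_nonneg ha0'.le (by linarith)
      have f2 : 0 ≤ a * (1 - cos (2 * π * (x 0 - ε / 4))) := mul_nonneg ha0.le (by linarith)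
      have f3 : a' * (1 - cos (2 * π * (x' 0 - ε / 4))) ≤ 32000 * (1 / a') := by
        calc a' * (1 - cos (2 * π * (x' 0 - ε / 4))) ≤ a' * (32000 / a' ^ 2) :=
              mul_le_mul_of_nonneg_left (by linarith) ha0'.le
          _ = _ := by field_simp
      have f4 : a * (1 - cos (2 * π * (x 0 - ε / 4))) ≤ 32000 / a := by
        calc a * (1 - cos (2 * π * (x 0 - ε / 4))) ≤ a * (32000 / a ^ 2) :=
              mul_le_mul_of_nonneg_left (by linarith) ha0.le
          _ = _ := by field_simp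
      have f5 : 32000 * (1 / a') ≤ 32320 / a := by
        have : 32320 / a = 32000 * (101 / 100 / a) := by ring
        rw [this]
        exact mul_le_mul_of_nonneg_left hinv (by norm_num)
      have f6 : 32320 / a ≤ 64400 / a := div_le_div_of_nonneg_right (by norm_num) ha0.le
      have f7 : 32000 / a ≤ 64400 / a := div_le_div_of_nonneg_right (by norm_num) ha0.le
      rw [abs_le]
      constructor <;> linarith
    have e7 : |a' - a| ≤ ((u + w) / 200 + 2 * u) + 64400 / a := by
      rw [e5]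
      exact (abs_add_le _ _).trans (add_le_add e4 e6)
    exact e7
  -- the end
  have hWW : a * w ≤ 65000 := by
    have h1 : 199 / 200 * w ≤ 401 / 200 * (81 / a) + 64400 / a := by linarith
    have h2 : 401 / 200 * (81 / a) + 64400 / a = 64562.405 / a := by ring
    rw [h2, le_div_iff₀ ha0] at h1
    linarith
  have hU2 : a * u ≤ D / 34 + 31 / 10 ^ 9 * (a * w) := by
    have hwa : w ≤ a * w / 10 ^ 7 := by
      rw [le_div_iff₀ (by norm_num)]
      nlinarith
    have hau : 0 ≤ a * u := by positivity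
    have haw : 0 ≤ a * w := by positivity
    linarith
  refine close_num (D := D) (U := a * u) (W := a * w) (δ := def0 q a x) (by linarith) hD12
    (by positivity) (by positivity) (by linarith) hWW hU2 ?_
  have h1 : 9 / 10 * (a * w) ≤ a * ((def0 q a x + 79 / 2 * a * u) * u +
      79 / 2 * a * (((u + w) / 400) ^ 2 * (2 / 998))) := by
    have := mul_le_mul_of_nonneg_left hI ha0.le
    linarith
  refine h1.trans ?_
  have h2 : a * ((def0 q a x + 79 / 2 * a * u) * u +
      79 / 2 * a * (((u + w) / 400) ^ 2 * (2 / 998))) = def0 q a x * (a * u) +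
      79 / 2 * (a * u) ^ 2 + (79 / 2 * (2 / 998) / 160000) * (a * u + a * w) ^ 2 := by ring
  rw [h2]
  have h3 : (79 / 2 * (2 / 998) / 160000 : ℝ) ≤ 5 / 10 ^ 7 := by norm_num
  have h4 : 0 ≤ (a * u + a * w) ^ 2 := by positivity
  have h5 := mul_le_mul_of_nonneg_right h3 h4
  linarith

end Pool.Agent.Q79.SM
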