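import Mathlib
import Pool.Agent.Q79.SMc

/-!
# The standard map: the measure of the set of bad parameters
-/

set_option autoImplicit false

namespace Pool.Agent.Q79.SM

open Finset Real MeasureTheory
open scoped ENNReal

/-- bounds for the integers of the itinerary -/
theorem Sol.abs_x {q : ℕ} {m : ℕ → ℤ} {h : ℕ → ℝ} {ε a : ℝ} {x : ℕ → ℝ}
    (hh : ∀ i, h i = 0 ∨ h i = 1 / 2) (hε : ε = 1 ∨ ε = -1) (S : Sol q m h ε a x) :
    ∀ j ≤ q + 1, |x j| ≤ 3 / 4 := by
  have h0 : |x 0| ≤ 3 / 4 := by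
    have h1 := abs_le.1 S.cr.1
    rw [abs_le]
    rcases hε with rfl | rfl <;> constructor <;> linarith [h1.1, h1.2]
  intro j hj
  rcases Nat.eq_zero_or_pos j with h1 | h1
  · rw [h1]; exact h0
  · obtain ⟨i, rfl⟩ : ∃ i, j = i + 1 := ⟨j - 1, by omega⟩
    by_cases h2 : i = q
    · rw [h2, S.last]; exact h0
    · have h3 := abs_le.1 (S.br i (by omega)).1
      rw [abs_le]
      rcases hh (i + 1) with h4 | h4 <;> rw [h4] at h3 <;> constructor <;> linarith [h3.1, h3.2]

theorem Sol.m_le {q : ℕ} {m : ℕ → ℤ} {h : ℕ → ℝ} {ε a : ℝ} {x : ℕ → ℝ}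
    (hh : ∀ i, h i = 0 ∨ h i = 1 / 2) (hε : ε = 1 ∨ ε = -1) (S : Sol q m h ε a x) (ha : 0 ≤ a) :
    (∀ i < q, |a * sin (2 * π * x (i + 1)) + m (i + 1)| ≤ 3 ∧ |(m (i + 1) : ℝ)| ≤ a + 3) ∧
    |a * sin (2 * π * x 0) + m 0| ≤ 3 ∧ |(m 0 : ℝ)| ≤ a + 3 := by
  have hx := S.abs_x hh hε
  have hgen : ∀ (s : ℝ) (k : ℤ) (y : ℝ), |a * sin y + k| ≤ 3 → |(k : ℝ)| ≤ a + 3 := by
    intro _ k y hy
    have h1 : |a * sin y| ≤ a := by
      rw [abs_mul, abs_of_nonneg ha]
      exact mul_le_of_le_one_right ha (abs_sin_le_one _)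
    have h2 : (k : ℝ) = (a * sin y + k) - a * sin y := by ring
    rw [h2]
    refine (abs_sub _ _).trans ?_
    linarith
  have hthree : ∀ u v w : ℝ, |u| ≤ 3 / 4 → |v| ≤ 3 / 4 → |w| ≤ 3 / 4 → |u + v - 2 * w| ≤ 3 := by
    intro u v w hu hv hw
    refine (abs_sub _ _).trans ?_
    rw [abs_mul, abs_two]
    have := abs_add_le u v
    linarith
  constructor
  · intro i hi
    have h1 : |a * sin (2 * π * x (i + 1)) + m (i + 1)| ≤ 3 := by
      rw [← S.eq i hi]
      have e : a * sin (2 * π * x (i + 1)) + (x (i + 2) + x i - 2 * x (i + 1) -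
          a * sin (2 * π * x (i + 1))) = x (i + 2) + x i - 2 * x (i + 1) := by ring
      rw [e]
      exact hthree _ _ _ (hx _ (by omega)) (hx _ (by omega)) (hx _ (by omega))
    exact ⟨h1, hgen 0 _ _ h1⟩
  · have h1 : |a * sin (2 * π * x 0) + m 0| ≤ 3 := by
      rw [← S.eq0]
      have e : a * sin (2 * π * x 0) + (x 1 + x q - 2 * x 0 - a * sin (2 * π * x 0)) =
          x 1 + x q - 2 * x 0 := by ring
      rw [e]
      exact hthree _ _ _ (hx _ (by omega)) (hx _ (by omega)) (hx _ (by omega))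
    exact ⟨h1, hgen 0 _ _ h1⟩

/-- the weight of an integer -/
noncomputable def wt (A : ℝ) (N k : ℤ) : ℝ := if |k| ≤ N - 4 then 1 / (36 * A) else 1 / 999 ^ 2

theorem wt_pos {A : ℝ} (hA : 0 < A) (N k : ℤ) : 0 < wt A N k := by
  unfold wt; split_ifs <;> positivity

/-- the slope is large if the integer is not extreme -/
theorem Sol.slope_ge {q : ℕ} {m : ℕ → ℤ} {h : ℕ → ℝ} {ε a : ℝ} {x : ℕ → ℝ}
    (hh : ∀ i, h i = 0 ∨ h i = 1 / 2) (hε : ε = 1 ∨ ε = -1) (S : Sol q m h ε a x) {A : ℝ} {N : ℤ}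
    (hA : 10 ^ 7 ≤ A) (haA : A ≤ a) (hN : (N : ℝ) ≤ A) {i : ℕ} (hi : i < q) :
    1 ≤ (|slope a (x (i + 1))| - 1) ^ 2 * wt A N (m (i + 1)) := by
  have hpi := Real.pi_pos
  have hpi3 := Real.pi_gt_d2
  have ha0 : 0 < a := by linarith
  have hs := (S.br i hi).2
  unfold wt
  split_ifs with hm
  · have h1 := ((S.m_le hh hε ha0.le).1 i hi).1
    have h2 : |(m (i + 1) : ℝ)| ≤ A - 4 := by
      have : ((|m (i + 1)| : ℤ) : ℝ) ≤ ((N - 4 : ℤ) : ℝ) := by exact_mod_cast hm
      rw [Int.cast_abs] at this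
      push_cast at this
      linarith
    have h3 : |a * sin (2 * π * x (i + 1))| ≤ A - 1 := by
      have e : a * sin (2 * π * x (i + 1)) =
        (a * sin (2 * π * x (i + 1)) + m (i + 1)) - m (i + 1) := by ring
      rw [e]
      refine (abs_sub _ _).trans ?_
      linarith
    have h4 : (a * sin (2 * π * x (i + 1))) ^ 2 ≤ (A - 1) ^ 2 := by
      rw [← sq_abs]
      exact pow_le_pow_left₀ (abs_nonneg _) h3 2
    have h5 : (a * cos (2 * π * x (i + 1))) ^ 2 = a ^ 2 - (a * sin (2 * π * x (i + 1))) ^ 2 := by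
      have := sin_sq_add_cos_sq (2 * π * x (i + 1))
      linear_combination a ^ 2 * this
    have h6 : A ≤ (a * cos (2 * π * x (i + 1))) ^ 2 := by
      rw [h5]; nlinarith
    set c := |a * cos (2 * π * x (i + 1))| with hc
    have hc0 : 0 ≤ c := abs_nonneg _
    have h7 : A ≤ c ^ 2 := by rw [hc, sq_abs]; exact h6
    have hc3 : 3000 ≤ c := by nlinarith
    have h8 : 2 * π * c - 2 ≤ |slope a (x (i + 1))| := by
      unfold slope
      have h9 := abs_sub_abs_le_abs_sub (2 * π * (a * cos (2 * π * x (i + 1)))) (-2)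
      rw [abs_mul, abs_of_pos (by positivity : 0 < 2 * π), abs_neg, abs_two] at h9
      have e : 2 * π * (a * cos (2 * π * x (i + 1))) - -2 =
        2 + 2 * π * a * cos (2 * π * x (i + 1)) := by ring
      rw [e] at h9
      exact h9
    have h9 : 6 * c ≤ |slope a (x (i + 1))| - 1 := by nlinarith
    have hA0 : 0 < A := by linarith
    rw [mul_one_div, le_div_iff₀ (by positivity)]
    have h10 : (6 * c) ^ 2 ≤ (|slope a (x (i + 1))| - 1) ^ 2 :=
      pow_le_pow_left₀ (by positivity) h9 2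
    nlinarith
  · rw [mul_one_div, le_div_iff₀ (by norm_num)]
    have h10 : (999:ℝ) ^ 2 ≤ (|slope a (x (i + 1))| - 1) ^ 2 :=
      pow_le_pow_left₀ (by norm_num) (by linarith) 2
    linarith

/-- a bad normalized orbit -/
def BadSol (q : ℕ) (m : ℕ → ℤ) (h : ℕ → ℝ) (ε a : ℝ) (x : ℕ → ℝ) : Prop :=
  Sol q m h ε a x ∧ |(mono (sl a x) (q + 1)).trace| ≤ 2 ^ (q + 2)

theorem def0_le {q : ℕ} {m : ℕ → ℤ} {h : ℕ → ℝ} {ε a : ℝ} {x : ℕ → ℝ}
    (hh : ∀ i, h i = 0 ∨ h i = 1 / 2) (hε : ε = 1 ∨ ε = -1) (S : BadSol q m h ε a x) {A : ℝ}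
    {N : ℤ} (hA : 10 ^ 7 ≤ A) (haA : A ≤ a) (hN : (N : ℝ) ≤ A) :
    def0 q a x ≤ 6 ∧ def0 q a x ^ 2 ≤ 36 * 4 ^ q * ∏ i ∈ range q, wt A N (m (i + 1)) := by
  obtain ⟨S, hb⟩ := S
  have hA0 : 0 < A := by linarith
  have hs : ∀ i < q, 2 ≤ |sl a x (i + 1)| := fun i hi => by
    have := (S.br i hi).2
    unfold sl
    linarith
  have h1 := prod_ge_one (sl a x) q hs
  have h2 := (growth (sl a x) q hs).2
  have hcs0 : 0 < |cs (sl a x) (q + 1)| := by linarith
  have hcs : cs (sl a x) (q + 1) ≠ 0 := abs_pos.1 hcs0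
  have h3 : def0 q a x * |cs (sl a x) (q + 1)| ≤ 6 * 2 ^ q := by
    unfold def0
    rw [← abs_mul, rho_eq hcs]
    refine (abs_sub _ _).trans ?_
    rw [abs_two]
    have h4 : (1:ℝ) ≤ 2 ^ q := one_le_pow₀ (by norm_num)
    rw [pow_add] at hb
    linarith
  have h0 : 0 ≤ def0 q a x := abs_nonneg _
  have hprod : 0 < ∏ i ∈ range q, wt A N (m (i + 1)) := prod_pos fun i _ => wt_pos hA0 _ _
  constructor
  · -- the product is at least `2 ^ q`
    have h4 : (2:ℝ) ^ q ≤ |cs (sl a x) (q + 1)| := by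
      refine le_trans ?_ h2
      calc (2:ℝ) ^ q = ∏ _i ∈ range q, (2:ℝ) := by rw [prod_const, card_range]
        _ ≤ _ := prod_le_prod (fun _ _ => by norm_num) fun i hi => by
            have := (S.br i (mem_range.1 hi)).2
            unfold sl
            linarith
    have h5 : (0:ℝ) < 2 ^ q := by positivity
    by_contra hcon
    push Not at hcon
    have h6 : 6 * 2 ^ q < def0 q a x * |cs (sl a x) (q + 1)| :=
      mul_lt_mul_of_lt_of_le_of_nonneg_of_pos hcon h4 (by norm_num) (by positivity)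
    linarith
  · have h4 : 1 ≤ (∏ i ∈ range q, (|sl a x (i + 1)| - 1)) ^ 2 *
        ∏ i ∈ range q, wt A N (m (i + 1)) := by
      rw [← prod_pow, ← prod_mul_distrib]
      calc (1:ℝ) = ∏ i ∈ range q, (1:ℝ) := by rw [prod_const_one]
        _ ≤ _ := prod_le_prod (fun _ _ => zero_le_one) fun i hi =>
            S.slope_ge hh hε hA haA hN (mem_range.1 hi)
    have h5 : (∏ i ∈ range q, (|sl a x (i + 1)| - 1)) ^ 2 ≤ |cs (sl a x) (q + 1)| ^ 2 :=
      pow_le_pow_left₀ (by linarith) h2 2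
    have h6 : 1 ≤ |cs (sl a x) (q + 1)| ^ 2 * ∏ i ∈ range q, wt A N (m (i + 1)) :=
      h4.trans (mul_le_mul_of_nonneg_right h5 hprod.le)
    have h7 : (def0 q a x * |cs (sl a x) (q + 1)|) ^ 2 ≤ (6 * 2 ^ q) ^ 2 :=
      pow_le_pow_left₀ (by positivity) h3 2
    have h8 : ((6:ℝ) * 2 ^ q) ^ 2 = 36 * 4 ^ q := by
      rw [mul_pow, ← pow_mul, mul_comm q 2, pow_mul]; norm_num
    rw [h8, mul_pow] at h7
    calc def0 q a x ^ 2 = def0 q a x ^ 2 * 1 := (mul_one _).symm
      _ ≤ def0 q a x ^ 2 * (|cs (sl a x) (q + 1)| ^ 2 * ∏ i ∈ range q, wt A N (m (i + 1))) :=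
          mul_le_mul_of_nonneg_left h6 (by positivity)
      _ = (def0 q a x ^ 2 * |cs (sl a x) (q + 1)| ^ 2) * ∏ i ∈ range q, wt A N (m (i + 1)) := by
          ring
      _ ≤ _ := mul_le_mul_of_nonneg_right h7 hprod.le

/-- the bad parameters of an itinerary -/
def BI (A : ℝ) (q : ℕ) (m : ℕ → ℤ) (h : ℕ → ℝ) (ε : ℝ) : Set ℝ :=
  {a | a ∈ Set.Icc A (A + 1) ∧ ∃ x, BadSol q m h ε a x}

theorem BI_vol {A : ℝ} {N : ℤ} (hA : 10 ^ 7 ≤ A) (hN : (N : ℝ) ≤ A) {q : ℕ} {m : ℕ → ℤ}
    {h : ℕ → ℝ} {ε : ℝ} (hh : ∀ i, h i = 0 ∨ h i = 1 / 2) (hε : ε = 1 ∨ ε = -1) :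
    volume (BI A q m h ε) ≤
      ENNReal.ofReal (18 * 4 ^ q / A * ∏ i ∈ range q, wt A N (m (i + 1))) := by
  have hA0 : 0 < A := by linarith
  refine (Real.volume_le_diam _).trans ?_
  apply Metric.ediam_le
  rintro a ⟨⟨ha1, ha2⟩, x, hx⟩ a' ⟨⟨ha1', ha2'⟩, x', hx'⟩
  rw [edist_dist, dist_comm, Real.dist_eq]
  apply ENNReal.ofReal_le_ofReal
  obtain ⟨d1, d2⟩ := def0_le hh hε hx hA ha1 hN
  obtain ⟨d1', d2'⟩ := def0_le hh hε hx' hA ha1' hN
  have h1 := pair hh hε hx.1 hx'.1 (by linarith) (by linarith)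
    (by rw [abs_le]; constructor <;> linarith) (by linarith)
  set Wp := ∏ i ∈ range q, wt A N (m (i + 1)) with hWp
  have h2 : (def0 q a x + def0 q a' x') ^ 2 ≤ 4 * (36 * 4 ^ q * Wp) := by
    have : (def0 q a x + def0 q a' x') ^ 2 ≤ 2 * def0 q a x ^ 2 + 2 * def0 q a' x' ^ 2 := by
      nlinarith [sq_nonneg (def0 q a x - def0 q a' x')]
    linarith
  have h3 : A * |a' - a| ≤ a * |a' - a| := mul_le_mul_of_nonneg_right ha1 (abs_nonneg _)
  have h4 : A * |a' - a| ≤ 18 * 4 ^ q * Wp := by linarith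
  rw [div_mul_eq_mul_div, le_div_iff₀ hA0]
  linarith

/-! ### summation over the itineraries -/

/-- the itinerary with the integers `k, f` -/
def mf {q : ℕ} (k : ℤ) (f : Fin q → ℤ) : ℕ → ℤ
  | 0 => k
  | (i + 1) => if hi : i < q then f ⟨i, hi⟩ else 0

/-- the branches -/
noncomputable def hf {q : ℕ} (g : Fin q → Bool) : ℕ → ℝ
  | 0 => 0
  | (i + 1) => if hi : i < q then (if g ⟨i, hi⟩ then 0 else 1 / 2) else 0

/-- the sign -/
def ef (e : Bool) : ℝ := if e then 1 else -1

theorem ef_or (e : Bool) : ef e = 1 ∨ ef e = -1 := by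
  unfold ef; cases e <;> simp

theorem mf_succ {q : ℕ} (k : ℤ) (f : Fin q → ℤ) (i : ℕ) :
    mf k f (i + 1) = if hi : i < q then f ⟨i, hi⟩ else 0 := rfl

theorem hf_succ {q : ℕ} (g : Fin q → Bool) (i : ℕ) :
    hf g (i + 1) = if hi : i < q then (if g ⟨i, hi⟩ then 0 else 1 / 2) else 0 := rfl

theorem hf_or {q : ℕ} (g : Fin q → Bool) (i : ℕ) : hf g i = 0 ∨ hf g i = 1 / 2 := by
  cases i with
  | zero => left; rfl
  | succ i =>
    rw [hf_succ]
    split_ifs <;> simp

theorem prod_mf (w : ℤ → ℝ) {q : ℕ} (k : ℤ) (f : Fin q → ℤ) :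
    ∏ i ∈ range q, w (mf k f (i + 1)) = ∏ i : Fin q, w (f i) := by
  rw [← Fin.prod_univ_eq_prod_range (fun i => w (mf k f (i + 1))) q]
  apply prod_congr rfl
  intro i _
  change w (if hi : (i : ℕ) < q then f ⟨i, hi⟩ else 0) = _
  rw [dif_pos i.2]

/-- all bad parameters -/
def Bad (A : ℝ) : Set ℝ :=
  {a | a ∈ Set.Icc A (A + 1) ∧ ∃ (q : ℕ) (m : ℕ → ℤ) (h : ℕ → ℝ) (ε : ℝ) (x : ℕ → ℝ),
    (∀ i, h i = 0 ∨ h i = 1 / 2) ∧ (ε = 1 ∨ ε = -1) ∧ BadSol q m h ε a x}

/-- the integers in question -/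
noncomputable def SS (N : ℤ) : Finset ℤ := Finset.Icc (-(N + 4)) (N + 4)

/-- the integers of the critical strip -/
noncomputable def S0 (N : ℤ) : Finset ℤ := Finset.Icc (N - 4) (N + 4) ∪ Finset.Icc (-(N + 4)) (-(N - 4))

theorem S0_card (N : ℤ) : (S0 N).card ≤ 18 := by
  unfold S0
  refine (card_union_le _ _).trans ?_
  rw [Int.card_Icc, Int.card_Icc]
  have e1 : N + 4 + 1 - (N - 4) = 9 := by ring
  have e2 : -(N - 4) + 1 - -(N + 4) = 9 := by ring
  rw [e1, e2]
  exact le_refl 18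

theorem sum_wt {A : ℝ} {N : ℤ} (hA : 10 ^ 7 ≤ A) (hN : (N : ℝ) ≤ A) (hN2 : A < N + 1) :
    ∑ k ∈ SS N, wt A N k ≤ 1 / 16 := by
  have hA0 : 0 < A := by linarith
  have hN0 : 0 ≤ N := by
    have : (0:ℝ) < N + 1 := by linarith
    have : (0:ℤ) < N + 1 := by exact_mod_cast this
    omega
  have h1 : ∀ k ∈ SS N, wt A N k ≤ 1 / (36 * A) + (if k ∈ S0 N then (1:ℝ) / 999 ^ 2 else 0) := by
    intro k hk
    unfold wt
    have hpos : 0 < 1 / (36 * A) := by positivity
    by_cases h2 : |k| ≤ N - 4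
    · rw [if_pos h2]
      have : (0:ℝ) ≤ (if k ∈ S0 N then (1:ℝ) / 999 ^ 2 else 0) := by split_ifs <;> norm_num
      linarith
    · rw [if_neg h2]
      have hkS : k ∈ S0 N := by
        unfold S0
        unfold SS at hk
        rw [Finset.mem_Icc] at hk
        rw [Finset.mem_union, Finset.mem_Icc, Finset.mem_Icc]
        rw [abs_le] at h2
        omega
      rw [if_pos hkS]
      linarith
  refine (sum_le_sum h1).trans ?_
  rw [sum_add_distrib, sum_const, nsmul_eq_mul, ← sum_filter, sum_const, nsmul_eq_mul]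
  have h2 : ((SS N).card : ℝ) ≤ 2 * A + 9 := by
    unfold SS
    rw [Int.card_Icc]
    have e : N + 4 + 1 - -(N + 4) = 2 * N + 9 := by ring
    rw [e]
    have : ((Int.toNat (2 * N + 9) : ℤ) : ℝ) = 2 * N + 9 := by
      rw [Int.toNat_of_nonneg (by omega)]; push_cast; ring
    have h3 : ((Int.toNat (2 * N + 9) : ℕ) : ℝ) = 2 * N + 9 := by exact_mod_cast this
    rw [h3]
    linarith
  have h3 : (({k ∈ SS N | k ∈ S0 N} : Finset ℤ).card : ℝ) ≤ 18 := by
    have : ({k ∈ SS N | k ∈ S0 N} : Finset ℤ).card ≤ (S0 N).card := by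
      apply card_le_card
      intro k hk
      exact (Finset.mem_filter.1 hk).2
    exact_mod_cast this.trans (S0_card N)
  have h4 : ((SS N).card : ℝ) * (1 / (36 * A)) ≤ (2 * A + 9) * (1 / (36 * A)) :=
    mul_le_mul_of_nonneg_right h2 (by positivity)
  have h5 : (2 * A + 9) * (1 / (36 * A)) ≤ 1 / 17 := by
    rw [mul_one_div, div_le_div_iff₀ (by positivity) (by norm_num)]
    linarith
  have h6 : (({k ∈ SS N | k ∈ S0 N} : Finset ℤ).card : ℝ) * (1 / 999 ^ 2) ≤ 18 * (1 / 999 ^ 2) :=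
    mul_le_mul_of_nonneg_right h3 (by norm_num)
  refine (add_le_add h4 h6).trans ?_
  have h7 : (18:ℝ) * (1 / 999 ^ 2) ≤ 1 / 16 - 1 / 17 := by norm_num
  linarith

/-- **The measure of the set of bad parameters.** -/
theorem Bad_vol {A : ℝ} (hA : 10 ^ 7 ≤ A) : volume (Bad A) ≤ ENNReal.ofReal (1296 / A) := by
  classical
  have hA0 : 0 < A := by linarith
  set N : ℤ := ⌊A⌋ with hNd
  have hN : (N : ℝ) ≤ A := Int.floor_le A
  have hN2 : A < N + 1 := Int.lt_floor_add_one A
  set T : ℕ → Set ℝ := fun q => ⋃ k ∈ S0 N, ⋃ e ∈ (univ : Finset Bool),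
    ⋃ f ∈ Fintype.piFinset (fun _ : Fin q => SS N), ⋃ g ∈ (univ : Finset (Fin q → Bool)),
      BI A q (mf k f) (hf g) (ef e) with hT
  have hcov : Bad A ⊆ ⋃ q, T q := by
    rintro a ⟨ha, q, m, h, ε, x, hh, hε, S, hb⟩
    have ha0 : 0 ≤ a := by linarith [ha.1]
    obtain ⟨hm, hm0, hm0'⟩ := S.m_le hh hε ha0
    have hmS : ∀ i < q, m (i + 1) ∈ SS N := by
      intro i hi
      have h1 := (hm i hi).2
      have h2 : |(m (i + 1) : ℝ)| < N + 5 := by linarith [ha.2]
      have h3 : |m (i + 1)| < N + 5 := by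
        have : ((|m (i + 1)| : ℤ) : ℝ) < ((N + 5 : ℤ) : ℝ) := by
          rw [Int.cast_abs]; push_cast; exact h2
        exact_mod_cast this
      unfold SS
      rw [Finset.mem_Icc]
      rw [abs_lt] at h3
      omega
    have hm0S : m 0 ∈ S0 N := by
      have h2 : |(m 0 : ℝ)| < N + 5 := by linarith [ha.2]
      have h3 : |m 0| < N + 5 := by
        have : ((|m 0| : ℤ) : ℝ) < ((N + 5 : ℤ) : ℝ) := by
          rw [Int.cast_abs]; push_cast; exact h2
        exact_mod_cast this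
      have ha7 : 10 ^ 7 ≤ a := hA.trans ha.1
      have hxc := crit_near hε (by linarith) S.cr.1 S.cr.2
      obtain ⟨c1, c2, -⟩ := crit_cos hε ha7 hxc
      have h4 : a - 1 ≤ |a * sin (2 * π * x 0)| := by
        have h5 : |a * sin (2 * π * x 0)| = |a * (ε * sin (2 * π * x 0))| := by
          rw [abs_mul, abs_mul, abs_mul]
          rcases hε with rfl | rfl <;> simp
        rw [h5, c1]
        refine le_trans ?_ (le_abs_self _)
        have h6 : a * (1 - 32000 / a ^ 2) ≤ a * cos (2 * π * (x 0 - ε / 4)) :=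
          mul_le_mul_of_nonneg_left c2 ha0
        have h7 : a * (1 - 32000 / a ^ 2) = a - 32000 / a := by
          have : a ≠ 0 := by linarith
          field_simp
        have h8 : 32000 / a ≤ 1 := by
          rw [div_le_one (by linarith)]; linarith
        linarith
      have h5 : a - 4 ≤ |(m 0 : ℝ)| := by
        have h6 := abs_sub_abs_le_abs_sub (a * sin (2 * π * x 0)) (-(m 0 : ℝ))
        rw [abs_neg, sub_neg_eq_add] at h6
        linarith
      have h6 : N - 4 ≤ |m 0| := by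
        have : ((N - 4 : ℤ) : ℝ) ≤ ((|m 0| : ℤ) : ℝ) := by
          rw [Int.cast_abs]; push_cast; linarith [ha.1]
        exact_mod_cast this
      unfold S0
      rw [Finset.mem_union, Finset.mem_Icc, Finset.mem_Icc]
      rcases abs_cases (m 0) with h7 | h7 <;> omega
    rw [Set.mem_iUnion]
    refine ⟨q, ?_⟩
    simp only [hT, Set.mem_iUnion]
    refine ⟨m 0, hm0S, decide (ε = 1), mem_univ _, fun i => m (i + 1), ?_,
      fun i => decide (h (i + 1) = 0), mem_univ _, ha, x, ?_⟩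
    · rw [Fintype.mem_piFinset]
      exact fun i => hmS i i.2
    · have e1 : ef (decide (ε = 1)) = ε := by
        unfold ef
        rcases hε with rfl | rfl
        · simp
        · norm_num
      rw [e1]
      refine ⟨⟨S.last, fun i hi => ?_, S.eq0, fun i hi => ?_, S.cr⟩, hb⟩
      · rw [S.eq i hi]
        rw [mf_succ, dif_pos hi]
      · have e2 : hf (fun i : Fin q => decide (h (i + 1) = 0)) (i + 1) = h (i + 1) := by
          rw [hf_succ, dif_pos hi]
          rcases hh (i + 1) with h7 | h7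
          · simp [h7]
          · rw [h7]; norm_num
        rw [e2]
        exact S.br i hi
  have hTq : ∀ q, volume (T q) ≤ ENNReal.ofReal (648 / A * (1 / 2) ^ q) := by
    intro q
    set ws := ∑ k ∈ SS N, wt A N k with hws
    have hws0 : 0 ≤ ws := sum_nonneg fun k _ => (wt_pos hA0 N k).le
    have hws1 : ws ≤ 1 / 16 := sum_wt hA hN hN2
    calc volume (T q) ≤ ∑ k ∈ S0 N, ∑ _e ∈ (univ : Finset Bool),
          ∑ f ∈ Fintype.piFinset (fun _ : Fin q => SS N), ∑ _g ∈ (univ : Finset (Fin q → Bool)),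
          ENNReal.ofReal (18 * 4 ^ q / A * ∏ i : Fin q, wt A N (f i)) := by
            refine (measure_biUnion_finset_le _ _).trans (sum_le_sum fun k _ => ?_)
            refine (measure_biUnion_finset_le _ _).trans (sum_le_sum fun e _ => ?_)
            refine (measure_biUnion_finset_le _ _).trans (sum_le_sum fun f _ => ?_)
            refine (measure_biUnion_finset_le _ _).trans (sum_le_sum fun g _ => ?_)
            rw [← prod_mf (wt A N) k f]
            exact BI_vol hA hN (hf_or g) (ef_or e)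
      _ = ENNReal.ofReal (∑ k ∈ S0 N, ∑ _e ∈ (univ : Finset Bool),
          ∑ f ∈ Fintype.piFinset (fun _ : Fin q => SS N), ∑ _g ∈ (univ : Finset (Fin q → Bool)),
          18 * 4 ^ q / A * ∏ i : Fin q, wt A N (f i)) := by
            have hpos : ∀ f : Fin q → ℤ, 0 ≤ 18 * 4 ^ q / A * ∏ i : Fin q, wt A N (f i) :=
              fun f => mul_nonneg (by positivity) (prod_nonneg fun i _ => (wt_pos hA0 _ _).le)
            rw [ENNReal.ofReal_sum_of_nonneg fun k _ => sum_nonneg fun e _ => sum_nonneg fun f _ =>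
              sum_nonneg fun g _ => hpos f]
            apply sum_congr rfl
            intro k _
            rw [ENNReal.ofReal_sum_of_nonneg fun e _ => sum_nonneg fun f _ =>
              sum_nonneg fun g _ => hpos f]
            apply sum_congr rfl
            intro e _
            rw [ENNReal.ofReal_sum_of_nonneg fun f _ => sum_nonneg fun g _ => hpos f]
            apply sum_congr rfl
            intro f _
            rw [ENNReal.ofReal_sum_of_nonneg fun g _ => hpos f]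
      _ ≤ _ := by
            apply ENNReal.ofReal_le_ofReal
            have e1 : ∑ f ∈ Fintype.piFinset (fun _ : Fin q => SS N),
                ∏ i : Fin q, wt A N (f i) = ws ^ q := by
              rw [← prod_univ_sum (fun _ : Fin q => SS N) (fun _ k => wt A N k), prod_const,
                card_univ, Fintype.card_fin]
            have e2 : ∑ f ∈ Fintype.piFinset (fun _ : Fin q => SS N),
                ∑ _g ∈ (univ : Finset (Fin q → Bool)),
                18 * 4 ^ q / A * ∏ i : Fin q, wt A N (f i) = 2 ^ q * (18 * 4 ^ q / A) * ws ^ q := by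
              rw [← e1, mul_sum]
              apply sum_congr rfl
              intro f _
              rw [sum_const, card_univ, nsmul_eq_mul, Fintype.card_fun, Fintype.card_bool,
                Fintype.card_fin]
              push_cast
              ring
            rw [e2, sum_const, sum_const, card_univ, Fintype.card_bool, nsmul_eq_mul, nsmul_eq_mul]
            have h1 : ((S0 N).card : ℝ) ≤ 18 := by exact_mod_cast S0_card N
            have h2 : ws ^ q ≤ (1 / 16) ^ q := pow_le_pow_left₀ hws0 hws1 q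
            have h3 : (2:ℝ) ^ q * 4 ^ q * (1 / 16) ^ q = (1 / 2) ^ q := by
              rw [← mul_pow, ← mul_pow]; norm_num
            have h4 : (2:ℝ) ^ q * (18 * 4 ^ q / A) * ws ^ q ≤
                2 ^ q * (18 * 4 ^ q / A) * (1 / 16) ^ q :=
              mul_le_mul_of_nonneg_left h2 (by positivity)
            have h5 : (2:ℝ) ^ q * (18 * 4 ^ q / A) * (1 / 16) ^ q = 18 / A * (1 / 2) ^ q := by
              rw [← h3]; ring
            calc ((S0 N).card : ℝ) * (((2 : ℕ) : ℝ) * (2 ^ q * (18 * 4 ^ q / A) * ws ^ q)) ≤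
                18 * (2 * (18 / A * (1 / 2) ^ q)) := by
                  apply mul_le_mul h1 _ (by positivity) (by norm_num)
                  push_cast
                  rw [← h5]
                  exact mul_le_mul_of_nonneg_left h4 (by norm_num)
              _ = _ := by ring
  calc volume (Bad A) ≤ volume (⋃ q, T q) := measure_mono hcov
    _ ≤ ∑' q, volume (T q) := measure_iUnion_le _
    _ ≤ ∑' q : ℕ, ENNReal.ofReal (648 / A * (1 / 2) ^ q) := ENNReal.tsum_le_tsum hTq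
    _ = ENNReal.ofReal (∑' q : ℕ, 648 / A * (1 / 2) ^ q) := by
        rw [ENNReal.ofReal_tsum_of_nonneg (fun q => by positivity)
          (summable_geometric_two.mul_left _)]
    _ = _ := by
        rw [tsum_mul_left, tsum_geometric_two]
        congr 1
        ring

end Pool.Agent.Q79.SM
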