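import Mathlib
import Pool.Agent.Q79.SMd

/-!
# The standard map: from periodic points to normalized orbits
-/

set_option autoImplicit false

namespace Pool.Agent.Q79.SM

open Finset Real MeasureTheory

/-- the lift of the standard map -/
noncomputable def F (a : ℝ) (p : ℝ × ℝ) : ℝ × ℝ := (2 * p.1 - p.2 + a * sin (2 * π * p.1), p.1)

/-- the first coordinates of the orbit -/
noncomputable def xi (a : ℝ) (z : ℝ × ℝ) (j : ℕ) : ℝ := ((F a)^[j] z).1

theorem snd_iter (a : ℝ) (z : ℝ × ℝ) (j : ℕ) : ((F a)^[j + 1] z).2 = xi a z j := by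
  rw [Function.iterate_succ_apply']; rfl

theorem xi_zero (a : ℝ) (z : ℝ × ℝ) : xi a z 0 = z.1 := rfl

theorem xi_one (a : ℝ) (z : ℝ × ℝ) : xi a z 1 = 2 * xi a z 0 - z.2 + a * sin (2 * π * xi a z 0) :=
  rfl

theorem xi_rec (a : ℝ) (z : ℝ × ℝ) (j : ℕ) :
    xi a z (j + 2) = 2 * xi a z (j + 1) - xi a z j + a * sin (2 * π * xi a z (j + 1)) := by
  unfold xi
  rw [Function.iterate_succ_apply' (F a) (j + 1)]
  change 2 * ((F a)^[j + 1] z).1 - ((F a)^[j + 1] z).2 + _ = _
  rw [snd_iter]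
  rfl

theorem xi_shift (a : ℝ) (z : ℝ × ℝ) (i j : ℕ) : xi a ((F a)^[i] z) j = xi a z (j + i) := by
  unfold xi
  rw [Function.iterate_add_apply]

/-! ### the derivative -/

/-- a matrix as a linear map of the plane -/
noncomputable def Lm (B : Matrix (Fin 2) (Fin 2) ℝ) : ℝ × ℝ →L[ℝ] ℝ × ℝ :=
  (B 0 0 • ContinuousLinearMap.fst ℝ ℝ ℝ + B 0 1 • ContinuousLinearMap.snd ℝ ℝ ℝ).prod
    (B 1 0 • ContinuousLinearMap.fst ℝ ℝ ℝ + B 1 1 • ContinuousLinearMap.snd ℝ ℝ ℝ)

theorem Lm_apply (B : Matrix (Fin 2) (Fin 2) ℝ) (p : ℝ × ℝ) :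
    Lm B p = (B 0 0 * p.1 + B 0 1 * p.2, B 1 0 * p.1 + B 1 1 * p.2) := by
  unfold Lm
  simp

theorem Lm_mul (B C : Matrix (Fin 2) (Fin 2) ℝ) : Lm (B * C) = (Lm B).comp (Lm C) := by
  ext <;> simp [Lm_apply, Matrix.mul_apply, Fin.sum_univ_two]

theorem F_deriv (a : ℝ) (p : ℝ × ℝ) : HasFDerivAt (F a) (Lm (M (slope a p.1))) p := by
  have h1 : HasFDerivAt (fun p : ℝ × ℝ => p.1) (ContinuousLinearMap.fst ℝ ℝ ℝ) p := hasFDerivAt_fst
  have h2 : HasFDerivAt (fun p : ℝ × ℝ => p.2) (ContinuousLinearMap.snd ℝ ℝ ℝ) p := hasFDerivAt_snd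
  have h3 := (hasDeriv a p.1).comp_hasFDerivAt p h1
  have h4 := (h3.sub h2).prodMk h1
  have e : F a = fun p : ℝ × ℝ => (((fun x => 2 * x + a * sin (2 * π * x)) ∘ fun p : ℝ × ℝ => p.1) p -
      p.2, p.1) := by
    funext p
    unfold F
    simp only [Function.comp_apply]
    congr 1
    ring
  rw [e]
  refine h4.congr_fderiv ?_
  ext <;> simp [Lm_apply, M]

theorem iter_deriv (a : ℝ) (z : ℝ × ℝ) (k : ℕ) :
    HasFDerivAt ((F a)^[k]) (Lm (mono (sl a (xi a z)) k)) z := by
  induction k with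
  | zero =>
    have e : Lm (mono (sl a (xi a z)) 0) = ContinuousLinearMap.id ℝ (ℝ × ℝ) := by
      change Lm 1 = _
      ext <;> simp [Lm_apply]
    rw [e]
    exact hasFDerivAt_id z
  | succ k ih =>
    rw [Function.iterate_succ']
    have h1 := (F_deriv a ((F a)^[k] z)).comp z ih
    refine h1.congr_fderiv ?_
    change _ = Lm (M (sl a (xi a z) k) * mono (sl a (xi a z)) k)
    rw [Lm_mul]
    rfl

/-- the trace of the derivative -/
noncomputable def tr (a : ℝ) (p : ℕ) (z : ℝ × ℝ) : ℝ :=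
  (fderiv ℝ ((F a)^[p]) z (1, 0)).1 + (fderiv ℝ ((F a)^[p]) z (0, 1)).2

theorem tr_eq (a : ℝ) (p : ℕ) (z : ℝ × ℝ) : tr a p z = (mono (sl a (xi a z)) p).trace := by
  unfold tr
  rw [(iter_deriv a z p).fderiv, Lm_apply, Lm_apply, Matrix.trace_fin_two]
  simp

/-! ### periodic points -/

/-- the class of `z` on the torus is fixed by the `p`-th iterate -/
def Per (a : ℝ) (p : ℕ) (z : ℝ × ℝ) : Prop := ∃ k l : ℤ, (F a)^[p] z = (z.1 + k, z.2 + l)

theorem sin_shift (x : ℝ) (n : ℤ) : sin (2 * π * (x + n)) = sin (2 * π * x) := by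
  rw [show 2 * π * (x + n) = 2 * π * x + n * (2 * π) by ring, sin_add_int_mul_two_pi]

theorem slope_shift (a x : ℝ) (n : ℤ) : slope a (x + n) = slope a x := by
  unfold slope
  rw [show 2 * π * (x + n) = 2 * π * x + n * (2 * π) by ring, cos_add_int_mul_two_pi]

theorem F_shift (a : ℝ) (j : ℕ) : ∀ (z : ℝ × ℝ) (k l : ℤ), ∃ k' l' : ℤ,
    (F a)^[j] (z.1 + k, z.2 + l) = (((F a)^[j] z).1 + k', ((F a)^[j] z).2 + l') := by
  induction j with
  | zero => exact fun z k l => ⟨k, l, rfl⟩
  | succ j ih =>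
    intro z k l
    obtain ⟨k', l', h⟩ := ih (F a z) (2 * k - l) k
    refine ⟨k', l', ?_⟩
    rw [Function.iterate_succ_apply, Function.iterate_succ_apply, ← h]
    congr 1
    unfold F
    simp only
    rw [sin_shift]
    push_cast
    congr 1
    ring

theorem Per.iter {a : ℝ} {p : ℕ} {z : ℝ × ℝ} (h : Per a p z) (i : ℕ) : Per a p ((F a)^[i] z) := by
  obtain ⟨k, l, h⟩ := h
  obtain ⟨k', l', h'⟩ := F_shift a i z k l
  refine ⟨k', l', ?_⟩
  rw [← Function.iterate_add_apply, add_comm, Function.iterate_add_apply, h, h']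

theorem Per.slope {a : ℝ} {p : ℕ} {z : ℝ × ℝ} (h : Per a p z) (j : ℕ) :
    sl a (xi a z) (j + p) = sl a (xi a z) j := by
  obtain ⟨k, l, h⟩ := h
  obtain ⟨k', l', h'⟩ := F_shift a j z k l
  unfold sl xi
  rw [Function.iterate_add_apply, h, h']
  exact slope_shift a _ k'

theorem Per.tr_iter {a : ℝ} {p : ℕ} {z : ℝ × ℝ} (h : Per a p z) (i : ℕ) :
    tr a p ((F a)^[i] z) = tr a p z := by
  induction i with
  | zero => rfl
  | succ i ih =>
    rw [← ih, tr_eq, tr_eq, Function.iterate_succ_apply']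
    have h1 := h.iter i
    have h2 := h1.slope 0
    rw [zero_add] at h2
    have h3 := trace_shift (sl a (xi a ((F a)^[i] z))) p h2
    rw [← h3]
    congr 2

/-! ### normalization -/

theorem exists_reg (ξ : ℝ) : ∃ (n : ℤ) (h : ℝ), (h = 0 ∨ h = 1 / 2) ∧ |ξ - n - h| ≤ 1 / 4 := by
  have h1 := abs_sub_round (2 * ξ)
  rcases Int.even_or_odd' (round (2 * ξ)) with ⟨n, h2 | h2⟩
  · refine ⟨n, 0, Or.inl rfl, ?_⟩
    rw [h2] at h1
    push_cast at h1
    rw [abs_le] at h1 ⊢
    constructor <;> linarith [h1.1, h1.2]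
  · refine ⟨n, 1 / 2, Or.inr rfl, ?_⟩
    rw [h2] at h1
    push_cast at h1
    rw [abs_le] at h1 ⊢
    constructor <;> linarith [h1.1, h1.2]

theorem exists_crit (ξ : ℝ) : ∃ (n : ℤ) (ε : ℝ), (ε = 1 ∨ ε = -1) ∧ |ξ - n - ε / 4| ≤ 1 / 4 := by
  obtain ⟨n, h, hh, h1⟩ := exists_reg (ξ - 1 / 4)
  rcases hh with rfl | rfl
  · refine ⟨n, 1, Or.inl rfl, ?_⟩
    rw [abs_le] at h1 ⊢
    constructor <;> linarith [h1.1, h1.2]
  · refine ⟨n + 1, -1, Or.inr rfl, ?_⟩
    push_cast
    rw [abs_le] at h1 ⊢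
    constructor <;> linarith [h1.1, h1.2]

/-- a periodic point which visits the strip at most at the time `0` -/
theorem normal {A a : ℝ} (ha : a ∈ Set.Icc A (A + 1)) (hb : a ∉ Bad A) {q : ℕ}
    {z : ℝ × ℝ} (hz : Per a (q + 1) z) (hs : ∀ i < q, 1000 ≤ |slope a (xi a z (i + 1))|) :
    2 ^ (q + 2) < |tr a (q + 1) z| := by
  rw [tr_eq]
  set t := sl a (xi a z) with ht
  have h1000 : ∀ i < q, 1000 ≤ |t (i + 1)| := hs
  have hgrow := (growth t q fun i hi => by have := h1000 i hi; linarith).2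
  have h2q : (2:ℝ) ^ q ≤ |cs t (q + 1)| := by
    refine le_trans ?_ hgrow
    calc (2:ℝ) ^ q = ∏ _i ∈ range q, (2:ℝ) := by rw [prod_const, card_range]
      _ ≤ _ := prod_le_prod (fun _ _ => by norm_num) fun i hi => by
          have := h1000 i (mem_range.1 hi)
          linarith
  have h2p : (1:ℝ) ≤ 2 ^ q := one_le_pow₀ (by norm_num)
  have hcs : cs t (q + 1) ≠ 0 := abs_pos.1 (by linarith)
  by_cases h0 : 1000 ≤ |t 0|
  · -- no visit
    have hρ : |rho t q| ≤ 2 := by
      unfold rho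
      rcases Nat.eq_zero_or_pos q with hq | hq
      · rw [hq] at hcs ⊢
        have e1 : vv t 0 1 = 1 := vv_last hcs
        rw [e1, vv_zero]
        norm_num
      · have hvm : ∀ i < q, |vv t q (i + 1)| ≤ 1 := by
          intro i hi
          have := maxp (w := vv t q) (τ := t) (r := fun _ => 0) (q := q) (T := 1000) (b := 1)
            (r₀ := 0) (by norm_num) (by norm_num) le_rfl
            (fun i _ => by rw [vv_rec, add_zero]) h1000
            (by simp) (by rw [vv_zero, abs_one]) (by rw [vv_last hcs, abs_one]) i hi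
          norm_num at this
          linarith
        have e1 := hvm 0 hq
        have e2 := hvm (q - 1) (by omega)
        rw [show q - 1 + 1 = q by omega] at e2
        rw [zero_add] at e1
        refine (abs_add_le _ _).trans ?_
        linarith
    have h3 : 998 ≤ |t 0 - rho t q| := by
      have := abs_sub_abs_le_abs_sub (t 0) (rho t q)
      linarith
    have h4 : 998 * 2 ^ q ≤ |(mono t (q + 1)).trace - 2| := by
      rw [← rho_eq hcs, abs_mul]
      exact mul_le_mul h3 h2q (by positivity) (abs_nonneg _)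
    have h5 := abs_sub (mono t (q + 1)).trace 2
    rw [abs_two] at h5
    rw [pow_add]
    linarith
  · push Not at h0
    by_contra hcon
    push Not at hcon
    apply hb
    obtain ⟨k, l, hkl⟩ := hz
    choose n h hh hn using fun j => exists_reg (xi a z j)
    obtain ⟨n₀, ε, hε, hn₀⟩ := exists_crit (xi a z 0)
    set N : ℕ → ℤ := fun j => if j = 0 then n₀ else if j = q + 1 then k + n₀ else n j with hN
    set x : ℕ → ℝ := fun j => xi a z j + ((-N j : ℤ) : ℝ) with hx
    have hN0 : N 0 = n₀ := by simp [hN]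
    have hNl : N (q + 1) = k + n₀ := by simp [hN]
    have hNi : ∀ i < q, N (i + 1) = n (i + 1) := by
      intro i hi
      simp only [hN]
      rw [if_neg (by omega), if_neg (by omega)]
    have hsl : ∀ j, slope a (x j) = slope a (xi a z j) := fun j => slope_shift a _ _
    have hsin : ∀ j, sin (2 * π * x j) = sin (2 * π * xi a z j) := fun j => sin_shift _ _
    have hslf : sl a x = t := funext fun j => hsl j
    have hxl : xi a z (q + 1) = xi a z 0 + k := by
      have := congrArg Prod.fst hkl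
      exact this
    have hxq : xi a z q = z.2 + l := by
      have := congrArg Prod.snd hkl
      rw [snd_iter] at this
      exact this
    refine ⟨ha, q, fun j => match j with
      | 0 => l - (N 1 + N q - 2 * N 0)
      | (i + 1) => -(N (i + 2) + N i - 2 * N (i + 1)), h, ε, x, hh, hε,
        ⟨?_, fun i hi => ?_, ?_, fun i hi => ⟨?_, ?_⟩, ?_, ?_⟩, ?_⟩
    · simp only [hx]
      rw [hNl, hN0, hxl]
      push_cast
      ring
    · rw [hsin]
      simp only [hx]
      have h3 := xi_rec a z i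
      rw [h3]
      push_cast
      ring
    · rw [hsin]
      simp only [hx]
      have h3 := xi_one a z
      rw [h3, hxq]
      push_cast
      ring
    · have h3 := hn (i + 1)
      simp only [hx]
      rw [hNi i hi]
      push_cast
      rw [← sub_eq_add_neg]
      exact h3
    · rw [hsl]; exact hs i hi
    · simp only [hx]
      rw [hN0]
      push_cast
      rw [← sub_eq_add_neg]
      exact hn₀
    · rw [hsl]
      exact h0.le
    · rw [hslf]
      exact hcon

/-- **The theorem.** -/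
theorem main {A a : ℝ} (ha : a ∈ Set.Icc A (A + 1)) (hb : a ∉ Bad A) {p : ℕ}
    (hp : 1 ≤ p) {z : ℝ × ℝ} (hz : Per a p z)
    (hs : ∀ i j : ℕ, i < p → j < p → |slope a (xi a z i)| < 1000 →
      |slope a (xi a z j)| < 1000 → i = j) : 2 ^ (p + 1) < |tr a p z| := by
  obtain ⟨q, rfl⟩ : ∃ q, p = q + 1 := ⟨p - 1, by omega⟩
  by_cases hvis : ∃ i < q + 1, |slope a (xi a z i)| < 1000
  · obtain ⟨i, hi, hi2⟩ := hvis
    rw [← hz.tr_iter i]
    apply normal ha hb (hz.iter i)
    intro j hj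
    rw [xi_shift]
    by_contra hcon
    push Not at hcon
    by_cases hji : j + 1 + i < q + 1
    · have := hs (j + 1 + i) i hji hi hcon hi2
      omega
    · push Not at hji
      obtain ⟨r, hr⟩ : ∃ r, j + 1 + i = r + (q + 1) := ⟨j + 1 + i - (q + 1), by omega⟩
      have h3 : slope a (xi a z (j + 1 + i)) = slope a (xi a z r) := by
        rw [hr]; exact hz.slope r
      rw [h3] at hcon
      have := hs r i (by omega) hi hcon hi2
      omega
  · push Not at hvis
    exact normal ha hb hz fun i hi => hvis (i + 1) (by omega)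

/-! ### eigenvalues -/

theorem mono_det (t : ℕ → ℝ) (k : ℕ) : (mono t k).det = 1 := by
  induction k with
  | zero => change (1 : Matrix (Fin 2) (Fin 2) ℝ).det = 1; exact Matrix.det_one
  | succ k ih =>
    change (M (t k) * mono t k).det = 1
    rw [Matrix.det_mul, ih]
    unfold M
    rw [Matrix.det_fin_two_of]
    ring

/-- a large trace gives a large eigenvalue -/
theorem eigen {B : Matrix (Fin 2) (Fin 2) ℝ} (hB : B.det = 1) {r : ℝ} (hr : 1 ≤ r)
    (h : 2 * r < |B.trace|) : ∃ (l : ℝ) (v : ℝ × ℝ), v ≠ 0 ∧ r < |l| ∧ Lm B v = l • v := by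
  set T := B.trace with hT
  have hT4 : 4 ≤ T ^ 2 := by
    rw [← sq_abs]
    nlinarith
  set s := √(T ^ 2 - 4) with hs
  have hs0 : 0 ≤ s := Real.sqrt_nonneg _
  have hss : s ^ 2 = T ^ 2 - 4 := Real.sq_sqrt (by linarith)
  obtain ⟨l, hl1, hl2⟩ : ∃ l : ℝ, r < |l| ∧ l ^ 2 - T * l + 1 = 0 := by
    rcases abs_cases T with ⟨h1, h2⟩ | ⟨h1, h2⟩
    · refine ⟨(T + s) / 2, ?_, by nlinarith⟩
      rw [abs_of_nonneg (by linarith)]
      linarith
    · refine ⟨(T - s) / 2, ?_, by nlinarith⟩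
      rw [abs_of_nonpos (by linarith)]
      linarith
  have hdet : B 0 0 * B 1 1 - B 0 1 * B 1 0 = 1 := by rw [← Matrix.det_fin_two]; exact hB
  have htr : B 0 0 + B 1 1 = T := by rw [hT, Matrix.trace_fin_two]
  refine ⟨l, ?_⟩
  have key : (B 0 0 - l) * (B 1 1 - l) = B 0 1 * B 1 0 := by
    rw [← htr] at hl2
    linear_combination hl2 + hdet
  by_cases h01 : B 0 1 = 0 ∧ B 0 0 - l = 0
  · by_cases h11 : B 1 1 - l = 0
    · -- then `B 1 0` is arbitrary
      refine ⟨(0, 1), by simp, hl1, ?_⟩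
      rw [Lm_apply]
      ext
      · simp [h01.1]
      · simp; linarith
    · refine ⟨(B 1 1 - l, -B 1 0), ?_, hl1, ?_⟩
      · intro h0
        exact h11 (congrArg Prod.fst h0)
      · rw [Lm_apply]
        ext
        · simp only [Prod.smul_fst, smul_eq_mul]
          linear_combination key
        · simp only [Prod.smul_snd, smul_eq_mul]
          ring
  · refine ⟨(-B 0 1, B 0 0 - l), ?_, hl1, ?_⟩
    · intro h0
      apply h01
      have h1 := congrArg Prod.fst h0
      have h2 := congrArg Prod.snd h0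
      simp only [Prod.fst_zero, Prod.snd_zero] at h1 h2
      exact ⟨by linarith, h2⟩
    · rw [Lm_apply]
      ext
      · simp only [Prod.smul_fst, smul_eq_mul]
        ring
      · simp only [Prod.smul_snd, smul_eq_mul]
        linear_combination key

/-! ### elliptic fixed points -/

/-- if `a` is slightly larger than the integer `m` there is an elliptic fixed point -/
theorem elliptic {m : ℕ} (hm : 1 ≤ m) {a : ℝ} (h1 : (m : ℝ) < a) (h2 : a ^ 2 < m ^ 2 + 4 / π ^ 2) :
    ∃ z, Per a 1 z ∧ |tr a 1 z| < 2 := by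
  have hpi := Real.pi_pos
  have hm0 : (1:ℝ) ≤ m := by exact_mod_cast hm
  have ha0 : 0 < a := by linarith
  set x : ℝ := (π - arcsin (m / a)) / (2 * π) with hx
  have hma : (m:ℝ) / a ≤ 1 := by rw [div_le_one ha0]; exact h1.le
  have hma' : -1 ≤ (m:ℝ) / a := le_trans (by norm_num) (by positivity : 0 ≤ (m:ℝ) / a)
  have e : 2 * π * x = π - arcsin (m / a) := by rw [hx]; field_simp
  have hsin : sin (2 * π * x) = m / a := by rw [e, sin_pi_sub, sin_arcsin hma' hma]
  have hcos : cos (2 * π * x) = -√(1 - (m / a) ^ 2) := by rw [e, cos_pi_sub, cos_arcsin]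
  refine ⟨(x, x), ⟨m, 0, ?_⟩, ?_⟩
  · rw [Function.iterate_one]
    unfold F
    simp only
    rw [hsin]
    ext
    · simp only
      field_simp
      push_cast
      ring
    · simp
  · rw [tr_eq, mono_eq, Matrix.trace_fin_two]
    simp only [cc_one, cs_one, cs_zero, zero_add, one_mul, neg_zero]
    change |slope a x + 0| < 2
    rw [add_zero]
    unfold slope
    rw [hcos]
    have e2 : 2 * π * a * -√(1 - (m / a) ^ 2) = -(2 * π * √(a ^ 2 - m ^ 2)) := by
      have : a ^ 2 - m ^ 2 = a ^ 2 * (1 - (m / a) ^ 2) := by field_simp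
      rw [this, Real.sqrt_mul (by positivity), Real.sqrt_sq ha0.le]
      ring
    rw [e2]
    set s := √(a ^ 2 - m ^ 2) with hs
    have hs0 : 0 < s := Real.sqrt_pos.2 (by nlinarith)
    have hss : s ^ 2 = a ^ 2 - m ^ 2 := Real.sq_sqrt (by nlinarith)
    have h3 : (π * s) ^ 2 < 4 := by
      rw [mul_pow, hss]
      have h4 : a ^ 2 - (m:ℝ) ^ 2 < 4 / π ^ 2 := by linarith
      rw [lt_div_iff₀ (by positivity)] at h4
      linarith
    have h5 : π * s < 2 := by nlinarith [mul_pos hpi hs0]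
    have h6 : 0 < π * s := mul_pos hpi hs0
    rw [abs_lt]
    constructor <;> linarith

/-- the measure of the parameters with an elliptic fixed point -/
theorem elliptic_vol {m : ℕ} (hm : 1 ≤ m) : ENNReal.ofReal (1 / (8 * m)) ≤
    volume {a : ℝ | a ∈ Set.Icc (m : ℝ) (m + 1) ∧ ∃ z, Per a 1 z ∧ |tr a 1 z| < 2} := by
  have hpi := Real.pi_pos
  have hm0 : (1:ℝ) ≤ m := by exact_mod_cast hm
  calc ENNReal.ofReal (1 / (8 * m)) = volume (Set.Ioo (m : ℝ) (m + 1 / (8 * m))) := by
        rw [Real.volume_Ioo, add_sub_cancel_left]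
    _ ≤ _ := by
        apply measure_mono
        rintro a ⟨h1, h2⟩
        have h3 : 1 / (8 * (m:ℝ)) ≤ 1 / 8 := by
          apply one_div_le_one_div_of_le (by norm_num); linarith
        refine ⟨⟨h1.le, by linarith⟩, elliptic hm h1 ?_⟩
        have h4 : a ^ 2 ≤ ((m:ℝ) + 1 / (8 * m)) ^ 2 := by
          apply pow_le_pow_left₀ (by linarith) h2.le
        have h5 : ((m:ℝ) + 1 / (8 * m)) ^ 2 = m ^ 2 + 1 / 4 + (1 / (8 * m)) ^ 2 := by
          field_simp
          ring
        have h6 : (1 / (8 * (m:ℝ))) ^ 2 ≤ (1 / 8) ^ 2 := pow_le_pow_left₀ (by positivity) h3 2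
        have h7 : (4:ℝ) / 10 ≤ 4 / π ^ 2 := by
          apply div_le_div_of_nonneg_left (by norm_num) (by positivity)
          have := Real.pi_lt_d2
          nlinarith
        have h8 : ((1:ℝ) / 8) ^ 2 = 1 / 64 := by norm_num
        linarith

end Pool.Agent.Q79.SM
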