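import Mathlib
import Pool.Agent.Q79.QR
import Pool.Agent.Q79.Nagata

/-!
The quasiconformal map of a strip onto a neighbourhood of an Archimedean spiral times `ℝ^m`.
-/

open Set Filter Topology
open scoped Matrix

namespace Q79.Spiral

variable {m : ℕ}

abbrev V (m : ℕ) := EuclideanSpace ℝ (Fin (2 + m))

/-- The two special coordinates. -/
def i0 (m : ℕ) : Fin (2 + m) := Fin.castAdd m 0
def i1 (m : ℕ) : Fin (2 + m) := Fin.castAdd m 1

/-- The planar part. -/
noncomputable def ang (x : V m) : ℝ := Real.sqrt (2 * x (i0 m))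

/-- The map. -/
noncomputable def F (x : V m) : V m := WithLp.toLp 2 (fun i =>
  Fin.addCases (motive := fun _ => ℝ)
    (fun j : Fin 2 => ![(ang x - x (i1 m)) * Real.cos (ang x), (ang x - x (i1 m)) * Real.sin (ang x)] j)
    (fun j : Fin m => x (Fin.natAdd 2 j)) i)

lemma F0 (x : V m) : F x (i0 m) = (ang x - x (i1 m)) * Real.cos (ang x) := by
  simp [F, i0]

lemma F1 (x : V m) : F x (i1 m) = (ang x - x (i1 m)) * Real.sin (ang x) := by
  simp [F, i1]

lemma F2 (x : V m) (j : Fin m) : F x (Fin.natAdd 2 j) = x (Fin.natAdd 2 j) := by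
  simp [F]

lemma idx_cases (i : Fin (2 + m)) : i = i0 m ∨ i = i1 m ∨ ∃ j : Fin m, i = Fin.natAdd 2 j := by
  refine Fin.addCases (motive := fun i => i = i0 m ∨ i = i1 m ∨ ∃ j : Fin m, i = Fin.natAdd 2 j)
    ?_ ?_ i
  · intro j
    fin_cases j
    · left; rfl
    · right; left; rfl
  · intro j
    right; right; exact ⟨j, rfl⟩

/-- The domain. -/
def Om (m : ℕ) : Set (V m) := {x | 50 < x (i0 m) ∧ -1 < x (i1 m) ∧ x (i1 m) < 1}

lemma isOpen_Om : IsOpen (Om m) := by
  have h0 : Continuous (fun x : V m => x (i0 m)) := by fun_prop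
  have h1 : Continuous (fun x : V m => x (i1 m)) := by fun_prop
  exact (isOpen_lt continuous_const h0).inter
    ((isOpen_lt continuous_const h1).inter (isOpen_lt h1 continuous_const))

lemma convex_Om : Convex ℝ (Om m) := by
  rintro x ⟨h1, h2, h3⟩ y ⟨h4, h5, h6⟩ a b ha hb hab
  exact ⟨convex_Ioi (𝕜 := ℝ) (50 : ℝ) h1 h4 ha hb hab,
    convex_Ioi (𝕜 := ℝ) (-1 : ℝ) h2 h5 ha hb hab, convex_Iio (𝕜 := ℝ) (1 : ℝ) h3 h6 ha hb hab⟩

lemma ang_gt {x : V m} (hx : x ∈ Om m) : 10 < ang x := by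
  unfold ang
  rw [Real.lt_sqrt (by norm_num)]
  linarith [hx.1]

lemma injOn_F : InjOn F (Om m) := by
  intro x hx y hy h
  have h0 := congrArg (fun z : V m => z (i0 m)) h
  have h1 := congrArg (fun z : V m => z (i1 m)) h
  simp only [F0, F1] at h0 h1
  have hax := ang_gt hx
  have hay := ang_gt hy
  obtain ⟨hx0, hx1, hx2⟩ := hx
  obtain ⟨hy0, hy1, hy2⟩ := hy
  set a := ang x
  set b := ang y
  have hra : 0 < a - x (i1 m) := by linarith
  have hrb : 0 < b - y (i1 m) := by linarith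
  have hsq : (a - x (i1 m)) ^ 2 = (b - y (i1 m)) ^ 2 := by
    have e1 := Real.sin_sq_add_cos_sq a
    have e2 := Real.sin_sq_add_cos_sq b
    calc (a - x (i1 m)) ^ 2 = ((a - x (i1 m)) * Real.cos a) ^ 2 + ((a - x (i1 m)) * Real.sin a) ^ 2 := by
          rw [mul_pow, mul_pow, ← mul_add, add_comm (Real.cos a ^ 2), e1, mul_one]
      _ = ((b - y (i1 m)) * Real.cos b) ^ 2 + ((b - y (i1 m)) * Real.sin b) ^ 2 := by rw [h0, h1]
      _ = (b - y (i1 m)) ^ 2 := by
          rw [mul_pow, mul_pow, ← mul_add, add_comm (Real.cos b ^ 2), e2, mul_one]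
  have hr : a - x (i1 m) = b - y (i1 m) := by
    have := abs_eq_abs.mpr (sq_eq_sq_iff_eq_or_eq_neg.mp hsq)
    rwa [abs_of_pos hra, abs_of_pos hrb] at this
  rw [hr] at h0 h1
  have hc : Real.cos a = Real.cos b := mul_left_cancel₀ hrb.ne' h0
  have hs : Real.sin a = Real.sin b := mul_left_cancel₀ hrb.ne' h1
  have hcos : Real.cos (a - b) = 1 := by
    rw [Real.cos_sub, hc, hs]
    have := Real.sin_sq_add_cos_sq b
    nlinarith
  have hpi := Real.pi_gt_three
  have hab : a - b = 0 := by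
    rw [Real.cos_eq_one_iff_of_lt_of_lt] at hcos
    · exact hcos
    · linarith
    · linarith
  have hab' : a = b := by linarith
  have hx1eq : x (i1 m) = y (i1 m) := by linarith
  have hx0eq : x (i0 m) = y (i0 m) := by
    have e1 : a ^ 2 = 2 * x (i0 m) := Real.sq_sqrt (by linarith)
    have e2 : b ^ 2 = 2 * y (i0 m) := Real.sq_sqrt (by linarith)
    rw [hab'] at e1
    linarith
  ext i
  rcases idx_cases i with rfl | rfl | ⟨j, rfl⟩
  · exact hx0eq
  · exact hx1eq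
  · have := congrArg (fun z : V m => z (Fin.natAdd 2 j)) h
    simp only [F2] at this
    exact this

/-- The derivative matrix: planar block and identity. -/
noncomputable def Mat (x : V m) : Matrix (Fin (2 + m)) (Fin (2 + m)) ℝ :=
  Matrix.reindex finSumFinEquiv finSumFinEquiv (Matrix.fromBlocks
    !![Real.cos (ang x) / ang x - (ang x - x (i1 m)) * Real.sin (ang x) / ang x, -Real.cos (ang x);
       Real.sin (ang x) / ang x + (ang x - x (i1 m)) * Real.cos (ang x) / ang x, -Real.sin (ang x)]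
    0 0 1)

noncomputable def DF (x : V m) : V m →L[ℝ] V m :=
  LinearMap.toContinuousLinearMap (Matrix.toEuclideanLin (Mat x))

lemma Mat_det {x : V m} (hx : ang x ≠ 0) : (Mat x).det = 1 - x (i1 m) / ang x := by
  unfold Mat
  rw [Matrix.det_reindex_self, Matrix.det_fromBlocks_zero₂₁, Matrix.det_one, mul_one,
    Matrix.det_fin_two_of]
  have := Real.sin_sq_add_cos_sq (ang x)
  field_simp
  linear_combination (ang x - x (i1 m)) * this

lemma DF_det {x : V m} (hx : ang x ≠ 0) : (DF x).det = 1 - x (i1 m) / ang x := by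
  rw [← Mat_det hx]
  unfold DF
  rw [ContinuousLinearMap.det, LinearMap.coe_toContinuousLinearMap,
    Matrix.toEuclideanLin_eq_toLin_orthonormal, LinearMap.det_toLin]

lemma DF0 (x v : V m) : DF x v (i0 m) =
    (Real.cos (ang x) / ang x - (ang x - x (i1 m)) * Real.sin (ang x) / ang x) * v (i0 m)
      + (-Real.cos (ang x)) * v (i1 m) := by
  have : DF x v (i0 m) = (Mat x *ᵥ (v : Fin (2 + m) → ℝ)) (i0 m) := rfl
  rw [this, Matrix.mulVec, dotProduct, ← finSumFinEquiv.sum_comp, Fintype.sum_sum_type,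
    Fin.sum_univ_two]
  simp [Mat, i0, i1, finSumFinEquiv_symm_apply_castAdd]

lemma DF1 (x v : V m) : DF x v (i1 m) =
    (Real.sin (ang x) / ang x + (ang x - x (i1 m)) * Real.cos (ang x) / ang x) * v (i0 m)
      + (-Real.sin (ang x)) * v (i1 m) := by
  have : DF x v (i1 m) = (Mat x *ᵥ (v : Fin (2 + m) → ℝ)) (i1 m) := rfl
  rw [this, Matrix.mulVec, dotProduct, ← finSumFinEquiv.sum_comp, Fintype.sum_sum_type,
    Fin.sum_univ_two]
  simp [Mat, i0, i1, finSumFinEquiv_symm_apply_castAdd]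

lemma DF2 (x v : V m) (j : Fin m) : DF x v (Fin.natAdd 2 j) = v (Fin.natAdd 2 j) := by
  have : DF x v (Fin.natAdd 2 j) = (Mat x *ᵥ (v : Fin (2 + m) → ℝ)) (Fin.natAdd 2 j) := rfl
  rw [this, Matrix.mulVec, dotProduct, ← finSumFinEquiv.sum_comp, Fintype.sum_sum_type,
    Fin.sum_univ_two]
  simp [Mat, Matrix.one_apply]

lemma hasStrictFDerivAt_ang {x : V m} (hx : x ∈ Om m) :
    HasStrictFDerivAt (fun y : V m => ang y)
      ((1 / ang x) • (EuclideanSpace.proj (i0 m) : V m →L[ℝ] ℝ)) x := by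
  have h0 : (0 : ℝ) < 2 * x (i0 m) := by linarith [hx.1]
  have h1 : HasStrictFDerivAt (fun y : V m => 2 * y (i0 m))
      ((2 : ℝ) • (EuclideanSpace.proj (i0 m) : V m →L[ℝ] ℝ)) x :=
    ((EuclideanSpace.proj (i0 m) : V m →L[ℝ] ℝ).hasStrictFDerivAt).const_mul 2
  have h2 := h1.sqrt h0.ne'
  refine HasStrictFDerivAt.congr_fderiv h2 ?_
  ext v
  simp only [smul_apply, smul_eq_mul, ang]
  have : Real.sqrt (2 * x (i0 m)) ≠ 0 := (Real.sqrt_pos.mpr h0).ne'
  field_simp

lemma hasStrictFDerivAt_F {x : V m} (hx : x ∈ Om m) : HasStrictFDerivAt F (DF x) x := by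
  have ha := hasStrictFDerivAt_ang hx
  have hpos : ang x ≠ 0 := by have := ang_gt hx; linarith
  have h1 : HasStrictFDerivAt (fun y : V m => y (i1 m))
      (EuclideanSpace.proj (i1 m) : V m →L[ℝ] ℝ) x :=
    (EuclideanSpace.proj (i1 m) : V m →L[ℝ] ℝ).hasStrictFDerivAt
  rw [hasStrictFDerivAt_euclidean]
  intro i
  rcases idx_cases i with rfl | rfl | ⟨j, rfl⟩
  · have h2 := (ha.sub h1).mul ha.cos
    have e : (fun y : V m => F y (i0 m)) = fun y => (ang y - y (i1 m)) * Real.cos (ang y) := by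
      funext y; exact F0 y
    rw [e]
    refine HasStrictFDerivAt.congr_fderiv h2 ?_
    ext v
    have e3 : (PiLp.proj 2 (fun _ => ℝ) (i0 m) ∘SL DF x) v = DF x v (i0 m) := rfl
    have e4 : ∀ i, (EuclideanSpace.proj i : V m →L[ℝ] ℝ) v = v i := fun i => rfl
    rw [e3, DF0]
    simp only [add_apply, smul_apply, sub_apply, smul_eq_mul, e4, Pi.sub_apply]
    ring
  · have h2 := (ha.sub h1).mul ha.sin
    have e : (fun y : V m => F y (i1 m)) = fun y => (ang y - y (i1 m)) * Real.sin (ang y) := by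
      funext y; exact F1 y
    rw [e]
    refine HasStrictFDerivAt.congr_fderiv h2 ?_
    ext v
    have e3 : (PiLp.proj 2 (fun _ => ℝ) (i1 m) ∘SL DF x) v = DF x v (i1 m) := rfl
    have e4 : ∀ i, (EuclideanSpace.proj i : V m →L[ℝ] ℝ) v = v i := fun i => rfl
    rw [e3, DF1]
    simp only [add_apply, smul_apply, sub_apply, smul_eq_mul, e4, Pi.sub_apply]
    ring
  · have h2 : HasStrictFDerivAt (fun y : V m => y (Fin.natAdd 2 j))
      (EuclideanSpace.proj (Fin.natAdd 2 j) : V m →L[ℝ] ℝ) x :=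
      (EuclideanSpace.proj (Fin.natAdd 2 j) : V m →L[ℝ] ℝ).hasStrictFDerivAt
    have e : (fun y : V m => F y (Fin.natAdd 2 j)) = fun y => y (Fin.natAdd 2 j) := by
      funext y; exact F2 y j
    rw [e]
    refine HasStrictFDerivAt.congr_fderiv h2 ?_
    ext v
    exact (DF2 x v j).symm

lemma contDiffOn_F : ContDiffOn ℝ 1 (F (m := m)) (Om m) := by
  rw [contDiffOn_euclidean]
  have ha : ContDiffOn ℝ 1 (fun y : V m => ang y) (Om m) := by
    unfold ang
    apply ContDiffOn.sqrt (by fun_prop)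
    intro x hx
    have : (0 : ℝ) < 2 * x (i0 m) := by linarith [hx.1]
    exact this.ne'
  have h1 : ContDiffOn ℝ 1 (fun y : V m => y (i1 m)) (Om m) := by fun_prop
  intro i
  rcases idx_cases i with rfl | rfl | ⟨j, rfl⟩
  · have e : (fun y : V m => F y (i0 m)) = fun y => (ang y - y (i1 m)) * Real.cos (ang y) := by
      funext y; exact F0 y
    rw [e]
    exact (ha.sub h1).mul ha.cos
  · have e : (fun y : V m => F y (i1 m)) = fun y => (ang y - y (i1 m)) * Real.sin (ang y) := by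
      funext y; exact F1 y
    rw [e]
    exact (ha.sub h1).mul ha.sin
  · have e : (fun y : V m => F y (Fin.natAdd 2 j)) = fun y => y (Fin.natAdd 2 j) := by
      funext y; exact F2 y j
    rw [e]
    fun_prop

lemma sum_split (g : Fin (2 + m) → ℝ) :
    ∑ i, g i = g (i0 m) + g (i1 m) + ∑ j : Fin m, g (Fin.natAdd 2 j) := by
  rw [Fin.sum_univ_add, Fin.sum_univ_two]
  rfl

lemma DF_norm_sq {x : V m} (v : V m) (hx : ang x ≠ 0) : ‖DF x v‖ ^ 2 =
    (v (i0 m) / ang x - v (i1 m)) ^ 2 + ((1 - x (i1 m) / ang x) * v (i0 m)) ^ 2 +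
      ∑ j : Fin m, v (Fin.natAdd 2 j) ^ 2 := by
  rw [EuclideanSpace.norm_sq_eq, sum_split]
  simp only [DF0, DF1, DF2, Real.norm_eq_abs, sq_abs]
  congr 1
  have := Real.sin_sq_add_cos_sq (ang x)
  field_simp
  linear_combination ((v (i0 m) - ang x * v (i1 m)) ^ 2 +
    ((ang x - x (i1 m)) * v (i0 m)) ^ 2) * this

lemma norm_sq_split (v : V m) : ‖v‖ ^ 2 =
    v (i0 m) ^ 2 + v (i1 m) ^ 2 + ∑ j : Fin m, v (Fin.natAdd 2 j) ^ 2 := by
  rw [EuclideanSpace.norm_sq_eq, sum_split]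
  simp only [Real.norm_eq_abs, sq_abs]

lemma ratio_bound {x : V m} (hx : x ∈ Om m) :
    |x (i1 m) / ang x| ≤ 1 / 10 ∧ 0 < 1 / ang x ∧ 1 / ang x < 1 / 10 := by
  have h := ang_gt hx
  have h0 : 0 < ang x := by linarith
  refine ⟨?_, by positivity, ?_⟩
  · rw [abs_div, abs_of_pos h0, div_le_div_iff₀ h0 (by norm_num)]
    have : |x (i1 m)| ≤ 1 := abs_le.mpr ⟨by linarith [hx.2.1], by linarith [hx.2.2]⟩
    linarith
  · exact one_div_lt_one_div_of_lt (by norm_num) h

lemma DF_norm_le {x : V m} (hx : x ∈ Om m) : ‖DF x‖ ≤ 3 / 2 := by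
  have h := ang_gt hx
  have h0 : ang x ≠ 0 := by linarith
  obtain ⟨h1, h2, h3⟩ := ratio_bound hx
  apply ContinuousLinearMap.opNorm_le_bound _ (by norm_num)
  intro v
  apply le_of_sq_le_sq _ (by positivity)
  rw [mul_pow, DF_norm_sq v h0, norm_sq_split]
  have hS : 0 ≤ ∑ j : Fin m, v (Fin.natAdd 2 j) ^ 2 := Finset.sum_nonneg (fun _ _ => by positivity)
  set p := v (i0 m)
  set q := v (i1 m)
  set κ := x (i1 m) / ang x
  have e1 : p / ang x = (1 / ang x) * p := by ring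
  rw [e1]
  set ε := 1 / ang x
  have hκ := abs_le.mp h1
  have h5 : (ε * p - q) ^ 2 ≤ 2 * ε ^ 2 * p ^ 2 + 2 * q ^ 2 := by nlinarith [sq_nonneg (ε * p + q)]
  have h6 : ε ^ 2 ≤ 1 / 100 := by nlinarith
  have h7 : (1 - κ) ^ 2 ≤ 121 / 100 := by nlinarith [hκ.1, hκ.2]
  have h8 : ((1 - κ) * p) ^ 2 ≤ 121 / 100 * p ^ 2 := by
    rw [mul_pow]; exact mul_le_mul_of_nonneg_right h7 (sq_nonneg p)
  have h9 : 2 * ε ^ 2 * p ^ 2 ≤ 2 / 100 * p ^ 2 := by nlinarith [sq_nonneg p]
  nlinarith [sq_nonneg p, sq_nonneg q]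

lemma DF_det_ge {x : V m} (hx : x ∈ Om m) : 9 / 10 ≤ (DF x).det := by
  have h := ang_gt hx
  rw [DF_det (by linarith)]
  have := (abs_le.mp (ratio_bound hx).1).2
  linarith

lemma DF_distortion {x : V m} (hx : x ∈ Om m) :
    ‖fderiv ℝ F x‖ ^ (2 + m) ≤ (2 * (3 / 2 : ℝ) ^ (2 + m)) * (fderiv ℝ F x).det := by
  rw [(hasStrictFDerivAt_F hx).hasFDerivAt.fderiv]
  have h1 : ‖DF x‖ ^ (2 + m) ≤ (3 / 2 : ℝ) ^ (2 + m) :=
    pow_le_pow_left₀ (norm_nonneg _) (DF_norm_le hx) _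
  have h2 := DF_det_ge hx
  have h3 : (0 : ℝ) < (3 / 2 : ℝ) ^ (2 + m) := by positivity
  nlinarith

lemma quasiregular_F : Q79.QR.IsQuasiregular (Om m) F := by
  apply Q79.QR.quasiregular_of_C1 isOpen_Om contDiffOn_F (K := 2 * (3 / 2 : ℝ) ^ (2 + m))
  · have : (1 : ℝ) ≤ (3 / 2 : ℝ) ^ (2 + m) := one_le_pow₀ (by norm_num)
    linarith
  · intro x hx
    exact DF_distortion hx

end Q79.Spiral
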