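import Mathlib
import Pool.Agent.Q79.Spiral

/-!
The image of a hyperplane piece has full Nagata dimension.
-/

open Set Filter Topology

namespace Q79.Spiral

variable {m : ℕ}

/-- The piece of hyperplane. -/
def E0 (m : ℕ) : Set (V m) := {x | x ∈ Om m ∧ x (i1 m) = 0}

lemma approx (p : V m) (hp : 20 ≤ p (i0 m)) :
    ∃ q ∈ F '' E0 m, ∀ i, |q i - p i| ≤ 2 * Real.pi := by
  have hpi := Real.pi_gt_three
  have hpi4 := Real.pi_le_four
  set w : ℂ := ⟨p (i0 m), p (i1 m)⟩ with hw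
  set r : ℝ := ‖w‖ with hr
  set θ : ℝ := Complex.arg w with hθ
  have hr20 : 20 ≤ r := by
    have : w.re ≤ ‖w‖ := Complex.re_le_norm w
    simp only [hw] at this
    exact hp.trans this
  have hc : p (i0 m) = r * Real.cos θ := by
    have := Complex.norm_mul_cos_arg w
    rw [← hr, ← hθ] at this
    rw [this]
  have hs : p (i1 m) = r * Real.sin θ := by
    have := Complex.norm_mul_sin_arg w
    rw [← hr, ← hθ] at this
    rw [this]
  set k : ℤ := ⌊(r - θ) / (2 * Real.pi)⌋ with hk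
  set φ : ℝ := θ + k * (2 * Real.pi) with hφ
  have h2pi : 0 < 2 * Real.pi := by positivity
  have h1 : φ ≤ r := by
    have := Int.floor_le ((r - θ) / (2 * Real.pi))
    rw [le_div_iff₀ h2pi] at this
    rw [hφ]; linarith
  have h2 : r - φ < 2 * Real.pi := by
    have := Int.lt_floor_add_one ((r - θ) / (2 * Real.pi))
    rw [div_lt_iff₀ h2pi] at this
    rw [hφ]; linarith
  have hφ10 : 10 < φ := by linarith
  have hcos : Real.cos φ = Real.cos θ := by rw [hφ]; exact Real.cos_add_int_mul_two_pi θ k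
  have hsin : Real.sin φ = Real.sin θ := by rw [hφ]; exact Real.sin_add_int_mul_two_pi θ k
  set x : V m := WithLp.toLp 2 (fun i => Fin.addCases (motive := fun _ => ℝ)
    (fun j : Fin 2 => ![φ ^ 2 / 2, 0] j) (fun j : Fin m => p (Fin.natAdd 2 j)) i) with hx
  have hx0 : x (i0 m) = φ ^ 2 / 2 := by simp [hx, i0]
  have hx1 : x (i1 m) = 0 := by simp [hx, i1]
  have hx2 : ∀ j : Fin m, x (Fin.natAdd 2 j) = p (Fin.natAdd 2 j) := by intro j; simp [hx]
  have hang : ang x = φ := by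
    unfold ang
    rw [hx0, show 2 * (φ ^ 2 / 2) = φ ^ 2 by ring, Real.sqrt_sq (by linarith)]
  have hxE : x ∈ E0 m := by
    refine ⟨⟨?_, ?_, ?_⟩, hx1⟩
    · rw [hx0]; nlinarith
    · rw [hx1]; norm_num
    · rw [hx1]; norm_num
  refine ⟨F x, ⟨x, hxE, rfl⟩, fun i => ?_⟩
  have habs : |φ - r| ≤ 2 * Real.pi := by rw [abs_le]; constructor <;> linarith
  rcases idx_cases i with rfl | rfl | ⟨j, rfl⟩
  · rw [F0, hang, hx1, hcos, hc, sub_zero, ← sub_mul, abs_mul]
    calc |φ - r| * |Real.cos θ| ≤ |φ - r| * 1 :=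
          mul_le_mul_of_nonneg_left (Real.abs_cos_le_one θ) (abs_nonneg _)
      _ ≤ 2 * Real.pi := by rw [mul_one]; exact habs
  · rw [F1, hang, hx1, hsin, hs, sub_zero, ← sub_mul, abs_mul]
    calc |φ - r| * |Real.sin θ| ≤ |φ - r| * 1 :=
          mul_le_mul_of_nonneg_left (Real.abs_sin_le_one θ) (abs_nonneg _)
      _ ≤ 2 * Real.pi := by rw [mul_one]; exact habs
  · rw [F2, hx2, sub_self, abs_zero]; positivity

theorem not_nagataLE : ¬ Q79.Nagata.NagataLE (F '' E0 m) (1 + m) := by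
  rintro ⟨c, hc, h⟩
  have hpi := Real.pi_gt_three
  set s : ℝ := (((2 + m : ℕ) : ℝ) + 1) * (4 * Real.pi + 1) with hs
  have hs0 : 0 < s := by positivity
  obtain ⟨𝒞, hcov, hdiam, hmult⟩ := h s hs0
  obtain ⟨N, hN⟩ := exists_nat_gt (c * s + 4 * Real.pi)
  set g : (ℕ → ℕ) → V m := fun x => WithLp.toLp 2 (fun i : Fin (2 + m) => 20 + (x i.val : ℝ)) with hg
  have hgi : ∀ x i, g x i = 20 + (x (i : Fin (2 + m)).val : ℝ) := fun x i => rfl
  have hex : ∀ x : ℕ → ℕ, ∃ q ∈ F '' E0 m, ∀ i, |q i - g x i| ≤ 2 * Real.pi := by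
    intro x
    apply approx
    rw [hgi]
    linarith [(Nat.cast_nonneg (x (i0 m).val) : (0 : ℝ) ≤ (x (i0 m).val : ℝ))]
  choose Φ hΦ1 hΦ2 using hex
  refine Q79.Nagata.grid_obstruction (X := F '' E0 m) (k := 2 + m) (m := N) Φ (s := s) (D := c * s)
    (fun x _ => hΦ1 x) ?_ ?_ 𝒞 hcov hdiam ?_
  · intro x y y' _ hy _ hy' _
    rw [hs]
    apply Q79.Nagata.euclid_dist_le _ _ (by positivity)
    intro i
    have e1 := abs_le.mp (hΦ2 y i)
    have e2 := abs_le.mp (hΦ2 y' i)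
    rw [hgi] at e1 e2
    have e3 : |(y i.val : ℝ) - (y' i.val : ℝ)| ≤ 1 := by
      rcases hy i.val i.isLt with h1 | h1 <;> rcases hy' i.val i.isLt with h2 | h2 <;>
        rw [h1, h2] <;> simp
    have e4 := abs_le.mp e3
    rw [abs_le]
    constructor <;> linarith [e1.1, e1.2, e2.1, e2.2, e4.1, e4.2]
  · intro i hi y y' _ _ hyi hyi'
    have h1 := Q79.Nagata.euclid_coord_le (Φ y) (Φ y') ⟨i, hi⟩
    have e1 := abs_le.mp (hΦ2 y ⟨i, hi⟩)
    have e2 := abs_le.mp (hΦ2 y' ⟨i, hi⟩)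
    rw [hgi] at e1 e2
    simp only [hyi, hyi'] at e1 e2
    have h2 := (abs_le.mp h1).1
    push_cast at e1 e2
    linarith [e1.1, e1.2, e2.1, e2.2]
  · intro A hA hAs
    refine (hmult A hA hAs).trans (le_of_eq ?_)
    push_cast
    ring

/-- The map is open on the domain. -/
lemma isOpen_image {U : Set (V m)} (hU : IsOpen U) (hUO : U ⊆ Om m) : IsOpen (F '' U) := by
  rw [isOpen_iff_mem_nhds]
  rintro _ ⟨x, hx, rfl⟩
  have hsurj : (DF x).range = ⊤ := by
    have hdet : (DF x).det ≠ 0 := by have := DF_det_ge (hUO hx); linarith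
    exact LinearMap.range_eq_top.mpr
      (LinearMap.equivOfDetNeZero ((DF x : V m →L[ℝ] V m) : V m →ₗ[ℝ] V m) hdet).surjective
  have := (hasStrictFDerivAt_F (hUO hx)).map_nhds_eq_of_surj hsurj
  rw [← this]
  exact image_mem_map (hU.mem_nhds hx)

/-- `F` is a homeomorphism of the strip onto its image. -/
noncomputable def homeo (m : ℕ) : Om m ≃ₜ (F '' Om m : Set (V m)) :=
  Equiv.toHomeomorphOfContinuousOpen (Equiv.Set.imageOfInjOn F (Om m) injOn_F)
    (by
      apply Continuous.subtype_mk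
      exact (contDiffOn_F.continuousOn.domRestrict))
    (by
      intro U hU
      obtain ⟨W, hW, rfl⟩ := hU
      have h1 : IsOpen (F '' (W ∩ Om m)) := isOpen_image (hW.inter isOpen_Om) inter_subset_right
      have h2 : (Equiv.Set.imageOfInjOn F (Om m) injOn_F) '' (Subtype.val ⁻¹' W) =
          Subtype.val ⁻¹' (F '' (W ∩ Om m)) := by
        ext ⟨y, hy⟩
        constructor
        · rintro ⟨⟨x, hx⟩, hxW, hxy⟩
          have : F x = y := congrArg Subtype.val hxy
          exact ⟨x, ⟨hxW, hx⟩, this⟩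
        · rintro ⟨x, ⟨hxW, hx⟩, hxy⟩
          exact ⟨⟨x, hx⟩, hxW, Subtype.ext hxy⟩
      rw [h2]
      exact h1.preimage continuous_subtype_val)

lemma homeo_apply (x : Om m) : (homeo m x : V m) = F x := rfl

end Q79.Spiral
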