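import Pool.Agent.Q79.TreeGapCore

/-!
# Hom Markov tree-shifts: the recursion for the number of patterns
-/

set_option autoImplicit false

open Filter Topology Finset

namespace Pool.Agent.Q79.TreeGap

/-- The hom Markov tree-shift of the matrix `M`: labelings `t` of the nodes of the `d`-tree (words
over `Fin d`, the children of `g` being `g ++ [i]`) with `M (t g) (t (g i)) = 1` always. -/
def TreeShift (d : ℕ) {k : ℕ} (M : Matrix (Fin k) (Fin k) ℕ) : Set (List (Fin d) → Fin k) :=
  {t | ∀ (g : List (Fin d)) (i : Fin d), M (t g) (t (g ++ [i])) = 1}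

/-- The nodes of word length at most `n`. -/
def Delta (d n : ℕ) : Set (List (Fin d)) := {g | g.length ≤ n}

/-- The restriction of a labeling to `Delta d n`. -/
def restr {d k : ℕ} (n : ℕ) (t : List (Fin d) → Fin k) : Delta d n → Fin k := fun g => t g.1

/-- The number of distinct restrictions of elements of the tree-shift to `Delta d n`. -/
noncomputable def patternCount (d : ℕ) {k : ℕ} (M : Matrix (Fin k) (Fin k) ℕ) (n : ℕ) : ℕ :=
  ((fun t => restr n t) '' TreeShift d M).ncard

variable {d k : ℕ} {M : Matrix (Fin k) (Fin k) ℕ}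

theorem Delta_finite (d n : ℕ) : (Delta d n).Finite := List.finite_length_le _ n

instance (d n : ℕ) : Finite (Delta d n) := Delta_finite d n

theorem Delta_zero (d : ℕ) : Delta d 0 = {[]} := by
  ext g
  simp [Delta]

theorem Delta_succ (d n : ℕ) : Delta d (n + 1) =
    insert [] ((fun p : Fin d × List (Fin d) => p.1 :: p.2) '' (Set.univ ×ˢ Delta d n)) := by
  ext g
  cases g with
  | nil => simp [Delta]
  | cons c g => simp [Delta]

theorem ncard_Delta_succ (d n : ℕ) : (Delta d (n + 1)).ncard = d * (Delta d n).ncard + 1 := by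
  rw [Delta_succ, Set.ncard_insert_of_notMem]
  · rw [Set.ncard_image_of_injective, Set.ncard_prod, Set.ncard_univ, Nat.card_eq_fintype_card,
      Fintype.card_fin]
    intro p q h
    simp only [List.cons.injEq] at h
    exact Prod.ext h.1 h.2
  · simp

theorem ncard_Delta {d : ℕ} (hd : 2 ≤ d) (n : ℕ) :
    ((Delta d n).ncard : ℝ) = ((d : ℝ) ^ (n + 1) - 1) / (d - 1) := by
  have hd' : (2 : ℝ) ≤ d := by exact_mod_cast hd
  have h1 : (d : ℝ) - 1 ≠ 0 := by linarith
  induction n with
  | zero => rw [Delta_zero, Set.ncard_singleton]; simp [h1]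
  | succ n ih =>
    rw [ncard_Delta_succ]
    push_cast
    rw [ih]
    field_simp
    ring

/-- The patterns on `Delta d n` with root label `i`. -/
def P (d : ℕ) {k : ℕ} (M : Matrix (Fin k) (Fin k) ℕ) (i : Fin k) (n : ℕ) :
    Set (Delta d n → Fin k) :=
  (fun t => restr n t) '' {t | t ∈ TreeShift d M ∧ t [] = i}

theorem nil_mem (d n : ℕ) : ([] : List (Fin d)) ∈ Delta d n := Nat.zero_le _

theorem cons_mem {d n : ℕ} (c : Fin d) {w : List (Fin d)} (hw : w ∈ Delta d n) :
    c :: w ∈ Delta d (n + 1) := by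
  simpa [Delta] using hw

theorem P_root {i : Fin k} {n : ℕ} {q : Delta d n → Fin k} (hq : q ∈ P d M i n) :
    q ⟨[], nil_mem d n⟩ = i := by
  obtain ⟨t, ⟨_, h⟩, rfl⟩ := hq
  exact h

theorem image_eq (n : ℕ) : (fun t => restr n t) '' TreeShift d M =
    ⋃ i, P d M i n := by
  ext q
  simp only [Set.mem_image, Set.mem_iUnion, P, Set.mem_ofPred_eq]
  constructor
  · rintro ⟨t, ht, rfl⟩
    exact ⟨t [], t, ⟨ht, rfl⟩, rfl⟩
  · rintro ⟨i, t, ⟨ht, _⟩, rfl⟩
    exact ⟨t, ht, rfl⟩

theorem P_finite (i : Fin k) (n : ℕ) : (P d M i n).Finite := Set.toFinite _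

/-- A finite disjoint union. -/
theorem ncard_biUnion (s : Finset (Fin k)) (n : ℕ) :
    (⋃ i ∈ s, P d M i n).ncard = ∑ i ∈ s, (P d M i n).ncard := by
  classical
  induction s using Finset.induction_on with
  | empty => simp
  | insert i s hi ih =>
    rw [Finset.set_biUnion_insert, Finset.sum_insert hi, Set.ncard_union_eq, ih]
    · rw [Set.disjoint_left]
      intro q hq hq'
      simp only [Set.mem_iUnion] at hq'
      obtain ⟨j, hj, hq'⟩ := hq'
      rw [← P_root hq, P_root hq'] at hi
      exact hi hj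

theorem patternCount_eq (n : ℕ) : patternCount d M n = ∑ i, (P d M i n).ncard := by
  rw [patternCount, image_eq, ← ncard_biUnion]
  simp

/-- Subtrees. -/
theorem sub_mem {t : List (Fin d) → Fin k} (ht : t ∈ TreeShift d M) (c : Fin d) :
    (fun w => t (c :: w)) ∈ TreeShift d M := fun g i => ht (c :: g) i

/-- Gluing. -/
def glue (i : Fin k) (t : Fin d → List (Fin d) → Fin k) : List (Fin d) → Fin k
  | [] => i
  | c :: w => t c w

theorem glue_mem {i : Fin k} {t : Fin d → List (Fin d) → Fin k}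
    (ht : ∀ c, t c ∈ TreeShift d M) (hr : ∀ c, M i (t c []) = 1) :
    glue i t ∈ TreeShift d M := by
  intro g c
  cases g with
  | nil => exact hr c
  | cons c' g => exact ht c' g c

/-- The successors of a state. -/
def succ (M : Matrix (Fin k) (Fin k) ℕ) (i : Fin k) : Finset (Fin k) :=
  Finset.univ.filter fun j => M i j = 1

/-- Splitting a pattern at the root. -/
def split {d k n : ℕ} (q : Delta d (n + 1) → Fin k) : Fin d → Delta d n → Fin k :=
  fun c w => q ⟨c :: w.1, cons_mem c w.2⟩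

theorem split_image (i : Fin k) (n : ℕ) :
    split '' P d M i (n + 1) = Set.pi Set.univ fun _ => ⋃ j ∈ succ M i, P d M j n := by
  ext f
  simp only [Set.mem_image, Set.mem_pi, Set.mem_univ, true_implies, Set.mem_iUnion]
  constructor
  · rintro ⟨_, ⟨t, ⟨ht, hi⟩, rfl⟩, rfl⟩ c
    refine ⟨t [c], ?_, fun w => t (c :: w), ⟨sub_mem ht c, rfl⟩, rfl⟩
    have := ht [] c
    rw [hi] at this
    simpa [succ] using this
  · intro h
    choose j hj t ht using h
    refine ⟨restr (n + 1) (glue i t), ⟨glue i t, ⟨glue_mem (fun c => (ht c).1.1) ?_, rfl⟩,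
      rfl⟩, ?_⟩
    · intro c
      have h1 := hj c
      simp only [succ, Finset.mem_filter, Finset.mem_univ, true_and] at h1
      rw [(ht c).1.2]
      exact h1
    · funext c w
      have := congrFun (ht c).2 w
      exact this

theorem split_injOn (i : Fin k) (n : ℕ) : Set.InjOn split (P d M i (n + 1)) := by
  intro q hq q' hq' h
  funext w
  obtain ⟨w, hw⟩ := w
  cases w with
  | nil => exact (P_root hq).trans (P_root hq').symm
  | cons c w =>
    have hw' : w ∈ Delta d n := by simpa [Delta] using hw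
    exact congrFun (congrFun h c) ⟨w, hw'⟩

theorem ncard_P_succ (i : Fin k) (n : ℕ) :
    (P d M i (n + 1)).ncard = (∑ j ∈ succ M i, (P d M j n).ncard) ^ d := by
  rw [← (split_injOn i n).ncard_image, split_image, ← ncard_biUnion]
  rw [← Nat.card_coe_set_eq, Nat.card_congr (Equiv.Set.univPi _), Nat.card_pi]
  simp [Nat.card_coe_set_eq]

/-- The states that occur. -/
def Occ (d : ℕ) {k : ℕ} (M : Matrix (Fin k) (Fin k) ℕ) : Set (Fin k) :=
  {i | ∃ t ∈ TreeShift d M, t [] = i}

theorem P_zero_of_mem {i : Fin k} (hi : i ∈ Occ d M) : (P d M i 0).ncard = 1 := by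
  rw [Set.ncard_eq_one]
  obtain ⟨t, ht, hi⟩ := hi
  refine ⟨restr 0 t, Set.eq_singleton_iff_unique_mem.2 ⟨⟨t, ⟨ht, hi⟩, rfl⟩, ?_⟩⟩
  rintro q hq
  funext w
  obtain ⟨w, hw⟩ := w
  rw [Delta_zero] at hw
  obtain rfl : w = [] := hw
  rw [P_root hq]
  exact hi.symm

theorem P_eq_zero {i : Fin k} (hi : i ∉ Occ d M) (n : ℕ) : (P d M i n).ncard = 0 := by
  have : P d M i n = ∅ := by
    rw [Set.eq_empty_iff_forall_notMem]
    rintro q ⟨t, ⟨ht, h⟩, rfl⟩
    exact hi ⟨t, ht, h⟩
  rw [this, Set.ncard_empty]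

/-- The gap for the entropies of hom Markov tree-shifts. -/
theorem entropy_gap (hd : 2 ≤ d) (hne : (TreeShift d M).Nonempty) {h : ℝ}
    (hlim : Tendsto (fun n => Real.log (patternCount d M n) / (Delta d n).ncard) atTop (𝓝 h)) :
    h < (1 - 26 / 25 / (d : ℝ) ^ 2) * Real.log 2 ∨ (1 - 1 / (d : ℝ) ^ 2) * Real.log 2 ≤ h := by
  classical
  set S : Occ d M → Finset (Occ d M) := fun i => Finset.univ.filter fun j => M i j = 1 with hSdef
  set a : Occ d M → ℕ → ℕ := fun i n => (P d M i.1 n).ncard with ha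
  have hne' : Nonempty (Occ d M) := by
    obtain ⟨t, ht⟩ := hne
    exact ⟨⟨t [], t, ht, rfl⟩⟩
  have hS : ∀ i, (S i).Nonempty := by
    rintro ⟨i, t, ht, hi⟩
    have c : Fin d := ⟨0, by omega⟩
    refine ⟨⟨t [c], _, sub_mem ht c, rfl⟩, ?_⟩
    simp only [hSdef, Finset.mem_filter, Finset.mem_univ, true_and]
    rw [← hi]
    exact ht [] c
  have hsum : ∀ (s : Finset (Fin k)) (n : ℕ), ∑ j ∈ s, (P d M j n).ncard =
      ∑ j ∈ (Finset.univ.filter fun j : Occ d M => j.1 ∈ s), a j n := by
    intro s n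
    have h1 : ∑ j ∈ s, (P d M j n).ncard = ∑ j ∈ s.filter (fun j => j ∈ Occ d M), (P d M j n).ncard := by
      symm
      apply Finset.sum_filter_of_ne
      intro j _ hj
      by_contra hcon
      exact hj (P_eq_zero hcon n)
    rw [h1]
    refine Finset.sum_bij' (fun j hj => ⟨j, (Finset.mem_filter.1 hj).2⟩) (fun j _ => j.1) ?_ ?_ ?_ ?_ ?_
    · intro j hj
      simp only [Finset.mem_filter, Finset.mem_univ, true_and] at hj ⊢
      exact hj.1
    · intro j hj
      simp only [Finset.mem_filter, Finset.mem_univ, true_and] at hj ⊢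
      exact ⟨hj, j.2⟩
    · intro j hj; rfl
    · intro j hj; rfl
    · intro j hj; rfl
  refine gap (S := S) (a := a) hd hS (fun i => P_zero_of_mem i.2) ?_ ?_
  · intro i n
    simp only [ha]
    rw [ncard_P_succ, hsum]
    congr 1
    apply Finset.sum_congr _ (fun _ _ => rfl)
    ext j
    simp [hSdef, succ]
  · refine hlim.congr fun n => ?_
    rw [ncard_Delta hd, patternCount_eq, hsum]
    simp

end Pool.Agent.Q79.TreeGap
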