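import Mathlib
import Pool.Agent.Q79.QRLip
import Pool.Agent.Q79.Nagata

/-!
A quasiregular map of `𝔻 × ℝ` whose branch set is mapped onto a curve dense in a cylinder.
-/

open Set Filter Topology MeasureTheory
open scoped Matrix NNReal

namespace Q79.Tube

abbrev V := EuclideanSpace ℝ (Fin 3)

/-- The radius in the first two coordinates. -/
noncomputable def rad (x : V) : ℝ := Real.sqrt (x 0 ^ 2 + x 1 ^ 2)

/-- The degree two winding map in the plane. -/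
noncomputable def wu (x : V) : ℝ := (x 0 ^ 2 - x 1 ^ 2) / rad x
noncomputable def wv (x : V) : ℝ := 2 * x 0 * x 1 / rad x

/-- The map. -/
noncomputable def F (x : V) : V := WithLp.toLp 2
  ![(2 + wu x) * Real.cos (x 2), (2 + wu x) * Real.sin (x 2),
    1 / 4 * Real.sin (Real.sqrt 2 * x 2) - wv x]

lemma F0 (x : V) : F x 0 = (2 + wu x) * Real.cos (x 2) := rfl
lemma F1 (x : V) : F x 1 = (2 + wu x) * Real.sin (x 2) := rfl
lemma F2 (x : V) : F x 2 = 1 / 4 * Real.sin (Real.sqrt 2 * x 2) - wv x := rfl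

/-- The domain `𝔻 × ℝ`. -/
def Om : Set V := {x | x 0 ^ 2 + x 1 ^ 2 < 1}

lemma isOpen_Om : IsOpen Om := isOpen_lt (by fun_prop) continuous_const

/-- The complex winding map. -/
noncomputable def W (z : ℂ) : ℂ := z ^ 2 / ‖z‖

lemma W_lip (z ζ : ℂ) : ‖W z - W ζ‖ ≤ 3 * ‖z - ζ‖ := by
  have hn : ∀ z : ℂ, ‖W z‖ = ‖z‖ := by
    intro z
    unfold W
    rcases eq_or_ne z 0 with h | h
    · simp [h]
    · have : ‖z‖ ≠ 0 := norm_ne_zero_iff.mpr h
      rw [norm_div, norm_pow, Complex.norm_real, norm_norm]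
      field_simp
  rcases eq_or_ne z 0 with h | h
  · subst h
    have : W 0 = 0 := by simp [W]
    rw [this, zero_sub, norm_neg, hn, zero_sub, norm_neg]
    nlinarith [norm_nonneg ζ]
  rcases eq_or_ne ζ 0 with h' | h'
  · subst h'
    have : W 0 = 0 := by simp [W]
    rw [this, sub_zero, hn, sub_zero]
    nlinarith [norm_nonneg z]
  have hz : (‖z‖ : ℂ) ≠ 0 := by exact_mod_cast norm_ne_zero_iff.mpr h
  have hζ : (‖ζ‖ : ℂ) ≠ 0 := by exact_mod_cast norm_ne_zero_iff.mpr h'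
  have e : W z - W ζ = (z - ζ) * (z / ‖z‖) + ζ / ‖ζ‖ * (((‖ζ‖ : ℂ) - ‖z‖) * (z / ‖z‖) + (z - ζ)) := by
    unfold W
    field_simp
    ring
  have h1 : ‖z / (‖z‖ : ℂ)‖ = 1 := by
    rw [norm_div, Complex.norm_real, norm_norm, div_self (norm_ne_zero_iff.mpr h)]
  have h2 : ‖ζ / (‖ζ‖ : ℂ)‖ = 1 := by
    rw [norm_div, Complex.norm_real, norm_norm, div_self (norm_ne_zero_iff.mpr h')]
  have h3 : ‖(‖ζ‖ : ℂ) - ‖z‖‖ ≤ ‖z - ζ‖ := by
    rw [← Complex.ofReal_sub, Complex.norm_real, Real.norm_eq_abs]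
    rw [norm_sub_rev]
    exact abs_norm_sub_norm_le ζ z
  rw [e]
  calc ‖(z - ζ) * (z / ‖z‖) + ζ / ‖ζ‖ * (((‖ζ‖ : ℂ) - ‖z‖) * (z / ‖z‖) + (z - ζ))‖
      ≤ ‖(z - ζ) * (z / ‖z‖)‖ + ‖ζ / ‖ζ‖ * (((‖ζ‖ : ℂ) - ‖z‖) * (z / ‖z‖) + (z - ζ))‖ :=
        norm_add_le _ _
    _ = ‖z - ζ‖ + ‖((‖ζ‖ : ℂ) - ‖z‖) * (z / ‖z‖) + (z - ζ)‖ := by
        rw [norm_mul, h1, mul_one, norm_mul, h2, one_mul]
    _ ≤ ‖z - ζ‖ + (‖((‖ζ‖ : ℂ) - ‖z‖) * (z / ‖z‖)‖ + ‖z - ζ‖) := by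
        gcongr; exact norm_add_le _ _
    _ ≤ ‖z - ζ‖ + (‖z - ζ‖ + ‖z - ζ‖) := by
        rw [norm_mul, h1, mul_one]; gcongr
    _ = 3 * ‖z - ζ‖ := by ring

lemma rad_eq (x : V) : rad x = ‖(⟨x 0, x 1⟩ : ℂ)‖ := by
  unfold rad
  rw [Complex.norm_def, Complex.normSq_mk]
  congr 1; ring

lemma W_re (x : V) : (W ⟨x 0, x 1⟩).re = wu x := by
  unfold W wu
  rw [rad_eq, Complex.div_ofReal_re, pow_two, Complex.mul_re]
  ring

lemma W_im (x : V) : (W ⟨x 0, x 1⟩).im = wv x := by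
  unfold W wv
  rw [rad_eq, Complex.div_ofReal_im, pow_two, Complex.mul_im]
  ring

lemma planar_dist (x y : V) : ‖(⟨x 0, x 1⟩ : ℂ) - ⟨y 0, y 1⟩‖ ≤ dist x y := by
  rw [Complex.norm_def, EuclideanSpace.dist_eq, Fin.sum_univ_three]
  apply Real.sqrt_le_sqrt
  simp only [Complex.normSq_apply, Complex.sub_re, Complex.sub_im, Real.dist_eq, sq_abs]
  nlinarith [sq_nonneg (x 2 - y 2)]

lemma wu_lip (x y : V) : |wu x - wu y| ≤ 3 * dist x y := by
  rw [← W_re, ← W_re, ← Complex.sub_re]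
  refine (Complex.abs_re_le_norm _).trans ((W_lip _ _).trans ?_)
  exact mul_le_mul_of_nonneg_left (planar_dist x y) (by norm_num)

lemma wv_lip (x y : V) : |wv x - wv y| ≤ 3 * dist x y := by
  rw [← W_im, ← W_im, ← Complex.sub_im]
  refine (Complex.abs_im_le_norm _).trans ((W_lip _ _).trans ?_)
  exact mul_le_mul_of_nonneg_left (planar_dist x y) (by norm_num)

lemma wu_lt {x : V} (hx : x ∈ Om) : |wu x| < 1 := by
  rw [← W_re]
  refine (Complex.abs_re_le_norm _).trans_lt ?_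
  have : ‖W ⟨x 0, x 1⟩‖ ≤ rad x := by
    unfold W
    rw [rad_eq, norm_div, norm_pow, Complex.norm_real, norm_norm]
    rcases eq_or_ne (‖(⟨x 0, x 1⟩ : ℂ)‖) 0 with h | h
    · rw [h]; simp
    · apply le_of_eq; field_simp
  refine this.trans_lt ?_
  unfold rad
  rw [Real.sqrt_lt' (by norm_num)]
  simpa [Om] using hx

lemma F_lip : LipschitzOnWith 40 F Om := by
  apply LipschitzOnWith.of_dist_le_mul
  intro x hx y hy
  have hu := wu_lip x y
  have hv := wv_lip x y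
  have ht : |x 2 - y 2| ≤ dist x y := Q79.Nagata.euclid_coord_le x y 2
  have hux := wu_lt hx
  have huy := wu_lt hy
  have hcos : |Real.cos (x 2) - Real.cos (y 2)| ≤ |x 2 - y 2| := by
    have := Real.abs_cos_sub_cos_le (x 2) (y 2)
    exact this
  have hsin : |Real.sin (x 2) - Real.sin (y 2)| ≤ |x 2 - y 2| := by
    have := Real.abs_sin_sub_sin_le (x 2) (y 2)
    exact this
  have hsin2 : |Real.sin (Real.sqrt 2 * x 2) - Real.sin (Real.sqrt 2 * y 2)| ≤ 2 * |x 2 - y 2| := by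
    refine (Real.abs_sin_sub_sin_le _ _).trans ?_
    rw [← mul_sub, abs_mul, abs_of_nonneg (Real.sqrt_nonneg 2)]
    apply mul_le_mul_of_nonneg_right _ (abs_nonneg _)
    rw [Real.sqrt_le_left (by norm_num)]
    norm_num
  have hd0 : 0 ≤ dist x y := dist_nonneg
  have hcoord : ∀ i : Fin 3, |F x i - F y i| ≤ 10 * dist x y := by
    intro i
    fin_cases i
    · show |F x 0 - F y 0| ≤ _
      rw [F0, F0]
      have e : (2 + wu x) * Real.cos (x 2) - (2 + wu y) * Real.cos (y 2) =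
          (wu x - wu y) * Real.cos (x 2) + (2 + wu y) * (Real.cos (x 2) - Real.cos (y 2)) := by ring
      rw [e]
      refine (abs_add_le _ _).trans ?_
      rw [abs_mul, abs_mul]
      have h1 : |wu x - wu y| * |Real.cos (x 2)| ≤ (3 * dist x y) * 1 :=
        mul_le_mul hu (Real.abs_cos_le_one _) (abs_nonneg _) (by positivity)
      have h2 : |2 + wu y| ≤ 3 := by
        rw [abs_le]; have := abs_lt.mp huy; constructor <;> linarith
      have h3 : |2 + wu y| * |Real.cos (x 2) - Real.cos (y 2)| ≤ 3 * dist x y :=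
        mul_le_mul h2 (hcos.trans ht) (abs_nonneg _) (by norm_num)
      linarith
    · show |F x 1 - F y 1| ≤ _
      rw [F1, F1]
      have e : (2 + wu x) * Real.sin (x 2) - (2 + wu y) * Real.sin (y 2) =
          (wu x - wu y) * Real.sin (x 2) + (2 + wu y) * (Real.sin (x 2) - Real.sin (y 2)) := by ring
      rw [e]
      refine (abs_add_le _ _).trans ?_
      rw [abs_mul, abs_mul]
      have h1 : |wu x - wu y| * |Real.sin (x 2)| ≤ (3 * dist x y) * 1 :=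
        mul_le_mul hu (Real.abs_sin_le_one _) (abs_nonneg _) (by positivity)
      have h2 : |2 + wu y| ≤ 3 := by
        rw [abs_le]; have := abs_lt.mp huy; constructor <;> linarith
      have h3 : |2 + wu y| * |Real.sin (x 2) - Real.sin (y 2)| ≤ 3 * dist x y :=
        mul_le_mul h2 (hsin.trans ht) (abs_nonneg _) (by norm_num)
      linarith
    · show |F x 2 - F y 2| ≤ _
      rw [F2, F2]
      have e : 1 / 4 * Real.sin (Real.sqrt 2 * x 2) - wv x -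
          (1 / 4 * Real.sin (Real.sqrt 2 * y 2) - wv y) =
          1 / 4 * (Real.sin (Real.sqrt 2 * x 2) - Real.sin (Real.sqrt 2 * y 2)) +
            -(wv x - wv y) := by ring
      rw [e]
      refine (abs_add_le _ _).trans ?_
      rw [abs_mul, abs_neg, abs_of_pos (by norm_num : (0 : ℝ) < 1 / 4)]
      linarith
  have := Q79.Nagata.euclid_dist_le (F x) (F y) (δ := 10 * dist x y) (by positivity) hcoord
  push_cast at this ⊢
  linarith

/-- The derivative matrix off the axis. -/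
noncomputable def Mat (x : V) : Matrix (Fin 3) (Fin 3) ℝ :=
  !![(x 0 ^ 3 + 3 * x 0 * x 1 ^ 2) / rad x ^ 3 * Real.cos (x 2),
      -(3 * x 0 ^ 2 * x 1 + x 1 ^ 3) / rad x ^ 3 * Real.cos (x 2), -(2 + wu x) * Real.sin (x 2);
     (x 0 ^ 3 + 3 * x 0 * x 1 ^ 2) / rad x ^ 3 * Real.sin (x 2),
      -(3 * x 0 ^ 2 * x 1 + x 1 ^ 3) / rad x ^ 3 * Real.sin (x 2), (2 + wu x) * Real.cos (x 2);
     -(2 * x 1 ^ 3 / rad x ^ 3), -(2 * x 0 ^ 3 / rad x ^ 3),
      1 / 4 * (Real.sqrt 2 * Real.cos (Real.sqrt 2 * x 2))]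

noncomputable def DF (x : V) : V →L[ℝ] V :=
  LinearMap.toContinuousLinearMap (Matrix.toEuclideanLin (Mat x))

lemma rad_sq (x : V) : rad x ^ 2 = x 0 ^ 2 + x 1 ^ 2 := Real.sq_sqrt (by positivity)

lemma DF_det {x : V} (hx : rad x ≠ 0) : (DF x).det = 2 * (2 + wu x) := by
  have h1 : (DF x).det = (Mat x).det := by
    unfold DF
    rw [ContinuousLinearMap.det, LinearMap.coe_toContinuousLinearMap,
      Matrix.toEuclideanLin_eq_toLin_orthonormal, LinearMap.det_toLin]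
  rw [h1, Mat, Matrix.det_fin_three]
  simp only [Matrix.of_apply, Matrix.cons_val', Matrix.cons_val_zero, Matrix.cons_val_one,
    Matrix.cons_val, Matrix.cons_val_fin_one]
  have hr := rad_sq x
  have hs := Real.sin_sq_add_cos_sq (x 2)
  have hr6 : rad x ^ 6 = (x 0 ^ 2 + x 1 ^ 2) ^ 3 := by rw [← hr]; ring
  have key : (x 0 ^ 3 + 3 * x 0 * x 1 ^ 2) / rad x ^ 3 * (2 * x 0 ^ 3 / rad x ^ 3) +
      (3 * x 0 ^ 2 * x 1 + x 1 ^ 3) / rad x ^ 3 * (2 * x 1 ^ 3 / rad x ^ 3) = 2 := by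
    have e : (x 0 ^ 3 + 3 * x 0 * x 1 ^ 2) / rad x ^ 3 * (2 * x 0 ^ 3 / rad x ^ 3) +
      (3 * x 0 ^ 2 * x 1 + x 1 ^ 3) / rad x ^ 3 * (2 * x 1 ^ 3 / rad x ^ 3) =
      2 * (x 0 ^ 2 + x 1 ^ 2) ^ 3 / rad x ^ 6 := by
      field_simp
      ring
    rw [e, ← hr6]
    field_simp
  have e2 : -(3 * x 0 ^ 2 * x 1 + x 1 ^ 3) / rad x ^ 3 =
      -((3 * x 0 ^ 2 * x 1 + x 1 ^ 3) / rad x ^ 3) := neg_div _ _
  rw [e2]
  set A := (x 0 ^ 3 + 3 * x 0 * x 1 ^ 2) / rad x ^ 3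
  set B := (3 * x 0 ^ 2 * x 1 + x 1 ^ 3) / rad x ^ 3
  set C := 2 * x 1 ^ 3 / rad x ^ 3
  set E := 2 * x 0 ^ 3 / rad x ^ 3
  linear_combination (2 + wu x) * (Real.sin (x 2) ^ 2 + Real.cos (x 2) ^ 2) * key +
    2 * (2 + wu x) * hs

lemma DFv0 (x v : V) : DF x v 0 = (x 0 ^ 3 + 3 * x 0 * x 1 ^ 2) / rad x ^ 3 * Real.cos (x 2) * v 0 +
    -(3 * x 0 ^ 2 * x 1 + x 1 ^ 3) / rad x ^ 3 * Real.cos (x 2) * v 1 +
    -(2 + wu x) * Real.sin (x 2) * v 2 := by
  have : DF x v 0 = (Mat x *ᵥ (v : Fin 3 → ℝ)) 0 := rfl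
  rw [this, Matrix.mulVec, dotProduct, Fin.sum_univ_three]
  rfl

lemma DFv1 (x v : V) : DF x v 1 = (x 0 ^ 3 + 3 * x 0 * x 1 ^ 2) / rad x ^ 3 * Real.sin (x 2) * v 0 +
    -(3 * x 0 ^ 2 * x 1 + x 1 ^ 3) / rad x ^ 3 * Real.sin (x 2) * v 1 +
    (2 + wu x) * Real.cos (x 2) * v 2 := by
  have : DF x v 1 = (Mat x *ᵥ (v : Fin 3 → ℝ)) 1 := rfl
  rw [this, Matrix.mulVec, dotProduct, Fin.sum_univ_three]
  rfl

lemma DFv2 (x v : V) : DF x v 2 = -(2 * x 1 ^ 3 / rad x ^ 3) * v 0 +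
    -(2 * x 0 ^ 3 / rad x ^ 3) * v 1 +
    1 / 4 * (Real.sqrt 2 * Real.cos (Real.sqrt 2 * x 2)) * v 2 := by
  have : DF x v 2 = (Mat x *ᵥ (v : Fin 3 → ℝ)) 2 := rfl
  rw [this, Matrix.mulVec, dotProduct, Fin.sum_univ_three]
  rfl

lemma coordDeriv (i : Fin 3) (x : V) :
    HasFDerivAt (fun y : V => y i) (EuclideanSpace.proj i : V →L[ℝ] ℝ) x :=
  (EuclideanSpace.proj i : V →L[ℝ] ℝ).hasFDerivAt

lemma rad_deriv {x : V} (hx : rad x ≠ 0) : HasFDerivAt rad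
    ((x 0 / rad x) • (EuclideanSpace.proj 0 : V →L[ℝ] ℝ) +
      (x 1 / rad x) • (EuclideanSpace.proj 1 : V →L[ℝ] ℝ)) x := by
  have h0 := coordDeriv 0 x
  have h1 := coordDeriv 1 x
  have h2 : HasFDerivAt (fun y : V => y 0 ^ 2 + y 1 ^ 2) _ x := (h0.pow 2).add (h1.pow 2)
  have hne : x 0 ^ 2 + x 1 ^ 2 ≠ 0 := by
    rw [← rad_sq]; exact pow_ne_zero 2 hx
  have h3 := h2.sqrt hne
  refine HasFDerivAt.congr_fderiv h3 ?_
  ext v
  have e4 : ∀ i, (EuclideanSpace.proj i : V →L[ℝ] ℝ) v = v i := fun i => rfl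
  simp only [add_apply, smul_apply, smul_eq_mul, e4]
  have : Real.sqrt (x 0 ^ 2 + x 1 ^ 2) = rad x := rfl
  rw [this]
  field_simp
  simp
  ring

lemma radinv_deriv {x : V} (hx : rad x ≠ 0) : HasFDerivAt (fun y => (rad y)⁻¹)
    ((-(x 0 / rad x ^ 3)) • (EuclideanSpace.proj 0 : V →L[ℝ] ℝ) +
      (-(x 1 / rad x ^ 3)) • (EuclideanSpace.proj 1 : V →L[ℝ] ℝ)) x := by
  have h := (hasDerivAt_inv hx).comp_hasFDerivAt x (rad_deriv hx)
  refine HasFDerivAt.congr_fderiv h ?_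
  ext v
  have e4 : ∀ i, (EuclideanSpace.proj i : V →L[ℝ] ℝ) v = v i := fun i => rfl
  simp only [add_apply, smul_apply, smul_eq_mul, e4]
  field_simp
  ring

lemma wu_deriv {x : V} (hx : rad x ≠ 0) : HasFDerivAt wu
    (((x 0 ^ 3 + 3 * x 0 * x 1 ^ 2) / rad x ^ 3) • (EuclideanSpace.proj 0 : V →L[ℝ] ℝ) +
      (-(3 * x 0 ^ 2 * x 1 + x 1 ^ 3) / rad x ^ 3) • (EuclideanSpace.proj 1 : V →L[ℝ] ℝ)) x := by
  have h0 := coordDeriv 0 x
  have h1 := coordDeriv 1 x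
  have h2 : HasFDerivAt (fun y : V => (y 0 ^ 2 - y 1 ^ 2) * (rad y)⁻¹) _ x :=
    ((h0.pow 2).sub (h1.pow 2)).mul (radinv_deriv hx)
  refine HasFDerivAt.congr_fderiv (f := wu) h2 ?_
  ext v
  have e4 : ∀ i, (EuclideanSpace.proj i : V →L[ℝ] ℝ) v = v i := fun i => rfl
  simp only [add_apply, smul_apply, sub_apply, smul_eq_mul, e4, Pi.sub_apply]
  have hr := rad_sq x
  have hr' : (rad x)⁻¹ = (x 0 ^ 2 + x 1 ^ 2) / rad x ^ 3 := by
    rw [← hr]; field_simp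
  rw [hr']
  simp only [Nat.add_one_sub_one, pow_one, nsmul_eq_mul]
  push_cast
  ring

lemma wv_deriv {x : V} (hx : rad x ≠ 0) : HasFDerivAt wv
    ((2 * x 1 ^ 3 / rad x ^ 3) • (EuclideanSpace.proj 0 : V →L[ℝ] ℝ) +
      (2 * x 0 ^ 3 / rad x ^ 3) • (EuclideanSpace.proj 1 : V →L[ℝ] ℝ)) x := by
  have h0 := coordDeriv 0 x
  have h1 := coordDeriv 1 x
  have h2 : HasFDerivAt (fun y : V => (2 * y 0 * y 1) * (rad y)⁻¹) _ x :=
    ((h0.const_mul 2).mul h1).mul (radinv_deriv hx)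
  refine HasFDerivAt.congr_fderiv (f := wv) h2 ?_
  ext v
  have e4 : ∀ i, (EuclideanSpace.proj i : V →L[ℝ] ℝ) v = v i := fun i => rfl
  simp only [add_apply, smul_apply, sub_apply, smul_eq_mul, e4, Pi.mul_apply]
  have hr := rad_sq x
  have hr' : (rad x)⁻¹ = (x 0 ^ 2 + x 1 ^ 2) / rad x ^ 3 := by
    rw [← hr]; field_simp
  rw [hr']
  ring

lemma F_deriv {x : V} (hx : rad x ≠ 0) : HasFDerivAt F (DF x) x := by
  have hu := wu_deriv hx
  have hv := wv_deriv hx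
  have h2 := coordDeriv 2 x
  rw [← hasFDerivWithinAt_univ, hasFDerivWithinAt_euclidean]
  intro i
  rw [hasFDerivWithinAt_univ]
  fin_cases i
  · show HasFDerivAt (fun y => F y 0) (PiLp.proj _ _ 0 ∘L DF x) x
    have h3 : HasFDerivAt (fun y : V => (2 + wu y) * Real.cos (y 2)) _ x :=
      (hu.const_add 2).mul h2.cos
    refine HasFDerivAt.congr_fderiv (f := fun y => F y 0) h3 ?_
    ext v
    have e3 : (PiLp.proj 2 (fun _ => ℝ) 0 ∘SL DF x) v = DF x v 0 := rfl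
    have e4 : ∀ i, (EuclideanSpace.proj i : V →L[ℝ] ℝ) v = v i := fun i => rfl
    rw [e3, DFv0]
    simp only [add_apply, smul_apply, sub_apply, smul_eq_mul, e4]
    ring
  · show HasFDerivAt (fun y => F y 1) (PiLp.proj _ _ 1 ∘L DF x) x
    have h3 : HasFDerivAt (fun y : V => (2 + wu y) * Real.sin (y 2)) _ x :=
      (hu.const_add 2).mul h2.sin
    refine HasFDerivAt.congr_fderiv (f := fun y => F y 1) h3 ?_
    ext v
    have e3 : (PiLp.proj 2 (fun _ => ℝ) 1 ∘SL DF x) v = DF x v 1 := rfl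
    have e4 : ∀ i, (EuclideanSpace.proj i : V →L[ℝ] ℝ) v = v i := fun i => rfl
    rw [e3, DFv1]
    simp only [add_apply, smul_apply, sub_apply, smul_eq_mul, e4]
    ring
  · show HasFDerivAt (fun y => F y 2) (PiLp.proj _ _ 2 ∘L DF x) x
    have h3 : HasFDerivAt (fun y : V => 1 / 4 * Real.sin (Real.sqrt 2 * y 2) - wv y) _ x :=
      (((h2.const_mul (Real.sqrt 2)).sin).const_mul (1 / 4)).sub hv
    refine HasFDerivAt.congr_fderiv (f := fun y => F y 2) h3 ?_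
    ext v
    have e3 : (PiLp.proj 2 (fun _ => ℝ) 2 ∘SL DF x) v = DF x v 2 := rfl
    have e4 : ∀ i, (EuclideanSpace.proj i : V →L[ℝ] ℝ) v = v i := fun i => rfl
    rw [e3, DFv2]
    simp only [add_apply, smul_apply, sub_apply, smul_eq_mul, e4]
    ring

/-- Almost every point is off the axis. -/
lemma ae_rad_ne : ∀ᵐ x : V, rad x ≠ 0 := by
  have h1 : {x : V | x 0 = 0} = ((LinearMap.ker (EuclideanSpace.proj 0 : V →L[ℝ] ℝ).toLinearMap :
      Submodule ℝ V) : Set V) := by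
    ext x; simp
  have h2 : volume {x : V | x 0 = 0} = 0 := by
    rw [h1]
    apply Measure.addHaar_submodule
    intro h
    have : (EuclideanSpace.single 0 1 : V) ∈
        LinearMap.ker (EuclideanSpace.proj 0 : V →L[ℝ] ℝ).toLinearMap := by rw [h]; trivial
    simp at this
  rw [ae_iff]
  refine measure_mono_null ?_ h2
  intro x hx
  simp only [mem_ofPred_eq, not_not] at hx
  have h3 := rad_sq x
  rw [hx] at h3
  show x 0 = 0
  nlinarith [sq_nonneg (x 0), sq_nonneg (x 1)]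

theorem quasiregular_F : Q79.QR.IsQuasiregular Om F := by
  have hae : ∀ᵐ x ∂(volume.restrict Om), rad x ≠ 0 := ae_restrict_of_ae ae_rad_ne
  refine Q79.QR.quasiregular_of_lipschitzOn isOpen_Om F_lip (K := 40 ^ 3) ?_ (by norm_num) ?_
  · filter_upwards [hae] with x hx
    exact (F_deriv hx).differentiableAt
  · filter_upwards [hae, ae_restrict_mem isOpen_Om.measurableSet] with x hx hxO
    have h1 : ‖fderiv ℝ F x‖ ≤ 40 :=
      norm_fderiv_le_of_lipschitzOn ℝ (isOpen_Om.mem_nhds hxO) F_lip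
    have h2 : ‖fderiv ℝ F x‖ ^ 3 ≤ 40 ^ 3 := pow_le_pow_left₀ (norm_nonneg _) h1 3
    rw [(F_deriv hx).fderiv] at h2 ⊢
    rw [DF_det hx]
    have h3 := (abs_lt.mp (wu_lt hxO)).1
    nlinarith

end Q79.Tube
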