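import Mathlib
import Pool.Agent.Q79.Tube

/-!
The branch set of the map and the Nagata dimension of its image.
-/

open Set Filter Topology MeasureTheory

namespace Q79.Tube

/-- The branch set. -/
def branchSet {n : ℕ} (Ω : Set (EuclideanSpace ℝ (Fin n)))
    (f : EuclideanSpace ℝ (Fin n) → EuclideanSpace ℝ (Fin n)) : Set (EuclideanSpace ℝ (Fin n)) :=
  {x ∈ Ω | ¬ ∃ e : OpenPartialHomeomorph (EuclideanSpace ℝ (Fin n)) (EuclideanSpace ℝ (Fin n)),
    x ∈ e.source ∧ e.source ⊆ Ω ∧ EqOn f e e.source}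

/-- Points of the axis. -/
noncomputable def ax (t : ℝ) : V := WithLp.toLp 2 ![0, 0, t]

lemma ax0 (t : ℝ) : ax t 0 = 0 := rfl
lemma ax1 (t : ℝ) : ax t 1 = 0 := rfl
lemma ax2 (t : ℝ) : ax t 2 = t := rfl

lemma ax_mem (t : ℝ) : ax t ∈ Om := by
  show (ax t) 0 ^ 2 + (ax t) 1 ^ 2 < 1
  rw [ax0, ax1]; norm_num

lemma F_ax (t : ℝ) : F (ax t) 0 = 2 * Real.cos t ∧ F (ax t) 1 = 2 * Real.sin t ∧
    F (ax t) 2 = 1 / 4 * Real.sin (Real.sqrt 2 * t) := by
  have h1 : wu (ax t) = 0 := by simp [wu, ax0, ax1]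
  have h2 : wv (ax t) = 0 := by simp [wv, ax0, ax1]
  rw [F0, F1, F2, h1, h2, ax2]
  refine ⟨by ring, by ring, by ring⟩

/-- The axis is contained in the branch set. -/
lemma ax_branch (t : ℝ) : ax t ∈ branchSet Om F := by
  refine ⟨ax_mem t, ?_⟩
  rintro ⟨e, he, _, heq⟩
  set p : ℝ → V := fun δ => WithLp.toLp 2 ![δ, 0, t] with hp
  have hp0 : p 0 = ax t := rfl
  have hpc : Continuous p := by
    rw [hp]
    apply (PiLp.continuous_toLp 2 (fun _ : Fin 3 => ℝ)).comp
    apply continuous_pi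
    intro i
    fin_cases i
    · exact continuous_id
    · exact continuous_const
    · exact continuous_const
  have hnhds : ∀ᶠ δ in 𝓝 (0 : ℝ), p δ ∈ e.source := by
    apply hpc.continuousAt.eventually
    rw [hp0]
    exact e.open_source.mem_nhds he
  obtain ⟨ε, hε, hball⟩ := Metric.eventually_nhds_iff.mp hnhds
  have h1 : p (ε / 2) ∈ e.source := by
    apply hball
    rw [Real.dist_eq, sub_zero, abs_of_pos (by linarith)]; linarith
  have h2 : p (-(ε / 2)) ∈ e.source := by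
    apply hball
    rw [Real.dist_eq, sub_zero, abs_neg, abs_of_pos (by linarith)]; linarith
  have hrad : ∀ δ, rad (p δ) = |δ| := by
    intro δ
    unfold rad
    show Real.sqrt (δ ^ 2 + 0 ^ 2) = |δ|
    rw [zero_pow (by norm_num), add_zero, Real.sqrt_sq_eq_abs]
  have hwu : wu (p (ε / 2)) = wu (p (-(ε / 2))) := by
    unfold wu
    rw [hrad, hrad, abs_neg]
    show ((ε / 2) ^ 2 - 0 ^ 2) / _ = ((-(ε / 2)) ^ 2 - 0 ^ 2) / _
    ring
  have hwv : wv (p (ε / 2)) = wv (p (-(ε / 2))) := by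
    unfold wv
    show 2 * (ε / 2) * 0 / _ = 2 * (-(ε / 2)) * 0 / _
    simp
  have hF : F (p (ε / 2)) = F (p (-(ε / 2))) := by
    unfold F
    rw [hwu, hwv]
    rfl
  have h3 : e (p (ε / 2)) = e (p (-(ε / 2))) := by
    rw [← heq h1, ← heq h2, hF]
  have h4 := e.injOn h1 h2 h3
  have h5 := congrArg (fun x : V => x 0) h4
  have h6 : ε / 2 = -(ε / 2) := h5
  linarith

/-- Density of the curve in the cylinder. -/
lemma dense_curve (θ z ε : ℝ) (hz : |z| ≤ 1 / 8) (hε : 0 < ε) :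
    ∃ t : ℝ, Real.cos t = Real.cos θ ∧ Real.sin t = Real.sin θ ∧
      |1 / 4 * Real.sin (Real.sqrt 2 * t) - z| ≤ ε := by
  have hirr : Irrational (Real.sqrt 2 / 1) := by rw [div_one]; exact irrational_sqrt_two
  have hdense := dense_addSubgroupClosure_pair_iff.mpr hirr
  set ψ : ℝ := Real.arcsin (4 * z) with hψ
  have hz' := abs_le.mp hz
  have hsinψ : Real.sin ψ = 4 * z := Real.sin_arcsin (by linarith) (by linarith)
  have h2pi : 0 < 2 * Real.pi := by positivity
  obtain ⟨y, hy, hyd⟩ := Metric.dense_iff.mp hdense ((ψ - Real.sqrt 2 * θ) / (2 * Real.pi))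
    (ε / (2 * Real.pi)) (by positivity)
  obtain ⟨k, l, hkl⟩ := AddSubgroup.mem_closure_pair.mp hyd
  refine ⟨θ + k * (2 * Real.pi), Real.cos_add_int_mul_two_pi θ k, Real.sin_add_int_mul_two_pi θ k, ?_⟩
  rw [Metric.mem_ball, Real.dist_eq] at hy
  have h1 : Real.sqrt 2 * (θ + k * (2 * Real.pi)) =
      (Real.sqrt 2 * θ + y * (2 * Real.pi)) - l * (2 * Real.pi) := by
    rw [← hkl]
    simp only [zsmul_eq_mul]
    ring
  have h2 : Real.sin (Real.sqrt 2 * (θ + k * (2 * Real.pi))) =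
      Real.sin (Real.sqrt 2 * θ + y * (2 * Real.pi)) := by
    rw [h1, Real.sin_sub_int_mul_two_pi]
  have h3 : |Real.sqrt 2 * θ + y * (2 * Real.pi) - ψ| ≤ ε := by
    have e : Real.sqrt 2 * θ + y * (2 * Real.pi) - ψ =
        (y - (ψ - Real.sqrt 2 * θ) / (2 * Real.pi)) * (2 * Real.pi) := by
      field_simp
      ring
    rw [e, abs_mul, abs_of_pos h2pi]
    rw [lt_div_iff₀ h2pi] at hy
    exact hy.le
  have h4 : 1 / 4 * Real.sin (Real.sqrt 2 * (θ + k * (2 * Real.pi))) - z =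
      1 / 4 * (Real.sin (Real.sqrt 2 * θ + y * (2 * Real.pi)) - Real.sin ψ) := by
    rw [h2, hsinψ]; ring
  rw [h4, abs_mul, abs_of_pos (by norm_num : (0 : ℝ) < 1 / 4)]
  have h5 := (Real.abs_sin_sub_sin_le (Real.sqrt 2 * θ + y * (2 * Real.pi)) ψ).trans h3
  linarith

theorem not_nagataLE {X : Set V} (hX : ∀ t : ℝ, F (ax t) ∈ X) : ¬ Q79.Nagata.NagataLE X 1 := by
  rintro ⟨c, hc, h⟩
  set s : ℝ := min 1 (1 / (16 * c)) with hs
  have hs0 : 0 < s := lt_min one_pos (by positivity)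
  have hs1 : s ≤ 1 := min_le_left _ _
  have hcs : c * s ≤ 1 / 16 := by
    calc c * s ≤ c * (1 / (16 * c)) := mul_le_mul_of_nonneg_left (min_le_right _ _) hc.le
      _ = 1 / 16 := by field_simp
  obtain ⟨𝒞, hcov, hdiam, hmult⟩ := h s hs0
  obtain ⟨N, hN⟩ := exists_nat_gt (16 / s)
  have hN0 : (0 : ℝ) < N := lt_trans (by positivity) hN
  have hNs : 1 / (N : ℝ) ≤ s / 16 := by
    rw [div_le_div_iff₀ hN0 (by norm_num)]
    rw [div_lt_iff₀ hs0] at hN
    linarith
  have hex : ∀ x : ℕ → ℕ, ∃ t : ℝ, (x 1 ≤ N →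
      Real.cos t = Real.cos (x 0 / N) ∧ Real.sin t = Real.sin (x 0 / N) ∧
      |1 / 4 * Real.sin (Real.sqrt 2 * t) - (-1 / 8 + x 1 / (4 * N))| ≤ s / 16) := by
    intro x
    by_cases hx : x 1 ≤ N
    · obtain ⟨t, ht⟩ := dense_curve (x 0 / N) (-1 / 8 + x 1 / (4 * N)) (s / 16) (by
        have h1 : (x 1 : ℝ) ≤ N := by exact_mod_cast hx
        have h2 : (x 1 : ℝ) / (4 * N) ≤ 1 / 4 := by
          rw [div_le_div_iff₀ (by positivity) (by norm_num)]; linarith
        have h3 : 0 ≤ (x 1 : ℝ) / (4 * N) := by positivity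
        rw [abs_le]; constructor <;> linarith) (by positivity)
      exact ⟨t, fun _ => ht⟩
    · exact ⟨0, fun h => absurd h hx⟩
  choose τ hτ using hex
  refine Q79.Nagata.grid_obstruction (X := X) (k := 2) (m := N) (fun x => F (ax (τ x)))
    (s := s) (D := c * s) (fun x _ => hX _) ?_ ?_ 𝒞 hcov hdiam ?_
  · intro x y y' hxN hy hy2 hy' hy2'
    have hyN : y 1 ≤ N := by
      have := hxN 1 (by norm_num)
      rcases hy 1 (by norm_num) with h1 | h1 <;> rw [h1] <;> omega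
    have hyN' : y' 1 ≤ N := by
      have := hxN 1 (by norm_num)
      rcases hy' 1 (by norm_num) with h1 | h1 <;> rw [h1] <;> omega
    obtain ⟨a0, a1, a2⟩ := hτ y hyN
    obtain ⟨b0, b1, b2⟩ := hτ y' hyN'
    obtain ⟨f0, f1, f2⟩ := F_ax (τ y)
    obtain ⟨g0, g1, g2⟩ := F_ax (τ y')
    have hd : ∀ i, i < 2 → |(y i : ℝ) - (y' i : ℝ)| ≤ 1 := by
      intro i hi
      rcases hy i hi with h1 | h1 <;> rcases hy' i hi with h2 | h2 <;> rw [h1, h2] <;> simp
    have hd0 : |(y 0 : ℝ) / N - (y' 0 : ℝ) / N| ≤ s / 16 := by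
      rw [← sub_div, abs_div, abs_of_pos hN0]
      calc |(y 0 : ℝ) - (y' 0 : ℝ)| / N ≤ 1 / N :=
            div_le_div_of_nonneg_right (hd 0 (by norm_num)) hN0.le
        _ ≤ s / 16 := hNs
    have hd1 : |(y 1 : ℝ) / (4 * N) - (y' 1 : ℝ) / (4 * N)| ≤ s / 16 := by
      rw [← sub_div, abs_div, abs_of_pos (by positivity : (0 : ℝ) < 4 * N)]
      calc |(y 1 : ℝ) - (y' 1 : ℝ)| / (4 * N) ≤ 1 / N := by
            rw [div_le_div_iff₀ (by positivity) hN0]
            nlinarith [hd 1 (by norm_num)]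
        _ ≤ s / 16 := hNs
    have hco : ∀ i : Fin 3, |F (ax (τ y)) i - F (ax (τ y')) i| ≤ s / 4 := by
      intro i
      fin_cases i
      · show |F (ax (τ y)) 0 - F (ax (τ y')) 0| ≤ _
        rw [f0, g0, a0, b0, ← mul_sub, abs_mul, abs_of_pos (by norm_num : (0 : ℝ) < 2)]
        have := (Real.abs_cos_sub_cos_le ((y 0 : ℝ) / N) ((y' 0 : ℝ) / N)).trans hd0
        linarith
      · show |F (ax (τ y)) 1 - F (ax (τ y')) 1| ≤ _
        rw [f1, g1, a1, b1, ← mul_sub, abs_mul, abs_of_pos (by norm_num : (0 : ℝ) < 2)]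
        have := (Real.abs_sin_sub_sin_le ((y 0 : ℝ) / N) ((y' 0 : ℝ) / N)).trans hd0
        linarith
      · show |F (ax (τ y)) 2 - F (ax (τ y')) 2| ≤ _
        rw [f2, g2]
        have e1 := abs_le.mp a2
        have e2 := abs_le.mp b2
        have e3 := abs_le.mp hd1
        rw [abs_le]
        constructor <;> linarith [e1.1, e1.2, e2.1, e2.2, e3.1, e3.2]
    have := Q79.Nagata.euclid_dist_le (F (ax (τ y))) (F (ax (τ y'))) (δ := s / 4)
      (by positivity) hco
    push_cast at this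
    linarith
  · intro i hi y y' hy hy' h0 hm
    obtain ⟨a0, a1, a2⟩ := hτ y (hy 1)
    obtain ⟨b0, b1, b2⟩ := hτ y' (hy' 1)
    obtain ⟨f0, f1, f2⟩ := F_ax (τ y)
    obtain ⟨g0, g1, g2⟩ := F_ax (τ y')
    have hi' : i = 0 ∨ i = 1 := by omega
    rcases hi' with rfl | rfl
    · have h1 := Q79.Nagata.euclid_coord_le (F (ax (τ y))) (F (ax (τ y'))) 1
      rw [f1, g1, a1, b1, h0, hm, div_self hN0.ne'] at h1
      have h2 : 1 / 2 ≤ Real.sin 1 := by
        have := Real.mul_le_sin (x := 1) (by norm_num) (by linarith [Real.pi_gt_three])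
        have h3 : 1 / 2 ≤ 2 / Real.pi := by
          rw [div_le_div_iff₀ (by norm_num) Real.pi_pos]
          linarith [Real.pi_le_four]
        linarith
      have h3 : |2 * Real.sin ((0 : ℕ) / N : ℝ) - 2 * Real.sin 1| = 2 * Real.sin 1 := by
        rw [Nat.cast_zero, zero_div, Real.sin_zero, mul_zero, zero_sub, abs_neg,
          abs_of_pos (by linarith)]
      rw [h3] at h1
      linarith
    · have h1 := Q79.Nagata.euclid_coord_le (F (ax (τ y))) (F (ax (τ y'))) 2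
      rw [f2, g2] at h1
      rw [h0] at a2
      rw [hm] at b2
      have e1 := abs_le.mp a2
      have e2 := abs_le.mp b2
      have e3 : (N : ℝ) / (4 * N) = 1 / 4 := by field_simp
      rw [e3] at e2
      rw [Nat.cast_zero, zero_div] at e1
      have h2 := (abs_le.mp h1).1
      linarith [e1.1, e1.2, e2.1, e2.2]
  · intro A hA hAs
    refine (hmult A hA hAs).trans (le_of_eq ?_)
    norm_num

end Q79.Tube
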