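import Mathlib

/-!
The normalised second derivative of `(1 - x)^m (1 + x)^(m+1)`, `m = j + 2`, in the variable
`v = n x - 1`.
-/

open Set

namespace Q79.Turan

/-- `G j v`. -/
noncomputable def G (j : ℕ) (v : ℝ) : ℝ :=
  (1 - v / (2 * j + 4)) ^ j * (1 + v / (2 * j + 6)) ^ (j + 1) * (1 - v ^ 2 / (2 * j + 6))

theorem G_zero (j : ℕ) : G j 0 = 1 := by simp [G]

/-- Central region. -/
theorem G_central {j : ℕ} {v : ℝ} (h1 : -(2 * j + 6) ≤ v) (h2 : v ≤ 2 * j + 4)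
    (hv : v ^ 2 ≤ 2 * j + 6) :
    0 ≤ G j v ∧ G j v * (1 - v / ((j + 2) * (j + 3))) ≤ 1 - v ^ 2 / (2 * j + 6) := by
  have hj : (0 : ℝ) ≤ j := j.cast_nonneg
  have ha : 0 ≤ 1 - v / (2 * j + 4) := by
    rw [sub_nonneg, div_le_one (by positivity)]; exact h2
  have hb : 0 ≤ 1 + v / (2 * j + 6) := by
    have : -1 ≤ v / (2 * j + 6) := by rw [le_div_iff₀ (by positivity)]; linarith
    linarith
  have hc : 0 ≤ 1 - v ^ 2 / (2 * j + 6) := by
    rw [sub_nonneg, div_le_one (by positivity)]; exact hv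
  refine ⟨by unfold G; positivity, ?_⟩
  have hae : 1 - v / (2 * j + 4) ≤ Real.exp (-(v / (2 * j + 4))) := by
    have := Real.add_one_le_exp (-(v / (2 * (j : ℝ) + 4)))
    linarith
  have hbe : 1 + v / (2 * j + 6) ≤ Real.exp (v / (2 * j + 6)) := by
    have := Real.add_one_le_exp (v / (2 * (j : ℝ) + 6))
    linarith
  have h3 : (1 - v / (2 * j + 4)) ^ j * (1 + v / (2 * j + 6)) ^ (j + 1) ≤
      Real.exp (v / ((j + 2) * (j + 3))) := by
    calc (1 - v / (2 * j + 4)) ^ j * (1 + v / (2 * j + 6)) ^ (j + 1)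
        ≤ Real.exp (-(v / (2 * j + 4))) ^ j * Real.exp (v / (2 * j + 6)) ^ (j + 1) := by
          gcongr
      _ = Real.exp (v / ((j + 2) * (j + 3))) := by
          rw [← Real.exp_nat_mul, ← Real.exp_nat_mul, ← Real.exp_add]
          congr 1
          push_cast
          field_simp
          ring
  have h4 : Real.exp (v / ((j + 2) * (j + 3))) * (1 - v / ((j + 2) * (j + 3))) ≤ 1 := by
    have h5 := Real.add_one_le_exp (-(v / (((j : ℝ) + 2) * (j + 3))))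
    have h6 : (0 : ℝ) < Real.exp (v / ((j + 2) * (j + 3))) := Real.exp_pos _
    have h7 : Real.exp (v / (((j : ℝ) + 2) * (j + 3))) *
        Real.exp (-(v / (((j : ℝ) + 2) * (j + 3)))) = 1 := by
      rw [← Real.exp_add]; simp
    nlinarith
  by_cases hs : 0 ≤ 1 - v / ((j + 2) * (j + 3))
  · calc G j v * (1 - v / ((j + 2) * (j + 3)))
        = (1 - v / (2 * j + 4)) ^ j * (1 + v / (2 * j + 6)) ^ (j + 1) *
            (1 - v / ((j + 2) * (j + 3))) * (1 - v ^ 2 / (2 * j + 6)) := by unfold G; ring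
      _ ≤ Real.exp (v / ((j + 2) * (j + 3))) * (1 - v / ((j + 2) * (j + 3))) *
            (1 - v ^ 2 / (2 * j + 6)) := by gcongr
      _ ≤ 1 * (1 - v ^ 2 / (2 * j + 6)) := by gcongr
      _ = _ := one_mul _
  · push Not at hs
    have : 0 ≤ G j v := by unfold G; positivity
    nlinarith

theorem G_lt_of_central {j : ℕ} {v : ℝ} (h1 : -(2 * j + 6) ≤ v) (h2 : v ≤ 2 * j + 4)
    (hj1 : 1 ≤ j) (hv : v ^ 2 ≤ 2 * j + 6) :
    |G j v| < (j + 2) * (j + 3) / ((j + 1) * (j + 4)) := by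
  have hj : (1 : ℝ) ≤ j := by exact_mod_cast hj1
  obtain ⟨h3, h4⟩ := G_central h1 h2 hv
  rw [abs_of_nonneg h3]
  by_contra hcon
  push Not at hcon
  have hv1 : v < (j + 2) * (j + 3) := by nlinarith
  have hs : 0 < 1 - v / ((j + 2) * (j + 3)) := by
    rw [sub_pos, div_lt_one (by positivity)]; exact hv1
  have h5 : (j + 2) * (j + 3) / ((j + 1) * (j + 4)) * (1 - v / ((j + 2) * (j + 3))) ≤
      1 - v ^ 2 / (2 * j + 6) := le_trans (by gcongr) h4
  have h6 : ((j : ℝ) + 2) * (j + 3) / ((j + 1) * (j + 4)) * (1 - v / ((j + 2) * (j + 3))) =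
      ((j + 2) * (j + 3) - v) / ((j + 1) * (j + 4)) := by field_simp
  rw [h6, div_le_iff₀ (by positivity)] at h5
  have h7 : (1 - v ^ 2 / (2 * (j : ℝ) + 6)) * ((j + 1) * (j + 4)) * (2 * j + 6) =
      ((2 * j + 6) - v ^ 2) * ((j + 1) * (j + 4)) := by field_simp
  have h8 : (((j : ℝ) + 2) * (j + 3) - v) * (2 * j + 6) ≤ 
      ((2 * j + 6) - v ^ 2) * ((j + 1) * (j + 4)) := by
    rw [← h7]; gcongr
  nlinarith [sq_nonneg (v * (j + 1) * (j + 4) - (j + 3)), sq_nonneg (v - 1/4),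
    mul_nonneg (by linarith : (0 : ℝ) ≤ j - 1) (sq_nonneg v),
    mul_nonneg (mul_nonneg (by linarith : (0 : ℝ) ≤ j) (by linarith : (0 : ℝ) ≤ j))
      (sq_nonneg (v - 1 / 4)), mul_nonneg (by linarith : (0 : ℝ) ≤ j - 1) (sq_nonneg (v - 1/4))]

theorem G_central_loc {j : ℕ} {v : ℝ} (h1 : -(2 * j + 6) ≤ v) (h2 : v ≤ 2 * j + 4)
    (hj1 : 1 ≤ j) (hv : v ^ 2 ≤ 2 * j + 6) (hG : 1 ≤ G j v) :
    0 ≤ v ∧ v ≤ 2 / (j + 2) := by
  have hj : (1 : ℝ) ≤ j := by exact_mod_cast hj1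
  obtain ⟨h3, h4⟩ := G_central h1 h2 hv
  have hv1 : v < (j + 2) * (j + 3) := by nlinarith
  have hs : 0 < 1 - v / ((j + 2) * (j + 3)) := by
    rw [sub_pos, div_lt_one (by positivity)]; exact hv1
  have h5 : 1 * (1 - v / ((j + 2) * (j + 3))) ≤
      1 - v ^ 2 / (2 * j + 6) := le_trans (by gcongr) h4
  have h6 : v ^ 2 / (2 * j + 6) ≤ v / ((j + 2) * (j + 3)) := by linarith
  rw [div_le_div_iff₀ (by positivity) (by positivity)] at h6
  have h7 : v ^ 2 * (j + 2) ≤ 2 * v := by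
    have : (v ^ 2 * (j + 2) - 2 * v) * (j + 3) ≤ 0 := by nlinarith
    by_contra hc
    push Not at hc
    nlinarith
  have h8 : 0 ≤ v := by nlinarith [sq_nonneg v]
  refine ⟨h8, ?_⟩
  rw [le_div_iff₀ (by positivity)]
  rcases h8.eq_or_lt with h | h
  · rw [← h]; norm_num
  · by_contra hc
    push Not at hc
    nlinarith

/-- Truncated binomial series. -/
theorem trunc (j : ℕ) {X : ℝ} (h0 : 0 ≤ X) (h1 : X ≤ 1) :
    (1 - X) ^ j * (1 + j * X + j * (j + 1) / 2 * X ^ 2 + j * (j + 1) * (j + 2) / 6 * X ^ 3) ≤ 1 := by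
  induction j with
  | zero => simp
  | succ j ih =>
    have hj : (0 : ℝ) ≤ j := j.cast_nonneg
    refine le_trans ?_ ih
    rw [pow_succ, mul_assoc]
    have h2 : 0 ≤ (1 - X) ^ j := pow_nonneg (by linarith) _
    apply mul_le_mul_of_nonneg_left _ h2
    have h3 : (0 : ℝ) ≤ ((j : ℝ) + 1) * (j + 2) * (j + 3) * X ^ 4 := by positivity
    push_cast
    nlinarith

end Q79.Turan
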