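import Mathlib
import Pool.Agent.Q79.TuranA

/-!
The outer region.
-/

open Set

namespace Q79.Turan

theorem prod_ab (j : ℕ) (v : ℝ) : (1 - v / (2 * j + 4)) * (1 + v / (2 * j + 6)) =
    1 - (v ^ 2 + 2 * v) / ((2 * j + 4) * (2 * j + 6)) := by
  have hj : (0 : ℝ) ≤ j := j.cast_nonneg
  field_simp
  ring

theorem G_eq (j : ℕ) (v : ℝ) : G j v =
    (1 - (v ^ 2 + 2 * v) / ((2 * j + 4) * (2 * j + 6))) ^ j * (1 + v / (2 * j + 6)) *
      (1 - v ^ 2 / (2 * j + 6)) := by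
  rw [← prod_ab, mul_pow]
  unfold G
  ring

theorem outer_one {v : ℝ} (h1 : -8 ≤ v) (h2 : v ≤ 6) (hv : 8 < v ^ 2) : |G 1 v| < 1 := by
  have e : G 1 v = -((6 - v) * (8 + v) ^ 2 * (v ^ 2 - 8)) / 3072 := by
    rw [G_eq]; norm_num; ring
  have h3 : 0 ≤ (6 - v) * (8 + v) ^ 2 * (v ^ 2 - 8) := by
    have : 0 ≤ 6 - v := by linarith
    have : 0 ≤ v ^ 2 - 8 := by linarith
    positivity
  rw [e, abs_div, abs_neg, abs_of_nonneg h3, abs_of_pos (by norm_num), div_lt_one (by norm_num)]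
  rcases le_total 0 v with h | h
  · have h4 : 0 ≤ 6 - v := by linarith
    nlinarith [mul_nonneg h (sq_nonneg (v - 4.76)), mul_nonneg h (sq_nonneg (v * (v - 4.76))),
      sq_nonneg (v - 4.76), sq_nonneg (v * (v - 4.76)), mul_nonneg h h4,
      mul_nonneg h4 (sq_nonneg (v - 4.76)), mul_nonneg (mul_nonneg h h4) (sq_nonneg (v - 4.76))]
  · have h4 : 0 ≤ 8 + v := by linarith
    have h5 : 0 ≤ -v := by linarith
    nlinarith [mul_nonneg h5 (sq_nonneg (v + 5)), mul_nonneg h4 (sq_nonneg (v + 5)),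
      sq_nonneg (v + 5), sq_nonneg (v * (v + 5)), mul_nonneg h5 h4,
      mul_nonneg (mul_nonneg h5 h4) (sq_nonneg (v + 5)), mul_nonneg (mul_nonneg h5 h4) h4,
      mul_nonneg h4 (sq_nonneg (v * (v + 5))), mul_nonneg h5 (sq_nonneg (v * (v + 5)))]

theorem two_aux {a b v : ℝ} (ha : 0 ≤ a) (hav : a ≤ v) (hvb : v ≤ b) (hv8 : v ≤ 8)
    (hv : 10 < v ^ 2) (h : ((8 - a) * (10 + a)) ^ 2 * ((10 + b) * (b ^ 2 - 10)) < 640000) :
    (8 - v) ^ 2 * (10 + v) ^ 3 * (v ^ 2 - 10) < 640000 := by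
  have h1 : 0 ≤ (8 - v) * (10 + v) := mul_nonneg (by linarith) (by linarith)
  have h2 : (8 - v) * (10 + v) ≤ (8 - a) * (10 + a) := by nlinarith
  have h3 : v ^ 2 ≤ b ^ 2 := pow_le_pow_left₀ (by linarith) hvb 2
  have h4 : (10 + v) * (v ^ 2 - 10) ≤ (10 + b) * (b ^ 2 - 10) :=
    mul_le_mul (by linarith) (by linarith) (by linarith) (by linarith)
  have h5 : 0 ≤ (10 + v) * (v ^ 2 - 10) := mul_nonneg (by linarith) (by linarith)
  calc (8 - v) ^ 2 * (10 + v) ^ 3 * (v ^ 2 - 10)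
      = ((8 - v) * (10 + v)) ^ 2 * ((10 + v) * (v ^ 2 - 10)) := by ring
    _ ≤ ((8 - a) * (10 + a)) ^ 2 * ((10 + b) * (b ^ 2 - 10)) := by gcongr
    _ < _ := h

theorem outer_two {v : ℝ} (h1 : -10 ≤ v) (h2 : v ≤ 8) (hv : 10 < v ^ 2) : |G 2 v| < 1 := by
  have e : G 2 v = -((8 - v) ^ 2 * (10 + v) ^ 3 * (v ^ 2 - 10)) / 640000 := by
    rw [G_eq]; norm_num; ring
  have h6 : 0 ≤ 10 + v := by linarith
  have h3 : 0 ≤ (8 - v) ^ 2 * (10 + v) ^ 3 * (v ^ 2 - 10) := by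
    have : 0 ≤ v ^ 2 - 10 := by linarith
    positivity
  rw [e, abs_div, abs_neg, abs_of_nonneg h3, abs_of_pos (by norm_num), div_lt_one (by norm_num)]
  rcases le_total 0 v with h | h
  · have h7 : 3 ≤ v := by nlinarith
    by_cases c1 : v ≤ 4
    · exact two_aux (by norm_num) h7 c1 h2 hv (by norm_num)
    push Not at c1
    by_cases c2 : v ≤ 4.6
    · exact two_aux (by norm_num) c1.le c2 h2 hv (by norm_num)
    push Not at c2
    by_cases c3 : v ≤ 5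
    · exact two_aux (by norm_num) c2.le c3 h2 hv (by norm_num)
    push Not at c3
    by_cases c4 : v ≤ 5.4
    · exact two_aux (by norm_num) c3.le c4 h2 hv (by norm_num)
    push Not at c4
    by_cases c5 : v ≤ 5.8
    · exact two_aux (by norm_num) c4.le c5 h2 hv (by norm_num)
    push Not at c5
    by_cases c6 : v ≤ 6.3
    · exact two_aux (by norm_num) c5.le c6 h2 hv (by norm_num)
    push Not at c6
    by_cases c7 : v ≤ 7
    · exact two_aux (by norm_num) c6.le c7 h2 hv (by norm_num)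
    push Not at c7
    exact two_aux (by norm_num) c7.le h2 h2 hv (by norm_num)
  · have h7 : v ≤ -3 := by nlinarith
    have h8 : 0 ≤ (8 - v) * (10 + v) := mul_nonneg (by linarith) (by linarith)
    have h9 : 0 ≤ (10 + v) * (v ^ 2 - 10) := mul_nonneg (by linarith) (by linarith)
    have e2 : (8 - v) ^ 2 * (10 + v) ^ 3 * (v ^ 2 - 10) =
      ((8 - v) * (10 + v)) ^ 2 * ((10 + v) * (v ^ 2 - 10)) := by ring
    rw [e2]
    by_cases c : -4 ≤ v
    · have h10 : (8 - v) * (10 + v) ≤ 77 := by nlinarith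
      have h11 : v ^ 2 - 10 ≤ 6 := by nlinarith
      have h12 : (10 + v) * (v ^ 2 - 10) ≤ 7 * 6 :=
        mul_le_mul (by linarith) h11 (by linarith) (by norm_num)
      calc _ ≤ (77 : ℝ) ^ 2 * (7 * 6) := by gcongr
        _ < _ := by norm_num
    · push Not at c
      have h10 : (8 - v) * (10 + v) ≤ 72 := by nlinarith
      have h12 : (10 + v) * (v ^ 2 - 10) ≤ 120 := by
        nlinarith [mul_nonneg h6 (sq_nonneg (v + 7)), mul_nonneg (by linarith : (0 : ℝ) ≤ -v)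
          (sq_nonneg (v + 7)), sq_nonneg (v + 7)]
      calc _ ≤ (72 : ℝ) ^ 2 * 120 := by gcongr
        _ < _ := by norm_num

/-- The one-variable inequality for the right side. -/
theorem cubic_right {y : ℝ} (hy : 0 ≤ y) :
    0 < 1 + 3 / 10 * y + 3 / 50 * y ^ 2 + 1 / 100 * y ^ 3 - (y - 1) - 3 / 20 * y -
      5 / 76 * (y - 33 / 10) ^ 2 := by
  nlinarith [mul_nonneg hy (sq_nonneg (y - 98 / 25)), sq_nonneg (y - 98 / 25)]

theorem cubic_left {y : ℝ} (hy : 0 ≤ y) :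
    0 < 1 + 3 / 10 * y + 3 / 50 * y ^ 2 + 1 / 100 * y ^ 3 - (y - 1) - (y - 3) ^ 2 / 8 := by
  nlinarith [mul_nonneg hy (sq_nonneg (y - 4)), mul_nonneg hy (sq_nonneg (y - 3)),
    sq_nonneg (y - 4), sq_nonneg (y - 3), mul_nonneg hy hy]

theorem cubic_left' {y : ℝ} (hy : 0 ≤ y) :
    0 < 1 + 3 / 10 * y + 3 / 50 * y ^ 2 + 1 / 100 * y ^ 3 - (y - 1) := by
  nlinarith [mul_nonneg hy (sq_nonneg (y - 4)), mul_nonneg hy (sq_nonneg (y - 3)),
    sq_nonneg (y - 4), sq_nonneg (y - 3), mul_nonneg hy hy]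

theorem outer_big {j : ℕ} (hj3 : 3 ≤ j) {v : ℝ} (h1 : -(2 * j + 6) ≤ v) (h2 : v ≤ 2 * j + 4)
    (hv : 2 * j + 6 < v ^ 2) : |G j v| < 1 := by
  have hj : (3 : ℝ) ≤ j := by exact_mod_cast hj3
  set N : ℝ := 2 * j + 6 with hN
  have hN12 : 12 ≤ N := by linarith
  set r : ℝ := v / N with hr
  have hvr : v = N * r := by rw [hr]; field_simp
  have hr1 : -1 ≤ r := by rw [hr, le_div_iff₀ (by positivity)]; linarith
  set X : ℝ := (v ^ 2 + 2 * v) / ((2 * j + 4) * (2 * j + 6)) with hX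
  set y : ℝ := N * r ^ 2 + 2 * r with hy
  have hXy : X = y / (N - 2) := by
    have : (2 * (j : ℝ) + 4) = N - 2 := by rw [hN]; ring
    rw [hX, this, ← hN, hvr, hy]
    have : N - 2 ≠ 0 := by linarith
    field_simp
  have hz : 1 < N * r ^ 2 := by
    rw [hvr] at hv
    have : N * 1 < N * (N * r ^ 2) := by linarith
    exact lt_of_mul_lt_mul_left this (by linarith)
  have hy0 : 0 ≤ y := by
    rw [hy]
    rcases le_total 0 r with h | h
    · nlinarith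
    · -- |v| ≥ 2
      have h4 : N * r ≤ -2 := by nlinarith
      nlinarith
  have hX0 : 0 ≤ X := by rw [hXy]; exact div_nonneg hy0 (by linarith)
  have hαβ : (1 - v / (2 * j + 4)) * (1 + v / (2 * j + 6)) = 1 - X := prod_ab j v
  have hX1 : X ≤ 1 := by
    have h4 : 0 ≤ 1 - v / (2 * j + 4) := by
      rw [sub_nonneg, div_le_one (by positivity)]; exact h2
    have h5 : 0 ≤ 1 + v / (2 * j + 6) := by rw [← hN, ← hr]; linarith
    have := mul_nonneg h4 h5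
    rw [hαβ] at this
    linarith
  have hT := trunc j hX0 hX1
  -- lower bound of the truncated series
  have hTy : 1 + 3 / 10 * y + 3 / 50 * y ^ 2 + 1 / 100 * y ^ 3 ≤
      1 + j * X + j * (j + 1) / 2 * X ^ 2 + j * (j + 1) * (j + 2) / 6 * X ^ 3 := by
    have e0 : N - 2 = 2 * ((j : ℝ) + 2) := by rw [hN]; ring
    have a1 : 3 / 10 ≤ (j : ℝ) / (2 * (j + 2)) := by
      rw [le_div_iff₀ (by positivity)]; nlinarith
    have a2 : 3 / 50 ≤ (j : ℝ) * (j + 1) / 2 / (2 * (j + 2)) ^ 2 := by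
      rw [le_div_iff₀ (by positivity)]; nlinarith
    have a3 : 1 / 100 ≤ (j : ℝ) * (j + 1) * (j + 2) / 6 / (2 * (j + 2)) ^ 3 := by
      rw [le_div_iff₀ (by positivity)]; nlinarith [mul_nonneg (by linarith : (0 : ℝ) ≤ j + 2)
        (mul_nonneg (by linarith : (0 : ℝ) ≤ (j : ℝ) - 3) (by linarith : (0 : ℝ) ≤ (j : ℝ) - 3))]
    have b1 : (j : ℝ) * X = (j : ℝ) / (2 * (j + 2)) * y := by rw [hXy, e0]; ring
    have b2 : (j : ℝ) * (j + 1) / 2 * X ^ 2 = (j : ℝ) * (j + 1) / 2 / (2 * (j + 2)) ^ 2 * y ^ 2 := by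
      rw [hXy, e0, div_pow]; ring
    have b3 : (j : ℝ) * (j + 1) * (j + 2) / 6 * X ^ 3 =
        (j : ℝ) * (j + 1) * (j + 2) / 6 / (2 * (j + 2)) ^ 3 * y ^ 3 := by
      rw [hXy, e0, div_pow]; ring
    rw [b1, b2, b3]
    gcongr
  -- the right hand side
  have hR : (1 + r) * (N * r ^ 2 - 1) < 1 + 3 / 10 * y + 3 / 50 * y ^ 2 + 1 / 100 * y ^ 3 := by
    have e1 : (1 + r) * (N * r ^ 2 - 1) = y - 1 + r * (y - 3) - 2 * r ^ 2 := by rw [hy]; ring
    rw [e1]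
    rcases le_total 0 r with h | h
    · have h5 := cubic_right hy0
      have h6 : 12 * r ^ 2 + 2 * r ≤ y := by rw [hy]; nlinarith [sq_nonneg r]
      have h7 : 0 ≤ 19 / 5 * (r - 5 / 38 * (y - 33 / 10)) ^ 2 := by positivity
      have h8 : 19 / 5 * (r - 5 / 38 * (y - 33 / 10)) ^ 2 =
        19 / 5 * r ^ 2 - r * (y - 33 / 10) + 5 / 76 * (y - 33 / 10) ^ 2 := by ring
      linarith
    · rcases le_total y 3 with h7 | h7
      · have h5 := cubic_left hy0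
        nlinarith [sq_nonneg (4 * r - (y - 3))]
      · have h5 := cubic_left' hy0
        nlinarith
  have hnn : 0 ≤ (1 + r) * (N * r ^ 2 - 1) := mul_nonneg (by linarith) (by linarith)
  have hG : |G j v| = (1 - X) ^ j * ((1 + r) * (N * r ^ 2 - 1)) := by
    rw [G_eq, ← hX, ← hN, ← hr]
    have e2 : 1 - v ^ 2 / N = -(N * r ^ 2 - 1) := by
      rw [hvr]; field_simp; ring
    rw [e2]
    have : (1 - X) ^ j * (1 + r) * -(N * r ^ 2 - 1) = -((1 - X) ^ j * ((1 + r) * (N * r ^ 2 - 1))) := by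
      ring
    rw [this, abs_neg, abs_of_nonneg (mul_nonneg (pow_nonneg (by linarith) _) hnn)]
  rw [hG]
  have hpow : 0 ≤ (1 - X) ^ j := pow_nonneg (by linarith) _
  rcases hpow.eq_or_lt with h | h
  · rw [← h]; norm_num
  · calc (1 - X) ^ j * ((1 + r) * (N * r ^ 2 - 1))
        < (1 - X) ^ j * (1 + 3 / 10 * y + 3 / 50 * y ^ 2 + 1 / 100 * y ^ 3) :=
          mul_lt_mul_of_pos_left hR h
      _ ≤ _ := mul_le_mul_of_nonneg_left hTy hpow
      _ ≤ 1 := hT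

theorem G_outer {j : ℕ} (hj1 : 1 ≤ j) {v : ℝ} (h1 : -(2 * j + 6) ≤ v) (h2 : v ≤ 2 * j + 4)
    (hv : 2 * j + 6 < v ^ 2) : |G j v| < 1 := by
  rcases Nat.lt_or_ge j 3 with h | h
  · interval_cases j
    · norm_num at h1 h2 hv
      exact outer_one h1 h2 hv
    · norm_num at h1 h2 hv
      exact outer_two h1 h2 hv
  · exact outer_big h h1 h2 hv

/-- The maximum of `|G|`. -/
theorem exists_max {j : ℕ} (hj1 : 1 ≤ j) : ∃ w : ℝ, 0 ≤ w ∧ w ≤ 2 / (j + 2) ∧ 1 ≤ G j w ∧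
    G j w < (j + 2) * (j + 3) / ((j + 1) * (j + 4)) ∧
    (∀ v : ℝ, -(2 * j + 6) ≤ v → v ≤ 2 * j + 4 → |G j v| ≤ G j w) ∧
    ∀ v : ℝ, -(2 * j + 6) ≤ v → v ≤ 2 * j + 4 → 1 ≤ |G j v| → 0 ≤ v ∧ v ≤ 2 / (j + 2) ∧
      |G j v| = G j v := by
  have hj : (1 : ℝ) ≤ j := by exact_mod_cast hj1
  have hcont : Continuous (fun v => |G j v|) := by unfold G; fun_prop
  obtain ⟨w, hw, hmax⟩ := (isCompact_Icc : IsCompact (Icc (-(2 * (j : ℝ) + 6)) (2 * j + 4))).exists_isMaxOn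
    ⟨0, by constructor <;> linarith⟩ hcont.continuousOn
  have hall : ∀ v : ℝ, -(2 * j + 6) ≤ v → v ≤ 2 * j + 4 → 1 ≤ |G j v| → 0 ≤ v ∧ v ≤ 2 / (j + 2) ∧
      |G j v| = G j v := by
    intro v h1 h2 h3
    by_cases hc : v ^ 2 ≤ 2 * j + 6
    · have h4 := (G_central h1 h2 hc).1
      have h5 : |G j v| = G j v := abs_of_nonneg h4
      rw [h5] at h3
      obtain ⟨h6, h7⟩ := G_central_loc h1 h2 hj1 hc h3
      exact ⟨h6, h7, h5⟩
    · push Not at hc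
      exact absurd (G_outer hj1 h1 h2 hc) (not_lt.2 h3)
  have h0 : 1 ≤ |G j w| := by
    have := hmax (show (0 : ℝ) ∈ Icc (-(2 * (j : ℝ) + 6)) (2 * j + 4) from ⟨by linarith, by linarith⟩)
    simp only [mem_ofPred_eq, G_zero, abs_one] at this
    exact this
  obtain ⟨h1, h2, h3⟩ := hall w hw.1 hw.2 h0
  refine ⟨w, h1, h2, by rw [← h3]; exact h0, ?_, fun v hv1 hv2 => ?_, hall⟩
  · rw [← h3]
    apply G_lt_of_central hw.1 hw.2 hj1
    have h4 : w ≤ 1 := h2.trans (by rw [div_le_one (by positivity)]; linarith)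
    nlinarith
  · rw [← h3]
    exact hmax ⟨hv1, hv2⟩

end Q79.Turan
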