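import Mathlib
import Pool.Agent.Q79.TuranB

/-!
Products `∏ (1 + y_i X)`: second derivative, smoothing.
-/

open Set Polynomial

namespace Q79.Turan

variable {ι : Type*} [DecidableEq ι]

/-- `∏_{i ∈ T} (1 + y_i X)`. -/
noncomputable def pr (T : Finset ι) (y : ι → ℝ) : ℝ[X] := ∏ i ∈ T, (1 + C (y i) * X)

theorem pr_eval (T : Finset ι) (y : ι → ℝ) (s : ℝ) : (pr T y).eval s = ∏ i ∈ T, (1 + y i * s) := by
  simp [pr, eval_prod]

theorem pr_derivs (T : Finset ι) (y : ι → ℝ) (s : ℝ) (h : ∀ i ∈ T, 1 + y i * s ≠ 0) :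
    (derivative (pr T y)).eval s = (pr T y).eval s * ∑ i ∈ T, y i / (1 + y i * s) ∧
    (derivative (derivative (pr T y))).eval s = (pr T y).eval s *
      ((∑ i ∈ T, y i / (1 + y i * s)) ^ 2 - ∑ i ∈ T, (y i / (1 + y i * s)) ^ 2) := by
  induction T using Finset.induction_on with
  | empty => simp [pr]
  | insert a T ha ih =>
    obtain ⟨h1, h2⟩ := ih (fun i hi => h i (Finset.mem_insert_of_mem hi))
    have h3 : 1 + y a * s ≠ 0 := h a (Finset.mem_insert_self _ _)
    have e : pr (insert a T) y = (1 + C (y a) * X) * pr T y := by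
      unfold pr; rw [Finset.prod_insert ha]
    rw [Finset.sum_insert ha, Finset.sum_insert ha, e]
    have hu : y a / (1 + y a * s) * (1 + y a * s) = y a := by field_simp
    set u : ℝ := y a / (1 + y a * s)
    constructor
    · simp only [derivative_mul, derivative_add, derivative_one, derivative_C, derivative_X,
        eval_add, eval_mul, eval_one, eval_C, eval_X, eval_zero, h1]
      linear_combination (-(eval s (pr T y))) * hu
    · simp only [derivative_mul, derivative_add, derivative_one, derivative_C, derivative_X,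
        eval_add, eval_mul, eval_one, eval_C, eval_X, eval_zero, h1, h2, derivative_zero]
      linear_combination (-(2 * (∑ i ∈ T, y i / (1 + y i * s)) * eval s (pr T y))) * hu

theorem pr_continuous (T : Finset ι) (s : ℝ) :
    Continuous (fun y : ι → ℝ => (pr T y).eval s) ∧
    Continuous (fun y : ι → ℝ => (derivative (pr T y)).eval s) ∧
    Continuous (fun y : ι → ℝ => (derivative (derivative (pr T y))).eval s) := by
  induction T using Finset.induction_on with
  | empty => simp only [pr, Finset.prod_empty, derivative_one, derivative_zero]; simp [continuous_const]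
  | insert a T ha ih =>
    obtain ⟨h0, h1, h2⟩ := ih
    have e : ∀ y : ι → ℝ, pr (insert a T) y = (1 + C (y a) * X) * pr T y := by
      intro y; unfold pr; rw [Finset.prod_insert ha]
    simp only [e, derivative_mul, derivative_add, derivative_one, derivative_C, derivative_X,
        eval_add, eval_mul, eval_one, eval_C, eval_X, eval_zero, derivative_zero]
    refine ⟨by fun_prop, by fun_prop, by fun_prop⟩

theorem sq_mul_dd (T : Finset ι) (y : ι → ℝ) (s : ℝ) (h : ∀ i ∈ T, 1 + y i * s ≠ 0) :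
    (derivative (derivative (X ^ 2 * pr T y))).eval s = (pr T y).eval s *
      ((2 + s * ∑ i ∈ T, y i / (1 + y i * s)) ^ 2 - 2 -
        s ^ 2 * ∑ i ∈ T, (y i / (1 + y i * s)) ^ 2) := by
  obtain ⟨h1, h2⟩ := pr_derivs T y s h
  simp only [derivative_mul, derivative_add, derivative_X_pow, derivative_C, derivative_X,
    eval_add, eval_mul, eval_one, eval_C, eval_X, eval_zero, h1, h2, eval_pow]
  norm_num
  ring

/-- Positivity of the smoothing coefficient. -/
theorem smooth_pos (T : Finset ι) (y : ι → ℝ) {s S B : ℝ} (hs : 0 ≤ s) (hB : ∑ i ∈ T, y i ^ 2 ≤ B)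
    (hS : ∑ i ∈ T, max (-y i) 0 ≤ S) (hsB : s ^ 2 * B ≤ 7 / 90) (hsS : s * S ≤ 1 / 3) :
    (∀ i ∈ T, 0 < 1 + y i * s) ∧ 0 < (derivative (derivative (X ^ 2 * pr T y))).eval s := by
  have hθ : ∀ i ∈ T, |y i * s| ≤ 28 / 100 := by
    intro i hi
    have h1 : y i ^ 2 ≤ B := le_trans (Finset.single_le_sum (f := fun i => y i ^ 2)
      (fun j _ => sq_nonneg _) hi) hB
    have h2 : (y i * s) ^ 2 ≤ 7 / 90 := by
      calc (y i * s) ^ 2 = s ^ 2 * y i ^ 2 := by ring
        _ ≤ s ^ 2 * B := by gcongr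
        _ ≤ _ := hsB
    exact abs_le_of_sq_le_sq (by linarith) (by norm_num)
  have hpos : ∀ i ∈ T, 72 / 100 ≤ 1 + y i * s := by
    intro i hi
    have := (abs_le.1 (hθ i hi)).1
    linarith
  refine ⟨fun i hi => by have := hpos i hi; linarith, ?_⟩
  rw [sq_mul_dd T y s (fun i hi => by have := hpos i hi; intro h; linarith)]
  apply mul_pos
  · rw [pr_eval]
    exact Finset.prod_pos (fun i hi => by have := hpos i hi; linarith)
  · have hA : -(25 / 18 * S) ≤ ∑ i ∈ T, y i / (1 + y i * s) := by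
      have h1 : ∑ i ∈ T, -(25 / 18 * max (-y i) 0) ≤ ∑ i ∈ T, y i / (1 + y i * s) := by
        apply Finset.sum_le_sum
        intro i hi
        have h2 := hpos i hi
        rcases le_total 0 (y i) with h | h
        · have : max (-y i) 0 = 0 := max_eq_right (by linarith)
          rw [this]
          have : 0 ≤ y i / (1 + y i * s) := div_nonneg h (by linarith)
          linarith
        · have : max (-y i) 0 = -y i := max_eq_left (by linarith)
          rw [this, le_div_iff₀ (by linarith)]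
          nlinarith
      refine le_trans ?_ h1
      rw [Finset.sum_neg_distrib, ← Finset.mul_sum]
      linarith
    have hBq : ∑ i ∈ T, (y i / (1 + y i * s)) ^ 2 ≤ (25 / 18) ^ 2 * B := by
      calc ∑ i ∈ T, (y i / (1 + y i * s)) ^ 2 ≤ ∑ i ∈ T, (25 / 18) ^ 2 * y i ^ 2 := by
            apply Finset.sum_le_sum
            intro i hi
            have h2 := hpos i hi
            rw [div_pow, div_le_iff₀ (by positivity)]
            have h3 : 1 ≤ (25 / 18) ^ 2 * (1 + y i * s) ^ 2 := by nlinarith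
            nlinarith [sq_nonneg (y i)]
        _ = (25 / 18) ^ 2 * ∑ i ∈ T, y i ^ 2 := by rw [Finset.mul_sum]
        _ ≤ _ := by gcongr
    have h3 : -(25 / 54) ≤ s * ∑ i ∈ T, y i / (1 + y i * s) := by
      have : s * (-(25 / 18 * S)) ≤ s * ∑ i ∈ T, y i / (1 + y i * s) := by gcongr
      nlinarith
    have h4 : s ^ 2 * ∑ i ∈ T, (y i / (1 + y i * s)) ^ 2 ≤ (25 / 18) ^ 2 * (7 / 90) := by
      calc s ^ 2 * ∑ i ∈ T, (y i / (1 + y i * s)) ^ 2 ≤ s ^ 2 * ((25 / 18) ^ 2 * B) := by gcongr
        _ = (25 / 18) ^ 2 * (s ^ 2 * B) := by ring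
        _ ≤ _ := by gcongr
    nlinarith

variable [Fintype ι]

/-- The two equal values. -/
noncomputable def ybar (L : Finset ι) (S : ℝ) : ι → ℝ :=
  fun i => if i ∈ L then S / L.card else -(S / Lᶜ.card)

/-- The admissible set. -/
def adm (L : Finset ι) (S B : ℝ) : Set (ι → ℝ) :=
  {y | (∀ i ∈ L, 0 ≤ y i) ∧ (∀ i ∉ L, y i ≤ 0) ∧ ∑ i ∈ L, y i = S ∧ ∑ i ∈ Lᶜ, y i = -S ∧
    ∑ i, y i ^ 2 ≤ B}

/-- The value at `s` of the second derivative. -/
noncomputable def Phi (s : ℝ) (y : ι → ℝ) : ℝ :=
  -(derivative (derivative (pr Finset.univ y))).eval s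

theorem adm_compact (L : Finset ι) (S B : ℝ) : IsCompact (adm L S B) := by
  have hclosed : IsClosed (adm L S B) := by
    have e : adm L S B = (⋂ i ∈ L, {y : ι → ℝ | 0 ≤ y i}) ∩ (⋂ i ∈ Lᶜ, {y : ι → ℝ | y i ≤ 0}) ∩
      {y | ∑ i ∈ L, y i = S} ∩ {y | ∑ i ∈ Lᶜ, y i = -S} ∩ {y | ∑ i, y i ^ 2 ≤ B} := by
      ext y
      simp [adm, and_assoc]
    rw [e]
    refine ((((isClosed_biInter ?_).inter (isClosed_biInter ?_)).inter ?_).inter ?_).inter ?_
    · intro i _; exact isClosed_le continuous_const (continuous_apply i)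
    · intro i _; exact isClosed_le (continuous_apply i) continuous_const
    · exact isClosed_eq (by fun_prop) continuous_const
    · exact isClosed_eq (by fun_prop) continuous_const
    · exact isClosed_le (by fun_prop) continuous_const
  refine IsCompact.of_isClosed_subset (isCompact_closedBall (0 : ι → ℝ) (Real.sqrt B)) hclosed ?_
  intro y hy
  rw [mem_closedBall_zero_iff, pi_norm_le_iff_of_nonneg (Real.sqrt_nonneg _)]
  intro i
  rw [Real.norm_eq_abs]
  apply Real.abs_le_sqrt
  exact le_trans (Finset.single_le_sum (f := fun i => y i ^ 2)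
      (fun j _ => sq_nonneg _) (Finset.mem_univ i)) hy.2.2.2.2

theorem sum_update_two (T : Finset ι) (f g : ι → ℝ) {i j : ι} (hij : i ≠ j) (hi : i ∈ T)
    (hj : j ∈ T) (hfg : ∀ l, l ≠ i → l ≠ j → f l = g l) :
    ∑ l ∈ T, f l = ∑ l ∈ T, g l + (f i + f j - g i - g j) := by
  have hj' : j ∈ T.erase i := Finset.mem_erase.2 ⟨hij.symm, hj⟩
  rw [← Finset.add_sum_erase _ _ hi, ← Finset.add_sum_erase _ _ hi,
    ← Finset.add_sum_erase _ _ hj', ← Finset.add_sum_erase _ _ hj']
  have : ∑ x ∈ (T.erase i).erase j, f x = ∑ x ∈ (T.erase i).erase j, g x := by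
    apply Finset.sum_congr rfl
    intro l hl
    rw [Finset.mem_erase, Finset.mem_erase] at hl
    exact hfg l hl.2.1 hl.1
  rw [this]
  ring

theorem smoothing {L : Finset ι} {s S B : ℝ} (hs : 0 ≤ s) (hsB : s ^ 2 * B ≤ 7 / 90)
    (hsS : s * S ≤ 1 / 3) {y : ι → ℝ} (hy : y ∈ adm L S B) {i j : ι} (hij : i ≠ j)
    (hL : i ∈ L ↔ j ∈ L) (hne : y i ≠ y j) :
    ∃ z ∈ adm L S B, Phi s z < Phi s y := by
  obtain ⟨y1, y2, y3, y4, y5⟩ := hy
  set c : ℝ := (y i + y j) / 2 with hc
  set z : ι → ℝ := fun l => if l = i ∨ l = j then c else y l with hz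
  have hzi : z i = c := by simp [hz]
  have hzj : z j = c := by simp [hz]
  have hzl : ∀ l, l ≠ i → l ≠ j → z l = y l := by
    intro l h1 h2
    simp [hz, h1, h2]
  have hsq : c ^ 2 + c ^ 2 < y i ^ 2 + y j ^ 2 := by
    have : 0 < (y i - y j) ^ 2 := by
      have := sub_ne_zero.2 hne
      positivity
    rw [hc]; nlinarith
  refine ⟨z, ⟨?_, ?_, ?_, ?_, ?_⟩, ?_⟩
  · intro l hl
    by_cases h1 : l = i
    · subst h1; rw [hzi]; have := y1 l hl; have := y1 j (hL.1 hl); linarith
    by_cases h2 : l = j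
    · subst h2; rw [hzj]; have := y1 l hl; have := y1 i (hL.2 hl); linarith
    rw [hzl l h1 h2]; exact y1 l hl
  · intro l hl
    by_cases h1 : l = i
    · subst h1; rw [hzi]; have := y2 l hl; have := y2 j (fun h => hl (hL.2 h)); linarith
    by_cases h2 : l = j
    · subst h2; rw [hzj]; have := y2 l hl; have := y2 i (fun h => hl (hL.1 h)); linarith
    rw [hzl l h1 h2]; exact y2 l hl
  · by_cases hi : i ∈ L
    · rw [sum_update_two L z y hij hi (hL.1 hi) hzl, hzi, hzj, y3]; ring
    · rw [← y3]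
      apply Finset.sum_congr rfl
      intro l hl
      apply hzl
      · rintro rfl; exact hi hl
      · rintro rfl; exact hi (hL.2 hl)
  · by_cases hi : i ∈ L
    · rw [← y4]
      apply Finset.sum_congr rfl
      intro l hl
      rw [Finset.mem_compl] at hl
      apply hzl
      · rintro rfl; exact hl hi
      · rintro rfl; exact hl (hL.1 hi)
    · rw [sum_update_two Lᶜ z y hij (Finset.mem_compl.2 hi)
        (Finset.mem_compl.2 (fun h => hi (hL.2 h))) hzl, hzi, hzj, y4]; ring
  · have := sum_update_two Finset.univ (fun l => z l ^ 2) (fun l => y l ^ 2) hij (Finset.mem_univ _)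
      (Finset.mem_univ _) (fun l h1 h2 => by show z l ^ 2 = y l ^ 2; rw [hzl l h1 h2])
    rw [this]
    simp only [hzi, hzj]
    linarith
  · -- the second derivative
    set T : Finset ι := (Finset.univ.erase i).erase j with hT
    have hjT : j ∈ Finset.univ.erase i := Finset.mem_erase.2 ⟨hij.symm, Finset.mem_univ _⟩
    have e1 : ∀ w : ι → ℝ, pr Finset.univ w = (1 + C (w i) * X) * ((1 + C (w j) * X) * pr T w) := by
      intro w
      unfold pr
      rw [← Finset.mul_prod_erase _ _ (Finset.mem_univ i), ← Finset.mul_prod_erase _ _ hjT]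
    have e2 : pr T z = pr T y := by
      unfold pr
      apply Finset.prod_congr rfl
      intro l hl
      rw [hT, Finset.mem_erase, Finset.mem_erase] at hl
      rw [hzl l hl.2.1 hl.1]
    have e3 : pr Finset.univ z = pr Finset.univ y + C (((y i - y j) / 2) ^ 2) * (X ^ 2 * pr T y) := by
      rw [e1 z, e1 y, e2, hzi, hzj]
      have h1 : (C c : ℝ[X]) * C c = C (y i) * C (y j) + C (((y i - y j) / 2) ^ 2) := by
        rw [← C_mul, ← C_mul, ← C_add]
        congr 1
        rw [hc]; ring
      have h2 : (C c : ℝ[X]) + C c = C (y i) + C (y j) := by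
        rw [← C_add, ← C_add]
        congr 1
        rw [hc]; ring
      calc (1 + C c * X) * ((1 + C c * X) * pr T y)
          = (1 + (C c + C c) * X + (C c * C c) * X ^ 2) * pr T y := by ring
        _ = _ := by rw [h1, h2]; ring
    have hTsum : ∑ l ∈ T, y l ^ 2 ≤ B :=
      le_trans (Finset.sum_le_sum_of_subset_of_nonneg (Finset.subset_univ _)
        (fun l _ _ => sq_nonneg _)) y5
    have hTneg : ∑ l ∈ T, max (-y l) 0 ≤ S := by
      calc ∑ l ∈ T, max (-y l) 0 ≤ ∑ l, max (-y l) 0 :=
            Finset.sum_le_sum_of_subset_of_nonneg (Finset.subset_univ _)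
              (fun l _ _ => le_max_right _ _)
        _ = ∑ l ∈ L, max (-y l) 0 + ∑ l ∈ Lᶜ, max (-y l) 0 := by
            rw [Finset.sum_add_sum_compl]
        _ = 0 + ∑ l ∈ Lᶜ, -y l := by
            congr 1
            · apply Finset.sum_eq_zero
              intro l hl
              exact max_eq_right (by have := y1 l hl; linarith)
            · apply Finset.sum_congr rfl
              intro l hl
              exact max_eq_left (by have := y2 l (Finset.mem_compl.1 hl); linarith)
        _ = S := by rw [Finset.sum_neg_distrib, y4]; ring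
    have hpos := (smooth_pos T y hs hTsum hTneg hsB hsS).2
    unfold Phi
    rw [e3]
    simp only [derivative_add, eval_add, derivative_C_mul, eval_C_mul]
    have h6 : 0 < ((y i - y j) / 2) ^ 2 := by
      have := sub_ne_zero.2 hne
      positivity
    have := mul_pos h6 hpos
    simp only [derivative_mul, derivative_add, derivative_X_pow] at this ⊢
    linarith

theorem eq_ybar_of_min {L : Finset ι} {s S B : ℝ} (hs : 0 ≤ s) (hsB : s ^ 2 * B ≤ 7 / 90)
    (hsS : s * S ≤ 1 / 3) {y : ι → ℝ} (hy : y ∈ adm L S B)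
    (hmin : ∀ z ∈ adm L S B, Phi s y ≤ Phi s z) : y = ybar L S := by
  have hconst : ∀ i j, (i ∈ L ↔ j ∈ L) → y i = y j := by
    intro i j hL
    by_contra hne
    have hij : i ≠ j := by rintro rfl; exact hne rfl
    obtain ⟨z, hz, hlt⟩ := smoothing hs hsB hsS hy hij hL hne
    exact absurd (hmin z hz) (not_le.2 hlt)
  obtain ⟨y1, y2, y3, y4, y5⟩ := hy
  funext i
  unfold ybar
  split_ifs with h
  · have h1 : ∑ l ∈ L, y l = L.card * y i := by
      rw [← nsmul_eq_mul, ← Finset.sum_const]
      apply Finset.sum_congr rfl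
      intro l hl
      exact hconst l i (by simp [hl, h])
    have h2 : (L.card : ℝ) ≠ 0 := by
      have := Finset.card_pos.2 ⟨i, h⟩
      positivity
    rw [← y3, h1]; field_simp
  · have h1 : ∑ l ∈ Lᶜ, y l = Lᶜ.card * y i := by
      rw [← nsmul_eq_mul, ← Finset.sum_const]
      apply Finset.sum_congr rfl
      intro l hl
      rw [Finset.mem_compl] at hl
      exact hconst l i (by simp [hl, h])
    have h2 : (Lᶜ.card : ℝ) ≠ 0 := by
      have := Finset.card_pos.2 ⟨i, Finset.mem_compl.2 h⟩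
      positivity
    have h3 : S = -(Lᶜ.card * y i) := by rw [← h1, y4]; ring
    rw [h3]; field_simp

/-- **Smoothing.** -/
theorem Phi_ge {L : Finset ι} {s S B : ℝ} (hs : 0 ≤ s) (hsB : s ^ 2 * B ≤ 7 / 90)
    (hsS : s * S ≤ 1 / 3) {y : ι → ℝ} (hy : y ∈ adm L S B) :
    Phi s (ybar L S) ≤ Phi s y ∧ (Phi s y = Phi s (ybar L S) → y = ybar L S) := by
  have hcont : Continuous (Phi s : (ι → ℝ) → ℝ) := (pr_continuous Finset.univ s).2.2.neg
  obtain ⟨w, hw, hmin⟩ := (adm_compact L S B).exists_isMinOn ⟨y, hy⟩ hcont.continuousOn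
  have hwb := eq_ybar_of_min hs hsB hsS hw (fun z hz => hmin hz)
  rw [← hwb]
  refine ⟨hmin hy, fun h => ?_⟩
  rw [hwb]
  exact eq_ybar_of_min hs hsB hsS hy (fun z hz => by rw [h]; exact hmin hz)

end Q79.Turan
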