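import Mathlib
import Pool.Agent.Q79.TuranC

/-!
The core inequality in vector form.
-/

open Set Polynomial

namespace Q79.Turan

/-- The model polynomial. -/
noncomputable def W (j : ℕ) : ℝ[X] :=
  (1 + C (1 / (2 * (j : ℝ) + 6)) * X) ^ (j + 3) * (1 + C (-(1 / (2 * (j : ℝ) + 4))) * X) ^ (j + 2)

theorem W_dd (j : ℕ) (v : ℝ) : (derivative (derivative (W j))).eval v =
    -((2 * j + 5) / ((2 * j + 4) * (2 * j + 6)) * G j v) := by
  have hj : (0 : ℝ) ≤ j := j.cast_nonneg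
  unfold W G
  simp only [derivative_mul, derivative_pow, derivative_add, derivative_one, derivative_C,
    derivative_X, eval_add, eval_mul, eval_one, eval_C, eval_X, eval_zero, derivative_zero,
    eval_pow, Nat.add_sub_cancel, show j + 3 - 1 = j + 2 from rfl, show j + 2 - 1 = j + 1 from rfl,
    Nat.cast_add, Nat.cast_ofNat, derivative_natCast, map_add, map_natCast, map_ofNat,
    eval_natCast, eval_ofNat, derivative_ofNat, Nat.cast_one]
  have e1 : (1 : ℝ) / (2 * j + 6) * v = v / (2 * j + 6) := by ring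
  have e2 : -((1 : ℝ) / (2 * j + 4)) * v = -(v / (2 * j + 4)) := by ring
  have e3 : (1 : ℝ) + -(v / (2 * j + 4)) = 1 - v / (2 * j + 4) := by ring
  rw [e1, e2, e3]
  have key : ((j : ℝ) + 3) * (j + 2) * (1 / (2 * j + 6)) ^ 2 * (1 - v / (2 * j + 4)) ^ 2 -
      2 * ((j : ℝ) + 3) * (j + 2) * (1 / (2 * j + 6)) * (1 / (2 * j + 4)) *
        (1 - v / (2 * j + 4)) * (1 + v / (2 * j + 6)) +
      ((j : ℝ) + 2) * (j + 1) * (1 / (2 * j + 4)) ^ 2 * (1 + v / (2 * j + 6)) ^ 2 =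
      -((2 * j + 5) / ((2 * j + 4) * (2 * j + 6)) * (1 - v ^ 2 / (2 * j + 6))) := by
    field_simp
    ring
  set a := 1 - v / (2 * (j : ℝ) + 4) with hadef
  set b := 1 + v / (2 * (j : ℝ) + 6) with hbdef
  have p1 : b ^ (j + 2) = b ^ (j + 1) * b := pow_succ _ _
  have p2 : b ^ (j + 3) = b ^ (j + 1) * b ^ 2 := by rw [← pow_add]
  have p3 : a ^ (j + 1) = a ^ j * a := pow_succ _ _
  have p4 : a ^ (j + 2) = a ^ j * a ^ 2 := by rw [← pow_add]
  rw [p1, p2, p3, p4]
  linear_combination (a ^ j * b ^ (j + 1)) * key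

variable {ι : Type*} [DecidableEq ι] [Fintype ι]

/-- `n³ / (n² - 1) · G j w`. -/
noncomputable def Cst (j : ℕ) (w : ℝ) : ℝ :=
  (2 * j + 5) ^ 3 / ((2 * j + 4) * (2 * j + 6)) * G j w

theorem Phi_ybar {j : ℕ} {L : Finset ι} (hL : L.card = j + 3) (hLc : Lᶜ.card = j + 2) (S s : ℝ) :
    Phi s (ybar L S) = (2 * S) ^ 2 * ((2 * j + 5) / ((2 * j + 4) * (2 * j + 6)) * G j (2 * S * s)) := by
  have hj : (0 : ℝ) ≤ j := j.cast_nonneg
  have e : pr Finset.univ (ybar L S) = (W j).comp (C (2 * S) * X) := by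
    unfold pr W
    rw [← Finset.prod_mul_prod_compl L]
    have h1 : ∏ i ∈ L, (1 + C (ybar L S i) * X) = (1 + C (S / (j + 3)) * X) ^ (j + 3) := by
      rw [← hL, ← Finset.prod_const]
      apply Finset.prod_congr rfl
      intro i hi
      unfold ybar
      rw [if_pos hi, hL]
      push_cast
      rfl
    have h2 : ∏ i ∈ Lᶜ, (1 + C (ybar L S i) * X) = (1 + C (-(S / (j + 2))) * X) ^ (j + 2) := by
      rw [← hLc, ← Finset.prod_const]
      apply Finset.prod_congr rfl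
      intro i hi
      unfold ybar
      rw [if_neg (Finset.mem_compl.1 hi), hLc]
      push_cast
      rfl
    rw [h1, h2]
    simp only [mul_comp, pow_comp, add_comp, one_comp, C_comp, X_comp]
    have h3 : C (S / ((j : ℝ) + 3)) * X = C (1 / (2 * (j : ℝ) + 6)) * (C (2 * S) * X) := by
      rw [← mul_assoc, ← C_mul]
      congr 2
      field_simp
      ring
    have h4 : C (-(S / ((j : ℝ) + 2))) * X = C (-(1 / (2 * (j : ℝ) + 4))) * (C (2 * S) * X) := by
      rw [← mul_assoc, ← C_mul]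
      congr 2
      field_simp
      ring
    rw [h3, h4]
  unfold Phi
  rw [e]
  have h5 : (derivative (derivative ((W j).comp (C (2 * S) * X)))).eval s =
      (2 * S) ^ 2 * (derivative (derivative (W j))).eval (2 * S * s) := by
    simp only [derivative_comp, derivative_mul, derivative_C, derivative_X, eval_mul, eval_comp,
      eval_C, eval_X, eval_add, eval_zero, eval_one, derivative_add, zero_mul, zero_add, mul_one,
      derivative_zero, derivative_one, mul_zero, add_zero]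
    ring
  rw [h5, W_dd]
  ring

/-- **Core inequality.** -/
theorem core {j : ℕ} (hj1 : 1 ≤ j) {w : ℝ} (hw0 : 0 ≤ w) (hw1 : w ≤ 2 / (j + 2)) (hG : 0 < G j w)
    {L : Finset ι} (hL : L.card = j + 3) (hLc : Lᶜ.card = j + 2) {S : ℝ}
    (hS : 2 * j + 5 ≤ 2 * S) {y : ι → ℝ}
    (hy : y ∈ adm L S ((2 * j + 5) ^ 3 / ((2 * j + 2) * (2 * j + 8)))) :
    ∃ s : ℝ, 0 ≤ s ∧ (∀ i, |y i * s| < 1) ∧ Cst j w ≤ Phi s y ∧
      (Phi s y = Cst j w → 2 * S = 2 * j + 5 ∧ y = ybar L S) := by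
  have hj : (1 : ℝ) ≤ j := by exact_mod_cast hj1
  have hS0 : 0 < S := by linarith
  set B : ℝ := (2 * j + 5) ^ 3 / ((2 * j + 2) * (2 * j + 8)) with hB
  set s : ℝ := w / (2 * S) with hs
  have hs0 : 0 ≤ s := by positivity
  have hsle : s ≤ 2 / ((j + 2) * (2 * j + 5)) := by
    rw [hs, div_le_iff₀ (by positivity)]
    calc w ≤ 2 / (j + 2) := hw1
      _ = 2 / ((j + 2) * (2 * j + 5)) * (2 * j + 5) := by field_simp
      _ ≤ _ := by gcongr
  have hB0 : 0 < B := by positivity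
  have hsB : s ^ 2 * B ≤ 7 / 90 := by
    calc s ^ 2 * B ≤ (2 / (((j : ℝ) + 2) * (2 * j + 5))) ^ 2 * B := by gcongr
      _ = (2 * (j : ℝ) + 5) / ((j + 2) ^ 2 * ((j + 1) * (j + 4))) := by
          rw [hB]; field_simp; ring
      _ ≤ 7 / 90 := by
          rw [div_le_div_iff₀ (by positivity) (by norm_num)]
          nlinarith [mul_nonneg (by linarith : (0:ℝ) ≤ j - 1) (by linarith : (0:ℝ) ≤ j),
            mul_nonneg (mul_nonneg (by linarith : (0:ℝ) ≤ j - 1) (by linarith : (0:ℝ) ≤ j))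
              (by linarith : (0:ℝ) ≤ j),
            mul_nonneg (mul_nonneg (mul_nonneg (by linarith : (0:ℝ) ≤ j - 1)
              (by linarith : (0:ℝ) ≤ j)) (by linarith : (0:ℝ) ≤ j)) (by linarith : (0:ℝ) ≤ j)]
  have hsS : s * S ≤ 1 / 3 := by
    have : s * S = w / 2 := by rw [hs]; field_simp
    rw [this]
    have : w ≤ 2 / 3 := hw1.trans (by rw [div_le_div_iff₀ (by positivity) (by norm_num)]; linarith)
    linarith
  obtain ⟨h1, h2⟩ := Phi_ge hs0 hsB hsS hy
  have h3 : 2 * S * s = w := by rw [hs]; field_simp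
  have h4 : Phi s (ybar L S) = (2 * S) ^ 2 * ((2 * j + 5) / ((2 * j + 4) * (2 * j + 6)) * G j w) := by
    rw [Phi_ybar hL hLc, h3]
  have h5 : Cst j w = (2 * j + 5) ^ 2 * ((2 * j + 5) / ((2 * j + 4) * (2 * j + 6)) * G j w) := by
    unfold Cst; ring
  have hpos : 0 < (2 * (j : ℝ) + 5) / ((2 * j + 4) * (2 * j + 6)) * G j w := by positivity
  have h6 : Cst j w ≤ Phi s (ybar L S) := by
    rw [h4, h5]; gcongr
  refine ⟨s, hs0, ?_, h6.trans h1, fun h => ?_⟩
  · intro i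
    have h7 : y i ^ 2 ≤ B := le_trans (Finset.single_le_sum (f := fun i => y i ^ 2)
      (fun j _ => sq_nonneg _) (Finset.mem_univ i)) hy.2.2.2.2
    rw [← sq_lt_one_iff_abs_lt_one]
    calc (y i * s) ^ 2 = s ^ 2 * y i ^ 2 := by ring
      _ ≤ s ^ 2 * B := by gcongr
      _ < 1 := by linarith
  · have h7 : Phi s (ybar L S) = Cst j w := le_antisymm (by rw [← h]; exact h1) h6
    refine ⟨?_, h2 (by rw [h, h7])⟩
    rw [h4, h5] at h7
    have h8 : (2 * S) ^ 2 = (2 * j + 5) ^ 2 := mul_right_cancel₀ hpos.ne' h7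
    nlinarith

end Q79.Turan
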