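import Mathlib
import Pool.Agent.Q79.TuranD

/-!
The inequality for polynomials with all zeros in `[-1, 1]`.
-/

open Set Polynomial

namespace Q79.Turan

/-- Uniform norm on `[-1, 1]`. -/
noncomputable def nrm (P : ℝ[X]) : ℝ := sSup ((fun x => |P.eval x|) '' Icc (-1) 1)

theorem exists_nrm (P : ℝ[X]) : ∃ x ∈ Icc (-1 : ℝ) 1, |P.eval x| = nrm P ∧
    ∀ z ∈ Icc (-1 : ℝ) 1, |P.eval z| ≤ |P.eval x| := by
  have hc : Continuous (fun x => |P.eval x|) := by fun_prop
  obtain ⟨x, hx, hmax⟩ := (isCompact_Icc : IsCompact (Icc (-1 : ℝ) 1)).exists_isMaxOn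
    ⟨0, by constructor <;> norm_num⟩ hc.continuousOn
  have hall : ∀ z ∈ Icc (-1 : ℝ) 1, |P.eval z| ≤ |P.eval x| := fun z hz => hmax hz
  refine ⟨x, hx, ?_, hall⟩
  have : IsGreatest ((fun x => |P.eval x|) '' Icc (-1) 1) |P.eval x| := by
    refine ⟨⟨x, hx, rfl⟩, ?_⟩
    rintro _ ⟨z, hz, rfl⟩
    exact hall z hz
  exact this.csSup_eq.symm

theorem le_nrm (P : ℝ[X]) {x : ℝ} (hx : x ∈ Icc (-1 : ℝ) 1) : |P.eval x| ≤ nrm P := by
  obtain ⟨z, hz, h1, h2⟩ := exists_nrm P
  rw [← h1]; exact h2 x hx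

variable {ι : Type*} [DecidableEq ι] [Fintype ι]

theorem comp_eq {P : ℝ[X]} {a : ℝ} {t : ι → ℝ} (hP : P = C a * ∏ i, (X - C (t i))) {x : ℝ}
    (hx : ∀ i, x ≠ t i) : P.comp (X + C x) = C (P.eval x) * pr Finset.univ (fun i => 1 / (x - t i)) := by
  have e1 : P.eval x = a * ∏ i, (x - t i) := by
    rw [hP]; simp [eval_prod]
  rw [e1, hP]
  simp only [mul_comp, C_comp, prod_comp, sub_comp, X_comp, C_mul, map_prod]
  rw [mul_assoc]
  congr 1
  unfold pr
  rw [← Finset.prod_mul_distrib]
  apply Finset.prod_congr rfl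
  intro i _
  have h : x - t i ≠ 0 := sub_ne_zero.2 (hx i)
  rw [mul_add, mul_one, ← mul_assoc, ← C_mul]
  have : (x - t i) * (1 / (x - t i)) = 1 := by field_simp
  rw [this, C_sub, C_1]
  ring

theorem deriv_at {P : ℝ[X]} {a : ℝ} {t : ι → ℝ} (hP : P = C a * ∏ i, (X - C (t i))) {x : ℝ}
    (hx : ∀ i, x ≠ t i) (s : ℝ) :
    (derivative P).eval (x + s) = P.eval x *
      (derivative (pr Finset.univ (fun i => 1 / (x - t i)))).eval s ∧
    (derivative (derivative P)).eval (x + s) = -(P.eval x * Phi s (fun i => 1 / (x - t i))) := by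
  have h := comp_eq hP hx
  have h1 := congrArg derivative h
  have h2 := congrArg derivative h1
  have h1' := congrArg (eval s) h1
  have h2' := congrArg (eval s) h2
  simp only [derivative_comp, derivative_add, derivative_X, derivative_C, add_zero, one_mul,
    derivative_C_mul, eval_comp, eval_add, eval_X, eval_C, eval_mul, derivative_mul, zero_mul,
    zero_add, derivative_one, eval_one] at h1' h2'
  rw [add_comm x s]
  refine ⟨h1', ?_⟩
  rw [h2']
  unfold Phi
  ring

/-- First and second derivative at the base point. -/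
theorem deriv_base {P : ℝ[X]} {a : ℝ} {t : ι → ℝ} (hP : P = C a * ∏ i, (X - C (t i))) {x : ℝ}
    (hx : ∀ i, x ≠ t i) :
    (derivative P).eval x = P.eval x * ∑ i, 1 / (x - t i) ∧
    (derivative (derivative P)).eval x = P.eval x *
      ((∑ i, 1 / (x - t i)) ^ 2 - ∑ i, (1 / (x - t i)) ^ 2) := by
  obtain ⟨h1, h2⟩ := deriv_at hP hx 0
  obtain ⟨h3, h4⟩ := pr_derivs Finset.univ (fun i => 1 / (x - t i)) 0 (by simp)
  have h5 : (pr Finset.univ (fun i => 1 / (x - t i))).eval 0 = 1 := by simp [pr_eval]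
  rw [add_zero] at h1 h2
  rw [h5, one_mul] at h3 h4
  simp only [mul_zero, add_zero, div_one] at h3 h4
  constructor
  · rw [h1, h3]
  · rw [h2]; unfold Phi; rw [h4]; ring

theorem sum_sq_le_of_nonneg (z : ι → ℝ) (hz : ∀ i, 0 ≤ z i) : ∑ i, z i ^ 2 ≤ (∑ i, z i) ^ 2 := by
  rw [sq (∑ i, z i), Finset.sum_mul]
  apply Finset.sum_le_sum
  intro i _
  rw [sq]
  apply mul_le_mul_of_nonneg_left _ (hz i)
  exact Finset.single_le_sum (f := z) (fun j _ => hz j) (Finset.mem_univ i)

theorem endpoint (y : ι → ℝ) (hy : ∀ i, 1 / 2 ≤ y i) :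
    (Fintype.card ι : ℝ) * (Fintype.card ι - 1) / 4 ≤ (∑ i, y i) ^ 2 - ∑ i, y i ^ 2 := by
  set z : ι → ℝ := fun i => y i - 1 / 2 with hz
  have hz0 : ∀ i, 0 ≤ z i := fun i => by have := hy i; simp only [hz]; linarith
  have h1 := sum_sq_le_of_nonneg z hz0
  set n : ℝ := (Fintype.card ι : ℝ) with hn
  have e1 : ∑ i, y i = ∑ i, z i + n / 2 := by
    have : ∑ i, y i = ∑ i, (z i + 1 / 2) := Finset.sum_congr rfl (fun i _ => by simp [hz])
    rw [this, Finset.sum_add_distrib]; simp [hn]; ring
  have e2 : ∑ i, y i ^ 2 = ∑ i, z i ^ 2 + ∑ i, z i + n / 4 := by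
    have : ∑ i, y i ^ 2 = ∑ i, (z i ^ 2 + z i + 1 / 4) :=
      Finset.sum_congr rfl (fun i _ => by simp only [hz]; ring)
    rw [this, Finset.sum_add_distrib, Finset.sum_add_distrib]; simp [hn]; ring
  have h2 : 0 ≤ ∑ i, z i := Finset.sum_nonneg (fun i _ => hz0 i)
  rw [e1, e2]
  rcases Nat.eq_zero_or_pos (Fintype.card ι) with h | h
  · have hn0 : n = 0 := by rw [hn, h]; simp
    have hemp : IsEmpty ι := Fintype.card_eq_zero_iff.1 h
    have hzs : ∑ i, z i = 0 := by simp
    have hzq : ∑ i, z i ^ 2 = 0 := by simp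
    rw [hn0, hzs, hzq]
    norm_num
  · have hn1 : 1 ≤ n := by rw [hn]; exact_mod_cast h
    nlinarith

/-- **Main inequality.** -/
theorem main {j : ℕ} (hj1 : 1 ≤ j) {w : ℝ} (hw0 : 0 ≤ w) (hw1 : w ≤ 2 / (j + 2)) (hG : 0 < G j w)
    (hG1 : G j w < (j + 2) * (j + 3) / ((j + 1) * (j + 4)))
    (hcard : Fintype.card ι = 2 * j + 5)
    {P : ℝ[X]} {a : ℝ} (ha : a ≠ 0) {t : ι → ℝ} (ht : ∀ i, t i ∈ Icc (-1 : ℝ) 1)
    (hP : P = C a * ∏ i, (X - C (t i))) :
    Cst j w * nrm P ≤ nrm (derivative (derivative P)) ∧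
    (nrm (derivative (derivative P)) = Cst j w * nrm P →
      ∃ L : Finset ι, (L.card = j + 3 ∨ L.card = j + 2) ∧ (∀ i ∈ L, t i = -1) ∧
        ∀ i ∉ L, t i = 1) := by
  have hj : (1 : ℝ) ≤ j := by exact_mod_cast hj1
  obtain ⟨x, hx, hxn, hmax⟩ := exists_nrm P
  set M : ℝ := nrm P with hM
  have hPne : P ≠ 0 := by
    rw [hP]
    exact mul_ne_zero (C_ne_zero.2 ha) (Finset.prod_ne_zero_iff.2 (fun i _ => X_sub_C_ne_zero _))
  have hM0 : 0 < M := by
    by_contra hcon
    push Not at hcon
    have hz : ∀ z ∈ Icc (-1 : ℝ) 1, P.eval z = 0 := by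
      intro z hz
      have := hmax z hz
      rw [hxn] at this
      exact abs_nonpos_iff.1 (this.trans hcon)
    apply hPne
    apply Polynomial.eq_zero_of_infinite_isRoot
    exact (Icc_infinite (show (-1 : ℝ) < 1 by norm_num)).mono (fun z hz' => hz z hz')
  have hPx : P.eval x ≠ 0 := by
    intro h; rw [h, abs_zero] at hxn; linarith
  have hxt : ∀ i, x ≠ t i := by
    intro i h
    apply hPx
    rw [hP, eval_mul, eval_prod, Finset.prod_eq_zero (Finset.mem_univ i), mul_zero]
    simp [h]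
  set y : ι → ℝ := fun i => 1 / (x - t i) with hy
  obtain ⟨hd1, hd2⟩ := deriv_base hP hxt
  -- abbreviations
  set B : ℝ := (2 * j + 5) ^ 3 / ((2 * j + 2) * (2 * j + 8)) with hB
  have hCB : Cst j w < B := by
    have e : B = (2 * (j : ℝ) + 5) ^ 3 / ((2 * j + 4) * (2 * j + 6)) *
        ((j + 2) * (j + 3) / ((j + 1) * (j + 4))) := by
      rw [hB]; field_simp; ring
    rw [e]; unfold Cst
    gcongr
  have hC0 : 0 < Cst j w := by unfold Cst; positivity
  -- if |P''| is at least B M somewhere, then done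
  have hbig : ∀ z ∈ Icc (-1 : ℝ) 1, B * M ≤ |(derivative (derivative P)).eval z| →
      Cst j w * M < nrm (derivative (derivative P)) := by
    intro z hz h
    calc Cst j w * M < B * M := by gcongr
      _ ≤ _ := h
      _ ≤ _ := le_nrm _ hz
  have hfin : Cst j w * M < nrm (derivative (derivative P)) →
    (Cst j w * M ≤ nrm (derivative (derivative P)) ∧
    (nrm (derivative (derivative P)) = Cst j w * M →
      ∃ L : Finset ι, (L.card = j + 3 ∨ L.card = j + 2) ∧ (∀ i ∈ L, t i = -1) ∧
        ∀ i ∉ L, t i = 1)) := fun h => ⟨h.le, fun h' => absurd h'.symm h.ne⟩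
  have hBend : B ≤ ((2 * j + 5 : ℕ) : ℝ) * ((2 * j + 5 : ℕ) - 1) / 4 := by
    push_cast
    rw [hB, div_le_div_iff₀ (by positivity) (by norm_num)]
    nlinarith [mul_nonneg (by linarith : (0:ℝ) ≤ j - 1) (by linarith : (0:ℝ) ≤ j),
            mul_nonneg (mul_nonneg (by linarith : (0:ℝ) ≤ j - 1) (by linarith : (0:ℝ) ≤ j))
              (by linarith : (0:ℝ) ≤ j),
            mul_nonneg (mul_nonneg (mul_nonneg (by linarith : (0:ℝ) ≤ j - 1)
              (by linarith : (0:ℝ) ≤ j)) (by linarith : (0:ℝ) ≤ j)) (by linarith : (0:ℝ) ≤ j)]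
  rcases eq_or_ne x 1 with hx1 | hx1
  · -- right end point
    apply hfin
    apply hbig x hx
    have h1 := endpoint y (fun i => by
      have h2 := ht i
      have h3 : x - t i > 0 := by
        have := lt_of_le_of_ne h2.2 (fun h => hxt i (by rw [hx1, h]))
        linarith
      simp only [hy]
      rw [div_le_div_iff₀ (by norm_num) h3]
      linarith [h2.1])
    rw [hcard] at h1
    rw [hd2, abs_mul, hxn, mul_comm B]
    apply mul_le_mul_of_nonneg_left _ hM0.le
    exact (hBend.trans h1).trans (le_abs_self _)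
  rcases eq_or_ne x (-1) with hx2 | hx2
  · apply hfin
    apply hbig x hx
    have h1 := endpoint (fun i => - y i) (fun i => by
      have h2 := ht i
      have h3 : 0 < t i - x := by
        have := lt_of_le_of_ne h2.1 (fun h => hxt i (by rw [hx2, h]))
        linarith
      simp only [hy]
      have h4 : -(1 / (x - t i)) = 1 / (t i - x) := by
        rw [← neg_sub (t i) x, one_div_neg_eq_neg_one_div, neg_neg]
      rw [h4, div_le_div_iff₀ (by norm_num) h3]
      linarith [h2.2])
    rw [hcard] at h1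
    simp only [Finset.sum_neg_distrib, neg_sq] at h1
    rw [hd2, abs_mul, hxn, mul_comm B]
    apply mul_le_mul_of_nonneg_left _ hM0.le
    exact (hBend.trans h1).trans (le_abs_self _)
  -- interior maximum
  have hx3 : -1 < x := lt_of_le_of_ne hx.1 (Ne.symm hx2)
  have hx4 : x < 1 := lt_of_le_of_ne hx.2 hx1
  have hd0 : (derivative P).eval x = 0 := by
    have hloc : IsLocalMax (fun z => (P.eval z) ^ 2) x := by
      filter_upwards [Icc_mem_nhds hx3 hx4] with z hz
      exact sq_le_sq.2 (hmax z hz)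
    have hder : HasDerivAt (fun z => (P.eval z) ^ 2) (2 * P.eval x * (derivative P).eval x) x := by
      have := (P.hasDerivAt x).fun_pow 2
      simpa using this
    have := hloc.hasDerivAt_eq_zero hder
    rcases mul_eq_zero.1 this with h | h
    · exact absurd (by linarith [h] : P.eval x = 0) hPx
    · exact h
  have hsum : ∑ i, y i = 0 := by
    rw [hd0] at hd1
    exact (mul_eq_zero.1 hd1.symm).resolve_left hPx
  rw [show (∑ i, 1 / (x - t i)) = 0 from hsum] at hd2
  by_cases hbigq : B ≤ ∑ i, y i ^ 2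
  · apply hfin
    apply hbig x hx
    rw [hd2, abs_mul, hxn, mul_comm B]
    apply mul_le_mul_of_nonneg_left _ hM0.le
    refine hbigq.trans ?_
    have : (0 : ℝ) ^ 2 - ∑ i, (1 / (x - t i)) ^ 2 = -∑ i, y i ^ 2 := by simp [hy]
    rw [this, abs_neg]
    exact le_abs_self _
  push Not at hbigq
  -- the two groups
  set L : Finset ι := Finset.univ.filter (fun i => 0 < y i) with hL
  have hyne : ∀ i, y i ≠ 0 := fun i => one_div_ne_zero (sub_ne_zero.2 (hxt i))
  have hmemL : ∀ i, i ∈ L ↔ 0 < y i := fun i => by simp [hL]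
  have hLpos : ∀ i ∈ L, 0 ≤ y i := fun i hi => ((hmemL i).1 hi).le
  have hLneg : ∀ i ∉ L, y i ≤ 0 := fun i hi => not_lt.1 (fun h => hi ((hmemL i).2 h))
  set S : ℝ := ∑ i ∈ L, y i with hS
  have hSc : ∑ i ∈ Lᶜ, y i = -S := by
    have := Finset.sum_add_sum_compl L y
    rw [hsum] at this
    linarith
  have hcc : L.card + Lᶜ.card = 2 * j + 5 := by rw [Finset.card_add_card_compl, hcard]
  have hleft : ∀ i ∈ L, 1 ≤ y i * (1 + x) := by
    intro i hi
    have h1 := (hmemL i).1 hi
    have h2 : 0 < x - t i := by simpa [hy] using h1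
    simp only [hy]
    rw [div_mul_eq_mul_div, one_mul, le_div_iff₀ h2]
    linarith [(ht i).1]
  have hright : ∀ i ∈ Lᶜ, 1 ≤ (-y i) * (1 - x) := by
    intro i hi
    have h1 := hLneg i (Finset.mem_compl.1 hi)
    have h2 : y i < 0 := lt_of_le_of_ne h1 (hyne i)
    have h3 : x - t i < 0 := by simpa [hy] using h2
    have h4 : -y i = 1 / (t i - x) := by
      simp only [hy]
      rw [← neg_sub (t i) x, one_div_neg_eq_neg_one_div, neg_neg]
    rw [h4, div_mul_eq_mul_div, one_mul, le_div_iff₀ (by linarith)]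
    linarith [(ht i).2]
  have hSk : (L.card : ℝ) ≤ S * (1 + x) := by
    rw [hS, Finset.sum_mul]
    calc (L.card : ℝ) = ∑ i ∈ L, (1 : ℝ) := by simp
      _ ≤ _ := Finset.sum_le_sum hleft
  have hSk' : (Lᶜ.card : ℝ) ≤ S * (1 - x) := by
    have : S * (1 - x) = ∑ i ∈ Lᶜ, (-y i) * (1 - x) := by
      rw [← Finset.sum_mul, Finset.sum_neg_distrib, hSc, neg_neg]
    rw [this]
    calc (Lᶜ.card : ℝ) = ∑ i ∈ Lᶜ, (1 : ℝ) := by simp
      _ ≤ _ := Finset.sum_le_sum hright
  have hccR : (L.card : ℝ) + Lᶜ.card = 2 * j + 5 := by exact_mod_cast hcc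
  have h2S : 2 * (j : ℝ) + 5 ≤ 2 * S := by nlinarith
  have hS0 : 0 < S := by linarith
  -- Cauchy-Schwarz
  have hCS1 : S ^ 2 ≤ L.card * ∑ i ∈ L, y i ^ 2 := by
    have := sq_sum_le_card_mul_sum_sq (s := L) (f := y)
    exact this
  have hCS2 : S ^ 2 ≤ Lᶜ.card * ∑ i ∈ Lᶜ, y i ^ 2 := by
    have := sq_sum_le_card_mul_sum_sq (s := Lᶜ) (f := y)
    rw [hSc, neg_sq] at this
    exact this
  have hsplit : ∑ i ∈ L, y i ^ 2 + ∑ i ∈ Lᶜ, y i ^ 2 = ∑ i, y i ^ 2 :=
    Finset.sum_add_sum_compl L _
  have hk : L.card = j + 3 ∨ L.card = j + 2 := by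
    by_contra hcon
    push Not at hcon
    set k : ℝ := (L.card : ℝ) with hkdef
    set l : ℝ := (Lᶜ.card : ℝ) with hldef
    have hkl : 4 * (k * l) ≤ (2 * j + 2) * (2 * j + 8) := by
      have h3 : L.card ≤ j + 1 ∨ j + 4 ≤ L.card := by omega
      have h4 : (k - l) ^ 2 ≥ 9 := by
        rcases h3 with h | h
        · have h5 : k ≤ j + 1 := by rw [hkdef]; exact_mod_cast h
          have h6 : 3 ≤ l - k := by linarith
          nlinarith
        · have h5 : (j : ℝ) + 4 ≤ k := by rw [hkdef]; exact_mod_cast h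
          have h6 : 3 ≤ k - l := by linarith
          nlinarith
      have h5 : (k + l) ^ 2 - (k - l) ^ 2 = 4 * (k * l) := by ring
      rw [← h5, hccR]
      nlinarith
    have hk0 : 0 ≤ k := Nat.cast_nonneg _
    have hl0 : 0 ≤ l := Nat.cast_nonneg _
    have h6 : S ^ 2 * (2 * j + 5) ≤ k * l * ∑ i, y i ^ 2 := by
      rw [← hsplit, ← hccR]
      nlinarith
    have h7 : k * l * ∑ i, y i ^ 2 ≤ k * l * B :=
      mul_le_mul_of_nonneg_left hbigq.le (mul_nonneg hk0 hl0)
    have h8 : 4 * (k * l * B) ≤ (2 * j + 5) ^ 3 := by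
      have : (2 * (j : ℝ) + 2) * (2 * j + 8) * B = (2 * j + 5) ^ 3 := by
        rw [hB]; field_simp
      rw [← this]
      nlinarith [show 0 < B from hC0.trans hCB]
    have h9 : (2 * (j : ℝ) + 5) ^ 3 ≤ 4 * (S ^ 2 * (2 * j + 5)) := by
      have : (2 * (j : ℝ) + 5) ^ 2 ≤ (2 * S) ^ 2 := by gcongr
      nlinarith
    -- equality everywhere, but the sum of squares is < B
    have hkl0 : 0 < k * l := by
      rcases (mul_nonneg hk0 hl0).eq_or_lt with h | h
      · exfalso
        rw [← h] at h6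
        have : 0 < S ^ 2 * (2 * (j : ℝ) + 5) := by positivity
        linarith
      · exact h
    have h10 : k * l * ∑ i, y i ^ 2 < k * l * B := mul_lt_mul_of_pos_left hbigq hkl0
    linarith
  -- final argument
  have hfinal : ∀ (σ : ℝ) (hσ : |σ| = 1) (L' : Finset ι) (hL' : L'.card = j + 3)
      (hLc' : L'ᶜ.card = j + 2) (hadm : (fun i => σ * y i) ∈ adm L' S B),
      Cst j w * M ≤ nrm (derivative (derivative P)) ∧
      (nrm (derivative (derivative P)) = Cst j w * M → 2 * S = 2 * j + 5 ∧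
        (fun i => σ * y i) = ybar L' S) := by
    intro σ hσ L' hL' hLc' hadm
    obtain ⟨s, hs0, hs1, hs2, hs3⟩ := core hj1 hw0 hw1 hG hL' hLc' h2S hadm
    have hσ2 : σ * σ = 1 := by
      rcases (abs_eq (by norm_num : (0:ℝ) ≤ 1)).1 hσ with h | h <;> rw [h] <;> norm_num
    have hPhi : Phi s (fun i => σ * y i) = Phi (σ * s) y := by
      unfold Phi
      have e : pr Finset.univ (fun i => σ * y i) = (pr Finset.univ y).comp (C σ * X) := by
        unfold pr
        rw [prod_comp]
        apply Finset.prod_congr rfl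
        intro i _
        simp only [add_comp, one_comp, mul_comp, C_comp, X_comp, C_mul]
        ring
      rw [e]
      simp only [derivative_comp, derivative_mul, derivative_C, derivative_X, eval_mul, eval_comp,
        eval_C, eval_X, eval_add, eval_zero, eval_one, derivative_add, zero_mul, zero_add, mul_one,
        derivative_zero, derivative_one, mul_zero, add_zero]
      rw [← mul_assoc, hσ2, one_mul]
    have hmem : x + σ * s ∈ Icc (-1 : ℝ) 1 := by
      have hLne : L.Nonempty := Finset.card_pos.1 (by omega)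
      have hLcne : Lᶜ.Nonempty := Finset.card_pos.1 (by omega)
      obtain ⟨p, hp⟩ := hLne
      obtain ⟨q, hq⟩ := hLcne
      have hp1 := hleft p hp
      have hq1 := hright q hq
      have hp2 := (abs_lt.1 (hs1 p))
      have hq2 := (abs_lt.1 (hs1 q))
      have hσs : |σ * s| = s := by rw [abs_mul, hσ, one_mul, abs_of_nonneg hs0]
      have hps : y p * s < 1 := by
        have h1 : |σ * y p * s| < 1 := hs1 p
        rw [mul_assoc, abs_mul, hσ, one_mul] at h1
        exact (abs_lt.1 h1).2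
      have hqs : -y q * s < 1 := by
        have h1 : |σ * y q * s| < 1 := hs1 q
        rw [mul_assoc, abs_mul, hσ, one_mul] at h1
        have := (abs_lt.1 h1).1
        linarith
      have hyp : 0 < y p := (hmemL p).1 hp
      have hyq : 0 < -y q := by
        have := lt_of_le_of_ne (hLneg q (Finset.mem_compl.1 hq)) (hyne q)
        linarith
      have hsp : s < 1 + x := by
        by_contra hc
        push Not at hc
        nlinarith
      have hsq : s < 1 - x := by
        by_contra hc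
        push Not at hc
        nlinarith
      have := abs_le.1 hσs.le
      constructor
      · linarith [this.1]
      · linarith [this.2]
    have hval := (deriv_at hP hxt (σ * s)).2
    have habs : |(derivative (derivative P)).eval (x + σ * s)| = M * Phi s (fun i => σ * y i) := by
      rw [hval, abs_neg, abs_mul, hxn, hPhi]
      congr 1
      rw [← hPhi]
      exact abs_of_nonneg (hC0.le.trans hs2)
    have h11 : M * Phi s (fun i => σ * y i) ≤ nrm (derivative (derivative P)) := by
      rw [← habs]; exact le_nrm _ hmem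
    refine ⟨?_, fun h => hs3 ?_⟩
    · rw [mul_comm]
      exact le_trans (mul_le_mul_of_nonneg_left hs2 hM0.le) h11
    · rw [h, mul_comm (Cst j w)] at h11
      exact le_antisymm (le_of_mul_le_mul_left h11 hM0) hs2
  have hconcl : ∀ i, 2 * S = 2 * j + 5 → (i ∈ L → y i = S / L.card) → (i ∉ L → y i = -(S / Lᶜ.card)) →
      (i ∈ L → t i = -1) ∧ (i ∉ L → t i = 1) := by
    intro i h2 h3 h4
    have hk0 : (0 : ℝ) < L.card := by
      have : 0 < L.card := by omega
      exact_mod_cast this
    have hl0 : (0 : ℝ) < Lᶜ.card := by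
      have : 0 < Lᶜ.card := by omega
      exact_mod_cast this
    have e1 : (L.card : ℝ) = S * (1 + x) := by nlinarith
    have e2 : (Lᶜ.card : ℝ) = S * (1 - x) := by nlinarith
    have hxi : x - t i ≠ 0 := sub_ne_zero.2 (hxt i)
    constructor
    · intro hi
      have h5 : 1 / (x - t i) = S / L.card := h3 hi
      rw [div_eq_div_iff hxi hk0.ne'] at h5
      rw [e1] at h5
      have : S * (1 + x) = S * (x - t i) := by linarith
      have := mul_left_cancel₀ hS0.ne' this
      linarith
    · intro hi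
      have h5 : 1 / (x - t i) = -(S / Lᶜ.card) := h4 hi
      rw [← neg_div, div_eq_div_iff hxi hl0.ne'] at h5
      rw [e2] at h5
      have : S * (1 - x) = S * (t i - x) := by linarith
      have := mul_left_cancel₀ hS0.ne' this
      linarith
  rcases hk with hk | hk
  · have hkc : Lᶜ.card = j + 2 := by omega
    obtain ⟨h1, h2⟩ := hfinal 1 (by norm_num) L hk hkc
      (by simp only [one_mul]; exact ⟨hLpos, hLneg, rfl, hSc, hbigq.le⟩)
    refine ⟨h1, fun h => ⟨L, Or.inl hk, ?_⟩⟩
    obtain ⟨h3, h4⟩ := h2 h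
    have h5 : ∀ i, y i = ybar L S i := fun i => by
      have := congrFun h4 i; simpa using this
    have h6 := fun i => hconcl i h3 (fun hi => by rw [h5 i]; unfold ybar; rw [if_pos hi])
      (fun hi => by rw [h5 i]; unfold ybar; rw [if_neg hi])
    exact ⟨fun i hi => (h6 i).1 hi, fun i hi => (h6 i).2 hi⟩
  · have hkc : Lᶜ.card = j + 3 := by omega
    have hkcc : Lᶜᶜ.card = j + 2 := by rw [compl_compl]; exact hk
    obtain ⟨h1, h2⟩ := hfinal (-1) (by norm_num) Lᶜ hkc hkcc (by
      refine ⟨?_, ?_, ?_, ?_, ?_⟩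
      · intro i hi
        have := hLneg i (Finset.mem_compl.1 hi)
        linarith
      · intro i hi
        rw [Finset.mem_compl, not_not] at hi
        have := hLpos i hi
        linarith
      · simp only [neg_mul, one_mul, Finset.sum_neg_distrib, hSc, neg_neg]
      · rw [compl_compl]
        simp only [neg_mul, one_mul, Finset.sum_neg_distrib]
        rfl
      · simp only [neg_mul, one_mul, neg_sq]
        exact hbigq.le)
    refine ⟨h1, fun h => ⟨L, Or.inr hk, ?_⟩⟩
    obtain ⟨h3, h4⟩ := h2 h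
    have h5 : ∀ i, y i = -ybar Lᶜ S i := fun i => by
      have := congrFun h4 i
      simp only [neg_mul, one_mul] at this
      linarith
    have h6 := fun i => hconcl i h3
      (fun hi => by
        rw [h5 i]; unfold ybar
        rw [if_neg (by simpa using hi), compl_compl, neg_neg])
      (fun hi => by
        rw [h5 i]; unfold ybar
        rw [if_pos (by simpa using hi)])
    exact ⟨fun i hi => (h6 i).1 hi, fun i hi => (h6 i).2 hi⟩

end Q79.Turan
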