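import Mathlib
import Pool.Agent.Q79.TuranE

/-!
The polynomial `(1 - X)^m (1 + X)^(m+1)`.
-/

open Set Polynomial

namespace Q79.Turan

/-- The conjectured extremal polynomial. -/
noncomputable def Q (m : ℕ) : ℝ[X] := (1 - X) ^ m * (1 + X) ^ (m + 1)

/-- Its norm. -/
noncomputable def KQ (j : ℕ) : ℝ :=
  ((2 * j + 6) / (2 * j + 5)) ^ (j + 3) * ((2 * j + 4) / (2 * j + 5)) ^ (j + 2)

theorem KQ_pos (j : ℕ) : 0 < KQ j := by unfold KQ; positivity

theorem Q_eq_W (j : ℕ) : Q (j + 2) = C (KQ j) * (W j).comp (C (2 * (j : ℝ) + 5) * X - 1) := by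
  unfold Q W KQ
  simp only [mul_comp, pow_comp, add_comp, one_comp, C_comp, X_comp, C_mul, C_pow]
  have h1 : (1 : ℝ[X]) + X = C ((2 * (j : ℝ) + 6) / (2 * j + 5)) *
      (1 + C (1 / (2 * (j : ℝ) + 6)) * (C (2 * (j : ℝ) + 5) * X - 1)) := by
    have e1 : C ((2 * (j : ℝ) + 6) / (2 * j + 5)) * C (1 / (2 * (j : ℝ) + 6)) *
        C (2 * (j : ℝ) + 5) = 1 := by
      rw [← C_mul, ← C_mul, ← C_1]; congr 1; field_simp
    have e2 : C ((2 * (j : ℝ) + 6) / (2 * j + 5)) - C ((2 * (j : ℝ) + 6) / (2 * j + 5)) *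
        C (1 / (2 * (j : ℝ) + 6)) = 1 := by
      rw [← C_mul, ← C_sub, ← C_1]; congr 1; field_simp; ring
    linear_combination (-X) * e1 - e2
  have h2 : (1 : ℝ[X]) - X = C ((2 * (j : ℝ) + 4) / (2 * j + 5)) *
      (1 + C (-(1 / (2 * (j : ℝ) + 4))) * (C (2 * (j : ℝ) + 5) * X - 1)) := by
    have e1 : C ((2 * (j : ℝ) + 4) / (2 * j + 5)) * C (-(1 / (2 * (j : ℝ) + 4))) *
        C (2 * (j : ℝ) + 5) = -1 := by
      rw [← C_mul, ← C_mul, ← C_1, ← C_neg]; congr 1; field_simp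
    have e2 : C ((2 * (j : ℝ) + 4) / (2 * j + 5)) - C ((2 * (j : ℝ) + 4) / (2 * j + 5)) *
        C (-(1 / (2 * (j : ℝ) + 4))) = 1 := by
      rw [← C_mul, ← C_sub, ← C_1]; congr 1; field_simp; ring
    linear_combination (-X) * e1 - e2
  rw [h1, h2, mul_pow, mul_pow]
  ring

theorem Q_eval (j : ℕ) (x : ℝ) : (Q (j + 2)).eval x = KQ j * (W j).eval ((2 * j + 5) * x - 1) := by
  rw [Q_eq_W]; simp

theorem Q_dd_eval (j : ℕ) (x : ℝ) : (derivative (derivative (Q (j + 2)))).eval x =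
    -(KQ j * Cst j ((2 * j + 5) * x - 1)) := by
  rw [Q_eq_W]
  simp only [derivative_comp, derivative_mul, derivative_C, derivative_X, eval_mul, eval_comp,
    eval_C, eval_X, derivative_sub, derivative_one, zero_mul, zero_add, mul_one, sub_zero,
    mul_zero, add_zero, eval_sub, eval_one, W_dd, derivative_zero, eval_zero]
  unfold Cst
  ring

theorem W_abs_le (j : ℕ) {v : ℝ} (h1 : -(2 * j + 6) ≤ v) (h2 : v ≤ 2 * j + 4) :
    |(W j).eval v| ≤ 1 := by
  have hj : (0 : ℝ) ≤ j := j.cast_nonneg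
  have ha : 0 ≤ 1 + -(1 / (2 * (j : ℝ) + 4)) * v := by
    have : v / (2 * (j : ℝ) + 4) ≤ 1 := by rw [div_le_one (by positivity)]; exact h2
    have e : -(1 / (2 * (j : ℝ) + 4)) * v = -(v / (2 * j + 4)) := by ring
    rw [e]; linarith
  have hb : 0 ≤ 1 + 1 / (2 * (j : ℝ) + 6) * v := by
    have : -1 ≤ v / (2 * (j : ℝ) + 6) := by rw [le_div_iff₀ (by positivity)]; linarith
    have e : 1 / (2 * (j : ℝ) + 6) * v = v / (2 * j + 6) := by ring
    rw [e]; linarith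
  have e : (W j).eval v = (1 + 1 / (2 * (j : ℝ) + 6) * v) ^ (j + 3) *
      (1 + -(1 / (2 * (j : ℝ) + 4)) * v) ^ (j + 2) := by
    unfold W; simp
  rw [e, abs_of_nonneg (by positivity)]
  have ha' := Real.add_one_le_exp (-(1 / (2 * (j : ℝ) + 4)) * v)
  have hb' := Real.add_one_le_exp (1 / (2 * (j : ℝ) + 6) * v)
  calc (1 + 1 / (2 * (j : ℝ) + 6) * v) ^ (j + 3) * (1 + -(1 / (2 * (j : ℝ) + 4)) * v) ^ (j + 2)
      ≤ Real.exp (1 / (2 * (j : ℝ) + 6) * v) ^ (j + 3) *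
        Real.exp (-(1 / (2 * (j : ℝ) + 4)) * v) ^ (j + 2) := by
        gcongr
        · linarith
        · linarith
    _ = 1 := by
        rw [← Real.exp_nat_mul, ← Real.exp_nat_mul, ← Real.exp_add, Real.exp_eq_one_iff]
        push_cast
        field_simp
        ring

theorem W_zero (j : ℕ) : (W j).eval 0 = 1 := by unfold W; simp

theorem nrm_eq {P : ℝ[X]} {c x : ℝ} (hx : x ∈ Icc (-1 : ℝ) 1) (hc : |P.eval x| = c)
    (h : ∀ z ∈ Icc (-1 : ℝ) 1, |P.eval z| ≤ c) : nrm P = c := by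
  have : IsGreatest ((fun x => |P.eval x|) '' Icc (-1) 1) c := by
    refine ⟨⟨x, hx, hc⟩, ?_⟩
    rintro _ ⟨z, hz, rfl⟩
    exact h z hz
  exact this.csSup_eq

theorem mem_range (j : ℕ) {x : ℝ} (hx : x ∈ Icc (-1 : ℝ) 1) :
    -(2 * (j : ℝ) + 6) ≤ (2 * j + 5) * x - 1 ∧ (2 * (j : ℝ) + 5) * x - 1 ≤ 2 * j + 4 := by
  have hj : (0 : ℝ) ≤ j := j.cast_nonneg
  obtain ⟨h1, h2⟩ := hx
  constructor <;> nlinarith

theorem nrm_Q (j : ℕ) : nrm (Q (j + 2)) = KQ j := by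
  have hj : (0 : ℝ) ≤ j := j.cast_nonneg
  apply nrm_eq (x := 1 / (2 * j + 5))
  · constructor
    · have : (0 : ℝ) ≤ 1 / (2 * j + 5) := by positivity
      linarith
    · rw [div_le_one (by positivity)]; linarith
  · rw [Q_eval]
    have : (2 * (j : ℝ) + 5) * (1 / (2 * j + 5)) - 1 = 0 := by field_simp; ring
    rw [this, W_zero, mul_one, abs_of_pos (KQ_pos j)]
  · intro z hz
    rw [Q_eval, abs_mul, abs_of_pos (KQ_pos j)]
    obtain ⟨h1, h2⟩ := mem_range j hz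
    calc KQ j * |(W j).eval ((2 * j + 5) * z - 1)| ≤ KQ j * 1 :=
          mul_le_mul_of_nonneg_left (W_abs_le j h1 h2) (KQ_pos j).le
      _ = _ := mul_one _

theorem nrm_Q_dd {j : ℕ} {w : ℝ} (hw0 : 0 ≤ w) (hw1 : w ≤ 2 * j + 4)
    (hmax : ∀ v : ℝ, -(2 * j + 6) ≤ v → v ≤ 2 * j + 4 → |G j v| ≤ G j w) :
    nrm (derivative (derivative (Q (j + 2)))) = KQ j * Cst j w := by
  have hj : (0 : ℝ) ≤ j := j.cast_nonneg
  have hG0 : 0 ≤ G j w := (abs_nonneg _).trans (hmax 0 (by linarith) (by linarith))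
  have hc : (0 : ℝ) ≤ (2 * j + 5) ^ 3 / ((2 * j + 4) * (2 * j + 6)) := by positivity
  apply nrm_eq (x := (w + 1) / (2 * j + 5))
  · constructor
    · have : (0 : ℝ) ≤ (w + 1) / (2 * j + 5) := by positivity
      linarith
    · rw [div_le_one (by positivity)]; linarith
  · rw [Q_dd_eval]
    have : (2 * (j : ℝ) + 5) * ((w + 1) / (2 * j + 5)) - 1 = w := by field_simp; ring
    rw [this, abs_neg, abs_of_nonneg]
    unfold Cst
    exact mul_nonneg (KQ_pos j).le (mul_nonneg hc hG0)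
  · intro z hz
    rw [Q_dd_eval, abs_neg, abs_mul, abs_of_pos (KQ_pos j)]
    obtain ⟨h1, h2⟩ := mem_range j hz
    apply mul_le_mul_of_nonneg_left _ (KQ_pos j).le
    unfold Cst
    rw [abs_mul, abs_of_nonneg hc]
    exact mul_le_mul_of_nonneg_left (hmax _ h1 h2) hc

theorem Q_eq_roots (m : ℕ) : Q m = C ((-1) ^ m) * ((X - C 1) ^ m * (X - C (-1)) ^ (m + 1)) := by
  unfold Q
  have h1 : (1 : ℝ[X]) - X = C (-1) * (X - C 1) := by rw [C_neg, C_1]; ring
  have h2 : (1 : ℝ[X]) + X = X - C (-1) := by rw [C_neg, C_1]; ring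
  rw [h1, h2, mul_pow, C_pow]
  ring

theorem Q_roots (m : ℕ) : (Q m).roots = Multiset.replicate m 1 + Multiset.replicate (m + 1) (-1) := by
  have h0 : ((-1 : ℝ)) ^ m ≠ 0 := pow_ne_zero _ (by norm_num)
  rw [Q_eq_roots, roots_C_mul _ h0, roots_mul (mul_ne_zero (pow_ne_zero _ (X_sub_C_ne_zero _))
    (pow_ne_zero _ (X_sub_C_ne_zero _))), roots_pow, roots_pow, roots_X_sub_C, roots_X_sub_C,
    Multiset.nsmul_singleton, Multiset.nsmul_singleton]

theorem Q_natDegree (m : ℕ) : (Q m).natDegree = 2 * m + 1 := by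
  have h0 : ((-1 : ℝ)) ^ m ≠ 0 := pow_ne_zero _ (by norm_num)
  rw [Q_eq_roots, natDegree_C_mul h0, natDegree_mul (pow_ne_zero _ (X_sub_C_ne_zero _))
    (pow_ne_zero _ (X_sub_C_ne_zero _)), natDegree_pow, natDegree_pow, natDegree_X_sub_C,
    natDegree_X_sub_C]
  ring

theorem nrm_C_mul (a : ℝ) (P : ℝ[X]) : nrm (C a * P) = |a| * nrm P := by
  obtain ⟨x, hx, h1, h2⟩ := exists_nrm P
  apply nrm_eq hx
  · rw [eval_mul, eval_C, abs_mul, h1]
  · intro z hz
    rw [eval_mul, eval_C, abs_mul]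
    exact mul_le_mul_of_nonneg_left (le_nrm P hz) (abs_nonneg _)

theorem nrm_comp_neg (P : ℝ[X]) : nrm (P.comp (-X)) = nrm P := by
  obtain ⟨x, hx, h1, h2⟩ := exists_nrm P
  apply nrm_eq (x := -x) ⟨by linarith [hx.2], by linarith [hx.1]⟩
  · simp [h1]
  · intro z hz
    simp only [eval_comp, eval_neg, eval_X]
    exact le_nrm P ⟨by linarith [hz.2], by linarith [hz.1]⟩

/-- Factorisation over an index type. -/
theorem exists_factor {P : ℝ[X]} (hP : P ≠ 0) (hr : P.roots.card = P.natDegree) :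
    ∃ (t : Fin P.natDegree → ℝ), P = C P.leadingCoeff * ∏ i, (X - C (t i)) ∧
      ∀ i, t i ∈ P.roots := by
  have h1 := C_leadingCoeff_mul_prod_multiset_X_sub_C hr
  have hlen : P.roots.toList.length = P.natDegree := by rw [Multiset.length_toList, hr]
  refine ⟨fun i => P.roots.toList.get (i.cast hlen.symm), ?_, fun i => ?_⟩
  · conv_lhs => rw [← h1]
    congr 1
    have h2 : (P.roots.map fun a => X - C a).prod = (P.roots.toList.map fun a => X - C a).prod := by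
      conv_lhs => rw [← Multiset.coe_toList P.roots]
      rw [Multiset.map_coe, Multiset.prod_coe]
    rw [h2]
    rw [← Fin.prod_univ_fun_getElem]
    exact Fintype.prod_equiv (finCongr hlen) _ _ (fun i => by simp)
  · rw [← Multiset.mem_toList]
    exact List.get_mem _ _

end Q79.Turan
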