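import Mathlib
import Pool.Agent.Q79.TuranF

/-!
Explicit second and third derivatives of `(1 - X)^m (1 + X)^(m+1)`, `m = i + 3`.
-/

open Set Polynomial

namespace Q79.Turan

theorem der_pow_one_sub (k : ℕ) : derivative ((1 - X : ℝ[X]) ^ (k + 1)) =
    -(((k : ℝ[X]) + 1) * (1 - X) ^ k) := by
  rw [derivative_pow_succ]; simp

theorem der_pow_one_add (k : ℕ) : derivative ((1 + X : ℝ[X]) ^ (k + 1)) =
    ((k : ℝ[X]) + 1) * (1 + X) ^ k := by
  rw [derivative_pow_succ]; simp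

theorem Q_d_formula (i : ℕ) : derivative (Q (i + 3)) =
    (1 - X) ^ (i + 2) * (1 + X) ^ (i + 3) * (1 - (2 * (i : ℝ[X]) + 7) * X) := by
  unfold Q
  rw [derivative_mul, show i + 3 + 1 = (i + 3) + 1 from rfl, der_pow_one_add,
    show i + 3 = (i + 2) + 1 from rfl, der_pow_one_sub]
  push_cast
  have h1 : (1 - X : ℝ[X]) ^ (i + 2 + 1) = (1 - X) ^ (i + 2) * (1 - X) := pow_succ _ _
  have h2 : (1 + X : ℝ[X]) ^ (i + 2 + 1 + 1) = (1 + X) ^ (i + 2 + 1) * (1 + X) := pow_succ _ _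
  rw [h1, h2]
  ring

theorem Q_dd_formula (i : ℕ) : derivative (derivative (Q (i + 3))) =
    2 * ((i : ℝ[X]) + 3) * ((1 - X) ^ (i + 1) * (1 + X) ^ (i + 2) *
      ((2 * (i : ℝ[X]) + 7) * X ^ 2 - 2 * X - 1)) := by
  rw [Q_d_formula, derivative_mul, derivative_mul, show i + 3 = (i + 2) + 1 from rfl,
    der_pow_one_add, show i + 2 = (i + 1) + 1 from rfl, der_pow_one_sub]
  have h0 : derivative (1 - (2 * (i : ℝ[X]) + 7) * X) = -(2 * (i : ℝ[X]) + 7) := by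
    simp [derivative_mul, derivative_natCast]
  rw [h0]
  push_cast
  have h1 : (1 - X : ℝ[X]) ^ (i + 1 + 1) = (1 - X) ^ (i + 1) * (1 - X) := pow_succ _ _
  have h2 : (1 + X : ℝ[X]) ^ (i + 1 + 1 + 1) = (1 + X) ^ (i + 1 + 1) * (1 + X) := pow_succ _ _
  rw [h1, h2]
  ring

theorem Q_ddd_formula (i : ℕ) : derivative (derivative (derivative (Q (i + 3)))) =
    -(2 * ((i : ℝ[X]) + 3) * ((1 - X) ^ i * (1 + X) ^ (i + 1) *
      ((2 * (i : ℝ[X]) + 7) * (2 * (i : ℝ[X]) + 5) * X ^ 3 - 3 * (2 * (i : ℝ[X]) + 5) * X ^ 2 -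
        3 * (2 * (i : ℝ[X]) + 5) * X + 3))) := by
  rw [Q_dd_formula]
  have h00 : derivative (2 * ((i : ℝ[X]) + 3)) = 0 := by
    simp [derivative_mul, derivative_natCast]
  rw [derivative_mul, h00, zero_mul, zero_add, derivative_mul, derivative_mul,
    show i + 2 = (i + 1) + 1 from rfl, der_pow_one_add, der_pow_one_sub]
  have h0 : derivative ((2 * (i : ℝ[X]) + 7) * X ^ 2 - 2 * X - 1) =
      2 * (2 * (i : ℝ[X]) + 7) * X - 2 := by
    simp [derivative_mul, derivative_natCast]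
    ring
  rw [h0]
  push_cast
  have h1 : (1 - X : ℝ[X]) ^ (i + 1) = (1 - X) ^ i * (1 - X) := pow_succ _ _
  have h2 : (1 + X : ℝ[X]) ^ (i + 1 + 1) = (1 + X) ^ (i + 1) * (1 + X) := pow_succ _ _
  rw [h1, h2]
  ring

theorem Q_dd_eval' (i : ℕ) (x : ℝ) : (derivative (derivative (Q (i + 3)))).eval x =
    2 * ((i : ℝ) + 3) * ((1 - x) ^ (i + 1) * (1 + x) ^ (i + 2) *
      ((2 * (i : ℝ) + 7) * x ^ 2 - 2 * x - 1)) := by
  rw [Q_dd_formula]; simp

theorem Q_ddd_eval (i : ℕ) (x : ℝ) : (derivative (derivative (derivative (Q (i + 3))))).eval x =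
    -(2 * ((i : ℝ) + 3) * ((1 - x) ^ i * (1 + x) ^ (i + 1) *
      ((2 * i + 7) * (2 * i + 5) * x ^ 3 - 3 * (2 * i + 5) * x ^ 2 - 3 * (2 * i + 5) * x + 3))) := by
  rw [Q_ddd_formula]; simp

end Q79.Turan
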